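import Pool.Agent.Lib.MP_c17912_pr_TC.ROA

/-!
# MP_c17912_pr, project TC: a singular linear equation on the circle
-/

set_option autoImplicit false

open MeasureTheory ProbabilityTheory Filter Set
open scoped NNReal ENNReal Topology Real

namespace Pool.Agent.SLE

noncomputable section

namespace TCRO

/-- The circle in the coordinate of the line. -/
def XX0 (κ y : ℝ) : ℝ := Real.arctan (κ * y) + π / 2

/-- The line in the coordinate of the circle. -/
def yy (κ x : ℝ) : ℝ := -Real.cos x / (κ * Real.sin x)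

theorem XX0_cont (κ : ℝ) : Continuous (XX0 κ) := by
  unfold XX0
  exact (Real.continuous_arctan.comp (continuous_const.mul continuous_id)).add continuous_const

theorem sin_XX0 (κ y : ℝ) : Real.sin (XX0 κ y) ^ 2 = 1 / (1 + (κ * y) ^ 2) := by
  unfold XX0
  rw [Real.sin_add_pi_div_two, Real.cos_arctan, div_pow, one_pow, Real.sq_sqrt (by positivity)]

theorem sin_XX0_ne (κ y : ℝ) : Real.sin (XX0 κ y) ≠ 0 := by
  intro h
  have h1 := sin_XX0 κ y
  rw [h] at h1
  have : 0 < 1 / (1 + (κ * y) ^ 2) := by positivity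
  rw [← h1] at this
  simp at this

theorem XX0_yy {κ : ℝ} (hκ : 0 < κ) {h : ℝ → ℝ} (hp : Function.Periodic h π) {x : ℝ}
    (hx : Real.sin x ≠ 0) : h (XX0 κ (yy κ x)) = h x := by
  obtain ⟨k, ⟨h1, h2⟩, -⟩ := existsUnique_sub_zsmul_mem_Ico Real.pi_pos x 0
  rw [zero_add] at h2
  rw [zsmul_eq_mul] at h1 h2
  have h3 : x - k * π ≠ 0 := by
    intro h0
    apply hx
    have : x = k * π := by linarith
    rw [this]
    exact Real.sin_int_mul_pi k
  have h1' : 0 < x - k * π := lt_of_le_of_ne h1 (Ne.symm h3)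
  have e1 : κ * yy κ x = Real.tan (x - k * π - π / 2) := by
    have e2 : x - k * π - π / 2 = -(π / 2 - (x - k * π)) := by ring
    rw [e2, Real.tan_neg, Real.tan_pi_div_two_sub, Real.tan_sub_int_mul_pi,
      Real.tan_eq_sin_div_cos, inv_div]
    unfold yy
    field_simp
  have e3 : XX0 κ (yy κ x) = x - k * π := by
    unfold XX0
    rw [e1, Real.arctan_tan (by linarith) (by linarith)]
    ring
  rw [e3]
  exact hp.sub_int_mul_eq k

theorem XX0_deriv (κ y : ℝ) :
    HasDerivAt (XX0 κ) (κ * Real.sin (XX0 κ y) ^ 2) y := by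
  have h1 : HasDerivAt (fun y : ℝ => κ * y) κ y := by
    simpa using (hasDerivAt_id y).const_mul κ
  have h2 := (h1.arctan).add_const (π / 2)
  have h3 : HasDerivAt (XX0 κ) _ y := h2
  refine h3.congr_deriv ?_
  rw [sin_XX0]
  ring

theorem yy_deriv {κ : ℝ} (hκ : 0 < κ) {x : ℝ} (hx : Real.sin x ≠ 0) :
    HasDerivAt (yy κ) (1 / (κ * Real.sin x ^ 2)) x := by
  have h1 := (Real.hasDerivAt_cos x).neg
  have h2 := (Real.hasDerivAt_sin x).const_mul κ
  have h3 : κ * Real.sin x ≠ 0 := mul_ne_zero hκ.ne' hx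
  have h4 := h1.div h2 h3
  have h5 : HasDerivAt (yy κ) _ x := h4
  refine h5.congr_deriv ?_
  have h6 := Real.sin_sq_add_cos_sq x
  rw [div_eq_div_iff (by positivity) (by positivity)]
  simp only [Pi.neg_apply]
  linear_combination κ ^ 2 * Real.sin x ^ 2 * h6

theorem lim_XX0 {κ : ℝ} (hκ : 0 < κ) {h : ℝ → ℝ} (hc : Continuous h)
    (hp : Function.Periodic h π) :
    Tendsto (fun y => h (XX0 κ y)) (cocompact ℝ) (𝓝 (h 0)) := by
  rw [cocompact_eq_atBot_atTop, tendsto_sup]
  constructor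
  · have h1 : Tendsto (XX0 κ) atBot (𝓝 (-(π / 2) + π / 2)) := by
      refine Tendsto.add_const (π / 2) ?_
      exact (tendsto_nhds_of_tendsto_nhdsWithin Real.tendsto_arctan_atBot).comp
        (tendsto_id.const_mul_atBot hκ)
    rw [neg_add_cancel] at h1
    exact (hc.tendsto 0).comp h1
  · have h1 : Tendsto (XX0 κ) atTop (𝓝 (π / 2 + π / 2)) := by
      refine Tendsto.add_const (π / 2) ?_
      exact (tendsto_nhds_of_tendsto_nhdsWithin Real.tendsto_arctan_atTop).comp
        (tendsto_id.const_mul_atTop hκ)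
    rw [add_halves] at h1
    have h2 := (hc.tendsto π).comp h1
    have h3 : h π = h 0 := by
      have := hp 0
      rwa [zero_add] at this
    rw [h3] at h2
    exact h2

theorem cos_ne {x : ℝ} (hx : Real.sin x = 0) : Real.cos x ≠ 0 := by
  intro h
  have := Real.sin_sq_add_cos_sq x
  rw [h, hx] at this
  norm_num at this

theorem ev_sin {x : ℝ} (hx : Real.sin x = 0) : ∀ᶠ z in 𝓝[≠] x, Real.sin z ≠ 0 :=
  (Real.hasDerivAt_sin x).eventually_ne (cos_ne hx)

theorem lim_yy {κ : ℝ} (hκ : 0 < κ) {x : ℝ} (hx : Real.sin x = 0) :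
    Tendsto (yy κ) (𝓝[≠] x) (cocompact ℝ) := by
  rw [← Metric.cobounded_eq_cocompact, ← tendsto_norm_atTop_iff_cobounded]
  have h1 : Tendsto (fun z => |Real.sin z|) (𝓝[≠] x) (𝓝[>] 0) := by
    refine tendsto_nhdsWithin_iff.2 ⟨?_, ?_⟩
    · have := (Real.continuous_sin.abs.tendsto x).mono_left (nhdsWithin_le_nhds (s := {x}ᶜ))
      rw [hx, abs_zero] at this
      exact this
    · filter_upwards [ev_sin hx] with z hz
      exact abs_pos.2 hz
  have h2 : Tendsto (fun z => |Real.sin z|⁻¹) (𝓝[≠] x) atTop := tendsto_inv_nhdsGT_zero.comp h1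
  have h3 : Tendsto (fun z => |Real.cos z| / κ) (𝓝[≠] x) (𝓝 (|Real.cos x| / κ)) :=
    ((Real.continuous_cos.abs.div_const κ).tendsto x).mono_left nhdsWithin_le_nhds
  have h4 : 0 < |Real.cos x| / κ := div_pos (abs_pos.2 (cos_ne hx)) hκ
  refine (h3.pos_mul_atTop h4 h2).congr fun z => ?_
  rw [yy, Real.norm_eq_abs, abs_div, abs_neg, abs_mul, abs_of_pos hκ]
  field_simp

/-- Circle version, positive coefficient at the zero. -/
theorem circ_sol {κ : ℝ} (hκ : 0 < κ) {β G : ℝ → ℝ} (hβ : Continuous β) (hG : Continuous G)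
    (hβp : Function.Periodic β π) (hGp : Function.Periodic G π) (h0 : 0 < β 0) :
    ∃ u : ℝ → ℝ, Continuous u ∧ Function.Periodic u π ∧
      (∀ x, Real.sin x ≠ 0 → HasDerivAt u (2 * (G x - β x * u x) / (κ * Real.sin x ^ 2)) x) ∧
      ((∀ x, 0 < G x) → ∀ x, 0 < u x) := by
  obtain ⟨U, hU, hUl, hUp⟩ := line_sol (b := fun y => β (XX0 κ y)) (g := fun y => G (XX0 κ y))
    (hβ.comp (XX0_cont κ)) (hG.comp (XX0_cont κ)) h0 (lim_XX0 hκ hβ hβp) (lim_XX0 hκ hG hGp)
  obtain ⟨u, hu⟩ : ∃ u : ℝ → ℝ, u = fun x => if Real.sin x = 0 then G 0 / β 0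
    else U (yy κ x) := ⟨_, rfl⟩
  have u0 : ∀ x, Real.sin x = 0 → u x = G 0 / β 0 := fun x hx => by
    rw [hu]
    simp only [hx, if_true]
  have u1 : ∀ x, Real.sin x ≠ 0 → u x = U (yy κ x) := fun x hx => by
    rw [hu]
    simp only [hx, if_false]
  have hd : ∀ x, Real.sin x ≠ 0 →
      HasDerivAt u (2 * (G x - β x * u x) / (κ * Real.sin x ^ 2)) x := by
    intro x hx
    have h1 := (hU (yy κ x)).comp x (yy_deriv hκ hx)
    have h2 : HasDerivAt u _ x := h1.congr_of_eventuallyEq (by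
      filter_upwards [Real.continuous_sin.continuousAt.eventually_ne hx] with z hz
      exact u1 z hz)
    refine h2.congr_deriv ?_
    rw [u1 x hx, XX0_yy hκ hβp hx, XX0_yy hκ hGp hx]
    ring
  refine ⟨u, ?_, ?_, hd, ?_⟩
  · rw [continuous_iff_continuousAt]
    intro x
    rcases eq_or_ne (Real.sin x) 0 with hx | hx
    · rw [continuousAt_iff_punctured_nhds, u0 x hx]
      refine (hUl.comp (lim_yy hκ hx)).congr' ?_
      filter_upwards [ev_sin hx] with z hz
      exact (u1 z hz).symm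
    · exact (hd x hx).continuousAt
  · intro x
    rw [hu]
    simp only [Real.sin_add_pi, neg_eq_zero, yy, Real.cos_add_pi, mul_neg, neg_div_neg_eq]
  · intro hpos x
    rcases eq_or_ne (Real.sin x) 0 with hx | hx
    · rw [u0 x hx]
      exact div_pos (hpos 0) h0
    · rw [u1 x hx]
      exact hUp (fun y => hpos _) _

/-- Uniqueness on the circle. -/
theorem circ_uniq {κ : ℝ} (hκ : 0 < κ) {β e : ℝ → ℝ} (hβ : Continuous β) (he : Continuous e)
    (hβp : Function.Periodic β π) (hep : Function.Periodic e π) (h0 : 0 < β 0)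
    (hd : ∀ x, Real.sin x ≠ 0 → HasDerivAt e (-(2 * β x * e x) / (κ * Real.sin x ^ 2)) x) :
    ∀ x, Real.sin x ≠ 0 → e x = 0 := by
  obtain ⟨K, hK⟩ := EXaux.bdd he (TRSGN.per2 hep)
  have h := line_uniq (b := fun y => β (XX0 κ y)) (e := fun y => e (XX0 κ y))
    (hβ.comp (XX0_cont κ)) h0 (lim_XX0 hκ hβ hβp) (fun y => by
      have h1 := sin_XX0_ne κ y
      refine ((hd _ h1).comp y (XX0_deriv κ y)).congr_deriv ?_
      field_simp) (fun y => hK _)
  intro x hx
  rw [← XX0_yy hκ hep hx]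
  exact h _

end TCRO

end

end Pool.Agent.SLE
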