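import Pool.Agent.Lib.MP_c17912_pr_TR.SGN

/-!
# MP_c17912_pr, project TC: the angular data of a covariance matrix

`AngD a b c ρ f k1 k2`: everything about the angle of `Z` which is used. It holds for positive
definite matrices (`angD_pd`) and for matrices of rank one in a direction which is neither real
nor imaginary (module ROD).
* `ρ`: stationary density of the angle in the logarithmic clock, `k1` its current.
* `f`: the same for the backward flow; `|g'|^2 f (arg Z)` is a martingale.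
* `mF = ∫ H1 ρ`, `mB = -∫ (H1 f + Cv f')`: the mean logarithmic drifts (forward, backward).
* `sol1`, `sol2`: the Poisson equation of the angle and the one of the angle under the weight
  `|g'|^2 f (arg Z)`.
-/

set_option autoImplicit false

open MeasureTheory ProbabilityTheory Filter
open scoped NNReal ENNReal Topology Real

namespace Pool.Agent.SLE

noncomputable section

/-- The angular data of a covariance matrix. -/
structure AngD (a b c : ℝ) (ρ f : ℝ → ℝ) (k1 k2 : ℝ) : Prop where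
  rs : ∀ n : ℕ, ContDiff ℝ n ρ
  rp : Function.Periodic ρ π
  rpos : ∀ x, 0 < ρ x
  req : ∀ x, Vth a b c x / 2 * deriv ρ x + 2 * Real.sin (2 * x) * ρ x = k1
  fs : ∀ n : ℕ, ContDiff ℝ n f
  fp : Function.Periodic f π
  fpos : ∀ x, 0 < f x
  feq : ∀ x, Vth a b c x / 2 * deriv f x - 2 * Real.sin (2 * x) * f x = k2
  sol1 : ∀ G : ℝ → ℝ, (∀ n : ℕ, ContDiff ℝ n G) → Function.Periodic G π →
    ∫ x in (0 : ℝ)..π, G x * ρ x = 0 →
    ∃ ψ : ℝ → ℝ, (∀ n : ℕ, ContDiff ℝ n ψ) ∧ Function.Periodic ψ π ∧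
      ∀ x, Vth a b c x * deriv (deriv ψ) x / 2 + Bth a b c x * deriv ψ x = G x
  sol2 : ∀ G : ℝ → ℝ, (∀ n : ℕ, ContDiff ℝ n G) → Function.Periodic G π →
    ∫ x in (0 : ℝ)..π, G x * f x = 0 →
    ∃ ψ : ℝ → ℝ, (∀ n : ℕ, ContDiff ℝ n ψ) ∧ Function.Periodic ψ π ∧
      ∀ x, Vth a b c x * deriv (deriv ψ) x / 2 +
        (Bth a b c x + Vth a b c x * (deriv f x / f x)) * deriv ψ x = G x

/-- The forward mean drift of `log |Z|` (unnormalised). -/
def mF (a b c : ℝ) (ρ : ℝ → ℝ) : ℝ := ∫ x in (0 : ℝ)..π, H1 a b c x * ρ x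

/-- The backward mean drift of `log |Z|` (unnormalised). -/
def mB (a b c : ℝ) (f : ℝ → ℝ) : ℝ :=
  -∫ x in (0 : ℝ)..π, (H1 a b c x * f x + Cv a b c x * deriv f x)

namespace TCANG

/-- The second order equation of `f`. -/
theorem second_order {a b c : ℝ} {ρ f : ℝ → ℝ} {k1 k2 : ℝ} (h : AngD a b c ρ f k1 k2) (x : ℝ) :
    Vth a b c x * deriv (deriv f) x / 2 + Bth a b c x * deriv f x =
      4 * Real.cos (2 * x) * f x := by
  have hf' := TRSGN.sm_deriv h.fs
  have h0 : HasDerivAt (fun x : ℝ => 2 * x) 2 x := by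
    simpa using (hasDerivAt_id x).const_mul (2 : ℝ)
  have i1 := (((TRSGN.V_deriv a b c x).div_const 2).mul (TRSGN.hd hf' x)).sub
    (((h0.sin).const_mul 2).mul (TRSGN.hd h.fs x))
  have i2 : (fun x => Vth a b c x / 2 * deriv f x - 2 * Real.sin (2 * x) * f x) =
      fun _ => k2 := funext h.feq
  have i3 : HasDerivAt (fun x => Vth a b c x / 2 * deriv f x - 2 * Real.sin (2 * x) * f x)
      (((a - b) * Real.sin (2 * x) - 2 * c * Real.cos (2 * x)) / 2 * deriv f x +
        Vth a b c x / 2 * deriv (deriv f) x -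
        (2 * (Real.cos (2 * x) * 2) * f x + 2 * Real.sin (2 * x) * deriv f x)) x := i1
  rw [i2] at i3
  have i4 := i3.unique (hasDerivAt_const x k2)
  have hB : Bth a b c x = -2 * Real.sin (2 * x) +
      ((a - b) * Real.sin (2 * x) - 2 * c * Real.cos (2 * x)) / 2 := rfl
  rw [hB]
  linear_combination i4

/-- The logarithm of `f`. -/
theorem log_f {a b c : ℝ} {ρ f : ℝ → ℝ} {k1 k2 : ℝ} (h : AngD a b c ρ f k1 k2) :
    (∀ n : ℕ, ContDiff ℝ n fun x => Real.log (f x)) ∧
      Function.Periodic (fun x => Real.log (f x)) π ∧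
      (∀ x, deriv (fun x => Real.log (f x)) x = deriv f x / f x) ∧
      ∀ x, Vth a b c x * deriv (deriv fun x => Real.log (f x)) x / 2 +
        Bth a b c x * deriv (fun x => Real.log (f x)) x +
        Vth a b c x * deriv (fun x => Real.log (f x)) x ^ 2 / 2 = 4 * Real.cos (2 * x) := by
  have hne : ∀ x, f x ≠ 0 := fun x => (h.fpos x).ne'
  have hf' := TRSGN.sm_deriv h.fs
  have e1 : ∀ x, deriv (fun x => Real.log (f x)) x = deriv f x / f x := fun x =>
    ((TRSGN.hd h.fs x).log (hne x)).deriv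
  have e1' : deriv (fun x => Real.log (f x)) = fun x => deriv f x / f x := funext e1
  have e2 : ∀ x, deriv (deriv fun x => Real.log (f x)) x =
      (deriv (deriv f) x * f x - deriv f x * deriv f x) / f x ^ 2 := by
    intro x
    rw [e1']
    exact ((TRSGN.hd hf' x).div (TRSGN.hd h.fs x) (hne x)).deriv
  refine ⟨fun n => (h.fs n).log hne, fun x => ?_, e1, fun x => ?_⟩
  · simp only
    rw [h.fp x]
  · rw [e1, e2]
    have i1 := second_order h x
    have i2 := hne x
    field_simp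
    field_simp at i1
    linear_combination f x * i1

/-- The first corrector. -/
theorem first {a b c : ℝ} {ρ f : ℝ → ℝ} {k1 k2 : ℝ} (h : AngD a b c ρ f k1 k2) :
    ∃ (lam J : ℝ) (ψ : ℝ → ℝ), 0 < J ∧ lam * J = mF a b c ρ ∧ (∀ n : ℕ, ContDiff ℝ n ψ) ∧
      Function.Periodic ψ π ∧
      ∀ x, Vth a b c x * deriv (deriv ψ) x / 2 + Bth a b c x * deriv ψ x = H1 a b c x - lam := by
  have hρc : Continuous ρ := (h.rs 0).continuous
  have hHc : Continuous (H1 a b c) := (TRSGN.H_smooth a b c 0).continuous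
  obtain ⟨J, hJ⟩ : ∃ J : ℝ, J = ∫ x in (0 : ℝ)..π, ρ x := ⟨_, rfl⟩
  have hJpos : 0 < J := by
    rw [hJ]
    exact intervalIntegral.intervalIntegral_pos_of_pos (hρc.intervalIntegrable _ _)
      h.rpos Real.pi_pos
  obtain ⟨lam, hlam⟩ : ∃ lam : ℝ, lam = mF a b c ρ / J := ⟨_, rfl⟩
  have hlJ : lam * J = mF a b c ρ := by
    rw [hlam]
    exact div_mul_cancel₀ _ hJpos.ne'
  obtain ⟨ψ, h1, h2, h3⟩ := h.sol1 (fun x => H1 a b c x - lam)
    (fun n => (TRSGN.H_smooth a b c n).sub contDiff_const) (fun x => by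
      simp only
      rw [TRSGN.H_per a b c x]) (by
      have e : ∀ x, (H1 a b c x - lam) * ρ x = H1 a b c x * ρ x - lam * ρ x := fun x => by ring
      simp only [e]
      rw [TRSGN.int_sub (f := fun x => H1 a b c x * ρ x) (g := fun x => lam * ρ x) (hHc.mul hρc)
        (continuous_const.mul hρc), intervalIntegral.integral_const_mul, ← hJ, hlJ]
      exact sub_self _)
  exact ⟨lam, J, ψ, hJpos, hlJ, h1, h2, h3⟩

/-- The second corrector. -/
theorem second {a b c : ℝ} {ρ f : ℝ → ℝ} {k1 k2 : ℝ} (h : AngD a b c ρ f k1 k2) :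
    ∃ (lam J : ℝ) (ψ : ℝ → ℝ), 0 < J ∧ lam * J = -mB a b c f ∧ (∀ n : ℕ, ContDiff ℝ n ψ) ∧
      Function.Periodic ψ π ∧
      ∀ x, Vth a b c x * deriv (deriv ψ) x / 2 +
        (Bth a b c x + Vth a b c x * (deriv f x / f x)) * deriv ψ x =
        -(H1 a b c x + Cv a b c x * (deriv f x / f x)) + lam := by
  have hfc : Continuous f := (h.fs 0).continuous
  have hf' := TRSGN.sm_deriv h.fs
  have hf'c : Continuous (deriv f) := (hf' 0).continuous
  have hHc : Continuous (H1 a b c) := (TRSGN.H_smooth a b c 0).continuous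
  have hCc : Continuous (Cv a b c) := (TRSGN.C_smooth a b c 0).continuous
  have hne : ∀ x, f x ≠ 0 := fun x => (h.fpos x).ne'
  have hf'p : Function.Periodic (deriv f) π := EXaux.per_deriv h.fp
  obtain ⟨J, hJ⟩ : ∃ J : ℝ, J = ∫ x in (0 : ℝ)..π, f x := ⟨_, rfl⟩
  have hJpos : 0 < J := by
    rw [hJ]
    exact intervalIntegral.intervalIntegral_pos_of_pos (hfc.intervalIntegrable _ _)
      h.fpos Real.pi_pos
  obtain ⟨lam, hlam⟩ : ∃ lam : ℝ, lam = -mB a b c f / J := ⟨_, rfl⟩
  have hlJ : lam * J = -mB a b c f := by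
    rw [hlam]
    exact div_mul_cancel₀ _ hJpos.ne'
  have hm : -mB a b c f = ∫ x in (0 : ℝ)..π, (H1 a b c x * f x + Cv a b c x * deriv f x) := by
    rw [mB, neg_neg]
  obtain ⟨ψ, h1, h2, h3⟩ := h.sol2
    (fun x => -(H1 a b c x + Cv a b c x * (deriv f x / f x)) + lam)
    (fun n => (((TRSGN.H_smooth a b c n).add ((TRSGN.C_smooth a b c n).mul
      ((hf' n).div (h.fs n) hne))).neg).add contDiff_const) (fun x => by
      simp only
      rw [TRSGN.H_per a b c x, TRSGN.C_per a b c x, hf'p x, h.fp x]) (by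
      have e : ∀ x, (-(H1 a b c x + Cv a b c x * (deriv f x / f x)) + lam) * f x =
          lam * f x - (H1 a b c x * f x + Cv a b c x * deriv f x) := fun x => by
        have := hne x
        field_simp
        ring
      simp only [e]
      rw [TRSGN.int_sub (f := fun x => lam * f x)
        (g := fun x => H1 a b c x * f x + Cv a b c x * deriv f x) (continuous_const.mul hfc)
        ((hHc.mul hfc).add (hCc.mul hf'c)), intervalIntegral.integral_const_mul, ← hJ, hlJ, hm]
      exact sub_self _)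
  exact ⟨lam, J, ψ, hJpos, hlJ, h1, h2, h3⟩

/-- The supermartingales from the correctors. -/
theorem hasS_of {a b c l1 l2 : ℝ} {ψ χ φ : ℝ → ℝ} (hl1 : l1 ≠ 0) (hl2 : l2 ≠ 0)
    (hψs : ∀ n : ℕ, ContDiff ℝ n ψ) (hψp : Function.Periodic ψ π)
    (hψ : ∀ x, Vth a b c x * deriv (deriv ψ) x / 2 + Bth a b c x * deriv ψ x =
      H1 a b c x - l1)
    (hχs : ∀ n : ℕ, ContDiff ℝ n χ) (hχp : Function.Periodic χ π)
    (hφs : ∀ n : ℕ, ContDiff ℝ n φ) (hφp : Function.Periodic φ π)
    (hχ : ∀ x, Vth a b c x * deriv (deriv χ) x / 2 + Bth a b c x * deriv χ x +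
      Vth a b c x * deriv χ x ^ 2 / 2 = 4 * Real.cos (2 * x))
    (hφ : ∀ x, Vth a b c x * deriv (deriv φ) x / 2 +
      (Bth a b c x + Vth a b c x * deriv χ x) * deriv φ x =
      -(H1 a b c x + Cv a b c x * deriv χ x) + l2) : HasS a b c := by
  have hVc : Continuous (Vth a b c) := (TRSGN.V_smooth a b c 0).continuous
  have hCc : Continuous (Cv a b c) := (TRSGN.C_smooth a b c 0).continuous
  have hRc := TRSGN.R_cont a b c
  have hψ'c : Continuous (deriv ψ) := (TRSGN.sm_deriv hψs 0).continuous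
  have hφ'c : Continuous (deriv φ) := (TRSGN.sm_deriv hφs 0).continuous
  have hψ'p : Function.Periodic (deriv ψ) π := EXaux.per_deriv hψp
  have hφ'p : Function.Periodic (deriv φ) π := EXaux.per_deriv hφp
  obtain ⟨M1, hM1⟩ := EXaux.bdd (f := fun θ => Vr a b c θ - 2 * deriv ψ θ * Cv a b c θ +
    deriv ψ θ ^ 2 * Vth a b c θ) (by fun_prop) (TRSGN.per2 (by
      intro x
      change Vr a b c (x + π) - 2 * deriv ψ (x + π) * Cv a b c (x + π) +
        deriv ψ (x + π) ^ 2 * Vth a b c (x + π) = Vr a b c x - 2 * deriv ψ x * Cv a b c x +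
        deriv ψ x ^ 2 * Vth a b c x
      rw [TRSGN.R_per a b c x, hψ'p x, TRSGN.C_per a b c x, TRSGN.V_per a b c x]))
  obtain ⟨M2, hM2⟩ := EXaux.bdd (f := fun θ => Vr a b c θ + 2 * deriv φ θ * Cv a b c θ +
    deriv φ θ ^ 2 * Vth a b c θ) (by fun_prop) (TRSGN.per2 (by
      intro x
      change Vr a b c (x + π) + 2 * deriv φ (x + π) * Cv a b c (x + π) +
        deriv φ (x + π) ^ 2 * Vth a b c (x + π) = Vr a b c x + 2 * deriv φ x * Cv a b c x +
        deriv φ x ^ 2 * Vth a b c x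
      rw [TRSGN.R_per a b c x, hφ'p x, TRSGN.C_per a b c x, TRSGN.V_per a b c x]))
  have hM1' : 0 ≤ M1 := (abs_nonneg _).trans (hM1 0)
  have hM2' : 0 ≤ M2 := (abs_nonneg _).trans (hM2 0)
  obtain ⟨y, hy⟩ : ∃ y : ℝ, y = 1 / (1 + M1 + M2 + |l1| + |l2|) := ⟨_, rfl⟩
  have hden : 0 < 1 + M1 + M2 + |l1| + |l2| := by positivity
  have hy0 : 0 < y := by
    rw [hy]
    positivity
  have hyd : y * (1 + M1 + M2 + |l1| + |l2|) = 1 := by
    rw [hy]
    exact one_div_mul_cancel hden.ne'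
  have hyM1 : y * M1 ≤ 1 := by
    nlinarith [mul_nonneg hy0.le hM2', mul_nonneg hy0.le (abs_nonneg l1),
      mul_nonneg hy0.le (abs_nonneg l2)]
  have hyM2 : y * M2 ≤ 1 := by
    nlinarith [mul_nonneg hy0.le hM1', mul_nonneg hy0.le (abs_nonneg l1),
      mul_nonneg hy0.le (abs_nonneg l2)]
  have hyl1 : y * |l1| ≤ 1 := by
    nlinarith [mul_nonneg hy0.le hM2', mul_nonneg hy0.le hM1',
      mul_nonneg hy0.le (abs_nonneg l2)]
  have hyl2 : y * |l2| ≤ 1 := by
    nlinarith [mul_nonneg hy0.le hM2', mul_nonneg hy0.le (abs_nonneg l1),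
      mul_nonneg hy0.le hM1']
  have hl1s : 0 < l1 ^ 2 := by positivity
  have hl2s : 0 < l2 ^ 2 := by positivity
  obtain ⟨δ, hδ⟩ : ∃ δ : ℝ, δ = min 1 (min (l1 ^ 2) (l2 ^ 2) * y / 4) := ⟨_, rfl⟩
  have hmin : 0 < min (l1 ^ 2) (l2 ^ 2) := lt_min hl1s hl2s
  have hδ0 : 0 < δ := by
    rw [hδ]
    exact lt_min one_pos (by positivity)
  have hδ1 : δ ≤ 1 := by
    rw [hδ]
    exact min_le_left _ _
  have hδl : δ ≤ min (l1 ^ 2) (l2 ^ 2) * y / 4 := by
    rw [hδ]
    exact min_le_right _ _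
  have hδl1 : 4 * δ ≤ l1 ^ 2 * y := by
    have := mul_le_mul_of_nonneg_right (min_le_left (l1 ^ 2) (l2 ^ 2)) hy0.le
    linarith
  have hδl2 : 4 * δ ≤ l2 ^ 2 * y := by
    have := mul_le_mul_of_nonneg_right (min_le_right (l1 ^ 2) (l2 ^ 2)) hy0.le
    linarith
  have d1 : ∀ x, deriv (fun x => l1 * y * ψ x) x = l1 * y * deriv ψ x := fun x =>
    ((TRSGN.hd hψs x).const_mul (l1 * y)).deriv
  have d1' : deriv (fun x => l1 * y * ψ x) = fun x => l1 * y * deriv ψ x := funext d1
  have d2 : ∀ x, deriv (deriv (fun x => l1 * y * ψ x)) x = l1 * y * deriv (deriv ψ) x := by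
    intro x
    rw [d1']
    exact ((TRSGN.hd (TRSGN.sm_deriv hψs) x).const_mul (l1 * y)).deriv
  have e1 : ∀ x, deriv (fun x => χ x + -(l2 * y) * φ x) x =
      deriv χ x + -(l2 * y) * deriv φ x := fun x =>
    ((TRSGN.hd hχs x).add ((TRSGN.hd hφs x).const_mul (-(l2 * y)))).deriv
  have e1' : deriv (fun x => χ x + -(l2 * y) * φ x) =
      fun x => deriv χ x + -(l2 * y) * deriv φ x := funext e1
  have e2 : ∀ x, deriv (deriv (fun x => χ x + -(l2 * y) * φ x)) x =
      deriv (deriv χ) x + -(l2 * y) * deriv (deriv φ) x := by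
    intro x
    rw [e1']
    exact ((TRSGN.hd (TRSGN.sm_deriv hχs) x).add
      ((TRSGN.hd (TRSGN.sm_deriv hφs) x).const_mul (-(l2 * y)))).deriv
  refine ⟨-(l1 * y), -(l2 * y), 2 + δ / 2, δ, fun x => l1 * y * ψ x,
    fun x => χ x + -(l2 * y) * φ x, hδ0, hδ1, by linarith, ?_, ?_, ?_, ?_, ?_, ?_, ?_⟩
  · have i1 : |l1 * y| ≤ 1 := by
      rw [abs_mul, abs_of_pos hy0, mul_comm]
      exact hyl1
    have i2 : |l2 * y| ≤ 1 := by
      rw [abs_mul, abs_of_pos hy0, mul_comm]
      exact hyl2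
    have i3 := (abs_le.1 i1).1
    have i4 := (abs_le.1 i2).2
    linarith
  · exact contDiff_const.mul (hψs 3)
  · refine TRSGN.per2 fun x => ?_
    change l1 * y * ψ (x + π) = l1 * y * ψ x
    rw [hψp x]
  · exact (hχs 3).add (contDiff_const.mul (hφs 3))
  · refine TRSGN.per2 fun x => ?_
    change χ (x + π) + -(l2 * y) * φ (x + π) = χ x + -(l2 * y) * φ x
    rw [hφp x, hχp x]
  · intro x
    unfold Op
    rw [d1, d2]
    have i1 := hψ x
    have i2 := (abs_le.1 (hM1 x)).2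
    have i3 : Vth a b c x * (l1 * y * deriv (deriv ψ) x) / 2 +
        Bth a b c x * (l1 * y * deriv ψ x) + -(l1 * y) * H1 a b c x +
        ((-(l1 * y)) ^ 2 * Vr a b c x + 2 * -(l1 * y) * (l1 * y * deriv ψ x) * Cv a b c x +
          (l1 * y * deriv ψ x) ^ 2 * Vth a b c x) / 2 =
        -(l1 ^ 2 * y) + l1 ^ 2 * y * y * (Vr a b c x - 2 * deriv ψ x * Cv a b c x +
          deriv ψ x ^ 2 * Vth a b c x) / 2 := by
      linear_combination (l1 * y) * i1
    rw [i3]
    have i4 : l1 ^ 2 * y * y * (Vr a b c x - 2 * deriv ψ x * Cv a b c x +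
          deriv ψ x ^ 2 * Vth a b c x) ≤ l1 ^ 2 * y * y * M1 :=
      mul_le_mul_of_nonneg_left i2 (by positivity)
    have i5 : l1 ^ 2 * y * (y * M1) ≤ l1 ^ 2 * y * 1 :=
      mul_le_mul_of_nonneg_left hyM1 (by positivity)
    have i6 : l1 ^ 2 * y * y * M1 = l1 ^ 2 * y * (y * M1) := by ring
    linarith
  · intro x
    unfold Op
    rw [e1, e2]
    have i1 := hχ x
    have i1' := hφ x
    have i2 := (abs_le.1 (hM2 x)).2
    have i3 : Vth a b c x * (deriv (deriv χ) x + -(l2 * y) * deriv (deriv φ) x) / 2 +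
        Bth a b c x * (deriv χ x + -(l2 * y) * deriv φ x) + -(l2 * y) * H1 a b c x +
        ((-(l2 * y)) ^ 2 * Vr a b c x +
          2 * -(l2 * y) * (deriv χ x + -(l2 * y) * deriv φ x) * Cv a b c x +
          (deriv χ x + -(l2 * y) * deriv φ x) ^ 2 * Vth a b c x) / 2 =
        4 * Real.cos (2 * x) - l2 ^ 2 * y + l2 ^ 2 * y * y * (Vr a b c x +
          2 * deriv φ x * Cv a b c x + deriv φ x ^ 2 * Vth a b c x) / 2 := by
      linear_combination i1 + (-(l2 * y)) * i1'
    rw [i3]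
    have i4 : l2 ^ 2 * y * y * (Vr a b c x + 2 * deriv φ x * Cv a b c x +
          deriv φ x ^ 2 * Vth a b c x) ≤ l2 ^ 2 * y * y * M2 :=
      mul_le_mul_of_nonneg_left i2 (by positivity)
    have i5 : l2 ^ 2 * y * (y * M2) ≤ l2 ^ 2 * y * 1 :=
      mul_le_mul_of_nonneg_left hyM2 (by positivity)
    have i6 : l2 ^ 2 * y * y * M2 = l2 ^ 2 * y * (y * M2) := by ring
    have i7 : -(δ * Real.cos (2 * x)) ≤ δ := by
      have := Real.neg_one_le_cos (2 * x)
      nlinarith
    linarith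

end TCANG

/-- TC-ANG1. The two strict supermartingales from the angular data. -/
theorem hasS_ang {a b c : ℝ} {ρ f : ℝ → ℝ} {k1 k2 : ℝ} (h : AngD a b c ρ f k1 k2)
    (h1 : mF a b c ρ ≠ 0) (h2 : mB a b c f ≠ 0) : HasS a b c := by
  obtain ⟨l1, J1, ψ, hJ1, hl1, hψs, hψp, hψ⟩ := TCANG.first h
  obtain ⟨l2, J2, φ, hJ2, hl2, hφs, hφp, hφ⟩ := TCANG.second h
  obtain ⟨hχs, hχp, hχ1, hχ⟩ := TCANG.log_f h
  have n1 : l1 ≠ 0 := by
    rintro rfl
    rw [zero_mul] at hl1
    exact h1 hl1.symm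
  have n2 : l2 ≠ 0 := by
    rintro rfl
    rw [zero_mul] at hl2
    exact h2 (neg_eq_zero.1 hl2.symm)
  refine TCANG.hasS_of n1 n2 hψs hψp hψ hχs hχp hφs hφp hχ fun x => ?_
  rw [hχ1 x]
  exact hφ x

/-- TC-ANG2. The angular data of a positive definite matrix. -/
theorem angD_pd {a b c : ℝ} (ha : 0 < a) (hb : 0 < b) (hc : c ^ 2 < a * b) :
    ∃ k1 k2, AngD a b c (dens a b c (-1)) (dens a b c 1) k1 k2 := by
  obtain ⟨hs, hp, hpos, κ, hκ⟩ := dens_props ha hb hc (-1)
  obtain ⟨fs, fp, fpos, κ', hκ'⟩ := dens_props ha hb hc 1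
  have hV : ∀ x, 0 < Vth a b c x := Vth_pos ha hb hc
  refine ⟨κ, κ', hs, hp, hpos, fun x => ?_, fs, fp, fpos, fun x => ?_, ?_, ?_⟩
  · linarith [hκ x]
  · linarith [hκ' x]
  · intro G hG hGp hint
    obtain ⟨ρ, hρ⟩ : ∃ ρ : ℝ → ℝ, ρ = dens a b c (-1) := ⟨_, rfl⟩
    rw [← hρ] at hs hp hpos hκ hint
    obtain ⟨ψ, hψs, hψp, hψ⟩ := pois_gen (D := fun x => Vth a b c x * ρ x / 2)
      (G := fun x => G x * ρ x) (fun n => ((TRSGN.V_smooth a b c n).mul (hs n)).div_const 2)
      (fun n => (hG n).mul (hs n)) (fun x => by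
        simp only
        rw [TRSGN.V_per a b c x, hp x]) (fun x => by
        simp only
        rw [hGp x, hp x]) (fun x => by
        have i1 := hV x
        have i2 := hpos x
        positivity) hint (-κ)
    refine ⟨ψ, hψs, hψp, fun x => ?_⟩
    have e := hψ x
    have hD' : deriv (fun x => Vth a b c x * ρ x / 2) x =
        (((a - b) * Real.sin (2 * x) - 2 * c * Real.cos (2 * x)) * ρ x +
          Vth a b c x * deriv ρ x) / 2 :=
      (((TRSGN.V_deriv a b c x).mul (TRSGN.hd hs x)).div_const 2).deriv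
    rw [hD'] at e
    have hk := hκ x
    have hB : Bth a b c x = -2 * Real.sin (2 * x) +
        ((a - b) * Real.sin (2 * x) - 2 * c * Real.cos (2 * x)) / 2 := rfl
    have key : ρ x * (Vth a b c x * deriv (deriv ψ) x / 2 + Bth a b c x * deriv ψ x) =
        ρ x * G x := by
      rw [hB]
      linear_combination e - deriv ψ x * hk
    exact mul_left_cancel₀ (hpos x).ne' key
  · intro G hG hGp hint
    obtain ⟨f, hf⟩ : ∃ f : ℝ → ℝ, f = dens a b c 1 := ⟨_, rfl⟩
    rw [← hf] at fs fp fpos hκ' hint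
    rw [← hf]
    obtain ⟨ψ, hψs, hψp, hψ⟩ := pois_gen (D := fun x => Vth a b c x * f x / 2)
      (G := fun x => G x * f x) (fun n => ((TRSGN.V_smooth a b c n).mul (fs n)).div_const 2)
      (fun n => (hG n).mul (fs n)) (fun x => by
        simp only
        rw [TRSGN.V_per a b c x, fp x]) (fun x => by
        simp only
        rw [hGp x, fp x]) (fun x => by
        have i1 := hV x
        have i2 := fpos x
        positivity) hint κ'
    refine ⟨ψ, hψs, hψp, fun x => ?_⟩
    have e := hψ x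
    have hD' : deriv (fun x => Vth a b c x * f x / 2) x =
        (((a - b) * Real.sin (2 * x) - 2 * c * Real.cos (2 * x)) * f x +
          Vth a b c x * deriv f x) / 2 :=
      (((TRSGN.V_deriv a b c x).mul (TRSGN.hd fs x)).div_const 2).deriv
    rw [hD'] at e
    have hk := hκ' x
    have hxf : deriv f x / f x * f x = deriv f x := div_mul_cancel₀ _ (fpos x).ne'
    have hB : Bth a b c x = -2 * Real.sin (2 * x) +
        ((a - b) * Real.sin (2 * x) - 2 * c * Real.cos (2 * x)) / 2 := rfl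
    have key : f x * (Vth a b c x * deriv (deriv ψ) x / 2 +
          (Bth a b c x + Vth a b c x * (deriv f x / f x)) * deriv ψ x) =
        f x * G x := by
      rw [hB]
      linear_combination e + deriv ψ x * hk + (Vth a b c x * deriv ψ x) * hxf
    exact mul_left_cancel₀ (fpos x).ne' key

/-- TC-ANG3. The forward drift of a positive definite matrix. -/
theorem mF_pd (a b c : ℝ) : mF a b c (dens a b c (-1)) = Lam a b c := rfl

/-- TC-ANG4. The backward drift of a positive definite matrix. -/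
theorem mB_pd {a b c : ℝ} (ha : 0 < a) (hb : 0 < b) (hc : c ^ 2 < a * b) :
    mB a b c (dens a b c 1) = Lam b a (-c) := by
  obtain ⟨fs, fp, fpos, κ', hκ'⟩ := dens_props ha hb hc 1
  have hback := Lam_back ha hb hc
  obtain ⟨f, hf⟩ : ∃ f : ℝ → ℝ, f = dens a b c 1 := ⟨_, rfl⟩
  rw [← hf] at fs fp fpos hback
  rw [← hf]
  have hfc : Continuous f := (fs 0).continuous
  have hf'c : Continuous (deriv f) := (TRSGN.sm_deriv fs 0).continuous
  have hHc : Continuous (H1 a b c) := (TRSGN.H_smooth a b c 0).continuous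
  have hCc : Continuous (Cv a b c) := (TRSGN.C_smooth a b c 0).continuous
  have hmean : ∫ x in (0 : ℝ)..π, (H1 a b c x * f x + Cv a b c x * deriv f x) =
      -Lam b a (-c) := by
    rw [← hback]
    have hk := TRSGN.int_deriv (f := fun x => Cv a b c x * f x)
      ((TRSGN.C_smooth a b c 1).mul (fs 1)) (by
      intro x
      change Cv a b c (x + π) * f (x + π) = Cv a b c x * f x
      rw [TRSGN.C_per a b c x, fp x])
    have hk' : ∀ x, deriv (fun x => Cv a b c x * f x) x =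
        -((a - b) * Real.cos (2 * x) + 2 * c * Real.sin (2 * x)) * f x +
          Cv a b c x * deriv f x := fun x => ((TRSGN.C_deriv a b c x).mul (TRSGN.hd fs x)).deriv
    simp only [hk'] at hk
    have i0 := TRSGN.int_sub (f := fun x => H1 a b c x * f x + Cv a b c x * deriv f x)
      (g := fun x => -((a - b) * Real.cos (2 * x) + 2 * c * Real.sin (2 * x)) * f x +
          Cv a b c x * deriv f x) ((hHc.mul hfc).add (hCc.mul hf'c)) (by fun_prop)
    rw [hk, sub_zero] at i0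
    rw [← i0]
    refine intervalIntegral.integral_congr fun x _ => ?_
    have hH : H1 a b c x = 2 * Real.cos (2 * x) -
      ((a - b) * Real.cos (2 * x) + 2 * c * Real.sin (2 * x)) / 2 := rfl
    simp only [hH]
    ring
  rw [mB, hmean, neg_neg]

end

end Pool.Agent.SLE
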