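import Pool.Agent.Lib.MP_c17912_pr_TC.ROC
import Pool.Agent.Lib.MP_c17912_pr_TC.ANG

/-!
# MP_c17912_pr, project TC: the angular data of a matrix of rank one

The direction is neither real nor imaginary: `0 < a`, `c ≠ 0`, `c ^ 2 = a * b`.
-/

set_option autoImplicit false

open MeasureTheory ProbabilityTheory Filter Set
open scoped NNReal ENNReal Topology Real

namespace Pool.Agent.SLE

noncomputable section

namespace TCROD

/-- The direction of the noise. -/
def ph0 (a c : ℝ) : ℝ := Real.arctan (c / a)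

theorem cos_ph {a b c : ℝ} (ha : 0 < a) (hc : c ^ 2 = a * b) :
    (a + b) * Real.cos (ph0 a c) ^ 2 = a := by
  have h1 : Real.cos (ph0 a c) ^ 2 = 1 / (1 + (c / a) ^ 2) := by
    unfold ph0
    rw [Real.cos_arctan, div_pow, one_pow, Real.sq_sqrt (by positivity)]
  rw [h1, div_pow]
  have h2 : 0 < a ^ 2 + c ^ 2 := by positivity
  field_simp
  linear_combination (-1) * hc

theorem sin_ph {a c : ℝ} (ha : 0 < a) : a * Real.sin (ph0 a c) = c * Real.cos (ph0 a c) := by
  unfold ph0
  have h2 : Real.sin (Real.arctan (c / a)) = c / a * Real.cos (Real.arctan (c / a)) := by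
    rw [Real.sin_arctan, Real.cos_arctan]
    ring
  rw [h2]
  field_simp

theorem V_eq {a b c : ℝ} (ha : 0 < a) (hc : c ^ 2 = a * b) (x : ℝ) :
    Vth a b c x = (a + b) * Real.sin (x - ph0 a c) ^ 2 := by
  have h1 := cos_ph ha hc
  have h2 := sin_ph (c := c) ha
  have h3 : (a + b) * (Real.sin (ph0 a c) * Real.cos (ph0 a c)) = c := by
    have : a * ((a + b) * (Real.sin (ph0 a c) * Real.cos (ph0 a c))) = a * c := by
      linear_combination (a + b) * Real.cos (ph0 a c) * h2 + c * h1
    exact mul_left_cancel₀ ha.ne' this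
  have h4 : (a + b) * Real.sin (ph0 a c) ^ 2 = b := by
    have : a * ((a + b) * Real.sin (ph0 a c) ^ 2) = a * b := by
      linear_combination (a + b) * Real.sin (ph0 a c) * h2 + c * h3 + hc
    exact mul_left_cancel₀ ha.ne' this
  rw [Real.sin_sub, Vth]
  linear_combination (-(Real.sin x ^ 2)) * h1 + (2 * Real.sin x * Real.cos x) * h3 -
    Real.cos x ^ 2 * h4

theorem sin_two {a b c : ℝ} (ha : 0 < a) (hc : c ^ 2 = a * b) :
    (a + b) * Real.sin (2 * ph0 a c) = 2 * c := by
  have h1 := cos_ph ha hc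
  have h2 := sin_ph (c := c) ha
  have h3 : (a + b) * (Real.sin (ph0 a c) * Real.cos (ph0 a c)) = c := by
    have : a * ((a + b) * (Real.sin (ph0 a c) * Real.cos (ph0 a c))) = a * c := by
      linear_combination (a + b) * Real.cos (ph0 a c) * h2 + c * h1
    exact mul_left_cancel₀ ha.ne' this
  rw [Real.sin_two_mul]
  linear_combination 2 * h3

theorem b_pos {a b c : ℝ} (ha : 0 < a) (h0 : c ≠ 0) (hc : c ^ 2 = a * b) : 0 < b := by
  have h1 : 0 < c ^ 2 := by positivity
  rw [hc] at h1
  exact (mul_pos_iff_of_pos_left ha).1 h1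

theorem V_ph {a b c : ℝ} (ha : 0 < a) (hc : c ^ 2 = a * b) : Vth a b c (ph0 a c) = 0 := by
  rw [V_eq ha hc]
  simp

/-- `V'` vanishes at the zero of `V`. -/
theorem V'_ph {a b c : ℝ} (ha : 0 < a) (hc : c ^ 2 = a * b) :
    (a - b) * Real.sin (2 * ph0 a c) - 2 * c * Real.cos (2 * ph0 a c) = 0 := by
  have h1 := TRSGN.V_deriv a b c (ph0 a c)
  have h2 : HasDerivAt (Vth a b c) 0 (ph0 a c) := by
    have e : Vth a b c = fun x => (a + b) * Real.sin (x - ph0 a c) ^ 2 := funext (V_eq ha hc)
    rw [e]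
    have h3 : HasDerivAt (fun x : ℝ => x - ph0 a c) 1 (ph0 a c) :=
      (hasDerivAt_id _).sub_const _
    have h4 := (h3.sin.pow 2).const_mul (a + b)
    refine (show HasDerivAt (fun x => (a + b) * Real.sin (x - ph0 a c) ^ 2) _ (ph0 a c)
      from h4).congr_deriv ?_
    simp
  exact h1.unique h2

theorem B_ph {a b c : ℝ} (ha : 0 < a) (h0 : c ≠ 0) (hc : c ^ 2 = a * b) :
    Bth a b c (ph0 a c) ≠ 0 := by
  have h1 := V'_ph ha hc
  have h2 := sin_two ha hc
  have h3 := b_pos ha h0 hc
  have hB : Bth a b c (ph0 a c) = -2 * Real.sin (2 * ph0 a c) +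
      ((a - b) * Real.sin (2 * ph0 a c) - 2 * c * Real.cos (2 * ph0 a c)) / 2 := rfl
  rw [hB, h1]
  intro h
  have h4 : Real.sin (2 * ph0 a c) = 0 := by linarith
  rw [h4, mul_zero] at h2
  apply h0
  linarith

theorem B_smooth (a b c : ℝ) (n : ℕ) : ContDiff ℝ n (Bth a b c) := by
  unfold Bth
  fun_prop

theorem B_per (a b c : ℝ) : Function.Periodic (Bth a b c) π := by
  intro θ
  unfold Bth
  rw [TRSGN.two_per, Real.sin_add_two_pi, Real.cos_add_two_pi]

theorem s2_smooth (k : ℝ) (n : ℕ) : ContDiff ℝ n fun x : ℝ => k * Real.sin (2 * x) := by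
  fun_prop

theorem s2_per (k : ℝ) : Function.Periodic (fun x : ℝ => k * Real.sin (2 * x)) π := by
  intro x
  simp only
  rw [TRSGN.two_per, Real.sin_add_two_pi]

/-- A positive density with a nonzero current. -/
theorem dens_ro {a b c : ℝ} (ha : 0 < a) (h0 : c ≠ 0) (hc : c ^ 2 = a * b) {k : ℝ}
    (hk : k ≠ 0) : ∃ (ρ : ℝ → ℝ) (k1 : ℝ), k1 ≠ 0 ∧ (∀ n : ℕ, ContDiff ℝ n ρ) ∧
      Function.Periodic ρ π ∧ (∀ x, 0 < ρ x) ∧
      ∀ x, Vth a b c x / 2 * deriv ρ x + k * Real.sin (2 * x) * ρ x = k1 := by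
  have hb := b_pos ha h0 hc
  have hκ : 0 < a + b := by linarith
  have h2 := sin_two ha hc
  have hne : k * Real.sin (2 * ph0 a c) ≠ 0 := by
    refine mul_ne_zero hk fun h => ?_
    rw [h, mul_zero] at h2
    apply h0
    linarith
  rcases lt_or_gt_of_ne hne with h | h
  · obtain ⟨ρ, hs, hp, he, -, hpos⟩ := TCRO.solve (φ := ph0 a c) hκ (s2_smooth k)
      (G := fun _ => -1) (fun n => contDiff_const) (s2_per k) (fun _ => rfl) h.ne
    refine ⟨ρ, -1, by norm_num, hs, hp, hpos h (fun _ => by norm_num), fun x => ?_⟩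
    have := he x
    rw [← V_eq ha hc] at this
    exact this
  · obtain ⟨ρ, hs, hp, he, hpos, -⟩ := TCRO.solve (φ := ph0 a c) hκ (s2_smooth k)
      (G := fun _ => 1) (fun n => contDiff_const) (s2_per k) (fun _ => rfl) h.ne'
    refine ⟨ρ, 1, by norm_num, hs, hp, hpos h (fun _ => by norm_num), fun x => ?_⟩
    have := he x
    rw [← V_eq ha hc] at this
    exact this

/-- From the derivative to the function. -/
theorem prim {a b c : ℝ} {B p G : ℝ → ℝ} (hp : ∀ n : ℕ, ContDiff ℝ n p)
    (hpp : Function.Periodic p π) (hint : ∫ x in (0 : ℝ)..π, p x = 0)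
    (he : ∀ x, Vth a b c x / 2 * deriv p x + B x * p x = G x) :
    ∃ ψ : ℝ → ℝ, (∀ n : ℕ, ContDiff ℝ n ψ) ∧ Function.Periodic ψ π ∧
      ∀ x, Vth a b c x * deriv (deriv ψ) x / 2 + B x * deriv ψ x = G x := by
  have hpc : Continuous p := (hp 0).continuous
  refine ⟨fun x => ∫ t in (0 : ℝ)..x, p t, PEAux.prim_smooth hp,
    PEAux.prim_periodic hpc hpp hint, fun x => ?_⟩
  have h1 : deriv (fun x => ∫ t in (0 : ℝ)..x, p t) = p := funext fun y =>
    (PEAux.prim_deriv hpc y).deriv
  rw [h1]
  have := he x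
  linarith

end TCROD

/-- TC-ROD. The angular data of a matrix of rank one. -/
theorem angD_ro {a b c : ℝ} (ha : 0 < a) (h0 : c ≠ 0) (hc : c ^ 2 = a * b) :
    ∃ ρ f k1 k2, AngD a b c ρ f k1 k2 := by
  have hb := TCROD.b_pos ha h0 hc
  have hκ : 0 < a + b := by linarith
  have hBp := TCROD.B_ph ha h0 hc
  have hVφ := TCROD.V_ph ha hc
  obtain ⟨ρ, k1, hk1, hs, hp, hpos, he⟩ := TCROD.dens_ro ha h0 hc (k := 2) (by norm_num)
  obtain ⟨f, k2, hk2, fs, fp, fpos, fe⟩ := TCROD.dens_ro ha h0 hc (k := -2) (by norm_num)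
  have hne : ∀ x, f x ≠ 0 := fun x => (fpos x).ne'
  have hf' := TRSGN.sm_deriv fs
  have hf'p : Function.Periodic (deriv f) π := EXaux.per_deriv fp
  refine ⟨ρ, f, k1, k2, hs, hp, hpos, he, fs, fp, fpos, fun x => ?_, ?_, ?_⟩
  · have := fe x
    linarith
  · intro G hG hGp hint
    obtain ⟨p, hps, hpp, hpe, -, -⟩ := TCRO.solve (φ := TCROD.ph0 a c) hκ
      (TCROD.B_smooth a b c) hG (TCROD.B_per a b c) hGp hBp
    have hpe' : ∀ x, Vth a b c x / 2 * deriv p x + Bth a b c x * p x = G x := by
      intro x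
      have := hpe x
      rw [← TCROD.V_eq ha hc] at this
      exact this
    refine TCROD.prim hps hpp ?_ hpe'
    have h1 := TRSGN.int_deriv (f := fun x => Vth a b c x * ρ x * p x / 2)
      ((((TRSGN.V_smooth a b c 1).mul (hs 1)).mul (hps 1)).div_const 2) (by
        intro x
        simp only
        rw [TRSGN.V_per a b c x, hp x, hpp x])
    have h2 : ∀ x, deriv (fun x => Vth a b c x * ρ x * p x / 2) x = G x * ρ x - -(k1 * p x) := by
      intro x
      have h3 := ((((TRSGN.V_deriv a b c x).mul (TRSGN.hd hs x)).mul (TRSGN.hd hps x)).div_const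
        2).deriv
      refine (show deriv (fun x => Vth a b c x * ρ x * p x / 2) x = _ from h3).trans ?_
      have h4 := he x
      have h5 := hpe' x
      have hB : Bth a b c x = -2 * Real.sin (2 * x) +
        ((a - b) * Real.sin (2 * x) - 2 * c * Real.cos (2 * x)) / 2 := rfl
      rw [hB] at h5
      simp only [Pi.mul_apply]
      linear_combination p x * h4 + ρ x * h5
    simp only [h2] at h1
    rw [TRSGN.int_sub (f := fun x => G x * ρ x) (g := fun x => -(k1 * p x))
      ((hG 0).continuous.mul (hs 0).continuous) (continuous_const.mul (hps 0).continuous).neg,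
      hint, intervalIntegral.integral_neg, intervalIntegral.integral_const_mul] at h1
    have h6 : k1 * ∫ x in (0 : ℝ)..π, p x = 0 := by linarith
    exact (mul_eq_zero.1 h6).resolve_left hk1
  · intro G hG hGp hint
    have hβs : ∀ n : ℕ, ContDiff ℝ n fun x => Bth a b c x + Vth a b c x * (deriv f x / f x) :=
      fun n => (TCROD.B_smooth a b c n).add ((TRSGN.V_smooth a b c n).mul
        ((hf' n).div (fs n) hne))
    have hβp : Function.Periodic (fun x => Bth a b c x + Vth a b c x * (deriv f x / f x)) π := by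
      intro x
      simp only
      rw [TCROD.B_per a b c x, TRSGN.V_per a b c x, hf'p x, fp x]
    obtain ⟨p, hps, hpp, hpe, -, -⟩ := TCRO.solve (φ := TCROD.ph0 a c) hκ hβs hG hβp hGp (by
      simp only [hVφ, zero_mul, add_zero]
      exact hBp)
    have hpe' : ∀ x, Vth a b c x / 2 * deriv p x +
        (Bth a b c x + Vth a b c x * (deriv f x / f x)) * p x = G x := by
      intro x
      have := hpe x
      rw [← TCROD.V_eq ha hc] at this
      exact this
    refine TCROD.prim hps hpp ?_ hpe'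
    have h1 := TRSGN.int_deriv (f := fun x => Vth a b c x * f x * p x / 2)
      ((((TRSGN.V_smooth a b c 1).mul (fs 1)).mul (hps 1)).div_const 2) (by
        intro x
        simp only
        rw [TRSGN.V_per a b c x, fp x, hpp x])
    have h2 : ∀ x, deriv (fun x => Vth a b c x * f x * p x / 2) x = G x * f x - k2 * p x := by
      intro x
      have h3 := ((((TRSGN.V_deriv a b c x).mul (TRSGN.hd fs x)).mul (TRSGN.hd hps x)).div_const
        2).deriv
      refine (show deriv (fun x => Vth a b c x * f x * p x / 2) x = _ from h3).trans ?_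
      have h4 := fe x
      have h5 := hpe' x
      have h7 : deriv f x / f x * f x = deriv f x := div_mul_cancel₀ _ (hne x)
      have hB : Bth a b c x = -2 * Real.sin (2 * x) +
        ((a - b) * Real.sin (2 * x) - 2 * c * Real.cos (2 * x)) / 2 := rfl
      rw [hB] at h5
      simp only [Pi.mul_apply]
      linear_combination (-(p x)) * h4 + f x * h5 - Vth a b c x * p x * h7
    simp only [h2] at h1
    rw [TRSGN.int_sub (f := fun x => G x * f x) (g := fun x => k2 * p x)
      ((hG 0).continuous.mul (fs 0).continuous) (continuous_const.mul (hps 0).continuous),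
      hint, intervalIntegral.integral_const_mul] at h1
    have h6 : k2 * ∫ x in (0 : ℝ)..π, p x = 0 := by linarith
    exact (mul_eq_zero.1 h6).resolve_left hk2

end

end Pool.Agent.SLE
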