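import Pool.Agent.Lib.MP_c17912_pr_TC.AZA
import Pool.Agent.Lib.MP_c17912_pr.Markov
import Pool.Agent.Lib.MP_c17912_pr_LN.Fin

/-!
# MP_c17912_pr, project TC, `a = 0`: transience
-/

set_option autoImplicit false

open MeasureTheory ProbabilityTheory Filter
open scoped NNReal ENNReal Topology Real

namespace Pool.Agent.SLE

noncomputable section

variable {Ω : Type*} [MeasurableSpace Ω] {μ : Measure Ω} {b c K : ℝ} {W : ℝ → Ω → ℂ}

namespace TCAZ

/-- The tail of a centred Gaussian variable. -/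
theorem tail [IsProbabilityMeasure μ] {X : Ω → ℝ} (hX : Measurable X) {v : ℝ} (hv : 0 < v)
    (hl : HasLaw X (gaussianReal 0 (Real.toNNReal v)) μ) {x : ℝ} (hx : 0 < x)
    (hxv : 2 * x ≤ √v) : μ {ω | X ω < x} ≤ ENNReal.ofReal (3 / 4) := by
  obtain ⟨w, hw⟩ : ∃ w : ℝ≥0, w = Real.toNNReal v := ⟨_, rfl⟩
  have hwr : (w : ℝ) = v := by rw [hw, Real.coe_toNNReal _ hv.le]
  have hw0 : w ≠ 0 := by
    intro h0
    rw [h0, NNReal.coe_zero] at hwr
    linarith
  rw [← hw] at hl
  have h1 : μ {ω | X ω < x} = gaussianReal 0 w (Set.Iio x) := by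
    rw [← hl.map_eq, Measure.map_apply hX measurableSet_Iio]
    rfl
  rw [h1, ENNReal.le_ofReal_iff_toReal_le (measure_ne_top _ _) (by norm_num)]
  have h3 : gaussianReal 0 w (Set.Iio 0) = gaussianReal 0 w (Set.Ioi 0) := by
    have h4 : (gaussianReal 0 w).map (fun x => -x) = gaussianReal 0 w := by
      rw [gaussianReal_map_neg, neg_zero]
    have h5 : (gaussianReal 0 w).map (fun x => -x) (Set.Iio 0) =
        gaussianReal 0 w (Set.Ioi 0) := by
      rw [Measure.map_apply measurable_neg measurableSet_Iio]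
      congr 1
      ext y
      simp
    rw [h4] at h5
    exact h5
  have h6 : (gaussianReal 0 w).real (Set.Iio 0) ≤ 1 / 2 := by
    have h7 : (gaussianReal 0 w).real (Set.Iio 0) + (gaussianReal 0 w).real (Set.Ioi 0) ≤ 1 := by
      rw [← measureReal_union (by
        rw [Set.disjoint_left]
        intro y hy hy'
        exact lt_asymm (Set.mem_Iio.1 hy) (Set.mem_Ioi.1 hy')) measurableSet_Ioi]
      exact measureReal_le_one
    have h8 : (gaussianReal 0 w).real (Set.Iio 0) = (gaussianReal 0 w).real (Set.Ioi 0) := by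
      unfold Measure.real
      rw [h3]
    linarith
  have hsv : 0 < √v := Real.sqrt_pos.2 hv
  have h9 : (gaussianReal 0 w).real (Set.Ico 0 x) ≤ 1 / 4 := by
    have h10 : gaussianReal 0 w (Set.Ico 0 x) ≤ ENNReal.ofReal (1 / 4) := by
      rw [gaussianReal_apply 0 hw0]
      have h11 : ∀ y, gaussianPDF 0 w y ≤ ENNReal.ofReal (1 / (2 * √v)) := by
        intro y
        refine ENNReal.ofReal_le_ofReal ?_
        unfold gaussianPDFReal
        have e1 : Real.exp (-(y - 0) ^ 2 / (2 * (w : ℝ))) ≤ 1 := by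
          rw [Real.exp_le_one_iff]
          refine div_nonpos_of_nonpos_of_nonneg ?_ (by positivity)
          have := sq_nonneg (y - 0)
          linarith
        have e2 : (√(2 * π * (w : ℝ)))⁻¹ ≤ 1 / (2 * √v) := by
          rw [hwr, ← one_div]
          refine one_div_le_one_div_of_le (by positivity) ?_
          refine Real.le_sqrt_of_sq_le ?_
          rw [mul_pow, Real.sq_sqrt hv.le]
          have := Real.pi_gt_three
          nlinarith
        calc (√(2 * π * (w : ℝ)))⁻¹ * Real.exp (-(y - 0) ^ 2 / (2 * (w : ℝ)))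
            ≤ (1 / (2 * √v)) * 1 := mul_le_mul e2 e1 (Real.exp_pos _).le (by positivity)
          _ = 1 / (2 * √v) := mul_one _
      calc ∫⁻ y in Set.Ico 0 x, gaussianPDF 0 w y
          ≤ ∫⁻ _ in Set.Ico 0 x, ENNReal.ofReal (1 / (2 * √v)) :=
            lintegral_mono fun y => h11 y
        _ = ENNReal.ofReal (1 / (2 * √v)) * ENNReal.ofReal (x - 0) := by
            rw [setLIntegral_const, Real.volume_Ico]
        _ ≤ ENNReal.ofReal (1 / 4) := by
            rw [← ENNReal.ofReal_mul (by positivity), sub_zero]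
            refine ENNReal.ofReal_le_ofReal ?_
            rw [div_mul_eq_mul_div, div_le_div_iff₀ (by positivity) (by norm_num)]
            linarith
    have h12 := ENNReal.toReal_mono ENNReal.ofReal_ne_top h10
    rw [ENNReal.toReal_ofReal (by norm_num)] at h12
    exact h12
  have h13 : (gaussianReal 0 w).real (Set.Iio x) ≤
      (gaussianReal 0 w).real (Set.Iio 0) + (gaussianReal 0 w).real (Set.Ico 0 x) := by
    rw [← Set.Iio_union_Ico_eq_Iio hx.le]
    exact measureReal_union_le _ _
  have h14 : (gaussianReal 0 w (Set.Iio x)).toReal = (gaussianReal 0 w).real (Set.Iio x) := rfl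
  rw [h14]
  linarith

/-- A measurable function is rarely very negative. -/
theorem rare [IsProbabilityMeasure μ] {X : Ω → ℝ} (hX : Measurable X) {ε : ℝ≥0∞} (hε : 0 < ε) :
    ∃ A : ℝ, 0 < A ∧ μ {ω | X ω < -A} ≤ ε := by
  have h1 : Tendsto (fun n : ℕ => μ {ω | X ω < -((n : ℝ) + 1)}) atTop (𝓝 0) := by
    have h2 := tendsto_measure_iInter_atTop (μ := μ) (s := fun n : ℕ => {ω | X ω < -((n : ℝ) + 1)})
      (fun n => (measurableSet_lt hX measurable_const).nullMeasurableSet) ?_
      ⟨0, measure_ne_top _ _⟩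
    · have h3 : ⋂ n : ℕ, {ω | X ω < -((n : ℝ) + 1)} = ∅ := by
        rw [Set.eq_empty_iff_forall_notMem]
        intro ω hω
        rw [Set.mem_iInter] at hω
        obtain ⟨n, hn⟩ := exists_nat_ge (-X ω)
        have := hω n
        simp only [Set.mem_ofPred_eq] at this
        linarith
      rw [h3, measure_empty] at h2
      exact h2
    · intro m n hmn ω hω
      simp only [Set.mem_ofPred_eq] at hω ⊢
      have : (m : ℝ) ≤ n := by exact_mod_cast hmn
      linarith
  obtain ⟨n, hn⟩ := (h1.eventually_lt_const hε).exists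
  exact ⟨n + 1, by positivity, hn.le⟩

/-- The process exceeds every level. -/
theorem unbdd [IsProbabilityMeasure μ] (hW : Gau 0 b c K W μ) (hb : 0 < b) {u : ℝ}
    (hu : u ^ 2 = 1) (M : ℝ) : ∀ᵐ ω ∂μ, ∃ s, 0 ≤ s ∧ M ≤ u * (W s ω).im := by
  wlog hM : 0 < M generalizing M
  · filter_upwards [this 1 one_pos] with ω hω
    obtain ⟨s, hs, h⟩ := hω
    exact ⟨s, hs, by linarith⟩
  have hbad : ∀ ε : ℝ≥0∞, 0 < ε → ∀ k : ℕ, ∃ (n : ℝ) (E : Set Ω), 0 ≤ n ∧
      MeasurableSet[Blk W 0 n] E ∧ {ω | ∀ s, 0 ≤ s → u * (W s ω).im < M} ⊆ E ∧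
      μ E ≤ ENNReal.ofReal (3 / 4) ^ k + 4 * ε := by
    intro ε hε k
    induction k with
    | zero =>
      refine ⟨0, Set.univ, le_rfl, MeasurableSet.univ, Set.subset_univ _, ?_⟩
      rw [pow_zero]
      exact prob_le_one.trans le_self_add
    | succ k ih =>
      obtain ⟨n, E, hn, hEm, hEs, hEμ⟩ := ih
      have hXm : ∀ s, Measurable fun ω => u * (W s ω).im := fun s =>
        (Complex.measurable_im.comp (hW.meas s)).const_mul u
      obtain ⟨A, hA0, hA⟩ := rare (μ := μ) (hXm n) hε
      obtain ⟨Δ, hΔ⟩ : ∃ Δ, Δ = (2 * (M + A)) ^ 2 / b := ⟨_, rfl⟩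
      have hΔ0 : 0 < Δ := by
        rw [hΔ]
        positivity
      have hlaw : HasLaw (fun ω => u * (W (n + Δ) ω - W n ω).im)
          (gaussianReal 0 (Real.toNNReal (Δ * b))) μ := by
        have h := hW.gauss n (n + Δ) hn (by linarith) 0 u
        have e1 : (fun ω => 0 * (W (n + Δ) ω - W n ω).re + u * (W (n + Δ) ω - W n ω).im) =
            fun ω => u * (W (n + Δ) ω - W n ω).im := by
          funext ω
          ring
        have e2 : (n + Δ - n) * (0 * 0 ^ 2 + 2 * c * 0 * u + b * u ^ 2) = Δ * b := by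
          rw [hu]
          ring
        rw [e1, e2] at h
        exact h
      have hDm : Measurable fun ω => u * (W (n + Δ) ω - W n ω).im :=
        (Complex.measurable_im.comp ((hW.meas _).sub (hW.meas _))).const_mul u
      have hT := tail hDm (v := Δ * b) (by positivity) hlaw (x := M + A) (by linarith) (by
        rw [hΔ, div_mul_cancel₀ _ hb.ne', Real.sqrt_sq (by positivity)])
      obtain ⟨F, hF⟩ : ∃ F, F = {ω | u * (W (n + Δ) ω - W n ω).im < M + A} := ⟨_, rfl⟩
      obtain ⟨G, hG⟩ : ∃ G, G = {ω | u * (W n ω).im < -A} := ⟨_, rfl⟩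
      rw [← hF] at hT
      rw [← hG] at hA
      have hFF : MeasurableSet[Fut W n] F := by
        have h1 : Measurable[Fut W n] fun ω => u * (W (n + Δ) ω - W n ω).im :=
          (Complex.measurable_im.comp (DrvSubAux.meas_Fut (by linarith))).const_mul u
        rw [hF]
        exact h1 measurableSet_Iio
      have hFB : MeasurableSet[Blk W 0 (n + Δ)] F := by
        have h1 : Measurable[Blk W 0 (n + Δ)] fun ω => u * (W (n + Δ) ω - W n ω).im := by
          have h2 : Measurable[Blk W 0 (n + Δ)] fun ω => W (n + Δ) ω - W n ω := by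
            have h3 : Measurable[Blk W 0 (n + Δ)] fun ω => W (n + Δ) ω - W 0 ω :=
              DrvSubAux.meas_Blk ⟨by linarith, le_rfl⟩
            have h4 : Measurable[Blk W 0 (n + Δ)] fun ω => W n ω - W 0 ω :=
              DrvSubAux.meas_Blk ⟨hn, by linarith⟩
            have h5 : (fun ω => W (n + Δ) ω - W n ω) =
                fun ω => (W (n + Δ) ω - W 0 ω) - (W n ω - W 0 ω) := by
              funext ω
              ring
            rw [h5]
            exact h3.sub h4
          exact (Complex.measurable_im.comp h2).const_mul u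
        rw [hF]
        exact h1 measurableSet_Iio
      have hGB : MeasurableSet[Blk W 0 (n + Δ)] G := by
        have h1 : Measurable[Blk W 0 (n + Δ)] fun ω => u * (W n ω).im := by
          have h4 : Measurable[Blk W 0 (n + Δ)] fun ω => W n ω - W 0 ω :=
            DrvSubAux.meas_Blk ⟨hn, by linarith⟩
          have h5 : (fun ω => W n ω - W 0 ω) = W n := by
            funext ω
            rw [hW.zero 0 le_rfl, sub_zero]
          rw [h5] at h4
          exact (Complex.measurable_im.comp h4).const_mul u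
        rw [hG]
        exact h1 measurableSet_Iio
      have hind := (Indep_iff _ _ _).1 (indep_Blk_Fut hW.toDrv hn) E F hEm hFF
      refine ⟨n + Δ, E ∩ F ∪ G, by linarith,
        ((Blk_le_Blk le_rfl (by linarith) E hEm).inter hFB).union hGB, ?_, ?_⟩
      · intro ω hω
        by_cases h1 : u * (W n ω).im < -A
        · right
          rw [hG]
          exact h1
        · left
          refine ⟨hEs hω, ?_⟩
          rw [hF]
          have h2 := hω (n + Δ) (by linarith)
          simp only [Set.mem_ofPred_eq, Complex.sub_im, mul_sub]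
          linarith
      · calc μ (E ∩ F ∪ G) ≤ μ (E ∩ F) + μ G := measure_union_le _ _
          _ = μ E * μ F + μ G := by rw [hind]
          _ ≤ (ENNReal.ofReal (3 / 4) ^ k + 4 * ε) * ENNReal.ofReal (3 / 4) + ε := by gcongr
          _ = ENNReal.ofReal (3 / 4) ^ (k + 1) + 4 * ε := by
              have h1 : 4 * ε * ENNReal.ofReal (3 / 4) = 3 * ε := by
                rw [mul_right_comm]
                congr 1
                rw [show (4 : ℝ≥0∞) = ENNReal.ofReal 4 by simp,
                  ← ENNReal.ofReal_mul (by norm_num)]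
                norm_num
              rw [add_mul, h1, ← pow_succ, add_assoc]
              congr 1
              ring
  have hzero : μ {ω | ∀ s, 0 ≤ s → u * (W s ω).im < M} = 0 := by
    refine le_antisymm ?_ zero_le
    refine ENNReal.le_of_forall_pos_le_add fun δ hδ _ => ?_
    rw [zero_add]
    have hδ' : (0 : ℝ≥0∞) < (δ : ℝ≥0∞) / 8 := by
      refine ENNReal.div_pos (by exact_mod_cast hδ.ne') (by norm_num)
    have hlim : Tendsto (fun k : ℕ => ENNReal.ofReal (3 / 4) ^ k) atTop (𝓝 0) := by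
      refine ENNReal.tendsto_pow_atTop_nhds_zero_of_lt_one ?_
      rw [ENNReal.ofReal_lt_one]
      norm_num
    have hδ2 : (0 : ℝ≥0∞) < (δ : ℝ≥0∞) / 2 := by
      refine ENNReal.div_pos (by exact_mod_cast hδ.ne') (by norm_num)
    obtain ⟨k, hk⟩ := (hlim.eventually_lt_const hδ2).exists
    obtain ⟨n, E, -, -, hEs, hEμ⟩ := hbad _ hδ' k
    calc μ {ω | ∀ s, 0 ≤ s → u * (W s ω).im < M} ≤ μ E := measure_mono hEs
      _ ≤ ENNReal.ofReal (3 / 4) ^ k + 4 * ((δ : ℝ≥0∞) / 8) := hEμ
      _ ≤ (δ : ℝ≥0∞) / 2 + (δ : ℝ≥0∞) / 2 := by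
          refine add_le_add hk.le (le_of_eq ?_)
          rw [div_eq_mul_inv, div_eq_mul_inv, mul_left_comm]
          congr 1
          rw [show (8 : ℝ≥0∞) = 4 * 2 by norm_num, ENNReal.mul_inv (by simp) (by simp),
            ← mul_assoc, ENNReal.mul_inv_cancel (by simp) (by simp), one_mul]
      _ = δ := ENNReal.add_halves _
  have h2 : ∀ᵐ ω ∂μ, ¬ ∀ s, 0 ≤ s → u * (W s ω).im < M := by
    rw [ae_iff]
    simpa using hzero
  filter_upwards [h2] with ω hω
  push Not at hω
  exact hω

/-- A coordinate without variance vanishes. -/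
theorem coord_zero [IsProbabilityMeasure μ] {a : ℝ} (hW : Gau a b c K W μ) {L : ℂ → ℝ}
    (hLm : Continuous L) (hL0 : L 0 = 0) (hLle : ∀ z, |L z| ≤ ‖z‖)
    (h2 : ∀ t, 0 ≤ t → ∫ ω, L (W t ω - W 0 ω) ^ 2 ∂μ = 0) :
    ∀ᵐ ω ∂μ, ∀ t, L (W t ω) = 0 := by
  have h1 : ∀ q : ℚ, ∀ᵐ ω ∂μ, L (W q ω) = 0 := by
    intro q
    rcases le_or_gt (0 : ℝ) (q : ℝ) with hq | hq
    · have h1 := h2 q hq
      have hint : Integrable (fun ω => L (W q ω - W 0 ω) ^ 2) μ := by
        refine ((integrable_const (1 : ℝ)).add (hW.int4 0 q le_rfl hq)).mono' ?_ ?_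
        · have := ((hW.meas q).sub (hW.meas 0))
          exact ((hLm.measurable.comp this).pow_const 2).aestronglyMeasurable
        · refine Eventually.of_forall fun ω => ?_
          rw [Real.norm_of_nonneg (sq_nonneg _)]
          have h2 : L (W q ω - W 0 ω) ^ 2 ≤ ‖W q ω - W 0 ω‖ ^ 2 :=
            sq_le_sq.2 (by rw [abs_norm]; exact hLle _)
          simp only [Pi.add_apply]
          nlinarith [sq_nonneg (‖W q ω - W 0 ω‖ ^ 2 - 1), sq_nonneg ‖W q ω - W 0 ω‖]
      rw [integral_eq_zero_iff_of_nonneg (fun ω => sq_nonneg _) hint] at h1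
      filter_upwards [h1] with ω hω
      simp only [hW.zero 0 le_rfl, sub_zero] at hω
      simpa using hω
    · exact Eventually.of_forall fun ω => by rw [hW.zero q hq.le, hL0]
  filter_upwards [ae_all_iff.2 h1] with ω hω
  have h3 : (fun t => L (W t ω)) = fun _ => 0 :=
    Continuous.ext_on Rat.denseRange_cast (hLm.comp (hW.cont ω))
      continuous_const (by rintro _ ⟨q, rfl⟩; exact hω q)
  exact fun t => congrFun h3 t

/-- AZ. Transience for imaginary driving processes. -/
theorem azero_gau [IsProbabilityMeasure μ] (hW : Gau 0 b c K W μ) :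
    ∀ᵐ ω ∂μ, Transient (fun t => W t ω) := by
  have hre : ∀ᵐ ω ∂μ, ∀ t, (W t ω).re = 0 := coord_zero hW Complex.continuous_re rfl
    Complex.abs_re_le_norm (fun t ht => by
      rw [hW.m2x 0 t le_rfl ht]
      ring)
  rcases hW.b_nonneg.eq_or_lt with hb | hb
  · have him : ∀ᵐ ω ∂μ, ∀ t, (W t ω).im = 0 := coord_zero hW Complex.continuous_im rfl
      Complex.abs_im_le_norm (fun t ht => by
        rw [hW.m2y 0 t le_rfl ht, ← hb]
        ring)
    filter_upwards [hre, him] with ω h1 h2
    exact trans_zero fun t => Complex.ext (h1 t) (h2 t)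
  · have hup : ∀ᵐ ω ∂μ, ∀ n : ℕ, ∃ s, 0 ≤ s ∧ (n : ℝ) ≤ 1 * (W s ω).im :=
      ae_all_iff.2 fun n => unbdd hW hb (by norm_num) n
    have hdn : ∀ᵐ ω ∂μ, ∀ n : ℕ, ∃ s, 0 ≤ s ∧ (n : ℝ) ≤ (-1) * (W s ω).im :=
      ae_all_iff.2 fun n => unbdd hW hb (by norm_num) n
    filter_upwards [hre, hup, hdn] with ω h1 h2 h3
    refine trans_unbdd (w := fun t => (W t ω).im)
      (Complex.continuous_im.comp (hW.cont ω)) (fun t => ?_) ?_ (fun R => ?_) (fun R => ?_)
    · apply Complex.ext
      · simp [h1 t]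
      · simp
    · rw [hW.zero 0 le_rfl]
      rfl
    · obtain ⟨n, hn⟩ := exists_nat_ge R
      obtain ⟨s, hs, h⟩ := h2 n
      exact ⟨s, hs, by linarith⟩
    · obtain ⟨n, hn⟩ := exists_nat_ge (-R)
      obtain ⟨s, hs, h⟩ := h3 n
      exact ⟨s, hs, by linarith⟩

end TCAZ

/-- AZ. If the real part of the driving process vanishes, then the left hulls are transient. -/
theorem transient_azero {Ω : Type*} [MeasurableSpace Ω] {μ : Measure Ω} [IsProbabilityMeasure μ]
    {b c : ℝ} (hb : 0 ≤ b) (hc : c ^ 2 ≤ 0 * b) {W : ℝ≥0 → Ω → ℂ} (hW : PlanarBM 0 b c W μ) :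
    ∀ᵐ ω ∂μ, Transient (fun t : ℝ => W t.toNNReal ω) :=
  LN_transient le_rfl hb hc hW fun _ _ hB => TCAZ.azero_gau hB

end

end Pool.Agent.SLE
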