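import Pool.Agent.Lib.MP_c17912_pr_TC.BWIF
import Pool.Agent.Lib.MP_c17912_pr_TR.FIN

/-!
# MP_c17912_pr, project TC: transience from the goal estimate
-/

set_option autoImplicit false

open MeasureTheory ProbabilityTheory Filter
open scoped NNReal ENNReal Topology Real

namespace Pool.Agent.SLE

noncomputable section

variable {Ω : Type*} [MeasurableSpace Ω] {μ : Measure Ω}

/-- BWFN. Transience from the goal estimate. Proof: verbatim the proof of `transient_of_hasS`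
(TR/FIN.lean), which uses the hypothesis `HasS` only through `goal`. -/
theorem transient_of_goal [IsProbabilityMeasure μ] {a b c K : ℝ} (hG : GoalP μ a b c K)
    {W : ℝ → Ω → ℂ} (hW : Gau a b c K W μ) : ∀ᵐ ω ∂μ, Transient (fun t => W t ω) := by
  obtain ⟨n₀, hgoal⟩ := hG
  have hr : ∀ R : ℕ, (0 : ℝ) < (R : ℝ) + 1 := fun R => by positivity
  have hex : ∀ R n : ℕ, ∃ A : Set Ω,
      μ A ≤ ENNReal.ofReal (Real.exp (-((n + (n₀ + 1) : ℕ) : ℝ) ^ (1 / 5 : ℝ))) ∧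
        ∀ ω ∉ A, ∀ z : ℂ, ‖z‖ ≤ 1 →
          ∀ s ∈ Set.Icc ((4 : ℝ) ^ (n + (n₀ + 1))) (4 ^ (n + (n₀ + 1) + 1)), ∀ g : ℝ → ℂ,
          Sol (fun t => subP W 0 ((R : ℝ) + 1) t ω) z s g →
            1 < ‖g s - subP W 0 ((R : ℝ) + 1) s ω‖ := by
    intro R n
    obtain ⟨A, -, hA1, hA2⟩ := hgoal (n + (n₀ + 1)) (by omega) (subP W 0 ((R : ℝ) + 1))
      (hW.subP le_rfl (hr R))
    exact ⟨A, hA1, hA2⟩
  choose A hA1 hA2 using hex
  have hsum : ∀ R : ℕ, (∑' n, μ (A R n)) ≠ ∞ := by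
    intro R
    refine ne_top_of_le_ne_top ?_ (ENNReal.tsum_le_tsum (hA1 R))
    rw [← ENNReal.ofReal_tsum_of_nonneg (fun n => (Real.exp_pos _).le)
      (TRFIN.summable_exp n₀)]
    exact ENNReal.ofReal_ne_top
  have hae : ∀ᵐ ω ∂μ, ∀ R : ℕ, ∀ᶠ n in atTop, ω ∉ A R n :=
    ae_all_iff.mpr fun R => ae_eventually_notMem (hsum R)
  filter_upwards [hae] with ω hω
  intro ρ hρ
  have hcont : Continuous fun t => W t ω := hW.cont ω
  have hU0 : W 0 ω = 0 := hW.zero 0 le_rfl ω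
  set R : ℕ := ⌈ρ⌉₊ with hR
  set r : ℝ := (R : ℝ) + 1 with hrdef
  have hr1 : 1 ≤ r := by
    have : (0 : ℝ) ≤ R := Nat.cast_nonneg R
    linarith
  have hr0 : 0 < r := by linarith
  have hr2 : 0 < r ^ 2 := by positivity
  have hρr : ρ ≤ r := by
    have := Nat.le_ceil ρ
    linarith
  obtain ⟨n₁, hn₁⟩ := eventually_atTop.mp (hω R)
  set m : ℕ := n₁ + (n₀ + 1) with hm
  refine ⟨r ^ 2 * 4 ^ m, by positivity, fun t ht => ?_⟩
  have hT0 : 0 ≤ r ^ 2 * 4 ^ m := by positivity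
  ext z
  constructor
  · rintro ⟨hz, hzρ⟩
    refine ⟨?_, hzρ⟩
    by_contra hcon
    simp only [hull, Set.mem_ofPred_eq, not_not] at hcon
    obtain ⟨g₀, hg₀⟩ := hcon
    obtain ⟨d, hd, hdg⟩ := FlowAux.exists_lower hcont hg₀
    have hδ0 : 0 < min d 1 / 2 := by positivity
    have hδd : min d 1 / 2 < d := by
      have := min_le_left d 1
      linarith
    have hδ1 : min d 1 / 2 ≤ 1 := by
      have := min_le_right d 1
      linarith
    obtain ⟨s, hs, g, hg, hgs⟩ := hull_reach hcont (hT0.trans ht) hz hδ0 (by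
      have h1 := hdg 0 ⟨le_rfl, hT0⟩
      rw [hg₀.1] at h1
      exact hδd.trans_le h1)
    have hsT : r ^ 2 * 4 ^ m < s := by
      by_contra hcon
      rw [not_lt] at hcon
      have h1 := (hg.unique hcont (hg₀.restrict hcon)) s ⟨hs.1, le_rfl⟩
      have h2 := hdg s ⟨hs.1, hcon⟩
      rw [← h1] at h2
      linarith
    have hx : (4 : ℝ) ^ m ≤ s / r ^ 2 := by
      rw [le_div_iff₀ hr2]
      linarith
    obtain ⟨n, hn1, hn2⟩ := exists_nat_pow_near (x := s / r ^ 2) (y := (4 : ℝ))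
      ((one_le_pow₀ (by norm_num)).trans hx) (by norm_num)
    have hmn : m ≤ n := by
      have h1 : (4 : ℝ) ^ m < 4 ^ (n + 1) := hx.trans_lt hn2
      have h2 := (pow_lt_pow_iff_right₀ (by norm_num : (1 : ℝ) < 4)).mp h1
      omega
    obtain ⟨k, hk⟩ : ∃ k, n = k + (n₀ + 1) := ⟨n - (n₀ + 1), by omega⟩
    have hk1 : n₁ ≤ k := by omega
    have hsh := hg.shift le_rfl hs.1 hr0
    rw [sub_zero, hg.1, hU0, sub_zero] at hsh
    have hfin := hA2 R k ω (hn₁ k hk1) (r⁻¹ • z) (by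
      have h1 : ‖z‖ < ρ := by simpa using hzρ
      rw [norm_smul, norm_inv, Real.norm_of_nonneg hr0.le, inv_mul_le_iff₀ hr0]
      linarith) (s / r ^ 2) (by
      rw [← hk]
      exact ⟨hn1, hn2.le⟩) _ hsh
    have hval : ‖r⁻¹ • (g (0 + r ^ 2 * (s / r ^ 2)) - 0) - subP W 0 r (s / r ^ 2) ω‖ =
        r⁻¹ * (min d 1 / 2) := by
      have h1 : r ^ 2 * (s / r ^ 2) = s := by field_simp
      have h2 : max (s / r ^ 2) 0 = s / r ^ 2 := max_eq_left (div_nonneg hs.1 hr2.le)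
      rw [subP, psub, h2, h1, zero_add, ← smul_sub, hU0, sub_zero, sub_zero, norm_smul, hgs,
        norm_inv, Real.norm_of_nonneg hr0.le]
    rw [hval] at hfin
    have h3 : r⁻¹ ≤ 1 := inv_le_one_of_one_le₀ hr1
    have h4 : r⁻¹ * (min d 1 / 2) ≤ 1 * 1 := by gcongr
    linarith
  · rintro ⟨hz, hzρ⟩
    refine ⟨?_, hzρ⟩
    rintro ⟨g, hg⟩
    exact hz ⟨g, hg.restrict ht⟩

end

end Pool.Agent.SLE
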