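import Pool.Agent.Lib.MP_c17912_pr_TR.GRW
import Pool.Agent.Lib.MP_c17912_pr_TR.LVL

/-!
# MP_c17912_pr, project TC, backward critical case: the growth contradiction (pure analysis)
-/

set_option autoImplicit false

open MeasureTheory ProbabilityTheory Filter
open scoped NNReal ENNReal Topology Real

namespace Pool.Agent.SLE

noncomputable section

namespace TCBWGR

theorem rt_pow {s : ℝ} (hs : 0 ≤ s) : (s ^ (1 / 4 : ℝ)) ^ 4 = s := by
  rw [← Real.rpow_natCast, ← Real.rpow_mul hs]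
  norm_num

/-- The eventual inequalities. -/
theorem ev {C c₁ κ : ℝ} (hC : 0 < C) (hc : 0 < c₁) (hκ : 0 < κ) :
    ∃ T : ℝ, 3 ≤ T ∧ ∀ t ≥ T, 1 ≤ Real.log t ∧ Real.log t ≤ √t ∧
      65536 * C * Real.log t ^ 4 ≤ c₁ * t ^ (1 / 4 : ℝ) ∧ 8 * C * √t ≤ c₁ * t ^ (5 / 8 : ℝ) ∧
      2 ≤ κ * t ^ (1 / 4 : ℝ) ∧
      4 * C * (t ^ (1 / 4 : ℝ)) ^ 12 ≤ c₁ * Real.exp (κ * t ^ (1 / 4 : ℝ) / 8) ∧
      32 * Real.log t ≤ t ^ (1 / 4 : ℝ) := by
  have hM : 0 < 65536 * C / c₁ := by positivity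
  have e1 : ∀ᶠ t : ℝ in atTop, ‖Real.log t ^ (4 : ℝ)‖ ≤
      (65536 * C / c₁)⁻¹ * ‖t ^ (1 / 4 : ℝ)‖ :=
    (isLittleO_log_rpow_rpow_atTop 4 (by norm_num : (0 : ℝ) < 1 / 4)).bound (by positivity)
  have e2 : ∀ᶠ t : ℝ in atTop, ‖Real.log t‖ ≤ 1 / 32 * ‖t ^ (1 / 4 : ℝ)‖ :=
    (isLittleO_log_rpow_atTop (by norm_num : (0 : ℝ) < 1 / 4)).bound (by norm_num)
  have e3 : ∀ᶠ t : ℝ in atTop, 8 * C / c₁ ≤ t ^ (1 / 8 : ℝ) :=
    (tendsto_rpow_atTop (by norm_num : (0 : ℝ) < 1 / 8)).eventually_ge_atTop _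
  have e4 : ∀ᶠ t : ℝ in atTop, 2 / κ ≤ t ^ (1 / 4 : ℝ) :=
    (tendsto_rpow_atTop (by norm_num : (0 : ℝ) < 1 / 4)).eventually_ge_atTop _
  have e5 : ∀ᶠ t : ℝ in atTop, (κ * t ^ (1 / 4 : ℝ) / 8) ^ 12 *
      Real.exp (-(κ * t ^ (1 / 4 : ℝ) / 8)) ≤ c₁ * (κ / 8) ^ 12 / (4 * C) := by
    have h1 : Tendsto (fun t : ℝ => κ * t ^ (1 / 4 : ℝ) / 8) atTop atTop := by
      have h2 := tendsto_rpow_atTop (by norm_num : (0 : ℝ) < 1 / 4)
      exact (h2.const_mul_atTop hκ).atTop_div_const (by norm_num)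
    have h3 := (Real.tendsto_pow_mul_exp_neg_atTop_nhds_zero 12).comp h1
    have h4 : 0 < c₁ * (κ / 8) ^ 12 / (4 * C) := by positivity
    filter_upwards [h3.eventually (gt_mem_nhds h4)] with t ht
    exact ht.le
  have e6 : ∀ᶠ t : ℝ in atTop, (1 : ℝ) ≤ Real.log t :=
    Real.tendsto_log_atTop.eventually_ge_atTop _
  obtain ⟨T, hT⟩ := eventually_atTop.1 (e1.and (e2.and (e3.and (e4.and (e5.and e6)))))
  refine ⟨max T 3, le_max_right _ _, fun t ht => ?_⟩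
  obtain ⟨f1, f2, f3, f4, f5, f6⟩ := hT t ((le_max_left _ _).trans ht)
  have ht3 : (3 : ℝ) ≤ t := (le_max_right _ _).trans ht
  have ht1 : (1 : ℝ) ≤ t := by linarith
  have ht0 : (0 : ℝ) < t := by linarith
  have hlog0 : 0 ≤ Real.log t := by linarith
  have p2 : 0 < t ^ (1 / 4 : ℝ) := Real.rpow_pos_of_pos ht0 _
  rw [Real.norm_of_nonneg (by positivity), Real.norm_of_nonneg p2.le] at f1
  rw [Real.norm_of_nonneg hlog0, Real.norm_of_nonneg p2.le] at f2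
  have g1 : Real.log t ^ (4 : ℝ) = Real.log t ^ 4 := by
    have := Real.rpow_natCast (Real.log t) 4
    push_cast at this
    exact this
  rw [g1] at f1
  have hs : √t = t ^ (1 / 2 : ℝ) := Real.sqrt_eq_rpow t
  have q2 : t ^ (5 / 8 : ℝ) = √t * t ^ (1 / 8 : ℝ) := by
    rw [hs, ← Real.rpow_add ht0]; norm_num
  have hs1 : 0 ≤ √t := Real.sqrt_nonneg t
  refine ⟨f6, ?_, ?_, ?_, ?_, ?_, by linarith⟩
  · rw [hs]
    have h1 : t ^ (1 / 4 : ℝ) ≤ t ^ (1 / 2 : ℝ) :=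
      Real.rpow_le_rpow_of_exponent_le ht1 (by norm_num)
    linarith
  · have h1 := mul_le_mul_of_nonneg_left f1 hM.le
    rw [← mul_assoc, mul_inv_cancel₀ hM.ne', one_mul, div_mul_eq_mul_div,
      div_le_iff₀ hc] at h1
    linarith
  · rw [q2]
    have h := mul_le_mul_of_nonneg_left f3 hc.le
    rw [mul_div_cancel₀ _ hc.ne'] at h
    nlinarith
  · rw [div_le_iff₀ hκ] at f4
    linarith
  · obtain ⟨y, hy⟩ : ∃ y, y = t ^ (1 / 4 : ℝ) := ⟨_, rfl⟩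
    rw [← hy] at f5 ⊢
    rw [le_div_iff₀ (by positivity), Real.exp_neg] at f5
    have hE : 0 < Real.exp (κ * y / 8) := Real.exp_pos _
    have h1 : (κ * y / 8) ^ 12 = (κ / 8) ^ 12 * y ^ 12 := by
      rw [← mul_pow]; ring
    rw [h1] at f5
    have hk : 0 < (κ / 8) ^ 12 := by positivity
    have h2 : (κ / 8) ^ 12 * (4 * C * y ^ 12) ≤ (κ / 8) ^ 12 * (c₁ * Real.exp (κ * y / 8)) := by
      have h3 := mul_le_mul_of_nonneg_right f5 hE.le
      have h4 : (κ / 8) ^ 12 * y ^ 12 * (Real.exp (κ * y / 8))⁻¹ * (4 * C) *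
          Real.exp (κ * y / 8) = (κ / 8) ^ 12 * (4 * C * y ^ 12) := by
        field_simp
      rw [h4] at h3
      linarith
    exact le_of_mul_le_mul_left h2 hk

/-- One step of growth: fourth roots. -/
theorem cube_sub {r r' l : ℝ} (hr : 0 < r) (hr' : r ≤ r') (h : r' ^ 4 = r ^ 4 + l) :
    r' ^ 3 - r ^ 3 ≤ l / r := by
  rw [le_div_iff₀ hr]
  have h0 : 0 ≤ r' := by linarith
  have h1 : 0 ≤ r' ^ 3 * (r' - r) := mul_nonneg (by positivity) (by linarith)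
  nlinarith

theorem cube_sub' {r r' : ℝ} (hr : 0 ≤ r) (hr' : r ≤ r') :
    r' ^ 4 - r ^ 4 ≤ 2 * r' * (r' ^ 3 - r ^ 3) := by
  have h1 : 0 ≤ r' - r := by linarith
  have h0 : 0 ≤ r' := hr.trans hr'
  have h2 : 2 * r' * (r' ^ 3 - r ^ 3) - (r' ^ 4 - r ^ 4) =
      (r' - r) * (r' ^ 3 + r' ^ 2 * r + r' * r ^ 2 - r ^ 3) := by ring
  have h3 : r ^ 3 ≤ r' * r ^ 2 := by
    have := mul_le_mul_of_nonneg_right hr' (sq_nonneg r)
    nlinarith
  have h4 : 0 ≤ r' ^ 3 + r' ^ 2 * r + r' * r ^ 2 - r ^ 3 := by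
    have : 0 ≤ r' ^ 3 := by positivity
    have : 0 ≤ r' ^ 2 * r := by positivity
    linarith
  have := mul_nonneg h1 h4
  linarith

theorem exp_le {t : ℝ} (h0 : 0 ≤ t) (h1 : t ≤ 1 / 2) : Real.exp t ≤ 1 + 2 * t := by
  have h2 := Real.add_one_le_exp (-t)
  rw [Real.exp_neg] at h2
  have h3 : 0 < Real.exp t := Real.exp_pos t
  have h4 := mul_le_mul_of_nonneg_right h2 h3.le
  rw [inv_mul_cancel₀ h3.ne'] at h4
  nlinarith

/-- The multiplicative growth in one step. -/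
theorem step {C c₁ L q x UB : ℝ} (hC : 0 < C) (hc : 0 < c₁) (c1 : 1 ≤ L) (hq0 : 0 < q)
    (hq1 : q ≤ 256 * L ^ 2) (hx : 0 ≤ x) (h7 : c₁ * x / 2 ≤ (C * L) * UB) :
    x * (c₁ / (2048 * C * L ^ 3)) ≤ UB / (4 * q) := by
  have hL : 0 < L := by linarith
  have ha : 0 < C * L := by positivity
  have h8 : c₁ * x / 2 / (C * L) ≤ UB := by
    rw [div_le_iff₀ ha]; linarith
  have h9 : 0 ≤ c₁ * x / 2 / (C * L) := by positivity
  calc x * (c₁ / (2048 * C * L ^ 3)) = (c₁ * x / 2 / (C * L)) / (4 * (256 * L ^ 2)) := by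
        field_simp
        ring
    _ ≤ (c₁ * x / 2 / (C * L)) / (4 * q) :=
        div_le_div_of_nonneg_left h9 (by positivity) (by linarith)
    _ ≤ UB / (4 * q) := div_le_div_of_nonneg_right h8 (by positivity)

end TCBWGR

/-- BWGR. As `growth_contra` (TR/GRW.lean); the error is `C (m + √n)` up to the level
`m ≤ κ √n` and `C (n + m)^3` afterwards, and the start is a large clock `x k₀ ≥ n^(5/8)`.

Proof. Write `m_k = lev n k`, `N_k = n + m_k`, `L_k = log N_k`, `y_k = Nat.log 2 N_k`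
(`L_k ≤ y_k + 1`, `y_k ≤ 2 L_k`), `a_k = C L_k`, `v_k` the error; `4 ^ ll N_k ≤ 64 y_k^2`.
1. As in GRW: if `c₁ x_k ≥ 8 v_k + 8 a_k` then `B_k ≤ (U_k + 1) / 4 + v_k / (4 a_k)`,
   `U_k + 1 ≥ (c₁ x_k - v_k) / a_k`, `U_k - B_k ≥ c₁ x_k / (4 a_k)`, and
   `x_{k+1} ≥ x_k (1 + c₁ / (16 a_k * 64 y_k^2)) ≥ x_k exp (ll N_k / L_k^4)` for `n ≥ n₀`.
2. Induction on `k ≥ k₀`: `x_k ≥ n^(5/8) exp ((m_k - m_{k₀}) / L_k^4)` (use `L_k ≤ L_{k+1}`), and
   for `n ≥ n₀` the right side `E(m)` (`m = m_k`) satisfies `c₁ E ≥ 8 v + 8 C log (n + m)`: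
   if `m ≤ κ √n` then `v + C log (n + m) ≤ C (2 κ + 2) √n` and `E ≥ n^(5/8)`; if `m > κ √n` then
   `n ≤ (m / κ)^2`, `m_{k₀} ≤ n^(1/4) ≤ m / 2`, and
   `E ≥ exp (m / (2 (log (m + (m/κ)^2))^4)) ≥ exp (√m)` for `m` large, which beats
   `(8 C + 8 C) ((m/κ)^2 + m)^3 / c₁`.
3. At `k₁`: `U_{k₁} = 0` and `h1` give `c₁ x_{k₁} ≤ a_{k₁} + v_{k₁}`, contradiction with 2. -/
theorem growth_bw {C c₁ κ : ℝ} (hC : 1 ≤ C) (hc : 0 < c₁) (hκ : 0 < κ) (hκ1 : κ ≤ 1) :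
    ∃ n₀ : ℕ, ∀ n ≥ n₀, ∀ (x U B : ℕ → ℝ) (k₀ k₁ : ℕ), (∀ k, 0 ≤ x k) → (∀ k, 0 ≤ U k) →
      (∀ k, 0 ≤ B k) → (lev n k₀ : ℝ) ≤ (n : ℝ) ^ (1 / 4 : ℝ) →
      (∀ k ≥ k₀, c₁ * x k + 4 * C * Real.log ((n : ℝ) + lev n k) * B k ≤
        (U k + 1) * (C * Real.log ((n : ℝ) + lev n k)) +
          C * (if (lev n k : ℝ) ≤ κ * √n then lev n k + √n else ((n : ℝ) + lev n k) ^ 3)) →
      (∀ k ≥ k₀, x k + (U k - B k) / (4 * 4 ^ ll (n + lev n k)) ≤ x (k + 1)) →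
      (n : ℝ) ^ (5 / 8 : ℝ) ≤ x k₀ → k₀ < k₁ → U k₁ = 0 → False := by
  have hC0 : 0 < C := by linarith
  obtain ⟨T, hT3, hT⟩ := TCBWGR.ev hC0 hc hκ
  obtain ⟨n₀, hn₀⟩ := exists_nat_ge T
  refine ⟨n₀, fun n hn x U B k₀ k₁ hx hU hB hlev h1 h2 hx0 hk hU1 => ?_⟩
  have hnT : T ≤ (n : ℝ) := hn₀.trans (by exact_mod_cast hn)
  have hn3 : (3 : ℝ) ≤ n := hT3.trans hnT
  have hn3' : 3 ≤ n := by exact_mod_cast hn3
  have hN2 : ∀ k, 2 ≤ n + lev n k := fun k => by omega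
  obtain ⟨b1, b2, b3, b4, b5, b6, b7⟩ := hT n hnT
  have hNT : ∀ k, T ≤ (n : ℝ) + lev n k := fun k => by
    have : (0 : ℝ) ≤ (lev n k : ℝ) := Nat.cast_nonneg _
    linarith
  have hcast : ∀ k, ((n + lev n k : ℕ) : ℝ) = (n : ℝ) + lev n k := fun k => by push_cast; rfl
  -- the fourth roots
  obtain ⟨R, hR⟩ : ∃ R : ℕ → ℝ, ∀ k, R k = ((n : ℝ) + lev n k) ^ (1 / 4 : ℝ) := ⟨_, fun k => rfl⟩
  have hR4 : ∀ k, R k ^ 4 = (n : ℝ) + lev n k := fun k => by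
    rw [hR]
    exact TCBWGR.rt_pow (by positivity)
  have hR0 : ∀ k, 0 < R k := fun k => by
    rw [hR]
    exact Real.rpow_pos_of_pos (by positivity) _
  have hRm : ∀ j k, j ≤ k → R j ≤ R k := fun j k hjk => by
    rw [hR, hR]
    refine Real.rpow_le_rpow (by positivity) ?_ (by norm_num)
    have : (lev n j : ℝ) ≤ lev n k := by exact_mod_cast (lev_strictMono n).monotone hjk
    linarith
  obtain ⟨v, hv⟩ : ∃ v : ℕ → ℝ, ∀ k, v k = C * (if (lev n k : ℝ) ≤ κ * √n then lev n k + √n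
      else ((n : ℝ) + lev n k) ^ 3) := ⟨_, fun k => rfl⟩
  have hsn : 0 ≤ √(n : ℝ) := Real.sqrt_nonneg _
  have hv0 : ∀ k, 0 ≤ v k := fun k => by
    rw [hv]
    split_ifs <;> positivity
  -- the algebra of one step
  have hkey : ∀ k ≥ k₀, c₁ * x k - v k - C * Real.log ((n : ℝ) + lev n k) ≤
      C * Real.log ((n : ℝ) + lev n k) * (U k - B k) := by
    intro k hk
    have ha : 0 < C * Real.log ((n : ℝ) + lev n k) := by
      have := (hT _ (hNT k)).1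
      positivity
    have h3 := h1 k hk
    rw [← hv] at h3
    have h4 := mul_nonneg ha.le (hB k)
    nlinarith
  have hn58 : 1 ≤ (n : ℝ) ^ (5 / 8 : ℝ) := Real.one_le_rpow (by linarith) (by norm_num)
  -- the invariant is strong enough
  have hbig : ∀ k ≥ k₀, (n : ℝ) ^ (5 / 8 : ℝ) * Real.exp (R k ^ 3 - R k₀ ^ 3) ≤ x k →
      2 * (v k + C * Real.log ((n : ℝ) + lev n k)) ≤ c₁ * x k := by
    intro k hk hk2
    obtain ⟨c1, c2, -, -, -, c6, -⟩ := hT _ (hNT k)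
    have hm : (lev n k₀ : ℝ) ≤ lev n k := by exact_mod_cast (lev_strictMono n).monotone hk
    have hm0 : (0 : ℝ) ≤ lev n k₀ := Nat.cast_nonneg _
    have h3 := mul_le_mul_of_nonneg_left hk2 hc.le
    have hcub : R k₀ ^ 3 ≤ R k ^ 3 := pow_le_pow_left₀ (hR0 k₀).le (hRm _ _ hk) 3
    by_cases hreg : (lev n k : ℝ) ≤ κ * √n
    · have hvk : v k = C * (lev n k + √n) := by rw [hv, if_pos hreg]
      have h4 : (1 : ℝ) ≤ Real.exp (R k ^ 3 - R k₀ ^ 3) := Real.one_le_exp (by linarith)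
      have h5 : (lev n k : ℝ) ≤ √n := by nlinarith
      have h6 : √((n : ℝ) + lev n k) ≤ 2 * √n := by
        rw [Real.sqrt_le_left (by positivity)]
        have h7 := Real.sq_sqrt (by linarith : (0 : ℝ) ≤ n)
        have h8 : √(n : ℝ) ≤ n := by
          rw [Real.sqrt_le_left (by positivity)]
          nlinarith
        nlinarith
      have h7 : C * Real.log ((n : ℝ) + lev n k) ≤ C * (2 * √n) :=
        mul_le_mul_of_nonneg_left (by linarith) hC0.le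
      have h8 : C * ((lev n k : ℝ) + √n) ≤ C * (2 * √n) :=
        mul_le_mul_of_nonneg_left (by linarith) hC0.le
      have h9 : c₁ * (n : ℝ) ^ (5 / 8 : ℝ) ≤
          c₁ * ((n : ℝ) ^ (5 / 8 : ℝ) * Real.exp (R k ^ 3 - R k₀ ^ 3)) :=
        mul_le_mul_of_nonneg_left (le_mul_of_one_le_right (by linarith) h4) hc.le
      rw [hvk]
      linarith
    · have hvk : v k = C * ((n : ℝ) + lev n k) ^ 3 := by rw [hv, if_neg hreg]
      push Not at hreg
      rw [← hR] at c6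
      have hs1 : (1 : ℝ) ≤ (n : ℝ) + lev n k := by linarith
      have h4 : C * Real.log ((n : ℝ) + lev n k) ≤ C * ((n : ℝ) + lev n k) ^ 3 := by
        refine mul_le_mul_of_nonneg_left ?_ hC0.le
        have h5 := Real.log_le_sub_one_of_pos (by linarith : (0 : ℝ) < (n : ℝ) + lev n k)
        have h6 := le_self_pow₀ hs1 (by norm_num : (3 : ℕ) ≠ 0)
        linarith
      obtain ⟨ρ, hρ⟩ : ∃ ρ : ℝ, ρ = (n : ℝ) ^ (1 / 4 : ℝ) := ⟨_, rfl⟩
      have hρ4 : ρ ^ 4 = n := by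
        rw [hρ]
        exact TCBWGR.rt_pow (by linarith)
      have hρ2 : ρ ^ 2 = √n := by
        have h5 : √(n : ℝ) = √((ρ ^ 2) ^ 2) := by
          rw [← hρ4]
          ring_nf
        rw [h5, Real.sqrt_sq (by positivity)]
      rw [← hρ] at b5
      have hρ1 : 1 ≤ ρ := by
        rw [hρ]
        exact Real.one_le_rpow (by linarith) (by norm_num)
      rw [← hρ2] at hreg
      have hlev' : (lev n k₀ : ℝ) ≤ ρ := by
        rw [hρ]
        exact hlev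
      have hm2 : 2 * ρ ≤ lev n k := by nlinarith
      have hm1 : (1 : ℝ) ≤ lev n k := by linarith
      have h5 : κ * R k ^ 2 ≤ 2 * lev n k := by
        by_contra hne
        push Not at hne
        have h6 : (κ * R k ^ 2) ^ 2 = κ ^ 2 * ρ ^ 4 + κ ^ 2 * lev n k := by
          rw [mul_pow, ← pow_mul, hR4, hρ4]
          ring
        have h7 : κ ^ 2 * ρ ^ 4 ≤ (lev n k : ℝ) ^ 2 := by
          have h8 : 0 ≤ κ * ρ ^ 2 := by positivity
          nlinarith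
        have h8 : κ ^ 2 * lev n k ≤ (lev n k : ℝ) ^ 2 := by
          have h9 : κ ^ 2 ≤ 1 := by nlinarith
          nlinarith
        nlinarith
      have h6 := TCBWGR.cube_sub' (hR0 k₀).le (hRm _ _ hk)
      rw [hR4, hR4] at h6
      have h7 : κ * R k / 8 ≤ R k ^ 3 - R k₀ ^ 3 := by
        have h8 : (2 * R k) * (κ * R k / 8) ≤ (2 * R k) * (R k ^ 3 - R k₀ ^ 3) := by
          nlinarith
        exact le_of_mul_le_mul_left h8 (by linarith [hR0 k])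
      have h8 := Real.exp_le_exp.2 h7
      have h9 : Real.exp (R k ^ 3 - R k₀ ^ 3) ≤
          (n : ℝ) ^ (5 / 8 : ℝ) * Real.exp (R k ^ 3 - R k₀ ^ 3) :=
        le_mul_of_one_le_left (Real.exp_pos _).le hn58
      have h10 := mul_le_mul_of_nonneg_left (h8.trans h9) hc.le
      have h11 : R k ^ 12 = ((n : ℝ) + lev n k) ^ 3 := by
        rw [← hR4, ← pow_mul]
      rw [h11] at c6
      rw [hvk]
      linarith
  have hinv : ∀ k, k₀ ≤ k → (n : ℝ) ^ (5 / 8 : ℝ) * Real.exp (R k ^ 3 - R k₀ ^ 3) ≤ x k := by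
    intro k hk
    induction k, hk using Nat.le_induction with
    | base =>
      rw [sub_self, Real.exp_zero, mul_one]
      exact hx0
    | succ k hk ih =>
      obtain ⟨c1, -, c3, -, -, -, c7⟩ := hT _ (hNT k)
      have h3 := hkey k hk
      have h4 := h2 k hk
      have hq1 := TRGRW.four_pow_ll_le (hN2 k)
      have hl1 := TRGRW.ll_le_log (hN2 k)
      rw [hcast] at hq1 hl1
      have hm : lev n (k + 1) = lev n k + ll (n + lev n k) := rfl
      have h5 := hbig k hk ih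
      have hRs : R (k + 1) ^ 4 = R k ^ 4 + ll (n + lev n k) := by
        rw [hR4, hR4, hm]
        push_cast
        ring
      have hmono := hRm _ _ (Nat.le_succ k)
      have ht := TCBWGR.cube_sub (hR0 k) hmono hRs
      rw [← hR] at c3 c7
      obtain ⟨L, hLd⟩ : ∃ L, L = Real.log ((n : ℝ) + lev n k) := ⟨_, rfl⟩
      obtain ⟨q, hqd⟩ : ∃ q : ℝ, q = 4 ^ ll (n + lev n k) := ⟨_, rfl⟩
      obtain ⟨l, hld⟩ : ∃ l : ℝ, l = ll (n + lev n k) := ⟨_, rfl⟩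
      obtain ⟨t, htd⟩ : ∃ t : ℝ, t = R (k + 1) ^ 3 - R k ^ 3 := ⟨_, rfl⟩
      have hq0 : 0 < q := by rw [hqd]; positivity
      rw [← hLd] at c1 c3 c7 h3 h5 hq1 hl1
      rw [← hqd] at h4 hq1
      rw [← hld] at hl1 ht
      rw [← htd] at ht
      have hRk := hR0 k
      have ht0 : 0 ≤ t := by
        rw [htd]
        have := pow_le_pow_left₀ hRk.le hmono 3
        linarith
      have ht1 : t ≤ 16 * L / R k := ht.trans (div_le_div_of_nonneg_right hl1 hRk.le)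
      have ht2 : t ≤ 1 / 2 := by
        refine ht1.trans ?_
        rw [div_le_iff₀ hRk]
        linarith
      have hL3 : 0 < 2048 * C * L ^ 3 := by
        have : 0 < L := by linarith
        positivity
      have ht3 : 2 * t ≤ c₁ / (2048 * C * L ^ 3) := by
        rw [le_div_iff₀ hL3]
        rw [le_div_iff₀ hRk] at ht1
        have h6 : (2 * t * (2048 * C * L ^ 3)) * R k ≤ c₁ * R k := by
          calc (2 * t * (2048 * C * L ^ 3)) * R k = (2 * (2048 * C * L ^ 3)) * (t * R k) := by ring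
            _ ≤ (2 * (2048 * C * L ^ 3)) * (16 * L) := mul_le_mul_of_nonneg_left ht1 (by linarith)
            _ = 65536 * C * L ^ 4 := by ring
            _ ≤ c₁ * R k := c3
        exact le_of_mul_le_mul_right h6 hRk
      have h7 : c₁ * x k / 2 ≤ (C * L) * (U k - B k) := by linarith
      have h8 := TCBWGR.step hC0 hc c1 hq0 hq1 (hx k) h7
      have h9 := mul_le_mul_of_nonneg_left ht3 (hx k)
      have h10 := TCBWGR.exp_le ht0 ht2
      have h11 : R (k + 1) ^ 3 - R k₀ ^ 3 = (R k ^ 3 - R k₀ ^ 3) + t := by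
        rw [htd]
        ring
      rw [h11, Real.exp_add, ← mul_assoc]
      calc (n : ℝ) ^ (5 / 8 : ℝ) * Real.exp (R k ^ 3 - R k₀ ^ 3) * Real.exp t
          ≤ x k * (1 + 2 * t) := mul_le_mul ih h10 (Real.exp_pos _).le (hx k)
        _ = x k + x k * (2 * t) := by ring
        _ ≤ x (k + 1) := by linarith
  have h3 := hinv k₁ hk.le
  have h4 := hbig k₁ hk.le h3
  have h5 := h1 k₁ hk.le
  rw [← hv, hU1] at h5
  have hL := (hT _ (hNT k₁)).1
  have h6 : 0 < C * Real.log ((n : ℝ) + lev n k₁) := by positivity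
  have h7 := hv0 k₁
  have h8 := mul_nonneg h6.le (hB k₁)
  nlinarith

end

end Pool.Agent.SLE
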