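import Pool.Agent.Lib.MP_c17912_pr_TC.BWLT

/-!
# MP_c17912_pr, project TC, backward critical case: late pieces on all the levels
-/

set_option autoImplicit false

open MeasureTheory ProbabilityTheory Filter
open scoped NNReal ENNReal Topology Real

namespace Pool.Agent.SLE

noncomputable section

variable {Ω : Type*} [MeasurableSpace Ω] {μ : Measure Ω}

/-- On the levels `m ≤ κ √n` the reversal of a solution which starts in the unit disc has a cut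
after every cell `α` (of the mesh `(rr m)^2`, reversed time) with
`T 4^m - α ≥ 4^(Nat.sqrt n - 1 + m)`. -/
def LateP (μ : Measure Ω) (a b c K ε c₀ : ℝ) : Prop :=
  ∃ κ : ℝ, 0 < κ ∧ κ ≤ 1 ∧ ∃ n₀ : ℕ, ∀ n ≥ n₀, ∀ W : ℝ → Ω → ℂ, Gau a b c K W μ →
    ∃ A, MeasurableSet A ∧ μ A ≤ ENNReal.ofReal (Real.exp (-(κ * √n))) ∧
      ∀ ω ∉ A, ∀ (T m α u : ℕ) (z : ℂ) (g : ℝ → ℂ), (m : ℝ) ≤ κ * √n → T ≤ 4 ^ (n + 1) →
        α + u = T * 4 ^ m → 4 ^ (Nat.sqrt n - 1 + m) ≤ u → ‖z‖ ≤ 1 →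
        Sol (fun t => W t ω) z T g →
        ‖gs (rvU (fun t => W t ω) T) (rvg (fun t => W t ω) g T) 0 (rr m) α -
          psub (rvU (fun t => W t ω) T) 0 (rr m) α‖ ≤ ((n : ℝ) + 4) * 2 ^ m + n + m + 3 →
        ¬ CutFree (psub (rvU (fun t => W t ω) T) 0 (rr m))
          (gs (rvU (fun t => W t ω) T) (rvg (fun t => W t ω) g T) 0 (rr m)) ε c₀ α
            (T * 4 ^ m : ℕ)

namespace TCBWLA

/-- The final numerical estimate of the probability. -/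
theorem num_prob {cL : ℝ} (hcL : 0 < cL) {q M n : ℕ} (hq3 : 3 ≤ q)
    (hq : 48 / (cL / 4) ^ 4 ≤ (q : ℝ) + 1) (hM : M ≤ q) (hn : n < (q + 1) ^ 2)
    (hqn : √(n : ℝ) < q + 1) :
    (((M + 1) * (n + 1 + 1 - (q - 1)) : ℕ) : ℝ) * Real.exp (-(cL * ((q : ℝ) - 1))) ≤
      Real.exp (-(cL / 4 * √(n : ℝ))) := by
  obtain ⟨c, hc⟩ : ∃ c, c = cL / 4 := ⟨_, rfl⟩
  obtain ⟨x, hx⟩ : ∃ x : ℝ, x = (q : ℝ) + 1 := ⟨_, rfl⟩
  have hc0 : 0 < c := by rw [hc]; positivity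
  have hx4 : 4 ≤ x := by
    have : (3 : ℝ) ≤ q := by exact_mod_cast hq3
    rw [hx]
    linarith
  rw [← hc, ← hx] at hq
  have hcL4 : cL = 4 * c := by rw [hc]; ring
  have hcard : (((M + 1) * (n + 1 + 1 - (q - 1)) : ℕ) : ℝ) ≤ 2 * x ^ 3 := by
    have h1 : (M + 1) * (n + 1 + 1 - (q - 1)) ≤ (q + 1) * ((q + 1) ^ 2 + 1) :=
      Nat.mul_le_mul (by omega) (by omega)
    have h2 : (((M + 1) * (n + 1 + 1 - (q - 1)) : ℕ) : ℝ) ≤
        (((q + 1) * ((q + 1) ^ 2 + 1) : ℕ) : ℝ) := by exact_mod_cast h1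
    refine h2.trans ?_
    push_cast
    rw [← hx]
    nlinarith
  have hexp : 2 * x ^ 3 ≤ Real.exp (c * x) := by
    have h1 := Real.pow_div_factorial_le_exp (c * x) (by positivity) 4
    refine le_trans ?_ h1
    rw [div_le_iff₀ (by positivity)] at hq
    have h2 : ((Nat.factorial 4 : ℕ) : ℝ) = 24 := by
      norm_num [Nat.factorial]
    rw [h2, le_div_iff₀ (by norm_num), mul_pow]
    have h3 : 0 ≤ x ^ 3 := by positivity
    nlinarith [mul_le_mul_of_nonneg_right hq h3]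
  calc (((M + 1) * (n + 1 + 1 - (q - 1)) : ℕ) : ℝ) * Real.exp (-(cL * ((q : ℝ) - 1)))
      ≤ Real.exp (c * x) * Real.exp (-(cL * ((q : ℝ) - 1))) :=
        mul_le_mul_of_nonneg_right (hcard.trans hexp) (Real.exp_pos _).le
    _ = Real.exp (c * x - cL * ((q : ℝ) - 1)) := by
        rw [← Real.exp_add]
        ring_nf
    _ ≤ Real.exp (-(cL / 4 * √(n : ℝ))) := by
        apply Real.exp_le_exp.2
        rw [← hc, hcL4]
        have h4 : (q : ℝ) - 1 = x - 2 := by rw [hx]; ring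
        rw [h4]
        rw [← hx] at hqn
        nlinarith [mul_lt_mul_of_pos_left hqn hc0]

/-- The final numerical estimate of the norm. -/
theorem num_norm {n q i m : ℕ} (hq6 : 6 ≤ q) (hn : n < (q + 1) ^ 2) (hi : q - 1 ≤ i) :
    ((n : ℝ) + 4) * 2 ^ m + n + m + 3 ≤ (i : ℝ) ^ 3 * 2 ^ m := by
  have h1 : 2 * n + 8 ≤ i ^ 3 := by
    obtain ⟨k, rfl⟩ : ∃ k, q = k + 6 := ⟨q - 6, by omega⟩
    have h2 : (k + 5) ^ 3 ≤ i ^ 3 := Nat.pow_le_pow_left (by omega) 3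
    refine le_trans ?_ h2
    nlinarith [Nat.zero_le k, Nat.zero_le (k ^ 2), Nat.zero_le (k ^ 3)]
  have h3 : m < 2 ^ m := Nat.lt_two_pow_self
  have h4 : (n + 4) * 2 ^ m + n + m + 3 ≤ i ^ 3 * 2 ^ m := by
    have h5 : n + m + 3 ≤ (n + 4) * 2 ^ m := by nlinarith
    calc (n + 4) * 2 ^ m + n + m + 3 = (n + 4) * 2 ^ m + (n + m + 3) := by ring
      _ ≤ (n + 4) * 2 ^ m + (n + 4) * 2 ^ m := by omega
      _ = (2 * n + 8) * 2 ^ m := by ring
      _ ≤ i ^ 3 * 2 ^ m := Nat.mul_le_mul_right _ h1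
  exact_mod_cast h4

end TCBWLA

/-- BWLA1. Proof. Let `cL` be from `late_unit`, `κ = cL / 4`. The event is the union over
`m ≤ κ √n` and `Nat.sqrt n - 1 ≤ i ≤ n + 1` of the events of `late_unit` for the process
`subP W 0 (rr m)` (`Gau.subP`; `m ≤ κ √n ≤ cL i`): at most
`(κ √n + 1) (n + 3) exp (-cL (√n - 2)) ≤ exp (-κ √n)`. Given `T, m, α, u, z, g` let `i` be such
that `4^(i+m) ≤ u ≤ 4^(i+m+1)` (`u ≤ T 4^m ≤ 4^(n+1+m)`). `Sol.shift` (time `0`, scale `rr m`,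
`W 0 ω = 0`) gives the scaled solution `gs U g 0 (rr m)`, started at `2^m z`; restrict it to
`[0,u]`. `cf_rev` gives `CutFree` for its reversal and the norm at the time `u`, which is at most
`(n + 4) 2^m + n + m + 3 ≤ (√n - 2)^3 2^m ≤ i^3 2^m` for large `n`. -/
theorem late_all [IsProbabilityMeasure μ] {a b c K : ℝ} (ha : 0 ≤ a) (hb : 0 ≤ b) (hK : 0 ≤ K)
    {ψ : ℝ → ℝ} (hψ : ContDiff ℝ 3 ψ) (hψp : Function.Periodic ψ (2 * π))
    (hop : ∀ θ, Op a b c 0 ψ θ - 2 * 2 * Real.cos (2 * θ) ≤ 0) (hM : CrF b a (-c))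
    (hD : DescP μ a b c K) :
    ∃ ε₀ > 0, ∀ ε : ℝ, 0 < ε → ε ≤ ε₀ → ∀ c₀ : ℝ, 0 ≤ c₀ → LateP μ a b c K ε c₀ := by
  obtain ⟨ε₀, hε₀, hlate⟩ := late_unit (μ := μ) ha hb hK hψ hψp hop hM hD
  refine ⟨ε₀, hε₀, fun ε hε hεε c₀ hc₀ => ?_⟩
  obtain ⟨cL, hcL, hcL1, i₀, hL⟩ := hlate ε hε hεε c₀ hc₀
  refine ⟨cL / 4, by positivity, by linarith,
    (max (i₀ + 7) ⌈48 / (cL / 4) ^ 4⌉₊) ^ 2, ?_⟩
  intro n hn W hW
  obtain ⟨q, hq⟩ : ∃ q, q = Nat.sqrt n := ⟨_, rfl⟩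
  have hq1 : max (i₀ + 7) ⌈48 / (cL / 4) ^ 4⌉₊ ≤ q := by
    rw [hq, Nat.le_sqrt']
    exact hn
  have hq7 : i₀ + 7 ≤ q := (le_max_left _ _).trans hq1
  have hqc : 48 / (cL / 4) ^ 4 ≤ (q : ℝ) + 1 := by
    have h1 := Nat.le_ceil (48 / (cL / 4) ^ 4)
    have h2 : ((⌈48 / (cL / 4) ^ 4⌉₊ : ℕ) : ℝ) ≤ q := by
      exact_mod_cast (le_max_right _ _).trans hq1
    linarith
  have hqn : √(n : ℝ) < q + 1 := by
    rw [hq]
    exact Real.real_sqrt_lt_nat_sqrt_succ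
  have hn1 : n < (q + 1) ^ 2 := by
    rw [hq]
    exact Nat.lt_succ_sqrt' n
  have hs0 : 0 ≤ √(n : ℝ) := Real.sqrt_nonneg _
  obtain ⟨M, hMd⟩ : ∃ M, M = ⌊cL / 4 * √(n : ℝ)⌋₊ := ⟨_, rfl⟩
  have hMle : (M : ℝ) ≤ cL / 4 * √(n : ℝ) := by
    rw [hMd]
    exact Nat.floor_le (by positivity)
  have hMq : M ≤ q := by
    have h1 : (M : ℝ) < q + 1 := by nlinarith
    have h2 : M < q + 1 := by exact_mod_cast h1
    omega
  -- the events
  have hex : ∀ m i : ℕ, ∃ A', MeasurableSet A' ∧ ((m : ℝ) ≤ cL / 4 * √(n : ℝ) → q - 1 ≤ i →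
      μ A' ≤ ENNReal.ofReal (Real.exp (-(cL * i))) ∧
          ∀ ω ∉ A', ∀ (u : ℕ) (z : ℂ) (g : ℝ → ℂ), 4 ^ (i + m) ≤ u → u ≤ 4 ^ (i + m + 1) →
            ‖z‖ ≤ 2 ^ m → Sol (fun t => subP W 0 (rr m) t ω) z u g →
            ‖g u - subP W 0 (rr m) u ω‖ ≤ (i : ℝ) ^ 3 * 2 ^ m →
            ¬ CutFree (rvU (fun t => subP W 0 (rr m) t ω) u)
              (rvg (fun t => subP W 0 (rr m) t ω) g u) ε c₀ 0 u) := by
    intro m i
    by_cases hc : (m : ℝ) ≤ cL / 4 * √(n : ℝ) ∧ q - 1 ≤ i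
    · have hi : i₀ ≤ i := by omega
      have hm : (m : ℝ) ≤ cL * i := by
        have h1 : (q : ℝ) ≤ i + 1 := by exact_mod_cast (by omega : q ≤ i + 1)
        have h2 : (6 : ℝ) ≤ i := by exact_mod_cast (by omega : 6 ≤ i)
        have h3 := hc.1
        nlinarith
      obtain ⟨A', h1, h2, h3⟩ := hL i hi m hm (subP W 0 (rr m))
        (hW.subP le_rfl (TRSCL.rr_pos m))
      exact ⟨A', h1, fun _ _ => ⟨h2, h3⟩⟩
    · exact ⟨∅, MeasurableSet.empty, fun h1 h2 => absurd ⟨h1, h2⟩ hc⟩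
  choose A' hA'm hA' using hex
  obtain ⟨S, hS⟩ : ∃ S : Finset (ℕ × ℕ),
    S = Finset.range (M + 1) ×ˢ Finset.Icc (q - 1) (n + 1) := ⟨_, rfl⟩
  have hcard : S.card = (M + 1) * (n + 1 + 1 - (q - 1)) := by
    rw [hS, Finset.card_product, Finset.card_range, Nat.card_Icc]
  have hbound : ∀ p ∈ S, μ (A' p.1 p.2) ≤
      ENNReal.ofReal (Real.exp (-(cL * ((q : ℝ) - 1)))) := by
    intro p hp
    rw [hS, Finset.mem_product, Finset.mem_range, Finset.mem_Icc] at hp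
    have hm : (p.1 : ℝ) ≤ cL / 4 * √(n : ℝ) := by
      have : (p.1 : ℝ) ≤ M := by exact_mod_cast Nat.lt_succ_iff.mp hp.1
      linarith
    refine (hA' p.1 p.2 hm hp.2.1).1.trans ?_
    apply ENNReal.ofReal_le_ofReal
    apply Real.exp_le_exp.2
    have h1 : (q : ℝ) ≤ (p.2 : ℝ) + 1 := by exact_mod_cast (by omega : q ≤ p.2 + 1)
    nlinarith
  refine ⟨⋃ p ∈ S, A' p.1 p.2,
    MeasurableSet.biUnion S.countable_toSet (fun p _ => hA'm p.1 p.2), ?_, ?_⟩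
  · refine (measure_biUnion_finset_le _ _).trans ((Finset.sum_le_sum hbound).trans ?_)
    rw [Finset.sum_const, nsmul_eq_mul, ← ENNReal.ofReal_natCast,
      ← ENNReal.ofReal_mul (Nat.cast_nonneg _), hcard]
    exact ENNReal.ofReal_le_ofReal
      (TCBWLA.num_prob hcL (by omega) hqc hMq hn1 hqn)
  · intro ω hω T m α u z g hm hT hαu hu hz hsol hnorm hcf
    have hU : Continuous (fun t => W t ω) := hW.cont ω
    have h0 : W 0 ω = 0 := hW.zero 0 le_rfl ω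
    obtain ⟨hcf', hnorm'⟩ := cf_rev hU h0 hsol hαu hcf
    obtain ⟨L, hLd⟩ : ∃ L, L = Nat.log 4 u := ⟨_, rfl⟩
    have hu0 : u ≠ 0 := by
      have := Nat.pow_pos (n := Nat.sqrt n - 1 + m) (by norm_num : 0 < 4)
      omega
    have hL1 : Nat.sqrt n - 1 + m ≤ L := by
      rw [hLd]
      exact Nat.le_log_of_pow_le (by norm_num) hu
    have hL2 : 4 ^ L ≤ u := by
      rw [hLd]
      exact Nat.pow_log_le_self 4 hu0
    have hL3 : u < 4 ^ (L + 1) := by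
      rw [hLd]
      exact Nat.lt_pow_succ_log_self (by norm_num) u
    have huT : u ≤ T * 4 ^ m := by omega
    have hL4 : L ≤ n + 1 + m := by
      have h1 : u ≤ 4 ^ (n + 1 + m) := by
        calc u ≤ T * 4 ^ m := huT
          _ ≤ 4 ^ (n + 1) * 4 ^ m := Nat.mul_le_mul_right _ hT
          _ = 4 ^ (n + 1 + m) := (pow_add _ _ _).symm
      by_contra hcon
      have h2 : 4 ^ (n + 1 + m + 1) ≤ 4 ^ L := Nat.pow_le_pow_right (by norm_num) (by omega)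
      have h3 : 4 ^ (n + 1 + m + 1) = 4 * 4 ^ (n + 1 + m) := by ring
      have h4 := Nat.pow_pos (n := n + 1 + m) (by norm_num : 0 < 4)
      omega
    obtain ⟨i, hi⟩ : ∃ i, L = i + m := ⟨L - m, by omega⟩
    rw [hi] at hL1 hL2 hL3 hL4
    have hiq : q - 1 ≤ i := by
      rw [hq]
      omega
    have hmem : ((m, i) : ℕ × ℕ) ∈ S := by
      rw [hS, Finset.mem_product, Finset.mem_range, Finset.mem_Icc]
      refine ⟨?_, hiq, by simp only; omega⟩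
      simp only
      rw [Nat.lt_succ_iff, hMd]
      exact Nat.le_floor hm
    have hωA : ω ∉ A' m i := fun h => hω (Set.mem_biUnion hmem h)
    have hr := TRSCL.rr_pos m
    have h4 := TRSCL.four_rr m
    have hr2 : (rr m)⁻¹ = 2 ^ m := by
      unfold rr
      rw [← inv_pow]
      norm_num
    -- the scaled solution
    have hsc := hsol.shift le_rfl (Nat.cast_nonneg T) hr
    have htime : ((T : ℝ) - 0) / rr m ^ 2 = T * 4 ^ m := by
      rw [sub_zero, div_eq_iff (by positivity)]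
      linear_combination (-(T : ℝ)) * h4
    rw [htime] at hsc
    have hsu := hsc.restrict (s := (u : ℝ)) (by exact_mod_cast huT)
    refine (hA' m i hm hiq).2 ω hωA u ((rr m)⁻¹ • (g 0 - W 0 ω))
      (gs (fun t => W t ω) g 0 (rr m)) hL2 hL3.le ?_ hsu ?_ hcf'
    · rw [h0, sub_zero, hsol.1, norm_smul, Real.norm_eq_abs, hr2, abs_of_pos (by positivity)]
      have : (0 : ℝ) < 2 ^ m := by positivity
      nlinarith
    · refine (le_of_eq hnorm').trans (hnorm.trans ?_)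
      exact TCBWLA.num_norm (by omega) hn1 hiq

end

end Pool.Agent.SLE
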