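import Pool.Agent.Lib.MP_c17912_pr_TC.BWRV
import Pool.Agent.Lib.MP_c17912_pr_TR.SLO
import Pool.Agent.Lib.MP_c17912_pr_TR.GRO

/-!
# MP_c17912_pr, project TC, backward critical case: the start

`g` is a solution of the forward critical type on `[0,T]` which ends in the unit disc (the
reversal of a solution which starts there); only the cells `j < T - 4^j₁` are counted.
-/

set_option autoImplicit false

open MeasureTheory ProbabilityTheory Filter
open scoped NNReal ENNReal Topology Real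

namespace Pool.Agent.SLE

noncomputable section

namespace TCBWST

theorem rr_zero : rr 0 = 1 := by
  unfold rr
  rw [pow_zero]

/-- The contribution of one cell is nonnegative. -/
theorem cell_nonneg {U g : ℝ → ℂ} (j : ℕ) :
    0 ≤ lk U g ((j : ℝ) * 1 ^ 2) (((j : ℝ) + 1) * 1 ^ 2) := by
  unfold lk
  refine intervalIntegral.integral_nonneg (by nlinarith) fun u _ => by positivity

/-- The contribution of one cell. -/
theorem cell_low {U : ℝ → ℂ} (hU : Continuous U) {z : ℂ} {g : ℝ → ℂ} {T i : ℕ} {B : ℝ}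
    (hi : i + 1 ≤ T) (hg : Sol U z T g)
    (hb : ∀ u ∈ Set.Icc (i : ℝ) (i + 1), ‖g u - U u‖ ≤ B) :
    1 / B ^ 2 ≤ lk U g (i : ℝ) ((i : ℝ) + 1) := by
  have hiT : (i : ℝ) + 1 ≤ T := by exact_mod_cast hi
  have hsubset : Set.Icc (i : ℝ) (i + 1) ⊆ Set.Icc 0 (T : ℝ) := fun u hu =>
    ⟨(Nat.cast_nonneg i).trans hu.1, hu.2.trans hiT⟩
  have hc : ContinuousOn (fun s => g s - U s) (Set.Icc (i : ℝ) (i + 1)) :=
    (ContinuousOn.sub (fun s hs' => (hg.2.2 s hs').continuousWithinAt)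
      hU.continuousOn).mono hsubset
  have hc2 : ContinuousOn (fun u => 1 / ‖g u - U u‖ ^ 2) (Set.Icc (i : ℝ) (i + 1)) := by
    refine continuousOn_const.div (hc.norm.pow 2) fun u hu => ?_
    have : g u - U u ≠ 0 := sub_ne_zero.2 (hg.2.1 u (hsubset hu))
    positivity
  unfold lk
  have hle : (i : ℝ) ≤ i + 1 := by linarith
  have h1 : ∫ _ in (i : ℝ)..(i + 1), (1 / B ^ 2 : ℝ) = 1 / B ^ 2 := by
    rw [intervalIntegral.integral_const]
    simp
  rw [← h1]
  refine intervalIntegral.integral_mono_on hle (by simp) ?_ fun u hu => ?_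
  · rw [← Set.uIcc_of_le hle] at hc2
    exact hc2.intervalIntegrable
  · have : g u - U u ≠ 0 := sub_ne_zero.2 (hg.2.1 u (hsubset hu))
    have hpos : 0 < ‖g u - U u‖ := by positivity
    have := hb u hu
    gcongr

end TCBWST

/-- BWST1. The start for the reversal of a long solution.

Proof. As `start_long` (TR/SLO.lean). `P j = low (rvU U T) (rvg U g T) 1 j`, which is
`low U g 1 (T - 1 - j)` (`rv_low` with `m = 0`). `card_low` (with `T := T - 4^j₁`; the hypothesis
on runs follows from `hno` and `rv_rider`) gives: at most `4^j₁` of the cells `j < T - 4^j₁` are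
low. These correspond to the cells `i = T - 1 - j` of `g` in `[4^j₁, T)`. For `j₁ ≤ j < n` at
least `3 * 4^j - 4^j₁ ≥ 4^j` of the cells `4^j ≤ i < 4^(j+1)` are not low, and each of them
contributes at least `1 / (289 y^2 4^j)` (`cr_upper` on `[0,4^(j+1)]`, `rv_lk`). -/
theorem start_rev {U : ℝ → ℂ} (hU : Continuous U) {z : ℂ} {g : ℝ → ℂ} {n T D j₁ : ℕ} {y : ℝ}
    (hT : 4 ^ n ≤ T) (hj₁n : j₁ ≤ n) (hg : Sol U z T g) (hz : ‖z‖ ≤ 1) (hy : 1 ≤ y)
    (hw : ∀ j ≤ n, ∀ u ∈ Set.Icc (0 : ℝ) (4 ^ j), ‖U u‖ ≤ y * 2 ^ j)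
    (hno : ∀ s, s + D ≤ T → ¬ rider U g 1 s D)
    (hj₁ : (NN (rvU U T) (rvg U g T) 1 (T - 4 ^ j₁) + 1) * D ≤ 4 ^ j₁) :
    ((n : ℝ) - j₁) / (289 * y ^ 2) ≤ XX (rvU U T) (rvg U g T) 1 (T - 4 ^ j₁) := by
  classical
  have hy0 : 0 < y := by linarith
  have h4n : (4 : ℕ) ^ j₁ ≤ 4 ^ n := Nat.pow_le_pow_right (by norm_num) hj₁n
  have h4j : 1 ≤ (4 : ℕ) ^ j₁ := Nat.one_le_pow _ _ (by norm_num)
  have hT1 : 1 ≤ T := h4j.trans (h4n.trans hT)
  -- the low cells, in terms of the time of `g`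
  set f : ℕ → ℝ := fun j =>
    if low (rvU U T) (rvg U g T) 1 j then 0 else
      lk (rvU U T) (rvg U g T) ((j : ℝ) * 1 ^ 2) (((j : ℝ) + 1) * 1 ^ 2) with hf
  have hf0 : ∀ j, 0 ≤ f j := by
    intro j
    rw [hf]
    dsimp only
    split_ifs
    · exact le_rfl
    · exact TCBWST.cell_nonneg j
  have hXX : XX (rvU U T) (rvg U g T) 1 (T - 4 ^ j₁) = ∑ j ∈ Finset.range (T - 4 ^ j₁), f j := by
    unfold XX
    refine Finset.sum_congr rfl fun j _ => ?_
    rw [hf]
  have hrefl : ∑ i ∈ Finset.Ico (4 ^ j₁) T, f (T - 1 - i) =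
      ∑ j ∈ Finset.range (T - 4 ^ j₁), f j := by
    rw [Finset.sum_Ico_reflect f (4 ^ j₁) (n := T - 1) (m := T) (by omega)]
    rw [show T - 1 + 1 - T = 0 by omega, show T - 1 + 1 - 4 ^ j₁ = T - 4 ^ j₁ by omega,
      Finset.range_eq_Ico]
  rw [hXX, ← hrefl]
  -- number of the low cells
  have hlow0 : ((Finset.range (T - 4 ^ j₁)).filter fun j =>
      low (rvU U T) (rvg U g T) 1 j).card ≤ 4 ^ j₁ := by
    have h1 := card_low (fun j => low (rvU U T) (rvg U g T) 1 j) (T := T - 4 ^ j₁) (D := D)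
      (fun s hs => by
        have h2 := hno (T - s - D) (by omega)
        have h3 := rv_rider (U := U) (g := g) (T := T) (m := 0) (s := s) (L := D) (by omega)
        rw [TCBWST.rr_zero, pow_zero, mul_one] at h3
        rw [← h3] at h2
        unfold rider at h2
        push Not at h2
        exact h2)
    refine le_trans ?_ (le_trans h1 (le_trans ?_ hj₁))
    · refine le_of_eq ?_
      congr
    · refine le_of_eq ?_
      unfold NN tr
      congr
  have hlow : ((Finset.Ico (4 ^ j₁) T).filter fun i =>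
      low (rvU U T) (rvg U g T) 1 (T - 1 - i)).card ≤ 4 ^ j₁ := by
    refine le_trans (Finset.card_le_card_of_injOn (fun i => T - 1 - i) ?_ ?_) hlow0
    · intro i hi
      have hi' := Finset.mem_filter.1 (Finset.mem_coe.1 hi)
      have hi2 := Finset.mem_Ico.1 hi'.1
      refine Finset.mem_coe.2 (Finset.mem_filter.2 ⟨Finset.mem_range.2 ?_, hi'.2⟩)
      show T - 1 - i < T - 4 ^ j₁
      omega
    · intro i hi k hk hik
      have hi2 := Finset.mem_Ico.1 (Finset.mem_filter.1 (Finset.mem_coe.1 hi)).1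
      have hk2 := Finset.mem_Ico.1 (Finset.mem_filter.1 (Finset.mem_coe.1 hk)).1
      have hik' : T - 1 - i = T - 1 - k := hik
      omega
  -- the blocks
  have hblock : ∀ j ∈ Finset.Ico j₁ n,
      1 / (289 * y ^ 2) ≤ ∑ i ∈ Finset.Ico (4 ^ j) (4 ^ (j + 1)), f (T - 1 - i) := by
    intro j hj
    rw [Finset.mem_Ico] at hj
    have h4 : (4 : ℕ) ^ (j + 1) ≤ T := (Nat.pow_le_pow_right (by norm_num) hj.2).trans hT
    have h4' : (4 : ℕ) ^ j₁ ≤ 4 ^ j := Nat.pow_le_pow_right (by norm_num) hj.1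
    have hup : ∀ u ∈ Set.Icc (0 : ℝ) (4 ^ (j + 1)), ‖g u - U u‖ ≤ 17 * y * 2 ^ j := by
      intro u hu
      have h4' : (4 : ℝ) ^ (j + 1) ≤ (T : ℝ) := by exact_mod_cast h4
      have h1 := cr_upper hU (t := (4 : ℝ) ^ (j + 1)) (by positivity)
        (Sol.restrict hg h4') (hw (j + 1) hj.2) u hu
      have hs : √((4 : ℝ) ^ (j + 1)) = 2 ^ (j + 1) := by
        rw [show (4 : ℝ) ^ (j + 1) = (2 ^ (j + 1)) ^ 2 by
          rw [← pow_mul, mul_comm, pow_mul]; norm_num]
        exact Real.sqrt_sq (by positivity)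
      rw [hs] at h1
      have h2 : (1 : ℝ) ≤ 2 ^ j := one_le_pow₀ (by norm_num)
      have h3 : (2 : ℝ) ^ (j + 1) = 2 * 2 ^ j := by rw [pow_succ]; ring
      rw [h3] at h1
      have h5 : (1 : ℝ) ≤ y * 2 ^ j := by nlinarith
      have h6 : (2 : ℝ) ^ j ≤ y * 2 ^ j := by nlinarith
      nlinarith
    set S : Finset ℕ := (Finset.Ico (4 ^ j) (4 ^ (j + 1))).filter fun i =>
      ¬ low (rvU U T) (rvg U g T) 1 (T - 1 - i) with hS
    have hcard : 4 ^ j ≤ S.card := by
      have h1 : ((Finset.Ico (4 ^ j) (4 ^ (j + 1))).filter fun i =>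
          low (rvU U T) (rvg U g T) 1 (T - 1 - i)).card ≤ 4 ^ j := by
        refine le_trans (Finset.card_le_card ?_) (hlow.trans h4')
        intro i hi
        rw [Finset.mem_filter, Finset.mem_Ico] at hi
        rw [Finset.mem_filter, Finset.mem_Ico]
        exact ⟨by omega, hi.2⟩
      have h2 := Finset.card_filter_add_card_filter_not (s := Finset.Ico (4 ^ j) (4 ^ (j + 1)))
        (fun i => low (rvU U T) (rvg U g T) 1 (T - 1 - i))
      rw [Nat.card_Ico, pow_succ] at h2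
      rw [pow_succ] at h1
      rw [hS, pow_succ]
      omega
    have hsum : ∑ i ∈ S, (1 / (17 * y * 2 ^ j) ^ 2 : ℝ) ≤
        ∑ i ∈ Finset.Ico (4 ^ j) (4 ^ (j + 1)), f (T - 1 - i) := by
      refine le_trans (Finset.sum_le_sum (g := fun i => f (T - 1 - i)) fun i hi => ?_)
        (Finset.sum_le_sum_of_subset_of_nonneg (Finset.filter_subset _ _) fun i _ _ => hf0 _)
      rw [hS, Finset.mem_filter, Finset.mem_Ico] at hi
      rw [hf]
      dsimp only
      rw [if_neg hi.2]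
      have hiT : i + 1 ≤ T := by omega
      have hc : (((T - 1 - i : ℕ) : ℝ)) = (T : ℝ) - 1 - i := by
        have h7 : T - 1 - i + 1 + i = T := by omega
        have h8 : (((T - 1 - i + 1 + i : ℕ) : ℝ)) = (T : ℝ) := by rw [h7]
        push_cast at h8
        linarith
      have hiT' : (i : ℝ) + 1 ≤ T := by exact_mod_cast hiT
      have hi0 : (0 : ℝ) ≤ i := Nat.cast_nonneg i
      rw [hc, one_pow, mul_one, mul_one, rv_lk (by linarith) (by linarith) (by linarith)]
      rw [show (T : ℝ) - ((T : ℝ) - 1 - i + 1) = i by ring,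
        show (T : ℝ) - ((T : ℝ) - 1 - i) = i + 1 by ring]
      refine TCBWST.cell_low hU hiT hg fun u hu => hup u ?_
      have h5 : (i : ℝ) + 1 ≤ 4 ^ (j + 1) := by exact_mod_cast (show i + 1 ≤ 4 ^ (j + 1) by omega)
      exact ⟨(Nat.cast_nonneg i).trans hu.1, hu.2.trans h5⟩
    refine le_trans ?_ hsum
    rw [Finset.sum_const, nsmul_eq_mul]
    have h6 : (4 : ℝ) ^ j ≤ S.card := by exact_mod_cast hcard
    have h7 : (17 * y * 2 ^ j : ℝ) ^ 2 = 289 * y ^ 2 * 4 ^ j := by
      rw [mul_pow, mul_pow, ← pow_mul, mul_comm j 2, pow_mul]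
      norm_num
    rw [h7]
    have h8 : (1 : ℝ) / (289 * y ^ 2) = 4 ^ j * (1 / (289 * y ^ 2 * 4 ^ j)) := by
      field_simp
    rw [h8]
    exact mul_le_mul_of_nonneg_right h6 (by positivity)
  -- telescoping
  have htel : ∀ k, j₁ ≤ k → k ≤ n →
      ((k : ℝ) - j₁) / (289 * y ^ 2) ≤ ∑ i ∈ Finset.Ico (4 ^ j₁) (4 ^ k), f (T - 1 - i) := by
    intro k hk
    induction k, hk using Nat.le_induction with
    | base =>
      intro _
      rw [sub_self, zero_div]
      exact Finset.sum_nonneg fun j _ => hf0 _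
    | succ k hk ih =>
      intro hkn
      have h1 := ih (by omega)
      have h2 := hblock k (Finset.mem_Ico.2 ⟨hk, by omega⟩)
      have h3 : ∑ i ∈ Finset.Ico (4 ^ j₁) (4 ^ (k + 1)), f (T - 1 - i) =
          ∑ i ∈ Finset.Ico (4 ^ j₁) (4 ^ k), f (T - 1 - i) +
            ∑ i ∈ Finset.Ico (4 ^ k) (4 ^ (k + 1)), f (T - 1 - i) := by
        rw [Finset.sum_Ico_consecutive _
          (Nat.pow_le_pow_right (by norm_num) hk)
          (Nat.pow_le_pow_right (by norm_num) (Nat.le_succ k))]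
      rw [h3]
      push_cast
      have h4 : ((k : ℝ) + 1 - j₁) / (289 * y ^ 2) =
          ((k : ℝ) - j₁) / (289 * y ^ 2) + 1 / (289 * y ^ 2) := by ring
      rw [h4]
      exact add_le_add h1 h2
  refine (htel n hj₁n le_rfl).trans ?_
  exact Finset.sum_le_sum_of_subset_of_nonneg (Finset.Ico_subset_Ico_right hT)
    fun i _ _ => hf0 _

/-- BWST2. One large jump: if the path oscillates by at most `1/4` on all the cells of the mesh
`(rr l)^2` then every transition counts.

Proof. `grow_step` with `r = 1`, `good j = (j < M)` (`Sol.restrict` to `[0,M]`). -/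
theorem jump {U : ℝ → ℂ} (hU : Continuous U) {z : ℂ} {l M : ℕ} (hl : 3 ≤ l) {g : ℝ → ℂ} {T : ℝ}
    (hg : Sol U z T g) (hMT : (M : ℝ) ≤ T) (hosc : Osc U (rr l) (1 / 4) (M * 4 ^ l)) :
    XX U g 1 M + 1 / (4 * 4 ^ l) * NN U g 1 M ≤ XX U g (rr l) (M * 4 ^ l) := by
  classical
  have hg' : Sol U z ((M : ℝ) * 1 ^ 2) g := by
    rw [one_pow, mul_one]
    exact Sol.restrict hg hMT
  have h := grow_step hU (r := 1) one_pos hl hg' (fun j => j < M) (by
    intro j hj i hi u hu v hv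
    have h1 : j * 4 ^ l + i < M * 4 ^ l := by
      have h2 : (j + 1) * 4 ^ l ≤ M * 4 ^ l := Nat.mul_le_mul_right _ hj
      have h3 : (j + 1) * 4 ^ l = j * 4 ^ l + 4 ^ l := by ring
      omega
    rw [one_mul] at hu hv
    exact hosc _ h1 u hu v hv)
  rw [one_mul] at h
  have hN : ((Finset.range (M - 1)).filter fun j => tr U g 1 j ∧ j < M).card = NN U g 1 M := by
    unfold NN
    refine congrArg Finset.card ?_
    ext j
    simp only [Finset.mem_filter, Finset.mem_range]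
    constructor
    · rintro ⟨h1, h2, _⟩
      exact ⟨h1, h2⟩
    · rintro ⟨h1, h2⟩
      exact ⟨h1, h2, by omega⟩
  rw [← hN]
  refine le_trans (le_of_eq ?_) h
  congr

end

end Pool.Agent.SLE
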