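import Pool.Agent.Lib.MP_c17912_pr_TC.BWSC
import Pool.Agent.Lib.MP_c17912_pr_TC.BWLA
import Pool.Agent.Lib.MP_c17912_pr_TC.BWGR
import Pool.Agent.Lib.MP_c17912_pr_TC.BWST
import Pool.Agent.Lib.MP_c17912_pr_TR.COR
import Pool.Agent.Lib.MP_c17912_pr_TR.GOL

/-!
# MP_c17912_pr, project TC, backward critical case: the goal estimate
-/

set_option autoImplicit false

open MeasureTheory ProbabilityTheory Filter
open scoped NNReal ENNReal Topology Real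

namespace Pool.Agent.SLE

noncomputable section

variable {Ω : Type*} [MeasurableSpace Ω] {μ : Measure Ω}

namespace TCBWGO

theorem big {t : ℝ} (ht : 4 ≤ t) : 5 * t ^ 850 ≤ Real.exp (t ^ 40 - 1 - 2 * t ^ 20) := by
  have ht0 : 0 < t := by linarith
  have ht1 : 1 ≤ t := by linarith
  have h39 : t ^ 39 ≤ t ^ 40 - 1 - 2 * t ^ 20 := by
    have e1 : t ^ 40 = t ^ 39 * t := by ring
    have e2 : t ^ 20 ≤ t ^ 39 := pow_le_pow_right₀ ht1 (by norm_num)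
    have e3 : 1 ≤ t ^ 39 := one_le_pow₀ ht1
    rw [e1]
    nlinarith
  have h1 := Real.pow_div_factorial_le_exp (t ^ 39) (by positivity) 25
  have h2 : 5 * t ^ 850 ≤ (t ^ 39) ^ 25 / ((Nat.factorial 25 : ℕ) : ℝ) := by
    have hf : ((Nat.factorial 25 : ℕ) : ℝ) = 15511210043330985984000000 := by
      norm_num [Nat.factorial]
    rw [hf, le_div_iff₀ (by norm_num)]
    have e1 : (t ^ 39) ^ 25 = t ^ 850 * t ^ 125 := by ring
    have e2 : (4 : ℝ) ^ 125 ≤ t ^ 125 := pow_le_pow_left₀ (by norm_num) ht 125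
    have e3 : (5 : ℝ) * 15511210043330985984000000 ≤ 4 ^ 125 := by norm_num
    have e4 : 0 < t ^ 850 := by positivity
    rw [e1]
    calc 5 * t ^ 850 * 15511210043330985984000000
        = t ^ 850 * (5 * 15511210043330985984000000) := by ring
      _ ≤ t ^ 850 * t ^ 125 := mul_le_mul_of_nonneg_left (e3.trans e2) e4.le
  exact h2.trans (h1.trans (Real.exp_le_exp.2 h39))

theorem prob {S t κ σ : ℝ} {n m : ℕ} (hσ : 1 ≤ σ) (hσS : σ ≤ S) (hκ : 0 < κ) (hκS : 1 / κ ≤ S)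
    (ht : 4 ≤ t) (h4 : 16 * S ≤ t ^ 4)
    (hn : (n : ℝ) = t ^ 80) (h64 : 64 * S ≤ n) (h8 : 8 ≤ n) :
    Real.exp (-(κ * t ^ 40)) + (2 * Real.exp (-(t ^ 40)) + (Real.exp (-(n : ℝ)) +
      (((4 ^ (n + 1) + 1 : ℕ) : ℝ) * (4 * Real.exp (-((n : ℝ) ^ 2 / (16 * σ)))) +
      (((n : ℝ) + 1) * (4 * Real.exp (-((t ^ 10) ^ 2 / (4 * σ)))) +
      ((4 ^ (n + 1 + m) : ℕ) : ℝ) *
        (4 * Real.exp (-(((n : ℝ) + m) ^ 2 / (16 * σ)))))))) ≤ Real.exp (-t ^ 16) := by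
  have ht0 : 0 < t := by linarith
  have hσp : 0 < σ := by linarith
  have h4s : 16 * σ ≤ t ^ 4 := by linarith
  have h64s : 64 * σ ≤ n := by linarith
  have h4' : (256 : ℝ) ≤ t ^ 4 := by
    calc (256 : ℝ) = 4 ^ 4 := by norm_num
      _ ≤ t ^ 4 := pow_le_pow_left₀ (by norm_num) ht 4
  have h16 : (1 : ℝ) ≤ t ^ 16 := one_le_pow₀ (by linarith)
  have e2 : (2 : ℝ) ≤ Real.exp 1 := by
    have := Real.add_one_le_exp (1 : ℝ)
    linarith
  have e4 : (4 : ℝ) ≤ Real.exp 2 := by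
    have h2 : Real.exp 2 = Real.exp 1 * Real.exp 1 := by rw [← Real.exp_add]; norm_num
    rw [h2]; nlinarith
  have e8 : (8 : ℝ) ≤ Real.exp 3 := by
    have h2 : Real.exp 3 = Real.exp 2 * Real.exp 1 := by rw [← Real.exp_add]; norm_num
    rw [h2]; nlinarith
  have key : ∀ x : ℝ, t ^ 16 + 3 ≤ x → Real.exp (-x) ≤ 1 / 8 * Real.exp (-t ^ 16) := by
    intro x hx
    have h1 : Real.exp (-x) ≤ Real.exp (-3) * Real.exp (-t ^ 16) := by
      rw [← Real.exp_add]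
      exact Real.exp_le_exp.mpr (by linarith)
    have h2 : Real.exp (-3) ≤ 1 / 8 := by
      rw [Real.exp_neg, ← one_div]
      exact one_div_le_one_div_of_le (by norm_num) e8
    exact h1.trans (mul_le_mul_of_nonneg_right h2 (Real.exp_pos _).le)
  have h36 : (t ^ 16 : ℝ) ≤ t ^ 36 := pow_le_pow_right₀ (by linarith) (by norm_num)
  have h20 : t ^ 16 + 3 ≤ t ^ 40 := by
    have : t ^ 40 = t ^ 36 * t ^ 4 := by ring
    nlinarith
  have hn40 : t ^ 40 ≤ n := by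
    rw [hn]; exact pow_le_pow_right₀ (by linarith) (by norm_num)
  have hκ4 : 16 ≤ κ * t ^ 4 := by
    have h1 : 1 ≤ κ * S := by
      have := mul_le_mul_of_nonneg_left hκS hκ.le
      rwa [mul_one_div, div_self hκ.ne'] at this
    nlinarith
  have hκ40 : t ^ 16 + 3 ≤ κ * t ^ 40 := by
    have : κ * t ^ 40 = κ * t ^ 4 * t ^ 36 := by ring
    nlinarith
  have t1 := key _ hκ40
  have t2 := key _ h20
  have t3 := key n (h20.trans hn40)
  have hnp : (8 : ℝ) ≤ n := by exact_mod_cast h8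
  have hmain : t ^ 16 + 3 ≤ (n : ℝ) - 6 := by
    have h60 : t ^ 80 = t ^ 16 * t ^ 64 := by ring
    have h64' : (256 : ℝ) ≤ t ^ 64 :=
      h4'.trans (pow_le_pow_right₀ (by linarith) (by norm_num))
    rw [hn, h60]; nlinarith
  have hexp4 : ∀ k : ℕ, (4 : ℝ) ^ k ≤ Real.exp (2 * (k : ℝ)) := by
    intro k
    calc (4 : ℝ) ^ k ≤ (Real.exp 2) ^ k := pow_le_pow_left₀ (by norm_num) e4 _
      _ = Real.exp (2 * (k : ℝ)) := by
          rw [← Real.exp_nat_mul]; congr 1; ring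
  have t4 : ((4 ^ (n + 1) + 1 : ℕ) : ℝ) * (4 * Real.exp (-((n : ℝ) ^ 2 / (16 * σ)))) ≤
      1 / 8 * Real.exp (-t ^ 16) := by
    have a1 : ((4 ^ (n + 1) + 1 : ℕ) : ℝ) * 4 ≤ Real.exp (2 * ((n + 3 : ℕ) : ℝ)) := by
      refine le_trans ?_ (hexp4 (n + 3))
      push_cast
      have h1 : (1 : ℝ) ≤ 4 ^ (n + 1) := one_le_pow₀ (by norm_num)
      have h2 : (4 : ℝ) ^ (n + 3) = 16 * 4 ^ (n + 1) := by ring
      rw [h2]; linarith
    have a2 : 4 * (n : ℝ) ≤ (n : ℝ) ^ 2 / (16 * σ) := by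
      rw [le_div_iff₀ (by positivity)]
      nlinarith
    have a3 : Real.exp (-((n : ℝ) ^ 2 / (16 * σ))) ≤ Real.exp (-(4 * (n : ℝ))) :=
      Real.exp_le_exp.mpr (by linarith)
    calc ((4 ^ (n + 1) + 1 : ℕ) : ℝ) * (4 * Real.exp (-((n : ℝ) ^ 2 / (16 * σ))))
        = (((4 ^ (n + 1) + 1 : ℕ) : ℝ) * 4) * Real.exp (-((n : ℝ) ^ 2 / (16 * σ))) := by ring
      _ ≤ Real.exp (2 * ((n + 3 : ℕ) : ℝ)) * Real.exp (-(4 * (n : ℝ))) := by gcongr
      _ = Real.exp (-(2 * (n : ℝ) - 6)) := by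
          rw [← Real.exp_add]; congr 1; push_cast; ring
      _ ≤ 1 / 8 * Real.exp (-t ^ 16) := key _ (by linarith)
  have t5 : ((n : ℝ) + 1) * (4 * Real.exp (-((t ^ 10) ^ 2 / (4 * σ)))) ≤
      1 / 8 * Real.exp (-t ^ 16) := by
    have a1 : 4 * t ^ 16 ≤ (t ^ 10) ^ 2 / (4 * σ) := by
      rw [le_div_iff₀ (by positivity)]
      have : (t ^ 10) ^ 2 = t ^ 16 * t ^ 4 := by ring
      rw [this]
      have h16' : (0 : ℝ) ≤ t ^ 16 := by positivity
      nlinarith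
    have a2 : 4 * ((n : ℝ) + 1) * Real.exp (-(3 * t ^ 16)) ≤ 1 / 8 := by
      have b1 := Real.pow_div_factorial_le_exp (3 * t ^ 16) (by positivity) 6
      have b2 : 32 * ((n : ℝ) + 1) ≤ Real.exp (3 * t ^ 16) := by
        refine le_trans ?_ b1
        rw [show ((Nat.factorial 6 : ℕ) : ℝ) = 720 by norm_num [Nat.factorial]]
        have c1 : (3 * t ^ 16) ^ 6 / 720 = 729 / 720 * (t ^ 16 * t ^ 80) := by ring
        rw [c1, hn]
        have c2 : (256 : ℝ) ≤ t ^ 16 := h4'.trans (pow_le_pow_right₀ (by linarith) (by norm_num))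
        have c3 : (1 : ℝ) ≤ t ^ 80 := one_le_pow₀ (by linarith)
        nlinarith
      rw [Real.exp_neg, ← div_eq_mul_inv, div_le_iff₀ (Real.exp_pos _)]
      linarith
    have a3 : Real.exp (-((t ^ 10) ^ 2 / (4 * σ))) ≤
        Real.exp (-(3 * t ^ 16)) * Real.exp (-t ^ 16) := by
      rw [← Real.exp_add]
      exact Real.exp_le_exp.mpr (by linarith)
    calc ((n : ℝ) + 1) * (4 * Real.exp (-((t ^ 10) ^ 2 / (4 * σ))))
        ≤ ((n : ℝ) + 1) * (4 * (Real.exp (-(3 * t ^ 16)) * Real.exp (-t ^ 16))) := by gcongr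
      _ = 4 * ((n : ℝ) + 1) * Real.exp (-(3 * t ^ 16)) * Real.exp (-t ^ 16) := by ring
      _ ≤ 1 / 8 * Real.exp (-t ^ 16) :=
          mul_le_mul_of_nonneg_right a2 (Real.exp_pos _).le
  have t6 : ((4 ^ (n + 1 + m) : ℕ) : ℝ) *
        (4 * Real.exp (-(((n : ℝ) + m) ^ 2 / (16 * σ)))) ≤ 1 / 8 * Real.exp (-t ^ 16) := by
    have hm : (0 : ℝ) ≤ m := Nat.cast_nonneg m
    have a1 : ((4 ^ (n + 1 + m) : ℕ) : ℝ) * 4 ≤ Real.exp (2 * ((n + m + 2 : ℕ) : ℝ)) := by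
      refine le_trans (le_of_eq ?_) (hexp4 (n + m + 2))
      push_cast
      ring
    have a2 : 4 * ((n : ℝ) + m) ≤ ((n : ℝ) + m) ^ 2 / (16 * σ) := by
      rw [le_div_iff₀ (by positivity)]
      have : 0 < (n : ℝ) + m := by linarith
      nlinarith
    have a3 : Real.exp (-(((n : ℝ) + m) ^ 2 / (16 * σ))) ≤ Real.exp (-(4 * ((n : ℝ) + m))) :=
      Real.exp_le_exp.mpr (by linarith)
    calc ((4 ^ (n + 1 + m) : ℕ) : ℝ) * (4 * Real.exp (-(((n : ℝ) + m) ^ 2 / (16 * σ))))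
        = (((4 ^ (n + 1 + m) : ℕ) : ℝ) * 4) *
          Real.exp (-(((n : ℝ) + m) ^ 2 / (16 * σ))) := by ring
      _ ≤ Real.exp (2 * ((n + m + 2 : ℕ) : ℝ)) * Real.exp (-(4 * ((n : ℝ) + m))) := by gcongr
      _ = Real.exp (-(2 * ((n : ℝ) + m) - 4)) := by
          rw [← Real.exp_add]; congr 1; push_cast; ring
      _ ≤ 1 / 8 * Real.exp (-t ^ 16) := key _ (by linarith)
  linarith [Real.exp_pos (-t ^ 16)]

/-- monotonicity of the number of transitions -/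
theorem NN_mono (U g : ℝ → ℂ) (r : ℝ) {M M' : ℕ} (h : M ≤ M') : NN U g r M ≤ NN U g r M' := by
  classical
  unfold NN
  refine Finset.card_le_card (Finset.filter_subset_filter _ ?_)
  exact Finset.range_subset_range.2 (Nat.sub_le_sub_right h 1)

/-- the oscillation in the original scale -/
theorem osc_scale {U : ℝ → ℂ} {m N : ℕ} {x : ℝ} (h : Osc (psub U 0 (rr m)) 1 x N) :
    Osc U (rr m) (x * rr m) N := by
  have hr : 0 < rr m := TRCOR.rr_pos m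
  have hr2 : 0 < rr m ^ 2 := by positivity
  intro j hj u hu v hv
  have hmem : ∀ w ∈ Set.Icc ((j : ℝ) * rr m ^ 2) (((j : ℝ) + 1) * rr m ^ 2),
      w / rr m ^ 2 ∈ Set.Icc ((j : ℝ) * 1 ^ 2) (((j : ℝ) + 1) * 1 ^ 2) := by
    intro w hw
    rw [one_pow, mul_one, mul_one]
    exact ⟨(le_div_iff₀ hr2).2 hw.1, (div_le_iff₀ hr2).2 hw.2⟩
  have hval : ∀ w ∈ Set.Icc ((j : ℝ) * rr m ^ 2) (((j : ℝ) + 1) * rr m ^ 2),
      psub U 0 (rr m) (w / rr m ^ 2) = (rr m)⁻¹ • (U w - U 0) := by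
    intro w hw
    have hw0 : 0 ≤ w := le_trans (by positivity) hw.1
    unfold psub
    rw [max_eq_left (by positivity), zero_add, mul_div_cancel₀ _ hr2.ne']
  have h1 := h j hj _ (hmem u hu) _ (hmem v hv)
  rw [hval u hu, hval v hv, ← smul_sub, sub_sub_sub_cancel_right, norm_smul, Real.norm_eq_abs,
    abs_of_pos (inv_pos.2 hr), inv_mul_le_iff₀ hr] at h1
  linarith

theorem osc_mono {U : ℝ → ℂ} {r x y : ℝ} {N N' : ℕ} (h : Osc U r x N) (hxy : x ≤ y)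
    (hN : N' ≤ N) : Osc U r y N' :=
  fun j hj u hu v hv => (h j (lt_of_lt_of_le hj hN) u hu v hv).trans hxy

/-- the union of the events of all the levels -/
theorem union_lvl {Ω : Type*} [MeasurableSpace Ω] {μ : Measure Ω} {A : ℕ → Set Ω} {n : ℕ}
    {x : ℝ} (h : ∀ k, μ (A k) ≤ ENNReal.ofReal (Real.exp (-(x + lev n k)))) :
    μ (⋃ k, A k) ≤ ENNReal.ofReal (2 * Real.exp (-x)) := by
  have hs : HasSum (fun k : ℕ => (2 * Real.exp (-x)) * (1 / 2) ^ (k + 1))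
      ((2 * Real.exp (-x)) * 1) := by
    apply HasSum.mul_left
    have h := hasSum_geometric_two' 1
    have h2 : (fun M : ℕ => ((1 : ℝ) / 2) ^ (M + 1)) = fun M : ℕ => (1 : ℝ) / 2 / 2 ^ M := by
      funext M
      rw [pow_succ, one_div, inv_pow]
      field_simp
    rw [h2]
    exact h
  rw [mul_one] at hs
  have e1 : Real.exp (-1) ≤ 1 / 2 := by
    rw [Real.exp_neg, ← one_div]
    refine one_div_le_one_div_of_le (by norm_num) ?_
    have := Real.add_one_le_exp (1 : ℝ)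
    linarith
  calc μ (⋃ k, A k) ≤ ∑' k, μ (A k) := measure_iUnion_le _
    _ ≤ ∑' k : ℕ, ENNReal.ofReal ((2 * Real.exp (-x)) * (1 / 2) ^ (k + 1)) := by
        refine ENNReal.tsum_le_tsum fun k => (h k).trans (ENNReal.ofReal_le_ofReal ?_)
        have h1 : (k : ℝ) ≤ lev n k := by
          have := le_lev n k
          have h2 : k ≤ lev n k := by omega
          exact_mod_cast h2
        have h3 : Real.exp (-(x + lev n k)) ≤ Real.exp (-x) * Real.exp (-1) ^ k := by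
          rw [← Real.exp_nat_mul, ← Real.exp_add]
          exact Real.exp_le_exp.2 (by linarith)
        have h4 : Real.exp (-1) ^ k ≤ (1 / 2 : ℝ) ^ k :=
          pow_le_pow_left₀ (Real.exp_pos _).le e1 k
        calc Real.exp (-(x + lev n k)) ≤ Real.exp (-x) * Real.exp (-1) ^ k := h3
          _ ≤ Real.exp (-x) * (1 / 2 : ℝ) ^ k :=
              mul_le_mul_of_nonneg_left h4 (Real.exp_pos _).le
          _ = (2 * Real.exp (-x)) * (1 / 2) ^ (k + 1) := by ring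
    _ = ENNReal.ofReal (2 * Real.exp (-x)) := by
        rw [← ENNReal.ofReal_tsum_of_nonneg (fun M => by positivity) hs.summable, hs.tsum_eq]

/-- the levels at which the oscillation is small -/
theorem start_num {n m : ℕ} (hn : 8 ≤ n) (h : 4 * (n + m) ^ 10 ≤ 4 ^ m) :
    3 ≤ m ∧ ((n : ℝ) + m) * rr m ≤ 1 / 4 := by
  have h1 : 4 * (n + m) ≤ 2 ^ m := by
    have h2 : (2 * (n + m) ^ 5) ^ 2 ≤ (2 ^ m) ^ 2 := by
      calc (2 * (n + m) ^ 5) ^ 2 = 4 * (n + m) ^ 10 := by ring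
        _ ≤ 4 ^ m := h
        _ = (2 ^ m) ^ 2 := by
          rw [← pow_mul, mul_comm m 2, pow_mul]
          norm_num
    have h3 : 2 * (n + m) ^ 5 ≤ 2 ^ m := (Nat.pow_le_pow_iff_left (by norm_num)).1 h2
    have h4 : 2 ≤ (n + m) ^ 4 := by
      calc 2 ≤ 8 ^ 4 := by norm_num
        _ ≤ (n + m) ^ 4 := Nat.pow_le_pow_left (by omega) 4
    calc 4 * (n + m) = 2 * (2 * (n + m)) := by ring
      _ ≤ 2 * ((n + m) ^ 4 * (n + m)) :=
          Nat.mul_le_mul_left 2 (Nat.mul_le_mul_right _ h4)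
      _ = 2 * (n + m) ^ 5 := by ring
      _ ≤ 2 ^ m := h3
  constructor
  · by_contra hlt
    have h5 : 2 ^ m ≤ 2 ^ 2 := Nat.pow_le_pow_right (by norm_num) (by omega)
    omega
  · have h2 : (4 : ℝ) * ((n : ℝ) + m) ≤ 2 ^ m := by exact_mod_cast h1
    unfold rr
    rw [one_div_pow, mul_one_div, div_le_iff₀ (by positivity)]
    linarith

/-- the start from a large number of transitions -/
theorem start_big {n m N : ℕ} {t : ℝ} (ht : 4 ≤ t) (hn : (n : ℝ) = t ^ 80)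
    (hm : (m : ℝ) ≤ t ^ 20) (h : 4 ^ Nat.sqrt n < (N + 1) * n ^ 10) :
    t ^ 50 ≤ 1 / (4 * 4 ^ m) * (N : ℝ) := by
  have ht0 : 0 < t := by linarith
  have e2 : (2 : ℝ) ≤ Real.exp 1 := by
    have := Real.add_one_le_exp (1 : ℝ)
    linarith
  have e4 : (4 : ℝ) ≤ Real.exp 2 := by
    have h2 : Real.exp 2 = Real.exp 1 * Real.exp 1 := by rw [← Real.exp_add]; norm_num
    rw [h2]; nlinarith
  have e3 : Real.exp 1 ≤ 4 := by
    have := Real.exp_one_lt_d9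
    linarith
  have hsq : t ^ 40 - 1 ≤ (Nat.sqrt n : ℝ) := by
    have h1 : √(n : ℝ) < (Nat.sqrt n : ℝ) + 1 := Real.real_sqrt_lt_nat_sqrt_succ
    have h2 : √(n : ℝ) = t ^ 40 := by
      rw [hn, show t ^ 80 = (t ^ 40) ^ 2 by ring]
      exact Real.sqrt_sq (by positivity)
    linarith
  have h1 : Real.exp (t ^ 40 - 1) ≤ (4 : ℝ) ^ Nat.sqrt n := by
    calc Real.exp (t ^ 40 - 1) ≤ Real.exp ((Nat.sqrt n : ℝ) * 1) :=
          Real.exp_le_exp.2 (by linarith)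
      _ = Real.exp 1 ^ Nat.sqrt n := Real.exp_nat_mul 1 _
      _ ≤ 4 ^ Nat.sqrt n := pow_le_pow_left₀ (Real.exp_pos _).le e3 _
  have h2 : (4 : ℝ) ^ m ≤ Real.exp (2 * t ^ 20) := by
    calc (4 : ℝ) ^ m ≤ (Real.exp 2) ^ m := pow_le_pow_left₀ (by norm_num) e4 _
      _ = Real.exp ((m : ℝ) * 2) := (Real.exp_nat_mul 2 m).symm
      _ ≤ Real.exp (2 * t ^ 20) := Real.exp_le_exp.2 (by linarith)
  have h3 : (4 : ℝ) ^ Nat.sqrt n < ((N : ℝ) + 1) * (n : ℝ) ^ 10 := by exact_mod_cast h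
  have h4 : (n : ℝ) ^ 10 = t ^ 800 := by
    rw [hn]
    ring
  rw [h4] at h3
  have h5 : Real.exp (t ^ 40 - 1) =
      Real.exp (2 * t ^ 20) * Real.exp (t ^ 40 - 1 - 2 * t ^ 20) := by
    rw [← Real.exp_add]
    congr 1
    ring
  have h6 : Real.exp (2 * t ^ 20) * (5 * t ^ 850) < ((N : ℝ) + 1) * t ^ 800 := by
    calc Real.exp (2 * t ^ 20) * (5 * t ^ 850) ≤
          Real.exp (2 * t ^ 20) * Real.exp (t ^ 40 - 1 - 2 * t ^ 20) :=
          mul_le_mul_of_nonneg_left (big ht) (Real.exp_pos _).le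
      _ = Real.exp (t ^ 40 - 1) := h5.symm
      _ ≤ _ := h1
      _ < _ := h3
  have h7 : Real.exp (2 * t ^ 20) * (5 * t ^ 50) < (N : ℝ) + 1 := by
    have e : Real.exp (2 * t ^ 20) * (5 * t ^ 850) =
        Real.exp (2 * t ^ 20) * (5 * t ^ 50) * t ^ 800 := by ring
    rw [e] at h6
    exact lt_of_mul_lt_mul_right h6 (by positivity)
  have h8 : 1 ≤ t ^ 50 := one_le_pow₀ (by linarith)
  have h9 : 1 ≤ Real.exp (2 * t ^ 20) := Real.one_le_exp (by positivity)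
  have h10 : 4 * 4 ^ m * t ^ 50 ≤ (N : ℝ) := by
    have a1 : (4 : ℝ) ^ m * t ^ 50 ≤ Real.exp (2 * t ^ 20) * t ^ 50 :=
      mul_le_mul_of_nonneg_right h2 (by positivity)
    have a2 : 1 ≤ Real.exp (2 * t ^ 20) * t ^ 50 := one_le_mul_of_one_le_of_one_le h9 h8
    nlinarith
  rw [one_div, ← div_eq_inv_mul, le_div_iff₀ (by positivity)]
  linarith

/-- the start from the clock -/
theorem start_small {n : ℕ} {t X : ℝ} (ht : 4 ≤ t) (hn : (n : ℝ) = t ^ 80)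
    (h : ((n : ℝ) - Nat.sqrt n) / (289 * (t ^ 10) ^ 2) ≤ X) : t ^ 50 ≤ X := by
  have ht0 : 0 < t := by linarith
  refine le_trans ?_ h
  rw [le_div_iff₀ (by positivity)]
  have h1 : (Nat.sqrt n : ℝ) ≤ t ^ 40 := by
    have h2 : (Nat.sqrt n : ℝ) ≤ √(n : ℝ) := Real.nat_sqrt_le_real_sqrt
    have h3 : √(n : ℝ) = t ^ 40 := by
      rw [hn, show t ^ 80 = (t ^ 40) ^ 2 by ring]
      exact Real.sqrt_sq (by positivity)
    linarith
  have h4 : (1024 : ℝ) ≤ t ^ 5 := by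
    calc (1024 : ℝ) = 4 ^ 5 := by norm_num
      _ ≤ t ^ 5 := pow_le_pow_left₀ (by norm_num) ht 5
  have h5 : t ^ 40 ≤ t ^ 75 := pow_le_pow_right₀ (by linarith) (by norm_num)
  have h6 : t ^ 70 ≤ t ^ 75 := pow_le_pow_right₀ (by linarith) (by norm_num)
  have e1 : t ^ 50 * (289 * (t ^ 10) ^ 2) = 289 * t ^ 70 := by ring
  have e2 : t ^ 80 = t ^ 75 * t ^ 5 := by ring
  have e3 : 0 < t ^ 75 := by positivity
  rw [hn, e1]
  nlinarith

end TCBWGO

/-- BWGO1. The goal estimate from the late pieces, the pattern bounds of the reversed matrix and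
the absence of long riders.

Proof. `κ` from `LateP`, `C, c₁` from `lvl_bw` with `κ₀ = κ`. The event `A` is the union of: the
event of `LateP` for `n`; for every `k` the event of `lvl_bw` with `m = lev n k` (sum over `k` at
most `∑ exp (-(√n + 3 k))`, `le_lev`); the event of `DescP` for `n`; `osc_ev` for `W` with
`4^(n+1) + 1` cells and `x = n`; `max_ev` with `N = n`, `y = n^(1/8)`; and, for the jump, the
event of `osc_ev` for `subP W 0 (rr m)`, `m = lev n k₀`, `k₀` from `exists_start`, with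
`4^(n+1+m)` cells and `x = n + m`. Total at most `exp (-n^(1/5))` for `n ≥ n₀`.
Let `ω ∉ A`, `‖z‖ ≤ 1`, `s ∈ [4^n, 4^(n+1)]`, `Sol` on `[0,s]`, `|Z_s| ≤ 1`. `T = ⌊s⌋₊`,
`4^n ≤ T ≤ 4^(n+1)`, `|Z_T| ≤ n + 3` (`cr_low` on `[T,s]`). No long riders by `DescP`. Write
`U^ = rvU U T`, `g^ = rvg U g T`, `b₀ = 4^(Nat.sqrt n)`,
`x k = XX U^ g^ (rr (lev n k)) ((T - b₀) 4^(lev n k))`, and `V k, B k` from `lvl_bw` for
`m = lev n k` (`lev n (k+1) = lev n k + ll (n + lev n k)`).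
* `x` is nondecreasing by `grow_step` with `good j = False` (or `V k - B k` replaced by `0`; this is
  only needed for the start).
* Start: `x k₀ ≥ n^(5/8)`. Let `m = lev n k₀` (`1 ≤ m ≤ n^(1/4)`, `4 (n + m)^10 ≤ 4^m`, so `3 ≤ m`
  and `(n + m) 2^(-m) ≤ 1/4`). `jump` with `l = m`, `M = T - b₀` (the oscillation of `U` on the
  cells of the mesh `(rr m)^2` is at most `(n + m) rr m ≤ 1/4`; `rv_osc`):
  `x k₀ ≥ XX U^ g^ 1 (T - b₀) + NN U^ g^ 1 (T - b₀) / (4 * 4^m)`. If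
  `(NN + 1) n^10 ≤ 4^(Nat.sqrt n)` then `start_rev` with `j₁ = Nat.sqrt n`, `D = n^10`,
  `y = n^(1/8)` gives `XX ≥ (n - √n) / (289 n^(1/4)) ≥ n^(5/8)`; otherwise
  `NN ≥ 4^(√n - 1) / n^10 - 1`, and `NN / (4 * 4^m) ≥ n^(5/8)` because `m ≤ n^(1/4)`.
* End: `exists_no_low` for `U^, g^` (`rv_sol`) gives `k₁ > k₀` with
  `NN U^ g^ (rr (lev n k₁)) (T 4^(lev n k₁)) = 0`, so `V k₁ = 0` (`NN` is monotone in the number of
  cells).
`growth_bw` gives `False`. -/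
theorem goal_bw [IsProbabilityMeasure μ] {a b c K ε c₀ : ℝ} (ha : 0 ≤ a) (hb : 0 ≤ b)
    (hK : 0 ≤ K) (hc₀ : 0 ≤ c₀) (hL : LateP μ a b c K ε c₀) (hC : ClosP μ b a (-c) K ε c₀)
    (hT : TailP μ b a (-c) K ε c₀) (hD : DescP μ a b c K) : GoalP μ a b c K := by
  have _ := hK
  obtain ⟨κ, hκ0, hκ1, n₁, hlate⟩ := hL
  obtain ⟨C, c₁, hC1, hc₁, n₂, hlvl⟩ := lvl_bw (μ := μ) ha hb hc₀ hκ0 hκ1 hC hT
  obtain ⟨n₃, hdesc⟩ := hD
  obtain ⟨n₄, hgr⟩ := growth_bw hC1 hc₁ hκ0 hκ1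
  obtain ⟨n₅, hstart⟩ := exists_start
  have hκi : 0 < 1 / κ := by positivity
  obtain ⟨n₆, hnum⟩ := TRGOL.num (a + b + 1 + 1 / κ) (by linarith)
  refine ⟨n₁ + n₂ + n₃ + n₄ + n₅ + n₆, fun n hn W hW => ?_⟩
  obtain ⟨t, ht4, ht16, h80, h20, h16, h10, -, h50, -, h64, h8⟩ := hnum n (by omega)
  obtain ⟨k₀, hk1, hk2, hk3⟩ := hstart n (by omega)
  have hnpos : (0 : ℝ) < n := by
    have : (8 : ℝ) ≤ n := by exact_mod_cast h8
    linarith
  have htpos : 0 < t := by linarith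
  have ht1 : 1 ≤ t := by linarith
  have hsqrt : √(n : ℝ) = t ^ 40 := by
    rw [h80, show t ^ 80 = (t ^ 40) ^ 2 by ring]
    exact Real.sqrt_sq (by positivity)
  obtain ⟨m, hm⟩ : ∃ m, m = lev n k₀ := ⟨_, rfl⟩
  rw [← hm] at hk1 hk2 hk3
  obtain ⟨A₁, hA₁m, hA₁p, hA₁⟩ := hlate n (by omega) W hW
  choose A₂ hA₂m hA₂p hA₂ using fun k : ℕ => hlvl n (by omega) (lev n k) W hW
  obtain ⟨A₃, hA₃m, hA₃p, hA₃⟩ := hdesc n (by omega) W hW
  obtain ⟨A₄, hA₄m, hA₄p, hA₄⟩ := osc_ev hW (4 ^ (n + 1) + 1) hnpos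
  obtain ⟨A₅, hA₅m, hA₅p, hA₅⟩ := max_ev hW n (y := t ^ 10) (by positivity)
  have hnm : 0 < (n : ℝ) + m := by
    have : (0 : ℝ) ≤ m := Nat.cast_nonneg m
    linarith
  obtain ⟨A₆, hA₆m, hA₆p, hA₆⟩ := osc_ev (hW.subP le_rfl (TRCOR.rr_pos m))
    (4 ^ (n + 1 + m)) hnm
  refine ⟨A₁ ∪ ((⋃ k, A₂ k) ∪ (A₃ ∪ (A₄ ∪ (A₅ ∪ A₆)))),
    hA₁m.union ((MeasurableSet.iUnion hA₂m).union (hA₃m.union (hA₄m.union (hA₅m.union hA₆m)))),
    ?_, ?_⟩
  · have hp := TCBWGO.prob (S := a + b + 1 + 1 / κ) (σ := a + b + 1) (m := m) (by linarith)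
      (by linarith) hκ0 (by linarith) ht4 ht16 h80 h64 h8
    rw [h16]
    refine le_trans ?_ (ENNReal.ofReal_le_ofReal hp)
    rw [ENNReal.ofReal_add (by positivity) (by positivity),
      ENNReal.ofReal_add (by positivity) (by positivity),
      ENNReal.ofReal_add (by positivity) (by positivity),
      ENNReal.ofReal_add (by positivity) (by positivity),
      ENNReal.ofReal_add (by positivity) (by positivity)]
    rw [hsqrt] at hA₁p
    have hA₂u : μ (⋃ k, A₂ k) ≤ ENNReal.ofReal (2 * Real.exp (-(t ^ 40))) :=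
      TCBWGO.union_lvl (n := n) fun k => by
        have h := hA₂p k
        rwa [hsqrt] at h
    refine (measure_union_le _ _).trans (add_le_add hA₁p ?_)
    refine (measure_union_le _ _).trans (add_le_add hA₂u ?_)
    refine (measure_union_le _ _).trans (add_le_add hA₃p ?_)
    refine (measure_union_le _ _).trans (add_le_add hA₄p ?_)
    exact (measure_union_le _ _).trans (add_le_add hA₅p hA₆p)
  intro ω hω z hz s hs g hg
  simp only [Set.mem_union, Set.mem_iUnion, not_or, not_exists] at hω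
  obtain ⟨hω1, hω2, hω3, hω4, hω5, hω6⟩ := hω
  by_contra hcon
  rw [not_lt] at hcon
  have hs0 : 0 ≤ s := le_trans (by positivity) hs.1
  set T := ⌊s⌋₊ with hT'
  have hTs : (T : ℝ) ≤ s := Nat.floor_le hs0
  have hsT : s < (T : ℝ) + 1 := Nat.lt_floor_add_one s
  have hT1 : 4 ^ n ≤ T := Nat.le_floor (by exact_mod_cast hs.1)
  have hT2 : T ≤ 4 ^ (n + 1) := by
    have : (T : ℝ) ≤ ((4 ^ (n + 1) : ℕ) : ℝ) := by
      push_cast
      exact hTs.trans hs.2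
    exact_mod_cast this
  have hT3 : T ≤ 4 ^ (n + 2) := hT2.trans (Nat.pow_le_pow_right (by norm_num) (by omega))
  have hcont : Continuous fun t => W t ω := hW.cont ω
  have hgT : Sol (fun t => W t ω) z T g := TRGOL.sol_restrict hg hTs
  have hZT : ‖g T - W T ω‖ ≤ n + 4 := by
    have hosc := hA₄ ω hω4 T (by omega)
    simp only [one_pow, mul_one] at hosc
    have hsub : Set.Icc (T : ℝ) s ⊆ Set.Icc (T : ℝ) ((T : ℝ) + 1) :=
      Set.Icc_subset_Icc_right hsT.le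
    have := cr_low hcont hg (Nat.cast_nonneg T) hTs hsT.le le_rfl (x := (n : ℝ))
      (fun u hu v hv => hosc u (hsub hu) v (hsub hv)) ⟨s, ⟨hTs, le_rfl⟩, hcon⟩ T
      ⟨le_rfl, hTs⟩
    linarith
  have hno := hA₃ ω hω3 T z g hT3 hgT
  have hrsol := rv_sol (Nat.cast_nonneg T) hgT
  have hrcont : Continuous (rvU (fun t => W t ω) T) := rv_cont hcont
  choose V B hV0 hB0 hVN hgrow hineq using fun k : ℕ =>
    hA₂ k ω (hω2 k) T z g hT1 hT2 hz hgT hZT (fun s' hs' => hno (lev n k) s' hs')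
      (fun hmk α u hαu hu hnorm => hA₁ ω hω1 T (lev n k) α u z g hmk hT2 hαu hu hz hgT hnorm)
  obtain ⟨k₂, hk₂⟩ := exists_no_low hrcont hrsol n
  have hTb : T - 4 ^ Nat.sqrt n ≤ T := Nat.sub_le _ _
  have hVz : V (max k₂ (k₀ + 1)) = 0 := by
    have h1 := hVN (max k₂ (k₀ + 1))
    have h2 := TCBWGO.NN_mono (rvU (fun t => W t ω) T) (rvg (fun t => W t ω) g T)
      (rr (lev n (max k₂ (k₀ + 1)))) (Nat.mul_le_mul_right (4 ^ lev n (max k₂ (k₀ + 1))) hTb)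
    rw [hk₂ _ (le_max_left _ _)] at h2
    have h3 : NN (rvU (fun t => W t ω) T) (rvg (fun t => W t ω) g T)
        (rr (lev n (max k₂ (k₀ + 1))))
        ((T - 4 ^ Nat.sqrt n) * 4 ^ lev n (max k₂ (k₀ + 1))) = 0 := Nat.le_zero.1 h2
    rw [h3, Nat.cast_zero] at h1
    exact le_antisymm h1 (hV0 _)
  refine hgr n (by omega)
    (fun k => XX (rvU (fun t => W t ω) T) (rvg (fun t => W t ω) g T) (rr (lev n k))
      ((T - 4 ^ Nat.sqrt n) * 4 ^ lev n k)) V B k₀ (max k₂ (k₀ + 1))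
    (fun k => TRCOR.XX_nonneg _ _ _ _) hV0 hB0 (by rw [← hm]; exact hk3)
    (fun k _ => hineq k) (fun k _ => hgrow k) ?_
    (lt_of_lt_of_le (Nat.lt_succ_self k₀) (le_max_right _ _)) hVz
  rw [h50]
  show t ^ 50 ≤ XX (rvU (fun t => W t ω) T) (rvg (fun t => W t ω) g T) (rr (lev n k₀))
      ((T - 4 ^ Nat.sqrt n) * 4 ^ lev n k₀)
  rw [← hm]
  obtain ⟨hm3, hmr⟩ := TCBWGO.start_num h8 hk2
  have hosc : Osc (rvU (fun t => W t ω) T) (rr m) (1 / 4) ((T - 4 ^ Nat.sqrt n) * 4 ^ m) := by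
    have h1 : Osc (psub (fun τ => W τ ω) 0 (rr m)) 1 ((n : ℝ) + m) (4 ^ (n + 1 + m)) :=
      hA₆ ω hω6
    have h2 := TCBWGO.osc_scale h1
    have h3 : T * 4 ^ m ≤ 4 ^ (n + 1 + m) := by
      rw [pow_add _ (n + 1) m]
      exact Nat.mul_le_mul_right _ hT2
    have h4 : Osc (fun τ => W τ ω) (rr m) (1 / 4) (T * 4 ^ m) := TCBWGO.osc_mono h2 hmr h3
    exact TCBWGO.osc_mono (rv_osc h4) le_rfl (Nat.mul_le_mul_right _ hTb)
  have hjump := jump hrcont hm3 hrsol (M := T - 4 ^ Nat.sqrt n) (by exact_mod_cast hTb) hosc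
  have hXX0 := TRCOR.XX_nonneg (rvU (fun t => W t ω) T) (rvg (fun t => W t ω) g T) 1
    (T - 4 ^ Nat.sqrt n)
  by_cases hcase : (NN (rvU (fun t => W t ω) T) (rvg (fun t => W t ω) g T) 1
      (T - 4 ^ Nat.sqrt n) + 1) * n ^ 10 ≤ 4 ^ Nat.sqrt n
  · have hst := start_rev hcont hT1 (Nat.sqrt_le_self n) hgT hz
      (one_le_pow₀ ht1 : (1 : ℝ) ≤ t ^ 10) (fun j hj u hu => hA₅ ω hω5 j hj u hu)
      (fun s' hs' => by
        have := hno 0 s' (by simpa using hs')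
        rwa [show rr 0 = 1 by simp [rr], add_zero] at this) hcase
    have h1 := TCBWGO.start_small ht4 h80 hst
    have h2 : 0 ≤ 1 / (4 * 4 ^ m) * (NN (rvU (fun t => W t ω) T)
        (rvg (fun t => W t ω) g T) 1 (T - 4 ^ Nat.sqrt n) : ℝ) := by positivity
    linarith
  · have h1 := TCBWGO.start_big ht4 h80 (by rw [← h20]; exact hk3) (not_le.1 hcase)
    linarith

/-- BWGO2. The backward critical case.

Proof. `FwdP` gives `RidP μ b a (-c) K`, so `RidP μ a b c K` (`rid_rev`) and `DescP`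
(`desc_of_rid`). Take `ε` at most the `ε₀` of `FwdP` and of `late_all` (with `ψ` from `area_psi`), `c₀` from
`FwdP`; `goal_bw`. -/
theorem goal_bwd [IsProbabilityMeasure μ] {a b c K : ℝ} (ha : 0 ≤ a) (hb : 0 ≤ b) (hK : 0 ≤ K)
    {ψ : ℝ → ℝ} (hψ : ContDiff ℝ 3 ψ) (hψp : Function.Periodic ψ (2 * π))
    (hop : ∀ θ, Op a b c 0 ψ θ - 2 * 2 * Real.cos (2 * θ) ≤ 0) (hM : CrF b a (-c))
    (hF : FwdP μ b a (-c) K) : GoalP μ a b c K := by
  have hD : DescP μ a b c K := desc_of_rid ha hb hK (rid_rev hF.1)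
  obtain ⟨ε₁, hε₁, h1⟩ := hF.2
  obtain ⟨ε₂, hε₂, h2⟩ := late_all ha hb hK hψ hψp hop hM hD
  have hε : 0 < min ε₁ ε₂ := lt_min hε₁ hε₂
  obtain ⟨c₀, hc₀, hC, hT⟩ := h1 (min ε₁ ε₂) hε (min_le_left _ _)
  exact goal_bw ha hb hK hc₀ (h2 _ hε (min_le_right _ _) c₀ hc₀) hC hT hD

end

end Pool.Agent.SLE
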