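import Pool.Agent.Lib.MP_c17912_pr_TC.ANG

/-!
# MP_c17912_pr, project TC, backward critical case: the function of the area supermartingale
-/

set_option autoImplicit false

open MeasureTheory ProbabilityTheory Filter
open scoped NNReal ENNReal Topology Real

namespace Pool.Agent.SLE

/-- The supermartingale `|g'|^2 f (arg Z)`. -/
theorem area_psi {a b c : ℝ} {ρ f : ℝ → ℝ} {k1 k2 : ℝ} (h : AngD a b c ρ f k1 k2) :
    ∃ ψ : ℝ → ℝ, ContDiff ℝ 3 ψ ∧ Function.Periodic ψ (2 * π) ∧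
      ∀ θ, Op a b c 0 ψ θ - 2 * 2 * Real.cos (2 * θ) ≤ 0 := by
  obtain ⟨h1, h2, -, h4⟩ := TCANG.log_f h
  refine ⟨fun x => Real.log (f x), h1 3, TRSGN.per2 h2, fun θ => ?_⟩
  have := h4 θ
  unfold Op
  apply le_of_eq
  linear_combination this

end Pool.Agent.SLE
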