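import Pool.Agent.Lib.MP_c17912_pr_TC.CRB
import Pool.Agent.Lib.MP_c17912_pr_LN.AL

/-!
# MP_c17912_pr, project TC: a fixed point is never absorbed if the mean drift is nonnegative
-/

set_option autoImplicit false

open MeasureTheory ProbabilityTheory Filter
open scoped NNReal ENNReal Topology Real

namespace Pool.Agent.SLE

noncomputable section

variable {Ω : Type*} [MeasurableSpace Ω] {μ : Measure Ω}

/-- The sub-solution of the angle if the mean drift of `log |Z|` is nonnegative. -/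
theorem cr_ang {a b c : ℝ} {ρ : ℝ → ℝ} (h : PoiP a b c ρ)
    (h0 : 0 ≤ ∫ x in (0 : ℝ)..π, H1 a b c x * ρ x) : ∃ ψ, Ang a b c (H1 a b c) 0 ψ := by
  obtain ⟨m, ψ, hm, hψs, hψp, hψ⟩ := TCCR.solve_mean h (G := H1 a b c)
    (fun n => TRSGN.H_smooth a b c n) (TRSGN.H_per a b c)
  have hJ := TCCR.rho_int h.smooth h.pos
  have hm0 : 0 ≤ m := by
    rw [← hm] at h0
    exact nonneg_of_mul_nonneg_left h0 hJ
  refine ⟨ψ, hψs 3, TRSGN.per2 hψp, fun θ => ?_⟩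
  have := hψ θ
  linarith

/-- TC-TFX. A fixed point is never absorbed. -/
theorem cr_alive [IsProbabilityMeasure μ] {a b c K : ℝ} {W : ℝ → Ω → ℂ}
    (hW : Drv a b c K W μ) {ρ : ℝ → ℝ} (h : PoiP a b c ρ)
    (h0 : 0 ≤ ∫ x in (0 : ℝ)..π, H1 a b c x * ρ x) {z₀ : ℂ} (hz₀ : z₀ ≠ 0) :
    ∃ A, MeasurableSet[Fut W 0] A ∧ μ A = 0 ∧ ∀ ω ∉ A, ∀ t : ℝ, 0 ≤ t →
      ∃ g, Sol (fun t => W t ω) z₀ t g := by
  obtain ⟨ψ, hψ⟩ := cr_ang h h0
  exact alive_ae hW hψ hz₀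

end

end Pool.Agent.SLE
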