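import Pool.Agent.Lib.MP_c17912_pr_TR.LamDefs

/-!
# MP_c17912_pr, the critical surfaces (project TC): definitions

* `HasC a b c`: the data used in the critical case (the mean logarithmic drift vanishes):
  (S2) the strict supermartingale `|g'| ^ q * GE α ψ Z` with `q > 2`;
  (S3) the strict supermartingale `|g'| ^ q * |Z| ^ (-q) * exp (ψ (arg Z))`, `q > 0`;
  (S5) the weak submartingales `GE y ψ Z`, `y > 0` small, with gain `c₀ y ^ 2 / |Z| ^ 2`;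
  (S6) `-log |Z| + ψ (arg Z)` is nearly a supermartingale.
* sequences: `Bs h k j x = ∑ i < j, h * k (x i)`, `phs h ε j x`: the discrete version of `ph`,
  `An δ R j x`: the sequence stays in the annulus up to `j`, `Fl h ε θ j x`: the flag (`phs`
  reaches `θ` at a time `i ≤ j` with `1 / 2 ≤ |x i|`), `Rf h ε δ R θ j J x`: `phs` is at least `θ`
  at a time `i ∈ [j,J]` up to which the sequence stays in the annulus.
* `Ev W z₀ h N ω`: the Euler scheme, stopped at time `N`, as a sequence; `Zq W z₀ h ω`: the Euler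
  scheme as a sequence (`DiscAux.A W z₀ h k j ω = Bs h k j (Zq W z₀ h ω)` by `rfl`).
* `G1`, `G2`: the functionals of one unit cell (mesh `h = 1 / n`).
* `pm U g ε j`: the maximum of `ph` over the cell `[j,j+1]`.
* `uncut U g ε α T`: no low cell in `(α,T)` contains a record of `ph` since `α`.
-/

set_option autoImplicit false

open MeasureTheory ProbabilityTheory Filter
open scoped NNReal ENNReal Topology Real

namespace Pool.Agent.SLE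

noncomputable section

/-- The data which are used in the critical case. -/
def HasC (a b c : ℝ) : Prop :=
  (∃ (q α δ : ℝ) (ψ : ℝ → ℝ), 2 < q ∧ 0 ≤ q + α ∧ 0 < δ ∧ ContDiff ℝ 3 ψ ∧
    Function.Periodic ψ (2 * π) ∧ ∀ θ, Op a b c α ψ θ - 2 * q * Real.cos (2 * θ) + δ ≤ 0) ∧
  (∃ (q δ : ℝ) (ψ : ℝ → ℝ), 0 < q ∧ q ≤ 1 ∧ 0 < δ ∧ ContDiff ℝ 3 ψ ∧
    Function.Periodic ψ (2 * π) ∧ ∀ θ, Op a b c (-q) ψ θ - 2 * q * Real.cos (2 * θ) + δ ≤ 0) ∧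
  (∃ B c₀ y₀ : ℝ, 0 ≤ B ∧ 0 < c₀ ∧ 0 < y₀ ∧ ∀ y, 0 < y → y ≤ y₀ → ∃ ψ : ℝ → ℝ,
    ContDiff ℝ 3 ψ ∧ Function.Periodic ψ (2 * π) ∧ (∀ θ, |ψ θ| ≤ B * y) ∧
    ∀ θ, c₀ * y ^ 2 ≤ Op a b c y ψ θ) ∧
  ∃ B : ℝ, ∀ e > 0, ∃ ψ : ℝ → ℝ, ContDiff ℝ 3 ψ ∧ Function.Periodic ψ (2 * π) ∧
    (∀ θ, |ψ θ| ≤ B) ∧ ∀ θ, Vth a b c θ * deriv (deriv ψ) θ / 2 + Bth a b c θ * deriv ψ θ ≤
      H1 a b c θ + e

/-- The exponent along a sequence. -/
def Bs (h : ℝ) (k : ℂ → ℝ) (j : ℕ) (x : ℕ → ℂ) : ℝ := ∑ i ∈ Finset.range j, h * k (x i)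

/-- The discrete version of `ph`. -/
def phs (h ε : ℝ) (j : ℕ) (x : ℕ → ℂ) : ℝ := Bs h (kk 1 ε) j x - Real.log ‖x j‖

/-- The sequence stays in the annulus up to time `j`. -/
def An (δ R : ℝ) (j : ℕ) : Set (ℕ → ℂ) := {x | ∀ i ≤ j, δ ≤ ‖x i‖ ∧ ‖x i‖ ≤ R}

/-- The flag. -/
def Fl (h ε θ : ℝ) (j : ℕ) : Set (ℕ → ℂ) := {x | ∃ i ≤ j, 1 / 2 ≤ ‖x i‖ ∧ θ ≤ phs h ε i x}

/-- The functional `phs` is at least `θ` at a time in `[j,J]`, in the annulus up to this time. -/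
def Rf (h ε δ R θ : ℝ) (j J : ℕ) : Set (ℕ → ℂ) :=
  {x | ∃ i, j ≤ i ∧ i ≤ J ∧ x ∈ An δ R i ∧ θ ≤ phs h ε i x}

/-- The Euler scheme, stopped at time `N`. -/
def Ev {Ω : Type*} (W : ℝ → Ω → ℂ) (z₀ : ℂ) (h : ℝ) (N : ℕ) (ω : Ω) : ℕ → ℂ :=
  fun j => DiscAux.Z W z₀ h (min j N) ω

/-- The Euler scheme as a sequence. -/
def Zq {Ω : Type*} (W : ℝ → Ω → ℂ) (z₀ : ℂ) (h : ℝ) (ω : Ω) : ℕ → ℂ :=
  fun j => DiscAux.Z W z₀ h j ω

open Classical in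
/-- The functional of one cell: flag up, `|x j| ≤ e`, the sequence reaches the level `θ` again
before the end of the next cell. The exponent has the weight `κ * (θ - phs)`. The mesh has `n` steps
per unit of time. -/
def G1 (h ε δ R θ e c₁ κ : ℝ) (n t : ℕ) (x : ℕ → ℂ) : ℝ≥0∞ :=
  ∑ j ∈ Finset.Ico ((t - 1) * n) (t * n), ENNReal.ofReal h *
    if x ∈ An δ R j ∧ x ∈ Fl h ε θ j ∧ ‖x j‖ ≤ e ∧ x ∈ Rf h ε δ R θ j ((t + 1) * n) then
      ENNReal.ofReal (Real.exp (Bs h (kk 0 c₁) j x + κ * (θ - phs h ε j x))) else 0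

open Classical in
/-- The functional of one cell without the return, with the weight `κ * (phs - θ)`. -/
def G2 (h ε δ R θ e c₁ κ : ℝ) (n t : ℕ) (x : ℕ → ℂ) : ℝ≥0∞ :=
  ∑ j ∈ Finset.Ico ((t - 1) * n) (t * n), ENNReal.ofReal h *
    if x ∈ An δ R j ∧ x ∈ Fl h ε θ j ∧ ‖x j‖ ≤ e then
      ENNReal.ofReal (Real.exp (Bs h (kk 0 c₁) j x + κ * (phs h ε j x - θ))) else 0

/-- The maximum of `ph` over the cell `[j,j+1]`. -/
def pm (U g : ℝ → ℂ) (ε : ℝ) (j : ℕ) : ℝ :=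
  sSup (ph U g ε '' Set.Icc (j : ℝ) ((j : ℝ) + 1))

/-- No low cell in `(α,T)` contains a record of `ph` since time `α`. -/
def uncut (U g : ℝ → ℂ) (ε : ℝ) (α T : ℕ) : Prop :=
  ∀ c, α < c → c < T → low U g 1 c → ∃ j, α ≤ j ∧ j < c ∧ pm U g ε c < pm U g ε j

end

end Pool.Agent.SLE
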