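import Pool.Agent.Lib.MP_c17912_pr_TC.CRB
import Pool.Agent.Lib.MP_c17912_pr_TC.ANG

set_option autoImplicit false

open MeasureTheory ProbabilityTheory Filter
open scoped NNReal ENNReal Topology Real

namespace Pool.Agent.SLE

theorem AngD.poiP {a b c : ℝ} {ρ f : ℝ → ℝ} {k1 k2 : ℝ} (h : AngD a b c ρ f k1 k2) :
    PoiP a b c ρ :=
  ⟨h.rs, h.rp, h.rpos, ⟨k1, h.req⟩, h.sol1⟩

end Pool.Agent.SLE
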