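import Pool.Agent.Lib.MP_c17912_pr_TC.CRC
import Pool.Agent.Lib.MP_c17912_pr_TC.CRD
import Pool.Agent.Lib.MP_c17912_pr_TC.CRE
import Pool.Agent.Lib.MP_c17912_pr_TC.Base

/-!
# MP_c17912_pr, project TC: `HasC` from the angular data (rank one included)
-/

set_option autoImplicit false

open MeasureTheory ProbabilityTheory Filter
open scoped NNReal ENNReal Topology Real

namespace Pool.Agent.SLE

noncomputable section

namespace TCCR

/-- The strict supermartingale with `q > 2`. -/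
theorem s2_ang {a b c : ℝ} {ρ f : ℝ → ℝ} {k1 k2 : ℝ} (h : AngD a b c ρ f k1 k2)
    (h2 : mB a b c f ≠ 0) :
    ∃ (q α δ : ℝ) (ψ : ℝ → ℝ), 2 < q ∧ 0 ≤ q + α ∧ 0 < δ ∧ ContDiff ℝ 3 ψ ∧
      Function.Periodic ψ (2 * π) ∧
      ∀ θ, Op a b c α ψ θ - 2 * q * Real.cos (2 * θ) + δ ≤ 0 := by
  obtain ⟨l2, J2, φ, hJ2, hl2', hφs, hφp, hφ⟩ := TCANG.second h
  obtain ⟨hχs, hχp, hχ1, hχ⟩ := TCANG.log_f h
  have hl2 : l2 ≠ 0 := by
    rintro rfl
    rw [zero_mul] at hl2'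
    exact h2 (neg_eq_zero.1 hl2'.symm)
  obtain ⟨χ, hχe⟩ : ∃ χ : ℝ → ℝ, χ = fun x => Real.log (f x) := ⟨_, rfl⟩
  rw [← hχe] at hχs hχp hχ1 hχ
  have hφ' : ∀ x, Vth a b c x * deriv (deriv φ) x / 2 +
      (Bth a b c x + Vth a b c x * deriv χ x) * deriv φ x =
      -(H1 a b c x + Cv a b c x * deriv χ x) + l2 := by
    intro x
    rw [hχ1 x]
    exact hφ x
  obtain ⟨P, hP⟩ := EXaux.bdd (TRSGN.sm_deriv hφs 0).continuous
    (TRSGN.per2 (EXaux.per_deriv hφp))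
  obtain ⟨M2, hM2e⟩ : ∃ M2 : ℝ, M2 = (|a| + |c| + |b|) * (1 + P) ^ 2 * 2 := ⟨_, rfl⟩
  have hM2 : ∀ x, Vr a b c x + 2 * deriv φ x * Cv a b c x + deriv φ x ^ 2 * Vth a b c x ≤ M2 := by
    intro x
    have := (abs_le.1 (Qv_bdd (a := a) (b := b) (c := c) hP x)).2
    rw [hM2e]
    exact this
  have hM2' : 0 ≤ M2 := by
    rw [hM2e]
    positivity
  obtain ⟨y, hy⟩ : ∃ y : ℝ, y = 1 / (1 + M2 + |l2|) := ⟨_, rfl⟩
  have hden : 0 < 1 + M2 + |l2| := by positivity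
  have hy0 : 0 < y := by
    rw [hy]
    positivity
  have hyd : y * (1 + M2 + |l2|) = 1 := by
    rw [hy]
    exact one_div_mul_cancel hden.ne'
  have hyM2 : y * M2 ≤ 1 := by
    nlinarith [mul_nonneg hy0.le (abs_nonneg l2)]
  have hyl2 : y * |l2| ≤ 1 := by
    nlinarith [mul_nonneg hy0.le hM2']
  have hl2s : 0 < l2 ^ 2 := by positivity
  obtain ⟨δ, hδ⟩ : ∃ δ : ℝ, δ = min 1 (l2 ^ 2 * y / 4) := ⟨_, rfl⟩
  have hδ0 : 0 < δ := by
    rw [hδ]
    exact lt_min one_pos (by positivity)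
  have hδl2 : 4 * δ ≤ l2 ^ 2 * y := by
    have : δ ≤ l2 ^ 2 * y / 4 := by
      rw [hδ]
      exact min_le_right _ _
    linarith
  have e1 : ∀ x, deriv (fun x => χ x + -(l2 * y) * φ x) x =
      deriv χ x + -(l2 * y) * deriv φ x := fun x =>
    ((TRSGN.hd hχs x).add ((TRSGN.hd hφs x).const_mul (-(l2 * y)))).deriv
  have e1' : deriv (fun x => χ x + -(l2 * y) * φ x) =
      fun x => deriv χ x + -(l2 * y) * deriv φ x := funext e1
  have e2 : ∀ x, deriv (deriv (fun x => χ x + -(l2 * y) * φ x)) x =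
      deriv (deriv χ) x + -(l2 * y) * deriv (deriv φ) x := by
    intro x
    rw [e1']
    exact ((TRSGN.hd (TRSGN.sm_deriv hχs) x).add
      ((TRSGN.hd (TRSGN.sm_deriv hφs) x).const_mul (-(l2 * y)))).deriv
  refine ⟨2 + δ / 2, -(l2 * y), δ, fun x => χ x + -(l2 * y) * φ x, by linarith, ?_, hδ0,
    (hχs 3).add (contDiff_const.mul (hφs 3)), TRSGN.per2 fun x => ?_, fun x => ?_⟩
  · have i2 : |l2 * y| ≤ 1 := by
      rw [abs_mul, abs_of_pos hy0, mul_comm]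
      exact hyl2
    have i4 := (abs_le.1 i2).2
    linarith
  · change χ (x + π) + -(l2 * y) * φ (x + π) = χ x + -(l2 * y) * φ x
    rw [hφp x, hχp x]
  · unfold Op
    rw [e1, e2]
    have i1 := hχ x
    have i1' := hφ' x
    have i2 := hM2 x
    have i3 : Vth a b c x * (deriv (deriv χ) x + -(l2 * y) * deriv (deriv φ) x) / 2 +
        Bth a b c x * (deriv χ x + -(l2 * y) * deriv φ x) + -(l2 * y) * H1 a b c x +
        ((-(l2 * y)) ^ 2 * Vr a b c x +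
          2 * -(l2 * y) * (deriv χ x + -(l2 * y) * deriv φ x) * Cv a b c x +
          (deriv χ x + -(l2 * y) * deriv φ x) ^ 2 * Vth a b c x) / 2 =
        4 * Real.cos (2 * x) - l2 ^ 2 * y + l2 ^ 2 * y * y * (Vr a b c x +
          2 * deriv φ x * Cv a b c x + deriv φ x ^ 2 * Vth a b c x) / 2 := by
      linear_combination i1 + (-(l2 * y)) * i1'
    rw [i3]
    have i4 : l2 ^ 2 * y * y * (Vr a b c x + 2 * deriv φ x * Cv a b c x +
          deriv φ x ^ 2 * Vth a b c x) ≤ l2 ^ 2 * y * y * M2 :=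
      mul_le_mul_of_nonneg_left i2 (by positivity)
    have i5 : l2 ^ 2 * y * (y * M2) ≤ l2 ^ 2 * y * 1 :=
      mul_le_mul_of_nonneg_left hyM2 (by positivity)
    have i6 : l2 ^ 2 * y * y * M2 = l2 ^ 2 * y * (y * M2) := by ring
    have i7 : -(δ * Real.cos (2 * x)) ≤ δ := by
      have := Real.neg_one_le_cos (2 * x)
      nlinarith
    linarith

end TCCR

/-- TC-CRF. The data of the critical case from the angular data. -/
theorem hasC_ang {a b c : ℝ} (ha : 0 ≤ a) (hb : 0 ≤ b) (hc : c ^ 2 ≤ a * b) (hab : 0 < a + b)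
    {ρ f : ℝ → ℝ} {k1 k2 : ℝ} (h : AngD a b c ρ f k1 k2) (h1 : mF a b c ρ = 0)
    (h2 : mB a b c f ≠ 0) : HasC a b c := by
  have hP := h.poiP
  have h1' : ∫ x in (0 : ℝ)..π, H1 a b c x * ρ x = 0 := h1
  refine ⟨TCCR.s2_ang h h2, ?_, s5_poi ha hb hc hab hP h1', ?_⟩
  · have hcos := TCCR.cos_pos ha hb hc h.rs h.rp h.rpos h.req
    obtain ⟨ψ, m, q₀, hm, hq₀, hψs, hψp, hop⟩ := cr_lin hP (s := -1) (by
      rw [h1']
      linarith)
    have hq : 0 < min 1 q₀ := lt_min one_pos hq₀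
    refine ⟨min 1 q₀, min 1 q₀ * m, fun x => min 1 q₀ * ψ x, hq, min_le_left _ _,
      mul_pos hq hm, contDiff_const.mul (hψs 3), fun x => ?_, fun θ => ?_⟩
    · simp only
      rw [TRSGN.per2 hψp x]
    · have := hop (min 1 q₀) hq (min_le_right _ _) θ
      rwa [neg_one_mul] at this
  · obtain ⟨ψ, hψ⟩ := cr_ang hP h1'.ge
    obtain ⟨B, hB⟩ := EXaux.bdd hψ.smooth.continuous hψ.per
    refine ⟨B, fun e he => ⟨ψ, hψ.smooth, hψ.per, hB, fun θ => ?_⟩⟩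
    have := hψ.ineq θ
    linarith

end

end Pool.Agent.SLE
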