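import Pool.Agent.Lib.MP_c17912_pr_TR.SGN
import Pool.Agent.Lib.MP_c17912_pr_TR.DNS

/-!
# MP_c17912_pr, project TC: the drift of `log |Σ^(-1/2) Z|`

`Lam a b c = ∫ f / V dens (-1)` and `Lam b a (-c) = - ∫ f / V dens 1`,
`f θ = (a + b) cos (2 θ) - (a - b)`.
-/

set_option autoImplicit false

open MeasureTheory Filter
open scoped Topology Real

namespace Pool.Agent.SLE

noncomputable section

namespace TCNB

/-- the drift of `log |Σ^(-1/2) Z|` times `V` -/
def ff (a b θ : ℝ) : ℝ := (a + b) * Real.cos (2 * θ) - (a - b)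

theorem V_hd (a b c θ : ℝ) : HasDerivAt (Vth a b c)
    ((a - b) * Real.sin (2 * θ) - 2 * c * Real.cos (2 * θ)) θ := TRSGN.V_deriv a b c θ

/-- the function `V'` -/
def V1 (a b c θ : ℝ) : ℝ := (a - b) * Real.sin (2 * θ) - 2 * c * Real.cos (2 * θ)

theorem V1_hd (a b c θ : ℝ) : HasDerivAt (V1 a b c)
    (2 * (a - b) * Real.cos (2 * θ) + 4 * c * Real.sin (2 * θ)) θ := by
  have h0 : HasDerivAt (fun x : ℝ => 2 * x) 2 θ := by
    simpa using (hasDerivAt_id θ).const_mul (2 : ℝ)
  have h := (h0.sin.const_mul (a - b)).sub (h0.cos.const_mul (2 * c))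
  refine h.congr_deriv ?_
  ring

theorem V_eq (a b c θ : ℝ) : Vth a b c θ =
    (a + b) / 2 - (a - b) / 2 * Real.cos (2 * θ) - c * Real.sin (2 * θ) := by
  unfold Vth
  rw [Real.sin_two_mul, Real.cos_two_mul']
  have h := Real.sin_sq_add_cos_sq θ
  linear_combination ((a + b) / 2) * h

/-- `f = 2 V cos - V' sin`. -/
theorem ff_eq (a b c θ : ℝ) : ff a b θ =
    2 * Vth a b c θ * Real.cos (2 * θ) - V1 a b c θ * Real.sin (2 * θ) := by
  rw [V_eq]
  unfold ff V1
  have h := Real.sin_sq_add_cos_sq (2 * θ)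
  linear_combination (a - b) * h

theorem bridge {a b c : ℝ} (ha : 0 < a) (hb : 0 < b) (hc : c ^ 2 < a * b) {σ : ℝ}
    (hσ : σ ^ 2 = 1) :
    ∫ θ in (0 : ℝ)..π, (2 * Real.cos (2 * θ) + σ * (((a - b) * Real.cos (2 * θ) +
        2 * c * Real.sin (2 * θ)) / 2)) * dens a b c σ θ =
      ∫ θ in (0 : ℝ)..π, ff a b θ / Vth a b c θ * dens a b c σ θ := by
  obtain ⟨hs, hp, hpos, κ, hκ⟩ := dens_props ha hb hc σ
  have hVp := fun θ => Vth_pos ha hb hc θ
  have hVc : Continuous (Vth a b c) := (TRDNS.V_smooth a b c 0).continuous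
  have hρc : Continuous (dens a b c σ) := (hs 0).continuous
  have hρd : ∀ θ, HasDerivAt (dens a b c σ) (deriv (dens a b c σ) θ) θ := fun θ =>
    (((hs 1).differentiable (by simp)) θ).hasDerivAt
  have hG : ∀ θ, HasDerivAt (fun θ => σ / 4 * (V1 a b c θ * dens a b c σ θ) -
      σ * κ / 2 * Real.log (Vth a b c θ))
      ((2 * Real.cos (2 * θ) + σ * (((a - b) * Real.cos (2 * θ) +
        2 * c * Real.sin (2 * θ)) / 2)) * dens a b c σ θ -
        ff a b θ / Vth a b c θ * dens a b c σ θ) θ := by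
    intro θ
    have h1 := ((V1_hd a b c θ).mul (hρd θ)).const_mul (σ / 4)
    have h2 := ((V_hd a b c θ).log (hVp θ).ne').const_mul (σ * κ / 2)
    refine (h1.sub h2).congr_deriv ?_
    have hV := (hVp θ).ne'
    have h3 : deriv (dens a b c σ) θ =
        2 * (κ + σ * 2 * Real.sin (2 * θ) * dens a b c σ θ) / Vth a b c θ := by
      rw [eq_div_iff hV, ← hκ θ]
      ring
    rw [h3, ff_eq a b c θ]
    change _ - σ * κ / 2 * (V1 a b c θ / Vth a b c θ) = _
    field_simp
    linear_combination (8 * V1 a b c θ * Real.sin (2 * θ) * dens a b c σ θ) * hσ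
  have hc1 : Continuous fun θ => (2 * Real.cos (2 * θ) + σ * (((a - b) * Real.cos (2 * θ) +
      2 * c * Real.sin (2 * θ)) / 2)) * dens a b c σ θ := by fun_prop
  have hc2 : Continuous fun θ => ff a b θ / Vth a b c θ * dens a b c σ θ := by
    have h1 : Continuous (ff a b) := by
      unfold ff
      fun_prop
    exact (h1.div hVc fun θ => (hVp θ).ne').mul hρc
  have h := intervalIntegral.integral_eq_sub_of_hasDerivAt (a := 0) (b := π) (fun θ _ => hG θ)
    ((hc1.sub hc2).intervalIntegrable _ _)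
  rw [intervalIntegral.integral_sub (hc1.intervalIntegrable _ _)
    (hc2.intervalIntegrable _ _)] at h
  have e1 := TRDNS.V_per a b c 0
  have e2 := hp 0
  have e3 : V1 a b c π = V1 a b c 0 := by
    unfold V1
    rw [Real.sin_two_pi, Real.cos_two_pi, mul_zero 2, Real.sin_zero, Real.cos_zero]
  rw [zero_add] at e1 e2
  rw [e1, e2, e3, sub_self] at h
  linarith

theorem Lam_eq {a b c : ℝ} (ha : 0 < a) (hb : 0 < b) (hc : c ^ 2 < a * b) :
    Lam a b c = ∫ θ in (0 : ℝ)..π, ff a b θ / Vth a b c θ * dens a b c (-1) θ := by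
  rw [← bridge ha hb hc (by norm_num)]
  unfold Lam
  refine intervalIntegral.integral_congr fun θ _ => ?_
  unfold H1
  ring

theorem Lam_back_eq {a b c : ℝ} (ha : 0 < a) (hb : 0 < b) (hc : c ^ 2 < a * b) :
    -Lam b a (-c) = ∫ θ in (0 : ℝ)..π, ff a b θ / Vth a b c θ * dens a b c 1 θ := by
  rw [← bridge ha hb hc (by norm_num), ← Lam_back ha hb hc]
  refine intervalIntegral.integral_congr fun θ _ => ?_
  ring

end TCNB

end

end Pool.Agent.SLE
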