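import Mathlib

/-!
# MP_c17912_pr, project TC: rearrangement of a double integral
-/

set_option autoImplicit false

open MeasureTheory Filter Function
open scoped Topology Real

namespace Pool.Agent.SLE

noncomputable section

namespace TCNB

/-- Fubini's theorem for continuous functions on a rectangle. -/
theorem swap {F : ℝ → ℝ → ℝ} (hF : Continuous (uncurry F)) {A B : ℝ} (hA : 0 ≤ A) (hB : 0 ≤ B) :
    ∫ x in (0 : ℝ)..A, ∫ y in (0 : ℝ)..B, F x y = ∫ y in (0 : ℝ)..B, ∫ x in (0 : ℝ)..A, F x y := by
  simp_rw [intervalIntegral.integral_of_le hA, intervalIntegral.integral_of_le hB]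
  refine integral_integral_swap ?_
  rw [Measure.prod_restrict]
  have h := hF.continuousOn.integrableOn_compact (μ := volume.prod volume)
    ((isCompact_Icc (a := (0 : ℝ)) (b := A)).prod (isCompact_Icc (a := (0 : ℝ)) (b := B)))
  exact h.mono_set (Set.prod_mono Set.Ioc_subset_Icc_self Set.Ioc_subset_Icc_self)

/-- Continuity of an integral over a period in a parameter. -/
theorem cont_param {F : ℝ → ℝ → ℝ} (hF : Continuous (uncurry F)) (a b : ℝ) :
    Continuous fun x => ∫ y in a..b, F x y :=
  intervalIntegral.continuous_parametric_intervalIntegral_of_continuous' hF a b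

theorem conv {f P : ℝ → ℝ} {D : ℝ} (hf : Continuous f) (hP : Continuous P)
    (hfp : ∀ y, f (y + 2 * π) = f y) (hPp : ∀ y, P (y + 2 * π) = P y + D)
    (hK : ∀ r, 0 < r → r < 2 * π →
      0 < ∫ y in (0 : ℝ)..(2 * π), (f (y + r) - f y) * Real.exp (-(P (y + r) - P y))) :
    ∫ y in (0 : ℝ)..(2 * π), f y * (Real.exp (P y) * ∫ t in y..(y + 2 * π), Real.exp (-P t)) <
      Real.exp (-D) * ∫ y in (0 : ℝ)..(2 * π), f y * (Real.exp (-P y) *
        ∫ t in y..(y + 2 * π), Real.exp (P t)) := by
  have hpi : (0 : ℝ) < 2 * π := by positivity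
  -- the first integral
  have e1 : ∫ y in (0 : ℝ)..(2 * π), f y * (Real.exp (P y) *
      ∫ t in y..(y + 2 * π), Real.exp (-P t)) =
      ∫ r in (0 : ℝ)..(2 * π), ∫ y in (0 : ℝ)..(2 * π), f y * Real.exp (-(P (y + r) - P y)) := by
    rw [swap (F := fun r y => f y * Real.exp (-(P (y + r) - P y))) (by
      unfold uncurry
      fun_prop) hpi.le hpi.le]
    refine intervalIntegral.integral_congr fun y _ => ?_
    rw [intervalIntegral.integral_const_mul]
    congr 1
    rw [← intervalIntegral.integral_const_mul]
    have h1 := intervalIntegral.integral_comp_add_left (a := 0) (b := 2 * π)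
      (fun t => Real.exp (P y) * Real.exp (-P t)) y
    rw [add_zero] at h1
    rw [← h1]
    refine intervalIntegral.integral_congr fun r _ => ?_
    rw [← Real.exp_add]
    congr 1
    ring
  -- the second integral
  have e2 : Real.exp (-D) * ∫ y in (0 : ℝ)..(2 * π), f y * (Real.exp (-P y) *
      ∫ t in y..(y + 2 * π), Real.exp (P t)) =
      ∫ r in (0 : ℝ)..(2 * π), ∫ y in (0 : ℝ)..(2 * π),
        f (y + r) * Real.exp (-(P (y + r) - P y)) := by
    have h1 : ∀ y, Real.exp (-D) * (f y * (Real.exp (-P y) *
        ∫ t in y..(y + 2 * π), Real.exp (P t))) =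
        ∫ r in (0 : ℝ)..(2 * π), f y * Real.exp (P (y - r) - P y) := by
      intro y
      rw [intervalIntegral.integral_const_mul, mul_left_comm]
      congr 1
      have h2 := intervalIntegral.integral_comp_sub_left (a := 0) (b := 2 * π)
        (fun t => Real.exp (P t)) (y + 2 * π)
      rw [sub_zero, add_sub_cancel_right] at h2
      rw [← h2, ← mul_assoc, ← intervalIntegral.integral_const_mul]
      refine intervalIntegral.integral_congr fun r _ => ?_
      have h3 : P (y + 2 * π - r) = P (y - r) + D := by
        rw [← hPp]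
        congr 1
        ring
      rw [h3, ← Real.exp_add, ← Real.exp_add]
      congr 1
      ring
    rw [← intervalIntegral.integral_const_mul]
    simp_rw [h1]
    rw [swap (F := fun y r => f y * Real.exp (P (y - r) - P y)) (by
      unfold uncurry
      fun_prop) hpi.le hpi.le]
    refine intervalIntegral.integral_congr fun r _ => ?_
    have hper : Function.Periodic (fun y => f y * Real.exp (P (y - r) - P y)) (2 * π) := by
      intro y
      have h3 : P (y + 2 * π - r) = P (y - r) + D := by
        rw [← hPp]
        congr 1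
        ring
      simp only
      rw [hfp, hPp, h3]
      congr 2
      ring
    have h4 := hper.intervalIntegral_add_eq 0 r
    have h5 := intervalIntegral.integral_comp_add_right (a := 0) (b := 2 * π)
      (fun y => f y * Real.exp (P (y - r) - P y)) r
    rw [zero_add] at h4
    rw [h4, add_comm r (2 * π)]
    rw [zero_add] at h5
    rw [← h5]
    refine intervalIntegral.integral_congr fun y _ => ?_
    rw [add_sub_cancel_right]
    congr 2
    ring
  have c1 : Continuous fun r => ∫ y in (0 : ℝ)..(2 * π), f (y + r) *
      Real.exp (-(P (y + r) - P y)) :=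
    cont_param (F := fun r y => f (y + r) * Real.exp (-(P (y + r) - P y))) (by
      unfold uncurry
      fun_prop) _ _
  have c2 : Continuous fun r => ∫ y in (0 : ℝ)..(2 * π), f y *
      Real.exp (-(P (y + r) - P y)) :=
    cont_param (F := fun r y => f y * Real.exp (-(P (y + r) - P y))) (by
      unfold uncurry
      fun_prop) _ _
  rw [e1, e2, ← sub_pos, ← intervalIntegral.integral_sub (c1.intervalIntegrable _ _)
    (c2.intervalIntegrable _ _)]
  refine intervalIntegral.intervalIntegral_pos_of_pos_on ((c1.sub c2).intervalIntegrable _ _)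
    (fun r hr => ?_) hpi
  rw [← intervalIntegral.integral_sub]
  · have h6 := hK r hr.1 hr.2
    simp_rw [sub_mul] at h6
    exact h6
  · exact (Continuous.intervalIntegrable (by fun_prop) _ _)
  · exact (Continuous.intervalIntegrable (by fun_prop) _ _)

end TCNB

end

end Pool.Agent.SLE
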