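import Pool.Agent.Lib.MP_c17912_pr_TC.NBM
import Pool.Agent.Lib.MP_c17912_pr_TC.NBC
import Pool.Agent.Lib.MP_c17912_pr_TC.NBB

/-!
# MP_c17912_pr, project TC: the two mean drifts are not both nonpositive

`exp (-D) Lam a b c + Lam b a (-c) > 0` with `D = ∫ 4 sin (2 t) / V t` over `[0, π]`.

Proof. `Lam a b c = ∫ f / V ρ_+`, `Lam b a (-c) = - ∫ f / V ρ_-` (module NBB). In the isotropic
coordinate `y`, `e^(2 i θ) = (v + q) / (1 + conj q v)`, `v = e^(i y)`, `dθ / V = dy / (2 s)`,
`s^2 = a b - c^2`, the sum is, up to a positive factor, the integral over `0 < r < 2 π` of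
`∫ (cos 2 θ(y + r) - cos 2 θ(y)) exp (-(P (y + r) - P y)) dy`, `P' = (2 / s) sin 2 θ`
(module NBC), and this is positive by the area inequality (module NBM).
-/

set_option autoImplicit false

open MeasureTheory Filter
open scoped Topology Real

namespace Pool.Agent.SLE

noncomputable section

namespace TCNB

/-- the square root of the determinant -/
def sd (a b c : ℝ) : ℝ := Real.sqrt (a * b - c ^ 2)

/-- the parameter of the Moebius map -/
def qq (a b c : ℝ) : ℂ :=
  ⟨(a - b) / 2 / ((a + b) / 2 + sd a b c), c / ((a + b) / 2 + sd a b c)⟩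

/-- the angle as a function of the isotropic coordinate -/
def th (a b c y : ℝ) : ℝ := XX (qq a b c) y / 2

variable {a b c : ℝ}

theorem sd_pos (hc : c ^ 2 < a * b) : 0 < sd a b c := Real.sqrt_pos.2 (by linarith)

theorem sd_sq (hc : c ^ 2 < a * b) : sd a b c ^ 2 = a * b - c ^ 2 :=
  Real.sq_sqrt (by linarith)

theorem mm_pos (ha : 0 < a) (hb : 0 < b) (hc : c ^ 2 < a * b) : 0 < (a + b) / 2 + sd a b c := by
  have := sd_pos hc
  linarith

theorem qq_sq (ha : 0 < a) (hb : 0 < b) (hc : c ^ 2 < a * b) :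
    ((a + b) / 2 + sd a b c) * ‖qq a b c‖ ^ 2 = (a + b) / 2 - sd a b c := by
  have hm := mm_pos ha hb hc
  rw [← Complex.normSq_eq_norm_sq, Complex.normSq_apply]
  have h := sd_sq hc
  unfold qq
  simp only
  obtain ⟨m, hmd⟩ : ∃ m, m = (a + b) / 2 + sd a b c := ⟨_, rfl⟩
  rw [← hmd] at hm ⊢
  have key : ((a - b) / 2) ^ 2 + c ^ 2 = ((a + b) / 2 - sd a b c) * m := by
    rw [hmd]
    linear_combination h
  have e : m * ((a - b) / 2 / m * ((a - b) / 2 / m) + c / m * (c / m)) =
      (((a - b) / 2) ^ 2 + c ^ 2) / m := by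
    field_simp
  rw [e, key, mul_div_assoc, div_self hm.ne', mul_one]

theorem qq_lt (ha : 0 < a) (hb : 0 < b) (hc : c ^ 2 < a * b) : ‖qq a b c‖ < 1 := by
  have hm := mm_pos ha hb hc
  have h := qq_sq ha hb hc
  have hs := sd_pos hc
  have h1 : ‖qq a b c‖ ^ 2 < 1 := by
    by_contra hcon
    rw [not_lt] at hcon
    nlinarith
  nlinarith [norm_nonneg (qq a b c)]

theorem V_th (ha : 0 < a) (hb : 0 < b) (hc : c ^ 2 < a * b) (y : ℝ) :
    Vth a b c (th a b c y) =
      sd a b c * ((1 - ‖qq a b c‖ ^ 2) / ‖dn (qq a b c) (ex y)‖ ^ 2) := by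
  have hm := mm_pos ha hb hc
  have hq := qq_lt ha hb hc
  have h := qq_sq ha hb hc
  have hz := XX_exp hq y
  have e0 : 2 * th a b c y = XX (qq a b c) y := by
    unfold th
    ring
  rw [V_eq, e0, ← ex_re, ← ex_im]
  obtain ⟨z, hzd⟩ : ∃ z, z = ex (XX (qq a b c) y) := ⟨_, rfl⟩
  obtain ⟨q, hqd⟩ : ∃ q, q = qq a b c := ⟨_, rfl⟩
  obtain ⟨m, hmd⟩ : ∃ m, m = (a + b) / 2 + sd a b c := ⟨_, rfl⟩
  have hre : q.re * m = (a - b) / 2 := by
    rw [hqd, hmd]
    exact div_mul_cancel₀ _ hm.ne'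
  have him : q.im * m = c := by
    rw [hqd, hmd]
    exact div_mul_cancel₀ _ hm.ne'
  have hn : dn q (ex y) ≠ 0 := by
    rw [hqd]
    exact dn_ne' hq y
  rw [← hqd, ← hmd] at h
  rw [← hqd] at hz hq
  rw [← hmd] at hm
  rw [← hqd] at hzd
  rw [← hqd, ← hzd]
  rw [← hzd] at hz
  have hz1 : z.re ^ 2 + z.im ^ 2 = 1 := by
    have h1 : ‖z‖ ^ 2 = 1 := by rw [hzd, ex_norm]; norm_num
    rw [← Complex.normSq_eq_norm_sq, Complex.normSq_apply] at h1
    linarith
  have hq2 : q.re ^ 2 + q.im ^ 2 = ‖q‖ ^ 2 := by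
    rw [← Complex.normSq_eq_norm_sq, Complex.normSq_apply]
    ring
  have hzq : (z - q) * dn q (ex y) = ex y * (1 - ‖q‖ ^ 2 : ℝ) := by
    have hqq : q * (starRingEnd ℂ) q = (‖q‖ : ℂ) ^ 2 := by
      rw [Complex.mul_conj, Complex.normSq_eq_norm_sq]
      push_cast
      ring
    rw [hz, sub_mul]
    unfold mb
    rw [div_mul_cancel₀ _ hn]
    unfold dn
    push_cast
    linear_combination (-ex y) * hqq
  have hN : ‖z - q‖ ^ 2 * ‖dn q (ex y)‖ ^ 2 = (1 - ‖q‖ ^ 2) ^ 2 := by
    have h1 := congrArg (fun u : ℂ => ‖u‖ ^ 2) hzq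
    simp only [norm_mul, ex_norm, one_mul] at h1
    rw [mul_pow, Complex.norm_real, Real.norm_eq_abs, sq_abs] at h1
    exact h1
  have hN2 : ‖z - q‖ ^ 2 = 1 + ‖q‖ ^ 2 - 2 * (q.re * z.re + q.im * z.im) := by
    rw [← Complex.normSq_eq_norm_sq, Complex.normSq_apply, Complex.sub_re, Complex.sub_im]
    linear_combination hz1 + hq2
  have hw : 0 < ‖dn q (ex y)‖ ^ 2 := by positivity
  have h1q : 0 < 1 - ‖q‖ ^ 2 := by nlinarith [norm_nonneg q]
  have h2s : m * (1 - ‖q‖ ^ 2) = 2 * sd a b c := by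
    rw [mul_sub, h, hmd]
    ring
  have e1 : (1 - ‖q‖ ^ 2) / ‖dn q (ex y)‖ ^ 2 = ‖z - q‖ ^ 2 / (1 - ‖q‖ ^ 2) := by
    rw [div_eq_div_iff hw.ne' h1q.ne', hN]
    ring
  have e2 : sd a b c * (‖z - q‖ ^ 2 / (1 - ‖q‖ ^ 2)) = m / 2 * ‖z - q‖ ^ 2 := by
    rw [mul_div_assoc', div_eq_iff h1q.ne']
    linear_combination (-‖z - q‖ ^ 2 / 2) * h2s
  rw [e1, e2, hN2]
  linear_combination (z.re) * hre + (z.im) * him - (1 / 2) * h - (1 / 2) * hmd

theorem th_add (y : ℝ) : th a b c (y + 2 * π) = th a b c y + π := by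
  unfold th
  rw [XX_add]
  ring

theorem th_hd (ha : 0 < a) (hb : 0 < b) (hc : c ^ 2 < a * b) (y : ℝ) :
    HasDerivAt (th a b c) (Vth a b c (th a b c y) / (2 * sd a b c)) y := by
  have h := (XX_hd (qq_lt ha hb hc) y).div_const 2
  refine h.congr_deriv ?_
  have hs := (sd_pos hc).ne'
  rw [V_th ha hb hc]
  field_simp

theorem th_cont (ha : 0 < a) (hb : 0 < b) (hc : c ^ 2 < a * b) : Continuous (th a b c) :=
  continuous_iff_continuousAt.2 fun y => (th_hd ha hb hc y).continuousAt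

theorem V_cont (a b c : ℝ) : Continuous (Vth a b c) := (TRDNS.V_smooth a b c 0).continuous

/-- the substitution -/
theorem subst (ha : 0 < a) (hb : 0 < b) (hc : c ^ 2 < a * b) {g : ℝ → ℝ} (hg : Continuous g)
    (y : ℝ) : ∫ x in th a b c y..(th a b c y + π), g x / Vth a b c x =
      1 / (2 * sd a b c) * ∫ t in y..(y + 2 * π), g (th a b c t) := by
  have hV := fun x => (Vth_pos ha hb hc x).ne'
  have h := intervalIntegral.integral_comp_mul_deriv (a := y) (b := y + 2 * π)
    (f := th a b c) (f' := fun y => Vth a b c (th a b c y) / (2 * sd a b c))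
    (g := fun x => g x / Vth a b c x) (fun x _ => th_hd ha hb hc x)
    (((V_cont a b c).comp (th_cont ha hb hc)).div_const _).continuousOn
    (hg.div (V_cont a b c) hV)
  rw [th_add] at h
  rw [← h, ← intervalIntegral.integral_const_mul]
  refine intervalIntegral.integral_congr fun t _ => ?_
  have hs := (sd_pos hc).ne'
  have hVt := hV (th a b c t)
  simp only [Function.comp]
  field_simp

/-- the exponent in the isotropic coordinate -/
def PP (a b c y : ℝ) : ℝ := TRDNS.LL a b c (th a b c y)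

theorem PP_hd (ha : 0 < a) (hb : 0 < b) (hc : c ^ 2 < a * b) (y : ℝ) :
    HasDerivAt (PP a b c) (2 * (1 / sd a b c) * Real.sin (XX (qq a b c) y)) y := by
  have h := (TRDNS.LL_deriv ha hb hc (th a b c y)).comp y (th_hd ha hb hc y)
  refine h.congr_deriv ?_
  have hs := (sd_pos hc).ne'
  have hV := (Vth_pos ha hb hc (th a b c y)).ne'
  have e0 : XX (qq a b c) y = 2 * th a b c y := by
    unfold th
    ring
  rw [e0]
  unfold TRDNS.ff
  field_simp
  ring

theorem LL_cont (ha : 0 < a) (hb : 0 < b) (hc : c ^ 2 < a * b) : Continuous (TRDNS.LL a b c) :=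
  (TRDNS.LL_smooth ha hb hc 0).continuous

theorem ff_cont (a b : ℝ) : Continuous (ff a b) := by
  unfold ff
  fun_prop

/-- the mean drift in the isotropic coordinate -/
theorem int_eq (ha : 0 < a) (hb : 0 < b) (hc : c ^ 2 < a * b) (σ : ℝ) :
    4 * sd a b c ^ 2 * ∫ θ in (0 : ℝ)..π, ff a b θ / Vth a b c θ * dens a b c σ θ =
      ∫ y in (0 : ℝ)..(2 * π), ff a b (th a b c y) * (Real.exp (σ * PP a b c y) *
        ∫ t in y..(y + 2 * π), Real.exp (-(σ * PP a b c t))) := by
  obtain ⟨hsm, hp, -, -⟩ := dens_props ha hb hc σ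
  have hdc : Continuous (dens a b c σ) := (hsm 0).continuous
  have hs := (sd_pos hc).ne'
  have hper : Function.Periodic (fun θ => ff a b θ * dens a b c σ θ / Vth a b c θ) π := by
    intro θ
    simp only
    rw [hp, TRDNS.V_per]
    congr 2
    unfold ff
    rw [mul_add, Real.cos_add_two_pi]
  have h1 := hper.intervalIntegral_add_eq 0 (th a b c 0)
  have h2 := subst ha hb hc ((ff_cont a b).mul hdc) 0
  rw [zero_add] at h1
  have h3 : ∫ θ in (0 : ℝ)..π, ff a b θ / Vth a b c θ * dens a b c σ θ =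
      ∫ θ in (0 : ℝ)..π, ff a b θ * dens a b c σ θ / Vth a b c θ := by
    refine intervalIntegral.integral_congr fun θ _ => ?_
    rw [div_mul_eq_mul_div]
  rw [h3, h1]
  simp only [Pi.mul_apply] at h2
  rw [h2, zero_add, ← mul_assoc, ← intervalIntegral.integral_const_mul]
  refine intervalIntegral.integral_congr fun y _ => ?_
  have h4 : dens a b c σ (th a b c y) = Real.exp (σ * PP a b c y) *
      (1 / (2 * sd a b c) * ∫ t in y..(y + 2 * π), Real.exp (-(σ * PP a b c t))) := by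
    rw [TRDNS.dens_eq ha hb hc]
    congr 1
    have hc2 : Continuous fun x => Real.exp (-(σ * TRDNS.LL a b c x)) := by
      have := LL_cont ha hb hc
      fun_prop
    exact subst ha hb hc hc2 y
  rw [h4]
  field_simp
  ring

/-- **Theorem.** The two mean drifts are not both nonpositive. -/
theorem sum_pos (ha : 0 < a) (hb : 0 < b) (hc : c ^ 2 < a * b) :
    0 < Real.exp (-TRDNS.LL a b c π) * Lam a b c + Lam b a (-c) := by
  have hs := sd_pos hc
  have hq := qq_lt ha hb hc
  have hPc : Continuous (PP a b c) := (LL_cont ha hb hc).comp (th_cont ha hb hc)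
  have hfc : Continuous fun y => ff a b (th a b c y) := (ff_cont a b).comp (th_cont ha hb hc)
  have h := conv (f := fun y => ff a b (th a b c y)) (P := PP a b c) (D := TRDNS.LL a b c π)
    hfc hPc (fun y => by
      rw [th_add]
      unfold ff
      rw [mul_add, Real.cos_add_two_pi])
    (fun y => by
      unfold PP
      rw [th_add, TRDNS.LL_add ha hb hc])
    (fun r h0 h1 => by
      have h2 := K_pos hq (one_div_pos.2 hs) (PP_hd ha hb hc) h0 h1
      have h3 := mul_pos (add_pos ha hb) h2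
      rw [← intervalIntegral.integral_const_mul] at h3
      refine h3.trans_eq (intervalIntegral.integral_congr fun y _ => ?_)
      have e0 : ∀ y, XX (qq a b c) y = 2 * th a b c y := fun y => by
        unfold th
        ring
      simp only [e0]
      unfold ff
      ring)
  have i1 := int_eq ha hb hc (-1)
  have i2 := int_eq ha hb hc 1
  simp only [neg_mul, one_mul, neg_neg] at i1 i2
  rw [← i1, ← i2, ← Lam_eq ha hb hc, ← Lam_back_eq ha hb hc] at h
  have h4 : 0 < 4 * sd a b c ^ 2 := by positivity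
  have h5 : 0 < (4 * sd a b c ^ 2) * (Real.exp (-TRDNS.LL a b c π) * Lam a b c + Lam b a (-c)) := by
    linarith
  exact (mul_pos_iff_of_pos_left h4).1 h5

end TCNB

/-- TC-NB. **The two mean drifts are not both nonpositive.** -/
theorem Lam_pos_or {a b c : ℝ} (ha : 0 < a) (hb : 0 < b) (hc : c ^ 2 < a * b) :
    0 < Lam a b c ∨ 0 < Lam b a (-c) := by
  by_contra hcon
  push Not at hcon
  have h := TCNB.sum_pos ha hb hc
  have h1 := mul_nonpos_of_nonneg_of_nonpos (Real.exp_pos (-TRDNS.LL a b c π)).le hcon.1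
  linarith [hcon.2]

end

end Pool.Agent.SLE
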