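import Pool.Agent.Lib.MP_c17912_pr_TC.RND
import Pool.Agent.Lib.MP_c17912_pr_TC.ROD

/-!
# MP_c17912_pr, project TC, rank one: the two drifts are not both nonpositive
-/

set_option autoImplicit false

open MeasureTheory Filter Complex
open scoped Topology Real

namespace Pool.Agent.SLE

noncomputable section

namespace TCRNE

open TCRN TCRO TCROD

/-- The circle in the coordinate of the line. -/
def XX (a b c y : ℝ) : ℝ := ph0 a c + XX0 (a + b) y

/-- The exponent. -/
def LE (a b c : ℝ) : ℂ :=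
  ⟨4 / (a + b) * Real.cos (2 * ph0 a c), 4 / (a + b) * Real.sin (2 * ph0 a c)⟩

theorem cos_two {a b c : ℝ} (ha : 0 < a) (hc : c ^ 2 = a * b) :
    (a + b) * Real.cos (2 * ph0 a c) = a - b := by
  have h1 := cos_ph ha hc
  rw [Real.cos_two_mul]
  linear_combination 2 * h1

theorem XX_deriv {a b c : ℝ} (ha : 0 < a) (hc : c ^ 2 = a * b) (y : ℝ) :
    HasDerivAt (XX a b c) (Vth a b c (XX a b c y)) y := by
  have h1 := (XX0_deriv (a + b) y).const_add (ph0 a c)
  refine h1.congr_deriv ?_
  rw [V_eq ha hc]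
  unfold XX
  rw [add_sub_cancel_left]

theorem V_XX {a b c : ℝ} (ha : 0 < a) (hc : c ^ 2 = a * b) (y : ℝ) :
    Vth a b c (XX a b c y) = (a + b) / (1 + ((a + b) * y) ^ 2) := by
  rw [V_eq ha hc]
  unfold XX
  rw [add_sub_cancel_left, sin_XX0]
  ring

theorem cos_XX (a b c y : ℝ) : Real.cos (2 * XX a b c y) =
    -((Real.cos (2 * ph0 a c) * (1 - ((a + b) * y) ^ 2) -
      Real.sin (2 * ph0 a c) * (2 * ((a + b) * y))) / (1 + ((a + b) * y) ^ 2)) := by
  obtain ⟨u, hu⟩ : ∃ u, u = (a + b) * y := ⟨_, rfl⟩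
  obtain ⟨α, hα⟩ : ∃ α, α = Real.arctan u := ⟨_, rfl⟩
  have h1 : 2 * XX a b c y = 2 * ph0 a c + 2 * α + π := by
    unfold XX XX0
    rw [hα, hu]
    ring
  have h0 : 0 < 1 + u ^ 2 := by positivity
  have hs : Real.sqrt (1 + u ^ 2) ^ 2 = 1 + u ^ 2 := Real.sq_sqrt h0.le
  have h2 : Real.cos (2 * α) = (1 - u ^ 2) / (1 + u ^ 2) := by
    rw [Real.cos_two_mul, hα, Real.cos_arctan, div_pow, hs]
    field_simp
    ring
  have h3 : Real.sin (2 * α) = 2 * u / (1 + u ^ 2) := by
    rw [Real.sin_two_mul, hα, Real.cos_arctan, Real.sin_arctan]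
    have h4 : Real.sqrt (1 + u ^ 2) ≠ 0 := by
      intro h
      rw [h] at hs
      simp at hs
      linarith
    field_simp
    rw [hs]
  rw [h1, Real.cos_add_pi, Real.cos_add, h2, h3, ← hu]
  ring

theorem sin_XX (a b c y : ℝ) : Real.sin (2 * XX a b c y) =
    -((Real.sin (2 * ph0 a c) * (1 - ((a + b) * y) ^ 2) +
      Real.cos (2 * ph0 a c) * (2 * ((a + b) * y))) / (1 + ((a + b) * y) ^ 2)) := by
  obtain ⟨u, hu⟩ : ∃ u, u = (a + b) * y := ⟨_, rfl⟩
  obtain ⟨α, hα⟩ : ∃ α, α = Real.arctan u := ⟨_, rfl⟩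
  have h1 : 2 * XX a b c y = 2 * ph0 a c + 2 * α + π := by
    unfold XX XX0
    rw [hα, hu]
    ring
  have h0 : 0 < 1 + u ^ 2 := by positivity
  have hs : Real.sqrt (1 + u ^ 2) ^ 2 = 1 + u ^ 2 := Real.sq_sqrt h0.le
  have h2 : Real.cos (2 * α) = (1 - u ^ 2) / (1 + u ^ 2) := by
    rw [Real.cos_two_mul, hα, Real.cos_arctan, div_pow, hs]
    field_simp
    ring
  have h3 : Real.sin (2 * α) = 2 * u / (1 + u ^ 2) := by
    rw [Real.sin_two_mul, hα, Real.cos_arctan, Real.sin_arctan]
    have h4 : Real.sqrt (1 + u ^ 2) ≠ 0 := by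
      intro h
      rw [h] at hs
      simp at hs
      linarith
    field_simp
    rw [hs]
  rw [h1, Real.sin_add_pi, Real.sin_add, h2, h3, ← hu]
  ring

theorem LE_div {a b c : ℝ} (hab : 0 < a + b) (y : ℝ) :
    LE a b c / ww (1 / (a + b)) y =
      ⟨4 * (Real.cos (2 * ph0 a c) * ((a + b) * y) + Real.sin (2 * ph0 a c)) /
        (1 + ((a + b) * y) ^ 2),
      4 * (Real.sin (2 * ph0 a c) * ((a + b) * y) - Real.cos (2 * ph0 a c)) /
        (1 + ((a + b) * y) ^ 2)⟩ := by
  have hw := ww_ne (one_div_pos.2 hab) y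
  rw [div_eq_iff hw]
  have h0 : 0 < 1 + ((a + b) * y) ^ 2 := by positivity
  apply Complex.ext
  · rw [Complex.mul_re, ww_re, ww_im]
    unfold LE
    change 4 / (a + b) * Real.cos (2 * ph0 a c) = _
    field_simp
    ring
  · rw [Complex.mul_im, ww_re, ww_im]
    unfold LE
    change 4 / (a + b) * Real.sin (2 * ph0 a c) = _
    field_simp
    ring

/-- The numerator of the integrand. -/
theorem pp_eq {a b c : ℝ} (ha : 0 < a) (hb : 0 < b) (hc : c ^ 2 = a * b) (y : ℝ) :
    (a + b) / 2 * pp (LE a b c) (1 / (a + b)) y =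
      (a + b) * Real.cos (2 * XX a b c y) - (a - b) := by
  have hab : 0 < a + b := by linarith
  unfold pp
  rw [LE_div hab, cos_XX, ← cos_two ha hc]
  have h0 : 0 < 1 + ((a + b) * y) ^ 2 := by positivity
  change (a + b) / 2 * (4 * (Real.sin (2 * ph0 a c) * ((a + b) * y) - Real.cos (2 * ph0 a c)) /
        (1 + ((a + b) * y) ^ 2)) = _
  field_simp
  ring

theorem rr_eq {a b c : ℝ} (ha : 0 < a) (hb : 0 < b) (y : ℝ) :
    4 * Real.sin (2 * ph0 a c) - 2 * TCRN.rr (LE a b c) (1 / (a + b)) y =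
      4 * Real.sin (2 * XX a b c y) := by
  have hab : 0 < a + b := by linarith
  unfold TCRN.rr
  rw [LE_div hab, sin_XX]
  have h0 : 0 < 1 + ((a + b) * y) ^ 2 := by positivity
  change 4 * Real.sin (2 * ph0 a c) - 2 * (4 * (Real.cos (2 * ph0 a c) * ((a + b) * y) +
    Real.sin (2 * ph0 a c)) / (1 + ((a + b) * y) ^ 2)) = _
  field_simp
  ring

/-- The derivative of `V`. -/
def V1 (a b c x : ℝ) : ℝ := (a - b) * Real.sin (2 * x) - 2 * c * Real.cos (2 * x)

/-- The second derivative of `V`. -/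
def V2 (a b c x : ℝ) : ℝ := 2 * ((a - b) * Real.cos (2 * x) + 2 * c * Real.sin (2 * x))

theorem V1_deriv (a b c x : ℝ) : HasDerivAt (V1 a b c) (V2 a b c x) x := by
  have h0 : HasDerivAt (fun x : ℝ => 2 * x) 2 x := by
    simpa using (hasDerivAt_id x).const_mul (2 : ℝ)
  have h1 := (h0.sin.const_mul (a - b)).sub (h0.cos.const_mul (2 * c))
  refine h1.congr_deriv ?_
  unfold V2
  ring

theorem V1_per (a b c : ℝ) : Function.Periodic (V1 a b c) π := by
  intro x
  unfold V1
  rw [show 2 * (x + π) = 2 * x + 2 * π by ring, Real.sin_add_two_pi, Real.cos_add_two_pi]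

theorem lim_XX {a b c : ℝ} (hab : 0 < a + b) {h : ℝ → ℝ} (hc : Continuous h) :
    Tendsto (fun N => h (XX a b c N)) atTop (𝓝 (h (ph0 a c + π))) ∧
      Tendsto (fun N => h (XX a b c (-N))) atTop (𝓝 (h (ph0 a c))) := by
  constructor
  · have h1 : Tendsto (XX0 (a + b)) atTop (𝓝 (π / 2 + π / 2)) := by
      refine Tendsto.add_const (π / 2) ?_
      exact (tendsto_nhds_of_tendsto_nhdsWithin Real.tendsto_arctan_atTop).comp
        (tendsto_id.const_mul_atTop hab)
    rw [add_halves] at h1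
    exact (hc.tendsto _).comp (h1.const_add (ph0 a c))
  · have h1 : Tendsto (XX0 (a + b)) atBot (𝓝 (-(π / 2) + π / 2)) := by
      refine Tendsto.add_const (π / 2) ?_
      exact (tendsto_nhds_of_tendsto_nhdsWithin Real.tendsto_arctan_atBot).comp
        (tendsto_id.const_mul_atBot hab)
    rw [neg_add_cancel] at h1
    have h2 := (h1.comp tendsto_neg_atTop_atBot).const_add (ph0 a c)
    rw [add_zero] at h2
    exact (hc.tendsto _).comp h2

/-- The limit of the integrals over windows. -/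
theorem lim_gen {a b c e : ℝ} (ha : 0 < a) (hb : 0 < b) (hc : c ^ 2 = a * b) {u Q : ℝ → ℝ}
    (hu : ∀ n : ℕ, ContDiff ℝ n u) (hup : Function.Periodic u π) (hQ : Continuous Q)
    (hQp : Function.Periodic Q π)
    (hE : ∀ x, Vth a b c x ≠ 0 → Q x + (V2 a b c x * u x + V1 a b c x * deriv u x) / 4 -
      e / 2 * (V1 a b c x / Vth a b c x) =
        ((a + b) * Real.cos (2 * x) - (a - b)) / Vth a b c x * u x) :
    Tendsto (fun N => (a + b) / 2 * ∫ y in (-N)..N,
      pp (LE a b c) (1 / (a + b)) y * u (XX a b c y)) atTop (𝓝 (∫ x in (0 : ℝ)..π, Q x)) := by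
  have hab : 0 < a + b := by linarith
  obtain ⟨F, hF⟩ : ∃ F : ℝ → ℝ, F = fun x => ∫ s in (0 : ℝ)..x, Q s := ⟨_, rfl⟩
  have hFd : ∀ x, HasDerivAt F (Q x) x := fun x => by
    rw [hF]
    exact intervalIntegral.integral_hasDerivAt_right (hQ.intervalIntegrable _ _)
      hQ.aestronglyMeasurable.stronglyMeasurableAtFilter hQ.continuousAt
  have hFc : Continuous F := continuous_iff_continuousAt.2 fun x => (hFd x).continuousAt
  have hud : ∀ x, HasDerivAt u (deriv u x) x := fun x => TRSGN.hd hu x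
  have huc : Continuous u := (hu 0).continuous
  have hV0 : ∀ y, 0 < Vth a b c (XX a b c y) := fun y => by
    rw [V_XX ha hc]
    positivity
  have hXc : Continuous (XX a b c) :=
    continuous_iff_continuousAt.2 fun y => (XX_deriv ha hc y).continuousAt
  obtain ⟨Ψ, hΨ⟩ : ∃ Ψ : ℝ → ℝ, Ψ = fun y => F (XX a b c y) +
    V1 a b c (XX a b c y) * u (XX a b c y) / 4 -
      e / 2 * Real.log (Vth a b c (XX a b c y)) := ⟨_, rfl⟩
  have hΨd : ∀ y, HasDerivAt Ψ ((a + b) / 2 * (pp (LE a b c) (1 / (a + b)) y *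
      u (XX a b c y))) y := by
    intro y
    have hX := XX_deriv ha hc y
    have h1 := (hFd (XX a b c y)).comp y hX
    have h2 := ((V1_deriv a b c (XX a b c y)).comp y hX).mul ((hud (XX a b c y)).comp y hX)
    have h3 : HasDerivAt (fun y => Vth a b c (XX a b c y))
        (V1 a b c (XX a b c y) * Vth a b c (XX a b c y)) y :=
      (TRSGN.V_deriv a b c (XX a b c y)).comp y hX
    have h4 := h3.log (hV0 y).ne'
    have h5 := (h1.add (h2.div_const 4)).sub (h4.const_mul (e / 2))
    rw [hΨ]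
    refine h5.congr_deriv ?_
    have h6 := hE (XX a b c y) (hV0 y).ne'
    have h7 := pp_eq ha hb hc y
    have hV := (hV0 y).ne'
    obtain ⟨V, hVe⟩ : ∃ V, V = Vth a b c (XX a b c y) := ⟨_, rfl⟩
    rw [← hVe] at h6 hV ⊢
    have h8 : V * (((a + b) * Real.cos (2 * XX a b c y) - (a - b)) / V * u (XX a b c y)) =
        ((a + b) * Real.cos (2 * XX a b c y) - (a - b)) * u (XX a b c y) := by
      field_simp
    have h9 : V * (e / 2 * (V1 a b c (XX a b c y) / V)) =
        e / 2 * (V1 a b c (XX a b c y) * V / V) := by ring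
    simp only [Function.comp]
    linear_combination V * h6 + h8 - u (XX a b c y) * h7 + h9
  have hint : ∀ N, (a + b) / 2 * ∫ y in (-N)..N,
      pp (LE a b c) (1 / (a + b)) y * u (XX a b c y) = Ψ N - Ψ (-N) := by
    intro N
    rw [← intervalIntegral.integral_const_mul]
    refine intervalIntegral.integral_eq_sub_of_hasDerivAt (fun y _ => hΨd y) ?_
    exact (continuous_const.mul ((pp_cont (one_div_pos.2 hab) _).mul
      (huc.comp hXc))).intervalIntegrable _ _
  simp only [hint]
  have hV1c : Continuous (V1 a b c) :=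
    continuous_iff_continuousAt.2 fun x => (V1_deriv a b c x).continuousAt
  have hΨe : ∀ N, Ψ N - Ψ (-N) = (F (XX a b c N) + V1 a b c (XX a b c N) * u (XX a b c N) / 4) -
      (F (XX a b c (-N)) + V1 a b c (XX a b c (-N)) * u (XX a b c (-N)) / 4) := by
    intro N
    rw [hΨ]
    change F (XX a b c N) + V1 a b c (XX a b c N) * u (XX a b c N) / 4 -
      e / 2 * Real.log (Vth a b c (XX a b c N)) - (F (XX a b c (-N)) +
      V1 a b c (XX a b c (-N)) * u (XX a b c (-N)) / 4 -
      e / 2 * Real.log (Vth a b c (XX a b c (-N)))) = _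
    rw [V_XX ha hc, V_XX ha hc]
    have : ((a + b) * -N) ^ 2 = ((a + b) * N) ^ 2 := by ring
    rw [this]
    ring
  simp only [hΨe]
  have hGc : Continuous fun x => F x + V1 a b c x * u x / 4 :=
    hFc.add ((hV1c.mul huc).div_const 4)
  obtain ⟨l1, l2⟩ := lim_XX (a := a) (b := b) (c := c) hab hGc
  have h1 := l1.sub l2
  have h2 : F (ph0 a c + π) + V1 a b c (ph0 a c + π) * u (ph0 a c + π) / 4 -
      (F (ph0 a c) + V1 a b c (ph0 a c) * u (ph0 a c) / 4) = ∫ x in (0 : ℝ)..π, Q x := by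
    rw [V1_per a b c, hup]
    have h3 : F (ph0 a c + π) - F (ph0 a c) = ∫ x in (ph0 a c)..(ph0 a c + π), Q x := by
      rw [hF]
      change (∫ s in (0 : ℝ)..(ph0 a c + π), Q s) - (∫ s in (0 : ℝ)..(ph0 a c), Q s) = _
      rw [intervalIntegral.integral_interval_sub_left (hQ.intervalIntegrable _ _)
        (hQ.intervalIntegrable _ _)]
    have h4 := hQp.intervalIntegral_add_eq 0 (ph0 a c)
    rw [zero_add] at h4
    rw [h4]
    linarith
  rw [h2] at h1
  exact h1

/-- Rank one, positive covariance. -/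
theorem nb_pos {a b c k1 k2 : ℝ} {ρ f : ℝ → ℝ} (ha : 0 < a) (h0 : 0 < c) (hc : c ^ 2 = a * b)
    (rs : ∀ n : ℕ, ContDiff ℝ n ρ) (rp : Function.Periodic ρ π) (rpos : ∀ x, 0 < ρ x)
    (req : ∀ x, Vth a b c x / 2 * deriv ρ x + 2 * Real.sin (2 * x) * ρ x = k1)
    (fs : ∀ n : ℕ, ContDiff ℝ n f) (fp : Function.Periodic f π) (fpos : ∀ x, 0 < f x)
    (feq : ∀ x, Vth a b c x / 2 * deriv f x - 2 * Real.sin (2 * x) * f x = k2) :
    0 < mF a b c ρ ∨ 0 < mB a b c f := by
  have hb := b_pos ha h0.ne' hc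
  have hab : 0 < a + b := by linarith
  have hs := sin_two ha hc
  have hs0 : 0 < Real.sin (2 * ph0 a c) := by
    by_contra hcon
    push Not at hcon
    nlinarith
  have hV := V_ph ha hc
  have hk1 : 0 < k1 := by
    have h := req (ph0 a c)
    rw [hV] at h
    have := rpos (ph0 a c)
    rw [← h]
    simp only [zero_div, zero_mul, zero_add]
    positivity
  have hk2 : k2 < 0 := by
    have h := feq (ph0 a c)
    rw [hV] at h
    have h1 := fpos (ph0 a c)
    have h2 : 0 < 2 * Real.sin (2 * ph0 a c) * f (ph0 a c) := by positivity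
    rw [← h]
    simp only [zero_div, zero_mul, zero_sub]
    linarith
  -- the limits
  have hH1c : Continuous (H1 a b c) := by
    unfold H1
    fun_prop
  have hCvc : Continuous (Cv a b c) := by
    unfold Cv
    fun_prop
  have hH1p : Function.Periodic (H1 a b c) π := by
    intro x
    unfold H1
    rw [show 2 * (x + π) = 2 * x + 2 * π by ring, Real.sin_add_two_pi, Real.cos_add_two_pi]
  have hCvp : Function.Periodic (Cv a b c) π := by
    intro x
    unfold Cv
    rw [show 2 * (x + π) = 2 * x + 2 * π by ring, Real.sin_add_two_pi, Real.cos_add_two_pi]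
  have hVd : ∀ x, Vth a b c x = (a + b) / 2 -
        ((a - b) * Real.cos (2 * x) + 2 * c * Real.sin (2 * x)) / 2 := by
    intro x
    unfold Vth
    rw [Real.sin_two_mul, Real.cos_two_mul']
    have := Real.sin_sq_add_cos_sq x
    linear_combination (a + b) / 2 * this
  have hdf : Continuous (deriv f) := (TRSGN.sm_deriv fs 0).continuous
  have hdfp : Function.Periodic (deriv f) π := by
    intro x
    have h1 : (fun y => f (y + π)) = f := funext fp
    have h2 := deriv_comp_add_const f π x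
    rw [h1] at h2
    exact h2.symm
  have lim1 := lim_gen (e := k1) ha hb hc rs rp (hH1c.mul (rs 0).continuous) (hH1p.mul rp) (by
    intro x hx
    have hk := req x
    have hVx := hVd x
    have hsc := Real.sin_sq_add_cos_sq (2 * x)
    unfold V1 V2
    obtain ⟨V, hVe⟩ : ∃ V, V = Vth a b c x := ⟨_, rfl⟩
    rw [← hVe] at hk hx hVx ⊢
    rw [← hk]
    change H1 a b c x * ρ x + _ - _ = _
    unfold H1
    obtain ⟨s, hse⟩ : ∃ s, s = Real.sin (2 * x) := ⟨_, rfl⟩
    obtain ⟨t, hte⟩ : ∃ t, t = Real.cos (2 * x) := ⟨_, rfl⟩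
    obtain ⟨g, hge⟩ : ∃ g, g = deriv ρ x := ⟨_, rfl⟩
    obtain ⟨F, hFe⟩ : ∃ F, F = ρ x := ⟨_, rfl⟩
    rw [← hse, ← hte] at hVx hsc
    rw [← hse, ← hte, ← hge, ← hFe]
    field_simp
    rw [hVx]
    linear_combination (-16 * (a - b) * F) * hsc)
  have lim2 := lim_gen (e := -k2) ha hb hc fs fp
    ((hH1c.mul (fs 0).continuous).add (hCvc.mul hdf)) ((hH1p.mul fp).add (hCvp.mul hdfp)) (by
    intro x hx
    have hk := feq x
    have hVx := hVd x
    have hsc := Real.sin_sq_add_cos_sq (2 * x)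
    unfold V1 V2
    obtain ⟨V, hVe⟩ : ∃ V, V = Vth a b c x := ⟨_, rfl⟩
    rw [← hVe] at hk hx hVx ⊢
    rw [← hk]
    change H1 a b c x * f x + Cv a b c x * deriv f x + _ - _ = _
    unfold H1 Cv
    obtain ⟨s, hse⟩ : ∃ s, s = Real.sin (2 * x) := ⟨_, rfl⟩
    obtain ⟨t, hte⟩ : ∃ t, t = Real.cos (2 * x) := ⟨_, rfl⟩
    obtain ⟨g, hge⟩ : ∃ g, g = deriv f x := ⟨_, rfl⟩
    obtain ⟨F, hFe⟩ : ∃ F, F = f x := ⟨_, rfl⟩
    rw [← hse, ← hte] at hVx hsc
    rw [← hse, ← hte, ← hge, ← hFe]
    field_simp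
    rw [hVx]
    linear_combination (-16 * (a - b) * F) * hsc)
  have hfX : ∀ {h : ℝ → ℝ}, (∀ n : ℕ, ContDiff ℝ n h) → ∀ y,
      HasDerivAt (fun y => h (XX a b c y)) (deriv h (XX a b c y) * Vth a b c (XX a b c y)) y :=
    fun hh y => (TRSGN.hd hh (XX a b c y)).comp y (XX_deriv ha hc y)
  have hbd : ∀ {h : ℝ → ℝ}, Continuous h → Function.Periodic h π → ∃ M, ∀ x, |h x| ≤ M := by
    intro h hcont hper
    have hK := hper.compact_of_continuous Real.pi_ne_zero hcont
    obtain ⟨M, hM⟩ := hK.isBounded.exists_norm_le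
    exact ⟨M, fun x => hM _ (Set.mem_range_self x)⟩
  obtain ⟨M1, hM1⟩ := hbd (rs 0).continuous rp
  obtain ⟨M2, hM2⟩ := hbd (fs 0).continuous fp
  have hLE : LE a b c ≠ 0 := by
    intro h
    have h1 : 4 / (a + b) * Real.sin (2 * ph0 a c) = 0 := congrArg Complex.im h
    have h2 : 0 < 4 / (a + b) * Real.sin (2 * ph0 a c) := by positivity
    linarith
  obtain ⟨δ, hδ, N0, -, hN⟩ := core (L := LE a b c) (η := 1 / (a + b))
    (γ := 4 * Real.sin (2 * ph0 a c)) (B := |M1| / (2 * k1) + |M2| / (2 * -k2))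
    (P := fun y => ρ (XX a b c y) / (2 * k1)) (D := fun y => f (XX a b c y) / (2 * -k2)) hLE
    (by positivity) (by positivity) (fun y => by
      refine ((hfX rs y).div_const (2 * k1)).congr_deriv ?_
      rw [rr_eq ha hb]
      have h := req (XX a b c y)
      field_simp
      linear_combination 2 * h) (fun y => by
      refine ((hfX fs y).div_const (2 * -k2)).congr_deriv ?_
      rw [rr_eq ha hb]
      have h := feq (XX a b c y)
      have h2 : k2 ≠ 0 := hk2.ne
      field_simp
      linear_combination (-2) * h) (fun y => by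
      rw [abs_div, abs_of_pos (by linarith : 0 < 2 * k1)]
      have h1 : |ρ (XX a b c y)| / (2 * k1) ≤ |M1| / (2 * k1) := by
        have := (hM1 (XX a b c y)).trans (le_abs_self _)
        gcongr
      have h2 : 0 ≤ |M2| / (2 * -k2) := div_nonneg (abs_nonneg _) (by linarith)
      linarith) (fun y => by
      rw [abs_div, abs_of_pos (by linarith : 0 < 2 * -k2)]
      have h0 : 0 < 2 * -k2 := by linarith
      have h1 : |f (XX a b c y)| / (2 * -k2) ≤ |M2| / (2 * -k2) := by
        have := (hM2 (XX a b c y)).trans (le_abs_self _)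
        gcongr
      have h2 : 0 ≤ |M1| / (2 * k1) := by positivity
      linarith)
  have hXc : Continuous (XX a b c) :=
    continuous_iff_continuousAt.2 fun y => (XX_deriv ha hc y).continuousAt
  have hpc := pp_cont (one_div_pos.2 hab) (LE a b c)
  have hsum : ∀ N, ∫ y in (-N)..N, pp (LE a b c) (1 / (a + b)) y *
      (ρ (XX a b c y) / (2 * k1) - f (XX a b c y) / (2 * -k2)) =
      (1 / ((a + b) * k1)) * ((a + b) / 2 * ∫ y in (-N)..N,
        pp (LE a b c) (1 / (a + b)) y * ρ (XX a b c y)) +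
      (1 / ((a + b) * k2)) * ((a + b) / 2 * ∫ y in (-N)..N,
        pp (LE a b c) (1 / (a + b)) y * f (XX a b c y)) := by
    intro N
    rw [← intervalIntegral.integral_const_mul, ← intervalIntegral.integral_const_mul,
      ← intervalIntegral.integral_const_mul, ← intervalIntegral.integral_const_mul,
      ← intervalIntegral.integral_add]
    · apply intervalIntegral.integral_congr
      intro y _
      have h2 : k2 ≠ 0 := hk2.ne
      change pp (LE a b c) (1 / (a + b)) y *
        (ρ (XX a b c y) / (2 * k1) - f (XX a b c y) / (2 * -k2)) = _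
      field_simp
      ring
    · exact (continuous_const.mul (continuous_const.mul (hpc.mul
        ((rs 0).continuous.comp hXc)))).intervalIntegrable _ _
    · exact (continuous_const.mul (continuous_const.mul (hpc.mul
        ((fs 0).continuous.comp hXc)))).intervalIntegrable _ _
  have hlim := (lim1.const_mul (1 / ((a + b) * k1))).add (lim2.const_mul (1 / ((a + b) * k2)))
  have hge : δ ≤ 1 / ((a + b) * k1) * (∫ x in (0 : ℝ)..π, (H1 a b c * ρ) x) +
      1 / ((a + b) * k2) * ∫ x in (0 : ℝ)..π, (H1 a b c * f + Cv a b c * deriv f) x := by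
    refine ge_of_tendsto hlim ?_
    filter_upwards [eventually_ge_atTop N0] with N hNN
    rw [← hsum N]
    exact hN N hNN
  by_contra hcon
  push Not at hcon
  obtain ⟨c1, c2⟩ := hcon
  have e1 : (∫ x in (0 : ℝ)..π, (H1 a b c * ρ) x) = mF a b c ρ := rfl
  have e2 : (∫ x in (0 : ℝ)..π, (H1 a b c * f + Cv a b c * deriv f) x) = -mB a b c f := by
    unfold mB
    rw [neg_neg]
    rfl
  rw [e1, e2] at hge
  have h1 : 1 / ((a + b) * k1) * mF a b c ρ ≤ 0 :=
    mul_nonpos_of_nonneg_of_nonpos (by positivity) c1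
  have h2 : 1 / ((a + b) * k2) * (-mB a b c f) ≤ 0 := by
    refine mul_nonpos_of_nonpos_of_nonneg ?_ (by linarith)
    refine div_nonpos_of_nonneg_of_nonpos zero_le_one ?_
    nlinarith
  linarith

/-- Reflection. -/
theorem refl_int {F : ℝ → ℝ} (hF : Function.Periodic F π) :
    ∫ x in (0 : ℝ)..π, F (-x) = ∫ x in (0 : ℝ)..π, F x := by
  rw [intervalIntegral.integral_comp_neg, neg_zero]
  have h := hF.intervalIntegral_add_eq (-π) 0
  rw [neg_add_cancel, zero_add] at h
  exact h

end TCRNE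

open TCRNE in
/-- RNE. Rank one: the forward and the backward drift are never both nonpositive. -/
theorem not_both_rank_one {a b c k1 k2 : ℝ} {ρ f : ℝ → ℝ} (ha : 0 < a) (h0 : c ≠ 0)
    (hc : c ^ 2 = a * b) (h : AngD a b c ρ f k1 k2) : 0 < mF a b c ρ ∨ 0 < mB a b c f := by
  rcases lt_or_gt_of_ne h0 with hneg | hpos
  · have hVn : ∀ x, Vth a b (-c) x = Vth a b c (-x) := by
      intro x
      unfold Vth
      rw [Real.sin_neg, Real.cos_neg]
      ring
    have hdn : ∀ {g : ℝ → ℝ}, (∀ n : ℕ, ContDiff ℝ n g) → ∀ x,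
        deriv (fun x => g (-x)) x = -deriv g (-x) := fun _ x => deriv_comp_neg _ x
    have hsn : ∀ {g : ℝ → ℝ}, (∀ n : ℕ, ContDiff ℝ n g) → ∀ n : ℕ,
        ContDiff ℝ n (fun x => g (-x)) := fun hg n => (hg n).comp contDiff_neg
    have hpn : ∀ {g : ℝ → ℝ}, Function.Periodic g π → Function.Periodic (fun x => g (-x)) π := by
      intro g hg x
      change g (-(x + π)) = g (-x)
      rw [neg_add, ← sub_eq_add_neg, hg.sub_eq]
    have hmain := nb_pos (a := a) (b := b) (c := -c) (k1 := -k1) (k2 := -k2)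
      (ρ := fun x => ρ (-x)) (f := fun x => f (-x)) ha (by linarith) (by rw [neg_sq]; exact hc)
      (hsn h.rs) (hpn h.rp) (fun x => h.rpos _) (fun x => by
        rw [hdn h.rs, hVn]
        have := h.req (-x)
        rw [mul_neg, Real.sin_neg] at this
        linarith) (hsn h.fs) (hpn h.fp) (fun x => h.fpos _) (fun x => by
        rw [hdn h.fs, hVn]
        have := h.feq (-x)
        rw [mul_neg, Real.sin_neg] at this
        linarith)
    have hH1 : ∀ x, H1 a b (-c) x = H1 a b c (-x) := by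
      intro x
      unfold H1
      rw [show 2 * -x = -(2 * x) by ring, Real.sin_neg, Real.cos_neg]
      ring
    have hCv : ∀ x, Cv a b (-c) x = -Cv a b c (-x) := by
      intro x
      unfold Cv
      rw [show 2 * -x = -(2 * x) by ring, Real.sin_neg, Real.cos_neg]
      ring
    have hH1p : Function.Periodic (H1 a b c) π := by
      intro x
      unfold H1
      rw [show 2 * (x + π) = 2 * x + 2 * π by ring, Real.sin_add_two_pi, Real.cos_add_two_pi]
    have hCvp : Function.Periodic (Cv a b c) π := by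
      intro x
      unfold Cv
      rw [show 2 * (x + π) = 2 * x + 2 * π by ring, Real.sin_add_two_pi, Real.cos_add_two_pi]
    have hdfp : Function.Periodic (deriv f) π := by
      intro x
      have h1 : (fun y => f (y + π)) = f := funext h.fp
      have h2 := deriv_comp_add_const f π x
      rw [h1] at h2
      exact h2.symm
    have e1 : mF a b (-c) (fun x => ρ (-x)) = mF a b c ρ := by
      refine Eq.trans ?_ (refl_int (hH1p.mul h.rp))
      unfold mF
      apply intervalIntegral.integral_congr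
      intro x _
      change H1 a b (-c) x * ρ (-x) = H1 a b c (-x) * ρ (-x)
      rw [hH1]
    have e2 : mB a b (-c) (fun x => f (-x)) = mB a b c f := by
      unfold mB
      congr 1
      refine Eq.trans ?_ (refl_int ((hH1p.mul h.fp).add (hCvp.mul hdfp)))
      apply intervalIntegral.integral_congr
      intro x _
      change H1 a b (-c) x * f (-x) + Cv a b (-c) x * deriv (fun x => f (-x)) x =
        H1 a b c (-x) * f (-x) + Cv a b c (-x) * deriv f (-x)
      rw [hH1, hCv, hdn h.fs]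
      ring
    rw [e1, e2] at hmain
    exact hmain
  · exact nb_pos ha hpos hc h.rs h.rp h.rpos h.req h.fs h.fp h.fpos h.feq

end

end Pool.Agent.SLE
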