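import Pool.Agent.Lib.MP_c17912_pr_TC.ANG

/-!
# MP_c17912_pr, project TC: the backward mean drift of a matrix and the forward mean drift of the
# reflected matrix vanish together
-/

set_option autoImplicit false

open MeasureTheory ProbabilityTheory Filter
open scoped NNReal ENNReal Topology Real

namespace Pool.Agent.SLE

noncomputable section

namespace TCSWP

/-- The stationary equation: the generator integrates to zero. -/
theorem gen_int {a b c k : ℝ} {ρ ψ : ℝ → ℝ} (hρ : ∀ n : ℕ, ContDiff ℝ n ρ)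
    (hρp : Function.Periodic ρ π) (hψ : ∀ n : ℕ, ContDiff ℝ n ψ) (hψp : Function.Periodic ψ π)
    (hk : ∀ x, Vth a b c x / 2 * deriv ρ x + 2 * Real.sin (2 * x) * ρ x = k) :
    ∫ x in (0 : ℝ)..π, (Vth a b c x * deriv (deriv ψ) x / 2 + Bth a b c x * deriv ψ x) * ρ x =
      0 := by
  have hψ' := TRSGN.sm_deriv hψ
  have hψ'' := TRSGN.sm_deriv hψ'
  have e1 : ∀ x, deriv (fun x => Vth a b c x * deriv ψ x * ρ x / 2 - k * ψ x) x =
      (Vth a b c x * deriv (deriv ψ) x / 2 + Bth a b c x * deriv ψ x) * ρ x := by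
    intro x
    have h1 := ((((TRSGN.V_deriv a b c x).mul (TRSGN.hd hψ' x)).mul
      (TRSGN.hd hρ x)).div_const 2).sub ((TRSGN.hd hψ x).const_mul k)
    have h2 : deriv (fun x => Vth a b c x * deriv ψ x * ρ x / 2 - k * ψ x) x = _ := h1.deriv
    rw [h2]
    change ((((a - b) * Real.sin (2 * x) - 2 * c * Real.cos (2 * x)) * deriv ψ x +
      Vth a b c x * deriv (deriv ψ) x) * ρ x + (Vth a b c x * deriv ψ x) * deriv ρ x) / 2 -
      k * deriv ψ x = _
    have hB : Bth a b c x = -2 * Real.sin (2 * x) +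
        ((a - b) * Real.sin (2 * x) - 2 * c * Real.cos (2 * x)) / 2 := rfl
    rw [hB]
    linear_combination deriv ψ x * hk x
  have e2 := TRSGN.int_deriv (f := fun x => Vth a b c x * deriv ψ x * ρ x / 2 - k * ψ x)
    (((((TRSGN.V_smooth a b c 1).mul (hψ' 1)).mul (hρ 1)).div_const 2).sub
      (contDiff_const.mul (hψ 1))) (by
      intro x
      simp only
      rw [TRSGN.V_per a b c x, hρp x, hψp x, EXaux.per_deriv hψp x])
  simp only [e1] at e2
  exact e2

/-- The backward mean drift as a forward one. -/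
theorem mB_eq {a b c : ℝ} {f : ℝ → ℝ} (fs : ∀ n : ℕ, ContDiff ℝ n f)
    (fp : Function.Periodic f π) :
    mB a b c f = ∫ x in (0 : ℝ)..π, H1 b a (-c) x * f (x + π / 2) := by
  have hfc : Continuous f := (fs 0).continuous
  have hf'c : Continuous (deriv f) := (TRSGN.sm_deriv fs 0).continuous
  have hHc : Continuous (H1 a b c) := (TRSGN.H_smooth a b c 0).continuous
  have hCc : Continuous (Cv a b c) := (TRSGN.C_smooth a b c 0).continuous
  have hk := TRSGN.int_deriv (f := fun x => Cv a b c x * f x)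
    ((TRSGN.C_smooth a b c 1).mul (fs 1)) (by
    intro x
    change Cv a b c (x + π) * f (x + π) = Cv a b c x * f x
    rw [TRSGN.C_per a b c x, fp x])
  have hk' : ∀ x, deriv (fun x => Cv a b c x * f x) x =
      -((a - b) * Real.cos (2 * x) + 2 * c * Real.sin (2 * x)) * f x +
        Cv a b c x * deriv f x := fun x => ((TRSGN.C_deriv a b c x).mul (TRSGN.hd fs x)).deriv
  simp only [hk'] at hk
  have i0 := TRSGN.int_sub (f := fun x => H1 a b c x * f x + Cv a b c x * deriv f x)
    (g := fun x => -((a - b) * Real.cos (2 * x) + 2 * c * Real.sin (2 * x)) * f x +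
        Cv a b c x * deriv f x) ((hHc.mul hfc).add (hCc.mul hf'c)) (by fun_prop)
  rw [hk, sub_zero] at i0
  have i1 : ∫ x in (0 : ℝ)..π, (H1 a b c x * f x + Cv a b c x * deriv f x) =
      ∫ x in (0 : ℝ)..π, (2 * Real.cos (2 * x) +
        ((a - b) * Real.cos (2 * x) + 2 * c * Real.sin (2 * x)) / 2) * f x := by
    rw [← i0]
    refine intervalIntegral.integral_congr fun x _ => ?_
    have hH : H1 a b c x = 2 * Real.cos (2 * x) -
      ((a - b) * Real.cos (2 * x) + 2 * c * Real.sin (2 * x)) / 2 := rfl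
    simp only [hH]
    ring
  have hper : Function.Periodic (fun x => (2 * Real.cos (2 * x) +
      ((a - b) * Real.cos (2 * x) + 2 * c * Real.sin (2 * x)) / 2) * f x) π := by
    intro x
    change (2 * Real.cos (2 * (x + π)) + ((a - b) * Real.cos (2 * (x + π)) +
      2 * c * Real.sin (2 * (x + π))) / 2) * f (x + π) = _
    rw [fp x, mul_add, Real.sin_add_two_pi, Real.cos_add_two_pi]
  have h1 := hper.intervalIntegral_add_eq 0 (π / 2)
  rw [zero_add] at h1
  rw [mB, i1, h1, show π / 2 + π = π + π / 2 by ring, ← zero_add (π / 2), ← add_assoc, add_zero,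
    ← intervalIntegral.integral_comp_add_right (fun x => (2 * Real.cos (2 * x) +
      ((a - b) * Real.cos (2 * x) + 2 * c * Real.sin (2 * x)) / 2) * f x) (π / 2),
    ← intervalIntegral.integral_neg, zero_add]
  refine intervalIntegral.integral_congr fun x _ => ?_
  change -((2 * Real.cos (2 * (x + π / 2)) + ((a - b) * Real.cos (2 * (x + π / 2)) +
    2 * c * Real.sin (2 * (x + π / 2))) / 2) * f (x + π / 2)) = H1 b a (-c) x * f (x + π / 2)
  rw [TRDNS.sin_shift, TRDNS.cos_shift]
  unfold H1
  ring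

end TCSWP

/-- TC-SWP. The backward mean drift of `(a, b, c)` and the forward mean drift of `(b, a, -c)`
vanish together. -/
theorem swap_mean {a b c k1 k2 k1' k2' : ℝ} {ρ f ρ' f' : ℝ → ℝ} (h : AngD a b c ρ f k1 k2)
    (h' : AngD b a (-c) ρ' f' k1' k2') : mB a b c f = 0 ↔ mF b a (-c) ρ' = 0 := by
  obtain ⟨lam, J, ψ, hJ, hlam, hψ, hψp, hop⟩ := TCANG.first h'
  obtain ⟨r, hr⟩ : ∃ r : ℝ → ℝ, r = fun x => f (x + π / 2) := ⟨_, rfl⟩
  have rs : ∀ n : ℕ, ContDiff ℝ n r := by
    intro n
    rw [hr]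
    exact (h.fs n).comp (contDiff_id.add contDiff_const)
  have rp : Function.Periodic r π := by
    intro x
    simp only [hr]
    rw [show x + π + π / 2 = x + π / 2 + π by ring, h.fp]
  have rpos : ∀ x, 0 < r x := fun x => by
    simp only [hr]
    exact h.fpos _
  have rd : ∀ x, deriv r x = deriv f (x + π / 2) := by
    intro x
    rw [hr]
    exact deriv_comp_add_const (f := f) (π / 2) x
  have hk : ∀ x, Vth b a (-c) x / 2 * deriv r x + 2 * Real.sin (2 * x) * r x = k2 := by
    intro x
    have e := h.feq (x + π / 2)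
    have hV : Vth a b c (x + π / 2) = Vth b a (-c) x := by
      unfold Vth
      rw [Real.sin_add_pi_div_two, Real.cos_add_pi_div_two]
      ring
    rw [hV, TRDNS.sin_shift] at e
    rw [rd x]
    simp only [hr]
    linarith
  have e1 := TCSWP.gen_int rs rp hψ hψp hk
  simp only [hop] at e1
  have hrc : Continuous r := (rs 0).continuous
  have hHc : Continuous (H1 b a (-c)) := (TRSGN.H_smooth b a (-c) 0).continuous
  have e2 : ∀ x, (H1 b a (-c) x - lam) * r x = H1 b a (-c) x * r x - lam * r x := fun x => by ring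
  simp only [e2] at e1
  rw [TRSGN.int_sub (f := fun x => H1 b a (-c) x * r x) (g := fun x => lam * r x) (hHc.mul hrc)
    (continuous_const.mul hrc), intervalIntegral.integral_const_mul] at e1
  have e3 : mB a b c f = ∫ x in (0 : ℝ)..π, H1 b a (-c) x * r x := by
    rw [TCSWP.mB_eq h.fs h.fp, hr]
  have hI : 0 < ∫ x in (0 : ℝ)..π, r x :=
    intervalIntegral.intervalIntegral_pos_of_pos (hrc.intervalIntegrable _ _) rpos Real.pi_pos
  rw [← e3] at e1
  have e4 : mB a b c f = lam * ∫ x in (0 : ℝ)..π, r x := by linarith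
  rw [e4, ← hlam]
  constructor
  · intro h0
    rcases mul_eq_zero.1 h0 with h0 | h0
    · rw [h0, zero_mul]
    · exact absurd h0 hI.ne'
  · intro h0
    rcases mul_eq_zero.1 h0 with h0 | h0
    · rw [h0, zero_mul]
    · exact absurd h0 hJ.ne'

end

end Pool.Agent.SLE
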