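import Pool.Agent.Lib.MP_c17912_pr_TC.FCZ
import Pool.Agent.Lib.MP_c17912_pr_TC.CRF
import Pool.Agent.Lib.MP_c17912_pr_TC.CRE
import Pool.Agent.Lib.MP_c17912_pr_TC.BWFN
import Pool.Agent.Lib.MP_c17912_pr_TC.BWGO
import Pool.Agent.Lib.MP_c17912_pr_TC.BWPS
import Pool.Agent.Lib.MP_c17912_pr_TC.RNE
import Pool.Agent.Lib.MP_c17912_pr_TC.ROD
import Pool.Agent.Lib.MP_c17912_pr_TC.AZB
import Pool.Agent.Lib.MP_c17912_pr_TC.NBZ
import Pool.Agent.Lib.MP_c17912_pr_TC.REB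
import Pool.Agent.Lib.MP_c17912_pr_TC.SWP

/-!
# MP_c17912_pr, project TC: transience for every covariance matrix
-/

set_option autoImplicit false

open MeasureTheory ProbabilityTheory Filter
open scoped NNReal ENNReal Topology Real

namespace Pool.Agent.SLE

noncomputable section

variable {Ω : Type*} [MeasurableSpace Ω] {μ : Measure Ω}

/-- Transience of a forward critical matrix. -/
theorem trans_fwd [IsProbabilityMeasure μ] {a b c K : ℝ} (ha : 0 ≤ a) (hb : 0 ≤ b)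
    (hc : c ^ 2 ≤ a * b) (hC : HasC a b c) {ψ : ℝ → ℝ} (hψ : Ang a b c (H1 a b c) 0 ψ)
    {W : ℝ → Ω → ℂ} (hW : Gau a b c K W μ) : ∀ᵐ ω ∂μ, Transient (fun t => W t ω) := by
  refine transient_of_hasC ha hb hc hW.K_nonneg hC hW fun z hz => ?_
  obtain ⟨A, -, hA, hA'⟩ := alive_ae hW.toDrv hψ hz
  rw [ae_iff]
  refine measure_mono_null (fun ω hω => ?_) hA
  by_contra hcon
  exact hω (hA' ω hcon)

/-- Transience from the angular data of a matrix and of the reflected matrix. -/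
theorem trans_ang [IsProbabilityMeasure μ] {a b c K : ℝ} (ha : 0 < a) (hb : 0 < b)
    (hc : c ^ 2 ≤ a * b) {ρ f ρ' f' : ℝ → ℝ} {k1 k2 k1' k2' : ℝ} (h : AngD a b c ρ f k1 k2)
    (h' : AngD b a (-c) ρ' f' k1' k2') (hn : 0 < mF a b c ρ ∨ 0 < mB a b c f)
    (hn' : 0 < mF b a (-c) ρ' ∨ 0 < mB b a (-c) f') {W : ℝ → Ω → ℂ} (hW : Gau a b c K W μ) :
    ∀ᵐ ω ∂μ, Transient (fun t => W t ω) := by
  have hK := hW.K_nonneg
  have hc' : (-c) ^ 2 ≤ b * a := by
    rw [neg_sq, mul_comm]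
    exact hc
  by_cases h1 : mF a b c ρ = 0
  · have h2 : mB a b c f ≠ 0 := by
      rcases hn with hn | hn
      · exact absurd h1 hn.ne'
      · exact hn.ne'
    obtain ⟨ψ, hψ⟩ := cr_ang h.poiP (by
      have h3 : mF a b c ρ = ∫ x in (0 : ℝ)..π, H1 a b c x * ρ x := rfl
      rw [← h3, h1])
    exact trans_fwd ha.le hb.le hc (hasC_ang ha.le hb.le hc (by positivity) h h1 h2) hψ hW
  by_cases h2 : mB a b c f = 0
  · have h3 : mF b a (-c) ρ' = 0 := (swap_mean h h').1 h2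
    have h4 : mB b a (-c) f' ≠ 0 := by
      rcases hn' with hn | hn
      · exact absurd h3 hn.ne'
      · exact hn.ne'
    have hC : HasC b a (-c) := hasC_ang hb.le ha.le hc' (by positivity) h' h3 h4
    obtain ⟨ψ, hψ, hψp, hop⟩ := area_psi h
    obtain ⟨c2, ⟨q, δ, ψ₃, hq, -, hδ, hψ₃, hψ₃p, hop₃⟩, -⟩ := hC
    have hF : CrF b a (-c) := ⟨c2, ⟨q, δ, ψ₃, hq, hδ, hψ₃, hψ₃p, hop₃⟩, hc', by positivity,
      ρ', h'.poiP, h3⟩
    exact transient_of_goal (goal_bwd ha.le hb.le hK hψ hψp hop hF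
      (fwdP_of_hasC hb.le ha.le hc' hK (hasC_ang hb.le ha.le hc' (by positivity) h' h3 h4))) hW
  · exact transient_of_hasS ha.le hb.le hK (hasS_ang h h1 h2) hW

/-- Transience for every covariance matrix. -/
theorem trans_all {Ω : Type*} [MeasurableSpace Ω] {μ : Measure Ω} [IsProbabilityMeasure μ]
    {a b c : ℝ} (ha : 0 ≤ a) (hb : 0 ≤ b) (hc : c ^ 2 ≤ a * b) {W : ℝ≥0 → Ω → ℂ}
    (hW : PlanarBM a b c W μ) : ∀ᵐ ω ∂μ, Transient (fun t : ℝ => W t.toNNReal ω) := by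
  rcases ha.eq_or_lt with rfl | ha0
  · exact transient_azero hb hc hW
  rcases hb.eq_or_lt with rfl | hb0
  · obtain rfl : c = 0 := by
      have h0 : c ^ 2 ≤ 0 := by simpa using hc
      exact pow_eq_zero_iff (two_ne_zero) |>.1 (le_antisymm h0 (sq_nonneg c))
    by_cases h4 : a = 4
    · subst h4
      refine LN_transient ha le_rfl hc hW fun K B hB =>
        trans_fwd ha le_rfl hc hasC_real (ψ := fun _ => 0) ⟨contDiff_const, fun _ => rfl, ?_⟩ hB
      intro θ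
      simp [H1]
      linarith
    · exact LN_transient ha le_rfl hc hW fun K B hB =>
        transient_of_hasS ha le_rfl hB.K_nonneg (hasS_real ha0 h4) hB
  refine LN_transient ha hb hc hW fun K B hB => ?_
  rcases hc.lt_or_eq with hlt | heq
  · have hlt' : (-c) ^ 2 < b * a := by
      rw [neg_sq, mul_comm]
      exact hlt
    obtain ⟨k1, k2, h⟩ := angD_pd ha0 hb0 hlt
    obtain ⟨k1', k2', h'⟩ := angD_pd hb0 ha0 hlt'
    refine trans_ang ha0 hb0 hc h h' ?_ ?_ hB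
    · rw [mF_pd, mB_pd ha0 hb0 hlt]
      exact Lam_pos_or ha0 hb0 hlt
    · rw [mF_pd, mB_pd hb0 ha0 hlt']
      exact Lam_pos_or hb0 ha0 hlt'
  · have hc0 : c ≠ 0 := by
      rintro rfl
      have : 0 < a * b := by positivity
      rw [← heq] at this
      norm_num at this
    have heq' : (-c) ^ 2 = b * a := by
      rw [neg_sq, mul_comm]
      exact heq
    obtain ⟨ρ, f, k1, k2, h⟩ := angD_ro ha0 hc0 heq
    obtain ⟨ρ', f', k1', k2', h'⟩ := angD_ro hb0 (neg_ne_zero.2 hc0) heq'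
    exact trans_ang ha0 hb0 hc h h' (not_both_rank_one ha0 hc0 heq h)
      (not_both_rank_one hb0 (neg_ne_zero.2 hc0) heq' h') hB

end

end Pool.Agent.SLE
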