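import Pool.Agent.Lib.MP_c17912_pr.Azero
import Pool.Agent.Lib.MP_c17912_pr.Flow

/-!
# MP_c17912_pr, project TC, `a = 0`: imaginary driving paths
-/

set_option autoImplicit false

open MeasureTheory ProbabilityTheory Filter
open scoped NNReal ENNReal Topology

namespace Pool.Agent.SLE

noncomputable section

namespace TCAZ

/-- A point off the imaginary axis is never absorbed. -/
theorem off_axis {U : ℝ → ℂ} (hUc : Continuous U) (hU0 : ∀ t, (U t).re = 0) {z : ℂ}
    (hz : z.re ≠ 0) {t : ℝ} (ht : 0 ≤ t) : z ∉ hull U t := by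
  intro hcon
  have hw' : 0 < |z.re| := abs_pos.2 hz
  obtain ⟨s, hs, g, hg, hgs⟩ := hull_reach hUc ht hcon (δ := |z.re| / 2) (by positivity)
    (by
      have h3 := Complex.abs_re_le_norm (z - U 0)
      rw [Complex.sub_re, hU0, sub_zero] at h3
      linarith)
  have h4 := AzeroAux.re_mono hU0 hs.1 hg
  rw [hgs] at h4
  linarith

/-- The hulls increase. -/
theorem hull_mono {U : ℝ → ℂ} {s t : ℝ} (hst : s ≤ t) : hull U s ⊆ hull U t := by
  intro z hz hcon
  obtain ⟨g, hg⟩ := hcon
  exact hz ⟨g, hg.restrict hst⟩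

/-- The solution started on the imaginary axis stays there. -/
theorem on_axis {U : ℝ → ℂ} (hUc : Continuous U) (hU0 : ∀ t, (U t).re = 0) {z : ℂ}
    (hz : z.re = 0) {t : ℝ} {g : ℝ → ℂ} (h : Sol U z t g) : ∀ s ∈ Set.Icc 0 t, (g s).re = 0 := by
  have hr : ∀ w : ℂ, w.re = 0 → -(starRingEnd ℂ) w = w := by
    intro w hw
    apply Complex.ext
    · simp [hw]
    · simp
  have h2 : Sol U z t (fun s => -(starRingEnd ℂ) (g s)) := by
    refine ⟨?_, fun s hs hcon => ?_, fun s hs => ?_⟩
    · change -(starRingEnd ℂ) (g 0) = z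
      rw [h.1, hr z hz]
    · apply h.2.1 s hs
      change -(starRingEnd ℂ) (g s) = U s at hcon
      have h3 : g s = -(starRingEnd ℂ) (U s) := by
        rw [← hcon]
        simp
      rw [h3, hr _ (hU0 s)]
    · have h3 : HasDerivWithinAt (fun s => (starRingEnd ℂ) (g s))
          ((starRingEnd ℂ) (2 / (g s - U s))) (Set.Icc 0 t) s := (h.2.2 s hs).star
      refine h3.neg.congr_deriv ?_
      rw [map_div₀, map_sub]
      have h4 : (starRingEnd ℂ) (U s) = -U s := by
        rw [← neg_eq_iff_eq_neg]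
        exact hr _ (hU0 s)
      rw [h4, ← div_neg]
      simp only [map_ofNat]
      congr 1
      ring
  intro s hs
  have h3 := h.unique hUc h2 s hs
  have h4 := congrArg Complex.re h3
  simp at h4
  linarith

/-- The height on the imaginary axis: the difference keeps its sign, and the height decreases. -/
theorem height {w : ℝ → ℝ} (hw : Continuous w) {U : ℝ → ℂ} (hU : ∀ t, U t = (w t : ℂ) * Complex.I)
    (h0 : w 0 = 0) {y : ℝ} (hy : 0 < y) {t : ℝ} (ht : 0 ≤ t) {g : ℝ → ℂ}
    (h : Sol U ((y : ℂ) * Complex.I) t g) :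
    ∃ q : ℝ → ℝ, q 0 = y ∧ (∀ s ∈ Set.Icc 0 t, w s < q s) ∧
      (∀ s ∈ Set.Icc 0 t, HasDerivWithinAt q (-(2 / (q s - w s))) (Set.Icc 0 t) s) := by
  have hUc : Continuous U := by
    have : U = fun t => (w t : ℂ) * Complex.I := funext hU
    rw [this]
    exact (Complex.continuous_ofReal.comp hw).mul continuous_const
  have hU0 : ∀ t, (U t).re = 0 := fun t => by
    rw [hU]
    simp
  have hre := on_axis hUc hU0 (by simp) h
  have hg : ∀ s ∈ Set.Icc 0 t, g s = ((g s).im : ℂ) * Complex.I := by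
    intro s hs
    apply Complex.ext
    · simp [hre s hs]
    · simp
  have hd : ∀ s ∈ Set.Icc 0 t, HasDerivWithinAt (fun s => (g s).im)
      (-(2 / ((g s).im - w s))) (Set.Icc 0 t) s := by
    intro s hs
    have h1 : HasDerivWithinAt (fun s => (g s).im) ((2 / (g s - U s)).im) (Set.Icc 0 t) s :=
      Complex.imCLM.hasFDerivAt.comp_hasDerivWithinAt s (h.2.2 s hs)
    refine h1.congr_deriv ?_
    have h2 : g s - U s = (((g s).im - w s : ℝ) : ℂ) * Complex.I := by
      rw [hg s hs, hU]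
      push_cast
      simp
      ring
    rw [h2]
    have h3 : (2 : ℂ) / ((((g s).im - w s : ℝ) : ℂ) * Complex.I) =
        ((-(2 / ((g s).im - w s)) : ℝ) : ℂ) * Complex.I := by
      push_cast
      rw [div_mul_eq_div_div, div_eq_mul_inv _ Complex.I, Complex.inv_I]
      ring
    rw [h3, Complex.mul_im, Complex.ofReal_re, Complex.ofReal_im, Complex.I_re, Complex.I_im]
    ring
  have hne : ∀ s ∈ Set.Icc 0 t, (g s).im - w s ≠ 0 := by
    intro s hs h1
    apply h.2.1 s hs
    rw [hg s hs, hU]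
    have : (g s).im = w s := by linarith
    rw [this]
  have hc : ContinuousOn (fun s => (g s).im - w s) (Set.Icc 0 t) :=
    (fun s hs => (hd s hs).continuousWithinAt.sub hw.continuousWithinAt)
  have h00 : (0 : ℝ) < (g 0).im - w 0 := by
    rw [h.1, h0]
    simpa using hy
  refine ⟨fun s => (g s).im, ?_, fun s hs => ?_, hd⟩
  · change (g 0).im = y
    rw [h.1]
    simp
  by_contra hcon
  push Not at hcon
  have h1 : (g s).im - w s < 0 := lt_of_le_of_ne (by linarith) (hne s hs)
  have h2 : ContinuousOn (fun s => (g s).im - w s) (Set.Icc 0 s) :=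
    hc.mono (Set.Icc_subset_Icc_right hs.2)
  obtain ⟨r, hr, hr0⟩ := intermediate_value_Icc' hs.1 h2 ⟨h1.le, h00.le⟩
  exact hne r ⟨hr.1, hr.2.trans hs.2⟩ hr0

/-- Absorption if the driving path exceeds the height. -/
theorem absorbed_up {w : ℝ → ℝ} (hw : Continuous w) {U : ℝ → ℂ}
    (hU : ∀ t, U t = (w t : ℂ) * Complex.I) (h0 : w 0 = 0) {y : ℝ} (hy : 0 < y) {s t : ℝ}
    (hs : 0 ≤ s) (hst : s ≤ t) (hws : y ≤ w s) : (y : ℂ) * Complex.I ∈ hull U t := by
  rintro ⟨g, hg⟩
  obtain ⟨q, hq0, hq1, hq2⟩ := height hw hU h0 hy (hs.trans hst) hg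
  have hanti : AntitoneOn q (Set.Icc 0 t) := by
    refine antitoneOn_of_deriv_nonpos (convex_Icc 0 t)
      (fun r hr => (hq2 r hr).continuousWithinAt) (fun r hr => ?_) (fun r hr => ?_)
    · have hr' : r ∈ Set.Icc 0 t := interior_subset hr
      exact ((hq2 r hr').hasDerivAt (mem_interior_iff_mem_nhds.1 hr)).differentiableAt
        |>.differentiableWithinAt
    · have hr' : r ∈ Set.Icc 0 t := interior_subset hr
      rw [((hq2 r hr').hasDerivAt (mem_interior_iff_mem_nhds.1 hr)).deriv]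
      have := hq1 r hr'
      have h3 : 0 < 2 / (q r - w r) := div_pos two_pos (by linarith)
      linarith
  have h1 := hanti (Set.left_mem_Icc.2 (hs.trans hst)) ⟨hs, hst⟩ hs
  have h2 := hq1 s ⟨hs, hst⟩
  linarith

/-- Negation. -/
theorem hull_neg {U : ℝ → ℂ} {z : ℂ} {t : ℝ} (h : z ∈ hull (fun s => -U s) t) :
    -z ∈ hull U t := by
  rintro ⟨g, hg⟩
  refine h ⟨fun s => -g s, ?_, fun s hs hcon => ?_, fun s hs => ?_⟩
  · change -g 0 = z
    rw [hg.1, neg_neg]
  · exact hg.2.1 s hs (neg_injective hcon)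
  · refine (hg.2.2 s hs).neg.congr_deriv ?_
    have h1 : -g s - -U s = -(g s - U s) := by ring
    rw [h1, div_neg]

theorem absorbed_down {w : ℝ → ℝ} (hw : Continuous w) {U : ℝ → ℂ}
    (hU : ∀ t, U t = (w t : ℂ) * Complex.I) (h0 : w 0 = 0) {y : ℝ} (hy : y < 0) {s t : ℝ}
    (hs : 0 ≤ s) (hst : s ≤ t) (hws : w s ≤ y) : (y : ℂ) * Complex.I ∈ hull U t := by
  have h1 := absorbed_up (w := fun s => -w s) hw.neg (U := fun s => -U s) (fun t => by
    rw [hU]
    push_cast
    ring) (by rw [h0, neg_zero]) (y := -y) (by linarith) hs hst (by linarith)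
  have h2 := hull_neg h1
  have h3 : -(((-y : ℝ) : ℂ) * Complex.I) = (y : ℂ) * Complex.I := by
    push_cast
    ring
  rwa [h3] at h2

theorem absorbed_zero {U : ℝ → ℂ} (h0 : U 0 = 0) {t : ℝ} (ht : 0 ≤ t) : (0 : ℂ) ∈ hull U t := by
  rintro ⟨g, hg⟩
  exact hg.2.1 0 (Set.left_mem_Icc.2 ht) (by rw [hg.1, h0])

/-- Transience from the absorption of the imaginary axis. -/
theorem trans_of {U : ℝ → ℂ} (hUc : Continuous U) (hU0 : ∀ t, (U t).re = 0)
    (h : ∀ R > 0, ∃ T > 0, ∀ y : ℝ, |y| < R → (y : ℂ) * Complex.I ∈ hull U T) :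
    Transient U := by
  intro R hR
  obtain ⟨T, hT, hT'⟩ := h R hR
  refine ⟨T, hT, fun t ht => ?_⟩
  apply Set.Subset.antisymm
  · rintro z ⟨hz1, hz2⟩
    refine ⟨?_, hz2⟩
    have hre : z.re = 0 := by
      by_contra hcon
      exact off_axis hUc hU0 hcon (hT.le.trans ht) hz1
    have hz3 : z = (z.im : ℂ) * Complex.I := by
      apply Complex.ext
      · simp [hre]
      · simp
    rw [hz3]
    apply hT'
    rw [mem_ball_zero_iff] at hz2
    exact (Complex.abs_im_le_norm z).trans_lt hz2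
  · exact Set.inter_subset_inter_left _ (hull_mono ht)

/-- Transience if the path is unbounded in both directions. -/
theorem trans_unbdd {w : ℝ → ℝ} (hw : Continuous w) {U : ℝ → ℂ}
    (hU : ∀ t, U t = (w t : ℂ) * Complex.I) (h0 : w 0 = 0)
    (hup : ∀ R : ℝ, ∃ s, 0 ≤ s ∧ R ≤ w s) (hdn : ∀ R : ℝ, ∃ s, 0 ≤ s ∧ w s ≤ R) :
    Transient U := by
  have hUc : Continuous U := by
    have : U = fun t => (w t : ℂ) * Complex.I := funext hU
    rw [this]
    exact (Complex.continuous_ofReal.comp hw).mul continuous_const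
  have hU0 : ∀ t, (U t).re = 0 := fun t => by
    rw [hU]
    simp
  refine trans_of hUc hU0 fun R hR => ?_
  obtain ⟨s1, hs1, h1⟩ := hup R
  obtain ⟨s2, hs2, h2⟩ := hdn (-R)
  refine ⟨max (max s1 s2) 1, by positivity, fun y hy => ?_⟩
  rw [abs_lt] at hy
  rcases lt_trichotomy y 0 with hlt | heq | hgt
  · exact absorbed_down hw hU h0 hlt hs2 ((le_max_right _ _).trans (le_max_left _ _))
      (by linarith)
  · rw [heq]
    simp only [Complex.ofReal_zero, zero_mul]
    exact absorbed_zero (by rw [hU, h0]; simp) (by positivity)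
  · exact absorbed_up hw hU h0 hgt hs1 ((le_max_left _ _).trans (le_max_left _ _))
      (by linarith)

/-- Transience for the zero path. -/
theorem trans_zero {U : ℝ → ℂ} (hU : ∀ t, U t = 0) : Transient U := by
  have hU' : ∀ t, U t = ((0 : ℝ) : ℂ) * Complex.I := fun t => by
    rw [hU]
    simp
  have hUc : Continuous U := by
    have : U = fun _ => 0 := funext hU
    rw [this]
    exact continuous_const
  have key : ∀ R > 0, ∀ y : ℝ, 0 < y → y < R →
      (y : ℂ) * Complex.I ∈ hull U (R ^ 2 / 4) := by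
    intro R hR y hy hyR
    rintro ⟨g, hg⟩
    obtain ⟨q, hq0, hq1, hq2⟩ := height (w := fun _ => 0) continuous_const hU' rfl hy
      (by positivity) hg
    have hd : ∀ s ∈ Set.Icc 0 (R ^ 2 / 4), HasDerivWithinAt (fun s => q s ^ 2 + 4 * s) 0
        (Set.Icc 0 (R ^ 2 / 4)) s := by
      intro s hs
      have h1 := ((hq2 s hs).pow 2).add ((hasDerivWithinAt_id s _).const_mul 4)
      refine h1.congr_deriv ?_
      have h2 : q s ≠ 0 := (hq1 s hs).ne'
      simp only [sub_zero, Nat.cast_ofNat, mul_one]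
      field_simp
      norm_num
      ring
    have h1 : (fun s => q s ^ 2 + 4 * s) (R ^ 2 / 4) = (fun s => q s ^ 2 + 4 * s) 0 := by
      have hR2 : (0 : ℝ) ≤ R ^ 2 / 4 := by positivity
      have h2 := (convex_Icc (0 : ℝ) (R ^ 2 / 4)).norm_image_sub_le_of_norm_hasDerivWithin_le
        (C := 0) hd (fun s _ => by simp) (Set.left_mem_Icc.2 hR2) (Set.right_mem_Icc.2 hR2)
      rw [zero_mul, norm_le_zero_iff, sub_eq_zero] at h2
      exact h2
    simp only [hq0, mul_zero, add_zero] at h1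
    have h2 := hq1 (R ^ 2 / 4) (Set.right_mem_Icc.2 (by positivity))
    nlinarith
  refine trans_of hUc (fun t => by rw [hU]; simp) fun R hR => ?_
  refine ⟨R ^ 2 / 4, by positivity, fun y hy => ?_⟩
  rw [abs_lt] at hy
  rcases lt_trichotomy y 0 with hlt | heq | hgt
  · have h1 := key R hR (-y) (by linarith) (by linarith)
    have h2 : (fun s => -U s) = U := by
      funext s
      rw [hU, neg_zero]
    have h3 : ((-y : ℝ) : ℂ) * Complex.I ∈ hull (fun s => -U s) (R ^ 2 / 4) := by
      rw [h2]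
      exact h1
    have h4 := hull_neg h3
    have h5 : -(((-y : ℝ) : ℂ) * Complex.I) = (y : ℂ) * Complex.I := by
      push_cast
      ring
    rwa [h5] at h4
  · rw [heq]
    simp only [Complex.ofReal_zero, zero_mul]
    exact absorbed_zero (hU 0) (by positivity)
  · exact key R hR y hgt hy.2

end TCAZ

end

end Pool.Agent.SLE
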