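import Pool.Agent.Lib.MP_c17912_pr_TC.BWSH
import Pool.Agent.Lib.MP_c17912_pr_TR.OCC

/-!
# MP_c17912_pr, project TC, backward critical case: the area functional

`exp (∫ kk 2 0 (Z)) = |g_t'|^2`. If `exp ψ (arg z)` satisfies `Op a b c 0 ψ - 4 cos 2θ ≤ 0` then
`|g_t'|^2 exp (ψ (arg Z_t))` is a supermartingale, so `E |g_t'(z)|^2` is bounded, uniformly in
`z` and `t`; hence the area of the image of a disc at time `t` is bounded in mean.
-/

set_option autoImplicit false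

open MeasureTheory ProbabilityTheory Filter
open scoped NNReal ENNReal Topology Real

namespace Pool.Agent.SLE

noncomputable section

variable {Ω : Type*} [MeasurableSpace Ω] {μ : Measure Ω}

namespace TCBWAR

variable {a b c K : ℝ} {W : ℝ → Ω → ℂ} {h δ R : ℝ}

/-- One step of the process `exp A * F`. -/
theorem step [IsProbabilityMeasure μ] (hW : Drv a b c K W μ) {Q : ℝ} (hh : 0 < h) (hQ : 0 ≤ Q)
    {k F : ℂ → ℝ} (hk : Measurable k) (hFm : Measurable F)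
    (hone : ∀ (z : ℂ) (s : ℝ), δ ≤ ‖z‖ → ‖z‖ ≤ R → 0 ≤ s →
      ∫⁻ ω, ENNReal.ofReal (F (z + 2 * h / z - (W (s + h) ω - W s ω))) ∂μ
        ≤ ENNReal.ofReal (Q * Real.exp (-(h * k z)) * F z)) (z₀ : ℂ) (j : ℕ) :
    ∫⁻ ω in AnS W z₀ h δ R (j + 1), ENNReal.ofReal
        (Real.exp (DiscAux.A W z₀ h k (j + 1) ω) * F (DiscAux.Z W z₀ h (j + 1) ω)) ∂μ ≤
      ENNReal.ofReal Q * ∫⁻ ω in AnS W z₀ h δ R j, ENNReal.ofReal
        (Real.exp (DiscAux.A W z₀ h k j ω) * F (DiscAux.Z W z₀ h j ω)) ∂μ := by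
  have hle : Blk W 0 (j * h) ≤ (inferInstance : MeasurableSpace Ω) := Blk_le hW _ _
  have hle1 : Blk W 0 ((j + 1 : ℕ) * h) ≤ (inferInstance : MeasurableSpace Ω) := Blk_le hW _ _
  have hAm : MeasurableSet (AnS W z₀ h δ R j) := hle _ (TRDOC.AnS_meas hh z₀ j le_rfl)
  have hAm1 : MeasurableSet (AnS W z₀ h δ R (j + 1)) :=
    hle1 _ (TRDOC.AnS_meas hh z₀ (j + 1) le_rfl)
  have hw : Measurable[Blk W 0 (j * h)] ((AnS W z₀ h δ R j).indicator
      (fun ω => ENNReal.ofReal (Real.exp (DiscAux.A W z₀ h k (j + 1) ω)))) :=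
    (ENNReal.measurable_ofReal.comp (Real.measurable_exp.comp
      (TRDOC.A1_meas hh hk z₀ j))).indicator (TRDOC.AnS_meas hh z₀ j le_rfl)
  have hρ : Measurable (fun z => Q * Real.exp (-(h * k z)) * F z) :=
    ((Real.measurable_exp.comp (hk.const_mul h).neg).const_mul Q).mul hFm
  have c1 := cond_step hW hh hFm hρ hone z₀ j _ hw (by
    intro ω hω
    have h1 := Set.mem_of_indicator_ne_zero hω
    exact h1 j le_rfl)
  calc ∫⁻ ω in AnS W z₀ h δ R (j + 1), ENNReal.ofReal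
        (Real.exp (DiscAux.A W z₀ h k (j + 1) ω) * F (DiscAux.Z W z₀ h (j + 1) ω)) ∂μ
      ≤ ∫⁻ ω in AnS W z₀ h δ R (j + 1), ((AnS W z₀ h δ R j).indicator
          (fun ω => ENNReal.ofReal (Real.exp (DiscAux.A W z₀ h k (j + 1) ω))) ω *
          ENNReal.ofReal (F (DiscAux.Z W z₀ h (j + 1) ω))) ∂μ := by
        refine setLIntegral_mono' hAm1 fun ω hω => ?_
        have h1 : ω ∈ AnS W z₀ h δ R j := fun i hi => hω i (by omega)
        rw [Set.indicator_of_mem h1, ENNReal.ofReal_mul (Real.exp_pos _).le]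
    _ ≤ ∫⁻ ω, ((AnS W z₀ h δ R j).indicator
          (fun ω => ENNReal.ofReal (Real.exp (DiscAux.A W z₀ h k (j + 1) ω))) ω *
          ENNReal.ofReal (F (DiscAux.Z W z₀ h (j + 1) ω))) ∂μ := setLIntegral_le_lintegral _ _
    _ ≤ _ := c1
    _ = ∫⁻ ω, ENNReal.ofReal Q * (AnS W z₀ h δ R j).indicator (fun ω => ENNReal.ofReal
        (Real.exp (DiscAux.A W z₀ h k j ω) * F (DiscAux.Z W z₀ h j ω))) ω ∂μ := by
        refine lintegral_congr fun ω => ?_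
        by_cases h1 : ω ∈ AnS W z₀ h δ R j
        · rw [Set.indicator_of_mem h1, Set.indicator_of_mem h1,
            ← ENNReal.ofReal_mul (Real.exp_pos _).le, ← ENNReal.ofReal_mul hQ, TRDOC.A_succ]
          congr 1
          have h2 : Real.exp (DiscAux.A W z₀ h k j ω + h * k (DiscAux.Z W z₀ h j ω)) *
              Real.exp (-(h * k (DiscAux.Z W z₀ h j ω))) =
              Real.exp (DiscAux.A W z₀ h k j ω) := by
            rw [← Real.exp_add]; ring_nf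
          linear_combination (Q * F (DiscAux.Z W z₀ h j ω)) * h2
        · rw [Set.indicator_of_notMem h1, Set.indicator_of_notMem h1, zero_mul, mul_zero]
    _ = _ := by
        rw [lintegral_const_mul' _ _ ENNReal.ofReal_ne_top, lintegral_indicator hAm]

/-- The process `exp A * F` in the mean. -/
theorem total [IsProbabilityMeasure μ] (hW : Drv a b c K W μ) {Q : ℝ} (hh : 0 < h) (hQ : 0 ≤ Q)
    {k F : ℂ → ℝ} (hk : Measurable k) (hFm : Measurable F)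
    (hone : ∀ (z : ℂ) (s : ℝ), δ ≤ ‖z‖ → ‖z‖ ≤ R → 0 ≤ s →
      ∫⁻ ω, ENNReal.ofReal (F (z + 2 * h / z - (W (s + h) ω - W s ω))) ∂μ
        ≤ ENNReal.ofReal (Q * Real.exp (-(h * k z)) * F z)) (z₀ : ℂ) (j : ℕ) :
    ∫⁻ ω in AnS W z₀ h δ R j, ENNReal.ofReal
        (Real.exp (DiscAux.A W z₀ h k j ω) * F (DiscAux.Z W z₀ h j ω)) ∂μ ≤
      ENNReal.ofReal (Q ^ j * F z₀) := by
  induction j with
  | zero =>
    refine (setLIntegral_le_lintegral _ _).trans ?_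
    have h1 : ∀ ω, Real.exp (DiscAux.A W z₀ h k 0 ω) * F (DiscAux.Z W z₀ h 0 ω) = F z₀ := by
      intro ω
      simp [DiscAux.A, DiscAux.Z, eul]
    simp only [h1, lintegral_const, measure_univ, mul_one, pow_zero, one_mul, le_refl]
  | succ j ih =>
    refine (step hW hh hQ hk hFm hone z₀ j).trans ?_
    refine (mul_le_mul_right ih _).trans (le_of_eq ?_)
    rw [← ENNReal.ofReal_mul hQ]
    congr 1
    ring

/-- The discrete functional. -/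
def Yl (W : ℝ → Ω → ℂ) (z₀ : ℂ) (δ R : ℝ) (n j : ℕ) : Ω → ℝ≥0∞ :=
  (AnS W z₀ ((1 / 2) ^ n) δ R j).indicator
    (fun ω => ENNReal.ofReal (Real.exp (DiscAux.A W z₀ ((1 / 2) ^ n) (kk 2 0) j ω)))

theorem Yl_meas {z₀ : ℂ} {n j : ℕ} {u : ℝ} (hu : (j : ℝ) * (1 / 2) ^ n ≤ u) :
    Measurable[Blk W 0 u] (Yl W z₀ δ R n j) := by
  have hh : (0 : ℝ) < (1 / 2) ^ n := by positivity
  unfold Yl
  exact (ENNReal.measurable_ofReal.comp (Real.measurable_exp.comp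
    (DiscAux.A_meas hh (TROCC.kk_meas 2 0) z₀ j hu))).indicator (TRDOC.AnS_meas hh z₀ j hu)

/-- The mean of the discrete functional. -/
theorem Yl_int [IsProbabilityMeasure μ] (hW : Drv a b c K W μ) {Q B : ℝ} {n : ℕ} (hQ : 0 ≤ Q)
    {F : ℂ → ℝ} (hFm : Measurable F) (hF1 : ∀ z, F z ≤ Real.exp B)
    (hF2 : ∀ z : ℂ, δ ≤ ‖z‖ → ‖z‖ ≤ R → Real.exp (-B) ≤ F z)
    (hone : ∀ (z : ℂ) (s : ℝ), δ ≤ ‖z‖ → ‖z‖ ≤ R → 0 ≤ s →
      ∫⁻ ω, ENNReal.ofReal (F (z + 2 * ((1 / 2 : ℝ) ^ n : ℝ) / z -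
        (W (s + (1 / 2) ^ n) ω - W s ω))) ∂μ
        ≤ ENNReal.ofReal (Q * Real.exp (-((1 / 2) ^ n * kk 2 0 z)) * F z)) (z₀ : ℂ) (j : ℕ) :
    ∫⁻ ω, Yl W z₀ δ R n j ω ∂μ ≤ ENNReal.ofReal (Q ^ j * Real.exp (2 * B)) := by
  have hh : (0 : ℝ) < (1 / 2) ^ n := by positivity
  have hle : Blk W 0 (j * (1 / 2) ^ n) ≤ (inferInstance : MeasurableSpace Ω) := Blk_le hW _ _
  have hAm : MeasurableSet (AnS W z₀ ((1 / 2) ^ n) δ R j) :=
    hle _ (TRDOC.AnS_meas hh z₀ j le_rfl)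
  have h1 := total hW hh hQ (TROCC.kk_meas 2 0) hFm hone z₀ j
  unfold Yl
  rw [lintegral_indicator hAm]
  have h2 : ∫⁻ ω in AnS W z₀ ((1 / 2) ^ n) δ R j,
      ENNReal.ofReal (Real.exp (DiscAux.A W z₀ ((1 / 2) ^ n) (kk 2 0) j ω)) ∂μ ≤
      ∫⁻ ω in AnS W z₀ ((1 / 2) ^ n) δ R j, ENNReal.ofReal (Real.exp B) * ENNReal.ofReal
        (Real.exp (DiscAux.A W z₀ ((1 / 2) ^ n) (kk 2 0) j ω) *
          F (DiscAux.Z W z₀ ((1 / 2) ^ n) j ω)) ∂μ := by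
    refine setLIntegral_mono' hAm fun ω hω => ?_
    rw [← ENNReal.ofReal_mul (Real.exp_pos _).le]
    refine ENNReal.ofReal_le_ofReal ?_
    have h3 := hF2 _ (hω j le_rfl).1 (hω j le_rfl).2
    have h4 : Real.exp B * Real.exp (-B) = 1 := by
      rw [← Real.exp_add, add_neg_cancel, Real.exp_zero]
    have h5 : Real.exp (DiscAux.A W z₀ ((1 / 2) ^ n) (kk 2 0) j ω) =
        Real.exp B * (Real.exp (DiscAux.A W z₀ ((1 / 2) ^ n) (kk 2 0) j ω) *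
          Real.exp (-B)) := by
      linear_combination (-Real.exp (DiscAux.A W z₀ ((1 / 2) ^ n) (kk 2 0) j ω)) * h4
    have h6 := (Real.exp_pos B).le
    refine (le_of_eq h5).trans ?_
    have h7 := (Real.exp_pos (DiscAux.A W z₀ ((1 / 2) ^ n) (kk 2 0) j ω)).le
    exact mul_le_mul_of_nonneg_left (mul_le_mul_of_nonneg_left h3 h7) h6
  refine h2.trans ?_
  rw [lintegral_const_mul' _ _ ENNReal.ofReal_ne_top]
  refine (mul_le_mul_right h1 _).trans ?_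
  rw [← ENNReal.ofReal_mul (Real.exp_pos _).le]
  refine ENNReal.ofReal_le_ofReal ?_
  have h3 : Real.exp (2 * B) = Real.exp B * Real.exp B := by
    rw [← Real.exp_add]; ring_nf
  rw [h3]
  have h4 := mul_le_mul_of_nonneg_left (hF1 z₀)
    (mul_nonneg (Real.exp_pos B).le (pow_nonneg hQ j))
  linarith

omit [MeasurableSpace Ω] in
/-- The lower bound of the discrete functional. -/
theorem low_bound {z₀ : ℂ} {ω : Ω} {t : ℝ} {g : ℝ → ℂ} (hU : Continuous fun t => W t ω)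
    (h0 : W 0 ω = 0) (ht : 0 ≤ t) (hs : Sol (fun t => W t ω) z₀ t g) :
    ∃ δ₀ > 0, ∃ R₀ : ℝ, ∀ᶠ n : ℕ in atTop, ∀ δ R, δ ≤ δ₀ → R₀ ≤ R →
      ENNReal.ofReal (Real.exp ((∫ v in (0 : ℝ)..t, kk 2 0 (g v - W v ω)) - 1)) ≤
        Yl W z₀ δ R n (EulerAux.jn t n) ω := by
  obtain ⟨d, hd, hdg⟩ := FlowAux.exists_lower hU hs
  have hZc := EulerAux.contZ hU hs
  obtain ⟨s₁, hs₁, hmax⟩ := isCompact_Icc.exists_isMaxOn (⟨0, le_rfl, ht⟩ :
    (Set.Icc (0 : ℝ) t).Nonempty) hZc.norm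
  obtain ⟨C, hCdef⟩ : ∃ C, C = ‖g s₁ - W s₁ ω‖ := ⟨_, rfl⟩
  have hC : ∀ s ∈ Set.Icc (0 : ℝ) t, ‖g s - W s ω‖ ≤ C := fun s hs' => by
    rw [hCdef]; exact hmax hs'
  have hev2 := EulerAux.sum_close hU h0 (TROCC.kk_cont 2 0) (δ := d / 2) (R := C + 1) (c := d)
    (C := C) ht (by positivity) hs hdg (by linarith) hC (by linarith) one_pos
  have hev3 := EulerAux.eul_close hU h0 (δ := d / 2) (c := d) ht (by positivity) hs hdg
    (by linarith) (η := min (d / 2) 1) (lt_min (by positivity) one_pos)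
  refine ⟨d / 2, by positivity, C + 1, ?_⟩
  filter_upwards [hev2, hev3] with n h2 h3 δ R hδ hR
  have hh : (0 : ℝ) < (1 / 2) ^ n := by positivity
  have hmem : ω ∈ AnS W z₀ ((1 / 2) ^ n) δ R (EulerAux.jn t n) := by
    intro i hi
    have hit : (i : ℝ) * (1 / 2) ^ n ∈ Set.Icc (0 : ℝ) t :=
      ⟨by positivity, (mul_le_mul_of_nonneg_right (by exact_mod_cast hi) hh.le).trans
        (EulerAux.jn_le ht n)⟩
    have h4 := h3 i hi
    have h5 := h4.trans (min_le_left _ _)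
    have h6 := h4.trans (min_le_right _ _)
    have h7 := hdg _ hit
    have h8 := hC _ hit
    have h9 := norm_sub_norm_le (g ((i : ℝ) * (1 / 2) ^ n) - W ((i : ℝ) * (1 / 2) ^ n) ω)
      (eul (fun t => W t ω) z₀ ((1 / 2) ^ n) i)
    rw [norm_sub_rev (g ((i : ℝ) * (1 / 2) ^ n) - W ((i : ℝ) * (1 / 2) ^ n) ω)] at h9
    have h10 := norm_sub_norm_le (eul (fun t => W t ω) z₀ ((1 / 2) ^ n) i)
      (g ((i : ℝ) * (1 / 2) ^ n) - W ((i : ℝ) * (1 / 2) ^ n) ω)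
    constructor
    · change δ ≤ ‖eul (fun t => W t ω) z₀ ((1 / 2) ^ n) i‖
      linarith
    · change ‖eul (fun t => W t ω) z₀ ((1 / 2) ^ n) i‖ ≤ R
      linarith
  unfold Yl
  rw [Set.indicator_of_mem hmem]
  refine ENNReal.ofReal_le_ofReal (Real.exp_le_exp.2 ?_)
  have h4 := (abs_le.1 h2).1
  change _ ≤ ∑ i ∈ Finset.range (EulerAux.jn t n),
    (1 / 2) ^ n * kk 2 0 (eul (fun t => W t ω) z₀ ((1 / 2) ^ n) i)
  linarith

/-- `kk 2 0` is twice `kk 1 0`. -/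
theorem kk_two (z : ℂ) : kk 2 0 z = 2 * kk 1 0 z := by
  unfold kk; ring

/-- The integral of `kk 2 0` is twice the integral of `kk 1 0`. -/
theorem int_two (U g : ℝ → ℂ) (t : ℝ) : ∫ v in (0 : ℝ)..t, kk 2 0 (g v - U v) =
    2 * ∫ v in (0 : ℝ)..t, kk 1 0 (g v - U v) := by
  rw [← intervalIntegral.integral_const_mul]
  congr 1
  funext v
  exact kk_two _

/-- The point of the grid. -/
def gp (n : ℕ) (i : ℤ × ℤ) : ℂ := ⟨(i.1 : ℝ) / 2 ^ n, (i.2 : ℝ) / 2 ^ n⟩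

/-- The indices of the grid points. -/
def gI (ρ : ℝ) (n : ℕ) : Finset (ℤ × ℤ) :=
  Finset.Icc (-(⌈ρ * 2 ^ n⌉₊ : ℤ)) (⌈ρ * 2 ^ n⌉₊ : ℤ) ×ˢ
    Finset.Icc (-(⌈ρ * 2 ^ n⌉₊ : ℤ)) (⌈ρ * 2 ^ n⌉₊ : ℤ)

/-- The number of the grid points. -/
theorem gI_card {ρ : ℝ} (hρ : 1 ≤ ρ) (n : ℕ) : ((gI ρ n).card : ℝ) ≤ 25 * ρ ^ 2 * 4 ^ n := by
  have h1 : (gI ρ n).card = (2 * ⌈ρ * 2 ^ n⌉₊ + 1) * (2 * ⌈ρ * 2 ^ n⌉₊ + 1) := by
    rw [gI, Finset.card_product, Int.card_Icc]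
    have h2 : ((⌈ρ * 2 ^ n⌉₊ : ℤ) + 1 - -(⌈ρ * 2 ^ n⌉₊ : ℤ)).toNat = 2 * ⌈ρ * 2 ^ n⌉₊ + 1 := by
      omega
    rw [h2]
  have h0 : (1 : ℝ) ≤ 2 ^ n := one_le_pow₀ (by norm_num)
  have h3 : (1 : ℝ) ≤ ρ * 2 ^ n := by nlinarith
  have h4 : (⌈ρ * 2 ^ n⌉₊ : ℝ) < ρ * 2 ^ n + 1 := Nat.ceil_lt_add_one (by linarith)
  have h5 : (0 : ℝ) ≤ (⌈ρ * 2 ^ n⌉₊ : ℝ) := Nat.cast_nonneg _
  have h6 : (4 : ℝ) ^ n = 2 ^ n * 2 ^ n := by rw [← mul_pow]; norm_num
  rw [h1]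
  push_cast
  have h7 : (2 * (⌈ρ * 2 ^ n⌉₊ : ℝ) + 1) ≤ 5 * (ρ * 2 ^ n) := by linarith
  have h8 : (2 * (⌈ρ * 2 ^ n⌉₊ : ℝ) + 1) * (2 * (⌈ρ * 2 ^ n⌉₊ : ℝ) + 1) ≤
      5 * (ρ * 2 ^ n) * (5 * (ρ * 2 ^ n)) :=
    mul_le_mul h7 h7 (by linarith) (by linarith)
  refine h8.trans (le_of_eq ?_)
  rw [h6]
  ring

/-- The grid points in a ball. -/
theorem gI_sub {ρ r : ℝ} {z : ℂ} (hr : 0 < r) (hz : ‖z‖ + r ≤ ρ) {n : ℕ}
    (hn : 4 ≤ r * 2 ^ n) : ∃ S ⊆ gI ρ n, r ^ 2 / 16 * 4 ^ n ≤ (S.card : ℝ) ∧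
      ∀ i ∈ S, ‖gp n i - z‖ ≤ r := by
  have h0 : (0 : ℝ) < 2 ^ n := by positivity
  obtain ⟨k, hk⟩ : ∃ k, k = ⌊r * 2 ^ n / 2⌋₊ := ⟨_, rfl⟩
  have hk1 : (k : ℝ) ≤ r * 2 ^ n / 2 := by rw [hk]; exact Nat.floor_le (by positivity)
  have hk2 : r * 2 ^ n / 2 < (k : ℝ) + 1 := by rw [hk]; exact Nat.lt_floor_add_one _
  have hk3 : r * 2 ^ n / 4 ≤ (k : ℝ) := by linarith
  have hm : ρ * 2 ^ n ≤ (⌈ρ * 2 ^ n⌉₊ : ℝ) := Nat.le_ceil _
  -- one coordinate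
  have hco : ∀ x : ℝ, |x| + r ≤ ρ → ∀ i ∈ Finset.Ico ⌈x * 2 ^ n⌉ (⌈x * 2 ^ n⌉ + k),
      i ∈ Finset.Icc (-(⌈ρ * 2 ^ n⌉₊ : ℤ)) (⌈ρ * 2 ^ n⌉₊ : ℤ) ∧
        |(i : ℝ) / 2 ^ n - x| ≤ r / 2 := by
    intro x hx i hi
    rw [Finset.mem_Ico] at hi
    have h1 : x * 2 ^ n ≤ i := by
      have := Int.le_ceil (x * 2 ^ n)
      have h2 : ((⌈x * 2 ^ n⌉ : ℤ) : ℝ) ≤ (i : ℝ) := by exact_mod_cast hi.1
      linarith
    have h2 : (i : ℝ) ≤ x * 2 ^ n + r * 2 ^ n / 2 := by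
      have h3 := Int.ceil_lt_add_one (x * 2 ^ n)
      have h4 : (i : ℝ) + 1 ≤ ((⌈x * 2 ^ n⌉ : ℤ) : ℝ) + k := by exact_mod_cast hi.2
      linarith
    have hx1 := neg_abs_le x
    have hx2 := le_abs_self x
    constructor
    · rw [Finset.mem_Icc]
      constructor
      · have h3 : (-(⌈ρ * 2 ^ n⌉₊ : ℝ)) ≤ i := by
          have h4 : -ρ * 2 ^ n ≤ x * 2 ^ n := mul_le_mul_of_nonneg_right (by linarith) h0.le
          linarith
        exact_mod_cast h3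
      · have h3 : (i : ℝ) ≤ (⌈ρ * 2 ^ n⌉₊ : ℝ) := by
          have h4 : (x + r / 2) * 2 ^ n ≤ ρ * 2 ^ n :=
            mul_le_mul_of_nonneg_right (by linarith) h0.le
          have h5 : (x + r / 2) * 2 ^ n = x * 2 ^ n + r * 2 ^ n / 2 := by ring
          linarith
        exact_mod_cast h3
    · rw [abs_le]
      constructor
      · have h3 : x ≤ (i : ℝ) / 2 ^ n := by rw [le_div_iff₀ h0]; exact h1
        linarith
      · have h3 : (i : ℝ) / 2 ^ n ≤ x + r / 2 := by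
          rw [div_le_iff₀ h0]
          linarith
        linarith
  have hre := (Complex.abs_re_le_norm z)
  have him := (Complex.abs_im_le_norm z)
  refine ⟨Finset.Ico ⌈z.re * 2 ^ n⌉ (⌈z.re * 2 ^ n⌉ + k) ×ˢ
    Finset.Ico ⌈z.im * 2 ^ n⌉ (⌈z.im * 2 ^ n⌉ + k), ?_, ?_, ?_⟩
  · intro i hi
    rw [Finset.mem_product] at hi
    rw [gI, Finset.mem_product]
    exact ⟨(hco z.re (by linarith) _ hi.1).1, (hco z.im (by linarith) _ hi.2).1⟩
  · rw [Finset.card_product, Int.card_Ico, Int.card_Ico, add_sub_cancel_left,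
      add_sub_cancel_left, Int.toNat_natCast]
    push_cast
    have h6 : (4 : ℝ) ^ n = 2 ^ n * 2 ^ n := by rw [← mul_pow]; norm_num
    have h7 : r * 2 ^ n / 4 * (r * 2 ^ n / 4) ≤ (k : ℝ) * k :=
      mul_le_mul hk3 hk3 (by positivity) (by linarith [(Nat.cast_nonneg k : (0 : ℝ) ≤ k)])
    refine le_trans (le_of_eq ?_) h7
    rw [h6]
    ring
  · intro i hi
    rw [Finset.mem_product] at hi
    have h1 := (hco z.re (by linarith) _ hi.1).2
    have h2 := (hco z.im (by linarith) _ hi.2).2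
    have h3 := Complex.norm_le_abs_re_add_abs_im (gp n i - z)
    have e1 : (gp n i - z).re = (i.1 : ℝ) / 2 ^ n - z.re := rfl
    have e2 : (gp n i - z).im = (i.2 : ℝ) / 2 ^ n - z.im := rfl
    rw [e1, e2] at h3
    linarith

end TCBWAR

/-- BWAR1. One point. `Y` dominates `|g_t'|^2` of the solution of `z₀` (if it exists).

Proof. Let `δ_l = 2^(-l)`, `R_l = 2^l`. `ge_one_step` (TR/GOS.lean) with `α = 0`, `lam = 2`,
`c₀ = 0` on the annulus `[δ_l, R_l]` gives `F_l` (between `exp (-B)` and `exp B` on the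
annulus), `C'_l`, `h₀_l`: one step inequality with the factor `1 + C'_l h √h`. Iterating
(`cst`-type conditioning, as in Disc.lean / DOC.lean, one phase only) gives for `J h ≤ t + 1`
`∫ 1_(AnS J) exp (A W z₀ h (kk 2 0) J) F (Z_J) ≤ (1 + C'_l h √h)^J F (z₀)`. Choose
`h_l = (1/2)^(N_l)`, `h_l ≤ h₀_l`, `C'_l √h_l (t + 1) ≤ 1`, and
`Y = exp (2 B + 2) liminf_l 1_(AnS J_l) exp (A ... J_l)`, `J_l = jn t N_l`. Fatou gives the bound
of the expectation (`C = exp (2 B + 3)` does not depend on `t`, `z₀`); `eul_close`, `sum_close`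
give the lower bound for the solution (for `l` large the solution stays in
`(δ_l, R_l)`). For `z₀ = 0` put `Y = 0`. Measurability: as in OCC.lean. -/
theorem area_pt [IsProbabilityMeasure μ] {a b c K : ℝ} (ha : 0 ≤ a) (hb : 0 ≤ b) (hK : 0 ≤ K)
    {ψ : ℝ → ℝ} (hψ : ContDiff ℝ 3 ψ) (hψp : Function.Periodic ψ (2 * π))
    (hop : ∀ θ, Op a b c 0 ψ θ - 2 * 2 * Real.cos (2 * θ) ≤ 0) :
    ∃ C > 0, ∀ W : ℝ → Ω → ℂ, Drv a b c K W μ → ∀ (z₀ : ℂ) (t : ℝ), 0 ≤ t →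
      ∃ Y : Ω → ℝ≥0∞, Measurable[Blk W 0 t] Y ∧ ∫⁻ ω, Y ω ∂μ ≤ ENNReal.ofReal C ∧
        ∀ (ω : Ω) (g : ℝ → ℂ), Sol (fun t => W t ω) z₀ t g →
          ENNReal.ofReal (Real.exp (∫ v in (0 : ℝ)..t, kk 2 0 (g v - W v ω))) ≤ Y ω := by
  obtain ⟨B, hB⟩ := EXaux.bdd hψ.continuous hψp
  have hGE : ∀ z : ℂ, GE 0 ψ z = Real.exp (ψ (Complex.arg z)) := fun z => by
    rw [GE, zero_mul, zero_add]
  have hgen : ∀ θ, Op a b c 0 ψ θ - 2 * 2 * Real.cos (2 * θ) + 0 ≤ 0 := fun θ => by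
    rw [add_zero]
    exact hop θ
  have hδ : ∀ l : ℕ, (0 : ℝ) < (1 / 2) ^ l := fun l => by positivity
  have hδR : ∀ l : ℕ, ((1 : ℝ) / 2) ^ l ≤ 2 ^ l := fun l =>
    (pow_le_one₀ (by norm_num) (by norm_num)).trans (one_le_pow₀ (by norm_num))
  choose F hFm hF0 hFle hFeq C' hC' h₀ hh₀ hone using fun l : ℕ =>
    ge_one_step (μ := μ) ha hb hK hψ hψp hgen (hδ l) (hδR l)
  refine ⟨Real.exp 1 * (Real.exp 1 * Real.exp (2 * B)), by positivity, ?_⟩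
  intro W hW z₀ t ht
  have hN : ∀ l : ℕ, ∃ n : ℕ, l ≤ n ∧ ((1 : ℝ) / 2) ^ n ≤ h₀ l ∧
      C' l * √((1 / 2) ^ n) ≤ 1 / (t + 1) := by
    intro l
    have h1 : Tendsto (fun n : ℕ => C' l * √(((1 : ℝ) / 2) ^ n)) atTop (𝓝 (C' l * √0)) :=
      ((Real.continuous_sqrt.tendsto 0).comp EulerAux.tendsto_h).const_mul _
    rw [Real.sqrt_zero, mul_zero] at h1
    have h2 : (0 : ℝ) < 1 / (t + 1) := by positivity
    obtain ⟨n, hn1, hn2, hn3⟩ := ((eventually_ge_atTop l).and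
      (((tendsto_order.1 EulerAux.tendsto_h).2 _ (hh₀ l)).and
        ((tendsto_order.1 h1).2 _ h2))).exists
    exact ⟨n, hn1, hn2.le, hn3.le⟩
  choose n hnl hn₀ hn' using hN
  have hn : Tendsto n atTop atTop := tendsto_atTop_mono hnl tendsto_id
  have hYm : ∀ l : ℕ, Measurable[Blk W 0 t]
      (TCBWAR.Yl W z₀ ((1 / 2) ^ l) (2 ^ l) (n l) (EulerAux.jn t (n l))) := fun l =>
    TCBWAR.Yl_meas (EulerAux.jn_le ht (n l))
  have hYi : ∀ l : ℕ, ∫⁻ ω, TCBWAR.Yl W z₀ ((1 / 2) ^ l) (2 ^ l) (n l)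
      (EulerAux.jn t (n l)) ω ∂μ ≤ ENNReal.ofReal (Real.exp 1 * Real.exp (2 * B)) := by
    intro l
    have hh : (0 : ℝ) < (1 / 2) ^ n l := by positivity
    have hQ0 : 0 ≤ C' l * ((1 / 2) ^ n l * √((1 / 2) ^ n l)) :=
      mul_nonneg (hC' l).le (mul_nonneg hh.le (Real.sqrt_nonneg _))
    have h1 := TCBWAR.Yl_int (μ := μ) (δ := (1 / 2) ^ l) (R := 2 ^ l) (n := n l) (B := B) hW
      (Q := 1 + C' l * ((1 / 2) ^ n l * √((1 / 2) ^ n l))) (by linarith) (hFm l)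
      (fun z => (hFle l z).trans (by
        rw [hGE]
        exact Real.exp_le_exp.2 ((abs_le.1 (hB _)).2)))
      (fun z hz1 hz2 => by
        rw [hFeq l z hz1 hz2, hGE]
        exact Real.exp_le_exp.2 ((abs_le.1 (hB _)).1))
      (fun z s hz1 hz2 hs => hone l W hW _ hh (hn₀ l) z s hz1 hz2 hs) z₀ (EulerAux.jn t (n l))
    refine h1.trans (ENNReal.ofReal_le_ofReal ?_)
    refine mul_le_mul_of_nonneg_right ?_ (Real.exp_pos _).le
    have h2 : 1 + C' l * ((1 / 2) ^ n l * √((1 / 2) ^ n l)) ≤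
        Real.exp (C' l * ((1 / 2) ^ n l * √((1 / 2) ^ n l))) := by
      linarith [Real.add_one_le_exp (C' l * ((1 / 2) ^ n l * √((1 / 2) ^ n l)))]
    refine (pow_le_pow_left₀ (by linarith) h2 _).trans ?_
    rw [← Real.exp_nat_mul]
    refine Real.exp_le_exp.2 ?_
    have h3 : (EulerAux.jn t (n l) : ℝ) * (C' l * ((1 / 2) ^ n l * √((1 / 2) ^ n l))) =
        (EulerAux.jn t (n l) : ℝ) * (1 / 2) ^ n l * (C' l * √((1 / 2) ^ n l)) := by ring
    rw [h3]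
    have h4 : 0 ≤ C' l * √((1 / 2) ^ n l) := mul_nonneg (hC' l).le (Real.sqrt_nonneg _)
    refine (mul_le_mul (EulerAux.jn_le ht (n l)) (hn' l) h4 ht).trans ?_
    rw [mul_one_div, div_le_one (by linarith)]
    linarith
  refine ⟨fun ω => ENNReal.ofReal (Real.exp 1) * liminf (fun l => TCBWAR.Yl W z₀ ((1 / 2) ^ l)
    (2 ^ l) (n l) (EulerAux.jn t (n l)) ω) atTop, ?_, ?_, ?_⟩
  · exact (Measurable.liminf hYm).const_mul _
  · have hYm' : ∀ l : ℕ, Measurable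
        (TCBWAR.Yl W z₀ ((1 / 2) ^ l) (2 ^ l) (n l) (EulerAux.jn t (n l))) := fun l =>
      (hYm l).mono (Blk_le hW _ _) le_rfl
    rw [lintegral_const_mul' _ _ ENNReal.ofReal_ne_top,
      ENNReal.ofReal_mul (Real.exp_pos _).le]
    refine mul_le_mul_right ?_ _
    refine (lintegral_liminf_le hYm').trans ?_
    refine (liminf_le_liminf (Eventually.of_forall hYi)).trans ?_
    rw [liminf_const]
  · intro ω g hs
    obtain ⟨δ₀, hδ₀, R₀, hev⟩ := TCBWAR.low_bound (hW.cont ω) (hW.zero 0 le_rfl ω) ht hs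
    have h1 : ENNReal.ofReal (Real.exp ((∫ v in (0 : ℝ)..t, kk 2 0 (g v - W v ω)) - 1)) ≤
        liminf (fun l => TCBWAR.Yl W z₀ ((1 / 2) ^ l) (2 ^ l) (n l)
          (EulerAux.jn t (n l)) ω) atTop := by
      refine le_liminf_of_le (by isBoundedDefault) ?_
      have h2 : ∀ᶠ l : ℕ in atTop, R₀ ≤ (2 : ℝ) ^ l :=
        (tendsto_pow_atTop_atTop_of_one_lt (by norm_num : (1 : ℝ) < 2)).eventually_ge_atTop R₀
      filter_upwards [hn.eventually hev, h2, (tendsto_order.1 EulerAux.tendsto_h).2 _ hδ₀]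
        with l h3 h4 h5
      exact h3 _ _ h5.le h4
    refine le_trans ?_ (mul_le_mul_right h1 _)
    rw [← ENNReal.ofReal_mul (Real.exp_pos _).le, ← Real.exp_add]
    refine le_of_eq ?_
    congr 2
    ring

/-- BWAR2. The area functional: `J` dominates `r^2 |g_t'(z)|^2` whenever the ball of radius `r`
around `z` (contained in the disc of radius `ρ`) follows the solution of `z`.

Proof. For `n : ℕ` let `J_n = ∑ (1/4)^n Y^{z'}` over the grid points `z' = (i + j I) / 2^n`,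
`|i|, |j| ≤ ρ 2^n` (`Y^{z'}` from `area_pt`); `∫ J_n ≤ C (3 ρ)^2`. `J = C' liminf_n J_n` (Fatou).
Lower bound: for `2^(-n) ≤ r / 4` at least `r^2 4^n / 4` points of the grid are in the ball, and
for each `exp (∫ kk 2 0 (Z')) ≥ exp (-2) exp (∫ kk 2 0 (Z))` (`kk 2 0 = 2 * kk 1 0`). -/
theorem area_fun [IsProbabilityMeasure μ] {a b c K : ℝ} (ha : 0 ≤ a) (hb : 0 ≤ b) (hK : 0 ≤ K)
    {ψ : ℝ → ℝ} (hψ : ContDiff ℝ 3 ψ) (hψp : Function.Periodic ψ (2 * π))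
    (hop : ∀ θ, Op a b c 0 ψ θ - 2 * 2 * Real.cos (2 * θ) ≤ 0) :
    ∃ C > 0, ∀ W : ℝ → Ω → ℂ, Drv a b c K W μ → ∀ (ρ t : ℝ), 1 ≤ ρ → 0 ≤ t →
      ∃ J : Ω → ℝ≥0∞, Measurable[Blk W 0 t] J ∧ ∫⁻ ω, J ω ∂μ ≤ ENNReal.ofReal (C * ρ ^ 2) ∧
        ∀ (ω : Ω) (z : ℂ) (g : ℝ → ℂ) (r : ℝ), 0 < r → ‖z‖ + r ≤ ρ →
          Sol (fun t => W t ω) z t g →
          (∀ w : ℂ, ‖w - z‖ ≤ r → ∃ g' : ℝ → ℂ, Sol (fun t => W t ω) w t g' ∧
            |(∫ v in (0 : ℝ)..t, kk 1 0 (g' v - W v ω)) -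
              ∫ v in (0 : ℝ)..t, kk 1 0 (g v - W v ω)| ≤ 1) →
          ENNReal.ofReal (r ^ 2 * Real.exp (∫ v in (0 : ℝ)..t, kk 2 0 (g v - W v ω))) ≤
            J ω := by
  obtain ⟨C, hC, hpt⟩ := area_pt (μ := μ) ha hb hK hψ hψp hop
  refine ⟨16 * Real.exp 2 * (25 * C), by positivity, ?_⟩
  intro W hW ρ t hρ ht
  choose Y hYm hYi hYl using fun z₀ : ℂ => hpt W hW z₀ t ht
  have h4 : ∀ n : ℕ, ENNReal.ofReal ((1 / 4) ^ n) * ENNReal.ofReal (4 ^ n) = 1 := fun n => by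
    rw [← ENNReal.ofReal_mul (by positivity), ← mul_pow]
    norm_num
  have hJm : ∀ n : ℕ, Measurable[Blk W 0 t] (fun ω => ∑ i ∈ TCBWAR.gI ρ n,
      ENNReal.ofReal ((1 / 4) ^ n) * Y (TCBWAR.gp n i) ω) := fun n =>
    Finset.measurable_sum _ fun i _ => (hYm _).const_mul _
  have hJi : ∀ n : ℕ, ∫⁻ ω, ∑ i ∈ TCBWAR.gI ρ n,
      ENNReal.ofReal ((1 / 4) ^ n) * Y (TCBWAR.gp n i) ω ∂μ ≤
      ENNReal.ofReal (25 * C * ρ ^ 2) := by
    intro n
    rw [lintegral_finsetSum _ (fun i _ => ((hYm _).mono (Blk_le hW _ _) le_rfl).const_mul _)]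
    have h1 : ∀ i ∈ TCBWAR.gI ρ n, ∫⁻ ω, ENNReal.ofReal ((1 / 4) ^ n) *
        Y (TCBWAR.gp n i) ω ∂μ ≤ ENNReal.ofReal ((1 / 4) ^ n) * ENNReal.ofReal C := by
      intro i _
      rw [lintegral_const_mul' _ _ ENNReal.ofReal_ne_top]
      exact mul_le_mul_right (hYi _) _
    refine (Finset.sum_le_sum h1).trans ?_
    rw [Finset.sum_const, nsmul_eq_mul, ← ENNReal.ofReal_natCast,
      ← ENNReal.ofReal_mul (by positivity), ← ENNReal.ofReal_mul (by positivity)]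
    refine ENNReal.ofReal_le_ofReal ?_
    have h2 := TCBWAR.gI_card hρ n
    have h3 : ((4 : ℝ)) ^ n * (1 / 4) ^ n = 1 := by
      rw [← mul_pow]
      norm_num
    calc ((TCBWAR.gI ρ n).card : ℝ) * ((1 / 4) ^ n * C)
        ≤ 25 * ρ ^ 2 * 4 ^ n * ((1 / 4) ^ n * C) :=
          mul_le_mul_of_nonneg_right h2 (by positivity)
      _ = 25 * C * ρ ^ 2 := by
          linear_combination (25 * ρ ^ 2 * C) * h3
  refine ⟨fun ω => ENNReal.ofReal (16 * Real.exp 2) * liminf (fun n => ∑ i ∈ TCBWAR.gI ρ n,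
      ENNReal.ofReal ((1 / 4) ^ n) * Y (TCBWAR.gp n i) ω) atTop, ?_, ?_, ?_⟩
  · exact (Measurable.liminf hJm).const_mul _
  · have hJm' : ∀ n : ℕ, Measurable (fun ω => ∑ i ∈ TCBWAR.gI ρ n,
        ENNReal.ofReal ((1 / 4) ^ n) * Y (TCBWAR.gp n i) ω) := fun n =>
      (hJm n).mono (Blk_le hW _ _) le_rfl
    have h1 : 16 * Real.exp 2 * (25 * C) * ρ ^ 2 = 16 * Real.exp 2 * (25 * C * ρ ^ 2) := by
      ring
    rw [lintegral_const_mul' _ _ ENNReal.ofReal_ne_top, h1,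
      ENNReal.ofReal_mul (p := 16 * Real.exp 2) (by positivity)]
    refine mul_le_mul_right ?_ _
    refine (lintegral_liminf_le hJm').trans ?_
    refine (liminf_le_liminf (Eventually.of_forall hJi)).trans ?_
    rw [liminf_const]
  · intro ω z g r hr hz hs hball
    obtain ⟨E, hE⟩ : ∃ E, E = ∫ v in (0 : ℝ)..t, kk 2 0 (g v - W v ω) := ⟨_, rfl⟩
    have hpoint : ∀ w : ℂ, ‖w - z‖ ≤ r → ENNReal.ofReal (Real.exp (E - 2)) ≤ Y w ω := by
      intro w hw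
      obtain ⟨g', hg', hcl⟩ := hball w hw
      refine le_trans (ENNReal.ofReal_le_ofReal (Real.exp_le_exp.2 ?_)) (hYl w ω g' hg')
      have h1 := (abs_le.1 hcl).1
      have h2 := TCBWAR.int_two (fun t => W t ω) g t
      have h3 := TCBWAR.int_two (fun t => W t ω) g' t
      rw [hE, h2, h3]
      linarith
    have h1 : ENNReal.ofReal (r ^ 2 / 16 * Real.exp (E - 2)) ≤
        liminf (fun n => ∑ i ∈ TCBWAR.gI ρ n,
          ENNReal.ofReal ((1 / 4) ^ n) * Y (TCBWAR.gp n i) ω) atTop := by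
      refine le_liminf_of_le (by isBoundedDefault) ?_
      have h2 : ∀ᶠ n : ℕ in atTop, 4 / r ≤ (2 : ℝ) ^ n :=
        (tendsto_pow_atTop_atTop_of_one_lt (by norm_num : (1 : ℝ) < 2)).eventually_ge_atTop _
      filter_upwards [h2] with n hn
      have hn' : 4 ≤ r * 2 ^ n := by
        rw [div_le_iff₀ hr] at hn
        linarith
      obtain ⟨S, hS, hcard, hSz⟩ := TCBWAR.gI_sub hr hz hn'
      refine le_trans ?_ (Finset.sum_le_sum_of_subset hS)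
      have h3 : ∀ i ∈ S, ENNReal.ofReal ((1 / 4) ^ n) * ENNReal.ofReal (Real.exp (E - 2)) ≤
          ENNReal.ofReal ((1 / 4) ^ n) * Y (TCBWAR.gp n i) ω := fun i hi =>
        mul_le_mul_right (hpoint _ (hSz i hi)) _
      refine le_trans ?_ (Finset.sum_le_sum h3)
      rw [Finset.sum_const, nsmul_eq_mul, ← ENNReal.ofReal_natCast,
        ← ENNReal.ofReal_mul (by positivity), ← ENNReal.ofReal_mul (by positivity)]
      refine ENNReal.ofReal_le_ofReal ?_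
      have h5 : ((4 : ℝ)) ^ n * (1 / 4) ^ n = 1 := by
        rw [← mul_pow]
        norm_num
      calc r ^ 2 / 16 * Real.exp (E - 2)
          = r ^ 2 / 16 * 4 ^ n * ((1 / 4) ^ n * Real.exp (E - 2)) := by
            linear_combination (-(r ^ 2 / 16 * Real.exp (E - 2))) * h5
        _ ≤ _ := mul_le_mul_of_nonneg_right hcard (by positivity)
    refine le_trans ?_ (mul_le_mul_right h1 _)
    rw [← ENNReal.ofReal_mul (by positivity), ← hE]
    refine ENNReal.ofReal_le_ofReal (le_of_eq ?_)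
    have h2 : Real.exp E = Real.exp 2 * Real.exp (E - 2) := by
      rw [← Real.exp_add]
      congr 1
      ring
    rw [h2]
    ring

/-- BWAR3. At fixed times no point of the disc of radius `ρ` which is at distance `≥ R` of the
tip is almost at a record (looking back), except with small probability.

Proof. For `i < N` and `t = i h` let `J` be from `area_fun` for `2 ρ`, and
`A_i = {J > (ε / 32)^2 exp (-2 Δ) R^2 / 2}`: Markov. If `ω ∉ A_i` and the conclusion fails for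
`z, g`, then `shadow_rec` applies with `r = ε / 32 exp (- ph_t - Δ)` (`r ≤ ‖z‖`: the hypothesis
at `u = 0`, `ph_0 = - log ‖z‖`), and `r^2 |g_t'|^2 = (ε / 32)^2 exp (-2 Δ) |Z_t|^2`, as
`∫ kk 1 0 = ph_t + log |Z_t|`; contradiction. -/
theorem area_late [IsProbabilityMeasure μ] {a b c K : ℝ} (ha : 0 ≤ a) (hb : 0 ≤ b) (hK : 0 ≤ K)
    {ψ : ℝ → ℝ} (hψ : ContDiff ℝ 3 ψ) (hψp : Function.Periodic ψ (2 * π))
    (hop : ∀ θ, Op a b c 0 ψ θ - 2 * 2 * Real.cos (2 * θ) ≤ 0) {ε : ℝ} (hε : 0 < ε)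
    (hε1 : ε ≤ 1) :
    ∃ C > 0, ∀ W : ℝ → Ω → ℂ, Drv a b c K W μ → ∀ (ρ R Δ h : ℝ) (N : ℕ), 1 ≤ ρ → 0 < R →
      0 ≤ Δ → 0 ≤ h → ∃ A, MeasurableSet A ∧
        μ A ≤ ENNReal.ofReal (C * N * ρ ^ 2 * Real.exp (2 * Δ) / R ^ 2) ∧
        ∀ ω ∉ A, ∀ i < N, ∀ (z : ℂ) (g : ℝ → ℂ), ‖z‖ ≤ ρ → Sol (fun t => W t ω) z (i * h) g →
          R ≤ ‖g (i * h) - W (i * h) ω‖ →
          ∃ w ∈ Set.Icc (0 : ℝ) (i * h), ph (fun t => W t ω) g 0 (i * h) + Δ <
            ph (fun t => W t ω) g 0 w + ε * lk (fun t => W t ω) g w (i * h) := by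
  obtain ⟨C, hC, hfun⟩ := area_fun (μ := μ) ha hb hK hψ hψp hop
  refine ⟨C * 8 * 1024 / ε ^ 2, by positivity, ?_⟩
  intro W hW ρ R Δ h N hρ hR hΔ hh
  choose J hJm hJi hJl using fun i : ℕ =>
    hfun W hW (2 * ρ) (i * h) (by linarith) (by positivity)
  obtain ⟨x, hx⟩ : ∃ x, x = (ε / 32) ^ 2 * Real.exp (-(2 * Δ)) * R ^ 2 / 2 := ⟨_, rfl⟩
  have hx0 : 0 < x := by rw [hx]; positivity
  have hJm' : ∀ i : ℕ, Measurable (J i) := fun i => (hJm i).mono (Blk_le hW _ _) le_rfl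
  have hmark : ∀ i : ℕ, μ {ω | ENNReal.ofReal x ≤ J i ω} ≤
      ENNReal.ofReal (C * (2 * ρ) ^ 2 / x) := by
    intro i
    have h1 := (mul_meas_ge_le_lintegral (hJm' i) (ENNReal.ofReal x)).trans (hJi i)
    rw [ENNReal.ofReal_div_of_pos hx0, ENNReal.le_div_iff_mul_le
      (Or.inl (by simpa using hx0)) (Or.inl ENNReal.ofReal_ne_top), mul_comm]
    exact h1
  refine ⟨⋃ i ∈ Finset.range N, {ω | ENNReal.ofReal x ≤ J i ω}, ?_, ?_, ?_⟩
  · exact MeasurableSet.biUnion (Finset.range N).countable_toSet fun i _ =>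
      measurableSet_le measurable_const (hJm' i)
  · refine (measure_biUnion_finset_le _ _).trans ((Finset.sum_le_sum fun i _ => hmark i).trans ?_)
    rw [Finset.sum_const, Finset.card_range, nsmul_eq_mul, ← ENNReal.ofReal_natCast,
      ← ENNReal.ofReal_mul (Nat.cast_nonneg _)]
    refine ENNReal.ofReal_le_ofReal (le_of_eq ?_)
    have h1 : Real.exp (-(2 * Δ)) = (Real.exp (2 * Δ))⁻¹ := Real.exp_neg _
    have h2 := Real.exp_pos (2 * Δ)
    rw [hx, h1]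
    field_simp
    ring
  · intro ω hω i hi z g hz hs hRt
    by_contra hcon
    push Not at hcon
    apply hω
    have hmemr : i ∈ Finset.range N := Finset.mem_range.2 hi
    refine Set.mem_biUnion hmemr ?_
    have ht : (0 : ℝ) ≤ i * h := by positivity
    obtain ⟨t, htdef⟩ : ∃ t, t = (i : ℝ) * h := ⟨_, rfl⟩
    have hJli := hJl i ω
    rw [← htdef] at hs hRt hcon ht hJli
    obtain ⟨P, hP⟩ : ∃ P, P = ph (fun t => W t ω) g 0 t := ⟨_, rfl⟩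
    have hU := hW.cont ω
    have h0 := hW.zero 0 le_rfl ω
    obtain ⟨r, hr⟩ : ∃ r, r = ε / 32 * Real.exp (-(ph (fun t => W t ω) g 0 t) - Δ) := ⟨_, rfl⟩
    have hrpos : 0 < r := by rw [hr]; positivity
    have hz0 : 0 < ‖z‖ := by
      have h1 := hs.2.1 0 ⟨le_rfl, ht⟩
      rw [hs.1] at h1
      simp only [h0] at h1
      exact norm_pos_iff.2 h1
    -- the radius
    have hrz : r ≤ ‖z‖ := by
      have h1 := hcon 0 ⟨le_rfl, ht⟩
      have h2 : ph (fun t => W t ω) g 0 0 = -Real.log ‖z‖ := by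
        simp only [ph, intervalIntegral.integral_same, hs.1, h0, sub_zero, zero_sub]
      have h3 : 0 ≤ lk (fun t => W t ω) g 0 t :=
        intervalIntegral.integral_nonneg ht fun u _ => by positivity
      rw [h2] at h1
      have h4 : -(ph (fun t => W t ω) g 0 t) - Δ ≤ Real.log ‖z‖ := by
        have := mul_nonneg hε.le h3
        linarith
      have h5 : Real.exp (-(ph (fun t => W t ω) g 0 t) - Δ) ≤ ‖z‖ := by
        rw [← Real.exp_log hz0]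
        exact Real.exp_le_exp.2 h4
      rw [hr]
      have h6 : ε / 32 ≤ 1 := by linarith
      calc ε / 32 * Real.exp (-(ph (fun t => W t ω) g 0 t) - Δ) ≤ 1 * ‖z‖ :=
            mul_le_mul h6 h5 (Real.exp_pos _).le (by norm_num)
        _ = ‖z‖ := one_mul _
    have h1 := hJli z g r hrpos (by linarith) hs (fun w hw => by
      obtain ⟨g', hg', -, hcl⟩ := shadow_rec hU h0 ht hε hε1 hs hcon (w := w)
        (by rw [← hr]; exact hw)
      exact ⟨g', hg', hcl⟩)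
    refine le_trans (ENNReal.ofReal_le_ofReal ?_) h1
    -- the value
    have h2 := TCBWAR.int_two (fun t => W t ω) g t
    have hZpos : 0 < ‖g t - W t ω‖ := lt_of_lt_of_le hR hRt
    have h3 : ∫ v in (0 : ℝ)..t, kk 1 0 (g v - W v ω) = P + Real.log ‖g t - W t ω‖ := by
      rw [hP]
      simp only [ph]
      ring
    rw [h2, h3, hr, ← hP, hx]
    have h4 : Real.exp (2 * (P + Real.log ‖g t - W t ω‖)) =
        Real.exp P ^ 2 * ‖g t - W t ω‖ ^ 2 := by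
      have h5 : 2 * (P + Real.log ‖g t - W t ω‖) =
          (P + Real.log ‖g t - W t ω‖) + (P + Real.log ‖g t - W t ω‖) := by ring
      rw [h5, Real.exp_add, Real.exp_add, Real.exp_log hZpos]
      ring
    have h5 : Real.exp (-P - Δ) ^ 2 * Real.exp P ^ 2 = Real.exp (-(2 * Δ)) := by
      rw [← mul_pow, ← Real.exp_add, ← Real.exp_nat_mul]
      congr 1
      push_cast
      ring
    have h6 : (ε / 32 * Real.exp (-P - Δ)) ^ 2 * Real.exp (2 * (P + Real.log ‖g t - W t ω‖)) =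
        (ε / 32) ^ 2 * Real.exp (-(2 * Δ)) * ‖g t - W t ω‖ ^ 2 := by
      rw [h4, ← h5]
      ring
    rw [h6]
    have h7 : R ^ 2 ≤ ‖g t - W t ω‖ ^ 2 := pow_le_pow_left₀ hR.le hRt 2
    have h8 : 0 ≤ (ε / 32) ^ 2 * Real.exp (-(2 * Δ)) := by positivity
    have h9 := mul_le_mul_of_nonneg_left h7 h8
    have h10 : 0 ≤ (ε / 32) ^ 2 * Real.exp (-(2 * Δ)) * R ^ 2 := by positivity
    linarith

end

end Pool.Agent.SLE
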