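import Pool.Agent.Lib.MP_c17912_pr_TC.BWIF
import Pool.Agent.Lib.MP_c17912_pr_TR.SCL

/-!
# MP_c17912_pr, project TC, backward critical case: `CutFree` and `Z`

`CutFree` depends only on `Z = g - U`.
-/

set_option autoImplicit false

open MeasureTheory ProbabilityTheory Filter
open scoped NNReal ENNReal Topology Real

namespace Pool.Agent.SLE

noncomputable section

namespace TCBWCF

theorem ph_diff {U g U' g' : ℝ → ℂ} {z z' : ℂ} {ε α u : ℝ} (hU : Continuous U)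
    (hU' : Continuous U') (hα : 0 ≤ α) (hu : 0 ≤ u) (hg : Sol U z (α + u) g)
    (hg' : Sol U' z' u g') (hZ : ∀ v ∈ Set.Icc 0 u, g' v - U' v = g (α + v) - U (α + v))
    {x y : ℝ} (hx : x ∈ Set.Icc 0 u) (hy : y ∈ Set.Icc 0 u) :
    ph U' g' ε x - ph U' g' ε y = ph U g ε (α + x) - ph U g ε (α + y) := by
  have hαu : 0 ≤ α + u := add_nonneg hα hu
  have e1 : (∫ v in (0 : ℝ)..x, kk 1 ε (g' v - U' v)) -
      (∫ v in (0 : ℝ)..y, kk 1 ε (g' v - U' v)) = ∫ v in y..x, kk 1 ε (g' v - U' v) :=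
    intervalIntegral.integral_interval_sub_left
      (TCBWRV.kk_int hU' hg' ε le_rfl hu hx.1 hx.2)
      (TCBWRV.kk_int hU' hg' ε le_rfl hu hy.1 hy.2)
  have hx1 : 0 ≤ α + x := add_nonneg hα hx.1
  have hx2 : α + x ≤ α + u := by linarith [hx.2]
  have hy1 : 0 ≤ α + y := add_nonneg hα hy.1
  have hy2 : α + y ≤ α + u := by linarith [hy.2]
  have e2 : (∫ v in (0 : ℝ)..(α + x), kk 1 ε (g v - U v)) -
      (∫ v in (0 : ℝ)..(α + y), kk 1 ε (g v - U v)) =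
      ∫ v in (α + y)..(α + x), kk 1 ε (g v - U v) :=
    intervalIntegral.integral_interval_sub_left
      (TCBWRV.kk_int hU hg ε le_rfl hαu hx1 hx2)
      (TCBWRV.kk_int hU hg ε le_rfl hαu hy1 hy2)
  have e3 : (∫ v in y..x, kk 1 ε (g' v - U' v)) =
      ∫ v in (α + y)..(α + x), kk 1 ε (g v - U v) := by
    rw [← intervalIntegral.integral_comp_add_left (fun v => kk 1 ε (g v - U v)) α]
    apply intervalIntegral.integral_congr
    intro v hv
    have hv' : v ∈ Set.Icc 0 u := by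
      rcases Set.mem_uIcc.1 hv with hv | hv
      · exact ⟨hy.1.trans hv.1, hv.2.trans hx.2⟩
      · exact ⟨hx.1.trans hv.1, hv.2.trans hy.2⟩
    simp only
    rw [hZ v hv']
  unfold ph
  rw [hZ x hx, hZ y hy]
  linarith

theorem psub_cont {U : ℝ → ℂ} (hU : Continuous U) (s r : ℝ) : Continuous (psub U s r) := by
  unfold psub
  fun_prop

theorem sol_mono {U : ℝ → ℂ} {z : ℂ} {t t' : ℝ} {g : ℝ → ℂ} (h : Sol U z t g) (ht : t' ≤ t) :
    Sol U z t' g := by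
  have hs : Set.Icc 0 t' ⊆ Set.Icc 0 t := Set.Icc_subset_Icc_right ht
  exact ⟨h.1, fun s hs' => h.2.1 s (hs hs'), fun s hs' => (h.2.2 s (hs hs')).mono hs⟩

end TCBWCF

/-- BWCF1. `CutFree` depends only on `Z`. Proof: for `v, v' ∈ [0,u]` both differences
`ph _ _ ε v - ph _ _ ε v'` are `∫ kk 1 ε (Z)` over the same values of `Z` minus the difference of
the logarithms (`∫_0^(α+v) - ∫_0^(α+v') = ∫_(α+v')^(α+v)`: `kk 1 ε ∘ Z` is continuous on
`[0, α+u]`, so interval integrable; substitution). -/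
theorem cf_of_Z {U g U' g' : ℝ → ℂ} {z z' : ℂ} {ε c₀ α u : ℝ} (hU : Continuous U)
    (hU' : Continuous U') (hα : 0 ≤ α) (hu : 0 ≤ u) (hg : Sol U z (α + u) g)
    (hg' : Sol U' z' u g') (hZ : ∀ v ∈ Set.Icc 0 u, g' v - U' v = g (α + v) - U (α + v))
    (h : CutFree U g ε c₀ α (α + u)) : CutFree U' g' ε c₀ 0 u := by
  intro x hx hx1
  have hx' : α + x ∈ Set.Icc α (α + u) := ⟨by linarith [hx.1], by linarith [hx.2]⟩
  rw [hZ x hx] at hx1
  obtain ⟨v, hv, hlt⟩ := h (α + x) hx' hx1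
  have hv0 : v - α ∈ Set.Icc 0 x := ⟨by linarith [hv.1], by linarith [hv.2]⟩
  refine ⟨v - α, hv0, ?_⟩
  have hd := TCBWCF.ph_diff (ε := ε) hU hU' hα hu hg hg' hZ hx
    (y := v - α) ⟨hv0.1, hv0.2.trans hx.2⟩
  rw [add_sub_cancel] at hd
  linarith

/-- BWCF2. The solution restarted at the time `α` (scale `1`), see `Sol.shift`. -/
theorem cf_shift {U g : ℝ → ℂ} {z : ℂ} {ε c₀ α u : ℝ} (hU : Continuous U) (hα : 0 ≤ α)
    (hu : 0 ≤ u) (hg : Sol U z (α + u) g) (h : CutFree U g ε c₀ α (α + u)) :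
    Sol (psub U α 1) (g α - U α) u (gs U g α 1) ∧ CutFree (psub U α 1) (gs U g α 1) ε c₀ 0 u ∧
      ∀ v ∈ Set.Icc 0 u, gs U g α 1 v - psub U α 1 v = g (α + v) - U (α + v) := by
  have h1 := hg.shift hα (by linarith : α ≤ α + u) one_pos
  have hz : (1 : ℝ)⁻¹ • (g α - U α) = g α - U α := by
    rw [inv_one, one_smul]
  have ht : (α + u - α) / (1 : ℝ) ^ 2 = u := by
    rw [one_pow, div_one, add_sub_cancel_left]
  rw [hz, ht] at h1
  have hZ : ∀ v ∈ Set.Icc 0 u, gs U g α 1 v - psub U α 1 v = g (α + v) - U (α + v) := by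
    intro v hv
    rw [TRSCL.diff_eq U g α 1 hv.1, inv_one, one_smul, one_pow, one_mul]
  exact ⟨h1, cf_of_Z hU (TCBWCF.psub_cont hU α 1) hα hu hg h1 hZ h, hZ⟩

/-- BWCF3. Scaling and reversal. `g` is a solution on `[0,T]`; the reversed solution is scaled by
`r = rr m`; from the cell `α` of the mesh `r^2` on it is the reversal, from the time
`u = T 4^m - α` on, of the scaled solution `gs U g 0 r`.

Proof. `Z` of the reversed scaled solution at the time `α + v` is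
`r⁻¹ • i Z_(T - r² (α + v))` (`rv_Z`, `Sol.shift`), and that of the reversal of `gs U g 0 r`
(restricted to `[0,u]`) at the time `v` is `i r⁻¹ • Z_(r² (u - v))`. `cf_of_Z`, `rv_sol`. -/
theorem cf_rev {U g : ℝ → ℂ} {z : ℂ} {ε c₀ : ℝ} {T m α u : ℕ} (hU : Continuous U)
    (h0 : U 0 = 0) (hg : Sol U z T g) (hαu : α + u = T * 4 ^ m)
    (h : CutFree (psub (rvU U T) 0 (rr m)) (gs (rvU U T) (rvg U g T) 0 (rr m)) ε c₀ α
      (T * 4 ^ m : ℕ)) :
    CutFree (rvU (psub U 0 (rr m)) u) (rvg (psub U 0 (rr m)) (gs U g 0 (rr m)) u) ε c₀ 0 u ∧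
      ‖gs U g 0 (rr m) u - psub U 0 (rr m) u‖ =
        ‖gs (rvU U T) (rvg U g T) 0 (rr m) α - psub (rvU U T) 0 (rr m) α‖ := by
  have _ := h0
  have hr := TRSCL.rr_pos m
  have h4 := TRSCL.four_rr m
  have hr2 : 0 < rr m ^ 2 := by positivity
  have hT : (0 : ℝ) ≤ T := Nat.cast_nonneg T
  have hα : (0 : ℝ) ≤ α := Nat.cast_nonneg α
  have hu : (0 : ℝ) ≤ u := Nat.cast_nonneg u
  have hαu' : (α : ℝ) + u = (T : ℝ) * 4 ^ m := by
    have h1 : ((α + u : ℕ) : ℝ) = ((T * 4 ^ m : ℕ) : ℝ) := by rw [hαu]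
    push_cast at h1
    exact h1
  have hcast : ((T * 4 ^ m : ℕ) : ℝ) = (α : ℝ) + u := by
    rw [hαu']
    push_cast
    ring
  have hTr : rr m ^ 2 * ((α : ℝ) + u) = T := by
    rw [hαu']
    linear_combination (T : ℝ) * h4
  have htime : ((T : ℝ) - 0) / rr m ^ 2 = (α : ℝ) + u := by
    rw [div_eq_iff hr2.ne', sub_zero]
    linarith
  have hs1 := (rv_sol hT hg).shift le_rfl hT hr
  rw [htime] at hs1
  have hs2 := hg.shift le_rfl hT hr
  rw [htime] at hs2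
  have hs3 := rv_sol hu (TCBWCF.sol_mono hs2 (by linarith : (u : ℝ) ≤ α + u))
  have hmap : ∀ v ∈ Set.Icc (0 : ℝ) u, 0 ≤ rr m ^ 2 * ((α : ℝ) + v) ∧
      rr m ^ 2 * ((α : ℝ) + v) ≤ T := by
    intro v hv
    refine ⟨mul_nonneg hr2.le (add_nonneg hα hv.1), ?_⟩
    rw [← hTr]
    exact mul_le_mul_of_nonneg_left (by linarith [hv.2]) hr2.le
  have hZ : ∀ v ∈ Set.Icc (0 : ℝ) u,
      rvg (psub U 0 (rr m)) (gs U g 0 (rr m)) u v - rvU (psub U 0 (rr m)) u v =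
        gs (rvU U T) (rvg U g T) 0 (rr m) (α + v) - psub (rvU U T) 0 (rr m) (α + v) := by
    intro v hv
    have hαv : 0 ≤ (α : ℝ) + v := add_nonneg hα hv.1
    rw [rv_Z hv.1 hv.2, TRSCL.diff_eq _ _ _ _ (by linarith [hv.2] : (0 : ℝ) ≤ u - v),
      TRSCL.diff_eq _ _ _ _ hαv, zero_add, zero_add, rv_Z (hmap v hv).1 (hmap v hv).2,
      mul_smul_comm]
    have he : (T : ℝ) - rr m ^ 2 * (α + v) = rr m ^ 2 * (u - v) := by
      linear_combination -hTr
    rw [he]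
  refine ⟨?_, ?_⟩
  · rw [hcast] at h
    exact cf_of_Z (TCBWCF.psub_cont (rv_cont hU) 0 (rr m))
      (rv_cont (TCBWCF.psub_cont hU 0 (rr m))) hα hu hs1 hs3 hZ h
  · have h1 := hZ 0 ⟨le_rfl, hu⟩
    rw [add_zero, rv_Z le_rfl hu, sub_zero] at h1
    rw [← h1, norm_mul, Complex.norm_I, one_mul]

end

end Pool.Agent.SLE
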