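import Pool.Agent.Lib.MP_c17912_pr_TC.BWRD

/-!
# MP_c17912_pr, project TC: the interface between the forward critical part and the backward one

The statements are for a forward critical matrix `(a, b, c)`. `(Ω, μ)` is fixed. All constants and
the sequence `r` do not depend on the process `W`.
-/

set_option autoImplicit false

open MeasureTheory ProbabilityTheory Filter
open scoped NNReal ENNReal Topology Real

namespace Pool.Agent.SLE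

noncomputable section

/-- There is no cut in `[α,T]`: at every time `u` with `|Z_u| ≤ 1` the functional `ph` is below its
record since `α` by more than `c₀`. (It follows that `1 < |Z_α|` and that the record is attained
at a time with `1 < |Z|`.) -/
def CutFree (U g : ℝ → ℂ) (ε c₀ α T : ℝ) : Prop :=
  ∀ u ∈ Set.Icc α T, ‖g u - U u‖ ≤ 1 → ∃ v ∈ Set.Icc α u, ph U g ε u + c₀ < ph U g ε v

variable {Ω : Type*} [MeasurableSpace Ω]

/-- The closed pattern bound up to the cell `M`, `κ = C (log m + log D + 1)`; `ρ` is the value of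
the functional. `Q`: the transitions which follow the cuts. -/
def Clo (U g : ℝ → ℂ) (c₁ β κ m₀ C : ℝ) (Bad : ℕ → Prop) (M : ℕ) (ρ : ℝ≥0∞) : Prop :=
  open Classical in
  ∃ Q : Finset ℕ, (∀ j ∈ Q, tr U g 1 j ∧ j + 1 < M) ∧
    ENNReal.ofReal (Real.exp (c₁ * XX U g 1 M + β * (Q.filter Bad).card)) ≤
      ENNReal.ofReal (Real.exp ((Q.card + 3) * κ + C * Real.log (m₀ + 1))) * ρ

/-- (I1) The closed pattern bound with a universal sequence `r`. Cuts: a piece starts at a cell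
`α` which is not low (the first one of the path, or the first one after a cut); a cut is a cell
`[t,t+1]`, `α ≤ t`, which contains a time `u` with `|Z_u| ≤ 1` and `ph v ≤ ph u + c₀` for all `v` in
`[α,u]`. The three cases: `t` is the first cut `≥ M - 1`, or the last cut and everything after it
is low; `α` is the start of the last piece, which has no cut; there is no piece at all. -/
def ClosP (μ : Measure Ω) (a b c K ε c₀ : ℝ) : Prop :=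
  ∃ C c₁ κ : ℝ, 1 ≤ C ∧ 0 < c₁ ∧ 1 ≤ κ ∧ ∀ (m β : ℝ) (D : ℕ), 1 ≤ m → 0 ≤ β → 1 ≤ D →
    ∃ r : ℕ → ℝ≥0∞, ∑' t, r t ≤ 1 ∧ ∀ W : ℝ → Ω → ℂ, Gau a b c K W μ → ∀ Bd : ℕ → Set Ω,
      (∀ j : ℕ, MeasurableSet[Blk W j ((j : ℝ) + 1)] (Bd j)) →
      (∀ j, μ (Bd j) ≤ ENNReal.ofReal (Real.exp (-(κ * β)))) →
      ∃ R : ℕ → Ω → ℝ≥0∞, (∀ t, Measurable (R t)) ∧ (∀ t, ∫⁻ ω, R t ω ∂μ ≤ r t) ∧
        ∀ (ω : Ω) (T : ℕ) (z : ℂ) (g : ℝ → ℂ) (m₀ : ℝ), m ≤ m₀ → ‖z‖ ≤ m₀ →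
          Sol (fun t => W t ω) z T g → Osc (fun t => W t ω) 1 m T →
          (∀ s, s + D ≤ T → ¬ rider (fun t => W t ω) g 1 s D) → ∀ M ≤ T,
            (∃ t < T, (M ≤ t + 1 ∨ T ≤ t + D) ∧
              Clo (fun t => W t ω) g c₁ β (C * (Real.log m + Real.log D + 1)) m₀ C
                (fun j => ω ∈ Bd j) M (R t ω)) ∨
            (∃ α < T, α ≤ M + D ∧ ‖g α - W α ω‖ ≤ m₀ + 3 ∧
              CutFree (fun t => W t ω) g ε c₀ α T ∧
              (XX (fun t => W t ω) g 1 (min α M) = 0 ∨ ∃ t < α,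
                Clo (fun t => W t ω) g c₁ β (C * (Real.log m + Real.log D + 1)) m₀ C
                  (fun j => ω ∈ Bd j) (min α M) (R t ω))) ∨
            (T < D ∧ XX (fun t => W t ω) g 1 T = 0)

/-- (I2) The tail. -/
def TailP (μ : Measure Ω) (a b c K ε c₀ : ℝ) : Prop :=
  ∃ (C c₁ : ℝ) (p H₀ : ℕ), 1 ≤ C ∧ 0 < c₁ ∧ ∀ W : ℝ → Ω → ℂ, Gau a b c K W μ →
    ∀ H : ℕ, H₀ ≤ H → ∀ s : ℝ, 1 ≤ s → ∀ T : ℕ, ∃ Y : Ω → ℝ≥0∞, Measurable Y ∧
      ∫⁻ ω, Y ω ∂μ ≤ 1 ∧ ∀ (ω : Ω) (z : ℂ) (g : ℝ → ℂ), ‖z‖ ≤ s →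
        Sol (fun t => W t ω) z T g → (∀ u ∈ Set.Icc (0 : ℝ) T, ‖g u - W u ω‖ ≤ 2 ^ H) →
        CutFree (fun t => W t ω) g ε c₀ 0 T →
        ENNReal.ofReal (Real.exp (c₁ / H ^ 2 *
          ∫ u in (0 : ℝ)..T, min 1 ‖g u - W u ω‖ / ‖g u - W u ω‖ ^ 2)) ≤
          ENNReal.ofReal (C * (s * 2 ^ H) ^ p) * Y ω

/-- Everything which is needed about a forward critical matrix. -/
def FwdP (μ : Measure Ω) (a b c K : ℝ) : Prop :=
  RidP μ a b c K ∧ ∃ ε₀ > 0, ∀ ε : ℝ, 0 < ε → ε ≤ ε₀ → ∃ c₀ : ℝ, 0 ≤ c₀ ∧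
    ClosP μ a b c K ε c₀ ∧ TailP μ a b c K ε c₀

/-- No point of the unit disc is at distance `≤ 1` of the tip at a time in `[4^n, 4^(n+1)]`. -/
def GoalP (μ : Measure Ω) (a b c K : ℝ) : Prop :=
  ∃ n₀ : ℕ, ∀ n ≥ n₀, ∀ W : ℝ → Ω → ℂ, Gau a b c K W μ →
    ∃ A, MeasurableSet A ∧ μ A ≤ ENNReal.ofReal (Real.exp (-(n : ℝ) ^ (1 / 5 : ℝ))) ∧
      ∀ ω ∉ A, ∀ z : ℂ, ‖z‖ ≤ 1 → ∀ s ∈ Set.Icc ((4 : ℝ) ^ n) (4 ^ (n + 1)), ∀ g : ℝ → ℂ,
        Sol (fun t => W t ω) z s g → 1 < ‖g s - W s ω‖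

end

end Pool.Agent.SLE
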