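import Pool.Agent.Lib.MP_c17912_pr_TC.BWRN
import Pool.Agent.Lib.MP_c17912_pr_TC.BWAR
import Pool.Agent.Lib.MP_c17912_pr_TC.BWCF
import Pool.Agent.Lib.MP_c17912_pr_TR.OSE
import Pool.Agent.Lib.MP_c17912_pr_TR.CRU

/-!
# MP_c17912_pr, project TC, backward critical case: no long piece without a cut at the beginning

`(a, b, c)` is backward critical, `(b, a, -c)` is the (forward critical) matrix of the reversed
process.
-/

set_option autoImplicit false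

open MeasureTheory ProbabilityTheory Filter
open scoped NNReal ENNReal Topology Real

namespace Pool.Agent.SLE

noncomputable section

variable {Ω : Type*} [MeasurableSpace Ω] {μ : Measure Ω}

namespace TCBWLT

/-- Polynomials against exponentials. -/
theorem poly_exp (k : ℕ) (C : ℝ) {d : ℝ} (hd : 0 < d) :
    ∀ᶠ x : ℝ in atTop, C * x ^ k ≤ Real.exp (d * x) := by
  have h := (isLittleO_pow_exp_pos_mul_atTop (k := k) hd).bound
    (c := 1 / (|C| + 1)) (by positivity)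
  filter_upwards [h, eventually_ge_atTop 0] with x hx hx0
  rw [Real.norm_of_nonneg (by positivity), Real.norm_of_nonneg (Real.exp_pos _).le,
    one_div, inv_mul_eq_div, le_div_iff₀ (by positivity)] at hx
  have h2 : C * x ^ k ≤ (|C| + 1) * x ^ k :=
    mul_le_mul_of_nonneg_right (by linarith [le_abs_self C]) (by positivity)
  linarith

/-- Domination. -/
theorem dom (q : ℕ) (A : ℝ) {d cL : ℝ} (h : cL < d) :
    ∀ᶠ x : ℝ in atTop, A * x ^ q * Real.exp (-(d * x)) ≤ Real.exp (-(cL * x)) / 4 := by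
  filter_upwards [poly_exp q (4 * A) (sub_pos.2 h)] with x hx
  have h1 : Real.exp (-(cL * x)) = Real.exp ((d - cL) * x) * Real.exp (-(d * x)) := by
    rw [← Real.exp_add]
    congr 1
    ring
  rw [h1]
  have h2 := mul_le_mul_of_nonneg_right hx (Real.exp_pos (-(d * x))).le
  linarith

theorem exp_one_le : Real.exp 1 ≤ 4 := by
  have := Real.exp_one_lt_d9
  linarith

theorem exp_nat_le (n : ℕ) : Real.exp n ≤ 4 ^ n := by
  rw [← mul_one (n : ℝ), Real.exp_nat_mul]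
  exact pow_le_pow_left₀ (Real.exp_pos _).le exp_one_le n

theorem four_le (n : ℕ) : (4 : ℝ) ^ n ≤ Real.exp (2 * n) := by
  have h1 : Real.exp (2 * (n : ℝ)) = Real.exp 2 ^ n := by
    rw [← Real.exp_nat_mul]
    congr 1
    ring
  rw [h1]
  refine pow_le_pow_left₀ (by norm_num) ?_ n
  have h2 : Real.exp 2 = Real.exp 1 * Real.exp 1 := by
    rw [← Real.exp_add]
    norm_num
  have h3 := Real.exp_one_gt_d9
  rw [h2]
  nlinarith

theorem two_ge (n : ℕ) : Real.exp (n / 2) ≤ (2 : ℝ) ^ n := by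
  have h1 : Real.exp ((n : ℝ) / 2) ^ 2 ≤ ((2 : ℝ) ^ n) ^ 2 := by
    rw [← Real.exp_nat_mul]
    have h2 : ((2 : ℕ) : ℝ) * ((n : ℝ) / 2) = n := by push_cast; ring
    rw [h2]
    refine (exp_nat_le n).trans (le_of_eq ?_)
    rw [← pow_mul, mul_comm n 2, pow_mul]
    norm_num
  exact le_of_sq_le_sq h1 (by positivity)

theorem num {κ cL c₂ C₁ C₂ S : ℝ} {p n₀ H₀ : ℕ} (hκ : 0 < κ) (hκ1 : κ ≤ 1 / 100)
    (hκ2 : κ ≤ c₂ / 100) (hcL : 0 < cL) (hcL1 : cL ≤ κ / 4) (hcL2 : cL * p ≤ c₂ / 100)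
    (hc₂ : 0 < c₂) (hC₁ : 0 < C₁) (hC₂ : 0 < C₂) (hS : 0 < S) :
    ∃ i₀ : ℕ, ∀ i ≥ i₀, ∀ m k : ℕ, (m : ℝ) ≤ cL * i → k = ⌊κ * i⌋₊ →
      n₀ ≤ k ∧ 1 + k ^ 10 ≤ 4 ^ k ∧ H₀ ≤ 3 * i ∧ 64 ≤ i ∧ k + 2 ≤ i ∧ m + 1 ≤ i ∧
      3 + Real.log (3 * i + 6) + (k + 1) * Real.log 2 ≤ i / 8 ∧
      Real.exp (-(k : ℝ)) ≤ Real.exp (-(cL * i)) / 4 ∧
      C₂ * (4 ^ k + 1) * (2 ^ m) ^ 2 * Real.exp (2 * (i / 4)) / (2 ^ (i - k + m)) ^ 2 ≤
        Real.exp (-(cL * i)) / 4 ∧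
      (i + m + 1 + 1) * (4 * Real.exp (-((i : ℝ) ^ 2 / (4 * S)))) ≤
        Real.exp (-(cL * i)) / 4 ∧
      (4 ^ (k + 1) + 1) * (C₁ * (i ^ 3 * 2 ^ m * (2 ^ m * (3 * i + 6)) * (3 * i)) ^ p *
        (Real.exp (-(c₂ * (i / 8))) + ((2 : ℝ) ^ (i - k + m)) ^ (-c₂))) ≤
        Real.exp (-(cL * i)) / 4 := by
  have hcL100 : cL ≤ 1 / 400 := by linarith
  have e1 := dom 0 (Real.exp 1) (show cL < κ by linarith)
  have e2 := dom 0 (2 * C₂) (show cL < 46 / 100 by linarith)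
  have e3 := dom 1 16 (show cL < 1 by linarith)
  have e4 := dom (5 * p) (10 * C₁ * 12 ^ p) (show cL < 17 * c₂ / 200 by linarith)
  have e5 := poly_exp 1 9 (show (0 : ℝ) < 1 / 100 by norm_num)
  have e6 : ∀ᶠ x : ℝ in atTop, (n₀ : ℝ) ≤ κ * x :=
    (tendsto_id.const_mul_atTop hκ).eventually_ge_atTop _
  obtain ⟨N₁, hN₁⟩ : ∃ N₁ : ℕ, ∀ k ≥ N₁, 1 + k ^ 10 ≤ 4 ^ k := by
    have h1 := tendsto_natCast_atTop_atTop.eventually (poly_exp 10 2 one_pos)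
    obtain ⟨N, hN⟩ := eventually_atTop.1 h1
    refine ⟨max N 1, fun k hk => ?_⟩
    have h2 := hN k (le_of_max_le_left hk)
    rw [one_mul] at h2
    have h3 := h2.trans (exp_nat_le k)
    have h4 : 2 * k ^ 10 ≤ 4 ^ k := by exact_mod_cast h3
    have h5 : 1 ≤ k ^ 10 := Nat.one_le_pow _ _ (le_of_max_le_right hk)
    omega
  have e7 : ∀ᶠ x : ℝ in atTop, (N₁ : ℝ) ≤ κ * x :=
    (tendsto_id.const_mul_atTop hκ).eventually_ge_atTop _
  have e8 : ∀ᶠ x : ℝ in atTop, max 64 (max (H₀ : ℝ) (4 * S)) ≤ x := eventually_ge_atTop _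
  have hev := tendsto_natCast_atTop_atTop.eventually
    (e1.and (e2.and (e3.and (e4.and (e5.and (e6.and (e7.and e8)))))))
  obtain ⟨i₀, hi₀⟩ := eventually_atTop.1 hev
  refine ⟨i₀, fun i hi m k hm hk => ?_⟩
  obtain ⟨e1, e2, e3, e4, e5, e6, e7, e8⟩ := hi₀ i hi
  have hX64 : (64 : ℝ) ≤ i := (le_max_left _ _).trans e8
  have hXH : (H₀ : ℝ) ≤ i := (le_max_left _ _).trans ((le_max_right _ _).trans e8)
  have hXS : 4 * S ≤ (i : ℝ) := (le_max_right _ _).trans ((le_max_right _ _).trans e8)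
  have hκi : 0 ≤ κ * i := by positivity
  have hk1 : (k : ℝ) ≤ κ * i := by rw [hk]; exact Nat.floor_le hκi
  have hk2 : κ * i - 1 ≤ k := by
    rw [hk]
    have := Nat.lt_floor_add_one (κ * (i : ℝ))
    linarith
  have hkX : (k : ℝ) ≤ i / 100 := by
    have := mul_le_mul_of_nonneg_right hκ1 (Nat.cast_nonneg (α := ℝ) i)
    linarith
  have hmX : (m : ℝ) ≤ i / 400 := by
    have := mul_le_mul_of_nonneg_right hcL100 (Nat.cast_nonneg (α := ℝ) i)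
    linarith
  have hki : k + 2 ≤ i := by
    have : (k : ℝ) + 2 ≤ i := by linarith
    exact_mod_cast this
  have hmi : m + 1 ≤ i := by
    have : (m : ℝ) + 1 ≤ i := by linarith
    exact_mod_cast this
  have hnn : (((i - k + m : ℕ)) : ℝ) = i - k + m := by
    push_cast [Nat.cast_sub (show k ≤ i by omega)]
    ring
  have hlog2 : Real.log 2 ≤ 1 := by
    have := Real.log_two_lt_d9
    linarith
  have hlog20 : 0 ≤ Real.log 2 := Real.log_nonneg (by norm_num)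
  refine ⟨?_, ?_, ?_, ?_, hki, hmi, ?_, ?_, ?_, ?_, ?_⟩
  · rw [hk]
    exact Nat.le_floor e6
  · refine hN₁ k ?_
    rw [hk]
    exact Nat.le_floor e7
  · have : H₀ ≤ i := by exact_mod_cast hXH
    omega
  · exact_mod_cast hX64
  · have h1 : Real.log (3 * i + 6) ≤ 1 / 100 * i := by
      rw [Real.log_le_iff_le_exp (by positivity)]
      rw [pow_one] at e5
      linarith
    have h2 : ((k : ℝ) + 1) * Real.log 2 ≤ k + 1 := mul_le_of_le_one_right (by positivity) hlog2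
    linarith
  · refine le_trans ?_ e1
    rw [pow_zero, mul_one, ← Real.exp_add]
    exact Real.exp_le_exp.2 (by linarith)
  · refine le_trans ?_ e2
    rw [pow_zero, mul_one, div_le_iff₀ (by positivity)]
    have h1 : ((2 : ℝ) ^ (i - k + m)) ^ 2 * 4 ^ k = 4 ^ i * (2 ^ m) ^ 2 := by
      have h2 : ∀ n : ℕ, ((2 : ℝ) ^ n) ^ 2 = 4 ^ n := fun n => by
        rw [← pow_mul, mul_comm, pow_mul]
        norm_num
      rw [h2, h2, ← pow_add, ← pow_add]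
      congr 1
      omega
    have h3 : Real.exp (2 * ((i : ℝ) / 4)) * (4 ^ k * 4 ^ k) ≤
        Real.exp (-(46 / 100 * i)) * 4 ^ i := by
      have h4 := four_le k
      have h5 := exp_nat_le i
      have h6 : (4 : ℝ) ^ k * 4 ^ k ≤ Real.exp (2 * k) * Real.exp (2 * k) :=
        mul_le_mul h4 h4 (by positivity) (Real.exp_pos _).le
      calc Real.exp (2 * ((i : ℝ) / 4)) * (4 ^ k * 4 ^ k)
          ≤ Real.exp (2 * ((i : ℝ) / 4)) * (Real.exp (2 * k) * Real.exp (2 * k)) :=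
            mul_le_mul_of_nonneg_left h6 (Real.exp_pos _).le
        _ = Real.exp (2 * ((i : ℝ) / 4) + (2 * k + 2 * k)) := by
            rw [← Real.exp_add, ← Real.exp_add]
        _ ≤ Real.exp (-(46 / 100 * i) + i) := Real.exp_le_exp.2 (by linarith)
        _ = Real.exp (-(46 / 100 * i)) * Real.exp i := Real.exp_add _ _
        _ ≤ _ := mul_le_mul_of_nonneg_left h5 (Real.exp_pos _).le
    have h7 : (4 : ℝ) ^ k + 1 ≤ 2 * 4 ^ k := by
      have : (1 : ℝ) ≤ 4 ^ k := one_le_pow₀ (by norm_num)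
      linarith
    have h8 : (0 : ℝ) < 4 ^ k := by positivity
    have h9 : (0 : ℝ) < (2 ^ m) ^ 2 := by positivity
    refine le_of_mul_le_mul_right ?_ h8
    calc C₂ * (4 ^ k + 1) * (2 ^ m) ^ 2 * Real.exp (2 * (i / 4)) * 4 ^ k
        ≤ C₂ * (2 * 4 ^ k) * (2 ^ m) ^ 2 * Real.exp (2 * (i / 4)) * 4 ^ k := by gcongr
      _ = (2 * C₂ * (2 ^ m) ^ 2) * (Real.exp (2 * ((i : ℝ) / 4)) * (4 ^ k * 4 ^ k)) := by ring
      _ ≤ (2 * C₂ * (2 ^ m) ^ 2) * (Real.exp (-(46 / 100 * i)) * 4 ^ i) :=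
          mul_le_mul_of_nonneg_left h3 (by positivity)
      _ = 2 * C₂ * Real.exp (-(46 / 100 * i)) * (4 ^ i * (2 ^ m) ^ 2) := by ring
      _ = _ := by rw [← h1]; ring
  · refine le_trans ?_ e3
    rw [pow_one, one_mul]
    have h1 : (i : ℝ) ≤ (i : ℝ) ^ 2 / (4 * S) := by
      rw [le_div_iff₀ (by positivity), sq]
      exact mul_le_mul_of_nonneg_left hXS (by positivity)
    have h2 : Real.exp (-((i : ℝ) ^ 2 / (4 * S))) ≤ Real.exp (-i) :=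
      Real.exp_le_exp.2 (by linarith)
    have h3 : (i : ℝ) + m + 1 + 1 ≤ 4 * i := by linarith
    calc ((i : ℝ) + m + 1 + 1) * (4 * Real.exp (-((i : ℝ) ^ 2 / (4 * S))))
        ≤ (4 * i) * (4 * Real.exp (-i)) := by gcongr
      _ = 16 * i * Real.exp (-i) := by ring
  · refine le_trans ?_ e4
    have h1 : (4 : ℝ) ^ (k + 1) + 1 ≤ 5 * Real.exp (c₂ * i / 50) := by
      have h2 : (1 : ℝ) ≤ 4 ^ k := one_le_pow₀ (by norm_num)
      have h3 : Real.exp (2 * (k : ℝ)) ≤ Real.exp (c₂ * i / 50) := by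
        refine Real.exp_le_exp.2 ?_
        have := mul_le_mul_of_nonneg_right hκ2 (Nat.cast_nonneg (α := ℝ) i)
        linarith
      have h4 := (four_le k).trans h3
      rw [pow_succ]
      linarith
    have h5 : ((i : ℝ) ^ 3 * 2 ^ m * (2 ^ m * (3 * i + 6)) * (3 * i)) ^ p ≤
        12 ^ p * (i : ℝ) ^ (5 * p) * Real.exp (c₂ * i / 50) := by
      have h6 : (2 : ℝ) ^ m * 2 ^ m ≤ Real.exp (2 * m) := by
        refine le_trans (le_of_eq ?_) (four_le m)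
        rw [← mul_pow]
        norm_num
      have h7 : (i : ℝ) ^ 3 * 2 ^ m * (2 ^ m * (3 * i + 6)) * (3 * i) ≤
          12 * (i : ℝ) ^ 5 * Real.exp (2 * m) := by
        have h8 : (3 : ℝ) * i + 6 ≤ 4 * i := by linarith
        calc (i : ℝ) ^ 3 * 2 ^ m * (2 ^ m * (3 * i + 6)) * (3 * i)
            ≤ (i : ℝ) ^ 3 * 2 ^ m * (2 ^ m * (4 * i)) * (3 * i) := by gcongr
          _ = 12 * (i : ℝ) ^ 5 * (2 ^ m * 2 ^ m) := by ring
          _ ≤ _ := mul_le_mul_of_nonneg_left h6 (by positivity)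
      calc ((i : ℝ) ^ 3 * 2 ^ m * (2 ^ m * (3 * i + 6)) * (3 * i)) ^ p
          ≤ (12 * (i : ℝ) ^ 5 * Real.exp (2 * m)) ^ p :=
            pow_le_pow_left₀ (by positivity) h7 p
        _ = 12 ^ p * (i : ℝ) ^ (5 * p) * Real.exp (p * (2 * m)) := by
            rw [mul_pow, mul_pow, ← pow_mul, ← Real.exp_nat_mul]
        _ ≤ _ := by
            refine mul_le_mul_of_nonneg_left (Real.exp_le_exp.2 ?_) (by positivity)
            have h9 : (p : ℝ) * m ≤ p * (cL * i) :=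
              mul_le_mul_of_nonneg_left hm (Nat.cast_nonneg _)
            have h10 := mul_le_mul_of_nonneg_right hcL2 (Nat.cast_nonneg (α := ℝ) i)
            nlinarith
    have h11 : ((2 : ℝ) ^ (i - k + m)) ^ (-c₂) ≤ Real.exp (-(c₂ * (i / 8))) := by
      have h12 : Real.exp ((i : ℝ) / 8) ≤ (2 : ℝ) ^ (i - k + m) := by
        refine le_trans (Real.exp_le_exp.2 ?_) (two_ge (i - k + m))
        rw [hnn]
        have : (0 : ℝ) ≤ m := Nat.cast_nonneg _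
        linarith
      have h13 := Real.rpow_le_rpow_of_nonpos (Real.exp_pos _) h12 (by linarith : -c₂ ≤ 0)
      refine h13.trans (le_of_eq ?_)
      rw [← Real.exp_mul]
      congr 1
      ring
    calc (4 ^ (k + 1) + 1) * (C₁ * (i ^ 3 * 2 ^ m * (2 ^ m * (3 * i + 6)) * (3 * i)) ^ p *
        (Real.exp (-(c₂ * (i / 8))) + ((2 : ℝ) ^ (i - k + m)) ^ (-c₂)))
        ≤ (5 * Real.exp (c₂ * i / 50)) * (C₁ * (12 ^ p * (i : ℝ) ^ (5 * p) *
          Real.exp (c₂ * i / 50)) * (Real.exp (-(c₂ * (i / 8))) +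
            Real.exp (-(c₂ * (i / 8))))) := by gcongr
      _ = 10 * C₁ * 12 ^ p * (i : ℝ) ^ (5 * p) * (Real.exp (c₂ * i / 50) *
          Real.exp (c₂ * i / 50) * Real.exp (-(c₂ * (i / 8)))) := by ring
      _ = _ := by
          rw [← Real.exp_add, ← Real.exp_add]
          congr 2
          ring

theorem ph_move {U g : ℝ → ℂ} (hU : Continuous U) {z : ℂ} {T ε R B x y : ℝ} (hg : Sol U z T g)
    (hε0 : 0 ≤ ε) (hε : ε ≤ 1) (hx : 0 ≤ x) (hxy : x ≤ y) (hyT : y ≤ T) (hR : 0 < R)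
    (hyx : y - x ≤ R ^ 2) (hlow : ∀ v ∈ Set.Icc x y, R ≤ ‖g v - U v‖) (hB : ‖g y - U y‖ ≤ B) :
    ph U g ε x ≤ ph U g ε y + 3 + Real.log (B / R) := by
  have hT : 0 ≤ T := hx.trans (hxy.trans hyT)
  have e1 : (∫ v in (0 : ℝ)..y, kk 1 ε (g v - U v)) - (∫ v in (0 : ℝ)..x, kk 1 ε (g v - U v)) =
      ∫ v in x..y, kk 1 ε (g v - U v) :=
    intervalIntegral.integral_interval_sub_left
      (TCBWRV.kk_int hU hg ε le_rfl hT (hx.trans hxy) hyT)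
      (TCBWRV.kk_int hU hg ε le_rfl hT hx (hxy.trans hyT))
  have e2 : ‖∫ v in x..y, kk 1 ε (g v - U v)‖ ≤ (3 / R ^ 2) * |y - x| := by
    refine intervalIntegral.norm_integral_le_of_norm_le_const fun v hv => ?_
    rw [Set.uIoc_of_le hxy] at hv
    have h1 := OneBAux.kk_bound (lam := 1) hε0 hR (hlow v ⟨hv.1.le, hv.2⟩)
    rw [abs_one] at h1
    rw [Real.norm_eq_abs]
    refine h1.trans (div_le_div_of_nonneg_right (by linarith) (by positivity))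
  have e3 : (3 / R ^ 2) * |y - x| ≤ 3 := by
    rw [abs_of_nonneg (by linarith)]
    calc 3 / R ^ 2 * (y - x) ≤ 3 / R ^ 2 * R ^ 2 :=
          mul_le_mul_of_nonneg_left hyx (by positivity)
      _ = 3 := by field_simp
  have e4 := Real.log_le_log hR (hlow x ⟨le_rfl, hxy⟩)
  have hy0 : 0 < ‖g y - U y‖ := hR.trans_le (hlow y ⟨hxy, le_rfl⟩)
  have e5 := Real.log_le_log hy0 hB
  have e6 := Real.log_div (hy0.trans_le hB).ne' hR.ne'
  have e7 := (abs_le.1 ((Real.norm_eq_abs _).symm.le.trans (e2.trans e3))).1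
  unfold ph
  linarith

theorem det {U : ℝ → ℂ} (hU : Continuous U) {ε : ℝ} (hε : 0 ≤ ε) (hε1 : ε ≤ 1)
    {i m k u R : ℕ} (hR : R = 2 ^ (i - k + m)) (hk2 : k + 2 ≤ i) (hm1 : m + 1 ≤ i)
    (h64 : 64 ≤ i) (hk10 : 1 + k ^ 10 ≤ 4 ^ k)
    (hlog : 3 + Real.log (3 * i + 6) + (k + 1) * Real.log 2 ≤ i / 8) (hu1 : 4 ^ (i + m) ≤ u)
    (hu2 : u ≤ 4 ^ (i + m + 1)) {z : ℂ} {g : ℝ → ℂ} (hz : ‖z‖ ≤ 2 ^ m) (hg : Sol U z u g)
    (h1 : ∀ (z' : ℂ) (g' : ℝ → ℂ), Sol (psub U 0 R) z' ((4 ^ k : ℕ) : ℝ) g' →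
      ¬ rider (psub U 0 R) g' (rr 0) 1 (k ^ 10))
    (h2 : ∀ j : ℕ, j < 4 ^ k + 1 → ∀ (z : ℂ) (g : ℝ → ℂ), ‖z‖ ≤ 2 ^ m →
      Sol U z (j * (R : ℝ) ^ 2) g →
      (R : ℝ) ≤ ‖g (j * (R : ℝ) ^ 2) - U (j * (R : ℝ) ^ 2)‖ →
      ∃ w ∈ Set.Icc (0 : ℝ) (j * (R : ℝ) ^ 2), ph U g 0 (j * (R : ℝ) ^ 2) + (i : ℝ) / 4 <
        ph U g 0 w + ε * lk U g w (j * (R : ℝ) ^ 2))
    (h3 : ∀ j ≤ i + m + 1, ∀ v ∈ Set.Icc (0 : ℝ) (4 ^ j), ‖U v‖ ≤ i * 2 ^ j) :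
    ∃ l : ℕ, l ≤ 4 ^ (k + 1) ∧ l * R ^ 2 + 1 ≤ u ∧
      (∀ v ∈ Set.Icc (0 : ℝ) u, ‖rvg U g u v - rvU U u v‖ ≤ 2 ^ (3 * i)) ∧
      (∀ v ∈ Set.Icc ((u : ℝ) - 1) u, ‖rvg U g u v - rvU U u v‖ ≤ 2 ^ m * (3 * i + 6)) ∧
      (R : ℝ) ≤ ‖rvg U g u ((l * R ^ 2 : ℕ) : ℝ) - rvU U u ((l * R ^ 2 : ℕ) : ℝ)‖ ∧
      ∃ v ∈ Set.Icc ((l * R ^ 2 : ℕ) : ℝ) u, ph (rvU U u) (rvg U g u) ε ((l * R ^ 2 : ℕ) : ℝ) +
        (i : ℝ) / 8 < ph (rvU U u) (rvg U g u) ε v := by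
  have hRpos : 0 < R := by rw [hR]; positivity
  have hR0 : (0 : ℝ) < R := by exact_mod_cast hRpos
  have hR2 : R ^ 2 * 4 ^ k = 4 ^ (i + m) := by
    rw [hR, ← pow_mul, mul_comm (i - k + m) 2, pow_mul, show (2 ^ 2 : ℕ) = 4 by norm_num,
      ← pow_add]
    congr 1
    omega
  have hR2' : (R : ℝ) ^ 2 * 4 ^ k = 4 ^ (i + m) := by exact_mod_cast hR2
  have hR2pos : 0 < R ^ 2 := by positivity
  have hsq : ∀ n : ℕ, ((2 : ℝ) ^ n) ^ 2 = 4 ^ n := fun n => by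
    rw [← pow_mul, mul_comm, pow_mul]
    norm_num
  have hu2' : (u : ℝ) ≤ 4 ^ (i + m + 1) := by exact_mod_cast hu2
  have hi64 : (64 : ℝ) ≤ i := by exact_mod_cast h64
  have h2m : (1 : ℝ) ≤ 2 ^ m := one_le_pow₀ (by norm_num)
  -- upper bounds
  have hup : ∀ v ∈ Set.Icc (0 : ℝ) u, ‖g v - U v‖ ≤ (3 * i + 6) * 2 ^ (i + m + 1) := by
    intro v hv
    have a1 := cr_upper hU (Nat.cast_nonneg u) hg (w := i * 2 ^ (i + m + 1))
      (fun v hv => h3 (i + m + 1) le_rfl v ⟨hv.1, hv.2.trans hu2'⟩) v hv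
    have a2 : √(u : ℝ) ≤ 2 ^ (i + m + 1) := by
      rw [Real.sqrt_le_iff]
      refine ⟨by positivity, ?_⟩
      rw [hsq]
      exact hu2'
    have a3 : (2 : ℝ) ^ m ≤ 2 ^ (i + m + 1) := pow_le_pow_right₀ (by norm_num) (by omega)
    linarith
  have hup1 : ∀ v ∈ Set.Icc (0 : ℝ) 1, ‖g v - U v‖ ≤ 2 ^ m * (3 * i + 6) := by
    intro v hv
    have hu0 : (1 : ℝ) ≤ u := by
      have : 1 ≤ u := le_trans (Nat.one_le_pow _ _ (by norm_num)) hu1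
      exact_mod_cast this
    have a1 := cr_upper hU zero_le_one (hg.restrict hu0) (w := i)
      (fun v hv => by
        have := h3 0 (Nat.zero_le _) v (by simpa using hv)
        simpa using this) v hv
    rw [Real.sqrt_one] at a1
    have a2 : (3 * (i : ℝ) + 5) * 1 ≤ (3 * i + 5) * 2 ^ m :=
      mul_le_mul_of_nonneg_left h2m (by positivity)
    nlinarith
  have hpow : (3 * (i : ℝ) + 6) * 2 ^ (i + m + 1) ≤ 2 ^ (3 * i) := by
    have a1 : 3 * i + 6 ≤ 2 ^ i := by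
      have a2 : i - 2 < 2 ^ (i - 2) := Nat.lt_two_pow_self
      have a3 : 2 ^ i = 4 * 2 ^ (i - 2) := by
        rw [show (4 : ℕ) = 2 ^ 2 by norm_num, ← pow_add]
        congr 1
        omega
      omega
    have a4 : (3 * (i : ℝ) + 6) ≤ 2 ^ i := by exact_mod_cast a1
    calc (3 * (i : ℝ) + 6) * 2 ^ (i + m + 1) ≤ 2 ^ i * 2 ^ (2 * i) :=
          mul_le_mul a4 (pow_le_pow_right₀ (by norm_num) (by omega)) (by positivity)
            (by positivity)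
      _ = 2 ^ (3 * i) := by rw [← pow_add]; congr 1; ring
  -- a cell which is not low
  obtain ⟨j, hj1, hjk, hbig⟩ : ∃ j : ℕ, 1 ≤ j ∧ j + 1 ≤ 4 ^ k ∧
      ∀ v ∈ Set.Icc ((j : ℝ) * (R : ℝ) ^ 2) ((j + 1) * (R : ℝ) ^ 2), (R : ℝ) ≤ ‖g v - U v‖ := by
    have a1 := hg.shift (s := 0) (r := R) le_rfl (Nat.cast_nonneg u) hR0
    have a2 : ((4 ^ k : ℕ) : ℝ) ≤ ((u : ℝ) - 0) / (R : ℝ) ^ 2 := by
      rw [le_div_iff₀ (by positivity), sub_zero]
      push_cast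
      rw [mul_comm, hR2']
      exact_mod_cast hu1
    have a3 := h1 _ _ (a1.restrict a2)
    unfold rider at a3
    push Not at a3
    obtain ⟨i', hi', a4⟩ := a3
    refine ⟨1 + i', by omega, by omega, fun v hv => ?_⟩
    by_contra a5
    push Not at a5
    have hr0 : rr 0 = 1 := by simp [rr]
    have hRR : (0 : ℝ) < (R : ℝ) ^ 2 := by positivity
    have hv0 : 0 ≤ v := le_trans (by positivity) hv.1
    refine a4 ⟨v / (R : ℝ) ^ 2, ?_, ?_⟩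
    · rw [hr0, one_pow, mul_one, mul_one]
      exact ⟨(le_div_iff₀ hRR).2 hv.1, (div_le_iff₀ hRR).2 hv.2⟩
    · have a6 := TRSCL.norm_eq U g 0 hR0 (τ := v / (R : ℝ) ^ 2) (by positivity)
      rw [zero_add, mul_div_cancel₀ v hRR.ne'] at a6
      unfold gs at a6
      rw [hr0, a6, inv_mul_le_iff₀ hR0, mul_one]
      exact a5.le
  have hjR : j * R ^ 2 ≤ u := by
    calc j * R ^ 2 ≤ 4 ^ k * R ^ 2 := Nat.mul_le_mul_right _ (by omega)
      _ = 4 ^ (i + m) := by rw [mul_comm, hR2]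
      _ ≤ u := hu1
  have hjR' : (j : ℝ) * (R : ℝ) ^ 2 ≤ u := by exact_mod_cast hjR
  have hjR0 : (0 : ℝ) ≤ (j : ℝ) * (R : ℝ) ^ 2 := by positivity
  have hRR : (0 : ℝ) < (R : ℝ) ^ 2 := by positivity
  obtain ⟨w₀, hw₀, hph⟩ := h2 j (by omega) z g hz (hg.restrict hjR')
    (hbig _ ⟨le_rfl, by nlinarith⟩)
  have hrv := rv_ph hU (ε := ε) hg hw₀.1 hw₀.2 hjR'
  -- the reference time
  have hdm := Nat.div_add_mod (u - j * R ^ 2) (R ^ 2)
  have hml := Nat.mod_lt (u - j * R ^ 2) hR2pos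
  obtain ⟨l, hl⟩ : ∃ l, l = (u - j * R ^ 2) / R ^ 2 := ⟨_, rfl⟩
  rw [← hl] at hdm
  generalize (u - j * R ^ 2) % R ^ 2 = q at hdm hml
  have hl1 : l ≤ 4 ^ (k + 1) := by
    rw [hl]
    refine Nat.div_le_of_le_mul ?_
    calc u - j * R ^ 2 ≤ u := Nat.sub_le _ _
      _ ≤ 4 ^ (i + m + 1) := hu2
      _ = R ^ 2 * 4 ^ (k + 1) := by rw [pow_succ, ← hR2, pow_succ]; ring
  have hjRpos : 1 ≤ j * R ^ 2 := Nat.mul_pos hj1 hR2pos
  have hlc : l * R ^ 2 = R ^ 2 * l := Nat.mul_comm _ _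
  have hN1 : l * R ^ 2 ≤ u - j * R ^ 2 := by omega
  have hN2 : u - j * R ^ 2 ≤ l * R ^ 2 + R ^ 2 := by omega
  have hN1' : ((l * R ^ 2 : ℕ) : ℝ) ≤ u - (j : ℝ) * (R : ℝ) ^ 2 := by
    have : l * R ^ 2 + j * R ^ 2 ≤ u := by omega
    have a1 : ((l * R ^ 2 + j * R ^ 2 : ℕ) : ℝ) ≤ u := by exact_mod_cast this
    push_cast at a1 ⊢
    linarith
  have hN2' : (u : ℝ) - (j : ℝ) * (R : ℝ) ^ 2 ≤ ((l * R ^ 2 : ℕ) : ℝ) + (R : ℝ) ^ 2 := by
    have : u ≤ l * R ^ 2 + R ^ 2 + j * R ^ 2 := by omega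
    have a1 : (u : ℝ) ≤ ((l * R ^ 2 + R ^ 2 + j * R ^ 2 : ℕ) : ℝ) := by exact_mod_cast this
    push_cast at a1 ⊢
    linarith
  have hN0 : (0 : ℝ) ≤ ((l * R ^ 2 : ℕ) : ℝ) := Nat.cast_nonneg _
  have hrZ : ∀ v ∈ Set.Icc (0 : ℝ) u, ‖rvg U g u v - rvU U u v‖ =
      ‖g ((u : ℝ) - v) - U ((u : ℝ) - v)‖ := fun v hv => by
    rw [rv_Z hv.1 hv.2, norm_mul, Complex.norm_I, one_mul]
  have hlow : ∀ v ∈ Set.Icc ((l * R ^ 2 : ℕ) : ℝ) ((u : ℝ) - (j : ℝ) * (R : ℝ) ^ 2),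
      (R : ℝ) ≤ ‖rvg U g u v - rvU U u v‖ := by
    intro v hv
    rw [hrZ v ⟨hN0.trans hv.1, by linarith [hv.2]⟩]
    refine hbig _ ⟨by linarith [hv.2], ?_⟩
    have := hv.1
    linarith
  have hmove := ph_move (rv_cont (T := (u : ℝ)) hU) (rv_sol (Nat.cast_nonneg u) hg) hε hε1 hN0
    hN1' (by linarith) hR0 (by linarith) hlow (B := (3 * i + 6) * 2 ^ (i + m + 1)) (by
      rw [hrZ _ ⟨hN0.trans hN1', by linarith⟩]
      exact hup _ ⟨by linarith, by linarith⟩)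
  have hBR : ((3 * (i : ℝ) + 6) * 2 ^ (i + m + 1)) / R = (3 * i + 6) * 2 ^ (k + 1) := by
    rw [div_eq_iff hR0.ne', hR]
    push_cast
    rw [mul_assoc, ← pow_add]
    congr 2
    omega
  rw [hBR, Real.log_mul (by positivity) (by positivity), Real.log_pow] at hmove
  push_cast at hmove
  refine ⟨l, hl1, by omega, fun v hv => ?_, fun v hv => ?_, hlow _ ⟨le_rfl, hN1'⟩,
    (u : ℝ) - w₀, ⟨by linarith [hw₀.2], by linarith [hw₀.1]⟩, ?_⟩
  · rw [hrZ v hv]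
    exact (hup _ ⟨by linarith [hv.2], by linarith [hv.1]⟩).trans hpow
  · have hu0 : (1 : ℝ) ≤ u := by
      have : 1 ≤ u := le_trans (Nat.one_le_pow _ _ (by norm_num)) hu1
      exact_mod_cast this
    rw [hrZ v ⟨by linarith [hv.1], hv.2⟩]
    exact hup1 _ ⟨by linarith [hv.2], by linarith [hv.1]⟩
  · push_cast
    linarith

theorem union_bd {κ₁ : Type*} (s : Finset κ₁) (A : κ₁ → Set Ω) (x : κ₁ → ℝ≥0∞)
    (h : ∀ l ∈ s, μ (A l) ≤ x l) : μ (⋃ l ∈ s, A l) ≤ ∑ l ∈ s, x l :=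
  (measure_biUnion_finset_le _ _).trans (Finset.sum_le_sum h)

end TCBWLT

/-- BWLT1. Late pieces, unit scale: at a time `u ∈ [4^(i+m), 4^(i+m+1)]` the reversal of a solution
which starts in the disc of radius `2^m` has a cut.

Proof. Constants: `c₂, p, H₀, ε₀` and `C₁` (for `ε, c₀`) from `ref_fun` for `(b, a, -c)`, `C₂` from
`area_late`; `κ > 0` small (`κ ≤ 1/100`, `κ ≤ c₂ / 100`), `cL` small (`cL ≤ κ / 4`,
`cL ≤ c₂ / (100 (p + 1))`); `k = ⌊κ i⌋₊`, `R = 2^(i-k+m)` (a natural number), `S = a + b + 1`.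
`U = W · ω`. The event `A` is the union of the following.
(1) The event of `DescP` for `n = k` and the process `subP W 0 R` (`Gau.subP`): probability at
most `exp (-k)`.
(2) The event of `area_late` with `ρ = 2^m`, `R`, `Δ = i / 4`, `h = R^2`, `N = 4^k + 1`:
probability at most `C₂ (4^k + 1) 4^m exp (i/2) / 4^(i-k+m) ≤ 2 C₂ 4^(2k) exp (i/2) 4^(-i)`.
(3) The event of `max_ev` with `N = i + m + 1`, `y = i`: at most
`(i + m + 2) 4 exp (-i^2 / (4 S))`. Outside it `cr_upper` gives `|Z_v| ≤ 2^m + 3 i 2^(i+m+1) +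
5 * 2^(i+m+1) ≤ (3 i + 6) 2^(i+m+1) ≤ 2^H` on `[0,u]`, `H = 3 i`, and
`|Z_v| ≤ 2^m (3 i + 6) =: e` on `[0,1]`.
(4) For every `l ≤ 4^(k+1)` and `N₀ = l R^2` take `y = y^(N₀)` from `ref_fun` (for `(b, a, -c)`)
with `H`, `s = i^3 2^m`, `ρ = i / 8`, `R₀ = R`, `e`, and for every `u ∈ [4^(i+m), 4^(i+m+1)]` the
functional `Y` of the process `rvP W u` (`rv_gau`): the event `{1 ≤ Y u}` has probability at most
`y u` (Markov), the sum over `u` is at most the total bound, so the union over `u` and `l` has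
probability at most `(4^(k+1) + 1) C₁ (s e H)^p (exp (-c₂ i / 8) + R^(-c₂))`.
All together `≤ exp (-cL i)` for `i ≥ i₀`.
Suppose `ω ∉ A` and there are `u, z, g` as in the statement with `CutFree`. By (1), applied to
the scaled solution `gs U g 0 R` on `[0,4^k]` (`Sol.shift`, `Sol.restrict`; `R^2 4^k = 4^(i+m) ≤ u`)
with `s = 1`, `M = 0` (`1 + k^10 ≤ 4^k`): there is `j ∈ [1, k^10]` such that the cell `j` is not
low: `|Z_v| > R` for `v ∈ [j R^2, (j+1) R^2]`. Let `t' = j R^2`. (2) gives `w₀ ∈ [0,t']` with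
`ph U g 0 t' + i / 4 < ph U g 0 w₀ + ε * lk U g w₀ t'`. For the reversed solution
`g^ = rvg U g u` of `U^ = rvU U u` (`rv_sol`) this means (`rv_ph`) that
`ph^ (u - t') + i / 4 < ph^ (u - w₀)`. Let `s' = u - t'`, `l = ⌊s' / R^2⌋`, `N₀ = l R^2`:
`s' - R^2 < N₀ ≤ s'`, so `|Z^| > R` on `[N₀, s']` and `ph^ s' - ph^ N₀ ≥ -(2 + ε) -
log ((3 i + 6) 2^(i+m+1) / R) ≥ - 3 - (k + 1) log 2 - log (3 i + 6)`; hence
`ph^ N₀ + i / 8 < ph^ (u - w₀)` for large `i`. `N₀ + 1 ≤ u` as `j ≥ 1`. The property of the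
functional `Y` of (4) for `t = u` (start `i Z_u`, `‖·‖ ≤ s`; `|Z^| ≤ e` on `[u-1,u]`;
`R ≤ |Z^_{N₀}|`) gives `1 ≤ Y u ω`, a contradiction. -/
theorem late_unit [IsProbabilityMeasure μ] {a b c K : ℝ} (ha : 0 ≤ a) (hb : 0 ≤ b) (hK : 0 ≤ K)
    {ψ : ℝ → ℝ} (hψ : ContDiff ℝ 3 ψ) (hψp : Function.Periodic ψ (2 * π))
    (hop : ∀ θ, Op a b c 0 ψ θ - 2 * 2 * Real.cos (2 * θ) ≤ 0) (hM : CrF b a (-c))
    (hD : DescP μ a b c K) :
    ∃ ε₀ > 0, ∀ ε : ℝ, 0 < ε → ε ≤ ε₀ → ∀ c₀ : ℝ, 0 ≤ c₀ → ∃ cL : ℝ, 0 < cL ∧ cL ≤ 1 ∧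
      ∃ i₀ : ℕ, ∀ i ≥ i₀, ∀ m : ℕ, (m : ℝ) ≤ cL * i → ∀ W : ℝ → Ω → ℂ, Gau a b c K W μ →
        ∃ A, MeasurableSet A ∧ μ A ≤ ENNReal.ofReal (Real.exp (-(cL * i))) ∧
          ∀ ω ∉ A, ∀ (u : ℕ) (z : ℂ) (g : ℝ → ℂ), 4 ^ (i + m) ≤ u → u ≤ 4 ^ (i + m + 1) →
            ‖z‖ ≤ 2 ^ m → Sol (fun t => W t ω) z u g → ‖g u - W u ω‖ ≤ (i : ℝ) ^ 3 * 2 ^ m →
            ¬ CutFree (rvU (fun t => W t ω) u) (rvg (fun t => W t ω) g u) ε c₀ 0 u := by
  classical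
  obtain ⟨c₂, ε₀, p, H₀, hc₂, hε₀, hε₀1, href⟩ := ref_fun (μ := μ) hb ha hK hM
  obtain ⟨n₀, hdesc⟩ := hD
  refine ⟨ε₀, hε₀, fun ε hε hεε c₀ hc₀ => ?_⟩
  obtain ⟨C₁, hC₁, href⟩ := href ε hε hεε c₀ hc₀
  obtain ⟨C₂, hC₂, harea⟩ := area_late (μ := μ) ha hb hK hψ hψp hop hε (hεε.trans hε₀1)
  obtain ⟨κ, hκ⟩ : ∃ κ, κ = min (1 / 100) (c₂ / 100) := ⟨_, rfl⟩
  have hκ0 : 0 < κ := by rw [hκ]; exact lt_min (by norm_num) (by positivity)
  have hκ1 : κ ≤ 1 / 100 := by rw [hκ]; exact min_le_left _ _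
  have hκ2 : κ ≤ c₂ / 100 := by rw [hκ]; exact min_le_right _ _
  obtain ⟨cL, hcL⟩ : ∃ cL, cL = min (κ / 4) (c₂ / (100 * ((p : ℝ) + 1))) := ⟨_, rfl⟩
  have hcL0 : 0 < cL := by rw [hcL]; exact lt_min (by positivity) (by positivity)
  have hcL1 : cL ≤ κ / 4 := by rw [hcL]; exact min_le_left _ _
  have hcL2 : cL * p ≤ c₂ / 100 := by
    have h1 : cL ≤ c₂ / (100 * ((p : ℝ) + 1)) := by rw [hcL]; exact min_le_right _ _
    rw [le_div_iff₀ (by positivity)] at h1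
    linarith
  obtain ⟨i₀, hnum⟩ := TCBWLT.num (n₀ := n₀) (H₀ := H₀) hκ0 hκ1 hκ2 hcL0 hcL1 hcL2 hc₂ hC₁ hC₂
    (S := a + b + 1) (by linarith)
  refine ⟨cL, hcL0, by linarith, i₀, fun i hi m hm W hW => ?_⟩
  obtain ⟨k, hk⟩ : ∃ k, k = ⌊κ * i⌋₊ := ⟨_, rfl⟩
  obtain ⟨b1, b2, b3, b4, b5, b6, b7, b8, b9, b10, b11⟩ := hnum i hi m k hm hk
  obtain ⟨R, hR⟩ : ∃ R : ℕ, R = 2 ^ (i - k + m) := ⟨_, rfl⟩
  have hRr : (R : ℝ) = 2 ^ (i - k + m) := by rw [hR]; push_cast; rfl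
  have hR0 : (0 : ℝ) < R := by rw [hRr]; positivity
  have hi64 : (64 : ℝ) ≤ i := by exact_mod_cast b4
  have h2m : (1 : ℝ) ≤ 2 ^ m := one_le_pow₀ (by norm_num)
  have hR2 : (2 : ℝ) ≤ R := by
    rw [hRr]
    calc (2 : ℝ) = 2 ^ 1 := (pow_one _).symm
      _ ≤ 2 ^ (i - k + m) := pow_le_pow_right₀ (by norm_num) (by omega)
  have hs1 : (1 : ℝ) ≤ (i : ℝ) ^ 3 * 2 ^ m :=
    one_le_mul_of_one_le_of_one_le (one_le_pow₀ (by linarith)) h2m
  have he1 : (1 : ℝ) ≤ 2 ^ m * (3 * i + 6) :=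
    one_le_mul_of_one_le_of_one_le h2m (by linarith)
  -- the four events
  obtain ⟨A1, hA1m, hA1, hA1'⟩ := hdesc k b1 (subP W 0 R) (hW.subP le_rfl hR0)
  obtain ⟨A2, hA2m, hA2, hA2'⟩ := harea W hW.toDrv (2 ^ m) R ((i : ℝ) / 4) ((R : ℝ) ^ 2)
    (4 ^ k + 1) h2m hR0 (by positivity) (by positivity)
  obtain ⟨A3, hA3m, hA3, hA3'⟩ := max_ev hW (i + m + 1) (y := (i : ℝ)) (by linarith)
  choose y hy hY using fun l : ℕ => href (3 * i) b3 ((i : ℝ) ^ 3 * 2 ^ m) ((i : ℝ) / 8) R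
    (2 ^ m * (3 * i + 6)) (l * R ^ 2) hs1 (by linarith) hR2 he1
  choose Y hYm hYi hYl using fun (l u : ℕ) => hY l (rvP W u) (rv_gau hW (Nat.cast_nonneg u))
  obtain ⟨A4, hA4d⟩ : ∃ A4 : Set Ω, A4 = ⋃ l ∈ Finset.range (4 ^ (k + 1) + 1),
      ⋃ t ∈ Finset.range (4 ^ (i + m + 1)), {ω | 1 ≤ Y l (t + 1) (t + 1) ω} := ⟨_, rfl⟩
  have hA4m : MeasurableSet A4 := by
    rw [hA4d]
    exact Finset.measurableSet_biUnion _ fun l _ => Finset.measurableSet_biUnion _ fun t _ =>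
      measurableSet_le measurable_const (hYm l (t + 1) (t + 1))
  have hA4 : μ A4 ≤ ENNReal.ofReal (Real.exp (-(cL * i)) / 4) := by
    rw [hA4d]
    have h1 : ∀ l ∈ Finset.range (4 ^ (k + 1) + 1),
        μ (⋃ t ∈ Finset.range (4 ^ (i + m + 1)), {ω | 1 ≤ Y l (t + 1) (t + 1) ω}) ≤
          ENNReal.ofReal (C₁ * ((i : ℝ) ^ 3 * 2 ^ m * (2 ^ m * (3 * i + 6)) * (3 * i)) ^ p *
            (Real.exp (-(c₂ * (i / 8))) + ((2 : ℝ) ^ (i - k + m)) ^ (-c₂))) := by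
      intro l _
      refine (TCBWLT.union_bd _ _ (fun t => y l (t + 1)) fun t _ => ?_).trans ?_
      · have h2 := mul_meas_ge_le_lintegral (μ := μ) (hYm l (t + 1) (t + 1)) 1
        rw [one_mul] at h2
        exact h2.trans (hYi l (t + 1) (t + 1))
      · have h3 := hy l (4 ^ (i + m + 1))
        rw [hRr] at h3
        push_cast at h3
        exact h3
    refine (TCBWLT.union_bd _ _ _ h1).trans ?_
    rw [Finset.sum_const, Finset.card_range, nsmul_eq_mul, ← ENNReal.ofReal_natCast,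
      ← ENNReal.ofReal_mul (Nat.cast_nonneg _)]
    refine ENNReal.ofReal_le_ofReal ?_
    push_cast
    exact b11
  have hA1b : μ A1 ≤ ENNReal.ofReal (Real.exp (-(cL * i)) / 4) :=
    hA1.trans (ENNReal.ofReal_le_ofReal b8)
  have hA2b : μ A2 ≤ ENNReal.ofReal (Real.exp (-(cL * i)) / 4) := by
    refine hA2.trans (ENNReal.ofReal_le_ofReal ?_)
    rw [hRr]
    push_cast
    exact b9
  have hA3b : μ A3 ≤ ENNReal.ofReal (Real.exp (-(cL * i)) / 4) := by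
    refine hA3.trans (ENNReal.ofReal_le_ofReal ?_)
    push_cast
    exact b10
  refine ⟨A1 ∪ A2 ∪ A3 ∪ A4, ((hA1m.union hA2m).union hA3m).union hA4m, ?_, ?_⟩
  · have hq : 0 ≤ Real.exp (-(cL * (i : ℝ))) / 4 := by positivity
    calc μ (A1 ∪ A2 ∪ A3 ∪ A4) ≤ μ A1 + μ A2 + μ A3 + μ A4 :=
          (measure_union_le _ _).trans (add_le_add_left ((measure_union_le _ _).trans
            (add_le_add_left (measure_union_le _ _) _)) _)
      _ ≤ ENNReal.ofReal (Real.exp (-(cL * i)) / 4) +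
            ENNReal.ofReal (Real.exp (-(cL * i)) / 4) +
            ENNReal.ofReal (Real.exp (-(cL * i)) / 4) +
            ENNReal.ofReal (Real.exp (-(cL * i)) / 4) :=
          add_le_add (add_le_add (add_le_add hA1b hA2b) hA3b) hA4
      _ = ENNReal.ofReal (Real.exp (-(cL * i))) := by
          rw [← ENNReal.ofReal_add hq hq, ← ENNReal.ofReal_add (by positivity) hq,
            ← ENNReal.ofReal_add (by positivity) hq]
          congr 1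
          ring
  · intro ω hω u z g hu1 hu2 hz hg hgu hcf
    have hω1 : ω ∉ A1 := fun h => hω (Or.inl (Or.inl (Or.inl h)))
    have hω2 : ω ∉ A2 := fun h => hω (Or.inl (Or.inl (Or.inr h)))
    have hω3 : ω ∉ A3 := fun h => hω (Or.inl (Or.inr h))
    have hω4 : ω ∉ A4 := fun h => hω (Or.inr h)
    obtain ⟨l, hl, hlu, d1, d2, d3, d4⟩ := TCBWLT.det (U := fun t => W t ω) (hW.cont ω) hε.le
      (hεε.trans hε₀1) hR b5 b6 b4 b2 b7 hu1 hu2 hz hg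
      (fun z' g' hs => by
        have h1 := hA1' ω hω1 (4 ^ k) z' g' (Nat.pow_le_pow_right (by norm_num) (by omega)) hs
          0 1 (by simpa using b2)
        rw [Nat.add_zero] at h1
        exact h1)
      (fun j hj z g hz hg hR => hA2' ω hω2 j hj z g hz hg hR)
      (fun j hj v hv => hA3' ω hω3 j hj v hv)
    have h1 := hYl l u ω u _ _ hlu
      (by rw [norm_mul, Complex.norm_I, one_mul]; exact hgu)
      (rv_sol (Nat.cast_nonneg u) hg) d1 d2 d3 hcf d4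
    refine hω4 ?_
    have hu0 : 1 ≤ u := le_trans (Nat.one_le_pow _ _ (by norm_num)) hu1
    rw [hA4d]
    refine Set.mem_biUnion (x := l) (Finset.mem_range.2 (by omega)) ?_
    refine Set.mem_biUnion (x := u - 1) (Finset.mem_range.2 (by omega)) ?_
    change 1 ≤ Y l (u - 1 + 1) (u - 1 + 1) ω
    rw [Nat.sub_add_cancel hu0]
    exact h1

end

end Pool.Agent.SLE
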