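import Pool.Agent.Lib.MP_c17912_pr_TC.BWSG

/-!
# MP_c17912_pr, project TC, backward critical case: the discrete one particle estimate

`PhD`: the functional `ph` for the Euler scheme. `DnS`: the time is at least the reference time
`j₀`, `|Z|` is at least `R₀` at the time `j₀`, the functional has reached `θ` at a time with
`|Z| ≥ 1/2`, and it has risen by `ρ` after `j₀`.
-/

set_option autoImplicit false

open MeasureTheory ProbabilityTheory Filter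
open scoped NNReal ENNReal Topology Real

namespace Pool.Agent.SLE

noncomputable section

variable {Ω : Type*} [MeasurableSpace Ω] {μ : Measure Ω} {a b c K : ℝ} {W : ℝ → Ω → ℂ}

/-- The functional `ph` for the Euler scheme. -/
def PhD (W : ℝ → Ω → ℂ) (z₀ : ℂ) (h ε : ℝ) (j : ℕ) (ω : Ω) : ℝ :=
  DiscAux.A W z₀ h (kk 1 ε) j ω - Real.log ‖DiscAux.Z W z₀ h j ω‖

/-- Reference time passed, large there, flag and rise. -/
def DnS (W : ℝ → Ω → ℂ) (z₀ : ℂ) (h ε θ ρ R₀ : ℝ) (j₀ j : ℕ) : Set Ω :=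
  {ω | j₀ ≤ j ∧ R₀ ≤ ‖DiscAux.Z W z₀ h j₀ ω‖ ∧
    (∃ i ≤ j, 1 / 2 ≤ ‖DiscAux.Z W z₀ h i ω‖ ∧ θ ≤ PhD W z₀ h ε i ω) ∧
    ∃ i, j₀ ≤ i ∧ i ≤ j ∧ PhD W z₀ h ε j₀ ω + ρ ≤ PhD W z₀ h ε i ω}


namespace TCBWRA

omit [MeasurableSpace Ω] in
lemma A_mul {h : ℝ} (q ε : ℝ) (z₀ : ℂ) (j : ℕ) (ω : Ω) :
    DiscAux.A W z₀ h (kk q (q * ε)) j ω = q * DiscAux.A W z₀ h (kk 1 ε) j ω := by
  unfold DiscAux.A
  rw [Finset.mul_sum]
  refine Finset.sum_congr rfl fun i _ => ?_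
  unfold kk
  ring

lemma PhD_meas {h ε : ℝ} (hh : 0 < h) (z₀ : ℂ) (j : ℕ) {u : ℝ} (hu : j * h ≤ u) :
    Measurable[Blk W 0 u] (PhD W z₀ h ε j) :=
  (DiscAux.A_meas hh (SmgAux.measurable_kk 1 ε) z₀ j hu).sub
    (Real.measurable_log.comp (measurable_norm.comp (DiscAux.Z_meas hh z₀ j u hu)))

/-- Some `E i`, `i ≤ j`, has occurred. -/
def Ex (E : ℕ → Set Ω) (j : ℕ) : Set Ω := {ω | ∃ i ≤ j, ω ∈ E i}

omit [MeasurableSpace Ω] in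
lemma ex_meas {m : MeasurableSpace Ω} {E : ℕ → Set Ω} {j : ℕ}
    (hE : ∀ i ≤ j, MeasurableSet[m] (E i)) : MeasurableSet[m] (Ex E j) := by
  have h1 : Ex E j = ⋃ i ∈ Finset.range (j + 1), E i := by
    ext ω
    simp only [Ex, Set.mem_iUnion, Finset.mem_range, Nat.lt_succ_iff, exists_prop]
    exact Iff.rfl
  rw [h1]
  refine MeasurableSet.biUnion (Finset.range (j + 1)).countable_toSet fun i hi => hE i ?_
  have hi' : i < j + 1 := by simpa using hi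
  omega

omit [MeasurableSpace Ω] in
lemma ex_blk {h : ℝ} (hh : 0 < h) {E : ℕ → Set Ω}
    (hE : ∀ i : ℕ, MeasurableSet[Blk W 0 (i * h)] (E i)) (j : ℕ) :
    MeasurableSet[Blk W 0 (j * h)] (Ex E j) := by
  refine ex_meas fun i hi => ?_
  have h1 : (i : ℝ) * h ≤ j * h := by
    have : (i : ℝ) ≤ j := by exact_mod_cast hi
    nlinarith
  exact Blk_le_Blk le_rfl h1 _ (hE i)

omit [MeasurableSpace Ω] in
lemma ex_mono (E : ℕ → Set Ω) (j : ℕ) : Ex E j ⊆ Ex E (j + 1) :=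
  fun _ ⟨i, hi, hω⟩ => ⟨i, by omega, hω⟩

omit [MeasurableSpace Ω] in
lemma ex_new {E : ℕ → Set Ω} {j : ℕ} {ω : Ω} (h1 : ω ∉ Ex E j) (h2 : ω ∈ Ex E (j + 1)) :
    ω ∈ E (j + 1) := by
  obtain ⟨i, hi, hω⟩ := h2
  rcases Nat.lt_or_ge j i with h3 | h3
  · have : i = j + 1 := by omega
    subst this
    exact hω
  · exact absurd ⟨i, h3, hω⟩ h1

omit [MeasurableSpace Ω] in
lemma ex_zero {E : ℕ → Set Ω} {ω : Ω} (h2 : ω ∈ Ex E 0) : ω ∈ E 0 := by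
  obtain ⟨i, hi, hω⟩ := h2
  have : i = 0 := by omega
  subst this
  exact hω

/-- The glued sequence. -/
def gl (E : ℕ → Set Ω) (M₁ M₂ : ℕ → Ω → ℝ≥0∞) (j : ℕ) (ω : Ω) : ℝ≥0∞ :=
  (Ex E j).indicator (M₂ j) ω + (Ex E j)ᶜ.indicator (M₁ j) ω

omit [MeasurableSpace Ω] in
lemma gl_mem {E : ℕ → Set Ω} {M₁ M₂ : ℕ → Ω → ℝ≥0∞} {j : ℕ} {ω : Ω} (h1 : ω ∈ Ex E j) :
    gl E M₁ M₂ j ω = M₂ j ω := by
  have h3 : ω ∉ (Ex E j)ᶜ := fun hc => hc h1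
  rw [gl, Set.indicator_of_mem h1, Set.indicator_of_notMem h3, add_zero]

omit [MeasurableSpace Ω] in
lemma gl_notMem {E : ℕ → Set Ω} {M₁ M₂ : ℕ → Ω → ℝ≥0∞} {j : ℕ} {ω : Ω} (h1 : ω ∉ Ex E j) :
    gl E M₁ M₂ j ω = M₁ j ω := by
  have h3 : ω ∈ (Ex E j)ᶜ := h1
  rw [gl, Set.indicator_of_notMem h1, Set.indicator_of_mem h3, zero_add]

omit [MeasurableSpace Ω] in
lemma gl_zero {E : ℕ → Set Ω} {M₁ M₂ : ℕ → Ω → ℝ≥0∞}
    (hsw : ∀ i ω, ω ∈ E i → M₂ i ω ≤ M₁ i ω) (ω : Ω) : gl E M₁ M₂ 0 ω ≤ M₁ 0 ω := by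
  by_cases h1 : ω ∈ Ex E 0
  · rw [gl_mem h1]
    exact hsw 0 ω (ex_zero h1)
  · rw [gl_notMem h1]

lemma gl_smp {h : ℝ} (hh : 0 < h) {Q : ℝ≥0∞} {M₁ M₂ : ℕ → Ω → ℝ≥0∞}
    (hle : ∀ j : ℕ, Blk W 0 (j * h) ≤ (inferInstance : MeasurableSpace Ω))
    (h₁ : SMP μ W h Q M₁) (h₂ : SMP μ W h Q M₂) {E : ℕ → Set Ω}
    (hE : ∀ i : ℕ, MeasurableSet[Blk W 0 (i * h)] (E i))
    (hsw : ∀ i ω, ω ∈ E i → M₂ i ω ≤ M₁ i ω) : SMP μ W h Q (gl E M₁ M₂) :=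
  SMP.glue hle h₁ h₂ (ex_blk hh hE) (ex_mono E) fun j ω h1 h2 => hsw _ ω (ex_new h1 h2)

/-- The last gluing and the total estimate. -/
lemma fin [IsProbabilityMeasure μ] (hW : Drv a b c K W μ) {h Q δ R κ B : ℝ} (hh : 0 < h)
    (hQ : 1 ≤ Q) (hκ : 0 < κ) (hB : 1 ≤ B) {G₄ k : ℂ → ℝ} (hG₄m : Measurable G₄)
    (hkm : Measurable k)
    (hG₄ : ∀ z : ℂ, δ ≤ ‖z‖ → ‖z‖ ≤ R → 1 ≤ G₄ z ∧ G₄ z ≤ B)
    (hk : ∀ z : ℂ, δ ≤ ‖z‖ → ‖z‖ ≤ R → 0 ≤ k z ∧ h * k z ≤ 1)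
    (h4 : ∀ (z : ℂ) (s : ℝ), δ ≤ ‖z‖ → ‖z‖ ≤ R → 0 ≤ s →
      ∫⁻ ω, ENNReal.ofReal (G₄ (z + 2 * h / z - (W (s + h) ω - W s ω))) ∂μ
        ≤ ENNReal.ofReal (Q * Real.exp (-(h * k z)) * G₄ z))
    (z₀ : ℂ) {L : ℕ → Ω → ℝ≥0∞} (hL : SMP μ W h (ENNReal.ofReal Q) L) {E : ℕ → Set Ω}
    (hE : ∀ i : ℕ, MeasurableSet[Blk W 0 (i * h)] (E i))
    (hsw : ∀ i ω, ω ∈ E i → ENNReal.ofReal κ ≤ L i ω) {y : ℝ≥0∞} (hy : ∀ ω, L 0 ω ≤ y)
    (J : ℕ) :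
    μ (Ex E J) + ∑ j ∈ Finset.range J, ∫⁻ ω in Ex E j ∩ AnS W z₀ h δ R j,
        ENNReal.ofReal (h * k (DiscAux.Z W z₀ h j ω)) ∂μ ≤
      ENNReal.ofReal (4 * B / κ) * (ENNReal.ofReal Q ^ J * y) := by
  classical
  have hB0 : 0 < B := by linarith
  have hQ1 : (1 : ℝ≥0∞) ≤ ENNReal.ofReal Q := by
    rw [← ENNReal.ofReal_one]; exact ENNReal.ofReal_le_ofReal hQ
  have hle : ∀ j : ℕ, Blk W 0 (j * h) ≤ (inferInstance : MeasurableSpace Ω) :=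
    fun j => Blk_le hW _ _
  have hocc := smg_occ hW hh hQ hG₄m hkm (fun z h1 h2 => (hG₄ z h1 h2).1)
    (fun z h1 h2 => (hk z h1 h2).1) (fun z h1 h2 => (hk z h1 h2).2) h4 z₀
  have hM3 := SMG.add hle (SMP.smg (μ := μ) (W := W) (h := h)
    (smp_const hQ1 (ENNReal.ofReal (κ / 2))))
    (hocc.const (κ := ENNReal.ofReal (κ / (2 * B))) ENNReal.ofReal_ne_top)
  have hM3le : ∀ (j : ℕ) (ω : Ω), ENNReal.ofReal (κ / 2) + ENNReal.ofReal (κ / (2 * B)) *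
      (AnS W z₀ h δ R j).indicator (fun ω => ENNReal.ofReal (G₄ (DiscAux.Z W z₀ h j ω))) ω ≤
      ENNReal.ofReal κ := by
    intro j ω
    have h1 : (AnS W z₀ h δ R j).indicator
        (fun ω => ENNReal.ofReal (G₄ (DiscAux.Z W z₀ h j ω))) ω ≤ ENNReal.ofReal B := by
      by_cases h2 : ω ∈ AnS W z₀ h δ R j
      · rw [Set.indicator_of_mem h2]
        exact ENNReal.ofReal_le_ofReal (hG₄ _ (h2 j le_rfl).1 (h2 j le_rfl).2).2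
      · rw [Set.indicator_of_notMem h2]
        exact zero_le
    calc ENNReal.ofReal (κ / 2) + ENNReal.ofReal (κ / (2 * B)) *
          (AnS W z₀ h δ R j).indicator (fun ω => ENNReal.ofReal (G₄ (DiscAux.Z W z₀ h j ω))) ω
        ≤ ENNReal.ofReal (κ / 2) + ENNReal.ofReal (κ / (2 * B)) * ENNReal.ofReal B := by
          gcongr
      _ = ENNReal.ofReal κ := by
          rw [← ENNReal.ofReal_mul (by positivity), ← ENNReal.ofReal_add (by positivity)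
            (by positivity)]
          congr 1
          field_simp
          norm_num
  have hgl := SMG.glue hle hL.smg hM3 (ex_blk hh hE) (ex_mono E) (fun j ω h1 h2 =>
    (hM3le (j + 1) ω).trans (hsw _ ω (ex_new h1 h2)))
  have htot := SMG.total hQ1 hgl J
  have hExm : ∀ j, MeasurableSet (Ex E j) := fun j => hle j _ (ex_blk hh hE j)
  have hAnm : ∀ j, MeasurableSet (AnS W z₀ h δ R j) :=
    fun j => hle j _ (TRDOC.AnS_meas hh z₀ j le_rfl)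
  -- the final value
  have hv : ENNReal.ofReal (κ / (4 * B)) * μ (Ex E J) ≤
      ∫⁻ ω, ((Ex E J).indicator (fun ω => ENNReal.ofReal (κ / 2) +
        ENNReal.ofReal (κ / (2 * B)) * (AnS W z₀ h δ R J).indicator
          (fun ω => ENNReal.ofReal (G₄ (DiscAux.Z W z₀ h J ω))) ω) ω +
        (Ex E J)ᶜ.indicator (L J) ω) ∂μ := by
    rw [← lintegral_indicator_const (hExm J)]
    refine lintegral_mono fun ω => ?_
    refine le_trans ?_ le_self_add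
    by_cases h1 : ω ∈ Ex E J
    · rw [Set.indicator_of_mem h1, Set.indicator_of_mem h1]
      refine le_trans ?_ le_self_add
      apply ENNReal.ofReal_le_ofReal
      exact div_le_div_of_nonneg_left hκ.le (by norm_num) (by linarith)
    · rw [Set.indicator_of_notMem h1]
      exact zero_le
  -- the gains
  have hx : ∀ j, ENNReal.ofReal (κ / (4 * B)) * ∫⁻ ω in Ex E j ∩ AnS W z₀ h δ R j,
        ENNReal.ofReal (h * k (DiscAux.Z W z₀ h j ω)) ∂μ ≤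
      ∫⁻ ω, ((Ex E j).indicator (fun ω => 0 + ENNReal.ofReal (κ / (2 * B)) *
        (AnS W z₀ h δ R j).indicator
          (fun ω => ENNReal.ofReal (h / 2 * k (DiscAux.Z W z₀ h j ω))) ω) ω +
        (Ex E j)ᶜ.indicator (fun _ => 0) ω) ∂μ := by
    intro j
    rw [← lintegral_indicator ((hExm j).inter (hAnm j)),
      ← lintegral_const_mul' _ _ ENNReal.ofReal_ne_top]
    refine lintegral_mono fun ω => ?_
    by_cases h1 : ω ∈ Ex E j ∩ AnS W z₀ h δ R j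
    · refine le_trans ?_ le_self_add
      rw [Set.indicator_of_mem h1, Set.indicator_of_mem h1.1, Set.indicator_of_mem h1.2,
        zero_add, ← ENNReal.ofReal_mul (by positivity), ← ENNReal.ofReal_mul (by positivity)]
      apply ENNReal.ofReal_le_ofReal
      apply le_of_eq
      field_simp
      ring
    · rw [Set.indicator_of_notMem h1, mul_zero]
      exact zero_le
  have h0 : ∫⁻ ω, ((Ex E 0).indicator (fun ω => ENNReal.ofReal (κ / 2) +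
        ENNReal.ofReal (κ / (2 * B)) * (AnS W z₀ h δ R 0).indicator
          (fun ω => ENNReal.ofReal (G₄ (DiscAux.Z W z₀ h 0 ω))) ω) ω +
        (Ex E 0)ᶜ.indicator (L 0) ω) ∂μ ≤ y := by
    calc _ ≤ ∫⁻ _, y ∂μ := by
          refine lintegral_mono fun ω => ?_
          by_cases h1 : ω ∈ Ex E 0
          · have h3 : ω ∉ (Ex E 0)ᶜ := fun hc => hc h1
            simp only [Set.indicator_of_mem h1, Set.indicator_of_notMem h3, add_zero]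
            exact (hM3le 0 ω).trans ((hsw 0 ω (ex_zero h1)).trans (hy ω))
          · have h3 : ω ∈ (Ex E 0)ᶜ := h1
            simp only [Set.indicator_of_notMem h1, Set.indicator_of_mem h3, zero_add]
            exact hy ω
      _ = y := by simp
  have hsum : ENNReal.ofReal (κ / (4 * B)) * (μ (Ex E J) +
      ∑ j ∈ Finset.range J, ∫⁻ ω in Ex E j ∩ AnS W z₀ h δ R j,
        ENNReal.ofReal (h * k (DiscAux.Z W z₀ h j ω)) ∂μ) ≤ ENNReal.ofReal Q ^ J * y := by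
    rw [mul_add, Finset.mul_sum]
    exact (add_le_add hv (Finset.sum_le_sum fun j _ => hx j)).trans
      (htot.trans (mul_le_mul_right h0 _))
  calc _ = ENNReal.ofReal (4 * B / κ) * (ENNReal.ofReal (κ / (4 * B)) * (μ (Ex E J) +
      ∑ j ∈ Finset.range J, ∫⁻ ω in Ex E j ∩ AnS W z₀ h δ R j,
        ENNReal.ofReal (h * k (DiscAux.Z W z₀ h j ω)) ∂μ)) := by
        rw [← mul_assoc, ← ENNReal.ofReal_mul (by positivity)]
        have e1 : 4 * B / κ * (κ / (4 * B)) = 1 := by field_simp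
        rw [e1, ENNReal.ofReal_one, one_mul]
    _ ≤ _ := mul_le_mul_right hsum _

end TCBWRA

/-- BWRA1. The discrete estimate.

Proof. Write `A_j = DiscAux.A W z₀ h (kk 1 ε) j`, `P_j = PhD .. j`, so
`DiscAux.A W z₀ h (kk q (q ε)) j = q A_j`, and `exp (q A_j) = exp (q P_j) |Z_j|^q` (in the annulus
`|Z_j| ≥ δ > 0`). All the sequences below are restricted to `AnS j` (`smp_one`).
(a) flag before the reference time: let
`M₁ = exp (-q θ) exp (q A_j) G (Z_j)` (from `smp_one`, `h1`, `SMP.const`),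
`M₂ = if j < j₀ then f else w f / B₃ exp (q₃ A_j) G₃ (Z_j)`, `w = exp (- q₃ P_{j₀})`
(`SMP.start`; `w exp (q₃ A_{j₀}) G₃ = |Z|^q₃ G₃ ≤ B₃`; define `w` as the indicator of `AnS j₀`
times the exponential),
`M₃ = κ / 2 * (1 + 1_(AnS j) G₄ (Z_j) / B)`, `κ = f exp (q₃ ρ) / B₃^2` (`smp_const`, `smg_occ`,
`SMG.add`, `SMG.const`), gains `X = κ / (2 B) * 1_(AnS j) h / 2 * k (Z_j)`.
Glue `M₁` to `M₂` at the event `S_j = {∃ i ≤ min j j₀, ω ∈ AnS i, 1/2 ≤ |Z_i|, θ ≤ P_i}`: at the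
first such time `M₁ ≥ exp (q (P - θ)) |Z|^q G ≥ f ≥ M₂` (for `i = j₀` also `M₂ ≤ f`). Glue the
result to `M₃` at the event `S'_j = {∃ i, j₀ ≤ i ≤ j, ω ∈ AnS i, ω ∈ S_i, P_{j₀} + ρ ≤ P_i}`: at
the first such time the glued sequence is `M₂ ≥ f / B₃ exp (q₃ (P_i - P_{j₀})) |Z|^q₃ G₃ ≥ κ`.
`SMG.total`: `κ / 2 μ (S'_J) + κ / (4 B) ∑ ∫ 1_(S'_j ∩ AnS j) h k (Z_j) ≤ Q^J M₀`, and
`M₀ ≤ exp (-q θ) G z₀` (if the flag is up at time `0` then `M₂ ≤ M₁` there).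
(b) flag after the reference time: the same with
`M₁ = exp (-q θ) exp (q A_j) G' (Z_j)`, glued at the event `{j₀ ≤ j, R₀ ≤ |Z_{j₀}|, AnS j₀}` to
`M₂ = R₀^κ' exp (-q θ) exp (q A_j) G (Z_j)` (at the entrance, `j = j₀`, by `hG'`; if `j₀ = 0` the
event holds at time `0`), then glued at the event
`{∃ i, j₀ ≤ i ≤ j, R₀ ≤ |Z_{j₀}|, AnS i, 1/2 ≤ |Z_i|, θ ≤ P_i}` to `M₃` with `κ = f R₀^κ'`.
On `AnS j ∩ DnS j` one of the two final events holds (flag at a time `i ≤ j₀` or `i ≥ j₀`). Add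
the two inequalities. -/
theorem ref_disc [IsProbabilityMeasure μ] (hW : Drv a b c K W μ)
    {h Q δ R ε q q₃ θ ρ R₀ κ' f B₃ B : ℝ} (j₀ : ℕ) (hh : 0 < h) (hQ : 1 ≤ Q) (hδ : 0 < δ)
    (hq : 0 ≤ q) (hq₃ : 0 ≤ q₃) (hκ' : 0 ≤ κ') (hρ : 0 ≤ ρ) (hR₀ : 1 ≤ R₀) (hf : 0 < f)
    (hB₃ : 1 ≤ B₃) (hB : 1 ≤ B) {G G' G₃ G₄ k : ℂ → ℝ} (hGm : Measurable G)
    (hG'm : Measurable G') (hG₃m : Measurable G₃) (hG₄m : Measurable G₄) (hkm : Measurable k)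
    (hG0 : ∀ z, 0 ≤ G z) (hG'0 : ∀ z, 0 ≤ G' z) (hG₃0 : ∀ z, 0 ≤ G₃ z)
    (hG' : ∀ z : ℂ, δ ≤ ‖z‖ → ‖z‖ ≤ R → R₀ ≤ ‖z‖ → R₀ ^ κ' * G z ≤ G' z)
    (hGf : ∀ z : ℂ, δ ≤ ‖z‖ → ‖z‖ ≤ R → 1 / 2 ≤ ‖z‖ → f ≤ ‖z‖ ^ q * G z)
    (hG₃ : ∀ z : ℂ, δ ≤ ‖z‖ → ‖z‖ ≤ R → 1 / B₃ ≤ ‖z‖ ^ q₃ * G₃ z ∧ ‖z‖ ^ q₃ * G₃ z ≤ B₃)
    (hG₄ : ∀ z : ℂ, δ ≤ ‖z‖ → ‖z‖ ≤ R → 1 ≤ G₄ z ∧ G₄ z ≤ B)
    (hk : ∀ z : ℂ, δ ≤ ‖z‖ → ‖z‖ ≤ R → 0 ≤ k z ∧ h * k z ≤ 1)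
    (h1 : ∀ (z : ℂ) (s : ℝ), δ ≤ ‖z‖ → ‖z‖ ≤ R → 0 ≤ s →
      ∫⁻ ω, ENNReal.ofReal (G (z + 2 * h / z - (W (s + h) ω - W s ω))) ∂μ
        ≤ ENNReal.ofReal (Q * Real.exp (-(h * kk q (q * ε) z)) * G z))
    (h1' : ∀ (z : ℂ) (s : ℝ), δ ≤ ‖z‖ → ‖z‖ ≤ R → 0 ≤ s →
      ∫⁻ ω, ENNReal.ofReal (G' (z + 2 * h / z - (W (s + h) ω - W s ω))) ∂μ
        ≤ ENNReal.ofReal (Q * Real.exp (-(h * kk q (q * ε) z)) * G' z))
    (h3 : ∀ (z : ℂ) (s : ℝ), δ ≤ ‖z‖ → ‖z‖ ≤ R → 0 ≤ s →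
      ∫⁻ ω, ENNReal.ofReal (G₃ (z + 2 * h / z - (W (s + h) ω - W s ω))) ∂μ
        ≤ ENNReal.ofReal (Q * Real.exp (-(h * kk q₃ (q₃ * ε) z)) * G₃ z))
    (h4 : ∀ (z : ℂ) (s : ℝ), δ ≤ ‖z‖ → ‖z‖ ≤ R → 0 ≤ s →
      ∫⁻ ω, ENNReal.ofReal (G₄ (z + 2 * h / z - (W (s + h) ω - W s ω))) ∂μ
        ≤ ENNReal.ofReal (Q * Real.exp (-(h * k z)) * G₄ z))
    (z₀ : ℂ) (J : ℕ) :
    μ {ω | ∃ j ≤ J, ω ∈ AnS W z₀ h δ R j ∩ DnS W z₀ h ε θ ρ R₀ j₀ j} +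
        ∑ j ∈ Finset.range J, ∫⁻ ω in AnS W z₀ h δ R j ∩ DnS W z₀ h ε θ ρ R₀ j₀ j,
          ENNReal.ofReal (h * k (DiscAux.Z W z₀ h j ω)) ∂μ ≤
      ENNReal.ofReal (4 * B * B₃ ^ 2 / f * Q ^ J * Real.exp (-(q * θ)) * (G z₀ + G' z₀) *
        (Real.exp (-(q₃ * ρ)) + R₀ ^ (-κ'))) := by
  classical
  have hQ0 : 0 ≤ Q := by linarith
  have hQ1 : (1 : ℝ≥0∞) ≤ ENNReal.ofReal Q := by
    rw [← ENNReal.ofReal_one]; exact ENNReal.ofReal_le_ofReal hQ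
  have hB0 : 0 < B := by linarith
  have hB30 : 0 < B₃ := by linarith
  have hR00 : 0 < R₀ := by linarith
  have hle : ∀ j : ℕ, Blk W 0 (j * h) ≤ (inferInstance : MeasurableSpace Ω) :=
    fun j => Blk_le hW _ _
  -- measurability of the pieces
  have hAn : ∀ i : ℕ, MeasurableSet[Blk W 0 (i * h)] (AnS W z₀ h δ R i) :=
    fun i => TRDOC.AnS_meas hh z₀ i le_rfl
  have hnZ : ∀ (i : ℕ) (u : ℝ), i * h ≤ u →
      Measurable[Blk W 0 u] (fun ω => ‖DiscAux.Z W z₀ h i ω‖) :=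
    fun i u hu => measurable_norm.comp (DiscAux.Z_meas hh z₀ i u hu)
  have hPm : ∀ (i : ℕ) (u : ℝ), i * h ≤ u → Measurable[Blk W 0 u] (PhD W z₀ h ε i) :=
    fun i u hu => TCBWRA.PhD_meas hh z₀ i hu
  have hZp : ∀ (i : ℕ) (ω : Ω), ω ∈ AnS W z₀ h δ R i → 0 < ‖DiscAux.Z W z₀ h i ω‖ :=
    fun i ω hω => lt_of_lt_of_le hδ (hω i le_rfl).1
  have hexp : ∀ (q : ℝ) (i : ℕ) (ω : Ω), ω ∈ AnS W z₀ h δ R i →
      Real.exp (q * DiscAux.A W z₀ h (kk 1 ε) i ω) =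
        Real.exp (q * PhD W z₀ h ε i ω) * ‖DiscAux.Z W z₀ h i ω‖ ^ q := by
    intro q i ω hω
    rw [Real.rpow_def_of_pos (hZp i ω hω), ← Real.exp_add, PhD]
    congr 1
    ring
  -- the sequences
  have hN : ∀ (q : ℝ) (F : ℂ → ℝ), Measurable F →
      (∀ (z : ℂ) (s : ℝ), δ ≤ ‖z‖ → ‖z‖ ≤ R → 0 ≤ s →
        ∫⁻ ω, ENNReal.ofReal (F (z + 2 * h / z - (W (s + h) ω - W s ω))) ∂μ
          ≤ ENNReal.ofReal (Q * Real.exp (-(h * kk q (q * ε) z)) * F z)) →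
      SMP μ W h (ENNReal.ofReal Q) (fun j ω => (AnS W z₀ h δ R j).indicator
        (fun ω => ENNReal.ofReal (Real.exp (q * DiscAux.A W z₀ h (kk 1 ε) j ω) *
          F (DiscAux.Z W z₀ h j ω))) ω) := by
    intro q F hF h1
    have h2 := smp_one hW hh hQ0 hF (SmgAux.measurable_kk q (q * ε)) h1 z₀
    simpa only [TCBWRA.A_mul] using h2
  obtain ⟨N, hNdef⟩ : ∃ N : ℝ → (ℂ → ℝ) → ℕ → Ω → ℝ≥0∞, N = fun q F j ω =>
      (AnS W z₀ h δ R j).indicator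
        (fun ω => ENNReal.ofReal (Real.exp (q * DiscAux.A W z₀ h (kk 1 ε) j ω) *
          F (DiscAux.Z W z₀ h j ω))) ω := ⟨_, rfl⟩
  have hNs : ∀ (q : ℝ) (F : ℂ → ℝ), Measurable F →
      (∀ (z : ℂ) (s : ℝ), δ ≤ ‖z‖ → ‖z‖ ≤ R → 0 ≤ s →
        ∫⁻ ω, ENNReal.ofReal (F (z + 2 * h / z - (W (s + h) ω - W s ω))) ∂μ
          ≤ ENNReal.ofReal (Q * Real.exp (-(h * kk q (q * ε) z)) * F z)) →
      SMP μ W h (ENNReal.ofReal Q) (N q F) := by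
    intro q F hF h1
    rw [hNdef]
    exact hN q F hF h1
  have hNmem : ∀ (q : ℝ) (F : ℂ → ℝ) (j : ℕ) (ω : Ω), ω ∈ AnS W z₀ h δ R j →
      N q F j ω = ENNReal.ofReal (Real.exp (q * PhD W z₀ h ε j ω) *
        (‖DiscAux.Z W z₀ h j ω‖ ^ q * F (DiscAux.Z W z₀ h j ω))) := by
    intro q F j ω hω
    rw [hNdef]
    simp only [Set.indicator_of_mem hω]
    rw [hexp q j ω hω, mul_assoc]
  have hNnot : ∀ (q : ℝ) (F : ℂ → ℝ) (j : ℕ) (ω : Ω), ω ∉ AnS W z₀ h δ R j →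
      N q F j ω = 0 := by
    intro q F j ω hω
    rw [hNdef]
    simp only [Set.indicator_of_notMem hω]
  have hN0 : ∀ (q : ℝ) (F : ℂ → ℝ), (∀ z, 0 ≤ F z) → ∀ ω, N q F 0 ω ≤
      ENNReal.ofReal (F z₀) := by
    intro q F hF ω
    rw [hNdef]
    by_cases hω : ω ∈ AnS W z₀ h δ R 0
    · simp only [Set.indicator_of_mem hω]
      apply ENNReal.ofReal_le_ofReal
      have hA : DiscAux.A W z₀ h (kk 1 ε) 0 ω = 0 := by simp [DiscAux.A]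
      have hZ : DiscAux.Z W z₀ h 0 ω = z₀ := by simp [DiscAux.Z, eul]
      rw [hA, hZ]
      simp
    · simp only [Set.indicator_of_notMem hω]
      exact zero_le
  -- part (a): the sequences
  obtain ⟨w, hw⟩ : ∃ w : Ω → ℝ≥0∞, w = (AnS W z₀ h δ R j₀).indicator
      (fun ω => ENNReal.ofReal (f / B₃ * Real.exp (-(q₃ * PhD W z₀ h ε j₀ ω)))) := ⟨_, rfl⟩
  have hwm : Measurable[Blk W 0 (j₀ * h)] w := by
    rw [hw]
    exact (ENNReal.measurable_ofReal.comp ((Real.measurable_exp.comp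
      (((hPm j₀ _ le_rfl).const_mul q₃).neg)).const_mul (f / B₃))).indicator (hAn j₀)
  have hwN : ∀ (i : ℕ) (ω : Ω), ω ∈ AnS W z₀ h δ R i → j₀ ≤ i →
      w ω * N q₃ G₃ i ω = ENNReal.ofReal (f / B₃ *
        (Real.exp (q₃ * (PhD W z₀ h ε i ω - PhD W z₀ h ε j₀ ω)) *
          (‖DiscAux.Z W z₀ h i ω‖ ^ q₃ * G₃ (DiscAux.Z W z₀ h i ω)))) := by
    intro i ω hω hi
    have hω0 : ω ∈ AnS W z₀ h δ R j₀ := fun l hl => hω l (by omega)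
    rw [hNmem _ _ _ _ hω, hw, Set.indicator_of_mem hω0, ← ENNReal.ofReal_mul (by positivity)]
    congr 1
    have e1 : Real.exp (q₃ * (PhD W z₀ h ε i ω - PhD W z₀ h ε j₀ ω)) =
        Real.exp (-(q₃ * PhD W z₀ h ε j₀ ω)) * Real.exp (q₃ * PhD W z₀ h ε i ω) := by
      rw [← Real.exp_add]
      congr 1
      ring
    rw [e1]
    ring
  have hw0 : ∀ ω, w ω * N q₃ G₃ j₀ ω ≤ ENNReal.ofReal f := by
    intro ω
    by_cases hω : ω ∈ AnS W z₀ h δ R j₀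
    · rw [hwN j₀ ω hω le_rfl, sub_self, mul_zero, Real.exp_zero, one_mul]
      apply ENNReal.ofReal_le_ofReal
      have h2 := (hG₃ _ (hω j₀ le_rfl).1 (hω j₀ le_rfl).2).2
      calc f / B₃ * (‖DiscAux.Z W z₀ h j₀ ω‖ ^ q₃ * G₃ (DiscAux.Z W z₀ h j₀ ω))
          ≤ f / B₃ * B₃ := mul_le_mul_of_nonneg_left h2 (by positivity)
        _ = f := by field_simp
    · rw [hNnot _ _ _ _ hω, mul_zero]
      exact zero_le
  have hM2a := SMP.start hh.le hQ1 (hNs q₃ G₃ hG₃m h3) j₀ (ENNReal.ofReal f) w hwm hw0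
  have hM1a := (hNs q G hGm h1).const (κ := ENNReal.ofReal (Real.exp (-(q * θ))))
    ENNReal.ofReal_ne_top
  -- comparison at the flag
  have hflag : ∀ (i : ℕ) (ω : Ω), ω ∈ AnS W z₀ h δ R i → 1 / 2 ≤ ‖DiscAux.Z W z₀ h i ω‖ →
      θ ≤ PhD W z₀ h ε i ω →
      ENNReal.ofReal f ≤ ENNReal.ofReal (Real.exp (-(q * θ))) * N q G i ω := by
    intro i ω hω h5 h6
    rw [hNmem _ _ _ _ hω, ← ENNReal.ofReal_mul (Real.exp_pos _).le]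
    apply ENNReal.ofReal_le_ofReal
    have h7 := hGf _ (hω i le_rfl).1 (hω i le_rfl).2 h5
    have h8 : 1 ≤ Real.exp (-(q * θ)) * Real.exp (q * PhD W z₀ h ε i ω) := by
      rw [← Real.exp_add, Real.one_le_exp_iff]
      nlinarith [mul_le_mul_of_nonneg_left h6 hq]
    rw [← mul_assoc]
    have h9 : 0 ≤ ‖DiscAux.Z W z₀ h i ω‖ ^ q * G (DiscAux.Z W z₀ h i ω) := hf.le.trans h7
    calc f ≤ 1 * (‖DiscAux.Z W z₀ h i ω‖ ^ q * G (DiscAux.Z W z₀ h i ω)) := by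
          rw [one_mul]; exact h7
      _ ≤ _ := mul_le_mul_of_nonneg_right h8 h9
  obtain ⟨E1, hE1⟩ : ∃ E1 : ℕ → Set Ω, E1 = fun i => {ω | i ≤ j₀ ∧ ω ∈ AnS W z₀ h δ R i ∧
      1 / 2 ≤ ‖DiscAux.Z W z₀ h i ω‖ ∧ θ ≤ PhD W z₀ h ε i ω} := ⟨_, rfl⟩
  have hE1m : ∀ i : ℕ, MeasurableSet[Blk W 0 (i * h)] (E1 i) := by
    intro i
    rw [hE1]
    exact (MeasurableSet.const _).inter ((hAn i).inter
      ((hnZ i _ le_rfl measurableSet_Ici).inter (hPm i _ le_rfl measurableSet_Ici)))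
  have hsw1 : ∀ i ω, ω ∈ E1 i → (if i < j₀ then ENNReal.ofReal f else w ω * N q₃ G₃ i ω) ≤
      ENNReal.ofReal (Real.exp (-(q * θ))) * N q G i ω := by
    intro i ω hω
    rw [hE1] at hω
    obtain ⟨h5, h6, h7, h8⟩ := hω
    refine le_trans ?_ (hflag i ω h6 h7 h8)
    split_ifs with h9
    · exact le_rfl
    · have : i = j₀ := by omega
      subst this
      exact hw0 ω
  have hLa := TCBWRA.gl_smp hh hle hM1a hM2a hE1m hsw1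
  have hL0a := fun ω => (TCBWRA.gl_zero hsw1 ω).trans (mul_le_mul_right (hN0 q G hG0 ω)
    (ENNReal.ofReal (Real.exp (-(q * θ)))))
  obtain ⟨E2, hE2⟩ : ∃ E2 : ℕ → Set Ω, E2 = fun i => {ω | ω ∈ AnS W z₀ h δ R i ∧
      ω ∈ TCBWRA.Ex E1 i ∧
      ω ∈ TCBWRA.Ex (fun l => {ω | l = j₀ ∧ PhD W z₀ h ε l ω + ρ ≤ PhD W z₀ h ε i ω}) i} :=
    ⟨_, rfl⟩
  have hE2m : ∀ i : ℕ, MeasurableSet[Blk W 0 (i * h)] (E2 i) := by
    intro i
    rw [hE2]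
    refine (hAn i).inter ((TCBWRA.ex_blk hh hE1m i).inter (TCBWRA.ex_meas fun l hl => ?_))
    have h5 : (l : ℝ) * h ≤ i * h := by
      have : (l : ℝ) ≤ i := by exact_mod_cast hl
      nlinarith
    exact (MeasurableSet.const _).inter
      (measurableSet_le ((hPm l _ h5).add_const ρ) (hPm i _ le_rfl))
  have hsw2 : ∀ i ω, ω ∈ E2 i → ENNReal.ofReal (f * Real.exp (q₃ * ρ) / B₃ ^ 2) ≤
      TCBWRA.gl E1 (fun i ω => ENNReal.ofReal (Real.exp (-(q * θ))) * N q G i ω)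
        (fun i ω => if i < j₀ then ENNReal.ofReal f else w ω * N q₃ G₃ i ω) i ω := by
    intro i ω hω
    rw [hE2] at hω
    obtain ⟨h5, h6, l, hl, rfl, h7⟩ := hω
    rw [TCBWRA.gl_mem h6, if_neg (by omega), hwN i ω h5 hl]
    apply ENNReal.ofReal_le_ofReal
    have h8 := (hG₃ _ (h5 i le_rfl).1 (h5 i le_rfl).2).1
    have h9 : Real.exp (q₃ * ρ) ≤
        Real.exp (q₃ * (PhD W z₀ h ε i ω - PhD W z₀ h ε l ω)) := by
      apply Real.exp_le_exp.2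
      exact mul_le_mul_of_nonneg_left (by linarith) hq₃
    calc f * Real.exp (q₃ * ρ) / B₃ ^ 2 = f / B₃ * (Real.exp (q₃ * ρ) * (1 / B₃)) := by
          field_simp
      _ ≤ _ := by gcongr
  have hκa : 0 < f * Real.exp (q₃ * ρ) / B₃ ^ 2 := by positivity
  have resa := TCBWRA.fin hW hh hQ hκa hB hG₄m hkm hG₄ hk h4 z₀ hLa hE2m hsw2 hL0a J
  -- part (b)
  have hM1b := (hNs q G' hG'm h1').const (κ := ENNReal.ofReal (Real.exp (-(q * θ))))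
    ENNReal.ofReal_ne_top
  have hM2b := ((hNs q G hGm h1).const (κ := ENNReal.ofReal (Real.exp (-(q * θ))))
    ENNReal.ofReal_ne_top).const (κ := ENNReal.ofReal (R₀ ^ κ')) ENNReal.ofReal_ne_top
  obtain ⟨E3, hE3⟩ : ∃ E3 : ℕ → Set Ω, E3 = fun i => {ω | i = j₀ ∧ ω ∈ AnS W z₀ h δ R i ∧
      R₀ ≤ ‖DiscAux.Z W z₀ h i ω‖} := ⟨_, rfl⟩
  have hE3m : ∀ i : ℕ, MeasurableSet[Blk W 0 (i * h)] (E3 i) := by
    intro i
    rw [hE3]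
    exact (MeasurableSet.const _).inter ((hAn i).inter (hnZ i _ le_rfl measurableSet_Ici))
  have hsw3 : ∀ i ω, ω ∈ E3 i → ENNReal.ofReal (R₀ ^ κ') *
      (ENNReal.ofReal (Real.exp (-(q * θ))) * N q G i ω) ≤
      ENNReal.ofReal (Real.exp (-(q * θ))) * N q G' i ω := by
    intro i ω hω
    rw [hE3] at hω
    obtain ⟨h5, h6, h7⟩ := hω
    have hzp := hZp i ω h6
    have h8 := hG' _ (h6 i le_rfl).1 (h6 i le_rfl).2 h7
    rw [hNmem _ _ _ _ h6, hNmem _ _ _ _ h6, ← ENNReal.ofReal_mul (Real.exp_pos _).le,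
      ← ENNReal.ofReal_mul (by positivity), ← ENNReal.ofReal_mul (Real.exp_pos _).le]
    apply ENNReal.ofReal_le_ofReal
    calc R₀ ^ κ' * (Real.exp (-(q * θ)) * (Real.exp (q * PhD W z₀ h ε i ω) *
          (‖DiscAux.Z W z₀ h i ω‖ ^ q * G (DiscAux.Z W z₀ h i ω))))
        = Real.exp (-(q * θ)) * (Real.exp (q * PhD W z₀ h ε i ω) *
          (‖DiscAux.Z W z₀ h i ω‖ ^ q * (R₀ ^ κ' * G (DiscAux.Z W z₀ h i ω)))) := by ring
      _ ≤ _ := by gcongr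
  have hLb := TCBWRA.gl_smp hh hle hM1b hM2b hE3m hsw3
  have hL0b := fun ω => (TCBWRA.gl_zero hsw3 ω).trans (mul_le_mul_right (hN0 q G' hG'0 ω)
    (ENNReal.ofReal (Real.exp (-(q * θ)))))
  obtain ⟨E4, hE4⟩ : ∃ E4 : ℕ → Set Ω, E4 = fun i => {ω | ω ∈ AnS W z₀ h δ R i ∧
      ω ∈ TCBWRA.Ex E3 i ∧ 1 / 2 ≤ ‖DiscAux.Z W z₀ h i ω‖ ∧ θ ≤ PhD W z₀ h ε i ω} :=
    ⟨_, rfl⟩
  have hE4m : ∀ i : ℕ, MeasurableSet[Blk W 0 (i * h)] (E4 i) := by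
    intro i
    rw [hE4]
    exact (hAn i).inter ((TCBWRA.ex_blk hh hE3m i).inter
      ((hnZ i _ le_rfl measurableSet_Ici).inter (hPm i _ le_rfl measurableSet_Ici)))
  have hsw4 : ∀ i ω, ω ∈ E4 i → ENNReal.ofReal (R₀ ^ κ' * f) ≤
      TCBWRA.gl E3 (fun i ω => ENNReal.ofReal (Real.exp (-(q * θ))) * N q G' i ω)
        (fun i ω => ENNReal.ofReal (R₀ ^ κ') *
          (ENNReal.ofReal (Real.exp (-(q * θ))) * N q G i ω)) i ω := by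
    intro i ω hω
    rw [hE4] at hω
    obtain ⟨h5, h6, h7, h8⟩ := hω
    rw [TCBWRA.gl_mem h6, ENNReal.ofReal_mul (by positivity)]
    exact mul_le_mul_right (hflag i ω h5 h7 h8) _
  have hκb : 0 < R₀ ^ κ' * f := by positivity
  have resb := TCBWRA.fin hW hh hQ hκb hB hG₄m hkm hG₄ hk h4 z₀ hLb hE4m hsw4 hL0b J
  -- the events
  have hsub : ∀ j, AnS W z₀ h δ R j ∩ DnS W z₀ h ε θ ρ R₀ j₀ j ⊆
      (TCBWRA.Ex E2 j ∩ AnS W z₀ h δ R j) ∪ (TCBWRA.Ex E4 j ∩ AnS W z₀ h δ R j) := by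
    rintro j ω ⟨hA, hj0, hR, ⟨i, hij, hi1, hi2⟩, i', hi'0, hi'j, hi'⟩
    have hAi : ∀ l ≤ j, ω ∈ AnS W z₀ h δ R l := fun l hl m hm => hA m (by omega)
    rcases le_total i j₀ with hc | hc
    · left
      refine ⟨⟨i', hi'j, ?_⟩, hA⟩
      rw [hE2]
      refine ⟨hAi i' hi'j, ⟨i, by omega, ?_⟩, ⟨j₀, hi'0, rfl, hi'⟩⟩
      rw [hE1]
      exact ⟨hc, hAi i hij, hi1, hi2⟩
    · right
      refine ⟨⟨i, hij, ?_⟩, hA⟩
      rw [hE4]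
      refine ⟨hAi i hij, ⟨j₀, hc, ?_⟩, hi1, hi2⟩
      rw [hE3]
      exact ⟨rfl, hAi j₀ hj0, hR⟩
  have hexmono : ∀ (E : ℕ → Set Ω) (j : ℕ), j ≤ J → TCBWRA.Ex E j ⊆ TCBWRA.Ex E J :=
    fun E j hj ω ⟨i, hi, hω⟩ => ⟨i, by omega, hω⟩
  have hμ : μ {ω | ∃ j ≤ J, ω ∈ AnS W z₀ h δ R j ∩ DnS W z₀ h ε θ ρ R₀ j₀ j} ≤
      μ (TCBWRA.Ex E2 J) + μ (TCBWRA.Ex E4 J) := by
    refine (measure_mono ?_).trans (measure_union_le _ _)
    rintro ω ⟨j, hj, hω⟩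
    rcases hsub j hω with h5 | h5
    · exact Or.inl (hexmono E2 j hj h5.1)
    · exact Or.inr (hexmono E4 j hj h5.1)
  have hI : ∀ j, ∫⁻ ω in AnS W z₀ h δ R j ∩ DnS W z₀ h ε θ ρ R₀ j₀ j,
        ENNReal.ofReal (h * k (DiscAux.Z W z₀ h j ω)) ∂μ ≤
      ∫⁻ ω in TCBWRA.Ex E2 j ∩ AnS W z₀ h δ R j,
        ENNReal.ofReal (h * k (DiscAux.Z W z₀ h j ω)) ∂μ +
      ∫⁻ ω in TCBWRA.Ex E4 j ∩ AnS W z₀ h δ R j,
        ENNReal.ofReal (h * k (DiscAux.Z W z₀ h j ω)) ∂μ :=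
    fun j => (lintegral_mono_set (hsub j)).trans (lintegral_union_le _ _ _)
  have hsum := add_le_add hμ (Finset.sum_le_sum fun j (_ : j ∈ Finset.range J) => hI j)
  rw [Finset.sum_add_distrib] at hsum
  refine hsum.trans ?_
  rw [add_add_add_comm]
  refine (add_le_add resa resb).trans ?_
  rw [← ENNReal.ofReal_pow hQ0, ← ENNReal.ofReal_mul (Real.exp_pos _).le,
    ← ENNReal.ofReal_mul (by positivity), ← ENNReal.ofReal_mul (by positivity),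
    ← ENNReal.ofReal_mul (Real.exp_pos _).le, ← ENNReal.ofReal_mul (by positivity),
    ← ENNReal.ofReal_mul (by positivity), ← ENNReal.ofReal_add
      (mul_nonneg (by positivity) (mul_nonneg (by positivity)
        (mul_nonneg (by positivity) (hG0 _))))
      (mul_nonneg (by positivity) (mul_nonneg (by positivity)
        (mul_nonneg (by positivity) (hG'0 _))))]
  apply ENNReal.ofReal_le_ofReal
  have hE3' : Real.exp (-(q₃ * ρ)) * Real.exp (q₃ * ρ) = 1 := by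
    rw [← Real.exp_add]; simp
  have hRκ : R₀ ^ (-κ') * R₀ ^ κ' = 1 := by
    rw [← Real.rpow_add hR00]; simp
  have e1 : 4 * B / (f * Real.exp (q₃ * ρ) / B₃ ^ 2) =
      4 * B * B₃ ^ 2 / f * Real.exp (-(q₃ * ρ)) := by
    rw [Real.exp_neg]
    field_simp
  have e2 : 4 * B / (R₀ ^ κ' * f) = 4 * B / f * R₀ ^ (-κ') := by
    rw [Real.rpow_neg hR00.le]
    field_simp
  have hB32 : (1 : ℝ) ≤ B₃ ^ 2 := one_le_pow₀ hB₃
  have hQJ : 0 ≤ Q ^ J * Real.exp (-(q * θ)) := by positivity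
  have hR' : 0 ≤ R₀ ^ (-κ') := by positivity
  have e3 : 4 * B / f ≤ 4 * B * B₃ ^ 2 / f := by
    apply div_le_div_of_nonneg_right _ hf.le
    nlinarith
  have t1 : 4 * B / (f * Real.exp (q₃ * ρ) / B₃ ^ 2) * (Q ^ J * (Real.exp (-(q * θ)) * G z₀)) ≤
      4 * B * B₃ ^ 2 / f * Q ^ J * Real.exp (-(q * θ)) * (G z₀ * Real.exp (-(q₃ * ρ))) := by
    rw [e1]
    apply le_of_eq
    ring
  have t2 : 4 * B / (R₀ ^ κ' * f) * (Q ^ J * (Real.exp (-(q * θ)) * G' z₀)) ≤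
      4 * B * B₃ ^ 2 / f * Q ^ J * Real.exp (-(q * θ)) * (G' z₀ * R₀ ^ (-κ')) := by
    rw [e2]
    have h5 : 0 ≤ R₀ ^ (-κ') * (Q ^ J * (Real.exp (-(q * θ)) * G' z₀)) :=
      mul_nonneg hR' (mul_nonneg (by positivity) (mul_nonneg (by positivity) (hG'0 _)))
    calc 4 * B / f * R₀ ^ (-κ') * (Q ^ J * (Real.exp (-(q * θ)) * G' z₀))
        = 4 * B / f * (R₀ ^ (-κ') * (Q ^ J * (Real.exp (-(q * θ)) * G' z₀))) := by ring
      _ ≤ 4 * B * B₃ ^ 2 / f * (R₀ ^ (-κ') * (Q ^ J * (Real.exp (-(q * θ)) * G' z₀))) :=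
          mul_le_mul_of_nonneg_right e3 h5
      _ = _ := by ring
  refine (add_le_add t1 t2).trans ?_
  rw [← mul_add, mul_assoc (4 * B * B₃ ^ 2 / f * Q ^ J * Real.exp (-(q * θ)))]
  apply mul_le_mul_of_nonneg_left _ (by positivity)
  have h5 := mul_nonneg (hG0 z₀) hR'
  have h6 := mul_nonneg (hG'0 z₀) (Real.exp_pos (-(q₃ * ρ))).le
  nlinarith

end

end Pool.Agent.SLE
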