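import Pool.Agent.Lib.MP_c17912_pr_TC.CRB
import Pool.Agent.Lib.MP_c17912_pr_TR.GOS

/-!
# MP_c17912_pr, project TC: the one step inequality of the tail in the critical case

`kT κ z = κ * min 1 |z| / |z| ^ 2`. The function is `F = B - |z| ^ y exp (y φ + y ^ 2 χ)` on the
annulus; it is at least `1` and at most `B` there as long as the outer radius is at
most `exp (1 / y)`.
-/

set_option autoImplicit false

open MeasureTheory ProbabilityTheory Filter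
open scoped NNReal ENNReal Topology Real

namespace Pool.Agent.SLE

noncomputable section

variable {Ω : Type*} [MeasurableSpace Ω] {μ : Measure Ω}

/-- The kernel of the tail. -/
def kT (κ : ℝ) (z : ℂ) : ℝ := κ * min 1 ‖z‖ / ‖z‖ ^ 2

/-- The weak submartingales `|z| ^ y exp ψ` of the critical case (third clause of `HasC`). -/
def S5P (a b c : ℝ) : Prop :=
  ∃ B c₀ y₀ : ℝ, 0 ≤ B ∧ 0 < c₀ ∧ 0 < y₀ ∧ ∀ y, 0 < y → y ≤ y₀ → ∃ ψ : ℝ → ℝ,
    ContDiff ℝ 3 ψ ∧ Function.Periodic ψ (2 * π) ∧ (∀ θ, |ψ θ| ≤ B * y) ∧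
    ∀ θ, c₀ * y ^ 2 ≤ Op a b c y ψ θ

/-- The third clause of `HasC` in the critical case. -/
theorem s5_poi {a b c : ℝ} (ha : 0 ≤ a) (hb : 0 ≤ b) (hc : c ^ 2 ≤ a * b) (hab : 0 < a + b)
    {ρ : ℝ → ℝ} (hρ : PoiP a b c ρ) (h0 : ∫ x in (0 : ℝ)..π, H1 a b c x * ρ x = 0) :
    S5P a b c := by
  obtain ⟨φ, χ, m, y₁, hm, hy₁, hφs, hφp, hχs, hχp, -, hop⟩ := cr_quad ha hb hc hab hρ h0
  obtain ⟨P, hP⟩ := EXaux.bdd (hφs 0).continuous (TRSGN.per2 hφp)
  obtain ⟨P', hP'⟩ := EXaux.bdd (hχs 0).continuous (TRSGN.per2 hχp)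
  have hP0 : 0 ≤ P := (abs_nonneg _).trans (hP 0)
  have hP'0 : 0 ≤ P' := (abs_nonneg _).trans (hP' 0)
  refine ⟨P + P', m, min 1 y₁, by linarith, hm, lt_min one_pos hy₁, fun y hy hyy => ?_⟩
  have hy1 : y ≤ 1 := hyy.trans (min_le_left _ _)
  have hy2 : |y| ≤ y₁ := by
    rw [abs_of_pos hy]
    exact hyy.trans (min_le_right _ _)
  refine ⟨fun x => y * φ x + y ^ 2 * χ x, ?_, ?_, fun θ => ?_, hop y hy2⟩
  · exact (contDiff_const.mul (hφs 3)).add (contDiff_const.mul (hχs 3))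
  · intro x
    simp only
    rw [TRSGN.per2 hφp x, TRSGN.per2 hχp x]
  · refine (abs_add_le _ _).trans ?_
    rw [abs_mul, abs_mul, abs_of_pos hy, abs_of_nonneg (sq_nonneg y)]
    have h1 : y * |φ θ| ≤ y * P := mul_le_mul_of_nonneg_left (hP θ) hy.le
    have h2 : y ^ 2 * |χ θ| ≤ y * P' := by
      have h3 : y ^ 2 ≤ y := by nlinarith
      exact mul_le_mul h3 (hP' θ) (abs_nonneg _) hy.le
    linarith

/-- TC-CRC. The one step inequality for a positive function which is bounded below by `1` and above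
by a constant `B` on the annulus `δ ≤ |z| ≤ R`, `R ≤ exp (1 / y)`, with the kernel
`c₁ y ^ 2 min (1, |z|) / |z| ^ 2`; critical case. -/
theorem cr_tail [IsProbabilityMeasure μ] {a b c K : ℝ} (ha : 0 ≤ a) (hb : 0 ≤ b)
    (hK : 0 ≤ K) (h5 : S5P a b c) :
    ∃ c₁ > 0, ∃ y₀ > 0, y₀ ≤ 1 ∧ ∃ B > 0, ∀ y : ℝ, 0 < y → y ≤ y₀ → ∀ δ R : ℝ, 0 < δ → δ ≤ R →
      R ≤ Real.exp (1 / y) →
      ∃ F : ℂ → ℝ, Measurable F ∧ (∀ z, 0 ≤ F z) ∧ (∀ z, F z ≤ B) ∧
        (∀ z : ℂ, δ ≤ ‖z‖ → ‖z‖ ≤ R → 1 ≤ F z) ∧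
        ∃ C' > 0, ∃ h₀ > 0, ∀ W : ℝ → Ω → ℂ, Drv a b c K W μ → ∀ h : ℝ, 0 < h → h ≤ h₀ →
          ∀ (z : ℂ) (s : ℝ), δ ≤ ‖z‖ → ‖z‖ ≤ R → 0 ≤ s →
            ∫⁻ ω, ENNReal.ofReal (F (z + 2 * h / z - (W (s + h) ω - W s ω))) ∂μ
              ≤ ENNReal.ofReal ((1 + C' * (h * √h)) * Real.exp (-(h * kT (c₁ * y ^ 2) z)) *
                F z) := by
  classical
  obtain ⟨L, m, y₁, hL0, hm, hy₁, hex⟩ := h5
  obtain ⟨B, hB⟩ : ∃ B : ℝ, B = 2 * Real.exp (1 + L) + 1 := ⟨_, rfl⟩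
  have hB1 : 1 ≤ B := by
    rw [hB]
    have := Real.exp_pos (1 + L)
    linarith
  obtain ⟨c₁, hc₁⟩ : ∃ c₁ : ℝ, c₁ = m * Real.exp (-L) / B := ⟨_, rfl⟩
  have hc₁0 : 0 < c₁ := by
    rw [hc₁]
    have := Real.exp_pos (-L)
    positivity
  refine ⟨c₁, hc₁0, min 1 y₁, lt_min one_pos hy₁, min_le_left _ _, B, by linarith, ?_⟩
  intro y hy hyy δ R hδ hδR hRy
  have hy1 : y ≤ 1 := hyy.trans (min_le_left _ _)
  have hR : 0 < R := hδ.trans_le hδR
  obtain ⟨ψ, hψ, hper, hψb', hop'⟩ := hex y hy (hyy.trans (min_le_right _ _))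
  have hψc : Continuous ψ := hψ.continuous
  have hψb : ∀ x, |ψ x| ≤ L := fun x => (hψb' x).trans (mul_le_of_le_one_right hL0 hy1)
  obtain ⟨C, hC, hexp, hcoef⟩ := ge_exp hψ hper y hδ hδR
  have hmGE : Measurable (GE y ψ) := by
    unfold GE
    refine Real.measurable_exp.comp ?_
    exact ((Real.measurable_log.comp measurable_norm).const_mul y).add
      (hψc.measurable.comp Complex.measurable_arg)
  have hGE0 : ∀ z, 0 < GE y ψ z := fun z => Real.exp_pos _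
  -- upper bound
  have hup : ∀ z : ℂ, δ / 2 ≤ ‖z‖ → ‖z‖ ≤ 2 * R → GE y ψ z ≤ 2 * Real.exp (1 + L) := by
    intro z h1 h2
    have h3 : 0 < ‖z‖ := lt_of_lt_of_le (by positivity) h1
    have h4 : Real.log ‖z‖ ≤ Real.log 2 + 1 / y := by
      have e1 : Real.log ‖z‖ ≤ Real.log (2 * Real.exp (1 / y)) := by
        refine Real.log_le_log h3 (h2.trans ?_)
        linarith
      rwa [Real.log_mul (by norm_num) (Real.exp_pos _).ne', Real.log_exp] at e1
    have h5 : y * Real.log ‖z‖ ≤ Real.log 2 + 1 := by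
      have e1 := mul_le_mul_of_nonneg_left h4 hy.le
      have e2 : y * (Real.log 2 + 1 / y) = y * Real.log 2 + 1 := by
        field_simp
      have e3 : y * Real.log 2 ≤ 1 * Real.log 2 :=
        mul_le_mul_of_nonneg_right hy1 (Real.log_nonneg (by norm_num))
      linarith
    unfold GE
    have h6 : y * Real.log ‖z‖ + ψ z.arg ≤ Real.log 2 + (1 + L) := by
      have := (abs_le.1 (hψb z.arg)).2
      linarith
    calc Real.exp (y * Real.log ‖z‖ + ψ z.arg) ≤ Real.exp (Real.log 2 + (1 + L)) :=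
          Real.exp_le_exp.2 h6
      _ = 2 * Real.exp (1 + L) := by
          rw [Real.exp_add, Real.exp_log (by norm_num)]
  -- lower bound
  have hlow : ∀ z : ℂ, 0 < ‖z‖ → Real.exp (-L) * min 1 ‖z‖ ≤ GE y ψ z := by
    intro z hz
    have h6 := (abs_le.1 (hψb z.arg)).1
    unfold GE
    rw [Real.exp_add, mul_comm]
    refine mul_le_mul ?_ (Real.exp_le_exp.2 h6) (Real.exp_pos _).le (Real.exp_pos _).le
    rcases le_total 1 ‖z‖ with h1 | h1
    · rw [min_eq_left h1]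
      refine Real.one_le_exp ?_
      have := Real.log_nonneg h1
      positivity
    · rw [min_eq_right h1]
      have h2 : Real.log ‖z‖ ≤ 0 := Real.log_nonpos hz.le h1
      calc ‖z‖ = Real.exp (Real.log ‖z‖) := (Real.exp_log hz).symm
        _ ≤ Real.exp (y * Real.log ‖z‖) := by
            refine Real.exp_le_exp.2 ?_
            nlinarith
  obtain ⟨F, hF⟩ : ∃ F : ℂ → ℝ, F = fun z =>
      if δ / 2 ≤ ‖z‖ ∧ ‖z‖ ≤ 2 * R then B - GE y ψ z else 0 := ⟨_, rfl⟩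
  have hFin : ∀ z : ℂ, δ / 2 ≤ ‖z‖ → ‖z‖ ≤ 2 * R → F z = B - GE y ψ z := by
    intro z h1 h2
    rw [hF]
    exact if_pos ⟨h1, h2⟩
  have hFan : ∀ z : ℂ, δ ≤ ‖z‖ → ‖z‖ ≤ R → F z = B - GE y ψ z := by
    intro z h1 h2
    exact hFin z (by linarith) (by linarith)
  have hFm : Measurable F := by
    rw [hF]
    refine Measurable.ite ?_ (measurable_const.sub hmGE) measurable_const
    exact (measurableSet_le measurable_const measurable_norm).inter
      (measurableSet_le measurable_norm measurable_const)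
  have hF1' : ∀ z : ℂ, δ / 2 ≤ ‖z‖ → ‖z‖ ≤ 2 * R → 1 ≤ F z := by
    intro z h1 h2
    rw [hFin z h1 h2, hB]
    have := hup z h1 h2
    linarith
  have hF0 : ∀ z, 0 ≤ F z := by
    intro z
    by_cases h : δ / 2 ≤ ‖z‖ ∧ ‖z‖ ≤ 2 * R
    · exact zero_le_one.trans (hF1' z h.1 h.2)
    · rw [hF]
      simp only
      rw [if_neg h]
  have hFB : ∀ z, F z ≤ B := by
    intro z
    by_cases h : δ / 2 ≤ ‖z‖ ∧ ‖z‖ ≤ 2 * R
    · rw [hFin z h.1 h.2]
      have := hGE0 z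
      linarith
    · rw [hF]
      simp only
      rw [if_neg h]
      linarith
  have hexpF : Exp2 F (fun z => -T1 y ψ z) (fun z => -T2 y ψ z) (fun z => -T3 y ψ z) δ R C := by
    intro z h1 h2 ζ hζ
    have h3 : δ / 2 ≤ ‖z + ζ‖ := by
      have := norm_sub_le (z + ζ) ζ
      rw [add_sub_cancel_right] at this
      linarith
    have h4 : ‖z + ζ‖ ≤ 2 * R := by
      have := norm_add_le z ζ
      linarith
    rw [hFin _ h3 h4, hFan z h1 h2]
    have h5 := hexp z h1 h2 ζ hζ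
    have e : B - GE y ψ (z + ζ) - (B - GE y ψ z) - (-T1 y ψ z * ζ).re - (-T2 y ψ z * ζ ^ 2).re -
        -T3 y ψ z * ‖ζ‖ ^ 2 = -(GE y ψ (z + ζ) - GE y ψ z - (T1 y ψ z * ζ).re -
          (T2 y ψ z * ζ ^ 2).re - T3 y ψ z * ‖ζ‖ ^ 2) := by
      rw [neg_mul, neg_mul, Complex.neg_re, Complex.neg_re]
      ring
    rw [e, abs_neg]
    exact h5
  have hkT0 : ∀ z, 0 ≤ kT (c₁ * y ^ 2) z := by
    intro z
    unfold kT
    have : 0 ≤ min 1 ‖z‖ := le_min zero_le_one (norm_nonneg _)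
    positivity
  obtain ⟨M, hM⟩ : ∃ M, M = C + c₁ * y ^ 2 / δ ^ 2 := ⟨_, rfl⟩
  have hM2 : 0 ≤ c₁ * y ^ 2 / δ ^ 2 := by positivity
  have hann : ∀ z : ℂ, δ ≤ ‖z‖ → ‖z‖ ≤ R → 1 ≤ F z ∧ ‖-T1 y ψ z‖ ≤ M ∧
      ‖-T2 y ψ z‖ ≤ M ∧ |-T3 y ψ z| ≤ M ∧ |kT (c₁ * y ^ 2) z| ≤ M ∧
      (2 * -T1 y ψ z / z).re + (-T2 y ψ z * sg a b c).re + -T3 y ψ z * (a + b)
        + kT (c₁ * y ^ 2) z * F z ≤ 0 := by
    intro z h1 h2
    obtain ⟨b1, b2, b3⟩ := hcoef z h1 h2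
    have hzn : 0 < ‖z‖ := lt_of_lt_of_le hδ h1
    have hz : z ≠ 0 := norm_pos_iff.1 hzn
    rw [norm_neg, norm_neg, abs_neg]
    refine ⟨hF1' z (by linarith) (by linarith), by linarith, by linarith, by linarith, ?_, ?_⟩
    · rw [abs_of_nonneg (hkT0 z)]
      unfold kT
      have e1 : c₁ * y ^ 2 * min 1 ‖z‖ ≤ c₁ * y ^ 2 :=
        mul_le_of_le_one_right (by positivity) (min_le_left _ _)
      have e2 : c₁ * y ^ 2 * min 1 ‖z‖ / ‖z‖ ^ 2 ≤ c₁ * y ^ 2 / δ ^ 2 := by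
        refine div_le_div₀ (by positivity) e1 (by positivity) ?_
        exact pow_le_pow_left₀ hδ.le h1 2
      linarith
    · have e0 : (2 * -T1 y ψ z / z).re + (-T2 y ψ z * sg a b c).re + -T3 y ψ z * (a + b) =
          -((2 * T1 y ψ z / z).re + (T2 y ψ z * sg a b c).re + T3 y ψ z * (a + b)) := by
        have e1 : 2 * -T1 y ψ z / z = -(2 * T1 y ψ z / z) := by ring
        rw [e1, neg_mul, Complex.neg_re, Complex.neg_re]
        ring
      rw [e0, gen_ge a b c y ψ hz]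
      have e2 := hop' z.arg
      have e3 := hlow z hzn
      have hzp : 0 < ‖z‖ ^ 2 := by positivity
      have hmin : 0 ≤ min 1 ‖z‖ := le_min zero_le_one (norm_nonneg _)
      have e4 : kT (c₁ * y ^ 2) z * F z ≤ m * y ^ 2 * GE y ψ z / ‖z‖ ^ 2 := by
        have e5 : kT (c₁ * y ^ 2) z * F z ≤ kT (c₁ * y ^ 2) z * B :=
          mul_le_mul_of_nonneg_left (hFB z) (hkT0 z)
        refine e5.trans ?_
        unfold kT
        have e6 : c₁ * y ^ 2 * min 1 ‖z‖ / ‖z‖ ^ 2 * B =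
            m * y ^ 2 * (Real.exp (-L) * min 1 ‖z‖) / ‖z‖ ^ 2 := by
          have hB0 : B ≠ 0 := by linarith
          rw [hc₁]
          field_simp
        rw [e6]
        exact div_le_div_of_nonneg_right
          (mul_le_mul_of_nonneg_left e3 (by positivity)) hzp.le
      have e7 : m * y ^ 2 * GE y ψ z / ‖z‖ ^ 2 ≤ GE y ψ z * Op a b c y ψ z.arg / ‖z‖ ^ 2 := by
        refine div_le_div_of_nonneg_right ?_ hzp.le
        rw [mul_comm]
        exact mul_le_mul_of_nonneg_left e2 (hGE0 z).le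
      linarith
  refine ⟨F, hFm, hF0, hFB, fun z h1 h2 => hF1' z (by linarith) (by linarith), ?_⟩
  obtain ⟨C', hC', h₀, hh₀, hone⟩ := one_step_gen (μ := μ) (a := a) (b := b) (c := c) (K := K)
    ha hb hK hδ hδR hFm hF0 hFB one_pos hexpF hann
  refine ⟨C', hC', h₀, hh₀, ?_⟩
  intro W hW h hh hhn z s' hz1 hz2 hs'
  have hle : s' ≤ s' + h := by linarith
  have e : s' + h - s' = h := by ring
  refine hone h hh hhn z hz1 hz2 (fun ω => W (s' + h) ω - W s' ω)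
    ((hW.meas _).sub (hW.meas _)) (hW.int4 s' (s' + h) hs' hle)
    (hW.m1x s' (s' + h) hs' hle) (hW.m1y s' (s' + h) hs' hle) ?_ ?_ ?_ ?_
  · have := hW.m2x s' (s' + h) hs' hle
    rwa [e] at this
  · have := hW.m2y s' (s' + h) hs' hle
    rwa [e] at this
  · have := hW.m2c s' (s' + h) hs' hle
    rwa [e] at this
  · have := hW.m4 s' (s' + h) hs' hle
    rwa [e] at this

end

end Pool.Agent.SLE
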