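import Pool.Agent.Lib.MP_c17912_pr_TC.BWRA
import Pool.Agent.Lib.MP_c17912_pr_TC.CRC
import Pool.Agent.Lib.MP_c17912_pr_TR.GOS

/-!
# MP_c17912_pr, project TC, backward critical case: the discrete estimate for a critical matrix

`CrF a b c`: what is used about a forward critical matrix: the strict supermartingale with
`q > 2`, the one with `(-q₃, q₃)`, and the Poisson data with mean drift zero (for `cr_tail`).
-/

set_option autoImplicit false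

open MeasureTheory ProbabilityTheory Filter
open scoped NNReal ENNReal Topology Real

namespace Pool.Agent.SLE

noncomputable section

variable {Ω : Type*} [MeasurableSpace Ω] {μ : Measure Ω}

/-- The data of a forward critical matrix. -/
def CrF (a b c : ℝ) : Prop :=
  (∃ (q α δ : ℝ) (ψ : ℝ → ℝ), 2 < q ∧ 0 ≤ q + α ∧ 0 < δ ∧ ContDiff ℝ 3 ψ ∧
    Function.Periodic ψ (2 * π) ∧ ∀ θ, Op a b c α ψ θ - 2 * q * Real.cos (2 * θ) + δ ≤ 0) ∧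
  (∃ (q δ : ℝ) (ψ : ℝ → ℝ), 0 < q ∧ 0 < δ ∧ ContDiff ℝ 3 ψ ∧
    Function.Periodic ψ (2 * π) ∧ ∀ θ, Op a b c (-q) ψ θ - 2 * q * Real.cos (2 * θ) + δ ≤ 0) ∧
  c ^ 2 ≤ a * b ∧ 0 < a + b ∧
  ∃ ρ : ℝ → ℝ, PoiP a b c ρ ∧ ∫ x in (0 : ℝ)..π, H1 a b c x * ρ x = 0

namespace TCBWRB

/-- A small change of the exponent. -/
theorem op_pert {a b c α q δ₂ : ℝ} {ψ : ℝ → ℝ} (hψ : ContDiff ℝ 3 ψ)
    (hper : Function.Periodic ψ (2 * π)) (hδ : 0 < δ₂)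
    (hop : ∀ θ, Op a b c α ψ θ - 2 * q * Real.cos (2 * θ) + δ₂ ≤ 0) :
    ∃ κ : ℝ, 0 < κ ∧ κ ≤ 1 ∧
      ∀ θ, Op a b c (α + κ) ψ θ - 2 * q * Real.cos (2 * θ) + δ₂ / 2 ≤ 0 := by
  obtain ⟨C1, hC1⟩ := EXaux.bdd (TRSGN.H_smooth a b c 0).continuous
    (TRSGN.per2 (TRSGN.H_per a b c))
  obtain ⟨C2, hC2⟩ := EXaux.bdd (TRSGN.R_cont a b c) (TRSGN.per2 (TRSGN.R_per a b c))
  obtain ⟨C3, hC3⟩ := EXaux.bdd (hψ.continuous_deriv (by norm_num)) (EXaux.per_deriv hper)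
  obtain ⟨C4, hC4⟩ := EXaux.bdd (TRSGN.C_smooth a b c 0).continuous
    (TRSGN.per2 (TRSGN.C_per a b c))
  have h1 : 0 ≤ C1 := (abs_nonneg _).trans (hC1 0)
  have h2 : 0 ≤ C2 := (abs_nonneg _).trans (hC2 0)
  have h3 : 0 ≤ C3 := (abs_nonneg _).trans (hC3 0)
  have h4 : 0 ≤ C4 := (abs_nonneg _).trans (hC4 0)
  obtain ⟨C, hC⟩ : ∃ C, C = C1 + (|α| + 1) * C2 + C3 * C4 := ⟨_, rfl⟩
  have hC0 : 0 ≤ C := by
    rw [hC]
    positivity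
  obtain ⟨κ, hκ⟩ : ∃ κ, κ = min 1 (δ₂ / (2 * (C + 1))) := ⟨_, rfl⟩
  have hκ0 : 0 < κ := by
    rw [hκ]
    exact lt_min one_pos (by positivity)
  have hκ1 : κ ≤ 1 := by
    rw [hκ]
    exact min_le_left _ _
  have hκC : κ * C ≤ δ₂ / 2 := by
    have e1 : κ ≤ δ₂ / (2 * (C + 1)) := by
      rw [hκ]
      exact min_le_right _ _
    have e2 : κ * (2 * (C + 1)) ≤ δ₂ := by
      rwa [le_div_iff₀ (by positivity)] at e1
    nlinarith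
  refine ⟨κ, hκ0, hκ1, fun θ => ?_⟩
  have key : Op a b c (α + κ) ψ θ = Op a b c α ψ θ + κ * (H1 a b c θ +
      (2 * α + κ) / 2 * Vr a b c θ + deriv ψ θ * Cv a b c θ) := by
    unfold Op
    ring
  have e1 : H1 a b c θ ≤ C1 := (le_abs_self _).trans (hC1 θ)
  have e2 : (2 * α + κ) / 2 * Vr a b c θ ≤ (|α| + 1) * C2 := by
    refine (le_abs_self _).trans ?_
    rw [abs_mul]
    refine mul_le_mul ?_ (hC2 θ) (abs_nonneg _) (by positivity)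
    have e3 := abs_le.1 (le_refl |α|)
    rw [abs_le]
    constructor
    · linarith [e3.1]
    · linarith [e3.2]
  have e3 : deriv ψ θ * Cv a b c θ ≤ C3 * C4 := by
    refine (le_abs_self _).trans ?_
    rw [abs_mul]
    exact mul_le_mul (hC3 θ) (hC4 θ) (abs_nonneg _) h3
  have e4 : κ * (H1 a b c θ + (2 * α + κ) / 2 * Vr a b c θ + deriv ψ θ * Cv a b c θ)
      ≤ κ * C := by
    refine mul_le_mul_of_nonneg_left ?_ hκ0.le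
    rw [hC]
    linarith
  have e5 := hop θ
  rw [key]
  linarith

/-- Multiplication of `GE` by a power. -/
theorem ge_mul {α s : ℝ} {ψ : ℝ → ℝ} {z : ℂ} (hz : 0 < ‖z‖) :
    ‖z‖ ^ s * GE α ψ z = Real.exp ((s + α) * Real.log ‖z‖ + ψ z.arg) := by
  unfold GE
  rw [Real.rpow_def_of_pos hz, ← Real.exp_add]
  congr 1
  ring

/-- `GE` has polynomial growth away from zero. -/
theorem ge_up {α A P : ℝ} {p : ℕ} {ψ : ℝ → ℝ} {z : ℂ} (hz : 1 / 2 ≤ ‖z‖) (hα : |α| ≤ A)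
    (hp : A ≤ p) (hP : ∀ x, |ψ x| ≤ P) :
    GE α ψ z ≤ Real.exp (A * Real.log 2 + P) * (1 + ‖z‖) ^ p := by
  have hA : 0 ≤ A := (abs_nonneg _).trans hα
  have hz0 : 0 < ‖z‖ := lt_of_lt_of_le (by norm_num) hz
  have hl2 : 0 ≤ Real.log 2 := Real.log_nonneg (by norm_num)
  have hl1 : 0 ≤ Real.log (1 + ‖z‖) := Real.log_nonneg (by linarith)
  have h1 : |Real.log ‖z‖| ≤ Real.log 2 + Real.log (1 + ‖z‖) := by
    rw [abs_le]
    constructor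
    · have e1 : Real.log (1 / 2) ≤ Real.log ‖z‖ := Real.log_le_log (by norm_num) hz
      rw [Real.log_div (by norm_num) (by norm_num), Real.log_one] at e1
      linarith
    · have e1 : Real.log ‖z‖ ≤ Real.log (1 + ‖z‖) := Real.log_le_log hz0 (by linarith)
      linarith
  have h2 : α * Real.log ‖z‖ ≤ A * (Real.log 2 + Real.log (1 + ‖z‖)) := by
    refine (le_abs_self _).trans ?_
    rw [abs_mul]
    exact mul_le_mul hα h1 (abs_nonneg _) hA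
  have h3 : A * Real.log (1 + ‖z‖) ≤ p * Real.log (1 + ‖z‖) :=
    mul_le_mul_of_nonneg_right hp hl1
  have h4 := (abs_le.1 (hP z.arg)).2
  have h5 : (1 + ‖z‖) ^ p = Real.exp (p * Real.log (1 + ‖z‖)) := by
    rw [Real.exp_nat_mul, Real.exp_log (by linarith)]
  unfold GE
  rw [h5, ← Real.exp_add]
  refine Real.exp_le_exp.2 ?_
  linarith

theorem kT_nonneg {κ : ℝ} (hκ : 0 ≤ κ) (z : ℂ) : 0 ≤ kT κ z := by
  unfold kT
  have : 0 ≤ min 1 ‖z‖ := le_min zero_le_one (norm_nonneg _)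
  positivity

theorem kT_up {κ δ : ℝ} (hκ : 0 ≤ κ) (hδ : 0 < δ) {z : ℂ} (hz : δ ≤ ‖z‖) :
    kT κ z ≤ κ / δ ^ 2 := by
  unfold kT
  refine div_le_div₀ hκ ?_ (by positivity) ?_
  · exact mul_le_of_le_one_right hκ (min_le_left _ _)
  · exact pow_le_pow_left₀ hδ.le hz 2

theorem kT_low {κ e : ℝ} (hκ : 0 ≤ κ) (he : 1 ≤ e) {z : ℂ} (hz0 : 0 < ‖z‖) (hz : ‖z‖ ≤ e) :
    κ ≤ e ^ 2 * kT κ z := by
  unfold kT
  have hzp : 0 < ‖z‖ ^ 2 := by positivity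
  rw [← mul_div_assoc, le_div_iff₀ hzp]
  have h1 : ‖z‖ ^ 2 ≤ e ^ 2 * min 1 ‖z‖ := by
    rcases le_total 1 ‖z‖ with h | h
    · rw [min_eq_left h, mul_one]
      exact pow_le_pow_left₀ hz0.le hz 2
    · rw [min_eq_right h]
      have e1 : (1 : ℝ) ≤ e ^ 2 := one_le_pow₀ he
      nlinarith
  calc κ * ‖z‖ ^ 2 ≤ κ * (e ^ 2 * min 1 ‖z‖) := mul_le_mul_of_nonneg_left h1 hκ
    _ = e ^ 2 * (κ * min 1 ‖z‖) := by ring

theorem kT_meas (κ : ℝ) : Measurable (kT κ) := by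
  unfold kT
  exact ((measurable_const.min measurable_norm).const_mul κ).div (measurable_norm.pow_const 2)

end TCBWRB

/-- BWRB1. The discrete estimate for a forward critical matrix; the constants do not depend on
the inner radius `δ` of the annulus, except for the limit `h → 0`.

Proof. Let `(q, α, δ₂, ψ₂)` and `(q₃, δ₃, ψ₃)` be from `CrF`, `|ψ₂|, |ψ₃| ≤ B'` (`EXaux.bdd`).
`Op a b c (α + κ') ψ₂ - Op a b c α ψ₂ = κ' H1 + (2 α κ' + κ'^2) Vr / 2 + κ' ψ₂' Cv` is bounded by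
`C κ'` for `κ' ≤ 1`, so for a small `κ' > 0` one has
`Op a b c (α + κ') ψ₂ - 2 q cos + δ₂ / 2 ≤ 0`. `ε₀ = min 1 (min (δ₂ / (2 q)) (δ₃ / q₃))`.
`ge_one_step` on the annulus `[δ, 2^H]` (a larger `c₀` gives a smaller kernel factor; apply it
with `c₀ = q ε` resp. `q₃ ε`) gives `G = GE α ψ₂`, `G' = GE (α + κ') ψ₂ = |z|^κ' G`,
`G₃ = GE (-q₃) ψ₃` on the annulus; `cr_tail` with `y = 1 / H` (`2^H ≤ exp H`) gives `G₄` with the
kernel `kT (c₁ / H^2)`. `Q = 1 + C' (h √h)` with the maximum of the four constants (each one step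
inequality may be weakened, `G ≥ 0`). `f = (1/2)^(q + α) exp (-B')`, `B₃ = exp B'`,
`R₀^κ' G ≤ |z|^κ' G = G'` if `R₀ ≤ |z|`. `ref_disc`, and `kT (c₁ / H^2) z ≥ c₁ / (H^2 e^2)` for
`|z| ≤ e` (`e ≥ 1`), `Q^J ≤ exp (C' √h (J h))` (`SmgAux.pow_le_exp`),
`G z₀ + G' z₀ ≤ C (1 + |z₀|)^p` for `|z₀| ≥ 1/2`, `c₂ = min q₃ κ'`. -/
theorem ref_inst [IsProbabilityMeasure μ] {a b c K : ℝ} (ha : 0 ≤ a) (hb : 0 ≤ b) (hK : 0 ≤ K)
    (hC : CrF a b c) :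
    ∃ (C c₂ ε₀ q : ℝ) (p H₀ : ℕ), 0 < C ∧ 0 < c₂ ∧ 0 < ε₀ ∧ ε₀ ≤ 1 ∧ 2 < q ∧
      ∀ ε : ℝ, 0 < ε → ε ≤ ε₀ → ∀ H : ℕ, H₀ ≤ H → ∀ δ : ℝ, 0 < δ → δ ≤ 1 / 2 →
        ∃ C' > 0, ∃ h₀ > 0, ∀ W : ℝ → Ω → ℂ, Drv a b c K W μ → ∀ h : ℝ, 0 < h → h ≤ h₀ →
          ∀ (z₀ : ℂ) (θ ρ R₀ e : ℝ) (j₀ J : ℕ), 1 / 2 ≤ ‖z₀‖ → 0 ≤ ρ → 1 ≤ R₀ → 1 ≤ e →
            μ {ω | ∃ j ≤ J, ω ∈ AnS W z₀ h δ (2 ^ H) j ∩ DnS W z₀ h ε θ ρ R₀ j₀ j} +
                ∑ j ∈ Finset.range J, ENNReal.ofReal h *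
                  μ (AnS W z₀ h δ (2 ^ H) j ∩ DnS W z₀ h ε θ ρ R₀ j₀ j ∩
                    {ω | ‖DiscAux.Z W z₀ h j ω‖ ≤ e}) ≤
              ENNReal.ofReal (C * e ^ 2 * H ^ 2 * (1 + ‖z₀‖) ^ p *
                Real.exp (C' * √h * (J * h)) * Real.exp (-(q * θ)) *
                (Real.exp (-(c₂ * ρ)) + R₀ ^ (-c₂))) := by
  obtain ⟨⟨q, α, δ₂, ψ₂, hq2, hqα, hδ₂, hψ₂, hper₂, hop₂⟩, ⟨q₃, δ₃, ψ₃, hq₃, hδ₃, hψ₃, hper₃,
    hop₃⟩, hc, hab, ρ₀, hρ₀, hρ₀'⟩ := hC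
  obtain ⟨κ', hκ0, hκ1, hopκ⟩ := TCBWRB.op_pert hψ₂ hper₂ hδ₂ hop₂
  obtain ⟨P₂, hP₂⟩ := EXaux.bdd hψ₂.continuous hper₂
  obtain ⟨P₃, hP₃⟩ := EXaux.bdd hψ₃.continuous hper₃
  have hP₂0 : 0 ≤ P₂ := (abs_nonneg _).trans (hP₂ 0)
  have hP₃0 : 0 ≤ P₃ := (abs_nonneg _).trans (hP₃ 0)
  obtain ⟨c₁, hc₁, y₀, hy₀, hy₀1, B, hB, htail⟩ := cr_tail (μ := μ) (K := K) ha hb hK
    (s5_poi ha hb hc hab hρ₀ hρ₀')
  have hq0 : 0 < q := by linarith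
  -- constants
  obtain ⟨f, hf⟩ : ∃ f : ℝ, f = (1 / 2 : ℝ) ^ (q + α) * Real.exp (-P₂) := ⟨_, rfl⟩
  have hf0 : 0 < f := by
    rw [hf]
    positivity
  obtain ⟨B₃, hB₃⟩ : ∃ B₃ : ℝ, B₃ = Real.exp P₃ := ⟨_, rfl⟩
  have hB₃1 : 1 ≤ B₃ := by
    rw [hB₃]
    exact Real.one_le_exp hP₃0
  obtain ⟨Bm, hBm⟩ : ∃ Bm : ℝ, Bm = max 1 B := ⟨_, rfl⟩
  have hBm1 : 1 ≤ Bm := by
    rw [hBm]
    exact le_max_left _ _
  obtain ⟨A, hA⟩ : ∃ A : ℝ, A = |α| + 1 := ⟨_, rfl⟩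
  have hA1 : |α| ≤ A := by
    rw [hA]
    linarith
  have hA2 : |α + κ'| ≤ A := by
    rw [hA]
    refine (abs_add_le _ _).trans ?_
    rw [abs_of_pos hκ0]
    linarith
  obtain ⟨p, hp⟩ := exists_nat_ge A
  obtain ⟨Cg, hCg⟩ : ∃ Cg : ℝ, Cg = 2 * Real.exp (A * Real.log 2 + P₂) := ⟨_, rfl⟩
  have hCg0 : 0 < Cg := by
    rw [hCg]
    positivity
  obtain ⟨c₃, hc₃⟩ : ∃ c₃ : ℝ, c₃ = max 1 (1 / c₁) := ⟨_, rfl⟩
  have hc₃1 : 1 ≤ c₃ := by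
    rw [hc₃]
    exact le_max_left _ _
  have hc₃c : 1 ≤ c₃ * c₁ := by
    have : 1 / c₁ ≤ c₃ := by
      rw [hc₃]
      exact le_max_right _ _
    rwa [div_le_iff₀ hc₁] at this
  obtain ⟨H₀, hH₀⟩ := exists_nat_ge (1 / y₀)
  have hfac : 0 < 4 * Bm * B₃ ^ 2 / f := by positivity
  refine ⟨c₃ * (4 * Bm * B₃ ^ 2 / f * Cg), min q₃ κ', min 1 (min (δ₂ / (2 * q)) (δ₃ / q₃)), q, p,
    H₀ + 1, by positivity, lt_min hq₃ hκ0, ?_, min_le_left _ _, hq2, ?_⟩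
  · exact lt_min one_pos (lt_min (by positivity) (by positivity))
  intro ε hε hεε H hH δ hδ hδ2
  have hε2 : q * ε ≤ δ₂ / 2 := by
    have e1 : ε ≤ δ₂ / (2 * q) := hεε.trans ((min_le_right _ _).trans (min_le_left _ _))
    rw [le_div_iff₀ (by positivity)] at e1
    linarith
  have hε3 : q₃ * ε ≤ δ₃ := by
    have e1 : ε ≤ δ₃ / q₃ := hεε.trans ((min_le_right _ _).trans (min_le_right _ _))
    rw [le_div_iff₀ hq₃] at e1
    linarith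
  have hH1 : (1 : ℝ) ≤ H := by
    have : 1 ≤ H := le_trans (by omega) hH
    exact_mod_cast this
  have hH0 : (0 : ℝ) < H := by linarith
  obtain ⟨y, hy⟩ : ∃ y : ℝ, y = 1 / H := ⟨_, rfl⟩
  have hy0 : 0 < y := by
    rw [hy]
    positivity
  have hy1 : y ≤ 1 := by
    rw [hy, div_le_one hH0]
    exact hH1
  have hyH : y * H = 1 := by
    rw [hy]
    field_simp
  have hyy : y ≤ y₀ := by
    have e1 : (H₀ : ℝ) ≤ H := by
      have : H₀ ≤ H := le_trans (by omega) hH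
      exact_mod_cast this
    have e2 : 1 / y₀ ≤ H := hH₀.trans e1
    rw [div_le_iff₀ hy₀] at e2
    rw [hy, div_le_iff₀ hH0]
    linarith
  have hR1 : (1 : ℝ) ≤ 2 ^ H := one_le_pow₀ (by norm_num)
  have hδR : δ ≤ (2 : ℝ) ^ H := by linarith
  have hRy : (2 : ℝ) ^ H ≤ Real.exp (1 / y) := by
    have e1 : 1 / y = H * 1 := by
      rw [hy]
      field_simp
    rw [e1, Real.exp_nat_mul]
    refine pow_le_pow_left₀ (by norm_num) ?_ H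
    have := Real.add_one_le_exp (1 : ℝ)
    linarith
  obtain ⟨G, hGm, hG0, hGle, hGan, C₁, hC₁, h₁, hh₁, hG1⟩ := ge_one_step (μ := μ) (K := K)
    (lam := q) (c₀ := q * ε) ha hb hK hψ₂ hper₂ (α := α)
    (fun θ => by linarith [hop₂ θ]) hδ hδR
  obtain ⟨G', hG'm, hG'0, hG'le, hG'an, C₂, hC₂, h₂, hh₂, hG2⟩ := ge_one_step (μ := μ) (K := K)
    (lam := q) (c₀ := q * ε) ha hb hK hψ₂ hper₂ (α := α + κ')
    (fun θ => by linarith [hopκ θ]) hδ hδR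
  obtain ⟨G₃, hG₃m, hG₃0, -, hG₃an, C₃, hC₃, h₃, hh₃, hG3⟩ := ge_one_step (μ := μ) (K := K)
    (lam := q₃) (c₀ := q₃ * ε) ha hb hK hψ₃ hper₃ (α := -q₃)
    (fun θ => by linarith [hop₃ θ]) hδ hδR
  obtain ⟨G₄, hG₄m, hG₄0, hG₄B, hG₄1, C₄, hC₄, h₄, hh₄, hG4⟩ := htail y hy0 hyy δ (2 ^ H) hδ hδR
    hRy
  obtain ⟨C', hC'⟩ : ∃ C', C' = max (max C₁ C₂) (max C₃ C₄) := ⟨_, rfl⟩
  have hCC1 : C₁ ≤ C' := by
    rw [hC']
    exact (le_max_left _ _).trans (le_max_left _ _)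
  have hCC2 : C₂ ≤ C' := by
    rw [hC']
    exact (le_max_right _ _).trans (le_max_left _ _)
  have hCC3 : C₃ ≤ C' := by
    rw [hC']
    exact (le_max_left _ _).trans (le_max_right _ _)
  have hCC4 : C₄ ≤ C' := by
    rw [hC']
    exact (le_max_right _ _).trans (le_max_right _ _)
  have hC'0 : 0 < C' := lt_of_lt_of_le hC₁ hCC1
  refine ⟨C', hC'0, min (min h₁ h₂) (min (min h₃ h₄) (δ ^ 2 / c₁)),
    lt_min (lt_min hh₁ hh₂) (lt_min (lt_min hh₃ hh₄) (by positivity)), ?_⟩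
  intro W hW h hh hhn z₀ θ ρ R₀ e j₀ J hz₀ hρ hR₀ he
  have hn1 : h ≤ h₁ := hhn.trans ((min_le_left _ _).trans (min_le_left _ _))
  have hn2 : h ≤ h₂ := hhn.trans ((min_le_left _ _).trans (min_le_right _ _))
  have hn3 : h ≤ h₃ :=
    hhn.trans ((min_le_right _ _).trans ((min_le_left _ _).trans (min_le_left _ _)))
  have hn4 : h ≤ h₄ :=
    hhn.trans ((min_le_right _ _).trans ((min_le_left _ _).trans (min_le_right _ _)))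
  have hn5 : h ≤ δ ^ 2 / c₁ := hhn.trans ((min_le_right _ _).trans (min_le_right _ _))
  have hhs : 0 ≤ h * √h := by positivity
  obtain ⟨Q, hQ⟩ : ∃ Q, Q = 1 + C' * (h * √h) := ⟨_, rfl⟩
  have hQ1 : 1 ≤ Q := by
    rw [hQ]
    have : 0 ≤ C' * (h * √h) := by positivity
    linarith
  have hweak : ∀ (D x g : ℝ), D ≤ C' → 0 ≤ x → 0 ≤ g →
      ENNReal.ofReal ((1 + D * (h * √h)) * x * g) ≤ ENNReal.ofReal (Q * x * g) := by
    intro D x g hD hx hg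
    refine ENNReal.ofReal_le_ofReal ?_
    refine mul_le_mul_of_nonneg_right (mul_le_mul_of_nonneg_right ?_ hx) hg
    rw [hQ]
    have := mul_le_mul_of_nonneg_right hD hhs
    linarith
  have hκk : 0 ≤ c₁ * y ^ 2 := by positivity
  have hκk1 : c₁ * y ^ 2 ≤ c₁ := by
    refine mul_le_of_le_one_right hc₁.le ?_
    exact pow_le_one₀ hy0.le hy1
  have hR₀0 : 0 < R₀ := by linarith
  have main := ref_disc (μ := μ) hW (h := h) (Q := Q) (δ := δ) (R := 2 ^ H) (ε := ε) (q := q)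
    (q₃ := q₃) (θ := θ) (ρ := ρ) (R₀ := R₀) (κ' := κ') (f := f) (B₃ := B₃) (B := Bm) j₀ hh hQ1 hδ
    hq0.le hq₃.le hκ0.le hρ hR₀ hf0 hB₃1 hBm1 hGm hG'm hG₃m hG₄m
    (TCBWRB.kT_meas (c₁ * y ^ 2)) hG0 hG'0 hG₃0
    (by
      intro z h1 h2 h3
      have hz : 0 < ‖z‖ := lt_of_lt_of_le hδ h1
      rw [hGan z h1 h2, hG'an z h1 h2]
      have e1 : GE (α + κ') ψ₂ z = ‖z‖ ^ κ' * GE α ψ₂ z := by
        rw [TCBWRB.ge_mul hz]
        unfold GE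
        rw [add_comm α κ']
      rw [e1]
      refine mul_le_mul_of_nonneg_right ?_ (Real.exp_pos _).le
      exact Real.rpow_le_rpow hR₀0.le h3 hκ0.le)
    (by
      intro z h1 h2 h3
      have hz : 0 < ‖z‖ := lt_of_lt_of_le hδ h1
      rw [hGan z h1 h2, TCBWRB.ge_mul hz, Real.exp_add, hf]
      refine mul_le_mul ?_ (Real.exp_le_exp.2 (abs_le.1 (hP₂ z.arg)).1) (Real.exp_pos _).le
        (Real.exp_pos _).le
      rw [mul_comm, ← Real.rpow_def_of_pos hz]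
      exact Real.rpow_le_rpow (by norm_num) h3 hqα)
    (by
      intro z h1 h2
      have hz : 0 < ‖z‖ := lt_of_lt_of_le hδ h1
      rw [hG₃an z h1 h2, TCBWRB.ge_mul hz, hB₃]
      have e1 : (q₃ + -q₃) * Real.log ‖z‖ + ψ₃ z.arg = ψ₃ z.arg := by ring
      rw [e1, one_div, ← Real.exp_neg]
      exact ⟨Real.exp_le_exp.2 (abs_le.1 (hP₃ z.arg)).1,
        Real.exp_le_exp.2 (abs_le.1 (hP₃ z.arg)).2⟩)
    (by
      intro z h1 h2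
      refine ⟨hG₄1 z h1 h2, (hG₄B z).trans ?_⟩
      rw [hBm]
      exact le_max_right _ _)
    (by
      intro z h1 h2
      refine ⟨TCBWRB.kT_nonneg hκk z, ?_⟩
      have e1 := TCBWRB.kT_up hκk hδ h1
      have e2 : c₁ * y ^ 2 / δ ^ 2 ≤ c₁ / δ ^ 2 :=
        div_le_div_of_nonneg_right hκk1 (by positivity)
      calc h * kT (c₁ * y ^ 2) z ≤ δ ^ 2 / c₁ * (c₁ / δ ^ 2) :=
            mul_le_mul hn5 (e1.trans e2) (TCBWRB.kT_nonneg hκk z) (by positivity)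
        _ = 1 := by field_simp)
    (fun z s h1 h2 hs => (hG1 W hW h hh hn1 z s h1 h2 hs).trans
      (hweak _ _ _ hCC1 (Real.exp_pos _).le (hG0 z)))
    (fun z s h1 h2 hs => (hG2 W hW h hh hn2 z s h1 h2 hs).trans
      (hweak _ _ _ hCC2 (Real.exp_pos _).le (hG'0 z)))
    (fun z s h1 h2 hs => (hG3 W hW h hh hn3 z s h1 h2 hs).trans
      (hweak _ _ _ hCC3 (Real.exp_pos _).le (hG₃0 z)))
    (fun z s h1 h2 hs => (hG4 W hW h hh hn4 z s h1 h2 hs).trans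
      (hweak _ _ _ hCC4 (Real.exp_pos _).le (hG₄0 z)))
    z₀ J
  -- the factor
  obtain ⟨D, hD⟩ : ∃ D : ℝ, D = e ^ 2 * H ^ 2 * c₃ := ⟨_, rfl⟩
  have he2 : (1 : ℝ) ≤ e ^ 2 := one_le_pow₀ he
  have hH2 : (1 : ℝ) ≤ (H : ℝ) ^ 2 := one_le_pow₀ hH1
  have hD1 : 1 ≤ D := by
    rw [hD]
    have e1 : (1 : ℝ) ≤ e ^ 2 * (H : ℝ) ^ 2 := by nlinarith
    nlinarith
  have hD0 : 0 ≤ D := by linarith
  have hDk : ∀ z : ℂ, 0 < ‖z‖ → ‖z‖ ≤ e → h ≤ D * (h * kT (c₁ * y ^ 2) z) := by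
    intro z hz hze
    have e1 := TCBWRB.kT_low hκk he hz hze
    have e2 : (1 : ℝ) ≤ (H : ℝ) ^ 2 * c₃ * (c₁ * y ^ 2) := by
      have : (H : ℝ) ^ 2 * c₃ * (c₁ * y ^ 2) = c₃ * c₁ * (y * H) ^ 2 := by ring
      rw [this, hyH]
      linarith
    have e3 : (H : ℝ) ^ 2 * c₃ * (c₁ * y ^ 2) ≤
        (H : ℝ) ^ 2 * c₃ * (e ^ 2 * kT (c₁ * y ^ 2) z) :=
      mul_le_mul_of_nonneg_left e1 (by positivity)
    have e4 : D * (h * kT (c₁ * y ^ 2) z) =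
        h * ((H : ℝ) ^ 2 * c₃ * (e ^ 2 * kT (c₁ * y ^ 2) z)) := by
      rw [hD]
      ring
    rw [e4]
    nlinarith
  have hterm : ∀ j : ℕ, ENNReal.ofReal h *
      μ (AnS W z₀ h δ (2 ^ H) j ∩ DnS W z₀ h ε θ ρ R₀ j₀ j ∩
        {ω | ‖DiscAux.Z W z₀ h j ω‖ ≤ e}) ≤
      ENNReal.ofReal D * ∫⁻ ω in AnS W z₀ h δ (2 ^ H) j ∩ DnS W z₀ h ε θ ρ R₀ j₀ j,
        ENNReal.ofReal (h * kT (c₁ * y ^ 2) (DiscAux.Z W z₀ h j ω)) ∂μ := by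
    intro j
    have hZ : Measurable (DiscAux.Z W z₀ h j) :=
      (DiscAux.Z_meas hh z₀ j (j * h) le_rfl).mono (Blk_le hW 0 (j * h)) le_rfl
    have hgm : Measurable fun ω => ENNReal.ofReal D *
        ENNReal.ofReal (h * kT (c₁ * y ^ 2) (DiscAux.Z W z₀ h j ω)) :=
      (((TCBWRB.kT_meas _).comp hZ).const_mul h).ennreal_ofReal.const_mul _
    rw [← setLIntegral_const]
    refine (setLIntegral_mono hgm ?_).trans ?_
    · rintro ω ⟨⟨hω1, hω2⟩, hω3⟩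
      have hzp : 0 < ‖DiscAux.Z W z₀ h j ω‖ := lt_of_lt_of_le hδ (hω1 j le_rfl).1
      rw [← ENNReal.ofReal_mul hD0]
      exact ENNReal.ofReal_le_ofReal (hDk _ hzp hω3)
    · rw [← lintegral_const_mul' _ _ ENNReal.ofReal_ne_top]
      exact lintegral_mono_set Set.inter_subset_left
  have hlhs : μ {ω | ∃ j ≤ J, ω ∈ AnS W z₀ h δ (2 ^ H) j ∩ DnS W z₀ h ε θ ρ R₀ j₀ j} +
      ∑ j ∈ Finset.range J, ENNReal.ofReal h *
        μ (AnS W z₀ h δ (2 ^ H) j ∩ DnS W z₀ h ε θ ρ R₀ j₀ j ∩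
          {ω | ‖DiscAux.Z W z₀ h j ω‖ ≤ e}) ≤
      ENNReal.ofReal D * (μ {ω | ∃ j ≤ J,
          ω ∈ AnS W z₀ h δ (2 ^ H) j ∩ DnS W z₀ h ε θ ρ R₀ j₀ j} +
        ∑ j ∈ Finset.range J, ∫⁻ ω in AnS W z₀ h δ (2 ^ H) j ∩ DnS W z₀ h ε θ ρ R₀ j₀ j,
          ENNReal.ofReal (h * kT (c₁ * y ^ 2) (DiscAux.Z W z₀ h j ω)) ∂μ) := by
    rw [mul_add, Finset.mul_sum]
    refine add_le_add ?_ (Finset.sum_le_sum fun j _ => hterm j)
    refine le_mul_of_one_le_left' ?_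
    rw [← ENNReal.ofReal_one]
    exact ENNReal.ofReal_le_ofReal hD1
  refine hlhs.trans ((mul_le_mul_right main _).trans ?_)
  rw [← ENNReal.ofReal_mul hD0]
  refine ENNReal.ofReal_le_ofReal ?_
  -- the real inequality
  have hg : G z₀ + G' z₀ ≤ Cg * (1 + ‖z₀‖) ^ p := by
    have e1 := (hGle z₀).trans (TCBWRB.ge_up hz₀ hA1 hp hP₂)
    have e2 := (hG'le z₀).trans (TCBWRB.ge_up hz₀ hA2 hp hP₂)
    rw [hCg]
    linarith
  have hQJ : Q ^ J ≤ Real.exp (C' * √h * (J * h)) := by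
    rw [hQ]
    refine (SmgAux.pow_le_exp hC'0.le hh.le J).trans (le_of_eq ?_)
    congr 1
    ring
  have hx1 : Real.exp (-(q₃ * ρ)) ≤ Real.exp (-(min q₃ κ' * ρ)) := by
    refine Real.exp_le_exp.2 ?_
    have := mul_le_mul_of_nonneg_right (min_le_left q₃ κ') hρ
    linarith
  have hx2 : R₀ ^ (-κ') ≤ R₀ ^ (-min q₃ κ') :=
    Real.rpow_le_rpow_of_exponent_le hR₀ (neg_le_neg (min_le_right _ _))
  have hx3 : 0 ≤ Real.exp (-(q₃ * ρ)) + R₀ ^ (-κ') := by positivity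
  have hgg : 0 ≤ G z₀ + G' z₀ := add_nonneg (hG0 _) (hG'0 _)
  calc D * (4 * Bm * B₃ ^ 2 / f * Q ^ J * Real.exp (-(q * θ)) * (G z₀ + G' z₀) *
        (Real.exp (-(q₃ * ρ)) + R₀ ^ (-κ')))
      ≤ D * (4 * Bm * B₃ ^ 2 / f * Real.exp (C' * √h * (J * h)) * Real.exp (-(q * θ)) *
        (Cg * (1 + ‖z₀‖) ^ p) * (Real.exp (-(min q₃ κ' * ρ)) + R₀ ^ (-min q₃ κ'))) := by
        refine mul_le_mul_of_nonneg_left ?_ hD0
        refine mul_le_mul ?_ (add_le_add hx1 hx2) hx3 (by positivity)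
        refine mul_le_mul ?_ hg hgg (by positivity)
        refine mul_le_mul_of_nonneg_right ?_ (Real.exp_pos _).le
        exact mul_le_mul_of_nonneg_left hQJ hfac.le
    _ = c₃ * (4 * Bm * B₃ ^ 2 / f * Cg) * e ^ 2 * H ^ 2 * (1 + ‖z₀‖) ^ p *
        Real.exp (C' * √h * (J * h)) * Real.exp (-(q * θ)) *
        (Real.exp (-(min q₃ κ' * ρ)) + R₀ ^ (-min q₃ κ')) := by
        rw [hD]
        ring

end

end Pool.Agent.SLE
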