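import Pool.Agent.Lib.MP_c17912_pr_TC.BWRV
import Pool.Agent.Lib.MP_c17912_pr.Disc

/-!
# MP_c17912_pr, project TC, backward critical case: laws

The law of the reversed process, and the fact that the law of the increments of a process with
the property `Gau a b c K` (and so the law of the trajectory of the Euler scheme) is determined by
`a, b, c`.
-/

set_option autoImplicit false

open MeasureTheory ProbabilityTheory Filter
open scoped NNReal ENNReal Topology Real

namespace Pool.Agent.SLE

noncomputable section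

variable {Ω : Type*} [MeasurableSpace Ω] {μ : Measure Ω}

namespace TCBWRG

omit [MeasurableSpace Ω] in
theorem rvP_eq {W : ℝ → Ω → ℂ} {T s : ℝ} (hs : 0 ≤ s) (hsT : s ≤ T) (ω : Ω) :
    rvP W T s ω = Complex.I * (W (T - s) ω - W T ω) :=
  rvU_eq (U := fun τ => W τ ω) hs hsT

omit [MeasurableSpace Ω] in
theorem rvP_sub {W : ℝ → Ω → ℂ} {T s r : ℝ} (hs : 0 ≤ s) (hsT : s ≤ T) (hr : 0 ≤ r)
    (hrT : r ≤ T) (ω : Ω) :
    rvP W T r ω - rvP W T s ω = Complex.I * (W (T - r) ω - W (T - s) ω) := by
  rw [rvP_eq hs hsT, rvP_eq hr hrT]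
  ring

/-- Two complex random variables whose real linear functionals have the same laws have the same
law. -/
theorem law_ext [IsProbabilityMeasure μ] {X Y : Ω → ℂ} (hX : Measurable X) (hY : Measurable Y)
    (h : ∀ u v : ℝ, μ.map (fun ω => u * (X ω).re + v * (X ω).im) =
      μ.map (fun ω => u * (Y ω).re + v * (Y ω).im)) : μ.map X = μ.map Y := by
  have h1 := Measure.isProbabilityMeasure_map (μ := μ) hX.aemeasurable
  have h2 := Measure.isProbabilityMeasure_map (μ := μ) hY.aemeasurable
  refine Measure.ext_of_charFun (funext fun t => ?_)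
  have key : ∀ Z : Ω → ℂ, Measurable Z → charFun (μ.map Z) t =
      ∫ y, Complex.exp (y * Complex.I) ∂(μ.map (fun ω => t.re * (Z ω).re + t.im * (Z ω).im)) := by
    intro Z hZ
    have hm : Measurable fun ω => t.re * (Z ω).re + t.im * (Z ω).im := by fun_prop
    have hc1 : Continuous fun y : ℝ => Complex.exp (y * Complex.I) := by fun_prop
    have hc2 : Continuous fun x : ℂ => Complex.exp ((inner ℝ x t : ℝ) * Complex.I) := by
      fun_prop
    rw [charFun_apply, integral_map hZ.aemeasurable hc2.aestronglyMeasurable,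
      integral_map hm.aemeasurable hc1.aestronglyMeasurable]
    refine integral_congr_ae (Eventually.of_forall fun ω => ?_)
    have e : inner ℝ (Z ω) t = t.re * (Z ω).re + t.im * (Z ω).im := by
      rw [Complex.inner]
      simp [Complex.mul_re]
    simp only
    rw [e]
  rw [key X hX, key Y hY, h]

theorem curry {κ ι : Type*} [IsProbabilityMeasure μ] {X : ι → κ → Ω → ℂ}
    (mX : ∀ i j, Measurable (X i j))
    (h : iIndepFun (fun (p : (_ : ι) × κ) ω => X p.1 p.2 ω) μ) :
    iIndepFun (fun i ω => (X i · ω)) μ := by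
  have hp : ∀ i j, IsProbabilityMeasure (μ.map (X i j)) :=
    fun i j => Measure.isProbabilityMeasure_map (mX i j).aemeasurable
  rw [iIndepFun_iff_map_fun_eq_infinitePi_map (by fun_prop)]
  have e : (MeasurableEquiv.piCurry fun (_ : ι) (_ : κ) => ℂ) ∘ (fun ω p => X p.1 p.2 ω) =
      fun ω i j => X i j ω := by
    ext; simp [Sigma.curry]
  have h2 := h.map_fun_eq_infinitePi_map (by fun_prop)
  rw [← e, ← Measure.map_map (by fun_prop) (by fun_prop), h2,
    Measure.infinitePi_map_piCurry (fun i j => μ.map (X i j))]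
  congrm Measure.infinitePi fun i => ?_
  have h3 : iIndepFun (X i) μ :=
    h.precomp (g := fun j => (⟨i, j⟩ : (_ : ι) × κ)) (fun a b hab => by simpa using hab)
  rw [h3.map_fun_eq_infinitePi_map (by fun_prop)]

/-- The Euler scheme as a function of the increments. -/
def EE (z₀ : ℂ) (h : ℝ) (x : ℕ → ℂ) : ℕ → ℂ
  | 0 => z₀
  | j + 1 => EE z₀ h x j + 2 * h / EE z₀ h x j - x j

theorem EE_meas (z₀ : ℂ) (h : ℝ) : Measurable fun x : ℕ → ℂ => EE z₀ h x := by
  refine measurable_pi_lambda _ fun j => ?_
  induction j with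
  | zero => exact measurable_const
  | succ j ih =>
    have hd : Measurable fun x : ℕ → ℂ => 2 * (h : ℂ) / EE z₀ h x j := by
      have hc : Measurable (fun z : ℂ => 2 * (h : ℂ) / z) := measurable_const.div measurable_id
      exact hc.comp ih
    exact (ih.add hd).sub (measurable_pi_apply j)

omit [MeasurableSpace Ω] in
theorem Z_eq (W : ℝ → Ω → ℂ) (z₀ : ℂ) (h : ℝ) (ω : Ω) (j : ℕ) :
    DiscAux.Z W z₀ h j ω =
      EE z₀ h (fun j : ℕ => W ((j + 1 : ℕ) * h) ω - W ((j : ℕ) * h) ω) j := by
  induction j with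
  | zero => rfl
  | succ j ih =>
    have e : DiscAux.Z W z₀ h (j + 1) ω = DiscAux.Z W z₀ h j ω +
        2 * h / DiscAux.Z W z₀ h j ω - (W ((j + 1 : ℕ) * h) ω - W ((j : ℕ) * h) ω) := rfl
    rw [e, ih]
    rfl

/-- The backward clamped time. -/
def pp (T t : ℝ) : ℝ := T - min (max t 0) T
/-- The forward clamped time. -/
def qq (T t : ℝ) : ℝ := max t T

theorem pp_anti (T : ℝ) {x y : ℝ} (h : x ≤ y) : pp T y ≤ pp T x := by
  unfold pp
  have := min_le_min (max_le_max h (le_refl (0 : ℝ))) (le_refl T)
  linarith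

theorem qq_mono (T : ℝ) {x y : ℝ} (h : x ≤ y) : qq T x ≤ qq T y :=
  max_le_max h le_rfl

theorem pp_le {T : ℝ} (hT : 0 ≤ T) (x : ℝ) : pp T x ≤ T := by
  unfold pp
  have : 0 ≤ min (max x 0) T := le_min (le_max_right _ _) hT
  linarith

theorem le_qq (T x : ℝ) : T ≤ qq T x := le_max_right _ _

/-- The ordered partition. -/
def ta (T : ℝ) (n : ℕ) (t : Fin (n + 1) → ℝ) (k : ℕ) : ℝ :=
  if k ≤ n then pp T (t ⟨n - k, by omega⟩) else qq T (t ⟨min (k - n - 1) n, by omega⟩)

theorem ta_mono {T : ℝ} (hT : 0 ≤ T) (n : ℕ) {t : Fin (n + 1) → ℝ} (ht : Monotone t) :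
    Monotone (ta T n t) := by
  intro k l hkl
  unfold ta
  by_cases hl : l ≤ n
  · rw [if_pos hl, if_pos (hkl.trans hl)]
    exact pp_anti T (ht (by simp only [Fin.mk_le_mk]; omega))
  · by_cases hk : k ≤ n
    · rw [if_neg hl, if_pos hk]
      exact (pp_le hT _).trans (le_qq _ _)
    · rw [if_neg hl, if_neg hk]
      exact qq_mono T (ht (by simp only [Fin.mk_le_mk]; omega))

theorem indep [IsProbabilityMeasure μ] {W : ℝ → Ω → ℂ} (hm : ∀ t, Measurable (W t))
    (hW : HasIndepIncrements W μ) {T : ℝ} (hT : 0 ≤ T) : HasIndepIncrements (rvP W T) μ := by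
  intro n t ht
  have h1 := hW.nat (ta_mono hT n ht)
  let g : ((_ : Fin n) × Bool) → ℕ := fun p =>
    if p.2 then n + 1 + (p.1 : ℕ) else n - 1 - (p.1 : ℕ)
  have hg : Function.Injective g := by
    rintro ⟨i, b⟩ ⟨j, b'⟩ hij
    have hi := i.2
    have hj := j.2
    rcases b with _ | _ <;> rcases b' with _ | _
    · have e : n - 1 - (i : ℕ) = n - 1 - (j : ℕ) := by simpa [g] using hij
      have e2 : i = j := Fin.ext (by omega)
      rw [e2]
    · have e : n - 1 - (i : ℕ) = n + 1 + (j : ℕ) := by simpa [g] using hij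
      omega
    · have e : n + 1 + (i : ℕ) = n - 1 - (j : ℕ) := by simpa [g] using hij
      omega
    · have e : n + 1 + (i : ℕ) = n + 1 + (j : ℕ) := by simpa [g] using hij
      have e2 : i = j := Fin.ext (by omega)
      rw [e2]
  have h2 := h1.precomp hg
  have h3 := curry (X := fun (i : Fin n) (b : Bool) ω =>
    W (ta T n t (g ⟨i, b⟩ + 1)) ω - W (ta T n t (g ⟨i, b⟩)) ω)
    (fun i b => (hm _).sub (hm _)) h2
  have h4 := h3.comp (fun _ (v : Bool → ℂ) => Complex.I * (-(v false) + v true))
    (fun _ => by fun_prop)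
  convert! h4 using 2 with i
  funext ω
  have hi := i.2
  have e1 : ta T n t (g ⟨i, false⟩ + 1) = pp T (t i.castSucc) := by
    have : g ⟨i, false⟩ = n - 1 - (i : ℕ) := by simp [g]
    rw [this]
    unfold ta
    rw [if_pos (by omega)]
    congr 2
    ext
    simp only [Fin.val_castSucc]
    omega
  have e2 : ta T n t (g ⟨i, false⟩) = pp T (t i.succ) := by
    have : g ⟨i, false⟩ = n - 1 - (i : ℕ) := by simp [g]
    rw [this]
    unfold ta
    rw [if_pos (by omega)]
    congr 2
    ext
    simp only [Fin.val_succ]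
    omega
  have e3 : ta T n t (g ⟨i, true⟩ + 1) = qq T (t i.succ) := by
    have : g ⟨i, true⟩ = n + 1 + (i : ℕ) := by simp [g]
    rw [this]
    unfold ta
    rw [if_neg (by omega)]
    congr 2
    ext
    simp only [Fin.val_succ]
    omega
  have e4 : ta T n t (g ⟨i, true⟩) = qq T (t i.castSucc) := by
    have : g ⟨i, true⟩ = n + 1 + (i : ℕ) := by simp [g]
    rw [this]
    unfold ta
    rw [if_neg (by omega)]
    congr 2
    ext
    simp only [Fin.val_castSucc]
    omega
  simp only [Function.comp_apply, e1, e2, e3, e4]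
  simp only [rvP, rvU, pp, qq]
  ring

theorem q_nonneg {a b c : ℝ} (ha : 0 ≤ a) (hb : 0 ≤ b) (hc : c ^ 2 ≤ a * b) (u v : ℝ) :
    0 ≤ a * v ^ 2 - 2 * c * u * v + b * u ^ 2 := by
  rcases ha.eq_or_lt with h | h
  · have hc0 : c = 0 := by
      have : c ^ 2 ≤ 0 := by rw [← h] at hc; simpa using hc
      exact pow_eq_zero_iff (two_ne_zero) |>.1 (le_antisymm this (sq_nonneg c))
    rw [← h, hc0]
    have := mul_nonneg hb (sq_nonneg u)
    nlinarith
  · have h1 : 0 ≤ a * (a * v ^ 2 - 2 * c * u * v + b * u ^ 2) := by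
      have h2 := mul_nonneg (sub_nonneg.2 hc) (sq_nonneg u)
      nlinarith [sq_nonneg (a * v - c * u)]
    exact nonneg_of_mul_nonneg_right (by linarith) h

/-- The laws of the real linear functionals of the increments of the reversed process. -/
theorem gauss [IsProbabilityMeasure μ] {a b c K : ℝ} {W : ℝ → Ω → ℂ} (hW : Gau a b c K W μ)
    {T : ℝ} (hT : 0 ≤ T) {s t : ℝ} (hs : 0 ≤ s) (hst : s ≤ t) (u v : ℝ) :
    HasLaw (fun ω => u * (rvP W T t ω - rvP W T s ω).re + v * (rvP W T t ω - rvP W T s ω).im)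
      (gaussianReal 0 (Real.toNNReal ((t - s) *
        (b * u ^ 2 + 2 * (-c) * u * v + a * v ^ 2)))) μ := by
  have hq := q_nonneg hW.a_nonneg hW.b_nonneg hW.c_sq u v
  have h0 : ∀ x : ℝ, x ≤ T → pp T x = T - max x 0 := fun x hx => by
    unfold pp
    rw [min_eq_left (max_le hx hT)]
  -- the general form of the increment
  have hD : ∀ ω, rvP W T t ω - rvP W T s ω =
      Complex.I * (-(W (pp T s) ω - W (pp T t) ω) + (W (qq T t) ω - W (qq T s) ω)) := fun ω => by
    simp only [rvP, rvU, pp, qq]
    ring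
  have hp1 : 0 ≤ pp T t := by
    unfold pp
    have := min_le_right (max t 0) T
    linarith
  have hp2 := pp_anti T hst
  have hq1 := qq_mono T hst
  have hpq : pp T s ≤ qq T s := (pp_le hT s).trans (le_qq T s)
  -- the two laws
  have l1 := hW.gauss (pp T t) (pp T s) hp1 hp2 (-(-v)) (-u)
  have l2 := hW.gauss (qq T s) (qq T t) (hT.trans (le_qq T s)) hq1 v (-u)
  have l1' : HasLaw (fun ω => v * (W (pp T s) ω - W (pp T t) ω).re +
      (-u) * (W (pp T s) ω - W (pp T t) ω).im) (gaussianReal 0 (Real.toNNReal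
        ((pp T s - pp T t) * (a * v ^ 2 + 2 * c * v * (-u) + b * (-u) ^ 2)))) μ := by
    simpa using l1
  have l1n := gaussianReal_const_mul l1' (-1)
  -- independence
  have hind : IndepFun (fun ω => (-1 : ℝ) * (v * (W (pp T s) ω - W (pp T t) ω).re +
      (-u) * (W (pp T s) ω - W (pp T t) ω).im))
      (fun ω => v * (W (qq T t) ω - W (qq T s) ω).re +
      (-u) * (W (qq T t) ω - W (qq T s) ω).im) μ := by
    let τ : ℕ → ℝ
      | 0 => pp T t
      | 1 => pp T s
      | 2 => qq T s
      | _ => qq T t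
    have hτ : Monotone τ := by
      refine monotone_nat_of_le_succ fun n => ?_
      match n with
      | 0 => exact hp2
      | 1 => exact hpq
      | 2 => exact hq1
      | n + 3 => exact le_rfl
    have h1 := (hW.indep.nat hτ).indepFun (show (0 : ℕ) ≠ 2 by norm_num)
    have h2 := h1.comp
      (φ := fun z : ℂ => (-1 : ℝ) * (v * z.re + (-u) * z.im))
      (ψ := fun z : ℂ => v * z.re + (-u) * z.im) (by fun_prop) (by fun_prop)
    exact h2
  have hsum := gaussianReal_add_gaussianReal_of_indepFun hind l1n.map_eq l2.map_eq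
  have hlen : (pp T s - pp T t) + (qq T t - qq T s) = t - s := by
    unfold pp qq
    rw [max_eq_left hs, max_eq_left (hs.trans hst)]
    rcases le_total t T with h | h
    · rw [min_eq_left h, min_eq_left (hst.trans h), max_eq_right h, max_eq_right (hst.trans h)]
      ring
    · rcases le_total s T with h' | h'
      · rw [min_eq_right h, min_eq_left h', max_eq_left h, max_eq_right h']
        ring
      · rw [min_eq_right h, min_eq_right h', max_eq_left h, max_eq_left h']
        ring
  refine ⟨?_, ?_⟩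
  · have hm : ∀ x, Measurable (W x) := hW.meas
    have : Measurable fun ω => u * (rvP W T t ω - rvP W T s ω).re +
        v * (rvP W T t ω - rvP W T s ω).im := by
      simp only [hD]
      fun_prop
    exact this.aemeasurable
  · have e : (fun ω => u * (rvP W T t ω - rvP W T s ω).re +
        v * (rvP W T t ω - rvP W T s ω).im) =
        (fun ω => (-1 : ℝ) * (v * (W (pp T s) ω - W (pp T t) ω).re +
          (-u) * (W (pp T s) ω - W (pp T t) ω).im)) +
        (fun ω => v * (W (qq T t) ω - W (qq T s) ω).re +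
          (-u) * (W (qq T t) ω - W (qq T s) ω).im) := by
      funext ω
      rw [hD ω]
      simp only [Pi.add_apply, Complex.mul_re, Complex.mul_im, Complex.I_re, Complex.I_im,
        Complex.add_re, Complex.add_im, Complex.neg_re, Complex.neg_im]
      ring
    rw [e, hsum]
    congr 1
    · simp
    · have hA : 0 ≤ (pp T s - pp T t) * (a * v ^ 2 + 2 * c * v * (-u) + b * (-u) ^ 2) :=
        mul_nonneg (by linarith) (by nlinarith)
      have hB : 0 ≤ (qq T t - qq T s) * (a * v ^ 2 + 2 * c * v * (-u) + b * (-u) ^ 2) :=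
        mul_nonneg (by linarith) (by nlinarith)
      have e1 : ∀ h, (NNReal.mk ((-1 : ℝ) ^ 2) h) = 1 := fun h => by
        ext
        norm_num
      rw [e1, one_mul, ← Real.toNNReal_add hA hB]
      congr 1
      rw [← add_mul, hlen]
      ring

end TCBWRG

/-- BWRG1. The sigma-algebras. The increments of `rvP W T` in `[s,t]` are `i` times increments
of `W` in `[T - t, T - s]` and conversely. -/
theorem rv_blk {W : ℝ → Ω → ℂ} {T s t : ℝ} (hs : 0 ≤ s) (hst : s ≤ t) (htT : t ≤ T) :
    Blk (rvP W T) s t = Blk W (T - t) (T - s) := by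
  refine le_antisymm (iSup_le fun ⟨r, hr⟩ => ?_) (iSup_le fun ⟨r, hr⟩ => ?_)
  · rw [← measurable_iff_comap_le]
    have e : (fun ω => rvP W T r ω - rvP W T s ω) = fun ω => Complex.I *
        ((W (T - r) ω - W (T - t) ω) - (W (T - s) ω - W (T - t) ω)) := by
      funext ω
      rw [TCBWRG.rvP_sub hs (hst.trans htT) (hs.trans hr.1) (hr.2.trans htT)]
      ring
    show Measurable[Blk W (T - t) (T - s)] (fun ω => rvP W T r ω - rvP W T s ω)
    rw [e]
    have hr1 := hr.1
    have hr2 := hr.2
    have m1 := DrvSubAux.meas_Blk (W := W) (s := T - t) (t := T - s) (u := T - r)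
      ⟨by linarith, by linarith⟩
    have m2 := DrvSubAux.meas_Blk (W := W) (s := T - t) (t := T - s) (u := T - s)
      ⟨by linarith, by linarith⟩
    exact (m1.sub m2).const_mul Complex.I
  · rw [← measurable_iff_comap_le]
    have hr1 : T - t ≤ r := hr.1
    have hr2 : r ≤ T - s := hr.2
    have e : (fun ω => W r ω - W (T - t) ω) = fun ω => (-Complex.I) *
        ((rvP W T (T - r) ω - rvP W T s ω) - (rvP W T t ω - rvP W T s ω)) := by
      funext ω
      rw [TCBWRG.rvP_sub hs (hst.trans htT) (by linarith) (by linarith),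
        TCBWRG.rvP_sub hs (hst.trans htT) (hs.trans hst) htT]
      have : T - (T - r) = r := by ring
      rw [this]
      linear_combination (W r ω - W (T - t) ω) * Complex.I_mul_I
    show Measurable[Blk (rvP W T) s t] (fun ω => W r ω - W (T - t) ω)
    rw [e]
    have m1 := DrvSubAux.meas_Blk (W := rvP W T) (s := s) (t := t) (u := T - r)
      ⟨by linarith, by linarith⟩
    have m2 := DrvSubAux.meas_Blk (W := rvP W T) (s := s) (t := t) (u := t) ⟨hst, le_rfl⟩
    exact (m1.sub m2).const_mul (-Complex.I)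

/-- BWRG2. The law of an increment depends only on the length of the interval and on
`a, b, c`. Proof: `Gau.gauss` gives the laws of all real linear functionals, so the
characteristic functions (`charFun` on the real inner product space `ℂ`) of the two laws are
equal, and `Measure.ext_of_charFun` applies. -/
theorem gau_incr_law [IsProbabilityMeasure μ] {a b c K K' : ℝ} {W W' : ℝ → Ω → ℂ}
    (hW : Gau a b c K W μ) (hW' : Gau a b c K' W' μ) {s t s' t' : ℝ} (hs : 0 ≤ s) (hst : s ≤ t)
    (hs' : 0 ≤ s') (hst' : s' ≤ t') (heq : t - s = t' - s') :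
    μ.map (fun ω => W t ω - W s ω) = μ.map (fun ω => W' t' ω - W' s' ω) := by
  refine TCBWRG.law_ext ((hW.meas _).sub (hW.meas _)) ((hW'.meas _).sub (hW'.meas _))
    fun u v => ?_
  have h1 := (hW.gauss s t hs hst u v).map_eq
  have h2 := (hW'.gauss s' t' hs' hst' u v).map_eq
  rw [← heq] at h2
  exact h1.trans h2.symm

/-- BWRG3. The law of the sequence of the increments over the mesh `h`. Proof: independence of
the increments (`HasIndepIncrements`) gives `iIndepFun` of the sequence, so its law is the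
product (`iIndepFun_iff_map_fun_eq_infinitePi_map`) of the laws in `gau_incr_law`. -/
theorem gau_seq_law [IsProbabilityMeasure μ] {a b c K K' : ℝ} {W W' : ℝ → Ω → ℂ}
    (hW : Gau a b c K W μ) (hW' : Gau a b c K' W' μ) {h : ℝ} (hh : 0 < h) :
    μ.map (fun ω (j : ℕ) => W ((j + 1 : ℕ) * h) ω - W ((j : ℕ) * h) ω) =
      μ.map (fun ω (j : ℕ) => W' ((j + 1 : ℕ) * h) ω - W' ((j : ℕ) * h) ω) := by
  have ht : Monotone fun j : ℕ => (j : ℝ) * h := fun i j hij => by
    have : (i : ℝ) ≤ j := by exact_mod_cast hij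
    exact mul_le_mul_of_nonneg_right this hh.le
  have key : ∀ {K : ℝ} {W : ℝ → Ω → ℂ}, Gau a b c K W μ →
      μ.map (fun ω (j : ℕ) => W ((j + 1 : ℕ) * h) ω - W ((j : ℕ) * h) ω) =
        Measure.infinitePi fun j : ℕ =>
          μ.map (fun ω => W ((j + 1 : ℕ) * h) ω - W ((j : ℕ) * h) ω) := by
    intro K W hW
    have h1 := hW.indep.nat ht
    exact h1.map_fun_eq_infinitePi_map fun j => (hW.meas _).sub (hW.meas _)
  rw [key hW, key hW']
  congr 1
  funext j
  have h1 : (0 : ℝ) ≤ (j : ℝ) * h := by positivity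
  have h2 : (j : ℝ) * h ≤ ((j + 1 : ℕ) : ℝ) * h := ht (Nat.le_succ j)
  exact gau_incr_law hW hW' h1 h2 h1 h2 rfl

/-- BWRG4. The law of the trajectory of the Euler scheme does not depend on the process: the
trajectory is a measurable function of the sequence of the increments. -/
theorem traj_law [IsProbabilityMeasure μ] {a b c K K' : ℝ} {W W' : ℝ → Ω → ℂ}
    (hW : Gau a b c K W μ) (hW' : Gau a b c K' W' μ) {h : ℝ} (hh : 0 < h) (z₀ : ℂ)
    {Φ : (ℕ → ℂ) → ℝ≥0∞} (hΦ : Measurable Φ) :
    ∫⁻ ω, Φ (fun j => DiscAux.Z W z₀ h j ω) ∂μ = ∫⁻ ω, Φ (fun j => DiscAux.Z W' z₀ h j ω) ∂μ := by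
  have key : ∀ {K : ℝ} {W : ℝ → Ω → ℂ}, Gau a b c K W μ →
      ∫⁻ ω, Φ (fun j => DiscAux.Z W z₀ h j ω) ∂μ =
        ∫⁻ x, Φ (TCBWRG.EE z₀ h x)
          ∂(μ.map (fun ω (j : ℕ) => W ((j + 1 : ℕ) * h) ω - W ((j : ℕ) * h) ω)) := by
    intro K W hW
    have hm : Measurable fun ω (j : ℕ) => W ((j + 1 : ℕ) * h) ω - W ((j : ℕ) * h) ω :=
      measurable_pi_lambda _ fun j => (hW.meas _).sub (hW.meas _)
    have e0 := lintegral_map (μ := μ) (hΦ.comp (TCBWRG.EE_meas z₀ h)) hm
    refine Eq.trans ?_ e0.symm
    refine lintegral_congr fun ω => ?_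
    have e : (fun j => DiscAux.Z W z₀ h j ω) =
        TCBWRG.EE z₀ h (fun j : ℕ => W ((j + 1 : ℕ) * h) ω - W ((j : ℕ) * h) ω) :=
      funext fun j => TCBWRG.Z_eq W z₀ h ω j
    rw [e]
    rfl
  rw [key hW, key hW', gau_seq_law hW hW' hh]

/-- BWRG5. The law of the reversed process. The increment of `rvP W T` over `[s,t]` is
`- i (W (T-s) - W (T-t))` if `t ≤ T`, `i (W t - W s)` if `T ≤ s`, and the sum of two independent
such terms if `s ≤ T ≤ t`; real and imaginary part of `i w` are `- w.im` and `w.re`.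
Independence of the increments: for `0 = t_0 ≤ t_1 ≤ ... ≤ t_n` the increments of `rvP W T` are
functions of disjoint groups of the increments of `W` over the ordered partition formed by the
points `T - t_i` (`t_i ≤ T`) and `t_i` (`t_i ≥ T`) (one may insert `T` in the partition); see how
`HasIndepIncrements` is used in Markov.lean and DrvSub.lean. The second and fourth moments of an
increment depend only on its law (`gau_incr_law`; for the increment over `s ≤ T ≤ t`: it has the
law of `i (W (t-s) - W 0)`, because its linear functionals are Gaussian with the right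
variance). -/
theorem rv_gau [IsProbabilityMeasure μ] {a b c K : ℝ} {W : ℝ → Ω → ℂ} (hW : Gau a b c K W μ)
    {T : ℝ} (hT : 0 ≤ T) : Gau b a (-c) K (rvP W T) μ := by
  have hmW := hW.meas
  have hm : ∀ t, Measurable (rvP W T t) := fun t => by
    unfold rvP rvU
    fun_prop
  have hlaw : ∀ s t, 0 ≤ s → s ≤ t → μ.map (fun ω => rvP W T t ω - rvP W T s ω) =
      μ.map (fun ω => Complex.I * (W (t - s) ω - W 0 ω)) := by
    intro s t hs hst
    refine TCBWRG.law_ext ((hm t).sub (hm s)) (by fun_prop) fun u v => ?_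
    have h1 := (TCBWRG.gauss hW hT hs hst u v).map_eq
    have h2 := (hW.gauss 0 (t - s) le_rfl (by linarith) v (-u)).map_eq
    have e : (fun ω => u * (Complex.I * (W (t - s) ω - W 0 ω)).re +
        v * (Complex.I * (W (t - s) ω - W 0 ω)).im) =
        fun ω => v * (W (t - s) ω - W 0 ω).re + (-u) * (W (t - s) ω - W 0 ω).im := by
      funext ω
      simp only [Complex.mul_re, Complex.mul_im, Complex.I_re, Complex.I_im]
      ring
    rw [e, h1, h2]
    congr 2
    ring
  have hint : ∀ s t, 0 ≤ s → s ≤ t → ∀ F : ℂ → ℝ, Continuous F →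
      ∫ ω, F (rvP W T t ω - rvP W T s ω) ∂μ =
        ∫ ω, F (Complex.I * (W (t - s) ω - W 0 ω)) ∂μ := by
    intro s t hs hst F hF
    have m1 : Measurable fun ω => rvP W T t ω - rvP W T s ω := (hm t).sub (hm s)
    have m2 : Measurable fun ω => Complex.I * (W (t - s) ω - W 0 ω) := by fun_prop
    have e1 := integral_map (μ := μ) m1.aemeasurable
      (hF.aestronglyMeasurable (μ := μ.map fun ω => rvP W T t ω - rvP W T s ω))
    have e2 := integral_map (μ := μ) m2.aemeasurable
      (hF.aestronglyMeasurable (μ := μ.map fun ω => Complex.I * (W (t - s) ω - W 0 ω)))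
    rw [← e1, ← e2, hlaw s t hs hst]
  have hd : ∀ s t : ℝ, t - s - 0 = t - s := fun s t => by ring
  refine
    { a_nonneg := hW.b_nonneg
      b_nonneg := hW.a_nonneg
      c_sq := ?_
      K_nonneg := hW.K_nonneg
      meas := hm
      zero := ?_
      cont := fun ω => rv_cont (hW.cont ω)
      indep := TCBWRG.indep hW.meas hW.indep hT
      int4 := ?_
      m1x := ?_
      m1y := ?_
      m2x := ?_
      m2y := ?_
      m2c := ?_
      m4 := ?_
      gauss := fun s t hs hst u v => TCBWRG.gauss hW hT hs hst u v }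
  · have := hW.c_sq
    nlinarith
  · intro t ht ω
    simp only [rvP, rvU]
    rw [max_eq_right ht, min_eq_left hT, max_eq_right (ht.trans hT)]
    simp
  · intro s t hs hst
    have h4 := hW.int4 0 (t - s) le_rfl (by linarith)
    have m1 : Measurable fun ω => rvP W T t ω - rvP W T s ω := (hm t).sub (hm s)
    have m2 : Measurable fun ω => Complex.I * (W (t - s) ω - W 0 ω) := by fun_prop
    have hF : Continuous fun z : ℂ => ‖z‖ ^ 4 := by fun_prop
    have e1 := integrable_map_measure (μ := μ)
      (hF.aestronglyMeasurable (μ := μ.map fun ω => rvP W T t ω - rvP W T s ω)) m1.aemeasurable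
    have e2 := integrable_map_measure (μ := μ)
      (hF.aestronglyMeasurable (μ := μ.map fun ω => Complex.I * (W (t - s) ω - W 0 ω)))
      m2.aemeasurable
    rw [hlaw s t hs hst] at e1
    have h5 : Integrable ((fun z : ℂ => ‖z‖ ^ 4) ∘
        fun ω => Complex.I * (W (t - s) ω - W 0 ω)) μ := by
      refine h4.congr (Eventually.of_forall fun ω => ?_)
      simp
    exact e1.1 (e2.2 h5)
  · intro s t hs hst
    rw [hint s t hs hst (fun z => z.re) (by fun_prop)]
    have h := hW.m1y 0 (t - s) le_rfl (by linarith)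
    simp only [Complex.mul_re, Complex.I_re, Complex.I_im, zero_mul, one_mul, zero_sub]
    rw [integral_neg, h, neg_zero]
  · intro s t hs hst
    rw [hint s t hs hst (fun z => z.im) (by fun_prop)]
    have h := hW.m1x 0 (t - s) le_rfl (by linarith)
    simpa [Complex.mul_im] using h
  · intro s t hs hst
    rw [hint s t hs hst (fun z => z.re ^ 2) (by fun_prop)]
    have h := hW.m2y 0 (t - s) le_rfl (by linarith)
    rw [hd] at h
    rw [← h]
    refine integral_congr_ae (Eventually.of_forall fun ω => ?_)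
    simp only [Complex.mul_re, Complex.I_re, Complex.I_im]
    ring
  · intro s t hs hst
    rw [hint s t hs hst (fun z => z.im ^ 2) (by fun_prop)]
    have h := hW.m2x 0 (t - s) le_rfl (by linarith)
    rw [hd] at h
    rw [← h]
    refine integral_congr_ae (Eventually.of_forall fun ω => ?_)
    simp only [Complex.mul_im, Complex.I_re, Complex.I_im]
    ring
  · intro s t hs hst
    rw [hint s t hs hst (fun z => z.re * z.im) (by fun_prop)]
    have h := hW.m2c 0 (t - s) le_rfl (by linarith)
    rw [hd] at h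
    rw [neg_mul, ← h, ← integral_neg]
    refine integral_congr_ae (Eventually.of_forall fun ω => ?_)
    simp only [Complex.mul_im, Complex.mul_re, Complex.I_re, Complex.I_im]
    ring
  · intro s t hs hst
    rw [hint s t hs hst (fun z => ‖z‖ ^ 4) (by fun_prop)]
    have h := hW.m4 0 (t - s) le_rfl (by linarith)
    rw [hd] at h
    refine le_trans (le_of_eq ?_) h
    refine integral_congr_ae (Eventually.of_forall fun ω => ?_)
    simp

end

end Pool.Agent.SLE
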