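import Pool.Agent.Lib.MP_c17912_pr_TC.BWRB
import Pool.Agent.Lib.MP_c17912_pr_TC.BWRG
import Pool.Agent.Lib.MP_c17912_pr.Euler

/-!
# MP_c17912_pr, project TC, backward critical case: the functional of one particle
-/

set_option autoImplicit false

open MeasureTheory ProbabilityTheory Filter
open scoped NNReal ENNReal Topology Real

namespace Pool.Agent.SLE

noncomputable section

variable {Ω : Type*} [MeasurableSpace Ω] {μ : Measure Ω}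

namespace TCBWRC

/-- Superadditivity of the lower limit. -/
theorem add_liminf (a b : ℕ → ℝ≥0∞) :
    liminf a atTop + liminf b atTop ≤ liminf (fun l => a l + b l) atTop := by
  rw [liminf_eq_iSup_iInf_of_nat, liminf_eq_iSup_iInf_of_nat, liminf_eq_iSup_iInf_of_nat,
    ENNReal.iSup_add_iSup_of_monotone]
  · exact iSup_mono fun n => le_iInf₂ fun i hi => add_le_add (iInf₂_le i hi) (iInf₂_le i hi)
  · intro m n hmn
    exact le_iInf₂ fun i hi => iInf₂_le i (le_trans hmn hi)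
  · intro m n hmn
    exact le_iInf₂ fun i hi => iInf₂_le i (le_trans hmn hi)

/-- Superadditivity of the lower limit. -/
theorem sum_liminf (N : ℕ) (u : ℕ → ℕ → ℝ≥0∞) :
    ∑ t ∈ Finset.range N, liminf (fun l => u t l) atTop ≤
      liminf (fun l => ∑ t ∈ Finset.range N, u t l) atTop := by
  induction N with
  | zero => simp
  | succ N ih =>
    rw [Finset.sum_range_succ]
    refine (add_le_add ih le_rfl).trans ?_
    refine (add_liminf _ _).trans (le_of_eq ?_)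
    congr 1
    funext l
    rw [Finset.sum_range_succ]

/-- The blocks of length `M` add up. -/
theorem sum_blocks (a : ℕ → ℝ≥0∞) (M N : ℕ) :
    ∑ t ∈ Finset.range N, ∑ j ∈ Finset.Ico (t * M) ((t + 1) * M), a j =
      ∑ j ∈ Finset.range (N * M), a j := by
  induction N with
  | zero => simp
  | succ N ih =>
    rw [Finset.sum_range_succ, ih, Finset.range_eq_Ico, Finset.range_eq_Ico]
    exact Finset.sum_Ico_consecutive a (Nat.zero_le _) (Nat.mul_le_mul_right M (Nat.le_succ N))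

/-- The potential is measurable. -/
theorem kk_meas (lam c₀ : ℝ) : Measurable (kk lam c₀) := by
  unfold kk
  have h1 : Measurable fun z : ℂ => (1 / z ^ 2).re :=
    Complex.measurable_re.comp (measurable_const.div (measurable_id.pow_const 2))
  have h2 : Measurable fun z : ℂ => c₀ / ‖z‖ ^ 2 :=
    measurable_const.div (measurable_norm.pow_const 2)
  exact (h1.const_mul _).add h2

/-- The potential is continuous away from the origin. -/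
theorem kk_cont (lam c₀ : ℝ) : ContinuousOn (kk lam c₀) {0}ᶜ := by
  unfold kk
  have hne : ∀ z ∈ ({0}ᶜ : Set ℂ), z ^ 2 ≠ 0 := fun z hz => pow_ne_zero 2 hz
  have hne' : ∀ z ∈ ({0}ᶜ : Set ℂ), ‖z‖ ^ 2 ≠ 0 := fun z hz => pow_ne_zero 2 (norm_ne_zero_iff.2 hz)
  have h1 : ContinuousOn (fun z : ℂ => (1 / z ^ 2).re) {0}ᶜ :=
    Complex.continuous_re.comp_continuousOn
      (continuousOn_const.div (continuous_id.pow 2).continuousOn hne)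
  have h2 : ContinuousOn (fun z : ℂ => c₀ / ‖z‖ ^ 2) {0}ᶜ :=
    continuousOn_const.div (continuous_norm.pow 2).continuousOn hne'
  exact (continuousOn_const.mul h1).add h2

/-! ### The trajectory space -/

/-- The exponent along a trajectory. -/
def AX (h : ℝ) (k : ℂ → ℝ) (x : ℕ → ℂ) (j : ℕ) : ℝ := ∑ i ∈ Finset.range j, h * k (x i)

/-- The functional along a trajectory. -/
def PX (h ε : ℝ) (x : ℕ → ℂ) (j : ℕ) : ℝ := AX h (kk 1 ε) x j - Real.log ‖x j‖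

/-- In the annulus. -/
def AnX (δ R : ℝ) (j : ℕ) : Set (ℕ → ℂ) := {x | ∀ i ≤ j, δ ≤ ‖x i‖ ∧ ‖x i‖ ≤ R}

/-- Reference time passed, large there, flag and rise. -/
def DnX (h ε θ ρ R₀ : ℝ) (j₀ j : ℕ) : Set (ℕ → ℂ) :=
  {x | j₀ ≤ j ∧ R₀ ≤ ‖x j₀‖ ∧ (∃ i ≤ j, 1 / 2 ≤ ‖x i‖ ∧ θ ≤ PX h ε x i) ∧
    ∃ i, j₀ ≤ i ∧ i ≤ j ∧ PX h ε x j₀ + ρ ≤ PX h ε x i}

/-- The set of the first term. -/
def FX (δ R ε θ ρ R₀ : ℝ) (N₀ n t : ℕ) : Set (ℕ → ℂ) :=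
  (AnX δ R (t * 2 ^ n) ∩ DnX ((1 / 2) ^ n) ε θ ρ R₀ (N₀ * 2 ^ n) (t * 2 ^ n)) \
    DnX ((1 / 2) ^ n) ε θ ρ R₀ (N₀ * 2 ^ n) ((t - 1) * 2 ^ n)

/-- The sets of the second term. -/
def GX (δ R ε θ ρ R₀ e : ℝ) (N₀ n j : ℕ) : Set (ℕ → ℂ) :=
  AnX δ R j ∩ DnX ((1 / 2) ^ n) ε θ ρ R₀ (N₀ * 2 ^ n) j ∩ {x | ‖x j‖ ≤ e}

/-- The discrete functional. -/
def YX (δ R ε θ ρ R₀ e : ℝ) (N₀ n t : ℕ) (x : ℕ → ℂ) : ℝ≥0∞ :=
  (FX δ R ε θ ρ R₀ N₀ n t).indicator 1 x +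
    ∑ j ∈ Finset.Ico ((t - 1) * 2 ^ n) (t * 2 ^ n), ENNReal.ofReal ((1 / 2) ^ n) *
      (GX δ R ε θ ρ R₀ e N₀ n j).indicator 1 x

theorem nX_meas (j : ℕ) : Measurable fun x : ℕ → ℂ => ‖x j‖ :=
  measurable_norm.comp (measurable_pi_apply j)

theorem PX_meas (h ε : ℝ) (j : ℕ) : Measurable fun x : ℕ → ℂ => PX h ε x j := by
  unfold PX AX
  refine Measurable.sub ?_ ?_
  · exact Finset.measurable_sum _ fun i _ =>
      ((kk_meas 1 ε).comp (measurable_pi_apply i)).const_mul h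
  · exact Real.measurable_log.comp (nX_meas j)

theorem AnX_meas (δ R : ℝ) (j : ℕ) : MeasurableSet (AnX δ R j) := by
  have e : AnX δ R j = ⋂ i ∈ Finset.range (j + 1),
      (fun x : ℕ → ℂ => ‖x i‖) ⁻¹' Set.Icc δ R := by
    ext x
    simp only [AnX, Set.mem_setOf_eq, Set.mem_iInter, Finset.mem_range, Nat.lt_succ_iff,
      Set.mem_preimage, Set.mem_Icc]
  rw [e]
  exact MeasurableSet.biInter (Finset.countable_toSet _) fun i _ => nX_meas i measurableSet_Icc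

theorem DnX_meas (h ε θ ρ R₀ : ℝ) (j₀ j : ℕ) : MeasurableSet (DnX h ε θ ρ R₀ j₀ j) := by
  have hP := PX_meas h ε
  have e : DnX h ε θ ρ R₀ j₀ j = {_x : ℕ → ℂ | j₀ ≤ j} ∩ ({x | R₀ ≤ ‖x j₀‖} ∩
      ((⋃ i ∈ Finset.range (j + 1), ({x : ℕ → ℂ | 1 / 2 ≤ ‖x i‖} ∩
        {x : ℕ → ℂ | θ ≤ PX h ε x i})) ∩
      ⋃ i ∈ Finset.Icc j₀ j, {x : ℕ → ℂ | PX h ε x j₀ + ρ ≤ PX h ε x i})) := by
    ext x
    simp only [DnX, Set.mem_setOf_eq, Set.mem_inter_iff, Set.mem_iUnion, Finset.mem_range,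
      Finset.mem_Icc, Nat.lt_succ_iff, exists_prop, and_assoc]
  rw [e]
  refine (MeasurableSet.const _).inter ((measurableSet_le measurable_const (nX_meas j₀)).inter
    (MeasurableSet.inter ?_ ?_))
  · exact MeasurableSet.biUnion (Finset.countable_toSet _) fun i _ =>
      (measurableSet_le measurable_const (nX_meas i)).inter
        (measurableSet_le measurable_const (hP i))
  · exact MeasurableSet.biUnion (Finset.countable_toSet _) fun i _ =>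
      measurableSet_le ((hP j₀).add_const ρ) (hP i)

theorem AnX_anti {δ R : ℝ} {i j : ℕ} (hij : i ≤ j) : AnX δ R j ⊆ AnX δ R i :=
  fun _ hx k hk => hx k (hk.trans hij)

theorem DnX_mono {h ε θ ρ R₀ : ℝ} {j₀ i j : ℕ} (hij : i ≤ j) :
    DnX h ε θ ρ R₀ j₀ i ⊆ DnX h ε θ ρ R₀ j₀ j := by
  rintro x ⟨h1, h2, ⟨k, hk, h3⟩, l, hl1, hl2, h4⟩
  exact ⟨h1.trans hij, h2, ⟨k, hk.trans hij, h3⟩, l, hl1, hl2.trans hij, h4⟩

theorem FX_meas (δ R ε θ ρ R₀ : ℝ) (N₀ n t : ℕ) : MeasurableSet (FX δ R ε θ ρ R₀ N₀ n t) :=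
  ((AnX_meas _ _ _).inter (DnX_meas _ _ _ _ _ _ _)).diff (DnX_meas _ _ _ _ _ _ _)

theorem GX_meas (δ R ε θ ρ R₀ e : ℝ) (N₀ n j : ℕ) :
    MeasurableSet (GX δ R ε θ ρ R₀ e N₀ n j) :=
  ((AnX_meas _ _ _).inter (DnX_meas _ _ _ _ _ _ _)).inter
    (measurableSet_le (nX_meas j) measurable_const)

theorem YX_meas (δ R ε θ ρ R₀ e : ℝ) (N₀ n t : ℕ) :
    Measurable (YX δ R ε θ ρ R₀ e N₀ n t) := by
  unfold YX
  exact (measurable_one.indicator (FX_meas _ _ _ _ _ _ _ _ _)).add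
    (Finset.measurable_sum _ fun j _ =>
      (measurable_one.indicator (GX_meas _ _ _ _ _ _ _ _ _ _)).const_mul _)

/-- The expectation of one term. -/
theorem YX_int_one {T : Ω → ℕ → ℂ} (hT : Measurable T) (δ R ε θ ρ R₀ e : ℝ) (N₀ n t : ℕ) :
    ∫⁻ ω, YX δ R ε θ ρ R₀ e N₀ n t (T ω) ∂μ =
      μ (T ⁻¹' FX δ R ε θ ρ R₀ N₀ n t) +
        ∑ j ∈ Finset.Ico ((t - 1) * 2 ^ n) (t * 2 ^ n), ENNReal.ofReal ((1 / 2) ^ n) *
          μ (T ⁻¹' GX δ R ε θ ρ R₀ e N₀ n j) := by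
  have hi : ∀ s : Set (ℕ → ℂ), MeasurableSet s →
      Measurable fun ω => s.indicator (1 : (ℕ → ℂ) → ℝ≥0∞) (T ω) := fun s hs =>
    (measurable_one.indicator hs).comp hT
  have hl : ∀ s : Set (ℕ → ℂ), MeasurableSet s →
      ∫⁻ ω, s.indicator (1 : (ℕ → ℂ) → ℝ≥0∞) (T ω) ∂μ = μ (T ⁻¹' s) := fun s hs => by
    rw [← lintegral_indicator_one (hT hs)]
    rfl
  unfold YX
  rw [lintegral_add_left (hi _ (FX_meas _ _ _ _ _ _ _ _ _)), hl _ (FX_meas _ _ _ _ _ _ _ _ _),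
    lintegral_finsetSum _ (fun j _ => (hi _ (GX_meas _ _ _ _ _ _ _ _ _ _)).const_mul _)]
  congr 1
  refine Finset.sum_congr rfl fun j _ => ?_
  rw [lintegral_const_mul _ (hi _ (GX_meas _ _ _ _ _ _ _ _ _ _)),
    hl _ (GX_meas _ _ _ _ _ _ _ _ _ _)]

/-- The expectation of the sum. -/
theorem YX_int {T : Ω → ℕ → ℂ} (hT : Measurable T) (δ R ε θ ρ R₀ e : ℝ) (N₀ n N : ℕ) :
    ∑ t ∈ Finset.range N, ∫⁻ ω, YX δ R ε θ ρ R₀ e N₀ n (t + 1) (T ω) ∂μ ≤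
      μ {ω | ∃ j ≤ N * 2 ^ n,
          T ω ∈ AnX δ R j ∩ DnX ((1 / 2) ^ n) ε θ ρ R₀ (N₀ * 2 ^ n) j} +
        ∑ j ∈ Finset.range (N * 2 ^ n), ENNReal.ofReal ((1 / 2) ^ n) *
          μ (T ⁻¹' GX δ R ε θ ρ R₀ e N₀ n j) := by
  simp_rw [YX_int_one hT]
  rw [Finset.sum_add_distrib]
  refine add_le_add ?_ (le_of_eq ?_)
  · rw [← measure_biUnion_finset]
    · refine measure_mono ?_
      intro ω hω
      simp only [Set.mem_iUnion, Finset.mem_range, Set.mem_preimage] at hω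
      obtain ⟨t, ht, hω⟩ := hω
      exact ⟨(t + 1) * 2 ^ n, Nat.mul_le_mul_right _ ht, hω.1⟩
    · have key : ∀ s t : ℕ, s < t → Disjoint (T ⁻¹' FX δ R ε θ ρ R₀ N₀ n (s + 1))
          (T ⁻¹' FX δ R ε θ ρ R₀ N₀ n (t + 1)) := by
        intro s t hst
        rw [Set.disjoint_left]
        intro ω h1 h2
        refine h2.2 (DnX_mono ?_ h1.1.2)
        exact Nat.mul_le_mul_right _ (by omega)
      intro s _ t _ hst
      rcases lt_or_gt_of_ne hst with h | h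
      · exact key s t h
      · exact (key t s h).symm
    · intro t _
      exact hT (FX_meas _ _ _ _ _ _ _ _ _)
  · exact sum_blocks (fun j => ENNReal.ofReal ((1 / 2) ^ n) *
      μ (T ⁻¹' GX δ R ε θ ρ R₀ e N₀ n j)) (2 ^ n) N

/-! ### The convergence of the scheme -/

theorem minZ {U : ℝ → ℂ} (hU : Continuous U) {z : ℂ} {g : ℝ → ℂ} {t : ℝ} (ht : 0 ≤ t)
    (hs : Sol U z t g) : ∃ c > 0, ∀ s ∈ Set.Icc (0 : ℝ) t, c ≤ ‖g s - U s‖ := by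
  have hZc := EulerAux.contZ hU hs
  obtain ⟨s₀, hs₀, hmin⟩ := isCompact_Icc.exists_isMinOn
    (⟨0, le_rfl, ht⟩ : (Set.Icc (0 : ℝ) t).Nonempty) hZc.norm
  exact ⟨‖g s₀ - U s₀‖, norm_pos_iff.2 (sub_ne_zero.2 (hs.2.1 s₀ hs₀)), fun s hs' => hmin hs'⟩

theorem maxZ {U : ℝ → ℂ} (hU : Continuous U) {z : ℂ} {g : ℝ → ℂ} {t x y R : ℝ}
    (hs : Sol U z t g) (hx : 0 ≤ x) (hxy : x ≤ y) (hy : y ≤ t)
    (hR : ∀ s ∈ Set.Icc x y, ‖g s - U s‖ < R) :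
    ∃ C < R, ∀ s ∈ Set.Icc x y, ‖g s - U s‖ ≤ C := by
  have hZc := (EulerAux.contZ hU hs).mono (Set.Icc_subset_Icc hx hy)
  obtain ⟨s₁, hs₁, hmax⟩ := isCompact_Icc.exists_isMaxOn
    (⟨x, le_rfl, hxy⟩ : (Set.Icc x y).Nonempty) hZc.norm
  exact ⟨‖g s₁ - U s₁‖, hR s₁ hs₁, fun s hs' => hmax hs'⟩

/-- Convergence of the scheme at a time. -/
theorem eul_lim {U : ℝ → ℂ} (hU : Continuous U) (h0 : U 0 = 0) {z : ℂ} {g : ℝ → ℂ} {t v : ℝ}
    (hs' : Sol U z t g) (hv : v ∈ Set.Icc 0 t) :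
    Tendsto (fun n : ℕ => eul U z ((1 / 2) ^ n) (EulerAux.jn v n)) atTop
      (𝓝 (g v - U v)) := by
  have hs : Sol U z v g := hs'.restrict hv.2
  have hZc := EulerAux.contZ hU hs
  obtain ⟨c, hc0, hc⟩ := minZ hU hv.1 hs
  rw [Metric.tendsto_nhds]
  intro ε hε
  have huz := isCompact_Icc.uniformContinuousOn_of_continuous hZc
  rw [Metric.uniformContinuousOn_iff] at huz
  obtain ⟨ρ, hρ, hρ'⟩ := huz (ε / 2) (half_pos hε)
  filter_upwards [EulerAux.eul_close hU h0 hv.1 (δ := c / 2) (by positivity) hs hc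
    (by linarith) (η := ε / 3) (by positivity),
    (tendsto_order.1 EulerAux.tendsto_h).2 ρ hρ] with n h1 h2
  have h3 := h1 (EulerAux.jn v n) le_rfl
  have h4 : (EulerAux.jn v n : ℝ) * (1 / 2) ^ n ∈ Set.Icc 0 v :=
    ⟨by positivity, EulerAux.jn_le hv.1 n⟩
  have h5 : dist ((EulerAux.jn v n : ℝ) * (1 / 2) ^ n) v < ρ := by
    rw [Real.dist_eq, abs_sub_comm, abs_of_nonneg (sub_nonneg.2 h4.2)]
    exact (EulerAux.lt_jn n).trans h2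
  have h6 := hρ' _ h4 _ (Set.right_mem_Icc.2 hv.1) h5
  rw [dist_eq_norm] at h6 ⊢
  have h7 := norm_add_le (eul U z ((1 / 2) ^ n) (EulerAux.jn v n)
      - (g ((EulerAux.jn v n : ℝ) * (1 / 2) ^ n) - U ((EulerAux.jn v n : ℝ) * (1 / 2) ^ n)))
    ((g ((EulerAux.jn v n : ℝ) * (1 / 2) ^ n) - U ((EulerAux.jn v n : ℝ) * (1 / 2) ^ n)) -
      (g v - U v))
  rw [sub_add_sub_cancel] at h7
  linarith

/-- Convergence of the functional at a time. -/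
theorem PX_lim {U : ℝ → ℂ} (hU : Continuous U) (h0 : U 0 = 0) {z : ℂ} {g : ℝ → ℂ} {t v : ℝ}
    (ε : ℝ) (hs' : Sol U z t g) (hv : v ∈ Set.Icc 0 t) :
    Tendsto (fun n : ℕ => PX ((1 / 2) ^ n) ε (fun j => eul U z ((1 / 2) ^ n) j)
      (EulerAux.jn v n)) atTop (𝓝 (ph U g ε v)) := by
  have hs : Sol U z v g := hs'.restrict hv.2
  obtain ⟨c, hc0, hc⟩ := minZ hU hv.1 hs
  have hZc := EulerAux.contZ hU hs
  obtain ⟨s₁, hs₁, hmax⟩ := isCompact_Icc.exists_isMaxOn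
    (⟨0, le_rfl, hv.1⟩ : (Set.Icc 0 v).Nonempty) hZc.norm
  have hC : ∀ s ∈ Set.Icc (0 : ℝ) v, ‖g s - U s‖ ≤ ‖g s₁ - U s₁‖ := fun s hs'' => hmax hs''
  have hS : Tendsto (fun n : ℕ => ∑ i ∈ Finset.range (EulerAux.jn v n),
      ((1 : ℝ) / 2) ^ n * kk 1 ε (eul U z ((1 / 2) ^ n) i)) atTop
      (𝓝 (∫ s in (0 : ℝ)..v, kk 1 ε (g s - U s))) := by
    rw [Metric.tendsto_nhds]
    intro ε' hε'
    filter_upwards [EulerAux.sum_close hU h0 (kk_cont 1 ε) hv.1 (δ := c / 2)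
      (R := ‖g s₁ - U s₁‖ + 1) (by positivity) hs hc (by linarith) hC (by linarith)
      (half_pos hε')] with n hn
    rw [Real.dist_eq]
    linarith
  have hvpos : 0 < ‖g v - U v‖ := lt_of_lt_of_le hc0 (hc v (Set.right_mem_Icc.2 hv.1))
  have hL := (Real.continuousAt_log hvpos.ne').tendsto.comp (eul_lim hU h0 hs' hv).norm
  exact hS.sub hL

theorem jn_mono {v w : ℝ} (h : v ≤ w) (n : ℕ) : EulerAux.jn v n ≤ EulerAux.jn w n :=
  Nat.floor_le_floor (mul_le_mul_of_nonneg_right h (by positivity))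

theorem jn_nat (t n : ℕ) : EulerAux.jn (t : ℝ) n = t * 2 ^ n := by
  rw [EulerAux.jn]
  have h4 : (t : ℝ) * 2 ^ n = ((t * 2 ^ n : ℕ) : ℝ) := by push_cast; ring
  rw [h4, Nat.floor_natCast]

/-- The lower bound of the discrete functional. -/
theorem low_bound {U : ℝ → ℂ} (hU : Continuous U) (h0 : U 0 = 0) {z₀ : ℂ}
    {ε θ ρ R₀ e R : ℝ} {N₀ t : ℕ} {g : ℝ → ℂ} (ht : N₀ + 1 ≤ t) (hs : Sol U z₀ t g)
    (hR : ∀ u ∈ Set.Icc (0 : ℝ) t, ‖g u - U u‖ < R)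
    (hle : ∀ u ∈ Set.Icc ((t : ℝ) - 1) t, ‖g u - U u‖ < e)
    (hR₀ : R₀ < ‖g N₀ - U N₀‖)
    (hfl : ∃ v ∈ Set.Icc (0 : ℝ) t, 1 / 2 < ‖g v - U v‖ ∧ θ < ph U g ε v)
    (hri : ∃ v ∈ Set.Icc (N₀ : ℝ) t, ph U g ε N₀ + ρ < ph U g ε v) :
    ∃ δ₀ > 0, ∀ᶠ n : ℕ in atTop, ∀ δ ≤ δ₀,
      1 ≤ YX δ R ε θ ρ R₀ e N₀ n t (fun j => eul U z₀ ((1 / 2) ^ n) j) := by
  have ht1 : 1 ≤ t := by omega
  have htR : (1 : ℝ) ≤ t := by exact_mod_cast ht1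
  have ht0 : (0 : ℝ) ≤ t := by linarith
  have hNt : (N₀ : ℝ) ≤ t := by
    have : N₀ ≤ t := by omega
    exact_mod_cast this
  have hN0 : (0 : ℝ) ≤ N₀ := Nat.cast_nonneg _
  obtain ⟨c, hc0, hc⟩ := minZ hU ht0 hs
  obtain ⟨C, hCR, hC⟩ := maxZ hU hs le_rfl ht0 le_rfl hR
  obtain ⟨C', hCe, hC'⟩ := maxZ hU hs (by linarith) (by linarith) le_rfl hle
  obtain ⟨v₁, hv₁, hv₁a, hv₁b⟩ := hfl
  obtain ⟨v₂, hv₂, hv₂a⟩ := hri
  have hv₂' : v₂ ∈ Set.Icc (0 : ℝ) t := ⟨hN0.trans hv₂.1, hv₂.2⟩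
  have hNm : (N₀ : ℝ) ∈ Set.Icc (0 : ℝ) t := ⟨hN0, hNt⟩
  have l1 := PX_lim hU h0 ε hs hv₁
  have l2 := (eul_lim hU h0 hs hv₁).norm
  have l3 := (eul_lim hU h0 hs hNm).norm
  have l4 := (PX_lim hU h0 ε hs hv₂').sub (PX_lim hU h0 ε hs hNm)
  have hη : 0 < min (c / 4) (min (R - C) (e - C')) :=
    lt_min (by positivity) (lt_min (by linarith) (by linarith))
  refine ⟨c / 2, by positivity, ?_⟩
  filter_upwards [(tendsto_order.1 l1).1 θ hv₁b, (tendsto_order.1 l2).1 _ hv₁a,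
    (tendsto_order.1 l3).1 _ hR₀, (tendsto_order.1 l4).1 ρ (by linarith),
    EulerAux.eul_close hU h0 ht0 (δ := c / 2) (by positivity) hs hc (by linarith) hη]
    with n h1 h2 h3 h4 h5 δ hδ
  have hh : (0 : ℝ) < (1 / 2) ^ n := by positivity
  have h22 : (2 : ℝ) ^ n * (1 / 2) ^ n = 1 := by rw [← mul_pow]; norm_num
  rw [jn_nat] at h3 h4 h5
  have hann : ∀ i ≤ t * 2 ^ n, (i : ℝ) * (1 / 2) ^ n ∈ Set.Icc (0 : ℝ) t := by
    intro i hi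
    refine ⟨by positivity, ?_⟩
    have h4 : (i : ℝ) ≤ t * 2 ^ n := by exact_mod_cast hi
    calc (i : ℝ) * (1 / 2) ^ n ≤ t * 2 ^ n * (1 / 2) ^ n := mul_le_mul_of_nonneg_right h4 hh.le
      _ = t := by rw [mul_assoc, h22, mul_one]
  have hAn : (fun j => eul U z₀ ((1 / 2) ^ n) j) ∈ AnX δ R (t * 2 ^ n) := by
    intro i hi
    have h6 := h5 i hi
    have h7 := h6.trans (min_le_left _ _)
    have h8 := h6.trans ((min_le_right _ _).trans (min_le_left _ _))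
    have h9 := hc _ (hann i hi)
    have h10 := hC _ (hann i hi)
    have h11 := norm_sub_norm_le (g ((i : ℝ) * (1 / 2) ^ n) - U ((i : ℝ) * (1 / 2) ^ n))
      (eul U z₀ ((1 / 2) ^ n) i)
    rw [norm_sub_rev (g ((i : ℝ) * (1 / 2) ^ n) - U ((i : ℝ) * (1 / 2) ^ n))] at h11
    have h12 := norm_sub_norm_le (eul U z₀ ((1 / 2) ^ n) i)
      (g ((i : ℝ) * (1 / 2) ^ n) - U ((i : ℝ) * (1 / 2) ^ n))
    change δ ≤ ‖eul U z₀ ((1 / 2) ^ n) i‖ ∧ ‖eul U z₀ ((1 / 2) ^ n) i‖ ≤ R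
    exact ⟨by linarith, by linarith⟩
  have hDn : (fun j => eul U z₀ ((1 / 2) ^ n) j) ∈
      DnX ((1 / 2) ^ n) ε θ ρ R₀ (N₀ * 2 ^ n) (t * 2 ^ n) := by
    refine ⟨Nat.mul_le_mul_right _ (by omega), h3.le, ⟨EulerAux.jn v₁ n, ?_, h2.le, h1.le⟩,
      EulerAux.jn v₂ n, ?_, ?_, by linarith⟩
    · rw [← jn_nat]
      exact jn_mono hv₁.2 n
    · rw [← jn_nat]
      exact jn_mono hv₂.1 n
    · rw [← jn_nat]
      exact jn_mono hv₂.2 n
  unfold YX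
  by_cases hD : (fun j => eul U z₀ ((1 / 2) ^ n) j) ∈
      DnX ((1 / 2) ^ n) ε θ ρ R₀ (N₀ * 2 ^ n) ((t - 1) * 2 ^ n)
  · refine le_trans ?_ le_add_self
    have hterm : ∀ j ∈ Finset.Ico ((t - 1) * 2 ^ n) (t * 2 ^ n),
        ENNReal.ofReal ((1 / 2) ^ n) ≤ ENNReal.ofReal ((1 / 2) ^ n) *
          (GX δ R ε θ ρ R₀ e N₀ n j).indicator 1 (fun j => eul U z₀ ((1 / 2) ^ n) j) := by
      intro j hj
      rw [Finset.mem_Ico] at hj
      have hmem : (fun j => eul U z₀ ((1 / 2) ^ n) j) ∈ GX δ R ε θ ρ R₀ e N₀ n j := by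
        refine ⟨⟨AnX_anti hj.2.le hAn, DnX_mono hj.1 hD⟩, ?_⟩
        change ‖eul U z₀ ((1 / 2) ^ n) j‖ ≤ e
        have h6 := (h5 j hj.2.le).trans ((min_le_right _ _).trans (min_le_right _ _))
        have h7 : (t : ℝ) - 1 ≤ (j : ℝ) * (1 / 2) ^ n := by
          have h7 : ((t : ℝ) - 1) * 2 ^ n ≤ j := by
            have h8 : (((t - 1) * 2 ^ n : ℕ) : ℝ) ≤ j := by exact_mod_cast hj.1
            rw [Nat.cast_mul, Nat.cast_sub ht1] at h8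
            push_cast at h8
            exact h8
          calc (t : ℝ) - 1 = ((t : ℝ) - 1) * 2 ^ n * (1 / 2) ^ n := by
                rw [mul_assoc, h22, mul_one]
            _ ≤ _ := mul_le_mul_of_nonneg_right h7 hh.le
        have h8 := hC' _ ⟨h7, (hann j hj.2.le).2⟩
        have h12 := norm_sub_norm_le (eul U z₀ ((1 / 2) ^ n) j)
          (g ((j : ℝ) * (1 / 2) ^ n) - U ((j : ℝ) * (1 / 2) ^ n))
        linarith
      rw [Set.indicator_of_mem hmem, Pi.one_apply, mul_one]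
    refine le_trans (le_of_eq ?_) (Finset.sum_le_sum hterm)
    rw [Finset.sum_const, Nat.card_Ico, nsmul_eq_mul]
    have h5 : t * 2 ^ n - (t - 1) * 2 ^ n = 2 ^ n := by
      obtain ⟨k, rfl⟩ : ∃ k, t = k + 1 := ⟨t - 1, by omega⟩
      rw [Nat.add_sub_cancel, add_mul, one_mul, Nat.add_sub_cancel_left]
    rw [h5, ← ENNReal.ofReal_natCast, ← ENNReal.ofReal_mul (by positivity)]
    push_cast
    rw [h22, ENNReal.ofReal_one]
  · refine le_trans (le_of_eq ?_) le_self_add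
    have hmem : (fun j => eul U z₀ ((1 / 2) ^ n) j) ∈ FX δ R ε θ ρ R₀ N₀ n t :=
      ⟨⟨hAn, hDn⟩, hD⟩
    rw [Set.indicator_of_mem hmem, Pi.one_apply]

theorem Z_meas {a b c K : ℝ} {W : ℝ → Ω → ℂ} (hW : Drv a b c K W μ) (z₀ : ℂ) {h : ℝ}
    (hh : 0 < h) : Measurable fun ω (j : ℕ) => DiscAux.Z W z₀ h j ω :=
  measurable_pi_lambda _ fun j => (DiscAux.Z_meas hh z₀ j _ le_rfl).mono (Blk_le hW _ _) le_rfl

end TCBWRC

/-- BWRC1. The functional of one particle with a universal bound `y`.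

Proof. As `occ` (TR/OCC.lean). For `l : ℕ` let `δ_l = (1/2)^(l+1)`, `C'_l, h₀_l` the constants of
`ref_inst`, `N_l ≥ l` with `h_l := (1/2)^N_l ≤ h₀_l`, `C'_l √h_l ≤ 1 / (l + 1)`; write
`t_l = t 2^N_l`, `j₀ = N₀ 2^N_l`, `E_j = AnS .. j ∩ DnS .. j` (annulus `[δ_l, 2^H]`). For
`t ≥ 1` let `Y_l t` be
`indicator (AnS t_l ∩ DnS t_l \ DnS (t-1)_l) 1 + ∑ j ∈ Ico (t-1)_l t_l, h_l *
indicator (E_j ∩ {|Z_j| ≤ e}) 1` and `Y t = liminf_l (Y_l t)`.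
* `DnS` is increasing in `j`, so the events of the first term are disjoint for different `t` and
  contained in `{∃ j ≤ J, E_j}`; `ref_inst` with `J = N 2^N_l` gives
  `∑ t < N, ∫ Y_l (t+1) ≤ bound * exp (N / (l + 1))`.
* Universality: `Y_l t` is a measurable function of the trajectory `(DiscAux.Z W z₀ h_l j)_j`, so
  by `traj_law` its integral `y_l t` does not depend on `W` (if there is no process `W` with
  `Gau a b c K W μ`, there is nothing to prove; else fix one). `y t = liminf_l (y_l t)`, and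
  `∫ Y t ≤ y t` (Fatou), `∑ t < N, y (t+1) ≤ liminf_l ∑ ..` (superadditivity of the liminf).
* Lower bound: for `ω, t, g` as in the statement and `l` large, `eul_close` and `sum_close`
  (Euler.lean, see OCC.lean) give `ω ∈ AnS t_l` and the inequalities of `DnS t_l` at the mesh
  times close to `v` (all hypotheses are strict; `ph` is continuous). If `ω ∉ DnS (t-1)_l` the
  first term is `1`; otherwise `ω ∈ E_j ∩ {|Z_j| ≤ e}` for all `j ∈ Ico (t-1)_l t_l` and the second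
  term is `2^N_l h_l = 1`. -/
theorem ref_occ [IsProbabilityMeasure μ] {a b c K : ℝ} (ha : 0 ≤ a) (hb : 0 ≤ b) (hK : 0 ≤ K)
    (hC : CrF a b c) :
    ∃ (C c₂ ε₀ q : ℝ) (p H₀ : ℕ), 0 < C ∧ 0 < c₂ ∧ 0 < ε₀ ∧ ε₀ ≤ 1 ∧ 2 < q ∧
      ∀ ε : ℝ, 0 < ε → ε ≤ ε₀ → ∀ H : ℕ, H₀ ≤ H →
        ∀ (z₀ : ℂ) (θ ρ R₀ e : ℝ) (N₀ : ℕ), 1 / 2 ≤ ‖z₀‖ → 0 ≤ ρ → 1 ≤ R₀ → 1 ≤ e →
          ∃ y : ℕ → ℝ≥0∞, (∀ N : ℕ, ∑ t ∈ Finset.range N, y (t + 1) ≤
              ENNReal.ofReal (C * e ^ 2 * H ^ 2 * (1 + ‖z₀‖) ^ p * Real.exp (-(q * θ)) *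
                (Real.exp (-(c₂ * ρ)) + R₀ ^ (-c₂)))) ∧
            ∀ W : ℝ → Ω → ℂ, Gau a b c K W μ → ∃ Y : ℕ → Ω → ℝ≥0∞, (∀ t, Measurable (Y t)) ∧
              (∀ t, ∫⁻ ω, Y t ω ∂μ ≤ y t) ∧
              ∀ (ω : Ω) (t : ℕ) (g : ℝ → ℂ), N₀ + 1 ≤ t → Sol (fun t => W t ω) z₀ t g →
                (∀ u ∈ Set.Icc (0 : ℝ) t, ‖g u - W u ω‖ < 2 ^ H) →
                (∀ u ∈ Set.Icc ((t : ℝ) - 1) t, ‖g u - W u ω‖ < e) →
                R₀ < ‖g N₀ - W N₀ ω‖ →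
                (∃ v ∈ Set.Icc (0 : ℝ) t, 1 / 2 < ‖g v - W v ω‖ ∧
                  θ < ph (fun t => W t ω) g ε v) →
                (∃ v ∈ Set.Icc (N₀ : ℝ) t,
                  ph (fun t => W t ω) g ε N₀ + ρ < ph (fun t => W t ω) g ε v) → 1 ≤ Y t ω := by
  obtain ⟨C, c₂, ε₀, q, p, H₀, hC0, hc₂, hε₀, hε₀1, hq, hinst⟩ := ref_inst (μ := μ) ha hb hK hC
  refine ⟨C, c₂, ε₀, q, p, H₀, hC0, hc₂, hε₀, hε₀1, hq, ?_⟩
  intro ε hε hε1 H hH z₀ θ ρ R₀ e N₀ hz₀ hρ hR₀ he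
  have hδ : ∀ l : ℕ, (0 : ℝ) < (1 / 2) ^ (l + 1) := fun l => by positivity
  have hδ' : ∀ l : ℕ, ((1 : ℝ) / 2) ^ (l + 1) ≤ 1 / 2 := fun l => by
    have h1 : ((1 : ℝ) / 2) ^ l ≤ 1 := pow_le_one₀ (by norm_num) (by norm_num)
    rw [pow_succ]
    linarith
  choose C' hC' h₀ hh₀ hinst' using
    fun l : ℕ => hinst ε hε hε1 H hH ((1 / 2) ^ (l + 1)) (hδ l) (hδ' l)
  -- the meshes
  have hN : ∀ l : ℕ, ∃ n : ℕ, l ≤ n ∧ ((1 : ℝ) / 2) ^ n ≤ h₀ l ∧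
      C' l * √((1 / 2) ^ n) ≤ 1 / ((l : ℝ) + 1) := by
    intro l
    have h1 : Tendsto (fun n : ℕ => C' l * √(((1 : ℝ) / 2) ^ n)) atTop (𝓝 (C' l * √0)) :=
      ((Real.continuous_sqrt.tendsto 0).comp EulerAux.tendsto_h).const_mul _
    rw [Real.sqrt_zero, mul_zero] at h1
    have h2 : (0 : ℝ) < 1 / ((l : ℝ) + 1) := by positivity
    obtain ⟨n, hn1, hn2, hn3⟩ := ((eventually_ge_atTop l).and
      (((tendsto_order.1 EulerAux.tendsto_h).2 _ (hh₀ l)).and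
        ((tendsto_order.1 h1).2 _ h2))).exists
    exact ⟨n, hn1, hn2.le, hn3.le⟩
  choose n hnl hn₀ hn' using hN
  have hn : Tendsto n atTop atTop := tendsto_atTop_mono hnl tendsto_id
  by_cases hex : ∃ W : ℝ → Ω → ℂ, Gau a b c K W μ
  swap
  · exact ⟨fun _ => 0, fun N => by simp, fun W hW => absurd ⟨W, hW⟩ hex⟩
  obtain ⟨W', hW'⟩ := hex
  refine ⟨fun t => liminf (fun l => ∫⁻ ω, TCBWRC.YX ((1 / 2) ^ (l + 1)) (2 ^ H) ε θ ρ R₀ e N₀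
    (n l) t (fun j => DiscAux.Z W' z₀ ((1 / 2) ^ n l) j ω) ∂μ) atTop, ?_, ?_⟩
  · intro N
    have hexp : ∀ l : ℕ, ∑ t ∈ Finset.range N, ∫⁻ ω, TCBWRC.YX ((1 / 2) ^ (l + 1)) (2 ^ H) ε θ ρ
        R₀ e N₀ (n l) (t + 1) (fun j => DiscAux.Z W' z₀ ((1 / 2) ^ n l) j ω) ∂μ ≤
        ENNReal.ofReal (C * e ^ 2 * H ^ 2 * (1 + ‖z₀‖) ^ p *
          Real.exp ((N : ℝ) * (1 / ((l : ℝ) + 1))) * Real.exp (-(q * θ)) *
            (Real.exp (-(c₂ * ρ)) + R₀ ^ (-c₂))) := by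
      intro l
      have hh : (0 : ℝ) < (1 / 2) ^ n l := by positivity
      refine (TCBWRC.YX_int (TCBWRC.Z_meas hW'.toDrv z₀ hh) _ _ _ _ _ _ _ _ _ N).trans ?_
      refine (hinst' l W' hW'.toDrv _ hh (hn₀ l) z₀ θ ρ R₀ e (N₀ * 2 ^ n l) (N * 2 ^ n l)
        hz₀ hρ hR₀ he).trans ?_
      refine ENNReal.ofReal_le_ofReal ?_
      have h1 : (((N * 2 ^ n l : ℕ) : ℝ)) * (1 / 2) ^ n l = N := by
        have h22 : (2 : ℝ) ^ n l * (1 / 2) ^ n l = 1 := by rw [← mul_pow]; norm_num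
        push_cast
        rw [mul_assoc, h22, mul_one]
      have h2 : C' l * √((1 / 2) ^ n l) * ((((N * 2 ^ n l : ℕ) : ℝ)) * (1 / 2) ^ n l) ≤
          (N : ℝ) * (1 / ((l : ℝ) + 1)) := by
        rw [h1, mul_comm]
        exact mul_le_mul_of_nonneg_left (hn' l) (Nat.cast_nonneg _)
      have h3 := Real.exp_le_exp.2 h2
      have h4 : 0 ≤ R₀ ^ (-c₂) := Real.rpow_nonneg (by linarith) _
      gcongr
    refine (TCBWRC.sum_liminf N (fun t l => ∫⁻ ω, TCBWRC.YX ((1 / 2) ^ (l + 1)) (2 ^ H) ε θ ρ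
        R₀ e N₀ (n l) (t + 1) (fun j => DiscAux.Z W' z₀ ((1 / 2) ^ n l) j ω) ∂μ)).trans ?_
    refine (liminf_le_liminf (Eventually.of_forall hexp)).trans ?_
    have hlim : Tendsto (fun l : ℕ => ENNReal.ofReal (C * e ^ 2 * H ^ 2 * (1 + ‖z₀‖) ^ p *
          Real.exp ((N : ℝ) * (1 / ((l : ℝ) + 1))) * Real.exp (-(q * θ)) *
            (Real.exp (-(c₂ * ρ)) + R₀ ^ (-c₂)))) atTop
        (𝓝 (ENNReal.ofReal (C * e ^ 2 * H ^ 2 * (1 + ‖z₀‖) ^ p *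
          Real.exp ((N : ℝ) * 0) * Real.exp (-(q * θ)) *
            (Real.exp (-(c₂ * ρ)) + R₀ ^ (-c₂))))) := by
      refine ENNReal.tendsto_ofReal (Tendsto.mul_const _ (Tendsto.mul_const _
        (Tendsto.const_mul _ ?_)))
      exact (Real.continuous_exp.tendsto _).comp
        (tendsto_one_div_add_atTop_nhds_zero_nat.const_mul _)
    rw [hlim.liminf_eq, mul_zero, Real.exp_zero, mul_one]
  · intro W hW
    have hT : ∀ l, Measurable fun ω (j : ℕ) => DiscAux.Z W z₀ ((1 / 2) ^ n l) j ω := fun l =>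
      TCBWRC.Z_meas hW.toDrv z₀ (by positivity)
    have hY : ∀ l t, Measurable fun ω => TCBWRC.YX ((1 / 2) ^ (l + 1)) (2 ^ H) ε θ ρ
        R₀ e N₀ (n l) t (fun j => DiscAux.Z W z₀ ((1 / 2) ^ n l) j ω) := fun l t =>
      (TCBWRC.YX_meas _ _ _ _ _ _ _ _ _ _).comp (hT l)
    refine ⟨fun t ω => liminf (fun l => TCBWRC.YX ((1 / 2) ^ (l + 1)) (2 ^ H) ε θ ρ
        R₀ e N₀ (n l) t (fun j => DiscAux.Z W z₀ ((1 / 2) ^ n l) j ω)) atTop, ?_, ?_, ?_⟩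
    · intro t
      exact Measurable.liminf fun l => hY l t
    · intro t
      refine (lintegral_liminf_le fun l => hY l t).trans (le_of_eq ?_)
      congr 1
      funext l
      exact traj_law hW hW' (by positivity) z₀ (TCBWRC.YX_meas _ _ _ _ _ _ _ _ _ _)
    · intro ω t g ht hs hR hle hR₀' hfl hri
      obtain ⟨δ₀, hδ₀, hev⟩ := TCBWRC.low_bound (hW.cont ω) (hW.zero 0 le_rfl ω) ht hs hR hle
        hR₀' hfl hri
      refine le_liminf_of_le (by isBoundedDefault) ?_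
      have h2 : ∀ᶠ l : ℕ in atTop, ((1 : ℝ) / 2) ^ (l + 1) < δ₀ :=
        (tendsto_order.1 (EulerAux.tendsto_h.comp (tendsto_add_atTop_nat 1))).2 _ hδ₀
      filter_upwards [hn.eventually hev, h2] with l h3 h4
      exact h3 _ h4.le

end

end Pool.Agent.SLE
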