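import Pool.Agent.Lib.MP_c17912_pr_TC.BWRG
import Pool.Agent.Lib.MP_c17912_pr_TR.DSC

/-!
# MP_c17912_pr, project TC, backward critical case: riders by time reversal

`RidP`: every rider of `n` unit cells contains a much longer rider at a smaller scale. The
statement concerns the fixed time interval `[0,n]` and is invariant under time reversal, so it
passes from `(b, a, -c)` to `(a, b, c)`. `DescP` (no long riders) follows by infinite descent.
-/

set_option autoImplicit false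

open MeasureTheory ProbabilityTheory Filter
open scoped NNReal ENNReal Topology Real

namespace Pool.Agent.SLE

noncomputable section

variable {Ω : Type*} [MeasurableSpace Ω]

/-- Every rider contains a longer rider at a smaller scale (the conclusion of `rid`). -/
def RidP (μ : Measure Ω) (a b c K : ℝ) : Prop :=
  ∃ n₀ : ℕ, ∀ n ≥ n₀, ∀ W : ℝ → Ω → ℂ, Gau a b c K W μ →
    ∃ A, MeasurableSet A ∧ μ A ≤ ENNReal.ofReal (Real.exp (-(n : ℝ) ^ (1 / 5 : ℝ))) ∧
      ∀ ω ∉ A, ∀ (z : ℂ) (g : ℝ → ℂ), Sol (fun t => W t ω) z n g →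
        rider (fun t => W t ω) g 1 0 n → ∃ M ≥ 1, ∃ s, s + (n + M) ^ 10 ≤ n * 4 ^ M ∧
          rider (fun t => W t ω) g (rr M) s ((n + M) ^ 10)

/-- No long riders (the conclusion of `desc`). -/
def DescP (μ : Measure Ω) (a b c K : ℝ) : Prop :=
  ∃ n₀ : ℕ, ∀ n ≥ n₀, ∀ W : ℝ → Ω → ℂ, Gau a b c K W μ →
    ∃ A, MeasurableSet A ∧ μ A ≤ ENNReal.ofReal (Real.exp (-(n : ℝ))) ∧
      ∀ ω ∉ A, ∀ (T : ℕ) (z : ℂ) (g : ℝ → ℂ), T ≤ 4 ^ (n + 2) →
        Sol (fun t => W t ω) z T g → ∀ M s : ℕ, s + (n + M) ^ 10 ≤ T * 4 ^ M →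
          ¬ rider (fun t => W t ω) g (rr M) s ((n + M) ^ 10)

/-- BWRD1. Time reversal. Proof: apply the hypothesis to the process `rvP W n` (`rv_gau`); for a
solution `g` of the equation of `W · ω` on `[0,n]` which is a rider, `rv_sol` and `rv_rider`
(`T = n`, `m = 0`, `rr 0 = 1`) give a rider of the reversed equation, so a longer rider
`(M, s)` of it, and `rv_rider` again gives the rider `(M, n 4^M - s - (n + M)^10)` of `g`. -/
theorem rid_rev {μ : Measure Ω} [IsProbabilityMeasure μ] {a b c K : ℝ}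
    (h : RidP μ b a (-c) K) : RidP μ a b c K := by
  obtain ⟨n₀, hn₀⟩ := h
  refine ⟨n₀, fun n hn W hW => ?_⟩
  obtain ⟨A, hAm, hAμ, hA⟩ := hn₀ n hn (rvP W n) (rv_gau hW (Nat.cast_nonneg n))
  refine ⟨A, hAm, hAμ, fun ω hω z g hg hr => ?_⟩
  have hsol := rv_sol (Nat.cast_nonneg n) hg
  have hr0 : rr 0 = 1 := by simp [rr]
  have h1 : rider (rvU (fun t => W t ω) n) (rvg (fun t => W t ω) g n) (rr 0) 0 n := by
    refine (rv_rider (T := n) (m := 0) (s := 0) (L := n) (by simp)).mpr ?_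
    rw [hr0]
    simpa using hr
  rw [hr0] at h1
  obtain ⟨M, hM, s, hs, hrM⟩ := hA ω hω _ _ hsol h1
  refine ⟨M, hM, n * 4 ^ M - s - (n + M) ^ 10, ?_, ?_⟩
  · generalize (n + M) ^ 10 = L at hs ⊢
    generalize n * 4 ^ M = N at hs ⊢
    omega
  · exact (rv_rider (T := n) (m := M) (s := s) (L := (n + M) ^ 10) hs).mp hrM

open TRDSC

/-- BWRD2. Infinite descent. Proof: verbatim the proof of `desc` (TR/DSC.lean), which uses the
hypothesis `HasS` only through `rid`. -/
theorem desc_of_rid {μ : Measure Ω} [IsProbabilityMeasure μ] {a b c K : ℝ} (ha : 0 ≤ a)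
    (hb : 0 ≤ b) (hK : 0 ≤ K) (h : RidP μ a b c K) : DescP μ a b c K := by
  obtain ⟨n₁, hn₁⟩ := h
  refine ⟨max n₁ 5, fun n hn W hW => ?_⟩
  have hn5 : 5 ≤ n := le_trans (le_max_right _ _) hn
  have hnn : n₁ ≤ n := le_trans (le_max_left _ _) hn
  have hbig : ∀ M : ℕ, n₁ ≤ (n + M) ^ 10 := fun M => by
    have := Nat.le_self_pow (show (10 : ℕ) ≠ 0 by norm_num) (n + M)
    omega
  have hex : ∀ M s : ℕ, ∃ A, MeasurableSet A ∧
      μ A ≤ ENNReal.ofReal (Real.exp (-(((n + M) ^ 10 : ℕ) : ℝ) ^ (1 / 5 : ℝ))) ∧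
        ∀ ω ∉ A, ∀ (z : ℂ) (g : ℝ → ℂ),
          Sol (fun t => subP W ((s : ℝ) * rr M ^ 2) (rr M) t ω) z (((n + M) ^ 10 : ℕ) : ℝ) g →
          rider (fun t => subP W ((s : ℝ) * rr M ^ 2) (rr M) t ω) g 1 0 ((n + M) ^ 10) →
          ∃ M' ≥ 1, ∃ s', s' + ((n + M) ^ 10 + M') ^ 10 ≤ (n + M) ^ 10 * 4 ^ M' ∧
            rider (fun t => subP W ((s : ℝ) * rr M ^ 2) (rr M) t ω) g (rr M') s'
              (((n + M) ^ 10 + M') ^ 10) := fun M s =>
    hn₁ ((n + M) ^ 10) (hbig M) (subP W ((s : ℝ) * rr M ^ 2) (rr M))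
      (hW.subP (by positivity) (rr_pos M))
  choose A hAm hAμ hA using hex
  refine ⟨⋃ M : ℕ, ⋃ s ∈ Finset.range (4 ^ (n + 2 + M)), A M s,
    MeasurableSet.iUnion fun M => Finset.measurableSet_biUnion _ fun s _ => hAm M s, ?_, ?_⟩
  · calc μ (⋃ M : ℕ, ⋃ s ∈ Finset.range (4 ^ (n + 2 + M)), A M s)
        ≤ ∑' M : ℕ, μ (⋃ s ∈ Finset.range (4 ^ (n + 2 + M)), A M s) := measure_iUnion_le _
      _ ≤ ∑' M : ℕ, ENNReal.ofReal (Real.exp (-(n : ℝ)) * (1 / 2) ^ (M + 1)) := by
          refine ENNReal.tsum_le_tsum fun M => ?_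
          calc μ (⋃ s ∈ Finset.range (4 ^ (n + 2 + M)), A M s)
              ≤ ∑ s ∈ Finset.range (4 ^ (n + 2 + M)), μ (A M s) :=
                measure_biUnion_finset_le _ _
            _ ≤ ∑ s ∈ Finset.range (4 ^ (n + 2 + M)),
                ENNReal.ofReal (Real.exp (-((n : ℝ) + M) ^ 2)) := by
                refine Finset.sum_le_sum fun s _ => ?_
                have h1 := hAμ M s
                rwa [fifth] at h1
            _ = ENNReal.ofReal ((4 : ℝ) ^ (n + 2 + M) * Real.exp (-((n : ℝ) + M) ^ 2)) := by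
                rw [Finset.sum_const, Finset.card_range, nsmul_eq_mul,
                  ENNReal.ofReal_mul (by positivity)]
                congr 1
                rw [ENNReal.ofReal_pow (by norm_num)]
                push_cast
                norm_num
            _ ≤ _ := ENNReal.ofReal_le_ofReal (ex_bd n M hn5)
      _ = ENNReal.ofReal (Real.exp (-(n : ℝ))) := tsum_half n
  · intro ω hω T z g hT hsol
    have hω' : ∀ M s : ℕ, s < 4 ^ (n + 2 + M) → ω ∉ A M s := by
      intro M s hs hmem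
      exact hω (Set.mem_iUnion.mpr ⟨M, Set.mem_iUnion₂.mpr ⟨s, Finset.mem_range.mpr hs, hmem⟩⟩)
    obtain ⟨d, hd, hdg⟩ := FlowAux.exists_lower (hW.cont ω) hsol
    have hcap : ∀ M s : ℕ, s + (n + M) ^ 10 ≤ T * 4 ^ M →
        rider (fun t => W t ω) g (rr M) s ((n + M) ^ 10) → d ≤ rr M := by
      intro M s hs hr
      have hpos : 0 < (n + M) ^ 10 := by positivity
      obtain ⟨u, hu, hlow⟩ := hr 0 hpos
      refine le_trans (hdg u ⟨?_, ?_⟩) hlow
      · exact le_trans (by positivity) hu.1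
      · refine le_trans hu.2 ?_
        rw [rr_sq, mul_one_div, div_le_iff₀ (by positivity)]
        have h1 : s + 0 + 1 ≤ T * 4 ^ M := by omega
        exact_mod_cast h1
    intro M₀ s₀ hs₀ hr₀
    have hall : ∀ k : ℕ, ∃ M ≥ k, ∃ s, s + (n + M) ^ 10 ≤ T * 4 ^ M ∧
        rider (fun t => W t ω) g (rr M) s ((n + M) ^ 10) := by
      intro k
      induction k with
      | zero => exact ⟨M₀, Nat.zero_le _, s₀, hs₀, hr₀⟩
      | succ k ih =>
        obtain ⟨M, hM, s, hs, hr⟩ := ih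
        have hslt : s < 4 ^ (n + 2 + M) := by
          have hpos : 0 < (n + M) ^ 10 := by positivity
          calc s < s + (n + M) ^ 10 := by omega
            _ ≤ T * 4 ^ M := hs
            _ ≤ 4 ^ (n + 2) * 4 ^ M := Nat.mul_le_mul_right _ hT
            _ = 4 ^ (n + 2 + M) := by rw [← pow_add]
        obtain ⟨M₂, hM₂, s₂, hs₂, hr₂⟩ := step (by omega) hsol hs hr
          (fun z' g' h1 h2 => hA M s ω (hω' M s hslt) z' g' h1 h2)
        exact ⟨M₂, by omega, s₂, hs₂, hr₂⟩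
    obtain ⟨k, hk⟩ := exists_pow_lt_of_lt_one hd (show (1 / 2 : ℝ) < 1 by norm_num)
    obtain ⟨M, hM, s, hs, hr⟩ := hall k
    have h1 := hcap M s hs hr
    have h2 : rr M ≤ (1 / 2 : ℝ) ^ k := by
      unfold rr
      exact pow_le_pow_of_le_one (by norm_num) (by norm_num) hM
    linarith

end

end Pool.Agent.SLE
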