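import Pool.Agent.Lib.MP_c17912_pr_TC.BWRC
import Pool.Agent.Lib.MP_c17912_pr_TC.BWIF
import Pool.Agent.Lib.MP_c17912_pr_TR.STR

/-!
# MP_c17912_pr, project TC, backward critical case: the functional of all particles
-/

set_option autoImplicit false

open MeasureTheory ProbabilityTheory Filter
open scoped NNReal ENNReal Topology Real

namespace Pool.Agent.SLE

noncomputable section

namespace TCBWRN

open TRSTR

/-- The path argument: the solution of the nearest grid point. -/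
theorem flag {U : ℝ → ℂ} (hU : Continuous U) (h0 : U 0 = 0) {z : ℂ} {t ε c₀ : ℝ} (ht0 : 0 ≤ t)
    (hε : 0 < ε) (hε2 : ε ≤ 2) (hc₀ : 0 ≤ c₀) {g : ℝ → ℂ} (hg : Sol U z t g)
    (hcf : CutFree U g ε c₀ 0 t) {s : ℕ} (hs : ‖z‖ ≤ (s : ℝ) + 1) :
    ∃ (n : ℕ) (k : ℤ × ℤ) (g' : ℝ → ℂ), k ∈ G s n ∧ 1 / 2 ≤ ‖pt n k‖ ∧ Sol U (pt n k) t g' ∧
      (∀ u ∈ Set.Icc 0 t, ‖g' u - g u‖ ≤ ‖g u - U u‖ / 4) ∧
      (∀ u ∈ Set.Icc 0 t, |ph U g' ε u - ph U g ε u| ≤ 3) ∧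
      ∃ v ∈ Set.Icc 0 t, 1 / 2 < ‖g' v - U v‖ ∧ th (Real.log (32 / ε) + 4) s 0 n < ph U g' ε v := by
  obtain ⟨u₁, hu₁, hmax⟩ := isCompact_Icc.exists_isMaxOn (Set.nonempty_Icc.2 ht0)
    (ph_cont (ε := ε) hU ht0 hg)
  set Φ : ℝ := ph U g ε u₁ with hΦ
  have hΦ1 : ∀ u ∈ Set.Icc 0 t, ph U g ε u ≤ Φ := fun u hu => hmax hu
  have hex : ∃ n : ℕ, (1 / 2 : ℝ) ^ n ≤ ε / 16 * Real.exp (-Φ) := by
    obtain ⟨n, hn⟩ := exists_pow_lt_of_lt_one
      (show 0 < ε / 16 * Real.exp (-Φ) by positivity) (show (1 / 2 : ℝ) < 1 by norm_num)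
    exact ⟨n, hn.le⟩
  classical
  set n : ℕ := Nat.find hex with hn
  have hn1 : (1 / 2 : ℝ) ^ n ≤ ε / 16 * Real.exp (-Φ) := Nat.find_spec hex
  obtain ⟨k, hk, hkz⟩ := near (n := n) hs
  obtain ⟨g', hg', h3, h4⟩ := shadow hU h0 ht0 hε hε2 hg hΦ1 (hkz.trans hn1)
  have hpos : ∀ u ∈ Set.Icc 0 t, 0 < ‖g u - U u‖ := fun u hu =>
    norm_pos_iff.2 (sub_ne_zero.2 (hg.2.1 u hu))
  have hlo : ∀ u ∈ Set.Icc 0 t, 3 / 4 * ‖g u - U u‖ ≤ ‖g' u - U u‖ := by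
    intro u hu
    have a3 := h3 u hu
    have h := norm_sub_norm_le (g u - U u) (g u - g' u)
    have e4 : (g u - U u) - (g u - g' u) = g' u - U u := by ring
    rw [e4, norm_sub_rev (g u) (g' u)] at h
    linarith
  have hup : ∀ u ∈ Set.Icc 0 t, ‖g' u - U u‖ ≤ 5 / 4 * ‖g u - U u‖ := by
    intro u hu
    have a3 := h3 u hu
    have e1 : g' u - U u = (g' u - g u) + (g u - U u) := by ring
    have := norm_add_le (g' u - g u) (g u - U u)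
    rw [e1]
    linarith
  have hph : ∀ u ∈ Set.Icc 0 t, |ph U g' ε u - ph U g ε u| ≤ 3 := by
    intro u hu
    have a0 := hpos u hu
    have a1 := hlo u hu
    have a2 := hup u hu
    have a3 := abs_le.1 (h4 u hu).1
    have b0 : 0 < ‖g' u - U u‖ := by linarith
    have b1 : Real.log ‖g' u - U u‖ - Real.log ‖g u - U u‖ ≤ 1 / 4 := by
      rw [← Real.log_div b0.ne' a0.ne']
      have c1 : ‖g' u - U u‖ / ‖g u - U u‖ ≤ 5 / 4 := by
        rw [div_le_iff₀ a0]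
        exact a2
      have := Real.log_le_sub_one_of_pos (div_pos b0 a0)
      linarith
    have b2 : Real.log ‖g u - U u‖ - Real.log ‖g' u - U u‖ ≤ 1 / 3 := by
      rw [← Real.log_div a0.ne' b0.ne']
      have c1 : ‖g u - U u‖ / ‖g' u - U u‖ ≤ 4 / 3 := by
        rw [div_le_iff₀ b0]
        linarith
      have := Real.log_le_sub_one_of_pos (div_pos a0 b0)
      linarith
    unfold ph
    rw [abs_le]
    constructor
    · linarith [a3.1]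
    · linarith [a3.2]
  have hbig : 1 < ‖g u₁ - U u₁‖ := by
    by_contra hcon
    obtain ⟨v, hv, hv2⟩ := hcf u₁ hu₁ (not_lt.1 hcon)
    have := hΦ1 v ⟨hv.1, hv.2.trans hu₁.2⟩
    linarith
  have hz0 : 1 < ‖g 0 - U 0‖ := by
    by_contra hcon
    obtain ⟨v, hv, hv2⟩ := hcf 0 ⟨le_rfl, ht0⟩ (not_lt.1 hcon)
    have e1 : v = 0 := le_antisymm hv.2 hv.1
    rw [e1] at hv2
    linarith
  refine ⟨n, k, g', hk, ?_, hg', h3, hph, u₁, hu₁, ?_, ?_⟩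
  · have a1 := hlo 0 ⟨le_rfl, ht0⟩
    have a2 : g' 0 - U 0 = pt n k := by rw [hg'.1, h0, sub_zero]
    rw [a2] at a1
    linarith
  · have a1 := hlo u₁ hu₁
    linarith
  · have hs0 : (0 : ℝ) ≤ s := Nat.cast_nonneg s
    have hls : 0 ≤ Real.log ((s : ℝ) + 1) := Real.log_nonneg (by linarith)
    have hT0 : 0 ≤ Real.log (32 / ε) := by
      apply Real.log_nonneg
      rw [le_div_iff₀ hε]
      linarith
    have d1 := abs_le.1 (hph u₁ hu₁)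
    rw [← hΦ] at d1
    rcases Nat.eq_zero_or_pos n with h | h
    · have a1 := hΦ1 0 ⟨le_rfl, ht0⟩
      have a2 : ph U g ε 0 = -Real.log ‖z‖ := by
        simp only [ph, intervalIntegral.integral_same, h0, sub_zero, hg.1, zero_sub]
      have a3 : Real.log ‖z‖ ≤ Real.log ((s : ℝ) + 1) := by
        apply Real.log_le_log _ hs
        rw [hg.1, h0, sub_zero] at hz0
        linarith
      have a5 : (n : ℝ) = 0 := by rw [h, Nat.cast_zero]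
      rw [th, a5, Nat.cast_zero, zero_add, Real.log_one]
      linarith [d1.1]
    · have a1 : ¬ (1 / 2 : ℝ) ^ (n - 1) ≤ ε / 16 * Real.exp (-Φ) :=
        Nat.find_min hex (by omega)
      rw [not_le] at a1
      have a2 : (1 / 2 : ℝ) ^ n * 2 = (1 / 2 : ℝ) ^ (n - 1) := by
        obtain ⟨j, hj⟩ : ∃ j, n = j + 1 := ⟨n - 1, by omega⟩
        rw [hj, Nat.add_sub_cancel, pow_succ]
        ring
      have a3 := Real.log_lt_log (by positivity) a1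
      rw [Real.log_mul (by positivity) (Real.exp_pos _).ne', Real.log_exp, ← a2,
        Real.log_mul (by positivity) (by norm_num), Real.log_pow, one_div, Real.log_inv] at a3
      have a4 : Real.log (ε / 16) = Real.log 2 - Real.log (32 / ε) := by
        rw [← Real.log_div (by norm_num) (by positivity)]
        congr 1
        field_simp
        norm_num
      rw [a4] at a3
      rw [th, Nat.cast_zero, zero_add, Real.log_one]
      linarith [d1.1]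

/-- One term of the bound. -/
theorem term_le {C q e F : ℝ} {p Q : ℕ} (hC : 0 ≤ C) {T : ℝ} (hT : 0 ≤ T) (hq : q ≤ Q)
    (he : 1 ≤ e) (hF : 0 ≤ F) {s : ℝ} (hs : 1 ≤ s) {s' : ℕ} (hs' : (s' : ℝ) + 1 ≤ 3 * s)
    {H : ℕ} (hH : 1 ≤ H) (n : ℕ) {k : ℤ × ℤ} (hk : k ∈ G s' n) :
    (G s' n).card * (C * (2 * e) ^ 2 * ((H + 1 : ℕ) : ℝ) ^ 2 * (1 + ‖pt n k‖) ^ p *
      Real.exp (-(q * th T s' 0 n)) * F) ≤
      36 * 3 ^ 2 * 16 * C * 15 ^ p * Real.exp (Q * T) * 3 ^ Q * (s * e * H) ^ (p + Q + 2) * F *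
        (4 * Real.exp (-(q * Real.log 2))) ^ n := by
  have h1 := card_G s' n
  have h2 := norm_pt hk
  have h3 := exp_th hT hq s' 0 n
  rw [Nat.cast_zero, zero_add, one_pow, mul_one] at h3
  set r : ℝ := Real.exp (-(q * Real.log 2)) with hr
  have hr0 : 0 < r := Real.exp_pos _
  have hH1 : (1 : ℝ) ≤ H := by exact_mod_cast hH
  have hS0 : (0 : ℝ) ≤ (s' : ℝ) + 1 := by positivity
  have hH2 : ((H + 1 : ℕ) : ℝ) ≤ 2 * H := by
    push_cast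
    linarith
  have k1 : s ^ (p + Q + 2) * e ^ 2 * (H : ℝ) ^ 2 ≤ (s * e * H) ^ (p + Q + 2) := by
    rw [mul_pow, mul_pow]
    have : e ^ 2 ≤ e ^ (p + Q + 2) := pow_le_pow_right₀ he (by omega)
    have : (H : ℝ) ^ 2 ≤ (H : ℝ) ^ (p + Q + 2) := pow_le_pow_right₀ hH1 (by omega)
    gcongr
  calc (G s' n).card * (C * (2 * e) ^ 2 * ((H + 1 : ℕ) : ℝ) ^ 2 * (1 + ‖pt n k‖) ^ p *
      Real.exp (-(q * th T s' 0 n)) * F)
      ≤ (36 * (3 * s) ^ 2 * 4 ^ n) * (C * (2 * e) ^ 2 * (2 * H) ^ 2 * (5 * (3 * s)) ^ p *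
        (Real.exp (Q * T) * (3 * s) ^ Q * r ^ n) * F) := by
        have c1 : ((G s' n).card : ℝ) ≤ 36 * (3 * s) ^ 2 * 4 ^ n := h1.trans (by gcongr)
        have c2 : 1 + ‖pt n k‖ ≤ 5 * (3 * s) := h2.trans (by gcongr)
        have c3 : Real.exp (-(q * th T s' 0 n)) ≤ Real.exp (Q * T) * (3 * s) ^ Q * r ^ n :=
          h3.trans (by gcongr)
        gcongr
    _ = 36 * 3 ^ 2 * 16 * C * 15 ^ p * Real.exp (Q * T) * 3 ^ Q *
        (s ^ (p + Q + 2) * e ^ 2 * (H : ℝ) ^ 2) * F * (4 * r) ^ n := by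
        have e1 : (15 : ℝ) ^ p = 5 ^ p * 3 ^ p := by rw [← mul_pow]; norm_num
        rw [e1]
        simp only [mul_pow, pow_add]
        ring
    _ ≤ _ := by gcongr

/-- The sum of the bounds. -/
theorem sum_le {s' : ℕ} (y : ℕ → ℤ × ℤ → ℕ → ℝ≥0∞) (d : ℕ → ℤ × ℤ → ℝ)
    (hd : ∀ n k, ∀ N : ℕ, ∑ t ∈ Finset.range N, y n k (t + 1) ≤ ENNReal.ofReal (d n k))
    {B r : ℝ} (hB : 0 ≤ B) (hr : 0 ≤ r) (hr1 : r < 1)
    (hb : ∀ n, ∀ k ∈ G s' n, (G s' n).card * d n k ≤ B * r ^ n) (N : ℕ) :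
    ∑ t ∈ Finset.range N, ∑' n, ∑ k ∈ G s' n, y n k (t + 1) ≤
      ENNReal.ofReal (B * (1 - r)⁻¹) := by
  rw [← (Summable.tsum_finsetSum fun _ _ => ENNReal.summable)]
  have h0 : Summable fun n : ℕ => B * r ^ n := (summable_geometric_of_lt_one hr hr1).mul_left B
  have h1 : B * (1 - r)⁻¹ = ∑' n : ℕ, B * r ^ n := by
    rw [tsum_mul_left, tsum_geometric_of_lt_one hr hr1]
  rw [h1, ENNReal.ofReal_tsum_of_nonneg (fun n => by positivity) h0]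
  refine ENNReal.tsum_le_tsum fun n => ?_
  rw [Finset.sum_comm]
  have hc : (G s' n).Nonempty := by
    refine ⟨(0, 0), ?_⟩
    have := M_ge s' n
    simp only [G, Finset.mem_product, Finset.mem_Icc]
    omega
  obtain ⟨k₀, hk₀, hmax⟩ := Finset.exists_max_image (G s' n) (fun k => d n k) hc
  calc ∑ k ∈ G s' n, ∑ t ∈ Finset.range N, y n k (t + 1)
      ≤ ∑ k ∈ G s' n, ENNReal.ofReal (d n k₀) := by
        gcongr with k hk
        exact (hd n k N).trans (ENNReal.ofReal_le_ofReal (hmax k hk))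
    _ = ENNReal.ofReal ((G s' n).card * d n k₀) := by
        rw [Finset.sum_const, nsmul_eq_mul, ENNReal.ofReal_mul (Nat.cast_nonneg _),
          ENNReal.ofReal_natCast]
    _ ≤ ENNReal.ofReal (B * r ^ n) := ENNReal.ofReal_le_ofReal (hb n k₀ hk₀)

/-- The loss in the last factor. -/
theorem fac_le {c₂ ρ R₀ : ℝ} (hR : 2 ≤ R₀) :
    Real.exp (-(c₂ * (ρ - 8))) + (R₀ / 2) ^ (-c₂) ≤
      (Real.exp (8 * c₂) + 2 ^ c₂) * (Real.exp (-(c₂ * ρ)) + R₀ ^ (-c₂)) := by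
  have h1 : Real.exp (-(c₂ * (ρ - 8))) = Real.exp (8 * c₂) * Real.exp (-(c₂ * ρ)) := by
    rw [← Real.exp_add]
    congr 1
    ring
  have h2 : (R₀ / 2) ^ (-c₂) = 2 ^ c₂ * R₀ ^ (-c₂) := by
    rw [Real.div_rpow (by linarith) (by norm_num), Real.rpow_neg (show (0 : ℝ) ≤ 2 by norm_num),
      div_inv_eq_mul, mul_comm]
  rw [h1, h2]
  have a1 : 0 ≤ Real.exp (8 * c₂) := (Real.exp_pos _).le
  have a2 : (0 : ℝ) ≤ 2 ^ c₂ := by positivity
  have a3 : 0 ≤ Real.exp (-(c₂ * ρ)) := (Real.exp_pos _).le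
  have a4 : 0 ≤ R₀ ^ (-c₂) := Real.rpow_nonneg (by linarith) _
  nlinarith [mul_nonneg a1 a4, mul_nonneg a2 a3]

end TCBWRN

variable {Ω : Type*} [MeasurableSpace Ω] {μ : Measure Ω}

/-- BWRN1. The functional of all particles, for solutions without a cut, with a reference time
`N₀` at which `|Z|` is large and after which `ph` rises by `ρ`.

Proof. As `stretch` (TR/STR.lean). For naturals `n` let the grid be `z' = (i + j I) / 2^n`,
`|i|, |j| ≤ (s + 1) 2^n`, `1/2 ≤ |z'|`, `θ_n = n log 2 - Θ`,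
`Θ = log (32 / ε) + 4 + log (s + 1)`, and take the functional of `ref_occ` for `z'`, `θ_n`,
`H + 1`, `ρ' = ρ - 8`, `R₀' = R₀ / 2`, `2 e`. `Y`, `y` are the sums over `n` and the
grid. Sum of the bounds: at most `C s^2 4^n` grid points, `exp (-q θ_n) = 2^(-q n) exp (q Θ)`,
`q > 2`, so the series over `n` converges (constant `C(ε)`, polynomial in `s, e, H`);
`exp (-c₂ ρ') ≤ exp (8 c₂) exp (-c₂ ρ)`, `R₀'^(-c₂) ≤ 2^c₂ R₀^(-c₂)`.
Lower bound: let `v₀` be a maximum point of `ph U g ε` on `[0,t]` and `Φ` the maximum. `CutFree`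
(with `c₀ ≥ 0`) gives `1 < |Z_{v₀}|` and `1 < |z|` (at `u = 0`). Let `n` be the least natural number
with `2^(-n) ≤ ε / 16 * exp (-Φ)` and `z'` the nearest grid point, `|z' - z| ≤ 2^(-n)`. `shadow`
gives `g'`: `|Z' - Z| ≤ |Z| / 4`, the integrals of `kk 1 ε` differ by at most `2`, so
`|ph' - ph| ≤ 2 + log (4/3) ≤ 3` at every time. Flag: `ph' v₀ ≥ Φ - 3 > θ_n` (if `n ≥ 1` then
`2^(-(n-1)) > ε / 16 exp (-Φ)`; if `n = 0` then `Φ ≥ ph 0 = - log |z| ≥ - log s`),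
`|Z'_{v₀}| > 1/2`. Rise more than `ρ - 6 ≥ ρ'`.
`|Z'| ≤ 5/4 |Z|`: `< 2^(H+1)`, `< 2 e`; `|Z'_{N₀}| ≥ 3/4 R₀ > R₀'`. -/
theorem ref_fun [IsProbabilityMeasure μ] {a b c K : ℝ} (ha : 0 ≤ a) (hb : 0 ≤ b) (hK : 0 ≤ K)
    (hC : CrF a b c) :
    ∃ (c₂ ε₀ : ℝ) (p H₀ : ℕ), 0 < c₂ ∧ 0 < ε₀ ∧ ε₀ ≤ 1 ∧
      ∀ ε : ℝ, 0 < ε → ε ≤ ε₀ → ∀ c₀ : ℝ, 0 ≤ c₀ → ∃ C > 0, ∀ H : ℕ, H₀ ≤ H →
        ∀ (s ρ R₀ e : ℝ) (N₀ : ℕ), 1 ≤ s → 8 ≤ ρ → 2 ≤ R₀ → 1 ≤ e →
          ∃ y : ℕ → ℝ≥0∞, (∀ N : ℕ, ∑ t ∈ Finset.range N, y (t + 1) ≤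
              ENNReal.ofReal (C * (s * e * H) ^ p * (Real.exp (-(c₂ * ρ)) + R₀ ^ (-c₂)))) ∧
            ∀ W : ℝ → Ω → ℂ, Gau a b c K W μ → ∃ Y : ℕ → Ω → ℝ≥0∞, (∀ t, Measurable (Y t)) ∧
              (∀ t, ∫⁻ ω, Y t ω ∂μ ≤ y t) ∧
              ∀ (ω : Ω) (t : ℕ) (z : ℂ) (g : ℝ → ℂ), N₀ + 1 ≤ t → ‖z‖ ≤ s →
                Sol (fun t => W t ω) z t g →
                (∀ u ∈ Set.Icc (0 : ℝ) t, ‖g u - W u ω‖ ≤ 2 ^ H) →
                (∀ u ∈ Set.Icc ((t : ℝ) - 1) t, ‖g u - W u ω‖ ≤ e) →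
                R₀ ≤ ‖g N₀ - W N₀ ω‖ → CutFree (fun t => W t ω) g ε c₀ 0 t →
                (∃ v ∈ Set.Icc (N₀ : ℝ) t,
                  ph (fun t => W t ω) g ε N₀ + ρ < ph (fun t => W t ω) g ε v) → 1 ≤ Y t ω := by
  obtain ⟨C, c₂, ε₀, q, p, H₀, hC0, hc₂, hε₀, hε₀1, hq, hocc⟩ := ref_occ (μ := μ) ha hb hK hC
  obtain ⟨Q, hqQ⟩ := exists_nat_ge q
  refine ⟨c₂, ε₀, p + Q + 2, max H₀ 1, hc₂, hε₀, hε₀1, fun ε hε hεε₀ c₀ hc₀ => ?_⟩
  have hε2 : ε ≤ 2 := by linarith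
  set T : ℝ := Real.log (32 / ε) + 4 with hT
  have hT0 : 0 ≤ T := by
    have : 0 ≤ Real.log (32 / ε) := by
      apply Real.log_nonneg
      rw [le_div_iff₀ hε]
      linarith
    linarith
  set r : ℝ := 4 * Real.exp (-(q * Real.log 2)) with hr
  have hr0 : 0 ≤ r := by positivity
  have hr1 : r < 1 := by
    have hl2 : 0 < Real.log 2 := Real.log_pos (by norm_num)
    have h1 : Real.exp (-(q * Real.log 2)) < Real.exp (-(2 * Real.log 2)) := by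
      apply Real.exp_lt_exp.2
      nlinarith
    have h2 : Real.exp (-(2 * Real.log 2)) = 1 / 4 := by
      rw [Real.exp_neg, mul_comm, Real.exp_mul, Real.exp_log (by norm_num)]
      norm_num
    rw [h2] at h1
    linarith
  have h1r : 0 < 1 - r := by linarith
  set A : ℝ := 36 * 3 ^ 2 * 16 * C * 15 ^ p * Real.exp (Q * T) * 3 ^ Q with hA
  have hA0 : 0 < A := by positivity
  refine ⟨A * (Real.exp (8 * c₂) + 2 ^ c₂) * (1 - r)⁻¹, by positivity,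
    fun H hH s ρ R₀ e N₀ hs hρ hR he => ?_⟩
  have hH0 : H₀ ≤ H + 1 := ((le_max_left _ _).trans hH).trans (Nat.le_succ H)
  have hH1 : 1 ≤ H := (le_max_right _ _).trans hH
  set s' : ℕ := ⌈s⌉₊ with hs'
  have a1 : s ≤ s' := Nat.le_ceil s
  have a2 : (s' : ℝ) + 1 ≤ 3 * s := by
    have := Nat.ceil_lt_add_one (show 0 ≤ s by linarith)
    linarith
  set F : ℝ := Real.exp (-(c₂ * (ρ - 8))) + (R₀ / 2) ^ (-c₂) with hF
  have hF0 : 0 ≤ F := add_nonneg (Real.exp_pos _).le (Real.rpow_nonneg (by linarith) _)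
  have key : ∀ (n : ℕ) (k : ℤ × ℤ), ∃ y : ℕ → ℝ≥0∞, (∀ N : ℕ, ∑ t ∈ Finset.range N, y (t + 1) ≤
      ENNReal.ofReal (C * (2 * e) ^ 2 * ((H + 1 : ℕ) : ℝ) ^ 2 * (1 + ‖TRSTR.pt n k‖) ^ p *
        Real.exp (-(q * TRSTR.th T s' 0 n)) * F)) ∧
      ∀ W : ℝ → Ω → ℂ, Gau a b c K W μ → ∃ Y : ℕ → Ω → ℝ≥0∞, (∀ t, Measurable (Y t)) ∧
        (∀ t, ∫⁻ ω, Y t ω ∂μ ≤ y t) ∧
        ∀ (ω : Ω) (t : ℕ) (g : ℝ → ℂ), 1 / 2 ≤ ‖TRSTR.pt n k‖ → N₀ + 1 ≤ t →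
          Sol (fun t => W t ω) (TRSTR.pt n k) t g →
          (∀ u ∈ Set.Icc (0 : ℝ) t, ‖g u - W u ω‖ < 2 ^ (H + 1)) →
          (∀ u ∈ Set.Icc ((t : ℝ) - 1) t, ‖g u - W u ω‖ < 2 * e) →
          R₀ / 2 < ‖g N₀ - W N₀ ω‖ →
          (∃ v ∈ Set.Icc (0 : ℝ) t, 1 / 2 < ‖g v - W v ω‖ ∧
            TRSTR.th T s' 0 n < ph (fun t => W t ω) g ε v) →
          (∃ v ∈ Set.Icc (N₀ : ℝ) t,
            ph (fun t => W t ω) g ε N₀ + (ρ - 8) < ph (fun t => W t ω) g ε v) → 1 ≤ Y t ω := by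
    intro n k
    by_cases h : 1 / 2 ≤ ‖TRSTR.pt n k‖
    · obtain ⟨y, hy, hW⟩ := hocc ε hε hεε₀ (H + 1) hH0 (TRSTR.pt n k) (TRSTR.th T s' 0 n) (ρ - 8)
        (R₀ / 2) (2 * e) N₀ h (by linarith) (by linarith) (by linarith)
      refine ⟨y, hy, fun W hg => ?_⟩
      obtain ⟨Y, hY1, hY2, hY3⟩ := hW W hg
      exact ⟨Y, hY1, hY2, fun ω t g _ => hY3 ω t g⟩
    · exact ⟨fun _ => 0, fun N => by simp, fun W _ => ⟨fun _ _ => 0, fun _ => measurable_const,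
        fun _ => by simp, fun ω t g h' => absurd h' h⟩⟩
  choose y hy hyW using key
  refine ⟨fun t => ∑' n, ∑ k ∈ TRSTR.G s' n, y n k t, fun N => ?_, fun W hW => ?_⟩
  · refine (TCBWRN.sum_le (B := A * (s * e * H) ^ (p + Q + 2) * F) y _ hy ?_ hr0 hr1
      (fun n k hk => ?_) N).trans (ENNReal.ofReal_le_ofReal ?_)
    · positivity
    · exact TCBWRN.term_le hC0.le hT0 hqQ he hF0 hs a2 hH1 n hk
    · have f1 := TCBWRN.fac_le (c₂ := c₂) (ρ := ρ) hR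
      calc A * (s * e * H) ^ (p + Q + 2) * F * (1 - r)⁻¹
          ≤ A * (s * e * H) ^ (p + Q + 2) * ((Real.exp (8 * c₂) + 2 ^ c₂) *
            (Real.exp (-(c₂ * ρ)) + R₀ ^ (-c₂))) * (1 - r)⁻¹ := by gcongr
        _ = _ := by ring
  · choose Y hY1 hY2 hY3 using fun n k => hyW n k W hW
    refine ⟨fun t ω => ∑' n, ∑ k ∈ TRSTR.G s' n, Y n k t ω, fun t => ?_, fun t => ?_, ?_⟩
    · exact Measurable.ennreal_tsum fun n => Finset.measurable_fun_sum _ fun k _ => hY1 n k t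
    · rw [lintegral_tsum fun n => (Finset.measurable_fun_sum _ fun k _ =>
        hY1 n k t).aemeasurable]
      refine ENNReal.tsum_le_tsum fun n => ?_
      rw [lintegral_finsetSum _ fun k _ => hY1 n k t]
      exact Finset.sum_le_sum fun k _ => hY2 n k t
    · intro ω t z g ht hz hg h1 h2 h3 hcf h4
      have ht0 : (0 : ℝ) ≤ t := Nat.cast_nonneg t
      obtain ⟨n, k, g', hk, hk2, hg', b1, b2, v₀, hv₀, b3, b4⟩ := TCBWRN.flag
        (U := fun t => W t ω) (hW.cont ω) (hW.zero 0 le_rfl ω) ht0 hε hε2 hc₀ hg hcf (s := s')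
        (by linarith)
      have c1 : 1 ≤ Y n k t ω := by
        have hN : (N₀ : ℝ) ≤ t := by exact_mod_cast (by omega : N₀ ≤ t)
        have hNm : (N₀ : ℝ) ∈ Set.Icc (0 : ℝ) t := ⟨Nat.cast_nonneg _, hN⟩
        have d1 : ∀ u ∈ Set.Icc (0 : ℝ) t, ‖g' u - W u ω‖ ≤ 5 / 4 * ‖g u - W u ω‖ := by
          intro u hu
          have e1 := b1 u hu
          have e2 : g' u - W u ω = (g' u - g u) + (g u - W u ω) := by ring
          have e3 := norm_add_le (g' u - g u) (g u - W u ω)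
          rw [e2]
          linarith
        have d2 : 3 / 4 * ‖g N₀ - W N₀ ω‖ ≤ ‖g' N₀ - W N₀ ω‖ := by
          have e1 := b1 N₀ hNm
          have h := norm_sub_norm_le (g N₀ - W N₀ ω) (g N₀ - g' N₀)
          have e4 : (g N₀ - W N₀ ω) - (g N₀ - g' N₀) = g' N₀ - W N₀ ω := by ring
          rw [e4, norm_sub_rev (g N₀) (g' N₀)] at h
          linarith
        refine hY3 n k ω t g' hk2 ht hg' (fun u hu => ?_) (fun u hu => ?_) ?_
          ⟨v₀, hv₀, b3, b4⟩ ?_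
        · have e1 := d1 u hu
          have e2 := h1 u hu
          have e3 : (0 : ℝ) < 2 ^ H := by positivity
          rw [pow_succ]
          linarith
        · have ht1 : (1 : ℝ) ≤ t := by exact_mod_cast (by omega : 1 ≤ t)
          have e1 := d1 u ⟨by linarith [hu.1], hu.2⟩
          have e2 := h2 u hu
          linarith
        · linarith
        · obtain ⟨v, hv, hv2⟩ := h4
          have e1 := abs_le.1 (b2 N₀ hNm)
          have e2 := abs_le.1 (b2 v ⟨hNm.1.trans hv.1, hv.2⟩)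
          exact ⟨v, hv, by linarith [e1.2, e2.1]⟩
      refine c1.trans (le_trans ?_ (ENNReal.le_tsum n))
      exact Finset.single_le_sum (f := fun k => Y n k t ω) (fun _ _ => zero_le) hk

end

end Pool.Agent.SLE
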