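import Pool.Agent.Lib.MP_c17912_pr_TR.Base
import Pool.Agent.Lib.MP_c17912_pr_TR.SCL
import Pool.Agent.Lib.MP_c17912_pr.Gau
import Pool.Agent.Lib.MP_c17912_pr.Flow

/-!
# MP_c17912_pr, project TC, backward critical case: time reversal

For a solution `g` of the equation driven by `U` on `[0,T]` and `Z = g - U` the function
`s ↦ i Z (T - s)` is again of this form, for the path `rvU U T`, `s ↦ i (U (T - s) - U T)`.
If `U` is a Brownian motion with covariance matrix `((a, c), (c, b))` then `rvU U T` is one with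
covariance matrix `((b, -c), (-c, a))` (continued after time `T` by `i (U s - U T)`).
-/

set_option autoImplicit false

open MeasureTheory ProbabilityTheory Filter
open scoped NNReal ENNReal Topology Real

namespace Pool.Agent.SLE

noncomputable section

/-- The reversed path: `i (U (T - s) - U T)` for `0 ≤ s ≤ T`, constant `0` for `s ≤ 0`, and
continued by `i (U s - U T)` after `T`. -/
def rvU (U : ℝ → ℂ) (T : ℝ) : ℝ → ℂ := fun s =>
  Complex.I * (U (T - min (max s 0) T) - U T) + Complex.I * (U (max s T) - U T)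

/-- The reversed solution. -/
def rvg (U g : ℝ → ℂ) (T : ℝ) : ℝ → ℂ := fun s => Complex.I * (g (T - s) - U T)

/-- The reversed process. -/
def rvP {Ω : Type*} (W : ℝ → Ω → ℂ) (T : ℝ) : ℝ → Ω → ℂ :=
  fun t ω => rvU (fun τ => W τ ω) T t

namespace TCBWRV

theorem contOn {U : ℝ → ℂ} (hU : Continuous U) {z : ℂ} {t : ℝ} {g : ℝ → ℂ} (h : Sol U z t g) :
    ContinuousOn (fun v => g v - U v) (Set.Icc 0 t) :=
  ContinuousOn.sub (fun s hs => (h.2.2 s hs).continuousWithinAt) hU.continuousOn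

theorem kk_contOn {U : ℝ → ℂ} (hU : Continuous U) {z : ℂ} {t : ℝ} {g : ℝ → ℂ}
    (h : Sol U z t g) (ε : ℝ) :
    ContinuousOn (fun v => kk 1 ε (g v - U v)) (Set.Icc 0 t) :=
  (SmgAux.continuousOn_kk 1 ε).comp (contOn hU h) fun v hv => by
    simpa using sub_ne_zero.2 (h.2.1 v hv)

theorem kk_int {U : ℝ → ℂ} (hU : Continuous U) {z : ℂ} {t : ℝ} {g : ℝ → ℂ}
    (h : Sol U z t g) (ε : ℝ) {x y : ℝ} (hx : 0 ≤ x) (hxt : x ≤ t) (hy : 0 ≤ y) (hyt : y ≤ t) :
    IntervalIntegrable (fun v => kk 1 ε (g v - U v)) volume x y := by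
  apply ContinuousOn.intervalIntegrable
  apply (kk_contOn hU h ε).mono
  intro v hv
  rcases Set.mem_uIcc.1 hv with hv | hv
  · exact ⟨hx.trans hv.1, hv.2.trans hyt⟩
  · exact ⟨hy.trans hv.1, hv.2.trans hxt⟩

theorem kk_I (ε : ℝ) (z : ℂ) : kk 1 ε (Complex.I * z) = -kk 1 0 z + ε / ‖z‖ ^ 2 := by
  unfold kk
  have h1 : (1 : ℂ) / (Complex.I * z) ^ 2 = -(1 / z ^ 2) := by
    rw [mul_pow, Complex.I_sq, neg_one_mul, one_div, one_div, inv_neg]
  rw [h1, Complex.neg_re, norm_mul, Complex.norm_I, one_mul]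
  ring

theorem kk_zero (ε : ℝ) (z : ℂ) : kk 1 ε z = kk 1 0 z + ε * (1 / ‖z‖ ^ 2) := by
  unfold kk
  ring

theorem cell {T m j : ℕ} (hj : j < T * 4 ^ m) {u : ℝ}
    (hu : u ∈ Set.Icc ((j : ℝ) * rr m ^ 2) (((j : ℝ) + 1) * rr m ^ 2)) :
    0 ≤ u ∧ u ≤ T ∧ (T : ℝ) - u ∈ Set.Icc (((T * 4 ^ m - 1 - j : ℕ) : ℝ) * rr m ^ 2)
      ((((T * 4 ^ m - 1 - j : ℕ) : ℝ) + 1) * rr m ^ 2) := by
  have h4 := TRSCL.four_rr m
  have hr : 0 ≤ rr m ^ 2 := sq_nonneg _
  have hc : (((T * 4 ^ m - 1 - j : ℕ) : ℝ)) = (T : ℝ) * 4 ^ m - 1 - j := by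
    have h1 : T * 4 ^ m - 1 - j + 1 + j = T * 4 ^ m := by omega
    have h2 : (((T * 4 ^ m - 1 - j + 1 + j : ℕ) : ℝ)) = ((T * 4 ^ m : ℕ) : ℝ) := by rw [h1]
    push_cast at h2
    linarith
  have hT : (T : ℝ) = (T : ℝ) * 4 ^ m * rr m ^ 2 := by
    rw [mul_assoc, h4, mul_one]
  have hj' : (j : ℝ) + 1 ≤ (T : ℝ) * 4 ^ m := by
    have h1 : ((j + 1 : ℕ) : ℝ) ≤ ((T * 4 ^ m : ℕ) : ℝ) := by exact_mod_cast hj
    push_cast at h1
    exact h1
  have hj0 : (0 : ℝ) ≤ j := Nat.cast_nonneg j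
  refine ⟨(mul_nonneg hj0 hr).trans hu.1, ?_, ?_⟩
  · rw [hT]
    exact hu.2.trans (mul_le_mul_of_nonneg_right hj' hr)
  · rw [hc]
    constructor
    · have h1 := hu.2
      have h2 : ((T : ℝ) * 4 ^ m - 1 - j) * rr m ^ 2 = T - ((j : ℝ) + 1) * rr m ^ 2 := by
        linear_combination (T : ℝ) * h4
      rw [h2]
      linarith
    · have h1 := hu.1
      have h2 : ((T : ℝ) * 4 ^ m - 1 - j + 1) * rr m ^ 2 = T - (j : ℝ) * rr m ^ 2 := by
        linear_combination (T : ℝ) * h4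
      rw [h2]
      linarith

end TCBWRV

/-- BWRV1. -/
theorem rvU_eq {U : ℝ → ℂ} {T s : ℝ} (hs : 0 ≤ s) (hsT : s ≤ T) :
    rvU U T s = Complex.I * (U (T - s) - U T) := by
  unfold rvU
  rw [max_eq_left hs, min_eq_left hsT, max_eq_right hsT, sub_self, mul_zero, add_zero]

/-- BWRV2. `Z` of the reversed solution. -/
theorem rv_Z {U g : ℝ → ℂ} {T s : ℝ} (hs : 0 ≤ s) (hsT : s ≤ T) :
    rvg U g T s - rvU U T s = Complex.I * (g (T - s) - U (T - s)) := by
  rw [rvU_eq hs hsT]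
  unfold rvg
  ring

/-- BWRV3. The reversed solution. Proof: the derivative of `i (g (T - s) - U T)` is
`- i * 2 / Z (T - s) = 2 / (i Z (T - s))`; nonvanishing by `rv_Z`. -/
theorem rv_sol {U : ℝ → ℂ} {z : ℂ} {T : ℝ} {g : ℝ → ℂ} (hT : 0 ≤ T) (hg : Sol U z T g) :
    Sol (rvU U T) (Complex.I * (g T - U T)) T (rvg U g T) := by
  have _ := hT
  refine ⟨?_, ?_, ?_⟩
  · unfold rvg
    rw [sub_zero]
  · intro s hs
    have hs' : T - s ∈ Set.Icc 0 T := ⟨by linarith [hs.2], by linarith [hs.1]⟩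
    rw [← sub_ne_zero, rv_Z hs.1 hs.2]
    exact mul_ne_zero Complex.I_ne_zero (sub_ne_zero.2 (hg.2.1 _ hs'))
  · intro s hs
    have hs' : T - s ∈ Set.Icc 0 T := ⟨by linarith [hs.2], by linarith [hs.1]⟩
    have h1 : HasDerivWithinAt (fun u : ℝ => T - u) (-1) (Set.Icc 0 T) s := by
      simpa using (hasDerivWithinAt_id s (Set.Icc 0 T)).const_sub T
    have h2 : Set.MapsTo (fun u : ℝ => T - u) (Set.Icc 0 T) (Set.Icc 0 T) := fun u hu =>
      ⟨by linarith [hu.2], by linarith [hu.1]⟩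
    have h3 := (hg.2.2 _ hs').scomp s h1 h2
    have h4 : HasDerivWithinAt (rvg U g T)
        (Complex.I * ((-1 : ℝ) • (2 / (g (T - s) - U (T - s))))) (Set.Icc 0 T) s :=
      (h3.sub_const (U T)).const_mul Complex.I
    convert h4 using 1
    rw [rv_Z hs.1 hs.2]
    have hne : g (T - s) - U (T - s) ≠ 0 := sub_ne_zero.2 (hg.2.1 _ hs')
    have hI := Complex.I_ne_zero
    rw [neg_one_smul, div_eq_iff (mul_ne_zero hI hne)]
    have hI2 := Complex.I_mul_I
    field_simp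
    linear_combination hI2

/-- BWRV4. Continuity. -/
theorem rv_cont {U : ℝ → ℂ} {T : ℝ} (hU : Continuous U) : Continuous (rvU U T) := by
  unfold rvU
  fun_prop

/-- BWRV5. The logarithmic clock. (Substitution `u ↦ T - u`.) -/
theorem rv_lk {U g : ℝ → ℂ} {T s t : ℝ} (hs : 0 ≤ s) (hst : s ≤ t) (htT : t ≤ T) :
    lk (rvU U T) (rvg U g T) s t = lk U g (T - t) (T - s) := by
  unfold lk
  rw [← intervalIntegral.integral_comp_sub_left (fun u => 1 / ‖g u - U u‖ ^ 2) T]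
  apply intervalIntegral.integral_congr
  intro u hu
  rw [Set.uIcc_of_le hst] at hu
  simp only
  rw [rv_Z (hs.trans hu.1) (hu.2.trans htT), norm_mul, Complex.norm_I, one_mul]

/-- BWRV6. The functional `ph` of the reversed solution (differences): with
`ph U g ε u = ∫ kk 1 ε - log |Z_u|` one has
`ph^ (T - w) - ph^ (T - t) = ph_w - ph_t + ε * clock` (with `ε = 0` in the `ph` on the right:
`ph U g 0`), for `0 ≤ w ≤ t ≤ T`. Proof: `(1 / (i Z)^2).re = - (1 / Z^2).re`. -/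
theorem rv_ph {U : ℝ → ℂ} (hU : Continuous U) {z : ℂ} {T : ℝ} {g : ℝ → ℂ} {ε w t : ℝ}
    (hg : Sol U z T g) (hw : 0 ≤ w) (hwt : w ≤ t) (htT : t ≤ T) :
    ph (rvU U T) (rvg U g T) ε (T - w) - ph (rvU U T) (rvg U g T) ε (T - t) =
      ph U g 0 w - ph U g 0 t + ε * lk U g w t := by
  have hT : 0 ≤ T := hw.trans (hwt.trans htT)
  have hs := rv_sol hT hg
  have hc := rv_cont (T := T) hU
  have ht : 0 ≤ t := hw.trans hwt
  have hwT : w ≤ T := hwt.trans htT
  have e1 : (∫ v in (0 : ℝ)..(T - w), kk 1 ε (rvg U g T v - rvU U T v)) -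
      (∫ v in (0 : ℝ)..(T - t), kk 1 ε (rvg U g T v - rvU U T v)) =
      ∫ v in (T - t)..(T - w), kk 1 ε (rvg U g T v - rvU U T v) :=
    intervalIntegral.integral_interval_sub_left
      (TCBWRV.kk_int hc hs ε le_rfl hT (by linarith) (by linarith))
      (TCBWRV.kk_int hc hs ε le_rfl hT (by linarith) (by linarith))
  have e2 : (∫ v in (0 : ℝ)..t, kk 1 0 (g v - U v)) -
      (∫ v in (0 : ℝ)..w, kk 1 0 (g v - U v)) = ∫ v in w..t, kk 1 0 (g v - U v) :=
    intervalIntegral.integral_interval_sub_left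
      (TCBWRV.kk_int hU hg 0 le_rfl hT ht htT)
      (TCBWRV.kk_int hU hg 0 le_rfl hT hw hwT)
  have e3 : (∫ v in (T - t)..(T - w), kk 1 ε (rvg U g T v - rvU U T v)) =
      ∫ v in w..t, (-kk 1 0 (g v - U v) + ε * (1 / ‖g v - U v‖ ^ 2)) := by
    have h1 := intervalIntegral.integral_comp_sub_left (a := T - t) (b := T - w)
      (fun v => -kk 1 0 (g v - U v) + ε * (1 / ‖g v - U v‖ ^ 2)) T
    rw [sub_sub_cancel, sub_sub_cancel] at h1
    rw [← h1]
    apply intervalIntegral.integral_congr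
    intro v hv
    rw [Set.uIcc_of_le (by linarith)] at hv
    have hv0 : 0 ≤ v := by linarith [hv.1]
    have hvT : v ≤ T := by linarith [hv.2]
    simp only
    rw [rv_Z hv0 hvT, TCBWRV.kk_I]
    ring
  have i0 : IntervalIntegrable (fun v => kk 1 0 (g v - U v)) volume w t :=
    TCBWRV.kk_int hU hg 0 hw hwT ht htT
  have i1 : IntervalIntegrable (fun v => 1 / ‖g v - U v‖ ^ 2) volume w t := by
    have h1 : (fun v => 1 / ‖g v - U v‖ ^ 2) =
        fun v => kk 1 1 (g v - U v) - kk 1 0 (g v - U v) := by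
      funext v
      rw [TCBWRV.kk_zero 1]
      ring
    rw [h1]
    exact (TCBWRV.kk_int hU hg 1 hw hwT ht htT).sub i0
  have e4 : (∫ v in w..t, (-kk 1 0 (g v - U v) + ε * (1 / ‖g v - U v‖ ^ 2))) =
      -(∫ v in w..t, kk 1 0 (g v - U v)) + ε * lk U g w t := by
    have i0n : IntervalIntegrable (fun v => -kk 1 0 (g v - U v)) volume w t := i0.neg
    rw [intervalIntegral.integral_add i0n (i1.const_mul ε), intervalIntegral.integral_neg,
      intervalIntegral.integral_const_mul]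
    rfl
  have n1 : ‖rvg U g T (T - w) - rvU U T (T - w)‖ = ‖g w - U w‖ := by
    rw [rv_Z (by linarith) (by linarith), norm_mul, Complex.norm_I, one_mul, sub_sub_cancel]
  have n2 : ‖rvg U g T (T - t) - rvU U T (T - t)‖ = ‖g t - U t‖ := by
    rw [rv_Z (by linarith) (by linarith), norm_mul, Complex.norm_I, one_mul, sub_sub_cancel]
  unfold ph
  rw [n1, n2]
  linarith

/-- BWRV7. Low cells. (The closed cell `j` of the mesh `(rr m)^2` is mapped to the closed cell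
`T 4^m - 1 - j`.) -/
theorem rv_low {U g : ℝ → ℂ} {T m j : ℕ} (hj : j < T * 4 ^ m) :
    low (rvU U T) (rvg U g T) (rr m) j ↔ low U g (rr m) (T * 4 ^ m - 1 - j) := by
  constructor
  · rintro ⟨u, hu, hr⟩
    obtain ⟨h0, hT, hc⟩ := TCBWRV.cell hj hu
    refine ⟨T - u, hc, ?_⟩
    rwa [rv_Z h0 hT, norm_mul, Complex.norm_I, one_mul] at hr
  · rintro ⟨u, hu, hr⟩
    have hj' : T * 4 ^ m - 1 - j < T * 4 ^ m := by omega
    obtain ⟨h0, hT, hc⟩ := TCBWRV.cell hj' hu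
    have hjj : T * 4 ^ m - 1 - (T * 4 ^ m - 1 - j) = j := by omega
    rw [hjj] at hc
    refine ⟨T - u, hc, ?_⟩
    rw [rv_Z (by linarith) (by linarith), norm_mul, Complex.norm_I, one_mul, sub_sub_cancel]
    exact hr

/-- BWRV8. Riders. -/
theorem rv_rider {U g : ℝ → ℂ} {T m s L : ℕ} (hs : s + L ≤ T * 4 ^ m) :
    rider (rvU U T) (rvg U g T) (rr m) s L ↔ rider U g (rr m) (T * 4 ^ m - s - L) L := by
  constructor
  · intro h i hi
    have h1 := h (L - 1 - i) (by omega)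
    rw [rv_low (by omega)] at h1
    have h2 : T * 4 ^ m - 1 - (s + (L - 1 - i)) = T * 4 ^ m - s - L + i := by omega
    rwa [h2] at h1
  · intro h i hi
    rw [rv_low (by omega)]
    have h1 := h (L - 1 - i) (by omega)
    have h2 : T * 4 ^ m - s - L + (L - 1 - i) = T * 4 ^ m - 1 - (s + i) := by omega
    rwa [h2] at h1

/-- BWRV9. Oscillation. -/
theorem rv_osc {U : ℝ → ℂ} {T m : ℕ} {x : ℝ} (h : Osc U (rr m) x (T * 4 ^ m)) :
    Osc (rvU U T) (rr m) x (T * 4 ^ m) := by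
  intro j hj u hu v hv
  obtain ⟨hu0, huT, huc⟩ := TCBWRV.cell hj hu
  obtain ⟨hv0, hvT, hvc⟩ := TCBWRV.cell hj hv
  have h1 := h (T * 4 ^ m - 1 - j) (by omega) _ huc _ hvc
  rw [rvU_eq hu0 huT, rvU_eq hv0 hvT, ← mul_sub, norm_mul, Complex.norm_I, one_mul,
    sub_sub_sub_cancel_right]
  exact h1

end

end Pool.Agent.SLE
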