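import Pool.Agent.Lib.MP_c17912_pr_TC.BWIF
import Pool.Agent.Lib.MP_c17912_pr.Gau

/-!
# MP_c17912_pr, project TC, backward critical case: the closed pattern bound for the reversals

`(b, a, -c)` is forward critical. For all `T` at once the closed pattern bound is applied to the
reversed processes `rvP W T`, scaled by `rr m`.
-/

set_option autoImplicit false

open MeasureTheory ProbabilityTheory Filter
open scoped NNReal ENNReal Topology Real

namespace Pool.Agent.SLE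

noncomputable section

variable {Ω : Type*} [MeasurableSpace Ω] {μ : Measure Ω}

namespace TCBWSA

theorem rr_pos (m : ℕ) : 0 < rr m := by unfold rr; positivity

theorem clo_mono {U g : ℝ → ℂ} {c₁ β κ m₀ C : ℝ} {Bad : ℕ → Prop} {M : ℕ} {ρ ρ' : ℝ≥0∞}
    (hρ : ρ ≤ ρ') (h : Clo U g c₁ β κ m₀ C Bad M ρ) : Clo U g c₁ β κ m₀ C Bad M ρ' := by
  obtain ⟨Q, hQ, hb⟩ := h
  exact ⟨Q, hQ, hb.trans (by gcongr)⟩

/-- For fixed `d` the map `T ↦ T k - d` is injective on `{T | d ≤ T k}`. -/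
theorem tsum_shift (r : ℕ → ℝ≥0∞) {k d : ℕ} (hk : 0 < k) :
    ∑' T : ℕ, (if d ≤ T * k then r (T * k - d) else 0) ≤ ∑' t, r t := by
  have h1 : ∑' T : ℕ, (if d ≤ T * k then r (T * k - d) else 0) =
      ∑' T : {T : ℕ | d ≤ T * k}, r ((T : ℕ) * k - d) := by
    rw [tsum_subtype {T : ℕ | d ≤ T * k} (fun T => r (T * k - d))]
    refine tsum_congr fun T => ?_
    by_cases hT : d ≤ T * k
    · rw [if_pos hT, Set.indicator_of_mem (show T ∈ {T : ℕ | d ≤ T * k} from hT)]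
    · rw [if_neg hT, Set.indicator_of_notMem (show T ∉ {T : ℕ | d ≤ T * k} from hT)]
  rw [h1]
  refine ENNReal.tsum_comp_le_tsum_of_injective
    (f := fun T : {T : ℕ | d ≤ T * k} => (T : ℕ) * k - d) ?_ r
  intro T T' h
  have h2 : d ≤ (T : ℕ) * k := T.2
  have h3 : d ≤ (T' : ℕ) * k := T'.2
  have h4 : (T : ℕ) * k - d = (T' : ℕ) * k - d := h
  have h5 : (T : ℕ) * k = (T' : ℕ) * k := by omega
  exact Subtype.ext (Nat.eq_of_mul_eq_mul_right hk h5)

end TCBWSA

/-- BWSA1. Small levels: only cuts close to the end matter, and the sum over all `T` costs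
nothing.

Proof. `C, c₁, κ` from `ClosP μ b a (-c) K ε c₀`; `r` for `x, β, D`; for every `T` the functional
`R^T` of `ClosP` for the process `subP (rvP W T) 0 (rr m)` (`rv_gau`, `Gau.subP`) and the family
`Bd T`. `A = ⋃ T, ⋃ d ∈ [1, d₀ + 1], {exp v ≤ R^T (T 4^m - d)}` (only `d ≤ T 4^m`). By Markov its
measure is at most `∑ d ∑ T exp (-v) r (T 4^m - d) ≤ (d₀ + 1) exp (-v)`: for fixed `d` the map
`T ↦ T 4^m - d` is injective on `{T | d ≤ T 4^m}` (`ENNReal.tsum_comp_le_tsum_of_injective` or a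
comparison of the sums), and `∑' t, r t ≤ 1`. Let `ω ∉ A`. The three alternatives of `ClosP` for
`M`: in the first one `t < T 4^m` and `T 4^m - t ≤ d₀ + 1` (as `T 4^m ≤ M + d₀`,
`D ≤ d₀`), so `R t ω < exp v`, and `Clo` is monotone in the value of the functional. -/
theorem clos_small [IsProbabilityMeasure μ] {a b c K ε c₀ : ℝ} (hC : ClosP μ b a (-c) K ε c₀) :
    ∃ C c₁ κ : ℝ, 1 ≤ C ∧ 0 < c₁ ∧ 1 ≤ κ ∧ ∀ (m : ℕ) (x β v : ℝ) (D d₀ : ℕ), 1 ≤ x → 0 ≤ β →
      1 ≤ D → D ≤ d₀ → ∀ W : ℝ → Ω → ℂ, Gau a b c K W μ → ∀ Bd : ℕ → ℕ → Set Ω,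
        (∀ T j : ℕ, MeasurableSet[Blk (subP (rvP W T) 0 (rr m)) j ((j : ℝ) + 1)] (Bd T j)) →
        (∀ T j, μ (Bd T j) ≤ ENNReal.ofReal (Real.exp (-(κ * β)))) →
        ∃ A, MeasurableSet A ∧ μ A ≤ ENNReal.ofReal (((d₀ : ℝ) + 1) * Real.exp (-v)) ∧
          ∀ ω ∉ A, ∀ (T : ℕ) (z : ℂ) (g : ℝ → ℂ) (x₀ : ℝ), x ≤ x₀ → ‖z‖ ≤ x₀ →
            Sol (psub (rvU (fun t => W t ω) T) 0 (rr m)) z (T * 4 ^ m : ℕ) g →
            Osc (psub (rvU (fun t => W t ω) T) 0 (rr m)) 1 x (T * 4 ^ m) →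
            (∀ s, s + D ≤ T * 4 ^ m →
              ¬ rider (psub (rvU (fun t => W t ω) T) 0 (rr m)) g 1 s D) →
            ∀ M ≤ T * 4 ^ m, T * 4 ^ m ≤ M + d₀ →
              Clo (psub (rvU (fun t => W t ω) T) 0 (rr m)) g c₁ β
                (C * (Real.log x + Real.log D + 1)) x₀ C (fun j => ω ∈ Bd T j) M
                (ENNReal.ofReal (Real.exp v)) ∨
              (∃ α < T * 4 ^ m, α ≤ M + D ∧
                ‖g α - psub (rvU (fun t => W t ω) T) 0 (rr m) α‖ ≤ x₀ + 3 ∧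
                CutFree (psub (rvU (fun t => W t ω) T) 0 (rr m)) g ε c₀ α (T * 4 ^ m : ℕ)) ∨
              T * 4 ^ m < D := by
  obtain ⟨C, c₁, κ, hC1, hc1, hκ, H⟩ := hC
  refine ⟨C, c₁, κ, hC1, hc1, hκ, ?_⟩
  intro m x β v D d₀ hx hβ hD hDd W hW Bd hBdm hBdμ
  obtain ⟨r, hr, Hr⟩ := H x β D hx hβ hD
  have hG : ∀ T : ℕ, Gau b a (-c) K (subP (rvP W T) 0 (rr m)) μ := fun T =>
    (rv_gau hW (Nat.cast_nonneg T)).subP le_rfl (TCBWSA.rr_pos m)
  choose R hRm hRi hR using fun T : ℕ => Hr (subP (rvP W T) 0 (rr m)) (hG T) (Bd T)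
    (fun j => hBdm T j) (fun j => hBdμ T j)
  have hv0 : ENNReal.ofReal (Real.exp v) ≠ 0 := by
    rw [Ne, ENNReal.ofReal_eq_zero, not_le]; exact Real.exp_pos v
  obtain ⟨A, hA⟩ : ∃ A : ℕ → ℕ → Set Ω, A = fun d T =>
      {ω | d ≤ T * 4 ^ m ∧ ENNReal.ofReal (Real.exp v) ≤ R T (T * 4 ^ m - d) ω} := ⟨_, rfl⟩
  have hAm : ∀ d T, MeasurableSet (A d T) := by
    intro d T
    rw [hA]
    exact (MeasurableSet.const _).inter (measurableSet_le measurable_const (hRm T _))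
  have hAμ : ∀ d T, μ (A d T) ≤ ENNReal.ofReal (Real.exp (-v)) *
      (if d ≤ T * 4 ^ m then r (T * 4 ^ m - d) else 0) := by
    intro d T
    by_cases hd : d ≤ T * 4 ^ m
    · rw [if_pos hd]
      have h1 : μ (A d T) ≤ μ {ω | ENNReal.ofReal (Real.exp v) ≤ R T (T * 4 ^ m - d) ω} := by
        refine measure_mono ?_
        rw [hA]
        exact fun ω hω => hω.2
      have h2 := meas_ge_le_lintegral_div (μ := μ) (hRm T (T * 4 ^ m - d)).aemeasurable hv0
        ENNReal.ofReal_ne_top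
      refine h1.trans (h2.trans ?_)
      rw [Real.exp_neg, ENNReal.ofReal_inv_of_pos (Real.exp_pos v), ENNReal.div_eq_inv_mul]
      gcongr
      exact hRi T _
    · have h1 : A d T = ∅ := by
        rw [hA]
        ext ω
        simp [hd]
      rw [h1, measure_empty]
      exact zero_le
  refine ⟨⋃ d ∈ Finset.Icc 1 (d₀ + 1), ⋃ T, A d T, ?_, ?_, ?_⟩
  · exact Finset.measurableSet_biUnion _ fun d _ => MeasurableSet.iUnion fun T => hAm d T
  · calc μ (⋃ d ∈ Finset.Icc 1 (d₀ + 1), ⋃ T, A d T)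
        ≤ ∑ d ∈ Finset.Icc 1 (d₀ + 1), μ (⋃ T, A d T) := measure_biUnion_finset_le _ _
      _ ≤ ∑ d ∈ Finset.Icc 1 (d₀ + 1), ENNReal.ofReal (Real.exp (-v)) := by
          refine Finset.sum_le_sum fun d _ => ?_
          calc μ (⋃ T, A d T) ≤ ∑' T, μ (A d T) := measure_iUnion_le _
            _ ≤ ∑' T : ℕ, ENNReal.ofReal (Real.exp (-v)) *
                (if d ≤ T * 4 ^ m then r (T * 4 ^ m - d) else 0) :=
                ENNReal.tsum_le_tsum fun T => hAμ d T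
            _ = ENNReal.ofReal (Real.exp (-v)) *
                ∑' T : ℕ, (if d ≤ T * 4 ^ m then r (T * 4 ^ m - d) else 0) :=
                ENNReal.tsum_mul_left
            _ ≤ ENNReal.ofReal (Real.exp (-v)) * 1 := by
                gcongr
                exact (TCBWSA.tsum_shift r (by positivity)).trans hr
            _ = ENNReal.ofReal (Real.exp (-v)) := mul_one _
      _ = ENNReal.ofReal (((d₀ : ℝ) + 1) * Real.exp (-v)) := by
          rw [Finset.sum_const, Nat.card_Icc, nsmul_eq_mul, ENNReal.ofReal_mul (by positivity)]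
          congr 1
          have e : d₀ + 1 + 1 - 1 = d₀ + 1 := by omega
          rw [e, ENNReal.ofReal_add (by positivity) zero_le_one, ENNReal.ofReal_natCast,
            ENNReal.ofReal_one]
          push_cast
          ring
  · intro ω hω T z g x₀ hxx hz hsol hosc hrid M hM hMd
    have hval : ∀ t < T * 4 ^ m, (M ≤ t + 1 ∨ T * 4 ^ m ≤ t + D) →
        R T t ω ≤ ENNReal.ofReal (Real.exp v) := by
      intro t ht htt
      by_contra hcon
      push Not at hcon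
      apply hω
      obtain ⟨N, hN⟩ : ∃ N, N = T * 4 ^ m := ⟨_, rfl⟩
      simp only [Set.mem_iUnion]
      refine ⟨T * 4 ^ m - t, Finset.mem_Icc.2 ⟨?_, ?_⟩, T, ?_⟩
      · rw [← hN] at ht ⊢; omega
      · rw [← hN] at ht htt hMd ⊢; omega
      · rw [hA]
        have e : T * 4 ^ m - (T * 4 ^ m - t) = t := by
          rw [← hN] at ht ⊢; omega
        refine ⟨Nat.sub_le _ _, ?_⟩
        rw [e]
        exact hcon.le
    rcases hR T ω (T * 4 ^ m) z g x₀ hxx hz hsol hosc hrid M hM with h1 | h1 | h1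
    · obtain ⟨t, ht, htt, hclo⟩ := h1
      exact Or.inl (TCBWSA.clo_mono (hval t ht htt) hclo)
    · obtain ⟨α, hα, hαM, hg, hcf, -⟩ := h1
      exact Or.inr (Or.inl ⟨α, hα, hαM, hg, hcf⟩)
    · exact Or.inr (Or.inr h1.1)

end

end Pool.Agent.SLE
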