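import Pool.Agent.Lib.MP_c17912_pr_TC.BWCF
import Pool.Agent.Lib.MP_c17912_pr.Gau

/-!
# MP_c17912_pr, project TC, backward critical case: the pattern bound on the deep levels

`(b, a, -c)` is forward critical. For all `T ≤ T₀` at once the closed pattern bound and the tail
estimate are applied to the reversed processes `rvP W T`, scaled by `rr m`.
-/

set_option autoImplicit false

open MeasureTheory ProbabilityTheory Filter
open scoped NNReal ENNReal Topology Real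

namespace Pool.Agent.SLE

noncomputable section

variable {Ω : Type*} [MeasurableSpace Ω] {μ : Measure Ω}

namespace TCBWSB

theorem f_cont {U : ℝ → ℂ} (hU : Continuous U) {z : ℂ} {T : ℝ} {g : ℝ → ℂ} (hg : Sol U z T g) :
    ContinuousOn (fun u => min 1 ‖g u - U u‖ / ‖g u - U u‖ ^ 2) (Set.Icc 0 T) := by
  have h1 := (TCBWRV.contOn hU hg).norm
  have h0 : Continuous fun x : ℝ => min 1 x := continuous_const.min continuous_id
  refine ContinuousOn.div (h0.comp_continuousOn h1) (h1.pow 2) ?_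
  intro u hu
  have h2 : g u - U u ≠ 0 := sub_ne_zero.2 (hg.2.1 u hu)
  exact pow_ne_zero 2 (norm_ne_zero_iff.2 h2)

theorem f_int {U : ℝ → ℂ} (hU : Continuous U) {z : ℂ} {T : ℝ} {g : ℝ → ℂ} (hg : Sol U z T g)
    {x y : ℝ} (hx : 0 ≤ x) (hxy : x ≤ y) (hy : y ≤ T) :
    IntervalIntegrable (fun u => min 1 ‖g u - U u‖ / ‖g u - U u‖ ^ 2) volume x y := by
  apply ContinuousOn.intervalIntegrable
  apply (f_cont hU hg).mono
  rw [Set.uIcc_of_le hxy]
  exact Set.Icc_subset_Icc hx hy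

theorem f_nonneg (U g : ℝ → ℂ) (u : ℝ) : 0 ≤ min 1 ‖g u - U u‖ / ‖g u - U u‖ ^ 2 :=
  div_nonneg (le_min zero_le_one (norm_nonneg _)) (sq_nonneg _)

theorem int_nonneg (U g : ℝ → ℂ) {x y : ℝ} (hxy : x ≤ y) :
    0 ≤ ∫ u in x..y, min 1 ‖g u - U u‖ / ‖g u - U u‖ ^ 2 :=
  intervalIntegral.integral_nonneg hxy fun u _ => f_nonneg U g u

open Classical in
theorem XX_succ (U g : ℝ → ℂ) (M : ℕ) : XX U g 1 (M + 1) = XX U g 1 M +
    if low U g 1 M then 0 else lk U g (M : ℝ) ((M : ℝ) + 1) := by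
  unfold XX
  rw [Finset.sum_range_succ, one_pow, mul_one, mul_one]

theorem lk_nonneg (U g : ℝ → ℂ) {x y : ℝ} (hxy : x ≤ y) : 0 ≤ lk U g x y :=
  intervalIntegral.integral_nonneg hxy fun u _ => by positivity

theorem XX_mono (U g : ℝ → ℂ) : Monotone (XX U g 1) := by
  refine monotone_nat_of_le_succ fun M => ?_
  rw [XX_succ]
  have h1 := lk_nonneg U g (by linarith : (M : ℝ) ≤ (M : ℝ) + 1)
  split_ifs
  · simp
  · linarith

theorem term_le {U : ℝ → ℂ} (g : ℝ → ℂ) {M : ℕ} (hn : ¬ low U g 1 M) :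
    lk U g (M : ℝ) ((M : ℝ) + 1) ≤
      ∫ u in (M : ℝ)..((M : ℝ) + 1), min 1 ‖g u - U u‖ / ‖g u - U u‖ ^ 2 := by
  refine le_of_eq ?_
  unfold lk
  refine intervalIntegral.integral_congr fun u hu => ?_
  rw [Set.uIcc_of_le (by linarith)] at hu
  have h1 : 1 ≤ ‖g u - U u‖ := by
    by_contra h5
    refine hn ⟨u, ⟨?_, ?_⟩, (not_le.1 h5).le⟩
    · rw [one_pow, mul_one]; exact hu.1
    · rw [one_pow, mul_one]; exact hu.2
  rw [min_eq_left h1]

theorem XX_tail' {U : ℝ → ℂ} (hU : Continuous U) {z : ℂ} {T : ℝ} {g : ℝ → ℂ}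
    (hg : Sol U z T g) (α k : ℕ) (hk : ((α + k : ℕ) : ℝ) ≤ T) :
    XX U g 1 (α + k) ≤ XX U g 1 α +
      ∫ u in (α : ℝ)..((α + k : ℕ) : ℝ), min 1 ‖g u - U u‖ / ‖g u - U u‖ ^ 2 := by
  induction k with
  | zero => simp
  | succ k ih =>
    have hα : (0 : ℝ) ≤ α := Nat.cast_nonneg α
    have hk0 : (0 : ℝ) ≤ k := Nat.cast_nonneg k
    have hk1 : ((α + k : ℕ) : ℝ) + 1 ≤ T := by
      refine le_trans (le_of_eq ?_) hk
      push_cast
      ring
    have ih' := ih (by linarith)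
    have hle : (α : ℝ) ≤ ((α + k : ℕ) : ℝ) := by push_cast; linarith
    have h1 := intervalIntegral.integral_add_adjacent_intervals
      (f_int hU hg hα hle (by linarith))
      (f_int hU hg (hα.trans hle) (by linarith : ((α + k : ℕ) : ℝ) ≤ ((α + k : ℕ) : ℝ) + 1) hk1)
    have e1 : ((α + (k + 1) : ℕ) : ℝ) = ((α + k : ℕ) : ℝ) + 1 := by push_cast; ring
    rw [e1, ← h1, ← add_assoc α k 1, XX_succ]
    split_ifs with hl
    · have h2 := int_nonneg U g (by linarith : ((α + k : ℕ) : ℝ) ≤ ((α + k : ℕ) : ℝ) + 1)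
      linarith
    · have h2 := term_le g hl
      linarith

theorem XX_tail {U : ℝ → ℂ} (hU : Continuous U) {z : ℂ} {N : ℕ} {g : ℝ → ℂ}
    (hg : Sol U z N g) {α M : ℕ} (hαM : α ≤ M) (hM : M ≤ N) :
    XX U g 1 M ≤ XX U g 1 α +
      ∫ u in (α : ℝ)..(N : ℝ), min 1 ‖g u - U u‖ / ‖g u - U u‖ ^ 2 := by
  obtain ⟨k, rfl⟩ := Nat.exists_eq_add_of_le hαM
  have hM' : ((α + k : ℕ) : ℝ) ≤ N := by exact_mod_cast hM
  have hα : (0 : ℝ) ≤ α := Nat.cast_nonneg α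
  have hle : (α : ℝ) ≤ ((α + k : ℕ) : ℝ) := by exact_mod_cast hαM
  have h1 := XX_tail' hU hg α k hM'
  have h2 := intervalIntegral.integral_add_adjacent_intervals
    (f_int hU hg hα hle hM') (f_int hU hg (hα.trans hle) hM' le_rfl)
  have h3 := int_nonneg U g hM'
  linarith

open Classical in
theorem clo_real {U g : ℝ → ℂ} {c₁ β κ m₀ C v : ℝ} {Bad : ℕ → Prop} {M : ℕ} {ρ : ℝ≥0∞}
    (hρ : ρ ≤ ENNReal.ofReal (Real.exp v)) (h : Clo U g c₁ β κ m₀ C Bad M ρ) :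
    ∃ Q : Finset ℕ, (∀ j ∈ Q, tr U g 1 j ∧ j + 1 < M) ∧
      c₁ * XX U g 1 M + β * (Q.filter Bad).card ≤
        ((Q.card : ℝ) + 3) * κ + C * Real.log (m₀ + 1) + v := by
  obtain ⟨Q, hQ, hb⟩ := h
  refine ⟨Q, hQ, ?_⟩
  have h1 := hb.trans (mul_le_mul_right hρ _)
  rw [← ENNReal.ofReal_mul (Real.exp_pos _).le, ← Real.exp_add,
    ENNReal.ofReal_le_ofReal_iff (Real.exp_pos _).le, Real.exp_le_exp] at h1
  exact h1

/-- The bound of the tail. -/
theorem tail_real {C c₁ I v : ℝ} {p H H₀ : ℕ} {Y : ℝ≥0∞} (hC : 1 ≤ C)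
    (hc₁ : 0 < c₁) (hH : 1 ≤ H) (hv : 0 ≤ v) (hY : Y ≤ ENNReal.ofReal (Real.exp v))
    (h : ENNReal.ofReal (Real.exp (c₁ / ((max H H₀ : ℕ) : ℝ) ^ 2 * I)) ≤
      ENNReal.ofReal (C * ((2 : ℝ) ^ (max H H₀) * 2 ^ (max H H₀)) ^ p) * Y) :
    I ≤ 1 / c₁ * ((H₀ : ℝ) + 1) ^ 2 * (Real.log C + 2 * p * (H₀ + 1) + 1) *
      ((H : ℝ) ^ 2 * (H + v + 1)) := by
  obtain ⟨G, hG⟩ : ∃ G : ℕ, G = max H H₀ := ⟨_, rfl⟩
  rw [← hG] at h
  have hG1 : 1 ≤ G := by rw [hG]; exact hH.trans (le_max_left _ _)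
  have hGr : (1 : ℝ) ≤ G := by exact_mod_cast hG1
  have hGle : (G : ℝ) ≤ ((H₀ : ℝ) + 1) * H := by
    have h1 : G ≤ (H₀ + 1) * H := by
      rw [hG]
      refine max_le (Nat.le_mul_of_pos_left _ (by omega)) ?_
      calc H₀ ≤ (H₀ + 1) * 1 := by omega
        _ ≤ (H₀ + 1) * H := Nat.mul_le_mul_left _ hH
    exact_mod_cast h1
  have hH0 : (0 : ℝ) ≤ H₀ := Nat.cast_nonneg _
  have hHr : (1 : ℝ) ≤ H := by exact_mod_cast hH
  have hp : (0 : ℝ) ≤ p := Nat.cast_nonneg _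
  have hCpos : 0 < C := by linarith
  have h1 := h.trans (mul_le_mul_right hY _)
  have hpos : 0 < C * ((2 : ℝ) ^ G * 2 ^ G) ^ p := by positivity
  rw [← ENNReal.ofReal_mul hpos.le, ENNReal.ofReal_le_ofReal_iff (by positivity)] at h1
  have h2 := Real.log_le_log (Real.exp_pos _) h1
  rw [Real.log_exp, Real.log_mul hpos.ne' (Real.exp_pos _).ne', Real.log_exp,
    Real.log_mul hCpos.ne' (by positivity), Real.log_pow, Real.log_mul (by positivity)
    (by positivity), Real.log_pow] at h2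
  have hlog2 : Real.log 2 ≤ 1 := by
    have h3 := Real.log_two_lt_d9
    linarith
  have hlogC : 0 ≤ Real.log C := Real.log_nonneg hC
  have h4 : c₁ / (G : ℝ) ^ 2 * I ≤ Real.log C + p * (G + G) + v := by
    refine h2.trans ?_
    have h5 : (G : ℝ) * Real.log 2 ≤ G * 1 := mul_le_mul_of_nonneg_left hlog2 (by linarith)
    have h6 : (p : ℝ) * (G * Real.log 2 + G * Real.log 2) ≤ p * (G + G) :=
      mul_le_mul_of_nonneg_left (by linarith) hp
    linarith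
  have h5 : Real.log C + p * (G + G) + v ≤
      (Real.log C + 2 * p * (H₀ + 1) + 1) * (H + v + 1) := by
    have h6 : (p : ℝ) * (G + G) ≤ p * (((H₀ : ℝ) + 1) * H + ((H₀ : ℝ) + 1) * H) :=
      mul_le_mul_of_nonneg_left (by linarith) hp
    have h7 : 0 ≤ 2 * (p : ℝ) * (H₀ + 1) := by positivity
    nlinarith [mul_nonneg hlogC (by linarith : (0 : ℝ) ≤ H + v),
      mul_nonneg h7 (by linarith : (0 : ℝ) ≤ v + 1)]
  have hR0 : 0 ≤ (Real.log C + 2 * p * (H₀ + 1) + 1) * (H + v + 1) := by positivity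
  have h6 : I ≤ (G : ℝ) ^ 2 / c₁ * ((Real.log C + 2 * p * (H₀ + 1) + 1) * (H + v + 1)) := by
    have h7 := mul_le_mul_of_nonneg_left (h4.trans h5) (by positivity : 0 ≤ (G : ℝ) ^ 2 / c₁)
    have h8 : (G : ℝ) ^ 2 / c₁ * (c₁ / (G : ℝ) ^ 2 * I) = I := by
      field_simp
    rwa [h8] at h7
  refine h6.trans ?_
  have h7 : (G : ℝ) ^ 2 ≤ ((H₀ : ℝ) + 1) ^ 2 * (H : ℝ) ^ 2 := by
    rw [← mul_pow]
    exact pow_le_pow_left₀ (by linarith) hGle 2
  calc (G : ℝ) ^ 2 / c₁ * ((Real.log C + 2 * p * (H₀ + 1) + 1) * (H + v + 1))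
      ≤ ((H₀ : ℝ) + 1) ^ 2 * (H : ℝ) ^ 2 / c₁ *
        ((Real.log C + 2 * p * (H₀ + 1) + 1) * (H + v + 1)) := by gcongr
    _ = _ := by ring

end TCBWSB

/-- BWSB1. Deep levels: a crude union over all `T ≤ T₀` and all cuts, with the tail.

Proof. As `clos_small` (BWSA.lean) with `A₁ = ⋃ T ≤ T₀, ⋃ t < T 4^m, {exp v ≤ R^T t}`:
measure at most `(T₀ + 1) exp (-v) ∑' t, r t`. For the tails: `C', c₁', p, H₀` from `TailP`,
`H' = max H H₀`; for `T ≤ T₀` and `α < T 4^m` let `Y^(T,α)` be the functional of `TailP` for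
the process `subP (subP (rvP W T) 0 (rr m)) α 1`, `H'`, `s = max 1 (2^H')`, the time `T 4^m - α`,
and `A₂` the union of the events `{exp v ≤ Y}`: at most `(T₀ + 1)^2 4^m exp (-v)`.
Let `ω ∉ A₁ ∪ A₂`. First alternative of `ClosP`: done (`tail ≥ 0`). Second one: `cf_shift`-type
shift by `α` (`Sol.shift` with `r = 1`; `CutFree` depends only on differences of `ph`; see
BWCF.lean) gives
`c₁' / H'^2 * ∫_α^(T 4^m) min 1 |Z| / |Z|^2 ≤ log C' + p log (s 2^H') + v`; the left side is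
at least `c₁' / H'^2` times the clock of the cells `α ≤ j < M` which are not low (`|Z| ≥ 1`
there, so `min 1 |Z| / |Z|^2 = 1 / |Z|^2`), so
`XX M ≤ XX (min α M) + C H^2 (H + v + 1)`; and `Clo` at `min α M` (or `XX (min α M) = 0`, `Q = ∅`).
Third one: `XX M ≤ XX (T 4^m) = 0`. -/
theorem clos_deep [IsProbabilityMeasure μ] {a b c K ε c₀ : ℝ} (hC : ClosP μ b a (-c) K ε c₀)
    (hT : TailP μ b a (-c) K ε c₀) (hc₀ : 0 ≤ c₀) :
    ∃ C c₁ κ : ℝ, 1 ≤ C ∧ 0 < c₁ ∧ 1 ≤ κ ∧ ∀ (m : ℕ) (x β v : ℝ) (D H T₀ : ℕ), 1 ≤ x → 0 ≤ β →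
      1 ≤ D → 1 ≤ H → 0 ≤ v → ∀ W : ℝ → Ω → ℂ, Gau a b c K W μ → ∀ Bd : ℕ → ℕ → Set Ω,
        (∀ T j : ℕ, MeasurableSet[Blk (subP (rvP W T) 0 (rr m)) j ((j : ℝ) + 1)] (Bd T j)) →
        (∀ T j, μ (Bd T j) ≤ ENNReal.ofReal (Real.exp (-(κ * β)))) →
        ∃ A, MeasurableSet A ∧
          μ A ≤ ENNReal.ofReal (2 * ((T₀ : ℝ) + 1) ^ 2 * 4 ^ m * Real.exp (-v)) ∧
          ∀ ω ∉ A, ∀ (T : ℕ) (z : ℂ) (g : ℝ → ℂ) (x₀ : ℝ), T ≤ T₀ → x ≤ x₀ → ‖z‖ ≤ x₀ →
            Sol (psub (rvU (fun t => W t ω) T) 0 (rr m)) z (T * 4 ^ m : ℕ) g →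
            (∀ u ∈ Set.Icc (0 : ℝ) (T * 4 ^ m : ℕ),
              ‖g u - psub (rvU (fun t => W t ω) T) 0 (rr m) u‖ ≤ 2 ^ H) →
            Osc (psub (rvU (fun t => W t ω) T) 0 (rr m)) 1 x (T * 4 ^ m) →
            (∀ s, s + D ≤ T * 4 ^ m →
              ¬ rider (psub (rvU (fun t => W t ω) T) 0 (rr m)) g 1 s D) →
            ∀ M ≤ T * 4 ^ m, open Classical in ∃ Q : Finset ℕ,
              (∀ j ∈ Q, tr (psub (rvU (fun t => W t ω) T) 0 (rr m)) g 1 j ∧ j + 1 < M) ∧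
              c₁ * XX (psub (rvU (fun t => W t ω) T) 0 (rr m)) g 1 M +
                  β * (Q.filter fun j => ω ∈ Bd T j).card ≤
                ((Q.card : ℝ) + 3) * (C * (Real.log x + Real.log D + 1)) +
                  C * Real.log (x₀ + 1) + v + C * (H : ℝ) ^ 2 * (H + v + 1) := by
  obtain ⟨C, c₁, κ, hC1, hc1, hκ, HC⟩ := hC
  obtain ⟨C', c₁', p, H₀, hC1', hc1', HT⟩ := hT
  obtain ⟨B, hB⟩ : ∃ B : ℝ, B = 1 / c₁' * ((H₀ : ℝ) + 1) ^ 2 *
    (Real.log C' + 2 * p * (H₀ + 1) + 1) := ⟨_, rfl⟩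
  have hlogC' : 0 ≤ Real.log C' := Real.log_nonneg hC1'
  have hB0 : 0 ≤ B := by rw [hB]; positivity
  have hcB : 0 ≤ c₁ * B := mul_nonneg hc1.le hB0
  refine ⟨C + c₁ * B, c₁, κ, by linarith, hc1, hκ, ?_⟩
  intro m x β v D H T₀ hx hβ hD hH hv W hW Bd hBdm hBdμ
  obtain ⟨r, hr, Hr⟩ := HC x β D hx hβ hD
  have hG : ∀ T : ℕ, Gau b a (-c) K (subP (rvP W T) 0 (rr m)) μ := fun T =>
    (rv_gau hW (Nat.cast_nonneg T)).subP le_rfl (TRSCL.rr_pos m)
  choose R hRm hRi hR using fun T : ℕ => Hr (subP (rvP W T) 0 (rr m)) (hG T) (Bd T)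
    (fun j => hBdm T j) (fun j => hBdμ T j)
  have hG' : ∀ T α : ℕ, Gau b a (-c) K (subP (subP (rvP W T) 0 (rr m)) α 1) μ := fun T α =>
    (hG T).subP (Nat.cast_nonneg α) one_pos
  choose Y hYm hYi hY using fun T α : ℕ => HT (subP (subP (rvP W T) 0 (rr m)) α 1) (hG' T α)
    (max H H₀) (le_max_right _ _) (2 ^ (max H H₀)) (one_le_pow₀ one_le_two) (T * 4 ^ m - α)
  have hv0 : ENNReal.ofReal (Real.exp v) ≠ 0 := by
    rw [Ne, ENNReal.ofReal_eq_zero, not_le]; exact Real.exp_pos v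
  have hmark : ∀ (F : Ω → ℝ≥0∞) (s : ℝ≥0∞), Measurable F → ∫⁻ ω, F ω ∂μ ≤ s →
      μ {ω | ENNReal.ofReal (Real.exp v) ≤ F ω} ≤ ENNReal.ofReal (Real.exp (-v)) * s := by
    intro F s hF hs
    have h2 := meas_ge_le_lintegral_div (μ := μ) hF.aemeasurable hv0 ENNReal.ofReal_ne_top
    refine h2.trans ?_
    rw [Real.exp_neg, ENNReal.ofReal_inv_of_pos (Real.exp_pos v), ENNReal.div_eq_inv_mul]
    gcongr
  obtain ⟨A₁, hA₁⟩ : ∃ A₁ : Set Ω, A₁ = ⋃ T ∈ Finset.range (T₀ + 1), ⋃ t,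
    {ω | ENNReal.ofReal (Real.exp v) ≤ R T t ω} := ⟨_, rfl⟩
  obtain ⟨A₂, hA₂⟩ : ∃ A₂ : Set Ω, A₂ = ⋃ T ∈ Finset.range (T₀ + 1),
    ⋃ α ∈ Finset.range (T₀ * 4 ^ m), {ω | ENNReal.ofReal (Real.exp v) ≤ Y T α ω} := ⟨_, rfl⟩
  have hm1 : MeasurableSet A₁ := by
    rw [hA₁]
    exact Finset.measurableSet_biUnion _ fun T _ => MeasurableSet.iUnion fun t =>
      measurableSet_le measurable_const (hRm T t)
  have hm2 : MeasurableSet A₂ := by
    rw [hA₂]
    exact Finset.measurableSet_biUnion _ fun T _ => Finset.measurableSet_biUnion _ fun α _ =>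
      measurableSet_le measurable_const (hYm T α)
  have hμ1 : μ A₁ ≤ ENNReal.ofReal (((T₀ : ℝ) + 1) ^ 2 * 4 ^ m * Real.exp (-v)) := by
    have h1 : μ A₁ ≤ ∑ T ∈ Finset.range (T₀ + 1), ENNReal.ofReal (Real.exp (-v)) := by
      rw [hA₁]
      refine (measure_biUnion_finset_le _ _).trans (Finset.sum_le_sum fun T _ => ?_)
      calc μ (⋃ t, {ω | ENNReal.ofReal (Real.exp v) ≤ R T t ω})
          ≤ ∑' t, μ {ω | ENNReal.ofReal (Real.exp v) ≤ R T t ω} := measure_iUnion_le _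
        _ ≤ ∑' t, ENNReal.ofReal (Real.exp (-v)) * r t :=
            ENNReal.tsum_le_tsum fun t => hmark _ _ (hRm T t) (hRi T t)
        _ = ENNReal.ofReal (Real.exp (-v)) * ∑' t, r t := ENNReal.tsum_mul_left
        _ ≤ ENNReal.ofReal (Real.exp (-v)) * 1 := by gcongr
        _ = ENNReal.ofReal (Real.exp (-v)) := mul_one _
    refine h1.trans ?_
    rw [Finset.sum_const, Finset.card_range, nsmul_eq_mul, ← ENNReal.ofReal_natCast,
      ← ENNReal.ofReal_mul (by positivity)]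
    refine ENNReal.ofReal_le_ofReal (mul_le_mul_of_nonneg_right ?_ (Real.exp_pos _).le)
    have h2 : (1 : ℝ) ≤ (T₀ : ℝ) + 1 := by
      have : (0 : ℝ) ≤ T₀ := Nat.cast_nonneg _
      linarith
    have h3 : (1 : ℝ) ≤ 4 ^ m := one_le_pow₀ (by norm_num)
    have h4 : ((T₀ : ℝ) + 1) * 1 ≤ ((T₀ : ℝ) + 1) ^ 2 := by
      rw [sq]
      exact mul_le_mul_of_nonneg_left h2 (by linarith)
    have h5 : ((T₀ : ℝ) + 1) ^ 2 * 1 ≤ ((T₀ : ℝ) + 1) ^ 2 * 4 ^ m :=
      mul_le_mul_of_nonneg_left h3 (by positivity)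
    push_cast
    linarith
  have hμ2 : μ A₂ ≤ ENNReal.ofReal (((T₀ : ℝ) + 1) ^ 2 * 4 ^ m * Real.exp (-v)) := by
    have h1 : μ A₂ ≤ ∑ T ∈ Finset.range (T₀ + 1), ∑ α ∈ Finset.range (T₀ * 4 ^ m),
        ENNReal.ofReal (Real.exp (-v)) := by
      rw [hA₂]
      refine (measure_biUnion_finset_le _ _).trans (Finset.sum_le_sum fun T _ => ?_)
      refine (measure_biUnion_finset_le _ _).trans (Finset.sum_le_sum fun α _ => ?_)
      refine (hmark _ _ (hYm T α) (hYi T α)).trans (le_of_eq (mul_one _))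
    refine h1.trans ?_
    rw [Finset.sum_const, Finset.sum_const, Finset.card_range, Finset.card_range, nsmul_eq_mul,
      nsmul_eq_mul, ← mul_assoc, ← Nat.cast_mul, ← ENNReal.ofReal_natCast,
      ← ENNReal.ofReal_mul (by positivity)]
    refine ENNReal.ofReal_le_ofReal (mul_le_mul_of_nonneg_right ?_ (Real.exp_pos _).le)
    have h2 : (0 : ℝ) ≤ T₀ := Nat.cast_nonneg _
    push_cast
    rw [sq, mul_assoc]
    refine mul_le_mul_of_nonneg_left ?_ (by linarith)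
    exact mul_le_mul_of_nonneg_right (by linarith) (by positivity)
  refine ⟨A₁ ∪ A₂, hm1.union hm2, ?_, ?_⟩
  · refine (measure_union_le _ _).trans ((add_le_add hμ1 hμ2).trans (le_of_eq ?_))
    rw [← ENNReal.ofReal_add (by positivity) (by positivity)]
    congr 1
    ring
  intro ω hω T z g x₀ hT hxx hz hsol hgb hosc hrid M hM
  have hω1 : ω ∉ A₁ := fun h => hω (Or.inl h)
  have hω2 : ω ∉ A₂ := fun h => hω (Or.inr h)
  have hval : ∀ t, R T t ω ≤ ENNReal.ofReal (Real.exp v) := by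
    intro t
    by_contra hcon
    push Not at hcon
    apply hω1
    rw [hA₁]
    simp only [Set.mem_iUnion]
    exact ⟨T, Finset.mem_range.2 (by omega), t, hcon.le⟩
  have hval2 : ∀ α < T * 4 ^ m, Y T α ω ≤ ENNReal.ofReal (Real.exp v) := by
    intro α hα
    by_contra hcon
    push Not at hcon
    apply hω2
    rw [hA₂]
    simp only [Set.mem_iUnion]
    refine ⟨T, Finset.mem_range.2 (by omega), α, Finset.mem_range.2 ?_, hcon.le⟩
    exact hα.trans_le (Nat.mul_le_mul_right _ hT)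
  have hxlog : 0 ≤ Real.log x := Real.log_nonneg hx
  have hDr : (1 : ℝ) ≤ D := by exact_mod_cast hD
  have hDlog : 0 ≤ Real.log D := Real.log_nonneg hDr
  have hx0log : 0 ≤ Real.log (x₀ + 1) := Real.log_nonneg (by linarith)
  have hHr : (1 : ℝ) ≤ H := by exact_mod_cast hH
  obtain ⟨E, hE⟩ : ∃ E : ℝ, E = (H : ℝ) ^ 2 * (H + v + 1) := ⟨_, rfl⟩
  have hE0 : 0 ≤ E := by rw [hE]; positivity
  have hfin : ∀ (n : ℕ) (X F : ℝ), X + F ≤ ((n : ℝ) + 3) * (C * (Real.log x + Real.log D + 1)) +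
      C * Real.log (x₀ + 1) + v + c₁ * B * E →
      X + F ≤ ((n : ℝ) + 3) * ((C + c₁ * B) * (Real.log x + Real.log D + 1)) +
        (C + c₁ * B) * Real.log (x₀ + 1) + v + (C + c₁ * B) * (H : ℝ) ^ 2 * (H + v + 1) := by
    intro n X F h
    have h1 : 0 ≤ ((n : ℝ) + 3) * (c₁ * B * (Real.log x + Real.log D + 1)) := by positivity
    have h2 : 0 ≤ c₁ * B * Real.log (x₀ + 1) := mul_nonneg hcB hx0log
    have h3 : 0 ≤ C * E := mul_nonneg (by linarith) hE0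
    have h4 : (C + c₁ * B) * (H : ℝ) ^ 2 * (H + v + 1) = C * E + c₁ * B * E := by
      rw [hE]
      ring
    rw [h4]
    linarith
  have hcont : Continuous (psub (rvU (fun t => W t ω) T) 0 (rr m)) :=
    TCBWCF.psub_cont (rv_cont (hW.cont ω)) 0 (rr m)
  rcases hR T ω (T * 4 ^ m) z g x₀ hxx hz hsol hosc hrid M hM with h1 | h1 | h1
  · obtain ⟨t, ht, -, hclo⟩ := h1
    obtain ⟨Q, hQ, hb⟩ := TCBWSB.clo_real
        (U := psub (rvU (fun t => W t ω) T) 0 (rr m)) (hval t) hclo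
    refine ⟨Q, hQ, hfin _ _ _ (hb.trans ?_)⟩
    have h2 : 0 ≤ c₁ * B * E := mul_nonneg hcB hE0
    linarith
  · obtain ⟨α, hα, hαM, -, hcf, halt⟩ := h1
    obtain ⟨N, hN⟩ : ∃ N, N = T * 4 ^ m := ⟨_, rfl⟩
    have htail : XX (psub (rvU (fun t => W t ω) T) 0 (rr m)) g 1 M ≤
        XX (psub (rvU (fun t => W t ω) T) 0 (rr m)) g 1 (min α M) + B * E := by
      rcases le_total M α with hle | hle
      · rw [min_eq_right hle]
        have := mul_nonneg hB0 hE0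
        linarith
      · rw [min_eq_left hle]
        refine (TCBWSB.XX_tail hcont hsol hle hM).trans ?_
        have hα0 : (0 : ℝ) ≤ α := Nat.cast_nonneg α
        have hu0 : (0 : ℝ) ≤ ((T * 4 ^ m - α : ℕ) : ℝ) := Nat.cast_nonneg _
        have hsum : (α : ℝ) + ((T * 4 ^ m - α : ℕ) : ℝ) = ((T * 4 ^ m : ℕ) : ℝ) := by
          rw [← Nat.cast_add, Nat.add_sub_of_le hα.le]
        have hsol' : Sol (psub (rvU (fun t => W t ω) T) 0 (rr m)) z
            ((α : ℝ) + ((T * 4 ^ m - α : ℕ) : ℝ)) g := by rw [hsum]; exact hsol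
        have hcf' : CutFree (psub (rvU (fun t => W t ω) T) 0 (rr m)) g ε c₀ α
            ((α : ℝ) + ((T * 4 ^ m - α : ℕ) : ℝ)) := by rw [hsum]; exact hcf
        obtain ⟨hs2, hcf2, hZ⟩ := cf_shift hcont hα0 hu0 hsol' hcf'
        have hpow : (2 : ℝ) ^ H ≤ 2 ^ (max H H₀) :=
          pow_le_pow_right₀ one_le_two (le_max_left _ _)
        have hstart : ‖g α - psub (rvU (fun t => W t ω) T) 0 (rr m) α‖ ≤ 2 ^ (max H H₀) := by
          refine (hgb α ⟨hα0, ?_⟩).trans hpow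
          exact_mod_cast hα.le
        have hgb2 : ∀ u ∈ Set.Icc (0 : ℝ) ((T * 4 ^ m - α : ℕ) : ℝ),
            ‖gs (psub (rvU (fun t => W t ω) T) 0 (rr m)) g α 1 u -
              psub (psub (rvU (fun t => W t ω) T) 0 (rr m)) α 1 u‖ ≤ 2 ^ (max H H₀) := by
          intro u hu
          rw [hZ u hu]
          refine (hgb (α + u) ⟨by linarith [hu.1], ?_⟩).trans hpow
          rw [← hsum]
          linarith [hu.2]
        have hYY := hY T α ω _ _ hstart hs2 hgb2 hcf2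
        have hI : (∫ u in (0 : ℝ)..((T * 4 ^ m - α : ℕ) : ℝ),
            min 1 ‖gs (psub (rvU (fun t => W t ω) T) 0 (rr m)) g α 1 u -
              psub (psub (rvU (fun t => W t ω) T) 0 (rr m)) α 1 u‖ /
            ‖gs (psub (rvU (fun t => W t ω) T) 0 (rr m)) g α 1 u -
              psub (psub (rvU (fun t => W t ω) T) 0 (rr m)) α 1 u‖ ^ 2) =
            ∫ u in (α : ℝ)..((T * 4 ^ m : ℕ) : ℝ),
              min 1 ‖g u - psub (rvU (fun t => W t ω) T) 0 (rr m) u‖ /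
                ‖g u - psub (rvU (fun t => W t ω) T) 0 (rr m) u‖ ^ 2 := by
          have h2 := intervalIntegral.integral_comp_add_left (a := 0)
            (b := ((T * 4 ^ m - α : ℕ) : ℝ))
            (fun u => min 1 ‖g u - psub (rvU (fun t => W t ω) T) 0 (rr m) u‖ /
              ‖g u - psub (rvU (fun t => W t ω) T) 0 (rr m) u‖ ^ 2) (α : ℝ)
          rw [add_zero, hsum] at h2
          rw [← h2]
          refine intervalIntegral.integral_congr fun u hu => ?_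
          rw [Set.uIcc_of_le hu0] at hu
          rw [hZ u hu]
        have h3 := TCBWSB.tail_real hC1' hc1' hH hv
          (hval2 α hα) hYY
        have h4 : (∫ u in (α : ℝ)..((T * 4 ^ m : ℕ) : ℝ),
              min 1 ‖g u - psub (rvU (fun t => W t ω) T) 0 (rr m) u‖ /
                ‖g u - psub (rvU (fun t => W t ω) T) 0 (rr m) u‖ ^ 2) ≤ B * E := by
          rw [hB, hE, ← hI]
          exact h3
        linarith
    have htail' := mul_le_mul_of_nonneg_left htail hc1.le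
    rcases halt with h0 | ⟨t, ht, hclo⟩
    · refine ⟨∅, by simp, ?_⟩
      refine hfin _ _ _ ?_
      have h0' : XX (psub (rvU (fun t => W t ω) T) 0 (rr m)) g 1 (min α M) = 0 := h0
      rw [h0'] at htail'
      have h5 : 0 ≤ ((0 : ℝ) + 3) * (C * (Real.log x + Real.log D + 1)) := by positivity
      have h6 : 0 ≤ C * Real.log (x₀ + 1) := mul_nonneg (by linarith) hx0log
      simp only [Finset.filter_empty, Finset.card_empty, Nat.cast_zero, mul_zero, add_zero]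
      linarith
    · obtain ⟨Q, hQ, hb⟩ := TCBWSB.clo_real
        (U := psub (rvU (fun t => W t ω) T) 0 (rr m)) (hval t) hclo
      refine ⟨Q, fun j hj => ⟨(hQ j hj).1, (hQ j hj).2.trans_le (min_le_right _ _)⟩,
        hfin _ _ _ ?_⟩
      linarith
  · have h2 : XX (psub (rvU (fun t => W t ω) T) 0 (rr m)) g 1 M ≤ 0 := by
      refine (TCBWSB.XX_mono _ _ hM).trans (le_of_eq ?_)
      exact h1.2
    refine ⟨∅, by simp, ?_⟩
    refine hfin _ _ _ ?_
    have h3 := mul_le_mul_of_nonneg_left h2 hc1.le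
    have h5 : 0 ≤ ((0 : ℝ) + 3) * (C * (Real.log x + Real.log D + 1)) := by positivity
    have h6 : 0 ≤ C * Real.log (x₀ + 1) := mul_nonneg (by linarith) hx0log
    have h7 : 0 ≤ c₁ * B * E := mul_nonneg hcB hE0
    simp only [Finset.filter_empty, Finset.card_empty, Nat.cast_zero, mul_zero, add_zero]
    linarith

end

end Pool.Agent.SLE
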