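import Pool.Agent.Lib.MP_c17912_pr_TC.BWSA
import Pool.Agent.Lib.MP_c17912_pr_TC.BWSB
import Pool.Agent.Lib.MP_c17912_pr_TR.STA

/-!
# MP_c17912_pr, project TC, backward critical case: one level

`(a, b, c)` is backward critical. For a solution `g` on `[0,T]` which starts in the unit disc, the
reversed solution is considered on the cells `j < (T - 4^(Nat.sqrt n)) 4^m` of the mesh
`(rr m)^2`.
-/

set_option autoImplicit false

open MeasureTheory ProbabilityTheory Filter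
open scoped NNReal ENNReal Topology Real

namespace Pool.Agent.SLE

noncomputable section

namespace TCBWSC

theorem XX_nonneg (U g : ℝ → ℂ) (r : ℝ) (M : ℕ) : 0 ≤ XX U g r M := by
  unfold XX
  refine Finset.sum_nonneg fun j _ => ?_
  split_ifs
  · exact le_rfl
  · unfold lk
    refine intervalIntegral.integral_nonneg ?_ fun u _ => by positivity
    nlinarith [sq_nonneg r]

theorem psub_eq (U : ℝ → ℂ) {r u : ℝ} (hu : 0 ≤ u) :
    psub U 0 r u = r⁻¹ • (U (r ^ 2 * u) - U 0) := by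
  unfold psub
  rw [max_eq_left hu, zero_add]

theorem psub_sub (U : ℝ → ℂ) {r u v : ℝ} (hr : 0 < r) (hu : 0 ≤ u) (hv : 0 ≤ v) :
    ‖psub U 0 r u - psub U 0 r v‖ = r⁻¹ * ‖U (r ^ 2 * u) - U (r ^ 2 * v)‖ := by
  rw [psub_eq U hu, psub_eq U hv, ← smul_sub, norm_smul, Real.norm_of_nonneg (by positivity),
    sub_sub_sub_cancel_right]

theorem osc_down {U : ℝ → ℂ} {r x : ℝ} {N : ℕ} (hr : 0 < r) (h : Osc (psub U 0 r) 1 x N) :
    Osc U r (x * r) N := by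
  intro j hj u hu v hv
  have hr2 : 0 < r ^ 2 := by positivity
  have key : ∀ w ∈ Set.Icc ((j : ℝ) * r ^ 2) (((j : ℝ) + 1) * r ^ 2),
      0 ≤ w / r ^ 2 ∧ w / r ^ 2 ∈ Set.Icc ((j : ℝ) * 1 ^ 2) (((j : ℝ) + 1) * 1 ^ 2) ∧
        r ^ 2 * (w / r ^ 2) = w := by
    intro w hw
    refine ⟨div_nonneg (le_trans (by positivity) hw.1) hr2.le, ⟨?_, ?_⟩,
      mul_div_cancel₀ _ hr2.ne'⟩
    · rw [one_pow, mul_one, le_div_iff₀ hr2]
      exact hw.1
    · rw [one_pow, mul_one, div_le_iff₀ hr2]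
      exact hw.2
  obtain ⟨hu0, hu1, hu2⟩ := key u hu
  obtain ⟨hv0, hv1, hv2⟩ := key v hv
  have := h j hj _ hu1 _ hv1
  rw [psub_sub U hr hu0 hv0, hu2, hv2, inv_mul_le_iff₀ hr] at this
  linarith

theorem osc_up {U : ℝ → ℂ} {r x : ℝ} {N : ℕ} (hr : 0 < r) (h : Osc U r (x * r) N) :
    Osc (psub U 0 r) 1 x N := by
  intro j hj u hu v hv
  have hr2 : 0 < r ^ 2 := by positivity
  have key : ∀ w ∈ Set.Icc ((j : ℝ) * 1 ^ 2) (((j : ℝ) + 1) * 1 ^ 2),
      0 ≤ w ∧ r ^ 2 * w ∈ Set.Icc ((j : ℝ) * r ^ 2) (((j : ℝ) + 1) * r ^ 2) := by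
    intro w hw
    rw [one_pow, mul_one, mul_one] at hw
    have hw0 : 0 ≤ w := le_trans (Nat.cast_nonneg j) hw.1
    refine ⟨hw0, ?_, ?_⟩
    · rw [mul_comm]
      exact mul_le_mul_of_nonneg_left hw.1 hr2.le
    · rw [mul_comm]
      exact mul_le_mul_of_nonneg_right hw.2 hr2.le
  obtain ⟨hu0, hu1⟩ := key u hu
  obtain ⟨hv0, hv1⟩ := key v hv
  have := h j hj _ hu1 _ hv1
  rw [psub_sub U hr hu0 hv0, inv_mul_le_iff₀ hr]
  linarith

theorem exists_pow : ∃ n₀ : ℕ, ∀ n ≥ n₀, ∀ m : ℕ,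
    4 * (n + m) ^ 10 ≤ 4 ^ (Nat.sqrt n + m) := by
  have h := (tendsto_pow_const_div_const_pow_of_one_lt 20
    (by norm_num : (1 : ℝ) < 4)).eventually_lt_const (by norm_num : (0 : ℝ) < 1 / 16)
  obtain ⟨K, hK⟩ := eventually_atTop.1 h
  refine ⟨K ^ 2, fun n hn m => ?_⟩
  obtain ⟨s, hs⟩ : ∃ s, s = Nat.sqrt n := ⟨_, rfl⟩
  rw [← hs]
  have hsK : K ≤ s := by
    rw [hs, Nat.le_sqrt']
    exact hn
  have h1 : n < (s + 1) * (s + 1) := by
    rw [hs]
    exact Nat.lt_succ_sqrt n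
  have h2 : n + m ≤ (s + m + 1) ^ 2 := by nlinarith
  have h3 : (n + m) ^ 10 ≤ (s + m + 1) ^ 20 := by
    calc (n + m) ^ 10 ≤ ((s + m + 1) ^ 2) ^ 10 := Nat.pow_le_pow_left h2 _
      _ = (s + m + 1) ^ 20 := by rw [← pow_mul]
  have h4 := hK (s + m + 1) (by omega)
  rw [div_lt_iff₀ (by positivity), pow_succ (4 : ℝ)] at h4
  have h5 : (16 : ℝ) * ((s + m + 1 : ℕ) : ℝ) ^ 20 < 4 * 4 ^ (s + m) := by linarith
  have h6 : 16 * (s + m + 1) ^ 20 < 4 * 4 ^ (s + m) := by exact_mod_cast h5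
  omega

theorem log_four : Real.log 4 ≤ 2 := by
  have : Real.log 4 = 2 * Real.log 2 := by
    rw [show (4 : ℝ) = 2 ^ 2 by norm_num, Real.log_pow]
    norm_num
  rw [this]
  have := Real.log_two_lt_d9
  linarith

theorem four_pow_le (k : ℕ) {y : ℝ} (h : (k : ℝ) ≤ y) : (4 : ℝ) ^ k ≤ Real.exp (2 * y) := by
  have h1 : (4 : ℝ) ^ k = Real.exp (k * Real.log 4) := by
    rw [mul_comm, Real.exp_mul, Real.exp_log (by norm_num), Real.rpow_natCast]
  rw [h1]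
  apply Real.exp_le_exp.2
  have := log_four
  have hk : (0 : ℝ) ≤ k := Nat.cast_nonneg k
  nlinarith

theorem exp_three : (8 : ℝ) ≤ Real.exp 3 := by
  have h1 : Real.exp 3 = Real.exp 1 ^ 3 := by
    rw [← Real.exp_nat_mul]
    norm_num
  have h2 : (2 : ℝ) ≤ Real.exp 1 := by
    have := Real.add_one_le_exp (1 : ℝ)
    linarith
  rw [h1]
  calc (8 : ℝ) = 2 ^ 3 := by norm_num
    _ ≤ _ := pow_le_pow_left₀ (by norm_num) h2 3

theorem prob_osc {S : ℝ} (hS : 1 ≤ S) {n m : ℕ} (hn : 144 * S + 16 ≤ (n : ℝ)) :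
    ((4 ^ (n + 1 + m) : ℕ) : ℝ) * (4 * Real.exp (-(((n : ℝ) + m) ^ 2 / (16 * S)))) ≤
      Real.exp (-((n : ℝ) + m)) / 4 := by
  have hm0 : (0 : ℝ) ≤ m := Nat.cast_nonneg m
  obtain ⟨N, hN⟩ : ∃ N : ℝ, N = (n : ℝ) + m := ⟨_, rfl⟩
  rw [← hN]
  have hNge : 144 * S + 16 ≤ N := by linarith
  have e1 : ((4 ^ (n + 1 + m) : ℕ) : ℝ) ≤ Real.exp (2 * (N + 1)) := by
    push_cast
    apply four_pow_le
    push_cast
    linarith
  have e2 : Real.exp (2 * (N + 1)) * (4 * Real.exp (-(N ^ 2 / (16 * S)))) ≤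
      Real.exp (-N) / 4 := by
    have h1 : (16 : ℝ) ≤ Real.exp 6 := by
      have : Real.exp 6 = Real.exp 3 * Real.exp 3 := by
        rw [← Real.exp_add]
        norm_num
      rw [this]
      nlinarith [exp_three]
    have h2 : 2 * (N + 1) + -(N ^ 2 / (16 * S)) ≤ -N + -6 := by
      have : 3 * N + 8 ≤ N ^ 2 / (16 * S) := by
        rw [le_div_iff₀ (by positivity)]
        nlinarith
      linarith
    have h3 : Real.exp (2 * (N + 1)) * Real.exp (-(N ^ 2 / (16 * S))) ≤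
        Real.exp (-N) * Real.exp (-6) := by
      rw [← Real.exp_add, ← Real.exp_add]
      exact Real.exp_le_exp.2 h2
    have h4 : Real.exp (-6) ≤ 1 / 16 := by
      rw [Real.exp_neg, ← one_div]
      exact one_div_le_one_div_of_le (by norm_num) h1
    have h5 := Real.exp_pos (-N)
    nlinarith
  calc ((4 ^ (n + 1 + m) : ℕ) : ℝ) * (4 * Real.exp (-(N ^ 2 / (16 * S))))
      ≤ Real.exp (2 * (N + 1)) * (4 * Real.exp (-(N ^ 2 / (16 * S)))) := by gcongr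
    _ ≤ _ := e2

theorem prob_max {S : ℝ} (hS : 1 ≤ S) {n m : ℕ} (hn : 144 * S + 16 ≤ (n : ℝ)) :
    (((n + 1 : ℕ) : ℝ) + 1) * (4 * Real.exp (-(((n : ℝ) + m) ^ 2 / (4 * S)))) ≤
      Real.exp (-((n : ℝ) + m)) / 4 := by
  refine le_trans ?_ (prob_osc (m := m) hS hn)
  have h1 : ((n + 1 : ℕ) : ℝ) + 1 ≤ ((4 ^ (n + 1 + m) : ℕ) : ℝ) := by
    have h2 : n + 1 + 1 ≤ 4 ^ (n + 1 + m) := by
      have h3 : n + 1 + m < 4 ^ (n + 1 + m) := Nat.lt_pow_self (by norm_num)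
      omega
    exact_mod_cast h2
  have h2 : Real.exp (-(((n : ℝ) + m) ^ 2 / (4 * S))) ≤
      Real.exp (-(((n : ℝ) + m) ^ 2 / (16 * S))) := by
    apply Real.exp_le_exp.2
    apply neg_le_neg
    apply div_le_div_of_nonneg_left (by positivity) (by positivity)
    linarith
  gcongr

theorem sqrt_le_self' (n : ℕ) : √(n : ℝ) ≤ n := by
  rcases Nat.eq_zero_or_pos n with h | h
  · rw [h]
    simp
  · have h1 : (1 : ℝ) ≤ n := by exact_mod_cast h
    rw [Real.sqrt_le_left (by positivity)]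
    nlinarith

theorem natSqrt_le (n : ℕ) : (Nat.sqrt n : ℝ) ≤ √(n : ℝ) := by
  apply Real.le_sqrt_of_sq_le
  have := Nat.sqrt_le' n
  exact_mod_cast this

theorem exp_le_sqrt (n m : ℕ) : Real.exp (-((n : ℝ) + m)) / 4 ≤ Real.exp (-(√n + m)) / 4 := by
  have := sqrt_le_self' n
  have h : Real.exp (-((n : ℝ) + m)) ≤ Real.exp (-(√n + m)) := Real.exp_le_exp.2 (by linarith)
  linarith

theorem prob_small (n m : ℕ) :
    (((4 ^ (Nat.sqrt n + m) : ℕ) : ℝ) + 1) * Real.exp (-(3 * (√n + m) + 3)) ≤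
      Real.exp (-(√n + m)) / 4 := by
  have h1 : ((4 ^ (Nat.sqrt n + m) : ℕ) : ℝ) ≤ Real.exp (2 * (√n + m)) := by
    push_cast
    apply four_pow_le
    push_cast
    linarith [natSqrt_le n]
  have h2 : (1 : ℝ) ≤ Real.exp (2 * (√n + m)) := Real.one_le_exp (by positivity)
  have h3 : Real.exp (-(3 * (√n + m) + 3)) * Real.exp (2 * (√n + m)) =
      Real.exp (-(√n + m)) * Real.exp (-3) := by
    rw [← Real.exp_add, ← Real.exp_add]
    congr 1
    ring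
  have h4 : Real.exp (-3) ≤ 1 / 8 := by
    rw [Real.exp_neg, ← one_div]
    exact one_div_le_one_div_of_le (by norm_num) exp_three
  have h5 := Real.exp_pos (-(√(n : ℝ) + m))
  have h6 := Real.exp_pos (-(3 * (√(n : ℝ) + m) + 3))
  calc (((4 ^ (Nat.sqrt n + m) : ℕ) : ℝ) + 1) * Real.exp (-(3 * (√n + m) + 3))
      ≤ (2 * Real.exp (2 * (√n + m))) * Real.exp (-(3 * (√n + m) + 3)) := by
        apply mul_le_mul_of_nonneg_right _ h6.le
        linarith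
    _ = 2 * (Real.exp (-(3 * (√n + m) + 3)) * Real.exp (2 * (√n + m))) := by ring
    _ = 2 * (Real.exp (-(√n + m)) * Real.exp (-3)) := by rw [h3]
    _ ≤ _ := by nlinarith

theorem prob_deep (n m : ℕ) :
    2 * (((4 ^ (n + 1) : ℕ) : ℝ) + 1) ^ 2 * 4 ^ m * Real.exp (-(10 * ((n : ℝ) + m + 1))) ≤
      Real.exp (-((n : ℝ) + m)) / 4 := by
  have h1 : ((4 ^ (n + 1) : ℕ) : ℝ) + 1 ≤ 2 * 4 ^ (n + 1) := by
    push_cast
    have : (1 : ℝ) ≤ 4 ^ (n + 1) := one_le_pow₀ (by norm_num)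
    linarith
  have h0 : (0 : ℝ) ≤ ((4 ^ (n + 1) : ℕ) : ℝ) + 1 := by positivity
  have h2 : 2 * (((4 ^ (n + 1) : ℕ) : ℝ) + 1) ^ 2 * 4 ^ m ≤
      8 * 4 ^ (2 * (n + 1) + m) := by
    have e : (8 : ℝ) * 4 ^ (2 * (n + 1) + m) = 2 * (2 * 4 ^ (n + 1)) ^ 2 * 4 ^ m := by
      ring
    rw [e]
    gcongr
  have h3 : (4 : ℝ) ^ (2 * (n + 1) + m) ≤ Real.exp (2 * (2 * (n + 1) + m)) := by
    apply four_pow_le
    push_cast
    exact le_rfl
  have h4 : Real.exp (2 * (2 * ((n : ℝ) + 1) + m)) * Real.exp (-(10 * ((n : ℝ) + m + 1))) ≤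
      Real.exp (-((n : ℝ) + m)) * Real.exp (-6) := by
    rw [← Real.exp_add, ← Real.exp_add]
    apply Real.exp_le_exp.2
    have hn0 : (0 : ℝ) ≤ n := Nat.cast_nonneg n
    have hm0 : (0 : ℝ) ≤ m := Nat.cast_nonneg m
    linarith
  have h5 : Real.exp (-6) ≤ 1 / 64 := by
    have h1 : (64 : ℝ) ≤ Real.exp 6 := by
      have : Real.exp 6 = Real.exp 3 * Real.exp 3 := by
        rw [← Real.exp_add]
        norm_num
      rw [this]
      nlinarith [exp_three]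
    rw [Real.exp_neg, ← one_div]
    exact one_div_le_one_div_of_le (by norm_num) h1
  have h6 := Real.exp_pos (-((n : ℝ) + m))
  have h7 := Real.exp_pos (-(10 * ((n : ℝ) + m + 1)))
  calc 2 * (((4 ^ (n + 1) : ℕ) : ℝ) + 1) ^ 2 * 4 ^ m * Real.exp (-(10 * ((n : ℝ) + m + 1)))
      ≤ (8 * Real.exp (2 * (2 * (n + 1) + m))) * Real.exp (-(10 * ((n : ℝ) + m + 1))) := by
        apply mul_le_mul_of_nonneg_right _ h7.le
        linarith
    _ = 8 * (Real.exp (2 * (2 * ((n : ℝ) + 1) + m)) *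
        Real.exp (-(10 * ((n : ℝ) + m + 1)))) := by ring
    _ ≤ 8 * (Real.exp (-((n : ℝ) + m)) * Real.exp (-6)) := by gcongr
    _ ≤ _ := by nlinarith

theorem one_le_log {n m : ℕ} (hn : 16 ≤ n) : 1 ≤ Real.log ((n : ℝ) + m) := by
  have h2 : (16 : ℝ) ≤ n := by exact_mod_cast hn
  have h3 : (0 : ℝ) ≤ m := by positivity
  rw [Real.le_log_iff_exp_le (by linarith)]
  have h1 := Real.exp_one_lt_d9
  linarith

theorem log_bound' {n m : ℕ} (hn : 16 ≤ n) :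
    Real.log ((((n : ℝ) + 4) * 2 ^ m + (n + m)) + 1) ≤ 2 + √n + m := by
  have h1 := TRSTA.log_bound (n := n) (M := m) hn
  have h2 : (16 : ℝ) ≤ n := by exact_mod_cast hn
  have h3 : (0 : ℝ) ≤ m := by positivity
  have h4 : (0 : ℝ) ≤ ((n : ℝ) + 4) * 2 ^ m := by positivity
  have h5 : Real.log ((((n : ℝ) + 4) * 2 ^ m + (n + m)) + 1) ≤
      Real.log (2 * (((n : ℝ) + 4) * 2 ^ m + (n + m))) :=
    Real.log_le_log (by linarith) (by linarith)
  rw [Real.log_mul (by norm_num) (by linarith)] at h5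
  have := Real.log_two_lt_d9
  linarith

theorem log_D (n m : ℕ) :
    Real.log (((n + m) ^ 10 : ℕ) : ℝ) = 10 * Real.log ((n : ℝ) + m) := by
  push_cast
  rw [Real.log_pow]
  norm_num

/-- The final inequality, common part. -/
theorem fin_common {C₀ C₁ V L X : ℝ} (h1 : 1 ≤ C₁) (h10 : C₁ ≤ C₀) (hL : 1 ≤ L) (hV : 0 ≤ V)
    (hX : X = 10 * L) : (V + 3) * (C₁ * (L + X + 1)) ≤ (V + 1) * (200 * C₀ * L) := by
  rw [hX]
  have e1 : C₁ * (L + 10 * L + 1) ≤ 12 * C₀ * L := by nlinarith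
  have e0 : 0 ≤ 12 * C₀ * L := by nlinarith
  calc (V + 3) * (C₁ * (L + 10 * L + 1)) ≤ (V + 3) * (12 * C₀ * L) := by
        apply mul_le_mul_of_nonneg_left e1
        linarith
    _ ≤ (3 * (V + 1)) * (12 * C₀ * L) := by
        apply mul_le_mul_of_nonneg_right _ e0
        linarith
    _ ≤ _ := by nlinarith

theorem fin_small {C₀ C₁ s m X : ℝ} (h1 : 1 ≤ C₁) (h10 : C₁ ≤ C₀) (hs : 4 ≤ s) (hm : 0 ≤ m)
    (hX : X ≤ 2 + s + m) : C₁ * X + (3 * (s + m) + 3) ≤ 200 * C₀ * (m + s) := by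
  have e1 : C₁ * X ≤ C₀ * (2 * (m + s)) := by
    calc C₁ * X ≤ C₁ * (2 * (m + s)) := by
          apply mul_le_mul_of_nonneg_left _ (by linarith)
          linarith
      _ ≤ _ := by
          apply mul_le_mul_of_nonneg_right h10
          linarith
  have e2 : 3 * (s + m) + 3 ≤ C₀ * (4 * (m + s)) := by
    calc 3 * (s + m) + 3 ≤ 1 * (4 * (m + s)) := by linarith
      _ ≤ _ := by
          apply mul_le_mul_of_nonneg_right _ (by linarith)
          linarith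
  nlinarith

theorem fin_deep {C₀ C₁ N X : ℝ} (h1 : 1 ≤ C₁) (h10 : C₁ ≤ C₀) (hN : 16 ≤ N)
    (hX : X ≤ 2 + N) :
    C₁ * X + 10 * (N + 1) + C₁ * (3 * N) ^ 2 * (3 * N + 10 * (N + 1) + 1) ≤
      200 * C₀ * N ^ 3 := by
  have hN2 : 256 ≤ N ^ 2 := by nlinarith
  have hN3 : 16 * N ^ 2 ≤ N ^ 3 := by nlinarith
  have hN4 : 256 * N ≤ N ^ 3 := by nlinarith
  have e1 : C₁ * X ≤ C₀ * N ^ 3 := by
    calc C₁ * X ≤ C₁ * N ^ 3 := by
          apply mul_le_mul_of_nonneg_left _ (by linarith)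
          linarith
      _ ≤ _ := by
          apply mul_le_mul_of_nonneg_right h10
          linarith
  have e2 : 10 * (N + 1) ≤ C₀ * N ^ 3 := by
    calc 10 * (N + 1) ≤ 1 * N ^ 3 := by linarith
      _ ≤ _ := by
          apply mul_le_mul_of_nonneg_right _ (by linarith)
          linarith
  have e3 : C₁ * (3 * N) ^ 2 * (3 * N + 10 * (N + 1) + 1) ≤ C₀ * (126 * N ^ 3) := by
    have f1 : (3 * N) ^ 2 * (3 * N + 10 * (N + 1) + 1) ≤ 126 * N ^ 3 := by nlinarith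
    calc C₁ * (3 * N) ^ 2 * (3 * N + 10 * (N + 1) + 1)
        = C₁ * ((3 * N) ^ 2 * (3 * N + 10 * (N + 1) + 1)) := by ring
      _ ≤ C₁ * (126 * N ^ 3) := by
          apply mul_le_mul_of_nonneg_left f1
          linarith
      _ ≤ _ := by
          apply mul_le_mul_of_nonneg_right h10
          linarith
  have e4 : 0 ≤ C₀ * N ^ 3 := by
    apply mul_nonneg
    · linarith
    · linarith
  nlinarith

theorem two_pow_bound {n m : ℕ} (hn : 16 ≤ n) :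
    (2 : ℝ) ^ m * (1 + 3 * (((n : ℝ) + m) * 2 ^ (n + 1)) + 5 * 2 ^ (n + 1)) ≤
      2 ^ (3 * (n + m)) := by
  have h1 : (1 : ℝ) ≤ 2 ^ (n + 1) := one_le_pow₀ (by norm_num)
  have h2 : ((n + m : ℕ) : ℝ) + 1 ≤ 2 ^ (n + m) := by
    have : n + m + 1 ≤ 2 ^ (n + m) := Nat.lt_two_pow_self
    exact_mod_cast this
  push_cast at h2
  have h3 : (16 : ℝ) ≤ 2 ^ (n + m) := by
    calc (16 : ℝ) = 2 ^ 4 := by norm_num
      _ ≤ _ := pow_le_pow_right₀ (by norm_num) (by omega)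
  have e : (2 : ℝ) ^ (3 * (n + m)) = 2 ^ m * 2 ^ (n + 1) * (2 ^ (n + m) * 2 ^ (n + m) / 2) := by
    have : (2 : ℝ) ^ (3 * (n + m)) = 2 ^ (n + m) * (2 ^ (n + m) * 2 ^ (n + m)) := by
      rw [← pow_add, ← pow_add]
      congr 1
      ring
    rw [this, pow_add 2 n 1, pow_add 2 n m]
    ring
  rw [e]
  have h4 : 1 + 3 * (((n : ℝ) + m) * 2 ^ (n + 1)) + 5 * 2 ^ (n + 1) ≤
      2 ^ (n + 1) * (3 * (((n : ℝ) + m) + 1) + 3) := by nlinarith
  have h5 : 3 * (((n : ℝ) + m) + 1) + 3 ≤ 2 ^ (n + m) * 2 ^ (n + m) / 2 := by nlinarith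
  calc (2 : ℝ) ^ m * (1 + 3 * (((n : ℝ) + m) * 2 ^ (n + 1)) + 5 * 2 ^ (n + 1))
      ≤ 2 ^ m * (2 ^ (n + 1) * (3 * (((n : ℝ) + m) + 1) + 3)) := by gcongr
    _ = 2 ^ m * 2 ^ (n + 1) * (3 * (((n : ℝ) + m) + 1) + 3) := by ring
    _ ≤ _ := by gcongr

/-- The scaled reversed solution. -/
theorem sol_scale {U g : ℝ → ℂ} {z : ℂ} {T m : ℕ} (hg : Sol U z T g) :
    Sol (psub (rvU U T) 0 (rr m)) ((rr m)⁻¹ • (Complex.I * (g T - U T))) ((T * 4 ^ m : ℕ) : ℝ)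
      (gs (rvU U T) (rvg U g T) 0 (rr m)) := by
  have hr : 0 < rr m := TRSTA.rr_pos m
  have hT : (0 : ℝ) ≤ T := Nat.cast_nonneg T
  have h0 : rvU U T 0 = 0 := by
    rw [rvU_eq le_rfl hT, sub_zero, sub_self, mul_zero]
  have h := (rv_sol hT hg).shift (s := 0) (r := rr m) le_rfl hT hr
  have e : ((T : ℝ) - 0) / rr m ^ 2 = ((T * 4 ^ m : ℕ) : ℝ) := by
    rw [sub_zero, div_eq_iff (by positivity), TRSTA.cast_sq]
  rw [e, h0, sub_zero, (rv_sol hT hg).1] at h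
  have e2 : gs (rvU U T) (rvg U g T) 0 (rr m) =
      fun τ => (rr m)⁻¹ • (rvg U g T (0 + rr m ^ 2 * τ) - 0) := by
    unfold gs
    rw [h0]
  rw [e2]
  exact h

theorem start_le {U g : ℝ → ℂ} {T m n : ℕ} (h : ‖g T - U T‖ ≤ n + 4) :
    ‖(rr m)⁻¹ • (Complex.I * (g T - U T))‖ ≤ ((n : ℝ) + 4) * 2 ^ m + (n + m) := by
  have hr : 0 < rr m := TRSTA.rr_pos m
  rw [norm_smul, Real.norm_of_nonneg (by positivity), TRSTA.rr_inv, norm_mul, Complex.norm_I,
    one_mul]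
  have h1 : (2 : ℝ) ^ m * ‖g T - U T‖ ≤ 2 ^ m * (n + 4) := by gcongr
  have h2 : (0 : ℝ) ≤ (n : ℝ) + m := by positivity
  linarith

theorem osc_scale {U : ℝ → ℂ} {T m n : ℕ} (hT : T ≤ 4 ^ (n + 1))
    (h : Osc (psub U 0 (rr m)) 1 ((n : ℝ) + m) (4 ^ (n + 1 + m))) :
    Osc (psub (rvU U T) 0 (rr m)) 1 ((n : ℝ) + m) (T * 4 ^ m) := by
  have hr : 0 < rr m := TRSTA.rr_pos m
  apply osc_up hr
  apply rv_osc
  have h1 := osc_down hr h
  intro j hj
  apply h1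
  refine lt_of_lt_of_le hj ?_
  rw [pow_add 4 (n + 1) m]
  exact Nat.mul_le_mul_right _ hT

theorem rider_scale {U g : ℝ → ℂ} {T m D : ℕ}
    (h : ∀ s, s + D ≤ T * 4 ^ m → ¬ rider U g (rr m) s D) :
    ∀ s, s + D ≤ T * 4 ^ m → ¬ rider (psub (rvU U T) 0 (rr m))
      (gs (rvU U T) (rvg U g T) 0 (rr m)) 1 s D := by
  intro s hs
  obtain ⟨-, -, -, hrid⟩ := XX_scale (rvU U T) (rvg U g T) m 0
  rw [hrid, rv_rider hs]
  exact h _ (by omega)

theorem upper_scale {U g : ℝ → ℂ} (hU : Continuous U) {z : ℂ} {T m n : ℕ} (hn : 16 ≤ n)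
    (hT : T ≤ 4 ^ (n + 1)) (hz : ‖z‖ ≤ 1) (hg : Sol U z T g)
    (hmax : ∀ j ≤ n + 1, ∀ u ∈ Set.Icc (0 : ℝ) (4 ^ j), ‖U u‖ ≤ ((n : ℝ) + m) * 2 ^ j) :
    ∀ u ∈ Set.Icc (0 : ℝ) (T * 4 ^ m : ℕ),
      ‖gs (rvU U T) (rvg U g T) 0 (rr m) u - psub (rvU U T) 0 (rr m) u‖ ≤
        2 ^ (3 * (n + m)) := by
  intro u hu
  have hr : 0 < rr m := TRSTA.rr_pos m
  have hT0 : (0 : ℝ) ≤ T := Nat.cast_nonneg T
  have hTr : (T : ℝ) ≤ 4 ^ (n + 1) := by exact_mod_cast hT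
  rw [TRSCL.norm_eq _ _ 0 hr hu.1, zero_add]
  have hu1 : 0 ≤ rr m ^ 2 * u := mul_nonneg (by positivity) hu.1
  have hu2 : rr m ^ 2 * u ≤ T := by
    calc rr m ^ 2 * u ≤ rr m ^ 2 * ((T * 4 ^ m : ℕ) : ℝ) :=
          mul_le_mul_of_nonneg_left hu.2 (by positivity)
      _ = T := by rw [mul_comm, TRSTA.cast_sq]
  rw [rv_Z hu1 hu2, norm_mul, Complex.norm_I, one_mul, TRSTA.rr_inv]
  have h := cr_upper hU (w := ((n : ℝ) + m) * 2 ^ (n + 1)) hT0 hg
    (fun v hv => hmax (n + 1) le_rfl v ⟨hv.1, hv.2.trans hTr⟩) ((T : ℝ) - rr m ^ 2 * u)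
    ⟨by linarith, by linarith⟩
  have hs : √(T : ℝ) ≤ 2 ^ (n + 1) := by
    rw [Real.sqrt_le_left (by positivity)]
    calc (T : ℝ) ≤ 4 ^ (n + 1) := hTr
      _ = (2 ^ (n + 1)) ^ 2 := by
        rw [← pow_mul, mul_comm, pow_mul]
        norm_num
  refine le_trans ?_ (two_pow_bound (m := m) hn)
  apply mul_le_mul_of_nonneg_left _ (by positivity)
  linarith

theorem meas3 {Ω : Type*} [MeasurableSpace Ω] {μ : Measure Ω} {A₁ A₂ A₃ : Set Ω} {p : ℝ}
    (hp : 0 ≤ p) (h1 : μ A₁ ≤ ENNReal.ofReal (p / 4)) (h2 : μ A₂ ≤ ENNReal.ofReal (p / 4))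
    (h3 : μ A₃ ≤ ENNReal.ofReal (p / 4)) : μ (A₁ ∪ (A₂ ∪ A₃)) ≤ ENNReal.ofReal p := by
  calc μ (A₁ ∪ (A₂ ∪ A₃)) ≤ μ A₁ + (μ A₂ + μ A₃) :=
        (measure_union_le _ _).trans (add_le_add le_rfl (measure_union_le _ _))
    _ ≤ ENNReal.ofReal (p / 4) + (ENNReal.ofReal (p / 4) + ENNReal.ofReal (p / 4)) :=
        add_le_add h1 (add_le_add h2 h3)
    _ = ENNReal.ofReal (p / 4 + (p / 4 + p / 4)) := by
        rw [ENNReal.ofReal_add (by positivity) (by positivity),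
          ENNReal.ofReal_add (by positivity) (by positivity)]
    _ ≤ _ := ENNReal.ofReal_le_ofReal (by linarith)

end TCBWSC

open Classical in
/-- BWSC1. Deterministic part: scaling and growth. `P j`: the cell `j` is bad.

Proof. As `TRSTA.main` (read it). `XX_scale` gives the values of `XX`, `tr` for the scaled
solution. `V = Q.card`, `B = (Q.filter P).card`. `Q` is contained in the filter which defines `NN`.
Growth: `grow_step` with `r = rr m`, `good j = ¬ P j` (`hBd`, scaled), and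
`V - B ≤` the number of `j` with `j + 1 < M`, `tr j`, `¬ P j`. -/
theorem bw_main {c₁ β E F : ℝ} {m l M : ℕ} (hl : 3 ≤ l) {U : ℝ → ℂ} (hU : Continuous U)
    (hU0 : U 0 = 0) (P : ℕ → Prop)
    (hBd : ∀ j, ¬ P j → ∀ i : ℕ, i < 4 ^ l →
      ∀ u ∈ Set.Icc ((j : ℝ) + i / 4 ^ l) ((j : ℝ) + (i + 1) / 4 ^ l),
      ∀ v ∈ Set.Icc ((j : ℝ) + i / 4 ^ l) ((j : ℝ) + (i + 1) / 4 ^ l),
        ‖psub U 0 (rr m) u - psub U 0 (rr m) v‖ ≤ 1 / 4)
    {z : ℂ} {g : ℝ → ℂ} {T : ℝ} (hg : Sol U z T g) (hM : (M : ℝ) * rr m ^ 2 ≤ T)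
    (Q : Finset ℕ)
    (hQ : ∀ j ∈ Q, tr (psub U 0 (rr m)) (gs U g 0 (rr m)) 1 j ∧ j + 1 < M)
    (hX : c₁ * XX (psub U 0 (rr m)) (gs U g 0 (rr m)) 1 M + β * (Q.filter P).card ≤
      ((Q.card : ℝ) + 3) * E + F) :
    ∃ V B : ℝ, 0 ≤ V ∧ 0 ≤ B ∧ V ≤ NN U g (rr m) M ∧
      XX U g (rr m) M + (V - B) / (4 * 4 ^ l) ≤ XX U g (rr (m + l)) (M * 4 ^ l) ∧
      c₁ * XX U g (rr m) M + β * B ≤ (V + 3) * E + F := by
  have hr : 0 < rr m := TRSTA.rr_pos m
  obtain ⟨hX', -, htr, -⟩ := XX_scale U g m M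
  have hQ' : ∀ j ∈ Q, tr U g (rr m) j ∧ j + 1 < M := fun j hj =>
    ⟨(htr j).1 (hQ j hj).1, (hQ j hj).2⟩
  refine ⟨Q.card, (Q.filter P).card, by positivity, by positivity, ?_, ?_, ?_⟩
  · unfold NN
    have : Q.card ≤ ((Finset.range (M - 1)).filter fun j => tr U g (rr m) j).card := by
      refine Finset.card_le_card fun j hj => ?_
      obtain ⟨h1, h2⟩ := hQ' j hj
      exact Finset.mem_filter.2 ⟨Finset.mem_range.2 (by omega), h1⟩
    exact_mod_cast this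
  · obtain ⟨G, hG⟩ : ∃ G : ℕ → Prop, ∀ j, G j ↔ ¬ P j := ⟨_, fun _ => Iff.rfl⟩
    have hgr := grow_step (l := l) (M := M) hU hr hl (z := z) (g := g) (hg.restrict hM) G ?_
    · rw [TRSTA.rr_add] at hgr
      refine le_trans ?_ hgr
      have hcard : (Q.filter P).card + (Q.filter fun j => ¬ P j).card = Q.card :=
        Finset.card_filter_add_card_filter_not _
      have hle : (Q.filter fun j => ¬ P j).card ≤
          ((Finset.range (M - 1)).filter fun j => tr U g (rr m) j ∧ G j).card := by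
        refine Finset.card_le_card fun j hj => ?_
        obtain ⟨hj1, hj2⟩ := Finset.mem_filter.1 hj
        obtain ⟨h1, h2⟩ := hQ' j hj1
        exact Finset.mem_filter.2 ⟨Finset.mem_range.2 (by omega), h1, (hG j).2 hj2⟩
      have hcard' : (Q.card : ℝ) - ((Q.filter P).card : ℝ) ≤
          (((Finset.range (M - 1)).filter fun j => tr U g (rr m) j ∧ G j).card : ℝ) := by
        have h1 : (((Q.filter P).card : ℝ)) + ((Q.filter fun j => ¬ P j).card : ℝ) =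
            (Q.card : ℝ) := by exact_mod_cast hcard
        have h2 : ((Q.filter fun j => ¬ P j).card : ℝ) ≤
          (((Finset.range (M - 1)).filter fun j => tr U g (rr m) j ∧ G j).card : ℝ) := by
          exact_mod_cast hle
        linarith
      have h4 : (0 : ℝ) < 4 * 4 ^ l := by positivity
      have : ((Q.card : ℝ) - ((Q.filter P).card : ℝ)) / (4 * 4 ^ l) ≤
          1 / (4 * 4 ^ l) *
            (((Finset.range (M - 1)).filter fun j => tr U g (rr m) j ∧ G j).card : ℝ) := by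
        rw [div_eq_mul_one_div, mul_comm]
        exact mul_le_mul_of_nonneg_left hcard' (by positivity)
      linarith
    · intro j hj i hi u hu v hv
      have key : ∀ w ∈ Set.Icc (((j * 4 ^ l + i : ℕ) : ℝ) * (rr m * rr l) ^ 2)
          ((((j * 4 ^ l + i : ℕ) : ℝ) + 1) * (rr m * rr l) ^ 2),
          w / rr m ^ 2 ∈ Set.Icc ((j : ℝ) + i / 4 ^ l) ((j : ℝ) + (i + 1) / 4 ^ l) ∧
          psub U 0 (rr m) (w / rr m ^ 2) = (rr m)⁻¹ • U w := by
        intro w hw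
        have hr2 : 0 < rr m ^ 2 := by positivity
        have hl2 : rr l ^ 2 = 1 / 4 ^ l := TRSTA.rr_sq l
        have e1 : ((j * 4 ^ l + i : ℕ) : ℝ) * rr l ^ 2 = (j : ℝ) + i / 4 ^ l := by
          rw [hl2]
          push_cast
          field_simp
        have e2 : (((j * 4 ^ l + i : ℕ) : ℝ) + 1) * rr l ^ 2 = (j : ℝ) + (i + 1) / 4 ^ l := by
          rw [hl2]
          push_cast
          field_simp
          ring
        have hm : w / rr m ^ 2 ∈ Set.Icc ((j : ℝ) + i / 4 ^ l) ((j : ℝ) + (i + 1) / 4 ^ l) := by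
          constructor
          · rw [le_div_iff₀ hr2, ← e1]
            refine le_trans (le_of_eq ?_) hw.1
            ring
          · rw [div_le_iff₀ hr2, ← e2]
            refine le_trans hw.2 (le_of_eq ?_)
            ring
        refine ⟨hm, ?_⟩
        have h0 : 0 ≤ w / rr m ^ 2 := le_trans (by positivity) hm.1
        unfold psub
        rw [max_eq_left h0, hU0, sub_zero, zero_add, mul_div_cancel₀ _ hr2.ne']
      obtain ⟨hu1, hu2⟩ := key u hu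
      obtain ⟨hv1, hv2⟩ := key v hv
      have := hBd j ((hG j).1 hj) i hi _ hu1 _ hv1
      rw [hu2, hv2, ← smul_sub, norm_smul, Real.norm_of_nonneg (by positivity)] at this
      rw [inv_mul_le_iff₀ hr] at this
      linarith
  · rw [hX'] at hX
    exact hX

variable {Ω : Type*} [MeasurableSpace Ω] {μ : Measure Ω}

/-- BWSC2. One level.

Proof. Let `C₀` be the maximum of the constants `C` of `clos_small`, `clos_deep` (they may be
enlarged: the conclusions are monotone in `C`), `c₁` the minimum of the constants `c₁`, `κ` the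
maximum of the constants `κ`; `C = 100 C₀` (large), `S = a + b + 1`, `N = n + m`, `l = ll N`,
`D = N^10`, `x = N`, `β = 4 C log N`, `x₀ = (n + 4) 2^m + N`, `d₀ = 4^(Nat.sqrt n + m)`,
`T₀ = 4^(n+1)`, `H = 3 N`, `U^ = rvU U T`.
Bad cells: for every `T` and `j` the event of `bad_ev` for the process `subP (rvP W T) 0 (rr m)`
(`rv_gau`, `Gau.subP`) with this `l`; its probability is at most `exp (-(κ β))` (`TRSTA.part1`
with `κ C` in place of `C`).
Events: `clos_small` (if `m ≤ κ₀ √n`) with `v = 3 (√n + m) + 3`; `clos_deep` with `v = 10 (n + m + 1)`;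
the event of `osc_ev` for `subP W 0 (rr m)` with `4^(n+1+m)` cells and `x = N` (in the original
scale: `Osc U (rr m) (N * rr m) (4^(n+1+m))`, then `rv_osc` and scaling give
`Osc (psub U^ 0 (rr m)) 1 N (T 4^m)`); `max_ev` for `W` with `N := n + 1`, `y = n + m`:
`|U| ≤ (n + m) 2^j` on `[0,4^j]`, so by `cr_upper` (and `rv_Z`) the reversed scaled solution is
bounded by `2^m (1 + 3 (n + m) 2^(n+1) + 5 * 2^(n+1)) ≤ 2^H`. Total probability at most
`exp (-(√n + m))` for `n ≥ n₀`.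
For a solution: `rv_sol`, `Sol.shift` (time `0`, scale `rr m`): the reversed scaled solution
`gs U^ (rvg U g T) 0 (rr m)` on `[0, T 4^m]`, started at `2^m i Z_T`, norm `≤ (n + 4) 2^m ≤ x₀`. Riders:
`rv_rider` and `low_shift`. `M = (T - 4^(Nat.sqrt n)) 4^m ≤ T 4^m ≤ M + d₀`.
Small level: the first alternative of `clos_small` gives `Q` (take logarithms; `ρ = exp v`); the
second one contradicts the hypothesis on `CutFree`, with `u = T 4^m - α ≥ 4^(Nat.sqrt n + m) - D ≥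
4^(Nat.sqrt n - 1 + m)`; the third one is impossible. Deep level: `clos_deep`.
`bw_main` with `U^`, `rvg U g T`. The constants: `C₀ (log N + log D + 1) ≤ 12 C₀ log N`,
`(V + 3) * 12 C₀ log N ≤ (V + 1) * C log N`, `C₀ log (x₀ + 1) + v ≤ C (m + √n)` resp.
`C₀ log (x₀ + 1) + v + C₀ H^2 (H + v + 1) ≤ C (n + m)^3` (`TRSTA.log_bound`). -/
theorem lvl_bw [IsProbabilityMeasure μ] {a b c K ε c₀ κ₀ : ℝ} (ha : 0 ≤ a) (hb : 0 ≤ b)
    (hc₀ : 0 ≤ c₀) (hκ₀ : 0 < κ₀) (hκ₁ : κ₀ ≤ 1) (hC : ClosP μ b a (-c) K ε c₀)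
    (hT : TailP μ b a (-c) K ε c₀) :
    ∃ C c₁ : ℝ, 1 ≤ C ∧ 0 < c₁ ∧ ∃ n₀ : ℕ, ∀ n ≥ n₀, ∀ m : ℕ, ∀ W : ℝ → Ω → ℂ,
      Gau a b c K W μ → ∃ A, MeasurableSet A ∧
        μ A ≤ ENNReal.ofReal (Real.exp (-(√n + m))) ∧
        ∀ ω ∉ A, ∀ (T : ℕ) (z : ℂ) (g : ℝ → ℂ), 4 ^ n ≤ T → T ≤ 4 ^ (n + 1) → ‖z‖ ≤ 1 →
          Sol (fun t => W t ω) z T g → ‖g T - W T ω‖ ≤ n + 4 →
          (∀ s, s + (n + m) ^ 10 ≤ T * 4 ^ m →
            ¬ rider (fun t => W t ω) g (rr m) s ((n + m) ^ 10)) →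
          ((m : ℝ) ≤ κ₀ * √n → ∀ α u : ℕ, α + u = T * 4 ^ m → 4 ^ (Nat.sqrt n - 1 + m) ≤ u →
            ‖gs (rvU (fun t => W t ω) T) (rvg (fun t => W t ω) g T) 0 (rr m) α -
              psub (rvU (fun t => W t ω) T) 0 (rr m) α‖ ≤ ((n : ℝ) + 4) * 2 ^ m + n + m + 3 →
            ¬ CutFree (psub (rvU (fun t => W t ω) T) 0 (rr m))
              (gs (rvU (fun t => W t ω) T) (rvg (fun t => W t ω) g T) 0 (rr m)) ε c₀ α
              (T * 4 ^ m : ℕ)) →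
          ∃ V B : ℝ, 0 ≤ V ∧ 0 ≤ B ∧
            V ≤ NN (rvU (fun t => W t ω) T) (rvg (fun t => W t ω) g T) (rr m)
              ((T - 4 ^ Nat.sqrt n) * 4 ^ m) ∧
            XX (rvU (fun t => W t ω) T) (rvg (fun t => W t ω) g T) (rr m)
                ((T - 4 ^ Nat.sqrt n) * 4 ^ m) + (V - B) / (4 * 4 ^ ll (n + m)) ≤
              XX (rvU (fun t => W t ω) T) (rvg (fun t => W t ω) g T) (rr (m + ll (n + m)))
                ((T - 4 ^ Nat.sqrt n) * 4 ^ (m + ll (n + m))) ∧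
            c₁ * XX (rvU (fun t => W t ω) T) (rvg (fun t => W t ω) g T) (rr m)
                ((T - 4 ^ Nat.sqrt n) * 4 ^ m) + 4 * C * Real.log ((n : ℝ) + m) * B ≤
              (V + 1) * (C * Real.log ((n : ℝ) + m)) +
                C * (if (m : ℝ) ≤ κ₀ * √n then m + √n else ((n : ℝ) + m) ^ 3) := by
  obtain ⟨C₁, cs, κs, hC₁, hcs, hκs, hsmall⟩ := clos_small (μ := μ) hC
  obtain ⟨C₂, cd, κd, hC₂, hcd, hκd, hdeep⟩ := clos_deep (μ := μ) hC hT hc₀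
  obtain ⟨C₀, hC₀d⟩ : ∃ C₀ : ℝ, C₀ = max C₁ C₂ := ⟨_, rfl⟩
  have hC10 : C₁ ≤ C₀ := by rw [hC₀d]; exact le_max_left _ _
  have hC20 : C₂ ≤ C₀ := by rw [hC₀d]; exact le_max_right _ _
  have hC₀ : 1 ≤ C₀ := hC₁.trans hC10
  obtain ⟨κ, hκd'⟩ : ∃ κ : ℝ, κ = max κs κd := ⟨_, rfl⟩
  have hκ1 : κs ≤ κ := by rw [hκd']; exact le_max_left _ _
  have hκ2 : κd ≤ κ := by rw [hκd']; exact le_max_right _ _
  have hκ : 1 ≤ κ := hκs.trans hκ1
  have hS : (1 : ℝ) ≤ a + b + 1 := by linarith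
  have hS' : (1 : ℝ) ≤ b + a + 1 := by linarith
  obtain ⟨n₁, hn₁⟩ := TRSTA.part1 (C := κ * (200 * C₀)) (S := b + a + 1) (by nlinarith) hS'
  obtain ⟨n₂, hn₂⟩ := TCBWSC.exists_pow
  obtain ⟨n₃, hn₃⟩ := exists_nat_ge (144 * (a + b + 1) + 16)
  refine ⟨200 * C₀, min cs cd, by linarith, lt_min hcs hcd, max n₁ (max n₂ n₃),
    fun n hn m W hW => ?_⟩
  have hnn1 : n₁ ≤ n := (le_max_left _ _).trans hn
  have hnn2 : n₂ ≤ n := ((le_max_left _ _).trans (le_max_right _ _)).trans hn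
  have hnn3 : n₃ ≤ n := ((le_max_right _ _).trans (le_max_right _ _)).trans hn
  have hnS : 144 * (a + b + 1) + 16 ≤ (n : ℝ) := hn₃.trans (by exact_mod_cast hnn3)
  have hn16r : (16 : ℝ) ≤ n := by linarith
  have hn16 : 16 ≤ n := by exact_mod_cast hn16r
  have hm0 : (0 : ℝ) ≤ m := Nat.cast_nonneg m
  have hr : 0 < rr m := TRSTA.rr_pos m
  have hL := TCBWSC.one_le_log (m := m) hn16
  have hpow := hn₂ n hnn2 m
  have hN1 : (1 : ℝ) ≤ (n : ℝ) + m := by linarith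
  have hD1 : 1 ≤ (n + m) ^ 10 := Nat.one_le_pow _ _ (by omega)
  have hs4 : 4 ≤ √(n : ℝ) := by
    apply Real.le_sqrt_of_sq_le
    norm_num
    exact_mod_cast hn16
  have hβ : 0 ≤ 4 * (200 * C₀) * Real.log ((n : ℝ) + m) := by
    have : 0 ≤ C₀ := by linarith
    have : 0 ≤ Real.log ((n : ℝ) + m) := by linarith
    positivity
  -- the bad cells
  choose Bd hBdm hBdμ hBd using fun T j : ℕ =>
    bad_ev ((rv_gau hW (Nat.cast_nonneg T)).subP le_rfl hr) (ll (n + m)) j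
  have hBdμ' : ∀ T j, μ (Bd T j) ≤
      ENNReal.ofReal (Real.exp (-(κ * (4 * (200 * C₀) * Real.log ((n : ℝ) + m))))) := by
    intro T j
    refine (hBdμ T j).trans (ENNReal.ofReal_le_ofReal ?_)
    have h := hn₁ (n + m) (by omega)
    push_cast at h
    refine h.trans (le_of_eq ?_)
    congr 2
    ring
  have hBdκ : ∀ κ' : ℝ, κ' ≤ κ → ∀ T j, μ (Bd T j) ≤
      ENNReal.ofReal (Real.exp (-(κ' * (4 * (200 * C₀) * Real.log ((n : ℝ) + m))))) := by
    intro κ' hκ' T j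
    refine (hBdμ' T j).trans (ENNReal.ofReal_le_ofReal (Real.exp_le_exp.2 ?_))
    apply neg_le_neg
    exact mul_le_mul_of_nonneg_right hκ' hβ
  -- the oscillation and the maximum
  obtain ⟨A₂, hA₂m, hA₂μ, hA₂⟩ := osc_ev (hW.subP le_rfl hr) (4 ^ (n + 1 + m))
    (x := (n : ℝ) + m) (by linarith)
  obtain ⟨A₃, hA₃m, hA₃μ, hA₃⟩ := max_ev hW (n + 1) (y := (n : ℝ) + m) (by linarith)
  have hA₂μ' : μ A₂ ≤ ENNReal.ofReal (Real.exp (-(√n + m)) / 4) :=
    hA₂μ.trans (ENNReal.ofReal_le_ofReal ((TCBWSC.prob_osc hS hnS).trans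
      (TCBWSC.exp_le_sqrt n m)))
  have hA₃μ' : μ A₃ ≤ ENNReal.ofReal (Real.exp (-(√n + m)) / 4) :=
    hA₃μ.trans (ENNReal.ofReal_le_ofReal ((TCBWSC.prob_max hS hnS).trans
      (TCBWSC.exp_le_sqrt n m)))
  have hxx : (n : ℝ) + m ≤ ((n : ℝ) + 4) * 2 ^ m + (n + m) := by
    have : (0 : ℝ) ≤ ((n : ℝ) + 4) * 2 ^ m := by positivity
    linarith
  -- the number of cells
  have hTpow : ∀ T : ℕ, 4 ^ n ≤ T → 4 ^ Nat.sqrt n ≤ T := fun T hT =>
    (Nat.pow_le_pow_right (by norm_num) (Nat.sqrt_le_self n)).trans hT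
  have hcells : ∀ T : ℕ, 4 ^ n ≤ T →
      T * 4 ^ m = (T - 4 ^ Nat.sqrt n) * 4 ^ m + 4 ^ (Nat.sqrt n + m) := by
    intro T hT
    rw [pow_add, ← add_mul, Nat.sub_add_cancel (hTpow T hT)]
  have hMT : ∀ T : ℕ, (((T - 4 ^ Nat.sqrt n) * 4 ^ m : ℕ) : ℝ) * rr m ^ 2 ≤ T := by
    intro T
    rw [TRSTA.cast_sq]
    exact_mod_cast Nat.sub_le _ _
  have hbound := TCBWSC.log_bound' (m := m) hn16
  by_cases hm : (m : ℝ) ≤ κ₀ * √n
  · -- small levels
    obtain ⟨A₁, hA₁m, hA₁μ, hA₁⟩ := hsmall m ((n : ℝ) + m)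
      (4 * (200 * C₀) * Real.log ((n : ℝ) + m)) (3 * (√n + m) + 3) ((n + m) ^ 10)
      (4 ^ (Nat.sqrt n + m)) hN1 hβ hD1 (by omega) W hW Bd hBdm (hBdκ κs hκ1)
    refine ⟨A₁ ∪ (A₂ ∪ A₃), hA₁m.union (hA₂m.union hA₃m),
      TCBWSC.meas3 (Real.exp_pos _).le ?_ hA₂μ' hA₃μ', ?_⟩
    · refine hA₁μ.trans (ENNReal.ofReal_le_ofReal ?_)
      exact TCBWSC.prob_small n m
    intro ω hω T z g hT1 hT2 hz hg hgT hrid hcut
    simp only [Set.mem_union, not_or] at hω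
    obtain ⟨hω1, hω2, hω3⟩ := hω
    have hU : Continuous (fun t => W t ω) := hW.cont ω
    have hT0 : (0 : ℝ) ≤ T := Nat.cast_nonneg T
    have hrU0 : rvU (fun t => W t ω) T 0 = 0 := by
      rw [rvU_eq le_rfl hT0, sub_zero, sub_self, mul_zero]
    have hsol := TCBWSC.sol_scale (m := m) hg
    have hosc := TCBWSC.osc_scale hT2 (hA₂ ω hω2)
    have hst := TCBWSC.start_le (U := fun t => W t ω) (m := m) hgT
    rcases hA₁ ω hω1 T _ _ (((n : ℝ) + 4) * 2 ^ m + (n + m)) hxx hst hsol hosc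
      (TCBWSC.rider_scale hrid) ((T - 4 ^ Nat.sqrt n) * 4 ^ m)
      (by have := hcells T hT1; omega) (by have := hcells T hT1; omega) with
      hclo | ⟨α, hα, hαM, hαn, hcf⟩ | hlt
    · obtain ⟨Q, hQ, hQe⟩ := hclo
      rw [← ENNReal.ofReal_mul (Real.exp_pos _).le, ← Real.exp_add,
        ENNReal.ofReal_le_ofReal_iff (Real.exp_pos _).le, Real.exp_le_exp] at hQe
      obtain ⟨V, B, hV, hB, hVN, hgrow, hfin⟩ := bw_main (c₁ := min cs cd)
        (β := 4 * (200 * C₀) * Real.log ((n : ℝ) + m))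
        (E := C₁ * (Real.log ((n : ℝ) + m) + Real.log (((n + m) ^ 10 : ℕ) : ℝ) + 1))
        (F := C₁ * Real.log ((((n : ℝ) + 4) * 2 ^ m + (n + m)) + 1) + (3 * (√n + m) + 3))
        (m := m) (l := ll (n + m)) (ll_ge _) (rv_cont (T := T) hU) hrU0
        (fun j => ω ∈ Bd T j) (fun j hj => hBd T j ω hj) (rv_sol hT0 hg) (hMT T) Q hQ (by
          have h1 : min cs cd * XX (psub (rvU (fun t => W t ω) T) 0 (rr m))
              (gs (rvU (fun t => W t ω) T) (rvg (fun t => W t ω) g T) 0 (rr m)) 1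
                ((T - 4 ^ Nat.sqrt n) * 4 ^ m) ≤
              cs * XX (psub (rvU (fun t => W t ω) T) 0 (rr m))
              (gs (rvU (fun t => W t ω) T) (rvg (fun t => W t ω) g T) 0 (rr m)) 1
                ((T - 4 ^ Nat.sqrt n) * 4 ^ m) :=
            mul_le_mul_of_nonneg_right (min_le_left _ _) (TCBWSC.XX_nonneg _ _ _ _)
          linarith)
      refine ⟨V, B, hV, hB, hVN, ?_, ?_⟩
      · rw [mul_assoc, ← pow_add] at hgrow
        exact hgrow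
      · rw [if_pos hm]
        have h1 := TCBWSC.fin_common hC₁ hC10 hL hV (TCBWSC.log_D n m)
        have h2 := TCBWSC.fin_small hC₁ hC10 hs4 hm0 hbound
        linarith
    · exfalso
      have hc := hcells T hT1
      refine hcut hm α (T * 4 ^ m - α) (by omega) ?_ ?_ hcf
      · have h1 : 1 ≤ Nat.sqrt n := by
          rw [Nat.le_sqrt']
          omega
        have h2 : 4 ^ (Nat.sqrt n + m) = 4 * 4 ^ (Nat.sqrt n - 1 + m) := by
          rw [← pow_succ']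
          congr 1
          omega
        omega
      · refine hαn.trans (le_of_eq ?_)
        ring
    · exfalso
      have h1 : 4 ^ (n + m) ≤ T * 4 ^ m := by
        rw [pow_add]
        exact Nat.mul_le_mul_right _ hT1
      have h2 : 4 ^ (Nat.sqrt n + m) ≤ 4 ^ (n + m) :=
        Nat.pow_le_pow_right (by norm_num) (by have := Nat.sqrt_le_self n; omega)
      omega
  · -- deep levels
    obtain ⟨A₁, hA₁m, hA₁μ, hA₁⟩ := hdeep m ((n : ℝ) + m)
      (4 * (200 * C₀) * Real.log ((n : ℝ) + m)) (10 * ((n : ℝ) + m + 1)) ((n + m) ^ 10)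
      (3 * (n + m)) (4 ^ (n + 1)) hN1 hβ hD1 (by omega) (by positivity) W hW Bd hBdm
      (hBdκ κd hκ2)
    refine ⟨A₁ ∪ (A₂ ∪ A₃), hA₁m.union (hA₂m.union hA₃m),
      TCBWSC.meas3 (Real.exp_pos _).le ?_ hA₂μ' hA₃μ', ?_⟩
    · refine hA₁μ.trans (ENNReal.ofReal_le_ofReal ?_)
      exact (TCBWSC.prob_deep n m).trans (TCBWSC.exp_le_sqrt n m)
    intro ω hω T z g hT1 hT2 hz hg hgT hrid hcut
    simp only [Set.mem_union, not_or] at hω
    obtain ⟨hω1, hω2, hω3⟩ := hω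
    have hU : Continuous (fun t => W t ω) := hW.cont ω
    have hT0 : (0 : ℝ) ≤ T := Nat.cast_nonneg T
    have hrU0 : rvU (fun t => W t ω) T 0 = 0 := by
      rw [rvU_eq le_rfl hT0, sub_zero, sub_self, mul_zero]
    have hsol := TCBWSC.sol_scale (m := m) hg
    have hosc := TCBWSC.osc_scale hT2 (hA₂ ω hω2)
    have hst := TCBWSC.start_le (U := fun t => W t ω) (m := m) hgT
    have hup := TCBWSC.upper_scale hU (m := m) hn16 hT2 hz hg (hA₃ ω hω3)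
    obtain ⟨Q, hQ, hQe⟩ := hA₁ ω hω1 T _ _ (((n : ℝ) + 4) * 2 ^ m + (n + m)) hT2 hxx hst hsol
      hup hosc (TCBWSC.rider_scale hrid) ((T - 4 ^ Nat.sqrt n) * 4 ^ m)
      (by have := hcells T hT1; omega)
    obtain ⟨V, B, hV, hB, hVN, hgrow, hfin⟩ := bw_main (c₁ := min cs cd)
      (β := 4 * (200 * C₀) * Real.log ((n : ℝ) + m))
      (E := C₂ * (Real.log ((n : ℝ) + m) + Real.log (((n + m) ^ 10 : ℕ) : ℝ) + 1))
      (F := C₂ * Real.log ((((n : ℝ) + 4) * 2 ^ m + (n + m)) + 1) + 10 * ((n : ℝ) + m + 1) +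
        C₂ * ((3 * (n + m) : ℕ) : ℝ) ^ 2 *
          (((3 * (n + m) : ℕ) : ℝ) + 10 * ((n : ℝ) + m + 1) + 1))
      (m := m) (l := ll (n + m)) (ll_ge _) (rv_cont (T := T) hU) hrU0
      (fun j => ω ∈ Bd T j) (fun j hj => hBd T j ω hj) (rv_sol hT0 hg) (hMT T) Q hQ (by
        have h1 : min cs cd * XX (psub (rvU (fun t => W t ω) T) 0 (rr m))
            (gs (rvU (fun t => W t ω) T) (rvg (fun t => W t ω) g T) 0 (rr m)) 1
              ((T - 4 ^ Nat.sqrt n) * 4 ^ m) ≤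
            cd * XX (psub (rvU (fun t => W t ω) T) 0 (rr m))
            (gs (rvU (fun t => W t ω) T) (rvg (fun t => W t ω) g T) 0 (rr m)) 1
              ((T - 4 ^ Nat.sqrt n) * 4 ^ m) :=
          mul_le_mul_of_nonneg_right (min_le_right _ _) (TCBWSC.XX_nonneg _ _ _ _)
        linarith)
    refine ⟨V, B, hV, hB, hVN, ?_, ?_⟩
    · rw [mul_assoc, ← pow_add] at hgrow
      exact hgrow
    · rw [if_neg hm]
      have hsn := TCBWSC.sqrt_le_self' n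
      have h1 := TCBWSC.fin_common hC₂ hC20 hL hV (TCBWSC.log_D n m)
      have h2 := TCBWSC.fin_deep (N := (n : ℝ) + m) hC₂ hC20 (by linarith)
        (hbound.trans (by linarith))
      have hH : ((3 * (n + m) : ℕ) : ℝ) = 3 * ((n : ℝ) + m) := by
        push_cast
        ring
      rw [hH] at hfin
      linarith

end

end Pool.Agent.SLE
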