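import Pool.Agent.Lib.MP_c17912_pr_TC.SMP

/-!
# MP_c17912_pr, project TC: supermartingales with gains

`SMG μ W h Q M X`: `∫ f M (j+1) + ∫ f X j ≤ Q ∫ f M j` for all nonnegative `f` which are
measurable for `Blk W 0 (j h)`.
-/

set_option autoImplicit false

open MeasureTheory ProbabilityTheory Filter
open scoped NNReal ENNReal Topology Real

namespace Pool.Agent.SLE

noncomputable section

variable {Ω : Type*} [MeasurableSpace Ω] {μ : Measure Ω} {a b c K : ℝ} {W : ℝ → Ω → ℂ}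

/-- The supermartingale property with a factor `Q` and a gain `X j` for each step. -/
def SMG (μ : Measure Ω) (W : ℝ → Ω → ℂ) (h : ℝ) (Q : ℝ≥0∞) (M X : ℕ → Ω → ℝ≥0∞) : Prop :=
  (∀ j : ℕ, Measurable[Blk W 0 (j * h)] (M j)) ∧
    (∀ j : ℕ, Measurable[Blk W 0 (j * h)] (X j)) ∧
    ∀ (j : ℕ) (f : Ω → ℝ≥0∞), Measurable[Blk W 0 (j * h)] f →
      ∫⁻ ω, f ω * M (j + 1) ω ∂μ + ∫⁻ ω, f ω * X j ω ∂μ ≤ Q * ∫⁻ ω, f ω * M j ω ∂μ

/-- BWSG1. -/
theorem SMP.smg {h : ℝ} {Q : ℝ≥0∞} {M : ℕ → Ω → ℝ≥0∞} (hM : SMP μ W h Q M) :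
    SMG μ W h Q M (fun _ _ => 0) := by
  refine ⟨hM.1, fun j => @measurable_const _ _ _ (Blk W 0 (j * h)) _, fun j f hf => ?_⟩
  simp only [mul_zero, lintegral_zero, add_zero]
  exact hM.2 j f hf

/-- BWSG2. The total estimate. -/
theorem SMG.total {h : ℝ} {Q : ℝ≥0∞} (hQ : 1 ≤ Q) {M X : ℕ → Ω → ℝ≥0∞}
    (hM : SMG μ W h Q M X) (J : ℕ) :
    ∫⁻ ω, M J ω ∂μ + ∑ j ∈ Finset.range J, ∫⁻ ω, X j ω ∂μ ≤ Q ^ J * ∫⁻ ω, M 0 ω ∂μ := by
  induction J with
  | zero => simp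
  | succ J ih =>
    have h1 := hM.2.2 J (fun _ => 1) (@measurable_const _ _ _ (Blk W 0 (J * h)) _)
    simp only [one_mul] at h1
    rw [Finset.sum_range_succ]
    calc ∫⁻ ω, M (J + 1) ω ∂μ + (∑ j ∈ Finset.range J, ∫⁻ ω, X j ω ∂μ + ∫⁻ ω, X J ω ∂μ)
        = (∫⁻ ω, M (J + 1) ω ∂μ + ∫⁻ ω, X J ω ∂μ) + ∑ j ∈ Finset.range J, ∫⁻ ω, X j ω ∂μ := by
          ring
      _ ≤ Q * ∫⁻ ω, M J ω ∂μ + ∑ j ∈ Finset.range J, ∫⁻ ω, X j ω ∂μ :=
          add_le_add h1 le_rfl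
      _ ≤ Q * ∫⁻ ω, M J ω ∂μ + Q * ∑ j ∈ Finset.range J, ∫⁻ ω, X j ω ∂μ := by
          refine add_le_add le_rfl ?_
          conv_lhs => rw [← one_mul (∑ j ∈ Finset.range J, ∫⁻ ω, X j ω ∂μ)]
          exact mul_le_mul_left hQ _
      _ = Q * (∫⁻ ω, M J ω ∂μ + ∑ j ∈ Finset.range J, ∫⁻ ω, X j ω ∂μ) := by ring
      _ ≤ Q * (Q ^ J * ∫⁻ ω, M 0 ω ∂μ) := mul_le_mul_right ih _
      _ = Q ^ (J + 1) * ∫⁻ ω, M 0 ω ∂μ := by rw [pow_succ', mul_assoc]

/-- BWSG3. Multiplication by a constant. -/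
theorem SMG.const {h : ℝ} {Q : ℝ≥0∞} {M X : ℕ → Ω → ℝ≥0∞} (hM : SMG μ W h Q M X) {κ : ℝ≥0∞}
    (hκ : κ ≠ ⊤) : SMG μ W h Q (fun j ω => κ * M j ω) (fun j ω => κ * X j ω) := by
  refine ⟨fun j => (hM.1 j).const_mul κ, fun j => (hM.2.1 j).const_mul κ, fun j f hf => ?_⟩
  have e : ∀ (N : ℕ → Ω → ℝ≥0∞) (i : ℕ), ∫⁻ ω, f ω * (κ * N i ω) ∂μ =
      κ * ∫⁻ ω, f ω * N i ω ∂μ := by
    intro N i
    rw [← lintegral_const_mul' _ _ hκ]
    exact lintegral_congr fun ω => by ring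
  rw [e M, e M, e X, ← mul_add]
  calc κ * (∫⁻ ω, f ω * M (j + 1) ω ∂μ + ∫⁻ ω, f ω * X j ω ∂μ)
      ≤ κ * (Q * ∫⁻ ω, f ω * M j ω ∂μ) := mul_le_mul_right (hM.2.2 j f hf) _
    _ = Q * (κ * ∫⁻ ω, f ω * M j ω ∂μ) := by ring

/-- BWSG4. Sums. -/
theorem SMG.add {h : ℝ} {Q : ℝ≥0∞} {M X M' X' : ℕ → Ω → ℝ≥0∞}
    (hle : ∀ j : ℕ, Blk W 0 (j * h) ≤ (inferInstance : MeasurableSpace Ω))
    (hM : SMG μ W h Q M X) (hM' : SMG μ W h Q M' X') :
    SMG μ W h Q (fun j ω => M j ω + M' j ω) (fun j ω => X j ω + X' j ω) := by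
  refine ⟨fun j => (hM.1 j).add (hM'.1 j), fun j => (hM.2.1 j).add (hM'.2.1 j),
    fun j f hf => ?_⟩
  have hfm : Measurable f := hf.mono (hle j) le_rfl
  have e : ∀ (N N' : Ω → ℝ≥0∞), Measurable N → ∫⁻ ω, f ω * (N ω + N' ω) ∂μ =
      ∫⁻ ω, f ω * N ω ∂μ + ∫⁻ ω, f ω * N' ω ∂μ := by
    intro N N' hN
    have hm : Measurable fun ω => f ω * N ω := hfm.mul hN
    rw [← lintegral_add_left hm]
    exact lintegral_congr fun ω => by ring
  have hMm : ∀ i, Measurable (M i) := fun i => (hM.1 i).mono (hle i) le_rfl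
  have hXm : ∀ i, Measurable (X i) := fun i => (hM.2.1 i).mono (hle i) le_rfl
  rw [e _ _ (hMm (j + 1)), e _ _ (hMm j), e _ _ (hXm j), mul_add]
  calc ∫⁻ ω, f ω * M (j + 1) ω ∂μ + ∫⁻ ω, f ω * M' (j + 1) ω ∂μ +
        (∫⁻ ω, f ω * X j ω ∂μ + ∫⁻ ω, f ω * X' j ω ∂μ)
      = (∫⁻ ω, f ω * M (j + 1) ω ∂μ + ∫⁻ ω, f ω * X j ω ∂μ) +
        (∫⁻ ω, f ω * M' (j + 1) ω ∂μ + ∫⁻ ω, f ω * X' j ω ∂μ) := by ring
    _ ≤ _ := add_le_add (hM.2.2 j f hf) (hM'.2.2 j f hf)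

/-- BWSG5. Constants (`Q ≥ 1`). -/
theorem smp_const {h : ℝ} {Q : ℝ≥0∞} (hQ : 1 ≤ Q) (κ : ℝ≥0∞) :
    SMP μ W h Q (fun _ _ => κ) := by
  refine ⟨fun j => @measurable_const _ _ _ (Blk W 0 (j * h)) _, fun j f _ => ?_⟩
  conv_lhs => rw [← one_mul (∫⁻ ω, f ω * κ ∂μ)]
  exact mul_le_mul_left hQ _

/-- BWSG6. Gluing at a stopping time (as `SMP.glue`). -/
theorem SMG.glue {h : ℝ} {Q : ℝ≥0∞} {M₁ M₂ X₁ X₂ : ℕ → Ω → ℝ≥0∞}
    (hle : ∀ j : ℕ, Blk W 0 (j * h) ≤ (inferInstance : MeasurableSpace Ω))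
    (h₁ : SMG μ W h Q M₁ X₁) (h₂ : SMG μ W h Q M₂ X₂) {S : ℕ → Set Ω}
    (hS : ∀ j : ℕ, MeasurableSet[Blk W 0 (j * h)] (S j)) (hmono : ∀ j, S j ⊆ S (j + 1))
    (hsw : ∀ j ω, ω ∉ S j → ω ∈ S (j + 1) → M₂ (j + 1) ω ≤ M₁ (j + 1) ω) :
    SMG μ W h Q (fun j ω => (S j).indicator (M₂ j) ω + (S j)ᶜ.indicator (M₁ j) ω)
      (fun j ω => (S j).indicator (X₂ j) ω + (S j)ᶜ.indicator (X₁ j) ω) := by
  classical
  refine ⟨fun j => ((h₂.1 j).indicator (hS j)).add ((h₁.1 j).indicator (hS j).compl),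
    fun j => ((h₂.2.1 j).indicator (hS j)).add ((h₁.2.1 j).indicator (hS j).compl),
    fun j f hf => ?_⟩
  have hjm : Measurable f := hf.mono (hle j) le_rfl
  have hSm : MeasurableSet (S j) := hle j _ (hS j)
  have hM2 : ∀ i, Measurable (M₂ i) := fun i => (h₂.1 i).mono (hle i) le_rfl
  have hX2 : ∀ i, Measurable (X₂ i) := fun i => (h₂.2.1 i).mono (hle i) le_rfl
  have hf2 : Measurable[Blk W 0 (j * h)] ((S j).indicator f) := hf.indicator (hS j)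
  have hf1 : Measurable[Blk W 0 (j * h)] ((S j)ᶜ.indicator f) := hf.indicator (hS j).compl
  have hf2m : Measurable ((S j).indicator f) := hf2.mono (hle j) le_rfl
  have key : ∀ ω, f ω * ((S (j + 1)).indicator (M₂ (j + 1)) ω +
      (S (j + 1))ᶜ.indicator (M₁ (j + 1)) ω) ≤
      (S j).indicator f ω * M₂ (j + 1) ω + (S j)ᶜ.indicator f ω * M₁ (j + 1) ω := by
    intro ω
    by_cases h1 : ω ∈ S j
    · have h2 : ω ∈ S (j + 1) := hmono j h1
      have h3 : ω ∉ (S j)ᶜ := fun hc => hc h1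
      have h4 : ω ∉ (S (j + 1))ᶜ := fun hc => hc h2
      rw [Set.indicator_of_mem h1, Set.indicator_of_notMem h3,
        Set.indicator_of_mem h2, Set.indicator_of_notMem h4]
      simp
    · rw [Set.indicator_of_notMem h1, Set.indicator_of_mem (show ω ∈ (S j)ᶜ from h1)]
      by_cases h2 : ω ∈ S (j + 1)
      · have h4 : ω ∉ (S (j + 1))ᶜ := fun hc => hc h2
        rw [Set.indicator_of_mem h2, Set.indicator_of_notMem h4, zero_mul,
          zero_add, add_zero]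
        exact mul_le_mul_right (hsw j ω h1 h2) _
      · rw [Set.indicator_of_notMem h2, Set.indicator_of_mem (show ω ∈ (S (j + 1))ᶜ from h2),
          zero_mul, zero_add, zero_add]
  have eqj : ∀ (N₁ N₂ : Ω → ℝ≥0∞), Measurable N₂ →
      ∫⁻ ω, f ω * ((S j).indicator N₂ ω + (S j)ᶜ.indicator N₁ ω) ∂μ =
      ∫⁻ ω, (S j).indicator f ω * N₂ ω ∂μ + ∫⁻ ω, (S j)ᶜ.indicator f ω * N₁ ω ∂μ := by
    intro N₁ N₂ hN
    have hm : Measurable fun ω => (S j).indicator f ω * N₂ ω := hf2m.mul hN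
    rw [← lintegral_add_left hm]
    refine lintegral_congr fun ω => ?_
    by_cases h1 : ω ∈ S j
    · have h3 : ω ∉ (S j)ᶜ := fun hc => hc h1
      rw [Set.indicator_of_mem h1, Set.indicator_of_notMem h3,
        Set.indicator_of_mem h1, Set.indicator_of_notMem h3]
      simp
    · rw [Set.indicator_of_notMem h1, Set.indicator_of_mem (show ω ∈ (S j)ᶜ from h1),
        Set.indicator_of_notMem h1, Set.indicator_of_mem (show ω ∈ (S j)ᶜ from h1)]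
      simp
  have e0 : ∫⁻ ω, f ω * ((S (j + 1)).indicator (M₂ (j + 1)) ω +
        (S (j + 1))ᶜ.indicator (M₁ (j + 1)) ω) ∂μ ≤
      ∫⁻ ω, (S j).indicator f ω * M₂ (j + 1) ω ∂μ +
        ∫⁻ ω, (S j)ᶜ.indicator f ω * M₁ (j + 1) ω ∂μ := by
    have hm : Measurable fun ω => (S j).indicator f ω * M₂ (j + 1) ω := hf2m.mul (hM2 _)
    rw [← lintegral_add_left hm]
    exact lintegral_mono key
  rw [eqj (X₁ j) (X₂ j) (hX2 j), eqj (M₁ j) (M₂ j) (hM2 j)]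
  calc _ ≤ (∫⁻ ω, (S j).indicator f ω * M₂ (j + 1) ω ∂μ +
        ∫⁻ ω, (S j)ᶜ.indicator f ω * M₁ (j + 1) ω ∂μ) +
        (∫⁻ ω, (S j).indicator f ω * X₂ j ω ∂μ + ∫⁻ ω, (S j)ᶜ.indicator f ω * X₁ j ω ∂μ) :=
        add_le_add e0 le_rfl
    _ = (∫⁻ ω, (S j).indicator f ω * M₂ (j + 1) ω ∂μ +
        ∫⁻ ω, (S j).indicator f ω * X₂ j ω ∂μ) +
        (∫⁻ ω, (S j)ᶜ.indicator f ω * M₁ (j + 1) ω ∂μ +
        ∫⁻ ω, (S j)ᶜ.indicator f ω * X₁ j ω ∂μ) := by ring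
    _ ≤ Q * ∫⁻ ω, (S j).indicator f ω * M₂ j ω ∂μ +
        Q * ∫⁻ ω, (S j)ᶜ.indicator f ω * M₁ j ω ∂μ :=
        add_le_add (h₂.2.2 j _ hf2) (h₁.2.2 j _ hf1)
    _ = _ := by rw [mul_add]

/-- BWSG7. A sequence which starts at the time `j₀`, with a weight `w` which depends on the past
of the time `j₀`; before it is the constant `κ`. Cases `j + 1 < j₀`, `j + 1 = j₀`, `j₀ ≤ j` (then
`f * w` is measurable for `Blk W 0 (j h)`, by `Blk_le_Blk`). -/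
theorem SMP.start [IsProbabilityMeasure μ] {h : ℝ} (hh : 0 ≤ h) {Q : ℝ≥0∞} (hQ : 1 ≤ Q)
    {M : ℕ → Ω → ℝ≥0∞} (hM : SMP μ W h Q M) (j₀ : ℕ) (κ : ℝ≥0∞) (w : Ω → ℝ≥0∞)
    (hw : Measurable[Blk W 0 (j₀ * h)] w) (hle : ∀ ω, w ω * M j₀ ω ≤ κ) :
    SMP μ W h Q (fun j ω => if j < j₀ then κ else w ω * M j ω) := by
  have hbl : ∀ j : ℕ, j₀ ≤ j → Blk W 0 (j₀ * h) ≤ Blk W 0 (j * h) := by
    intro j hj
    refine Blk_le_Blk le_rfl ?_
    have : (j₀ : ℝ) ≤ j := by exact_mod_cast hj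
    exact mul_le_mul_of_nonneg_right this hh
  have hcon : ∀ f : Ω → ℝ≥0∞, ∫⁻ ω, f ω * κ ∂μ ≤ Q * ∫⁻ ω, f ω * κ ∂μ := by
    intro f
    conv_lhs => rw [← one_mul (∫⁻ ω, f ω * κ ∂μ)]
    exact mul_le_mul_left hQ _
  refine ⟨fun j => ?_, fun j f hf => ?_⟩
  · by_cases hj : j < j₀
    · simp only [hj, if_true]
      exact @measurable_const _ _ _ (Blk W 0 (j * h)) _
    · simp only [hj, if_false]
      exact (hw.mono (hbl j (by omega)) le_rfl).mul (hM.1 j)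
  · by_cases hj : j < j₀
    · by_cases hj' : j + 1 < j₀
      · simp only [hj, hj', if_true]
        exact hcon f
      · have h1 : j + 1 = j₀ := by omega
        simp only [hj, hj', if_true, if_false]
        refine le_trans (lintegral_mono fun ω => mul_le_mul_right ?_ _) (hcon f)
        rw [h1]
        exact hle ω
    · have hj' : ¬ (j + 1 < j₀) := by omega
      simp only [hj, hj', if_false]
      have h1 := hM.2 j (fun ω => f ω * w ω) (hf.mul (hw.mono (hbl j (by omega)) le_rfl))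
      simp only [mul_assoc] at h1
      exact h1

/-- BWSG8. The occupation sequence of a function `F ≥ 1` with the kernel `k ≥ 0`.

Proof. `smp_one`-type computation (`cond_step` with the weight `f * indicator (AnS j) 1`):
`∫ f M (j+1) ≤ ∫ f 1_(AnS j) Q exp (-h k) F`, and `Q exp (-x) F + x / 2 ≤ Q F` for
`0 ≤ x ≤ 1`, `F ≥ 1`, `Q ≥ 1`. -/
theorem smg_occ [IsProbabilityMeasure μ] (hW : Drv a b c K W μ) {h δ R Q : ℝ} (hh : 0 < h)
    (hQ : 1 ≤ Q) {F k : ℂ → ℝ} (hF : Measurable F) (hk : Measurable k)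
    (hF1 : ∀ z : ℂ, δ ≤ ‖z‖ → ‖z‖ ≤ R → 1 ≤ F z)
    (hk0 : ∀ z : ℂ, δ ≤ ‖z‖ → ‖z‖ ≤ R → 0 ≤ k z)
    (hk1 : ∀ z : ℂ, δ ≤ ‖z‖ → ‖z‖ ≤ R → h * k z ≤ 1)
    (hone : ∀ (z : ℂ) (s : ℝ), δ ≤ ‖z‖ → ‖z‖ ≤ R → 0 ≤ s →
      ∫⁻ ω, ENNReal.ofReal (F (z + 2 * h / z - (W (s + h) ω - W s ω))) ∂μ
        ≤ ENNReal.ofReal (Q * Real.exp (-(h * k z)) * F z)) (z₀ : ℂ) :
    SMG μ W h (ENNReal.ofReal Q)
      (fun j ω => (AnS W z₀ h δ R j).indicator
        (fun ω => ENNReal.ofReal (F (DiscAux.Z W z₀ h j ω))) ω)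
      (fun j ω => (AnS W z₀ h δ R j).indicator
        (fun ω => ENNReal.ofReal (h / 2 * k (DiscAux.Z W z₀ h j ω))) ω) := by
  classical
  have hQ0 : 0 ≤ Q := by linarith
  have hle : ∀ j : ℕ, Blk W 0 (j * h) ≤ (inferInstance : MeasurableSpace Ω) :=
    fun j => Blk_le hW _ _
  have hmk : ∀ (G : ℂ → ℝ), Measurable G → ∀ j : ℕ, Measurable[Blk W 0 (j * h)]
      ((AnS W z₀ h δ R j).indicator (fun ω => ENNReal.ofReal (G (DiscAux.Z W z₀ h j ω)))) := by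
    intro G hG j
    refine Measurable.indicator ?_ (TRDOC.AnS_meas hh z₀ j le_rfl)
    exact ENNReal.measurable_ofReal.comp (hG.comp (DiscAux.Z_meas hh z₀ j _ le_rfl))
  refine ⟨fun j => hmk F hF j, fun j => hmk (fun z => h / 2 * k z) (hk.const_mul _) j,
    fun j f hf => ?_⟩
  have hA := TRDOC.AnS_meas (W := W) (δ := δ) (R := R) hh z₀ j le_rfl
  have hwm : Measurable[Blk W 0 (j * h)] (fun ω => f ω * (AnS W z₀ h δ R j).indicator
      (fun _ => (1 : ℝ≥0∞)) ω) :=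
    hf.mul ((@measurable_const _ _ _ (Blk W 0 (j * h)) (1 : ℝ≥0∞)).indicator hA)
  have hρm : Measurable (fun z => Q * Real.exp (-(h * k z)) * F z) :=
    ((Real.measurable_exp.comp (hk.const_mul h).neg).const_mul Q).mul hF
  have c1 := cond_step hW hh hF hρm hone z₀ j _ hwm (by
    intro ω hω
    have h1 : (AnS W z₀ h δ R j).indicator (fun _ => (1 : ℝ≥0∞)) ω ≠ 0 :=
      right_ne_zero_of_mul hω
    exact (Set.mem_of_indicator_ne_zero h1) j le_rfl)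
  have hwm' : Measurable (fun ω => f ω * (AnS W z₀ h δ R j).indicator
      (fun _ => (1 : ℝ≥0∞)) ω) := hwm.mono (hle j) le_rfl
  calc ∫⁻ ω, f ω * (AnS W z₀ h δ R (j + 1)).indicator (fun ω => ENNReal.ofReal
        (F (DiscAux.Z W z₀ h (j + 1) ω))) ω ∂μ +
        ∫⁻ ω, f ω * (AnS W z₀ h δ R j).indicator (fun ω => ENNReal.ofReal
        (h / 2 * k (DiscAux.Z W z₀ h j ω))) ω ∂μ
      ≤ ∫⁻ ω, f ω * (AnS W z₀ h δ R j).indicator (fun _ => (1 : ℝ≥0∞)) ω *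
          ENNReal.ofReal (F (DiscAux.Z W z₀ h (j + 1) ω)) ∂μ +
        ∫⁻ ω, f ω * (AnS W z₀ h δ R j).indicator (fun ω => ENNReal.ofReal
        (h / 2 * k (DiscAux.Z W z₀ h j ω))) ω ∂μ := by
        refine add_le_add (lintegral_mono fun ω => ?_) le_rfl
        by_cases h1 : ω ∈ AnS W z₀ h δ R (j + 1)
        · have h2 : ω ∈ AnS W z₀ h δ R j := fun i hi => h1 i (by omega)
          rw [Set.indicator_of_mem h1, Set.indicator_of_mem h2, mul_one]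
        · rw [Set.indicator_of_notMem h1, mul_zero]
          exact zero_le
    _ ≤ ∫⁻ ω, f ω * (AnS W z₀ h δ R j).indicator (fun _ => (1 : ℝ≥0∞)) ω *
          ENNReal.ofReal (Q * Real.exp (-(h * k (DiscAux.Z W z₀ h j ω))) *
            F (DiscAux.Z W z₀ h j ω)) ∂μ +
        ∫⁻ ω, f ω * (AnS W z₀ h δ R j).indicator (fun ω => ENNReal.ofReal
        (h / 2 * k (DiscAux.Z W z₀ h j ω))) ω ∂μ := add_le_add c1 le_rfl
    _ = ∫⁻ ω, (f ω * (AnS W z₀ h δ R j).indicator (fun _ => (1 : ℝ≥0∞)) ω *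
          ENNReal.ofReal (Q * Real.exp (-(h * k (DiscAux.Z W z₀ h j ω))) *
            F (DiscAux.Z W z₀ h j ω)) +
        f ω * (AnS W z₀ h δ R j).indicator (fun ω => ENNReal.ofReal
        (h / 2 * k (DiscAux.Z W z₀ h j ω))) ω) ∂μ := by
        rw [lintegral_add_left]
        exact hwm'.mul (ENNReal.measurable_ofReal.comp (hρm.comp
          ((DiscAux.Z_meas hh z₀ j _ le_rfl).mono (hle j) le_rfl)))
    _ ≤ ∫⁻ ω, ENNReal.ofReal Q * (f ω * (AnS W z₀ h δ R j).indicator (fun ω => ENNReal.ofReal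
          (F (DiscAux.Z W z₀ h j ω))) ω) ∂μ := by
        refine lintegral_mono fun ω => ?_
        by_cases h1 : ω ∈ AnS W z₀ h δ R j
        · have hz := h1 j le_rfl
          obtain ⟨x, hx⟩ : ∃ x : ℝ, x = h * k (DiscAux.Z W z₀ h j ω) := ⟨_, rfl⟩
          obtain ⟨y, hy⟩ : ∃ y : ℝ, y = F (DiscAux.Z W z₀ h j ω) := ⟨_, rfl⟩
          have hy1 : 1 ≤ y := by
            rw [hy]
            exact hF1 _ hz.1 hz.2
          have hx0 : 0 ≤ x := by
            rw [hx]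
            exact mul_nonneg hh.le (hk0 _ hz.1 hz.2)
          have hx1 : x ≤ 1 := by
            rw [hx]
            exact hk1 _ hz.1 hz.2
          have e1 : h / 2 * k (DiscAux.Z W z₀ h j ω) = x / 2 := by
            rw [hx]
            ring
          rw [Set.indicator_of_mem h1, Set.indicator_of_mem h1, Set.indicator_of_mem h1,
            mul_one, e1, ← hx, ← hy, ← mul_add, ← ENNReal.ofReal_add (by positivity)
              (by positivity)]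
          have hexp : Real.exp (-x) ≤ 1 - x / 2 := by
            have h3 := Real.add_one_le_exp x
            have h4 : Real.exp (-x) * Real.exp x = 1 := by
              rw [← Real.exp_add, neg_add_cancel, Real.exp_zero]
            have h5 : 0 ≤ Real.exp (-x) := (Real.exp_pos _).le
            have h6 : Real.exp (-x) * (1 + x) ≤ 1 := by nlinarith
            by_contra hcon
            push Not at hcon
            nlinarith [mul_nonneg hx0 (sub_nonneg.2 hx1)]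
          have h5 : Q * Real.exp (-x) * y + x / 2 ≤ Q * y := by
            have h6 : Q * Real.exp (-x) * y ≤ Q * (1 - x / 2) * y := by
              have : 0 ≤ y := by linarith
              gcongr
            have h7 : x / 2 ≤ Q * (x / 2) * y := by
              have h8 : 1 ≤ Q * y := by nlinarith
              have h9 : 0 ≤ x / 2 * (Q * y - 1) := mul_nonneg (by linarith) (by linarith)
              nlinarith
            linarith
          calc f ω * ENNReal.ofReal (Q * Real.exp (-x) * y + x / 2)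
              ≤ f ω * ENNReal.ofReal (Q * y) :=
                mul_le_mul_right (ENNReal.ofReal_le_ofReal h5) _
            _ = ENNReal.ofReal Q * (f ω * ENNReal.ofReal y) := by
                rw [ENNReal.ofReal_mul hQ0]
                ring
        · rw [Set.indicator_of_notMem h1, Set.indicator_of_notMem h1,
            Set.indicator_of_notMem h1]
          simp
    _ = _ := lintegral_const_mul' _ _ ENNReal.ofReal_ne_top

end

end Pool.Agent.SLE
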