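import Pool.Agent.Lib.MP_c17912_pr_TR.SHD

/-!
# MP_c17912_pr, project TC, backward critical case: the ball which follows a solution

`ph U g 0 u = log |g_u'| - log |Z_u|` (`ε = 0`).
-/

set_option autoImplicit false

open MeasureTheory ProbabilityTheory Filter
open scoped NNReal ENNReal Topology Real

namespace Pool.Agent.SLE

noncomputable section

namespace TCBWSH

/-- the size of the derivative of the flow -/
def dz (Z : ℝ → ℂ) (u : ℝ) : ℝ := Real.exp (-(∫ x in (0 : ℝ)..u, 2 / Z x ^ 2).re)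

theorem dz_pos (Z : ℝ → ℂ) (u : ℝ) : 0 < dz Z u := Real.exp_pos _

theorem cont_J {Z : ℝ → ℂ} (hZc : Continuous Z) (hZ0 : ∀ x, Z x ≠ 0) (u : ℝ) :
    HasDerivAt (fun u => ∫ x in (0 : ℝ)..u, 2 / Z x ^ 2) (2 / Z u ^ 2) u := by
  have hac : Continuous fun x => 2 / Z x ^ 2 :=
    continuous_const.div (hZc.pow 2) fun x => pow_ne_zero 2 (hZ0 x)
  exact intervalIntegral.integral_hasDerivAt_right (hac.intervalIntegrable _ _)
      (hac.stronglyMeasurableAtFilter _ _) hac.continuousAt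

theorem cont_dz {Z : ℝ → ℂ} (hZc : Continuous Z) (hZ0 : ∀ x, Z x ≠ 0) :
    Continuous (dz Z) := by
  have h1 : Continuous fun u => ∫ x in (0 : ℝ)..u, 2 / Z x ^ 2 :=
    continuous_iff_continuousAt.mpr fun u => (cont_J hZc hZ0 u).continuousAt
  exact Real.continuous_exp.comp (Complex.continuous_re.comp h1).neg

theorem cont_e {Z : ℝ → ℂ} (hZc : Continuous Z) (hZ0 : ∀ x, Z x ≠ 0) :
    Continuous fun u => dz Z u / ‖Z u‖ ^ 3 :=
  (cont_dz hZc hZ0).div (hZc.norm.pow 3) fun x => pow_ne_zero 3 (norm_ne_zero_iff.mpr (hZ0 x))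

/-- the main estimate: two solutions stay close -/
theorem close {U : ℝ → ℂ} {z w : ℂ} {t s r : ℝ} {g g' Z : ℝ → ℂ}
    (hs : s ∈ Set.Icc 0 t) (hr : 0 < r) (hg : Sol U z t g) (hg' : Sol U w s g')
    (hZc : Continuous Z) (hZ0 : ∀ x, Z x ≠ 0) (hZe : ∀ x ∈ Set.Icc 0 t, Z x = g x - U x)
    (h1 : ∀ u ∈ Set.Icc 0 t, r * dz Z u ≤ ‖Z u‖ / 32)
    (h2 : r * ∫ u in (0 : ℝ)..t, dz Z u / ‖Z u‖ ^ 3 ≤ 1 / 32)
    (hw : ‖w - z‖ ≤ r) (hne : w ≠ z) :
    ∀ u ∈ Set.Icc 0 s, ‖g' u - g u‖ ≤ 2 * r * dz Z u := by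
  obtain ⟨J, hJ⟩ : ∃ J : ℝ → ℂ, J = fun u => ∫ x in (0 : ℝ)..u, 2 / Z x ^ 2 := ⟨_, rfl⟩
  obtain ⟨Q, hQ⟩ : ∃ Q : ℝ → ℝ, Q = fun u => ∫ x in (0 : ℝ)..u, dz Z x / ‖Z x‖ ^ 3 := ⟨_, rfl⟩
  have hec := cont_e hZc hZ0
  have hJd : ∀ u, HasDerivAt J (2 / Z u ^ 2) u := by
    rw [hJ]
    exact fun u => cont_J hZc hZ0 u
  have hQd : ∀ u, HasDerivAt Q (dz Z u / ‖Z u‖ ^ 3) u := by
    rw [hQ]
    exact fun u => intervalIntegral.integral_hasDerivAt_right (hec.intervalIntegrable _ _)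
      (hec.stronglyMeasurableAtFilter _ _) hec.continuousAt
  have he0 : ∀ u, 0 < dz Z u / ‖Z u‖ ^ 3 := fun u =>
    div_pos (dz_pos Z u) (pow_pos (norm_pos_iff.mpr (hZ0 u)) 3)
  have hdzJ : ∀ u, dz Z u = Real.exp (-(J u).re) := by
    intro u
    rw [hJ, dz]
  have hJ0 : J 0 = 0 := by simp [hJ]
  have hQ0 : Q 0 = 0 := by simp [hQ]
  have hQt : ∀ u ∈ Set.Icc 0 s, r * Q u ≤ 1 / 32 := by
    intro u hu
    refine le_trans ?_ h2
    refine mul_le_mul_of_nonneg_left ?_ hr.le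
    rw [hQ]
    exact intervalIntegral.integral_mono_interval le_rfl hu.1 (hu.2.trans hs.2)
      (Eventually.of_forall fun x => (he0 x).le) (hec.intervalIntegrable _ _)
  -- the normalised difference
  obtain ⟨D, hD⟩ : ∃ D : ℝ → ℂ, D = fun u => g' u - g u := ⟨_, rfl⟩
  obtain ⟨N, hN⟩ : ∃ N : ℝ → ℂ, N = fun u => D u * Complex.exp (J u) := ⟨_, rfl⟩
  have hD0 : D 0 = w - z := by rw [hD]; simp only; rw [hg.1, hg'.1]
  have hD0p : 0 < ‖D 0‖ := by rw [hD0]; exact norm_pos_iff.mpr (sub_ne_zero.mpr hne)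
  have hD0r : ‖D 0‖ ≤ r := by rw [hD0]; exact hw
  have hN0 : ‖N 0‖ = ‖D 0‖ := by simp [hN, hJ0]
  have hND : ∀ u, ‖N u‖ = ‖D u‖ * Real.exp (J u).re := by
    intro u
    rw [hN]
    simp only
    rw [norm_mul, Complex.norm_exp]
  have hDd : ∀ u ∈ Set.Ico 0 s, HasDerivWithinAt D (-2 * D u / (Z u * (Z u + D u)))
      (Set.Ici u) u := by
    intro u hu
    have hu' : u ∈ Set.Icc 0 s := ⟨hu.1, hu.2.le⟩
    have hut : u ∈ Set.Icc 0 t := ⟨hu.1, hu.2.le.trans hs.2⟩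
    have hmem : Set.Icc 0 s ∈ 𝓝[≥] u := by
      refine mem_of_superset (Icc_mem_nhdsGE hu.2) ?_
      exact Set.Icc_subset_Icc_left hu.1
    have hmem' : Set.Icc 0 t ∈ 𝓝[≥] u := by
      refine mem_of_superset hmem ?_
      exact Set.Icc_subset_Icc_right hs.2
    have h1 := (hg'.2.2 u hu').mono_of_mem_nhdsWithin hmem
    have h2 := (hg.2.2 u hut).mono_of_mem_nhdsWithin hmem'
    have h3 := h1.sub h2
    have hne1 : g u - U u ≠ 0 := sub_ne_zero.mpr (hg.2.1 u hut)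
    have hne2 : g' u - U u ≠ 0 := sub_ne_zero.mpr (hg'.2.1 u hu')
    have e1 : Z u + D u = g' u - U u := by rw [hZe u hut, hD]; simp only; ring
    have e2 : (-2 * D u / (Z u * (Z u + D u))) = 2 / (g' u - U u) - 2 / (g u - U u) := by
      rw [e1, hZe u hut, hD]
      simp only
      field_simp
      ring
    rw [e2, hD]
    exact h3
  have hNd : ∀ u ∈ Set.Ico 0 s, HasDerivWithinAt N
      (N u * (2 * D u / (Z u ^ 2 * (Z u + D u)))) (Set.Ici u) u := by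
    intro u hu
    have hu' : u ∈ Set.Icc 0 s := ⟨hu.1, hu.2.le⟩
    have hut : u ∈ Set.Icc 0 t := ⟨hu.1, hu.2.le.trans hs.2⟩
    have h1 := (hDd u hu).mul ((hJd u).cexp.hasDerivWithinAt (s := Set.Ici u))
    have hne2 : g' u - U u ≠ 0 := sub_ne_zero.mpr (hg'.2.1 u hu')
    have e1 : Z u + D u = g' u - U u := by rw [hZe u hut, hD]; simp only; ring
    have hne3 : Z u + D u ≠ 0 := by rw [e1]; exact hne2
    have hne4 := hZ0 u
    have e2 : N u * (2 * D u / (Z u ^ 2 * (Z u + D u))) =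
        -2 * D u / (Z u * (Z u + D u)) * Complex.exp (J u) +
          D u * (Complex.exp (J u) * (2 / Z u ^ 2)) := by
      rw [hN]
      simp only
      field_simp
      ring
    rw [e2, hN]
    exact h1
  -- consequences of an upper bound for `N`
  have hcons : ∀ u ∈ Set.Icc 0 s, ‖N u‖ ≤ 2 * ‖D 0‖ → ‖D u‖ ≤ 2 * r * dz Z u := by
    intro u hu hNu
    rw [hND] at hNu
    have h1 : ‖D u‖ = ‖D u‖ * Real.exp (J u).re * Real.exp (-(J u).re) := by
      rw [mul_assoc, ← Real.exp_add, add_neg_cancel, Real.exp_zero, mul_one]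
    rw [h1, hdzJ]
    refine mul_le_mul_of_nonneg_right ?_ (Real.exp_pos _).le
    linarith
  have hcons2 : ∀ u ∈ Set.Icc 0 s, ‖N u‖ ≤ 2 * ‖D 0‖ → ‖D u‖ ≤ ‖Z u‖ / 16 := by
    intro u hu hNu
    have h3 := hcons u hu hNu
    have h4 := h1 u ⟨hu.1, hu.2.trans hs.2⟩
    linarith
  -- the boundary function
  obtain ⟨B, hB⟩ : ∃ B : ℝ → ℝ, B = fun u => ‖D 0‖ * Real.exp (5 * r * Q u) := ⟨_, rfl⟩
  have hB2 : ∀ u ∈ Set.Icc 0 s, B u ≤ 2 * ‖D 0‖ := by
    intro u hu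
    have h3 : Real.exp (5 * r * Q u) ≤ Real.exp (1 / 2) := by
      apply Real.exp_le_exp.mpr
      have := hQt u hu
      linarith
    have h4 : Real.exp (1 / 2) ≤ 2 := by
      have h3 : Real.exp (1 / 2) ^ 2 = Real.exp 1 := by
        rw [← Real.exp_nat_mul]; norm_num
      have h4 := Real.exp_one_lt_d9
      have h5 := Real.exp_pos (1 / 2)
      nlinarith
    rw [hB]
    simp only
    rw [mul_comm]
    gcongr
    exact h3.trans h4
  have hBpos : ∀ u, 0 < B u := by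
    rw [hB]
    exact fun u => mul_pos hD0p (Real.exp_pos _)
  have hBd : ∀ u, HasDerivAt B (B u * (5 * r * (dz Z u / ‖Z u‖ ^ 3))) u := by
    intro u
    have h3 := ((hQd u).const_mul (5 * r)).exp.const_mul ‖D 0‖
    have e3 : B u * (5 * r * (dz Z u / ‖Z u‖ ^ 3)) =
        ‖D 0‖ * (Real.exp (5 * r * Q u) * (5 * r * (dz Z u / ‖Z u‖ ^ 3))) := by
      rw [hB]
      ring
    rw [e3, hB]
    exact h3
  have hDc : ContinuousOn D (Set.Icc 0 s) := by
    rw [hD]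
    intro x hx
    have hxt : x ∈ Set.Icc 0 t := ⟨hx.1, hx.2.trans hs.2⟩
    exact ((hg'.2.2 x hx).continuousWithinAt).sub
      ((hg.2.2 x hxt).continuousWithinAt.mono (Set.Icc_subset_Icc_right hs.2))
  have hNc : ContinuousOn N (Set.Icc 0 s) := by
    rw [hN]
    exact hDc.mul (Complex.continuous_exp.comp
      (continuous_iff_continuousAt.mpr fun u => (hJd u).continuousAt)).continuousOn
  have main := image_norm_le_of_norm_deriv_right_lt_deriv_boundary (a := 0) (b := s)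
    (f := N) (f' := fun u => N u * (2 * D u / (Z u ^ 2 * (Z u + D u)))) (B := B)
    (B' := fun u => B u * (5 * r * (dz Z u / ‖Z u‖ ^ 3))) hNc hNd
    (by rw [hN0, hB]; simp [hQ0]) hBd (fun u hu hNB => by
      have hu' : u ∈ Set.Icc 0 s := ⟨hu.1, hu.2.le⟩
      have hN2 : ‖N u‖ ≤ 2 * ‖D 0‖ := by rw [hNB]; exact hB2 u hu'
      have h3 := hcons u hu' hN2
      have h4 := hcons2 u hu' hN2
      have hZp : 0 < ‖Z u‖ := norm_pos_iff.mpr (hZ0 u)
      have h5 : 15 / 16 * ‖Z u‖ ≤ ‖Z u + D u‖ := by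
        have h4 : ‖Z u‖ ≤ ‖Z u + D u‖ + ‖D u‖ := by
          have := norm_sub_le (Z u + D u) (D u)
          rwa [add_sub_cancel_right] at this
        linarith
      have h6 : ‖2 * D u / (Z u ^ 2 * (Z u + D u))‖ < 5 * r * (dz Z u / ‖Z u‖ ^ 3) := by
        rw [norm_div, norm_mul, norm_mul, norm_pow, Complex.norm_ofNat]
        have h9 : 0 < ‖Z u + D u‖ := lt_of_lt_of_le (by positivity) h5
        rw [div_lt_iff₀ (by positivity)]
        have h7 : 5 * r * (dz Z u / ‖Z u‖ ^ 3) * (‖Z u‖ ^ 2 * ‖Z u + D u‖) =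
            5 * r * dz Z u * ‖Z u + D u‖ / ‖Z u‖ := by
          field_simp
        rw [h7, lt_div_iff₀ hZp]
        have h8 : 0 < r * dz Z u := mul_pos hr (dz_pos Z u)
        have h10 : 0 < r * dz Z u * ‖Z u‖ := mul_pos h8 hZp
        calc 2 * ‖D u‖ * ‖Z u‖ ≤ 2 * (2 * r * dz Z u) * ‖Z u‖ := by gcongr
          _ = 4 * (r * dz Z u * ‖Z u‖) := by ring
          _ < 75 / 16 * (r * dz Z u * ‖Z u‖) := by linarith
          _ = 5 * r * dz Z u * (15 / 16 * ‖Z u‖) := by ring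
          _ ≤ 5 * r * dz Z u * ‖Z u + D u‖ := by
            refine mul_le_mul_of_nonneg_left h5 ?_
            nlinarith
      rw [norm_mul, hNB]
      exact mul_lt_mul_of_pos_left h6 (hBpos u))
  intro u hu
  have h3 := hcons u hu ((main hu).trans (hB2 u hu))
  rw [hD] at h3
  exact h3

theorem kk_eq (Y : ℂ) : kk 1 0 Y = -(2 / Y ^ 2).re := by
  have e5 : (2 / Y ^ 2).re = 2 * (1 / Y ^ 2).re := by
    rw [show (2 : ℂ) / Y ^ 2 = ((2 : ℝ) : ℂ) * (1 / Y ^ 2) by push_cast; ring,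
      Complex.re_ofReal_mul]
  rw [e5, kk]
  ring

theorem int_kk {Z : ℝ → ℂ} (hZc : Continuous Z) (hZ0 : ∀ x, Z x ≠ 0) (u : ℝ) :
    ∫ v in (0 : ℝ)..u, kk 1 0 (Z v) = -(∫ x in (0 : ℝ)..u, 2 / Z x ^ 2).re := by
  have hac : Continuous fun x => 2 / Z x ^ 2 :=
    continuous_const.div (hZc.pow 2) fun x => pow_ne_zero 2 (hZ0 x)
  have h1 : ∫ v in (0 : ℝ)..u, kk 1 0 (Z v) =
      ∫ x in (0 : ℝ)..u, -Complex.reCLM (2 / Z x ^ 2) :=
    intervalIntegral.integral_congr fun x hx => by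
      simp only [Complex.reCLM_apply]
      exact kk_eq (Z x)
  rw [h1, intervalIntegral.integral_neg,
    Complex.reCLM.intervalIntegral_comp_comm (hac.intervalIntegrable _ _)]
  rfl

theorem ph_eq {U g Z : ℝ → ℂ} {t : ℝ} (hZc : Continuous Z) (hZ0 : ∀ x, Z x ≠ 0)
    (hZe : ∀ x ∈ Set.Icc 0 t, Z x = g x - U x) {u : ℝ} (hu : u ∈ Set.Icc 0 t) :
    Real.exp (ph U g 0 u) = dz Z u / ‖Z u‖ := by
  have hZp : 0 < ‖Z u‖ := norm_pos_iff.mpr (hZ0 u)
  have e1 : ∫ v in (0 : ℝ)..u, kk 1 0 (g v - U v) = ∫ v in (0 : ℝ)..u, kk 1 0 (Z v) :=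
    intervalIntegral.integral_congr fun x hx => by
      rw [Set.uIcc_of_le hu.1] at hx
      rw [hZe x ⟨hx.1, hx.2.trans hu.2⟩]
  rw [ph, e1, int_kk hZc hZ0 u, ← hZe u hu, Real.exp_sub, Real.exp_log hZp]
  rfl

end TCBWSH

/-- BWSH1. The integral form of the shadowing lemma: the ball of radius `r` around `z` follows
the solution of `z` if `r exp (ph_u) ≤ 1/32` and `r ∫ exp (ph_u) / |Z_u|^2 du ≤ 1/32`.

Proof. Let `w ≠ z`, `g'` a solution of `w` on `[0,s]`, `s ≤ t`, `D = g' - g`, `D_0 = w - z`.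
`D' = - 2 D / (Z Z')`, so `D_u = D_0 exp (- ∫ 2 / (Z Z'))`. As long as `|D| ≤ 2 |w - z| |g_u'|`
(`|g_u'| = exp (- ∫ (2 / Z^2).re) = |Z_u| exp (ph_u)`) one has `|D| ≤ |Z| / 16`, hence
`|2 / (Z Z') - 2 / Z^2| ≤ 2 |D| / (|Z|^2 |Z'|) ≤ (32 / 15) * 2 r |g_u'| / |Z|^3
= (64 / 15) r exp (ph_u) / |Z_u|^2`, whose integral is at most `64 / 15 / 32 < 1 / 6`; so
`|D_u| ≤ r |g_u'| exp (1/6) < 2 r |g_u'|`: a continuity argument as in `BAaux.close`
(LN/BA.lean), SHD.lean. Existence of the solution up to time `t`: `hull_reach` as in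
`ball_alive_small` / step 2 of `shadow` (note `r ≤ |z| / 32` from `u = 0`, `ph_0 = - log |z|`).
Comparison: `|1 / Z'^2 - 1 / Z^2| ≤ |D| |Z + Z'| / (|Z|^2 |Z'|^2) ≤ 3 |D| / |Z|^3
≤ 6 r exp (ph_u) / |Z_u|^2`, whose integral is at most `6 / 32 < 1 / 2`. -/
theorem shadow_int {U : ℝ → ℂ} (hU : Continuous U) (h0 : U 0 = 0) {z w : ℂ} {t r : ℝ}
    (ht : 0 ≤ t) (hr : 0 < r) {g : ℝ → ℂ} (hg : Sol U z t g)
    (h1 : ∀ u ∈ Set.Icc 0 t, r * Real.exp (ph U g 0 u) ≤ 1 / 32)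
    (h2 : r * ∫ u in (0 : ℝ)..t, Real.exp (ph U g 0 u) / ‖g u - U u‖ ^ 2 ≤ 1 / 32)
    (hw : ‖w - z‖ ≤ r) :
    ∃ g' : ℝ → ℂ, Sol U w t g' ∧ (∀ u ∈ Set.Icc 0 t, ‖g' u - g u‖ ≤ ‖g u - U u‖ / 4) ∧
      |(∫ v in (0 : ℝ)..t, kk 1 0 (g' v - U v)) - ∫ v in (0 : ℝ)..t, kk 1 0 (g v - U v)| ≤ 1 := by
  have hz : z ≠ 0 := by
    have h1 := hg.2.1 0 ⟨le_rfl, ht⟩
    rwa [hg.1, h0] at h1
  have hz0 : 0 < ‖z‖ := norm_pos_iff.mpr hz
  obtain ⟨Z, hZc, hZ0, hZe⟩ := TRSHD.ext hU ht hg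
  have hZp : ∀ u, 0 < ‖Z u‖ := fun u => norm_pos_iff.mpr (hZ0 u)
  have h1' : ∀ u ∈ Set.Icc 0 t, r * TCBWSH.dz Z u ≤ ‖Z u‖ / 32 := by
    intro u hu
    have h3 := h1 u hu
    rw [TCBWSH.ph_eq hZc hZ0 hZe hu, ← mul_div_assoc, div_le_iff₀ (hZp u)] at h3
    linarith
  have h2' : r * ∫ u in (0 : ℝ)..t, TCBWSH.dz Z u / ‖Z u‖ ^ 3 ≤ 1 / 32 := by
    refine le_trans (le_of_eq ?_) h2
    congr 1
    refine intervalIntegral.integral_congr fun u hu => ?_
    rw [Set.uIcc_of_le ht] at hu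
    rw [TCBWSH.ph_eq hZc hZ0 hZe hu, ← hZe u hu, div_div]
    congr 1
    ring
  -- two solutions
  have hcl : ∀ s ∈ Set.Icc 0 t, ∀ g' : ℝ → ℂ, Sol U w s g' → ∀ u ∈ Set.Icc 0 s,
      ‖g' u - g u‖ ≤ 2 * r * TCBWSH.dz Z u := by
    intro s hs g' hg' u hu
    by_cases hne : w = z
    · subst hne
      have h3 := Sol.unique hU hg' (hg.restrict hs.2) u hu
      rw [h3, sub_self, norm_zero]
      have := TCBWSH.dz_pos Z u
      positivity
    · exact TCBWSH.close hs hr hg hg' hZc hZ0 hZe h1' h2' hw hne u hu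
  have hcl16 : ∀ s ∈ Set.Icc 0 t, ∀ g' : ℝ → ℂ, Sol U w s g' → ∀ u ∈ Set.Icc 0 s,
      ‖g' u - g u‖ ≤ ‖Z u‖ / 16 := by
    intro s hs g' hg' u hu
    have h3 := hcl s hs g' hg' u hu
    have h4 := h1' u ⟨hu.1, hu.2.trans hs.2⟩
    linarith
  -- existence
  have hex : ∃ g', Sol U w t g' := by
    by_contra hcon
    have hrz : r ≤ ‖z‖ / 32 := by
      have h3 := h1' 0 ⟨le_rfl, ht⟩
      rw [TCBWSH.dz, intervalIntegral.integral_same, Complex.zero_re, neg_zero, Real.exp_zero,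
        mul_one, hZe 0 ⟨le_rfl, ht⟩, hg.1, h0, sub_zero] at h3
      exact h3
    have hw0 : 0 < ‖w‖ := by
      have h1 : ‖z‖ ≤ ‖w‖ + ‖w - z‖ := by
        have := norm_sub_le w (w - z)
        rwa [sub_sub_cancel] at this
      linarith
    obtain ⟨c, hc0, hc⟩ : ∃ c : ℝ, 0 < c ∧ ∀ x ∈ Set.Icc 0 t, c ≤ ‖g x - U x‖ := by
      have hgc : ContinuousOn (fun x => ‖g x - U x‖) (Set.Icc 0 t) := fun x hx =>
        ((hg.2.2 x hx).continuousWithinAt.sub hU.continuousAt.continuousWithinAt).norm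
      obtain ⟨x, hx, hmin⟩ := isCompact_Icc.exists_isMinOn ⟨0, ⟨le_rfl, ht⟩⟩ hgc
      exact ⟨‖g x - U x‖, norm_pos_iff.mpr (sub_ne_zero.mpr (hg.2.1 x hx)), fun y hy => hmin hy⟩
    have hδ0 : 0 < min (c / 2) (‖w‖ / 2) := lt_min (by linarith) (by linarith)
    obtain ⟨s, hs, g', hg', hgs⟩ := hull_reach hU ht (z := w) hcon hδ0 (by
      rw [h0, sub_zero]
      exact lt_of_le_of_lt (min_le_right _ _) (by linarith))
    have hcs := hc s hs
    have h1 := hcl16 s hs g' hg' s ⟨hs.1, le_rfl⟩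
    rw [hZe s hs] at h1
    have h2 : ‖g s - U s‖ ≤ ‖g' s - U s‖ + ‖g' s - g s‖ := by
      have := norm_sub_le (g' s - U s) (g' s - g s)
      have e : g' s - U s - (g' s - g s) = g s - U s := by ring
      rwa [e] at this
    rw [hgs] at h2
    have := min_le_left (c / 2) (‖w‖ / 2)
    linarith
  obtain ⟨g', hg'⟩ := hex
  have htt : t ∈ Set.Icc 0 t := ⟨ht, le_rfl⟩
  refine ⟨g', hg', ?_, ?_⟩
  · intro u hu
    have h3 := hcl16 t htt g' hg' u hu
    rw [hZe u hu] at h3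
    have := norm_nonneg (g u - U u)
    linarith
  obtain ⟨Z', hZc', hZ0', hZe'⟩ := TRSHD.ext hU ht hg'
  have hkc : ∀ Y : ℝ → ℂ, Continuous Y → (∀ x, Y x ≠ 0) → Continuous fun x => kk 1 0 (Y x) := by
    intro Y hY hY0
    have h3 : (fun x => kk 1 0 (Y x)) = fun x => -(2 / Y x ^ 2).re := by
      funext x
      exact TCBWSH.kk_eq (Y x)
    rw [h3]
    exact (Complex.continuous_re.comp
      (continuous_const.div (hY.pow 2) fun x => pow_ne_zero 2 (hY0 x))).neg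
  have e2 : ∫ v in (0 : ℝ)..t, kk 1 0 (g' v - U v) = ∫ v in (0 : ℝ)..t, kk 1 0 (Z' v) :=
    intervalIntegral.integral_congr fun x hx => by
      rw [Set.uIcc_of_le ht] at hx
      rw [hZe' x hx]
  have e3 : ∫ v in (0 : ℝ)..t, kk 1 0 (g v - U v) = ∫ v in (0 : ℝ)..t, kk 1 0 (Z v) :=
    intervalIntegral.integral_congr fun x hx => by
      rw [Set.uIcc_of_le ht] at hx
      rw [hZe x hx]
  have hec := TCBWSH.cont_e hZc hZ0
  rw [e2, e3, ← intervalIntegral.integral_sub ((hkc Z' hZc' hZ0').intervalIntegrable _ _)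
      ((hkc Z hZc hZ0).intervalIntegrable _ _), ← Real.norm_eq_abs]
  have h3 := intervalIntegral.norm_integral_le_of_norm_le (f := fun v =>
      kk 1 0 (Z' v) - kk 1 0 (Z v)) (g := fun v => 16 * r * (TCBWSH.dz Z v / ‖Z v‖ ^ 3))
      (μ := volume) ht (Eventually.of_forall fun v hv => by
        have hvt : v ∈ Set.Icc 0 t := ⟨hv.1.le, hv.2⟩
        have h4 := hcl t htt g' hg' v hvt
        have h5 := h1' v hvt
        have e5 : g' v - g v = Z' v - Z v := by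
          rw [hZe v hvt, hZe' v hvt]
          ring
        rw [e5] at h4
        have h6 := (TRSHD.ptw (Z := Z v) (Z' := Z' v) (e := 2 * r * TCBWSH.dz Z v / ‖Z v‖)
          (hZ0 v) (by rw [div_le_iff₀ (hZp v)]; linarith [hZp v])
          (by rw [div_mul_cancel₀ _ (hZp v).ne']; exact h4)).1
        have e7 : kk 1 0 (Z' v) - kk 1 0 (Z v) = -2 * (1 / Z' v ^ 2 - 1 / Z v ^ 2).re := by
          rw [kk, kk, Complex.sub_re]
          ring
        have h8 := (Complex.abs_re_le_norm (1 / Z' v ^ 2 - 1 / Z v ^ 2)).trans h6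
        rw [Real.norm_eq_abs, e7, abs_mul, abs_neg, abs_of_pos (by norm_num : (0 : ℝ) < 2)]
        refine (mul_le_mul_of_nonneg_left h8 (by norm_num)).trans (le_of_eq ?_)
        have := (hZp v).ne'
        field_simp
        ring) ((continuous_const.mul hec).intervalIntegrable _ _)
  refine h3.trans ?_
  rw [intervalIntegral.integral_const_mul]
  linarith

/-- BWSH2. If the functional `ph` at time `t` is almost a record, looking back from `t`, then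
`shadow_int` applies with the radius `(ε / 32) exp (- ph_t - Δ)`.

Proof. `exp (ph_u) ≤ exp (ph_t + Δ) exp (- ε lk U g u t)` for `u ∈ [0,t]`; `lk ≥ 0`, `ε ≤ 1`
gives the first condition, and `∫_0^t exp (- ε lk U g u t) / |Z_u|^2 du ≤ 1 / ε` (the integrand
is the derivative of `exp (- ε lk U g u t) / ε`) the second. -/
theorem shadow_rec {U : ℝ → ℂ} (hU : Continuous U) (h0 : U 0 = 0) {z w : ℂ} {t ε Δ : ℝ}
    (ht : 0 ≤ t) (hε : 0 < ε) (hε1 : ε ≤ 1) {g : ℝ → ℂ} (hg : Sol U z t g)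
    (hrec : ∀ u ∈ Set.Icc 0 t, ph U g 0 u + ε * lk U g u t ≤ ph U g 0 t + Δ)
    (hw : ‖w - z‖ ≤ ε / 32 * Real.exp (-(ph U g 0 t) - Δ)) :
    ∃ g' : ℝ → ℂ, Sol U w t g' ∧ (∀ u ∈ Set.Icc 0 t, ‖g' u - g u‖ ≤ ‖g u - U u‖ / 4) ∧
      |(∫ v in (0 : ℝ)..t, kk 1 0 (g' v - U v)) - ∫ v in (0 : ℝ)..t, kk 1 0 (g v - U v)| ≤ 1 := by
  obtain ⟨Z, hZc, hZ0, hZe⟩ := TRSHD.ext hU ht hg
  have hZp : ∀ u, 0 < ‖Z u‖ := fun u => norm_pos_iff.mpr (hZ0 u)
  have hbc : Continuous fun x => 1 / ‖Z x‖ ^ 2 :=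
    continuous_const.div (hZc.norm.pow 2) fun x => pow_ne_zero 2 (hZp x).ne'
  obtain ⟨τ, hτ⟩ : ∃ τ : ℝ → ℝ, τ = fun u => ∫ x in (0 : ℝ)..u, 1 / ‖Z x‖ ^ 2 := ⟨_, rfl⟩
  have hτd : ∀ u, HasDerivAt τ (1 / ‖Z u‖ ^ 2) u := by
    rw [hτ]
    exact fun u => intervalIntegral.integral_hasDerivAt_right (hbc.intervalIntegrable _ _)
      (hbc.stronglyMeasurableAtFilter _ _) hbc.continuousAt
  have hτc : Continuous τ := continuous_iff_continuousAt.mpr fun v => (hτd v).continuousAt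
  have hlk : ∀ u ∈ Set.Icc 0 t, lk U g u t = τ t - τ u := by
    intro u hu
    rw [lk, hτ]
    simp only
    rw [intervalIntegral.integral_interval_sub_left (hbc.intervalIntegrable _ _)
      (hbc.intervalIntegrable _ _)]
    refine intervalIntegral.integral_congr fun x hx => ?_
    rw [Set.uIcc_of_le hu.2] at hx
    rw [hZe x ⟨hu.1.trans hx.1, hx.2⟩]
  have hlk0 : ∀ u ∈ Set.Icc 0 t, 0 ≤ lk U g u t := fun u hu =>
    intervalIntegral.integral_nonneg hu.2 fun x _ => by positivity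
  have hr : 0 < ε / 32 * Real.exp (-(ph U g 0 t) - Δ) := by positivity
  -- the two conditions follow from this one
  have hk : ∀ u ∈ Set.Icc 0 t, ε / 32 * Real.exp (-(ph U g 0 t) - Δ) *
      Real.exp (ph U g 0 u) ≤ ε / 32 * Real.exp (-ε * (τ t - τ u)) := by
    intro u hu
    rw [mul_assoc, ← Real.exp_add]
    refine mul_le_mul_of_nonneg_left (Real.exp_le_exp.mpr ?_) (by positivity)
    have h3 := hrec u hu
    rw [hlk u hu] at h3
    linarith
  refine shadow_int hU h0 ht hr hg ?_ ?_ hw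
  · intro u hu
    refine (hk u hu).trans ?_
    have h3 : Real.exp (-ε * (τ t - τ u)) ≤ 1 := by
      rw [Real.exp_le_one_iff, ← hlk u hu]
      have := mul_nonneg hε.le (hlk0 u hu)
      linarith
    have h4 : 0 < Real.exp (-ε * (τ t - τ u)) := Real.exp_pos _
    nlinarith
  · have hZi : ∫ u in (0 : ℝ)..t, Real.exp (ph U g 0 u) / ‖g u - U u‖ ^ 2 =
        ∫ u in (0 : ℝ)..t, TCBWSH.dz Z u / ‖Z u‖ ^ 3 := by
      refine intervalIntegral.integral_congr fun u hu => ?_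
      rw [Set.uIcc_of_le ht] at hu
      rw [TCBWSH.ph_eq hZc hZ0 hZe hu, ← hZe u hu, div_div]
      congr 1
      ring
    rw [hZi, ← intervalIntegral.integral_const_mul]
    have hd : ∀ u, HasDerivAt (fun u => 1 / 32 * Real.exp (-ε * (τ t - τ u)))
        (ε / 32 * Real.exp (-ε * (τ t - τ u)) * (1 / ‖Z u‖ ^ 2)) u := by
      intro u
      have h3 := ((((hτd u).const_sub (τ t)).const_mul (-ε)).exp).const_mul (1 / 32)
      refine h3.congr_deriv ?_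
      ring
    have hcont : Continuous fun u => ε / 32 * Real.exp (-ε * (τ t - τ u)) * (1 / ‖Z u‖ ^ 2) :=
      (continuous_const.mul (Real.continuous_exp.comp
        (continuous_const.mul (continuous_const.sub hτc)))).mul hbc
    have h4 : ∫ u in (0 : ℝ)..t, ε / 32 * Real.exp (-ε * (τ t - τ u)) * (1 / ‖Z u‖ ^ 2) ≤
        1 / 32 := by
      rw [intervalIntegral.integral_eq_sub_of_hasDerivAt (fun v _ => hd v)
        (hcont.intervalIntegrable _ _), sub_self, mul_zero, Real.exp_zero]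
      have := Real.exp_pos (-ε * (τ t - τ 0))
      linarith
    refine le_trans ?_ h4
    refine intervalIntegral.integral_mono_on ht
      ((continuous_const.mul (TCBWSH.cont_e hZc hZ0)).intervalIntegrable _ _)
      (hcont.intervalIntegrable _ _) ?_
    intro u hu
    have h5 := hk u hu
    rw [TCBWSH.ph_eq hZc hZ0 hZe hu] at h5
    have e8 : ε / 32 * Real.exp (-(ph U g 0 t) - Δ) * (TCBWSH.dz Z u / ‖Z u‖ ^ 3) =
        ε / 32 * Real.exp (-(ph U g 0 t) - Δ) * (TCBWSH.dz Z u / ‖Z u‖) * (1 / ‖Z u‖ ^ 2) := by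
      have := (hZp u).ne'
      field_simp
    rw [e8]
    exact mul_le_mul_of_nonneg_right h5 (by positivity)

end

end Pool.Agent.SLE
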