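import Pool.Agent.Lib.MP_c17912_pr_TC.FCD
import Pool.Agent.Lib.MP_c17912_pr_TR.COR

/-!
# MP_c17912_pr, project TC: clock of the observed cells; no low cells at deep levels
-/

set_option autoImplicit false

open MeasureTheory ProbabilityTheory Filter
open scoped NNReal ENNReal Topology Real

namespace Pool.Agent.SLE

noncomputable section

namespace TCFCO

theorem ck_nonneg (U g : ℝ → ℂ) (r : ℝ) (j : ℕ) : 0 ≤ ck U g r j := by
  unfold ck lk
  refine intervalIntegral.integral_nonneg ?_ fun u _ => by positivity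
  nlinarith [sq_nonneg r]

open Classical in
/-- The term of a cell. -/
theorem term_le (U g : ℝ → ℂ) (r : ℝ) (j : ℕ) :
    (if low U g r j then 0 else lk U g ((j : ℝ) * r ^ 2) (((j : ℝ) + 1) * r ^ 2)) ≤
      ck U g r j := by
  split_ifs
  · exact ck_nonneg U g r j
  · exact le_rfl

/-- The integrand of the clock `tk` is continuous. -/
theorem contOn {U : ℝ → ℂ} (hU : Continuous U) {g : ℝ → ℂ} {z : ℂ} {r t : ℝ} (hr : 0 < r)
    (hg : Sol U z t g) :
    ContinuousOn (fun u => 1 / (‖g u - U u‖ * max ‖g u - U u‖ r)) (Set.Icc 0 t) := by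
  have h1 : ContinuousOn (fun v => ‖g v - U v‖) (Set.Icc 0 t) :=
    (ContinuousOn.sub (fun v hv => (hg.2.2 v hv).continuousWithinAt) hU.continuousOn).norm
  refine ContinuousOn.div continuousOn_const (h1.mul (h1.sup continuousOn_const)) ?_
  intro x hx
  have h2 : 0 < ‖g x - U x‖ := norm_pos_iff.2 (sub_ne_zero.2 (hg.2.1 x hx))
  exact (mul_pos h2 (lt_max_of_lt_right hr)).ne'

theorem tk_nonneg (U g : ℝ → ℂ) {r s t : ℝ} (hr : 0 < r) (hst : s ≤ t) :
    0 ≤ tk U g r s t := by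
  unfold tk
  refine intervalIntegral.integral_nonneg hst fun u _ => ?_
  have : 0 ≤ max ‖g u - U u‖ r := hr.le.trans (le_max_right _ _)
  positivity

end TCFCO

/-- TC-FCO1. (`S` consists of low cells; the terms are nonnegative.) -/
theorem XX_le_f {U g : ℝ → ℂ} {r : ℝ} {T : ℕ} (S : Finset ℕ)
    (hS : ∀ j ∈ S, j < T ∧ low U g r j) :
    XX U g r T ≤ ∑ j ∈ Finset.range T \ S, ck U g r j := by
  classical
  have hST : S ⊆ Finset.range T := fun j hj => Finset.mem_range.2 (hS j hj).1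
  unfold XX
  rw [← Finset.sum_sdiff hST]
  have h0 : ∑ j ∈ S, (if low U g r j then 0 else
      lk U g ((j : ℝ) * r ^ 2) (((j : ℝ) + 1) * r ^ 2)) = 0 :=
    Finset.sum_eq_zero fun j hj => if_pos (hS j hj).2
  rw [h0, add_zero]
  exact Finset.sum_le_sum fun j _ => TCFCO.term_le U g r j

/-- TC-FCO2. On a cell `j ≥ τ` which is not low one has `|Z| > r`, so its clock is
`∫ 1 / (|Z| max (|Z|, r))`; the sum over these cells is at most the integral over
`[τ r², T r²]` (nonnegative integrand, continuous on `[0, T r²]`). -/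
theorem XX_le_r {U : ℝ → ℂ} (hU : Continuous U) {g : ℝ → ℂ} {z : ℂ} {r : ℝ} (hr : 0 < r)
    {T τ : ℕ} (hτ : τ ≤ T) (hg : Sol U z (T * r ^ 2) g) (S : Finset ℕ)
    (hS : ∀ j ∈ S, j < τ ∧ low U g r j) :
    XX U g r T ≤ ∑ j ∈ Finset.range τ \ S, ck U g r j + tk U g r (τ * r ^ 2) (T * r ^ 2) := by
  classical
  have hr2 : 0 < r ^ 2 := by positivity
  have h1 := XX_le_f S hS
  have hsplit : XX U g r T = XX U g r τ + ∑ j ∈ Finset.Ico τ T, (if low U g r j then 0 else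
      lk U g ((j : ℝ) * r ^ 2) (((j : ℝ) + 1) * r ^ 2)) := by
    unfold XX
    exact (Finset.sum_range_add_sum_Ico _ hτ).symm
  have hcell : ∀ j ∈ Finset.Ico τ T, (if low U g r j then 0 else
      lk U g ((j : ℝ) * r ^ 2) (((j : ℝ) + 1) * r ^ 2)) ≤
      ∫ u in (((j : ℕ) : ℝ) * r ^ 2)..(((j + 1 : ℕ) : ℝ) * r ^ 2),
        1 / (‖g u - U u‖ * max ‖g u - U u‖ r) := by
    intro j _
    have hjj : (j : ℝ) * r ^ 2 ≤ ((j + 1 : ℕ) : ℝ) * r ^ 2 := by
      push_cast
      nlinarith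
    split_ifs with hlow
    · exact TCFCO.tk_nonneg U g hr hjj
    · refine le_of_eq ?_
      unfold lk
      push_cast
      refine intervalIntegral.integral_congr fun u hu => ?_
      have hjj' : (j : ℝ) * r ^ 2 ≤ ((j : ℝ) + 1) * r ^ 2 := by nlinarith
      rw [Set.uIcc_of_le hjj'] at hu
      have hlt : r < ‖g u - U u‖ := by
        by_contra hcon
        exact hlow ⟨u, hu, not_lt.1 hcon⟩
      rw [max_eq_left hlt.le, sq]
  have hsum : ∑ j ∈ Finset.Ico τ T, ∫ u in (((j : ℕ) : ℝ) * r ^ 2)..(((j + 1 : ℕ) : ℝ) * r ^ 2),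
        1 / (‖g u - U u‖ * max ‖g u - U u‖ r) = tk U g r (τ * r ^ 2) (T * r ^ 2) := by
    unfold tk
    refine intervalIntegral.sum_integral_adjacent_intervals_Ico
      (a := fun k : ℕ => (k : ℝ) * r ^ 2) hτ fun k hk => ?_
    have hk2 : k < T := (Set.mem_Ico.1 hk).2
    have e1 : (k : ℝ) * r ^ 2 ≤ ((k + 1 : ℕ) : ℝ) * r ^ 2 := by
      push_cast
      nlinarith
    refine ((TCFCO.contOn hU hr hg).mono ?_).intervalIntegrable_of_Icc e1
    refine Set.Icc_subset_Icc (by positivity) ?_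
    have e2 : ((k + 1 : ℕ) : ℝ) ≤ T := by exact_mod_cast hk2
    exact mul_le_mul_of_nonneg_right e2 hr2.le
  rw [hsplit]
  refine add_le_add h1 ?_
  rw [← hsum]
  exact Finset.sum_le_sum hcell

/-- TC-FCO3. For deep levels there are no low cells (as `exists_no_low` of COR). -/
theorem no_low_f {U : ℝ → ℂ} (hU : Continuous U) {z : ℂ} {g : ℝ → ℂ} {t : ℝ} (ht : 0 ≤ t)
    (hg : Sol U z t g) (n : ℕ) :
    ∃ k₂, ∀ k ≥ k₂, ∀ j < ⌊t * 4 ^ lev n k⌋₊, ¬ low U g (rr (lev n k)) j := by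
  obtain ⟨d, hd, hlow⟩ := FlowAux.exists_lower hU hg
  obtain ⟨k₂, hk₂⟩ := exists_pow_lt_of_lt_one hd (by norm_num : (1 / 2 : ℝ) < 1)
  refine ⟨k₂, fun k hk j hj htr => ?_⟩
  have hr : rr (lev n k) < d := by
    refine lt_of_le_of_lt ?_ hk₂
    unfold rr
    refine pow_le_pow_of_le_one (by norm_num) (by norm_num) ?_
    have := le_lev n k
    omega
  obtain ⟨u, hu, hle⟩ := htr
  have hr2 : 0 ≤ rr (lev n k) ^ 2 := sq_nonneg _
  have hj' : (j : ℝ) + 1 ≤ t * 4 ^ lev n k := by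
    have h1 : j + 1 ≤ ⌊t * 4 ^ lev n k⌋₊ := hj
    have h2 : ((j + 1 : ℕ) : ℝ) ≤ (⌊t * 4 ^ lev n k⌋₊ : ℕ) := by exact_mod_cast h1
    have h3 : ((⌊t * 4 ^ lev n k⌋₊ : ℕ) : ℝ) ≤ t * 4 ^ lev n k :=
      Nat.floor_le (by positivity)
    push_cast at h2
    linarith
  have h0 : 0 ≤ u := le_trans (mul_nonneg (Nat.cast_nonneg j) hr2) hu.1
  have h1 : u ≤ t := by
    refine hu.2.trans ?_
    calc ((j : ℝ) + 1) * rr (lev n k) ^ 2 ≤ t * 4 ^ lev n k * rr (lev n k) ^ 2 :=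
          mul_le_mul_of_nonneg_right hj' hr2
      _ = t := by
          rw [mul_assoc, TRCOR.rr_sq, mul_one]
  have := hlow u ⟨h0, h1⟩
  linarith

end

end Pool.Agent.SLE
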