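import Pool.Agent.Lib.MP_c17912_pr_TC.FCS
import Pool.Agent.Lib.MP_c17912_pr_TC.FCO

/-!
# MP_c17912_pr, project TC: the interface ClosP from the stretch theorem
-/

set_option autoImplicit false

open MeasureTheory ProbabilityTheory Filter
open scoped NNReal ENNReal Topology Real

namespace Pool.Agent.SLE

noncomputable section

namespace TCFCI

theorem XX_mono (U g : ℝ → ℂ) {M N : ℕ} (h : M ≤ N) : XX U g 1 M ≤ XX U g 1 N := by
  unfold XX
  refine Finset.sum_le_sum_of_subset_of_nonneg (Finset.range_mono h) fun j _ _ => ?_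
  split_ifs
  · exact le_rfl
  · refine intervalIntegral.integral_nonneg (by nlinarith) fun u _ => by positivity

/-- A closed chain gives the closed pattern bound. -/
theorem clo_of_CB {U g : ℝ → ℂ} {c₁ β C m m₀ : ℝ} {Bad : ℕ → Prop} {D τ M : ℕ}
    {Q S : Finset ℕ} {Rt : ℝ≥0∞} (hC : 1 ≤ C) (hc : 0 < c₁) (hm : 1 ≤ m) (hm₀ : m ≤ m₀)
    (hD : 1 ≤ D) (hQ : ∀ j ∈ Q, j + 1 < M)
    (h : CB U g c₁ β C (Real.log m + Real.log D + 1) (Real.log m₀) Bad D τ Q S Rt) :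
    Clo U g c₁ β (2 * C * (Real.log m + Real.log D + 1)) m₀ (2 * C) Bad (min τ M) Rt := by
  classical
  obtain ⟨h1, h2, -, h4⟩ := h
  refine ⟨Q, fun j hj => ⟨(h1 j hj).2, lt_min (h1 j hj).1 (hQ j hj)⟩, ?_⟩
  have hlm : 0 ≤ Real.log m := Real.log_nonneg hm
  have hD' : (1 : ℝ) ≤ D := by exact_mod_cast hD
  have hlD : 0 ≤ Real.log D := Real.log_nonneg hD'
  have hm₁ : 1 ≤ m₀ := hm.trans hm₀
  have hlm₀ : 0 ≤ Real.log m₀ := Real.log_nonneg hm₁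
  have hlm₁ : Real.log m₀ ≤ Real.log (m₀ + 1) := Real.log_le_log (by linarith) (by linarith)
  have hX : XX U g 1 (min τ M) ≤ ∑ j ∈ Finset.range τ \ S, ck U g 1 j :=
    (XX_mono U g (min_le_left τ M)).trans (XX_le_f S h2)
  obtain ⟨q, hq⟩ : ∃ q : ℝ, q = (Q.card : ℝ) := ⟨_, rfl⟩
  have hq0 : 0 ≤ q := by rw [hq]; positivity
  obtain ⟨X, hXX⟩ : ∃ X : ℝ, X = Real.log m + Real.log D + 1 := ⟨_, rfl⟩
  have hX1 : 1 ≤ X := by rw [hXX]; linarith
  have e1 : (q + 4) * (C * X) + C * Real.log m₀ ≤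
      (q + 3) * (2 * C * X) + 2 * C * Real.log (m₀ + 1) := by
    have h5 : 0 ≤ C * X := by nlinarith
    have h6 : 0 ≤ C * (Real.log (m₀ + 1) - Real.log m₀) := by
      apply mul_nonneg <;> linarith
    have h7 : 0 ≤ C * Real.log m₀ := by apply mul_nonneg <;> linarith
    nlinarith [mul_nonneg hq0 h5]
  rw [← hXX, ← hq] at h4
  rw [← hXX, ← hq]
  refine le_trans (ENNReal.ofReal_le_ofReal (Real.exp_le_exp.2 ?_)) (h4.trans ?_)
  · have := mul_le_mul_of_nonneg_left hX hc.le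
    linarith
  · gcongr

/-- No break in the cells of `[τ,T]` means `CutFree`. -/
theorem cutFree {U g : ℝ → ℂ} {ε d : ℝ} {τ T : ℕ} (hτ : τ < T)
    (h : ∀ j, τ ≤ j → j < T → ¬ brk U g ε d 1 τ j) : CutFree U g ε d τ T := by
  intro u hu hn
  have hu0 : 0 ≤ u := le_trans (Nat.cast_nonneg τ) hu.1
  obtain ⟨j, hj1, hj2, hj3, hj4⟩ : ∃ j : ℕ, τ ≤ j ∧ j < T ∧ (j : ℝ) ≤ u ∧ u ≤ (j : ℝ) + 1 := by
    rcases hu.2.lt_or_eq with h1 | h1
    · exact ⟨⌊u⌋₊, Nat.le_floor hu.1, (Nat.floor_lt hu0).2 h1, Nat.floor_le hu0,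
        (Nat.lt_floor_add_one u).le⟩
    · have e : ((T - 1 : ℕ) : ℝ) = (T : ℝ) - 1 := by
        rw [Nat.cast_sub (by omega)]; simp
      exact ⟨T - 1, by omega, by omega, by rw [e, h1]; linarith, by rw [e, h1]; linarith⟩
  by_contra hc
  push Not at hc
  refine h j hj1 hj2 ⟨u, ⟨by simpa using hj3, by simpa using hj4⟩, hn, fun v hv => hc v ?_⟩
  simpa using hv

end TCFCI

variable {Ω : Type*} [MeasurableSpace Ω] {μ : Measure Ω}

/-- TC-FCI. The closed pattern bound (`ClosP`, file `BWIF`).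

Proof. `chain_sol` with `u = T` and the given `M ≤ T` (`r` depends only on `D`; `⌊(T : ℝ)⌋₊ = T`).
`XX U g 1 τ ≤ ∑ j ∈ range τ \ S, ck U g 1 j` (`XX_le_f`), so `CB` implies `Clo` with the constant
`2 C` (`#Q + 4 ≤ 2 (#Q + 3)`). First alternative with `t < T`: closed; with `T = 0`: `T < D`,
`XX = 0`. Second alternative: `t < M ≤ T`, `T ≤ t + D`, closed. Third alternative: `α = τ`;
`CutFree` on `[τ, T]` from the absence of breaks (`u ∈ [τ,T]` is in a cell `j ∈ [τ,T)`);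
`|Z_τ| ≤ m + 3` resp. `‖z‖ ≤ m₀` if `τ = 0`; `XX U g 1 0 = 0`; the elements of `Q` satisfy
`j + 1 < min τ M`, and `XX U g 1 (min τ M) ≤ XX U g 1 τ`. -/
theorem closP_of [IsProbabilityMeasure μ] {a b c K ε d : ℝ} (hd : 0 ≤ d)
    (hS : StrC μ a b c K ε d) : ClosP μ a b c K ε d := by
  obtain ⟨C, c₁, κ, hC, hc₁, hκ, hch⟩ := chain_sol hd hS
  refine ⟨2 * C, c₁, κ, by linarith, hc₁, hκ, fun m β D hm hβ hD => ?_⟩
  obtain ⟨r, hr, hrW⟩ := hch D hD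
  refine ⟨r, hr, fun W hW Bd hBd hBμ => ?_⟩
  obtain ⟨R, hRm, hRi, hRs⟩ := hrW W hW β Bd hβ hBd hBμ
  refine ⟨R, hRm, hRi, fun ω T z g m₀ hm₀ hz hg hosc hno M hM => ?_⟩
  obtain ⟨hA, -⟩ := hRs ω T z g m m₀ (Nat.cast_nonneg T) hm hm₀ hz hg
    (by rw [Nat.floor_natCast]; exact hosc) (by rw [Nat.floor_natCast]; exact hno)
  rw [Nat.floor_natCast] at hA
  obtain ⟨Q, S, τ, t, hτT, hQ, hCB, hcase⟩ := hA M hM
  have hclo := TCFCI.clo_of_CB hC hc₁ hm hm₀ hD hQ hCB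
  rcases hcase with ⟨e, h1, h2⟩ | ⟨e, h1, h2⟩ | ⟨h1, h2, h3, h4, h5⟩
  · subst e
    rw [min_self] at hclo
    rcases h2 with h2 | h2
    · exact Or.inl ⟨t, h2, Or.inl h1, hclo⟩
    · refine Or.inr (Or.inr ⟨by omega, ?_⟩)
      rw [h2]
      simp [XX]
  · subst e
    rw [min_self] at hclo
    exact Or.inl ⟨t, by omega, Or.inr h2, hclo⟩
  · refine Or.inr (Or.inl ⟨τ, h1, h2, ?_, TCFCI.cutFree h1 h4, ?_⟩)
    · rcases h5 with ⟨h6, -⟩ | ⟨-, -, -, -, h6⟩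
      · subst h6
        rw [Nat.cast_zero, hg.1, hW.zero 0 le_rfl ω, sub_zero]
        linarith
      · linarith
    · rcases h5 with ⟨h6, -⟩ | ⟨-, h6, -⟩
      · left
        subst h6
        simp [XX]
      · exact Or.inr ⟨t, h6, hclo⟩

end

end Pool.Agent.SLE
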