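import Pool.Agent.Lib.MP_c17912_pr_TC.FCD
import Pool.Agent.Lib.MP_c17912_pr_TR.PAT
import Pool.Agent.Lib.MP_c17912_pr_TR.SRI

/-!
# MP_c17912_pr, project TC: the start for a rider
-/

set_option autoImplicit false

open MeasureTheory ProbabilityTheory Filter
open scoped NNReal ENNReal Topology Real

namespace Pool.Agent.SLE

noncomputable section

namespace TCFCR

lemma tk_lower {U : ℝ → ℂ} (hU : Continuous U) {z : ℂ} {g : ℝ → ℂ} {T y r s t : ℝ}
    (hg : Sol U z T g) (hs : 0 ≤ s) (hst : s ≤ t) (htT : t ≤ T) (hy : 0 < y) (hr : r ≤ y)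
    (h : ∀ u ∈ Set.Icc s t, ‖g u - U u‖ ≤ y) : t - s ≤ y ^ 2 * tk U g r s t := by
  unfold tk
  have hpos : ∀ u ∈ Set.Icc s t, 0 < ‖g u - U u‖ := fun u hu =>
    norm_pos_iff.2 (sub_ne_zero.2 (hg.2.1 u ⟨hs.trans hu.1, hu.2.trans htT⟩))
  have hgc : ContinuousOn g (Set.Icc s t) := fun u hu =>
    ((hg.2.2 u ⟨hs.trans hu.1, hu.2.trans htT⟩).continuousWithinAt).mono
      (Set.Icc_subset_Icc hs htT)
  have hZ : ContinuousOn (fun u => ‖g u - U u‖) (Set.Icc s t) := (hgc.sub hU.continuousOn).norm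
  have hcont : ContinuousOn (fun u => 1 / (‖g u - U u‖ * max ‖g u - U u‖ r)) (Set.Icc s t) := by
    refine ContinuousOn.div continuousOn_const (hZ.mul (ContinuousOn.sup hZ continuousOn_const)) ?_
    intro u hu
    have h2 := hpos u hu
    have h3 : 0 < max ‖g u - U u‖ r := lt_of_lt_of_le h2 (le_max_left _ _)
    exact (mul_pos h2 h3).ne'
  have h1 : ∫ _u in s..t, (1 / y ^ 2 : ℝ) ≤
      ∫ u in s..t, 1 / (‖g u - U u‖ * max ‖g u - U u‖ r) := by
    apply intervalIntegral.integral_mono_on hst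
    · exact intervalIntegrable_const
    · exact hcont.intervalIntegrable_of_Icc hst
    · intro u hu
      have h2 := hpos u hu
      have h3 : 0 < max ‖g u - U u‖ r := lt_of_lt_of_le h2 (le_max_left _ _)
      have h4 : max ‖g u - U u‖ r ≤ y := max_le (h u hu) hr
      apply one_div_le_one_div_of_le (mul_pos h2 h3)
      rw [pow_two]
      exact mul_le_mul (h u hu) h4 h3.le hy.le
  rw [intervalIntegral.integral_const, smul_eq_mul] at h1
  have h5 : y ^ 2 * ((t - s) * (1 / y ^ 2)) = t - s := by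
    field_simp
  rw [← h5]
  exact mul_le_mul_of_nonneg_left h1 (sq_nonneg y)

end TCFCR

/-- TC-FCR1. The start for a rider: the time is spent in skipped cells, in observed cells, or in
the tail.

Proof. `n = ∑_{j < τ} 4^(-m) + (n - τ 4^(-m))`. The cells of `S` contribute at most
`#S 4^(-m)`; a cell `j ∉ S` contributes `4^(-m) ≤ y² ck U g (rr m) j` because `|Z| ≤ y`; and
`n - τ 4^(-m) ≤ y² tk` because `|Z| max (|Z|, rr m) ≤ y²`. (All cells `j < τ ≤ n 4^m` are in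
`[0,n]`; integrability: `Z` is continuous and does not vanish on `[0,n]`.) -/
theorem start_r {U : ℝ → ℂ} (hU : Continuous U) {z : ℂ} {g : ℝ → ℂ} {n m τ : ℕ} {y : ℝ}
    (hg : Sol U z n g) (hy : 1 ≤ y) (hb : ∀ u ∈ Set.Icc (0 : ℝ) n, ‖g u - U u‖ ≤ y)
    (hτ : τ ≤ n * 4 ^ m) (S : Finset ℕ) (hS : ∀ j ∈ S, j < τ) :
    (n : ℝ) ≤ S.card / 4 ^ m + y ^ 2 * (∑ j ∈ Finset.range τ \ S, ck U g (rr m) j +
      tk U g (rr m) (τ * rr m ^ 2) n) := by
  classical
  have hy0 : 0 < y := lt_of_lt_of_le one_pos hy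
  have hM : (4 ^ m : ℝ) * rr m ^ 2 = 1 := TRSRI.rr_sq m
  have hr0 : 0 < rr m := by
    unfold rr
    positivity
  have hr2 : 0 < rr m ^ 2 := pow_pos hr0 2
  have hr1 : rr m ≤ 1 := by
    unfold rr
    exact pow_le_one₀ (by norm_num) (by norm_num)
  have hτn : (τ : ℝ) * rr m ^ 2 ≤ n := by
    have h1 : (τ : ℝ) ≤ n * 4 ^ m := by exact_mod_cast hτ
    calc (τ : ℝ) * rr m ^ 2 ≤ (n * 4 ^ m) * rr m ^ 2 :=
          mul_le_mul_of_nonneg_right h1 hr2.le
      _ = n * (4 ^ m * rr m ^ 2) := by ring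
      _ = n := by rw [hM, mul_one]
  have hcell : ∀ j ∈ Finset.range τ \ S, rr m ^ 2 ≤ y ^ 2 * ck U g (rr m) j := by
    intro j hj
    have hjτ : j < τ := Finset.mem_range.1 (Finset.mem_sdiff.1 hj).1
    have hj1 : ((j : ℝ) + 1) * rr m ^ 2 ≤ n := by
      have h1 : (j : ℝ) + 1 ≤ τ := by exact_mod_cast hjτ
      exact (mul_le_mul_of_nonneg_right h1 hr2.le).trans hτn
    have hj0 : (0 : ℝ) ≤ (j : ℝ) * rr m ^ 2 := by positivity
    have h2 := TRSRI.lk_lower hU hg (s := (j : ℝ) * rr m ^ 2) (t := ((j : ℝ) + 1) * rr m ^ 2)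
      (y := y) hj0 (mul_le_mul_of_nonneg_right (by linarith) hr2.le) hj1
      (fun u hu => hb u ⟨hj0.trans hu.1, hu.2.trans hj1⟩)
    have h3 : (((j : ℝ) + 1) * rr m ^ 2 - (j : ℝ) * rr m ^ 2) = rr m ^ 2 := by ring
    rw [h3, div_le_iff₀ (pow_pos hy0 2), mul_comm] at h2
    exact h2
  have htail : (n : ℝ) - τ * rr m ^ 2 ≤ y ^ 2 * tk U g (rr m) (τ * rr m ^ 2) n := by
    have h0 : (0 : ℝ) ≤ (τ : ℝ) * rr m ^ 2 := by positivity
    exact TCFCR.tk_lower hU hg h0 hτn le_rfl hy0 (hr1.trans hy)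
      (fun u hu => hb u ⟨h0.trans hu.1, hu.2⟩)
  have hsub : S ⊆ Finset.range τ := fun j hj => Finset.mem_range.2 (hS j hj)
  have hcard : ((Finset.range τ \ S).card : ℝ) = τ - S.card := by
    rw [Finset.card_sdiff_of_subset hsub, Finset.card_range, Nat.cast_sub]
    have h4 := Finset.card_le_card hsub
    rwa [Finset.card_range] at h4
  have hsum : ((Finset.range τ \ S).card : ℝ) * rr m ^ 2 ≤
      y ^ 2 * ∑ j ∈ Finset.range τ \ S, ck U g (rr m) j := by
    rw [Finset.mul_sum, ← nsmul_eq_mul, ← Finset.sum_const]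
    exact Finset.sum_le_sum hcell
  have h5 : (S.card : ℝ) / 4 ^ m = S.card * rr m ^ 2 := by
    have h6 : rr m ^ 2 = 1 / 4 ^ m := by
      rw [eq_div_iff (by positivity), mul_comm]
      exact hM
    rw [h6]
    ring
  rw [h5]
  rw [hcard] at hsum
  have h7 : ((τ : ℝ) - S.card) * rr m ^ 2 = τ * rr m ^ 2 - S.card * rr m ^ 2 := by ring
  rw [h7] at hsum
  have h8 : y ^ 2 * (∑ j ∈ Finset.range τ \ S, ck U g (rr m) j +
      tk U g (rr m) (τ * rr m ^ 2) n) = y ^ 2 * ∑ j ∈ Finset.range τ \ S, ck U g (rr m) j +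
      y ^ 2 * tk U g (rr m) (τ * rr m ^ 2) n := by ring
  rw [h8]
  linarith

end

end Pool.Agent.SLE
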