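import Pool.Agent.Lib.MP_c17912_pr_TC.FCOc
import Pool.Agent.Lib.MP_c17912_pr_TC.FCR
import Pool.Agent.Lib.MP_c17912_pr_TC.FCGb
import Pool.Agent.Lib.MP_c17912_pr_TR.RID

/-!
# MP_c17912_pr, project TC: the rider property in the forward critical case
-/

set_option autoImplicit false

open MeasureTheory ProbabilityTheory Filter
open scoped NNReal ENNReal Topology Real

namespace Pool.Agent.SLE

noncomputable section

variable {Ω : Type*} [MeasurableSpace Ω] {μ : Measure Ω}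

namespace TCFCRb

lemma num : ∃ n₀ : ℕ, ∀ n : ℕ, n₀ ≤ n → ((n : ℝ) ^ (5 / 8 : ℝ) + 4) / 2 +
    ((n : ℝ) ^ (1 / 8 : ℝ) + 3) ^ 2 * ((n : ℝ) ^ (11 / 16 : ℝ) + (n : ℝ) ^ (5 / 8 : ℝ)) < n := by
  have hcast : Tendsto (fun n : ℕ => (n : ℝ)) atTop atTop := tendsto_natCast_atTop_atTop
  have h16 : Tendsto (fun n : ℕ => (n : ℝ) ^ (1 / 16 : ℝ)) atTop atTop :=
    (tendsto_rpow_atTop (by norm_num)).comp hcast
  obtain ⟨n₀, h₀⟩ := eventually_atTop.1 (h16.eventually_ge_atTop 32)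
  refine ⟨n₀, fun n hn => ?_⟩
  have h3 := h₀ n hn
  have hn0 : (0 : ℝ) ≤ n := Nat.cast_nonneg n
  set s : ℝ := (n : ℝ) ^ (1 / 16 : ℝ) with hsdef
  have hp : ∀ (k : ℕ) (q : ℝ), (k : ℝ) / 16 = q → (n : ℝ) ^ q = s ^ k := by
    intro k q hq
    rw [hsdef, ← Real.rpow_natCast, ← Real.rpow_mul hn0, ← hq]
    congr 1
    ring
  have hn16 : (n : ℝ) = s ^ 16 := by
    have h := hp 16 1 (by norm_num)
    rwa [Real.rpow_one] at h
  have h58 : (n : ℝ) ^ (5 / 8 : ℝ) = s ^ 10 := hp 10 _ (by norm_num)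
  have h1116 : (n : ℝ) ^ (11 / 16 : ℝ) = s ^ 11 := hp 11 _ (by norm_num)
  have h18 : (n : ℝ) ^ (1 / 8 : ℝ) = s ^ 2 := hp 2 _ (by norm_num)
  rw [h58, h1116, h18, hn16]
  have hs0 : (0 : ℝ) ≤ s := by linarith
  have h6 : (3 : ℝ) ≤ s ^ 2 := by nlinarith
  have h7 : (s ^ 2 + 3) ^ 2 ≤ (2 * s ^ 2) ^ 2 :=
    pow_le_pow_left₀ (by positivity) (by linarith) 2
  have h8 : s ^ 10 ≤ s ^ 11 := pow_le_pow_right₀ (by linarith) (by norm_num)
  have h9 : (s ^ 2 + 3) ^ 2 * (s ^ 11 + s ^ 10) ≤ (2 * s ^ 2) ^ 2 * (s ^ 11 + s ^ 11) :=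
    mul_le_mul h7 (by linarith) (by positivity) (by positivity)
  have h10 : (2 * s ^ 2) ^ 2 * (s ^ 11 + s ^ 11) = 8 * s ^ 15 := by ring
  have h11 : s ^ 10 ≤ s ^ 15 := pow_le_pow_right₀ (by linarith) (by norm_num)
  have h12 : (1 : ℝ) ≤ s ^ 15 := one_le_pow₀ (by linarith)
  have h13 : 32 * s ^ 15 ≤ s * s ^ 15 := mul_le_mul_of_nonneg_right h3 (by linarith)
  have h14 : s * s ^ 15 = s ^ 16 := by ring
  linarith

end TCFCRb

/-- TC-FCR2. The rider property in the forward critical case.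

Proof. As `rid` of TR. `A` = the events of `core_r` and of `osc_ev` (`N = n`, `x = n^(1/8)`).
Suppose that there is no rider of length `(n + M)^10` at any scale `rr M`, `M ≥ 1`. `exists_start2`
gives `k₀`, `m = lev n k₀ ≥ 1`, `4 (n + m)^10 ≤ 4^m`, `m ≤ n^(1/64)`. `|Z| ≤ n^(1/8) + 3 ≤ n + 4`
on `[0,n]` (`cr_low` in each unit cell, as in `rid`). `core_r` gives `S, τ`, and `start_r` with
`y = n^(1/8) + 3`:
`n ≤ 2 (n^(5/8) + 4) (n+m)^10 / 4^m + (n^(1/8) + 3)² (n^(11/16) + n^(5/8))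
≤ (n^(5/8) + 4) / 2 + 32 n^(15/16) < n` for large `n`. -/
theorem rid_c [IsProbabilityMeasure μ] {a b c K ε d : ℝ} (ha : 0 ≤ a) (hb : 0 ≤ b) (hd : 0 ≤ d)
    (hS : StrC μ a b c K ε d) (hT : TailP μ a b c K ε d) : RidP μ a b c K := by
  have hS1 : 1 ≤ a + b + 1 := by linarith
  obtain ⟨n₁, hcore⟩ := core_r (μ := μ) ha hb hd hS hT
  obtain ⟨n₂, hstart⟩ := exists_start2
  obtain ⟨n₃, hnum⟩ := TRRID.num hS1
  obtain ⟨n₄, hnum2⟩ := TCFCRb.num
  refine ⟨max (max n₁ n₄) (max n₂ n₃), fun n hn W hW => ?_⟩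
  have hn1 : n₁ ≤ n := ((le_max_left _ _).trans (le_max_left _ _)).trans hn
  have hn4 : n₄ ≤ n := ((le_max_right _ _).trans (le_max_left _ _)).trans hn
  have hn2 : n₂ ≤ n := ((le_max_left _ _).trans (le_max_right _ _)).trans hn
  have hn3 : n₃ ≤ n := ((le_max_right _ _).trans (le_max_right _ _)).trans hn
  obtain ⟨hn, hprob, -, -⟩ := hnum n hn3
  have hfin := hnum2 n hn4
  have hnR : (1 : ℝ) ≤ n := by exact_mod_cast hn
  have hx0 : 0 < (n : ℝ) ^ (1 / 8 : ℝ) := Real.rpow_pos_of_pos (by linarith) _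
  obtain ⟨A₁, hA₁m, hA₁, h₁⟩ := hcore n hn1 W hW
  obtain ⟨A₂, hA₂m, hA₂, h₂⟩ := osc_ev hW n hx0
  refine ⟨A₁ ∪ A₂, hA₁m.union hA₂m, ?_, ?_⟩
  · calc μ (A₁ ∪ A₂) ≤ μ A₁ + μ A₂ := measure_union_le _ _
      _ ≤ _ := add_le_add hA₁ hA₂
      _ = ENNReal.ofReal (Real.exp (-(n : ℝ) ^ (1 / 4 : ℝ)) +
          n * (4 * Real.exp (-(((n : ℝ) ^ (1 / 8 : ℝ)) ^ 2 / (16 * (a + b + 1)))))) :=
        (ENNReal.ofReal_add (Real.exp_pos _).le (by positivity)).symm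
      _ ≤ _ := ENNReal.ofReal_le_ofReal (by linarith)
  · intro ω hω z g hg hr
    rw [Set.mem_union, not_or] at hω
    by_contra hcon
    have hno : ∀ M ≥ 1, ∀ s, s + (n + M) ^ 10 ≤ n * 4 ^ M →
        ¬ rider (fun t => W t ω) g (rr M) s ((n + M) ^ 10) := by
      intro M hM s hs hrd
      exact hcon ⟨M, hM, s, hs, hrd⟩
    set x : ℝ := (n : ℝ) ^ (1 / 8 : ℝ) with hx
    have hosc := h₂ ω hω.2
    have hU : Continuous fun t => W t ω := hW.cont ω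
    have hxn : x ≤ n := by
      calc x ≤ (n : ℝ) ^ (1 : ℝ) := Real.rpow_le_rpow_of_exponent_le hnR (by norm_num)
        _ = n := Real.rpow_one _
    have hcell : ∀ i < n, ∀ u ∈ Set.Icc (i : ℝ) ((i : ℝ) + 1), ‖g u - W u ω‖ ≤ x + 3 := by
      intro i hi
      have hin : ((i : ℝ) + 1) ≤ n := by exact_mod_cast hi
      have e1 : ((i : ℝ) * 1 ^ 2) = i := by ring
      have e2 : (((i : ℝ) + 1) * 1 ^ 2) = (i : ℝ) + 1 := by ring
      refine cr_low hU hg (Nat.cast_nonneg i) (by linarith) le_rfl hin ?_ ?_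
      · have h3 := hosc i hi
        rw [e1, e2] at h3
        exact h3
      · have h3 := hr i hi
        unfold low at h3
        rw [zero_add, e1, e2] at h3
        exact h3
    have hbd : ∀ u ∈ Set.Icc (0 : ℝ) n, ‖g u - W u ω‖ ≤ x + 3 := by
      intro u hu
      rcases hu.2.lt_or_eq with h | h
      · have hfl : ⌊u⌋₊ < n := (Nat.floor_lt hu.1).2 h
        exact hcell _ hfl u ⟨Nat.floor_le hu.1, (Nat.lt_floor_add_one u).le⟩
      · have hcast : ((n - 1 : ℕ) : ℝ) + 1 = n := by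
          have h4 : (n - 1) + 1 = n := Nat.sub_add_cancel hn
          exact_mod_cast h4
        exact hcell (n - 1) (by omega) u ⟨by linarith, by linarith⟩
    obtain ⟨k₀, hk1, hk2, hk3⟩ := hstart n hn2
    obtain ⟨S, τ, hτ, hSτ, hcard, hsum, htk⟩ := h₁ ω hω.1 z g hg
      (fun u hu => (hbd u hu).trans (by linarith)) k₀ hk3
      (fun M hM s hs => hno M (hk1.trans hM) s hs)
    have hst := start_r hU hg (show (1 : ℝ) ≤ x + 3 by linarith) hbd hτ S hSτ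
    have h4 : (0 : ℝ) < 4 ^ lev n k₀ := by positivity
    have hk2' : 4 * ((n : ℝ) + lev n k₀) ^ 10 ≤ 4 ^ lev n k₀ := by exact_mod_cast hk2
    have h58 : (0 : ℝ) ≤ (n : ℝ) ^ (5 / 8 : ℝ) := by positivity
    have hc1 : (S.card : ℝ) / 4 ^ lev n k₀ ≤ ((n : ℝ) ^ (5 / 8 : ℝ) + 4) / 2 := by
      rw [div_le_iff₀ h4]
      have h5 := mul_le_mul_of_nonneg_left hk2'
        (show (0 : ℝ) ≤ ((n : ℝ) ^ (5 / 8 : ℝ) + 4) / 2 by positivity)
      have h6 : ((n : ℝ) ^ (5 / 8 : ℝ) + 4) / 2 * (4 * ((n : ℝ) + lev n k₀) ^ 10) =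
          2 * ((n : ℝ) ^ (5 / 8 : ℝ) + 4) * ((n : ℝ) + lev n k₀) ^ 10 := by ring
      rw [h6] at h5
      exact hcard.trans h5
    have hc2 : (x + 3) ^ 2 * (∑ j ∈ Finset.range τ \ S,
        ck (fun t => W t ω) g (rr (lev n k₀)) j +
        tk (fun t => W t ω) g (rr (lev n k₀)) (τ * rr (lev n k₀) ^ 2) n) ≤
        (x + 3) ^ 2 * ((n : ℝ) ^ (11 / 16 : ℝ) + (n : ℝ) ^ (5 / 8 : ℝ)) :=
      mul_le_mul_of_nonneg_left (add_le_add hsum.le htk) (by positivity)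
    linarith

end

end Pool.Agent.SLE
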