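import Pool.Agent.Lib.MP_c17912_pr_TC.TLD
import Pool.Agent.Lib.MP_c17912_pr_TC.BWIF
import Pool.Agent.Lib.MP_c17912_pr_TC.Base

/-!
# MP_c17912_pr, project TC: the tail theorem in the form `TailP`
-/

set_option autoImplicit false

open MeasureTheory ProbabilityTheory Filter
open scoped NNReal ENNReal Topology Real

namespace Pool.Agent.SLE

noncomputable section

variable {Ω : Type*} [MeasurableSpace Ω] {μ : Measure Ω}

/-- TC-TLE. The tail theorem in the form `TailP`. -/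
theorem tailP_of [IsProbabilityMeasure μ] {a b c K : ℝ} (ha : 0 ≤ a) (hb : 0 ≤ b)
    (hK : 0 ≤ K) (h5 : S5P a b c) {α q δ₀ : ℝ} {ψ : ℝ → ℝ} (hS : S2D a b c α q δ₀ ψ)
    {ε c₀ : ℝ} (hε : 0 < ε) (hε2 : ε ≤ 2) (hqε : q * ε < δ₀) (hc₀ : 0 ≤ c₀) :
    TailP μ a b c K ε c₀ := by
  obtain ⟨C, c₁, p, hC, hc₁, H0⟩ := tail_thm (μ := μ) ha hb hK h5 hS hε hε2 hqε hc₀
  refine ⟨C, c₁, p, 1, hC, hc₁, fun W hW H hH s hs T => ?_⟩
  obtain ⟨Y, hY1, hY2, hY3⟩ := H0 W hW.toDrv H T hH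
  refine ⟨Y, hY1.mono (Blk_le hW.toDrv 0 T) le_rfl, hY2, ?_⟩
  intro ω z g _ hsol hR hcf
  have hT0 : (0 : ℝ) ≤ T := Nat.cast_nonneg T
  have hW0 : W 0 ω = 0 := hW.zero 0 le_rfl ω
  have hz : 1 ≤ ‖z‖ := by
    by_contra hlt
    push Not at hlt
    obtain ⟨v, hv, hv2⟩ := hcf 0 ⟨le_rfl, hT0⟩ (by
      rw [hsol.1]
      change ‖z - W 0 ω‖ ≤ 1
      rw [hW0, sub_zero]
      exact hlt.le)
    have hv0 : v = 0 := le_antisymm hv.2 hv.1
    rw [hv0] at hv2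
    linarith
  obtain ⟨v, hv, hmax⟩ := isCompact_Icc.exists_isMaxOn (Set.nonempty_Icc.2 hT0)
    (TRSTR.ph_cont (U := fun t => W t ω) (ε := ε) (hW.cont ω) hT0 hsol)
  have hvm : ∀ u ∈ Set.Icc (0 : ℝ) T,
      ph (fun t => W t ω) g ε u ≤ ph (fun t => W t ω) g ε v := fun u hu => hmax hu
  have hv1 : 1 ≤ ‖g v - W v ω‖ := by
    by_contra hlt
    push Not at hlt
    obtain ⟨v', hv', hv2⟩ := hcf v hv hlt.le
    have := hvm v' ⟨hv'.1, hv'.2.trans hv.2⟩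
    linarith
  have key := hY3 ω z g hz hsol hR ⟨v, hv, hv1, fun u hu => by
    have := hvm u hu
    linarith⟩
  have e1 : c₁ / (H : ℝ) ^ 2 * ∫ u in (0 : ℝ)..T, min 1 ‖g u - W u ω‖ / ‖g u - W u ω‖ ^ 2 =
      ∫ u in (0 : ℝ)..T, kT (c₁ / (H : ℝ) ^ 2) (g u - W u ω) := by
    rw [← intervalIntegral.integral_const_mul]
    refine intervalIntegral.integral_congr fun u _ => ?_
    simp only [kT]
    ring
  rw [e1]
  refine key.trans ?_
  refine mul_le_mul_left (ENNReal.ofReal_le_ofReal ?_) _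
  refine mul_le_mul_of_nonneg_left ?_ (by linarith)
  rw [mul_comm p H, pow_mul]
  refine pow_le_pow_left₀ (by positivity) ?_ p
  exact le_mul_of_one_le_left (by positivity) hs

/-- TC-TLE2. The tail theorem from `HasC`. -/
theorem tailP_of_hasC [IsProbabilityMeasure μ] {a b c K : ℝ} (ha : 0 ≤ a) (hb : 0 ≤ b)
    (hK : 0 ≤ K) (hC : HasC a b c) :
    ∃ ε₀ > 0, ∀ ε : ℝ, 0 < ε → ε ≤ ε₀ → ∀ c₀ : ℝ, 0 ≤ c₀ → TailP μ a b c K ε c₀ := by
  obtain ⟨⟨q, α, δ, ψ, hq, -, hδ, hψ, hper, hop⟩, -, h5, -⟩ := hC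
  have hq0 : 0 < q := by linarith
  refine ⟨min 2 (δ / (2 * q)), lt_min two_pos (by positivity), fun ε hε hεε c₀ hc₀ => ?_⟩
  refine tailP_of ha hb hK h5 (α := α) (q := q) (δ₀ := δ) (ψ := ψ) ⟨hq, hδ, hψ, hper, hop⟩ hε
    (hεε.trans (min_le_left _ _)) ?_ hc₀
  have h1 : ε ≤ δ / (2 * q) := hεε.trans (min_le_right _ _)
  have h2 : q * ε ≤ q * (δ / (2 * q)) := mul_le_mul_of_nonneg_left h1 hq0.le
  have h3 : q * (δ / (2 * q)) = δ / 2 := by field_simp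
  linarith

end

end Pool.Agent.SLE
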