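import Pool.Agent.Lib.MP_c17912_pr_TC.FCX
import Pool.Agent.Lib.MP_c17912_pr_TC.FCI
import Pool.Agent.Lib.MP_c17912_pr_TC.FCRb
import Pool.Agent.Lib.MP_c17912_pr_TC.TLE
import Pool.Agent.Lib.MP_c17912_pr_TC.CRF
import Pool.Agent.Lib.MP_c17912_pr_TC.BWGO
import Pool.Agent.Lib.MP_c17912_pr_TC.BWFN
import Pool.Agent.Lib.MP_c17912_pr_TC.BWPS

/-!
# MP_c17912_pr, project TC: the backward critical case, conclusion
-/

set_option autoImplicit false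

open MeasureTheory ProbabilityTheory Filter
open scoped NNReal ENNReal Topology Real

namespace Pool.Agent.SLE

noncomputable section

variable {Ω : Type*} [MeasurableSpace Ω] {μ : Measure Ω}

/-- Everything which is needed about a forward critical matrix. -/
theorem fwdP_of_hasC_bw [IsProbabilityMeasure μ] {a b c K : ℝ} (ha : 0 ≤ a) (hb : 0 ≤ b)
    (hc : c ^ 2 ≤ a * b) (hK : 0 ≤ K) (hC : HasC a b c) : FwdP μ a b c K := by
  obtain ⟨ε₁, hε₁, -, h1⟩ := strC_of_hasC (μ := μ) (K := K) ha hb hc hK hC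
  obtain ⟨ε₂, hε₂, h2⟩ := tailP_of_hasC (μ := μ) (K := K) ha hb hK hC
  have hε : 0 < min ε₁ ε₂ := lt_min hε₁ hε₂
  refine ⟨rid_c ha hb le_rfl (h1 _ hε (min_le_left _ _)) (h2 _ hε (min_le_right _ _) 0 le_rfl),
    min ε₁ ε₂, hε, fun ε hε' hle => ⟨0, le_rfl, ?_, ?_⟩⟩
  · exact closP_of le_rfl (h1 ε hε' (hle.trans (min_le_left _ _)))
  · exact h2 ε hε' (hle.trans (min_le_right _ _)) 0 le_rfl

/-- The data of a forward critical matrix. -/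
theorem crF_of_hasC {a b c : ℝ} (hc : c ^ 2 ≤ a * b) (hab : 0 < a + b) (hC : HasC a b c)
    {ρ : ℝ → ℝ} (hρ : PoiP a b c ρ) (h0 : ∫ x in (0 : ℝ)..π, H1 a b c x * ρ x = 0) :
    CrF a b c := by
  obtain ⟨h1, ⟨q, δ, ψ, hq, -, hδ, h2⟩, -⟩ := hC
  exact ⟨h1, ⟨q, δ, ψ, hq, hδ, h2⟩, hc, hab, ρ, hρ, h0⟩

/-- Transience in the backward critical case. -/
theorem transient_bwd [IsProbabilityMeasure μ] {a b c K : ℝ} (ha : 0 ≤ a) (hb : 0 ≤ b)
    (hc : c ^ 2 ≤ a * b) (hab : 0 < a + b) (hK : 0 ≤ K) {ρ f ρ' f' : ℝ → ℝ}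
    {k1 k2 k1' k2' : ℝ} (h : AngD a b c ρ f k1 k2) (h' : AngD b a (-c) ρ' f' k1' k2')
    (h1 : mF b a (-c) ρ' = 0) (h2 : mB b a (-c) f' ≠ 0) {W : ℝ → Ω → ℂ}
    (hW : Gau a b c K W μ) : ∀ᵐ ω ∂μ, Transient (fun t => W t ω) := by
  have hc' : (-c) ^ 2 ≤ b * a := by nlinarith
  have hab' : 0 < b + a := by linarith
  have hC : HasC b a (-c) := hasC_ang hb ha hc' hab' h' h1 h2
  obtain ⟨ψ, hψ, hψp, hop⟩ := area_psi h
  exact transient_of_goal (goal_bwd ha hb hK hψ hψp hop (crF_of_hasC hc' hab' hC h'.poiP h1)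
    (fwdP_of_hasC_bw hb ha hc' hK hC)) hW

end

end Pool.Agent.SLE
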