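import Pool.Agent.Lib.MP_c17912_pr_TR.SGN

set_option autoImplicit false

open MeasureTheory ProbabilityTheory Filter
open scoped NNReal ENNReal Topology Real

namespace Pool.Agent.SLE

noncomputable section

/-- TC-COS. The derivative `log |g'|` decreases in the mean.

Proof. `f = dens (-1)`, `V f' / 2 = κ - 2 sin 2x f` (`dens_props`). `∫ cos 2x f = 1/2 ∫ (sin 2x)' f
= -1/2 ∫ sin 2x f' = -κ ∫ sin 2x / V + 2 ∫ sin^2 2x f / V`. Dividing the equation by `V f / 2`
and integrating (`log f` is periodic): `κ ∫ 1 / (V f) = 2 ∫ sin 2x / V =: 2 I`. So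
`κ I = 2 I^2 / ∫ 1/(V f)`, and by Cauchy-Schwarz
`I^2 ≤ (∫ sin^2 2x f / V) (∫ 1 / (V f))`, so `κ I ≤ 2 ∫ sin^2 2x f / V`; the inequality is strict,
since equality forces `sin 2x f` to be constant, but it vanishes at `0` and is not identically
zero. (To avoid the discussion of equality: with `m = I / ∫ 1/(V f)`,
`0 < ∫ (sin 2x f - m)^2 / (V f) = ∫ sin^2 2x f / V - 2 m I + m^2 ∫ 1/(V f)
= ∫ sin^2 2x f / V - m I`, and `κ = 2 m`.) -/
theorem cos_mean_pos {a b c : ℝ} (ha : 0 < a) (hb : 0 < b) (hc : c ^ 2 < a * b) :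
    0 < ∫ x in (0 : ℝ)..π, Real.cos (2 * x) * dens a b c (-1) x := by
  obtain ⟨hs, hp, hpos, κ, hκ⟩ := dens_props ha hb hc (-1)
  obtain ⟨f, hf⟩ : ∃ f : ℝ → ℝ, f = dens a b c (-1) := ⟨_, rfl⟩
  rw [← hf] at hs hp hpos hκ
  rw [← hf]
  have hV : ∀ x, 0 < Vth a b c x := Vth_pos ha hb hc
  have hVc : Continuous (Vth a b c) := (TRSGN.V_smooth a b c 0).continuous
  have hfc : Continuous f := (hs 0).continuous
  have hf'c : Continuous (deriv f) := ((TRSGN.sm_deriv hs) 0).continuous
  have hsc : Continuous fun x : ℝ => Real.sin (2 * x) := by fun_prop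
  have hcc : Continuous fun x : ℝ => Real.cos (2 * x) := by fun_prop
  have hne : ∀ x, f x ≠ 0 := fun x => (hpos x).ne'
  obtain ⟨m, hm⟩ : ∃ m : ℝ, κ = 2 * m := ⟨κ / 2, by ring⟩
  have hd1 : ∀ x, deriv f x = 4 * (m - Real.sin (2 * x) * f x) / Vth a b c x := by
    intro x
    have h := hκ x
    rw [eq_div_iff (hV x).ne']
    rw [hm] at h
    linarith
  obtain ⟨G, hG⟩ : ∃ G : ℝ → ℝ, G = fun x => 2 * Real.cos (2 * x) * f x +
    Real.sin (2 * x) * deriv f x := ⟨_, rfl⟩
  obtain ⟨Q, hQ⟩ : ∃ Q : ℝ → ℝ, Q = fun x => (Real.sin (2 * x) * f x - m) ^ 2 /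
    (Vth a b c x * f x) := ⟨_, rfl⟩
  obtain ⟨L, hL⟩ : ∃ L : ℝ → ℝ, L = fun x => deriv f x / f x := ⟨_, rfl⟩
  have hGc : Continuous G := by
    rw [hG]
    exact ((continuous_const.mul hcc).mul hfc).add (hsc.mul hf'c)
  have hQc : Continuous Q := by
    rw [hQ]
    exact (((hsc.mul hfc).sub continuous_const).pow 2).div (hVc.mul hfc)
      (fun x => (mul_pos (hV x) (hpos x)).ne')
  have hLc : Continuous L := by
    rw [hL]
    exact hf'c.div hfc hne
  have i1 : ∫ x in (0 : ℝ)..π, G x = 0 := by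
    have e : G = deriv (fun x => Real.sin (2 * x) * f x) := by
      rw [hG]
      funext x
      have h0 : HasDerivAt (fun x : ℝ => 2 * x) 2 x := by
        simpa using (hasDerivAt_id x).const_mul (2 : ℝ)
      have h1 : HasDerivAt (fun x => Real.sin (2 * x) * f x)
          (Real.cos (2 * x) * 2 * f x + Real.sin (2 * x) * deriv f x) x :=
        (h0.sin).mul (TRSGN.hd hs x)
      rw [h1.deriv]
      ring
    rw [e]
    refine TRSGN.int_deriv ?_ ?_
    · exact ((Real.contDiff_sin.comp (contDiff_const.mul contDiff_id)).mul (hs 1))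
    · intro x
      change Real.sin (2 * (x + π)) * f (x + π) = Real.sin (2 * x) * f x
      rw [hp x, show 2 * (x + π) = 2 * x + 2 * π by ring, Real.sin_add_two_pi]
  have i2 : ∫ x in (0 : ℝ)..π, L x = 0 := by
    have e : L = deriv (fun x => Real.log (f x)) := by
      rw [hL]
      funext x
      rw [((TRSGN.hd hs x).log (hne x)).deriv]
    rw [e]
    refine TRSGN.int_deriv ((hs 1).log hne) ?_
    intro x
    change Real.log (f (x + π)) = Real.log (f x)
    rw [hp x]
  have i3 : 0 < ∫ x in (0 : ℝ)..π, Q x := by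
    have hQnn : ∀ x, 0 ≤ Q x := by
      intro x
      rw [hQ]
      exact div_nonneg (sq_nonneg _) (mul_pos (hV x) (hpos x)).le
    refine intervalIntegral.integral_pos Real.pi_pos hQc.continuousOn (fun x _ => hQnn x) ?_
    by_cases hm0 : m = 0
    · refine ⟨π / 4, ⟨by positivity, by linarith [Real.pi_pos]⟩, ?_⟩
      rw [hQ]
      have hs1 : Real.sin (2 * (π / 4)) = 1 := by
        rw [show 2 * (π / 4) = π / 2 by ring, Real.sin_pi_div_two]
      change 0 < (Real.sin (2 * (π / 4)) * f (π / 4) - m) ^ 2 /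
        (Vth a b c (π / 4) * f (π / 4))
      rw [hs1, hm0]
      have h1 := hpos (π / 4)
      have h2 := hV (π / 4)
      rw [one_mul, sub_zero]
      positivity
    · refine ⟨0, ⟨le_refl _, Real.pi_pos.le⟩, ?_⟩
      rw [hQ]
      change 0 < (Real.sin (2 * 0) * f 0 - m) ^ 2 / (Vth a b c 0 * f 0)
      have h1 := hpos 0
      have h2 := hV 0
      rw [mul_zero, Real.sin_zero, zero_mul, zero_sub, neg_sq]
      have h3 : 0 < m ^ 2 := by positivity
      positivity
  have key : ∀ x, Real.cos (2 * x) * f x = (1 / 2 * G x + 2 * Q x) - m / 2 * L x := by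
    intro x
    rw [hG, hQ, hL]
    have h1 := (hV x).ne'
    have h2 := hne x
    simp only [hd1 x]
    field_simp
    ring
  have hI : ∀ g : ℝ → ℝ, Continuous g → IntervalIntegrable g volume 0 π :=
    fun g hg => hg.intervalIntegrable _ _
  have e1 : ∫ x in (0 : ℝ)..π, Real.cos (2 * x) * f x =
      (1 / 2 * ∫ x in (0 : ℝ)..π, G x) + (2 * ∫ x in (0 : ℝ)..π, Q x) -
        m / 2 * ∫ x in (0 : ℝ)..π, L x := by
    have c1 : Continuous fun x => 1 / 2 * G x := continuous_const.mul hGc
    have c2 : Continuous fun x => 2 * Q x := continuous_const.mul hQc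
    have c3 : Continuous fun x => m / 2 * L x := continuous_const.mul hLc
    have c4 : Continuous fun x => 1 / 2 * G x + 2 * Q x := c1.add c2
    have g1 : ∫ x in (0 : ℝ)..π, Real.cos (2 * x) * f x =
        ∫ x in (0 : ℝ)..π, ((1 / 2 * G x + 2 * Q x) - m / 2 * L x) :=
      intervalIntegral.integral_congr (fun x _ => key x)
    rw [g1, intervalIntegral.integral_sub (hI _ c4) (hI _ c3),
      intervalIntegral.integral_add (hI _ c1) (hI _ c2),
      intervalIntegral.integral_const_mul, intervalIntegral.integral_const_mul,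
      intervalIntegral.integral_const_mul]
  rw [e1, i1, i2]
  linarith

end

end Pool.Agent.SLE
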