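import Pool.Agent.Lib.MP_c17912_pr_TC.Base
import Pool.Agent.Lib.MP_c17912_pr_TR.SCL
import Pool.Agent.Lib.MP_c17912_pr_TR.CRU

set_option autoImplicit false

open MeasureTheory ProbabilityTheory Filter
open scoped NNReal ENNReal Topology Real

namespace Pool.Agent.SLE

noncomputable section

variable {Ω : Type*}

private lemma TCSHF_contZ {U : ℝ → ℂ} (hU : Continuous U) {z : ℂ} {g : ℝ → ℂ} {t : ℝ}
    (hg : Sol U z t g) : ContinuousOn (fun u => g u - U u) (Set.Icc 0 t) :=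
  (FlowAux.contOn hg).sub hU.continuousOn

private lemma TCSHF_ne {U : ℝ → ℂ} {z : ℂ} {g : ℝ → ℂ} {t : ℝ}
    (hg : Sol U z t g) {u : ℝ} (hu : u ∈ Set.Icc 0 t) : g u - U u ≠ 0 :=
  sub_ne_zero.2 (hg.2.1 u hu)

private lemma TCSHF_contk {U : ℝ → ℂ} (hU : Continuous U) {z : ℂ} {g : ℝ → ℂ} {t : ℝ}
    (hg : Sol U z t g) (ε : ℝ) :
    ContinuousOn (fun u => kk 1 ε (g u - U u)) (Set.Icc 0 t) :=
  (SmgAux.continuousOn_kk 1 ε).comp (TCSHF_contZ hU hg) (fun _ hu => TCSHF_ne hg hu)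

private lemma TCSHF_intk {U : ℝ → ℂ} (hU : Continuous U) {z : ℂ} {g : ℝ → ℂ} {t : ℝ}
    (hg : Sol U z t g) (ε : ℝ) {u v : ℝ} (hu : 0 ≤ u) (huv : u ≤ v) (hv : v ≤ t) :
    IntervalIntegrable (fun u => kk 1 ε (g u - U u)) volume u v := by
  refine ContinuousOn.intervalIntegrable ?_
  rw [Set.uIcc_of_le huv]
  exact (TCSHF_contk hU hg ε).mono (Set.Icc_subset_Icc hu hv)

private lemma TCSHF_intl {U : ℝ → ℂ} (hU : Continuous U) {z : ℂ} {g : ℝ → ℂ} {t : ℝ}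
    (hg : Sol U z t g) {u v : ℝ} (hu : 0 ≤ u) (huv : u ≤ v) (hv : v ≤ t) :
    IntervalIntegrable (fun u => 1 / ‖g u - U u‖ ^ 2) volume u v := by
  refine ContinuousOn.intervalIntegrable ?_
  rw [Set.uIcc_of_le huv]
  refine ContinuousOn.mono ?_ (Set.Icc_subset_Icc hu hv)
  refine ContinuousOn.div continuousOn_const ((TCSHF_contZ hU hg).norm.pow 2) ?_
  intro w hw
  exact pow_ne_zero 2 (norm_ne_zero_iff.2 (TCSHF_ne hg hw))

private lemma TCSHF_kk {r : ℝ} (hr : 0 < r) (ε : ℝ) (z : ℂ) :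
    kk 1 ε (r⁻¹ • z) = r ^ 2 * kk 1 ε z := by
  unfold kk
  have h1 : (1 : ℂ) / (r⁻¹ • z) ^ 2 = (r ^ 2) • (1 / z ^ 2) := by
    rw [Complex.real_smul, Complex.real_smul, mul_pow, one_div, mul_inv]
    push_cast
    rw [inv_pow, inv_inv, one_div]
  have h2 : ε / ((r ^ 2)⁻¹ * ‖z‖ ^ 2) = r ^ 2 * (ε / ‖z‖ ^ 2) := by
    rw [div_eq_mul_inv, mul_inv, inv_inv]
    ring
  rw [h1, Complex.smul_re, smul_eq_mul, norm_smul, Real.norm_eq_abs, abs_of_pos (inv_pos.2 hr),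
    mul_pow, inv_pow, h2]
  ring

private lemma TCSHF_kk_le {ε : ℝ} (hε : 0 < ε) (hε2 : ε ≤ 2) {z : ℂ} (hz : 1 ≤ ‖z‖) :
    ‖kk 1 ε z‖ ≤ 4 := by
  unfold kk
  have hz2 : 1 ≤ ‖z‖ ^ 2 := one_le_pow₀ hz
  have h1 : |(1 / z ^ 2).re| ≤ 1 := by
    refine (Complex.abs_re_le_norm _).trans ?_
    rw [norm_div, norm_one, norm_pow]
    exact div_le_one_of_le₀ hz2 (by positivity)
  have h2 : 0 ≤ ε / ‖z‖ ^ 2 := by positivity
  have h3 : ε / ‖z‖ ^ 2 ≤ 2 := (div_le_self hε.le hz2).trans hε2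
  obtain ⟨h4, h5⟩ := abs_le.1 h1
  rw [Real.norm_eq_abs, abs_le]
  constructor <;> linarith

/-- TC-SHF1. `ph` of the shifted and scaled solution (see `Sol.shift`, `gs`, `psub`).

Proof. `gs τ - psub τ = r⁻¹ Z_{s + r² τ}` for `τ ≥ 0`; `kk 1 ε (r⁻¹ z) = r^2 kk 1 ε z`; substitution in
the integral; `-log |r⁻¹ Z| = -log |Z| + log r`. (`Z ≠ 0` on `[0,t]`.) -/
theorem ph_shift {U : ℝ → ℂ} (hU : Continuous U) {z : ℂ} {g : ℝ → ℂ} {t ε s r : ℝ} (hs : 0 ≤ s)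
    (hst : s ≤ t) (hr : 0 < r) (hg : Sol U z t g) {τ : ℝ} (hτ : 0 ≤ τ) (hτt : s + r ^ 2 * τ ≤ t) :
    ph (psub U s r) (gs U g s r) ε τ =
      ph U g ε (s + r ^ 2 * τ) - (∫ v in (0 : ℝ)..s, kk 1 ε (g v - U v)) + Real.log r := by
  have hr2 : 0 < r ^ 2 := by positivity
  have h0 : 0 ≤ r ^ 2 * τ := by positivity
  unfold ph
  have h1 : (∫ v in (0 : ℝ)..τ, kk 1 ε (gs U g s r v - psub U s r v)) =
      ∫ v in (0 : ℝ)..τ, r ^ 2 * kk 1 ε (g (s + r ^ 2 * v) - U (s + r ^ 2 * v)) := by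
    refine intervalIntegral.integral_congr ?_
    intro v hv
    rw [Set.uIcc_of_le hτ] at hv
    change kk 1 ε (gs U g s r v - psub U s r v) =
      r ^ 2 * kk 1 ε (g (s + r ^ 2 * v) - U (s + r ^ 2 * v))
    rw [TRSCL.diff_eq U g s r hv.1, TCSHF_kk hr]
  have h2 : (∫ v in (0 : ℝ)..τ, r ^ 2 * kk 1 ε (g (s + r ^ 2 * v) - U (s + r ^ 2 * v))) =
      ∫ v in s..(s + r ^ 2 * τ), kk 1 ε (g v - U v) := by
    rw [intervalIntegral.integral_const_mul,
      intervalIntegral.mul_integral_comp_add_mul (f := fun v => kk 1 ε (g v - U v)) (r ^ 2) s,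
      mul_zero, add_zero]
  have h3 : (∫ v in (0 : ℝ)..(s + r ^ 2 * τ), kk 1 ε (g v - U v)) -
      (∫ v in (0 : ℝ)..s, kk 1 ε (g v - U v)) =
      ∫ v in s..(s + r ^ 2 * τ), kk 1 ε (g v - U v) :=
    intervalIntegral.integral_interval_sub_left
      (TCSHF_intk hU hg ε le_rfl (by linarith) hτt) (TCSHF_intk hU hg ε le_rfl hs hst)
  have hne : g (s + r ^ 2 * τ) - U (s + r ^ 2 * τ) ≠ 0 :=
    TCSHF_ne hg ⟨by linarith, hτt⟩
  rw [h1, h2, ← h3, TRSCL.norm_eq U g s hr hτ,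
    Real.log_mul (inv_ne_zero hr.ne') (norm_ne_zero_iff.2 hne), Real.log_inv]
  ring

/-- TC-SHF2. The clock of the shifted and scaled solution. -/
theorem lk_shift {U : ℝ → ℂ} (hU : Continuous U) {z : ℂ} {g : ℝ → ℂ} {t s r : ℝ} (hs : 0 ≤ s)
    (hst : s ≤ t) (hr : 0 < r) (hg : Sol U z t g) {τ τ' : ℝ} (hτ : 0 ≤ τ) (hττ : τ ≤ τ')
    (hτt : s + r ^ 2 * τ' ≤ t) :
    lk (psub U s r) (gs U g s r) τ τ' = lk U g (s + r ^ 2 * τ) (s + r ^ 2 * τ') := by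
  unfold lk
  have h1 : (∫ u in τ..τ', 1 / ‖gs U g s r u - psub U s r u‖ ^ 2) =
      ∫ u in τ..τ', r ^ 2 * (1 / ‖g (s + r ^ 2 * u) - U (s + r ^ 2 * u)‖ ^ 2) := by
    refine intervalIntegral.integral_congr ?_
    intro u hu
    rw [Set.uIcc_of_le hττ] at hu
    have hu0 : 0 ≤ u := hτ.trans hu.1
    change 1 / ‖gs U g s r u - psub U s r u‖ ^ 2 =
      r ^ 2 * (1 / ‖g (s + r ^ 2 * u) - U (s + r ^ 2 * u)‖ ^ 2)
    rw [TRSCL.norm_eq U g s hr hu0, mul_pow, inv_pow]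
    rw [one_div, mul_inv, inv_inv, one_div]
  rw [h1, intervalIntegral.integral_const_mul,
    intervalIntegral.mul_integral_comp_add_mul
      (f := fun v => 1 / ‖g v - U v‖ ^ 2) (r ^ 2) s]

/-- TC-SHF3. The sigma-algebras of the process after time `α` (`r = 1`).

Proof. `subP W α 1 u - subP W α 1 τ = W (α + u) - W (α + τ)` for `0 ≤ τ ≤ u`. -/
theorem Blk_sub_ge {W : ℝ → Ω → ℂ} {α τ τ' : ℝ} (hα : 0 ≤ α) (hτ : 0 ≤ τ) (hττ : τ ≤ τ') :
    Blk W (α + τ) (α + τ') ≤ Blk (subP W α 1) τ τ' := by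
  refine iSup_le fun ⟨u, hu⟩ => ?_
  rw [← measurable_iff_comap_le]
  have hu1 : α + τ ≤ u := hu.1
  have hu2 : u ≤ α + τ' := hu.2
  have e1 : DrvSubAux.tm α 1 (u - α) = u := by
    unfold DrvSubAux.tm
    rw [max_eq_left (by linarith)]
    ring
  have e2 : DrvSubAux.tm α 1 τ = α + τ := by
    unfold DrvSubAux.tm
    rw [max_eq_left hτ]
    ring
  have e : (fun ω => W u ω - W (α + τ) ω) =
      fun ω => subP W α 1 (u - α) ω - subP W α 1 τ ω := by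
    funext ω
    rw [DrvSubAux.subP_sub, e1, e2, inv_one, one_smul]
  change Measurable[Blk (subP W α 1) τ τ'] (fun ω => W u ω - W (α + τ) ω)
  rw [e]
  exact DrvSubAux.meas_Blk ⟨by linarith, by linarith⟩

/-- TC-SHF4. `ph` is continuous along a solution.

Proof. `kk 1 ε` is continuous off `0` (`SmgAux.continuousOn_kk`), `Z ≠ 0` is continuous on `[0,t]`;
the integral is continuous (`intervalIntegral.continuousOn_primitive_interval`), and `log ‖Z‖` too. -/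
theorem ph_cont {U : ℝ → ℂ} (hU : Continuous U) {z : ℂ} {g : ℝ → ℂ} {t ε : ℝ} (ht : 0 ≤ t)
    (hg : Sol U z t g) : ContinuousOn (ph U g ε) (Set.Icc 0 t) := by
  unfold ph
  have h1 : ContinuousOn (fun b => ∫ v in (0 : ℝ)..b, kk 1 ε (g v - U v)) (Set.uIcc 0 t) :=
    intervalIntegral.continuousOn_primitive_interval' (TCSHF_intk hU hg ε le_rfl ht le_rfl)
      Set.left_mem_uIcc
  rw [Set.uIcc_of_le ht] at h1
  refine h1.sub (ContinuousOn.log (TCSHF_contZ hU hg).norm ?_)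
  intro u hu
  exact norm_ne_zero_iff.2 (TCSHF_ne hg hu)

/-- TC-SHF5. The maximum `pm` over a cell is attained, and is an upper bound. -/
theorem pm_spec {U : ℝ → ℂ} (hU : Continuous U) {z : ℂ} {g : ℝ → ℂ} {t ε : ℝ} {j : ℕ}
    (hg : Sol U z t g) (hj : (j : ℝ) + 1 ≤ t) :
    (∃ u ∈ Set.Icc (j : ℝ) ((j : ℝ) + 1), ph U g ε u = pm U g ε j) ∧
      ∀ u ∈ Set.Icc (j : ℝ) ((j : ℝ) + 1), ph U g ε u ≤ pm U g ε j := by
  have hj0 : (0 : ℝ) ≤ j := Nat.cast_nonneg j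
  have hc : ContinuousOn (ph U g ε) (Set.Icc (j : ℝ) ((j : ℝ) + 1)) :=
    (ph_cont hU (by linarith) hg).mono (Set.Icc_subset_Icc hj0 hj)
  have hk : IsCompact (ph U g ε '' Set.Icc (j : ℝ) ((j : ℝ) + 1)) :=
    isCompact_Icc.image_of_continuousOn hc
  have hne : (ph U g ε '' Set.Icc (j : ℝ) ((j : ℝ) + 1)).Nonempty :=
    ⟨_, Set.mem_image_of_mem _ (Set.left_mem_Icc.2 (by linarith))⟩
  exact ⟨hk.sSup_mem hne, fun u hu => le_csSup hk.bddAbove (Set.mem_image_of_mem _ hu)⟩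

/-- TC-SHF6. Variation of `ph` on an interval of length at most `1` on which `1 ≤ |Z| ≤ e`.

Proof. `|kk 1 ε z| ≤ (2 + ε) / |z|^2 ≤ 4`, and `0 ≤ log |Z| ≤ log e`. -/
theorem ph_var {U : ℝ → ℂ} (hU : Continuous U) {z : ℂ} {g : ℝ → ℂ} {t ε e : ℝ} (hε : 0 < ε)
    (hε2 : ε ≤ 2) (hg : Sol U z t g) {u v : ℝ} (hu : 0 ≤ u) (huv : u ≤ v) (hvu : v ≤ u + 1)
    (hvt : v ≤ t) (h1 : ∀ τ ∈ Set.Icc u v, 1 ≤ ‖g τ - U τ‖)
    (h2 : ∀ τ ∈ Set.Icc u v, ‖g τ - U τ‖ ≤ e) :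
    |ph U g ε v - ph U g ε u| ≤ 4 + Real.log e := by
  have hv0 : 0 ≤ v := hu.trans huv
  have h3 : (∫ w in (0 : ℝ)..v, kk 1 ε (g w - U w)) - (∫ w in (0 : ℝ)..u, kk 1 ε (g w - U w)) =
      ∫ w in u..v, kk 1 ε (g w - U w) :=
    intervalIntegral.integral_interval_sub_left
      (TCSHF_intk hU hg ε le_rfl hv0 hvt) (TCSHF_intk hU hg ε le_rfl hu (huv.trans hvt))
  have h4 : ‖∫ w in u..v, kk 1 ε (g w - U w)‖ ≤ 4 * |v - u| := by
    refine intervalIntegral.norm_integral_le_of_norm_le_const ?_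
    intro w hw
    rw [Set.uIoc_of_le huv] at hw
    exact TCSHF_kk_le hε hε2 (h1 w ⟨hw.1.le, hw.2⟩)
  rw [abs_of_nonneg (sub_nonneg.2 huv), Real.norm_eq_abs] at h4
  have h5 : |∫ w in u..v, kk 1 ε (g w - U w)| ≤ 4 := by linarith
  have hmu : u ∈ Set.Icc u v := Set.left_mem_Icc.2 huv
  have hmv : v ∈ Set.Icc u v := Set.right_mem_Icc.2 huv
  have l1 : 0 ≤ Real.log ‖g u - U u‖ := Real.log_nonneg (h1 u hmu)
  have l2 : 0 ≤ Real.log ‖g v - U v‖ := Real.log_nonneg (h1 v hmv)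
  have l3 : Real.log ‖g u - U u‖ ≤ Real.log e :=
    Real.log_le_log (lt_of_lt_of_le one_pos (h1 u hmu)) (h2 u hmu)
  have l4 : Real.log ‖g v - U v‖ ≤ Real.log e :=
    Real.log_le_log (lt_of_lt_of_le one_pos (h1 v hmv)) (h2 v hmv)
  unfold ph
  have h6 : ((∫ w in (0 : ℝ)..v, kk 1 ε (g w - U w)) - Real.log ‖g v - U v‖) -
      ((∫ w in (0 : ℝ)..u, kk 1 ε (g w - U w)) - Real.log ‖g u - U u‖) =
      (∫ w in u..v, kk 1 ε (g w - U w)) + (Real.log ‖g u - U u‖ - Real.log ‖g v - U v‖) := by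
    rw [← h3]
    ring
  rw [h6]
  obtain ⟨h7, h8⟩ := abs_le.1 h5
  rw [abs_le]
  constructor <;> linarith

/-- TC-SHF7. The clock of a cell which is not low is at most `1`, and the clock is additive and
nonnegative: the clock of the cells in `[α,t)` which are not low is at most the clock of `[α,t-1]`
plus `1`.

Proof. `∑ j ∈ Ico α (t-1), (..) ≤ ∑ j ∈ Ico α (t-1), lk j (j+1) = lk α (t-1)`, and the last term is at
most `1`. -/
theorem sum_le_lk {U : ℝ → ℂ} (hU : Continuous U) {z : ℂ} {g : ℝ → ℂ} {us : ℝ} {α t : ℕ}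
    (hαt : α < t) (ht : (t : ℝ) ≤ us) (hg : Sol U z us g) :
    (open Classical in ∑ j ∈ Finset.Ico α t,
      if low U g 1 j then 0 else lk U g (j : ℝ) ((j : ℝ) + 1)) ≤
      lk U g (α : ℝ) ((t : ℝ) - 1) + 1 := by
  classical
  obtain ⟨T, rfl⟩ : ∃ T, t = T + 1 := ⟨t - 1, by omega⟩
  have hαT : α ≤ T := by omega
  have hTus : (T : ℝ) + 1 ≤ us := by
    rw [Nat.cast_add, Nat.cast_one] at ht
    exact ht
  have hnn : ∀ j : ℕ, 0 ≤ lk U g (j : ℝ) ((j : ℝ) + 1) := by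
    intro j
    unfold lk
    exact intervalIntegral.integral_nonneg (by linarith) (fun u _ => by positivity)
  have h1 : (∑ j ∈ Finset.Ico α T,
      if low U g 1 j then 0 else lk U g (j : ℝ) ((j : ℝ) + 1)) ≤ lk U g (α : ℝ) (T : ℝ) := by
    have h2 : ∑ j ∈ Finset.Ico α T, lk U g (j : ℝ) ((j : ℝ) + 1) = lk U g (α : ℝ) (T : ℝ) := by
      have h3 := intervalIntegral.sum_integral_adjacent_intervals_Ico
        (f := fun u => 1 / ‖g u - U u‖ ^ 2) (μ := volume) (a := fun k : ℕ => (k : ℝ)) hαT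
        (fun k hk => by
          have hk2 : k < T := hk.2
          have hk3 : ((k + 1 : ℕ) : ℝ) ≤ (T : ℝ) := by exact_mod_cast hk2
          refine TCSHF_intl hU hg (Nat.cast_nonneg k) ?_ (by linarith)
          exact_mod_cast Nat.le_succ k)
      unfold lk
      rw [← h3]
      refine Finset.sum_congr rfl fun k _ => ?_
      push_cast
      rfl
    rw [← h2]
    refine Finset.sum_le_sum fun j _ => ?_
    split_ifs
    · exact hnn j
    · exact le_rfl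
  have h4 : (if low U g 1 T then 0 else lk U g (T : ℝ) ((T : ℝ) + 1)) ≤ 1 := by
    split_ifs with hlow
    · exact zero_le_one
    · unfold lk
      have h5 : ‖∫ u in (T : ℝ)..((T : ℝ) + 1), 1 / ‖g u - U u‖ ^ 2‖ ≤
          1 * |(T : ℝ) + 1 - T| := by
        refine intervalIntegral.norm_integral_le_of_norm_le_const ?_
        intro u hu
        rw [Set.uIoc_of_le (by linarith)] at hu
        have h6 : 1 < ‖g u - U u‖ := by
          by_contra hc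
          push Not at hc
          refine hlow ⟨u, ⟨?_, ?_⟩, hc⟩
          · rw [one_pow, mul_one]
            exact hu.1.le
          · rw [one_pow, mul_one]
            exact hu.2
        rw [Real.norm_eq_abs, abs_of_nonneg (by positivity)]
        exact div_le_one_of_le₀ (one_le_pow₀ h6.le) (by positivity)
      rw [add_sub_cancel_left, abs_one, mul_one] at h5
      exact (le_abs_self _).trans h5
  rw [Finset.sum_Ico_succ_top hαT, Nat.cast_add, Nat.cast_one, add_sub_cancel_right]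
  exact add_le_add h1 h4

end

end Pool.Agent.SLE
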