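import Pool.Agent.Lib.MP_c17912_pr_TC.ST3
import Pool.Agent.Lib.MP_c17912_pr_TC.SHF
import Pool.Agent.Lib.MP_c17912_pr_TR.CHN

set_option autoImplicit false

open MeasureTheory ProbabilityTheory Filter
open scoped NNReal ENNReal Topology Real

namespace Pool.Agent.SLE

noncomputable section

variable {Ω : Type*} [MeasurableSpace Ω] {μ : Measure Ω}

namespace TCCPR

open Classical in
/-- The weight of a cell. -/
def cw (β : ℝ) (B : Set Ω) (ω : Ω) : ℝ≥0∞ :=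
  2⁻¹ * (1 + (if ω ∈ B then ENNReal.ofReal (Real.exp β) else 0))

omit [MeasurableSpace Ω] in
theorem cw_meas {m : MeasurableSpace Ω} (β : ℝ) {B : Set Ω} (hB : MeasurableSet[m] B) :
    Measurable[m] (cw β B) := by
  have h3 : cw β B = fun ω => 2⁻¹ * (1 + B.indicator (fun _ => ENNReal.ofReal (Real.exp β)) ω) := by
    funext ω
    unfold cw
    by_cases h : ω ∈ B
    · rw [if_pos h, Set.indicator_of_mem h]
    · rw [if_neg h, Set.indicator_of_notMem h]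
  rw [h3]
  refine Measurable.const_mul (Measurable.const_add ?_ 1) _
  exact Measurable.indicator measurable_const hB

omit [MeasurableSpace Ω] in
theorem cw_sq (β : ℝ) (B : Set Ω) (ω : Ω) :
    cw β B ω ^ 2 ≤ 2⁻¹ * (1 + B.indicator (fun _ => ENNReal.ofReal (Real.exp (2 * β))) ω) := by
  have e2 : (2 : ℝ≥0∞)⁻¹ = ENNReal.ofReal (1 / 2) := by
    rw [one_div, ENNReal.ofReal_inv_of_pos (by norm_num)]
    norm_num
  have e1 : (1 : ℝ≥0∞) = ENNReal.ofReal 1 := ENNReal.ofReal_one.symm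
  unfold cw
  by_cases h : ω ∈ B
  · rw [if_pos h, Set.indicator_of_mem h, e2, e1,
      ← ENNReal.ofReal_add zero_le_one (Real.exp_pos _).le,
      ← ENNReal.ofReal_add zero_le_one (Real.exp_pos _).le,
      ← ENNReal.ofReal_mul (by norm_num), ← ENNReal.ofReal_mul (by norm_num),
      ← ENNReal.ofReal_pow (by positivity)]
    refine ENNReal.ofReal_le_ofReal ?_
    have h1 : Real.exp (2 * β) = Real.exp β ^ 2 := by
      rw [← Real.exp_nat_mul]
      norm_num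
    rw [h1]
    nlinarith [sq_nonneg (Real.exp β - 1)]
  · rw [if_neg h, Set.indicator_of_notMem h, add_zero, mul_one, e2,
      ← ENNReal.ofReal_pow (by norm_num)]
    exact ENNReal.ofReal_le_ofReal (by norm_num)

theorem cw_int [IsProbabilityMeasure μ] {β : ℝ} {B : Set Ω} (hB : MeasurableSet B)
    (hBp : μ B ≤ ENNReal.ofReal (Real.exp (-(2 * β)))) : ∫⁻ ω, cw β B ω ^ 2 ∂μ ≤ 1 := by
  refine (lintegral_mono (cw_sq β B)).trans ?_
  rw [lintegral_const_mul' _ _ (by simp), lintegral_add_left measurable_const,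
    lintegral_one, measure_univ, lintegral_indicator_const hB]
  have h4 : ENNReal.ofReal (Real.exp (2 * β)) * μ B ≤ 1 := by
    refine (mul_le_mul_right hBp _).trans ?_
    rw [← ENNReal.ofReal_mul (Real.exp_pos _).le, ← Real.exp_add, add_neg_cancel,
      Real.exp_zero, ENNReal.ofReal_one]
  calc (2 : ℝ≥0∞)⁻¹ * (1 + ENNReal.ofReal (Real.exp (2 * β)) * μ B) ≤ 2⁻¹ * (1 + 1) :=
        mul_le_mul_right (add_le_add le_rfl h4) _
    _ = 1 := by
        rw [one_add_one_eq_two]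
        exact ENNReal.inv_mul_cancel (by norm_num) (by norm_num)

omit [MeasurableSpace Ω] in
theorem shift_eq (U g : ℝ → ℂ) (α : ℝ) {u : ℝ} (hu : 0 ≤ u) :
    gs U g α 1 u - psub U α 1 u = g (α + u) - U (α + u) := by
  simp only [gs, psub, max_eq_left hu, inv_one, one_smul, one_pow, one_mul]
  ring

end TCCPR

/-- TC-CPR. The chains of stretches of the critical case: the probabilistic input.

Proof. Let `C₀ c₁ p y` be as in `stretch3`. For `α : ℕ` apply it to `subP W α 1` (`Gau.subP`) with the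
weights `w τ = 1/2 (1 + indicator (Bd (α+τ)) (ofReal (exp β)))`: measurable for
`Blk W (α+τ) (α+τ+1) ≤ Blk (subP W α 1) τ (τ+1)` (`Blk_sub_ge`); `∫ w^2 ≤ 1/4 (2 + 2 exp (2β) μ (Bd))
≤ 1`. Let `Ys α t` be the functional; it is measurable for `Blk (subP W α 1) 0 t ≤ Blk W α (α+t)`
(`Blk_sub_le` with `r = 1`), and `∑ t < N, ∫ Ys α (t+1) ≤ ∑ y (t+1) ≤ 1`. `chain` (TR/CHN) with `v`, `β`, `D`,
`Bd` gives the event `A` and `R`; `Y α t := Ys α t ω`.
The last property: `Sol.shift` (at time `α`, `r = 1`) and `Sol.restrict` give the solution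
`gs U g α 1` of the equation of `psub U α 1` on `[0, u₂ - α]`, started at `Z_α`; `ph_shift`, `lk_shift`
translate the hypotheses; apply `stretch3` with `t := t - α ≥ 1`, `u₁ - α`, `u₂ - α`. (The factor `2` from
the weight goes into `C`.) -/
theorem chain_prob [IsProbabilityMeasure μ] {a b c K : ℝ} (ha : 0 ≤ a) (hb : 0 ≤ b)
    (hc : c ^ 2 ≤ a * b) (hK : 0 ≤ K) (hC : HasC a b c) :
    ∃ ε₀ : ℝ, 0 < ε₀ ∧ ε₀ ≤ 1 ∧ ∀ ε : ℝ, 0 < ε → ε ≤ ε₀ →
      ∃ (C c₁ : ℝ) (p : ℕ), 1 ≤ C ∧ 0 < c₁ ∧ ∀ W : ℝ → Ω → ℂ, Gau a b c K W μ →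
        ∀ (β v : ℝ) (D : ℕ) (Bd : ℕ → Set Ω), 0 ≤ β →
          (∀ j : ℕ, MeasurableSet[Blk W j ((j : ℝ) + 1)] (Bd j)) →
          (∀ j, μ (Bd j) ≤ ENNReal.ofReal (Real.exp (-(2 * β)))) →
          ∃ A, MeasurableSet A ∧ μ A ≤ ENNReal.ofReal (Real.exp (-v)) ∧ ∀ ω ∉ A,
            ∃ R Y : ℕ → ℕ → ℝ≥0∞, 1 ≤ R 0 0 ∧
              (open Classical in ∀ i s α t, s ≤ α → α ≤ s + D → α < t →
                R i s * (if s < α then
                    1 + (if ω ∈ Bd (α - 1) then ENNReal.ofReal (Real.exp β) else 0) else 1) *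
                  Y α (t - α) ≤ R (i + 1) t) ∧
              (∀ i t, R i t ≤ ENNReal.ofReal (2 * Real.exp v * (4 * (D + 1)) ^ i)) ∧
              (open Classical in ∀ (α t : ℕ) (z : ℂ) (g : ℝ → ℂ) (u₁ u₂ s e κ : ℝ), α < t →
                u₁ ∈ Set.Icc (α : ℝ) ((t : ℝ) - 1) → u₂ ∈ Set.Icc (t : ℝ) ((t : ℝ) + 1) →
                1 ≤ s → 1 ≤ e → 0 ≤ κ → Sol (fun t => W t ω) z u₂ g → 1 ≤ ‖g α - W α ω‖ →
                ‖g α - W α ω‖ ≤ s → 1 ≤ ‖g u₁ - W u₁ ω‖ →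
                (∀ u ∈ Set.Icc ((t : ℝ) - 1) t, ‖g u - W u ω‖ ≤ e) →
                (∀ u ∈ Set.Icc (α : ℝ) u₂,
                  ph (fun t => W t ω) g ε u ≤ ph (fun t => W t ω) g ε u₁ + κ) →
                ph (fun t => W t ω) g ε u₁ ≤ ph (fun t => W t ω) g ε u₂ →
                ENNReal.ofReal (Real.exp (c₁ * lk (fun t => W t ω) g α ((t : ℝ) - 1))) *
                    (1 + (if ω ∈ Bd t then ENNReal.ofReal (Real.exp β) else 0)) ≤
                  ENNReal.ofReal (C * (s * e * Real.exp κ) ^ p) * Y α (t + 1 - α)) := by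
  obtain ⟨ε₀, hε₀, hε₁, hst⟩ := stretch3 (μ := μ) ha hb hc hK hC
  refine ⟨ε₀, hε₀, hε₁, fun ε hε hεe => ?_⟩
  obtain ⟨C, c₁, p, y, hC1, hc₁, hy, hst⟩ := hst ε hε hεe
  refine ⟨2 * C, c₁, p, by linarith, hc₁, fun W hW β v D Bd hβ hBm hBp => ?_⟩
  have hBp' : ∀ j, μ (Bd j) ≤ ENNReal.ofReal (Real.exp (-β)) := fun j =>
    (hBp j).trans (ENNReal.ofReal_le_ofReal (Real.exp_le_exp.2 (by linarith)))
  have hBm' : ∀ j : ℕ, MeasurableSet (Bd j) := fun j => (Blk_le hW.toDrv _ _) _ (hBm j)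
  have hYs : ∀ α : ℕ, ∃ Y : ℕ → Ω → ℝ≥0∞, (∀ t : ℕ, Measurable[Blk W α ((α : ℝ) + t)] (Y t)) ∧
      (∀ N : ℕ, ∑ t ∈ Finset.range N, ∫⁻ ω, Y (t + 1) ω ∂μ ≤ 1) ∧
      ∀ (ω : Ω) (t : ℕ) (z : ℂ) (g : ℝ → ℂ) (u₁ u₂ s e κ : ℝ), 1 ≤ t →
        u₁ ∈ Set.Icc (0 : ℝ) ((t : ℝ) - 1) → u₂ ∈ Set.Icc (t : ℝ) ((t : ℝ) + 1) →
        1 ≤ s → 1 ≤ e → 0 ≤ κ → 1 ≤ ‖z‖ → ‖z‖ ≤ s → Sol (fun t => subP W α 1 t ω) z u₂ g →
        1 ≤ ‖g u₁ - subP W α 1 u₁ ω‖ →
        (∀ u ∈ Set.Icc ((t : ℝ) - 1) t, ‖g u - subP W α 1 u ω‖ ≤ e) →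
        (∀ u ∈ Set.Icc (0 : ℝ) u₂, ph (fun t => subP W α 1 t ω) g ε u ≤
          ph (fun t => subP W α 1 t ω) g ε u₁ + κ) →
        ph (fun t => subP W α 1 t ω) g ε u₁ ≤ ph (fun t => subP W α 1 t ω) g ε u₂ →
        ENNReal.ofReal (Real.exp (c₁ * lk (fun t => subP W α 1 t ω) g 0 ((t : ℝ) - 1))) *
          TCCPR.cw β (Bd (α + t)) ω ≤
          ENNReal.ofReal (C * (s * e * Real.exp κ) ^ p) * Y (t + 1) ω := by
    intro α
    have hα0 : (0 : ℝ) ≤ α := Nat.cast_nonneg α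
    have hm1 : ∀ τ : ℕ, Measurable[Blk (subP W α 1) τ ((τ : ℝ) + 1)]
        (TCCPR.cw β (Bd (α + τ))) := by
      intro τ
      refine TCCPR.cw_meas β ?_
      have h4 := Blk_sub_ge (W := W) (τ := (τ : ℝ)) (τ' := (τ : ℝ) + 1) hα0
        (Nat.cast_nonneg τ) (by linarith)
      have h5 := hBm (α + τ)
      rw [Nat.cast_add, add_assoc] at h5
      exact h4 _ h5
    obtain ⟨Y, h1, h2, h3⟩ := hst (subP W α 1) (hW.subP hα0 one_pos)
      (fun τ => TCCPR.cw β (Bd (α + τ))) hm1 (fun τ => TCCPR.cw_int (hBm' _) (hBp _))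
    refine ⟨Y, fun t => ?_, fun N => ?_, h3⟩
    · have h4 := Blk_sub_le (W := W) hα0 one_pos (t : ℝ)
      rw [one_pow, one_mul] at h4
      exact (h1 t).mono h4 le_rfl
    · exact (Finset.sum_le_sum fun t _ => h2 (t + 1)).trans (hy N)
  choose Ys hYm hYs hYp using hYs
  obtain ⟨A, hAm, hAp, hA⟩ := chain hW.toDrv D hβ v Ys hYm hYs Bd hBm hBp'
  refine ⟨A, hAm, hAp, fun ω hω => ?_⟩
  obtain ⟨R, hR0, hR, hRb⟩ := hA ω hω
  refine ⟨R, fun α t => Ys α t ω, hR0, hR, hRb, ?_⟩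
  intro α t z g u₁ u₂ s e κ hαt hu₁ hu₂ hs he hκ hg hZ1 hZs hZu hZe hmax hle
  have hU : Continuous fun t => W t ω := hW.toDrv.cont ω
  have hα0 : (0 : ℝ) ≤ α := Nat.cast_nonneg α
  have hαt1 : (α : ℝ) + 1 ≤ t := by exact_mod_cast hαt
  have hcst : ((t - α : ℕ) : ℝ) = (t : ℝ) - α := Nat.cast_sub hαt.le
  obtain ⟨hu₁a, hu₁b⟩ := hu₁
  obtain ⟨hu₂a, hu₂b⟩ := hu₂
  have hαu₂ : (α : ℝ) ≤ u₂ := by linarith
  have hsol : Sol (fun t => subP W α 1 t ω) ((1 : ℝ)⁻¹ • (g α - W α ω)) (u₂ - α)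
      (gs (fun t => W t ω) g α 1) := by
    have h1 := hg.shift hα0 hαu₂ one_pos
    have h2 : (u₂ - α) / (1 : ℝ) ^ 2 = u₂ - α := by rw [one_pow, div_one]
    rw [h2] at h1
    exact h1
  have hph : ∀ u : ℝ, α ≤ u → u ≤ u₂ →
      ph (fun t => subP W α 1 t ω) (gs (fun t => W t ω) g α 1) ε (u - α) =
        ph (fun t => W t ω) g ε u -
          (∫ v in (0 : ℝ)..α, kk 1 ε (g v - W v ω)) + Real.log 1 := by
    intro u hu hu'
    have h1 := ph_shift hU (ε := ε) hα0 hαu₂ one_pos hg (τ := u - α) (by linarith)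
      (by rw [one_pow, one_mul]; linarith)
    rw [one_pow, one_mul, add_sub_cancel] at h1
    exact h1
  have hsh : ∀ u : ℝ, α ≤ u → gs (fun t => W t ω) g α 1 (u - α) - subP W α 1 (u - α) ω =
      g u - W u ω := by
    intro u hu
    have h1 := TCCPR.shift_eq (fun t => W t ω) g α (u := u - α) (by linarith)
    rw [add_sub_cancel] at h1
    exact h1
  have hlk : lk (fun t => subP W α 1 t ω) (gs (fun t => W t ω) g α 1) 0
      (((t - α : ℕ) : ℝ) - 1) = lk (fun t => W t ω) g α ((t : ℝ) - 1) := by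
    have h1 := lk_shift hU hα0 hαu₂ one_pos hg (τ := 0) (τ' := ((t - α : ℕ) : ℝ) - 1) le_rfl
      (by rw [hcst]; linarith) (by rw [hcst, one_pow, one_mul]; linarith)
    rw [hcst, one_pow, one_mul, one_mul, add_zero] at h1
    rw [hcst]
    refine h1.trans ?_
    congr 1
    ring
  have key := hYp α ω (t - α) ((1 : ℝ)⁻¹ • (g α - W α ω)) (gs (fun t => W t ω) g α 1)
    (u₁ - α) (u₂ - α) s e κ (by omega) ⟨by linarith, by rw [hcst]; linarith⟩
    ⟨by rw [hcst]; linarith, by rw [hcst]; linarith⟩ hs he hκ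
    (by rwa [inv_one, one_smul]) (by rwa [inv_one, one_smul]) ?_ ?_ ?_ ?_ ?_
  · rw [hlk, show α + (t - α) = t by omega, show t - α + 1 = t + 1 - α by omega] at key
    have h2 : ∀ x : ℝ≥0∞, 2 * (2⁻¹ * x) = x := fun x => by
      rw [← mul_assoc, ENNReal.mul_inv_cancel (by norm_num) (by norm_num), one_mul]
    have h3 : ENNReal.ofReal (2 * C * (s * e * Real.exp κ) ^ p) =
        2 * ENNReal.ofReal (C * (s * e * Real.exp κ) ^ p) := by
      rw [mul_assoc, ENNReal.ofReal_mul (by norm_num)]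
      norm_num
    rw [h3, mul_assoc]
    refine le_trans (le_of_eq ?_) (mul_le_mul_right key 2)
    unfold TCCPR.cw
    rw [mul_left_comm, h2]
  · exact hsol
  · rw [hsh u₁ hu₁a]
    exact hZu
  · intro u hu
    rw [hcst] at hu
    have h1 := hsh (u + α) (by linarith [hu.1])
    rw [add_sub_cancel_right] at h1
    rw [h1]
    exact hZe _ ⟨by linarith [hu.1], by linarith [hu.2]⟩
  · intro u hu
    have h1 := hph (u + α) (by linarith [hu.1]) (by linarith [hu.2])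
    rw [add_sub_cancel_right] at h1
    rw [h1, hph u₁ hu₁a (by linarith)]
    have h2 := hmax (u + α) ⟨by linarith [hu.1], by linarith [hu.2]⟩
    linarith
  · rw [hph u₁ hu₁a (by linarith), hph u₂ hαu₂ le_rfl]
    linarith

end

end Pool.Agent.SLE
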