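import Pool.Agent.Lib.MP_c17912_pr_TR.SGN

/-!
# MP_c17912_pr, project TC: correctors, elementary part

Everything is stated for a smooth positive `π`-periodic density `ρ` with
`V / 2 * ρ' + 2 sin (2 x) ρ = κ` and the solvability `hP` of the Poisson equation of the angle
(fields of `AngP`).
-/

set_option autoImplicit false

open MeasureTheory ProbabilityTheory Filter
open scoped NNReal ENNReal Topology Real

namespace Pool.Agent.SLE

noncomputable section

namespace TCCR

open TRSGN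

/-- A nonnegative continuous `π`-periodic function with integral zero vanishes. -/
theorem zero_of_int {F : ℝ → ℝ} (hF : Continuous F) (hp : Function.Periodic F π)
    (h0 : ∀ x, 0 ≤ F x) (hi : ∫ x in (0 : ℝ)..π, F x = 0) : ∀ x, F x = 0 := by
  have h1 : ∀ x ∈ Set.Icc (0 : ℝ) π, F x = 0 := by
    by_contra hne
    push Not at hne
    obtain ⟨x, hx, hxn⟩ := hne
    have hxp : 0 < F x := lt_of_le_of_ne (h0 x) (Ne.symm hxn)
    have : 0 < ∫ x in (0 : ℝ)..π, F x :=
      intervalIntegral.integral_pos Real.pi_pos hF.continuousOn (fun y _ => h0 y) ⟨x, hx, hxp⟩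
    linarith
  intro x
  obtain ⟨y, hy, hxy⟩ := hp.exists_mem_Ico₀ Real.pi_pos x
  rw [hxy]
  exact h1 y ⟨hy.1, hy.2.le⟩

/-- A nonnegative continuous `π`-periodic function which is positive somewhere has a positive
integral. -/
theorem int_pos {F : ℝ → ℝ} (hF : Continuous F) (hp : Function.Periodic F π)
    (h0 : ∀ x, 0 ≤ F x) {x₀ : ℝ} (hx : 0 < F x₀) : 0 < ∫ x in (0 : ℝ)..π, F x := by
  have h1 : 0 ≤ ∫ x in (0 : ℝ)..π, F x :=
    intervalIntegral.integral_nonneg Real.pi_pos.le (fun y _ => h0 y)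
  rcases h1.lt_or_eq with h | h
  · exact h
  · have := zero_of_int hF hp h0 h.symm x₀
    linarith

/-- The mean of `cos (2 θ)` under the stationary density of the angle is positive. -/
theorem cos_pos {a b c κ : ℝ} (ha : 0 ≤ a) (hb : 0 ≤ b) (hc : c ^ 2 ≤ a * b) {ρ : ℝ → ℝ}
    (hs : ∀ n : ℕ, ContDiff ℝ n ρ) (hp : Function.Periodic ρ π) (hpos : ∀ x, 0 < ρ x)
    (hκ : ∀ x, Vth a b c x / 2 * deriv ρ x + 2 * Real.sin (2 * x) * ρ x = κ) :
    0 < ∫ x in (0 : ℝ)..π, Real.cos (2 * x) * ρ x := by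
  have hV0 : ∀ x, 0 ≤ Vth a b c x := by
    intro x
    unfold Vth
    generalize Real.sin x = s
    generalize Real.cos x = t
    rcases ha.eq_or_lt with h | h
    · have hc0 : c = 0 := by
        rw [← h, zero_mul] at hc
        exact pow_eq_zero_iff (two_ne_zero) |>.1 (le_antisymm hc (sq_nonneg c))
      rw [← h, hc0]
      nlinarith [mul_nonneg hb (sq_nonneg t)]
    · have e : a * (a * s ^ 2 - 2 * c * (s * t) + b * t ^ 2)
          = (a * s - c * t) ^ 2 + (a * b - c ^ 2) * t ^ 2 := by ring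
      have h2 : 0 ≤ a * (a * s ^ 2 - 2 * c * (s * t) + b * t ^ 2) := by
        rw [e]
        have : 0 ≤ (a * b - c ^ 2) * t ^ 2 := mul_nonneg (by linarith) (sq_nonneg t)
        positivity
      exact nonneg_of_mul_nonneg_right h2 h
  have hρc : Continuous ρ := (hs 0).continuous
  have hdc : Continuous (deriv ρ) := (sm_deriv hs 0).continuous
  have hVc : Continuous (Vth a b c) := (V_smooth a b c 0).continuous
  have hd : ∀ x, HasDerivAt ρ (deriv ρ x) x := hd hs
  have hdp : Function.Periodic (deriv ρ) π := by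
    intro x
    have h := (hd (x + π)).comp_add_const x π
    have e : (fun y => ρ (y + π)) = ρ := funext hp
    rw [e] at h
    exact h.unique (hd x)
  -- the quadratic term
  obtain ⟨Q, hQ⟩ : ∃ Q : ℝ → ℝ, Q = fun x => Vth a b c x / 2 * (deriv ρ x ^ 2 / ρ x) := ⟨_, rfl⟩
  have hQc : Continuous Q := by
    rw [hQ]
    exact (hVc.div_const 2).mul ((hdc.pow 2).div hρc (fun x => (hpos x).ne'))
  have hQp : Function.Periodic Q π := by
    intro x
    rw [hQ]
    simp only
    rw [V_per a b c x, hdp x, hp x]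
  have hQ0 : ∀ x, 0 ≤ Q x := by
    intro x
    rw [hQ]
    have h1 := hV0 x
    have h2 := hpos x
    simp only
    positivity
  -- the derivative of log
  have hlog : ∀ x, HasDerivAt (fun y => Real.log (ρ y)) (deriv ρ x / ρ x) x := fun x =>
    (hd x).log (hpos x).ne'
  have hlogc : Continuous (fun x => deriv ρ x / ρ x) := hdc.div hρc (fun x => (hpos x).ne')
  have hI1 : ∫ x in (0 : ℝ)..π, deriv ρ x / ρ x = 0 := by
    rw [intervalIntegral.integral_eq_sub_of_hasDerivAt (fun x _ => hlog x)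
      (hlogc.intervalIntegrable _ _)]
    have := hp 0
    rw [zero_add] at this
    simp only [this, sub_self]
  -- the product
  have hsin : ∀ x : ℝ, HasDerivAt (fun y : ℝ => 2 * Real.sin (2 * y)) (4 * Real.cos (2 * x)) x := by
    intro x
    have h0 : HasDerivAt (fun x : ℝ => 2 * x) 2 x := by
      simpa using (hasDerivAt_id x).const_mul (2 : ℝ)
    refine (h0.sin.const_mul 2).congr_deriv ?_
    ring
  have hcc : Continuous fun x : ℝ => Real.cos (2 * x) := by fun_prop
  have hsc : Continuous fun x : ℝ => 2 * Real.sin (2 * x) := by fun_prop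
  have hI2 : ∫ x in (0 : ℝ)..π, (4 * Real.cos (2 * x) * ρ x + 2 * Real.sin (2 * x) * deriv ρ x)
      = 0 := by
    rw [intervalIntegral.integral_eq_sub_of_hasDerivAt (f := fun x => 2 * Real.sin (2 * x) * ρ x)
      (fun x _ => (hsin x).mul (hd x))
      ((((continuous_const.mul hcc).mul hρc).add (hsc.mul hdc)).intervalIntegrable _ _)]
    simp
  have hkey : ∫ x in (0 : ℝ)..π, (4 * (Real.cos (2 * x) * ρ x) - Q x) = 0 := by
    have e : ∀ x, 4 * (Real.cos (2 * x) * ρ x) - Q x
        = (4 * Real.cos (2 * x) * ρ x + 2 * Real.sin (2 * x) * deriv ρ x)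
          - κ * (deriv ρ x / ρ x) := by
      intro x
      rw [hQ, ← hκ x]
      have := (hpos x).ne'
      field_simp
      ring
    simp_rw [e]
    have hA : Continuous fun x =>
        4 * Real.cos (2 * x) * ρ x + 2 * Real.sin (2 * x) * deriv ρ x :=
      ((continuous_const.mul hcc).mul hρc).add (hsc.mul hdc)
    have hB : Continuous fun x => κ * (deriv ρ x / ρ x) := continuous_const.mul hlogc
    rw [int_sub hA hB, hI2, intervalIntegral.integral_const_mul, hI1]
    ring
  have hD : Continuous fun x => 4 * (Real.cos (2 * x) * ρ x) :=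
    continuous_const.mul (hcc.mul hρc)
  rw [int_sub hD hQc, intervalIntegral.integral_const_mul] at hkey
  have hQi : 0 ≤ ∫ x in (0 : ℝ)..π, Q x :=
    intervalIntegral.integral_nonneg Real.pi_pos.le (fun y _ => hQ0 y)
  rcases hQi.lt_or_eq with h | h
  · linarith
  · exfalso
    have hz := zero_of_int hQc hQp hQ0 h.symm
    have hz2 : ∀ x, Vth a b c x / 2 * deriv ρ x = 0 := by
      intro x
      have h1 := hz x
      rw [hQ] at h1
      simp only at h1
      rcases mul_eq_zero.1 h1 with h2 | h2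
      · rw [h2, zero_mul]
      · rcases div_eq_zero_iff.1 h2 with h3 | h3
        · rw [pow_eq_zero_iff two_ne_zero] at h3
          rw [h3, mul_zero]
        · exact absurd h3 (hpos x).ne'
    have e0 := hκ 0
    have e1 := hκ (π / 4)
    rw [hz2, zero_add] at e0 e1
    have s0 : Real.sin (2 * (0 : ℝ)) = 0 := by simp
    have s1 : Real.sin (2 * (π / 4)) = 1 := by
      rw [show 2 * (π / 4) = π / 2 by ring, Real.sin_pi_div_two]
    rw [s0] at e0
    rw [s1] at e1
    have := hpos (π / 4)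
    linarith

/-- Positivity of the variance of the angle. -/
theorem V_nn {a b c : ℝ} (ha : 0 ≤ a) (hb : 0 ≤ b) (hc : c ^ 2 ≤ a * b) (p q : ℝ) :
    0 ≤ a * p ^ 2 + 2 * c * (p * q) + b * q ^ 2 := by
  rcases ha.eq_or_lt with h | h
  · have hc0 : c = 0 := by
      rw [← h, zero_mul] at hc
      exact pow_eq_zero_iff (two_ne_zero) |>.1 (le_antisymm hc (sq_nonneg c))
    rw [← h, hc0]
    nlinarith [mul_nonneg hb (sq_nonneg q)]
  · have e : a * (a * p ^ 2 + 2 * c * (p * q) + b * q ^ 2)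
        = (a * p + c * q) ^ 2 + (a * b - c ^ 2) * q ^ 2 := by ring
    have h2 : 0 ≤ a * (a * p ^ 2 + 2 * c * (p * q) + b * q ^ 2) := by
      rw [e]
      have : 0 ≤ (a * b - c ^ 2) * q ^ 2 := mul_nonneg (by linarith) (sq_nonneg q)
      positivity
    exact nonneg_of_mul_nonneg_right h2 h

/-- The quadratic variation of `log |z| + φ (arg z)` (multiplied by `|z| ^ 2`), with `p = φ'`. -/
def Qv (a b c p θ : ℝ) : ℝ := Vr a b c θ + 2 * p * Cv a b c θ + p ^ 2 * Vth a b c θ

theorem Qv_eq (a b c p θ : ℝ) : Qv a b c p θ =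
    a * (Real.cos θ - p * Real.sin θ) ^ 2 +
      2 * c * ((Real.cos θ - p * Real.sin θ) * (Real.sin θ + p * Real.cos θ)) +
      b * (Real.sin θ + p * Real.cos θ) ^ 2 := by
  unfold Qv Vr Cv Vth
  rw [Real.sin_two_mul, Real.cos_two_mul']
  ring

theorem Qv_nn {a b c : ℝ} (ha : 0 ≤ a) (hb : 0 ≤ b) (hc : c ^ 2 ≤ a * b) (p θ : ℝ) :
    0 ≤ Qv a b c p θ := by
  rw [Qv_eq]
  exact V_nn ha hb hc _ _

theorem Vth_nn {a b c : ℝ} (ha : 0 ≤ a) (hb : 0 ≤ b) (hc : c ^ 2 ≤ a * b) (θ : ℝ) :
    0 ≤ Vth a b c θ := by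
  have h := V_nn ha hb hc (-Real.sin θ) (Real.cos θ)
  unfold Vth
  nlinarith

/-- There is an angle at which the quadratic variation is positive for all `p`. -/
theorem Qv_pos {a b c : ℝ} (ha : 0 ≤ a) (hb : 0 ≤ b) (hc : c ^ 2 ≤ a * b) (hab : 0 < a + b) :
    ∃ θ : ℝ, ∀ p, 0 < Qv a b c p θ := by
  obtain ⟨w, hw⟩ : ∃ w : ℂ, w = ⟨(a - b) / 2, c⟩ := ⟨_, rfl⟩
  refine ⟨w.arg / 2, fun p => ?_⟩
  have h1 := Complex.norm_mul_cos_arg w
  have h2 := Complex.norm_mul_sin_arg w
  have hre : w.re = (a - b) / 2 := by rw [hw]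
  have him : w.im = c := by rw [hw]
  rw [hre] at h1
  rw [him] at h2
  have h3 := Real.sin_sq_add_cos_sq w.arg
  have e2 : 2 * (w.arg / 2) = w.arg := by ring
  have hC : Cv a b c (w.arg / 2) = 0 := by
    unfold Cv
    rw [e2, ← h1, ← h2]
    ring
  have hc2 : Real.cos (w.arg / 2) ^ 2 = (1 + Real.cos w.arg) / 2 := by
    have := Real.cos_two_mul (w.arg / 2)
    rw [e2] at this
    linarith
  have hs2 : Real.sin (w.arg / 2) ^ 2 = (1 - Real.cos w.arg) / 2 := by
    have := Real.sin_sq_add_cos_sq (w.arg / 2)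
    linarith
  have hsc : Real.sin (w.arg / 2) * Real.cos (w.arg / 2) = Real.sin w.arg / 2 := by
    have := Real.sin_two_mul (w.arg / 2)
    rw [e2] at this
    linarith
  have hV : Vr a b c (w.arg / 2) = (a + b) / 2 + ‖w‖ := by
    unfold Vr
    rw [hc2, hs2, hsc]
    have : (a - b) / 2 * Real.cos w.arg + c * Real.sin w.arg = ‖w‖ := by
      rw [← h1, ← h2]
      have : ‖w‖ * Real.cos w.arg * Real.cos w.arg + ‖w‖ * Real.sin w.arg * Real.sin w.arg
          = ‖w‖ * (Real.sin w.arg ^ 2 + Real.cos w.arg ^ 2) := by ring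
      rw [this, h3, mul_one]
    linarith
  unfold Qv
  rw [hC, hV]
  have h4 := mul_nonneg (sq_nonneg p) (Vth_nn ha hb hc (w.arg / 2))
  have h5 := norm_nonneg w
  linarith

end TCCR

end

end Pool.Agent.SLE
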