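import Pool.Agent.Lib.MP_c17912_pr_TC.CRA

/-!
# MP_c17912_pr, project TC: correctors, the supermartingales of the critical case

* `PoiP a b c ρ`: `ρ` is the stationary density of the angle and the Poisson equation is solvable.
* `poiP_pd`: this holds for positive definite covariance matrices.
* `cr_lin`: for all small `q > 0` the strict supermartingale
  `|g'| ^ q |Z| ^ (s q) exp (q ψ) exp (q m clock)`, as soon as the mean
  of `s H1 - 2 cos (2 θ)` is negative.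
* `cr_quad`: in the critical case (`∫ H1 ρ = 0`) the submartingales `|Z| ^ y exp (y φ + y ^ 2 χ)`
  with generator at least `m y ^ 2`, for all small `y` of both signs.
-/

set_option autoImplicit false

open MeasureTheory ProbabilityTheory Filter
open scoped NNReal ENNReal Topology Real

namespace Pool.Agent.SLE

noncomputable section

/-- The stationary density of the angle and the Poisson equation. -/
structure PoiP (a b c : ℝ) (ρ : ℝ → ℝ) : Prop where
  smooth : ∀ n : ℕ, ContDiff ℝ n ρ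
  per : Function.Periodic ρ π
  pos : ∀ x, 0 < ρ x
  flux : ∃ κ : ℝ, ∀ x, Vth a b c x / 2 * deriv ρ x + 2 * Real.sin (2 * x) * ρ x = κ
  solve : ∀ G : ℝ → ℝ, (∀ n : ℕ, ContDiff ℝ n G) → Function.Periodic G π →
    ∫ x in (0 : ℝ)..π, G x * ρ x = 0 →
      ∃ ψ : ℝ → ℝ, (∀ n : ℕ, ContDiff ℝ n ψ) ∧ Function.Periodic ψ π ∧
        ∀ x, Vth a b c x * deriv (deriv ψ) x / 2 + Bth a b c x * deriv ψ x = G x

namespace TCCR

open TRSGN

theorem rho_int {ρ : ℝ → ℝ} (hs : ∀ n : ℕ, ContDiff ℝ n ρ) (hpos : ∀ x, 0 < ρ x) :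
    0 < ∫ x in (0 : ℝ)..π, ρ x :=
  intervalIntegral.intervalIntegral_pos_of_pos ((hs 0).continuous.intervalIntegrable _ _)
    hpos Real.pi_pos

/-- Solution of the Poisson equation for a function minus its mean. -/
theorem solve_mean {a b c : ℝ} {ρ : ℝ → ℝ} (h : PoiP a b c ρ) {G : ℝ → ℝ}
    (hG : ∀ n : ℕ, ContDiff ℝ n G) (hGp : Function.Periodic G π) :
    ∃ (m : ℝ) (ψ : ℝ → ℝ), m * (∫ x in (0 : ℝ)..π, ρ x) = (∫ x in (0 : ℝ)..π, G x * ρ x) ∧
      (∀ n : ℕ, ContDiff ℝ n ψ) ∧ Function.Periodic ψ π ∧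
      ∀ x, Vth a b c x * deriv (deriv ψ) x / 2 + Bth a b c x * deriv ψ x = G x - m := by
  have hJ := rho_int h.smooth h.pos
  have hρc : Continuous ρ := (h.smooth 0).continuous
  have hGc : Continuous G := (hG 0).continuous
  obtain ⟨m, hm⟩ : ∃ m : ℝ, m = (∫ x in (0 : ℝ)..π, G x * ρ x) / ∫ x in (0 : ℝ)..π, ρ x :=
    ⟨_, rfl⟩
  have hm2 : m * (∫ x in (0 : ℝ)..π, ρ x) = ∫ x in (0 : ℝ)..π, G x * ρ x := by
    rw [hm]
    exact div_mul_cancel₀ _ hJ.ne'
  obtain ⟨ψ, h1, h2, h3⟩ := h.solve (fun x => G x - m) (fun n => (hG n).sub contDiff_const)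
    (fun x => by
      change G (x + π) - m = G x - m
      rw [hGp x]) (by
      have e : ∀ x, (G x - m) * ρ x = G x * ρ x - m * ρ x := fun x => by ring
      simp_rw [e]
      have hA : Continuous fun x => G x * ρ x := hGc.mul hρc
      have hB : Continuous fun x => m * ρ x := continuous_const.mul hρc
      rw [int_sub hA hB, intervalIntegral.integral_const_mul, hm2, sub_self])
  exact ⟨m, ψ, hm2, h1, h2, h3⟩

theorem c2_smooth (n : ℕ) : ContDiff ℝ n fun x : ℝ => Real.cos (2 * x) := by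
  fun_prop

theorem c2_per : Function.Periodic (fun x : ℝ => Real.cos (2 * x)) π := by
  intro x
  simp only [mul_add]
  exact Real.cos_add_two_pi _

theorem Qv_bdd {a b c : ℝ} {p : ℝ → ℝ} {P : ℝ} (hp : ∀ x, |p x| ≤ P) (θ : ℝ) :
    |Qv a b c (p θ) θ| ≤ (|a| + |c| + |b|) * (1 + P) ^ 2 * 2 := by
  have hP : 0 ≤ P := (abs_nonneg _).trans (hp θ)
  rw [Qv_eq]
  have hs := Real.abs_sin_le_one θ
  have hc := Real.abs_cos_le_one θ
  have h1 : |Real.cos θ - p θ * Real.sin θ| ≤ 1 + P := by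
    refine (abs_sub _ _).trans (add_le_add hc ?_)
    rw [abs_mul]
    calc |p θ| * |Real.sin θ| ≤ P * 1 := mul_le_mul (hp θ) hs (abs_nonneg _) hP
      _ = P := mul_one P
  have h2 : |Real.sin θ + p θ * Real.cos θ| ≤ 1 + P := by
    refine (abs_add_le _ _).trans (add_le_add hs ?_)
    rw [abs_mul]
    calc |p θ| * |Real.cos θ| ≤ P * 1 := mul_le_mul (hp θ) hc (abs_nonneg _) hP
      _ = P := mul_one P
  generalize Real.cos θ - p θ * Real.sin θ = u at *
  generalize Real.sin θ + p θ * Real.cos θ = v at *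
  have hu : u ^ 2 ≤ (1 + P) ^ 2 := by
    rw [← sq_abs u]
    exact pow_le_pow_left₀ (abs_nonneg _) h1 2
  have hv : v ^ 2 ≤ (1 + P) ^ 2 := by
    rw [← sq_abs v]
    exact pow_le_pow_left₀ (abs_nonneg _) h2 2
  have huv : |u * v| ≤ (1 + P) ^ 2 := by
    rw [abs_mul, pow_two]
    exact mul_le_mul h1 h2 (abs_nonneg _) (by linarith)
  have g1 : |a * u ^ 2| ≤ |a| * (1 + P) ^ 2 := by
    rw [abs_mul, abs_of_nonneg (sq_nonneg u)]
    exact mul_le_mul_of_nonneg_left hu (abs_nonneg _)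
  have g2 : |b * v ^ 2| ≤ |b| * (1 + P) ^ 2 := by
    rw [abs_mul, abs_of_nonneg (sq_nonneg v)]
    exact mul_le_mul_of_nonneg_left hv (abs_nonneg _)
  have g3 : |2 * c * (u * v)| ≤ 2 * |c| * (1 + P) ^ 2 := by
    rw [abs_mul, abs_mul, abs_of_pos (by norm_num : (0 : ℝ) < 2)]
    exact mul_le_mul_of_nonneg_left huv (by positivity)
  have g4 := abs_add_three (a * u ^ 2) (2 * c * (u * v)) (b * v ^ 2)
  have g5 : 0 ≤ |a| * (1 + P) ^ 2 := by positivity
  have g6 : 0 ≤ |b| * (1 + P) ^ 2 := by positivity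
  nlinarith

end TCCR

/-- TC-CR3. For small `q > 0` the function `|g'| ^ q |Z| ^ (s q) exp (q ψ)` is a strict
supermartingale if the mean of `s H1 - 2 cos (2 θ)` is negative. -/
theorem cr_lin {a b c : ℝ} {ρ : ℝ → ℝ} (h : PoiP a b c ρ) {s : ℝ}
    (hneg : s * (∫ x in (0 : ℝ)..π, H1 a b c x * ρ x) <
      2 * ∫ x in (0 : ℝ)..π, Real.cos (2 * x) * ρ x) :
    ∃ (ψ : ℝ → ℝ) (m q₀ : ℝ), 0 < m ∧ 0 < q₀ ∧ (∀ n : ℕ, ContDiff ℝ n ψ) ∧
      Function.Periodic ψ π ∧ ∀ q : ℝ, 0 < q → q ≤ q₀ → ∀ θ,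
        Op a b c (s * q) (fun x => q * ψ x) θ - 2 * q * Real.cos (2 * θ) + q * m ≤ 0 := by
  obtain ⟨m, ψ, hm, hψs, hψp, hψ⟩ := TCCR.solve_mean h
    (G := fun x => 2 * Real.cos (2 * x) - s * H1 a b c x)
    (fun n => (contDiff_const.mul (TCCR.c2_smooth n)).sub
      (contDiff_const.mul (TRSGN.H_smooth a b c n)))
    (fun x => by
      change 2 * Real.cos (2 * (x + π)) - s * H1 a b c (x + π) =
        2 * Real.cos (2 * x) - s * H1 a b c x
      have e := TCCR.c2_per x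
      simp only at e
      rw [e, TRSGN.H_per a b c x])
  have hρc : Continuous ρ := (h.smooth 0).continuous
  have hHc : Continuous (H1 a b c) := (TRSGN.H_smooth a b c 0).continuous
  have hCc : Continuous fun x : ℝ => Real.cos (2 * x) := (TCCR.c2_smooth 0).continuous
  have hJ := TCCR.rho_int h.smooth h.pos
  have hm0 : 0 < m := by
    have e : ∀ x, (2 * Real.cos (2 * x) - s * H1 a b c x) * ρ x =
        2 * (Real.cos (2 * x) * ρ x) - s * (H1 a b c x * ρ x) := fun x => by ring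
    simp_rw [e] at hm
    have hA : Continuous fun x => 2 * (Real.cos (2 * x) * ρ x) :=
      continuous_const.mul (hCc.mul hρc)
    have hB : Continuous fun x => s * (H1 a b c x * ρ x) :=
      continuous_const.mul (hHc.mul hρc)
    rw [TRSGN.int_sub hA hB, intervalIntegral.integral_const_mul,
      intervalIntegral.integral_const_mul] at hm
    have : 0 < m * ∫ x in (0 : ℝ)..π, ρ x := by
      rw [hm]
      linarith
    exact (mul_pos_iff_of_pos_right hJ).1 this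
  have hψd : Continuous (deriv ψ) := (TRSGN.sm_deriv hψs 0).continuous
  have hdp : Function.Periodic (deriv ψ) (2 * π) := EXaux.per_deriv (TRSGN.per2 hψp)
  obtain ⟨P, hP⟩ := EXaux.bdd hψd hdp
  have hP0 : 0 ≤ P := (abs_nonneg _).trans (hP 0)
  -- the bound of the quadratic term
  obtain ⟨B, hB⟩ : ∃ B : ℝ, B = s ^ 2 * (|a| + 2 * |c| + |b|) +
      2 * |s| * P * (|(a - b) / 2| + |c|) + P ^ 2 * (|a| + 2 * |c| + |b|) := ⟨_, rfl⟩
  have hB0 : 0 ≤ B := by
    rw [hB]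
    positivity
  have hVr : ∀ θ, |Vr a b c θ| ≤ |a| + 2 * |c| + |b| := by
    intro θ
    unfold Vr
    have h1 : Real.cos θ ^ 2 ≤ 1 := Real.cos_sq_le_one θ
    have h2 : Real.sin θ ^ 2 ≤ 1 := Real.sin_sq_le_one θ
    have h3 : |Real.sin θ * Real.cos θ| ≤ 1 := by
      rw [abs_mul]
      exact mul_le_one₀ (Real.abs_sin_le_one θ) (abs_nonneg _) (Real.abs_cos_le_one θ)
    have g := abs_add_three (a * Real.cos θ ^ 2) (2 * c * (Real.sin θ * Real.cos θ))
      (b * Real.sin θ ^ 2)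
    have g1 : |a * Real.cos θ ^ 2| ≤ |a| := by
      rw [abs_mul, abs_of_nonneg (sq_nonneg (Real.cos θ))]
      exact mul_le_of_le_one_right (abs_nonneg _) h1
    have g2 : |b * Real.sin θ ^ 2| ≤ |b| := by
      rw [abs_mul, abs_of_nonneg (sq_nonneg (Real.sin θ))]
      exact mul_le_of_le_one_right (abs_nonneg _) h2
    have g3 : |2 * c * (Real.sin θ * Real.cos θ)| ≤ 2 * |c| := by
      rw [abs_mul, abs_mul, abs_of_pos (by norm_num : (0 : ℝ) < 2)]
      exact mul_le_of_le_one_right (by positivity) h3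
    linarith
  have hVt : ∀ θ, |Vth a b c θ| ≤ |a| + 2 * |c| + |b| := by
    intro θ
    unfold Vth
    have h1 : Real.cos θ ^ 2 ≤ 1 := Real.cos_sq_le_one θ
    have h2 : Real.sin θ ^ 2 ≤ 1 := Real.sin_sq_le_one θ
    have h3 : |Real.sin θ * Real.cos θ| ≤ 1 := by
      rw [abs_mul]
      exact mul_le_one₀ (Real.abs_sin_le_one θ) (abs_nonneg _) (Real.abs_cos_le_one θ)
    have g := abs_add_three (a * Real.sin θ ^ 2) (-(2 * c * (Real.sin θ * Real.cos θ)))
      (b * Real.cos θ ^ 2)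
    have g1 : |a * Real.sin θ ^ 2| ≤ |a| := by
      rw [abs_mul, abs_of_nonneg (sq_nonneg (Real.sin θ))]
      exact mul_le_of_le_one_right (abs_nonneg _) h2
    have g2 : |b * Real.cos θ ^ 2| ≤ |b| := by
      rw [abs_mul, abs_of_nonneg (sq_nonneg (Real.cos θ))]
      exact mul_le_of_le_one_right (abs_nonneg _) h1
    have g3 : |-(2 * c * (Real.sin θ * Real.cos θ))| ≤ 2 * |c| := by
      rw [abs_neg, abs_mul, abs_mul, abs_of_pos (by norm_num : (0 : ℝ) < 2)]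
      exact mul_le_of_le_one_right (by positivity) h3
    rw [← sub_eq_add_neg] at g
    linarith
  have hCv : ∀ θ, |Cv a b c θ| ≤ |(a - b) / 2| + |c| := by
    intro θ
    unfold Cv
    refine (abs_add_le _ _).trans ?_
    rw [abs_neg, abs_mul, abs_mul c]
    exact add_le_add (mul_le_of_le_one_right (abs_nonneg _) (Real.abs_sin_le_one _))
      (mul_le_of_le_one_right (abs_nonneg _) (Real.abs_cos_le_one _))
  obtain ⟨q₀, hq₀⟩ : ∃ q₀ : ℝ, q₀ = m / (B + 1) := ⟨_, rfl⟩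
  obtain ⟨m', hm'⟩ : ∃ m' : ℝ, m' = m / 2 := ⟨_, rfl⟩
  have hq₀' : 0 < q₀ := by
    rw [hq₀]
    positivity
  refine ⟨ψ, m', q₀, by rw [hm']; linarith, hq₀', hψs, hψp, fun q hq hqq θ => ?_⟩
  have d1 : deriv (fun x => q * ψ x) = fun x => q * deriv ψ x := by
    funext x
    exact ((TRSGN.hd hψs x).const_mul q).deriv
  have d2 : deriv (fun x => q * deriv ψ x) θ = q * deriv (deriv ψ) θ :=
    ((TRSGN.hd (TRSGN.sm_deriv hψs) θ).const_mul q).deriv
  unfold Op
  rw [d1]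
  simp only
  rw [d2]
  have e := hψ θ
  have hq2 : q * (B + 1) ≤ m := by
    have := mul_le_mul_of_nonneg_right hqq (by positivity : 0 ≤ B + 1)
    rwa [hq₀, div_mul_cancel₀ _ (by positivity : B + 1 ≠ 0)] at this
  have b1 : s ^ 2 * Vr a b c θ ≤ s ^ 2 * (|a| + 2 * |c| + |b|) :=
    mul_le_mul_of_nonneg_left ((le_abs_self _).trans (hVr θ)) (sq_nonneg s)
  have b2 : 2 * s * deriv ψ θ * Cv a b c θ ≤ 2 * |s| * P * (|(a - b) / 2| + |c|) := by
    refine (le_abs_self _).trans ?_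
    rw [abs_mul, abs_mul, abs_mul, abs_of_pos (by norm_num : (0 : ℝ) < 2)]
    exact mul_le_mul (mul_le_mul_of_nonneg_left (hP θ) (by positivity)) (hCv θ) (abs_nonneg _)
      (by positivity)
  have b3 : deriv ψ θ ^ 2 * Vth a b c θ ≤ P ^ 2 * (|a| + 2 * |c| + |b|) := by
    have h1 : deriv ψ θ ^ 2 ≤ P ^ 2 := by
      rw [← sq_abs (deriv ψ θ)]
      exact pow_le_pow_left₀ (abs_nonneg _) (hP θ) 2
    refine (le_abs_self _).trans ?_
    rw [abs_mul, abs_of_nonneg (sq_nonneg (deriv ψ θ))]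
    exact mul_le_mul h1 (hVt θ) (abs_nonneg _) (by positivity)
  have b4 : s ^ 2 * Vr a b c θ + 2 * s * deriv ψ θ * Cv a b c θ +
      deriv ψ θ ^ 2 * Vth a b c θ ≤ B := by
    rw [hB]
    linarith
  have e2 : Vth a b c θ * (q * deriv (deriv ψ) θ) / 2 + Bth a b c θ * (q * deriv ψ θ) +
      s * q * H1 a b c θ +
      ((s * q) ^ 2 * Vr a b c θ + 2 * (s * q) * (q * deriv ψ θ) * Cv a b c θ +
        (q * deriv ψ θ) ^ 2 * Vth a b c θ) / 2 - 2 * q * Real.cos (2 * θ) + q * m' =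
      q * ((Vth a b c θ * deriv (deriv ψ) θ / 2 + Bth a b c θ * deriv ψ θ) + s * H1 a b c θ -
        2 * Real.cos (2 * θ) + m / 2 + q * (s ^ 2 * Vr a b c θ +
          2 * s * deriv ψ θ * Cv a b c θ + deriv ψ θ ^ 2 * Vth a b c θ) / 2) := by
    rw [hm']
    ring
  rw [e2, e]
  refine mul_nonpos_of_nonneg_of_nonpos hq.le ?_
  have b5 : q * (s ^ 2 * Vr a b c θ + 2 * s * deriv ψ θ * Cv a b c θ +
      deriv ψ θ ^ 2 * Vth a b c θ) ≤ q * (B + 1) :=
    mul_le_mul_of_nonneg_left (by linarith) hq.le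
  linarith

/-- TC-CR2. In the critical case the functions `|z| ^ y exp (y φ + y ^ 2 χ)` are strict
submartingales for all small `y ≠ 0`. -/
theorem cr_quad {a b c : ℝ} (ha : 0 ≤ a) (hb : 0 ≤ b) (hc : c ^ 2 ≤ a * b) (hab : 0 < a + b)
    {ρ : ℝ → ℝ} (h : PoiP a b c ρ) (h0 : ∫ x in (0 : ℝ)..π, H1 a b c x * ρ x = 0) :
    ∃ (φ χ : ℝ → ℝ) (m y₀ : ℝ), 0 < m ∧ 0 < y₀ ∧ (∀ n : ℕ, ContDiff ℝ n φ) ∧
      Function.Periodic φ π ∧ (∀ n : ℕ, ContDiff ℝ n χ) ∧ Function.Periodic χ π ∧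
      (∀ θ, Vth a b c θ * deriv (deriv φ) θ / 2 + Bth a b c θ * deriv φ θ + H1 a b c θ = 0) ∧
      ∀ y : ℝ, |y| ≤ y₀ → ∀ θ, m * y ^ 2 ≤ Op a b c y (fun x => y * φ x + y ^ 2 * χ x) θ := by
  obtain ⟨φ, hφs, hφp, hφ⟩ := h.solve (fun x => -H1 a b c x)
    (fun n => (TRSGN.H_smooth a b c n).neg)
    (fun x => by
      change -H1 a b c (x + π) = -H1 a b c x
      rw [TRSGN.H_per a b c x]) (by
      have e : ∀ x, -H1 a b c x * ρ x = -(H1 a b c x * ρ x) := fun x => by ring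
      simp_rw [e]
      rw [intervalIntegral.integral_neg, h0, neg_zero])
  have hφd := TRSGN.sm_deriv hφs
  have hφdp : Function.Periodic (deriv φ) π := EXaux.per_deriv hφp
  obtain ⟨Q, hQ⟩ : ∃ Q : ℝ → ℝ, Q = fun x => TCCR.Qv a b c (deriv φ x) x / 2 := ⟨_, rfl⟩
  have hVrs : ∀ n : ℕ, ContDiff ℝ n (Vr a b c) := by
    intro n
    unfold Vr
    fun_prop
  have hQs : ∀ n : ℕ, ContDiff ℝ n Q := by
    intro n
    rw [hQ]
    exact (((hVrs n).add ((contDiff_const.mul (hφd n)).mul (TRSGN.C_smooth a b c n))).add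
      (((hφd n).pow 2).mul (TRSGN.V_smooth a b c n))).div_const 2
  have hQp : Function.Periodic Q π := by
    intro x
    rw [hQ]
    simp only
    unfold TCCR.Qv
    rw [hφdp x, TRSGN.R_per a b c x, TRSGN.C_per a b c x, TRSGN.V_per a b c x]
  have hQ0 : ∀ x, 0 ≤ Q x := by
    intro x
    rw [hQ]
    have := TCCR.Qv_nn ha hb hc (deriv φ x) x
    simp only
    linarith
  obtain ⟨θ₀, hθ₀⟩ := TCCR.Qv_pos ha hb hc hab
  have hQ1 : 0 < Q θ₀ := by
    rw [hQ]
    have := hθ₀ (deriv φ θ₀)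
    simp only
    linarith
  obtain ⟨m, χ₀, hm, hχs, hχp, hχ⟩ := TCCR.solve_mean h hQs hQp
  have hρc : Continuous ρ := (h.smooth 0).continuous
  have hJ := TCCR.rho_int h.smooth h.pos
  have hm0 : 0 < m := by
    have hpos : 0 < ∫ x in (0 : ℝ)..π, Q x * ρ x := by
      refine TCCR.int_pos ((hQs 0).continuous.mul hρc) ?_ ?_ (mul_pos hQ1 (h.pos θ₀))
      · intro x
        simp only
        rw [hQp x, h.per x]
      · intro x
        exact mul_nonneg (hQ0 x) (h.pos x).le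
    rw [← hm] at hpos
    exact (mul_pos_iff_of_pos_right hJ).1 hpos
  -- χ = - χ₀
  obtain ⟨χ, hχe⟩ : ∃ χ : ℝ → ℝ, χ = fun x => -χ₀ x := ⟨_, rfl⟩
  have hχs' : ∀ n : ℕ, ContDiff ℝ n χ := by
    intro n
    rw [hχe]
    exact (hχs n).neg
  have hχp' : Function.Periodic χ π := by
    intro x
    rw [hχe]
    simp only
    rw [hχp x]
  have hχd : deriv χ = fun x => -deriv χ₀ x := by
    funext x
    rw [hχe]
    exact (TRSGN.hd hχs x).neg.deriv
  have hχdd : ∀ x, deriv (deriv χ) x = -deriv (deriv χ₀) x := by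
    intro x
    rw [hχd]
    exact (TRSGN.hd (TRSGN.sm_deriv hχs) x).neg.deriv
  have hχ' : ∀ x, Vth a b c x * deriv (deriv χ) x / 2 + Bth a b c x * deriv χ x = m - Q x := by
    intro x
    have h1 := hχ x
    rw [hχdd, hχd]
    simp only
    linarith
  have hφp2 : Function.Periodic (deriv φ) (2 * π) := TRSGN.per2 hφdp
  obtain ⟨P, hP⟩ := EXaux.bdd (hφd 0).continuous hφp2
  have hP0 : 0 ≤ P := (abs_nonneg _).trans (hP 0)
  obtain ⟨P', hP'⟩ := EXaux.bdd (TRSGN.sm_deriv hχs' 0).continuous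
    (TRSGN.per2 (EXaux.per_deriv hχp'))
  have hP'0 : 0 ≤ P' := (abs_nonneg _).trans (hP' 0)
  obtain ⟨S, hS⟩ : ∃ S : ℝ, S = |a| + 2 * |c| + |b| := ⟨_, rfl⟩
  have hS0 : 0 ≤ S := by
    rw [hS]
    positivity
  have hVt : ∀ θ, |Vth a b c θ| ≤ S := by
    intro θ
    rw [hS]
    unfold Vth
    have h1 : Real.cos θ ^ 2 ≤ 1 := Real.cos_sq_le_one θ
    have h2 : Real.sin θ ^ 2 ≤ 1 := Real.sin_sq_le_one θ
    have h3 : |Real.sin θ * Real.cos θ| ≤ 1 := by
      rw [abs_mul]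
      exact mul_le_one₀ (Real.abs_sin_le_one θ) (abs_nonneg _) (Real.abs_cos_le_one θ)
    have g := abs_add_three (a * Real.sin θ ^ 2) (-(2 * c * (Real.sin θ * Real.cos θ)))
      (b * Real.cos θ ^ 2)
    have g1 : |a * Real.sin θ ^ 2| ≤ |a| := by
      rw [abs_mul, abs_of_nonneg (sq_nonneg (Real.sin θ))]
      exact mul_le_of_le_one_right (abs_nonneg _) h2
    have g2 : |b * Real.cos θ ^ 2| ≤ |b| := by
      rw [abs_mul, abs_of_nonneg (sq_nonneg (Real.cos θ))]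
      exact mul_le_of_le_one_right (abs_nonneg _) h1
    have g3 : |-(2 * c * (Real.sin θ * Real.cos θ))| ≤ 2 * |c| := by
      rw [abs_neg, abs_mul, abs_mul, abs_of_pos (by norm_num : (0 : ℝ) < 2)]
      exact mul_le_of_le_one_right (by positivity) h3
    rw [← sub_eq_add_neg] at g
    linarith
  obtain ⟨S', hS'⟩ : ∃ S' : ℝ, S' = |(a - b) / 2| + |c| := ⟨_, rfl⟩
  have hS'0 : 0 ≤ S' := by
    rw [hS']
    positivity
  have hCv : ∀ θ, |Cv a b c θ| ≤ S' := by
    intro θ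
    rw [hS']
    unfold Cv
    refine (abs_add_le _ _).trans ?_
    rw [abs_neg, abs_mul, abs_mul c]
    exact add_le_add (mul_le_of_le_one_right (abs_nonneg _) (Real.abs_sin_le_one _))
      (mul_le_of_le_one_right (abs_nonneg _) (Real.abs_cos_le_one _))
  obtain ⟨B, hB⟩ : ∃ B : ℝ, B = P' * S' + P * P' * S := ⟨_, rfl⟩
  have hB0 : 0 ≤ B := by
    rw [hB]
    positivity
  refine ⟨φ, χ, m / 2, m / (2 * (B + 1)), by linarith, by positivity, hφs, hφp, hχs', hχp',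
    fun θ => ?_, fun y hy θ => ?_⟩
  · have := hφ θ
    linarith
  have d1 : deriv (fun x => y * φ x + y ^ 2 * χ x) =
      fun x => y * deriv φ x + y ^ 2 * deriv χ x := by
    funext x
    exact (((TRSGN.hd hφs x).const_mul y).add ((TRSGN.hd hχs' x).const_mul (y ^ 2))).deriv
  have d2 : deriv (fun x => y * deriv φ x + y ^ 2 * deriv χ x) θ =
      y * deriv (deriv φ) θ + y ^ 2 * deriv (deriv χ) θ :=
    (((TRSGN.hd hφd θ).const_mul y).add
      ((TRSGN.hd (TRSGN.sm_deriv hχs') θ).const_mul (y ^ 2))).deriv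
  unfold Op
  rw [d1]
  simp only
  rw [d2]
  have e1 := hφ θ
  have e2 := hχ' θ
  have e3 : Q θ = (Vr a b c θ + 2 * deriv φ θ * Cv a b c θ +
      deriv φ θ ^ 2 * Vth a b c θ) / 2 := by
    rw [hQ]
    rfl
  have e4 : Vth a b c θ * (y * deriv (deriv φ) θ + y ^ 2 * deriv (deriv χ) θ) / 2 +
      Bth a b c θ * (y * deriv φ θ + y ^ 2 * deriv χ θ) + y * H1 a b c θ +
      (y ^ 2 * Vr a b c θ + 2 * y * (y * deriv φ θ + y ^ 2 * deriv χ θ) * Cv a b c θ +
        (y * deriv φ θ + y ^ 2 * deriv χ θ) ^ 2 * Vth a b c θ) / 2 =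
      y ^ 2 * (m + y * (deriv χ θ * Cv a b c θ + deriv φ θ * deriv χ θ * Vth a b c θ) +
        y ^ 2 * (deriv χ θ ^ 2 * Vth a b c θ) / 2) := by
    rw [e3] at e2
    linear_combination y * e1 + y ^ 2 * e2
  rw [e4]
  have b1 : |deriv χ θ * Cv a b c θ| ≤ P' * S' := by
    rw [abs_mul]
    exact mul_le_mul (hP' θ) (hCv θ) (abs_nonneg _) hP'0
  have b2 : |deriv φ θ * deriv χ θ * Vth a b c θ| ≤ P * P' * S := by
    rw [abs_mul, abs_mul]
    exact mul_le_mul (mul_le_mul (hP θ) (hP' θ) (abs_nonneg _) hP0) (hVt θ) (abs_nonneg _)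
      (by positivity)
  have b3 : |y * (deriv χ θ * Cv a b c θ + deriv φ θ * deriv χ θ * Vth a b c θ)| ≤ m / 2 := by
    rw [abs_mul]
    have b4 : |deriv χ θ * Cv a b c θ + deriv φ θ * deriv χ θ * Vth a b c θ| ≤ B + 1 := by
      refine (abs_add_le _ _).trans ?_
      rw [hB]
      linarith
    have b5 : |y| * |deriv χ θ * Cv a b c θ + deriv φ θ * deriv χ θ * Vth a b c θ| ≤
        m / (2 * (B + 1)) * (B + 1) :=
      mul_le_mul hy b4 (abs_nonneg _) (by positivity)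
    have b6 : m / (2 * (B + 1)) * (B + 1) = m / 2 := by
      field_simp
    linarith
  have b7 : 0 ≤ y ^ 2 * (deriv χ θ ^ 2 * Vth a b c θ) / 2 := by
    have := TCCR.Vth_nn ha hb hc θ
    positivity
  have b8 := neg_abs_le (y * (deriv χ θ * Cv a b c θ + deriv φ θ * deriv χ θ * Vth a b c θ))
  have b9 : m / 2 ≤ m + y * (deriv χ θ * Cv a b c θ + deriv φ θ * deriv χ θ * Vth a b c θ) +
        y ^ 2 * (deriv χ θ ^ 2 * Vth a b c θ) / 2 := by linarith
  calc m / 2 * y ^ 2 = y ^ 2 * (m / 2) := by ring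
    _ ≤ _ := mul_le_mul_of_nonneg_left b9 (sq_nonneg y)

/-- Positive definite covariance matrices. -/
theorem poiP_pd {a b c : ℝ} (ha : 0 < a) (hb : 0 < b) (hc : c ^ 2 < a * b) :
    PoiP a b c (dens a b c (-1)) := by
  obtain ⟨hs, hp, hpos, κ, hκ⟩ := dens_props ha hb hc (-1)
  obtain ⟨ρ, hρ⟩ : ∃ ρ : ℝ → ℝ, ρ = dens a b c (-1) := ⟨_, rfl⟩
  rw [← hρ] at hs hp hpos hκ ⊢
  have hκ' : ∀ x, Vth a b c x / 2 * deriv ρ x + 2 * Real.sin (2 * x) * ρ x = κ := by
    intro x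
    have := hκ x
    linarith
  refine ⟨hs, hp, hpos, ⟨κ, hκ'⟩, fun G hG hGp hGi => ?_⟩
  have hDs : ∀ n : ℕ, ContDiff ℝ n (fun x => Vth a b c x * ρ x / 2) := fun n =>
    ((TRSGN.V_smooth a b c n).mul (hs n)).div_const 2
  have hGs : ∀ n : ℕ, ContDiff ℝ n (fun x => G x * ρ x) := fun n => (hG n).mul (hs n)
  have hDp : Function.Periodic (fun x => Vth a b c x * ρ x / 2) π := by
    intro x
    change Vth a b c (x + π) * ρ (x + π) / 2 = Vth a b c x * ρ x / 2
    rw [TRSGN.V_per a b c x, hp x]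
  have hGp' : Function.Periodic (fun x => G x * ρ x) π := by
    intro x
    change G (x + π) * ρ (x + π) = G x * ρ x
    rw [hGp x, hp x]
  have hDpos : ∀ x, 0 < Vth a b c x * ρ x / 2 := fun x => by
    have i1 := Vth_pos ha hb hc x
    have i2 := hpos x
    positivity
  obtain ⟨ψ, hψs, hψp, hψ⟩ := pois_gen hDs hGs hDp hGp' hDpos hGi (-κ)
  refine ⟨ψ, hψs, hψp, fun x => ?_⟩
  have e := hψ x
  have hD' : deriv (fun x => Vth a b c x * ρ x / 2) x =
      (((a - b) * Real.sin (2 * x) - 2 * c * Real.cos (2 * x)) * ρ x +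
        Vth a b c x * deriv ρ x) / 2 :=
    (((TRSGN.V_deriv a b c x).mul (TRSGN.hd hs x)).div_const 2).deriv
  rw [hD'] at e
  have hk := hκ' x
  have hρx := hpos x
  have hB : Bth a b c x = -2 * Real.sin (2 * x) +
      ((a - b) * Real.sin (2 * x) - 2 * c * Real.cos (2 * x)) / 2 := rfl
  have key : ρ x * (Vth a b c x * deriv (deriv ψ) x / 2 + Bth a b c x * deriv ψ x) =
      ρ x * G x := by
    rw [hB]
    linear_combination e - deriv ψ x * hk
  exact mul_left_cancel₀ hρx.ne' key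

end

end Pool.Agent.SLE
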