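import Pool.Agent.Lib.MP_c17912_pr_TC.SHF

set_option autoImplicit false

open MeasureTheory ProbabilityTheory Filter
open scoped NNReal ENNReal Topology Real

namespace Pool.Agent.SLE

noncomputable section

private lemma TCCUT_low {U : ℝ → ℂ} {g : ℝ → ℂ} {j : ℕ} :
    low U g 1 j ↔ ∃ u ∈ Set.Icc (j : ℝ) ((j : ℝ) + 1), ‖g u - U u‖ ≤ 1 := by
  simp [low]

private lemma TCCUT_nlow {U : ℝ → ℂ} {g : ℝ → ℂ} {j : ℕ} (h : ¬ low U g 1 j) :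
    ∀ u ∈ Set.Icc (j : ℝ) ((j : ℝ) + 1), 1 ≤ ‖g u - U u‖ := by
  intro u hu
  by_contra h1
  exact h (TCCUT_low.2 ⟨u, hu, (not_le.1 h1).le⟩)

private lemma TCCUT_cell {α t : ℕ} (hαt : α < t) {u : ℝ} (hu : u ∈ Set.Icc (α : ℝ) t) :
    ∃ i, α ≤ i ∧ i < t ∧ u ∈ Set.Icc (i : ℝ) ((i : ℝ) + 1) := by
  have h0 : 0 ≤ u := le_trans (Nat.cast_nonneg α) hu.1
  rcases lt_or_eq_of_le hu.2 with h | h
  · exact ⟨⌊u⌋₊, Nat.le_floor hu.1, (Nat.floor_lt h0).2 h, Nat.floor_le h0,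
      (Nat.lt_floor_add_one u).le⟩
  · obtain ⟨i, rfl⟩ : ∃ i, t = i + 1 := ⟨t - 1, by omega⟩
    refine ⟨i, by omega, by omega, ?_, ?_⟩
    · rw [h]; push_cast; linarith
    · rw [h]; push_cast; exact le_refl _

private lemma TCCUT_osc {U : ℝ → ℂ} {m : ℝ} {N : ℕ} (hosc : Osc U 1 m N) {j : ℕ} (hj : j < N) :
    ∀ u ∈ Set.Icc (j : ℝ) ((j : ℝ) + 1), ∀ v ∈ Set.Icc (j : ℝ) ((j : ℝ) + 1),
      ‖U u - U v‖ ≤ m := by
  have := hosc j hj
  simpa using this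

/-- TC-CUT1. In an uncut stretch the maximum of `ph` over `[α,t]` is attained at a time with `|Z|
≥ 1`.

Proof. The maximum `M` over `[α,t]` is the maximum of the `pm j`, `α ≤ j < t` (`pm_spec`). Let
`j` be the
first cell with `pm j = M`. If it were low, then `j > α` (the cell `α` is not low) and `uncut`
would give
`i ∈ [α,j)` with `pm j < pm i`, a contradiction. So it is not low, and `|Z| > 1` on it. -/
theorem weak_flag {U : ℝ → ℂ} (hU : Continuous U) {z : ℂ} {g : ℝ → ℂ} {us ε : ℝ} {α t : ℕ}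
    (hαt : α < t) (ht : (t : ℝ) ≤ us) (hg : Sol U z us g) (hα : ¬ low U g 1 α)
    (hun : uncut U g ε α t) :
    ∃ u₁ ∈ Set.Icc (α : ℝ) t, 1 ≤ ‖g u₁ - U u₁‖ ∧
      ∀ u ∈ Set.Icc (α : ℝ) t, ph U g ε u ≤ ph U g ε u₁ := by
  obtain ⟨j, hj, hmax⟩ := Finset.exists_max_image (Finset.Ico α t) (fun i => pm U g ε i)
    ⟨α, Finset.mem_Ico.2 ⟨le_refl _, hαt⟩⟩
  rw [Finset.mem_Ico] at hj
  have hjt : (j : ℝ) + 1 ≤ us := by
    have h1 : ((j + 1 : ℕ) : ℝ) ≤ t := by exact_mod_cast hj.2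
    push_cast at h1
    linarith
  have hnl : ¬ low U g 1 j := by
    intro hl
    rcases eq_or_lt_of_le hj.1 with h | h
    · exact hα (h ▸ hl)
    · obtain ⟨i, hi1, hi2, hi3⟩ := hun j h hj.2 hl
      exact absurd (hmax i (Finset.mem_Ico.2 ⟨hi1, hi2.trans hj.2⟩)) (not_le.2 hi3)
  obtain ⟨⟨u₁, hu₁, he⟩, -⟩ := pm_spec (ε := ε) hU hg hjt
  have h2 : (α : ℝ) ≤ j := by exact_mod_cast hj.1
  have h3 : (j : ℝ) + 1 ≤ t := by exact_mod_cast hj.2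
  refine ⟨u₁, ⟨h2.trans hu₁.1, hu₁.2.trans h3⟩, TCCUT_nlow hnl u₁ hu₁, fun u hu => ?_⟩
  obtain ⟨i, hi1, hi2, hi3⟩ := TCCUT_cell hαt hu
  have h4 : (i : ℝ) + 1 ≤ t := by exact_mod_cast hi2
  have h5 := (pm_spec (ε := ε) hU hg (h4.trans ht)).2 u hi3
  rw [he]
  exact h5.trans (hmax i (Finset.mem_Ico.2 ⟨hi1, hi2⟩))

/-- TC-CUT2. The same with a time `u₁ ≤ t - 1`, up to an error.

Proof. Let `M` be the maximum of `ph` over `[α,t]`. Case 1: the cell `t-1` is not low. Then on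
`[t-1,t]`
`|Z| ≥ 1`, and `ph` varies by at most `4 + log e` (`ph_var`). If `t - 1 = α` take `u₁ = α`. If `t
- 1 > α`
and the maximum is attained in `[t-1,t]`, take `u₁ = t - 1` (`|Z_{t-1}| ≥ 1`, `ph (t-1) ≥ M - 4 -
log e`);
if it is attained in `[α,t-1]`: `weak_flag` for `t - 1` (`uncut` restricts) gives `u₁` with `ph
u₁ = M`.
Case 2: the cell `t-1` is low. Then `t - 1 > α` and by `uncut` `pm (t-1) < pm i` for some `i < t
- 1`, so the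
maximum over `[α,t]` is that over `[α,t-1]`; `weak_flag` for `t-1`. -/
theorem weak_flag2 {U : ℝ → ℂ} (hU : Continuous U) {z : ℂ} {g : ℝ → ℂ} {us ε e : ℝ} {α t : ℕ}
    (hε : 0 < ε) (hε2 : ε ≤ 2) (he : 1 ≤ e) (hαt : α < t) (ht : (t : ℝ) ≤ us)
    (hg : Sol U z us g) (hα : ¬ low U g 1 α) (hun : uncut U g ε α t)
    (he2 : ∀ u ∈ Set.Icc ((t : ℝ) - 1) t, ‖g u - U u‖ ≤ e) :
    ∃ u₁ ∈ Set.Icc (α : ℝ) ((t : ℝ) - 1), 1 ≤ ‖g u₁ - U u₁‖ ∧
      ∀ u ∈ Set.Icc (α : ℝ) t, ph U g ε u ≤ ph U g ε u₁ + (4 + Real.log e) := by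
  obtain ⟨k, rfl⟩ : ∃ k, t = k + 1 := ⟨t - 1, by omega⟩
  have hk : ((k + 1 : ℕ) : ℝ) - 1 = k := by push_cast; ring
  have hk1 : ((k + 1 : ℕ) : ℝ) = k + 1 := by push_cast; ring
  rw [hk] at he2 ⊢
  rw [hk1] at ht he2 ⊢
  have hL : 0 ≤ 4 + Real.log e := by linarith [Real.log_nonneg he]
  have hkα : α ≤ k := by omega
  have hkα' : (α : ℝ) ≤ k := by exact_mod_cast hkα
  have hun' : uncut U g ε α k := fun c h1 h2 h3 => hun c h1 (by omega) h3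
  by_cases hl : low U g 1 k
  · have hlt : α < k := by
      rcases eq_or_lt_of_le hkα with h | h
      · exact absurd (h ▸ hl) hα
      · exact h
    obtain ⟨i, hi1, hi2, hi3⟩ := hun k hlt (by omega) hl
    obtain ⟨u₁, hu₁, h1, h2⟩ := weak_flag (ε := ε) hU hlt (by linarith) hg hα hun'
    refine ⟨u₁, hu₁, h1, fun u hu => ?_⟩
    by_cases huk : u ≤ k
    · linarith [h2 u ⟨hu.1, huk⟩]
    · push Not at huk
      have hi4 : (i : ℝ) + 1 ≤ k := by exact_mod_cast hi2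
      have hi5 : (α : ℝ) ≤ i := by exact_mod_cast hi1
      obtain ⟨⟨v, hv, hve⟩, -⟩ := pm_spec (ε := ε) (j := i) hU hg (by linarith)
      have h3 := (pm_spec (ε := ε) (j := k) hU hg ht).2 u ⟨huk.le, hu.2⟩
      have h4 := h2 v ⟨hi5.trans hv.1, hv.2.trans hi4⟩
      linarith
  · have h1 := TCCUT_nlow hl
    have hvar : ∀ u ∈ Set.Icc (k : ℝ) ((k : ℝ) + 1),
        ph U g ε u ≤ ph U g ε k + (4 + Real.log e) := by
      intro u hu
      have h2 := ph_var (e := e) hU hε hε2 hg (u := (k : ℝ)) (v := u) (Nat.cast_nonneg k) hu.1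
        hu.2 (hu.2.trans ht) (fun τ hτ => h1 τ ⟨hτ.1, hτ.2.trans hu.2⟩)
        (fun τ hτ => he2 τ ⟨hτ.1, hτ.2.trans hu.2⟩)
      linarith [(abs_le.1 h2).2]
    rcases eq_or_lt_of_le hkα with h | h
    · subst h
      exact ⟨α, ⟨le_refl _, le_refl _⟩, h1 α ⟨le_refl _, by linarith⟩, hvar⟩
    · obtain ⟨u₁, hu₁, h2, h3⟩ := weak_flag (ε := ε) hU h (by linarith) hg hα hun'
      refine ⟨u₁, hu₁, h2, fun u hu => ?_⟩
      by_cases huk : u ≤ k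
      · linarith [h3 u ⟨hu.1, huk⟩]
      · push Not at huk
        linarith [hvar u ⟨huk.le, hu.2⟩, h3 k ⟨hkα', le_refl _⟩]

/-- TC-CUT3. The end of a stretch: if `ph us` is at least the maximum over `[α,t]`, then there is
a first
time `u₂ ∈ [t,us]` at which this maximum is reached again.

Proof. Let `M` be the maximum over `[α,t]`, `u₂` the infimum of the times in `[t,us]` with `M ≤ ph`
(continuity, `ph_cont`): `ph u₂ ≥ M`, and `ph ≤ M` on `[t,u₂]` (`ph < M` before `u₂`, and `ph u₂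
≤ M` by
continuity if `u₂ > t`; if `u₂ = t` then `ph t ≤ M`). Take `u₁` from `weak_flag2`. -/
theorem cut_flag {U : ℝ → ℂ} (hU : Continuous U) {z : ℂ} {g : ℝ → ℂ} {us ε e : ℝ} {α t : ℕ}
    (hε : 0 < ε) (hε2 : ε ≤ 2) (he : 1 ≤ e) (hαt : α < t) (ht : (t : ℝ) ≤ us)
    (hg : Sol U z us g) (hα : ¬ low U g 1 α) (hun : uncut U g ε α t)
    (he2 : ∀ u ∈ Set.Icc ((t : ℝ) - 1) t, ‖g u - U u‖ ≤ e)
    (hrec : ∀ u ∈ Set.Icc (α : ℝ) t, ph U g ε u ≤ ph U g ε us) :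
    ∃ u₁ ∈ Set.Icc (α : ℝ) ((t : ℝ) - 1), ∃ u₂ ∈ Set.Icc (t : ℝ) us, 1 ≤ ‖g u₁ - U u₁‖ ∧
      (∀ u ∈ Set.Icc (α : ℝ) u₂, ph U g ε u ≤ ph U g ε u₁ + (4 + Real.log e)) ∧
      ph U g ε u₁ ≤ ph U g ε u₂ := by
  obtain ⟨w, hw, -, hwm⟩ := weak_flag (ε := ε) hU hαt ht hg hα hun
  obtain ⟨u₁, hu₁, h1, h2⟩ := weak_flag2 hU hε hε2 he hαt ht hg hα hun he2
  have ht0 : (0 : ℝ) ≤ t := Nat.cast_nonneg t
  have hus : 0 ≤ us := ht0.trans ht
  have hαt' : (α : ℝ) ≤ t := by exact_mod_cast hαt.le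
  have hc : ContinuousOn (ph U g ε) (Set.Icc (t : ℝ) us) :=
    (ph_cont (ε := ε) hU hus hg).mono (Set.Icc_subset_Icc_left ht0)
  have hcl : IsClosed (Set.Icc (t : ℝ) us ∩ ph U g ε ⁻¹' Set.Ici (ph U g ε w)) :=
    hc.preimage_isClosed_of_isClosed isClosed_Icc isClosed_Ici
  have hco : IsCompact (Set.Icc (t : ℝ) us ∩ ph U g ε ⁻¹' Set.Ici (ph U g ε w)) :=
    isCompact_Icc.of_isClosed_subset hcl Set.inter_subset_left
  have hne : (Set.Icc (t : ℝ) us ∩ ph U g ε ⁻¹' Set.Ici (ph U g ε w)).Nonempty :=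
    ⟨us, ⟨ht, le_refl us⟩, hrec w hw⟩
  have hmem := hco.sInf_mem hne
  set u₂ := sInf (Set.Icc (t : ℝ) us ∩ ph U g ε ⁻¹' Set.Ici (ph U g ε w)) with hu₂
  have hle : ∀ x ∈ Set.Icc (t : ℝ) us, ph U g ε w ≤ ph U g ε x → u₂ ≤ x := fun x hx hx' =>
    csInf_le hco.bddBelow ⟨hx, hx'⟩
  have h3 : ph U g ε w ≤ ph U g ε u₂ := hmem.2
  have hall : ∀ u ∈ Set.Icc (α : ℝ) u₂, ph U g ε u ≤ ph U g ε w := by
    intro u hu
    by_cases hut : u ≤ t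
    · exact hwm u ⟨hu.1, hut⟩
    push Not at hut
    rcases lt_or_eq_of_le hu.2 with h | h
    · by_contra h4
      push Not at h4
      exact absurd (hle u ⟨hut.le, hu.2.trans hmem.1.2⟩ h4.le) (not_le.2 h)
    · subst h
      by_contra h4
      push Not at h4
      have h5 : ph U g ε t ≤ ph U g ε w := hwm t ⟨hαt', le_refl _⟩
      obtain ⟨c, hc1, hc2⟩ := intermediate_value_Icc hut.le
        (hc.mono (Set.Icc_subset_Icc_right hmem.1.2)) ⟨h5, h4.le⟩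
      have h6 := hle c ⟨hc1.1, hc1.2.trans hmem.1.2⟩ hc2.ge
      have h7 : c = u₂ := le_antisymm hc1.2 h6
      rw [h7] at hc2
      exact absurd hc2 (ne_of_gt h4)
  have hu₁t : u₁ ∈ Set.Icc (α : ℝ) t := ⟨hu₁.1, by linarith [hu₁.2]⟩
  refine ⟨u₁, hu₁, u₂, hmem.1, h1, fun u hu => ?_, ?_⟩
  · exact (hall u hu).trans (h2 w hw)
  · exact (hwm u₁ hu₁t).trans h3

/-- TC-CUT4. Bounds for `|Z|` at the start and near the end of a stretch.

Proof. (1) If `α > 0` and the cell `α - 1` is low: `cr_low` (TR/CRU) on `[α-1,α]`. (2) If the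
cell `t` is
low (inside `[0,us]`, `t + 1 ≤ us`): `|Z_t| ≤ m + 3` by `cr_low` on `[t,t+1]`; on `[t-1,t]`: if
the cell
`t-1` is low, `cr_low`; otherwise `|Z| ≥ 1` there and `cr_move` gives `|Z_u| ≤ |Z_t| + 2 + m`. -/
theorem cut_bounds {U : ℝ → ℂ} (hU : Continuous U) {z : ℂ} {g : ℝ → ℂ} {us m : ℝ}
    (hg : Sol U z us g) {N : ℕ} (hosc : Osc U 1 m N) :
    (∀ α : ℕ, 0 < α → α ≤ N → (α : ℝ) ≤ us → low U g 1 (α - 1) → ‖g α - U α‖ ≤ m + 3) ∧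
      (∀ t : ℕ, 0 < t → t < N → (t : ℝ) + 1 ≤ us → low U g 1 t →
        ∀ u ∈ Set.Icc ((t : ℝ) - 1) t, ‖g u - U u‖ ≤ 2 * m + 5) ∧
      ∀ t : ℕ, 0 < t → t ≤ N → (t : ℝ) ≤ us →
        ∀ u ∈ Set.Icc ((t : ℝ) - 1) t, ‖g u - U u‖ ≤ ‖g t - U t‖ + m + 3 := by
  have hlow : ∀ j : ℕ, j < N → (j : ℝ) + 1 ≤ us → low U g 1 j →
      ∀ u ∈ Set.Icc (j : ℝ) ((j : ℝ) + 1), ‖g u - U u‖ ≤ m + 3 := fun j hj hju hl =>
    cr_low hU hg (Nat.cast_nonneg j) (by linarith) (le_refl _) hju (TCCUT_osc hosc hj)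
      (TCCUT_low.1 hl)
  have hmain : ∀ t : ℕ, 0 < t → t ≤ N → (t : ℝ) ≤ us →
      ∀ u ∈ Set.Icc ((t : ℝ) - 1) t, ‖g u - U u‖ ≤ ‖g t - U t‖ + m + 2 ∨
        ‖g u - U u‖ ≤ m + 3 := by
    intro t ht htN htu u hu
    obtain ⟨k, rfl⟩ : ∃ k, t = k + 1 := ⟨t - 1, by omega⟩
    have hk : ((k + 1 : ℕ) : ℝ) - 1 = k := by push_cast; ring
    have hk1 : ((k + 1 : ℕ) : ℝ) = k + 1 := by push_cast; ring
    rw [hk, hk1] at hu
    rw [hk1] at htu ⊢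
    by_cases hl : low U g 1 k
    · exact Or.inr (hlow k (by omega) htu hl u hu)
    · left
      have h1 := TCCUT_nlow hl
      have h2 := cr_move (ρ := 1) one_pos hg (s := u) (t := (k : ℝ) + 1)
        ((Nat.cast_nonneg k).trans hu.1) hu.2 htu (fun r hr => h1 r ⟨hu.1.trans hr.1, hr.2⟩)
      have h3 := TCCUT_osc hosc (show k < N by omega) ((k : ℝ) + 1) ⟨by linarith, le_refl _⟩
        u hu
      have h4 : ‖g u - U u‖ ≤ ‖(g ((k : ℝ) + 1) - U ((k : ℝ) + 1)) - (g u - U u)‖ +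
          ‖g ((k : ℝ) + 1) - U ((k : ℝ) + 1)‖ := by
        have := norm_sub_le (g ((k : ℝ) + 1) - U ((k : ℝ) + 1))
          ((g ((k : ℝ) + 1) - U ((k : ℝ) + 1)) - (g u - U u))
        rw [sub_sub_cancel] at this
        linarith
      have h5 : (k : ℝ) + 1 - u ≤ 1 := by linarith [hu.1]
      linarith
  have hm0 : ∀ k : ℕ, k < N → 0 ≤ m := fun k hk =>
    (norm_nonneg _).trans (TCCUT_osc hosc hk (k : ℝ) ⟨le_refl _, by linarith⟩ (k : ℝ)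
      ⟨le_refl _, by linarith⟩)
  refine ⟨fun α hα hαN hαu hl => ?_, fun t ht htN htu hl u hu => ?_,
    fun t ht htN htu u hu => ?_⟩
  · obtain ⟨k, rfl⟩ : ∃ k, α = k + 1 := ⟨α - 1, by omega⟩
    have hk1 : ((k + 1 : ℕ) : ℝ) = k + 1 := by push_cast; ring
    rw [hk1] at hαu ⊢
    rw [Nat.add_sub_cancel] at hl
    exact hlow k (by omega) hαu hl _ ⟨by linarith, le_refl _⟩
  · have h1 := hlow t htN htu hl t ⟨le_refl _, by linarith⟩
    have h2 := hm0 t htN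
    rcases hmain t ht htN.le (by linarith) u hu with h | h <;> linarith
  · have h2 := hm0 (t - 1) (by omega)
    have h3 := norm_nonneg (g t - U t)
    rcases hmain t ht htN htu u hu with h | h <;> linarith

end

end Pool.Agent.SLE
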