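import Pool.Agent.Lib.MP_c17912_pr_TC.INV
import Pool.Agent.Lib.MP_c17912_pr_TR.CST
import Pool.Agent.Lib.MP_c17912_pr_TR.DOC

set_option autoImplicit false

open MeasureTheory ProbabilityTheory Filter
open scoped NNReal ENNReal Topology Real

namespace Pool.Agent.SLE

noncomputable section

variable {Ω : Type*} [MeasurableSpace Ω] {μ : Measure Ω} {a b c K : ℝ} {W : ℝ → Ω → ℂ}

namespace TCDO3

variable {h δ R ε θ e q q₃ c₁ c₂ : ℝ}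

/-- The flag is up. -/
def FlT (W : ℝ → Ω → ℂ) (z₀ : ℂ) (h ε θ : ℝ) (j : ℕ) : Set Ω :=
  {ω | ∃ i ≤ j, 1 / 2 ≤ ‖DiscAux.Z W z₀ h i ω‖ ∧
    θ ≤ DiscAux.A W z₀ h (kk 1 ε) i ω - Real.log ‖DiscAux.Z W z₀ h i ω‖}

/-- The event. -/
def OcT (W : ℝ → Ω → ℂ) (z₀ : ℂ) (h δ R ε θ e : ℝ) (j : ℕ) : Set Ω :=
  {ω | ω ∈ AnS W z₀ h δ R j ∧ ω ∈ FlT W z₀ h ε θ j ∧ ‖DiscAux.Z W z₀ h j ω‖ ≤ e}

lemma FlT_meas (hh : 0 < h) (z₀ : ℂ) (j : ℕ) {u : ℝ} (hu : j * h ≤ u) :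
    MeasurableSet[Blk W 0 u] (FlT W z₀ h ε θ j) := by
  have h1 : FlT W z₀ h ε θ j = ⋃ i ∈ Finset.range (j + 1),
      ((fun ω => ‖DiscAux.Z W z₀ h i ω‖) ⁻¹' Set.Ici (1 / 2)) ∩
      ((fun ω => DiscAux.A W z₀ h (kk 1 ε) i ω - Real.log ‖DiscAux.Z W z₀ h i ω‖) ⁻¹'
        Set.Ici θ) := by
    ext ω
    simp only [FlT, Set.mem_iUnion, Finset.mem_range, Nat.lt_succ_iff, exists_prop]
    exact Iff.rfl
  rw [h1]
  refine MeasurableSet.biUnion (Finset.range (j + 1)).countable_toSet fun i hi => ?_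
  have hi' : i < j + 1 := by simpa using hi
  have h2 : (i : ℝ) * h ≤ u := by
    have : (i : ℝ) ≤ j := by exact_mod_cast (Nat.lt_succ_iff.1 hi')
    nlinarith
  have h3 : Measurable[Blk W 0 u]
      (fun ω => DiscAux.A W z₀ h (kk 1 ε) i ω - Real.log ‖DiscAux.Z W z₀ h i ω‖) :=
    (DiscAux.A_meas hh (SmgAux.measurable_kk 1 ε) z₀ i h2).sub
      (Real.measurable_log.comp (measurable_norm.comp (DiscAux.Z_meas hh z₀ i u h2)))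
  have h4 : Measurable[Blk W 0 u] (fun ω => ‖DiscAux.Z W z₀ h i ω‖) :=
    measurable_norm.comp (DiscAux.Z_meas hh z₀ i u h2)
  exact (h4 measurableSet_Ici).inter (h3 measurableSet_Ici)

lemma OcT_meas (hh : 0 < h) (z₀ : ℂ) (j : ℕ) {u : ℝ} (hu : j * h ≤ u) :
    MeasurableSet[Blk W 0 u] (OcT W z₀ h δ R ε θ e j) := by
  have h1 : Measurable[Blk W 0 u] (fun ω => ‖DiscAux.Z W z₀ h j ω‖) :=
    measurable_norm.comp (DiscAux.Z_meas hh z₀ j u hu)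
  have h2 : OcT W z₀ h δ R ε θ e j = AnS W z₀ h δ R j ∩ (FlT W z₀ h ε θ j ∩
      (fun ω => ‖DiscAux.Z W z₀ h j ω‖) ⁻¹' Set.Iic e) := rfl
  rw [h2]
  exact (TRDOC.AnS_meas hh z₀ j hu).inter ((FlT_meas hh z₀ j hu).inter (h1 measurableSet_Iic))

/-- The exponent. -/
def ex (W : ℝ → Ω → ℂ) (z₀ : ℂ) (h ε θ p c₁ : ℝ) (j : ℕ) (ω : Ω) : ℝ :=
  DiscAux.A W z₀ h (kk 0 c₁) j ω + p * (DiscAux.A W z₀ h (kk 1 ε) j ω - θ)

lemma ex_meas (hh : 0 < h) (p : ℝ) (z₀ : ℂ) (j : ℕ) {u : ℝ} (hu : j * h ≤ u) :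
    Measurable[Blk W 0 u] (ex W z₀ h ε θ p c₁ j) := by
  unfold ex
  exact (DiscAux.A_meas hh (SmgAux.measurable_kk 0 c₁) z₀ j hu).add
    (((DiscAux.A_meas hh (SmgAux.measurable_kk 1 ε) z₀ j hu).sub_const θ).const_mul p)

omit [MeasurableSpace Ω] in
lemma ex1_meas (hh : 0 < h) (p : ℝ) (z₀ : ℂ) (j : ℕ) :
    Measurable[Blk W 0 (j * h)] (ex W z₀ h ε θ p c₁ (j + 1)) := by
  unfold ex
  exact (TRDOC.A1_meas hh (SmgAux.measurable_kk 0 c₁) z₀ j).add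
    (((TRDOC.A1_meas hh (SmgAux.measurable_kk 1 ε) z₀ j).sub_const θ).const_mul p)

lemma kk_split' (p c₁ c₂ ε : ℝ) (z : ℂ) :
    kk p (c₁ + c₂ + p * ε) z = kk 0 c₁ z + p * kk 1 ε z + c₂ / ‖z‖ ^ 2 := by
  unfold kk; ring

omit [MeasurableSpace Ω] in
lemma ex_succ (z₀ : ℂ) (p : ℝ) (j : ℕ) (ω : Ω) :
    ex W z₀ h ε θ p c₁ (j + 1) ω = ex W z₀ h ε θ p c₁ j ω +
      h * (kk 0 c₁ (DiscAux.Z W z₀ h j ω) + p * kk 1 ε (DiscAux.Z W z₀ h j ω)) := by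
  rw [ex, ex, TRDOC.A_succ, TRDOC.A_succ]
  ring

/-- The process of the proof. -/
def M (W : ℝ → Ω → ℂ) (z₀ : ℂ) (h ε θ q q₃ c₁ : ℝ) (F₃ F₂ : ℂ → ℝ) (j : ℕ) (ω : Ω) : ℝ :=
  open Classical in
  if ω ∈ FlT W z₀ h ε θ j then
    Real.exp (ex W z₀ h ε θ q₃ c₁ j ω) * F₃ (DiscAux.Z W z₀ h j ω)
  else Real.exp (ex W z₀ h ε θ q c₁ j ω) * F₂ (DiscAux.Z W z₀ h j ω)

omit [MeasurableSpace Ω] in
lemma M_nonneg {F₃ F₂ : ℂ → ℝ} (hF₃ : ∀ z, 0 ≤ F₃ z) (hF₂ : ∀ z, 0 ≤ F₂ z) (z₀ : ℂ) (j : ℕ)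
    (ω : Ω) : 0 ≤ M W z₀ h ε θ q q₃ c₁ F₃ F₂ j ω := by
  unfold M
  split_ifs
  · exact mul_nonneg (Real.exp_pos _).le (hF₃ _)
  · exact mul_nonneg (Real.exp_pos _).le (hF₂ _)

lemma M_meas (hh : 0 < h) {F₃ F₂ : ℂ → ℝ} (hF₃m : Measurable F₃) (hF₂m : Measurable F₂)
    (z₀ : ℂ) (j : ℕ) {u : ℝ} (hu : j * h ≤ u) :
    Measurable[Blk W 0 u] (M W z₀ h ε θ q q₃ c₁ F₃ F₂ j) := by
  classical
  unfold M
  refine Measurable.ite (FlT_meas hh z₀ j hu) ?_ ?_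
  · exact (Real.measurable_exp.comp (ex_meas hh q₃ z₀ j hu)).mul
      (hF₃m.comp (DiscAux.Z_meas hh z₀ j u hu))
  · exact (Real.measurable_exp.comp (ex_meas hh q z₀ j hu)).mul
      (hF₂m.comp (DiscAux.Z_meas hh z₀ j u hu))

/-- The comparison at the flag. -/
lemma sw {z : ℂ} {B F₃z F₂z : ℝ} (hz : 0 < ‖z‖) (hqq : q₃ ≤ q) (hF₂ : 0 ≤ F₂z)
    (hsw : ‖z‖ ^ q₃ * F₃z ≤ ‖z‖ ^ q * F₂z) (hθ : θ ≤ B - Real.log ‖z‖) :
    Real.exp (q₃ * (B - θ)) * F₃z ≤ Real.exp (q * (B - θ)) * F₂z := by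
  have h1 : ∀ p : ℝ, Real.exp (p * (B - θ)) =
      Real.exp (p * (B - Real.log ‖z‖ - θ)) * ‖z‖ ^ p := by
    intro p
    rw [Real.rpow_def_of_pos hz, ← Real.exp_add]
    congr 1
    ring
  rw [h1 q₃, h1 q, mul_assoc, mul_assoc]
  have h2 : Real.exp (q₃ * (B - Real.log ‖z‖ - θ)) ≤ Real.exp (q * (B - Real.log ‖z‖ - θ)) := by
    apply Real.exp_le_exp.2
    exact mul_le_mul_of_nonneg_right hqq (by linarith)
  have h3 : 0 ≤ ‖z‖ ^ q * F₂z := mul_nonneg (Real.rpow_nonneg hz.le _) hF₂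
  exact (mul_le_mul_of_nonneg_left hsw (Real.exp_pos _).le).trans
    (mul_le_mul_of_nonneg_right h2 h3)

/-- The process of the proof after one step. -/
def D (W : ℝ → Ω → ℂ) (z₀ : ℂ) (h ε θ q q₃ c₁ c₂ : ℝ) (F₃ F₂ : ℂ → ℝ) (j : ℕ) (ω : Ω) : ℝ :=
  open Classical in
  if ω ∈ FlT W z₀ h ε θ j then M W z₀ h ε θ q q₃ c₁ F₃ F₂ j ω *
    Real.exp (-(h * (c₂ / ‖DiscAux.Z W z₀ h j ω‖ ^ 2)))
  else M W z₀ h ε θ q q₃ c₁ F₃ F₂ j ω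

lemma D_meas (hh : 0 < h) {F₃ F₂ : ℂ → ℝ} (hF₃m : Measurable F₃) (hF₂m : Measurable F₂)
    (z₀ : ℂ) (j : ℕ) {u : ℝ} (hu : j * h ≤ u) :
    Measurable[Blk W 0 u] (D W z₀ h ε θ q q₃ c₁ c₂ F₃ F₂ j) := by
  classical
  unfold D
  refine Measurable.ite (FlT_meas hh z₀ j hu) ?_ (M_meas hh hF₃m hF₂m z₀ j hu)
  refine (M_meas hh hF₃m hF₂m z₀ j hu).mul (Real.measurable_exp.comp ?_)
  have h1 : Measurable (fun z : ℂ => -(h * (c₂ / ‖z‖ ^ 2))) :=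
    ((measurable_const.div (measurable_norm.pow_const 2)).const_mul h).neg
  exact h1.comp (DiscAux.Z_meas hh z₀ j u hu)

/-- The first weight. -/
def w1 (W : ℝ → Ω → ℂ) (z₀ : ℂ) (h δ R ε θ q₃ c₁ : ℝ) (j : ℕ) : Ω → ℝ≥0∞ :=
  (AnS W z₀ h δ R j ∩ FlT W z₀ h ε θ j).indicator
    (fun ω => ENNReal.ofReal (Real.exp (ex W z₀ h ε θ q₃ c₁ (j + 1) ω)))

/-- The second weight. -/
def w2 (W : ℝ → Ω → ℂ) (z₀ : ℂ) (h δ R ε θ q c₁ : ℝ) (j : ℕ) : Ω → ℝ≥0∞ :=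
  (AnS W z₀ h δ R j \ FlT W z₀ h ε θ j).indicator
    (fun ω => ENNReal.ofReal (Real.exp (ex W z₀ h ε θ q c₁ (j + 1) ω)))

lemma w1_meas (hh : 0 < h) (z₀ : ℂ) (j : ℕ) :
    Measurable[Blk W 0 (j * h)] (w1 W z₀ h δ R ε θ q₃ c₁ j) := by
  unfold w1
  exact (ENNReal.measurable_ofReal.comp (Real.measurable_exp.comp
    (ex1_meas hh q₃ z₀ j))).indicator
    ((TRDOC.AnS_meas hh z₀ j le_rfl).inter (FlT_meas hh z₀ j le_rfl))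

lemma w2_meas (hh : 0 < h) (z₀ : ℂ) (j : ℕ) :
    Measurable[Blk W 0 (j * h)] (w2 W z₀ h δ R ε θ q c₁ j) := by
  unfold w2
  exact (ENNReal.measurable_ofReal.comp (Real.measurable_exp.comp
    (ex1_meas hh q z₀ j))).indicator
    ((TRDOC.AnS_meas hh z₀ j le_rfl).diff (FlT_meas hh z₀ j le_rfl))

omit [MeasurableSpace Ω] in
/-- Step (ii). -/
lemma M_le (hδ : 0 < δ) (hqq : q₃ ≤ q) {F₃ F₂ : ℂ → ℝ} (hF₂ : ∀ z, 0 ≤ F₂ z)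
    (hsw : ∀ z : ℂ, δ ≤ ‖z‖ → ‖z‖ ≤ R → 1 / 2 ≤ ‖z‖ → ‖z‖ ^ q₃ * F₃ z ≤ ‖z‖ ^ q * F₂ z)
    (z₀ : ℂ) (j : ℕ) {ω : Ω} (hω : ω ∈ AnS W z₀ h δ R (j + 1)) :
    ENNReal.ofReal (M W z₀ h ε θ q q₃ c₁ F₃ F₂ (j + 1) ω) ≤
      w1 W z₀ h δ R ε θ q₃ c₁ j ω * ENNReal.ofReal (F₃ (DiscAux.Z W z₀ h (j + 1) ω)) +
      w2 W z₀ h δ R ε θ q c₁ j ω * ENNReal.ofReal (F₂ (DiscAux.Z W z₀ h (j + 1) ω)) := by
  have hAj : ω ∈ AnS W z₀ h δ R j := fun i hi => hω i (by omega)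
  have hZ := hω (j + 1) le_rfl
  by_cases hF : ω ∈ FlT W z₀ h ε θ j
  · have hF' : ω ∈ FlT W z₀ h ε θ (j + 1) := by
      obtain ⟨i, hi, h1⟩ := hF
      exact ⟨i, by omega, h1⟩
    refine le_trans ?_ le_self_add
    rw [w1, Set.indicator_of_mem
      (show ω ∈ AnS W z₀ h δ R j ∩ FlT W z₀ h ε θ j from ⟨hAj, hF⟩), M, if_pos hF',
      ENNReal.ofReal_mul (Real.exp_pos _).le]
  · refine le_trans ?_ le_add_self
    rw [w2, Set.indicator_of_mem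
      (show ω ∈ AnS W z₀ h δ R j \ FlT W z₀ h ε θ j from ⟨hAj, hF⟩),
      ← ENNReal.ofReal_mul (Real.exp_pos _).le, M]
    apply ENNReal.ofReal_le_ofReal
    split_ifs with hF'
    · obtain ⟨i, hi, h0, h1⟩ := hF'
      have hi' : i = j + 1 := by
        by_contra hne
        exact hF ⟨i, by omega, h0, h1⟩
      subst hi'
      have h2 := sw (θ := θ) (lt_of_lt_of_le hδ hZ.1) hqq (hF₂ _) (hsw _ hZ.1 hZ.2 h0) h1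
      rw [ex, ex, Real.exp_add, Real.exp_add, mul_assoc, mul_assoc]
      exact mul_le_mul_of_nonneg_left h2 (Real.exp_pos _).le
    · exact le_rfl

omit [MeasurableSpace Ω] in
/-- The weights after one step. -/
lemma w_eq {Q : ℝ} (hQ : 0 ≤ Q) {F₃ F₂ : ℂ → ℝ} (z₀ : ℂ) (j : ℕ) (ω : Ω) :
    w1 W z₀ h δ R ε θ q₃ c₁ j ω * ENNReal.ofReal
        (Q * Real.exp (-(h * kk q₃ (c₁ + c₂ + q₃ * ε) (DiscAux.Z W z₀ h j ω))) *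
          F₃ (DiscAux.Z W z₀ h j ω)) +
      w2 W z₀ h δ R ε θ q c₁ j ω * ENNReal.ofReal
        (Q * Real.exp (-(h * kk q (c₁ + q * ε) (DiscAux.Z W z₀ h j ω))) *
          F₂ (DiscAux.Z W z₀ h j ω)) =
      ENNReal.ofReal Q * (AnS W z₀ h δ R j).indicator
        (fun ω => ENNReal.ofReal (D W z₀ h ε θ q q₃ c₁ c₂ F₃ F₂ j ω)) ω := by
  by_cases hA : ω ∈ AnS W z₀ h δ R j
  · rw [Set.indicator_of_mem hA, ← ENNReal.ofReal_mul hQ]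
    by_cases hF : ω ∈ FlT W z₀ h ε θ j
    · rw [w1, Set.indicator_of_mem
        (show ω ∈ AnS W z₀ h δ R j ∩ FlT W z₀ h ε θ j from ⟨hA, hF⟩), w2,
        Set.indicator_of_notMem (fun hc => hc.2 hF), zero_mul, add_zero,
        ← ENNReal.ofReal_mul (Real.exp_pos _).le, D, if_pos hF, M, if_pos hF, ex_succ,
        kk_split']
      congr 1
      have h3 : Real.exp (ex W z₀ h ε θ q₃ c₁ j ω +
          h * (kk 0 c₁ (DiscAux.Z W z₀ h j ω) + q₃ * kk 1 ε (DiscAux.Z W z₀ h j ω))) *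
          Real.exp (-(h * (kk 0 c₁ (DiscAux.Z W z₀ h j ω) +
            q₃ * kk 1 ε (DiscAux.Z W z₀ h j ω) + c₂ / ‖DiscAux.Z W z₀ h j ω‖ ^ 2))) =
          Real.exp (ex W z₀ h ε θ q₃ c₁ j ω) *
          Real.exp (-(h * (c₂ / ‖DiscAux.Z W z₀ h j ω‖ ^ 2))) := by
        rw [← Real.exp_add, ← Real.exp_add]; ring_nf
      linear_combination (Q * F₃ (DiscAux.Z W z₀ h j ω)) * h3
    · rw [w1, Set.indicator_of_notMem (fun hc => hF hc.2), w2,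
        Set.indicator_of_mem (show ω ∈ AnS W z₀ h δ R j \ FlT W z₀ h ε θ j from ⟨hA, hF⟩),
        zero_mul, zero_add,
        ← ENNReal.ofReal_mul (Real.exp_pos _).le, D, if_neg hF, M, if_neg hF, ex_succ,
        TRDOC.kk_split]
      congr 1
      have h3 : Real.exp (ex W z₀ h ε θ q c₁ j ω +
          h * (kk 0 c₁ (DiscAux.Z W z₀ h j ω) + q * kk 1 ε (DiscAux.Z W z₀ h j ω))) *
          Real.exp (-(h * (kk 0 c₁ (DiscAux.Z W z₀ h j ω) +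
            q * kk 1 ε (DiscAux.Z W z₀ h j ω)))) =
          Real.exp (ex W z₀ h ε θ q c₁ j ω) := by
        rw [← Real.exp_add]; ring_nf
      linear_combination (Q * F₂ (DiscAux.Z W z₀ h j ω)) * h3
  · rw [Set.indicator_of_notMem hA, w1, w2, Set.indicator_of_notMem (fun hc => hA hc.1),
      Set.indicator_of_notMem (fun hc => hA hc.1)]
    simp

/-- Step (iii). -/
lemma step [IsProbabilityMeasure μ] (hW : Drv a b c K W μ) {Q : ℝ} (hh : 0 < h) (hQ : 1 ≤ Q)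
    (hδ : 0 < δ) (hqq : q₃ ≤ q) {F₃ F₂ : ℂ → ℝ} (hF₃m : Measurable F₃) (hF₂m : Measurable F₂)
    (hF₂ : ∀ z, 0 ≤ F₂ z)
    (hsw : ∀ z : ℂ, δ ≤ ‖z‖ → ‖z‖ ≤ R → 1 / 2 ≤ ‖z‖ → ‖z‖ ^ q₃ * F₃ z ≤ ‖z‖ ^ q * F₂ z)
    (h1 : ∀ (z : ℂ) (s : ℝ), δ ≤ ‖z‖ → ‖z‖ ≤ R → 0 ≤ s →
      ∫⁻ ω, ENNReal.ofReal (F₃ (z + 2 * h / z - (W (s + h) ω - W s ω))) ∂μ
        ≤ ENNReal.ofReal (Q * Real.exp (-(h * kk q₃ (c₁ + c₂ + q₃ * ε) z)) * F₃ z))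
    (h2 : ∀ (z : ℂ) (s : ℝ), δ ≤ ‖z‖ → ‖z‖ ≤ R → 0 ≤ s →
      ∫⁻ ω, ENNReal.ofReal (F₂ (z + 2 * h / z - (W (s + h) ω - W s ω))) ∂μ
        ≤ ENNReal.ofReal (Q * Real.exp (-(h * kk q (c₁ + q * ε) z)) * F₂ z))
    (z₀ : ℂ) (j : ℕ) :
    ∫⁻ ω in AnS W z₀ h δ R (j + 1),
        ENNReal.ofReal (M W z₀ h ε θ q q₃ c₁ F₃ F₂ (j + 1) ω) ∂μ ≤
      ENNReal.ofReal Q * ∫⁻ ω in AnS W z₀ h δ R j,
        ENNReal.ofReal (D W z₀ h ε θ q q₃ c₁ c₂ F₃ F₂ j ω) ∂μ := by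
  have hle : Blk W 0 (j * h) ≤ (inferInstance : MeasurableSpace Ω) := Blk_le hW _ _
  have hle1 : Blk W 0 ((j + 1 : ℕ) * h) ≤ (inferInstance : MeasurableSpace Ω) := Blk_le hW _ _
  have hAm : MeasurableSet (AnS W z₀ h δ R j) := hle _ (TRDOC.AnS_meas hh z₀ j le_rfl)
  have hAm1 : MeasurableSet (AnS W z₀ h δ R (j + 1)) :=
    hle1 _ (TRDOC.AnS_meas hh z₀ (j + 1) le_rfl)
  have hw1 := w1_meas (W := W) (δ := δ) (R := R) (ε := ε) (θ := θ) (c₁ := c₁) (q₃ := q₃) hh z₀ j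
  have hw2 := w2_meas (W := W) (δ := δ) (R := R) (ε := ε) (θ := θ) (c₁ := c₁) (q := q) hh z₀ j
  have hZ1 : Measurable (DiscAux.Z W z₀ h (j + 1)) :=
    (DiscAux.Z_meas hh z₀ (j + 1) _ le_rfl).mono hle1 le_rfl
  have hZ0 : Measurable (DiscAux.Z W z₀ h j) :=
    (DiscAux.Z_meas hh z₀ j _ le_rfl).mono hle le_rfl
  have hk : ∀ lam c₀ : ℝ, Measurable (kk lam c₀) := SmgAux.measurable_kk
  have hρ1 : Measurable
      (fun z => Q * Real.exp (-(h * kk q₃ (c₁ + c₂ + q₃ * ε) z)) * F₃ z) :=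
    ((Real.measurable_exp.comp ((hk _ _).const_mul h).neg).const_mul Q).mul hF₃m
  have hρ2 : Measurable (fun z => Q * Real.exp (-(h * kk q (c₁ + q * ε) z)) * F₂ z) :=
    ((Real.measurable_exp.comp ((hk _ _).const_mul h).neg).const_mul Q).mul hF₂m
  have c1 := cond_step hW hh hF₃m hρ1 h1 z₀ j (w1 W z₀ h δ R ε θ q₃ c₁ j) hw1 (by
    intro ω hω
    have := Set.mem_of_indicator_ne_zero hω
    exact this.1 j le_rfl)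
  have c2 := cond_step hW hh hF₂m hρ2 h2 z₀ j (w2 W z₀ h δ R ε θ q c₁ j) hw2 (by
    intro ω hω
    have := Set.mem_of_indicator_ne_zero hω
    exact this.1 j le_rfl)
  calc ∫⁻ ω in AnS W z₀ h δ R (j + 1),
        ENNReal.ofReal (M W z₀ h ε θ q q₃ c₁ F₃ F₂ (j + 1) ω) ∂μ
      ≤ ∫⁻ ω in AnS W z₀ h δ R (j + 1), (w1 W z₀ h δ R ε θ q₃ c₁ j ω *
            ENNReal.ofReal (F₃ (DiscAux.Z W z₀ h (j + 1) ω)) +
          w2 W z₀ h δ R ε θ q c₁ j ω *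
            ENNReal.ofReal (F₂ (DiscAux.Z W z₀ h (j + 1) ω))) ∂μ :=
        setLIntegral_mono' hAm1 fun ω hω => M_le hδ hqq hF₂ hsw z₀ j hω
    _ ≤ ∫⁻ ω, (w1 W z₀ h δ R ε θ q₃ c₁ j ω *
            ENNReal.ofReal (F₃ (DiscAux.Z W z₀ h (j + 1) ω)) +
          w2 W z₀ h δ R ε θ q c₁ j ω *
            ENNReal.ofReal (F₂ (DiscAux.Z W z₀ h (j + 1) ω))) ∂μ :=
        setLIntegral_le_lintegral _ _
    _ = ∫⁻ ω, w1 W z₀ h δ R ε θ q₃ c₁ j ω *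
            ENNReal.ofReal (F₃ (DiscAux.Z W z₀ h (j + 1) ω)) ∂μ +
        ∫⁻ ω, w2 W z₀ h δ R ε θ q c₁ j ω *
            ENNReal.ofReal (F₂ (DiscAux.Z W z₀ h (j + 1) ω)) ∂μ := by
        apply lintegral_add_left
        exact (hw1.mono hle le_rfl).mul (ENNReal.measurable_ofReal.comp (hF₃m.comp hZ1))
    _ ≤ _ := add_le_add c1 c2
    _ = ∫⁻ ω, (w1 W z₀ h δ R ε θ q₃ c₁ j ω * ENNReal.ofReal
        (Q * Real.exp (-(h * kk q₃ (c₁ + c₂ + q₃ * ε) (DiscAux.Z W z₀ h j ω))) *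
          F₃ (DiscAux.Z W z₀ h j ω)) +
      w2 W z₀ h δ R ε θ q c₁ j ω * ENNReal.ofReal
        (Q * Real.exp (-(h * kk q (c₁ + q * ε) (DiscAux.Z W z₀ h j ω))) *
          F₂ (DiscAux.Z W z₀ h j ω))) ∂μ := by
        symm
        apply lintegral_add_left
        exact (hw1.mono hle le_rfl).mul (ENNReal.measurable_ofReal.comp (hρ1.comp hZ0))
    _ = ∫⁻ ω, ENNReal.ofReal Q * (AnS W z₀ h δ R j).indicator
        (fun ω => ENNReal.ofReal (D W z₀ h ε θ q q₃ c₁ c₂ F₃ F₂ j ω)) ω ∂μ :=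
        lintegral_congr fun ω => w_eq (by linarith) z₀ j ω
    _ = _ := by
        rw [lintegral_const_mul' _ _ ENNReal.ofReal_ne_top, lintegral_indicator hAm]

/-- Step (iv). -/
lemma gain [IsProbabilityMeasure μ] (hW : Drv a b c K W μ) {f : ℝ} (hh : 0 < h)
    (hδ : 0 < δ) (hc₂ : 0 < c₂) (hhc : h * c₂ ≤ δ ^ 2) (hf : 0 < f) (he : 0 < e)
    {F₃ F₂ : ℂ → ℝ} (hF₃m : Measurable F₃) (hF₂m : Measurable F₂) (hF₃ : ∀ z, 0 ≤ F₃ z)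
    (hF₂ : ∀ z, 0 ≤ F₂ z)
    (hfe : ∀ z : ℂ, δ ≤ ‖z‖ → ‖z‖ ≤ R → f ≤ ‖z‖ ^ q₃ * F₃ z) (z₀ : ℂ) (j : ℕ) :
    ∫⁻ ω in AnS W z₀ h δ R j, ENNReal.ofReal (D W z₀ h ε θ q q₃ c₁ c₂ F₃ F₂ j ω) ∂μ +
      ENNReal.ofReal (h * c₂ * f / (2 * e ^ 2)) * ∫⁻ ω in OcT W z₀ h δ R ε θ e j,
        ENNReal.ofReal (Real.exp (ex W z₀ h ε θ q₃ c₁ j ω -
          q₃ * Real.log ‖DiscAux.Z W z₀ h j ω‖)) ∂μ ≤
      ∫⁻ ω in AnS W z₀ h δ R j, ENNReal.ofReal (M W z₀ h ε θ q q₃ c₁ F₃ F₂ j ω) ∂μ := by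
  have hle : Blk W 0 (j * h) ≤ (inferInstance : MeasurableSpace Ω) := Blk_le hW _ _
  have hAm : MeasurableSet (AnS W z₀ h δ R j) := hle _ (TRDOC.AnS_meas hh z₀ j le_rfl)
  have hOm : MeasurableSet (OcT W z₀ h δ R ε θ e j) := hle _ (OcT_meas hh z₀ j le_rfl)
  have hDm : Measurable (D W z₀ h ε θ q q₃ c₁ c₂ F₃ F₂ j) :=
    (D_meas hh hF₃m hF₂m z₀ j le_rfl).mono hle le_rfl
  have hDm' : Measurable ((AnS W z₀ h δ R j).indicator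
      (fun ω => ENNReal.ofReal (D W z₀ h ε θ q q₃ c₁ c₂ F₃ F₂ j ω))) :=
    (ENNReal.measurable_ofReal.comp hDm).indicator hAm
  rw [← lintegral_const_mul' _ _ ENNReal.ofReal_ne_top, ← lintegral_indicator hAm,
    ← lintegral_indicator hOm, ← lintegral_indicator hAm, ← lintegral_add_left hDm']
  apply lintegral_mono
  intro ω
  by_cases hA : ω ∈ AnS W z₀ h δ R j
  · simp only [Set.indicator_of_mem hA]
    have hZ := hA j le_rfl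
    have hZ0 : 0 < ‖DiscAux.Z W z₀ h j ω‖ := lt_of_lt_of_le hδ hZ.1
    have hy0 : 0 ≤ h * (c₂ / ‖DiscAux.Z W z₀ h j ω‖ ^ 2) := by positivity
    have hM0 : 0 ≤ M W z₀ h ε θ q q₃ c₁ F₃ F₂ j ω := M_nonneg hF₃ hF₂ z₀ j ω
    by_cases hO : ω ∈ OcT W z₀ h δ R ε θ e j
    · simp only [Set.indicator_of_mem hO]
      have hF : ω ∈ FlT W z₀ h ε θ j := hO.2.1
      have hZe : ‖DiscAux.Z W z₀ h j ω‖ ≤ e := hO.2.2
      have hf1 := hfe _ hZ.1 hZ.2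
      have hy1 : h * (c₂ / ‖DiscAux.Z W z₀ h j ω‖ ^ 2) ≤ 1 := by
        rw [← mul_div_assoc, div_le_one (by positivity)]
        exact hhc.trans (pow_le_pow_left₀ hδ.le hZ.1 2)
      have hy2 : h * c₂ / e ^ 2 ≤ h * (c₂ / ‖DiscAux.Z W z₀ h j ω‖ ^ 2) := by
        rw [← mul_div_assoc]
        exact div_le_div_of_nonneg_left (by positivity) (by positivity)
          (pow_le_pow_left₀ hZ0.le hZe 2)
      have hex := TRDOC.exp_half hy0 hy1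
      obtain ⟨E, hE⟩ : ∃ E, E = Real.exp (ex W z₀ h ε θ q₃ c₁ j ω -
          q₃ * Real.log ‖DiscAux.Z W z₀ h j ω‖) := ⟨_, rfl⟩
      have hE0 : 0 < E := hE ▸ Real.exp_pos _
      rw [← hE, ← ENNReal.ofReal_mul (by positivity), ← ENNReal.ofReal_add]
      · apply ENNReal.ofReal_le_ofReal
        rw [D, if_pos hF]
        have hMe : M W z₀ h ε θ q q₃ c₁ F₃ F₂ j ω =
            E * (‖DiscAux.Z W z₀ h j ω‖ ^ q₃ * F₃ (DiscAux.Z W z₀ h j ω)) := by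
          rw [M, if_pos hF, hE, Real.rpow_def_of_pos hZ0, ← mul_assoc, ← Real.exp_add]
          congr 2
          ring
        have h5 : h * c₂ * f / (2 * e ^ 2) * E ≤
            M W z₀ h ε θ q q₃ c₁ F₃ F₂ j ω *
              (h * (c₂ / ‖DiscAux.Z W z₀ h j ω‖ ^ 2) / 2) := by
          rw [hMe]
          have h6 : h * c₂ * f / (2 * e ^ 2) * E = (E * f) * (h * c₂ / e ^ 2 / 2) := by
            field_simp
          rw [h6]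
          apply mul_le_mul
          · exact mul_le_mul_of_nonneg_left hf1 hE0.le
          · linarith
          · positivity
          · exact mul_nonneg hE0.le (mul_nonneg (Real.rpow_nonneg hZ0.le _) (hF₃ _))
        have h7 : M W z₀ h ε θ q q₃ c₁ F₃ F₂ j ω *
            Real.exp (-(h * (c₂ / ‖DiscAux.Z W z₀ h j ω‖ ^ 2))) ≤
            M W z₀ h ε θ q q₃ c₁ F₃ F₂ j ω *
              (1 - h * (c₂ / ‖DiscAux.Z W z₀ h j ω‖ ^ 2) / 2) :=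
          mul_le_mul_of_nonneg_left hex hM0
        linarith
      · rw [D, if_pos hF]
        exact mul_nonneg hM0 (Real.exp_pos _).le
      · positivity
    · simp only [Set.indicator_of_notMem hO, add_zero]
      apply ENNReal.ofReal_le_ofReal
      rw [D]
      split_ifs
      · exact mul_le_of_le_one_right hM0 (Real.exp_le_one_iff.2 (by linarith))
      · exact le_rfl
  · have hO : ω ∉ OcT W z₀ h δ R ε θ e j := fun hc => hA hc.1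
    simp only [Set.indicator_of_notMem hA, Set.indicator_of_notMem hO, add_zero, le_refl]

/-- Step (i). -/
lemma base [IsProbabilityMeasure μ] (hδ : 0 < δ) (hqq : q₃ ≤ q) {F₃ F₂ : ℂ → ℝ}
    (hF₂ : ∀ z, 0 ≤ F₂ z)
    (hsw : ∀ z : ℂ, δ ≤ ‖z‖ → ‖z‖ ≤ R → 1 / 2 ≤ ‖z‖ → ‖z‖ ^ q₃ * F₃ z ≤ ‖z‖ ^ q * F₂ z)
    (z₀ : ℂ) :
    ∫⁻ ω in AnS W z₀ h δ R 0, ENNReal.ofReal (M W z₀ h ε θ q q₃ c₁ F₃ F₂ 0 ω) ∂μ ≤
      ENNReal.ofReal (Real.exp (-(q * θ)) * F₂ z₀) := by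
  by_cases hz : δ ≤ ‖z₀‖ ∧ ‖z₀‖ ≤ R
  · have h1 : ∀ ω, ENNReal.ofReal (M W z₀ h ε θ q q₃ c₁ F₃ F₂ 0 ω) ≤
        ENNReal.ofReal (Real.exp (-(q * θ)) * F₂ z₀) := by
      intro ω
      apply ENNReal.ofReal_le_ofReal
      have hA : ∀ k : ℂ → ℝ, DiscAux.A W z₀ h k 0 ω = 0 := by
        intro k; simp [DiscAux.A]
      have hZ : DiscAux.Z W z₀ h 0 ω = z₀ := by simp [DiscAux.Z, eul]
      have e1 : q * (0 - θ) = -(q * θ) := by ring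
      rw [M]
      split_ifs with hF
      · obtain ⟨i, hi, h0, h1⟩ := hF
        have hi' : i = 0 := by omega
        subst hi'
        rw [hZ] at h0
        rw [hA, hZ] at h1
        have h2 := sw (θ := θ) (lt_of_lt_of_le hδ hz.1) hqq (hF₂ _) (hsw _ hz.1 hz.2 h0) h1
        rw [ex, hA, hA, hZ, zero_add, ← e1]
        exact h2
      · rw [ex, hA, hA, hZ, zero_add, e1]
    calc ∫⁻ ω in AnS W z₀ h δ R 0, ENNReal.ofReal (M W z₀ h ε θ q q₃ c₁ F₃ F₂ 0 ω) ∂μ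
        ≤ ∫⁻ ω, ENNReal.ofReal (M W z₀ h ε θ q q₃ c₁ F₃ F₂ 0 ω) ∂μ :=
          setLIntegral_le_lintegral _ _
      _ ≤ ∫⁻ _, ENNReal.ofReal (Real.exp (-(q * θ)) * F₂ z₀) ∂μ := lintegral_mono h1
      _ = _ := by simp
  · have h1 : AnS W z₀ h δ R 0 = ∅ := by
      ext ω
      simp only [Set.mem_empty_iff_false, iff_false]
      intro hω
      exact hz (hω 0 le_rfl)
    rw [h1]
    simp

end TCDO3

open TCDO3 in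
/-- TC-DO3. The occupation inequality with the deficit (compare `disc_occ`, TR/DOC).

Proof. Write `Z_j`, `A_j = Bs h (kk 0 c₁) j`, `B_j = Bs h (kk 1 ε) j`, `phs_j = B_j - log |Z_j|`. Let
`M_j = exp (A_j + q₃ (B_j - θ)) F₃ Z_j` on the flag `Fl j`,
`M_j = exp (A_j + q (B_j - θ)) F₂ Z_j` off the flag, `b_j = ∫ in An j, M_j`.
(i) If the flag goes up at time `i` (or is up at time `0`, `i = 0`): `θ ≤ phs_i`, `1/2 ≤ |Z_i|`, and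
by `hsw` and `q₃ ≤ q`
`exp (q₃ (B_i - θ)) F₃ Z_i = exp (q₃ (phs_i - θ)) |Z_i|^q₃ F₃ Z_i ≤ exp (q (phs_i - θ)) |Z_i|^q F₂ Z_i
= exp (q (B_i - θ)) F₂ Z_i`.
(ii) `cond_step` (CST), twice, as in `disc_occ`: `b_{j+1} ≤ Q ∫ in An j, M_j * (exp (-h c₂ / |Z_j|^2)
on Fl j, 1 off Fl j)`, because `kk q₃ (c₁ + c₂ + q₃ ε) = q₃ kk 1 ε + kk 0 c₁ + c₂ / |z|^2` and
`kk q (c₁ + q ε) = q kk 1 ε + kk 0 c₁`.
(iii) `1 - exp (-y) ≥ y / 2` for `0 ≤ y ≤ 1`, `y = h c₂ / |Z_j|^2 ≤ 1`; on `Fl j`, `|Z_j| ≤ e`: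
`(1 - exp (-y)) M_j ≥ (h c₂ / (2 e^2)) f exp (A_j + q₃ (phs_j - θ))` by `hfe`
(`exp (q₃ (B_j - θ)) F₃ Z_j = exp (q₃ (phs_j - θ)) |Z_j|^q₃ F₃ Z_j`). So `b_{j+1} + x_j ≤ Q b_j`
and `∑ x_j ≤ Q^J b_0`, `b_0 ≤ exp (-(q θ)) F₂ z₀`. -/
theorem disc_occ3 [IsProbabilityMeasure μ] (hW : Drv a b c K W μ)
    {h Q δ R ε c₁ c₂ q q₃ θ f e : ℝ} (hh : 0 < h) (hQ : 1 ≤ Q) (hδ : 0 < δ) (hc₁ : 0 ≤ c₁)
    (hc₂ : 0 < c₂) (hhc : h * c₂ ≤ δ ^ 2) (hq₃ : 0 < q₃) (hqq : q₃ ≤ q) (hf : 0 < f) (he : 0 < e)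
    {F₂ F₃ : ℂ → ℝ} (hF₂m : Measurable F₂) (hF₃m : Measurable F₃) (hF₂ : ∀ z, 0 ≤ F₂ z)
    (hF₃ : ∀ z, 0 ≤ F₃ z)
    (hsw : ∀ z : ℂ, δ ≤ ‖z‖ → ‖z‖ ≤ R → 1 / 2 ≤ ‖z‖ → ‖z‖ ^ q₃ * F₃ z ≤ ‖z‖ ^ q * F₂ z)
    (hfe : ∀ z : ℂ, δ ≤ ‖z‖ → ‖z‖ ≤ R → f ≤ ‖z‖ ^ q₃ * F₃ z)
    (h2 : ∀ (z : ℂ) (s : ℝ), δ ≤ ‖z‖ → ‖z‖ ≤ R → 0 ≤ s →
      ∫⁻ ω, ENNReal.ofReal (F₂ (z + 2 * h / z - (W (s + h) ω - W s ω))) ∂μ
        ≤ ENNReal.ofReal (Q * Real.exp (-(h * kk q (c₁ + q * ε) z)) * F₂ z))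
    (h3 : ∀ (z : ℂ) (s : ℝ), δ ≤ ‖z‖ → ‖z‖ ≤ R → 0 ≤ s →
      ∫⁻ ω, ENNReal.ofReal (F₃ (z + 2 * h / z - (W (s + h) ω - W s ω))) ∂μ
        ≤ ENNReal.ofReal (Q * Real.exp (-(h * kk q₃ (c₁ + c₂ + q₃ * ε) z)) * F₃ z))
    (z₀ : ℂ) (J : ℕ) :
    ∑ j ∈ Finset.range J, ENNReal.ofReal h *
        ∫⁻ ω in {ω | Zq W z₀ h ω ∈ An δ R j ∧ Zq W z₀ h ω ∈ Fl h ε θ j ∧ ‖Zq W z₀ h ω j‖ ≤ e},
          ENNReal.ofReal (Real.exp (Bs h (kk 0 c₁) j (Zq W z₀ h ω) +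
            q₃ * (phs h ε j (Zq W z₀ h ω) - θ))) ∂μ ≤
      ENNReal.ofReal (2 * e ^ 2 / (c₂ * f) * Q ^ J * Real.exp (-(q * θ)) * F₂ z₀) := by
  have hκ : 0 < h * c₂ * f / (2 * e ^ 2) := by positivity
  have hQ1 : (1 : ℝ≥0∞) ≤ ENNReal.ofReal Q := by
    rw [← ENNReal.ofReal_one]; exact ENNReal.ofReal_le_ofReal hQ
  have hset : ∀ j : ℕ, {ω | Zq W z₀ h ω ∈ An δ R j ∧ Zq W z₀ h ω ∈ Fl h ε θ j ∧
      ‖Zq W z₀ h ω j‖ ≤ e} = OcT W z₀ h δ R ε θ e j := fun j => rfl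
  have hexp : ∀ (j : ℕ) (ω : Ω), Bs h (kk 0 c₁) j (Zq W z₀ h ω) +
      q₃ * (phs h ε j (Zq W z₀ h ω) - θ) = ex W z₀ h ε θ q₃ c₁ j ω -
        q₃ * Real.log ‖DiscAux.Z W z₀ h j ω‖ := by
    intro j ω
    have e1 : Bs h (kk 0 c₁) j (Zq W z₀ h ω) = DiscAux.A W z₀ h (kk 0 c₁) j ω := rfl
    have e2 : phs h ε j (Zq W z₀ h ω) = DiscAux.A W z₀ h (kk 1 ε) j ω -
      Real.log ‖DiscAux.Z W z₀ h j ω‖ := rfl
    rw [e1, e2, ex]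
    ring
  obtain ⟨y, hy⟩ : ∃ y : ℕ → ℝ≥0∞, y = fun j => ∫⁻ ω in OcT W z₀ h δ R ε θ e j,
    ENNReal.ofReal (Real.exp (ex W z₀ h ε θ q₃ c₁ j ω -
      q₃ * Real.log ‖DiscAux.Z W z₀ h j ω‖)) ∂μ := ⟨_, rfl⟩
  have hgoal : ∀ j : ℕ, ∫⁻ ω in {ω | Zq W z₀ h ω ∈ An δ R j ∧ Zq W z₀ h ω ∈ Fl h ε θ j ∧
      ‖Zq W z₀ h ω j‖ ≤ e}, ENNReal.ofReal (Real.exp (Bs h (kk 0 c₁) j (Zq W z₀ h ω) +
            q₃ * (phs h ε j (Zq W z₀ h ω) - θ))) ∂μ = y j := by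
    intro j
    rw [hset, hy]
    simp only [hexp]
  simp only [hgoal]
  have key : ∀ J : ℕ, ∫⁻ ω in AnS W z₀ h δ R J,
        ENNReal.ofReal (M W z₀ h ε θ q q₃ c₁ F₃ F₂ J ω) ∂μ +
      ∑ j ∈ Finset.range J, ENNReal.ofReal (h * c₂ * f / (2 * e ^ 2)) * y j ≤
      ENNReal.ofReal Q ^ J * ENNReal.ofReal (Real.exp (-(q * θ)) * F₂ z₀) := by
    intro J
    induction J with
    | zero =>
      simpa using base (W := W) (μ := μ) (h := h) (ε := ε) (θ := θ) (c₁ := c₁) hδ hqq hF₂ hsw z₀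
    | succ j ih =>
      have s1 := step (θ := θ) hW hh hQ hδ hqq hF₃m hF₂m hF₂ hsw h3 h2 z₀ j
      have s2 := gain (ε := ε) (θ := θ) (q := q) (c₁ := c₁) hW hh hδ hc₂ hhc hf he hF₃m hF₂m
        hF₃ hF₂ hfe z₀ j
      have hyj : ∫⁻ ω in OcT W z₀ h δ R ε θ e j,
          ENNReal.ofReal (Real.exp (ex W z₀ h ε θ q₃ c₁ j ω -
            q₃ * Real.log ‖DiscAux.Z W z₀ h j ω‖)) ∂μ = y j := by rw [hy]
      rw [hyj] at s2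
      obtain ⟨b1, hb1⟩ : ∃ b1, b1 = ∫⁻ ω in AnS W z₀ h δ R (j + 1),
        ENNReal.ofReal (M W z₀ h ε θ q q₃ c₁ F₃ F₂ (j + 1) ω) ∂μ := ⟨_, rfl⟩
      obtain ⟨b0, hb0⟩ : ∃ b0, b0 = ∫⁻ ω in AnS W z₀ h δ R j,
        ENNReal.ofReal (M W z₀ h ε θ q q₃ c₁ F₃ F₂ j ω) ∂μ := ⟨_, rfl⟩
      obtain ⟨d, hd⟩ : ∃ d, d = ∫⁻ ω in AnS W z₀ h δ R j,
        ENNReal.ofReal (D W z₀ h ε θ q q₃ c₁ c₂ F₃ F₂ j ω) ∂μ := ⟨_, rfl⟩
      obtain ⟨x, hx⟩ : ∃ x, x = ENNReal.ofReal (h * c₂ * f / (2 * e ^ 2)) * y j := ⟨_, rfl⟩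
      obtain ⟨S, hS⟩ : ∃ S, S = ∑ j ∈ Finset.range j,
        ENNReal.ofReal (h * c₂ * f / (2 * e ^ 2)) * y j := ⟨_, rfl⟩
      rw [← hb1, ← hd] at s1
      rw [← hd, ← hx, ← hb0] at s2
      rw [← hb0, ← hS] at ih
      rw [Finset.sum_range_succ, ← hb1, ← hS, ← hx]
      have hxq : x ≤ ENNReal.ofReal Q * x := by
        calc x = 1 * x := (one_mul x).symm
          _ ≤ ENNReal.ofReal Q * x := by gcongr
      have hSq : S ≤ ENNReal.ofReal Q * S := by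
        calc S = 1 * S := (one_mul S).symm
          _ ≤ ENNReal.ofReal Q * S := by gcongr
      calc b1 + (S + x) = (b1 + x) + S := by ring
        _ ≤ (ENNReal.ofReal Q * d + ENNReal.ofReal Q * x) + ENNReal.ofReal Q * S := by gcongr
        _ = ENNReal.ofReal Q * ((d + x) + S) := by ring
        _ ≤ ENNReal.ofReal Q * (b0 + S) := by gcongr
        _ ≤ ENNReal.ofReal Q *
            (ENNReal.ofReal Q ^ j * ENNReal.ofReal (Real.exp (-(q * θ)) * F₂ z₀)) := by gcongr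
        _ = ENNReal.ofReal Q ^ (j + 1) *
            ENNReal.ofReal (Real.exp (-(q * θ)) * F₂ z₀) := by ring
  have hkey := le_trans le_add_self (key J)
  have hr0 : 0 ≤ 2 * e ^ 2 / (c₂ * f) := by positivity
  have e1 : ∀ j : ℕ, ENNReal.ofReal h * y j =
      ENNReal.ofReal (2 * e ^ 2 / (c₂ * f)) *
        (ENNReal.ofReal (h * c₂ * f / (2 * e ^ 2)) * y j) := by
    intro j
    rw [← mul_assoc, ← ENNReal.ofReal_mul hr0]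
    congr 2
    field_simp
  calc ∑ j ∈ Finset.range J, ENNReal.ofReal h * y j
      = ENNReal.ofReal (2 * e ^ 2 / (c₂ * f)) *
        ∑ j ∈ Finset.range J, ENNReal.ofReal (h * c₂ * f / (2 * e ^ 2)) * y j := by
        rw [Finset.mul_sum]
        exact Finset.sum_congr rfl fun j _ => e1 j
    _ ≤ ENNReal.ofReal (2 * e ^ 2 / (c₂ * f)) *
        (ENNReal.ofReal Q ^ J * ENNReal.ofReal (Real.exp (-(q * θ)) * F₂ z₀)) := by gcongr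
    _ = ENNReal.ofReal (2 * e ^ 2 / (c₂ * f) * Q ^ J * Real.exp (-(q * θ)) * F₂ z₀) := by
        rw [← ENNReal.ofReal_pow (by linarith), ← ENNReal.ofReal_mul (by positivity),
          ← ENNReal.ofReal_mul hr0]
        congr 1
        ring

end

end Pool.Agent.SLE
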