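import Pool.Agent.Lib.MP_c17912_pr_TC.FCD
import Pool.Agent.Lib.MP_c17912_pr_TR.SCL
import Pool.Agent.Lib.MP_c17912_pr_TR.PAT

/-!
# MP_c17912_pr, project TC: shift and scaling of ph, tk, ck
-/

set_option autoImplicit false

open MeasureTheory ProbabilityTheory Filter
open scoped NNReal ENNReal Topology Real

namespace Pool.Agent.SLE

noncomputable section

namespace TCFCA

theorem kk_scale {r : ℝ} (hr : 0 < r) (ε : ℝ) (z : ℂ) :
    kk 1 ε (r⁻¹ • z) = r ^ 2 * kk 1 ε z := by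
  have hrc : (r : ℂ) ≠ 0 := by exact_mod_cast hr.ne'
  have h1 : 1 / (r⁻¹ • z) ^ 2 = ((r ^ 2 : ℝ) : ℂ) * (1 / z ^ 2) := by
    rw [Complex.real_smul, mul_pow]
    push_cast
    rw [one_div, mul_inv, inv_pow, inv_inv, one_div]
  have h2 : ‖r⁻¹ • z‖ ^ 2 = (r ^ 2)⁻¹ * ‖z‖ ^ 2 := by
    rw [norm_smul, norm_inv, Real.norm_of_nonneg hr.le, mul_pow, inv_pow]
  unfold kk
  rw [h1, h2, Complex.re_ofReal_mul, div_eq_mul_inv ε ((r ^ 2)⁻¹ * ‖z‖ ^ 2), mul_inv, inv_inv,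
    div_eq_mul_inv ε (‖z‖ ^ 2)]
  ring

theorem mx {r x : ℝ} (hr : 0 < r) :
    1 / (r⁻¹ * x * max (r⁻¹ * x) 1) = r ^ 2 * (1 / (x * max x r)) := by
  have h1 : max (r⁻¹ * x) 1 = r⁻¹ * max x r := by
    rw [mul_max_of_nonneg _ _ (inv_nonneg.2 hr.le), inv_mul_cancel₀ hr.ne']
  rw [h1, one_div, one_div, mul_inv, mul_inv, mul_inv, mul_inv, inv_inv]
  ring

end TCFCA

/-- TC-FCA1. `ph` of the solution restarted at the time `α` (scale `1`).

Proof. `Z` of the shifted solution at the time `v` is `Z_(α+v)` (`TRPAT.shift_eq`); substitution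
in the integral and `∫_0^(α+τ) = ∫_0^α + ∫_α^(α+τ)` (`kk 1 ε` is continuous off `0`, `Z` is
continuous and does not vanish on `[0,T]`; see `TRSTR.ph_cont` for the integrability). -/
theorem ph_shift {U : ℝ → ℂ} (hU : Continuous U) {z : ℂ} {T ε : ℝ} {g : ℝ → ℂ}
    (hg : Sol U z T g) {α τ : ℝ} (hα : 0 ≤ α) (hτ : 0 ≤ τ) (hT : α + τ ≤ T) :
    ph (psub U α 1) (fun v => (1 : ℝ)⁻¹ • (g (α + 1 ^ 2 * v) - U α)) ε τ =
      ph U g ε (α + τ) - ∫ v in (0 : ℝ)..α, kk 1 ε (g v - U v) := by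
  have hα0 : 0 ≤ α + τ := by linarith
  have hc : ContinuousOn (fun v => kk 1 ε (g v - U v)) (Set.Icc 0 T) := TRPHS.cont hU hg
  have hint : ∀ x y : ℝ, 0 ≤ x → x ≤ y → y ≤ T →
      IntervalIntegrable (fun v => kk 1 ε (g v - U v)) volume x y := by
    intro x y hx hxy hy
    apply ContinuousOn.intervalIntegrable
    rw [Set.uIcc_of_le hxy]
    exact hc.mono (Set.Icc_subset_Icc hx hy)
  have h1 : ∫ v in (0 : ℝ)..τ, kk 1 ε ((1 : ℝ)⁻¹ • (g (α + 1 ^ 2 * v) - U α) - psub U α 1 v) =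
      ∫ v in (0 : ℝ)..τ, (fun w => kk 1 ε (g w - U w)) (α + v) := by
    refine intervalIntegral.integral_congr fun v hv => ?_
    rw [Set.uIcc_of_le hτ] at hv
    simp only [TRPAT.shift_eq U g α hv.1]
  have h2 : ∫ v in (0 : ℝ)..(α + τ), kk 1 ε (g v - U v) =
      (∫ v in (0 : ℝ)..α, kk 1 ε (g v - U v)) + ∫ v in α..(α + τ), kk 1 ε (g v - U v) :=
    (intervalIntegral.integral_add_adjacent_intervals (hint 0 α le_rfl hα (by linarith))
      (hint α (α + τ) hα (by linarith) hT)).symm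
  unfold ph
  rw [h1, intervalIntegral.integral_comp_add_left (fun w => kk 1 ε (g w - U w)) α, add_zero,
    TRPAT.shift_eq U g α hτ, h2]
  ring

/-- TC-FCA2. Scaling of `ph`. (`Z` of the scaled solution at the time `v` is
`r⁻¹ • Z_(r² v)` (`TRSCL.diff_eq`), `kk 1 ε (r⁻¹ • z) = r ^ 2 * kk 1 ε z`, substitution.) -/
theorem ph_scale {U : ℝ → ℂ} {z : ℂ} {T ε r : ℝ} (hr : 0 < r) {g : ℝ → ℂ}
    (hg : Sol U z T g) {τ : ℝ} (hτ : 0 ≤ τ) (hT : r ^ 2 * τ ≤ T) :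
    ph (psub U 0 r) (gs U g 0 r) ε τ = ph U g ε (r ^ 2 * τ) + Real.log r := by
  have hr2 : 0 < r ^ 2 := by positivity
  have hne : g (r ^ 2 * τ) - U (r ^ 2 * τ) ≠ 0 :=
    sub_ne_zero.2 (hg.2.1 _ ⟨by positivity, hT⟩)
  have h1 : ∫ v in (0 : ℝ)..τ, kk 1 ε (gs U g 0 r v - psub U 0 r v) =
      ∫ v in (0 : ℝ)..τ, r ^ 2 * kk 1 ε (g (r ^ 2 * v) - U (r ^ 2 * v)) := by
    refine intervalIntegral.integral_congr fun v hv => ?_
    rw [Set.uIcc_of_le hτ] at hv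
    simp only [TRSCL.diff_eq U g 0 r hv.1, zero_add, TCFCA.kk_scale hr]
  unfold ph
  rw [h1, intervalIntegral.integral_const_mul,
    intervalIntegral.mul_integral_comp_mul_left
      (f := fun v => kk 1 ε (g v - U v)) (r ^ 2), mul_zero, TRSCL.norm_eq U g 0 hr hτ, zero_add,
    Real.log_mul (inv_ne_zero hr.ne') (norm_ne_zero_iff.2 hne), Real.log_inv]
  ring

/-- TC-FCA3. Scaling of `fresh`. -/
theorem fresh_scale {U : ℝ → ℂ} {z : ℂ} {T ε r : ℝ} (hr : 0 < r) {g : ℝ → ℂ}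
    (hg : Sol U z T g) {t : ℝ} (ht : 0 ≤ t) (hT : t ≤ T) {d : ℝ}
    (hf : fresh U g ε d t) : fresh (psub U 0 r) (gs U g 0 r) ε d (t / r ^ 2) := by
  have hr2 : 0 < r ^ 2 := by positivity
  have ht2 : r ^ 2 * (t / r ^ 2) = t := by field_simp
  intro v hv
  have hv2 : r ^ 2 * v ≤ t := by
    have h1 := mul_le_mul_of_nonneg_left hv.2 hr2.le
    rwa [ht2] at h1
  rw [ph_scale hr hg hv.1 (hv2.trans hT), ph_scale hr hg (div_nonneg ht hr2.le)
    (by rw [ht2]; exact hT), ht2]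
  have h2 := hf (r ^ 2 * v) ⟨mul_nonneg hr2.le hv.1, hv2⟩
  linarith

/-- TC-FCA4. Scaling of `ck` (as `TRSCL.lk_scale`). -/
theorem ck_scale (U g : ℝ → ℂ) (M j : ℕ) :
    ck (psub U 0 (rr M)) (gs U g 0 (rr M)) 1 j = ck U g (rr M) j := by
  unfold ck
  rw [one_pow, mul_one, mul_one]
  exact lk_scale U g (TRSCL.rr_pos M) (Nat.cast_nonneg j) (by linarith)

/-- TC-FCA5. Scaling of `tk`. -/
theorem tk_scale (U g : ℝ → ℂ) {r : ℝ} (hr : 0 < r) {s t : ℝ} (hs : 0 ≤ s) (hst : s ≤ t) :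
    tk (psub U 0 r) (gs U g 0 r) 1 s t = tk U g r (s * r ^ 2) (t * r ^ 2) := by
  unfold tk
  have h1 : (∫ u in s..t, 1 / (‖gs U g 0 r u - psub U 0 r u‖ *
      max ‖gs U g 0 r u - psub U 0 r u‖ 1)) =
      ∫ u in s..t, r ^ 2 * (1 / (‖g (r ^ 2 * u) - U (r ^ 2 * u)‖ *
        max ‖g (r ^ 2 * u) - U (r ^ 2 * u)‖ r)) := by
    refine intervalIntegral.integral_congr fun u hu => ?_
    rw [Set.uIcc_of_le hst] at hu
    simp only [TRSCL.norm_eq U g 0 hr (hs.trans hu.1), zero_add, TCFCA.mx hr]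
  rw [h1, intervalIntegral.integral_const_mul,
    intervalIntegral.mul_integral_comp_mul_left
      (f := fun v => 1 / (‖g v - U v‖ * max ‖g v - U v‖ r)) (r ^ 2), mul_comm s, mul_comm t]

/-- TC-FCA6. `tk` of the solution restarted at the time `α` (scale `1`). -/
theorem tk_shift (U g : ℝ → ℂ) {α t : ℝ} (hαt : α ≤ t) :
    tk (psub U α 1) (fun v => (1 : ℝ)⁻¹ • (g (α + 1 ^ 2 * v) - U α)) 1 0 (t - α) =
      tk U g 1 α t := by
  unfold tk
  have h1 : ∫ u in (0 : ℝ)..(t - α),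
      1 / (‖(1 : ℝ)⁻¹ • (g (α + 1 ^ 2 * u) - U α) - psub U α 1 u‖ *
        max ‖(1 : ℝ)⁻¹ • (g (α + 1 ^ 2 * u) - U α) - psub U α 1 u‖ 1) =
      ∫ u in (0 : ℝ)..(t - α), (fun v => 1 / (‖g v - U v‖ * max ‖g v - U v‖ 1)) (α + u) := by
    refine intervalIntegral.integral_congr fun u hu => ?_
    rw [Set.uIcc_of_le (by linarith)] at hu
    simp only [TRPAT.shift_eq U g α hu.1]
  rw [h1, intervalIntegral.integral_comp_add_left
    (fun v => 1 / (‖g v - U v‖ * max ‖g v - U v‖ 1)) α, add_zero, add_sub_cancel]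

end

end Pool.Agent.SLE
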