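import Pool.Agent.Lib.MP_c17912_pr_TC.FCD
import Pool.Agent.Lib.MP_c17912_pr_TR.CRU
import Pool.Agent.Lib.MP_c17912_pr_TR.STR

/-!
# MP_c17912_pr, project TC: crude bound backwards in time, the first break
-/

set_option autoImplicit false

open MeasureTheory ProbabilityTheory Filter
open scoped NNReal ENNReal Topology Real

namespace Pool.Agent.SLE

noncomputable section

namespace TCFCAb

/-- the first point of a closed set of records -/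
theorem first {a b : ℝ} {f p : ℝ → ℝ} (hf : ContinuousOn f (Set.Icc a b))
    (hp : ContinuousOn p (Set.Icc a b)) {α d c : ℝ}
    (hK : ∃ v ∈ Set.Icc a b, f v ≤ c ∧ ∀ w, α ≤ w → w < v → p w ≤ p v + d) :
    ∃ v ∈ Set.Icc a b, f v ≤ c ∧ (∀ w, α ≤ w → w < v → p w ≤ p v + d) ∧
      ∀ v' ∈ Set.Icc a b, f v' ≤ c → (∀ w, α ≤ w → w < v' → p w ≤ p v' + d) → v ≤ v' := by
  obtain ⟨K, hKd⟩ : ∃ K : Set ℝ, K = (Set.Icc a b ∩ f ⁻¹' Set.Iic c) ∩
      ⋂ w ∈ Set.Ici α, ((Set.Icc a b ∩ p ⁻¹' Set.Ici (p w - d)) ∪ (Set.Icc a b ∩ Set.Iic w)) :=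
    ⟨_, rfl⟩
  have hmem : ∀ v, v ∈ K ↔ v ∈ Set.Icc a b ∧ f v ≤ c ∧
      ∀ w, α ≤ w → w < v → p w ≤ p v + d := by
    intro v
    rw [hKd]
    simp only [Set.mem_inter_iff, Set.mem_preimage, Set.mem_Iic, Set.mem_iInter, Set.mem_union,
      Set.mem_Ici]
    constructor
    · rintro ⟨⟨h1, h2⟩, h3⟩
      refine ⟨h1, h2, fun w hw hwv => ?_⟩
      rcases h3 w hw with h4 | h4
      · linarith [h4.2]
      · linarith [h4.2]
    · rintro ⟨h1, h2, h3⟩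
      refine ⟨⟨h1, h2⟩, fun w hw => ?_⟩
      rcases lt_or_ge w v with h4 | h4
      · exact Or.inl ⟨h1, by linarith [h3 w hw h4]⟩
      · exact Or.inr ⟨h1, h4⟩
  have hcl : IsClosed K := by
    rw [hKd]
    refine (hf.preimage_isClosed_of_isClosed isClosed_Icc isClosed_Iic).inter ?_
    refine isClosed_biInter fun w _ => ?_
    exact (hp.preimage_isClosed_of_isClosed isClosed_Icc isClosed_Ici).union
      (isClosed_Icc.inter isClosed_Iic)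
  have hcp : IsCompact K := isCompact_Icc.of_isClosed_subset hcl fun v hv => ((hmem v).1 hv).1
  obtain ⟨v₀, h1, h2, h3⟩ := hK
  obtain ⟨v, hv1, hv2⟩ := hcp.exists_isLeast ⟨v₀, (hmem v₀).2 ⟨h1, h2, h3⟩⟩
  obtain ⟨h4, h5, h6⟩ := (hmem v).1 hv1
  exact ⟨v, h4, h5, h6, fun v' a1 a2 a3 => hv2 ((hmem v').2 ⟨a1, a2, a3⟩)⟩

theorem contZ {U : ℝ → ℂ} (hU : Continuous U) {z : ℂ} {T : ℝ} {g : ℝ → ℂ}
    (hg : Sol U z T g) : ContinuousOn (fun v => ‖g v - U v‖) (Set.Icc 0 T) := fun x hx =>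
  ((hg.2.2 x hx).continuousWithinAt.sub hU.continuousAt.continuousWithinAt).norm

/-- a time in a cell which is not a break -/
theorem cell {U : ℝ → ℂ} {ε d : ℝ} {g : ℝ → ℂ} {α t : ℕ}
    (hno : ∀ j, α ≤ j → j < t → ¬ brk U g ε d 1 α j) {v : ℝ} (h1 : (α : ℝ) ≤ v) (h2 : v < t)
    (h3 : ‖g v - U v‖ ≤ 1) :
    ∃ w ∈ Set.Icc (α : ℝ) v, ph U g ε v + d < ph U g ε w := by
  by_contra hcon
  push Not at hcon
  have hv0 : 0 ≤ v := le_trans (Nat.cast_nonneg α) h1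
  refine hno ⌊v⌋₊ (Nat.le_floor h1) ((Nat.floor_lt hv0).2 h2) ⟨v, ⟨?_, ?_⟩, h3, ?_⟩
  · rw [one_pow, mul_one]
    exact Nat.floor_le hv0
  · rw [one_pow, mul_one]
    exact (Nat.lt_floor_add_one v).le
  · intro w hw
    rw [one_pow, mul_one] at hw
    exact hcon w hw

end TCFCAb

/-- TC-FCA7. Crude bound backwards in time.

Proof. Let `v ∈ [s,t]`. If `|Z| ≥ 1` on `[v,t]`: `cr_move` with `ρ = 1`. Otherwise let `w` be the
first time of `[v,t]` with `|Z_w| ≤ 1`; if `v < w` then `|Z| ≥ 1` on `[v,w]`, `|Z_w| = 1`, and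
`cr_move` on `[v,w]` gives `|Z_v| ≤ 1 + 2 (w - v) + |U w - U v| ≤ B + 2 (t - s) + 2 x`. -/
theorem back_bound {U : ℝ → ℂ} (hU : Continuous U) {z : ℂ} {T : ℝ} {g : ℝ → ℂ}
    (hg : Sol U z T g) {s t : ℝ} (hs : 0 ≤ s) (hst : s ≤ t) (ht : t ≤ T) {B x : ℝ} (hB1 : 1 ≤ B)
    (hB : ‖g t - U t‖ ≤ B) (hosc : ∀ v ∈ Set.Icc s t, ‖U v - U t‖ ≤ x) :
    ∀ v ∈ Set.Icc s t, ‖g v - U v‖ ≤ B + 2 * (t - s) + 2 * x := by
  intro v hv
  have hx : 0 ≤ x := le_trans (norm_nonneg _) (hosc t ⟨hst, le_rfl⟩)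
  have hcont : ContinuousOn (fun v => ‖g v - U v‖) (Set.Icc 0 T) := TCFCAb.contZ hU hg
  have hv0 : 0 ≤ v := hs.trans hv.1
  by_cases h : ∃ u ∈ Set.Icc v t, ‖g u - U u‖ ≤ 1
  · obtain ⟨u₀, hu₀, hu₁⟩ := h
    have hcv : ContinuousOn (fun v => ‖g v - U v‖) (Set.Icc v t) :=
      hcont.mono (Set.Icc_subset_Icc hv0 ht)
    obtain ⟨w, ⟨hw1, hw2⟩, hw3⟩ := IsCompact.exists_isLeast
      (s := Set.Icc v t ∩ (fun v => ‖g v - U v‖) ⁻¹' Set.Iic 1)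
      (isCompact_Icc.of_isClosed_subset
        (hcv.preimage_isClosed_of_isClosed isClosed_Icc isClosed_Iic) Set.inter_subset_left)
      ⟨u₀, hu₀, hu₁⟩
    have hw4 : ‖g w - U w‖ ≤ 1 := hw2
    have hlt : ∀ u, v ≤ u → u < w → 1 < ‖g u - U u‖ := fun u h1 h2 => by
      by_contra h3
      have := hw3 ⟨⟨h1, h2.le.trans hw1.2⟩, not_lt.1 h3⟩
      linarith
    rcases hw1.1.lt_or_eq with h1 | h1
    · have hfw : ‖g w - U w‖ = 1 := by
        obtain ⟨u, hu, hu2⟩ := intermediate_value_Icc' h1.le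
          (hcv.mono (Set.Icc_subset_Icc le_rfl hw1.2))
          (show (1 : ℝ) ∈ Set.Icc ‖g w - U w‖ ‖g v - U v‖ from ⟨hw4, (hlt v le_rfl h1).le⟩)
        have hu3 : ‖g u - U u‖ = 1 := hu2
        rcases hu.2.lt_or_eq with h2 | h2
        · linarith [hlt u hu.1 h2]
        · rw [← h2]
          exact hu3
      have h2 := cr_move (ρ := 1) one_pos hg hv0 h1.le (hw1.2.trans ht) (fun u hu => by
        rcases hu.2.lt_or_eq with h3 | h3
        · exact (hlt u hu.1 h3).le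
        · rw [h3, hfw])
      have h3 := hosc w ⟨hv.1.trans h1.le, hw1.2⟩
      have h4 := hosc v hv
      have h5 : ‖U w - U v‖ ≤ 2 * x := by
        calc ‖U w - U v‖ = ‖(U w - U t) - (U v - U t)‖ := by congr 1; ring
          _ ≤ ‖U w - U t‖ + ‖U v - U t‖ := norm_sub_le _ _
          _ ≤ 2 * x := by linarith
      have h6 : ‖g v - U v‖ ≤ ‖g w - U w‖ + ‖(g w - U w) - (g v - U v)‖ := by
        have := norm_sub_le (g w - U w) ((g w - U w) - (g v - U v))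
        rwa [sub_sub_cancel] at this
      have h7 := hw1.2
      have h8 := hv.1
      linarith
    · rw [h1]
      have := hv.1
      linarith
  · push Not at h
    have h2 := cr_move (ρ := 1) one_pos hg hv0 hv.2 ht (fun u hu => (h u hu).le)
    have h4 := hosc v hv
    rw [norm_sub_rev] at h4
    have h6 : ‖g v - U v‖ ≤ ‖g t - U t‖ + ‖(g t - U t) - (g v - U v)‖ := by
      have := norm_sub_le (g t - U t) ((g t - U t) - (g v - U v))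
      rwa [sub_sub_cancel] at this
    have h8 := hv.1
    linarith

/-- TC-FCA8. The first break of a piece: a break cell contains a first break time.

Proof. `K = {v ∈ [t, t+1] | ‖Z_v‖ ≤ 1 ∧ ∀ w ∈ [α, v], ph w ≤ ph v + d}` is not empty (the break)
and compact (`ph` is continuous on `[0,u]`, `TRSTR.ph_cont`; if `v_n → v` with `v_n ∈ K` and
`w ∈ [α, v)`, then `w ≤ v_n` eventually). Let `u'` be its minimum. For `v ∈ [α, u')` with
`‖Z_v‖ ≤ 1`: if `v < t`, then `v` is in a cell `j`, `α ≤ j < t` (`j = ⌊v⌋₊`), which is not a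
break; if `t ≤ v`, then `v ∉ K`. -/
theorem first_brk {U : ℝ → ℂ} (hU : Continuous U) {z : ℂ} {u ε d : ℝ} {g : ℝ → ℂ}
    (hg : Sol U z u g) {α t : ℕ} (hαt : α ≤ t) (htu : (t : ℝ) + 1 ≤ u)
    (hno : ∀ j, α ≤ j → j < t → ¬ brk U g ε d 1 α j) (hbr : brk U g ε d 1 α t) :
    ∃ u' ∈ Set.Icc (t : ℝ) (t + 1), ‖g u' - U u'‖ ≤ 1 ∧
      (∀ v ∈ Set.Icc (α : ℝ) u', ph U g ε v ≤ ph U g ε u' + d) ∧
      ∀ v ∈ Set.Ico (α : ℝ) u', ‖g v - U v‖ ≤ 1 →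
        ∃ w ∈ Set.Icc (α : ℝ) v, ph U g ε v + d < ph U g ε w := by
  have hα0 : (0 : ℝ) ≤ α := Nat.cast_nonneg α
  have ht0 : (0 : ℝ) ≤ t := Nat.cast_nonneg t
  have hαt' : (α : ℝ) ≤ t := by exact_mod_cast hαt
  have hu0 : 0 ≤ u := by linarith
  have hsub : Set.Icc (t : ℝ) (t + 1) ⊆ Set.Icc 0 u := Set.Icc_subset_Icc ht0 htu
  obtain ⟨v₀, hv₀, hb1, hb2⟩ := hbr
  rw [one_pow, mul_one, mul_one] at hv₀
  rw [one_pow, mul_one] at hb2
  have hd : 0 ≤ d := by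
    have := hb2 v₀ ⟨hαt'.trans hv₀.1, le_rfl⟩
    linarith
  obtain ⟨u', hu', h1, h2, h3⟩ := TCFCAb.first (α := α) (d := d) (c := 1)
    ((TCFCAb.contZ hU hg).mono hsub) ((TRSTR.ph_cont (ε := ε) hU hu0 hg).mono hsub)
    ⟨v₀, hv₀, hb1, fun w hw1 hw2 => hb2 w ⟨hw1, hw2.le⟩⟩
  refine ⟨u', hu', h1, fun v hv => ?_, fun v hv hv1 => ?_⟩
  · rcases hv.2.lt_or_eq with h4 | h4
    · exact h2 v hv.1 h4
    · rw [h4]
      linarith
  · rcases lt_or_ge v t with h4 | h4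
    · exact TCFCAb.cell hno hv.1 h4 hv1
    · by_contra hcon
      push Not at hcon
      have := h3 v ⟨h4, hv.2.le.trans hu'.2⟩ hv1 (fun w hw1 hw2 => hcon w ⟨hw1, hw2.le⟩)
      linarith [hv.2]

/-- TC-FCA9. The first break of the last piece of a solution which is fresh at its end `u`
(`T ≤ u ≤ T + 1`).

Proof. As `first_brk` with
`K = {v ∈ [T, u] | (‖Z_v‖ ≤ 1 ∨ v = u) ∧ ∀ w ∈ [α, v], ph w ≤ ph v + d}`, which contains `u`. -/
theorem first_brk_end {U : ℝ → ℂ} (hU : Continuous U) {z : ℂ} {u ε d : ℝ} {g : ℝ → ℂ}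
    (hg : Sol U z u g) {α T : ℕ} (hαt : α ≤ T) (hTu : (T : ℝ) ≤ u) (huT : u ≤ T + 1)
    (hno : ∀ j, α ≤ j → j < T → ¬ brk U g ε d 1 α j) (hd : 0 ≤ d) (hf : fresh U g ε d u) :
    ∃ u' ∈ Set.Icc (T : ℝ) u,
      (∀ v ∈ Set.Icc (α : ℝ) u', ph U g ε v ≤ ph U g ε u' + d) ∧
      ∀ v ∈ Set.Ico (α : ℝ) u', ‖g v - U v‖ ≤ 1 →
        ∃ w ∈ Set.Icc (α : ℝ) v, ph U g ε v + d < ph U g ε w := by
  have hT0 : (0 : ℝ) ≤ T := Nat.cast_nonneg T
  have hu0 : 0 ≤ u := hT0.trans hTu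
  have hα0 : (0 : ℝ) ≤ α := Nat.cast_nonneg α
  have hsub : Set.Icc (T : ℝ) u ⊆ Set.Icc 0 u := Set.Icc_subset_Icc hT0 le_rfl
  by_cases hK : ∃ v ∈ Set.Icc (T : ℝ) u, ‖g v - U v‖ ≤ 1 ∧
      ∀ w, (α : ℝ) ≤ w → w < v → ph U g ε w ≤ ph U g ε v + d
  · obtain ⟨u', hu', h1, h2, h3⟩ := TCFCAb.first (α := α) (d := d) (c := 1)
      ((TCFCAb.contZ hU hg).mono hsub) ((TRSTR.ph_cont (ε := ε) hU hu0 hg).mono hsub) hK
    refine ⟨u', hu', fun v hv => ?_, fun v hv hv1 => ?_⟩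
    · rcases hv.2.lt_or_eq with h4 | h4
      · exact h2 v hv.1 h4
      · rw [h4]
        linarith
    · rcases lt_or_ge v T with h4 | h4
      · exact TCFCAb.cell hno hv.1 h4 hv1
      · by_contra hcon
        push Not at hcon
        have := h3 v ⟨h4, hv.2.le.trans hu'.2⟩ hv1 (fun w hw1 hw2 => hcon w ⟨hw1, hw2.le⟩)
        linarith [hv.2]
  · refine ⟨u, ⟨hTu, le_rfl⟩, fun v hv => hf v ⟨hα0.trans hv.1, hv.2⟩, fun v hv hv1 => ?_⟩
    rcases lt_or_ge v T with h4 | h4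
    · exact TCFCAb.cell hno hv.1 h4 hv1
    · by_contra hcon
      push Not at hcon
      exact hK ⟨v, ⟨h4, hv.2.le⟩, hv1, fun w hw1 hw2 => hcon w ⟨hw1, hw2.le⟩⟩

end

end Pool.Agent.SLE
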