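import Pool.Agent.Lib.MP_c17912_pr_TC.FCA
import Pool.Agent.Lib.MP_c17912_pr_TR.PAT

/-!
# MP_c17912_pr, project TC: the bound for a piece in the middle of a solution
-/

set_option autoImplicit false

open MeasureTheory ProbabilityTheory Filter
open scoped NNReal ENNReal Topology Real

namespace Pool.Agent.SLE

noncomputable section

variable {Ω : Type*} [MeasurableSpace Ω]

namespace TCFCAc

private theorem lk_sum' {U : ℝ → ℂ} (hU : Continuous U) {z : ℂ} {T : ℝ} {g : ℝ → ℂ}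
    (hg : Sol U z T g) {α t : ℕ} (hαt : α < t) (htT : (t : ℝ) ≤ T) :
    lk (psub U α 1) (fun τ => (1 : ℝ)⁻¹ • (g (α + 1 ^ 2 * τ) - U α)) 0
      (((t - α : ℕ) : ℝ) - 1) = ∑ j ∈ Finset.Ico α (t - 1), ck U g 1 j := by
  have h1 : (((t - α : ℕ) : ℝ) - 1) = ((t - 1 : ℕ) : ℝ) - α := by
    rw [Nat.cast_sub hαt.le, Nat.cast_sub (by omega), Nat.cast_one]
    ring
  have h2 : (α : ℝ) ≤ ((t - 1 : ℕ) : ℝ) := by
    have : α ≤ t - 1 := by omega
    exact_mod_cast this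
  have h3 : ((t - 1 : ℕ) : ℝ) ≤ T := by
    have : ((t - 1 : ℕ) : ℝ) ≤ t := by exact_mod_cast Nat.sub_le t 1
    linarith
  rw [h1, TRPAT.lk_shift U g h2, TRPAT.lk_sum hU hg (by omega) h3]
  rfl

end TCFCAc

omit [MeasurableSpace Ω] in
/-- TC-FCA10. The bound for a piece in the middle of a solution.

Proof. As `TRPAT.app`: apply `PieceP` to the shifted solution
`τ ↦ 1⁻¹ • (g (α + 1^2 τ) - U α)` on `[0, u' - α]` (`Sol.restrict`, `Sol.shift`), with the integer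
`t - α` and the time `u' - α`. Its first cell is not low (`¬ low U g 1 α`: `|Z| > 1` on
`[α, α+1]`, and `α + 1 ≤ t ≤ u'`). `fresh` and the condition of the first break are transported
by `ph_shift` (the constant cancels). The clock: `TRPAT.lk_shift`, `TRPAT.lk_sum`
(`ck U g 1 j = lk U g (j * 1 ^ 2) ((j + 1) * 1 ^ 2)` by definition; `lk_sum` is stated for a
natural number `T`: prove the same for the real `u`, `t ≤ u`); `(t - α : ℕ) - 1 = (t - 1) - α`,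
so the clock over `[0, t - α - 1]` of the shifted solution is the sum over `Ico α (t - 1)`. -/
theorem piece_app {C c₁ ε d : ℝ} {p : ℕ} {W : ℝ → Ω → ℂ} {ω : Ω}
    (hU : Continuous fun t => W t ω) {α t : ℕ} {wt Y : ℕ → Ω → ℝ≥0∞}
    (hY : PieceP C c₁ ε d p (subP W α 1) wt Y) {z : ℂ} {u u' : ℝ} {g : ℝ → ℂ}
    (hg : Sol (fun t => W t ω) z u g) (hαt : α < t) (htu : (t : ℝ) ≤ u') (hut : u' ≤ t + 1)
    (huu : u' ≤ u) (hn : ¬ low (fun t => W t ω) g 1 α) {s e B : ℝ} (hs : 1 ≤ s) (he : 1 ≤ e)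
    (hZα : ‖g α - W α ω‖ ≤ s)
    (hZt : ∀ v ∈ Set.Icc ((t : ℝ) - 1) u', ‖g v - W v ω‖ ≤ e)
    (hf : ∀ v ∈ Set.Icc (α : ℝ) u', ph (fun t => W t ω) g ε v ≤ ph (fun t => W t ω) g ε u' + d)
    (h1 : ∀ v ∈ Set.Ico (α : ℝ) u', ‖g v - W v ω‖ ≤ 1 → ∃ w ∈ Set.Icc (α : ℝ) v,
      ph (fun t => W t ω) g ε v + d < ph (fun t => W t ω) g ε w)
    (hB : C * (s * e) ^ p ≤ B) :
    ENNReal.ofReal (Real.exp (c₁ * ∑ j ∈ Finset.Ico α (t - 1), ck (fun t => W t ω) g 1 j)) *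
      wt (t - α) ω ≤ ENNReal.ofReal B * Y (t - α) ω := by
  have hα0 : (0 : ℝ) ≤ α := Nat.cast_nonneg α
  have hαt1 : (α : ℝ) + 1 ≤ t := by exact_mod_cast hαt
  have hαu : (α : ℝ) ≤ u' := by linarith
  have hc : ((t - α : ℕ) : ℝ) = (t : ℝ) - α := Nat.cast_sub hαt.le
  have hg' := hg.restrict huu
  have hsol := hg'.shift hα0 hαu one_pos
  have e1 : (u' - α) / 1 ^ 2 = u' - α := by rw [one_pow, div_one]
  rw [e1] at hsol
  have hsh : ∀ v : ℝ, 0 ≤ v → (1 : ℝ)⁻¹ • (g (α + 1 ^ 2 * v) - W α ω) - subP W α 1 v ω =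
      g (α + v) - W (α + v) ω := fun v hv => TRPAT.shift_eq (fun t => W t ω) g α hv
  have hph : ∀ τ : ℝ, 0 ≤ τ → α + τ ≤ u' → ph (fun t => subP W α 1 t ω)
      (fun v => (1 : ℝ)⁻¹ • (g (α + 1 ^ 2 * v) - W α ω)) ε τ =
        ph (fun t => W t ω) g ε (α + τ) -
          ∫ v in (0 : ℝ)..α, kk 1 ε (g v - W v ω) := fun τ hτ hT =>
    ph_shift (U := fun t => W t ω) hU hg' hα0 hτ hT
  have hYa := hY ω (t - α) (u' - α) ((1 : ℝ)⁻¹ • (g α - W α ω))
    (fun τ => (1 : ℝ)⁻¹ • (g (α + 1 ^ 2 * τ) - W α ω)) s e (by omega)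
    (by rw [hc]; linarith) (by rw [hc]; linarith) hs he (by rwa [inv_one, one_smul]) hsol
    ?_ ?_ ?_ ?_
  · have h2 : lk (fun t => subP W α 1 t ω)
        (fun τ => (1 : ℝ)⁻¹ • (g (α + 1 ^ 2 * τ) - W α ω)) 0 (((t - α : ℕ) : ℝ) - 1) =
        ∑ j ∈ Finset.Ico α (t - 1), ck (fun t => W t ω) g 1 j :=
      TCFCAc.lk_sum' hU hg' hαt htu
    rw [h2] at hYa
    refine hYa.trans ?_
    gcongr
  · intro v hv
    rw [hsh v hv.1]
    by_contra hlt
    refine hn ⟨α + v, ⟨?_, ?_⟩, (not_le.1 hlt).le⟩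
    · rw [one_pow, mul_one]
      linarith [hv.1]
    · rw [one_pow, mul_one]
      linarith [hv.2]
  · intro v hv
    rw [hc] at hv
    rw [hsh v (by linarith [hv.1])]
    exact hZt _ ⟨by linarith [hv.1], by linarith [hv.2]⟩
  · intro v hv
    rw [hph v hv.1 (by linarith [hv.2]), hph (u' - α) (by linarith) (by linarith)]
    have h2 := hf (α + v) ⟨by linarith [hv.1], by linarith [hv.2]⟩
    have e2 : (α : ℝ) + (u' - α) = u' := by ring
    rw [e2]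
    linarith
  · intro v hv hle
    rw [hsh v hv.1] at hle
    obtain ⟨w, hw, hlt⟩ := h1 (α + v) ⟨by linarith [hv.1], by linarith [hv.2]⟩ hle
    refine ⟨w - α, ⟨by linarith [hw.1], by linarith [hw.2]⟩, ?_⟩
    rw [hph v hv.1 (by linarith [hv.2]),
      hph (w - α) (by linarith [hw.1]) (by linarith [hw.2, hv.2])]
    have e2 : (α : ℝ) + (w - α) = w := by ring
    rw [e2]
    linarith

end

end Pool.Agent.SLE
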