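import Pool.Agent.Lib.MP_c17912_pr_TC.FCD
import Pool.Agent.Lib.MP_c17912_pr_TR.CHN

/-!
# MP_c17912_pr, project TC: the universal bounds of the chains
-/

set_option autoImplicit false

open MeasureTheory ProbabilityTheory Filter
open scoped NNReal ENNReal Topology Real

namespace Pool.Agent.SLE

noncomputable section

variable {Ω : Type*} [MeasurableSpace Ω] {μ : Measure Ω} {W : ℝ → Ω → ℂ} {a b c K : ℝ}

/-- The universal bounds of the chains. -/
def rI (D : ℕ) (y : ℕ → ℝ≥0∞) : ℕ → ℕ → ℝ≥0∞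
  | 0, t => if t = 0 then 2 else 0
  | i + 1, t => (if i = 0 then y t else 0) + ∑ s ∈ Finset.range t,
      ∑ α ∈ (Finset.Ioc s (s + D)).filter (fun α => α < t), rI D y i s * 2 * y (t - α)

namespace TCFCC

/-- The deterministic sum. -/
theorem dsum (D : ℕ) (a : ℕ → ℝ≥0∞) (y : ℕ → ℝ≥0∞) (hy : ∑' t, y t ≤ 1) :
    ∑' t, (∑ s ∈ Finset.range t, ∑ α ∈ (Finset.Ioc s (s + D)).filter (fun α => α < t),
      a s * 2 * y (t - α)) ≤ ENNReal.ofReal (2 * D) * ∑' s, a s := by
  refine ENNReal.tsum_le_of_sum_range_le fun N => ?_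
  have h1 : ∀ t ∈ Finset.range N, (∑ s ∈ Finset.range t,
      ∑ α ∈ (Finset.Ioc s (s + D)).filter (fun α => α < t), a s * 2 * y (t - α)) ≤
      ∑ s ∈ Finset.range N, ∑ α ∈ Finset.Ioc s (s + D),
        (if α < t then a s * 2 * y (t - α) else 0) := by
    intro t ht
    have hsub : Finset.range t ⊆ Finset.range N :=
      Finset.range_subset_range.2 (Finset.mem_range.1 ht).le
    refine le_trans (le_of_eq ?_) (Finset.sum_le_sum_of_subset hsub)
    refine Finset.sum_congr rfl fun s _ => ?_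
    rw [Finset.sum_filter]
  refine (Finset.sum_le_sum h1).trans ?_
  rw [Finset.sum_comm]
  have h2 : ∀ s ∈ Finset.range N, (∑ t ∈ Finset.range N, ∑ α ∈ Finset.Ioc s (s + D),
      (if α < t then a s * 2 * y (t - α) else 0)) ≤ ENNReal.ofReal (2 * D) * a s := by
    intro s _
    rw [Finset.sum_comm]
    have h3 : ∀ α ∈ Finset.Ioc s (s + D), (∑ t ∈ Finset.range N,
        (if α < t then a s * 2 * y (t - α) else 0)) ≤ a s * 2 := by
      intro α _
      have h4 : (∑ t ∈ Finset.range N, (if α < t then a s * 2 * y (t - α) else 0)) =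
          a s * 2 * ∑ t ∈ (Finset.range N).filter (fun t => α < t), y (t - α) := by
        rw [← Finset.sum_filter, Finset.mul_sum]
      rw [h4]
      have h5 : (∑ t ∈ (Finset.range N).filter (fun t => α < t), y (t - α)) ≤ 1 := by
        have h6 : (∑ t ∈ (Finset.range N).filter (fun t => α < t), y (t - α)) =
            ∑ t ∈ ((Finset.range N).filter (fun t => α < t)).image (fun t => t - α), y t := by
          rw [Finset.sum_image]
          intro t ht t' ht' h
          have h7 : α < t := (Finset.mem_filter.1 ht).2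
          have h8 : α < t' := (Finset.mem_filter.1 ht').2
          have h9 : t - α = t' - α := h
          omega
        rw [h6]
        exact (ENNReal.sum_le_tsum _).trans hy
      calc a s * 2 * ∑ t ∈ (Finset.range N).filter (fun t => α < t), y (t - α)
          ≤ a s * 2 * 1 := mul_le_mul_right h5 _
        _ = a s * 2 := mul_one _
    refine (Finset.sum_le_sum h3).trans ?_
    rw [Finset.sum_const, Nat.card_Ioc]
    have h4 : s + D - s = D := by omega
    rw [h4, nsmul_eq_mul]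
    have h5 : ENNReal.ofReal (2 * (D : ℝ)) = 2 * ((D : ℕ) : ℝ≥0∞) := by
      rw [ENNReal.ofReal_mul (by norm_num), ENNReal.ofReal_natCast]
      congr 1
      norm_num
    rw [h5]
    refine le_of_eq ?_
    ring
  refine (Finset.sum_le_sum h2).trans ?_
  rw [← Finset.mul_sum]
  exact mul_le_mul_right (ENNReal.sum_le_tsum _) _

theorem rI_succ (D : ℕ) {y : ℕ → ℝ≥0∞} (hy : ∑' t, y t ≤ 1) (i : ℕ) :
    ∑' t, rI D y (i + 1) t ≤
      (if i = 0 then 1 else 0) + ENNReal.ofReal (2 * D) * ∑' t, rI D y i t := by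
  have h1 : ∑' t, rI D y (i + 1) t = ∑' t, (if i = 0 then y t else 0) +
      ∑' t, (∑ s ∈ Finset.range t, ∑ α ∈ (Finset.Ioc s (s + D)).filter (fun α => α < t),
        rI D y i s * 2 * y (t - α)) := by
    rw [← ENNReal.tsum_add]
    rfl
  rw [h1]
  refine add_le_add ?_ (dsum D _ y hy)
  split_ifs
  · exact hy
  · simp

end TCFCC

/-- TC-FCC1. The sum of the bounds.

Proof. Let `S i = ∑' t, rI D y i t`. `S 0 = 2`. Exchange of the sums (as `TRCHN.dsum`):
`S (i+1) ≤ (if i = 0 then 1 else 0) + ∑' s, ∑ α ∈ Ioc s (s+D), rI i s * 2 * ∑' t > α, y (t - α)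
≤ (if i = 0 then 1 else 0) + 2 D S i`. So `S 1 ≤ 1 + 4 D ≤ 3 (2 D + 1)` and
`S (i+1) ≤ 2 D S i` for `i ≥ 1`. -/
theorem rI_sum (D : ℕ) {y : ℕ → ℝ≥0∞} (hy : ∑' t, y t ≤ 1) (i : ℕ) :
    ∑' t, rI D y i t ≤ ENNReal.ofReal (3 * (2 * D + 1) ^ i) := by
  have hD : (0 : ℝ) ≤ D := Nat.cast_nonneg D
  have h0 : ∑' t, rI D y 0 t = 2 := by
    have : ∀ t, rI D y 0 t = if t = 0 then 2 else 0 := fun t => rfl
    simp only [this]
    exact tsum_ite_eq 0 (fun _ => (2 : ℝ≥0∞))
  induction i with
  | zero =>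
    rw [h0, pow_zero, mul_one]
    rw [show (2 : ℝ≥0∞) = ENNReal.ofReal 2 by norm_num]
    exact ENNReal.ofReal_le_ofReal (by norm_num)
  | succ i ih =>
    refine (TCFCC.rI_succ D hy i).trans ?_
    by_cases hi : i = 0
    · subst hi
      rw [if_pos rfl, h0, show (2 : ℝ≥0∞) = ENNReal.ofReal 2 by norm_num,
        ← ENNReal.ofReal_mul (by positivity), ← ENNReal.ofReal_one,
        ← ENNReal.ofReal_add (by norm_num) (by positivity)]
      apply ENNReal.ofReal_le_ofReal
      rw [zero_add, pow_one]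
      linarith
    · rw [if_neg hi, zero_add]
      refine (mul_le_mul_right ih _).trans ?_
      rw [← ENNReal.ofReal_mul (by positivity)]
      apply ENNReal.ofReal_le_ofReal
      rw [pow_succ]
      have h2 : 0 ≤ 3 * (2 * (D : ℝ) + 1) ^ i := by positivity
      nlinarith

/-- TC-FCC2. The integral of the weight.

Proof. `∫ bw ≤ 1 + exp β * exp (-κ β) ≤ 2`. -/
theorem bw_int [IsProbabilityMeasure μ] {β κ : ℝ} (hβ : 0 ≤ β) (hκ : 1 ≤ κ) {B : Set Ω}
    (hB : MeasurableSet B) (hp : μ B ≤ ENNReal.ofReal (Real.exp (-(κ * β)))) :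
    ∫⁻ ω, bw β B ω ∂μ ≤ 2 := by
  have h3 : (fun ω => bw β B ω) = fun ω =>
      1 + B.indicator (fun _ => ENNReal.ofReal (Real.exp β)) ω := by
    funext ω
    unfold bw
    rfl
  rw [h3, lintegral_add_left measurable_const, lintegral_one, measure_univ,
    lintegral_indicator_const hB]
  have h4 : ENNReal.ofReal (Real.exp β) * μ B ≤ 1 := by
    refine (mul_le_mul_right hp _).trans ?_
    rw [← ENNReal.ofReal_mul (Real.exp_pos _).le, ← Real.exp_add]
    apply ENNReal.ofReal_le_one.2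
    apply Real.exp_le_one_iff.2
    nlinarith
  calc (1 : ℝ≥0∞) + ENNReal.ofReal (Real.exp β) * μ B ≤ 1 + 1 := add_le_add le_rfl h4
    _ = 2 := one_add_one_eq_two

end

end Pool.Agent.SLE
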