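import Pool.Agent.Lib.MP_c17912_pr_TC.FCC

/-!
# MP_c17912_pr, project TC: the chains of pieces
-/

set_option autoImplicit false

open MeasureTheory ProbabilityTheory Filter
open scoped NNReal ENNReal Topology Real

namespace Pool.Agent.SLE

noncomputable section

variable {Ω : Type*} [MeasurableSpace Ω] {μ : Measure Ω} {W : ℝ → Ω → ℂ} {a b c K : ℝ}

namespace TCFCCb

/-- The weights. -/
def wt (β : ℝ) (Bd : ℕ → Set Ω) (s α : ℕ) (ω : Ω) : ℝ≥0∞ :=
  if s + 1 < α then bw β (Bd (α - 1)) ω else 1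

/-- The chains. -/
def RR (D : ℕ) (β : ℝ) (Ys : ℕ → ℕ → Ω → ℝ≥0∞) (Bd : ℕ → Set Ω) : ℕ → ℕ → Ω → ℝ≥0∞
  | 0, t, ω => if t = 0 then bw β (Bd 0) ω else 0
  | i + 1, t, ω => (if i = 0 then Ys 0 t ω else 0) + ∑ s ∈ Finset.range t,
      ∑ α ∈ (Finset.Ioc s (s + D)).filter (fun α => α < t),
        RR D β Ys Bd i s ω * wt β Bd s α ω * Ys α (t - α) ω

omit [MeasurableSpace Ω] in
theorem bw_meas {m : MeasurableSpace Ω} (β : ℝ) {B : Set Ω} (hB : MeasurableSet B) :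
    Measurable (bw β B) := by
  have h3 : bw β B = fun ω => 1 + B.indicator (fun _ => ENNReal.ofReal (Real.exp β)) ω := by
    funext ω
    unfold bw
    rfl
  rw [h3]
  exact Measurable.const_add (Measurable.indicator measurable_const hB) 1

omit [MeasurableSpace Ω] in
theorem wt_meas (β : ℝ) (Bd : ℕ → Set Ω)
    (hBm : ∀ j : ℕ, MeasurableSet[Blk W j ((j : ℝ) + 1)] (Bd j)) {s α : ℕ} (h : s + 1 < α) :
    Measurable[Blk W ((α : ℝ) - 1) α] (wt β Bd s α) := by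
  have h1 : ((α - 1 : ℕ) : ℝ) = (α : ℝ) - 1 := by
    rw [Nat.cast_sub (by omega)]
    push_cast
    ring
  have h2 := hBm (α - 1)
  rw [h1, sub_add_cancel] at h2
  have h3 : wt β Bd s α = bw β (Bd (α - 1)) := by
    funext ω
    unfold wt
    rw [if_pos h]
  rw [h3]
  exact bw_meas (m := Blk W ((α : ℝ) - 1) α) β h2

omit [MeasurableSpace Ω] in
theorem wt_one (β : ℝ) (Bd : ℕ → Set Ω) {s α : ℕ} (h : ¬ s + 1 < α) :
    wt β Bd s α = fun _ => 1 := by
  funext ω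
  unfold wt
  rw [if_neg h]

theorem wt_int [IsProbabilityMeasure μ] {β κ : ℝ} (hβ : 0 ≤ β) (hκ : 1 ≤ κ) {Bd : ℕ → Set Ω}
    (hBm : ∀ j : ℕ, MeasurableSet (Bd j))
    (hBp : ∀ j, μ (Bd j) ≤ ENNReal.ofReal (Real.exp (-(κ * β)))) (s α : ℕ) :
    ∫⁻ ω, wt β Bd s α ω ∂μ ≤ 2 := by
  by_cases h : s + 1 < α
  · have h3 : wt β Bd s α = fun ω => bw β (Bd (α - 1)) ω := by
      funext ω
      unfold wt
      rw [if_pos h]
    rw [h3]
    exact bw_int hβ hκ (hBm _) (hBp _)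
  · rw [wt_one β Bd h, lintegral_one, measure_univ]
    exact one_le_two

variable {D : ℕ} {β κ : ℝ} {Ys : ℕ → ℕ → Ω → ℝ≥0∞} {Bd : ℕ → Set Ω}

omit [MeasurableSpace Ω] in
theorem Ys_blk (hYm : ∀ α t : ℕ, Measurable[Blk W α ((α : ℝ) + t + 1)] (Ys α t)) {α t : ℕ}
    (h : α < t) : Measurable[Blk W α ((t : ℝ) + 1)] (Ys α (t - α)) := by
  have h1 := hYm α (t - α)
  have h2 : (α : ℝ) + ((t - α : ℕ) : ℝ) = t := by
    rw [Nat.cast_sub h.le]
    ring
  rwa [h2] at h1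

omit [MeasurableSpace Ω] in
theorem RR_meas (hYm : ∀ α t : ℕ, Measurable[Blk W α ((α : ℝ) + t + 1)] (Ys α t))
    (hBm : ∀ j : ℕ, MeasurableSet[Blk W j ((j : ℝ) + 1)] (Bd j)) (i t : ℕ) :
    Measurable[Blk W 0 ((t : ℝ) + 1)] (RR D β Ys Bd i t) := by
  induction i generalizing t with
  | zero =>
    by_cases ht : t = 0
    · subst ht
      have h0 : RR D β Ys Bd 0 0 = bw β (Bd 0) := by
        funext ω
        exact if_pos rfl
      rw [h0]
      have h1 := hBm 0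
      rw [Nat.cast_zero] at h1 ⊢
      exact bw_meas (m := Blk W 0 (0 + 1)) β h1
    · have h0 : RR D β Ys Bd 0 t = fun _ => 0 := by
        funext ω
        exact if_neg ht
      rw [h0]
      exact measurable_const
  | succ i ih =>
    have h0 : RR D β Ys Bd (i + 1) t = fun ω => (if i = 0 then Ys 0 t ω else 0) +
      ∑ s ∈ Finset.range t, ∑ α ∈ (Finset.Ioc s (s + D)).filter (fun α => α < t),
        RR D β Ys Bd i s ω * wt β Bd s α ω * Ys α (t - α) ω := rfl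
    rw [h0]
    have hz : Measurable[Blk W 0 ((t : ℝ) + 1)] (fun ω => if i = 0 then Ys 0 t ω else 0) := by
      by_cases hi : i = 0
      · have h1 := hYm 0 t
        rw [Nat.cast_zero, zero_add] at h1
        have h2 : (fun ω => if i = 0 then Ys 0 t ω else 0) = Ys 0 t := by
          funext ω
          exact if_pos hi
        rw [h2]
        exact h1
      · have h2 : (fun ω => if i = 0 then Ys 0 t ω else 0) = fun _ => 0 := by
          funext ω
          exact if_neg hi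
        rw [h2]
        exact measurable_const
    refine hz.add ?_
    refine Finset.measurable_fun_sum _ fun s hs => Finset.measurable_fun_sum _ fun α hα => ?_
    have h1 : s < t := Finset.mem_range.1 hs
    have h2 : α < t := (Finset.mem_filter.1 hα).2
    have c1 : (s : ℝ) ≤ t := by exact_mod_cast h1.le
    have c2 : (α : ℝ) ≤ t := by exact_mod_cast h2.le
    have k1 : Measurable[Blk W 0 ((t : ℝ) + 1)] (RR D β Ys Bd i s) :=
      (ih s).mono (Blk_le_Blk le_rfl (by linarith)) le_rfl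
    have k3 : Measurable[Blk W 0 ((t : ℝ) + 1)] (Ys α (t - α)) :=
      (Ys_blk hYm h2).mono (Blk_le_Blk (Nat.cast_nonneg α) le_rfl) le_rfl
    have k2 : Measurable[Blk W 0 ((t : ℝ) + 1)] (wt β Bd s α) := by
      by_cases h : s + 1 < α
      · have h3 : (0 : ℝ) ≤ (α : ℝ) - 1 := by
          have : (1 : ℝ) ≤ α := by exact_mod_cast (by omega : 1 ≤ α)
          linarith
        exact (wt_meas β Bd hBm h).mono (Blk_le_Blk h3 (by linarith)) le_rfl
      · rw [wt_one β Bd h]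
        exact measurable_const
    exact (k1.mul k2).mul k3

theorem term_int [IsProbabilityMeasure μ] (hW : Drv a b c K W μ) (hβ : 0 ≤ β) (hκ : 1 ≤ κ)
    (hYm : ∀ α t : ℕ, Measurable[Blk W α ((α : ℝ) + t + 1)] (Ys α t))
    (hBm : ∀ j : ℕ, MeasurableSet[Blk W j ((j : ℝ) + 1)] (Bd j))
    (hBp : ∀ j, μ (Bd j) ≤ ENNReal.ofReal (Real.exp (-(κ * β)))) (i : ℕ) {s α t : ℕ}
    (h1 : s < α) (h2 : α < t) :
    ∫⁻ ω, RR D β Ys Bd i s ω * wt β Bd s α ω * Ys α (t - α) ω ∂μ ≤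
      (∫⁻ ω, RR D β Ys Bd i s ω ∂μ) * 2 * ∫⁻ ω, Ys α (t - α) ω ∂μ := by
  have hBm' : ∀ j : ℕ, MeasurableSet (Bd j) := fun j => (Blk_le hW _ _) _ (hBm j)
  have hR : Measurable[Blk W 0 ((s + 1 : ℕ) : ℝ)] (RR D β Ys Bd i s) := by
    have h3 := RR_meas (D := D) (β := β) hYm hBm i s
    have h4 : ((s + 1 : ℕ) : ℝ) = (s : ℝ) + 1 := by
      push_cast
      ring
    rw [h4]
    exact h3
  have hy : Measurable[Fut W α] (Ys α (t - α)) := (Ys_blk hYm h2).mono (Blk_le_Fut _ _) le_rfl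
  by_cases h : s + 1 < α
  · rw [indep3 hW (s := s + 1) h hR (wt_meas β Bd hBm h) hy]
    exact mul_le_mul_left (mul_le_mul_right (wt_int hβ hκ hBm' hBp s α) _) _
  · have hα : s + 1 = α := by omega
    rw [wt_one β Bd h]
    simp only [mul_one]
    rw [hα] at hR
    rw [lintegral_mul_eq_lintegral_mul_lintegral_of_independent_measurableSpace
      (Blk_le hW 0 α) (Fut_le hW α) (indep_Blk_Fut hW (Nat.cast_nonneg α)) hR hy]
    refine mul_le_mul_left ?_ _
    calc (∫⁻ ω, RR D β Ys Bd i s ω ∂μ) = (∫⁻ ω, RR D β Ys Bd i s ω ∂μ) * 1 := (mul_one _).symm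
      _ ≤ (∫⁻ ω, RR D β Ys Bd i s ω ∂μ) * 2 := mul_le_mul_right one_le_two _

theorem RR_int [IsProbabilityMeasure μ] (hW : Drv a b c K W μ) (hβ : 0 ≤ β) (hκ : 1 ≤ κ)
    (y : ℕ → ℝ≥0∞)
    (hYm : ∀ α t : ℕ, Measurable[Blk W α ((α : ℝ) + t + 1)] (Ys α t))
    (hYb : ∀ α t : ℕ, ∫⁻ ω, Ys α t ω ∂μ ≤ y t)
    (hBm : ∀ j : ℕ, MeasurableSet[Blk W j ((j : ℝ) + 1)] (Bd j))
    (hBp : ∀ j, μ (Bd j) ≤ ENNReal.ofReal (Real.exp (-(κ * β)))) (i t : ℕ) :
    ∫⁻ ω, RR D β Ys Bd i t ω ∂μ ≤ rI D y i t := by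
  have hY : ∀ α t, Measurable (Ys α t) := fun α t => (hYm α t).mono (Blk_le hW _ _) le_rfl
  have hRm : ∀ i t, Measurable (RR D β Ys Bd i t) := fun i t =>
    (RR_meas hYm hBm i t).mono (Blk_le hW _ _) le_rfl
  have hBm' : ∀ j : ℕ, MeasurableSet (Bd j) := fun j => (Blk_le hW _ _) _ (hBm j)
  have hwm : ∀ s α, Measurable (wt β Bd s α) := by
    intro s α
    by_cases h : s + 1 < α
    · exact (wt_meas β Bd hBm h).mono (Blk_le hW _ _) le_rfl
    · rw [wt_one β Bd h]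
      exact measurable_const
  induction i generalizing t with
  | zero =>
    have hr : rI D y 0 t = if t = 0 then 2 else 0 := rfl
    rw [hr]
    by_cases ht : t = 0
    · rw [if_pos ht]
      have h0 : RR D β Ys Bd 0 t = fun ω => bw β (Bd 0) ω := by
        funext ω
        exact if_pos ht
      rw [h0]
      exact bw_int hβ hκ (hBm' 0) (hBp 0)
    · rw [if_neg ht]
      have h0 : RR D β Ys Bd 0 t = fun _ => 0 := by
        funext ω
        exact if_neg ht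
      rw [h0, lintegral_zero]
  | succ i ih =>
    have h0 : RR D β Ys Bd (i + 1) t = fun ω => (if i = 0 then Ys 0 t ω else 0) +
      ∑ s ∈ Finset.range t, ∑ α ∈ (Finset.Ioc s (s + D)).filter (fun α => α < t),
        RR D β Ys Bd i s ω * wt β Bd s α ω * Ys α (t - α) ω := rfl
    have hr : rI D y (i + 1) t = (if i = 0 then y t else 0) + ∑ s ∈ Finset.range t,
      ∑ α ∈ (Finset.Ioc s (s + D)).filter (fun α => α < t),
        rI D y i s * 2 * y (t - α) := rfl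
    have hm : ∀ s α, Measurable fun ω => RR D β Ys Bd i s ω * wt β Bd s α ω *
        Ys α (t - α) ω := fun s α => ((hRm i s).mul (hwm s α)).mul (hY α (t - α))
    have hz : Measurable (fun ω => if i = 0 then Ys 0 t ω else 0) := by
      by_cases hi : i = 0
      · simp only [if_pos hi]
        exact hY 0 t
      · simp only [if_neg hi]
        exact measurable_const
    rw [h0, hr, lintegral_add_left hz]
    refine add_le_add ?_ ?_
    · by_cases hi : i = 0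
      · simp only [if_pos hi]
        exact hYb 0 t
      · simp only [if_neg hi]
        rw [lintegral_zero]
    · rw [lintegral_finsetSum _ fun s _ => Finset.measurable_fun_sum _ fun α _ => hm s α]
      refine Finset.sum_le_sum fun s hs => ?_
      rw [lintegral_finsetSum _ fun α _ => hm s α]
      refine Finset.sum_le_sum fun α hα => ?_
      obtain ⟨k1, k2⟩ := Finset.mem_filter.1 hα
      refine (term_int hW hβ hκ hYm hBm hBp i (Finset.mem_Ioc.1 k1).1 k2).trans ?_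
      exact mul_le_mul' (mul_le_mul' (ih s) le_rfl) (hYb α (t - α))

end TCFCCb

/-- TC-FCC3. The chains. The piece `Ys α t` starts at the mesh time `α`, its last cell is
`[α + t, α + t + 1]`; the weight of the bad event of the last cell is contained in `Ys α t`.

Proof. Define `R 0 t ω = if t = 0 then bw β (Bd 0) ω else 0` and
`R (i+1) t ω = (if i = 0 then Ys 0 t ω else 0) + ∑ s ∈ range t,
∑ α ∈ (Ioc s (s+D)).filter (· < t), R i s ω * v s α ω * Ys α (t - α) ω` with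
`v s α = if s + 1 < α then bw β (Bd (α - 1)) else 1`.
Measurability (induction on `i`): `R i s` is `Blk W 0 (s+1)`, `v s α` is `Blk W (α-1) α`,
`Ys α (t-α)` is `Blk W α (t+1)`; all are contained in `Blk W 0 (t+1)` (`Blk_le_Blk`).
Integral: `R i s` is `Blk W 0 (s+1)`-measurable, `Ys α (t-α)` is
`Blk W α (t+1) ≤ Fut W α`-measurable, and `s + 1 ≤ α`; if `s + 1 < α` use `indep3` (with `s + 1`
in place of `s`: `s + 1 + 1 ≤ α`), if `s + 1 = α` use `indep_Blk_Fut` at `α` and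
`lintegral_mul_eq_lintegral_mul_lintegral_of_independent_measurableSpace`. So
`∫ (term) ≤ rI D y i s * 2 * y (t - α)` by induction, `bw_int`, and `hYb`. The `i = 0` term: `hYb`;
`R 0 0`: `bw_int`. -/
theorem chain2 [IsProbabilityMeasure μ] (hW : Drv a b c K W μ) (D : ℕ) {β κ : ℝ} (hβ : 0 ≤ β)
    (hκ : 1 ≤ κ) (y : ℕ → ℝ≥0∞) (Ys : ℕ → ℕ → Ω → ℝ≥0∞)
    (hYm : ∀ α t : ℕ, Measurable[Blk W α ((α : ℝ) + t + 1)] (Ys α t))
    (hYb : ∀ α t : ℕ, ∫⁻ ω, Ys α t ω ∂μ ≤ y t)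
    (Bd : ℕ → Set Ω) (hBm : ∀ j : ℕ, MeasurableSet[Blk W j ((j : ℝ) + 1)] (Bd j))
    (hBp : ∀ j, μ (Bd j) ≤ ENNReal.ofReal (Real.exp (-(κ * β)))) :
    ∃ R : ℕ → ℕ → Ω → ℝ≥0∞, (∀ i t : ℕ, Measurable[Blk W 0 ((t : ℝ) + 1)] (R i t)) ∧
      (∀ i t, ∫⁻ ω, R i t ω ∂μ ≤ rI D y i t) ∧ (∀ ω, bw β (Bd 0) ω ≤ R 0 0 ω) ∧
      (∀ t ω, Ys 0 t ω ≤ R 1 t ω) ∧
      ∀ i s α t ω, s < α → α ≤ s + D → α < t →
        R i s ω * (if s + 1 < α then bw β (Bd (α - 1)) ω else 1) * Ys α (t - α) ω ≤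
          R (i + 1) t ω := by
  refine ⟨TCFCCb.RR D β Ys Bd, fun i t => TCFCCb.RR_meas hYm hBm i t,
    fun i t => TCFCCb.RR_int hW hβ hκ y hYm hYb hBm hBp i t, ?_, ?_, ?_⟩
  · intro ω
    have h0 : TCFCCb.RR D β Ys Bd 0 0 ω = bw β (Bd 0) ω := if_pos rfl
    rw [h0]
  · intro t ω
    have h0 : TCFCCb.RR D β Ys Bd 1 t ω = (if (0 : ℕ) = 0 then Ys 0 t ω else 0) +
      ∑ s ∈ Finset.range t, ∑ α ∈ (Finset.Ioc s (s + D)).filter (fun α => α < t),
        TCFCCb.RR D β Ys Bd 0 s ω * TCFCCb.wt β Bd s α ω * Ys α (t - α) ω := rfl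
    rw [h0, if_pos rfl]
    exact le_self_add
  · intro i s α t ω h1 h2 h3
    have h0 : TCFCCb.RR D β Ys Bd (i + 1) t ω = (if i = 0 then Ys 0 t ω else 0) +
      ∑ s ∈ Finset.range t, ∑ α ∈ (Finset.Ioc s (s + D)).filter (fun α => α < t),
        TCFCCb.RR D β Ys Bd i s ω * TCFCCb.wt β Bd s α ω * Ys α (t - α) ω := rfl
    rw [h0]
    refine le_trans ?_ le_add_self
    refine le_trans ?_ (Finset.single_le_sum (f := fun s =>
      ∑ α ∈ (Finset.Ioc s (s + D)).filter (fun α => α < t),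
        TCFCCb.RR D β Ys Bd i s ω * TCFCCb.wt β Bd s α ω * Ys α (t - α) ω)
      (fun _ _ => zero_le) (Finset.mem_range.2 (h1.trans h3)))
    exact Finset.single_le_sum (f := fun α =>
        TCFCCb.RR D β Ys Bd i s ω * TCFCCb.wt β Bd s α ω * Ys α (t - α) ω)
      (fun _ _ => zero_le) (Finset.mem_filter.2 ⟨Finset.mem_Ioc.2 ⟨h1, h2⟩, h3⟩)

end

end Pool.Agent.SLE
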