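import Pool.Agent.Lib.MP_c17912_pr_TC.FCC
import Pool.Agent.Lib.MP_c17912_pr.Gau

/-!
# MP_c17912_pr, project TC: the functionals of the shifted processes
-/

set_option autoImplicit false

open MeasureTheory ProbabilityTheory Filter
open scoped NNReal ENNReal Topology Real

namespace Pool.Agent.SLE

noncomputable section

variable {Ω : Type*} [MeasurableSpace Ω] {μ : Measure Ω} {W : ℝ → Ω → ℂ} {a b c K : ℝ}

namespace TCFCCc

open DrvSubAux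

omit [MeasurableSpace Ω] in
/-- The increments of a cell of `W` are increments of a cell of the shifted process. -/
theorem blk_le (W : ℝ → Ω → ℂ) (α t : ℕ) :
    Blk W ((α + t : ℕ) : ℝ) (((α + t : ℕ) : ℝ) + 1) ≤ Blk (subP W α 1) t ((t : ℝ) + 1) := by
  refine iSup_le fun ⟨u, hu⟩ => ?_
  rw [← measurable_iff_comap_le]
  have ht : (0 : ℝ) ≤ t := Nat.cast_nonneg t
  have hu1 : ((α + t : ℕ) : ℝ) ≤ u := hu.1
  have hu2 : u ≤ ((α + t : ℕ) : ℝ) + 1 := hu.2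
  push_cast at hu1 hu2
  have e : (fun ω => W u ω - W ((α + t : ℕ) : ℝ) ω) =
      fun ω => subP W α 1 (u - α) ω - subP W α 1 t ω := by
    funext ω
    have h1 : max (u - (α : ℝ)) 0 = u - α := max_eq_left (by linarith)
    have h2 : max (t : ℝ) 0 = t := max_eq_left ht
    simp only [subP, psub, h1, h2, inv_one, one_pow, one_mul, one_smul, Nat.cast_add,
      add_sub_cancel]
    ring
  show Measurable[Blk (subP W α 1) t ((t : ℝ) + 1)] fun ω => W u ω - W ((α + t : ℕ) : ℝ) ω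
  rw [e]
  exact meas_Blk ⟨by linarith, by linarith⟩

end TCFCCc

/-- TC-FCC4. The functionals of the shifted processes, from `StrC`. (`hS` is the second part of
`StrC`, with the constants fixed.)

Proof. For every `α` apply `hS` to `subP W α 1` (`Gau.subP`) and the events
`fun t => Bd (α + t)`. They are measurable: one needs
`Blk W (α + t) (α + t + 1) ≤ Blk (subP W α 1) t (t + 1)`: for `ρ ∈ [α+t, α+t+1]`,
`W ρ - W (α+t) = subP W α 1 (ρ - α) - subP W α 1 t` (`1⁻¹ • = id`, `max (ρ - α) 0 = ρ - α`).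
Measurability of `Ys α t`: `Blk_sub_le` with `r = 1`. -/
theorem shifted [IsProbabilityMeasure μ] {ε d C c₁ κ β : ℝ} {p : ℕ} {y : ℕ → ℝ≥0∞}
    (hS : ∀ W : ℝ → Ω → ℂ, Gau a b c K W μ → ∀ (β : ℝ) (Bd : ℕ → Set Ω), 0 ≤ β →
      (∀ t : ℕ, MeasurableSet[Blk W t ((t : ℝ) + 1)] (Bd t)) →
      (∀ t, μ (Bd t) ≤ ENNReal.ofReal (Real.exp (-(κ * β)))) →
      ∃ Y : ℕ → Ω → ℝ≥0∞, (∀ t : ℕ, Measurable[Blk W 0 ((t : ℝ) + 1)] (Y t)) ∧
        (∀ t, ∫⁻ ω, Y t ω ∂μ ≤ y t) ∧ PieceP C c₁ ε d p W (fun t => bw β (Bd t)) Y)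
    (hW : Gau a b c K W μ) (hβ : 0 ≤ β) (Bd : ℕ → Set Ω)
    (hBm : ∀ j : ℕ, MeasurableSet[Blk W j ((j : ℝ) + 1)] (Bd j))
    (hBp : ∀ j, μ (Bd j) ≤ ENNReal.ofReal (Real.exp (-(κ * β)))) :
    ∃ Ys : ℕ → ℕ → Ω → ℝ≥0∞,
      (∀ α t : ℕ, Measurable[Blk W α ((α : ℝ) + t + 1)] (Ys α t)) ∧
      (∀ α t : ℕ, ∫⁻ ω, Ys α t ω ∂μ ≤ y t) ∧
      ∀ α : ℕ, PieceP C c₁ ε d p (subP W α 1) (fun t => bw β (Bd (α + t))) (Ys α) := by
  have key : ∀ α : ℕ, ∃ Y : ℕ → Ω → ℝ≥0∞,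
      (∀ t : ℕ, Measurable[Blk (subP W α 1) 0 ((t : ℝ) + 1)] (Y t)) ∧
      (∀ t, ∫⁻ ω, Y t ω ∂μ ≤ y t) ∧
      PieceP C c₁ ε d p (subP W α 1) (fun t => bw β (Bd (α + t))) Y := fun α =>
    hS (subP W α 1) (hW.subP (Nat.cast_nonneg α) one_pos) β (fun t => Bd (α + t)) hβ
      (fun t => TCFCCc.blk_le W α t _ (hBm (α + t))) fun t => hBp (α + t)
  choose Ys h1 h2 h3 using key
  refine ⟨Ys, fun α t => ?_, h2, h3⟩
  have h := Blk_sub_le (W := W) (Nat.cast_nonneg α) one_pos ((t : ℝ) + 1)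
  rw [one_pow, one_mul, ← add_assoc] at h
  exact (h1 α t).mono h le_rfl

end

end Pool.Agent.SLE
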