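import Pool.Agent.Lib.MP_c17912_pr_TC.BWIF

/-!
# MP_c17912_pr, project TC (critical matrices): definitions for the forward critical case

Throughout `Z = g - U` for a solution `g` of the Loewner equation driven by `U`.

* `brk U g ε d r α j`: the cell `j` of the mesh `r ^ 2` is a break for the solution restarted at
  the mesh time `α r ^ 2`: it contains a time with `|Z| ≤ r` at which `ph` is at most `d` below
  its maximum since the restart.
* `fresh U g ε d t`: at the time `t` the functional `ph` is at most `d` below its maximum.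
* `tk U g r s t`: the clock `∫ 1 / (|Z| max (|Z|, r))` on `[s,t]`.
* `bw β B`: the weight `1 + exp β 1_B`.
* `StrC`: the stretch theorem (closed pieces) with a universal bound; the tail theorem is `TailP`
  (file `BWIF`).
* `DescR`: no long riders, for solutions on `[0,t]`, `t` real.
-/

set_option autoImplicit false

open MeasureTheory ProbabilityTheory Filter
open scoped NNReal ENNReal Topology Real

namespace Pool.Agent.SLE

noncomputable section

/-- The cell `j` of the mesh `r ^ 2` is a break for the solution restarted at `α r ^ 2`. -/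
def brk (U g : ℝ → ℂ) (ε d r : ℝ) (α j : ℕ) : Prop :=
  ∃ u ∈ Set.Icc ((j : ℝ) * r ^ 2) (((j : ℝ) + 1) * r ^ 2), ‖g u - U u‖ ≤ r ∧
    ∀ v ∈ Set.Icc ((α : ℝ) * r ^ 2) u, ph U g ε v ≤ ph U g ε u + d

/-- The functional `ph` is at most `d` below its maximum at the time `t`. -/
def fresh (U g : ℝ → ℂ) (ε d t : ℝ) : Prop :=
  ∀ v ∈ Set.Icc (0 : ℝ) t, ph U g ε v ≤ ph U g ε t + d

/-- The clock of the last piece: it is the logarithmic clock where `|Z| ≥ r`, and at least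
`(t - s) / r ^ 2` where `|Z| ≤ r`. -/
def tk (U g : ℝ → ℂ) (r s t : ℝ) : ℝ :=
  ∫ u in s..t, 1 / (‖g u - U u‖ * max ‖g u - U u‖ r)

open Classical in
/-- The weight of an event. -/
def bw {Ω : Type*} (β : ℝ) (B : Set Ω) (ω : Ω) : ℝ≥0∞ :=
  1 + if ω ∈ B then ENNReal.ofReal (Real.exp β) else 0

/-- The clock of the cell `j` of the mesh `r ^ 2`. -/
def ck (U g : ℝ → ℂ) (r : ℝ) (j : ℕ) : ℝ := lk U g ((j : ℝ) * r ^ 2) (((j : ℝ) + 1) * r ^ 2)

variable {Ω : Type*} [MeasurableSpace Ω]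

/-- What the functional `Y` of the closed pieces dominates; `wt t` is the weight of the cell
`[t,t+1]`. A piece is a solution on `[0,u]`, `t ≤ u ≤ t + 1`, which is not low in the first cell,
with start at distance `≤ s`, at distance `≤ e` on `[t-1,u]`; `u` is its first break: `ph` is at
most `d` below its maximum at the time `u`, and more than `d` below its maximum at all earlier
times with `|Z| ≤ 1`. -/
def PieceP (C c₁ ε d : ℝ) (p : ℕ) (W : ℝ → Ω → ℂ) (wt Y : ℕ → Ω → ℝ≥0∞) : Prop :=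
  ∀ (ω : Ω) (t : ℕ) (u : ℝ) (z : ℂ) (g : ℝ → ℂ) (s e : ℝ), 1 ≤ t → (t : ℝ) ≤ u → u ≤ t + 1 →
    1 ≤ s → 1 ≤ e → ‖z‖ ≤ s → Sol (fun t => W t ω) z u g →
    (∀ v ∈ Set.Icc (0 : ℝ) 1, 1 ≤ ‖g v - W v ω‖) →
    (∀ v ∈ Set.Icc ((t : ℝ) - 1) u, ‖g v - W v ω‖ ≤ e) →
    fresh (fun t => W t ω) g ε d u →
    (∀ v ∈ Set.Ico (0 : ℝ) u, ‖g v - W v ω‖ ≤ 1 → ∃ w ∈ Set.Icc (0 : ℝ) v,
      ph (fun t => W t ω) g ε v + d < ph (fun t => W t ω) g ε w) →
    ENNReal.ofReal (Real.exp (c₁ * lk (fun t => W t ω) g 0 ((t : ℝ) - 1))) * wt t ω ≤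
      ENNReal.ofReal (C * (s * e) ^ p) * Y t ω

/-- The stretch theorem of the forward critical case. The bound `y` does not depend on the
process (law invariance). `Bd t` is an event of the cell `[t,t+1]` with probability at most
`exp (-κ β)`; the weight `bw β (Bd t)` of the last cell is included in `Y t`. -/
def StrC (μ : Measure Ω) (a b c K ε d : ℝ) : Prop :=
  ∃ (C c₁ κ : ℝ) (p : ℕ) (y : ℕ → ℝ≥0∞), 1 ≤ C ∧ 0 < c₁ ∧ 1 ≤ κ ∧ ∑' t, y t ≤ 1 ∧
    ∀ W : ℝ → Ω → ℂ, Gau a b c K W μ → ∀ (β : ℝ) (Bd : ℕ → Set Ω), 0 ≤ β →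
      (∀ t : ℕ, MeasurableSet[Blk W t ((t : ℝ) + 1)] (Bd t)) →
      (∀ t, μ (Bd t) ≤ ENNReal.ofReal (Real.exp (-(κ * β)))) →
      ∃ Y : ℕ → Ω → ℝ≥0∞, (∀ t : ℕ, Measurable[Blk W 0 ((t : ℝ) + 1)] (Y t)) ∧
        (∀ t, ∫⁻ ω, Y t ω ∂μ ≤ y t) ∧ PieceP C c₁ ε d p W (fun t => bw β (Bd t)) Y

/-- No long riders (`t` real). -/
def DescR (μ : Measure Ω) (a b c K : ℝ) : Prop :=
  ∃ n₀ : ℕ, ∀ n ≥ n₀, ∀ W : ℝ → Ω → ℂ, Gau a b c K W μ →
    ∃ A, MeasurableSet A ∧ μ A ≤ ENNReal.ofReal (Real.exp (-(n : ℝ))) ∧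
      ∀ ω ∉ A, ∀ (t : ℝ) (z : ℂ) (g : ℝ → ℂ), 0 ≤ t → t ≤ 4 ^ (n + 2) →
        Sol (fun t => W t ω) z t g → ∀ M s : ℕ, s + (n + M) ^ 10 ≤ ⌊t * 4 ^ M⌋₊ →
          ¬ rider (fun t => W t ω) g (rr M) s ((n + M) ^ 10)

end

end Pool.Agent.SLE
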