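import Pool.Agent.Lib.MP_c17912_pr_TC.FCD
import Pool.Agent.Lib.MP_c17912_pr_TR.SLO

/-!
# MP_c17912_pr, project TC: the start for a long solution
-/

set_option autoImplicit false

open MeasureTheory ProbabilityTheory Filter
open scoped NNReal ENNReal Topology Real

namespace Pool.Agent.SLE

noncomputable section

/-- The contribution of one cell is nonnegative. -/
private theorem TCFCE_nonneg {U g : ℝ → ℂ} (j : ℕ) : 0 ≤ ck U g 1 j := by
  unfold ck lk
  refine intervalIntegral.integral_nonneg (by nlinarith) fun u _ => by positivity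

/-- The contribution of one cell. -/
private theorem TCFCE_cell {U : ℝ → ℂ} (hU : Continuous U) {z : ℂ} {g : ℝ → ℂ} {i : ℕ} {t B : ℝ}
    (hi : (i : ℝ) + 1 ≤ t) (hg : Sol U z t g)
    (hb : ∀ u ∈ Set.Icc (i : ℝ) (i + 1), ‖g u - U u‖ ≤ B) : 1 / B ^ 2 ≤ ck U g 1 i := by
  have hsubset : Set.Icc (i : ℝ) (i + 1) ⊆ Set.Icc 0 t := fun u hu =>
    ⟨(Nat.cast_nonneg i).trans hu.1, hu.2.trans hi⟩
  have hc : ContinuousOn (fun s => g s - U s) (Set.Icc (i : ℝ) (i + 1)) :=
    (ContinuousOn.sub (fun s hs' => (hg.2.2 s hs').continuousWithinAt)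
      hU.continuousOn).mono hsubset
  have hc2 : ContinuousOn (fun u => 1 / ‖g u - U u‖ ^ 2) (Set.Icc (i : ℝ) (i + 1)) := by
    refine continuousOn_const.div (hc.norm.pow 2) fun u hu => ?_
    have : g u - U u ≠ 0 := sub_ne_zero.2 (hg.2.1 u (hsubset hu))
    positivity
  unfold ck lk
  simp only [one_pow, mul_one]
  have hle : (i : ℝ) ≤ i + 1 := by linarith
  have h1 : ∫ _ in (i : ℝ)..(i + 1), (1 / B ^ 2 : ℝ) = 1 / B ^ 2 := by
    rw [intervalIntegral.integral_const]
    simp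
  rw [← h1]
  refine intervalIntegral.integral_mono_on hle (by simp) ?_ fun u hu => ?_
  · rw [← Set.uIcc_of_le hle] at hc2
    exact hc2.intervalIntegrable
  · have : g u - U u ≠ 0 := sub_ne_zero.2 (hg.2.1 u (hsubset hu))
    have hpos : 0 < ‖g u - U u‖ := by positivity
    have := hb u hu
    gcongr

/-- TC-FCE1. The start for a long solution: a set `S` with few cells does not contain much of the
clock.

Proof. As `start_long` of TR. For `j₀ ≤ j < n` the cells `4^j ≤ i < 4^(j+1)` are in `[0,t]`;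
there are `3 * 4^j` of them and at most `4^j₀ ≤ 4^j` are in `S`, and each of the others
contributes at least `1 / (289 y^2 4^j)` (`SLO_cell`-type bound; it does not use that the cell is
not low). -/
theorem start_long2 {U : ℝ → ℂ} (hU : Continuous U) {z : ℂ} {g : ℝ → ℂ} {n j₀ : ℕ} {y t : ℝ}
    (ht : 4 ^ n ≤ t) (hg : Sol U z t g) (hz : ‖z‖ ≤ 1) (hy : 1 ≤ y)
    (hw : ∀ j ≤ n, ∀ u ∈ Set.Icc (0 : ℝ) (4 ^ j), ‖U u‖ ≤ y * 2 ^ j) (S : Finset ℕ)
    (hS : S.card ≤ 4 ^ j₀) :
    ((n : ℝ) - j₀) / (289 * y ^ 2) ≤ ∑ j ∈ Finset.range ⌊t⌋₊ \ S, ck U g 1 j := by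
  classical
  have hy0 : 0 < y := by linarith
  have hT : 4 ^ n ≤ ⌊t⌋₊ := by
    refine Nat.le_floor ?_
    push_cast
    exact ht
  -- terms
  set f : ℕ → ℝ := fun j => if j ∈ S then 0 else ck U g 1 j with hf
  have hf0 : ∀ j, 0 ≤ f j := by
    intro j
    rw [hf]
    dsimp only
    split_ifs
    · exact le_rfl
    · exact TCFCE_nonneg j
  have hXX : ∑ j ∈ Finset.range ⌊t⌋₊ \ S, ck U g 1 j = ∑ j ∈ Finset.range ⌊t⌋₊, f j := by
    have h1 : ∑ j ∈ Finset.range ⌊t⌋₊ \ S, ck U g 1 j = ∑ j ∈ Finset.range ⌊t⌋₊ \ S, f j := by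
      refine Finset.sum_congr rfl fun j hj => ?_
      rw [hf]
      dsimp only
      rw [if_neg (Finset.mem_sdiff.1 hj).2]
    rw [h1]
    refine Finset.sum_subset Finset.sdiff_subset fun j hj hj2 => ?_
    have h2 : j ∈ S := by
      by_contra h3
      exact hj2 (Finset.mem_sdiff.2 ⟨hj, h3⟩)
    rw [hf]
    dsimp only
    rw [if_pos h2]
  rw [hXX]
  rcases Nat.lt_or_ge j₀ n with hjn | hjn
  swap
  · have h1 : (n : ℝ) - j₀ ≤ 0 := by
      have : (n : ℝ) ≤ j₀ := by exact_mod_cast hjn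
      linarith
    have h2 : ((n : ℝ) - j₀) / (289 * y ^ 2) ≤ 0 :=
      div_nonpos_of_nonpos_of_nonneg h1 (by positivity)
    exact h2.trans (Finset.sum_nonneg fun j _ => hf0 j)
  -- the blocks
  have hblock : ∀ j ∈ Finset.Ico j₀ n,
      1 / (289 * y ^ 2) ≤ ∑ i ∈ Finset.Ico (4 ^ j) (4 ^ (j + 1)), f i := by
    intro j hj
    rw [Finset.mem_Ico] at hj
    have h4' : (4 : ℝ) ^ (j + 1) ≤ t :=
      (pow_le_pow_right₀ (by norm_num) hj.2).trans ht
    have hup : ∀ u ∈ Set.Icc (0 : ℝ) (4 ^ (j + 1)), ‖g u - U u‖ ≤ 17 * y * 2 ^ j := by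
      intro u hu
      have h1 := cr_upper hU (t := (4 : ℝ) ^ (j + 1)) (by positivity)
        (Sol.restrict hg h4') (hw (j + 1) hj.2) u hu
      have hs : √((4 : ℝ) ^ (j + 1)) = 2 ^ (j + 1) := by
        rw [show (4 : ℝ) ^ (j + 1) = (2 ^ (j + 1)) ^ 2 by
          rw [← pow_mul, mul_comm, pow_mul]; norm_num]
        exact Real.sqrt_sq (by positivity)
      rw [hs] at h1
      have h2 : (1 : ℝ) ≤ 2 ^ j := one_le_pow₀ (by norm_num)
      have h3 : (2 : ℝ) ^ (j + 1) = 2 * 2 ^ j := by rw [pow_succ]; ring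
      rw [h3] at h1
      have h5 : (1 : ℝ) ≤ y * 2 ^ j := by nlinarith
      have h6 : (2 : ℝ) ^ j ≤ y * 2 ^ j := by nlinarith
      nlinarith
    set R : Finset ℕ := (Finset.Ico (4 ^ j) (4 ^ (j + 1))).filter fun i => ¬ i ∈ S with hR
    have hcard : 4 ^ j ≤ R.card := by
      have h1 : ((Finset.Ico (4 ^ j) (4 ^ (j + 1))).filter fun i => i ∈ S).card ≤ 4 ^ j := by
        refine le_trans (Finset.card_le_card ?_)
          (hS.trans (Nat.pow_le_pow_right (by norm_num) hj.1))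
        intro i hi
        rw [Finset.mem_filter] at hi
        exact hi.2
      have h2 := Finset.card_filter_add_card_filter_not (s := Finset.Ico (4 ^ j) (4 ^ (j + 1)))
        (fun i => i ∈ S)
      rw [Nat.card_Ico, pow_succ] at h2
      rw [pow_succ] at h1
      rw [hR, pow_succ]
      omega
    have hsum : ∑ i ∈ R, (1 / (17 * y * 2 ^ j) ^ 2 : ℝ) ≤
        ∑ i ∈ Finset.Ico (4 ^ j) (4 ^ (j + 1)), f i := by
      refine le_trans (Finset.sum_le_sum (g := f) fun i hi => ?_)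
        (Finset.sum_le_sum_of_subset_of_nonneg (Finset.filter_subset _ _) fun i _ _ => hf0 i)
      rw [hR, Finset.mem_filter, Finset.mem_Ico] at hi
      have h5 : (i : ℝ) + 1 ≤ 4 ^ (j + 1) := by exact_mod_cast (show i + 1 ≤ 4 ^ (j + 1) by omega)
      rw [hf]
      dsimp only
      rw [if_neg hi.2]
      exact TCFCE_cell hU (h5.trans h4') hg fun u hu => hup u
        ⟨(Nat.cast_nonneg i).trans hu.1, hu.2.trans h5⟩
    refine le_trans ?_ hsum
    rw [Finset.sum_const, nsmul_eq_mul]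
    have h6 : (4 : ℝ) ^ j ≤ R.card := by exact_mod_cast hcard
    have h7 : (17 * y * 2 ^ j : ℝ) ^ 2 = 289 * y ^ 2 * 4 ^ j := by
      rw [mul_pow, mul_pow, ← pow_mul, mul_comm j 2, pow_mul]
      norm_num
    rw [h7]
    have h8 : (1 : ℝ) / (289 * y ^ 2) = 4 ^ j * (1 / (289 * y ^ 2 * 4 ^ j)) := by
      field_simp
    rw [h8]
    exact mul_le_mul_of_nonneg_right h6 (by positivity)
  -- telescoping
  have htel : ∀ k, j₀ ≤ k → k ≤ n →
      ((k : ℝ) - j₀) / (289 * y ^ 2) ≤ ∑ i ∈ Finset.range (4 ^ k), f i := by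
    intro k hk
    induction k, hk using Nat.le_induction with
    | base =>
      intro _
      rw [sub_self, zero_div]
      exact Finset.sum_nonneg fun j _ => hf0 j
    | succ k hk ih =>
      intro hkn
      have h1 := ih (by omega)
      have h2 := hblock k (Finset.mem_Ico.2 ⟨hk, by omega⟩)
      have h3 : ∑ i ∈ Finset.range (4 ^ (k + 1)), f i =
          ∑ i ∈ Finset.range (4 ^ k), f i + ∑ i ∈ Finset.Ico (4 ^ k) (4 ^ (k + 1)), f i := by
        rw [Finset.sum_range_add_sum_Ico f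
          (Nat.pow_le_pow_right (by norm_num) (Nat.le_succ k))]
      rw [h3]
      push_cast
      have h4 : ((k : ℝ) + 1 - j₀) / (289 * y ^ 2) =
          ((k : ℝ) - j₀) / (289 * y ^ 2) + 1 / (289 * y ^ 2) := by ring
      rw [h4]
      exact add_le_add h1 h2
  refine (htel n hjn.le le_rfl).trans ?_
  exact Finset.sum_le_sum_of_subset_of_nonneg (Finset.range_subset_range.2 hT) fun i _ _ => hf0 i

end

end Pool.Agent.SLE
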