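import Pool.Agent.Lib.MP_c17912_pr_TC.FCD
import Pool.Agent.Lib.MP_c17912_pr_TR.DSC

/-!
# MP_c17912_pr, project TC: infinite descent, real times
-/

set_option autoImplicit false

open MeasureTheory ProbabilityTheory Filter
open scoped NNReal ENNReal Topology Real

namespace Pool.Agent.SLE

noncomputable section

variable {Ω : Type*} [MeasurableSpace Ω] {μ : Measure Ω}

namespace TCFCRc

open TRDSC

theorem le_fl {t : ℝ} (ht : 0 ≤ t) {M k : ℕ} : k ≤ ⌊t * 4 ^ M⌋₊ ↔ (k : ℝ) ≤ t * 4 ^ M :=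
  Nat.le_floor_iff (by positivity)

theorem fl_mul {t : ℝ} (ht : 0 ≤ t) {M k : ℕ} (M' : ℕ) (h : k ≤ ⌊t * 4 ^ M⌋₊) :
    k * 4 ^ M' ≤ ⌊t * 4 ^ (M + M')⌋₊ := by
  rw [le_fl ht] at h ⊢
  push_cast
  rw [pow_add, ← mul_assoc]
  exact mul_le_mul_of_nonneg_right h (by positivity)

theorem fl_le {t : ℝ} {n M : ℕ} (hT : t ≤ 4 ^ (n + 2)) : ⌊t * 4 ^ M⌋₊ ≤ 4 ^ (n + 2) * 4 ^ M := by
  apply Nat.floor_le_of_le
  push_cast
  gcongr

/-- one step of the descent -/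
theorem step {U : ℝ → ℂ} {z : ℂ} {g : ℝ → ℂ} {n M s : ℕ} {t : ℝ} (ht : 0 ≤ t)
    (hsol : Sol U z t g) (hs : s + (n + M) ^ 10 ≤ ⌊t * 4 ^ M⌋₊)
    (hr : rider U g (rr M) s ((n + M) ^ 10))
    (key : ∀ (z : ℂ) (g' : ℝ → ℂ),
      Sol (psub U ((s : ℝ) * rr M ^ 2) (rr M)) z (((n + M) ^ 10 : ℕ) : ℝ) g' →
      rider (psub U ((s : ℝ) * rr M ^ 2) (rr M)) g' 1 0 ((n + M) ^ 10) →
      ∃ M' ≥ 1, ∃ s', s' + ((n + M) ^ 10 + M') ^ 10 ≤ (n + M) ^ 10 * 4 ^ M' ∧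
        rider (psub U ((s : ℝ) * rr M ^ 2) (rr M)) g' (rr M') s' (((n + M) ^ 10 + M') ^ 10)) :
    ∃ M₂ ≥ M + 1, ∃ s₂, s₂ + (n + M₂) ^ 10 ≤ ⌊t * 4 ^ M₂⌋₊ ∧
      rider U g (rr M₂) s₂ ((n + M₂) ^ 10) := by
  have h4 : (0 : ℝ) < 4 ^ M := by positivity
  have hle : (s : ℝ) + (((n + M) ^ 10 : ℕ) : ℝ) ≤ t * 4 ^ M := by
    have := (le_fl ht).mp hs
    exact_mod_cast this
  have hst : (s : ℝ) * rr M ^ 2 ≤ t := by
    rw [rr_sq, mul_one_div, div_le_iff₀ h4]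
    have : (0 : ℝ) ≤ (((n + M) ^ 10 : ℕ) : ℝ) := Nat.cast_nonneg _
    linarith
  have hsh := Sol.shift hsol (s := (s : ℝ) * rr M ^ 2) (r := rr M)
    (by positivity) hst (rr_pos M)
  have hlen : (((n + M) ^ 10 : ℕ) : ℝ) ≤ (t - (s : ℝ) * rr M ^ 2) / rr M ^ 2 := by
    rw [rr_sq, le_div_iff₀ (by positivity), mul_one_div, mul_one_div, div_le_iff₀ h4, sub_mul,
      div_mul_cancel₀ _ h4.ne']
    linarith
  have hsol2 := Sol.restrict hsh hlen
  have hgs : (fun τ => (rr M)⁻¹ • (g ((s : ℝ) * rr M ^ 2 + rr M ^ 2 * τ) -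
      U ((s : ℝ) * rr M ^ 2))) = gs U g ((s : ℝ) * rr M ^ 2) (rr M) := rfl
  rw [hgs] at hsol2
  have hrid : rider (psub U ((s : ℝ) * rr M ^ 2) (rr M)) (gs U g ((s : ℝ) * rr M ^ 2) (rr M))
      1 0 ((n + M) ^ 10) := by
    intro i hi
    have h1 := (low_shift U g s M 0 (0 + i)).mpr (by
      have := hr i hi
      simpa using this)
    have h2 : rr 0 = 1 := by simp [rr]
    rwa [h2] at h1
  obtain ⟨M', hM', s', hs', hr'⟩ := key _ _ hsol2 hrid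
  have hnM : n + M ≤ (n + M) ^ 10 := Nat.le_self_pow (by norm_num) _
  have hpow : (n + (M + M')) ^ 10 ≤ ((n + M) ^ 10 + M') ^ 10 := by
    apply Nat.pow_le_pow_left
    omega
  refine ⟨M + M', by omega, s * 4 ^ M' + s', ?_, ?_⟩
  · calc s * 4 ^ M' + s' + (n + (M + M')) ^ 10
        ≤ s * 4 ^ M' + (s' + ((n + M) ^ 10 + M') ^ 10) := by omega
      _ ≤ s * 4 ^ M' + (n + M) ^ 10 * 4 ^ M' := by omega
      _ = (s + (n + M) ^ 10) * 4 ^ M' := by ring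
      _ ≤ ⌊t * 4 ^ (M + M')⌋₊ := fl_mul ht M' hs
  · intro i hi
    have h1 := (low_shift U g s M M' (s' + i)).mp (hr' i (lt_of_lt_of_le hi hpow))
    rwa [← add_assoc] at h1

end TCFCRc

open TRDSC TCFCRc

/-- TC-FCR3. No long riders, from the rider property, for solutions on `[0,t]`, `t` real.

Proof. As `desc` of TR, with `RidP` in place of `rid` and `t` real, `t ≤ 4^(n+2)`: the events are
the same (`s < 4^(n+2+M)`); the step `TRDSC.step` has to be adapted (`T * 4^M` is replaced by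
`⌊t * 4^M⌋₊`; `s + (n+M)^10 ≤ ⌊t 4^M⌋₊` gives `(s + (n+M)^10) rr M ^ 2 ≤ t`, and conversely
`(s₂ + (n+M₂)^10) ≤ (s + (n+M)^10) 4^M' ≤ ⌊t * 4^M⌋₊ * 4^M' ≤ ⌊t * 4^(M+M')⌋₊`). -/
theorem descR_of_rid [IsProbabilityMeasure μ] {a b c K : ℝ} (hR : RidP μ a b c K) :
    DescR μ a b c K := by
  obtain ⟨n₁, hn₁⟩ := hR
  refine ⟨max n₁ 5, fun n hn W hW => ?_⟩
  have hn5 : 5 ≤ n := le_trans (le_max_right _ _) hn
  have hnn : n₁ ≤ n := le_trans (le_max_left _ _) hn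
  have hbig : ∀ M : ℕ, n₁ ≤ (n + M) ^ 10 := fun M => by
    have := Nat.le_self_pow (show (10 : ℕ) ≠ 0 by norm_num) (n + M)
    omega
  have hex : ∀ M s : ℕ, ∃ A, MeasurableSet A ∧
      μ A ≤ ENNReal.ofReal (Real.exp (-(((n + M) ^ 10 : ℕ) : ℝ) ^ (1 / 5 : ℝ))) ∧
        ∀ ω ∉ A, ∀ (z : ℂ) (g : ℝ → ℂ),
          Sol (fun t => subP W ((s : ℝ) * rr M ^ 2) (rr M) t ω) z (((n + M) ^ 10 : ℕ) : ℝ) g →
          rider (fun t => subP W ((s : ℝ) * rr M ^ 2) (rr M) t ω) g 1 0 ((n + M) ^ 10) →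
          ∃ M' ≥ 1, ∃ s', s' + ((n + M) ^ 10 + M') ^ 10 ≤ (n + M) ^ 10 * 4 ^ M' ∧
            rider (fun t => subP W ((s : ℝ) * rr M ^ 2) (rr M) t ω) g (rr M') s'
              (((n + M) ^ 10 + M') ^ 10) := fun M s =>
    hn₁ ((n + M) ^ 10) (hbig M) (subP W ((s : ℝ) * rr M ^ 2) (rr M))
      (hW.subP (by positivity) (rr_pos M))
  choose A hAm hAμ hA using hex
  refine ⟨⋃ M : ℕ, ⋃ s ∈ Finset.range (4 ^ (n + 2 + M)), A M s,
    MeasurableSet.iUnion fun M => Finset.measurableSet_biUnion _ fun s _ => hAm M s, ?_, ?_⟩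
  · calc μ (⋃ M : ℕ, ⋃ s ∈ Finset.range (4 ^ (n + 2 + M)), A M s)
        ≤ ∑' M : ℕ, μ (⋃ s ∈ Finset.range (4 ^ (n + 2 + M)), A M s) := measure_iUnion_le _
      _ ≤ ∑' M : ℕ, ENNReal.ofReal (Real.exp (-(n : ℝ)) * (1 / 2) ^ (M + 1)) := by
          refine ENNReal.tsum_le_tsum fun M => ?_
          calc μ (⋃ s ∈ Finset.range (4 ^ (n + 2 + M)), A M s)
              ≤ ∑ s ∈ Finset.range (4 ^ (n + 2 + M)), μ (A M s) :=
                measure_biUnion_finset_le _ _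
            _ ≤ ∑ s ∈ Finset.range (4 ^ (n + 2 + M)),
                ENNReal.ofReal (Real.exp (-((n : ℝ) + M) ^ 2)) := by
                refine Finset.sum_le_sum fun s _ => ?_
                have h1 := hAμ M s
                rwa [fifth] at h1
            _ = ENNReal.ofReal ((4 : ℝ) ^ (n + 2 + M) * Real.exp (-((n : ℝ) + M) ^ 2)) := by
                rw [Finset.sum_const, Finset.card_range, nsmul_eq_mul,
                  ENNReal.ofReal_mul (by positivity)]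
                congr 1
                rw [ENNReal.ofReal_pow (by norm_num)]
                push_cast
                norm_num
            _ ≤ _ := ENNReal.ofReal_le_ofReal (ex_bd n M hn5)
      _ = ENNReal.ofReal (Real.exp (-(n : ℝ))) := tsum_half n
  · intro ω hω t z g ht hT hsol
    have hω' : ∀ M s : ℕ, s < 4 ^ (n + 2 + M) → ω ∉ A M s := by
      intro M s hs hmem
      exact hω (Set.mem_iUnion.mpr ⟨M, Set.mem_iUnion₂.mpr ⟨s, Finset.mem_range.mpr hs, hmem⟩⟩)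
    obtain ⟨d, hd, hdg⟩ := FlowAux.exists_lower (hW.cont ω) hsol
    have hcap : ∀ M s : ℕ, s + (n + M) ^ 10 ≤ ⌊t * 4 ^ M⌋₊ →
        rider (fun t => W t ω) g (rr M) s ((n + M) ^ 10) → d ≤ rr M := by
      intro M s hs hr
      have hpos : 0 < (n + M) ^ 10 := by positivity
      obtain ⟨u, hu, hlow⟩ := hr 0 hpos
      refine le_trans (hdg u ⟨?_, ?_⟩) hlow
      · exact le_trans (by positivity) hu.1
      · refine le_trans hu.2 ?_
        rw [rr_sq, mul_one_div, div_le_iff₀ (by positivity)]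
        have h1 : s + 0 + 1 ≤ ⌊t * 4 ^ M⌋₊ := by omega
        have h2 := (le_fl ht).mp h1
        exact_mod_cast h2
    intro M₀ s₀ hs₀ hr₀
    have hall : ∀ k : ℕ, ∃ M ≥ k, ∃ s, s + (n + M) ^ 10 ≤ ⌊t * 4 ^ M⌋₊ ∧
        rider (fun t => W t ω) g (rr M) s ((n + M) ^ 10) := by
      intro k
      induction k with
      | zero => exact ⟨M₀, Nat.zero_le _, s₀, hs₀, hr₀⟩
      | succ k ih =>
        obtain ⟨M, hM, s, hs, hr⟩ := ih
        have hslt : s < 4 ^ (n + 2 + M) := by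
          have hpos : 0 < (n + M) ^ 10 := by positivity
          calc s < s + (n + M) ^ 10 := by omega
            _ ≤ ⌊t * 4 ^ M⌋₊ := hs
            _ ≤ 4 ^ (n + 2) * 4 ^ M := fl_le hT
            _ = 4 ^ (n + 2 + M) := by rw [← pow_add]
        obtain ⟨M₂, hM₂, s₂, hs₂, hr₂⟩ := TCFCRc.step ht hsol hs hr
          (fun z' g' h1 h2 => hA M s ω (hω' M s hslt) z' g' h1 h2)
        exact ⟨M₂, by omega, s₂, hs₂, hr₂⟩
    obtain ⟨k, hk⟩ := exists_pow_lt_of_lt_one hd (show (1 / 2 : ℝ) < 1 by norm_num)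
    obtain ⟨M, hM, s, hs, hr⟩ := hall k
    have h1 := hcap M s hs hr
    have h2 : rr M ≤ (1 / 2 : ℝ) ^ k := by
      unfold rr
      exact pow_le_pow_of_le_one (by norm_num) (by norm_num) hM
    linarith

end

end Pool.Agent.SLE
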