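import Pool.Agent.Lib.MP_c17912_pr_TC.FCOb
import Pool.Agent.Lib.MP_c17912_pr_TC.FCRb
import Pool.Agent.Lib.MP_c17912_pr_TC.FCRc
import Pool.Agent.Lib.MP_c17912_pr_TC.FCE
import Pool.Agent.Lib.MP_c17912_pr_TR.GOL

/-!
# MP_c17912_pr, project TC: the goal estimate for fresh solutions
-/

set_option autoImplicit false

open MeasureTheory ProbabilityTheory Filter
open scoped NNReal ENNReal Topology Real

namespace Pool.Agent.SLE

noncomputable section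

variable {Ω : Type*} [MeasurableSpace Ω] {μ : Measure Ω}

/-- TC-FCE2. The goal estimate for fresh solutions.

Proof. As `goal` of TR, with `core_f`, `rid_c` + `descR_of_rid`, `start_long2`:
`A` = the events of `core_f`, `DescR`, and `max_ev` with `N = n`, `y = n^(1/8)`. Suppose
`‖z‖ ≤ 1`, `s ∈ [4^n, 4^(n+1)]`, fresh at `s`, `|Z_s| ≤ 1`. `core_f` gives `S` with
`#S ≤ 2 (n^(5/8) + 4) n^10 ≤ 4^j₀`, `j₀ ≤ n / 2`, and the clock outside `S` is `< n^(11/16)`, but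
`start_long2` gives at least `n / 2 / (289 n^(1/4))`. -/
theorem goal_f [IsProbabilityMeasure μ] {a b c K ε d : ℝ} (ha : 0 ≤ a) (hb : 0 ≤ b) (hd : 0 ≤ d)
    (hS : StrC μ a b c K ε d) (hT : TailP μ a b c K ε d) :
    ∃ n₀ : ℕ, ∀ n ≥ n₀, ∀ W : ℝ → Ω → ℂ, Gau a b c K W μ →
      ∃ A, MeasurableSet A ∧ μ A ≤ ENNReal.ofReal (Real.exp (-(n : ℝ) ^ (1 / 5 : ℝ))) ∧
        ∀ ω ∉ A, ∀ z : ℂ, ‖z‖ ≤ 1 → ∀ s ∈ Set.Icc ((4 : ℝ) ^ n) (4 ^ (n + 1)), ∀ g : ℝ → ℂ,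
          Sol (fun t => W t ω) z s g → fresh (fun t => W t ω) g ε d s → 1 < ‖g s - W s ω‖ := by
  obtain ⟨n₁, hcore⟩ := core_f (μ := μ) ha hb hd hS hT
  obtain ⟨n₂, hdesc⟩ := descR_of_rid (rid_c (μ := μ) ha hb hd hS hT)
  obtain ⟨n₃, hnum⟩ := TRGOL.num (a + b + 1) (by linarith)
  refine ⟨max n₁ (max n₂ n₃), fun n hn W hW => ?_⟩
  obtain ⟨t, ht4, ht16, h80, h20, h16, h10, h55, h50, hpow, h64, h8⟩ := hnum n
    ((le_max_right _ _).trans ((le_max_right _ _).trans hn))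
  obtain ⟨A₁, hA₁m, hA₁p, hA₁⟩ := hcore n ((le_max_left _ _).trans hn) W hW
  obtain ⟨A₂, hA₂m, hA₂p, hA₂⟩ := hdesc n
    ((le_max_left _ _).trans ((le_max_right _ _).trans hn)) W hW
  have htpos : 0 < t := by linarith
  obtain ⟨A₄, hA₄m, hA₄p, hA₄⟩ := max_ev hW n (y := t ^ 10) (by positivity)
  refine ⟨A₁ ∪ (A₂ ∪ A₄), hA₁m.union (hA₂m.union hA₄m), ?_, ?_⟩
  · have hp := TRGOL.prob (S := a + b + 1) (by linarith) ht4 ht16 h80 h64 h8
    have h3 : (0 : ℝ) ≤ ((4 ^ (n + 1) + 1 : ℕ) : ℝ) *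
        (4 * Real.exp (-((n : ℝ) ^ 2 / (16 * (a + b + 1))))) := by positivity
    have hp' : Real.exp (-t ^ 20) + (Real.exp (-(n : ℝ)) +
        ((n : ℝ) + 1) * (4 * Real.exp (-((t ^ 10) ^ 2 / (4 * (a + b + 1)))))) ≤
        Real.exp (-t ^ 16) := by linarith
    rw [h16]
    refine le_trans ?_ (ENNReal.ofReal_le_ofReal hp')
    rw [ENNReal.ofReal_add (by positivity) (by positivity),
      ENNReal.ofReal_add (by positivity) (by positivity)]
    refine (measure_union_le _ _).trans (add_le_add (hA₁p.trans (by rw [h20])) ?_)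
    exact (measure_union_le _ _).trans (add_le_add hA₂p hA₄p)
  intro ω hω z hz s hs g hg hfr
  simp only [Set.mem_union, not_or] at hω
  obtain ⟨hω1, hω2, hω4⟩ := hω
  by_contra hcon
  rw [not_lt] at hcon
  have hs0 : 0 ≤ s := le_trans (by positivity) hs.1
  have hs3 : s ≤ 4 ^ (n + 2) :=
    hs.2.trans (pow_le_pow_right₀ (by norm_num) (by omega))
  have hn0 : (0 : ℝ) ≤ n := Nat.cast_nonneg n
  have hcont : Continuous fun t => W t ω := hW.cont ω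
  have hno := hA₂ ω hω2 s z g hs0 hs3 hg
  obtain ⟨S, hScard, hSsum⟩ := hA₁ ω hω1 s z g hs0 hs3 (by linarith) hg (by linarith) hfr
    (fun M s' hs' => hno M s' hs')
  rw [h50] at hScard
  rw [h55] at hSsum
  have ht1 : 1 ≤ t := by linarith
  have hS4 : S.card ≤ 4 ^ (n / 2) := by
    refine le_trans ?_ hpow
    have h1 : 2 * (t ^ 50 + 4) ≤ (n : ℝ) + 1 := by
      rw [h80]
      have e1 : t ^ 80 = t ^ 50 * t ^ 30 := by ring
      have e2 : (16 : ℝ) ≤ t ^ 30 := by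
        calc (16 : ℝ) = 4 ^ 2 := by norm_num
          _ ≤ t ^ 2 := pow_le_pow_left₀ (by norm_num) ht4 2
          _ ≤ t ^ 30 := pow_le_pow_right₀ ht1 (by norm_num)
      have e3 : (1 : ℝ) ≤ t ^ 50 := one_le_pow₀ ht1
      rw [e1]
      nlinarith
    have h2 : (S.card : ℝ) ≤ (((n + 1) ^ 11 : ℕ) : ℝ) := by
      refine hScard.trans ?_
      push_cast
      calc 2 * (t ^ 50 + 4) * (n : ℝ) ^ 10 ≤ ((n : ℝ) + 1) * ((n : ℝ) + 1) ^ 10 := by
            gcongr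
            linarith
        _ = ((n : ℝ) + 1) ^ 11 := by ring
    exact_mod_cast h2
  have hst := start_long2 hcont hs.1 hg hz (one_le_pow₀ ht1 : (1 : ℝ) ≤ t ^ 10)
    (fun j hj u hu => hA₄ ω hω4 j hj u hu) S hS4
  have hhalf : (n : ℝ) / 2 ≤ (n : ℝ) - ((n / 2 : ℕ) : ℝ) := by
    have : ((n / 2 : ℕ) : ℝ) ≤ (n : ℝ) / 2 := Nat.cast_div_le
    linarith
  have hfin : t ^ 55 ≤ ((n : ℝ) - ((n / 2 : ℕ) : ℝ)) / (289 * (t ^ 10) ^ 2) := by
    rw [le_div_iff₀ (by positivity)]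
    refine le_trans ?_ hhalf
    rw [h80]
    have h5 : (1024 : ℝ) ≤ t ^ 5 := by
      calc (1024 : ℝ) = 4 ^ 5 := by norm_num
        _ ≤ t ^ 5 := pow_le_pow_left₀ (by norm_num) ht4 5
    have e1 : t ^ 55 * (289 * (t ^ 10) ^ 2) = 289 * t ^ 75 := by ring
    have e2 : t ^ 80 = t ^ 75 * t ^ 5 := by ring
    have e3 : 0 < t ^ 75 := by positivity
    rw [e1, e2]
    nlinarith
  linarith

end

end Pool.Agent.SLE
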