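import Pool.Agent.Lib.MP_c17912_pr.Flow
import Pool.Agent.Lib.MP_c17912_pr_LN.BA
import Pool.Agent.Lib.MP_c17912_pr_TR.GRO

/-!
# MP_c17912_pr, project TC: the absorbing time
-/

set_option autoImplicit false

open MeasureTheory ProbabilityTheory Filter
open scoped NNReal ENNReal Topology Real

namespace Pool.Agent.SLE

noncomputable section

namespace TCFCF

/-- The extension of a solution beyond the time `s`. -/
theorem ext {U : ℝ → ℂ} (hU : Continuous U) {z : ℂ} {s δ η : ℝ} {g : ℝ → ℂ} (h : Sol U z s g)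
    (hs : 0 ≤ s) (hδ : 0 < δ) (hδ' : δ ≤ ‖g s - U s‖) (hη : 0 ≤ η) (hη2 : η ≤ δ ^ 2 / 64)
    (hosc : ∀ u ∈ Set.Icc s (s + η), ‖U u - U s‖ ≤ δ / 8) :
    ∃ g'' : ℝ → ℂ, Sol U z (s + η) g'' := by
  obtain ⟨V, hV⟩ : ∃ V : ℝ → ℂ, V = psub U s 1 := ⟨_, rfl⟩
  have hVc : Continuous V := by
    rw [hV]
    unfold psub
    fun_prop
  have hV0 : V 0 = 0 := by
    rw [hV]
    simp [psub]
  by_cases hw : (1 : ℝ)⁻¹ • (g s - U s) ∈ hull V η
  · exfalso
    have hδ0 : 0 < ‖g s - U s‖ := lt_of_lt_of_le hδ hδ'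
    have hw' : ‖(1 : ℝ)⁻¹ • (g s - U s) - V 0‖ = ‖g s - U s‖ := by
      rw [hV0, inv_one, one_smul, sub_zero]
    obtain ⟨s', hs', g', hg', hgs'⟩ := hull_reach hVc hη hw
      (δ := ‖g s - U s‖ / 2) (by linarith) (by rw [hw']; linarith)
    obtain ⟨v, hv, hv1, hv2⟩ := TRGRO.first_hit (f := fun r => -‖g' r - V r‖) (a := 0) (b := s')
      (c := -(‖g s - U s‖ / 2)) hs'.1 (TRGRO.contZ hVc hg').norm.neg
      (by
        show -‖g' 0 - V 0‖ < _
        rw [hg'.1, hw']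
        linarith)
      (by
        show _ ≤ -‖g' s' - V s'‖
        rw [hgs'])
    have hv1' : ‖g' v - V v‖ = ‖g s - U s‖ / 2 := by
      have : -‖g' v - V v‖ = -(‖g s - U s‖ / 2) := hv1
      linarith
    have hlow : ∀ u ∈ Set.Icc (0 : ℝ) v, ‖g s - U s‖ / 2 ≤ ‖g' u - V u‖ := by
      intro u hu
      have : -‖g' u - V u‖ ≤ -(‖g s - U s‖ / 2) := hv2 u hu
      linarith
    have h1 := cr_move (ρ := ‖g s - U s‖ / 2) (by linarith) hg' le_rfl hv.1 hv.2 hlow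
    have h2 : ‖V v - V 0‖ ≤ δ / 8 := by
      rw [hV0, sub_zero, hV]
      have : psub U s 1 v = U (s + v) - U s := by
        simp [psub, max_eq_left hv.1]
      rw [this]
      exact hosc _ ⟨by linarith [hv.1], by linarith [hv.2, hs'.2]⟩
    have h3 : 2 / (‖g s - U s‖ / 2) * (v - 0) ≤ δ / 16 := by
      have hvη : v ≤ δ ^ 2 / 64 := (hv.2.trans hs'.2).trans hη2
      have e1 : 2 / (‖g s - U s‖ / 2) * (v - 0) = 4 * v / ‖g s - U s‖ := by
        field_simp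
        ring
      rw [e1, div_le_iff₀ hδ0]
      nlinarith
    have h4 : ‖g' 0 - V 0‖ ≤ ‖g' v - V v‖ + ‖(g' v - V v) - (g' 0 - V 0)‖ := by
      have : g' 0 - V 0 = (g' v - V v) - ((g' v - V v) - (g' 0 - V 0)) := by ring
      calc ‖g' 0 - V 0‖ = ‖(g' v - V v) - ((g' v - V v) - (g' 0 - V 0))‖ := by rw [← this]
        _ ≤ _ := norm_sub_le _ _
    rw [hg'.1, hw'] at h4
    rw [hg'.1] at h1
    linarith
  · have hw2 : ∃ g' : ℝ → ℂ, Sol (psub U s 1) ((1 : ℝ)⁻¹ • (g s - U s)) η g' := by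
      rw [← hV]
      exact not_not.mp hw
    obtain ⟨g', hg'⟩ := hw2
    obtain ⟨g'', hg''⟩ := h.concat hs one_pos hη hg'
    refine ⟨g'', ?_⟩
    simpa using hg''

/-- A solution on `[0,s]` extends to a larger interval. -/
theorem ext' {U : ℝ → ℂ} (hU : Continuous U) {z : ℂ} {s : ℝ} {g : ℝ → ℂ} (h : Sol U z s g)
    (hs : 0 ≤ s) : ∃ η > 0, ∃ g'' : ℝ → ℂ, Sol U z (s + η) g'' := by
  have hδ : 0 < ‖g s - U s‖ := norm_pos_iff.mpr (sub_ne_zero.mpr (h.2.1 s ⟨hs, le_rfl⟩))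
  obtain ⟨d, hd, hd'⟩ := Metric.continuous_iff.mp hU s (‖g s - U s‖ / 8) (by linarith)
  have hη : 0 < min (d / 2) (‖g s - U s‖ ^ 2 / 64) := lt_min (by linarith) (by positivity)
  refine ⟨min (d / 2) (‖g s - U s‖ ^ 2 / 64), hη, ?_⟩
  refine ext hU h hs hδ le_rfl hη.le (min_le_right _ _) ?_
  intro u hu
  have h1 : dist u s < d := by
    rw [Real.dist_eq, abs_of_nonneg (by linarith [hu.1])]
    have := min_le_left (d / 2) (‖g s - U s‖ ^ 2 / 64)
    linarith [hu.2]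
  have h2 := hd' u h1
  rw [dist_eq_norm] at h2
  exact h2.le

end TCFCF

/-- TC-FCF1. The absorbing time: a point `z ≠ 0` which has a solution on `[0,T₀]` and is in
`hull U t` has an absorbing time `τ ∈ (T₀, t]`: there is a solution on every `[0,s]`, `s < τ`
(one function `g` which solves on all of them), none on `[0,τ]`, and `|Z_s| → 0` as `s → τ`.

Proof. `τ = sup {s | ∃ g, Sol U z s g}` (contains `[0,T₀]`; bounded by `t`). The solutions agree
(`Sol.unique`), let `g` be their union. If the distance `|Z|` does not tend to `0` there are `δ > 0`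
and times `s < τ` arbitrarily close to `τ` with `|Z_s| ≥ δ`; choose one with `τ - s < δ² / 64` and
the oscillation of `U` on `[s, τ + η]` smaller than `δ / 8`; then the solution from the time `s`
exists on `[s, s + δ² / 64 + η']` (contraction or the existence results of `Flow`/`hull_reach`:
`hull_reach` applied to the shifted path gives a solution which reaches `|Z| = δ / 2` before
absorption, and that takes more time than `τ + η' - s`), contradiction. In particular there is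
no solution on `[0,τ]`: otherwise `|Z| ≥ d > 0` on `[0,τ]` and the same argument extends it. -/
theorem absorb {U : ℝ → ℂ} (hU : Continuous U) (h0 : U 0 = 0) {z : ℂ} {T₀ t : ℝ} (hT₀ : 0 ≤ T₀)
    {g₀ : ℝ → ℂ} (hg₀ : Sol U z T₀ g₀) (ht : z ∈ hull U t) :
    ∃ τ ∈ Set.Ioc T₀ t, ∃ g : ℝ → ℂ, (∀ s, 0 ≤ s → s < τ → Sol U z s g) ∧ z ∈ hull U τ ∧
      ∀ δ > 0, ∃ s < τ, ∀ s' ∈ Set.Ico s τ, 0 ≤ s' → ‖g s' - U s'‖ < δ := by
  classical
  have ht0 : 0 ≤ t := by
    by_contra hcon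
    apply ht
    refine ⟨fun _ => z, rfl, ?_, ?_⟩
    · intro s hs
      exact absurd (hs.1.trans hs.2) hcon
    · intro s hs
      exact absurd (hs.1.trans hs.2) hcon
  obtain ⟨S, hS⟩ : ∃ S : Set ℝ, S = {s : ℝ | 0 ≤ s ∧ ∃ g : ℝ → ℂ, Sol U z s g} := ⟨_, rfl⟩
  have hmemS : ∀ s, s ∈ S ↔ 0 ≤ s ∧ ∃ g : ℝ → ℂ, Sol U z s g := by
    intro s
    rw [hS]
    rfl
  have hlt : ∀ s ∈ S, s < t := by
    intro s hs
    by_contra hcon
    obtain ⟨-, g, hg⟩ := (hmemS s).1 hs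
    exact ht ⟨g, hg.restrict (not_lt.mp hcon)⟩
  have hbd : BddAbove S := ⟨t, fun s hs => (hlt s hs).le⟩
  have hT : T₀ ∈ S := (hmemS T₀).2 ⟨hT₀, g₀, hg₀⟩
  have hne : S.Nonempty := ⟨T₀, hT⟩
  obtain ⟨τ, hτ⟩ : ∃ τ : ℝ, τ = sSup S := ⟨_, rfl⟩
  have hle : ∀ s ∈ S, s ≤ τ := by
    intro s hs
    rw [hτ]
    exact le_csSup hbd hs
  have hτt : τ ≤ t := by
    rw [hτ]
    exact csSup_le hne fun s hs => (hlt s hs).le
  have hTτ : T₀ < τ := by
    obtain ⟨η, hη, g'', hg''⟩ := TCFCF.ext' hU hg₀ hT₀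
    have := hle _ ((hmemS (T₀ + η)).2 ⟨by linarith, g'', hg''⟩)
    linarith
  have hτ0 : 0 ≤ τ := hT₀.trans hTτ.le
  have hhull : z ∈ hull U τ := by
    rintro ⟨g, hg⟩
    obtain ⟨η, hη, g'', hg''⟩ := TCFCF.ext' hU hg hτ0
    have := hle _ ((hmemS (τ + η)).2 ⟨by linarith, g'', hg''⟩)
    linarith
  obtain ⟨g, hgdef⟩ : ∃ g : ℝ → ℂ, g = fun r => if h : ∃ g' : ℝ → ℂ, Sol U z r g' then
      Classical.choose h r else 0 := ⟨_, rfl⟩
  have hgeq : ∀ s' G, Sol U z s' G → ∀ r ∈ Set.Icc 0 s', g r = G r := by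
    intro s' G hG r hr
    have hr' : ∃ g' : ℝ → ℂ, Sol U z r g' := ⟨G, hG.restrict hr.2⟩
    have h1 := Classical.choose_spec hr'
    have h2 := Sol.unique hU h1 (hG.restrict hr.2) r ⟨hr.1, le_rfl⟩
    rw [hgdef]
    simp only [dif_pos hr']
    exact h2
  have hsol : ∀ s, 0 ≤ s → s < τ → Sol U z s g := by
    intro s hs hsτ
    rw [hτ] at hsτ
    obtain ⟨s', hs', hss'⟩ := exists_lt_of_lt_csSup hne hsτ
    obtain ⟨hs'0, G, hG⟩ := (hmemS s').1 hs'
    have hGs := hG.restrict hss'.le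
    have heq := hgeq s G hGs
    refine ⟨?_, ?_, ?_⟩
    · rw [heq 0 ⟨le_rfl, hs⟩, hG.1]
    · intro r hr
      rw [heq r hr]
      exact hGs.2.1 r hr
    · intro r hr
      rw [heq r hr]
      exact (hGs.2.2 r hr).congr heq (heq r hr)
  refine ⟨τ, ⟨hTτ, hτt⟩, g, hsol, hhull, ?_⟩
  intro δ hδ
  by_contra hcon
  push Not at hcon
  have hcomp : IsCompact (Set.Icc (0 : ℝ) (τ + 1)) := isCompact_Icc
  have huc := hcomp.uniformContinuousOn_of_continuous hU.continuousOn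
  obtain ⟨d, hd, hd'⟩ := Metric.uniformContinuousOn_iff.mp huc (δ / 8) (by linarith)
  obtain ⟨η, hηdef⟩ : ∃ η : ℝ, η = min (min (d / 2) (δ ^ 2 / 64)) 1 := ⟨_, rfl⟩
  have hη : 0 < η := by
    rw [hηdef]
    exact lt_min (lt_min (by linarith) (by positivity)) one_pos
  have hη1 : η ≤ d / 2 := by
    rw [hηdef]
    exact (min_le_left _ _).trans (min_le_left _ _)
  have hη2 : η ≤ δ ^ 2 / 64 := by
    rw [hηdef]
    exact (min_le_left _ _).trans (min_le_right _ _)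
  have hη3 : η ≤ 1 := by
    rw [hηdef]
    exact min_le_right _ _
  obtain ⟨s', hs', hs'0, hs'δ⟩ := hcon (τ - η / 2) (by linarith)
  obtain ⟨g'', hg''⟩ := TCFCF.ext hU (hsol s' hs'0 hs'.2) hs'0 hδ hs'δ hη.le hη2 (by
    intro u hu
    have h1 : dist u s' < d := by
      rw [Real.dist_eq, abs_of_nonneg (by linarith [hu.1])]
      linarith [hu.2]
    have h2 := hd' u ⟨hs'0.trans hu.1, by linarith [hu.2, hs'.2]⟩ s'
      ⟨hs'0, by linarith [hs'.2]⟩ h1
    rw [dist_eq_norm] at h2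
    exact h2.le)
  have := hle _ ((hmemS (s' + η)).2 ⟨by linarith, g'', hg''⟩)
  linarith [hs'.1]

end

end Pool.Agent.SLE
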