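import Pool.Agent.Lib.MP_c17912_pr_TC.FCD
import Pool.Agent.Lib.MP_c17912_pr_TC.FCF
import Pool.Agent.Lib.MP_c17912_pr_TR.SHD
import Pool.Agent.Lib.MP_c17912_pr_TR.STR

/-!
# MP_c17912_pr, project TC: absorbed points are fresh
-/

set_option autoImplicit false

open MeasureTheory ProbabilityTheory Filter
open scoped NNReal ENNReal Topology Real

namespace Pool.Agent.SLE

noncomputable section

/-- TC-FCF2. If `ph` is bounded up to the absorbing time, a whole neighbourhood is absorbed.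

Proof. Let `‖w - z‖ ≤ ε / 16 * exp (-Φ)`. For every `s < τ` `shadow` gives a solution `g'` from
`w` on `[0,s]` with `|g'_s - g_s| ≤ |Z_s| / 4`, so `|Z'_s| ≤ 5/4 |Z_s|`. If there were a solution
`h` from `w` on `[0,τ]`, then `|h - U| ≥ d > 0` on `[0,τ]` (`FlowAux.exists_lower`), and `h = g'`
on `[0,s]` (`Sol.unique`), contradiction as `s → τ`. -/
theorem ball_absorbed {U : ℝ → ℂ} (hU : Continuous U) (h0 : U 0 = 0) {z w : ℂ} {τ ε Φ : ℝ}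
    (hτ : 0 < τ) (hε : 0 < ε) (hε2 : ε ≤ 2) {g : ℝ → ℂ}
    (hg : ∀ s, 0 ≤ s → s < τ → Sol U z s g)
    (hZ : ∀ δ > 0, ∃ s < τ, ∀ s' ∈ Set.Ico s τ, 0 ≤ s' → ‖g s' - U s'‖ < δ)
    (hΦ : ∀ u, 0 ≤ u → u < τ → ph U g ε u ≤ Φ) (hw : ‖w - z‖ ≤ ε / 16 * Real.exp (-Φ)) :
    w ∈ hull U τ := by
  rintro ⟨h, hh⟩
  obtain ⟨d, hd, hlow⟩ := FlowAux.exists_lower hU hh
  obtain ⟨s, hs, hsm⟩ := hZ (d / 2) (by positivity)
  have hr0 : 0 ≤ max s 0 := le_max_right _ _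
  have hrτ : max s 0 < τ := max_lt hs hτ
  obtain ⟨g', hg', h3, -⟩ := shadow hU h0 hr0 hε hε2 (hg _ hr0 hrτ)
    (fun u hu => hΦ u hu.1 (hu.2.trans_lt hrτ)) hw
  have e1 := Sol.unique hU (hh.restrict hrτ.le) hg' _ ⟨hr0, le_rfl⟩
  have e2 := hsm _ ⟨le_max_left _ _, hrτ⟩ hr0
  have e3 := h3 _ ⟨hr0, le_rfl⟩
  have e4 := hlow _ ⟨hr0, hrτ.le⟩
  rw [e1] at e4
  have e5 := norm_add_le (g' (max s 0) - g (max s 0)) (g (max s 0) - U (max s 0))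
  rw [sub_add_sub_cancel] at e5
  linarith

namespace TCFCFb

/-- Rational numbers close to a real number, not zero. -/
theorem rat_near (x : ℝ) {r : ℝ} (hr : 0 < r) : ∃ p : ℚ, (p : ℝ) ≠ 0 ∧ |(p : ℝ) - x| < r := by
  rcases le_or_gt 0 x with h | h
  · obtain ⟨p, h1, h2⟩ := exists_rat_btwn (show x < x + r by linarith)
    refine ⟨p, by linarith [h.trans_lt h1] |> ne_of_gt, ?_⟩
    rw [abs_lt]
    constructor <;> linarith
  · obtain ⟨p, h1, h2⟩ := exists_rat_btwn (show x - r < x by linarith)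
    refine ⟨p, (h2.trans h).ne, ?_⟩
    rw [abs_lt]
    constructor <;> linarith

/-- A rational point which is not zero in every ball. -/
theorem point_near (z : ℂ) {r : ℝ} (hr : 0 < r) : ∃ p q : ℚ,
    ((p : ℝ) : ℂ) + ((q : ℝ) : ℂ) * Complex.I ≠ 0 ∧
      ‖((p : ℝ) : ℂ) + ((q : ℝ) : ℂ) * Complex.I - z‖ ≤ r := by
  obtain ⟨p, hp, hp'⟩ := rat_near z.re (half_pos hr)
  obtain ⟨q, -, hq'⟩ := rat_near z.im (half_pos hr)
  refine ⟨p, q, fun hcon => hp ?_, ?_⟩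
  · have := congrArg Complex.re hcon
    simpa using this
  · refine (Complex.norm_le_abs_re_add_abs_im _).trans ?_
    have e1 : (((p : ℝ) : ℂ) + ((q : ℝ) : ℂ) * Complex.I - z).re = (p : ℝ) - z.re := by simp
    have e2 : (((p : ℝ) : ℂ) + ((q : ℝ) : ℂ) * Complex.I - z).im = (q : ℝ) - z.im := by simp
    rw [e1, e2]
    linarith

end TCFCFb

/-- TC-FCF3. Absorbed points are fresh at times close to the absorbing time.

Proof. Every open ball contains a point `w ≠ 0` with rational coordinates; it is not in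
`hull U τ`. So `ph` is not bounded above on `[0,τ)` (`ball_absorbed`). Let `s₁ ∈ (T₀, τ)` with
`|Z| < δ` on `[s₁, τ)`, `Φ₁ = max ph` on `[0,s₁]` (continuous: `TRSTR.ph_cont`), and let `u` be the
first time with `ph_u = Φ₁ + 1` (`first_hit`-type argument, continuity on `[0,s]`, `s < τ`).
Then `u > s₁` and `ph ≤ ph_u` on `[0,u]`. -/
theorem fresh_time {U : ℝ → ℂ} (hU : Continuous U) (h0 : U 0 = 0) {z : ℂ} {T₀ t ε δ : ℝ}
    (hT₀ : 0 ≤ T₀) (hε : 0 < ε) (hε2 : ε ≤ 2) (hδ : 0 < δ) {g₀ : ℝ → ℂ} (hg₀ : Sol U z T₀ g₀)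
    (ht : z ∈ hull U t)
    (hQ : ∀ p q : ℚ, ((p : ℝ) : ℂ) + ((q : ℝ) : ℂ) * Complex.I ≠ 0 →
      ∀ s, 0 ≤ s → ∃ h : ℝ → ℂ, Sol U (((p : ℝ) : ℂ) + ((q : ℝ) : ℂ) * Complex.I) s h) :
    ∃ u, T₀ < u ∧ u ≤ t ∧ ∃ g : ℝ → ℂ, Sol U z u g ∧ ‖g u - U u‖ < δ ∧ fresh U g ε 0 u := by
  obtain ⟨τ, ⟨hτ1, hτ2⟩, g, hg, -, hZ⟩ := absorb hU h0 hT₀ hg₀ ht
  have hτ : 0 < τ := hT₀.trans_lt hτ1
  have hunb : ∀ Φ : ℝ, ∃ u, 0 ≤ u ∧ u < τ ∧ Φ < ph U g ε u := by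
    intro Φ
    by_contra hcon
    push Not at hcon
    obtain ⟨p, q, hne, hpq⟩ := TCFCFb.point_near z
      (show 0 < ε / 16 * Real.exp (-Φ) by positivity)
    obtain ⟨h, hh⟩ := hQ p q hne τ hτ.le
    exact ball_absorbed hU h0 hτ hε hε2 hg hZ hcon hpq ⟨h, hh⟩
  obtain ⟨s, hs, hsm⟩ := hZ δ hδ
  obtain ⟨s₁, hs₁⟩ : ∃ s₁, s₁ = max s ((T₀ + τ) / 2) := ⟨_, rfl⟩
  have h1 : s ≤ s₁ := by
    rw [hs₁]
    exact le_max_left _ _
  have h2 : T₀ < s₁ := by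
    rw [hs₁]
    exact lt_of_lt_of_le (by linarith) (le_max_right _ _)
  have h3 : s₁ < τ := by
    rw [hs₁]
    exact max_lt hs (by linarith)
  have h4 : 0 ≤ s₁ := hT₀.trans h2.le
  obtain ⟨x, hx, hxm⟩ := isCompact_Icc.exists_isMaxOn (Set.nonempty_Icc.2 h4)
    (TRSTR.ph_cont (ε := ε) hU h4 (hg s₁ h4 h3))
  obtain ⟨v, hv0, hvτ, hv⟩ := hunb (ph U g ε x)
  obtain ⟨u, hu, hum⟩ := isCompact_Icc.exists_isMaxOn (Set.nonempty_Icc.2 hv0)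
    (TRSTR.ph_cont (ε := ε) hU hv0 (hg v hv0 hvτ))
  have hum' : ∀ y ∈ Set.Icc 0 v, ph U g ε y ≤ ph U g ε u := fun y hy => hum hy
  have hxm' : ∀ y ∈ Set.Icc 0 s₁, ph U g ε y ≤ ph U g ε x := fun y hy => hxm hy
  have hus : s₁ < u := by
    by_contra hcon
    push Not at hcon
    have e1 := hxm' u ⟨hu.1, hcon⟩
    have e2 := hum' v ⟨hv0, le_rfl⟩
    linarith
  have huτ : u < τ := hu.2.trans_lt hvτ
  refine ⟨u, h2.trans hus, huτ.le.trans hτ2, g, hg u hu.1 huτ,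
    hsm u ⟨h1.trans hus.le, huτ⟩ hu.1, fun y hy => ?_⟩
  have := hum' y ⟨hy.1, hy.2.trans hu.2⟩
  linarith

end

end Pool.Agent.SLE
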