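import Pool.Agent.Lib.MP_c17912_pr_TC.FCFb
import Pool.Agent.Lib.MP_c17912_pr_TC.FCEb
import Pool.Agent.Lib.MP_c17912_pr_TC.FCA
import Pool.Agent.Lib.MP_c17912_pr_TR.FIN

/-!
# MP_c17912_pr, project TC: transience in the forward critical case
-/

set_option autoImplicit false

open MeasureTheory ProbabilityTheory Filter
open scoped NNReal ENNReal Topology Real

namespace Pool.Agent.SLE

noncomputable section

variable {Ω : Type*} [MeasurableSpace Ω] {μ : Measure Ω}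

/-- TC-FCF4. Transience in the forward critical case.

Proof. As `transient_of_hasS` (FIN of TR), with `goal_f` in place of `goal`: almost surely, for
all `R` there is `n₁` such that `ω` is not in the event of `goal_f` for `subP W 0 R` and
`n ≥ n₁`; and almost surely all points with rational coordinates different from `0` live for
ever (`hNA`, countably many points). For `z` in the ball `B_ρ`, in `hull U t`, not in
`hull U T₀`, `T₀ = R² 4^n₁`: `fresh_time` with `δ = R` gives `u > T₀`, a solution on `[0,u]`,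
`|Z_u| < R`, fresh at `u`; choose `n ≥ n₁` with `R² 4^n ≤ u ≤ R² 4^(n+1)`, scale by `R`
(`Sol.shift`, `fresh_scale`): contradiction to `goal_f` (with `d = 0`). -/
theorem transient_fwd [IsProbabilityMeasure μ] {a b c K ε : ℝ} (ha : 0 ≤ a) (hb : 0 ≤ b)
    (hε : 0 < ε) (hε2 : ε ≤ 2) (hS : StrC μ a b c K ε 0) (hT : TailP μ a b c K ε 0)
    {W : ℝ → Ω → ℂ} (hW : Gau a b c K W μ)
    (hNA : ∀ z : ℂ, z ≠ 0 → ∀ᵐ ω ∂μ, ∀ t, 0 ≤ t → ∃ g : ℝ → ℂ, Sol (fun t => W t ω) z t g) :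
    ∀ᵐ ω ∂μ, Transient (fun t => W t ω) := by
  obtain ⟨n₀, hgoal⟩ := goal_f (μ := μ) ha hb le_rfl hS hT
  have hr : ∀ R : ℕ, (0 : ℝ) < (R : ℝ) + 1 := fun R => by positivity
  have hex : ∀ R n : ℕ, ∃ A : Set Ω,
      μ A ≤ ENNReal.ofReal (Real.exp (-((n + (n₀ + 1) : ℕ) : ℝ) ^ (1 / 5 : ℝ))) ∧
        ∀ ω ∉ A, ∀ z : ℂ, ‖z‖ ≤ 1 →
          ∀ s ∈ Set.Icc ((4 : ℝ) ^ (n + (n₀ + 1))) (4 ^ (n + (n₀ + 1) + 1)), ∀ g : ℝ → ℂ,
          Sol (fun t => subP W 0 ((R : ℝ) + 1) t ω) z s g →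
            fresh (fun t => subP W 0 ((R : ℝ) + 1) t ω) g ε 0 s →
            1 < ‖g s - subP W 0 ((R : ℝ) + 1) s ω‖ := by
    intro R n
    obtain ⟨A, -, hA1, hA2⟩ := hgoal (n + (n₀ + 1)) (by omega) (subP W 0 ((R : ℝ) + 1))
      (hW.subP le_rfl (hr R))
    exact ⟨A, hA1, hA2⟩
  choose A hA1 hA2 using hex
  have hsum : ∀ R : ℕ, (∑' n, μ (A R n)) ≠ ∞ := by
    intro R
    refine ne_top_of_le_ne_top ?_ (ENNReal.tsum_le_tsum (hA1 R))
    rw [← ENNReal.ofReal_tsum_of_nonneg (fun n => (Real.exp_pos _).le)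
      (TRFIN.summable_exp n₀)]
    exact ENNReal.ofReal_ne_top
  have hae : ∀ᵐ ω ∂μ, ∀ R : ℕ, ∀ᶠ n in atTop, ω ∉ A R n :=
    ae_all_iff.mpr fun R => ae_eventually_notMem (hsum R)
  have hrat : ∀ᵐ ω ∂μ, ∀ p q : ℚ, ((p : ℝ) : ℂ) + ((q : ℝ) : ℂ) * Complex.I ≠ 0 →
      ∀ s, 0 ≤ s → ∃ h : ℝ → ℂ,
        Sol (fun t => W t ω) (((p : ℝ) : ℂ) + ((q : ℝ) : ℂ) * Complex.I) s h := by
    refine ae_all_iff.mpr fun p => ae_all_iff.mpr fun q => ?_
    by_cases h : ((p : ℝ) : ℂ) + ((q : ℝ) : ℂ) * Complex.I ≠ 0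
    · filter_upwards [hNA _ h] with ω hω _
      exact hω
    · exact Eventually.of_forall fun ω hc => absurd hc h
  filter_upwards [hae, hrat] with ω hω hQ
  intro ρ hρ
  have hcont : Continuous fun t => W t ω := hW.cont ω
  have hU0 : W 0 ω = 0 := hW.zero 0 le_rfl ω
  set R : ℕ := ⌈ρ⌉₊ with hR
  set r : ℝ := (R : ℝ) + 1 with hrdef
  have hr1 : 1 ≤ r := by
    have : (0 : ℝ) ≤ R := Nat.cast_nonneg R
    linarith
  have hr0 : 0 < r := by linarith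
  have hr2 : 0 < r ^ 2 := by positivity
  have hρr : ρ ≤ r := by
    have := Nat.le_ceil ρ
    linarith
  obtain ⟨n₁, hn₁⟩ := eventually_atTop.mp (hω R)
  set m : ℕ := n₁ + (n₀ + 1) with hm
  refine ⟨r ^ 2 * 4 ^ m, by positivity, fun t ht => ?_⟩
  have hT0 : 0 ≤ r ^ 2 * 4 ^ m := by positivity
  ext z
  constructor
  · rintro ⟨hz, hzρ⟩
    refine ⟨?_, hzρ⟩
    by_contra hcon
    simp only [hull, Set.mem_ofPred_eq, not_not] at hcon
    obtain ⟨g₀, hg₀⟩ := hcon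
    obtain ⟨u, hTu, -, g, hg, hgu, hfr⟩ := fresh_time hcont hU0 hT0 hε hε2 hr0 hg₀ hz hQ
    have hu0 : 0 ≤ u := hT0.trans hTu.le
    have hx : (4 : ℝ) ^ m ≤ u / r ^ 2 := by
      rw [le_div_iff₀ hr2]
      linarith
    obtain ⟨n, hn1, hn2⟩ := exists_nat_pow_near (x := u / r ^ 2) (y := (4 : ℝ))
      ((one_le_pow₀ (by norm_num)).trans hx) (by norm_num)
    have hmn : m ≤ n := by
      have h1 : (4 : ℝ) ^ m < 4 ^ (n + 1) := hx.trans_lt hn2
      have h2 := (pow_lt_pow_iff_right₀ (by norm_num : (1 : ℝ) < 4)).mp h1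
      omega
    obtain ⟨k, hk⟩ : ∃ k, n = k + (n₀ + 1) := ⟨n - (n₀ + 1), by omega⟩
    have hk1 : n₁ ≤ k := by omega
    have hsol : Sol (psub (fun t => W t ω) 0 r) (r⁻¹ • z) (u / r ^ 2)
        (gs (fun t => W t ω) g 0 r) := by
      have h := hg.shift le_rfl hu0 hr0
      have e1 : r⁻¹ • (g 0 - W 0 ω) = r⁻¹ • z := by rw [hg.1, hU0, sub_zero]
      rw [sub_zero, e1] at h
      exact h
    have hfin := hA2 R k ω (hn₁ k hk1) (r⁻¹ • z) (by
      have h1 : ‖z‖ < ρ := by simpa using hzρ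
      rw [norm_smul, norm_inv, Real.norm_of_nonneg hr0.le, inv_mul_le_iff₀ hr0]
      linarith) (u / r ^ 2) (by
      rw [← hk]
      exact ⟨hn1, hn2.le⟩) _ hsol (fresh_scale hr0 hg hu0 le_rfl hfr)
    have hval : ‖gs (fun t => W t ω) g 0 r (u / r ^ 2) - subP W 0 r (u / r ^ 2) ω‖ =
        r⁻¹ * ‖g u - W u ω‖ := by
      have h1 := TRSCL.norm_eq (fun t => W t ω) g 0 hr0 (div_nonneg hu0 hr2.le)
      have h2 : 0 + r ^ 2 * (u / r ^ 2) = u := by
        rw [zero_add]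
        field_simp
      rw [h2] at h1
      exact h1
    rw [hval] at hfin
    have h3 : r⁻¹ * ‖g u - W u ω‖ < r⁻¹ * r := mul_lt_mul_of_pos_left hgu (inv_pos.2 hr0)
    rw [inv_mul_cancel₀ hr0.ne'] at h3
    linarith
  · rintro ⟨hz, hzρ⟩
    refine ⟨?_, hzρ⟩
    rintro ⟨g, hg⟩
    exact hz ⟨g, hg.restrict ht⟩

end

end Pool.Agent.SLE
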