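import Pool.Agent.Lib.MP_c17912_pr_TC.FCD
import Pool.Agent.Lib.MP_c17912_pr_TR.GRW
import Pool.Agent.Lib.MP_c17912_pr_TR.LVL

/-!
# MP_c17912_pr, project TC: the growth contradiction with the cost of the tails (pure analysis)
-/

set_option autoImplicit false

open MeasureTheory ProbabilityTheory Filter
open scoped NNReal ENNReal Topology Real

namespace Pool.Agent.SLE

noncomputable section

namespace TCFCG

/-- The eventual inequalities. -/
theorem ev (K A : ℝ) (hK : 0 < K) (hA : 0 < A) :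
    ∃ T : ℝ, 3 ≤ T ∧ ∀ t ≥ T, 1 ≤ Real.log t ∧ Real.log t ≤ √t ∧
      K * Real.log t ^ 4 ≤ t ^ (1 / 128 : ℝ) ∧ A * Real.log t ^ 2 ≤ t ^ (1 / 64 : ℝ) ∧
      2 ≤ t ^ (1 / 64 : ℝ) := by
  have e1 : ∀ᶠ t : ℝ in atTop, ‖Real.log t ^ (4 : ℝ)‖ ≤ K⁻¹ * ‖t ^ (1 / 128 : ℝ)‖ :=
    (isLittleO_log_rpow_rpow_atTop 4 (by norm_num : (0 : ℝ) < 1 / 128)).bound (by positivity)
  have e2 : ∀ᶠ t : ℝ in atTop, ‖Real.log t‖ ≤ 1 * ‖t ^ (1 / 4 : ℝ)‖ :=
    (isLittleO_log_rpow_atTop (by norm_num : (0 : ℝ) < 1 / 4)).bound (by norm_num)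
  have e3 : ∀ᶠ t : ℝ in atTop, ‖Real.log t ^ (2 : ℝ)‖ ≤ A⁻¹ * ‖t ^ (1 / 64 : ℝ)‖ :=
    (isLittleO_log_rpow_rpow_atTop 2 (by norm_num : (0 : ℝ) < 1 / 64)).bound (by positivity)
  have e4 : ∀ᶠ t : ℝ in atTop, (2 : ℝ) ≤ t ^ (1 / 64 : ℝ) :=
    (tendsto_rpow_atTop (by norm_num : (0 : ℝ) < 1 / 64)).eventually_ge_atTop _
  have e6 : ∀ᶠ t : ℝ in atTop, (1 : ℝ) ≤ Real.log t :=
    Real.tendsto_log_atTop.eventually_ge_atTop _
  obtain ⟨T, hT⟩ := eventually_atTop.1 (e1.and (e2.and (e3.and (e4.and e6))))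
  refine ⟨max T 3, le_max_right _ _, fun t ht => ?_⟩
  obtain ⟨f1, f2, f3, f4, f6⟩ := hT t ((le_max_left _ _).trans ht)
  have ht3 : (3 : ℝ) ≤ t := (le_max_right _ _).trans ht
  have ht1 : (1 : ℝ) ≤ t := by linarith
  have ht0 : (0 : ℝ) < t := by linarith
  have hlog0 : 0 ≤ Real.log t := by linarith
  have p1 : 0 < t ^ (1 / 128 : ℝ) := Real.rpow_pos_of_pos ht0 _
  have p2 : 0 < t ^ (1 / 4 : ℝ) := Real.rpow_pos_of_pos ht0 _
  have p3 : 0 < t ^ (1 / 64 : ℝ) := Real.rpow_pos_of_pos ht0 _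
  rw [Real.norm_of_nonneg (by positivity), Real.norm_of_nonneg p1.le] at f1
  rw [Real.norm_of_nonneg hlog0, Real.norm_of_nonneg p2.le, one_mul] at f2
  rw [Real.norm_of_nonneg (by positivity), Real.norm_of_nonneg p3.le] at f3
  have g1 : Real.log t ^ (4 : ℝ) = Real.log t ^ 4 := by
    have := Real.rpow_natCast (Real.log t) 4
    push_cast at this
    exact this
  have g3 : Real.log t ^ (2 : ℝ) = Real.log t ^ 2 := by
    have := Real.rpow_natCast (Real.log t) 2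
    push_cast at this
    exact this
  rw [g1] at f1
  rw [g3] at f3
  refine ⟨f6, ?_, ?_, ?_, f4⟩
  · rw [Real.sqrt_eq_rpow]
    exact f2.trans (Real.rpow_le_rpow_of_exponent_le ht1 (by norm_num))
  · have := mul_le_mul_of_nonneg_left f1 hK.le
    rwa [← mul_assoc, mul_inv_cancel₀ hK.ne', one_mul] at this
  · have := mul_le_mul_of_nonneg_left f3 hA.le
    rwa [← mul_assoc, mul_inv_cancel₀ hA.ne', one_mul] at this

theorem step {C c₁ K L q l x UB J b : ℝ} (hC0 : 0 < C) (hc : 0 < c₁)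
    (hKc : 229376 * C ≤ c₁ * K) (hK16 : 16 ≤ K) (c1 : 1 ≤ L) (hq0 : 0 < q)
    (hq1 : q ≤ 256 * L ^ 2) (hl0 : 0 ≤ l) (hl1 : l ≤ 16 * L) (hJ : 0 ≤ J)
    (hb : K * L ^ 4 ≤ b) (hx : J * b ^ 3 ≤ x) (h7 : c₁ * x / 2 ≤ (C * L) * UB) :
    J * (b + l) ^ 3 ≤ x + UB / (4 * q) := by
  have ha : 0 < C * L := by positivity
  have hL4 : L ≤ L ^ 4 := le_self_pow₀ c1 (by norm_num)
  have hb1 : 16 * L ≤ b := by
    have h1 : 16 * L ≤ K * L ^ 4 :=
      mul_le_mul hK16 hL4 (by positivity) (by linarith)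
    linarith
  have hb0 : 0 ≤ b := by linarith
  have hlb : l ≤ b := by linarith
  have e0 : (b + l) ^ 3 ≤ b ^ 3 + 7 * (b ^ 2 * l) := by
    have h1 : b * l ^ 2 ≤ b ^ 2 * l := by
      have : 0 ≤ b * l := mul_nonneg hb0 hl0
      nlinarith
    have h2 : l ^ 3 ≤ b ^ 2 * l := by
      have : l ^ 2 ≤ b ^ 2 := pow_le_pow_left₀ hl0 hlb 2
      nlinarith
    nlinarith
  have e1 : l * q ≤ 16 * L * (256 * L ^ 2) := mul_le_mul hl1 hq1 hq0.le (by positivity)
  have e2 : 229376 * C * L ^ 4 ≤ c₁ * b := by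
    calc 229376 * C * L ^ 4 ≤ c₁ * K * L ^ 4 := mul_le_mul_of_nonneg_right hKc (by positivity)
      _ = c₁ * (K * L ^ 4) := by ring
      _ ≤ c₁ * b := mul_le_mul_of_nonneg_left hb hc.le
  have e3 : (C * L) * (7 * (J * (b ^ 2 * l)) * (4 * q)) ≤ c₁ * x / 2 := by
    have hJb : 0 ≤ J * b ^ 2 := by positivity
    calc (C * L) * (7 * (J * (b ^ 2 * l)) * (4 * q))
        = (28 * (C * L)) * (J * b ^ 2) * (l * q) := by ring
      _ ≤ (28 * (C * L)) * (J * b ^ 2) * (16 * L * (256 * L ^ 2)) :=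
          mul_le_mul_of_nonneg_left e1 (by positivity)
      _ = (J * b ^ 2) * (229376 * C * L ^ 4) / 2 := by ring
      _ ≤ (J * b ^ 2) * (c₁ * b) / 2 := by
          have := mul_le_mul_of_nonneg_left e2 hJb
          linarith
      _ = c₁ * (J * b ^ 3) / 2 := by ring
      _ ≤ c₁ * x / 2 := by
          have := mul_le_mul_of_nonneg_left hx hc.le
          linarith
  have h9 : 7 * (J * (b ^ 2 * l)) * (4 * q) ≤ UB := le_of_mul_le_mul_left (e3.trans h7) ha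
  have h10 : 7 * (J * (b ^ 2 * l)) ≤ UB / (4 * q) := by
    rw [le_div_iff₀ (by positivity)]
    exact h9
  have h11 := mul_le_mul_of_nonneg_left e0 hJ
  linarith

theorem a1 {S M : ℝ} (hS : 1 ≤ S) (hM : 0 ≤ M) : M + S ≤ S * (1 + M) := by nlinarith

theorem a2 {s t : ℝ} (hs : 0 ≤ s) (ht : 1 ≤ t) : s ≤ t * s := by nlinarith

theorem a3 {c x C L U B u v : ℝ} (h : c * x + 4 * C * L * B ≤ (U + 1) * (C * L) + u + v)
    (hB : 0 ≤ C * L * B) : c * x - (u + v) - C * L ≤ C * L * (U - B) := by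
  have e1 : 4 * C * L * B = 4 * (C * L * B) := by ring
  have e2 : (U + 1) * (C * L) = C * L * U + C * L := by ring
  have e3 : C * L * (U - B) = C * L * U - C * L * B := by ring
  linarith

theorem a4 {C L U B v t : ℝ} (h : 4 * C * L * B ≤ (U + 1) * (C * L) + v)
    (hv : v ≤ C * L * t) : (C * L) * (4 * B) ≤ (C * L) * (U + 1 + t) := by
  have e1 : 4 * C * L * B = (C * L) * (4 * B) := by ring
  have e2 : (C * L) * (U + 1 + t) = (U + 1) * (C * L) + C * L * t := by ring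
  linarith

theorem a5 {a b : ℝ} (ha : 3 ≤ a) (hb : b ≤ a) : a + b ≤ a ^ 2 := by nlinarith

theorem a6 {C u v w s : ℝ} (i1 : C * u ≤ C * s) (i2 : C * v ≤ C * s) (i3 : C * w ≤ C * s) :
    2 * ((C * u + C * v) + C * w) ≤ 6 * C * s := by linarith

theorem a7 {a b : ℝ} (ha : 1 ≤ a) (hb : 64 ≤ b) : 1 + 10 * a ≤ a * b := by nlinarith

theorem pows {t : ℝ} (ht : 0 < t) : √t = (t ^ (1 / 64 : ℝ)) ^ 32 ∧
    t ^ (9 / 16 : ℝ) = (t ^ (1 / 64 : ℝ)) ^ 36 ∧ t ^ (5 / 8 : ℝ) = (t ^ (1 / 64 : ℝ)) ^ 40 := by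
  have h : ∀ k : ℕ, (t ^ (1 / 64 : ℝ)) ^ k = t ^ ((1 / 64 : ℝ) * k) := fun k => by
    rw [Real.rpow_mul ht.le, Real.rpow_natCast]
  refine ⟨?_, ?_, ?_⟩
  · rw [h, Real.sqrt_eq_rpow]
    norm_num
  · rw [h]
    norm_num
  · rw [h]
    norm_num

end TCFCG

/-- TC-FCG. As `growth_contra` (module GRW of TR), with the additional error
`C (m + log n)² (m + √n)`, `m = lev n k`.

Proof. Write `N = n + m`, `L = log N`, `l = ll N`; `4^l ≤ 256 L²`, `l ≤ 16 L` (`TRGRW`).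
`v(m) = C (m + √n) + C (m + log n)² (m + √n)`. Let `I(m) = n^(9/16) (n^(1/128) + m)³`. For large
`n` and all `m ≥ 0`: `(4 / c₁) (v(m) + C L) ≤ I(m)` (`(m + log n)² (m + √n) ≤
(n^(1/128) + m)² (log n)² · √n (1 + m)`, and `n^(9/16) / √n = n^(1/16)` beats `(log n)²` and the
constant).
*Start.* At `k₀`: `4 C L B ≤ (U + 1) C L + v`, `v ≤ C n^(9/16)`, so `B ≤ U / 2` and
`x (k₀+1) ≥ U / (8 · 4^l) ≥ n^(5/8) / (2048 L²) ≥ I(lev n (k₀+1))`, since
`lev n (k₀+1) ≤ 2 n^(1/64)` and `9/16 + 3/64 < 5/8`.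
*Step.* If `x k ≥ I(m)`, `k > k₀`: `c₁ x / 2 + 4 C L B ≤ (U + 1) C L` gives `B ≤ (U+1)/4` and
`U + 1 ≥ c₁ x / (2 C L)`, so `U - B ≥ c₁ x / (4 C L)` (as in `growth_contra`) and
`x (k+1) ≥ x + c x / L³` with `c = c₁ / (4096 C)`. On the other side
`I(m + l) - I(m) ≤ I(m) · 7 l / (n^(1/128) + m)` (`(1 + s)³ - 1 ≤ 7 s` for `0 ≤ s ≤ 1`) and
`7 · 16 L / (n^(1/128) + m) ≤ c / L³` for large `n` (all `m`: `L ≤ log n + log (1 + m)`).
*End.* At `k₁` with `U = 0`: `c₁ x ≤ C L + v < c₁ x`. -/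
theorem growth_contra2 {C c₁ : ℝ} (hC : 1 ≤ C) (hc : 0 < c₁) :
    ∃ n₁ : ℕ, ∀ n ≥ n₁, ∀ (x U B : ℕ → ℝ) (k₀ k₁ : ℕ), (∀ k, 0 ≤ x k) → (∀ k, 0 ≤ U k) →
      (∀ k, 0 ≤ B k) → (lev n k₀ : ℝ) ≤ (n : ℝ) ^ (1 / 64 : ℝ) →
      (∀ k ≥ k₀, c₁ * x k + 4 * C * Real.log ((n : ℝ) + lev n k) * B k ≤
        (U k + 1) * (C * Real.log ((n : ℝ) + lev n k)) + C * (lev n k + √n) +
          C * (lev n k + Real.log n) ^ 2 * (lev n k + √n)) →
      (∀ k ≥ k₀, x k + (U k - B k) / (4 * 4 ^ ll (n + lev n k)) ≤ x (k + 1)) →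
      (n : ℝ) ^ (5 / 8 : ℝ) ≤ U k₀ → k₀ < k₁ → U k₁ = 0 → False := by
  have hC0 : 0 < C := by linarith
  obtain ⟨K, hKdef⟩ : ∃ K : ℝ, K = 229376 * C / c₁ + 16 := ⟨_, rfl⟩
  obtain ⟨A, hAdef⟩ : ∃ A : ℝ, A = 221184 + 6 * C / c₁ := ⟨_, rfl⟩
  have hq1 : 0 < 229376 * C / c₁ := by positivity
  have hq2 : 0 < 6 * C / c₁ := by positivity
  have hK16 : 16 ≤ K := by linarith
  have hKc : 229376 * C ≤ c₁ * K := by
    rw [hKdef, mul_add, mul_div_cancel₀ _ hc.ne']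
    linarith
  have hA1 : 221184 ≤ A := by linarith
  have hAc : 6 * C ≤ c₁ * A := by
    rw [hAdef, mul_add, mul_div_cancel₀ _ hc.ne']
    linarith
  obtain ⟨T, hT3, hT⟩ := TCFCG.ev K A (by linarith) (by linarith)
  obtain ⟨n₀, hn₀⟩ := exists_nat_ge T
  refine ⟨n₀, fun n hn x U B k₀ k₁ hx hU hB hlev h1 h2 hU0 hk hU1 => ?_⟩
  have hnT : T ≤ (n : ℝ) := hn₀.trans (by exact_mod_cast hn)
  have hn3 : (3 : ℝ) ≤ n := hT3.trans hnT
  have hn0 : (0 : ℝ) < n := by linarith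
  have hn3' : 3 ≤ n := by exact_mod_cast hn3
  have hN2 : ∀ k, 2 ≤ n + lev n k := fun k => by omega
  obtain ⟨b1, b2, b3, b4, b5⟩ := hT n hnT
  have hNT : ∀ k, T ≤ (n : ℝ) + lev n k := fun k => by
    have : (0 : ℝ) ≤ (lev n k : ℝ) := Nat.cast_nonneg _
    linarith
  have hcast : ∀ k, ((n + lev n k : ℕ) : ℝ) = (n : ℝ) + lev n k := fun k => by push_cast; rfl
  obtain ⟨s1, s2, s3⟩ := TCFCG.pows hn0
  obtain ⟨w, hw⟩ : ∃ w : ℝ, w = (n : ℝ) ^ (1 / 64 : ℝ) := ⟨_, rfl⟩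
  obtain ⟨a, ha⟩ : ∃ a : ℝ, a = (n : ℝ) ^ (1 / 128 : ℝ) := ⟨_, rfl⟩
  obtain ⟨lam, hlam⟩ : ∃ lam : ℝ, lam = Real.log n := ⟨_, rfl⟩
  rw [← hw] at s1 s2 s3 b4 b5 hlev
  rw [← ha] at b3
  rw [← hlam] at b1 b2 b3 b4
  have ha1 : 1 ≤ a := by
    rw [ha]
    exact Real.one_le_rpow (by linarith) (by norm_num)
  have haw : a ≤ w := by
    rw [ha, hw]
    exact Real.rpow_le_rpow_of_exponent_le (by linarith) (by norm_num)
  have hw0 : 0 < w := by linarith
  have hmon : ∀ k, (lev n k : ℝ) = 0 ∨ 1 ≤ (lev n k : ℝ) := by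
    intro k
    rcases Nat.eq_zero_or_pos (lev n k) with h0 | h0
    · left
      rw [h0, Nat.cast_zero]
    · right
      exact_mod_cast h0
  have hm0 : ∀ k, (0 : ℝ) ≤ (lev n k : ℝ) := fun k => Nat.cast_nonneg _
  have hpm : ∀ k (e : ℝ), 0 < e → e ≤ 1 → (lev n k : ℝ) ^ e ≤ lev n k := by
    intro k e he he1
    rcases hmon k with h0 | h0
    · rw [h0, Real.zero_rpow he.ne']
    · have := Real.rpow_le_rpow_of_exponent_le h0 he1
      rwa [Real.rpow_one] at this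
  -- the algebra of one step
  have hkey : ∀ k ≥ k₀, c₁ * x k - (C * (lev n k + √n) +
      C * (lev n k + lam) ^ 2 * (lev n k + √n)) - C * Real.log ((n : ℝ) + lev n k) ≤
      C * Real.log ((n : ℝ) + lev n k) * (U k - B k) := by
    intro k hk
    have ha : 0 < C * Real.log ((n : ℝ) + lev n k) := by
      have := (hT _ (hNT k)).1
      positivity
    have h3 := h1 k hk
    rw [← hlam] at h3
    exact TCFCG.a3 h3 (mul_nonneg ha.le (hB k))
  -- the cost is small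
  have hcost : 6 * C * lam ^ 2 * w ^ 32 ≤ c₁ * w ^ 36 := by
    have h3 : lam ^ 2 * (6 * C) ≤ lam ^ 2 * (c₁ * A) :=
      mul_le_mul_of_nonneg_left hAc (by positivity)
    have h4 : c₁ * (A * lam ^ 2) ≤ c₁ * w := mul_le_mul_of_nonneg_left b4 hc.le
    have h5 : w ≤ w ^ 4 := le_self_pow₀ (by linarith) (by norm_num)
    have h6 : 6 * C * lam ^ 2 ≤ c₁ * w ^ 4 := by
      have := mul_le_mul_of_nonneg_left h5 hc.le
      linarith
    calc 6 * C * lam ^ 2 * w ^ 32 ≤ c₁ * w ^ 4 * w ^ 32 :=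
          mul_le_mul_of_nonneg_right h6 (by positivity)
      _ = c₁ * w ^ 36 := by ring
  -- the invariant is strong enough
  have hbig : ∀ k, w ^ 36 * (a + lev n k) ^ 3 ≤ x k →
      2 * ((C * (lev n k + √n) + C * (lev n k + lam) ^ 2 * (lev n k + √n)) +
        C * Real.log ((n : ℝ) + lev n k)) ≤ c₁ * x k := by
    intro k hk
    have c2 := (hT _ (hNT k)).2.1
    have h3 : √((n : ℝ) + lev n k) ≤ √n + √(lev n k) :=
      TRGRW.sqrt_add_le (by positivity) (by positivity)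
    have h4 : √(lev n k : ℝ) ≤ lev n k := by
      rw [Real.sqrt_eq_rpow]
      exact hpm k _ (by norm_num) (by norm_num)
    have hmk := hm0 k
    obtain ⟨M, hM⟩ : ∃ M : ℝ, M = lev n k := ⟨_, rfl⟩
    obtain ⟨S, hS⟩ : ∃ S : ℝ, S = √n := ⟨_, rfl⟩
    rw [← hM] at hk c2 h3 h4 hmk ⊢
    rw [← hS] at h3 ⊢
    have hS1 : 1 ≤ S := by
      rw [hS, Real.one_le_sqrt]
      linarith
    have h5 : M + S ≤ S * (1 + M) := TCFCG.a1 hS1 hmk
    have h6 : M + lam ≤ lam * (1 + M) := TCFCG.a1 b1 hmk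
    have h7 : (M + lam) ^ 2 ≤ lam ^ 2 * (1 + M) ^ 2 := by
      rw [← mul_pow]
      exact pow_le_pow_left₀ (by linarith) h6 2
    have h8 : (M + lam) ^ 2 * (M + S) ≤ lam ^ 2 * S * (1 + M) ^ 3 := by
      calc (M + lam) ^ 2 * (M + S) ≤ (lam ^ 2 * (1 + M) ^ 2) * (S * (1 + M)) :=
            mul_le_mul h7 h5 (by linarith) (by positivity)
        _ = _ := by ring
    have h9 : S * (1 + M) ≤ lam ^ 2 * S * (1 + M) ^ 3 := by
      have h10 : 1 ≤ lam ^ 2 * (1 + M) ^ 2 :=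
        one_le_mul_of_one_le_of_one_le (one_le_pow₀ b1) (one_le_pow₀ (by linarith))
      have h11 : 0 ≤ S * (1 + M) := by positivity
      exact (TCFCG.a2 h11 h10).trans_eq (by ring)
    have h10 : (1 + M) ^ 3 ≤ (a + M) ^ 3 := pow_le_pow_left₀ (by linarith) (by linarith) 3
    have h11 : 2 * ((C * (M + S) + C * (M + lam) ^ 2 * (M + S)) +
        C * Real.log ((n : ℝ) + M)) ≤ 6 * C * (lam ^ 2 * S * (1 + M) ^ 3) := by
      have i1 : C * (M + S) ≤ C * (lam ^ 2 * S * (1 + M) ^ 3) :=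
        mul_le_mul_of_nonneg_left (h5.trans h9) hC0.le
      have i2 : C * ((M + lam) ^ 2 * (M + S)) ≤ C * (lam ^ 2 * S * (1 + M) ^ 3) :=
        mul_le_mul_of_nonneg_left h8 hC0.le
      have i3 : C * Real.log ((n : ℝ) + M) ≤ C * (lam ^ 2 * S * (1 + M) ^ 3) := by
        refine mul_le_mul_of_nonneg_left ?_ hC0.le
        linarith
      rw [mul_assoc C]
      exact TCFCG.a6 i1 i2 i3
    refine h11.trans ?_
    have hSw : S = w ^ 32 := by rw [hS, s1]
    rw [hSw]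
    calc 6 * C * (lam ^ 2 * w ^ 32 * (1 + M) ^ 3)
        = (6 * C * lam ^ 2 * w ^ 32) * (1 + M) ^ 3 := by ring
      _ ≤ (c₁ * w ^ 36) * (a + M) ^ 3 := mul_le_mul hcost h10 (by positivity) (by positivity)
      _ = c₁ * (w ^ 36 * (a + M) ^ 3) := by ring
      _ ≤ c₁ * x k := mul_le_mul_of_nonneg_left hk hc.le
  have hinv : ∀ k, k₀ + 1 ≤ k → w ^ 36 * (a + lev n k) ^ 3 ≤ x k := by
    intro k hk
    induction k, hk using Nat.le_induction with
    | base =>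
      have hL := (hT _ (hNT k₀)).1
      have hwn : w ≤ n := by
        rw [hw]
        have := Real.rpow_le_rpow_of_exponent_le (by linarith : (1 : ℝ) ≤ n)
          (by norm_num : (1 / 64 : ℝ) ≤ 1)
        rwa [Real.rpow_one] at this
      have hL2 : Real.log ((n : ℝ) + lev n k₀) ≤ 2 * lam := by
        have h3 : (lev n k₀ : ℝ) ≤ n := hlev.trans hwn
        have h4 : (n : ℝ) + lev n k₀ ≤ (n : ℝ) ^ 2 := TCFCG.a5 hn3 h3
        have h5 := Real.log_le_log (by positivity) h4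
        rw [Real.log_pow, ← hlam] at h5
        exact_mod_cast h5
      have hq1 := TRGRW.four_pow_ll_le (hN2 k₀)
      have hl1 := TRGRW.ll_le_log (hN2 k₀)
      rw [hcast] at hq1 hl1
      have hq2 : (4 : ℝ) ^ ll (n + lev n k₀) ≤ 256 * (2 * lam) ^ 2 := by
        refine hq1.trans ?_
        have := pow_le_pow_left₀ (by linarith : (0 : ℝ) ≤ Real.log ((n : ℝ) + lev n k₀)) hL2 2
        linarith
      have hqpos : (0 : ℝ) < 4 ^ ll (n + lev n k₀) := by positivity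
      have h32 : 32 * lam ≤ w := by
        have h3 : lam ≤ lam ^ 2 := le_self_pow₀ b1 (by norm_num)
        have h4 : 32 * lam ^ 2 ≤ A * lam ^ 2 :=
          mul_le_mul_of_nonneg_right (by linarith) (by positivity)
        linarith
      have hlev1 : a + (lev n (k₀ + 1) : ℝ) ≤ 3 * w := by
        have h3 : lev n (k₀ + 1) = lev n k₀ + ll (n + lev n k₀) := rfl
        rw [h3]
        push_cast
        linarith
      have hmk := hm0 k₀
      have hmk1 := hm0 (k₀ + 1)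
      -- the count is at least half of `U`
      have hUB : w ^ 40 / 2 ≤ U k₀ - B k₀ := by
        have h3 := h1 k₀ le_rfl
        rw [← hlam, s1] at h3
        rw [s3] at hU0
        obtain ⟨L, hLd⟩ : ∃ L, L = Real.log ((n : ℝ) + lev n k₀) := ⟨_, rfl⟩
        obtain ⟨M, hM⟩ : ∃ M : ℝ, M = lev n k₀ := ⟨_, rfl⟩
        rw [← hLd, ← hM] at h3
        rw [← hLd] at hL
        rw [← hM] at hlev hmk
        have hw1 : 1 ≤ w := by linarith
        have h4 : w ≤ w ^ 32 := le_self_pow₀ hw1 (by norm_num)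
        have h5 : M + w ^ 32 ≤ 2 * w ^ 32 := by linarith
        have h6 : (M + lam) ^ 2 ≤ 4 * w ^ 2 := by
          have : (M + lam) ^ 2 ≤ (2 * w) ^ 2 := pow_le_pow_left₀ (by linarith) (by linarith) 2
          linarith
        have h7 : (M + lam) ^ 2 * (M + w ^ 32) ≤ 4 * w ^ 2 * (2 * w ^ 32) :=
          mul_le_mul h6 h5 (by positivity) (by positivity)
        have h8 : M + w ^ 32 + (M + lam) ^ 2 * (M + w ^ 32) ≤ 10 * w ^ 34 := by
          have h9 : w ^ 32 ≤ w ^ 34 := pow_le_pow_right₀ hw1 (by norm_num)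
          have h10 : 4 * w ^ 2 * (2 * w ^ 32) = 8 * w ^ 34 := by ring
          linarith
        have h9 : 4 * C * L * B k₀ ≤ (U k₀ + 1) * (C * L) + C * (10 * w ^ 34) := by
          have h10 := mul_nonneg hc.le (hx k₀)
          have h11 := mul_le_mul_of_nonneg_left h8 hC0.le
          rw [mul_add, ← mul_assoc] at h11
          linarith
        have h10 : C * (10 * w ^ 34) ≤ C * L * (10 * w ^ 34) := by
          have h11 : 0 ≤ C * (10 * w ^ 34) := by positivity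
          exact (TCFCG.a2 h11 hL).trans_eq (by ring)
        have h11 : (C * L) * (4 * B k₀) ≤ (C * L) * (U k₀ + 1 + 10 * w ^ 34) :=
          TCFCG.a4 h9 h10
        have h12 : 4 * B k₀ ≤ U k₀ + 1 + 10 * w ^ 34 :=
          le_of_mul_le_mul_left h11 (by positivity)
        have h13 : 1 + 10 * w ^ 34 ≤ w ^ 40 := by
          have h14 : (2 : ℝ) ^ 6 ≤ w ^ 6 := pow_le_pow_left₀ (by norm_num) b5 6
          have h15 : (1 : ℝ) ≤ w ^ 34 := one_le_pow₀ hw1
          have h16 : w ^ 40 = w ^ 34 * w ^ 6 := by ring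
          rw [h16]
          exact TCFCG.a7 h15 (by linarith)
        linarith
      have h3 := h2 k₀ le_rfl
      have h4 : w ^ 36 * (a + lev n (k₀ + 1)) ^ 3 ≤
          (U k₀ - B k₀) / (4 * 4 ^ ll (n + lev n k₀)) := by
        rw [le_div_iff₀ (by positivity)]
        have h5 : (a + (lev n (k₀ + 1) : ℝ)) ^ 3 ≤ (3 * w) ^ 3 :=
          pow_le_pow_left₀ (by linarith) hlev1 3
        have h6 : w ^ 36 * (a + (lev n (k₀ + 1) : ℝ)) ^ 3 ≤ 27 * w ^ 39 := by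
          calc w ^ 36 * (a + (lev n (k₀ + 1) : ℝ)) ^ 3 ≤ w ^ 36 * (3 * w) ^ 3 :=
                mul_le_mul_of_nonneg_left h5 (by positivity)
            _ = 27 * w ^ 39 := by ring
        have h7 : w ^ 36 * (a + (lev n (k₀ + 1) : ℝ)) ^ 3 * (4 * 4 ^ ll (n + lev n k₀)) ≤
            27 * w ^ 39 * (4 * (256 * (2 * lam) ^ 2)) :=
          mul_le_mul h6 (by linarith) (by positivity) (by positivity)
        have h8 : 27 * w ^ 39 * (4 * (256 * (2 * lam) ^ 2)) =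
            w ^ 39 * (221184 * lam ^ 2) / 2 := by ring
        have h9 : 221184 * lam ^ 2 ≤ w :=
          (mul_le_mul_of_nonneg_right hA1 (by positivity)).trans b4
        have h10 : w ^ 39 * (221184 * lam ^ 2) ≤ w ^ 39 * w :=
          mul_le_mul_of_nonneg_left h9 (by positivity)
        have h11 : w ^ 39 * w = w ^ 40 := by ring
        linarith
      have h6 := hx k₀
      linarith
    | succ k hk ih =>
      obtain ⟨c1, c2, c3, -, -⟩ := hT _ (hNT k)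
      have hkk : k₀ ≤ k := by omega
      have h3 := hkey k hkk
      have h4 := h2 k hkk
      have hq1 := TRGRW.four_pow_ll_le (hN2 k)
      have hl1 := TRGRW.ll_le_log (hN2 k)
      rw [hcast] at hq1 hl1
      have hm : lev n (k + 1) = lev n k + ll (n + lev n k) := rfl
      rw [hm]
      push_cast
      have h5 := hbig k ih
      have h6 : ((n : ℝ) + lev n k) ^ (1 / 128 : ℝ) ≤ a + lev n k := by
        have h7 := Real.rpow_add_le_add_rpow (p := 1 / 128) (a := n) (b := lev n k)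
          (by positivity) (by positivity) (by norm_num) (by norm_num)
        rw [← ha] at h7
        have h8 := hpm k (1 / 128) (by norm_num) (by norm_num)
        linarith
      obtain ⟨L, hLd⟩ : ∃ L, L = Real.log ((n : ℝ) + lev n k) := ⟨_, rfl⟩
      obtain ⟨q, hqd⟩ : ∃ q : ℝ, q = 4 ^ ll (n + lev n k) := ⟨_, rfl⟩
      obtain ⟨l, hld⟩ : ∃ l : ℝ, l = ll (n + lev n k) := ⟨_, rfl⟩
      have hq0 : 0 < q := by rw [hqd]; positivity
      have hl0 : 0 ≤ l := by rw [hld]; positivity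
      rw [← hLd] at c1 c2 c3 h3 h5 hq1 hl1
      rw [← hqd] at h4 hq1
      rw [← hld] at hl1 ⊢
      have h7 : c₁ * x k / 2 ≤ (C * L) * (U k - B k) := by linarith
      have h10 := TCFCG.step (J := w ^ 36) (b := a + lev n k) hC0 hc hKc hK16 c1 hq0 hq1 hl0
        hl1 (by positivity) (c3.trans h6) ih h7
      rw [← add_assoc]
      linarith
  have h3 := hinv k₁ (by omega)
  have h4 := hbig k₁ h3
  have h5 := hkey k₁ (by omega)
  rw [hU1] at h5
  have hL := (hT _ (hNT k₁)).1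
  have h6 : 0 < C * Real.log ((n : ℝ) + lev n k₁) := by positivity
  have h7 : 0 ≤ C * (lev n k₁ + √n) + C * (lev n k₁ + lam) ^ 2 * (lev n k₁ + √n) := by
    positivity
  have h8 := mul_nonneg h6.le (hB k₁)
  rw [mul_sub, mul_zero] at h5
  linarith

end

end Pool.Agent.SLE
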