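import Pool.Agent.Lib.MP_c17912_pr_TC.FCM
import Pool.Agent.Lib.MP_c17912_pr_TR.GRO

/-!
# MP_c17912_pr, project TC: the growth of the clock
-/

set_option autoImplicit false

open MeasureTheory ProbabilityTheory Filter
open scoped NNReal ENNReal Topology Real

namespace Pool.Agent.SLE

noncomputable section

/-- The data of one level: `x` is the clock `XX` of the level, `x'` that of the next level; `M`
the exponent of the scale; `τ` the number of cells covered by the closed pieces, `S` the skipped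
cells; `N = n + M`. -/
def LevP (U g : ℝ → ℂ) (C c₁ x x' : ℝ) (n M τ : ℕ) (Uk Bk : ℝ) (S : Finset ℕ) : Prop :=
  0 ≤ Uk ∧ 0 ≤ Bk ∧ x + (Uk - Bk) / (4 * 4 ^ ll (n + M)) ≤ x' ∧
    (∀ j ∈ S, j < τ ∧ low U g (rr M) j) ∧ (S.card : ℝ) ≤ 2 * (Uk + 4) * ((n : ℝ) + M) ^ 10 ∧
    c₁ * ∑ j ∈ Finset.range τ \ S, ck U g (rr M) j + 4 * C * Real.log ((n : ℝ) + M) * Bk ≤
      (Uk + 1) * (C * Real.log ((n : ℝ) + M)) + C * (M + √n)

namespace TCFCL

/-- The clock in the cells which are not low increases with the number of cells. -/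
theorem XX_mono {U g : ℝ → ℂ} {r : ℝ} {M M' : ℕ} (h : M ≤ M') : XX U g r M ≤ XX U g r M' := by
  classical
  unfold XX
  refine le_trans (le_of_eq ?_) ((Finset.sum_le_sum_of_subset_of_nonneg (f := fun j : ℕ =>
    if low U g r j then 0 else lk U g ((j : ℝ) * r ^ 2) (((j : ℝ) + 1) * r ^ 2))
    (Finset.range_subset_range.2 h) fun j _ _ => ?_).trans (le_of_eq ?_))
  · congr
  · split_ifs
    · exact le_rfl
    · unfold lk
      refine intervalIntegral.integral_nonneg ?_ fun u _ => by positivity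
      nlinarith [sq_nonneg r]
  · congr

end TCFCL

/-- TC-FCL1. One step of the growth of the clock, without any hypothesis on riders: the clock
of the cells which are not low increases with the level; a set `Q` of transitions with good cells
gives at least `#Q / (4 * 4^l)` more.

Proof. `grow_step` with `good j = ¬ Bd j` and `M := T` (`T` cells of the mesh `r²` in `[0,t]`);
`#Q - #(Q.filter Bd) ≤ #(filter (tr ∧ good))` because `Q ⊆ {j | j + 1 < τ, tr j}`, `τ ≤ T`; and
`XX U g (r * rr l) (T * 4 ^ l) ≤ XX U g (r * rr l) T'` for `T 4^l ≤ T'` (the terms are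
nonnegative). -/
theorem grow_c {U : ℝ → ℂ} (hU : Continuous U) {z : ℂ} {r t : ℝ} (hr : 0 < r) {l T T' τ : ℕ}
    (hl : 3 ≤ l) {g : ℝ → ℂ} (hg : Sol U z t g) (hT : (T : ℝ) * r ^ 2 ≤ t)
    (hT' : T * 4 ^ l ≤ T') (Bd : ℕ → Prop) [DecidablePred Bd]
    (hgood : ∀ j, ¬ Bd j → ∀ i < 4 ^ l,
      ∀ u ∈ Set.Icc (((j * 4 ^ l + i : ℕ) : ℝ) * (r * rr l) ^ 2)
        ((((j * 4 ^ l + i : ℕ) : ℝ) + 1) * (r * rr l) ^ 2),
      ∀ v ∈ Set.Icc (((j * 4 ^ l + i : ℕ) : ℝ) * (r * rr l) ^ 2)
        ((((j * 4 ^ l + i : ℕ) : ℝ) + 1) * (r * rr l) ^ 2), ‖U u - U v‖ ≤ r / 4)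
    (Q : Finset ℕ) (hQ : ∀ j ∈ Q, j + 1 < τ ∧ tr U g r j) (hτ : τ ≤ T) :
    XX U g r T + ((Q.card : ℝ) - (Q.filter Bd).card) / (4 * 4 ^ l) ≤ XX U g (r * rr l) T' := by
  classical
  have h := grow_step hU hr hl (Sol.restrict hg hT) (fun j => ¬ Bd j) hgood
  have hmono : XX U g (r * rr l) (T * 4 ^ l) ≤ XX U g (r * rr l) T' :=
    TCFCL.XX_mono hT'
  refine le_trans ?_ (h.trans hmono)
  have h4 : (0 : ℝ) < 4 * 4 ^ l := by positivity
  have hcard : (Q.card : ℝ) - (Q.filter Bd).card ≤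
      ((Finset.range (T - 1)).filter fun j => tr U g r j ∧ ¬ Bd j).card := by
    have h1 : (Q.filter Bd).card + (Q.filter fun j => ¬ Bd j).card = Q.card :=
      Finset.card_filter_add_card_filter_not (s := Q) Bd
    have h2 : (Q.filter fun j => ¬ Bd j).card ≤
        ((Finset.range (T - 1)).filter fun j => tr U g r j ∧ ¬ Bd j).card := by
      refine Finset.card_le_card (fun j hj => ?_)
      obtain ⟨hjQ, hjB⟩ := Finset.mem_filter.1 hj
      obtain ⟨h3, h4'⟩ := hQ j hjQ
      exact Finset.mem_filter.2 ⟨Finset.mem_range.2 (by omega), h4', hjB⟩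
    have h1' : ((Q.filter Bd).card : ℝ) + (Q.filter fun j => ¬ Bd j).card = Q.card := by
      exact_mod_cast h1
    have h2' : ((Q.filter fun j => ¬ Bd j).card : ℝ) ≤
        ((Finset.range (T - 1)).filter fun j => tr U g r j ∧ ¬ Bd j).card := by
      exact_mod_cast h2
    linarith
  have h5 : ((Q.card : ℝ) - (Q.filter Bd).card) / (4 * 4 ^ l) ≤ 1 / (4 * 4 ^ l) *
      ((Finset.range (T - 1)).filter fun j => tr U g r j ∧ ¬ Bd j).card := by
    rw [div_eq_mul_one_div, mul_comm]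
    exact mul_le_mul_of_nonneg_left hcard (by positivity)
  refine (add_le_add le_rfl h5).trans (le_of_eq ?_)
  congr

end

end Pool.Agent.SLE
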