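import Pool.Agent.Lib.MP_c17912_pr_TC.FCL
import Pool.Agent.Lib.MP_c17912_pr_TR.STA

/-!
# MP_c17912_pr, project TC: all the levels at once, forward critical case
-/

set_option autoImplicit false

open MeasureTheory ProbabilityTheory Filter
open scoped NNReal ENNReal Topology Real

namespace Pool.Agent.SLE

noncomputable section

variable {Ω : Type*} [MeasurableSpace Ω] {μ : Measure Ω}

namespace TCFCLb

theorem low_scale (U g : ℝ → ℂ) (M j : ℕ) :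
    low (psub U 0 (rr M)) (gs U g 0 (rr M)) 1 j ↔ low U g (rr M) j := by
  have h0 : rr 0 = 1 := by
    unfold rr
    exact pow_zero _
  have h := low_shift U g 0 M 0 j
  rw [h0, Nat.cast_zero, zero_mul, Nat.zero_mul, Nat.zero_add, Nat.add_zero] at h
  exact h

theorem good {M l : ℕ} {U : ℝ → ℂ} (hU0 : U 0 = 0) (P : ℕ → Prop)
    (hBd : ∀ j, ¬ P j → ∀ i : ℕ, i < 4 ^ l →
      ∀ u ∈ Set.Icc ((j : ℝ) + i / 4 ^ l) ((j : ℝ) + (i + 1) / 4 ^ l),
      ∀ v ∈ Set.Icc ((j : ℝ) + i / 4 ^ l) ((j : ℝ) + (i + 1) / 4 ^ l),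
        ‖psub U 0 (rr M) u - psub U 0 (rr M) v‖ ≤ 1 / 4) :
    ∀ j, ¬ P j → ∀ i < 4 ^ l,
      ∀ u ∈ Set.Icc (((j * 4 ^ l + i : ℕ) : ℝ) * (rr M * rr l) ^ 2)
        ((((j * 4 ^ l + i : ℕ) : ℝ) + 1) * (rr M * rr l) ^ 2),
      ∀ v ∈ Set.Icc (((j * 4 ^ l + i : ℕ) : ℝ) * (rr M * rr l) ^ 2)
        ((((j * 4 ^ l + i : ℕ) : ℝ) + 1) * (rr M * rr l) ^ 2), ‖U u - U v‖ ≤ rr M / 4 := by
  have hr : 0 < rr M := TRSTA.rr_pos M
  intro j hj i hi u hu v hv
  have key : ∀ w ∈ Set.Icc (((j * 4 ^ l + i : ℕ) : ℝ) * (rr M * rr l) ^ 2)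
      ((((j * 4 ^ l + i : ℕ) : ℝ) + 1) * (rr M * rr l) ^ 2),
      w / rr M ^ 2 ∈ Set.Icc ((j : ℝ) + i / 4 ^ l) ((j : ℝ) + (i + 1) / 4 ^ l) ∧
      psub U 0 (rr M) (w / rr M ^ 2) = (rr M)⁻¹ • U w := by
    intro w hw
    have hr2 : 0 < rr M ^ 2 := by positivity
    have hl2 : rr l ^ 2 = 1 / 4 ^ l := TRSTA.rr_sq l
    have e1 : ((j * 4 ^ l + i : ℕ) : ℝ) * rr l ^ 2 = (j : ℝ) + i / 4 ^ l := by
      rw [hl2]
      push_cast
      field_simp
    have e2 : (((j * 4 ^ l + i : ℕ) : ℝ) + 1) * rr l ^ 2 = (j : ℝ) + (i + 1) / 4 ^ l := by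
      rw [hl2]
      push_cast
      field_simp
      ring
    have hm : w / rr M ^ 2 ∈ Set.Icc ((j : ℝ) + i / 4 ^ l) ((j : ℝ) + (i + 1) / 4 ^ l) := by
      constructor
      · rw [le_div_iff₀ hr2, ← e1]
        refine le_trans (le_of_eq ?_) hw.1
        ring
      · rw [div_le_iff₀ hr2, ← e2]
        refine le_trans hw.2 (le_of_eq ?_)
        ring
    refine ⟨hm, ?_⟩
    have h0 : 0 ≤ w / rr M ^ 2 := le_trans (by positivity) hm.1
    unfold psub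
    rw [max_eq_left h0, hU0, sub_zero, zero_add, mul_div_cancel₀ _ hr2.ne']
  obtain ⟨hu1, hu2⟩ := key u hu
  obtain ⟨hv1, hv2⟩ := key v hv
  have := hBd j hj i hi _ hu1 _ hv1
  rw [hu2, hv2, ← smul_sub, norm_smul, Real.norm_of_nonneg (by positivity)] at this
  rw [inv_mul_le_iff₀ hr] at this
  linarith

/-- The growth without any transition. -/
theorem grow0 {U : ℝ → ℂ} (hU : Continuous U) {n M T T' : ℕ} {t : ℝ} {z : ℂ} {g : ℝ → ℂ}
    (hg : Sol U z t g) (hT : (T : ℝ) * rr M ^ 2 ≤ t) (hT' : T * 4 ^ ll (n + M) ≤ T') :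
    XX U g (rr M) T ≤ XX U g (rr (M + ll (n + M))) T' := by
  have h := grow_c (l := ll (n + M)) hU (TRSTA.rr_pos M) (ll_ge _) hg hT hT' (fun _ => True)
    (fun j hj => absurd trivial hj) ∅ (τ := 0) (by simp) (Nat.zero_le _)
  rw [TRSTA.rr_add] at h
  simpa using h

theorem log_ge_one {n M : ℕ} (hn : 16 ≤ n) : 1 ≤ Real.log ((n : ℝ) + M) := by
  have h2 : (16 : ℝ) ≤ n := by exact_mod_cast hn
  have h3 : (0 : ℝ) ≤ M := by positivity
  rw [Real.le_log_iff_exp_le (by linarith)]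
  have h1 := Real.exp_one_lt_d9
  linarith

theorem sqrt_ge {n : ℕ} (hn : 16 ≤ n) : 4 ≤ √(n : ℝ) := by
  apply Real.le_sqrt_of_sq_le
  norm_num
  exact_mod_cast hn

open Classical in
theorem core {Cp c₁ : ℝ} (hCp : 1 ≤ Cp) {n M : ℕ} (hn : 16 ≤ n)
    {U : ℝ → ℂ} (hU : Continuous U) (hU0 : U 0 = 0) (P : ℕ → Prop)
    (hBd : ∀ j, ¬ P j → ∀ i : ℕ, i < 4 ^ ll (n + M) →
      ∀ u ∈ Set.Icc ((j : ℝ) + i / 4 ^ ll (n + M)) ((j : ℝ) + (i + 1) / 4 ^ ll (n + M)),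
      ∀ v ∈ Set.Icc ((j : ℝ) + i / 4 ^ ll (n + M)) ((j : ℝ) + (i + 1) / 4 ^ ll (n + M)),
        ‖psub U 0 (rr M) u - psub U 0 (rr M) v‖ ≤ 1 / 4)
    {t : ℝ} {T T' τ : ℕ} {z : ℂ} {g : ℝ → ℂ} (hg : Sol U z t g) (hT : (T : ℝ) * rr M ^ 2 ≤ t)
    (hT' : T * 4 ^ ll (n + M) ≤ T') (hτ : τ ≤ T) {Q S : Finset ℕ}
    (hP : PatB (psub U 0 (rr M)) (gs U g 0 (rr M)) 1 c₁
      (4 * (112 * Cp) * Real.log ((n : ℝ) + M))
      (Cp * (Real.log ((n : ℝ) + M) + Real.log (((n + M) ^ 10 : ℕ) : ℝ) + 1))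
      (Cp * (Real.log ((n + 4) * 2 ^ M + (n + M)) + 1) + (√n + M + 1)) P ((n + M) ^ 10) τ Q S) :
    LevP U g (112 * Cp) c₁ (XX U g (rr M) T) (XX U g (rr (M + ll (n + M))) T') n M τ
      (Q.card : ℝ) ((Q.filter P).card : ℝ) S ∧
      ((∀ j < T, ¬ low U g (rr M) j) → (Q.card : ℝ) = 0) := by
  obtain ⟨h1, h2, h3, h4⟩ := hP
  have hQ : ∀ j ∈ Q, j + 1 < τ ∧ tr U g (rr M) j := fun j hj =>
    ⟨(h1 j hj).1, ((XX_scale U g M T).2.2.1 j).1 (h1 j hj).2⟩
  refine ⟨⟨by positivity, by positivity, ?_, ?_, ?_, ?_⟩, ?_⟩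
  · have h := grow_c (l := ll (n + M)) hU (TRSTA.rr_pos M) (ll_ge _) hg hT hT' P
      (good hU0 P hBd) Q hQ hτ
    rw [TRSTA.rr_add] at h
    refine le_trans (le_of_eq ?_) h
    congr
  · exact fun j hj => ⟨(h2 j hj).1, (low_scale U g M j).1 (h2 j hj).2⟩
  · have hD : 1 ≤ (n + M) ^ 10 := Nat.one_le_pow _ _ (by omega)
    have h5 : (S.card : ℝ) ≤ ((Q.card : ℝ) + 4) * (((n : ℝ) + M) ^ 10 + 1) := by
      exact_mod_cast h3
    have h6 : (1 : ℝ) ≤ ((n : ℝ) + M) ^ 10 := by exact_mod_cast hD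
    refine h5.trans ?_
    have h7 : (0 : ℝ) ≤ (Q.card : ℝ) + 4 := by positivity
    calc ((Q.card : ℝ) + 4) * (((n : ℝ) + M) ^ 10 + 1) ≤
        ((Q.card : ℝ) + 4) * (2 * ((n : ℝ) + M) ^ 10) :=
          mul_le_mul_of_nonneg_left (by linarith) h7
      _ = _ := by ring
  · have hlogD : Real.log (((n + M) ^ 10 : ℕ) : ℝ) = 10 * Real.log ((n : ℝ) + M) := by
      push_cast
      rw [Real.log_pow]
      norm_num
    rw [hlogD] at h4
    have hck : ∀ j, ck (psub U 0 (rr M)) (gs U g 0 (rr M)) 1 j = ck U g (rr M) j := fun j =>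
      ck_scale U g M j
    simp only [hck] at h4
    have hlog1 := log_ge_one (M := M) hn
    have hlb := TRSTA.log_bound (n := n) (M := M) hn
    have hs4 := sqrt_ge hn
    have hM0 : (0 : ℝ) ≤ M := by positivity
    have hCp0 : 0 < Cp := by linarith
    have hNN : (0 : ℝ) ≤ (Q.card : ℝ) + 1 := by positivity
    have e1 : ((Q.card : ℝ) + 1) *
        (Cp * (Real.log ((n : ℝ) + M) + 10 * Real.log ((n : ℝ) + M) + 1)) ≤
        ((Q.card : ℝ) + 1) * (112 * Cp * Real.log ((n : ℝ) + M)) := by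
      apply mul_le_mul_of_nonneg_left _ hNN
      nlinarith
    have e2 : Cp * (Real.log (((n : ℝ) + 4) * 2 ^ M + (n + M)) + 1) + (√n + M + 1) ≤
        112 * Cp * (M + √n) := by
      have f1 : Cp * (Real.log (((n : ℝ) + 4) * 2 ^ M + (n + M)) + 1) ≤
          Cp * (2 + √n + M) := by
        apply mul_le_mul_of_nonneg_left _ hCp0.le
        linarith
      nlinarith [mul_nonneg hCp0.le hM0, mul_nonneg (sub_nonneg.2 hCp) hM0,
        mul_nonneg (sub_nonneg.2 hCp) (by linarith : (0 : ℝ) ≤ √n),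
        mul_le_mul_of_nonneg_left hs4 hCp0.le]
    refine le_trans ?_ ((h4.trans (add_le_add e1 e2)))
    exact le_of_eq (by congr)
  · intro h
    have : Q = ∅ := by
      rw [Finset.eq_empty_iff_forall_notMem]
      intro j hj
      exact h j (by have := (hQ j hj).1; omega) (hQ j hj).2.1
    rw [this]
    simp

theorem natLog_le {n : ℕ} (hn : 16 ≤ n) : (Nat.log 2 (n + 4) : ℝ) ≤ 3 * Real.log n := by
  have hnr : (16 : ℝ) ≤ n := by exact_mod_cast hn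
  have h1 : 2 ^ Nat.log 2 (n + 4) ≤ n + 4 := Nat.pow_log_le_self 2 (by omega)
  have h2 : (2 : ℝ) ^ Nat.log 2 (n + 4) ≤ (n : ℝ) ^ 2 := by
    have h3 : (2 : ℝ) ^ Nat.log 2 (n + 4) ≤ (n : ℝ) + 4 := by exact_mod_cast h1
    nlinarith
  have h4 := Real.log_le_log (by positivity) h2
  rw [Real.log_pow, Real.log_pow] at h4
  push_cast at h4
  have h5 : 0.6931471803 < Real.log 2 := Real.log_two_gt_d9
  have h6 : (0 : ℝ) ≤ (Nat.log 2 (n + 4) : ℝ) := by positivity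
  have h7 : (Nat.log 2 (n + 4) : ℝ) * 0.6931471803 ≤ (Nat.log 2 (n + 4) : ℝ) * Real.log 2 :=
    mul_le_mul_of_nonneg_left h5.le h6
  have h8 : 0 ≤ Real.log n := Real.log_nonneg (by linarith)
  linarith

theorem log_le_sqrt {x : ℝ} (hx : 0 < x) : Real.log x ≤ √x := by
  have h1 : 0 < √x := Real.sqrt_pos.2 hx
  have h2 : Real.log x = 2 * Real.log (√x) := by
    conv_lhs => rw [← Real.sq_sqrt hx.le]
    rw [Real.log_pow]
    norm_num
  have h3 : Real.log (√x) = Real.log (√x / 2) + Real.log 2 := by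
    rw [← Real.log_mul (by positivity) (by norm_num)]
    congr 1
    ring
  have h4 := Real.log_le_sub_one_of_pos (x := √x / 2) (by positivity)
  have h5 : Real.log 2 < 0.6931471808 := Real.log_two_lt_d9
  rw [h2, h3]
  linarith

theorem num2 {Cp : ℝ} (hCp : 1 ≤ Cp) {n M : ℕ} (hn : 16 ≤ n) :
    Cp * ((M + Nat.log 2 (n + 4) + 1 : ℕ) : ℝ) ^ 2 *
      (((M + Nat.log 2 (n + 4) + 1 : ℕ) : ℝ) + Real.log ((n * 4 ^ M : ℕ) : ℝ) + 1 +
        (√n + M + 1)) ≤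
      112 * Cp * (M + Real.log n) ^ 2 * (M + √n) := by
  have hnr : (16 : ℝ) ≤ n := by exact_mod_cast hn
  have hM0 : (0 : ℝ) ≤ M := by positivity
  have h1 := natLog_le hn
  have h2 : 1 ≤ Real.log (n : ℝ) := by
    have := log_ge_one (n := n) (M := 0) hn
    simpa using this
  have h3 := log_le_sqrt (x := (n : ℝ)) (by linarith)
  have h4 := sqrt_ge hn
  have hH : ((M + Nat.log 2 (n + 4) + 1 : ℕ) : ℝ) ≤ 4 * (M + Real.log n) := by
    push_cast
    linarith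
  have hH0 : (0 : ℝ) ≤ ((M + Nat.log 2 (n + 4) + 1 : ℕ) : ℝ) := Nat.cast_nonneg _
  have hT : Real.log ((n * 4 ^ M : ℕ) : ℝ) ≤ Real.log n + 2 * M := by
    push_cast
    rw [Real.log_mul (by positivity) (by positivity), Real.log_pow]
    have : Real.log 4 ≤ 2 := by
      have e : Real.log 4 = 2 * Real.log 2 := by
        rw [show (4 : ℝ) = 2 ^ 2 by norm_num, Real.log_pow]
        norm_num
      rw [e]
      have := Real.log_two_lt_d9
      linarith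
    nlinarith
  have hsq : ((M + Nat.log 2 (n + 4) + 1 : ℕ) : ℝ) ^ 2 ≤ 16 * (M + Real.log n) ^ 2 := by
    calc ((M + Nat.log 2 (n + 4) + 1 : ℕ) : ℝ) ^ 2 ≤ (4 * (M + Real.log n)) ^ 2 :=
          pow_le_pow_left₀ hH0 hH 2
      _ = _ := by ring
  have hlin : ((M + Nat.log 2 (n + 4) + 1 : ℕ) : ℝ) + Real.log ((n * 4 ^ M : ℕ) : ℝ) + 1 +
      (√n + M + 1) ≤ 7 * (M + √n) := by
    linarith
  have hl0 : 0 ≤ ((M + Nat.log 2 (n + 4) + 1 : ℕ) : ℝ) + Real.log ((n * 4 ^ M : ℕ) : ℝ) + 1 +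
      (√n + M + 1) := by
    have h5 : 0 ≤ Real.log ((n * 4 ^ M : ℕ) : ℝ) := Real.log_natCast_nonneg _
    linarith
  calc Cp * ((M + Nat.log 2 (n + 4) + 1 : ℕ) : ℝ) ^ 2 *
      (((M + Nat.log 2 (n + 4) + 1 : ℕ) : ℝ) + Real.log ((n * 4 ^ M : ℕ) : ℝ) + 1 +
        (√n + M + 1))
      ≤ Cp * (16 * (M + Real.log n) ^ 2) * (7 * (M + √n)) := by
        refine mul_le_mul ?_ hlin hl0 (by positivity)
        exact mul_le_mul_of_nonneg_left hsq (by linarith)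
    _ = _ := by ring

theorem num3 (n M : ℕ) : ((n : ℝ) + 4) * 2 ^ M ≤ 2 ^ (M + Nat.log 2 (n + 4) + 1) := by
  have h1 : n + 4 < 2 ^ (Nat.log 2 (n + 4) + 1) := Nat.lt_pow_succ_log_self (by norm_num) _
  have h2 : (n : ℝ) + 4 ≤ 2 ^ (Nat.log 2 (n + 4) + 1) := by exact_mod_cast h1.le
  calc ((n : ℝ) + 4) * 2 ^ M ≤ 2 ^ (Nat.log 2 (n + 4) + 1) * 2 ^ M :=
        mul_le_mul_of_nonneg_right h2 (by positivity)
    _ = _ := by rw [← pow_add]; congr 1; omega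

theorem part2' {S : ℝ} (hS : 1 ≤ S) : ∃ n₀ : ℕ, ∀ n ≥ n₀,
    ∑' k : ℕ, ENNReal.ofReal (2 * Real.exp (-(√n + lev n k + 1)) +
      ((4 ^ (n + 2 + lev n k) + 1 : ℕ) : ℝ) *
        (4 * Real.exp (-((n + lev n k : ℝ) ^ 2 / (16 * S))))) ≤
      ENNReal.ofReal (Real.exp (-(n : ℝ) ^ (1 / 4 : ℝ))) := by
  obtain ⟨n₁, h₁⟩ := TRSTA.part2 (S := 2 * S) (by linarith)
  obtain ⟨n₂, h₂⟩ := exists_nat_ge (32 * S)
  refine ⟨max n₁ n₂, fun n hn => ?_⟩
  refine le_trans (ENNReal.tsum_le_tsum fun k => ENNReal.ofReal_le_ofReal ?_)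
    (h₁ n ((le_max_left _ _).trans hn))
  have hnr : 32 * S ≤ (n : ℝ) := h₂.trans (by exact_mod_cast (le_max_right _ _).trans hn)
  have h2e : (2 : ℝ) ≤ Real.exp 1 := by
    have := Real.add_one_le_exp (1 : ℝ)
    linarith
  refine add_le_add ?_ ?_
  · have e : Real.exp (-(√(n : ℝ) + lev n k)) =
        Real.exp 1 * Real.exp (-(√n + lev n k + 1)) := by
      rw [← Real.exp_add]
      congr 1
      ring
    rw [e]
    exact mul_le_mul_of_nonneg_right h2e (Real.exp_pos _).le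
  · set N : ℝ := (n : ℝ) + lev n k with hN
    have hN1 : 32 * S ≤ N := by
      have : (0 : ℝ) ≤ lev n k := by positivity
      linarith
    set E : ℝ := N ^ 2 / (16 * (2 * S)) with hE
    have hE1 : 1 ≤ E := by
      rw [hE, le_div_iff₀ (by positivity)]
      nlinarith
    have e1 : N ^ 2 / (16 * S) = 2 * E := by
      rw [hE]
      field_simp
    have hexp : Real.exp (-E) ≤ 1 / 2 := by
      rw [Real.exp_neg, ← one_div]
      refine one_div_le_one_div_of_le (by norm_num) ?_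
      have := Real.add_one_le_exp E
      linarith
    have e2 : Real.exp (-(2 * E)) = Real.exp (-E) * Real.exp (-E) := by
      rw [← Real.exp_add]
      congr 1
      ring
    rw [e1, e2]
    push_cast
    have h4 : (1 : ℝ) ≤ 4 ^ (n + 2 + lev n k) := one_le_pow₀ (by norm_num)
    have h5 : ((4 : ℝ) ^ (n + 2 + lev n k) + 1) * Real.exp (-E) ≤ 4 ^ (n + 2 + lev n k) := by
      calc ((4 : ℝ) ^ (n + 2 + lev n k) + 1) * Real.exp (-E)
          ≤ ((4 : ℝ) ^ (n + 2 + lev n k) + 1) * (1 / 2) :=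
            mul_le_mul_of_nonneg_left hexp (by positivity)
        _ ≤ _ := by linarith
    calc ((4 : ℝ) ^ (n + 2 + lev n k) + 1) * (4 * (Real.exp (-E) * Real.exp (-E)))
        = (((4 : ℝ) ^ (n + 2 + lev n k) + 1) * Real.exp (-E)) * (4 * Real.exp (-E)) := by ring
      _ ≤ _ := mul_le_mul_of_nonneg_right h5 (by positivity)

theorem flr {t : ℝ} {M l : ℕ} (ht : 0 ≤ t) :
    (⌊t * 4 ^ M⌋₊ : ℝ) * rr M ^ 2 ≤ t ∧ ⌊t * 4 ^ M⌋₊ * 4 ^ l ≤ ⌊t * 4 ^ (M + l)⌋₊ := by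
  have h1 : (⌊t * 4 ^ M⌋₊ : ℝ) ≤ t * 4 ^ M := Nat.floor_le (by positivity)
  constructor
  · rw [TRSTA.rr_sq, mul_one_div, div_le_iff₀ (by positivity)]
    exact h1
  · refine Nat.le_floor ?_
    push_cast
    rw [pow_add, ← mul_assoc]
    exact mul_le_mul_of_nonneg_right h1 (by positivity)

end TCFCLb

/-- TC-FCL2. All the levels at once. First statement: solutions on `[0,t]`, `t ≤ 4^(n+2)`, which
are fresh at `t` and start and end at distance at most `n + 4`. Second statement: solutions on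
`[0,n]` at distance at most `n + 4`, no freshness; `τ 4^(-m)` is the beginning of the tail.

Proof. As `stars` of TR (read `TRSTA.main` and the proof of `stars`): `m_k = lev n k`, `r = rr m_k`,
`N_k = n + m_k`, `l = ll N_k`, process `subP W 0 r`. `C_p, c₁, κ` from `pattern_c`,
`C = C' C_p` large. `bad_ev` with this `l`: `μ (Bd j) ≤ exp (-(κ * (4 C log N_k)))` (`TRSTA.part1`
with `κ C` in place of `C`). `pattern_c` with `m = N_k`, `m₀ = (n + 4) 2^m_k + N_k`,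
`β = 4 C log N_k`, `v = √n + m_k + 1`, `D = N_k ^ 10` (`D + 1 ≤ 2 D`),
`H = m_k + Nat.log 2 (n + 4) + 1` (so that
`2 ^ H ≥ (n + 4) 2^m_k`), `T₀ = n 4^m_k`; `osc_ev` with `N = 4^(n+2+m_k) + 1` cells (for
`n ≥ n₀`, `n 4^m_k + 1 ≤ N`; the term `4^(n+2+m) * 4 exp (..)` of `sta_num` becomes
`(4^(n+2+m) + 1) * ..`; use `osc_ev` for `4^(n+3+m)` and a variant of `TRSTA.part2`, or
`4^(n+2+m) + 1 ≤ 2 * 4^(n+2+m)` with `S` replaced by `2 S`). `2 exp (-v) ≤ exp (-(√n + m_k))`.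
*First statement.* `Sol.shift` (time `0`, scale `r`) on `[0, t / r²] = [0, t 4^m_k]`;
`fresh_scale`; `⌊t / r²⌋₊ = ⌊t * 4^m⌋₊`. If there is no rider, `pattern_c` gives `Q, S`; `low`,
`tr`, `ck`, `rider` at the scale `1` of the scaled solution are those at the scale `rr m_k` of the
solution (`low_shift` with `s₀ = 0`, `XX_scale`, `ck_scale`). `Uk = #Q`, `Bk = #(Q.filter Bd)`.
Growth: `grow_c` with `T' = ⌊t * 4^lev n (k+1)⌋₊ ≥ 4^l ⌊t * 4^m⌋₊` (`hgood` as in `TRSTA.main`).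
If there is a rider, take nothing: `Uk = Bk = 0`, `S = ∅`, `grow_c` with `Q = ∅`.
(The existential is over `Uk, Bk, S`; `LevP` is only claimed without riders.)
*Second statement.* The same with the second part of `pattern_c`; the bound of `tk` by
`tk_scale` and `H ≤ C (m_k + log n)`, `log T₀ + 1 + v ≤ C (m_k + √n)`. -/
theorem stars_c [IsProbabilityMeasure μ] {a b c K ε d : ℝ} (ha : 0 ≤ a) (hb : 0 ≤ b) (hd : 0 ≤ d)
    (hS : StrC μ a b c K ε d) (hT : TailP μ a b c K ε d) :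
    ∃ C c₁ : ℝ, 1 ≤ C ∧ 0 < c₁ ∧ ∃ n₀ : ℕ, ∀ n ≥ n₀, ∀ W : ℝ → Ω → ℂ, Gau a b c K W μ →
      ∃ A, MeasurableSet A ∧ μ A ≤ ENNReal.ofReal (Real.exp (-(n : ℝ) ^ (1 / 4 : ℝ))) ∧
        ∀ ω ∉ A,
        (∀ (t : ℝ) (z : ℂ) (g : ℝ → ℂ), 0 ≤ t → t ≤ 4 ^ (n + 2) → ‖z‖ ≤ n + 4 →
          Sol (fun t => W t ω) z t g → ‖g t - W t ω‖ ≤ n + 4 → fresh (fun t => W t ω) g ε d t →
          ∀ k : ℕ,
            XX (fun t => W t ω) g (rr (lev n k)) ⌊t * 4 ^ lev n k⌋₊ ≤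
              XX (fun t => W t ω) g (rr (lev n (k + 1))) ⌊t * 4 ^ lev n (k + 1)⌋₊ ∧
            ((∀ s, s + (n + lev n k) ^ 10 ≤ ⌊t * 4 ^ lev n k⌋₊ →
                ¬ rider (fun t => W t ω) g (rr (lev n k)) s ((n + lev n k) ^ 10)) →
              ∃ (Uk Bk : ℝ) (S : Finset ℕ), LevP (fun t => W t ω) g C c₁
                (XX (fun t => W t ω) g (rr (lev n k)) ⌊t * 4 ^ lev n k⌋₊)
                (XX (fun t => W t ω) g (rr (lev n (k + 1))) ⌊t * 4 ^ lev n (k + 1)⌋₊)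
                n (lev n k) ⌊t * 4 ^ lev n k⌋₊ Uk Bk S ∧
                ((∀ j < ⌊t * 4 ^ lev n k⌋₊, ¬ low (fun t => W t ω) g (rr (lev n k)) j) →
                  Uk = 0))) ∧
        ∀ (z : ℂ) (g : ℝ → ℂ), Sol (fun t => W t ω) z n g →
          (∀ u ∈ Set.Icc (0 : ℝ) n, ‖g u - W u ω‖ ≤ n + 4) → ∀ k : ℕ,
            XX (fun t => W t ω) g (rr (lev n k)) (n * 4 ^ lev n k) ≤
              XX (fun t => W t ω) g (rr (lev n (k + 1))) (n * 4 ^ lev n (k + 1)) ∧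
            ((∀ s, s + (n + lev n k) ^ 10 ≤ n * 4 ^ lev n k →
                ¬ rider (fun t => W t ω) g (rr (lev n k)) s ((n + lev n k) ^ 10)) →
              ∃ (Uk Bk : ℝ) (S : Finset ℕ) (τ : ℕ), τ ≤ n * 4 ^ lev n k ∧
                LevP (fun t => W t ω) g C c₁
                (XX (fun t => W t ω) g (rr (lev n k)) (n * 4 ^ lev n k))
                (XX (fun t => W t ω) g (rr (lev n (k + 1))) (n * 4 ^ lev n (k + 1)))
                n (lev n k) τ Uk Bk S ∧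
                tk (fun t => W t ω) g (rr (lev n k)) (τ * rr (lev n k) ^ 2) n ≤
                  C * (lev n k + Real.log n) ^ 2 * (lev n k + √n) ∧
                ((∀ j < n * 4 ^ lev n k, ¬ low (fun t => W t ω) g (rr (lev n k)) j) →
                  Uk = 0)) := by
  classical
  obtain ⟨Cp, c₁, κ, hCp, hc₁, hκ, hpat⟩ := pattern_c (μ := μ) hd hS hT
  have hC1 : (1 : ℝ) ≤ 112 * Cp := by linarith
  have hS1 : (1 : ℝ) ≤ a + b + 1 := by linarith
  have hκC : (1 : ℝ) ≤ κ * (112 * Cp) := one_le_mul_of_one_le_of_one_le hκ hC1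
  obtain ⟨n₁, hn₁⟩ := TRSTA.part1 hκC hS1
  obtain ⟨n₂, hn₂⟩ := TCFCLb.part2' hS1
  refine ⟨112 * Cp, c₁, hC1, hc₁, max (max n₁ n₂) 16, fun n hn W hW => ?_⟩
  have hnn₁ : n₁ ≤ n := ((le_max_left _ _).trans (le_max_left _ _)).trans hn
  have hnn₂ : n₂ ≤ n := ((le_max_right _ _).trans (le_max_left _ _)).trans hn
  have hn16 : 16 ≤ n := (le_max_right _ _).trans hn
  have hn16r : (16 : ℝ) ≤ n := by exact_mod_cast hn16
  have hGk : ∀ k : ℕ, Gau a b c K (subP W 0 (rr (lev n k))) μ := fun k =>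
    hW.subP le_rfl (TRSTA.rr_pos _)
  choose Bd hBdm hBdμ hBd using fun k j : ℕ => bad_ev (hGk k) (ll (n + lev n k)) j
  have hBdμ' : ∀ k j, μ (Bd k j) ≤ ENNReal.ofReal (Real.exp
      (-(κ * (4 * (112 * Cp) * Real.log ((n : ℝ) + lev n k))))) := fun k j => by
    refine (hBdμ k j).trans (ENNReal.ofReal_le_ofReal ?_)
    refine (hn₁ (n + lev n k) (by omega)).trans (le_of_eq ?_)
    push_cast
    congr 1
    ring
  have hm : ∀ k, (1 : ℝ) ≤ (n : ℝ) + lev n k := fun k => by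
    have : (0 : ℝ) ≤ lev n k := by positivity
    linarith
  have hm₀ : ∀ k, (n : ℝ) + lev n k ≤ (n + 4) * 2 ^ lev n k + (n + lev n k) := fun k => by
    have : (0 : ℝ) ≤ (n + 4) * 2 ^ lev n k := by positivity
    linarith
  have hD : ∀ k, 1 ≤ (n + lev n k) ^ 10 := fun k => Nat.one_le_pow _ _ (by omega)
  have hβ : ∀ k, 0 ≤ 4 * (112 * Cp) * Real.log ((n : ℝ) + lev n k) := fun k =>
    mul_nonneg (by linarith) (Real.log_nonneg (hm k))
  have hv : ∀ k, 0 ≤ √(n : ℝ) + lev n k + 1 := fun k => by positivity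
  have hH : ∀ k, 1 ≤ lev n k + Nat.log 2 (n + 4) + 1 := fun k => by omega
  have hT₀ : ∀ k, 1 ≤ n * 4 ^ lev n k := fun k => Nat.mul_pos (by omega) (by positivity)
  choose A hAm hAμ hA using fun k : ℕ => hpat (subP W 0 (rr (lev n k))) (hGk k)
    ((n : ℝ) + lev n k) ((n + 4) * 2 ^ lev n k + (n + lev n k))
    (4 * (112 * Cp) * Real.log ((n : ℝ) + lev n k)) (√n + lev n k + 1) ((n + lev n k) ^ 10)
    (lev n k + Nat.log 2 (n + 4) + 1) (n * 4 ^ lev n k)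
    (Bd k) (hm k) (hm₀ k) (hv k) (hD k) (hβ k) (hH k) (hT₀ k) (hBdm k) (hBdμ' k)
  choose A' hAm' hAμ' hA' using fun k : ℕ => osc_ev (hGk k) (4 ^ (n + 2 + lev n k) + 1)
    (x := (n : ℝ) + lev n k) (by linarith [hm k])
  refine ⟨⋃ k, (A k ∪ A' k), MeasurableSet.iUnion fun k => (hAm k).union (hAm' k), ?_, ?_⟩
  · refine (measure_iUnion_le _).trans (le_trans (ENNReal.tsum_le_tsum fun k => ?_)
      (hn₂ n hnn₂))
    refine (measure_union_le _ _).trans ?_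
    rw [ENNReal.ofReal_add (by positivity) (by positivity)]
    exact add_le_add (hAμ k) (hAμ' k)
  intro ω hω
  simp only [Set.mem_iUnion, Set.mem_union, not_exists, not_or] at hω
  have hUc : Continuous fun t => W t ω := hW.cont ω
  have hU0 : (fun t => W t ω) 0 = 0 := hW.zero 0 le_rfl ω
  refine ⟨?_, ?_⟩
  · intro t z g ht0 ht hz hg hgt hfr k
    obtain ⟨hωA, hωA'⟩ := hω k
    have hr : 0 < rr (lev n k) := TRSTA.rr_pos _
    obtain ⟨hfl1, hfl2⟩ := TCFCLb.flr (M := lev n k) (l := ll (n + lev n k)) ht0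
    refine ⟨TCFCLb.grow0 hUc hg hfl1 hfl2, fun hnr => ?_⟩
    have hsc : t / rr (lev n k) ^ 2 = t * 4 ^ lev n k := by
      rw [TRSTA.rr_sq, div_div_eq_mul_div, div_one]
    have hsol : Sol (psub (fun t => W t ω) 0 (rr (lev n k)))
        ((rr (lev n k))⁻¹ • (g 0 - (fun t => W t ω) 0)) (t * 4 ^ lev n k)
        (gs (fun t => W t ω) g 0 (rr (lev n k))) := by
      have h := hg.shift (s := 0) (r := rr (lev n k)) le_rfl ht0 hr
      rw [sub_zero, hsc] at h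
      exact h
    have ht4 : 0 ≤ t * 4 ^ lev n k := by positivity
    have hz' : ‖(rr (lev n k))⁻¹ • (g 0 - (fun t => W t ω) 0)‖ ≤
        (n + 4) * 2 ^ lev n k + (n + lev n k) := by
      rw [hg.1, hU0, sub_zero, norm_smul, Real.norm_of_nonneg (by positivity), TRSTA.rr_inv]
      have : (2 : ℝ) ^ lev n k * ‖z‖ ≤ 2 ^ lev n k * (n + 4) := by gcongr
      linarith [hm k]
    have hgt' : ‖gs (fun t => W t ω) g 0 (rr (lev n k)) (t * 4 ^ lev n k) -
        psub (fun t => W t ω) 0 (rr (lev n k)) (t * 4 ^ lev n k)‖ ≤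
        (n + 4) * 2 ^ lev n k + (n + lev n k) := by
      have e : rr (lev n k) ^ 2 * (t * 4 ^ lev n k) = t := by
        rw [TRSTA.rr_sq]
        field_simp
      rw [TRSCL.norm_eq _ g 0 hr ht4, TRSTA.rr_inv, zero_add, e]
      have : (2 : ℝ) ^ lev n k * ‖g t - W t ω‖ ≤ 2 ^ lev n k * (n + 4) := by gcongr
      linarith [hm k]
    have hflt : ⌊t * 4 ^ lev n k⌋₊ ≤ 4 ^ (n + 2 + lev n k) := by
      refine Nat.floor_le_of_le ?_
      push_cast
      rw [pow_add _ (n + 2)]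
      exact mul_le_mul_of_nonneg_right ht (by positivity)
    have hosc : Osc (psub (fun t => W t ω) 0 (rr (lev n k))) 1 (n + lev n k)
        (⌊t * 4 ^ lev n k⌋₊ + 1) := fun j hj =>
      hA' k ω hωA' j (lt_of_lt_of_le hj (Nat.succ_le_succ hflt))
    have hrid : ∀ s, s + (n + lev n k) ^ 10 ≤ ⌊t * 4 ^ lev n k⌋₊ →
        ¬ rider (psub (fun t => W t ω) 0 (rr (lev n k)))
          (gs (fun t => W t ω) g 0 (rr (lev n k))) 1 s ((n + lev n k) ^ 10) := by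
      intro s hs
      rw [(XX_scale (fun t => W t ω) g (lev n k) 0).2.2.2]
      exact hnr s hs
    have hfr' : fresh (psub (fun t => W t ω) 0 (rr (lev n k)))
        (gs (fun t => W t ω) g 0 (rr (lev n k))) ε d (t * 4 ^ lev n k) := by
      have h := fresh_scale hr hg ht0 le_rfl hfr
      rw [hsc] at h
      exact h
    obtain ⟨Q, S, hP⟩ := (hA k ω hωA).1 _ _ _ ht4 hz' hsol hgt' hosc hrid hfr'
    obtain ⟨h1, h2⟩ := TCFCLb.core hCp hn16 hUc hU0 (fun j => ω ∈ Bd k j)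
      (fun j hj => hBd k j ω hj) hg hfl1 hfl2 le_rfl hP
    exact ⟨_, _, S, h1, h2⟩
  · intro z g hg hgn k
    obtain ⟨hωA, hωA'⟩ := hω k
    have hr : 0 < rr (lev n k) := TRSTA.rr_pos _
    have hT1 : ((n * 4 ^ lev n k : ℕ) : ℝ) * rr (lev n k) ^ 2 ≤ n :=
      (TRSTA.cast_sq n (lev n k)).le
    have hT2 : n * 4 ^ lev n k * 4 ^ ll (n + lev n k) ≤ n * 4 ^ (lev n (k + 1)) := by
      have e : lev n (k + 1) = lev n k + ll (n + lev n k) := rfl
      rw [e, pow_add, mul_assoc]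
    refine ⟨TCFCLb.grow0 hUc hg hT1 hT2, fun hnr => ?_⟩
    have hsc : ((n : ℝ) - 0) / rr (lev n k) ^ 2 = ((n * 4 ^ lev n k : ℕ) : ℝ) := by
      rw [sub_zero, div_eq_iff (by positivity), TRSTA.cast_sq]
    have hsol : Sol (psub (fun t => W t ω) 0 (rr (lev n k)))
        ((rr (lev n k))⁻¹ • (g 0 - (fun t => W t ω) 0)) ((n * 4 ^ lev n k : ℕ) : ℝ)
        (gs (fun t => W t ω) g 0 (rr (lev n k))) := by
      have h := hg.shift (s := 0) (r := rr (lev n k)) le_rfl (Nat.cast_nonneg n) hr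
      rw [hsc] at h
      exact h
    have hz0 : ‖g 0 - W 0 ω‖ ≤ n + 4 := hgn 0 ⟨le_rfl, Nat.cast_nonneg n⟩
    have hz' : ‖(rr (lev n k))⁻¹ • (g 0 - (fun t => W t ω) 0)‖ ≤
        (n + 4) * 2 ^ lev n k + (n + lev n k) := by
      rw [norm_smul, Real.norm_of_nonneg (by positivity), TRSTA.rr_inv]
      have : (2 : ℝ) ^ lev n k * ‖g 0 - W 0 ω‖ ≤ 2 ^ lev n k * (n + 4) := by gcongr
      linarith [hm k]
    have hgH : ∀ u ∈ Set.Icc (0 : ℝ) ((n * 4 ^ lev n k : ℕ) : ℝ),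
        ‖gs (fun t => W t ω) g 0 (rr (lev n k)) u -
          psub (fun t => W t ω) 0 (rr (lev n k)) u‖ ≤
          2 ^ (lev n k + Nat.log 2 (n + 4) + 1) := by
      intro u hu
      have hu2 : rr (lev n k) ^ 2 * u ≤ n := by
        have h := mul_le_mul_of_nonneg_left hu.2 (sq_nonneg (rr (lev n k)))
        rw [mul_comm (rr (lev n k) ^ 2) ((n * 4 ^ lev n k : ℕ) : ℝ), TRSTA.cast_sq] at h
        exact h
      rw [TRSCL.norm_eq _ g 0 hr hu.1, TRSTA.rr_inv, zero_add]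
      have h1 := hgn (rr (lev n k) ^ 2 * u) ⟨mul_nonneg (sq_nonneg _) hu.1, hu2⟩
      refine le_trans ?_ (TCFCLb.num3 n (lev n k))
      have : (2 : ℝ) ^ lev n k * ‖g (rr (lev n k) ^ 2 * u) - W (rr (lev n k) ^ 2 * u) ω‖ ≤
          2 ^ lev n k * (n + 4) := by gcongr
      linarith
    have hn4 : n ≤ 4 ^ (n + 2) :=
      (Nat.lt_pow_self (by norm_num : 1 < 4)).le.trans
        (Nat.pow_le_pow_right (by norm_num) (by omega))
    have hosc : Osc (psub (fun t => W t ω) 0 (rr (lev n k))) 1 (n + lev n k)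
        (n * 4 ^ lev n k) := fun j hj => by
      refine hA' k ω hωA' j (lt_of_lt_of_le hj ?_)
      refine le_trans ?_ (Nat.le_succ _)
      rw [pow_add _ (n + 2)]
      exact Nat.mul_le_mul_right _ hn4
    have hrid : ∀ s, s + (n + lev n k) ^ 10 ≤ n * 4 ^ lev n k →
        ¬ rider (psub (fun t => W t ω) 0 (rr (lev n k)))
          (gs (fun t => W t ω) g 0 (rr (lev n k))) 1 s ((n + lev n k) ^ 10) := by
      intro s hs
      rw [(XX_scale (fun t => W t ω) g (lev n k) 0).2.2.2]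
      exact hnr s hs
    obtain ⟨Q, S, τ, hτ, hP, htk⟩ := (hA k ω hωA).2 (n * 4 ^ lev n k) _ _ le_rfl hz' hsol
      hgH hosc hrid
    obtain ⟨h1, h2⟩ := TCFCLb.core hCp hn16 hUc hU0 (fun j => ω ∈ Bd k j)
      (fun j hj => hBd k j ω hj) hg hT1 hT2 hτ hP
    refine ⟨_, _, S, τ, hτ, h1, ?_, h2⟩
    have h3 := tk_scale (fun t => W t ω) g hr (s := (τ : ℝ))
      (t := ((n * 4 ^ lev n k : ℕ) : ℝ)) (Nat.cast_nonneg τ) (by exact_mod_cast hτ)
    rw [TRSTA.cast_sq] at h3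
    rw [← h3]
    exact le_trans htk (TCFCLb.num2 hCp hn16)

end

end Pool.Agent.SLE
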