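import Pool.Agent.Lib.MP_c17912_pr_TC.FCA
import Pool.Agent.Lib.MP_c17912_pr.Gau

/-!
# MP_c17912_pr, project TC: the event of the tails
-/

set_option autoImplicit false

open MeasureTheory ProbabilityTheory Filter
open scoped NNReal ENNReal Topology Real

namespace Pool.Agent.SLE

noncomputable section

variable {Ω : Type*} [MeasurableSpace Ω] {μ : Measure Ω}

namespace TCFCSb

theorem pt_eq (x : ℝ) (hx : 0 ≤ x) : 1 / (x * max x 1) = min 1 x / x ^ 2 := by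
  rcases eq_or_lt_of_le hx with h0 | h0
  · subst h0
    simp
  · rcases le_total x 1 with h1 | h1
    · rw [max_eq_right h1, min_eq_right h1, mul_one]
      field_simp
    · rw [max_eq_left h1, min_eq_left h1, sq]

theorem cell {T τ : ℕ} {w : ℝ} (hτ : τ < T) (h1 : (τ : ℝ) ≤ w) (h2 : w ≤ T) :
    ∃ j, τ ≤ j ∧ j < T ∧ (j : ℝ) ≤ w ∧ w ≤ j + 1 := by
  rcases eq_or_lt_of_le h2 with h | h
  · refine ⟨T - 1, by omega, by omega, ?_, ?_⟩
    · rw [h]
      exact_mod_cast Nat.sub_le T 1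
    · rw [h]
      have : T ≤ T - 1 + 1 := by omega
      exact_mod_cast this
  · have h0 : 0 ≤ w := (Nat.cast_nonneg τ).trans h1
    exact ⟨⌊w⌋₊, Nat.le_floor h1, (Nat.floor_lt h0).2 h, Nat.floor_le h0,
      (Nat.lt_floor_add_one w).le⟩

theorem cutfree_shift {U : ℝ → ℂ} (hU : Continuous U) {z : ℂ} {T : ℕ} {ε d : ℝ} {g : ℝ → ℂ}
    (hg : Sol U z T g) {τ : ℕ} (hτ : τ < T)
    (hb : ∀ j, τ ≤ j → j < T → ¬ brk U g ε d 1 τ j) :
    CutFree (psub U τ 1) (fun v => (1 : ℝ)⁻¹ • (g (τ + 1 ^ 2 * v) - U τ)) ε d 0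
      ((T : ℝ) - τ) := by
  intro u hu h1
  have hZ := TRPAT.shift_eq U g τ hu.1
  have h1' : ‖g (τ + u) - U (τ + u)‖ ≤ 1 := by
    rw [← hZ]
    exact h1
  obtain ⟨j, hj1, hj2, hj3, hj4⟩ := cell (w := (τ : ℝ) + u) hτ (by linarith [hu.1])
    (by linarith [hu.2])
  have h2 : ∃ v ∈ Set.Icc (τ : ℝ) (τ + u), ph U g ε (τ + u) + d < ph U g ε v := by
    by_contra hcon
    push Not at hcon
    refine hb j hj1 hj2 ⟨τ + u, ⟨?_, ?_⟩, h1', fun v hv => ?_⟩
    · rw [one_pow, mul_one]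
      exact hj3
    · rw [one_pow, mul_one]
      exact hj4
    · rw [one_pow, mul_one] at hv
      exact hcon v hv
  obtain ⟨v, hv, h3⟩ := h2
  refine ⟨v - τ, ⟨by linarith [hv.1], by linarith [hv.2]⟩, ?_⟩
  have hτ0 : (0 : ℝ) ≤ τ := Nat.cast_nonneg τ
  rw [ph_shift hU hg hτ0 hu.1 (by linarith [hu.2]),
    ph_shift hU hg hτ0 (by linarith [hv.1]) (by linarith [hv.2, hu.2]),
    add_sub_cancel (τ : ℝ) v]
  linarith

/-- The arithmetic of the constants. -/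
theorem arith {C c₁ t h₀ v L : ℝ} {p H H' : ℕ} (hC : 1 ≤ C) (hc₁ : 0 < c₁) (hh : 1 ≤ h₀)
    (hH : 1 ≤ H) (hH' : 1 ≤ H') (hle : (H' : ℝ) ≤ h₀ * H) (hv : 0 ≤ v) (hL : 0 ≤ L)
    (h : c₁ / (H' : ℝ) ^ 2 * t ≤
      Real.log C + p * (2 * H' * Real.log 2) + 2 * L + v) :
    t ≤ max 1 (h₀ ^ 2 / c₁ * (Real.log C + 2 * p * h₀ + 2)) * (H : ℝ) ^ 2 *
      (H + L + 1 + v) := by
  have hH1 : (1 : ℝ) ≤ H := by exact_mod_cast hH
  have hH1' : (1 : ℝ) ≤ H' := by exact_mod_cast hH'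
  have hlC : 0 ≤ Real.log C := Real.log_nonneg hC
  have hl2 : Real.log 2 ≤ 1 := by
    have := Real.log_two_lt_d9
    linarith
  have hp : (0 : ℝ) ≤ p := Nat.cast_nonneg p
  have hH2 : (0 : ℝ) < (H' : ℝ) ^ 2 := by positivity
  set B := Real.log C + 2 * p * h₀ + 2 with hB
  set S := (H : ℝ) + L + 1 + v with hS
  have hB0 : 0 ≤ B := by positivity
  have hS0 : 0 ≤ S := by positivity
  have h1 : Real.log C + p * (2 * H' * Real.log 2) + 2 * L + v ≤ B * S := by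
    have e1 : (p : ℝ) * (2 * H' * Real.log 2) ≤ 2 * p * h₀ * H := by
      have : (2 * H' * Real.log 2 : ℝ) ≤ 2 * (h₀ * H) := by
        have h3 : (H' : ℝ) * Real.log 2 ≤ h₀ * H := by
          calc (H' : ℝ) * Real.log 2 ≤ H' * 1 := by gcongr
            _ = H' := mul_one _
            _ ≤ h₀ * H := hle
        linarith
      calc (p : ℝ) * (2 * H' * Real.log 2) ≤ p * (2 * (h₀ * H)) := by gcongr
        _ = 2 * p * h₀ * H := by ring
    have e2 : Real.log C * 1 ≤ Real.log C * S := by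
      gcongr
      rw [hS]
      linarith
    have e3 : 2 * p * h₀ * H ≤ 2 * p * h₀ * S := by
      gcongr
      rw [hS]
      linarith
    have e4 : B * S = Real.log C * S + 2 * p * h₀ * S + 2 * S := by
      rw [hB]
      ring
    have e5 : 2 * L + v ≤ 2 * S := by
      rw [hS]
      linarith
    linarith
  have h2 : t ≤ (H' : ℝ) ^ 2 / c₁ * (B * S) := by
    have h3 : c₁ / (H' : ℝ) ^ 2 * t ≤ B * S := h.trans h1
    calc t = (H' : ℝ) ^ 2 / c₁ * (c₁ / (H' : ℝ) ^ 2 * t) := by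
          field_simp
      _ ≤ (H' : ℝ) ^ 2 / c₁ * (B * S) := by gcongr
  have h4 : (H' : ℝ) ^ 2 ≤ (h₀ * H) ^ 2 := by gcongr
  calc t ≤ (H' : ℝ) ^ 2 / c₁ * (B * S) := h2
    _ ≤ (h₀ * H) ^ 2 / c₁ * (B * S) := by gcongr
    _ = h₀ ^ 2 / c₁ * B * (H : ℝ) ^ 2 * S := by ring
    _ ≤ max 1 (h₀ ^ 2 / c₁ * B) * (H : ℝ) ^ 2 * S := by
      gcongr
      exact le_max_right _ _

theorem exp_form {C v : ℝ} {p H' T₀ : ℕ} (hC : 1 ≤ C) (hT : 1 ≤ T₀) :
    C * ((2 : ℝ) ^ H' * 2 ^ H') ^ p * ((T₀ : ℝ) ^ 2 * Real.exp v) =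
      Real.exp (Real.log C + p * (2 * H' * Real.log 2) + 2 * Real.log T₀ + v) := by
  have hT' : (0 : ℝ) < T₀ := by exact_mod_cast hT
  rw [Real.exp_add, Real.exp_add, Real.exp_add, Real.exp_log (by linarith)]
  have e1 : Real.exp ((p : ℝ) * (2 * H' * Real.log 2)) = ((2 : ℝ) ^ H' * 2 ^ H') ^ p := by
    rw [Real.exp_nat_mul]
    congr 1
    rw [← pow_add, show (2 * (H' : ℝ) * Real.log 2) = ((H' + H' : ℕ) : ℝ) * Real.log 2 by
      push_cast; ring, Real.exp_nat_mul, Real.exp_log two_pos]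
  have e2 : Real.exp (2 * Real.log T₀) = (T₀ : ℝ) ^ 2 := by
    rw [show (2 : ℝ) * Real.log T₀ = ((2 : ℕ) : ℝ) * Real.log T₀ by norm_num,
      Real.exp_nat_mul, Real.exp_log hT']
  rw [e1, e2]
  ring

end TCFCSb

open TCFCSb

/-- The clock of `TailP` is `tk` at the scale `1`. (`1 / (x max(x,1)) = min(1,x) / x²`.) -/
theorem tk_eq (U g : ℝ → ℂ) (s t : ℝ) :
    tk U g 1 s t = ∫ u in s..t, min 1 ‖g u - U u‖ / ‖g u - U u‖ ^ 2 := by
  unfold tk
  congr 1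
  funext u
  exact pt_eq _ (norm_nonneg _)

/-- TC-FCT. The tails: outside an event of probability `exp (-v)` the clock `tk` of every piece
`[τ, T]` without breaks, `τ < T ≤ T₀`, at height at most `2 ^ H`, is at most
`C H² (H + log T₀ + 1 + v)`.

Proof. Let `H' = max H H₀`. For `τ < T ≤ T₀` let `Y_{τ,T}` be the functional of `TailP` for
`subP W τ 1` (`Gau.subP`), `H'`, `s = 2 ^ H'` and the time `T - τ`; `A` = the union of the events
`T₀² exp v ≤ Y_{τ,T}` (at most `T₀²` pairs, Markov: each has probability at most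
`exp (-v) / T₀²`). For a solution: shift by `τ` (`Sol.shift`, `r = 1`); `CutFree` on
`[0, T - τ]`: a time `v ∈ [τ,T]` is in a cell `j ∈ [τ,T)`, `¬ brk U g ε d 1 τ j`, and `ph_shift`;
`tk_shift`, `tk_eq`. Take logarithms:
`c₁ / H'² * tk ≤ log C + p (2 H') log 2 + 2 log T₀ + v`. -/
theorem tail_ev [IsProbabilityMeasure μ] {a b c K ε d : ℝ} (hT : TailP μ a b c K ε d) :
    ∃ C : ℝ, 1 ≤ C ∧ ∀ W : ℝ → Ω → ℂ, Gau a b c K W μ → ∀ (H T₀ : ℕ) (v : ℝ), 1 ≤ H → 1 ≤ T₀ →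
      0 ≤ v → ∃ A, MeasurableSet A ∧ μ A ≤ ENNReal.ofReal (Real.exp (-v)) ∧
        ∀ ω ∉ A, ∀ (T τ : ℕ) (z : ℂ) (g : ℝ → ℂ), τ < T → T ≤ T₀ →
          Sol (fun t => W t ω) z T g → ¬ low (fun t => W t ω) g 1 τ →
          (∀ u ∈ Set.Icc (τ : ℝ) T, ‖g u - W u ω‖ ≤ 2 ^ H) →
          (∀ j, τ ≤ j → j < T → ¬ brk (fun t => W t ω) g ε d 1 τ j) →
          tk (fun t => W t ω) g 1 τ T ≤ C * (H : ℝ) ^ 2 * (H + Real.log T₀ + 1 + v) := by
  obtain ⟨C, c₁, p, H₀, hC, hc₁, h⟩ := hT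
  refine ⟨max 1 (max 1 (H₀ : ℝ) ^ 2 / c₁ * (Real.log C + 2 * p * max 1 (H₀ : ℝ) + 2)),
    le_max_left _ _, ?_⟩
  intro W hW H T₀ v hH hT₀ hv
  choose Y hYm hYi hY using fun (q : ℕ × ℕ) =>
    h (subP W q.1 1) (hW.subP (Nat.cast_nonneg q.1) one_pos) (max H H₀) (le_max_right _ _)
      (2 ^ (max H H₀)) (one_le_pow₀ one_le_two) (q.2 + 1 - q.1)
  have hT' : (0 : ℝ) < T₀ := by exact_mod_cast hT₀
  have hlam : (0 : ℝ) < (T₀ : ℝ) ^ 2 * Real.exp v := by positivity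
  refine ⟨⋃ q ∈ Finset.range T₀ ×ˢ Finset.range T₀,
    {ω | ENNReal.ofReal ((T₀ : ℝ) ^ 2 * Real.exp v) ≤ Y q ω}, ?_, ?_, ?_⟩
  · exact Finset.measurableSet_biUnion _ fun q _ => measurableSet_le measurable_const (hYm q)
  · calc μ (⋃ q ∈ Finset.range T₀ ×ˢ Finset.range T₀,
          {ω | ENNReal.ofReal ((T₀ : ℝ) ^ 2 * Real.exp v) ≤ Y q ω})
        ≤ ∑ q ∈ Finset.range T₀ ×ˢ Finset.range T₀,
          μ {ω | ENNReal.ofReal ((T₀ : ℝ) ^ 2 * Real.exp v) ≤ Y q ω} :=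
          measure_biUnion_finset_le _ _
      _ ≤ ∑ _q ∈ Finset.range T₀ ×ˢ Finset.range T₀,
          ENNReal.ofReal (Real.exp (-v) / (T₀ : ℝ) ^ 2) := by
          refine Finset.sum_le_sum fun q _ => ?_
          refine (meas_ge_le_lintegral_div (hYm q).aemeasurable
            (ENNReal.ofReal_pos.2 hlam).ne' ENNReal.ofReal_ne_top).trans ?_
          calc (∫⁻ ω, Y q ω ∂μ) / ENNReal.ofReal ((T₀ : ℝ) ^ 2 * Real.exp v)
              ≤ 1 / ENNReal.ofReal ((T₀ : ℝ) ^ 2 * Real.exp v) := by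
                gcongr
                exact hYi q
            _ = ENNReal.ofReal (Real.exp (-v) / (T₀ : ℝ) ^ 2) := by
                rw [← ENNReal.ofReal_one, ← ENNReal.ofReal_div_of_pos hlam, Real.exp_neg]
                congr 1
                field_simp
      _ = ENNReal.ofReal (Real.exp (-v)) := by
          rw [Finset.sum_const, Finset.card_product, Finset.card_range, nsmul_eq_mul,
            ← ENNReal.ofReal_natCast, ← ENNReal.ofReal_mul (Nat.cast_nonneg _)]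
          congr 1
          push_cast
          field_simp
  · intro ω hω T τ z g hτT hTT hsol _ hht hbr
    have hτT' : (τ : ℝ) ≤ T := by exact_mod_cast hτT.le
    have hUc : Continuous fun t => W t ω := hW.cont ω
    have hYlt : Y (τ, T - 1) ω < ENNReal.ofReal ((T₀ : ℝ) ^ 2 * Real.exp v) := by
      by_contra hcon
      refine hω (Set.mem_iUnion₂.2 ⟨(τ, T - 1), ?_, not_lt.1 hcon⟩)
      rw [Finset.mem_product, Finset.mem_range, Finset.mem_range]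
      exact ⟨by show τ < T₀; omega, by show T - 1 < T₀; omega⟩
    have eT : (((τ, T - 1) : ℕ × ℕ).2 + 1 - ((τ, T - 1) : ℕ × ℕ).1) = T - τ := by
      show T - 1 + 1 - τ = T - τ
      omega
    have eT' : ((((τ, T - 1) : ℕ × ℕ).2 + 1 - ((τ, T - 1) : ℕ × ℕ).1 : ℕ) : ℝ) =
        (T : ℝ) - τ := by
      rw [eT, Nat.cast_sub hτT.le]
    have hHH : (2 : ℝ) ^ H ≤ 2 ^ (max H H₀) :=
      pow_le_pow_right₀ one_le_two (le_max_left _ _)
    have hdiv : ((T : ℝ) - τ) / (1 : ℝ) ^ 2 = (T : ℝ) - τ := by rw [one_pow, div_one]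
    have hsh := hsol.shift (Nat.cast_nonneg τ) hτT' one_pos
    rw [hdiv] at hsh
    have hY1 := hY (τ, T - 1) ω ((1 : ℝ)⁻¹ • (g τ - W τ ω))
      (fun v => (1 : ℝ)⁻¹ • (g (τ + 1 ^ 2 * v) - W τ ω)) ?_ ?_ ?_ ?_
    · rw [eT'] at hY1
      have hint := tk_eq (psub (fun t => W t ω) τ 1)
        (fun v => (1 : ℝ)⁻¹ • (g (τ + 1 ^ 2 * v) - W τ ω)) 0 ((T : ℝ) - τ)
      rw [tk_shift (fun t => W t ω) g hτT'] at hint
      have hY2 : ENNReal.ofReal (Real.exp (c₁ / ((max H H₀ : ℕ) : ℝ) ^ 2 *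
          tk (fun t => W t ω) g 1 τ T)) ≤
          ENNReal.ofReal (C * ((2 : ℝ) ^ (max H H₀) * 2 ^ (max H H₀)) ^ p) *
            Y (τ, T - 1) ω := by
        rw [hint]
        exact hY1
      have hC0 : 0 ≤ C * ((2 : ℝ) ^ (max H H₀) * 2 ^ (max H H₀)) ^ p := by positivity
      have hY3 : ENNReal.ofReal (Real.exp (c₁ / ((max H H₀ : ℕ) : ℝ) ^ 2 *
          tk (fun t => W t ω) g 1 τ T)) ≤
          ENNReal.ofReal (C * ((2 : ℝ) ^ (max H H₀) * 2 ^ (max H H₀)) ^ p *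
            ((T₀ : ℝ) ^ 2 * Real.exp v)) := by
        rw [ENNReal.ofReal_mul hC0]
        exact hY2.trans (mul_le_mul_right hYlt.le _)
      rw [ENNReal.ofReal_le_ofReal_iff (by positivity), exp_form hC hT₀,
        Real.exp_le_exp] at hY3
      refine arith (L := Real.log T₀) hC hc₁ (le_max_left _ _) hH
        (hH.trans (le_max_left H H₀)) ?_ hv (Real.log_nonneg (by exact_mod_cast hT₀)) hY3
      have hH1 : (1 : ℝ) ≤ H := by exact_mod_cast hH
      have hm : (1 : ℝ) ≤ max 1 (H₀ : ℝ) := le_max_left _ _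
      rw [Nat.cast_max]
      refine max_le ?_ ?_
      · nlinarith
      · have h5 : (H₀ : ℝ) ≤ max 1 (H₀ : ℝ) := le_max_right _ _
        nlinarith
    · rw [inv_one, one_smul]
      exact (hht τ ⟨le_rfl, hτT'⟩).trans hHH
    · rw [eT']
      exact hsh
    · rw [eT']
      intro u hu
      have hZ := TRPAT.shift_eq (fun t => W t ω) g τ hu.1
      have h6 := (hht (τ + u) ⟨by linarith [hu.1], by linarith [hu.2]⟩).trans hHH
      rw [← hZ] at h6
      exact h6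
    · rw [eT']
      exact cutfree_shift hUc hsol hτT hbr

end

end Pool.Agent.SLE
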