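import Pool.Agent.Lib.MP_c17912_pr_TC.FCS
import Pool.Agent.Lib.MP_c17912_pr_TC.FCSb

/-!
# MP_c17912_pr, project TC: the pattern bound at the scale 1
-/

set_option autoImplicit false

open MeasureTheory ProbabilityTheory Filter
open scoped NNReal ENNReal Topology Real

namespace Pool.Agent.SLE

noncomputable section

open Classical in
/-- The pattern bound: `Q` is a set of transitions, `S` a set of low cells with at most
`(#Q + 4) (D + 1)` elements, and the clock of the cells `j < τ`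
outside `S` plus `β` times the number of
the bad elements of `Q` is at most `(#Q + 1) G + v`. -/
def PatB (U g : ℝ → ℂ) (r c₁ β G v : ℝ) (Bd : ℕ → Prop) (D τ : ℕ) (Q S : Finset ℕ) : Prop :=
  (∀ j ∈ Q, j + 1 < τ ∧ tr U g r j) ∧ (∀ j ∈ S, j < τ ∧ low U g r j) ∧
    S.card ≤ (Q.card + 4) * (D + 1) ∧
    c₁ * ∑ j ∈ Finset.range τ \ S, ck U g r j + β * (Q.filter Bd).card ≤
      ((Q.card : ℝ) + 1) * G + v

variable {Ω : Type*} [MeasurableSpace Ω] {μ : Measure Ω}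

namespace TCFCM

theorem cb_pat {U g : ℝ → ℂ} {c₁ β C₀ C X X₀ v : ℝ} {Bd : ℕ → Prop} {D τ : ℕ} {Q S : Finset ℕ}
    {Rt : ℝ≥0∞} (hC₀ : 0 ≤ C₀) (hC : 4 * C₀ ≤ C) (hX : 0 ≤ X) (hX₀ : 0 ≤ X₀)
    (h : CB U g c₁ β C₀ X X₀ Bd D τ Q S Rt) (hR : Rt ≤ ENNReal.ofReal (Real.exp v)) :
    PatB U g 1 c₁ β (C * X) (C * (X₀ + 1) + v) Bd D τ Q S := by
  classical
  obtain ⟨h1, h2, h3, h4⟩ := h
  refine ⟨h1, h2, h3, ?_⟩
  have h5 := h4.trans (mul_le_mul_right hR _)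
  rw [← ENNReal.ofReal_mul (Real.exp_pos _).le, ← Real.exp_add,
    ENNReal.ofReal_le_ofReal_iff (Real.exp_pos _).le, Real.exp_le_exp] at h5
  refine h5.trans ?_
  have hq : (0 : ℝ) ≤ Q.card := Nat.cast_nonneg _
  have e1 : ((Q.card : ℝ) + 4) * (C₀ * X) ≤ ((Q.card : ℝ) + 1) * (C * X) := by
    have e2 : ((Q.card : ℝ) + 4) * (C₀ * X) ≤ (4 * ((Q.card : ℝ) + 1)) * (C₀ * X) :=
      mul_le_mul_of_nonneg_right (by linarith) (mul_nonneg hC₀ hX)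
    have e3 : ((Q.card : ℝ) + 1) * ((4 * C₀) * X) ≤ ((Q.card : ℝ) + 1) * (C * X) :=
      mul_le_mul_of_nonneg_left (mul_le_mul_of_nonneg_right hC hX) (by linarith)
    calc ((Q.card : ℝ) + 4) * (C₀ * X) ≤ (4 * ((Q.card : ℝ) + 1)) * (C₀ * X) := e2
      _ = ((Q.card : ℝ) + 1) * ((4 * C₀) * X) := by ring
      _ ≤ _ := e3
  have e4 : C₀ * X₀ ≤ C * (X₀ + 1) := by
    have e5 : C₀ ≤ C := by linarith
    have e6 : 0 ≤ C := by linarith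
    calc C₀ * X₀ ≤ C * X₀ := mul_le_mul_of_nonneg_right e5 hX₀
      _ ≤ C * (X₀ + 1) := mul_le_mul_of_nonneg_left (by linarith) e6
  linarith

theorem markov [IsProbabilityMeasure μ] {R : ℕ → Ω → ℝ≥0∞} {r : ℕ → ℝ≥0∞}
    (hRm : ∀ t, Measurable (R t)) (hRi : ∀ t, ∫⁻ ω, R t ω ∂μ ≤ r t) (hr : ∑' t, r t ≤ 1)
    (v : ℝ) : MeasurableSet {ω | ENNReal.ofReal (Real.exp v) ≤ ∑' t, R t ω} ∧
      μ {ω | ENNReal.ofReal (Real.exp v) ≤ ∑' t, R t ω} ≤ ENNReal.ofReal (Real.exp (-v)) := by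
  have hm : Measurable fun ω => ∑' t, R t ω := Measurable.tsum hRm
  refine ⟨measurableSet_le measurable_const hm, ?_⟩
  have hpos : ENNReal.ofReal (Real.exp v) ≠ 0 := by
    rw [Ne, ENNReal.ofReal_eq_zero, not_le]
    exact Real.exp_pos v
  refine (meas_ge_le_lintegral_div hm.aemeasurable hpos ENNReal.ofReal_ne_top).trans ?_
  rw [lintegral_tsum fun t => (hRm t).aemeasurable]
  have h1 : ∑' t, ∫⁻ ω, R t ω ∂μ ≤ 1 := (ENNReal.tsum_le_tsum hRi).trans hr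
  calc (∑' t, ∫⁻ ω, R t ω ∂μ) / ENNReal.ofReal (Real.exp v)
      ≤ 1 / ENNReal.ofReal (Real.exp v) := ENNReal.div_le_div_right h1 _
    _ = ENNReal.ofReal (Real.exp (-v)) := by
      rw [Real.exp_neg, ENNReal.ofReal_inv_of_pos (Real.exp_pos v), one_div]

end TCFCM

/-- TC-FCM. The pattern bound of the forward critical case, at the scale `1`.

Proof. `C₀, c₁, κ, r` and the functional `R` from `chain_sol`, `C₁` from `tail_ev`.
`∫ ∑' t, R t ≤ ∑' t, r t ≤ 1`; `A₁ = {exp v ≤ ∑' t, R t}` has probability at most `exp (-v)`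
(Markov). `A₂` from `tail_ev`. Outside `A₁`, `CB` gives, taking logarithms,
`c₁ ∑ + β # ≤ (#Q + 4) C₀ X + C₀ log m₀ + v ≤ (#Q + 1) (4 C₀ X) + C₀ (log m₀ + 1) + v`
(`#Q + 4 ≤ 4 (#Q + 1)`). For the second statement use `chain_sol` with `u = T`, `M = T`: in the
first two alternatives `τ = T` and `tk U g 1 T T = 0`; in the third one `tail_ev`. -/
theorem pattern_c [IsProbabilityMeasure μ] {a b c K ε d : ℝ} (hd : 0 ≤ d)
    (hS : StrC μ a b c K ε d) (hT : TailP μ a b c K ε d) :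
    ∃ C c₁ κ : ℝ, 1 ≤ C ∧ 0 < c₁ ∧ 1 ≤ κ ∧ ∀ W : ℝ → Ω → ℂ, Gau a b c K W μ →
      ∀ (m m₀ β v : ℝ) (D H T₀ : ℕ) (Bd : ℕ → Set Ω), 1 ≤ m → m ≤ m₀ → 0 ≤ v → 1 ≤ D → 0 ≤ β →
        1 ≤ H → 1 ≤ T₀ → (∀ j : ℕ, MeasurableSet[Blk W j ((j : ℝ) + 1)] (Bd j)) →
        (∀ j, μ (Bd j) ≤ ENNReal.ofReal (Real.exp (-(κ * β)))) →
        ∃ A, MeasurableSet A ∧ μ A ≤ ENNReal.ofReal (2 * Real.exp (-v)) ∧ ∀ ω ∉ A,
          (∀ (t : ℝ) (z : ℂ) (g : ℝ → ℂ), 0 ≤ t → ‖z‖ ≤ m₀ → Sol (fun t => W t ω) z t g →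
            ‖g t - W t ω‖ ≤ m₀ → Osc (fun t => W t ω) 1 m (⌊t⌋₊ + 1) →
            (∀ s, s + D ≤ ⌊t⌋₊ → ¬ rider (fun t => W t ω) g 1 s D) →
            fresh (fun t => W t ω) g ε d t → ∃ Q S : Finset ℕ,
              PatB (fun t => W t ω) g 1 c₁ β (C * (Real.log m + Real.log D + 1))
                (C * (Real.log m₀ + 1) + v) (fun j => ω ∈ Bd j) D ⌊t⌋₊ Q S) ∧
          ∀ (T : ℕ) (z : ℂ) (g : ℝ → ℂ), T ≤ T₀ → ‖z‖ ≤ m₀ → Sol (fun t => W t ω) z T g →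
            (∀ u ∈ Set.Icc (0 : ℝ) T, ‖g u - W u ω‖ ≤ 2 ^ H) →
            Osc (fun t => W t ω) 1 m T →
            (∀ s, s + D ≤ T → ¬ rider (fun t => W t ω) g 1 s D) →
            ∃ (Q S : Finset ℕ) (τ : ℕ), τ ≤ T ∧
              PatB (fun t => W t ω) g 1 c₁ β (C * (Real.log m + Real.log D + 1))
                (C * (Real.log m₀ + 1) + v) (fun j => ω ∈ Bd j) D τ Q S ∧
              tk (fun t => W t ω) g 1 τ T ≤ C * (H : ℝ) ^ 2 * (H + Real.log T₀ + 1 + v) := by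
  obtain ⟨C₀, c₁, κ, hC₀, hc₁, hκ, hch⟩ := chain_sol (μ := μ) hd hS
  obtain ⟨C₁, hC₁, htl⟩ := tail_ev (μ := μ) hT
  refine ⟨4 * C₀ + C₁, c₁, κ, by linarith, hc₁, hκ, ?_⟩
  intro W hW m m₀ β v D H T₀ Bd hm hm₀ hv hD hβ hH hT₀ hBm hBp
  obtain ⟨r, hr1, hrW⟩ := hch D hD
  obtain ⟨R, hRm, hRi, hsol⟩ := hrW W hW β Bd hβ hBm hBp
  obtain ⟨hA₁m, hA₁p⟩ := TCFCM.markov (μ := μ) hRm hRi hr1 v
  obtain ⟨A₂, hA₂m, hA₂p, hA₂⟩ := htl W hW H T₀ v hH hT₀ hv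
  refine ⟨{ω | ENNReal.ofReal (Real.exp v) ≤ ∑' t, R t ω} ∪ A₂, hA₁m.union hA₂m, ?_, ?_⟩
  · refine (measure_union_le _ _).trans ((add_le_add hA₁p hA₂p).trans ?_)
    rw [← ENNReal.ofReal_add (Real.exp_pos _).le (Real.exp_pos _).le, two_mul]
  intro ω hω
  have hω₁ : ∑' t, R t ω < ENNReal.ofReal (Real.exp v) := by
    rw [← not_le]
    exact fun h => hω (Or.inl h)
  have hω₂ : ω ∉ A₂ := fun h => hω (Or.inr h)
  have hRt : ∀ t, R t ω ≤ ENNReal.ofReal (Real.exp v) := fun t =>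
    (ENNReal.le_tsum t).trans hω₁.le
  have hC₀0 : 0 ≤ C₀ := by linarith
  have hCC : 4 * C₀ ≤ 4 * C₀ + C₁ := by linarith
  have hD1 : (1 : ℝ) ≤ D := by exact_mod_cast hD
  have lm : 0 ≤ Real.log m := Real.log_nonneg hm
  have lm₀ : 0 ≤ Real.log m₀ := Real.log_nonneg (hm.trans hm₀)
  have lD : 0 ≤ Real.log D := Real.log_nonneg hD1
  have hX : 0 ≤ Real.log m + Real.log D + 1 := by linarith
  refine ⟨?_, ?_⟩
  · intro t z g ht hz hg hgt hosc hrid hfr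
    obtain ⟨Q, S, t', hcb⟩ := (hsol ω t z g m m₀ ht hm hm₀ hz hg
      (fun j hj => hosc j (Nat.lt_succ_of_lt hj)) hrid).2 hosc hfr hgt
    exact ⟨Q, S, TCFCM.cb_pat hC₀0 hCC hX lm₀ hcb (hRt t')⟩
  · intro T z g hTT hz hg hgH hosc hrid
    have hfl : ⌊(T : ℝ)⌋₊ = T := Nat.floor_natCast T
    have h1 := (hsol ω (T : ℝ) z g m m₀ (Nat.cast_nonneg T) hm hm₀ hz hg
      (by rw [hfl]; exact hosc) (by rw [hfl]; exact hrid)).1
    rw [hfl] at h1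
    obtain ⟨Q, S, τ, t', hτ, -, hcb, halt⟩ := h1 T le_rfl
    refine ⟨Q, S, τ, hτ, TCFCM.cb_pat hC₀0 hCC hX lm₀ hcb (hRt t'), ?_⟩
    have hT1 : (1 : ℝ) ≤ T₀ := by exact_mod_cast hT₀
    have lT : 0 ≤ Real.log T₀ := Real.log_nonneg hT1
    have hL : 0 ≤ (H : ℝ) + Real.log T₀ + 1 + v := by positivity
    have hz0 : 0 ≤ (4 * C₀ + C₁) * (H : ℝ) ^ 2 * (H + Real.log T₀ + 1 + v) := by
      refine mul_nonneg (mul_nonneg (by linarith) (by positivity)) hL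
    have hself : τ = T → tk (fun t => W t ω) g 1 τ T ≤
        (4 * C₀ + C₁) * (H : ℝ) ^ 2 * (H + Real.log T₀ + 1 + v) := by
      intro h
      subst h
      unfold tk
      rw [intervalIntegral.integral_same]
      exact hz0
    rcases halt with h | h | h
    · exact hself h.1
    · exact hself h.1
    · obtain ⟨h2, -, h3, h4, -⟩ := h
      refine (hA₂ ω hω₂ T τ z g h2 hTT hg h3
        (fun u hu => hgH u ⟨(Nat.cast_nonneg τ).trans hu.1, hu.2⟩) h4).trans ?_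
      refine mul_le_mul_of_nonneg_right ?_ hL
      exact mul_le_mul_of_nonneg_right (by linarith) (by positivity)

end

end Pool.Agent.SLE
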