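import Pool.Agent.Lib.MP_c17912_pr_TC.FCLb
import Pool.Agent.Lib.MP_c17912_pr_TC.FCO
import Pool.Agent.Lib.MP_c17912_pr_TR.COR

/-!
# MP_c17912_pr, project TC: the core for fresh solutions
-/

set_option autoImplicit false

open MeasureTheory ProbabilityTheory Filter
open scoped NNReal ENNReal Topology Real

namespace Pool.Agent.SLE

noncomputable section

variable {Ω : Type*} [MeasurableSpace Ω] {μ : Measure Ω}

/-- TC-FCO4. The core for fresh solutions: if there are no long riders, then the skipped cells of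
the scale `1` are few and the clock of the others is small.

Proof. `stars_c`, first statement, `C, c₁`. Choose `Uk, Bk, S` for every `k` (`LevP`; no riders).
`x k = XX ..`; `c₁ x k + 4 C log N B ≤ (U + 1) C log N + C (m + √n)` by `XX_le_f`. If
`n^(5/8) ≤ U 0`: `growth_contra` (TR) with `k₀ = 0` (`lev n 0 = 0`) and `k₁ ≥ 1` from `no_low_f`
(`U k₁ = 0`). So `U 0 < n^(5/8)`; `S = S 0` has at most `2 (n^(5/8) + 4) n^10` elements, and
`c₁ ∑ ≤ (n^(5/8) + 1) C log n + C √n < c₁ n^(11/16)` (`TRCOR.num` with `m = 0`). (`rr 0 = 1`,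
`t * 4^0 = t`.) -/
theorem core_f [IsProbabilityMeasure μ] {a b c K ε d : ℝ} (ha : 0 ≤ a) (hb : 0 ≤ b) (hd : 0 ≤ d)
    (hS : StrC μ a b c K ε d) (hT : TailP μ a b c K ε d) :
    ∃ n₀ : ℕ, ∀ n ≥ n₀, ∀ W : ℝ → Ω → ℂ, Gau a b c K W μ →
      ∃ A, MeasurableSet A ∧ μ A ≤ ENNReal.ofReal (Real.exp (-(n : ℝ) ^ (1 / 4 : ℝ))) ∧
        ∀ ω ∉ A, ∀ (t : ℝ) (z : ℂ) (g : ℝ → ℂ), 0 ≤ t → t ≤ 4 ^ (n + 2) → ‖z‖ ≤ n + 4 →
          Sol (fun t => W t ω) z t g → ‖g t - W t ω‖ ≤ n + 4 → fresh (fun t => W t ω) g ε d t →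
          (∀ M s, s + (n + M) ^ 10 ≤ ⌊t * 4 ^ M⌋₊ →
            ¬ rider (fun t => W t ω) g (rr M) s ((n + M) ^ 10)) →
          ∃ S : Finset ℕ, (S.card : ℝ) ≤ 2 * ((n : ℝ) ^ (5 / 8 : ℝ) + 4) * (n : ℝ) ^ 10 ∧
            ∑ j ∈ Finset.range ⌊t⌋₊ \ S, ck (fun t => W t ω) g 1 j < (n : ℝ) ^ (11 / 16 : ℝ) := by
  obtain ⟨C, c₁, hC, hc, n₀, hst⟩ := stars_c (μ := μ) ha hb hd hS hT
  obtain ⟨n₁, hgr⟩ := growth_contra hC hc
  obtain ⟨n₂, hnum⟩ := TRCOR.num hC hc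
  refine ⟨max (max n₀ n₁) (max n₂ 1), fun n hn W hW => ?_⟩
  have hn0 : n₀ ≤ n := ((le_max_left _ _).trans (le_max_left _ _)).trans hn
  have hn1 : n₁ ≤ n := ((le_max_right _ _).trans (le_max_left _ _)).trans hn
  have hn2 : n₂ ≤ n := ((le_max_left _ _).trans (le_max_right _ _)).trans hn
  have hn3 : 1 ≤ n := ((le_max_right _ _).trans (le_max_right _ _)).trans hn
  obtain ⟨A, hA, hμ, hst⟩ := hst n hn0 W hW
  refine ⟨A, hA, hμ, fun ω hω t z g ht0 ht hz hg hend hfr hrid => ?_⟩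
  have h := (hst ω hω).1 t z g ht0 ht hz hg hend hfr
  choose U B S hLev hlow using fun k => (h k).2 (fun s hs => hrid (lev n k) s hs)
  have hW' : Continuous fun t => W t ω := hW.cont ω
  have hn3' : (1 : ℝ) ≤ n := by exact_mod_cast hn3
  have hn14 : (0 : ℝ) ≤ (n : ℝ) ^ (1 / 4 : ℝ) := Real.rpow_nonneg (by linarith) _
  have hineq : ∀ k, c₁ * XX (fun t => W t ω) g (rr (lev n k)) ⌊t * 4 ^ lev n k⌋₊ +
      4 * C * Real.log ((n : ℝ) + lev n k) * B k ≤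
        (U k + 1) * (C * Real.log ((n : ℝ) + lev n k)) + C * (lev n k + √n) := by
    intro k
    obtain ⟨-, -, -, q4, -, q6⟩ := hLev k
    have h1 := mul_le_mul_of_nonneg_left (XX_le_f (S k) q4) hc.le
    linarith
  have hU0 : U 0 < (n : ℝ) ^ (5 / 8 : ℝ) := by
    by_contra hcon
    obtain ⟨k₂, hk₂⟩ := no_low_f hW' ht0 hg n
    refine hgr n hn1
      (fun k => XX (fun t => W t ω) g (rr (lev n k)) ⌊t * 4 ^ lev n k⌋₊) U B 0 (max k₂ 1)
      (fun k => TRCOR.XX_nonneg _ _ _ _) (fun k => (hLev k).1) (fun k => (hLev k).2.1) ?_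
      (fun k _ => hineq k) (fun k _ => (hLev k).2.2.1) (not_lt.1 hcon)
      (lt_of_lt_of_le Nat.zero_lt_one (le_max_right _ _)) (hlow _ (hk₂ _ (le_max_left _ _)))
    have h0 : lev n 0 = 0 := rfl
    rw [h0, Nat.cast_zero]
    exact hn14
  obtain ⟨q1, q2, -, -, q5, q6⟩ := hLev 0
  have h0 : lev n 0 = 0 := rfl
  have hr : rr 0 = 1 := by
    unfold rr
    norm_num
  simp only [h0, hr, pow_zero, mul_one, Nat.cast_zero, add_zero, zero_add] at q5 q6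
  refine ⟨S 0, q5.trans ?_, ?_⟩
  · have h1 : (0 : ℝ) ≤ (n : ℝ) ^ 10 := by positivity
    exact mul_le_mul_of_nonneg_right (by linarith) h1
  · have h4 := hnum n hn2 0 le_rfl hn14
    rw [add_zero, zero_add] at h4
    have hlog : 0 ≤ Real.log (n : ℝ) := Real.log_nonneg hn3'
    have hC0 : 0 < C := by linarith
    have h5 : 0 ≤ 4 * C * Real.log (n : ℝ) * B 0 :=
      mul_nonneg (mul_nonneg (by linarith) hlog) q2
    have h6 : (U 0 + 1) * (C * Real.log (n : ℝ)) ≤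
        ((n : ℝ) ^ (5 / 8 : ℝ) + 1) * (C * Real.log (n : ℝ)) :=
      mul_le_mul_of_nonneg_right (by linarith) (mul_nonneg hC0.le hlog)
    refine lt_of_mul_lt_mul_left (lt_of_le_of_lt ?_ h4) hc.le
    linarith

end

end Pool.Agent.SLE
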