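import Pool.Agent.Lib.MP_c17912_pr_TC.FCLb
import Pool.Agent.Lib.MP_c17912_pr_TC.FCO
import Pool.Agent.Lib.MP_c17912_pr_TC.FCG
import Pool.Agent.Lib.MP_c17912_pr_TR.COR

/-!
# MP_c17912_pr, project TC: the core for riders
-/

set_option autoImplicit false

open MeasureTheory ProbabilityTheory Filter
open scoped NNReal ENNReal Topology Real

namespace Pool.Agent.SLE

noncomputable section

variable {Ω : Type*} [MeasurableSpace Ω] {μ : Measure Ω}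

namespace TCFCOc

theorem ck_nonneg (U g : ℝ → ℂ) (r : ℝ) (j : ℕ) : 0 ≤ ck U g r j := by
  unfold ck lk
  refine intervalIntegral.integral_nonneg ?_ fun u _ => by positivity
  nlinarith [sq_nonneg r]

theorem tk_nonneg (U g : ℝ → ℂ) {r s t : ℝ} (hr : 0 ≤ r) (hst : s ≤ t) : 0 ≤ tk U g r s t := by
  unfold tk
  refine intervalIntegral.integral_nonneg hst fun u _ => ?_
  have h1 : 0 ≤ max ‖g u - U u‖ r := hr.trans (le_max_right _ _)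
  positivity

/-- the cost of the tail at the first level -/
theorem num2 {C : ℝ} (hC : 1 ≤ C) : ∃ n₁ : ℕ, ∀ n ≥ n₁, ∀ m : ℝ, 0 ≤ m →
    m ≤ (n : ℝ) ^ (1 / 64 : ℝ) →
    C * (m + Real.log n) ^ 2 * (m + √n) ≤ (n : ℝ) ^ (5 / 8 : ℝ) := by
  have h1 := tendsto_natCast_atTop_atTop.eventually
    ((isLittleO_log_rpow_atTop (by norm_num : (0 : ℝ) < 1 / 64)).def one_pos)
  have h2 := tendsto_natCast_atTop_atTop.eventually
    ((tendsto_rpow_atTop (by norm_num : (0 : ℝ) < 3 / 32)).eventually_ge_atTop (8 * C))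
  obtain ⟨n₁, hn₁⟩ := eventually_atTop.1 (h1.and h2)
  refine ⟨max n₁ 1, fun n hn m hm0 hm => ?_⟩
  have hn1 : (1 : ℝ) ≤ n := by exact_mod_cast (le_max_right n₁ 1).trans hn
  have hn0 : (0 : ℝ) < n := by linarith
  obtain ⟨h3, h4⟩ := hn₁ n ((le_max_left _ _).trans hn)
  have h64 : (0 : ℝ) < (n : ℝ) ^ (1 / 64 : ℝ) := Real.rpow_pos_of_pos hn0 _
  rw [one_mul, Real.norm_of_nonneg h64.le] at h3
  have h5 : Real.log n ≤ (n : ℝ) ^ (1 / 64 : ℝ) := (le_abs_self _).trans h3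
  have hlog : 0 ≤ Real.log n := Real.log_nonneg hn1
  have h6 : (m + Real.log n) ^ 2 ≤ (2 * (n : ℝ) ^ (1 / 64 : ℝ)) ^ 2 :=
    pow_le_pow_left₀ (by linarith) (by linarith) 2
  have hsq : √(n : ℝ) = (n : ℝ) ^ (1 / 2 : ℝ) := Real.sqrt_eq_rpow _
  have h7 : m + √(n : ℝ) ≤ 2 * (n : ℝ) ^ (1 / 2 : ℝ) := by
    have := Real.rpow_le_rpow_of_exponent_le hn1 (by norm_num : (1 / 64 : ℝ) ≤ 1 / 2)
    rw [hsq]
    linarith
  have h8 : (0 : ℝ) ≤ m + √(n : ℝ) := by positivity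
  have hC0 : 0 ≤ C := by linarith
  have e1 : (n : ℝ) ^ (1 / 64 : ℝ) * (n : ℝ) ^ (1 / 64 : ℝ) * (n : ℝ) ^ (1 / 2 : ℝ) =
      (n : ℝ) ^ (17 / 32 : ℝ) := by
    rw [← Real.rpow_add hn0, ← Real.rpow_add hn0]
    norm_num
  have e2 : (n : ℝ) ^ (3 / 32 : ℝ) * (n : ℝ) ^ (17 / 32 : ℝ) = (n : ℝ) ^ (5 / 8 : ℝ) := by
    rw [← Real.rpow_add hn0]
    norm_num
  calc C * (m + Real.log n) ^ 2 * (m + √n) ≤
        C * (2 * (n : ℝ) ^ (1 / 64 : ℝ)) ^ 2 * (2 * (n : ℝ) ^ (1 / 2 : ℝ)) := by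
        refine mul_le_mul (mul_le_mul_of_nonneg_left h6 hC0) h7 h8 (by positivity)
    _ = 8 * C * ((n : ℝ) ^ (1 / 64 : ℝ) * (n : ℝ) ^ (1 / 64 : ℝ) * (n : ℝ) ^ (1 / 2 : ℝ)) := by
        ring
    _ = 8 * C * (n : ℝ) ^ (17 / 32 : ℝ) := by rw [e1]
    _ ≤ (n : ℝ) ^ (3 / 32 : ℝ) * (n : ℝ) ^ (17 / 32 : ℝ) :=
        mul_le_mul_of_nonneg_right h4 (Real.rpow_nonneg hn0.le _)
    _ = (n : ℝ) ^ (5 / 8 : ℝ) := e2

theorem cells (n m : ℕ) : ((n * 4 ^ m : ℕ) : ℝ) * rr m ^ 2 = n := by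
  push_cast
  rw [mul_assoc, TRCOR.rr_sq, mul_one]

end TCFCOc

/-- TC-FCO5. The core for arbitrary solutions on `[0,n]` (riders).

Proof. `stars_c`, second statement. Choose `Uk, Bk, S, τ` for every `k ≥ k₀`
(`M = lev n k ≥ lev n k₀`, `lev` is monotone; no riders). `x k = XX .. (n * 4^lev n k)`, and
`XX_le_r` (`n * 4^m * rr m ^ 2 = n`) with the bound of `tk` gives the hypothesis of
`growth_contra2` with `min c₁ 1` in place of `c₁`: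
`min c₁ 1 * x ≤ c₁ ∑ + tk`. If `n^(5/8) ≤ U k₀`: contradiction with `k₁ > k₀` from
`no_low_f` (`t = n`). So `U k₀ < n^(5/8)`. The bounds for `S k₀` and the sum as in `core_f`
(`TRCOR.num`, `lev n k₀ ≤ n^(1/64) ≤ n^(1/4)`); `tk ≤ C (n^(1/64) + log n)² (n^(1/64) + √n)
≤ n^(5/8)` for large `n`. -/
theorem core_r [IsProbabilityMeasure μ] {a b c K ε d : ℝ} (ha : 0 ≤ a) (hb : 0 ≤ b) (hd : 0 ≤ d)
    (hS : StrC μ a b c K ε d) (hT : TailP μ a b c K ε d) :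
    ∃ n₀ : ℕ, ∀ n ≥ n₀, ∀ W : ℝ → Ω → ℂ, Gau a b c K W μ →
      ∃ A, MeasurableSet A ∧ μ A ≤ ENNReal.ofReal (Real.exp (-(n : ℝ) ^ (1 / 4 : ℝ))) ∧
        ∀ ω ∉ A, ∀ (z : ℂ) (g : ℝ → ℂ), Sol (fun t => W t ω) z n g →
          (∀ u ∈ Set.Icc (0 : ℝ) n, ‖g u - W u ω‖ ≤ n + 4) → ∀ k₀ : ℕ,
          (lev n k₀ : ℝ) ≤ (n : ℝ) ^ (1 / 64 : ℝ) →
          (∀ M ≥ lev n k₀, ∀ s, s + (n + M) ^ 10 ≤ n * 4 ^ M →
            ¬ rider (fun t => W t ω) g (rr M) s ((n + M) ^ 10)) →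
          ∃ (S : Finset ℕ) (τ : ℕ), τ ≤ n * 4 ^ lev n k₀ ∧ (∀ j ∈ S, j < τ) ∧
            (S.card : ℝ) ≤ 2 * ((n : ℝ) ^ (5 / 8 : ℝ) + 4) * ((n : ℝ) + lev n k₀) ^ 10 ∧
            ∑ j ∈ Finset.range τ \ S, ck (fun t => W t ω) g (rr (lev n k₀)) j <
              (n : ℝ) ^ (11 / 16 : ℝ) ∧
            tk (fun t => W t ω) g (rr (lev n k₀)) (τ * rr (lev n k₀) ^ 2) n ≤
              (n : ℝ) ^ (5 / 8 : ℝ) := by
  obtain ⟨C, c₁, hC, hc, n₀, hst⟩ := stars_c (μ := μ) ha hb hd hS hT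
  have hc2 : 0 < min c₁ 1 := lt_min hc one_pos
  obtain ⟨n₁, hgr⟩ := growth_contra2 hC hc2
  obtain ⟨n₂, hnum⟩ := TRCOR.num hC hc
  obtain ⟨n₃, hnum2⟩ := TCFCOc.num2 hC
  refine ⟨max (max n₀ n₁) (max n₂ (max n₃ 1)), fun n hn W hW => ?_⟩
  have hn0 : n₀ ≤ n := ((le_max_left _ _).trans (le_max_left _ _)).trans hn
  have hn1 : n₁ ≤ n := ((le_max_right _ _).trans (le_max_left _ _)).trans hn
  have hn2 : n₂ ≤ n := ((le_max_left _ _).trans (le_max_right _ _)).trans hn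
  have hn3 : n₃ ≤ n := ((le_max_left _ _).trans
    ((le_max_right _ _).trans (le_max_right _ _))).trans hn
  have hn4 : 1 ≤ n := ((le_max_right _ _).trans
    ((le_max_right _ _).trans (le_max_right _ _))).trans hn
  have hn4' : (1 : ℝ) ≤ n := by exact_mod_cast hn4
  obtain ⟨A, hA, hμ, hst⟩ := hst n hn0 W hW
  refine ⟨A, hA, hμ, fun ω hω z g hg hend k₀ hk₀ hrid => ?_⟩
  have hst2 := (hst ω hω).2 z g hg hend
  have hU : Continuous fun t => W t ω := hW.cont ω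
  have hmono := (lev_strictMono n).monotone
  have hk4 : (lev n k₀ : ℝ) ≤ (n : ℝ) ^ (1 / 4 : ℝ) :=
    hk₀.trans (Real.rpow_le_rpow_of_exponent_le hn4' (by norm_num))
  have hex : ∀ k : ℕ, ∃ (Uk Bk : ℝ) (S : Finset ℕ) (τ : ℕ), 0 ≤ Uk ∧ 0 ≤ Bk ∧ (k₀ ≤ k →
      τ ≤ n * 4 ^ lev n k ∧
      LevP (fun t => W t ω) g C c₁
        (XX (fun t => W t ω) g (rr (lev n k)) (n * 4 ^ lev n k))
        (XX (fun t => W t ω) g (rr (lev n (k + 1))) (n * 4 ^ lev n (k + 1)))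
        n (lev n k) τ Uk Bk S ∧
      tk (fun t => W t ω) g (rr (lev n k)) (τ * rr (lev n k) ^ 2) n ≤
        C * (lev n k + Real.log n) ^ 2 * (lev n k + √n) ∧
      ((∀ j < n * 4 ^ lev n k, ¬ low (fun t => W t ω) g (rr (lev n k)) j) → Uk = 0)) := by
    intro k
    by_cases hk : k₀ ≤ k
    · obtain ⟨Uk, Bk, S, τ, h1, h2, h3, h4⟩ :=
        (hst2 k).2 (fun s hs => hrid (lev n k) (hmono hk) s hs)
      exact ⟨Uk, Bk, S, τ, h2.1, h2.2.1, fun _ => ⟨h1, h2, h3, h4⟩⟩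
    · exact ⟨0, 0, ∅, 0, le_refl _, le_refl _, fun h => absurd h hk⟩
  choose Uk Bk S τ hUk hBk hall using hex
  have hXle : ∀ k, k₀ ≤ k → XX (fun t => W t ω) g (rr (lev n k)) (n * 4 ^ lev n k) ≤
      ∑ j ∈ Finset.range (τ k) \ S k, ck (fun t => W t ω) g (rr (lev n k)) j +
        tk (fun t => W t ω) g (rr (lev n k)) (τ k * rr (lev n k) ^ 2) n := by
    intro k hk
    obtain ⟨h1, h2, -, -⟩ := hall k hk
    have h3 := XX_le_r hU (TRCOR.rr_pos (lev n k)) h1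
      (by rw [TCFCOc.cells]; exact hg) (S k) h2.2.2.2.1
    rwa [TCFCOc.cells] at h3
  have hck : ∀ k, 0 ≤ ∑ j ∈ Finset.range (τ k) \ S k,
      ck (fun t => W t ω) g (rr (lev n k)) j := fun k =>
    Finset.sum_nonneg fun j _ => TCFCOc.ck_nonneg _ _ _ _
  have htk : ∀ k, k₀ ≤ k → 0 ≤ tk (fun t => W t ω) g (rr (lev n k))
      (τ k * rr (lev n k) ^ 2) n := by
    intro k hk
    refine TCFCOc.tk_nonneg _ _ (TRCOR.rr_pos _).le ?_
    have h1 : ((τ k : ℕ) : ℝ) ≤ ((n * 4 ^ lev n k : ℕ) : ℝ) := by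
      exact_mod_cast (hall k hk).1
    calc (τ k : ℝ) * rr (lev n k) ^ 2 ≤ ((n * 4 ^ lev n k : ℕ) : ℝ) * rr (lev n k) ^ 2 :=
          mul_le_mul_of_nonneg_right h1 (sq_nonneg _)
      _ = n := TCFCOc.cells _ _
  have hineq : ∀ k ≥ k₀, min c₁ 1 *
      XX (fun t => W t ω) g (rr (lev n k)) (n * 4 ^ lev n k) +
      4 * C * Real.log ((n : ℝ) + lev n k) * Bk k ≤
        (Uk k + 1) * (C * Real.log ((n : ℝ) + lev n k)) + C * (lev n k + √n) +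
          C * (lev n k + Real.log n) ^ 2 * (lev n k + √n) := by
    intro k hk
    obtain ⟨-, h2, h3, -⟩ := hall k hk
    have h4 := h2.2.2.2.2.2
    have h5 : min c₁ 1 * XX (fun t => W t ω) g (rr (lev n k)) (n * 4 ^ lev n k) ≤
        c₁ * ∑ j ∈ Finset.range (τ k) \ S k, ck (fun t => W t ω) g (rr (lev n k)) j +
        tk (fun t => W t ω) g (rr (lev n k)) (τ k * rr (lev n k) ^ 2) n := by
      refine (mul_le_mul_of_nonneg_left (hXle k hk) hc2.le).trans ?_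
      rw [mul_add]
      refine add_le_add (mul_le_mul_of_nonneg_right (min_le_left _ _) (hck k)) ?_
      exact mul_le_of_le_one_left (htk k hk) (min_le_right _ _)
    linarith
  have hU5 : Uk k₀ < (n : ℝ) ^ (5 / 8 : ℝ) := by
    by_contra hcon
    obtain ⟨k₂, hk₂⟩ := no_low_f hU (Nat.cast_nonneg n) hg n
    have hk1 : k₀ ≤ max k₂ (k₀ + 1) := (Nat.le_succ k₀).trans (le_max_right _ _)
    refine hgr n hn1
      (fun k => XX (fun t => W t ω) g (rr (lev n k)) (n * 4 ^ lev n k)) Uk Bk k₀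
      (max k₂ (k₀ + 1)) (fun k => TRCOR.XX_nonneg _ _ _ _) hUk hBk hk₀ hineq
      (fun k hk => (hall k hk).2.1.2.2.1) (not_lt.1 hcon)
      (lt_of_lt_of_le (Nat.lt_succ_self k₀) (le_max_right _ _)) ?_
    refine (hall _ hk1).2.2.2 fun j hj => ?_
    refine hk₂ _ (le_max_left _ _) j ?_
    have e : (n : ℝ) * 4 ^ lev n (max k₂ (k₀ + 1)) =
        ((n * 4 ^ lev n (max k₂ (k₀ + 1)) : ℕ) : ℝ) := by push_cast; ring
    rw [e, Nat.floor_natCast]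
    exact hj
  obtain ⟨h1, h2, h3, -⟩ := hall k₀ le_rfl
  have hm0 : (0 : ℝ) ≤ lev n k₀ := Nat.cast_nonneg _
  have hlog : 0 ≤ Real.log ((n : ℝ) + lev n k₀) := Real.log_nonneg (by linarith)
  have hC0 : 0 < C := by linarith
  refine ⟨S k₀, τ k₀, h1, fun j hj => (h2.2.2.2.1 j hj).1, ?_, ?_, ?_⟩
  · refine h2.2.2.2.2.1.trans ?_
    refine mul_le_mul_of_nonneg_right (by linarith) (by positivity)
  · have h4 := hnum n hn2 (lev n k₀) hm0 hk4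
    have h5 : 0 ≤ 4 * C * Real.log ((n : ℝ) + lev n k₀) * Bk k₀ :=
      mul_nonneg (mul_nonneg (by linarith) hlog) (hBk k₀)
    have h6 : (Uk k₀ + 1) * (C * Real.log ((n : ℝ) + lev n k₀)) ≤
        ((n : ℝ) ^ (5 / 8 : ℝ) + 1) * (C * Real.log ((n : ℝ) + lev n k₀)) :=
      mul_le_mul_of_nonneg_right (by linarith) (mul_nonneg hC0.le hlog)
    have h7 := h2.2.2.2.2.2
    have h8 : c₁ * ∑ j ∈ Finset.range (τ k₀) \ S k₀,
        ck (fun t => W t ω) g (rr (lev n k₀)) j < c₁ * (n : ℝ) ^ (11 / 16 : ℝ) := by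
      linarith
    exact lt_of_mul_lt_mul_left h8 hc.le
  · exact h3.trans (hnum2 n hn3 _ hm0 hk₀)

end

end Pool.Agent.SLE
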