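import Pool.Agent.Lib.MP_c17912_pr_TC.FCD
import Pool.Agent.Lib.MP_c17912_pr_TR.PTC

/-!
# MP_c17912_pr, project TC: the greedy chain, combinatorial part
-/

set_option autoImplicit false

open MeasureTheory ProbabilityTheory Filter
open scoped NNReal ENNReal Topology Real

namespace Pool.Agent.SLE

noncomputable section

namespace TCFCP

/-- The sum over a union is at most the sum of the sums. -/
theorem sum_union_le {x : ℕ → ℝ} (hx : ∀ j, 0 ≤ x j) (A B : Finset ℕ) :
    ∑ j ∈ A ∪ B, x j ≤ ∑ j ∈ A, x j + ∑ j ∈ B, x j := by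
  have h1 := Finset.sum_union_inter (s₁ := A) (s₂ := B) (f := x)
  have h2 : 0 ≤ ∑ j ∈ A ∩ B, x j := Finset.sum_nonneg fun j _ => hx j
  linarith

theorem sum_step {x : ℕ → ℝ} (hx : ∀ j, 0 ≤ x j) {t τ t' : ℕ} {S S' : Finset ℕ} (h0 : S ⊆ S')
    (h1 : ∀ j, t ≤ j → j < τ → j ∈ S') (h3 : t' - 1 ∈ S' ∨ x (t' - 1) ≤ 1) :
    ∑ j ∈ Finset.range t' \ S', x j ≤
      ∑ j ∈ Finset.range t \ S, x j + ∑ j ∈ Finset.Ico τ (t' - 1), x j + 1 := by
  have hsub : Finset.range t' \ S' ⊆
      ((Finset.range t \ S) ∪ Finset.Ico τ (t' - 1)) ∪ ({t' - 1} \ S') := by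
    intro j hj
    rw [Finset.mem_sdiff, Finset.mem_range] at hj
    rw [Finset.mem_union, Finset.mem_union, Finset.mem_sdiff, Finset.mem_sdiff, Finset.mem_range,
      Finset.mem_Ico, Finset.mem_singleton]
    rcases Nat.lt_or_ge j t with h | h
    · exact Or.inl (Or.inl ⟨h, fun h4 => hj.2 (h0 h4)⟩)
    · have h5 : τ ≤ j := by
        by_contra h6
        exact hj.2 (h1 j h (not_le.mp h6))
      rcases Nat.lt_or_ge j (t' - 1) with h6 | h6
      · exact Or.inl (Or.inr ⟨h5, h6⟩)
      · exact Or.inr ⟨by omega, hj.2⟩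
  have h4 : ∑ j ∈ ({t' - 1} : Finset ℕ) \ S', x j ≤ 1 := by
    rcases h3 with h | h
    · have : ({t' - 1} : Finset ℕ) \ S' = ∅ := by
        rw [Finset.sdiff_eq_empty_iff_subset, Finset.singleton_subset_iff]
        exact h
      rw [this, Finset.sum_empty]
      exact zero_le_one
    · refine (Finset.sum_le_sum_of_subset_of_nonneg Finset.sdiff_subset
        (fun j _ _ => hx j)).trans ?_
      rw [Finset.sum_singleton]
      exact h
  calc ∑ j ∈ Finset.range t' \ S', x j
      ≤ ∑ j ∈ ((Finset.range t \ S) ∪ Finset.Ico τ (t' - 1)) ∪ ({t' - 1} \ S'), x j :=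
        Finset.sum_le_sum_of_subset_of_nonneg hsub (fun j _ _ => hx j)
    _ ≤ ∑ j ∈ (Finset.range t \ S) ∪ Finset.Ico τ (t' - 1), x j +
        ∑ j ∈ ({t' - 1} : Finset ℕ) \ S', x j := sum_union_le hx _ _
    _ ≤ _ := add_le_add (sum_union_le hx _ _) h4

/-- The exponential as an extended nonnegative number. -/
def E (a : ℝ) : ℝ≥0∞ := ENNReal.ofReal (Real.exp a)

theorem E_add (a b : ℝ) : E (a + b) = E a * E b := by
  unfold E
  rw [Real.exp_add, ENNReal.ofReal_mul (Real.exp_nonneg _)]

theorem E_mono {a b : ℝ} (h : a ≤ b) : E a ≤ E b :=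
  ENNReal.ofReal_le_ofReal (Real.exp_le_exp.mpr h)

theorem E_zero : E 0 = 1 := by
  unfold E
  rw [Real.exp_zero, ENNReal.ofReal_one]

theorem step_ineq {A A' B b c₁ G C : ℝ} (hG : 0 ≤ G) (hC : 0 ≤ C) {wt wt' Ri W Yv R' : ℝ≥0∞}
    (hA : E A * wt ≤ ENNReal.ofReal C * Ri) (hm : E B * wt' ≤ ENNReal.ofReal G * Yv)
    (hr : Ri * W * Yv ≤ R') (hb : E b ≤ wt * W) (hA' : A' ≤ A + B + c₁ + b) :
    E A' * wt' ≤ ENNReal.ofReal (C * (G * Real.exp c₁)) * R' := by
  have h1 : ENNReal.ofReal (C * (G * Real.exp c₁)) =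
      ENNReal.ofReal C * ENNReal.ofReal G * E c₁ := by
    unfold E
    rw [ENNReal.ofReal_mul hC, ENNReal.ofReal_mul hG, mul_assoc]
  calc E A' * wt' ≤ E (A + B + c₁ + b) * wt' := by gcongr; exact E_mono hA'
    _ = (E A * E b) * (E B * wt') * E c₁ := by
        rw [E_add, E_add, E_add]
        ring
    _ ≤ (E A * (wt * W)) * (ENNReal.ofReal G * Yv) * E c₁ := by gcongr
    _ = (E A * wt) * W * (ENNReal.ofReal G * Yv) * E c₁ := by ring
    _ ≤ (ENNReal.ofReal C * Ri) * W * (ENNReal.ofReal G * Yv) * E c₁ := by gcongr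
    _ = ENNReal.ofReal C * ENNReal.ofReal G * E c₁ * (Ri * W * Yv) := by ring
    _ ≤ ENNReal.ofReal C * ENNReal.ofReal G * E c₁ * R' := by gcongr
    _ = _ := by rw [h1]

theorem first_ineq {A' B c₁ G G₀ : ℝ} (hG : 1 ≤ G) (hG₀ : 0 ≤ G₀) {wt' Yv R' : ℝ≥0∞}
    (hm : E B * wt' ≤ ENNReal.ofReal G₀ * Yv) (hr : Yv ≤ R') (hA' : A' ≤ B + c₁) :
    E A' * wt' ≤ ENNReal.ofReal (G₀ * (G * Real.exp c₁) ^ 1) * R' := by
  have h1 : ENNReal.ofReal (G₀ * (G * Real.exp c₁)) =
      ENNReal.ofReal G₀ * ENNReal.ofReal G * E c₁ := by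
    unfold E
    rw [ENNReal.ofReal_mul hG₀, ENNReal.ofReal_mul (by linarith), mul_assoc]
  have h2 : 1 ≤ ENNReal.ofReal G := by
    rw [← ENNReal.ofReal_one]
    exact ENNReal.ofReal_le_ofReal hG
  calc E A' * wt' ≤ E (B + c₁) * wt' := by gcongr; exact E_mono hA'
    _ = (E B * wt') * E c₁ := by
        rw [E_add]
        ring
    _ ≤ (ENNReal.ofReal G₀ * Yv) * E c₁ := by gcongr
    _ = ENNReal.ofReal G₀ * 1 * E c₁ * Yv := by ring
    _ ≤ ENNReal.ofReal G₀ * ENNReal.ofReal G * E c₁ * R' := by gcongr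
    _ = _ := by rw [pow_one, h1]

open Classical in
/-- A state of the greedy chain. -/
structure St (T D M : ℕ) (P : ℕ → Prop) (x : ℕ → ℝ) (Bd : ℕ → Prop) (c₁ β G G₀ : ℝ)
    (R : ℕ → ℕ → ℝ≥0∞) (w : ℕ → ℝ≥0∞) (Q S : Finset ℕ) (i t : ℕ) : Prop where
  lt : t < T
  low : P t
  hQ : ∀ j ∈ Q, j + 1 ≤ t ∧ P j ∧ ¬ P (j + 1)
  hQM : Q.card ≤ (Q.filter (fun j => j + 1 < M)).card + 1
  hS : ∀ j ∈ S, j < t ∧ P j
  cS : S.card ≤ Q.card * D + i
  hi : i ≤ Q.card + 1
  ineq : E (c₁ * ∑ j ∈ Finset.range t \ S, x j + β * (Q.filter Bd).card) * w t ≤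
    ENNReal.ofReal (G₀ * (G * Real.exp c₁) ^ i) * R i t

open Classical in
/-- The conclusion of the greedy chain. -/
def Con (T D M : ℕ) (P : ℕ → Prop) (Br : ℕ → ℕ → Prop) (x : ℕ → ℝ) (Bd : ℕ → Prop)
    (c₁ β G G₀ : ℝ) (R : ℕ → ℕ → ℝ≥0∞) : Prop :=
  ∃ (Q S : Finset ℕ) (τ i t : ℕ), τ ≤ T ∧
    (∀ j ∈ Q, j + 1 < M ∧ j + 1 < τ ∧ P j ∧ ¬ P (j + 1)) ∧ (∀ j ∈ S, j < τ ∧ P j) ∧
    S.card ≤ (Q.card + 3) * (D + 1) ∧ i ≤ Q.card + 2 ∧
    ENNReal.ofReal (Real.exp (c₁ * ∑ j ∈ Finset.range τ \ S, x j +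
      β * (Q.filter Bd).card)) ≤ ENNReal.ofReal (G₀ * (G * Real.exp c₁) ^ i) * R i t ∧
    ((τ = M ∧ M ≤ t + 1 ∧ (t < T ∨ T = 0)) ∨ (τ = M ∧ t < M ∧ T ≤ t + D) ∨
      (τ < T ∧ ¬ P τ ∧ (∀ j, τ ≤ j → j < T → ¬ Br τ j) ∧ τ ≤ M + D ∧
        ((τ = 0 ∧ i = 0 ∧ t = 0) ∨ (0 < τ ∧ t < τ ∧ τ ≤ t + D ∧ P (τ - 1)))))

section

variable {T D M : ℕ} {P : ℕ → Prop} {Br : ℕ → ℕ → Prop} {x : ℕ → ℝ} {Bd : ℕ → Prop}
  {c₁ β G G₀ : ℝ} {Y R : ℕ → ℕ → ℝ≥0∞} {w : ℕ → ℝ≥0∞} {Q S : Finset ℕ} {i t : ℕ}

/-- The chain has arrived. -/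
theorem stop (hM : M ≤ T) (hx : ∀ j, 0 ≤ x j) (hc : 0 ≤ c₁) (hβ : 0 ≤ β) (hw1 : ∀ j, 1 ≤ w j)
    (h : St T D M P x Bd c₁ β G G₀ R w Q S i t) (ht : M ≤ t + 1) :
    Con T D M P Br x Bd c₁ β G G₀ R := by
  classical
  obtain ⟨Qn, hQn⟩ : ∃ Qn, Qn = Q.filter (fun j => j + 1 < M) := ⟨_, rfl⟩
  have hQM : Q.card ≤ Qn.card + 1 := by
    rw [hQn]
    exact h.hQM
  obtain ⟨Sn, hSn⟩ : ∃ Sn, Sn = (insert t S).filter (fun j => j < M) := ⟨_, rfl⟩
  have hSc : Sn.card ≤ S.card + 1 := by
    rw [hSn]
    exact (Finset.card_filter_le _ _).trans (Finset.card_insert_le _ _)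
  refine ⟨Qn, Sn, M, i, t, hM, ?_, ?_, ?_, ?_, ?_, Or.inl ⟨rfl, ht, Or.inl h.lt⟩⟩
  · intro j hj
    rw [hQn, Finset.mem_filter] at hj
    exact ⟨hj.2, hj.2, (h.hQ j hj.1).2⟩
  · intro j hj
    rw [hSn, Finset.mem_filter, Finset.mem_insert] at hj
    refine ⟨hj.2, ?_⟩
    rcases hj.1 with h1 | h1
    · rw [h1]
      exact h.low
    · exact (h.hS j h1).2
  · have h1 := h.cS
    have h2 := h.hi
    have h3 : Q.card * D ≤ (Qn.card + 1) * D := Nat.mul_le_mul_right _ hQM
    nlinarith
  · have h2 := h.hi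
    omega
  · have h1 : c₁ * ∑ j ∈ Finset.range M \ Sn, x j + β * (Qn.filter Bd).card ≤
        c₁ * ∑ j ∈ Finset.range t \ S, x j + β * (Q.filter Bd).card := by
      refine add_le_add (mul_le_mul_of_nonneg_left ?_ hc) (mul_le_mul_of_nonneg_left ?_ hβ)
      · refine Finset.sum_le_sum_of_subset_of_nonneg ?_ (fun j _ _ => hx j)
        intro j hj
        rw [Finset.mem_sdiff, Finset.mem_range, hSn, Finset.mem_filter, Finset.mem_insert] at hj
        rw [Finset.mem_sdiff, Finset.mem_range]
        have h2 : j ≠ t := fun h3 => hj.2 ⟨Or.inl h3, hj.1⟩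
        exact ⟨by omega, fun h3 => hj.2 ⟨Or.inr h3, hj.1⟩⟩
      · have h2 : (Qn.filter Bd).card ≤ (Q.filter Bd).card := by
          refine Finset.card_le_card (Finset.filter_subset_filter _ ?_)
          rw [hQn]
          exact Finset.filter_subset _ _
        exact_mod_cast h2
    calc E (c₁ * ∑ j ∈ Finset.range M \ Sn, x j + β * (Qn.filter Bd).card)
        ≤ E (c₁ * ∑ j ∈ Finset.range t \ S, x j + β * (Q.filter Bd).card) := E_mono h1
      _ = E (c₁ * ∑ j ∈ Finset.range t \ S, x j + β * (Q.filter Bd).card) * 1 := by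
          rw [mul_one]
      _ ≤ E (c₁ * ∑ j ∈ Finset.range t \ S, x j + β * (Q.filter Bd).card) * w t := by
          gcongr
          exact hw1 t
      _ ≤ _ := h.ineq

/-- The alternatives two and three. -/
theorem out (hw1 : ∀ j, 1 ≤ w j)
    (h : St T D M P x Bd c₁ β G G₀ R w Q S i t) {σ : ℕ} (htσ : t ≤ σ)
    (hlow : ∀ j, t ≤ j → j < σ → P j) (hσ : σ ≤ t + D) (hσT : σ ≤ T)
    (hQ : ∀ j ∈ Q, j + 1 < M ∧ j + 1 < σ)
    (hend : (σ = M ∧ M ≤ t + 1 ∧ (t < T ∨ T = 0)) ∨ (σ = M ∧ t < M ∧ T ≤ t + D) ∨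
      (σ < T ∧ ¬ P σ ∧ (∀ j, σ ≤ j → j < T → ¬ Br σ j) ∧ σ ≤ M + D ∧
        ((σ = 0 ∧ i = 0 ∧ t = 0) ∨ (0 < σ ∧ t < σ ∧ σ ≤ t + D ∧ P (σ - 1))))) :
    Con T D M P Br x Bd c₁ β G G₀ R := by
  classical
  have hcard : (S ∪ Finset.Ico t σ).card ≤ S.card + (σ - t) := by
    refine (Finset.card_union_le _ _).trans ?_
    rw [Nat.card_Ico]
  refine ⟨Q, S ∪ Finset.Ico t σ, σ, i, t, hσT, ?_, ?_, ?_, ?_, ?_, hend⟩
  · intro j hj
    exact ⟨(hQ j hj).1, (hQ j hj).2, (h.hQ j hj).2⟩
  · intro j hj
    rw [Finset.mem_union, Finset.mem_Ico] at hj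
    rcases hj with h1 | h1
    · have h2 := h.hS j h1
      exact ⟨by omega, h2.2⟩
    · exact ⟨h1.2, hlow j h1.1 h1.2⟩
  · have h1 := h.cS
    have h2 := h.hi
    have h3 : σ - t ≤ D := by omega
    nlinarith
  · have h2 := h.hi
    omega
  · have h1 : Finset.range σ \ (S ∪ Finset.Ico t σ) = Finset.range t \ S := by
      ext j
      rw [Finset.mem_sdiff, Finset.mem_sdiff, Finset.mem_range, Finset.mem_range, Finset.mem_union,
        Finset.mem_Ico]
      constructor
      · rintro ⟨h2, h3⟩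
        refine ⟨?_, fun h4 => h3 (Or.inl h4)⟩
        by_contra h4
        exact h3 (Or.inr ⟨not_lt.mp h4, h2⟩)
      · rintro ⟨h2, h3⟩
        refine ⟨by omega, ?_⟩
        rintro (h4 | h4)
        · exact h3 h4
        · omega
    rw [h1]
    calc E (c₁ * ∑ j ∈ Finset.range t \ S, x j + β * (Q.filter Bd).card)
        = E (c₁ * ∑ j ∈ Finset.range t \ S, x j + β * (Q.filter Bd).card) * 1 := by
          rw [mul_one]
      _ ≤ E (c₁ * ∑ j ∈ Finset.range t \ S, x j + β * (Q.filter Bd).card) * w t := by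
          gcongr
          exact hw1 t
      _ ≤ _ := h.ineq

end

end TCFCP

open Classical in
/-- TC-FCP1. The greedy chain. `P j`: the cell `j` is low; `Br α j`: the cell `j` is a break for
the solution restarted at `α`; `w j` the weight of the bad event of the cell `j`. The chain is
stopped at the first break `t ≥ M - 1`. `Q` is a set of (last cells of the) low runs which are
followed by a closed piece, `S` a set of skipped low cells, `τ` the number of the cells covered:
`τ = M` (the chain arrives at `M`, or a low run leads to `T`), or `τ` is the beginning of a tail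
without breaks. The functional of a closed piece `[α,t]` controls the clock of the cells
`[α,t-1)` only: the cell `t - 1` is skipped if it is low, and otherwise its clock is at most `1`.

Proof. Call `(Q, S, i, t)` a state if `t < T`, `P t`, `j + 1 ≤ t`, `P j`, `¬ P (j + 1)` for `j ∈ Q`,
`j < t`, `P j` for `j ∈ S`, `S.card ≤ Q.card * D + i`, `i ≤ Q.card + 1`, all elements of `Q` except
possibly its largest one satisfy `j + 1 < M` (that is: `Q = ∅` or `Q = Q' ∪ {q}` with `j + 1 < M`
for `j ∈ Q'`), and `ofReal (exp (c₁ ∑ j ∈ range t \ S, x j + β * #(Q.filter Bd))) * w t ≤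
ofReal (G₀ * (G * exp c₁) ^ i) * R i t`.
*Start.* `M = 0` (in particular `T = 0`): `Q = S = ∅`, `i = t = τ = 0`, first alternative
(`exp 0 = 1 ≤ w 0 ≤ G₀ R 0 0`). Let `1 ≤ M`, so `0 < T`. If `P 0` then `(∅, ∅, 0, 0)` is a state
(`w 0 ≤ R 0 0`). If `¬ P 0` and there is `t < T` with `Br 0 t`, let `t` be the least one (`0 < t`
because `Br 0 0 → P 0`): `(∅, S, 1, t)` with `S = {t - 1}` if `P (t - 1)`, `S = ∅` otherwise, is a
state by `hfirst` and `hR1` (`x (t-1) ≤ 1` if `¬ P (t-1)`). If `¬ P 0` and no `t < T` is a break: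
third alternative with `τ = 0`, `Q = S = ∅`, `i = t = 0`.
*Step.* Given a state with `t < M - 1`, let `τ > t` be the least with `¬ P τ` or `τ = T`; all the
cells of `[t, τ)` are low, so `τ ≤ t + D` by `hD`. If `τ = T`: second alternative with `Q`,
`S ∪ [t, M)` (all its elements are low and `< M`; the sum over `range M \ (S ∪ [t, M))` is the sum
over `range t \ S`). If `τ < T` and no `j ∈ [τ, T)` has `Br τ j`: third alternative with
`S ∪ [t, τ)`. Otherwise let `t'` be the least `j ∈ [τ, T)` with `Br τ j`; `τ < t'` (`P t'`,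
`¬ P τ`). `(Q ∪ {τ - 1}, S ∪ [t, τ) ∪ ({t' - 1} if P (t' - 1)), i + 1, t')` is a state: the sum over
`range t' \ S_new` is at most the old one plus the sum over `[τ, t' - 1)` plus `1`; `#` increases
by `1` iff `Bd (τ - 1)`; by `hmid`, `hR` and
`exp (β 1_{Bd (τ-1)}) ≤ w t * (if t + 1 < τ then w (τ - 1) else 1)` (if `τ = t + 1` then
`w t = w (τ - 1)`; otherwise `1 ≤ w t`). The old `Q` has all its elements `< t < M - 1`.
*Stop.* At the first state with `M - 1 ≤ t` (if there is none the other alternatives occur,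
because `t` increases and `t < T`): first alternative with `Q.filter (j + 1 < M)` (at most one
element less) and `(S ∩ [0,M)) ∪ ({t} if t < M)`; `range M \ S_new ⊆ range t \ S`. (The sum and
the number of bad elements decrease; `x ≥ 0`, `c₁ ≥ 0`; `1 ≤ w t`.) The cardinality: at most
`Q.card * D + i + D + 1 ≤ (Q_new.card + 2) * (D + 1)`-like; check the constants. -/
theorem pat_comb2 {T D M : ℕ} (hM : M ≤ T) (P : ℕ → Prop) (Br : ℕ → ℕ → Prop) (x : ℕ → ℝ)
    (hx : ∀ j, 0 ≤ x j) (Bd : ℕ → Prop) {c₁ β G G₀ : ℝ} (hc : 0 ≤ c₁) (hβ : 0 ≤ β) (hG : 1 ≤ G)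
    (hG₀ : 1 ≤ G₀) (hD1 : 1 ≤ D) (Y R : ℕ → ℕ → ℝ≥0∞) (w : ℕ → ℝ≥0∞)
    (hw : ∀ j, w j = 1 + if Bd j then ENNReal.ofReal (Real.exp β) else 0)
    (hx1 : ∀ j, ¬ P j → x j ≤ 1) (hBr : ∀ α j, Br α j → P j) (hR0 : w 0 ≤ R 0 0)
    (hR1 : ∀ t, Y 0 t ≤ R 1 t)
    (hR : ∀ i s α t, s < α → α ≤ s + D → α < t →
      R i s * (if s + 1 < α then w (α - 1) else 1) * Y α (t - α) ≤ R (i + 1) t)
    (hfirst : ∀ t, 0 < t → t < T → ¬ P 0 → (∀ j < t, ¬ Br 0 j) → Br 0 t →
      ENNReal.ofReal (Real.exp (c₁ * ∑ j ∈ Finset.Ico 0 (t - 1), x j)) * w t ≤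
        ENNReal.ofReal G₀ * Y 0 t)
    (hmid : ∀ α t, 0 < α → α < t → t < T → P (α - 1) → ¬ P α →
      (∀ j, α ≤ j → j < t → ¬ Br α j) → Br α t →
      ENNReal.ofReal (Real.exp (c₁ * ∑ j ∈ Finset.Ico α (t - 1), x j)) * w t ≤
        ENNReal.ofReal G * Y α (t - α))
    (hD : ∀ s, s + D ≤ T → ∃ i < D, ¬ P (s + i)) :
    ∃ (Q S : Finset ℕ) (τ i t : ℕ), τ ≤ T ∧
      (∀ j ∈ Q, j + 1 < M ∧ j + 1 < τ ∧ P j ∧ ¬ P (j + 1)) ∧ (∀ j ∈ S, j < τ ∧ P j) ∧
      S.card ≤ (Q.card + 3) * (D + 1) ∧ i ≤ Q.card + 2 ∧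
      ENNReal.ofReal (Real.exp (c₁ * ∑ j ∈ Finset.range τ \ S, x j +
        β * (Q.filter Bd).card)) ≤ ENNReal.ofReal (G₀ * (G * Real.exp c₁) ^ i) * R i t ∧
      ((τ = M ∧ M ≤ t + 1 ∧ (t < T ∨ T = 0)) ∨ (τ = M ∧ t < M ∧ T ≤ t + D) ∨
        (τ < T ∧ ¬ P τ ∧ (∀ j, τ ≤ j → j < T → ¬ Br τ j) ∧ τ ≤ M + D ∧
          ((τ = 0 ∧ i = 0 ∧ t = 0) ∨ (0 < τ ∧ t < τ ∧ τ ≤ t + D ∧ P (τ - 1))))) := by
  classical
  have hw1 : ∀ j, 1 ≤ w j := fun j => by
    rw [hw]
    exact le_self_add
  have hwE : ∀ j, TCFCP.E (β * (if Bd j then 1 else 0)) ≤ w j := by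
    intro j
    rw [hw]
    split_ifs with h
    · rw [mul_one]
      exact le_add_self
    · rw [mul_zero, TCFCP.E_zero, add_zero]
  have hG0' : (0 : ℝ) ≤ G₀ := by linarith
  have hG' : (0 : ℝ) ≤ G := by linarith
  have h00 : (1 : ℝ≥0∞) ≤ ENNReal.ofReal G₀ := by
    rw [← ENNReal.ofReal_one]
    exact ENNReal.ofReal_le_ofReal hG₀
  have hw00 : w 0 ≤ ENNReal.ofReal (G₀ * (G * Real.exp c₁) ^ 0) * R 0 0 := by
    rw [pow_zero, mul_one]
    calc w 0 = 1 * w 0 := (one_mul _).symm
      _ ≤ ENNReal.ofReal G₀ * R 0 0 := mul_le_mul' h00 hR0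
  -- the run from a state
  have run : ∀ n : ℕ, ∀ (Q S : Finset ℕ) (i t : ℕ), T - t ≤ n →
      TCFCP.St T D M P x Bd c₁ β G G₀ R w Q S i t →
      TCFCP.Con T D M P Br x Bd c₁ β G G₀ R := by
    intro n
    induction n with
    | zero =>
      intro Q S i t hn h
      have := h.lt
      omega
    | succ n ih =>
      intro Q S i t hn h
      have htT := h.lt
      rcases Nat.lt_or_ge (t + 1) M with htM | htM
      · -- a step
        have hex : ∃ s, t < s ∧ (¬ P s ∨ s = T) := ⟨T, h.lt, Or.inr rfl⟩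
        obtain ⟨τ, hτ⟩ : ∃ τ, τ = Nat.find hex := ⟨_, rfl⟩
        have h1 : t < τ ∧ (¬ P τ ∨ τ = T) := by
          rw [hτ]
          exact Nat.find_spec hex
        have h2 : ∀ s, t < s → s < τ → P s ∧ s ≠ T := by
          intro s hs hs'
          rw [hτ] at hs'
          have h3 := Nat.find_min hex hs'
          push Not at h3
          exact h3 hs
        have hτT : τ ≤ T := by
          rw [hτ]
          exact Nat.find_min' hex ⟨h.lt, Or.inr rfl⟩
        have hlow : ∀ j, t ≤ j → j < τ → P j := by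
          intro j hj hj'
          rcases Nat.eq_or_lt_of_le hj with h3 | h3
          · rw [← h3]
            exact h.low
          · exact (h2 j h3 hj').1
        have hτD : τ ≤ t + D := by
          by_contra h3
          obtain ⟨k, hk, hk'⟩ := hD t (by omega)
          exact hk' (hlow _ (by omega) (by omega))
        have hQ1 : ∀ j ∈ Q, j + 1 < M ∧ j + 1 < τ := by
          intro j hj
          have := (h.hQ j hj).1
          omega
        rcases Nat.eq_or_lt_of_le hτT with h3 | h3
        · -- the low run leads to `T`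
          refine TCFCP.out hw1 h (σ := M) (by omega)
            (fun j hj hj' => hlow j hj (by omega)) (by omega) hM
            (fun j hj => ⟨(hQ1 j hj).1, (hQ1 j hj).1⟩)
            (Or.inr (Or.inl ⟨rfl, by omega, by omega⟩))
        · have hPτ : ¬ P τ := h1.2.resolve_right (by omega)
          by_cases hbr : ∃ j, τ ≤ j ∧ j < T ∧ Br τ j
          · -- the next state
            obtain ⟨t', ht'⟩ : ∃ t', t' = Nat.find hbr := ⟨_, rfl⟩
            have h4 : τ ≤ t' ∧ t' < T ∧ Br τ t' := by
              rw [ht']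
              exact Nat.find_spec hbr
            have h5 : ∀ j, τ ≤ j → j < t' → ¬ Br τ j := by
              intro j hj hj' hb
              rw [ht'] at hj'
              exact Nat.find_min hbr hj' ⟨hj, lt_trans (by rw [ht']; exact hj') h4.2.1, hb⟩
            have hPt' : P t' := hBr _ _ h4.2.2
            have h6 : τ < t' := by
              refine lt_of_le_of_ne h4.1 fun h7 => hPτ ?_
              rw [h7]
              exact hPt'
            have hQn : τ - 1 ∉ Q := fun h7 => by
              have := (h.hQ _ h7).1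
              omega
            obtain ⟨Z, hZ⟩ : ∃ Z : Finset ℕ, Z = if P (t' - 1) then {t' - 1} else ∅ := ⟨_, rfl⟩
            have hZ1 : Z.card ≤ 1 := by
              rw [hZ]
              split_ifs
              · exact (Finset.card_singleton _).le
              · rw [Finset.card_empty]
                exact Nat.zero_le _
            have hZ2 : ∀ j ∈ Z, j < t' ∧ P j := by
              intro j hj
              rw [hZ] at hj
              split_ifs at hj with h7
              · rw [Finset.mem_singleton] at hj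
                rw [hj]
                exact ⟨by omega, h7⟩
              · exact absurd hj (Finset.notMem_empty _)
            refine ih (insert (τ - 1) Q) (S ∪ Finset.Ico t τ ∪ Z) (i + 1) t' (by omega)
              { lt := h4.2.1
                low := hPt'
                hQ := ?_
                hQM := ?_
                hS := ?_
                cS := ?_
                hi := ?_
                ineq := ?_ }
            · intro j hj
              rw [Finset.mem_insert] at hj
              rcases hj with h7 | h7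
              · rw [h7]
                have h8 : τ - 1 + 1 = τ := by omega
                rw [h8]
                exact ⟨h4.1, hlow _ (by omega) (by omega), hPτ⟩
              · have h8 := h.hQ j h7
                exact ⟨by omega, h8.2⟩
            · have h7 : Q ⊆ (insert (τ - 1) Q).filter (fun j => j + 1 < M) := by
                intro j hj
                rw [Finset.mem_filter, Finset.mem_insert]
                exact ⟨Or.inr hj, (hQ1 j hj).1⟩
              have h8 := Finset.card_le_card h7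
              rw [Finset.card_insert_of_notMem hQn]
              omega
            · intro j hj
              rw [Finset.mem_union, Finset.mem_union, Finset.mem_Ico] at hj
              rcases hj with (h7 | h7) | h7
              · have h8 := h.hS j h7
                exact ⟨by omega, h8.2⟩
              · exact ⟨by omega, hlow j h7.1 h7.2⟩
              · exact hZ2 j h7
            · rw [Finset.card_insert_of_notMem hQn]
              have h7 : (S ∪ Finset.Ico t τ ∪ Z).card ≤ S.card + (τ - t) + 1 := by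
                refine (Finset.card_union_le _ _).trans ?_
                have h8 := Finset.card_union_le S (Finset.Ico t τ)
                rw [Nat.card_Ico] at h8
                omega
              have h8 := h.cS
              have h9 : τ - t ≤ D := by omega
              nlinarith
            · rw [Finset.card_insert_of_notMem hQn]
              have := h.hi
              omega
            · have hZ3 : t' - 1 ∈ S ∪ Finset.Ico t τ ∪ Z ∨ x (t' - 1) ≤ 1 := by
                by_cases h7 : P (t' - 1)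
                · left
                  rw [Finset.mem_union, hZ, if_pos h7, Finset.mem_singleton]
                  exact Or.inr rfl
                · exact Or.inr (hx1 _ h7)
              have hsum := TCFCP.sum_step hx (t := t) (τ := τ) (t' := t') (S := S)
                (S' := S ∪ Finset.Ico t τ ∪ Z) (fun j hj => Finset.mem_union_left _
                  (Finset.mem_union_left _ hj)) (fun j hj hj' => Finset.mem_union_left _
                  (Finset.mem_union_right _ (Finset.mem_Ico.mpr ⟨hj, hj'⟩))) hZ3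
              have hcard : (((insert (τ - 1) Q).filter Bd).card : ℝ) =
                  (Q.filter Bd).card + (if Bd (τ - 1) then 1 else 0) := by
                rw [Finset.filter_insert]
                split_ifs with h7
                · rw [Finset.card_insert_of_notMem (fun h8 => hQn (Finset.mem_filter.mp h8).1)]
                  push_cast
                  ring
                · rw [add_zero]
              have hb : TCFCP.E (β * (if Bd (τ - 1) then 1 else 0)) ≤
                  w t * (if t + 1 < τ then w (τ - 1) else 1) := by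
                by_cases h7 : t + 1 < τ
                · rw [if_pos h7]
                  calc _ ≤ w (τ - 1) := hwE _
                    _ = 1 * w (τ - 1) := (one_mul _).symm
                    _ ≤ w t * w (τ - 1) := mul_le_mul' (hw1 t) le_rfl
                · rw [if_neg h7, mul_one]
                  have h8 : τ - 1 = t := by omega
                  rw [h8]
                  exact hwE t
              have hm := hmid τ t' (by omega) h6 h4.2.1 (hlow _ (by omega) (by omega)) hPτ h5 h4.2.2
              have hr := hR i t τ t' h1.1 hτD h6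
              rw [pow_succ, ← mul_assoc]
              refine TCFCP.step_ineq hG' (by positivity) h.ineq hm hr hb ?_
              rw [hcard]
              have h7 := mul_le_mul_of_nonneg_left hsum hc
              linarith
          · -- a tail without breaks
            push Not at hbr
            refine TCFCP.out hw1 h (σ := τ) (by omega) hlow hτD hτT hQ1
              (Or.inr (Or.inr ⟨h3, hPτ, fun j hj hj' => hbr j hj hj', by omega,
                Or.inr ⟨by omega, h1.1, hτD, hlow _ (by omega) (by omega)⟩⟩))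
      · exact TCFCP.stop hM hx hc hβ hw1 h htM
  change TCFCP.Con T D M P Br x Bd c₁ β G G₀ R
  have hnil : ENNReal.ofReal (Real.exp (c₁ * ∑ j ∈ Finset.range 0 \ ∅, x j +
      β * ((∅ : Finset ℕ).filter Bd).card)) ≤
      ENNReal.ofReal (G₀ * (G * Real.exp c₁) ^ 0) * R 0 0 := by
    refine le_trans ?_ hw00
    simpa using hw1 0
  rcases Nat.eq_zero_or_pos M with hM0 | hM0
  · refine ⟨∅, ∅, 0, 0, 0, Nat.zero_le _, ?_, ?_, ?_, ?_, hnil,
      Or.inl ⟨hM0.symm, by omega, by omega⟩⟩
    · intro j hj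
      exact absurd hj (Finset.notMem_empty _)
    · intro j hj
      exact absurd hj (Finset.notMem_empty _)
    · rw [Finset.card_empty]
      exact Nat.zero_le _
    · exact Nat.zero_le _
  · by_cases hP0 : P 0
    · refine run T ∅ ∅ 0 0 (by omega)
        { lt := by omega
          low := hP0
          hQ := fun j hj => absurd hj (Finset.notMem_empty _)
          hQM := by rw [Finset.card_empty]; exact Nat.zero_le _
          hS := fun j hj => absurd hj (Finset.notMem_empty _)
          cS := by rw [Finset.card_empty]; exact Nat.zero_le _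
          hi := Nat.zero_le _
          ineq := ?_ }
      refine le_trans (le_of_eq ?_) hw00
      simp [TCFCP.E]
    · by_cases hbr : ∃ j, j < T ∧ Br 0 j
      · obtain ⟨t, ht⟩ : ∃ t, t = Nat.find hbr := ⟨_, rfl⟩
        have h4 : t < T ∧ Br 0 t := by
          rw [ht]
          exact Nat.find_spec hbr
        have h5 : ∀ j < t, ¬ Br 0 j := by
          intro j hj hb
          have hj' := hj
          rw [ht] at hj'
          exact Nat.find_min hbr hj' ⟨lt_trans hj h4.1, hb⟩
        have hPt : P t := hBr _ _ h4.2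
        have h6 : 0 < t := by
          refine Nat.pos_of_ne_zero fun h7 => hP0 ?_
          rw [← h7]
          exact hPt
        obtain ⟨Z, hZ⟩ : ∃ Z : Finset ℕ, Z = if P (t - 1) then {t - 1} else ∅ := ⟨_, rfl⟩
        have hZ1 : Z.card ≤ 1 := by
          rw [hZ]
          split_ifs
          · exact (Finset.card_singleton _).le
          · rw [Finset.card_empty]
            exact Nat.zero_le _
        have hZ2 : ∀ j ∈ Z, j < t ∧ P j := by
          intro j hj
          rw [hZ] at hj
          split_ifs at hj with h7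
          · rw [Finset.mem_singleton] at hj
            rw [hj]
            exact ⟨by omega, h7⟩
          · exact absurd hj (Finset.notMem_empty _)
        refine run T ∅ Z 1 t (by omega)
          { lt := h4.1
            low := hPt
            hQ := fun j hj => absurd hj (Finset.notMem_empty _)
            hQM := by rw [Finset.card_empty]; exact Nat.zero_le _
            hS := hZ2
            cS := by omega
            hi := by omega
            ineq := ?_ }
        have hZ3 : t - 1 ∈ Z ∨ x (t - 1) ≤ 1 := by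
          by_cases h7 : P (t - 1)
          · left
            rw [hZ, if_pos h7, Finset.mem_singleton]
          · exact Or.inr (hx1 _ h7)
        have hsum := TCFCP.sum_step hx (t := 0) (τ := 0) (t' := t) (S := ∅) (S' := Z)
          (Finset.empty_subset _) (fun j _ hj => absurd hj (Nat.not_lt_zero _)) hZ3
        refine TCFCP.first_ineq hG hG0' (hfirst t h6 h4.1 hP0 h5 h4.2) (hR1 t) ?_
        have h7 := mul_le_mul_of_nonneg_left hsum hc
        have h8 : ∑ j ∈ Finset.range 0 \ (∅ : Finset ℕ), x j = 0 := by simp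
        rw [h8] at h7
        have h9 : (((∅ : Finset ℕ).filter Bd).card : ℝ) = 0 := by simp
        rw [h9]
        linarith
      · push Not at hbr
        refine ⟨∅, ∅, 0, 0, 0, Nat.zero_le _, ?_, ?_, ?_, ?_, hnil,
          Or.inr (Or.inr ⟨by omega, hP0, fun j _ hj => hbr j hj, by omega,
            Or.inl ⟨rfl, rfl, rfl⟩⟩)⟩
        · intro j hj
          exact absurd hj (Finset.notMem_empty _)
        · intro j hj
          exact absurd hj (Finset.notMem_empty _)
        · rw [Finset.card_empty]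
          exact Nat.zero_le _
        · exact Nat.zero_le _

end

end Pool.Agent.SLE
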