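import Pool.Agent.Lib.MP_c17912_pr_TC.FCP

/-!
# MP_c17912_pr, project TC: the greedy chain of a fresh solution, combinatorial part
-/

set_option autoImplicit false

open MeasureTheory ProbabilityTheory Filter
open scoped NNReal ENNReal Topology Real

namespace Pool.Agent.SLE

noncomputable section

namespace TCFCPb

private theorem sum_union_le {x : ℕ → ℝ} (hx : ∀ j, 0 ≤ x j) (A B : Finset ℕ) :
    ∑ j ∈ A ∪ B, x j ≤ ∑ j ∈ A, x j + ∑ j ∈ B, x j := by
  have h1 := Finset.sum_union_inter (s₁ := A) (s₂ := B) (f := x)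
  have h2 : 0 ≤ ∑ j ∈ A ∩ B, x j := Finset.sum_nonneg fun j _ => hx j
  linarith

/-- The last cell is skipped if it is low. -/
private theorem ext {T τ : ℕ} (P : ℕ → Prop) {x : ℕ → ℝ} (hx : ∀ j, 0 ≤ x j)
    (hx1 : ∀ j, ¬ P j → x j ≤ 1) (hτ : τ < T) (S : Finset ℕ) (hS : ∀ j ∈ S, j < τ ∧ P j) :
    ∃ S' : Finset ℕ, (∀ j ∈ S', j < T ∧ P j) ∧ S'.card ≤ S.card + 1 ∧
      ∑ j ∈ Finset.range T \ S', x j ≤
        ∑ j ∈ Finset.range τ \ S, x j + ∑ j ∈ Finset.Ico τ (T - 1), x j + 1 := by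
  by_cases hP : P (T - 1)
  · refine ⟨insert (T - 1) S, fun j hj => ?_, Finset.card_insert_le _ _, ?_⟩
    · rcases Finset.mem_insert.1 hj with rfl | hj
      · exact ⟨by omega, hP⟩
      · exact ⟨(hS j hj).1.trans hτ, (hS j hj).2⟩
    · have hsub : Finset.range T \ insert (T - 1) S ⊆
          (Finset.range τ \ S) ∪ Finset.Ico τ (T - 1) := by
        intro j hj
        rw [Finset.mem_sdiff, Finset.mem_range, Finset.mem_insert, not_or] at hj
        rw [Finset.mem_union, Finset.mem_sdiff, Finset.mem_range, Finset.mem_Ico]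
        rcases lt_or_ge j τ with h | h
        · exact Or.inl ⟨h, hj.2.2⟩
        · exact Or.inr ⟨h, by omega⟩
      have h1 := Finset.sum_le_sum_of_subset_of_nonneg hsub fun j _ _ => hx j
      have h2 := sum_union_le hx (Finset.range τ \ S) (Finset.Ico τ (T - 1))
      linarith
  · refine ⟨S, fun j hj => ⟨(hS j hj).1.trans hτ, (hS j hj).2⟩, Nat.le_succ _, ?_⟩
    have hsub : Finset.range T \ S ⊆
        ((Finset.range τ \ S) ∪ Finset.Ico τ (T - 1)) ∪ {T - 1} := by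
      intro j hj
      rw [Finset.mem_sdiff, Finset.mem_range] at hj
      rw [Finset.mem_union, Finset.mem_union, Finset.mem_sdiff, Finset.mem_range,
        Finset.mem_Ico, Finset.mem_singleton]
      rcases lt_or_ge j τ with h | h
      · exact Or.inl (Or.inl ⟨h, hj.2⟩)
      · rcases lt_or_ge j (T - 1) with h' | h'
        · exact Or.inl (Or.inr ⟨h, h'⟩)
        · exact Or.inr (by omega)
    have h1 := Finset.sum_le_sum_of_subset_of_nonneg hsub fun j _ _ => hx j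
    have h2 := sum_union_le hx ((Finset.range τ \ S) ∪ Finset.Ico τ (T - 1)) {T - 1}
    have h3 := sum_union_le hx (Finset.range τ \ S) (Finset.Ico τ (T - 1))
    rw [Finset.sum_singleton] at h2
    have h4 := hx1 _ hP
    linarith

end TCFCPb

open Classical in
/-- TC-FCP2. The greedy chain of a solution which is fresh at its end: the last piece is closed at
`T`.

Proof. Take `Q, S, τ, i, t` from `pat_comb2` with `M = T`. First two alternatives: `τ = T`, done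
(`G₀ ≤ G₀ ^ 2`). Third alternative with `τ = 0`, `i = 0`, `t = 0`: then `Q = S = ∅`, and `hall`,
`hR1` give the conclusion with `i = 1`, `t = T` (`¬ P 0`, no break before `T`, `0 < T`;
`S_new = {T - 1}` if `P (T - 1)`, otherwise `x (T-1) ≤ 1`; `1 ≤ w T`). Third
alternative with `0 < τ`: `hlast` and `hR` (with `s = t`, `α = τ`, `t = T`) give the conclusion
with `Q ∪ {τ - 1}`, `S` (and `T - 1` if it is low), `i + 1`, `t = T`: the sum over `range T \ S_new`
is at most the sum over `range τ \ S` plus the sum over `[τ, T-1)` plus `1`; `(τ - 1) + 1 = τ < T`;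
`τ - 1 ∉ Q` because `j + 1 < τ` for `j ∈ Q`. For this one needs the state form
`ofReal (exp ..) * w t ≤ ofReal (..) * R i t` at the last break `t` (the weight of the exit cell
`τ - 1`, which may be the cell `t`); `pat_comb2` states it without `w t`, so either prove
`pat_comb2` in a stronger form (auxiliary lemma in FCP with the factor `w t` on the left in the
third alternative), or do not add `τ - 1` to `Q` (then `i + 1 ≤ Q.card + 3`): this is what is
claimed here. -/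
theorem pat_comb3 {T D : ℕ} (P : ℕ → Prop) (Br : ℕ → ℕ → Prop) (x : ℕ → ℝ)
    (hx : ∀ j, 0 ≤ x j) (Bd : ℕ → Prop) {c₁ β G G₀ : ℝ} (hc : 0 ≤ c₁) (hβ : 0 ≤ β) (hG : 1 ≤ G)
    (hG₀ : 1 ≤ G₀) (hD1 : 1 ≤ D) (Y R : ℕ → ℕ → ℝ≥0∞) (w : ℕ → ℝ≥0∞)
    (hw : ∀ j, w j = 1 + if Bd j then ENNReal.ofReal (Real.exp β) else 0)
    (hx1 : ∀ j, ¬ P j → x j ≤ 1) (hBr : ∀ α j, Br α j → P j) (hR0 : w 0 ≤ R 0 0)
    (hR1 : ∀ t, Y 0 t ≤ R 1 t)
    (hR : ∀ i s α t, s < α → α ≤ s + D → α < t →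
      R i s * (if s + 1 < α then w (α - 1) else 1) * Y α (t - α) ≤ R (i + 1) t)
    (hfirst : ∀ t, 0 < t → t < T → ¬ P 0 → (∀ j < t, ¬ Br 0 j) → Br 0 t →
      ENNReal.ofReal (Real.exp (c₁ * ∑ j ∈ Finset.Ico 0 (t - 1), x j)) * w t ≤
        ENNReal.ofReal G₀ * Y 0 t)
    (hmid : ∀ α t, 0 < α → α < t → t < T → P (α - 1) → ¬ P α →
      (∀ j, α ≤ j → j < t → ¬ Br α j) → Br α t →
      ENNReal.ofReal (Real.exp (c₁ * ∑ j ∈ Finset.Ico α (t - 1), x j)) * w t ≤
        ENNReal.ofReal G * Y α (t - α))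
    (hlast : ∀ α, 0 < α → α < T → P (α - 1) → ¬ P α → (∀ j, α ≤ j → j < T → ¬ Br α j) →
      ENNReal.ofReal (Real.exp (c₁ * ∑ j ∈ Finset.Ico α (T - 1), x j)) * w T ≤
        ENNReal.ofReal G₀ * Y α (T - α))
    (hall : 0 < T → ¬ P 0 → (∀ j < T, ¬ Br 0 j) →
      ENNReal.ofReal (Real.exp (c₁ * ∑ j ∈ Finset.Ico 0 (T - 1), x j)) * w T ≤
        ENNReal.ofReal (G₀ ^ 2) * Y 0 T)
    (hD : ∀ s, s + D ≤ T → ∃ i < D, ¬ P (s + i)) :
    ∃ (Q S : Finset ℕ) (i t : ℕ),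
      (∀ j ∈ Q, j + 1 < T ∧ P j ∧ ¬ P (j + 1)) ∧ (∀ j ∈ S, j < T ∧ P j) ∧
      S.card ≤ (Q.card + 4) * (D + 1) ∧ i ≤ Q.card + 3 ∧
      ENNReal.ofReal (Real.exp (c₁ * ∑ j ∈ Finset.range T \ S, x j +
        β * (Q.filter Bd).card)) ≤ ENNReal.ofReal (G₀ ^ 2 * (G * Real.exp c₁) ^ i) * R i t := by
  have hGe : 0 ≤ G * Real.exp c₁ := mul_nonneg (by linarith) (Real.exp_pos _).le
  have hG₀0 : 0 ≤ G₀ := by linarith
  have hG₀2 : G₀ ≤ G₀ ^ 2 := le_self_pow₀ hG₀ two_ne_zero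
  have hw1 : ∀ j, 1 ≤ w j := fun j => by
    rw [hw j]
    exact le_self_add
  obtain ⟨Q, S, τ, i, t, hτT, hQ, hS, hSc, hi, hE, halt⟩ := pat_comb2 (M := T) le_rfl P Br x hx
    Bd hc hβ hG hG₀ hD1 Y R w hw hx1 hBr hR0 hR1 hR hfirst hmid hD
  have hQ' : ∀ j ∈ Q, j + 1 < T ∧ P j ∧ ¬ P (j + 1) := fun j hj =>
    ⟨(hQ j hj).1, (hQ j hj).2.2⟩
  have easy : τ = T → ∃ (Q S : Finset ℕ) (i t : ℕ),
      (∀ j ∈ Q, j + 1 < T ∧ P j ∧ ¬ P (j + 1)) ∧ (∀ j ∈ S, j < T ∧ P j) ∧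
      S.card ≤ (Q.card + 4) * (D + 1) ∧ i ≤ Q.card + 3 ∧
      ENNReal.ofReal (Real.exp (c₁ * ∑ j ∈ Finset.range T \ S, x j +
        β * (Q.filter Bd).card)) ≤ ENNReal.ofReal (G₀ ^ 2 * (G * Real.exp c₁) ^ i) * R i t := by
    intro hτ
    subst hτ
    refine ⟨Q, S, i, t, hQ', hS, hSc.trans (Nat.mul_le_mul_right _ (by omega)), by omega,
      hE.trans ?_⟩
    gcongr
  rcases halt with ⟨hτ, -, -⟩ | ⟨hτ, -, -⟩ | ⟨hτ, hPτ, hnb, -, hC⟩
  · exact easy hτ
  · exact easy hτ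
  obtain ⟨S', hS', hSc', hsum⟩ := TCFCPb.ext P hx hx1 hτ S hS
  have hT0 : 0 < T := by omega
  obtain ⟨σ, hσ⟩ : ∃ σ, σ = ∑ j ∈ Finset.range τ \ S, x j := ⟨_, rfl⟩
  obtain ⟨σ', hσ'⟩ : ∃ σ', σ' = ∑ j ∈ Finset.Ico τ (T - 1), x j := ⟨_, rfl⟩
  obtain ⟨σ₁, hσ₁⟩ : ∃ σ₁, σ₁ = ∑ j ∈ Finset.range T \ S', x j := ⟨_, rfl⟩
  rw [← hσ, ← hσ', ← hσ₁] at hsum
  have hexp : Real.exp (c₁ * σ₁ + β * (Q.filter Bd).card) ≤
      Real.exp (c₁ * σ + β * (Q.filter Bd).card) * Real.exp (c₁ * σ') * Real.exp c₁ := by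
    rw [← Real.exp_add, ← Real.exp_add, Real.exp_le_exp]
    have := mul_le_mul_of_nonneg_left hsum hc
    nlinarith
  have hSc'' : S'.card ≤ (Q.card + 4) * (D + 1) := by
    have e : (Q.card + 4) * (D + 1) = (Q.card + 3) * (D + 1) + (D + 1) := by ring
    omega
  rcases hC with ⟨h0, hi0, ht0⟩ | ⟨h0, htτ, hτt, hPτ'⟩
  · -- no piece before
    subst h0 hi0 ht0
    have hQe : Q = ∅ := by
      rw [Finset.eq_empty_iff_forall_notMem]
      intro j hj
      have := (hQ j hj).2.1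
      omega
    have hσ0 : σ = 0 := by rw [hσ]; simp
    have h1 := hall hT0 hPτ fun j hj => hnb j (Nat.zero_le j) hj
    rw [← hσ'] at h1
    refine ⟨Q, S', 1, T, hQ', hS', hSc'', by omega, ?_⟩
    rw [← hσ₁]
    calc ENNReal.ofReal (Real.exp (c₁ * σ₁ + β * (Q.filter Bd).card))
        ≤ ENNReal.ofReal (Real.exp (c₁ * σ + β * (Q.filter Bd).card) * Real.exp (c₁ * σ') *
          Real.exp c₁) := ENNReal.ofReal_le_ofReal hexp
      _ = ENNReal.ofReal (Real.exp (c₁ * σ')) * 1 * ENNReal.ofReal (Real.exp c₁) := by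
          rw [hQe, hσ0, Finset.filter_empty, Finset.card_empty, Nat.cast_zero, mul_zero, mul_zero,
            add_zero, Real.exp_zero, one_mul, mul_one, ENNReal.ofReal_mul (Real.exp_pos _).le]
      _ ≤ ENNReal.ofReal (Real.exp (c₁ * σ')) * w T * ENNReal.ofReal (Real.exp c₁) := by
          gcongr
          exact hw1 T
      _ ≤ ENNReal.ofReal (G₀ ^ 2) * Y 0 T * ENNReal.ofReal (Real.exp c₁) := by gcongr
      _ ≤ ENNReal.ofReal (G₀ ^ 2) * R 1 T * ENNReal.ofReal (G * Real.exp c₁) := by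
          gcongr
          · exact hR1 T
          · exact le_mul_of_one_le_left (Real.exp_pos _).le hG
      _ = ENNReal.ofReal (G₀ ^ 2 * (G * Real.exp c₁) ^ 1) * R 1 T := by
          rw [pow_one, ENNReal.ofReal_mul (p := G₀ ^ 2) (by positivity)]
          ring
  · -- the last piece
    have h1 := hlast τ h0 hτ hPτ' hPτ hnb
    rw [← hσ'] at h1
    have h2 := hR i t τ T htτ hτt hτ
    have h3 : R i t * Y τ (T - τ) ≤ R (i + 1) T := by
      refine le_trans ?_ h2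
      have h4 : (1 : ℝ≥0∞) ≤ if t + 1 < τ then w (τ - 1) else 1 := by
        split_ifs
        · exact hw1 _
        · exact le_rfl
      calc R i t * Y τ (T - τ) = R i t * 1 * Y τ (T - τ) := by rw [mul_one]
        _ ≤ _ := by gcongr
    refine ⟨Q, S', i + 1, T, hQ', hS', hSc'', by omega, ?_⟩
    rw [← hσ₁]
    calc ENNReal.ofReal (Real.exp (c₁ * σ₁ + β * (Q.filter Bd).card))
        ≤ ENNReal.ofReal (Real.exp (c₁ * σ + β * (Q.filter Bd).card) * Real.exp (c₁ * σ') *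
          Real.exp c₁) := ENNReal.ofReal_le_ofReal hexp
      _ = ENNReal.ofReal (Real.exp (c₁ * σ + β * (Q.filter Bd).card)) *
          (ENNReal.ofReal (Real.exp (c₁ * σ')) * 1) * ENNReal.ofReal (Real.exp c₁) := by
          rw [mul_one, ENNReal.ofReal_mul (by positivity), ENNReal.ofReal_mul (by positivity)]
      _ ≤ ENNReal.ofReal (Real.exp (c₁ * σ + β * (Q.filter Bd).card)) *
          (ENNReal.ofReal (Real.exp (c₁ * σ')) * w T) * ENNReal.ofReal (G * Real.exp c₁) := by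
          gcongr
          · exact hw1 T
          · exact le_mul_of_one_le_left (Real.exp_pos _).le hG
      _ ≤ (ENNReal.ofReal (G₀ * (G * Real.exp c₁) ^ i) * R i t) *
          (ENNReal.ofReal G₀ * Y τ (T - τ)) * ENNReal.ofReal (G * Real.exp c₁) := by
          rw [hσ]
          gcongr
      _ = ENNReal.ofReal (G₀ ^ 2 * (G * Real.exp c₁) ^ (i + 1)) * (R i t * Y τ (T - τ)) := by
          have e : G₀ ^ 2 * (G * Real.exp c₁) ^ (i + 1) =
              G₀ * (G * Real.exp c₁) ^ i * G₀ * (G * Real.exp c₁) := by ring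
          have e' : ENNReal.ofReal (G₀ * (G * Real.exp c₁) ^ i * G₀ * (G * Real.exp c₁)) =
              ENNReal.ofReal (G₀ * (G * Real.exp c₁) ^ i) * ENNReal.ofReal G₀ *
                ENNReal.ofReal (G * Real.exp c₁) := by
            rw [ENNReal.ofReal_mul (p := G₀ * (G * Real.exp c₁) ^ i * G₀) (by positivity),
              ENNReal.ofReal_mul (p := G₀ * (G * Real.exp c₁) ^ i) (by positivity)]
          rw [e, e']
          ring
      _ ≤ _ := by gcongr

end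

end Pool.Agent.SLE
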