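import Pool.Agent.Lib.MP_c17912_pr_TC.FCPb
import Pool.Agent.Lib.MP_c17912_pr_TC.FCCb
import Pool.Agent.Lib.MP_c17912_pr_TC.FCCc
import Pool.Agent.Lib.MP_c17912_pr_TC.FCAb
import Pool.Agent.Lib.MP_c17912_pr_TC.FCAc

/-!
# MP_c17912_pr, project TC: the chain of a solution at the scale 1, functional form
-/

set_option autoImplicit false

open MeasureTheory ProbabilityTheory Filter
open scoped NNReal ENNReal Topology Real

namespace Pool.Agent.SLE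

noncomputable section

namespace TCFCS

/-- The weighted sum of a double sequence. -/
def wS (D : ℕ) (f : ℕ → ℕ → ℝ≥0∞) (t : ℕ) : ℝ≥0∞ :=
  ENNReal.ofReal (1 / 6) * ∑' i, ENNReal.ofReal ((1 / (4 * (D : ℝ) + 2)) ^ i) * f i t

theorem wS_sum {D : ℕ} {f : ℕ → ℕ → ℝ≥0∞}
    (h : ∀ i, ∑' t, f i t ≤ ENNReal.ofReal (3 * (2 * D + 1) ^ i)) : ∑' t, wS D f t ≤ 1 := by
  unfold wS
  rw [ENNReal.tsum_mul_left, ENNReal.tsum_comm]
  have h1 : ∀ i, ∑' t, ENNReal.ofReal ((1 / (4 * (D : ℝ) + 2)) ^ i) * f i t ≤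
      ENNReal.ofReal (3 * (1 / 2) ^ i) := by
    intro i
    rw [ENNReal.tsum_mul_left]
    refine (mul_le_mul_right (h i) _).trans (le_of_eq ?_)
    rw [← ENNReal.ofReal_mul (by positivity)]
    congr 1
    have e : (1 : ℝ) / 2 = 1 / (4 * (D : ℝ) + 2) * (2 * D + 1) := by
      have : (4 * (D : ℝ) + 2) ≠ 0 := by positivity
      field_simp
      ring
    rw [e, mul_pow]
    ring
  refine (mul_le_mul_right (ENNReal.tsum_le_tsum h1) _).trans ?_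
  rw [← ENNReal.ofReal_tsum_of_nonneg (fun i => by positivity)
    (summable_geometric_two.mul_left 3), tsum_mul_left, tsum_geometric_two,
    ← ENNReal.ofReal_mul (by norm_num)]
  norm_num

theorem wS_le {D : ℕ} (f : ℕ → ℕ → ℝ≥0∞) (i t : ℕ) :
    f i t ≤ ENNReal.ofReal (6 * (4 * D + 2) ^ i) * wS D f t := by
  have h1 : ENNReal.ofReal ((1 / (4 * (D : ℝ) + 2)) ^ i) * f i t ≤
      ∑' i, ENNReal.ofReal ((1 / (4 * (D : ℝ) + 2)) ^ i) * f i t :=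
    ENNReal.le_tsum (f := fun i => ENNReal.ofReal ((1 / (4 * (D : ℝ) + 2)) ^ i) * f i t) i
  have h2 := mul_le_mul_right (mul_le_mul_right h1 (ENNReal.ofReal (1 / 6)))
    (ENNReal.ofReal (6 * (4 * D + 2) ^ i))
  unfold wS
  refine le_trans (le_of_eq ?_) h2
  rw [← mul_assoc, ← mul_assoc, ← ENNReal.ofReal_mul (by positivity),
    ← ENNReal.ofReal_mul (by positivity)]
  have e : 6 * (4 * (D : ℝ) + 2) ^ i * (1 / 6) * (1 / (4 * (D : ℝ) + 2)) ^ i = 1 := by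
    have h3 : (4 * (D : ℝ) + 2) ≠ 0 := by positivity
    have h4 : (4 * (D : ℝ) + 2) ^ i * (1 / (4 * (D : ℝ) + 2)) ^ i = 1 := by
      rw [← mul_pow, mul_one_div_cancel h3, one_pow]
    linarith
  rw [e, ENNReal.ofReal_one, one_mul]

theorem comb {A B : ℝ} (hA : 0 ≤ A) {D i t : ℕ} {f : ℕ → ℕ → ℝ≥0∞}
    (h : A * (6 * (4 * D + 2) ^ i) ≤ B) :
    ENNReal.ofReal A * f i t ≤ ENNReal.ofReal B * wS D f t := by
  refine (mul_le_mul_right (wS_le (D := D) f i t) _).trans ?_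
  rw [← mul_assoc, ← ENNReal.ofReal_mul hA]
  exact mul_le_mul_left (ENNReal.ofReal_le_ofReal h) _

variable {Ω : Type*} [MeasurableSpace Ω] {μ : Measure Ω}

theorem wS_meas {D : ℕ} {F : ℕ → ℕ → Ω → ℝ≥0∞} (hF : ∀ i t, Measurable (F i t)) (t : ℕ) :
    Measurable fun ω => wS D (fun i t => F i t ω) t := by
  unfold wS
  exact (Measurable.tsum fun i => (hF i t).const_mul _).const_mul _

theorem wS_int {D : ℕ} {F : ℕ → ℕ → Ω → ℝ≥0∞} {f : ℕ → ℕ → ℝ≥0∞}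
    (hF : ∀ i t, Measurable (F i t)) (h : ∀ i t, ∫⁻ ω, F i t ω ∂μ ≤ f i t) (t : ℕ) :
    ∫⁻ ω, wS D (fun i t => F i t ω) t ∂μ ≤ wS D f t := by
  unfold wS
  rw [lintegral_const_mul _ (Measurable.tsum fun i => (hF i t).const_mul _),
    lintegral_tsum (fun i => ((hF i t).const_mul _).aemeasurable)]
  refine mul_le_mul_right (ENNReal.tsum_le_tsum fun i => ?_) _
  rw [lintegral_const_mul _ (hF i t)]
  exact mul_le_mul_right (h i t) _

theorem ck_nonneg (U g : ℝ → ℂ) (j : ℕ) : 0 ≤ ck U g 1 j := by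
  unfold ck lk
  refine intervalIntegral.integral_nonneg ?_ fun u _ => by positivity
  rw [one_pow, mul_one, mul_one]
  linarith

theorem ck_le_one {U : ℝ → ℂ} (hU : Continuous U) {z : ℂ} {T : ℝ} {g : ℝ → ℂ}
    (hg : Sol U z T g) {j : ℕ} (hj : (j : ℝ) + 1 ≤ T) (hn : ¬ low U g 1 j) :
    ck U g 1 j ≤ 1 := by
  unfold ck lk
  rw [one_pow, mul_one, mul_one]
  have h1 : ∫ u in (j : ℝ)..((j : ℝ) + 1), 1 / ‖g u - U u‖ ^ 2 ≤
      ∫ u in (j : ℝ)..((j : ℝ) + 1), (1 : ℝ) := by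
    refine intervalIntegral.integral_mono_on (by linarith)
      (TRPAT.cont_int hU hg (Nat.cast_nonneg j) (by linarith) hj) intervalIntegrable_const ?_
    intro v hv
    have h2 : 1 ≤ ‖g v - U v‖ := by
      by_contra h
      exact hn ⟨v, by rw [one_pow, mul_one, mul_one]; exact hv, (not_le.1 h).le⟩
    rw [div_le_one (by positivity)]
    exact one_le_pow₀ h2
  rw [intervalIntegral.integral_const] at h1
  simpa using h1

theorem osc2 {U : ℝ → ℂ} {m : ℝ} {T t : ℕ} (hosc : Osc U 1 m T) (ht : 1 ≤ t) (htT : t < T)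
    {u' : ℝ} (hu' : u' ∈ Set.Icc (t : ℝ) (t + 1)) :
    ∀ v ∈ Set.Icc ((t : ℝ) - 1) u', ‖U v - U u'‖ ≤ 2 * m := by
  intro v hv
  have hc : ((t - 1 : ℕ) : ℝ) = (t : ℝ) - 1 := by
    rw [Nat.cast_sub ht, Nat.cast_one]
  have h1 := hosc t htT
  have h2 := hosc (t - 1) (by omega)
  rw [one_pow, mul_one, mul_one] at h1 h2
  rw [hc, sub_add_cancel] at h2
  rcases le_total (t : ℝ) v with h | h
  · have h3 := h1 v ⟨h, hv.2.trans hu'.2⟩ u' hu'
    have h4 := norm_nonneg (U v - U u')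
    linarith
  · have h3 := h2 v ⟨hv.1, h⟩ t ⟨by linarith, le_rfl⟩
    have h4 := h1 t ⟨le_rfl, by linarith⟩ u' hu'
    have h5 : ‖U v - U u'‖ ≤ ‖U v - U t‖ + ‖U t - U u'‖ := norm_sub_le_norm_sub_add_norm_sub _ _ _
    linarith

omit [MeasurableSpace Ω] in
/-- The bound for a piece which ends at a break. -/
theorem mid_piece {W : ℝ → Ω → ℂ} {ω : Ω} (hU : Continuous fun t => W t ω)
    {Cs c₁ β ε d : ℝ} {p : ℕ} {Bd : ℕ → Set Ω} {Y : ℕ → Ω → ℝ≥0∞} {α t T : ℕ}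
    (hY : PieceP Cs c₁ ε d p (subP W α 1) (fun t => bw β (Bd (α + t))) Y)
    {z : ℂ} {u m : ℝ} {g : ℝ → ℂ} (hg : Sol (fun t => W t ω) z u g) (hTu : (T : ℝ) ≤ u)
    (hosc : Osc (fun t => W t ω) 1 m T) (hm : 1 ≤ m) (hαt : α < t) (htT : t < T)
    (hn : ¬ low (fun t => W t ω) g 1 α)
    (hno : ∀ j, α ≤ j → j < t → ¬ brk (fun t => W t ω) g ε d 1 α j)
    (hbr : brk (fun t => W t ω) g ε d 1 α t) {s B : ℝ} (hs : 1 ≤ s)
    (hZα : ‖g α - W α ω‖ ≤ s) (hB : Cs * (s * (4 * m + 5)) ^ p ≤ B) :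
    ENNReal.ofReal (Real.exp (c₁ * ∑ j ∈ Finset.Ico α (t - 1), ck (fun t => W t ω) g 1 j)) *
      bw β (Bd t) ω ≤ ENNReal.ofReal B * Y (t - α) ω := by
  have htT' : (t : ℝ) + 1 ≤ T := by exact_mod_cast htT
  have ht0 : 1 ≤ t := by omega
  have ht1 : (1 : ℝ) ≤ t := by exact_mod_cast ht0
  obtain ⟨u', hu', hu1, hf, h1⟩ := first_brk hU hg hαt.le (by linarith) hno hbr
  have hzt : ∀ v ∈ Set.Icc ((t : ℝ) - 1) u', ‖g v - W v ω‖ ≤ 4 * m + 5 := by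
    intro v hv
    have h2 := back_bound hU hg (s := (t : ℝ) - 1) (t := u') (by linarith)
      (by linarith [hu'.1]) (by linarith [hu'.2]) le_rfl hu1 (osc2 hosc ht0 htT hu') v hv
    have h3 := hu'.2
    linarith
  have h3 := piece_app hU hY hg hαt hu'.1 hu'.2 (by linarith [hu'.2]) hn hs (by linarith) hZα
    hzt hf h1 hB
  have e : α + (t - α) = t := by omega
  simpa only [e] using h3

omit [MeasurableSpace Ω] in
/-- The bound for the last piece of a fresh solution. -/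
theorem end_piece {W : ℝ → Ω → ℂ} {ω : Ω} (hU : Continuous fun t => W t ω)
    {Cs c₁ β ε d : ℝ} {p : ℕ} {Bd : ℕ → Set Ω} {Y : ℕ → Ω → ℝ≥0∞} {α T : ℕ}
    (hY : PieceP Cs c₁ ε d p (subP W α 1) (fun t => bw β (Bd (α + t))) Y)
    {z : ℂ} {u m m₀ : ℝ} {g : ℝ → ℂ} (hg : Sol (fun t => W t ω) z u g) (hTu : (T : ℝ) ≤ u)
    (huT : u ≤ T + 1) (hosc : Osc (fun t => W t ω) 1 m (T + 1)) (hm : 1 ≤ m) (hm₀ : m ≤ m₀)
    (hαT : α < T) (hn : ¬ low (fun t => W t ω) g 1 α)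
    (hno : ∀ j, α ≤ j → j < T → ¬ brk (fun t => W t ω) g ε d 1 α j) (hd : 0 ≤ d)
    (hf : fresh (fun t => W t ω) g ε d u) (hZu : ‖g u - W u ω‖ ≤ m₀) {s B : ℝ} (hs : 1 ≤ s)
    (hZα : ‖g α - W α ω‖ ≤ s) (hB : Cs * (s * (9 * m₀)) ^ p ≤ B) :
    ENNReal.ofReal (Real.exp (c₁ * ∑ j ∈ Finset.Ico α (T - 1), ck (fun t => W t ω) g 1 j)) *
      bw β (Bd T) ω ≤ ENNReal.ofReal B * Y (T - α) ω := by
  have ht0 : 1 ≤ T := by omega
  have ht1 : (1 : ℝ) ≤ T := by exact_mod_cast ht0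
  obtain ⟨u', hu', hf', h1⟩ := first_brk_end hU hg hαT.le hTu huT hno hd hf
  have hzt : ∀ v ∈ Set.Icc ((T : ℝ) - 1) u', ‖g v - W v ω‖ ≤ 9 * m₀ := by
    intro v hv
    have h2 := back_bound hU hg (s := (T : ℝ) - 1) (t := u) (by linarith)
      (by linarith) le_rfl (hm.trans hm₀) hZu
      (osc2 hosc ht0 (Nat.lt_succ_self T) ⟨hTu, huT⟩) v ⟨hv.1, hv.2.trans hu'.2⟩
    linarith
  have h3 := piece_app hU hY hg hαT hu'.1 (hu'.2.trans huT) hu'.2 hn hs (by linarith) hZα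
    hzt hf' h1 hB
  have e : α + (T - α) = T := by omega
  simpa only [e] using h3

/-- The constants. -/
theorem numb {Cs c₁ m m₀ C : ℝ} {p D i q : ℕ} (hCs : 1 ≤ Cs) (hc₁ : 0 < c₁) (hm : 1 ≤ m)
    (hm₀ : 1 ≤ m₀) (hD : 1 ≤ D) (hi : i ≤ q + 3)
    (hC : C = 1 + c₁ + 2 * Real.log Cs + p * Real.log 36 + 6 * p + 4 * (p * Real.log 10) +
      Real.log 6) :
    (Cs * ((10 * m₀) ^ 2) ^ p) ^ 2 *
      (Cs * ((m + 3) * (4 * m + 5)) ^ p * Real.exp c₁) ^ i * (6 * (4 * (D : ℝ) + 2) ^ i) ≤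
      Real.exp (((q : ℝ) + 4) * (C * (Real.log m + Real.log D + 1)) + C * Real.log m₀) := by
  have l1 : 0 ≤ Real.log Cs := Real.log_nonneg hCs
  have l2 : 0 ≤ Real.log 36 := Real.log_nonneg (by norm_num)
  have l3 : 0 ≤ Real.log 10 := Real.log_nonneg (by norm_num)
  have l4 : 0 ≤ Real.log 6 := Real.log_nonneg (by norm_num)
  have hp0 : (0 : ℝ) ≤ p := Nat.cast_nonneg p
  have l6 : 0 ≤ p * Real.log 36 := mul_nonneg hp0 l2
  have l7 : 0 ≤ p * Real.log 10 := mul_nonneg hp0 l3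
  have hD1 : (1 : ℝ) ≤ D := by exact_mod_cast hD
  have hCs0 : 0 < Cs := by linarith
  have lm : 0 ≤ Real.log m := Real.log_nonneg hm
  have lm₀ : 0 ≤ Real.log m₀ := Real.log_nonneg hm₀
  have lD : 0 ≤ Real.log D := Real.log_nonneg hD1
  obtain ⟨G, hG⟩ : ∃ G, G = Cs * ((m + 3) * (4 * m + 5)) ^ p := ⟨_, rfl⟩
  obtain ⟨G₀, hG₀⟩ : ∃ G₀, G₀ = Cs * ((10 * m₀) ^ 2) ^ p := ⟨_, rfl⟩
  rw [← hG, ← hG₀]
  have hG0 : 0 < G := by
    rw [hG]
    positivity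
  have hG1 : 1 ≤ G := by
    rw [hG]
    refine one_le_mul_of_one_le_of_one_le hCs (one_le_pow₀ ?_)
    nlinarith
  have hG₀0 : 0 < G₀ := by
    rw [hG₀]
    positivity
  have e1 : Real.log G ≤ Real.log Cs + p * (Real.log 36 + 2 * Real.log m) := by
    have h1 : G ≤ Cs * (36 * m ^ 2) ^ p := by
      rw [hG]
      refine mul_le_mul_of_nonneg_left (pow_le_pow_left₀ (by positivity) ?_ p) hCs0.le
      nlinarith
    refine (Real.log_le_log hG0 h1).trans_eq ?_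
    rw [Real.log_mul (by positivity) (by positivity), Real.log_pow,
      Real.log_mul (by norm_num) (by positivity), Real.log_pow]
    norm_num
  have e2 : Real.log G₀ = Real.log Cs + p * (2 * (Real.log 10 + Real.log m₀)) := by
    rw [hG₀, Real.log_mul (by positivity) (by positivity), Real.log_pow, Real.log_pow,
      Real.log_mul (by norm_num) (by positivity)]
    norm_num
  have e3 : Real.log (4 * (D : ℝ) + 2) ≤ Real.log 6 + Real.log D := by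
    rw [← Real.log_mul (by norm_num) (by positivity)]
    exact Real.log_le_log (by positivity) (by linarith)
  have e4 : 0 ≤ Real.log (4 * (D : ℝ) + 2) := Real.log_nonneg (by linarith)
  have lG : 0 ≤ Real.log G := Real.log_nonneg hG1
  have hpos : 0 < G₀ ^ 2 * (G * Real.exp c₁) ^ i * (6 * (4 * (D : ℝ) + 2) ^ i) := by positivity
  rw [← Real.log_le_iff_le_exp hpos, Real.log_mul (by positivity) (by positivity),
    Real.log_mul (by positivity) (by positivity), Real.log_mul (by norm_num) (by positivity),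
    Real.log_pow, Real.log_pow, Real.log_pow, Real.log_mul hG0.ne' (Real.exp_ne_zero _),
    Real.log_exp, e2]
  have hi' : (i : ℝ) ≤ q + 3 := by exact_mod_cast hi
  have k1 : (i : ℝ) * (Real.log G + c₁ + Real.log (4 * (D : ℝ) + 2)) ≤
      ((q : ℝ) + 3) * (C * (Real.log m + Real.log D + 1)) := by
    refine mul_le_mul hi' ?_ (by positivity) (by positivity)
    have k2 : 2 * p * Real.log m ≤ C * Real.log m :=
      mul_le_mul_of_nonneg_right (by rw [hC]; linarith) lm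
    have k3 : 1 * Real.log D ≤ C * Real.log D :=
      mul_le_mul_of_nonneg_right (by rw [hC]; linarith) lD
    have k4 : Real.log Cs + p * Real.log 36 + c₁ + Real.log 6 ≤ C := by rw [hC]; linarith
    linarith
  have hC0 : 0 ≤ C := by rw [hC]; linarith
  have k5 : 2 * Real.log Cs + 4 * (p * Real.log 10) + Real.log 6 ≤
      C * (Real.log m + Real.log D + 1) := by
    have k6 : 2 * Real.log Cs + 4 * (p * Real.log 10) + Real.log 6 ≤ C := by
      rw [hC]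
      linarith
    have k7 : 0 ≤ C * (Real.log m + Real.log D) := mul_nonneg hC0 (by linarith)
    linarith
  have k8 : 4 * p * Real.log m₀ ≤ C * Real.log m₀ :=
    mul_le_mul_of_nonneg_right (by rw [hC]; linarith) lm₀
  push_cast
  linarith

end TCFCS

open Classical in
/-- The bound for the closed pieces in the cells before `τ`: `Q` are exits, `S` skipped cells,
`Rt` is the value of the functional, `X = log m + log D + 1`. -/
def CB (U g : ℝ → ℂ) (c₁ β C X X₀ : ℝ) (Bd : ℕ → Prop) (D τ : ℕ) (Q S : Finset ℕ)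
    (Rt : ℝ≥0∞) : Prop :=
  (∀ j ∈ Q, j + 1 < τ ∧ tr U g 1 j) ∧ (∀ j ∈ S, j < τ ∧ low U g 1 j) ∧
    S.card ≤ (Q.card + 4) * (D + 1) ∧
    ENNReal.ofReal (Real.exp (c₁ * ∑ j ∈ Finset.range τ \ S, ck U g 1 j +
      β * (Q.filter Bd).card)) ≤
      ENNReal.ofReal (Real.exp (((Q.card : ℝ) + 4) * (C * X) + C * X₀)) * Rt

variable {Ω : Type*} [MeasurableSpace Ω] {μ : Measure Ω}

/-- TC-FCS. The chain of a solution in functional form. The bound `r` depends only on `D`. For a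
solution on `[0,u]` and `M ≤ ⌊u⌋` there are three alternatives: closed (a break `t ≥ M - 1`),
a low run which leads to the last cell, or a tail `[τ, ⌊u⌋]` without breaks. If the solution is
fresh at `u` then the chain is closed.

Proof. `Cs c₁ κ p y` from `StrC`; `Ys` from `shifted` (for the given `β`, `Bd`), `Rr i t` from
`chain2`. Put
`R t = 6⁻¹ ∑' i, (4 D + 2)^(-i) Rr i t`, `r t = 6⁻¹ ∑' i, (4 D + 2)^(-i) rI D y i t`; then
`∑' t, r t ≤ 6⁻¹ ∑' i, (4 D + 2)^(-i) 3 (2 D + 1)^i = 1` (`rI_sum`), `∫ R t ≤ r t`,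
`Rr i t ≤ 6 (4 D + 2)^i R t`.
For a solution: `T = ⌊u⌋₊`. Apply `pat_comb2` (resp. `pat_comb3`) with `P j = low U g 1 j`,
`Br α j = brk U g ε d 1 α j`, `x j = ck U g 1 j` (nonnegative), `Bd j = (ω ∈ Bd j)`,
`w j = bw β (Bd j) ω`, `Y α t = Ys α t ω`, `R i t = Rr i t ω` (`hx1`: `|Z| > 1` on a cell
`j < T` which is not low; for `j ≥ T` replace `x j` by `0`),
`G = Cs ((m + 3) (4 m + 10)) ^ p` and `G₀ = Cs ((10 m₀) ^ 2) ^ p` (as in `pattern` of TR;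
`log G ≤ C (log m + 1)`, `log G₀ ≤ C (log m₀ + 1)`).
`hmid`: `first_brk` gives `u' ∈ [t, t+1]`, `t + 1 ≤ T ≤ u`; `piece_app`. Start: `|Z_α| ≤ m + 3`
(`cr_low` on the cell `α - 1`, as `TRPAT.lowb`), resp. `‖z‖ ≤ m₀` for `α = 0`. End:
`|Z_u'| ≤ 1`, so `|Z_v| ≤ 1 + 2 * 2 + 2 * (2 m)` on `[t-1, u']` by `back_bound` (the oscillation on
two neighbouring cells is at most `2 m`). For the last piece (`hlast`, `hall`):
`first_brk_end` gives `u' ∈ [T, u]`; `|Z_u| ≤ m₀` and `back_bound` on `[T-1, u]`: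
`|Z_v| ≤ m₀ + 4 + 4 m ≤ 9 m₀`. `Osc (⌊u⌋₊ + 1)` covers the cell `T` (it is needed only there).
The constants: `G₀ ^ 2 (G exp c₁) ^ i * 6 (4 D + 2)^i` with `i ≤ Q.card + 3` (`c₁` of `StrC` can be
assumed `≤ 1`). -/
theorem chain_sol [IsProbabilityMeasure μ] {a b c K ε d : ℝ} (hd : 0 ≤ d)
    (hS : StrC μ a b c K ε d) :
    ∃ (C c₁ κ : ℝ), 1 ≤ C ∧ 0 < c₁ ∧ 1 ≤ κ ∧ ∀ D : ℕ, 1 ≤ D →
      ∃ r : ℕ → ℝ≥0∞, ∑' t, r t ≤ 1 ∧ ∀ W : ℝ → Ω → ℂ, Gau a b c K W μ →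
        ∀ (β : ℝ) (Bd : ℕ → Set Ω), 0 ≤ β →
        (∀ j : ℕ, MeasurableSet[Blk W j ((j : ℝ) + 1)] (Bd j)) →
        (∀ j, μ (Bd j) ≤ ENNReal.ofReal (Real.exp (-(κ * β)))) →
        ∃ R : ℕ → Ω → ℝ≥0∞, (∀ t : ℕ, Measurable (R t)) ∧ (∀ t, ∫⁻ ω, R t ω ∂μ ≤ r t) ∧
          ∀ (ω : Ω) (u : ℝ) (z : ℂ) (g : ℝ → ℂ) (m m₀ : ℝ), 0 ≤ u → 1 ≤ m → m ≤ m₀ → ‖z‖ ≤ m₀ →
            Sol (fun t => W t ω) z u g → Osc (fun t => W t ω) 1 m ⌊u⌋₊ →
            (∀ s, s + D ≤ ⌊u⌋₊ → ¬ rider (fun t => W t ω) g 1 s D) →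
            (∀ M ≤ ⌊u⌋₊, ∃ (Q S : Finset ℕ) (τ t : ℕ), τ ≤ ⌊u⌋₊ ∧ (∀ j ∈ Q, j + 1 < M) ∧
              CB (fun t => W t ω) g c₁ β C (Real.log m + Real.log D + 1) (Real.log m₀)
                (fun j => ω ∈ Bd j) D τ Q S (R t ω) ∧
              ((τ = M ∧ M ≤ t + 1 ∧ (t < ⌊u⌋₊ ∨ ⌊u⌋₊ = 0)) ∨
                (τ = M ∧ t < M ∧ ⌊u⌋₊ ≤ t + D) ∨
                (τ < ⌊u⌋₊ ∧ τ ≤ M + D ∧ ¬ low (fun t => W t ω) g 1 τ ∧
                  (∀ j, τ ≤ j → j < ⌊u⌋₊ → ¬ brk (fun t => W t ω) g ε d 1 τ j) ∧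
                  ((τ = 0 ∧ t = 0) ∨ (0 < τ ∧ t < τ ∧ τ ≤ t + D ∧
                    low (fun t => W t ω) g 1 (τ - 1) ∧ ‖g τ - W τ ω‖ ≤ m + 3))))) ∧
            (Osc (fun t => W t ω) 1 m (⌊u⌋₊ + 1) → fresh (fun t => W t ω) g ε d u →
              ‖g u - W u ω‖ ≤ m₀ →
              ∃ (Q S : Finset ℕ) (t : ℕ),
                CB (fun t => W t ω) g c₁ β C (Real.log m + Real.log D + 1) (Real.log m₀)
                  (fun j => ω ∈ Bd j) D ⌊u⌋₊ Q S (R t ω)) := by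
  obtain ⟨Cs, c₁, κ, p, y, hCs, hc₁, hκ, hy, hst⟩ := hS
  have l1 : 0 ≤ Real.log Cs := Real.log_nonneg hCs
  have hp0 : (0 : ℝ) ≤ p := Nat.cast_nonneg p
  have l2 : 0 ≤ p * Real.log 36 := mul_nonneg hp0 (Real.log_nonneg (by norm_num))
  have l3 : 0 ≤ p * Real.log 10 := mul_nonneg hp0 (Real.log_nonneg (by norm_num))
  have l4 : 0 ≤ Real.log 6 := Real.log_nonneg (by norm_num)
  obtain ⟨C, hC⟩ : ∃ C, C = 1 + c₁ + 2 * Real.log Cs + p * Real.log 36 + 6 * p +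
    4 * (p * Real.log 10) + Real.log 6 := ⟨_, rfl⟩
  refine ⟨C, c₁, κ, by rw [hC]; linarith, hc₁, hκ, ?_⟩
  intro D hD
  refine ⟨TCFCS.wS D (rI D y), TCFCS.wS_sum (rI_sum D hy), ?_⟩
  intro W hW β Bd hβ hBm hBp
  obtain ⟨Ys, hYm, hYb, hYp⟩ := shifted hst hW hβ Bd hBm hBp
  obtain ⟨Rr, hRm, hRb, hR0, hR1, hRs⟩ := chain2 hW.toDrv D hβ hκ y Ys hYm hYb Bd hBm hBp
  have hRm' : ∀ i t, Measurable (Rr i t) := fun i t =>
    (hRm i t).mono (Blk_le hW.toDrv _ _) le_rfl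
  refine ⟨fun t ω => TCFCS.wS D (fun i t => Rr i t ω) t, TCFCS.wS_meas hRm',
    TCFCS.wS_int hRm' hRb, ?_⟩
  intro ω u z g m m₀ hu hm hm₀ hz hg hosc hrid
  have hU : Continuous fun t => W t ω := hW.cont ω
  obtain ⟨T, hT⟩ : ∃ T, T = ⌊u⌋₊ := ⟨_, rfl⟩
  rw [← hT] at hosc hrid ⊢
  have hTu : (T : ℝ) ≤ u := by rw [hT]; exact Nat.floor_le hu
  have huT : u ≤ T + 1 := by rw [hT]; exact (Nat.lt_floor_add_one u).le
  have hm₀1 : 1 ≤ m₀ := by linarith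
  have hCs0 : 0 < Cs := by linarith
  obtain ⟨G, hG⟩ : ∃ G, G = Cs * ((m + 3) * (4 * m + 5)) ^ p := ⟨_, rfl⟩
  obtain ⟨G₀, hG₀⟩ : ∃ G₀, G₀ = Cs * ((10 * m₀) ^ 2) ^ p := ⟨_, rfl⟩
  have hG1 : 1 ≤ G := by
    rw [hG]
    refine one_le_mul_of_one_le_of_one_le hCs (one_le_pow₀ ?_)
    nlinarith
  have hG₀1 : 1 ≤ G₀ := by
    rw [hG₀]
    refine one_le_mul_of_one_le_of_one_le hCs (one_le_pow₀ ?_)
    nlinarith
  have hpow : ∀ s e : ℝ, 0 ≤ s → 0 ≤ e → s * e ≤ (10 * m₀) ^ 2 → Cs * (s * e) ^ p ≤ G₀ := by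
    intro s e hs he h
    rw [hG₀]
    exact mul_le_mul_of_nonneg_left (pow_le_pow_left₀ (mul_nonneg hs he) h p) hCs0.le
  have hgT : Sol (fun t => W t ω) z T g := hg.restrict hTu
  have hZ0 : ‖g ((0 : ℕ) : ℝ) - W ((0 : ℕ) : ℝ) ω‖ ≤ m₀ := by
    rw [Nat.cast_zero, hW.zero 0 le_rfl ω, sub_zero, hg.1]
    exact hz
  have hlowst : ∀ α : ℕ, 0 < α → α ≤ T → low (fun t => W t ω) g 1 (α - 1) →
      ‖g α - W α ω‖ ≤ m + 3 := by
    intro α hα hαT hl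
    have h1 := (TRPAT.lowb hU hgT (j := α - 1) (by omega) hosc hl).2
    have h2 : ((α - 1 : ℕ) : ℝ) + 1 = α := by
      rw [Nat.cast_sub (by omega), Nat.cast_one]
      ring
    rwa [h2] at h1
  obtain ⟨x, hxd⟩ : ∃ x : ℕ → ℝ,
      x = fun j => if j < T then ck (fun t => W t ω) g 1 j else 0 := ⟨_, rfl⟩
  have hxT : ∀ j < T, x j = ck (fun t => W t ω) g 1 j := fun j hj => by
    rw [hxd]
    exact if_pos hj
  have hx : ∀ j, 0 ≤ x j := by
    intro j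
    by_cases hj : j < T
    · rw [hxT j hj]
      exact TCFCS.ck_nonneg _ _ _
    · rw [hxd]
      exact (if_neg hj).ge
  have hx1 : ∀ j, ¬ low (fun t => W t ω) g 1 j → x j ≤ 1 := by
    intro j hn
    by_cases hj : j < T
    · rw [hxT j hj]
      have hj' : (j : ℝ) + 1 ≤ T := by exact_mod_cast hj
      exact TCFCS.ck_le_one hU hgT hj' hn
    · rw [hxd]
      exact (if_neg hj).le.trans zero_le_one
  have hsum : ∀ α b : ℕ, b ≤ T → ∑ j ∈ Finset.Ico α b, x j =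
      ∑ j ∈ Finset.Ico α b, ck (fun t => W t ω) g 1 j := fun α b hb =>
    Finset.sum_congr rfl fun j hj => hxT j ((Finset.mem_Ico.1 hj).2.trans_le hb)
  have hsum' : ∀ (τ : ℕ) (S : Finset ℕ), τ ≤ T → ∑ j ∈ Finset.range τ \ S, x j =
      ∑ j ∈ Finset.range τ \ S, ck (fun t => W t ω) g 1 j := fun τ S hτ =>
    Finset.sum_congr rfl fun j hj =>
      hxT j ((Finset.mem_range.1 (Finset.mem_sdiff.1 hj).1).trans_le hτ)
  have hBr : ∀ α j, brk (fun t => W t ω) g ε d 1 α j → low (fun t => W t ω) g 1 j := by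
    rintro α j ⟨v, hv, hv1, -⟩
    exact ⟨v, hv, hv1⟩
  have hfirst : ∀ t, 0 < t → t < T → ¬ low (fun t => W t ω) g 1 0 →
      (∀ j < t, ¬ brk (fun t => W t ω) g ε d 1 0 j) → brk (fun t => W t ω) g ε d 1 0 t →
      ENNReal.ofReal (Real.exp (c₁ * ∑ j ∈ Finset.Ico 0 (t - 1), x j)) * bw β (Bd t) ω ≤
        ENNReal.ofReal G₀ * Ys 0 t ω := by
    intro t ht htT hn hno hbr
    rw [hsum 0 (t - 1) (by omega)]
    exact TCFCS.mid_piece hU (hYp 0) hg hTu hosc hm ht htT hn (fun j _ h => hno j h) hbr hm₀1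
      hZ0 (hpow _ _ (by linarith) (by linarith) (by nlinarith))
  have hmid : ∀ α t, 0 < α → α < t → t < T → low (fun t => W t ω) g 1 (α - 1) →
      ¬ low (fun t => W t ω) g 1 α →
      (∀ j, α ≤ j → j < t → ¬ brk (fun t => W t ω) g ε d 1 α j) →
      brk (fun t => W t ω) g ε d 1 α t →
      ENNReal.ofReal (Real.exp (c₁ * ∑ j ∈ Finset.Ico α (t - 1), x j)) * bw β (Bd t) ω ≤
        ENNReal.ofReal G * Ys α (t - α) ω := by
    intro α t hα hαt htT hl hn hno hbr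
    rw [hsum α (t - 1) (by omega)]
    exact TCFCS.mid_piece hU (hYp α) hg hTu hosc hm hαt htT hn hno hbr (by linarith)
      (hlowst α hα (by omega) hl) hG.ge
  have hDD : ∀ s, s + D ≤ T → ∃ i < D, ¬ low (fun t => W t ω) g 1 (s + i) := by
    intro s hs
    have h1 := hrid s hs
    unfold rider at h1
    push Not at h1
    exact h1
  have hle : ∀ (q i t : ℕ), i ≤ q + 3 →
      ENNReal.ofReal (G₀ ^ 2 * (G * Real.exp c₁) ^ i) * Rr i t ω ≤
        ENNReal.ofReal (Real.exp (((q : ℝ) + 4) * (C * (Real.log m + Real.log D + 1)) +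
          C * Real.log m₀)) * TCFCS.wS D (fun i t => Rr i t ω) t := by
    intro q i t hi
    refine TCFCS.comb (f := fun i t => Rr i t ω) (by positivity) ?_
    rw [hG, hG₀]
    exact TCFCS.numb hCs hc₁ hm hm₀1 hD hi hC
  have hG₀2 : G₀ ≤ G₀ ^ 2 := le_self_pow₀ hG₀1 two_ne_zero
  refine ⟨?_, ?_⟩
  · intro M hM
    obtain ⟨Q, S, τ, i, t, hτ, hQ, hS', hcard, hi, hb, halt⟩ := pat_comb2 (T := T) (D := D)
      (M := M) hM (fun j => low (fun t => W t ω) g 1 j)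
      (fun α j => brk (fun t => W t ω) g ε d 1 α j) x hx (fun j => ω ∈ Bd j) (c₁ := c₁)
      (β := β) (G := G) (G₀ := G₀) hc₁.le hβ hG1 hG₀1 hD (fun α t => Ys α t ω)
      (fun i t => Rr i t ω) (fun j => bw β (Bd j) ω) (fun j => rfl) hx1 hBr (hR0 ω)
      (fun t => hR1 t ω) (fun i s α t h1 h2 h3 => hRs i s α t ω h1 h2 h3) hfirst hmid hDD
    refine ⟨Q, S, τ, t, hτ, fun j hj => (hQ j hj).1,
      ⟨fun j hj => ⟨(hQ j hj).2.1, (hQ j hj).2.2⟩, hS',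
        hcard.trans (Nat.mul_le_mul_right _ (by omega)), ?_⟩, ?_⟩
    · rw [hsum' τ S hτ] at hb
      refine hb.trans (le_trans ?_ (hle Q.card i t (by omega)))
      refine mul_le_mul_left (ENNReal.ofReal_le_ofReal ?_) _
      exact mul_le_mul_of_nonneg_right hG₀2 (by positivity)
    · rcases halt with h | h | ⟨h1, h2, h3, h4, h5⟩
      · exact Or.inl h
      · exact Or.inr (Or.inl h)
      · refine Or.inr (Or.inr ⟨h1, h4, h2, h3, ?_⟩)
        rcases h5 with ⟨h6, -, h7⟩ | ⟨h6, h7, h8, h9⟩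
        · exact Or.inl ⟨h6, h7⟩
        · exact Or.inr ⟨h6, h7, h8, h9, hlowst τ h6 hτ h9⟩
  · intro hosc' hf hZu
    have hlast : ∀ α, 0 < α → α < T → low (fun t => W t ω) g 1 (α - 1) →
        ¬ low (fun t => W t ω) g 1 α →
        (∀ j, α ≤ j → j < T → ¬ brk (fun t => W t ω) g ε d 1 α j) →
        ENNReal.ofReal (Real.exp (c₁ * ∑ j ∈ Finset.Ico α (T - 1), x j)) * bw β (Bd T) ω ≤
          ENNReal.ofReal G₀ * Ys α (T - α) ω := by
      intro α hα hαT hl hn hno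
      rw [hsum α (T - 1) (by omega)]
      exact TCFCS.end_piece hU (hYp α) hg hTu huT hosc' hm hm₀ hαT hn hno hd hf hZu
        (by linarith) (hlowst α hα hαT.le hl)
        (hpow _ _ (by linarith) (by linarith) (by nlinarith))
    have hall : 0 < T → ¬ low (fun t => W t ω) g 1 0 →
        (∀ j < T, ¬ brk (fun t => W t ω) g ε d 1 0 j) →
        ENNReal.ofReal (Real.exp (c₁ * ∑ j ∈ Finset.Ico 0 (T - 1), x j)) * bw β (Bd T) ω ≤
          ENNReal.ofReal (G₀ ^ 2) * Ys 0 T ω := by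
      intro hT0 hn hno
      rw [hsum 0 (T - 1) (by omega)]
      exact TCFCS.end_piece hU (hYp 0) hg hTu huT hosc' hm hm₀ hT0 hn (fun j _ h => hno j h)
        hd hf hZu hm₀1 hZ0 ((hpow _ _ (by linarith) (by linarith) (by nlinarith)).trans hG₀2)
    obtain ⟨Q, S, i, t, hQ, hS', hcard, hi, hb⟩ := pat_comb3 (T := T) (D := D)
      (fun j => low (fun t => W t ω) g 1 j)
      (fun α j => brk (fun t => W t ω) g ε d 1 α j) x hx (fun j => ω ∈ Bd j) (c₁ := c₁)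
      (β := β) (G := G) (G₀ := G₀) hc₁.le hβ hG1 hG₀1 hD (fun α t => Ys α t ω)
      (fun i t => Rr i t ω) (fun j => bw β (Bd j) ω) (fun j => rfl) hx1 hBr (hR0 ω)
      (fun t => hR1 t ω) (fun i s α t h1 h2 h3 => hRs i s α t ω h1 h2 h3) hfirst hmid hlast
      hall hDD
    refine ⟨Q, S, t, fun j hj => ⟨(hQ j hj).1, (hQ j hj).2⟩, hS', hcard, ?_⟩
    rw [hsum' T S le_rfl] at hb
    exact hb.trans (hle Q.card i t hi)

end

end Pool.Agent.SLE
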