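import Pool.Agent.Lib.MP_c17912_pr_TC.OC3
import Pool.Agent.Lib.MP_c17912_pr_TR.SHD
import Pool.Agent.Lib.MP_c17912_pr_TR.STR

set_option autoImplicit false

open MeasureTheory ProbabilityTheory Filter
open scoped NNReal ENNReal Topology Real

namespace Pool.Agent.SLE

noncomputable section

namespace TCST3

/-- the path argument -/
theorem flag3 {U : ℝ → ℂ} (hU : Continuous U) (h0 : U 0 = 0) {z : ℂ} {t ε e κ u₁ u₂ : ℝ}
    (ht : 1 ≤ t) (hε : 0 < ε) (hε2 : ε ≤ 2) (he : 1 ≤ e) (hκ : 0 ≤ κ)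
    (hu₁ : u₁ ∈ Set.Icc (0 : ℝ) (t - 1)) (hu₂ : u₂ ∈ Set.Icc t (t + 1))
    {g : ℝ → ℂ} (hg : Sol U z u₂ g) (hz1 : 1 ≤ ‖z‖)
    (h1 : 1 ≤ ‖g u₁ - U u₁‖)
    (h2 : ∀ u ∈ Set.Icc (t - 1) t, ‖g u - U u‖ ≤ e)
    (h3 : ∀ u ∈ Set.Icc (0 : ℝ) u₂, ph U g ε u ≤ ph U g ε u₁ + κ)
    (h4 : ph U g ε u₁ ≤ ph U g ε u₂) {s m : ℕ} (hs : ‖z‖ ≤ (s : ℝ) + 1)
    (hm : e * Real.exp κ ≤ (m : ℝ) + 1) :
    ∃ (n : ℕ) (k : ℤ × ℤ) (g' : ℝ → ℂ), k ∈ TRSTR.G s n ∧ 1 / 2 ≤ ‖TRSTR.pt n k‖ ∧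
      Sol U (TRSTR.pt n k) u₂ g' ∧ 3 / 4 ≤ ‖g' u₁ - U u₁‖ ∧
      (∀ u ∈ Set.Icc (t - 1) t, ‖g' u - U u‖ ≤ 2 * ((m : ℝ) + 1)) ∧
      TRSTR.th (Real.log (32 / ε) + 8) s m n < ph U g' ε u₁ ∧
      TRSTR.th (Real.log (32 / ε) + 8) s m n < ph U g' ε u₂ ∧
      lk U g 0 (t - 1) ≤ lk U g' 0 (t - 1) + 1 := by
  have hu₁t : u₁ ∈ Set.Icc (0 : ℝ) u₂ := ⟨hu₁.1, by linarith [hu₁.2, hu₂.1]⟩
  have hu₂0 : 0 ≤ u₂ := by linarith [hu₂.1]
  have hu₂t : u₂ ∈ Set.Icc (0 : ℝ) u₂ := ⟨hu₂0, le_rfl⟩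
  obtain ⟨Φ, hΦ⟩ : ∃ Φ, Φ = ph U g ε u₁ + κ := ⟨_, rfl⟩
  have hΦ1 : ∀ u ∈ Set.Icc 0 u₂, ph U g ε u ≤ Φ := fun u hu => by
    rw [hΦ]
    exact h3 u hu
  have hex : ∃ n : ℕ, (1 / 2 : ℝ) ^ n ≤ ε / 16 * Real.exp (-Φ) := by
    obtain ⟨n, hn⟩ := exists_pow_lt_of_lt_one
      (show 0 < ε / 16 * Real.exp (-Φ) by positivity) (show (1 / 2 : ℝ) < 1 by norm_num)
    exact ⟨n, hn.le⟩
  classical
  obtain ⟨n, hn1, hn2⟩ : ∃ n : ℕ, (1 / 2 : ℝ) ^ n ≤ ε / 16 * Real.exp (-Φ) ∧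
      ∀ m < n, ¬ (1 / 2 : ℝ) ^ m ≤ ε / 16 * Real.exp (-Φ) :=
    ⟨Nat.find hex, Nat.find_spec hex, fun m hm => Nat.find_min hex hm⟩
  obtain ⟨k, hk, hkz⟩ := TRSTR.near (n := n) hs
  obtain ⟨g', hg', h5, h6⟩ := shadow hU h0 hu₂0 hε hε2 hg hΦ1 (hkz.trans hn1)
  have hlow : ∀ u ∈ Set.Icc 0 u₂, 3 / 4 * ‖g u - U u‖ ≤ ‖g' u - U u‖ := by
    intro u hu
    have a3 := h5 u hu
    have h := norm_sub_norm_le (g u - U u) (g u - g' u)
    have e4 : (g u - U u) - (g u - g' u) = g' u - U u := by ring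
    rw [e4, norm_sub_rev (g u) (g' u)] at h
    linarith
  have hupp : ∀ u ∈ Set.Icc 0 u₂, ‖g' u - U u‖ ≤ 5 / 4 * ‖g u - U u‖ := by
    intro u hu
    have a3 := h5 u hu
    have e1 : g' u - U u = (g' u - g u) + (g u - U u) := by ring
    have := norm_add_le (g' u - g u) (g u - U u)
    rw [e1]
    linarith
  have hph : ∀ u ∈ Set.Icc 0 u₂, ph U g ε u - 3 ≤ ph U g' ε u := by
    intro u hu
    have a0 : 0 < ‖g u - U u‖ := norm_pos_iff.2 (sub_ne_zero.2 (hg.2.1 u hu))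
    have a1 : 0 < ‖g' u - U u‖ := norm_pos_iff.2 (sub_ne_zero.2 (hg'.2.1 u hu))
    have a2 := Real.log_le_log a1 (hupp u hu)
    rw [Real.log_mul (by norm_num) a0.ne'] at a2
    have a3 : Real.log (5 / 4) ≤ 5 / 4 - 1 := Real.log_le_sub_one_of_pos (by norm_num)
    have a4 := abs_le.1 (h6 u hu).1
    unfold ph
    linarith [a4.1]
  have hs0 : (0 : ℝ) ≤ s := Nat.cast_nonneg s
  have hm0 : (0 : ℝ) ≤ m := Nat.cast_nonneg m
  have heκ : e ≤ (m : ℝ) + 1 := by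
    refine le_trans ?_ hm
    have : 1 ≤ Real.exp κ := Real.one_le_exp hκ
    nlinarith
  have hlm : κ ≤ Real.log ((m : ℝ) + 1) := by
    rw [Real.le_log_iff_exp_le (by linarith)]
    refine le_trans ?_ hm
    have : 0 < Real.exp κ := Real.exp_pos κ
    nlinarith
  have hls : 0 ≤ Real.log ((s : ℝ) + 1) := Real.log_nonneg (by linarith)
  have hl2 : 0 < Real.log 2 := Real.log_pos (by norm_num)
  have hT0 : Real.log 2 ≤ Real.log (32 / ε) := by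
    apply Real.log_le_log (by norm_num)
    rw [le_div_iff₀ hε]
    linarith
  have hth : TRSTR.th (Real.log (32 / ε) + 8) s m n < Φ - κ - 3 := by
    unfold TRSTR.th
    rcases Nat.eq_zero_or_pos n with h | h
    · have a1 : ph U g ε 0 = -Real.log ‖z‖ := by
        simp only [ph, intervalIntegral.integral_same, h0, sub_zero, hg.1, zero_sub]
      have a2 := hΦ1 0 ⟨le_rfl, hu₂0⟩
      rw [a1] at a2
      have a3 : Real.log ‖z‖ ≤ Real.log ((s : ℝ) + 1) := Real.log_le_log (by linarith) hs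
      rw [h, Nat.cast_zero]
      linarith
    · have a1 := hn2 (n - 1) (by omega)
      rw [not_le] at a1
      have a2 : (1 / 2 : ℝ) ^ n * 2 = (1 / 2 : ℝ) ^ (n - 1) := by
        obtain ⟨j, hj⟩ : ∃ j, n = j + 1 := ⟨n - 1, by omega⟩
        rw [hj, Nat.add_sub_cancel, pow_succ]
        ring
      have a3 := Real.log_lt_log (by positivity) a1
      rw [Real.log_mul (by positivity) (Real.exp_pos _).ne', Real.log_exp, ← a2,
        Real.log_mul (by positivity) (by norm_num), Real.log_pow, one_div, Real.log_inv] at a3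
      have a4 : Real.log (ε / 16) = Real.log 2 - Real.log (32 / ε) := by
        rw [← Real.log_div (by norm_num) (by positivity)]
        congr 1
        field_simp
        norm_num
      rw [a4] at a3
      linarith
  refine ⟨n, k, g', hk, ?_, hg', ?_, ?_, ?_, ?_, ?_⟩
  · have a1 := hlow 0 ⟨le_rfl, hu₂0⟩
    rw [h0, sub_zero, sub_zero, hg.1, hg'.1] at a1
    linarith
  · have := hlow u₁ hu₁t
    linarith
  · intro u hu
    have a1 := hupp u ⟨by linarith [hu.1], by linarith [hu.2, hu₂.1]⟩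
    have a2 := h2 u hu
    linarith
  · have := hph u₁ hu₁t
    linarith
  · have := hph u₂ hu₂t
    linarith
  · have := abs_le.1 (h6 (t - 1) ⟨by linarith, by linarith [hu₂.1]⟩).2
    linarith [this.1]

end TCST3

variable {Ω : Type*} [MeasurableSpace Ω] {μ : Measure Ω}

/-- TC-ST3. The stretch theorem of the critical case: a functional `Y (t+1)` of the driving process on
`[0,t+1]` which dominates `exp (c₁ * clock of [0,t-1])` (times the weight `w t` of the cell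
`[t,t+1]`) of all solutions whose functional `ph` has its maximum over `[0,u₂]`, up to `κ`, at a time
`u₁ ≤ t - 1` with `|Z| ≥ 1`, and reaches `ph u₁` again at `u₂ ∈ [t,t+1]`.

Proof (compare `stretch`, TR/STR). Let `C c₁ q p` be as in `occ3`. For naturals `s, e ≥ 1`, `k ≥ 0` and `n`
let the grid be `z' = (i + j I) / 2^n`, `|i|, |j| ≤ (s+1) 2^n` with `1/2 ≤ |z'|`, and
`θ = n log 2 - Θ`, `Θ = k + log (16/ε) + 8`. Let `Y^{z',θ,2e}`, `y^{z',θ,2e}` be those of `occ3` for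
`z₀ = z'`, `e := 2e`, and `Y = κ₀ ∑_{s,e≥1,k≥0} (s e)^(-P) exp (-(P k)) ∑_n ∑_{z'} Y^{z',θ,2e}`, the same
for `y`, with `P = 2p + ⌈q⌉ + 6`.
*Expectation.* The number of grid points is at most `C s^2 4^n`, `1 + |z'| ≤ C s`,
`exp (-(q θ)) = exp (q Θ) 2^(-q n)`; the sum over `n` converges since `q > 2`, the others since `P` is
large. Choose `κ₀` such that `∑ y (t+1) ≤ 1`.
*Lower bound.* Given the solution: replace `s, e, κ` by the next naturals (factor absorbed in `C`). Let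
`Φ` be the maximum of `ph U g ε` on `[0,u₂]` (so `Φ ≤ ph u₁ + κ`, `ph u₁ ≤ ph u₂`), and `n` the least
natural number with `2^(-n) ≤ ε/16 exp (-Φ)`; `z'` the nearest point of `2^(-n) ℤ[i]`. As
`Φ ≥ ph 0 = -log |z|` and `ε ≤ 1`, `|z' - z| ≤ ε/16 exp (-Φ) ≤ |z|/8`, so `|z'| ≥ 1/2`. `shadow` gives
`g'` on `[0,u₂]` with `|Z' - Z| ≤ |Z| / 4`; so `|Z'_{u₁}| ≥ 3/4`, `|Z'| ≤ 2e` on `[t-1,t]`, and
`ph' ≥ ph - 2 - log (5/4) ≥ ph - 3` at all times. If `n ≥ 1` then `2^(-(n-1)) > ε/16 exp (-Φ)`, i.e.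
`Φ > (n-1) log 2 - log (16/ε)`, so `ph' u₁, ph' u₂ ≥ Φ - κ - 3 > θ`. If `n = 0`: `1 ≤ ε/16 exp (-Φ)`... then
`Φ ≤ -log (16/ε)`, and one needs a lower bound of `Φ` instead: `Φ ≥ ph 0 = -log |z| ≥ -log s`. To
include this case let the grid also depend on nothing else but take `θ = n log 2 - Θ - log (s+1)` in all
cases (this changes only the power of `s`): then for `n = 0`, `Φ - κ - 3 ≥ -log s - κ - 3 > θ`.
So `exp (c₁ lk U g' 0 (t-1)) * w ≤ C * Y^{z',θ,2e} (t+1)`, and `lk U g 0 (t-1) ≤ lk U g' 0 (t-1) + 1`. -/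
theorem stretch3 [IsProbabilityMeasure μ] {a b c K : ℝ} (ha : 0 ≤ a) (hb : 0 ≤ b)
    (hc : c ^ 2 ≤ a * b) (hK : 0 ≤ K) (hC : HasC a b c) :
    ∃ ε₀ : ℝ, 0 < ε₀ ∧ ε₀ ≤ 1 ∧ ∀ ε : ℝ, 0 < ε → ε ≤ ε₀ →
      ∃ (C c₁ : ℝ) (p : ℕ) (y : ℕ → ℝ≥0∞), 1 ≤ C ∧ 0 < c₁ ∧
        (∀ N : ℕ, ∑ t ∈ Finset.range N, y (t + 1) ≤ 1) ∧
        ∀ W : ℝ → Ω → ℂ, Gau a b c K W μ → ∀ w : ℕ → Ω → ℝ≥0∞,
          (∀ t : ℕ, Measurable[Blk W t ((t : ℝ) + 1)] (w t)) →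
          (∀ t, ∫⁻ ω, w t ω ^ 2 ∂μ ≤ 1) →
          ∃ Y : ℕ → Ω → ℝ≥0∞, (∀ t : ℕ, Measurable[Blk W 0 t] (Y t)) ∧
            (∀ t : ℕ, ∫⁻ ω, Y t ω ∂μ ≤ y t) ∧
            ∀ (ω : Ω) (t : ℕ) (z : ℂ) (g : ℝ → ℂ) (u₁ u₂ s e κ : ℝ), 1 ≤ t →
              u₁ ∈ Set.Icc (0 : ℝ) ((t : ℝ) - 1) → u₂ ∈ Set.Icc (t : ℝ) ((t : ℝ) + 1) →
              1 ≤ s → 1 ≤ e → 0 ≤ κ → 1 ≤ ‖z‖ → ‖z‖ ≤ s → Sol (fun t => W t ω) z u₂ g →
              1 ≤ ‖g u₁ - W u₁ ω‖ → (∀ u ∈ Set.Icc ((t : ℝ) - 1) t, ‖g u - W u ω‖ ≤ e) →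
              (∀ u ∈ Set.Icc (0 : ℝ) u₂,
                ph (fun t => W t ω) g ε u ≤ ph (fun t => W t ω) g ε u₁ + κ) →
              ph (fun t => W t ω) g ε u₁ ≤ ph (fun t => W t ω) g ε u₂ →
              ENNReal.ofReal (Real.exp (c₁ * lk (fun t => W t ω) g 0 ((t : ℝ) - 1))) * w t ω ≤
                ENNReal.ofReal (C * (s * e * Real.exp κ) ^ p) * Y (t + 1) ω := by
  obtain ⟨ε₀, hε₀, hε₀1, hocc⟩ := occ3 (μ := μ) ha hb hc hK hC
  refine ⟨ε₀, hε₀, hε₀1, fun ε hε hεε => ?_⟩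
  have hε2 : ε ≤ 2 := by linarith
  obtain ⟨C, c₁, q, p, hC0, hc₁, hq, hocc⟩ := hocc ε hε hεε
  obtain ⟨Q, hqQ⟩ := exists_nat_ge q
  obtain ⟨T, hT⟩ : ∃ T, T = Real.log (32 / ε) + 8 := ⟨_, rfl⟩
  have hT0 : 0 ≤ T := by
    have : 0 ≤ Real.log (32 / ε) := by
      apply Real.log_nonneg
      rw [le_div_iff₀ hε]
      linarith
    linarith
  obtain ⟨B, hB⟩ : ∃ B, B = 36 * C * 10 ^ p * Real.exp (Q * T) := ⟨_, rfl⟩
  have hB0 : 0 ≤ B := by rw [hB]; positivity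
  obtain ⟨r, hr⟩ : ∃ r, r = 4 * Real.exp (-(q * Real.log 2)) := ⟨_, rfl⟩
  have hr0 : 0 ≤ r := by rw [hr]; positivity
  have hr1 : r < 1 := by
    have hl2 : 0 < Real.log 2 := Real.log_pos (by norm_num)
    have h1 : Real.exp (-(q * Real.log 2)) < Real.exp (-(2 * Real.log 2)) := by
      apply Real.exp_lt_exp.2
      nlinarith
    have h2 : Real.exp (-(2 * Real.log 2)) = 1 / 4 := by
      rw [Real.exp_neg, mul_comm, Real.exp_mul, Real.exp_log (by norm_num)]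
      norm_num
    rw [h2] at h1
    linarith
  have hsum := TRSTR.bb_summable (B := B) hr0 hr1
  obtain ⟨TT, hTTdef⟩ : ∃ TT, TT = ∑' x, TRSTR.bb B r x := ⟨_, rfl⟩
  have hTT : 0 ≤ TT := by
    rw [hTTdef]
    exact tsum_nonneg fun x => TRSTR.bb_nonneg hB0 hr0 x
  obtain ⟨κ₀, hκ⟩ : ∃ κ₀, κ₀ = 1 / (1 + TT) := ⟨_, rfl⟩
  have hκ0 : 0 < κ₀ := by rw [hκ]; positivity
  obtain ⟨P, hP⟩ : ∃ P, P = p + Q + 4 := ⟨_, rfl⟩
  have hex : ∀ (z₀ : ℂ) (θ e : ℝ), 1 ≤ e →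
        ∃ y : ℕ → ℝ≥0∞, (∀ N : ℕ, ∑ t ∈ Finset.range N, y (t + 1) ≤
            ENNReal.ofReal (C * e ^ p * (1 + ‖z₀‖) ^ p * Real.exp (-(q * θ)))) ∧
          ∀ W : ℝ → Ω → ℂ, Gau a b c K W μ → ∀ w : ℕ → Ω → ℝ≥0∞,
            (∀ t : ℕ, Measurable[Blk W t ((t : ℝ) + 1)] (w t)) →
            (∀ t, ∫⁻ ω, w t ω ^ 2 ∂μ ≤ 1) →
            ∃ Y : ℕ → Ω → ℝ≥0∞, (∀ t : ℕ, Measurable[Blk W 0 t] (Y t)) ∧
              (∀ t : ℕ, ∫⁻ ω, Y t ω ∂μ ≤ y t) ∧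
              (1 / 2 ≤ ‖z₀‖ → ∀ (ω : Ω) (t : ℕ) (g : ℝ → ℂ) (u₁ u₂ : ℝ), 1 ≤ t →
                u₁ ∈ Set.Icc (0 : ℝ) ((t : ℝ) - 1) → u₂ ∈ Set.Icc (t : ℝ) ((t : ℝ) + 1) →
                Sol (fun t => W t ω) z₀ u₂ g → 3 / 4 ≤ ‖g u₁ - W u₁ ω‖ →
                (∀ u ∈ Set.Icc ((t : ℝ) - 1) t, ‖g u - W u ω‖ ≤ e) →
                θ < ph (fun t => W t ω) g ε u₁ → θ < ph (fun t => W t ω) g ε u₂ →
                ENNReal.ofReal (Real.exp (c₁ * lk (fun t => W t ω) g 0 ((t : ℝ) - 1))) *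
                  w t ω ≤ ENNReal.ofReal C * Y (t + 1) ω) := by
    intro z₀ θ e he
    by_cases hz : 1 / 2 ≤ ‖z₀‖
    · obtain ⟨y, hy, h⟩ := hocc z₀ θ e hz he
      refine ⟨y, hy, fun W hW w hw hw2 => ?_⟩
      obtain ⟨Y, hY1, hY2, hY3⟩ := h W hW w hw hw2
      exact ⟨Y, hY1, hY2, fun _ => hY3⟩
    · refine ⟨fun _ => 0, fun N => by simp, fun W hW w hw hw2 => ⟨fun _ _ => 0, fun t => ?_,
        fun t => by simp, fun h => absurd h hz⟩⟩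
      exact @measurable_const _ _ _ (Blk W 0 t) _
  choose yy hyy hYY using hex
  have he' : ∀ m : ℕ, (1 : ℝ) ≤ 2 * ((m : ℝ) + 1) := fun m => by
    have : (0 : ℝ) ≤ m := Nat.cast_nonneg m
    linarith
  have hwt : ∀ x : ℕ × ℕ × ℕ, 0 < TRSTR.wt P x.1 x.2.1 := fun x => by
    unfold TRSTR.wt
    positivity
  refine ⟨max 1 (Real.exp c₁ * C * 4 ^ P / κ₀), c₁, P, fun t => ENNReal.ofReal κ₀ *
    ∑' x : ℕ × ℕ × ℕ, ENNReal.ofReal (TRSTR.wt P x.1 x.2.1) *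
    ∑ k ∈ TRSTR.G x.1 x.2.2, yy (TRSTR.pt x.2.2 k) (TRSTR.th T x.1 x.2.1 x.2.2)
      (2 * ((x.2.1 : ℝ) + 1)) (he' x.2.1) t, le_max_left _ _, hc₁, fun N => ?_,
    fun W hW w hw hw2 => ?_⟩
  · have key := TRSTR.exp_Y (μ := μ) (κ := ENNReal.ofReal κ₀) (fun x => (hwt x).le)
      (fun x k t _ => yy (TRSTR.pt x.2.2 k) (TRSTR.th T x.1 x.2.1 x.2.2)
        (2 * ((x.2.1 : ℝ) + 1)) (he' x.2.1) t)
      (fun x k t => measurable_const)
      (fun x k => C * (2 * ((x.2.1 : ℝ) + 1)) ^ p * (1 + ‖TRSTR.pt x.2.2 k‖) ^ p *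
        Real.exp (-(q * TRSTR.th T x.1 x.2.1 x.2.2))) (fun x k N => ?_)
      (b := TRSTR.bb B r) ?_ ?_ N
    · simpa only [lintegral_const, measure_univ, mul_one] using key
    · simpa only [lintegral_const, measure_univ, mul_one] using hyy _ _ _ _ N
    · intro x k hk
      rw [hP, hB, hr]
      exact TRSTR.term_le hC0.le hT0 hqQ x.1 x.2.1 x.2.2 hk
    · rw [← ENNReal.ofReal_tsum_of_nonneg (fun x => TRSTR.bb_nonneg hB0 hr0 x) hsum,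
        ← ENNReal.ofReal_mul hκ0.le, ← hTTdef, hκ]
      apply ENNReal.ofReal_le_one.2
      rw [one_div, inv_mul_le_iff₀ (by positivity)]
      linarith
  choose F hF1 hF2 hF3 using fun (z₀ : ℂ) (θ e : ℝ) (he : 1 ≤ e) => hYY z₀ θ e he W hW w hw hw2
  refine ⟨fun t ω => ENNReal.ofReal κ₀ * ∑' x : ℕ × ℕ × ℕ,
    ENNReal.ofReal (TRSTR.wt P x.1 x.2.1) *
    ∑ k ∈ TRSTR.G x.1 x.2.2, F (TRSTR.pt x.2.2 k) (TRSTR.th T x.1 x.2.1 x.2.2)
      (2 * ((x.2.1 : ℝ) + 1)) (he' x.2.1) t ω, fun t => ?_, fun t => ?_, ?_⟩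
  · exact @TRSTR.meas_Y Ω (Blk W 0 t) _ _ _ fun x k => hF1 _ _ _ _ t
  · have hFm : ∀ (x : ℕ × ℕ × ℕ) (k : ℤ × ℤ), Measurable (F (TRSTR.pt x.2.2 k)
        (TRSTR.th T x.1 x.2.1 x.2.2) (2 * ((x.2.1 : ℝ) + 1)) (he' x.2.1) t) := fun x k =>
      (hF1 _ _ _ _ t).mono (Blk_le hW.toDrv 0 t) le_rfl
    have m1 : ∀ x : ℕ × ℕ × ℕ, Measurable fun ω => ∑ k ∈ TRSTR.G x.1 x.2.2,
        F (TRSTR.pt x.2.2 k) (TRSTR.th T x.1 x.2.1 x.2.2) (2 * ((x.2.1 : ℝ) + 1))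
          (he' x.2.1) t ω :=
      fun x => Finset.measurable_fun_sum _ fun k _ => hFm x k
    rw [lintegral_const_mul _ (Measurable.ennreal_tsum fun x => (m1 x).const_mul _),
      lintegral_tsum fun x => ((m1 x).const_mul _).aemeasurable]
    refine mul_le_mul_right (ENNReal.tsum_le_tsum fun x => ?_) _
    rw [lintegral_const_mul _ (m1 x), lintegral_finsetSum _ fun k _ => hFm x k]
    exact mul_le_mul_right (Finset.sum_le_sum fun k _ => hF2 _ _ _ _ t) _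
  · intro ω t z g u₁ u₂ s e κ ht hu₁ hu₂ hs he hκp hz1 hz hg h1 h2 h3 h4
    have ht' : (1 : ℝ) ≤ t := by exact_mod_cast ht
    have hexp : 1 ≤ Real.exp κ := Real.one_le_exp hκp
    obtain ⟨E, hE⟩ : ∃ E, E = e * Real.exp κ := ⟨_, rfl⟩
    have hE1 : 1 ≤ E := by rw [hE]; nlinarith
    have hcs : ⌈s⌉₊ ≠ 0 := by
      have : 0 < ⌈s⌉₊ := Nat.ceil_pos.2 (by linarith)
      omega
    have hce : ⌈E⌉₊ ≠ 0 := by
      have : 0 < ⌈E⌉₊ := Nat.ceil_pos.2 (by linarith)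
      omega
    obtain ⟨s', hs'⟩ := Nat.exists_eq_succ_of_ne_zero hcs
    obtain ⟨m, hm⟩ := Nat.exists_eq_succ_of_ne_zero hce
    have a1 : s ≤ (s' : ℝ) + 1 := by
      have := Nat.le_ceil s
      rw [hs'] at this
      push_cast at this
      exact this
    have a2 : (s' : ℝ) + 1 ≤ 2 * s := by
      have := Nat.ceil_lt_add_one (show 0 ≤ s by linarith)
      rw [hs'] at this
      push_cast at this
      linarith
    have a3 : E ≤ (m : ℝ) + 1 := by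
      have := Nat.le_ceil E
      rw [hm] at this
      push_cast at this
      exact this
    have a4 : (m : ℝ) + 1 ≤ 2 * E := by
      have := Nat.ceil_lt_add_one (show 0 ≤ E by linarith)
      rw [hm] at this
      push_cast at this
      linarith
    obtain ⟨n, k, g', hk, hpt, hg', hlo, hup, hf1, hf2, hlk⟩ :=
      TCST3.flag3 (U := fun t => W t ω) (hW.cont ω) (hW.zero 0 le_rfl ω) ht' hε hε2 he hκp
        hu₁ hu₂ hg hz1 h1 h2 h3 h4 (hz.trans a1) (by rw [← hE]; exact a3)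
    rw [← hT] at hf1 hf2
    have key := hF3 (TRSTR.pt n k) (TRSTR.th T s' m n) (2 * ((m : ℝ) + 1)) (he' m) hpt ω t g'
      u₁ u₂ ht hu₁ hu₂ hg' hlo hup hf1 hf2
    have b1 : Real.exp (c₁ * lk (fun t => W t ω) g 0 ((t : ℝ) - 1)) ≤
        Real.exp c₁ * Real.exp (c₁ * lk (fun t => W t ω) g' 0 ((t : ℝ) - 1)) := by
      rw [← Real.exp_add]
      apply Real.exp_le_exp.2
      nlinarith
    have b2 : Real.exp c₁ * C / (κ₀ * TRSTR.wt P s' m) ≤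
        max 1 (Real.exp c₁ * C * 4 ^ P / κ₀) * (s * e * Real.exp κ) ^ P := by
      have c1 : (((s' : ℝ) + 1) * ((m : ℝ) + 1)) ^ P ≤ (4 * (s * e * Real.exp κ)) ^ P := by
        have c2 : (0 : ℝ) ≤ s' := Nat.cast_nonneg s'
        have c3 : (0 : ℝ) ≤ m := Nat.cast_nonneg m
        refine pow_le_pow_left₀ (by positivity) ?_ P
        calc ((s' : ℝ) + 1) * ((m : ℝ) + 1) ≤ (2 * s) * (2 * E) :=
              mul_le_mul a2 a4 (by positivity) (by positivity)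
          _ = 4 * (s * e * Real.exp κ) := by rw [hE]; ring
      calc Real.exp c₁ * C / (κ₀ * TRSTR.wt P s' m)
          = Real.exp c₁ * C / κ₀ * (((s' : ℝ) + 1) * ((m : ℝ) + 1)) ^ P := by
            unfold TRSTR.wt
            field_simp
        _ ≤ Real.exp c₁ * C / κ₀ * (4 * (s * e * Real.exp κ)) ^ P := by gcongr
        _ = Real.exp c₁ * C * 4 ^ P / κ₀ * (s * e * Real.exp κ) ^ P := by
            rw [mul_pow]
            ring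
        _ ≤ _ := by
            gcongr
            exact le_max_right _ _
    have b3 := TRSTR.low_Y (Ω := Ω) hκ0 (w := fun x => TRSTR.wt P x.1 x.2.1)
      (fun x k => F (TRSTR.pt x.2.2 k) (TRSTR.th T x.1 x.2.1 x.2.2)
        (2 * ((x.2.1 : ℝ) + 1)) (he' x.2.1) (t + 1)) (s', m, n) (hwt (s', m, n)) (k := k) hk
      (by positivity) b2 ω
    refine le_trans ?_ b3
    calc ENNReal.ofReal (Real.exp (c₁ * lk (fun t => W t ω) g 0 ((t : ℝ) - 1))) * w t ω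
        ≤ ENNReal.ofReal (Real.exp c₁) *
          ENNReal.ofReal (Real.exp (c₁ * lk (fun t => W t ω) g' 0 ((t : ℝ) - 1))) * w t ω := by
          rw [← ENNReal.ofReal_mul (Real.exp_pos _).le]
          exact mul_le_mul_left (ENNReal.ofReal_le_ofReal b1) _
      _ = ENNReal.ofReal (Real.exp c₁) *
          (ENNReal.ofReal (Real.exp (c₁ * lk (fun t => W t ω) g' 0 ((t : ℝ) - 1))) * w t ω) := by
          rw [mul_assoc]
      _ ≤ ENNReal.ofReal (Real.exp c₁) * (ENNReal.ofReal C *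
          F (TRSTR.pt n k) (TRSTR.th T s' m n) (2 * ((m : ℝ) + 1)) (he' m) (t + 1) ω) := by
          exact mul_le_mul_right key _
      _ = _ := by
          rw [← mul_assoc, ← ENNReal.ofReal_mul (Real.exp_pos _).le]

end

end Pool.Agent.SLE
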