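import Pool.Agent.Lib.MP_c17912_pr_TC.FCD
import Pool.Agent.Lib.MP_c17912_pr_TC.ST3
import Pool.Agent.Lib.MP_c17912_pr_TR.STR

/-!
# MP_c17912_pr, project TC: `StrC` from the stretch theorem `stretch3`
-/

set_option autoImplicit false

open MeasureTheory ProbabilityTheory Filter
open scoped NNReal ENNReal Topology Real

namespace Pool.Agent.SLE

noncomputable section

namespace TCFCX

theorem kk_le3 {ε : ℝ} (hε : 0 < ε) (hε1 : ε ≤ 1) {z : ℂ} (hz : 1 ≤ ‖z‖) : kk 1 ε z ≤ 3 := by
  have h0 : 0 < ‖z‖ := by linarith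
  have h1 : 1 ≤ ‖z‖ ^ 2 := one_le_pow₀ hz
  have h2 : |(1 / z ^ 2).re| ≤ 1 := by
    refine (Complex.abs_re_le_norm _).trans ?_
    rw [norm_div, norm_one, norm_pow]
    exact (div_le_one (by positivity)).2 h1
  have h3 : ε / ‖z‖ ^ 2 ≤ ε := div_le_self hε.le h1
  have h5 := abs_le.1 h2
  rw [kk]
  linarith [h5.1, h5.2]

/-- On an interval on which `|Z| ≥ 1` the functional `ph` grows at most by `3` per unit of time and
by `log |Z|` at the beginning. -/
theorem ph_grow {U : ℝ → ℂ} (hU : Continuous U) {z : ℂ} {u ε : ℝ} (hε : 0 < ε) (hε1 : ε ≤ 1)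
    {g : ℝ → ℂ} (hg : Sol U z u g) {w v : ℝ} (hw : 0 ≤ w) (hwv : w ≤ v) (hv : v ≤ u)
    (h1 : ∀ τ ∈ Set.Ioc w v, 1 ≤ ‖g τ - U τ‖) (hv1 : 1 ≤ ‖g v - U v‖) :
    ph U g ε v ≤ ph U g ε w + 3 * (v - w) + Real.log ‖g w - U w‖ := by
  have hc1 := TRPHS.cont (ε := ε) hU hg
  have i1 : IntervalIntegrable (fun v => kk 1 ε (g v - U v)) volume 0 w := by
    apply ContinuousOn.intervalIntegrable
    refine hc1.mono ?_
    rw [Set.uIcc_of_le hw]
    exact Set.Icc_subset_Icc_right (hwv.trans hv)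
  have i2 : IntervalIntegrable (fun v => kk 1 ε (g v - U v)) volume w v := by
    apply ContinuousOn.intervalIntegrable
    refine hc1.mono ?_
    rw [Set.uIcc_of_le hwv]
    exact Set.Icc_subset_Icc hw hv
  have i3 := intervalIntegral.integral_add_adjacent_intervals i1 i2
  have i4 : (∫ v in w..v, kk 1 ε (g v - U v)) ≤ ∫ _ in w..v, (3 : ℝ) := by
    refine intervalIntegral.integral_mono_on_of_le_Ioo hwv i2 intervalIntegrable_const ?_
    intro τ hτ
    exact kk_le3 hε hε1 (h1 τ ⟨hτ.1, hτ.2.le⟩)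
  rw [intervalIntegral.integral_const, smul_eq_mul] at i4
  have i5 : 0 ≤ Real.log ‖g v - U v‖ := Real.log_nonneg hv1
  unfold ph
  linarith

end TCFCX

/-- TC-FCX1. The records of `ph` before the first break: if at all times `v < u` with `|Z_v| ≤ 1`
the functional `ph` is below its running maximum, then the maximum over `[0,u]` is at most
`log e + 6` larger than the one over `[0,s]`, `u - 2 ≤ s ≤ u`, `|Z| ≤ e` on `[s,u]`.

Proof. Let `A v = ∫_0^v kk 1 ε Z`, `ph v = A v - log |Z_v|`, `m` as in the statement,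
`f v = m + log e + 3 (v - s)`, `h v = ph v - f v`. By continuity it suffices to show `h ≤ 0` on
`[s, v₀]` for `v₀ < u`. Let `x` be a maximum point of `h` on `[s,v₀]` and suppose `0 < h x`. (i) No
maximum point `x` is low: if `|Z_x| ≤ 1` there is `w ≤ x` with `ph x < ph w`; if `w ≤ s` then
`ph x < m ≤ f x`; if `s ≤ w` then `h x < h w` as `f` is monotone. (ii) If there are low times in
`[s,x]` let `l` be the last one (closed set), so `|Z| ≥ 1` on `[l,x]` and `log |Z_l| ≤ 0`:
`ph x ≤ A x ≤ A l + 3 (x - l) ≤ ph l + 3 (x - l)` (`kk_le`: `kk 1 ε z ≤ 3` if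
`|z| ≥ 1`, `ε ≤ 1`), so `h x ≤ h l` and `l` is a low maximum point, contradiction. (iii) Otherwise
`|Z| ≥ 1` on `[s,x]` and `ph x ≤ A x ≤ A s + 3 (x - s) = ph s + log |Z_s| + 3 (x - s) ≤ f x`. -/
theorem rec_bound {U : ℝ → ℂ} (hU : Continuous U) {z : ℂ} {ε s u e m : ℝ} (hε : 0 < ε)
    (hε1 : ε ≤ 1) {g : ℝ → ℂ} (hg : Sol U z u g) (hs : 0 ≤ s) (hsu : s ≤ u) (hus : u ≤ s + 2)
    (he : 1 ≤ e) (hZ : ∀ v ∈ Set.Icc s u, ‖g v - U v‖ ≤ e)
    (hm : ∀ v ∈ Set.Icc (0 : ℝ) s, ph U g ε v ≤ m)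
    (hlow : ∀ v ∈ Set.Ico (0 : ℝ) u, ‖g v - U v‖ ≤ 1 → ∃ w ∈ Set.Icc (0 : ℝ) v,
      ph U g ε v < ph U g ε w) :
    ∀ v ∈ Set.Icc (0 : ℝ) u, ph U g ε v ≤ m + Real.log e + 6 := by
  have hu0 : 0 ≤ u := by linarith
  have hle : 0 ≤ Real.log e := Real.log_nonneg he
  have hpc := TRSTR.ph_cont (ε := ε) hU hu0 hg
  have hZc : ContinuousOn (fun v => ‖g v - U v‖) (Set.Icc 0 u) := by
    have h4 : ContinuousOn (fun v => g v - U v) (Set.Icc 0 u) :=
      ContinuousOn.sub (fun v hv => (hg.2.2 v hv).continuousWithinAt) hU.continuousOn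
    exact h4.norm
  -- the claim for the times before `u`
  have key : ∀ v ∈ Set.Ico s u, ph U g ε v - 3 * (v - s) ≤ m + Real.log e := by
    intro v hv
    have hsub : Set.Icc s v ⊆ Set.Icc 0 u := Set.Icc_subset_Icc hs hv.2.le
    have hφc : ContinuousOn (fun x => ph U g ε x - 3 * (x - s)) (Set.Icc s v) :=
      (hpc.mono hsub).sub (by fun_prop)
    obtain ⟨y, hy, hymax⟩ := isCompact_Icc.exists_isMaxOn (Set.nonempty_Icc.2 hv.1) hφc
    have hym : ∀ x ∈ Set.Icc s v,
        ph U g ε x - 3 * (x - s) ≤ ph U g ε y - 3 * (y - s) := fun x hx => hymax hx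
    refine (hym v ⟨hv.1, le_rfl⟩).trans ?_
    -- a time of the interval with `|Z| ≤ 1` at which the functional is at least as large
    have hlo : ∀ x ∈ Set.Icc s v, ‖g x - U x‖ ≤ 1 →
        ph U g ε y - 3 * (y - s) ≤ ph U g ε x - 3 * (x - s) →
        ph U g ε y - 3 * (y - s) ≤ m := by
      intro x hx hx1 hx2
      obtain ⟨w, hw, hw2⟩ := hlow x ⟨by linarith [hx.1], by linarith [hx.2, hv.2]⟩ hx1
      rcases le_total s w with hc | hc
      · have := hym w ⟨hc, hw.2.trans hx.2⟩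
        linarith [hw.2]
      · have := hm w ⟨hw.1, hc⟩
        linarith [hx.1]
    rcases le_or_gt ‖g y - U y‖ 1 with hc | hc
    · linarith [hlo y hy hc le_rfl]
    · -- the last time before `y` with `|Z| ≤ 1`
      rcases Set.eq_empty_or_nonempty {x | x ∈ Set.Icc s y ∧ ‖g x - U x‖ ≤ 1} with h | h
      · have h3 : ∀ τ ∈ Set.Ioc s y, 1 ≤ ‖g τ - U τ‖ := by
          intro τ hτ
          by_contra hcon
          push Not at hcon
          have : τ ∈ {x | x ∈ Set.Icc s y ∧ ‖g x - U x‖ ≤ 1} :=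
            ⟨⟨hτ.1.le, hτ.2⟩, hcon.le⟩
          rw [h] at this
          exact this
        have h4 := TCFCX.ph_grow hU hε hε1 hg (w := s) (v := y) hs hy.1
          (by linarith [hy.2, hv.2]) h3 hc.le
        have h5 : Real.log ‖g s - U s‖ ≤ Real.log e := by
          have h6 := hZ s ⟨le_rfl, hsu⟩
          have h7 : 0 < ‖g s - U s‖ :=
            norm_pos_iff.2 (sub_ne_zero.2 (hg.2.1 _ ⟨hs, hsu⟩))
          exact Real.log_le_log h7 h6
        have h8 := hm s ⟨hs, le_rfl⟩
        linarith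
      · have hcl : IsCompact {x | x ∈ Set.Icc s y ∧ ‖g x - U x‖ ≤ 1} := by
          have h3 : ContinuousOn (fun v => ‖g v - U v‖) (Set.Icc s y) :=
            hZc.mono (Set.Icc_subset_Icc hs (by linarith [hy.2, hv.2]))
          have h4 := h3.preimage_isClosed_of_isClosed isClosed_Icc isClosed_Iic (t := Set.Iic 1)
          exact isCompact_Icc.of_isClosed_subset h4 Set.inter_subset_left
        obtain ⟨w, hw, hwmax⟩ := hcl.exists_isGreatest h
        have hws : w < y := by
          rcases lt_or_eq_of_le hw.1.2 with h' | h'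
          · exact h'
          · exfalso
            have := hw.2
            rw [h'] at this
            linarith
        have h3 : ∀ τ ∈ Set.Ioc w y, 1 ≤ ‖g τ - U τ‖ := by
          intro τ hτ
          by_contra hcon
          push Not at hcon
          have := hwmax (show τ ∈ {x | x ∈ Set.Icc s y ∧ ‖g x - U x‖ ≤ 1} from
            ⟨⟨hw.1.1.trans hτ.1.le, hτ.2⟩, hcon.le⟩)
          linarith [hτ.1]
        have h4 := TCFCX.ph_grow hU hε hε1 hg (w := w) (v := y) (by linarith [hw.1.1]) hws.le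
          (by linarith [hy.2, hv.2]) h3 hc.le
        have h5 : Real.log ‖g w - U w‖ ≤ 0 := Real.log_nonpos (norm_nonneg _) hw.2
        linarith [hlo w ⟨hw.1.1, hws.le.trans hy.2⟩ hw.2 (by linarith)]
  -- the last time
  have key2 : s < u → ph U g ε u - 3 * (u - s) ≤ m + Real.log e := by
    intro hsu'
    have hφc : ContinuousWithinAt (fun x => ph U g ε x - 3 * (x - s)) (Set.Ico s u) u := by
      have h3 : ContinuousWithinAt (ph U g ε) (Set.Ico s u) u :=
        (hpc u ⟨hu0, le_rfl⟩).mono fun x hx => ⟨by linarith [hx.1], hx.2.le⟩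
      exact h3.sub (by fun_prop)
    haveI : (𝓝[Set.Ico s u] u).NeBot := by
      refine mem_closure_iff_nhdsWithin_neBot.1 ?_
      rw [closure_Ico hsu'.ne]
      exact ⟨hsu, le_rfl⟩
    exact le_of_tendsto hφc (eventually_of_mem self_mem_nhdsWithin key)
  intro v hv
  rcases le_or_gt v s with hc | hc
  · have := hm v ⟨hv.1, hc⟩
    linarith
  · rcases lt_or_eq_of_le hv.2 with h' | h'
    · have := key v ⟨hc.le, h'⟩
      linarith
    · have := key2 (by linarith)
      rw [h']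
      linarith

variable {Ω : Type*} [MeasurableSpace Ω] {μ : Measure Ω}

/-- TC-FCX2. `StrC` with slack `0` from `stretch3`.

Proof. `C₀ c₁ p₀ y₀` from `stretch3`; `κ = 2`, `p = 2 p₀`, `C = 2 C₀ exp (6 p₀)`,
`y t = y₀ (t + 1)` (`∑' t, y t ≤ 1` from the partial sums: `ENNReal.tsum_le_of_sum_range_le`).
Given `W`, `β`, `Bd`: the weights `w t = bw β (Bd t) / 2`:
`∫ (bw / 2)² ≤ (1 + (2 exp β + exp (2 β)) μ (Bd t)) / 4 ≤ 1` since `μ (Bd t) ≤ exp (-(2 β))`.
`Y t := Y₀ (t + 1)`. For `PieceP`: `u₂ = u`; `u₁` a maximum point of `ph` on `[0, t - 1]` (`ph` is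
continuous: `TRSTR.ph_cont`); `1 ≤ |Z_{u₁}|`, otherwise the last hypothesis of `PieceP` gives
`w ≤ u₁` with `ph u₁ < ph w`; `κ = log e + 6` by `rec_bound` with `s = t - 1`, `m = ph u₁`;
`ph u₁ ≤ ph u` (`fresh`); `1 ≤ ‖z‖` because `g 0 = z`, `W 0 ω = 0`, and the first cell is not low. Finally
`(s e exp (log e + 6)) ^ p₀ = exp (6 p₀) (s e²) ^ p₀ ≤ exp (6 p₀) (s e) ^ (2 p₀)`. -/
theorem strC_of_hasC [IsProbabilityMeasure μ] {a b c K : ℝ} (ha : 0 ≤ a) (hb : 0 ≤ b)
    (hc : c ^ 2 ≤ a * b) (hK : 0 ≤ K) (hC : HasC a b c) :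
    ∃ ε₀ : ℝ, 0 < ε₀ ∧ ε₀ ≤ 1 ∧ ∀ ε : ℝ, 0 < ε → ε ≤ ε₀ → StrC μ a b c K ε 0 := by
  classical
  obtain ⟨ε₀, hε₀, hε₀1, H⟩ := stretch3 (μ := μ) ha hb hc hK hC
  refine ⟨ε₀, hε₀, hε₀1, fun ε hε hεε => ?_⟩
  obtain ⟨C, c₁, p, y, hC1, hc₁, hy, H2⟩ := H ε hε hεε
  have hε1 : ε ≤ 1 := hεε.trans hε₀1
  refine ⟨2 * C * Real.exp 6 ^ p, c₁, 2, 2 * p, fun t => y (t + 1), ?_, hc₁, by norm_num, ?_,
    fun W hW β Bd hβ hBm hBp => ?_⟩
  · have h1 : 1 ≤ Real.exp 6 ^ p := one_le_pow₀ (Real.one_le_exp (by norm_num))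
    nlinarith
  · exact ENNReal.tsum_le_of_sum_range_le hy
  · have hBm' : ∀ t, MeasurableSet (Bd t) := fun t => Blk_le hW.toDrv _ _ _ (hBm t)
    have hbm : ∀ t : ℕ, Measurable[Blk W t ((t : ℝ) + 1)] (bw β (Bd t)) := fun t => by
      have h1 : Measurable[Blk W t ((t : ℝ) + 1)]
          (fun ω => if ω ∈ Bd t then ENNReal.ofReal (Real.exp β) else 0) :=
        Measurable.ite (hBm t) measurable_const measurable_const
      exact h1.const_add 1
    have hsq : ∀ t, ∫⁻ ω, bw β (Bd t) ω ^ 2 ∂μ ≤ 4 := by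
      intro t
      have h1 : ∀ ω, bw β (Bd t) ω ^ 2 =
          1 + (Bd t).indicator (fun _ => ENNReal.ofReal (2 * Real.exp β + Real.exp (2 * β))) ω := by
        intro ω
        by_cases hω : ω ∈ Bd t
        · rw [Set.indicator_of_mem hω, bw, if_pos hω,
            show (1 : ℝ≥0∞) = ENNReal.ofReal 1 by simp, ← ENNReal.ofReal_add (by norm_num)
              (Real.exp_pos _).le, ← ENNReal.ofReal_pow (by positivity),
            ← ENNReal.ofReal_add (by norm_num) (by positivity)]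
          congr 1
          have : Real.exp (2 * β) = Real.exp β ^ 2 := by rw [← Real.exp_nat_mul]; norm_num
          rw [this]
          ring
        · rw [Set.indicator_of_notMem hω, bw, if_neg hω]
          simp
      calc ∫⁻ ω, bw β (Bd t) ω ^ 2 ∂μ
          = 1 + ENNReal.ofReal (2 * Real.exp β + Real.exp (2 * β)) * μ (Bd t) := by
            simp only [h1]
            rw [lintegral_add_left measurable_const, lintegral_indicator_const (hBm' t)]
            simp
        _ ≤ 1 + ENNReal.ofReal (2 * Real.exp β + Real.exp (2 * β)) *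
            ENNReal.ofReal (Real.exp (-(2 * β))) := by
            gcongr
            exact hBp t
        _ = ENNReal.ofReal (1 + (2 * Real.exp β + Real.exp (2 * β)) * Real.exp (-(2 * β))) := by
            rw [ENNReal.ofReal_add zero_le_one (by positivity),
              ENNReal.ofReal_mul (by positivity), ENNReal.ofReal_one]
        _ ≤ ENNReal.ofReal 4 := by
            apply ENNReal.ofReal_le_ofReal
            have e1 : Real.exp β * Real.exp (-(2 * β)) ≤ 1 := by
              rw [← Real.exp_add]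
              exact Real.exp_le_one_iff.2 (by linarith)
            have e2 : Real.exp (2 * β) * Real.exp (-(2 * β)) = 1 := by
              rw [← Real.exp_add]
              simp
            nlinarith
        _ = 4 := by norm_num
    obtain ⟨Y, hYm, hYi, hYl⟩ := H2 W hW (fun t ω => bw β (Bd t) ω / 2)
      (fun t => (hbm t).div_const 2) (fun t => by
        have h1 : ∀ ω, (bw β (Bd t) ω / 2) ^ 2 = (1 / 4) * bw β (Bd t) ω ^ 2 := by
          intro ω
          have h2 : (2⁻¹ : ℝ≥0∞) ^ 2 = 1 / 4 := by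
            rw [← ENNReal.inv_pow, one_div]
            congr 1
            norm_num
          rw [div_eq_mul_inv, mul_pow, h2, mul_comm]
        calc ∫⁻ ω, (bw β (Bd t) ω / 2) ^ 2 ∂μ
            = ∫⁻ ω, (1 / 4) * bw β (Bd t) ω ^ 2 ∂μ := by simp only [h1]
          _ = 1 / 4 * ∫⁻ ω, bw β (Bd t) ω ^ 2 ∂μ := by
              rw [lintegral_const_mul]
              exact ((hbm t).mono (Blk_le hW.toDrv _ _) le_rfl).pow_const 2
          _ ≤ 1 / 4 * 4 := by gcongr; exact hsq t
          _ = 1 := by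
              rw [one_div]
              exact ENNReal.inv_mul_cancel (by norm_num) (by norm_num))
    refine ⟨fun t => Y (t + 1), fun t => ?_, fun t => hYi (t + 1), ?_⟩
    · have e0 : ((t : ℝ) + 1) = ((t + 1 : ℕ) : ℝ) := by push_cast; ring
      rw [e0]
      exact hYm (t + 1)
    · intro ω t u z g s e ht htu hut hs he hz hg hlow1 hZe hf hbr
      have ht1 : (1 : ℝ) ≤ t := by exact_mod_cast ht
      have hU := hW.cont ω
      have hz1 : 1 ≤ ‖z‖ := by
        have := hlow1 0 ⟨le_rfl, zero_le_one⟩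
        rwa [hg.1, hW.zero 0 le_rfl ω, sub_zero] at this
      obtain ⟨u₁, hu₁, hmax⟩ := isCompact_Icc.exists_isMaxOn
        (Set.nonempty_Icc.2 (show (0 : ℝ) ≤ (t : ℝ) - 1 by linarith))
        ((TRSTR.ph_cont (ε := ε) hU (by linarith : (0 : ℝ) ≤ u) hg).mono
          (Set.Icc_subset_Icc_right (by linarith)))
      have hm1 : ∀ v ∈ Set.Icc (0 : ℝ) ((t : ℝ) - 1),
          ph (fun t => W t ω) g ε v ≤ ph (fun t => W t ω) g ε u₁ := fun v hv => hmax hv
      have hbr' : ∀ v ∈ Set.Ico (0 : ℝ) u, ‖g v - W v ω‖ ≤ 1 → ∃ w ∈ Set.Icc (0 : ℝ) v,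
          ph (fun t => W t ω) g ε v < ph (fun t => W t ω) g ε w := by
        intro v hv h1
        obtain ⟨w, hw, hw2⟩ := hbr v hv h1
        exact ⟨w, hw, by linarith⟩
      have hu11 : 1 ≤ ‖g u₁ - W u₁ ω‖ := by
        by_contra hcon
        push Not at hcon
        obtain ⟨w, hw, hw2⟩ := hbr' u₁ ⟨hu₁.1, by linarith [hu₁.2]⟩ hcon.le
        have := hm1 w ⟨hw.1, hw.2.trans hu₁.2⟩
        linarith
      have hrec := rec_bound (U := fun t => W t ω) hU hε hε1 hg (s := (t : ℝ) - 1) (by linarith)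
        (by linarith) (by linarith) he hZe hm1 hbr'
      have key := hYl ω t z g u₁ u s e (Real.log e + 6) ht hu₁ ⟨htu, hut⟩ hs he
        (by have := Real.log_nonneg he; linarith) hz1 hz hg hu11
        (fun v hv => hZe v ⟨hv.1, hv.2.trans htu⟩)
        (fun v hv => by have := hrec v hv; linarith) (by
          have := hf u₁ ⟨hu₁.1, by linarith [hu₁.2]⟩
          linarith)
      have he0 : 0 < e := by linarith
      have e1 : C * (s * e * Real.exp (Real.log e + 6)) ^ p ≤
          C * Real.exp 6 ^ p * (s * e) ^ (2 * p) := by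
        rw [Real.exp_add, Real.exp_log he0]
        have e2 : s * e * (e * Real.exp 6) ≤ Real.exp 6 * (s * e) ^ 2 := by
          have : s * e * e ≤ (s * e) ^ 2 := by
            have h3 : 0 ≤ s * e * e := by positivity
            nlinarith
          nlinarith [Real.exp_pos 6]
        have e3 : (s * e * (e * Real.exp 6)) ^ p ≤ (Real.exp 6 * (s * e) ^ 2) ^ p := by
          gcongr
        rw [mul_pow (Real.exp 6) ((s * e) ^ 2) p, ← pow_mul] at e3
        have hC0 : 0 ≤ C := by linarith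
        nlinarith
      have e4 : ENNReal.ofReal (Real.exp (c₁ * lk (fun t => W t ω) g 0 ((t : ℝ) - 1))) *
          bw β (Bd t) ω =
          2 * (ENNReal.ofReal (Real.exp (c₁ * lk (fun t => W t ω) g 0 ((t : ℝ) - 1))) *
            (bw β (Bd t) ω / 2)) := by
        rw [mul_left_comm]
        congr 1
        exact (ENNReal.mul_div_cancel (by norm_num) (by norm_num)).symm
      show ENNReal.ofReal (Real.exp (c₁ * lk (fun t => W t ω) g 0 ((t : ℝ) - 1))) *
        bw β (Bd t) ω ≤ _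
      rw [e4]
      calc _ ≤ 2 * (ENNReal.ofReal (C * (s * e * Real.exp (Real.log e + 6)) ^ p) *
            Y (t + 1) ω) := by gcongr
        _ ≤ 2 * (ENNReal.ofReal (C * Real.exp 6 ^ p * (s * e) ^ (2 * p)) * Y (t + 1) ω) := by
            gcongr
        _ = _ := by
            rw [← mul_assoc]
            congr 1
            rw [show (2 : ℝ≥0∞) = ENNReal.ofReal 2 by norm_num, ← ENNReal.ofReal_mul (by norm_num)]
            congr 1
            ring

end

end Pool.Agent.SLE
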