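import Pool.Agent.Lib.MP_c17912_pr_TC.FCFc
import Pool.Agent.Lib.MP_c17912_pr_TC.FCI
import Pool.Agent.Lib.MP_c17912_pr_TC.FCX
import Pool.Agent.Lib.MP_c17912_pr_TC.TLE

/-!
# MP_c17912_pr, project TC: summary of the forward critical case

* `transient_of_hasC`: transience for a matrix with `HasC`.
* `fwdP_of_hasC`: the input `FwdP` of the backward critical case (file `BWIF`).
-/

set_option autoImplicit false

open MeasureTheory ProbabilityTheory Filter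
open scoped NNReal ENNReal Topology Real

namespace Pool.Agent.SLE

noncomputable section

variable {Ω : Type*} [MeasurableSpace Ω] {μ : Measure Ω}

/-- TC-FCZ1. Transience from `HasC` and the fact that a fixed point lives for ever. -/
theorem transient_of_hasC [IsProbabilityMeasure μ] {a b c K : ℝ} (ha : 0 ≤ a) (hb : 0 ≤ b)
    (hc : c ^ 2 ≤ a * b) (hK : 0 ≤ K) (hC : HasC a b c) {W : ℝ → Ω → ℂ}
    (hW : Gau a b c K W μ)
    (hNA : ∀ z : ℂ, z ≠ 0 → ∀ᵐ ω ∂μ, ∀ t, 0 ≤ t → ∃ g : ℝ → ℂ, Sol (fun t => W t ω) z t g) :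
    ∀ᵐ ω ∂μ, Transient (fun t => W t ω) := by
  obtain ⟨ε₁, hε₁, hε₁1, h1⟩ := strC_of_hasC (μ := μ) ha hb hc hK hC
  obtain ⟨ε₂, hε₂, h2⟩ := tailP_of_hasC (μ := μ) ha hb hK hC
  have hε : 0 < min ε₁ ε₂ := lt_min hε₁ hε₂
  have h3 : min ε₁ ε₂ ≤ 2 := by
    have := min_le_left ε₁ ε₂
    linarith
  exact transient_fwd ha hb hε h3 (h1 _ hε (min_le_left _ _))
    (h2 _ hε (min_le_right _ _) 0 le_rfl) hW hNA

/-- TC-FCZ2. The input of the backward critical case. -/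
theorem fwdP_of_hasC [IsProbabilityMeasure μ] {a b c K : ℝ} (ha : 0 ≤ a) (hb : 0 ≤ b)
    (hc : c ^ 2 ≤ a * b) (hK : 0 ≤ K) (hC : HasC a b c) : FwdP μ a b c K := by
  obtain ⟨ε₁, hε₁, hε₁1, h1⟩ := strC_of_hasC (μ := μ) ha hb hc hK hC
  obtain ⟨ε₂, hε₂, h2⟩ := tailP_of_hasC (μ := μ) ha hb hK hC
  have hε : 0 < min ε₁ ε₂ := lt_min hε₁ hε₂
  refine ⟨rid_c ha hb le_rfl (h1 _ hε (min_le_left _ _))
    (h2 _ hε (min_le_right _ _) 0 le_rfl), min ε₁ ε₂, hε, fun ε hε' hεε => ⟨0, le_rfl, ?_, ?_⟩⟩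
  · exact closP_of le_rfl (h1 ε hε' (hεε.trans (min_le_left _ _)))
  · exact h2 ε hε' (hεε.trans (min_le_right _ _)) 0 le_rfl

end

end Pool.Agent.SLE
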