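import Pool.Agent.Lib.MP_c17912_pr_TR.STR

/-!
# MP_c17912_pr, project TC: the running maximum of `ph` before the first break
-/

set_option autoImplicit false

open MeasureTheory ProbabilityTheory Filter
open scoped NNReal ENNReal Topology Real

namespace Pool.Agent.SLE

noncomputable section

namespace TCFX

theorem kk_le3 {ε : ℝ} (hε : 0 < ε) (hε1 : ε ≤ 1) {z : ℂ} (hz : 1 ≤ ‖z‖) : kk 1 ε z ≤ 3 := by
  have h0 : 0 < ‖z‖ := by linarith
  have h1 : 1 ≤ ‖z‖ ^ 2 := one_le_pow₀ hz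
  have h2 : |(1 / z ^ 2).re| ≤ 1 := by
    refine (Complex.abs_re_le_norm _).trans ?_
    rw [norm_div, norm_one, norm_pow]
    exact (div_le_one (by positivity)).2 h1
  have h3 : ε / ‖z‖ ^ 2 ≤ ε := div_le_self hε.le h1
  have h5 := abs_le.1 h2
  rw [kk]
  linarith [h5.1, h5.2]

/-- On an interval on which `|Z| ≥ 1` the functional `ph` grows at most by `3` per unit of time and
by `log |Z|` at the beginning. -/
theorem ph_grow {U : ℝ → ℂ} (hU : Continuous U) {z : ℂ} {u ε : ℝ} (hε : 0 < ε) (hε1 : ε ≤ 1)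
    {g : ℝ → ℂ} (hg : Sol U z u g) {w v : ℝ} (hw : 0 ≤ w) (hwv : w ≤ v) (hv : v ≤ u)
    (h1 : ∀ τ ∈ Set.Ioc w v, 1 ≤ ‖g τ - U τ‖) (hv1 : 1 ≤ ‖g v - U v‖) :
    ph U g ε v ≤ ph U g ε w + 3 * (v - w) + Real.log ‖g w - U w‖ := by
  have hc1 := TRPHS.cont (ε := ε) hU hg
  have i1 : IntervalIntegrable (fun v => kk 1 ε (g v - U v)) volume 0 w := by
    apply ContinuousOn.intervalIntegrable
    refine hc1.mono ?_
    rw [Set.uIcc_of_le hw]
    exact Set.Icc_subset_Icc_right (hwv.trans hv)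
  have i2 : IntervalIntegrable (fun v => kk 1 ε (g v - U v)) volume w v := by
    apply ContinuousOn.intervalIntegrable
    refine hc1.mono ?_
    rw [Set.uIcc_of_le hwv]
    exact Set.Icc_subset_Icc hw hv
  have i3 := intervalIntegral.integral_add_adjacent_intervals i1 i2
  have i4 : (∫ v in w..v, kk 1 ε (g v - U v)) ≤ ∫ _ in w..v, (3 : ℝ) := by
    refine intervalIntegral.integral_mono_on_of_le_Ioo hwv i2 intervalIntegrable_const ?_
    intro τ hτ
    exact kk_le3 hε hε1 (h1 τ ⟨hτ.1, hτ.2.le⟩)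
  rw [intervalIntegral.integral_const, smul_eq_mul] at i4
  have i5 : 0 ≤ Real.log ‖g v - U v‖ := Real.log_nonneg hv1
  unfold ph
  linarith

/-- The running maximum of `ph` before the first break: if `ph` is below its running maximum at all
times before `u` with `|Z| ≤ 1`, and `|Z| ≤ e` on `[t-1,u]`, then the maximum over `[0,u]` exceeds
the maximum over `[0,t-1]` at most by `log e + 6`. -/
theorem rise {U : ℝ → ℂ} (hU : Continuous U) {z : ℂ} {t u ε e : ℝ} (ht : 1 ≤ t) (htu : t ≤ u)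
    (hut : u ≤ t + 1) (hε : 0 < ε) (hε1 : ε ≤ 1) (he : 1 ≤ e) {g : ℝ → ℂ} (hg : Sol U z u g)
    (h2 : ∀ v ∈ Set.Icc (t - 1) u, ‖g v - U v‖ ≤ e)
    (hbr : ∀ v ∈ Set.Ico (0 : ℝ) u, ‖g v - U v‖ ≤ 1 → ∃ w ∈ Set.Icc (0 : ℝ) v,
      ph U g ε v < ph U g ε w) :
    ∃ u₁ ∈ Set.Icc 0 (t - 1), 1 ≤ ‖g u₁ - U u₁‖ ∧
      ∀ v ∈ Set.Icc 0 u, ph U g ε v ≤ ph U g ε u₁ + (Real.log e + 6) := by
  have hu0 : 0 ≤ u := by linarith
  have hle : 0 ≤ Real.log e := Real.log_nonneg he
  have hpc := TRSTR.ph_cont (ε := ε) hU hu0 hg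
  have hZc : ContinuousOn (fun v => ‖g v - U v‖) (Set.Icc 0 u) := by
    have h4 : ContinuousOn (fun v => g v - U v) (Set.Icc 0 u) :=
      ContinuousOn.sub (fun v hv => (hg.2.2 v hv).continuousWithinAt) hU.continuousOn
    exact h4.norm
  obtain ⟨u₁, hu₁, hmax⟩ := isCompact_Icc.exists_isMaxOn
    (Set.nonempty_Icc.2 (show (0 : ℝ) ≤ t - 1 by linarith))
    (hpc.mono (Set.Icc_subset_Icc_right (by linarith)))
  obtain ⟨m, hm⟩ : ∃ m : ℝ, m = ph U g ε u₁ := ⟨_, rfl⟩
  have hm1 : ∀ v ∈ Set.Icc 0 (t - 1), ph U g ε v ≤ m := fun v hv => by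
    rw [hm]
    exact hmax hv
  have hu11 : 1 ≤ ‖g u₁ - U u₁‖ := by
    by_contra hcon
    push Not at hcon
    obtain ⟨w, hw, hw2⟩ := hbr u₁ ⟨hu₁.1, by linarith [hu₁.2]⟩ hcon.le
    have := hm1 w ⟨hw.1, hw.2.trans hu₁.2⟩
    rw [hm] at this
    linarith
  refine ⟨u₁, hu₁, hu11, ?_⟩
  rw [← hm]
  -- the claim for the times before `u`
  have key : ∀ v ∈ Set.Ico (t - 1) u,
      ph U g ε v - 3 * (v - (t - 1)) ≤ m + Real.log e := by
    intro v hv
    have hsub : Set.Icc (t - 1) v ⊆ Set.Icc 0 u :=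
      Set.Icc_subset_Icc (by linarith) hv.2.le
    have hφc : ContinuousOn (fun x => ph U g ε x - 3 * (x - (t - 1))) (Set.Icc (t - 1) v) :=
      (hpc.mono hsub).sub (by fun_prop)
    obtain ⟨s, hs, hsmax⟩ := isCompact_Icc.exists_isMaxOn (Set.nonempty_Icc.2 hv.1) hφc
    have hsm : ∀ x ∈ Set.Icc (t - 1) v,
        ph U g ε x - 3 * (x - (t - 1)) ≤ ph U g ε s - 3 * (s - (t - 1)) := fun x hx => hsmax hx
    refine (hsm v ⟨hv.1, le_rfl⟩).trans ?_
    -- a time of the interval with `|Z| ≤ 1` at which the functional is at least as large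
    have hlow : ∀ x ∈ Set.Icc (t - 1) v, ‖g x - U x‖ ≤ 1 →
        ph U g ε s - 3 * (s - (t - 1)) ≤ ph U g ε x - 3 * (x - (t - 1)) →
        ph U g ε s - 3 * (s - (t - 1)) ≤ m := by
      intro x hx hx1 hx2
      obtain ⟨w, hw, hw2⟩ := hbr x ⟨by linarith [hx.1], by linarith [hx.2, hv.2]⟩ hx1
      rcases le_total (t - 1) w with hc | hc
      · have := hsm w ⟨hc, hw.2.trans hx.2⟩
        linarith [hw.2]
      · have := hm1 w ⟨hw.1, hc⟩
        linarith [hx.1]
    rcases le_or_gt ‖g s - U s‖ 1 with hc | hc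
    · linarith [hlow s hs hc le_rfl]
    · -- the last time before `s` with `|Z| ≤ 1`
      rcases Set.eq_empty_or_nonempty {x | x ∈ Set.Icc (t - 1) s ∧ ‖g x - U x‖ ≤ 1} with h | h
      · have h3 : ∀ τ ∈ Set.Ioc (t - 1) s, 1 ≤ ‖g τ - U τ‖ := by
          intro τ hτ
          by_contra hcon
          push Not at hcon
          have : τ ∈ {x | x ∈ Set.Icc (t - 1) s ∧ ‖g x - U x‖ ≤ 1} :=
            ⟨⟨hτ.1.le, hτ.2⟩, hcon.le⟩
          rw [h] at this
          exact this
        have h4 := ph_grow hU hε hε1 hg (w := t - 1) (v := s) (by linarith) hs.1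
          (by linarith [hs.2, hv.2]) h3 hc.le
        have h5 : Real.log ‖g (t - 1) - U (t - 1)‖ ≤ Real.log e := by
          have h6 := h2 (t - 1) ⟨le_rfl, by linarith⟩
          have h7 : 0 < ‖g (t - 1) - U (t - 1)‖ :=
            norm_pos_iff.2 (sub_ne_zero.2 (hg.2.1 _ ⟨by linarith, by linarith⟩))
          exact Real.log_le_log h7 h6
        have h8 := hm1 (t - 1) ⟨by linarith, le_rfl⟩
        linarith
      · have hcl : IsCompact {x | x ∈ Set.Icc (t - 1) s ∧ ‖g x - U x‖ ≤ 1} := by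
          have h3 : ContinuousOn (fun v => ‖g v - U v‖) (Set.Icc (t - 1) s) :=
            hZc.mono (Set.Icc_subset_Icc (by linarith) (by linarith [hs.2, hv.2]))
          have h4 := h3.preimage_isClosed_of_isClosed isClosed_Icc isClosed_Iic (t := Set.Iic 1)
          exact isCompact_Icc.of_isClosed_subset h4 Set.inter_subset_left
        obtain ⟨w, hw, hwmax⟩ := hcl.exists_isGreatest h
        have hws : w < s := by
          rcases lt_or_eq_of_le hw.1.2 with h' | h'
          · exact h'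
          · exfalso
            have := hw.2
            rw [h'] at this
            linarith
        have h3 : ∀ τ ∈ Set.Ioc w s, 1 ≤ ‖g τ - U τ‖ := by
          intro τ hτ
          by_contra hcon
          push Not at hcon
          have := hwmax (show τ ∈ {x | x ∈ Set.Icc (t - 1) s ∧ ‖g x - U x‖ ≤ 1} from
            ⟨⟨hw.1.1.trans hτ.1.le, hτ.2⟩, hcon.le⟩)
          linarith [hτ.1]
        have h4 := ph_grow hU hε hε1 hg (w := w) (v := s) (by linarith [hw.1.1]) hws.le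
          (by linarith [hs.2, hv.2]) h3 hc.le
        have h5 : Real.log ‖g w - U w‖ ≤ 0 := by
          refine Real.log_nonpos (norm_nonneg _) hw.2
        linarith [hlow w ⟨hw.1.1, hws.le.trans hs.2⟩ hw.2 (by linarith)]
  -- the last time
  have key2 : ph U g ε u - 3 * (u - (t - 1)) ≤ m + Real.log e := by
    have hφc : ContinuousWithinAt (fun x => ph U g ε x - 3 * (x - (t - 1))) (Set.Ico (t - 1) u)
        u := by
      have h3 : ContinuousWithinAt (ph U g ε) (Set.Ico (t - 1) u) u :=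
        (hpc u ⟨hu0, le_rfl⟩).mono fun x hx => ⟨by linarith [hx.1], hx.2.le⟩
      exact h3.sub (by fun_prop)
    haveI : (𝓝[Set.Ico (t - 1) u] u).NeBot := by
      refine mem_closure_iff_nhdsWithin_neBot.1 ?_
      rw [closure_Ico (by linarith : t - 1 ≠ u)]
      exact ⟨by linarith, le_rfl⟩
    exact le_of_tendsto hφc (eventually_of_mem self_mem_nhdsWithin key)
  intro v hv
  rcases lt_or_ge v (t - 1) with hc | hc
  · have := hm1 v ⟨hv.1, hc.le⟩
    linarith
  · rcases lt_or_eq_of_le hv.2 with h' | h'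
    · have := key v ⟨hc, h'⟩
      linarith
    · rw [h']
      linarith

end TCFX

end

end Pool.Agent.SLE
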