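import Pool.Agent.Lib.MP_c17912_pr_TC.Base
import Pool.Agent.Lib.MP_c17912_pr_TC.COS

set_option autoImplicit false

open MeasureTheory ProbabilityTheory Filter
open scoped NNReal ENNReal Topology Real

namespace Pool.Agent.SLE

noncomputable section

namespace TCHCG

/-- The Poisson equation of the angle. -/
private theorem pois {a b c : ℝ} (ha : 0 < a) (hb : 0 < b) (hc : c ^ 2 < a * b)
    {F : ℝ → ℝ} (hFs : ∀ n : ℕ, ContDiff ℝ n F) (hFp : Function.Periodic F π) {lam : ℝ}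
    (hlam : ∫ x in (0 : ℝ)..π, F x * dens a b c (-1) x =
      lam * ∫ x in (0 : ℝ)..π, dens a b c (-1) x) :
    ∃ ψ : ℝ → ℝ, (∀ n : ℕ, ContDiff ℝ n ψ) ∧ Function.Periodic ψ π ∧
      ∀ x, Vth a b c x * deriv (deriv ψ) x / 2 + Bth a b c x * deriv ψ x = F x - lam := by
  obtain ⟨hs, hp, hpos, κ, hκ⟩ := dens_props ha hb hc (-1)
  obtain ⟨ρ, hρ⟩ : ∃ ρ : ℝ → ℝ, ρ = dens a b c (-1) := ⟨_, rfl⟩
  rw [← hρ] at hs hp hpos hκ hlam
  have hρc : Continuous ρ := (hs 0).continuous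
  have hFc : Continuous F := (hFs 0).continuous
  have hDs : ∀ n : ℕ, ContDiff ℝ n (fun x => Vth a b c x * ρ x / 2) := fun n =>
    ((TRSGN.V_smooth a b c n).mul (hs n)).div_const 2
  have hGs : ∀ n : ℕ, ContDiff ℝ n (fun x => (F x - lam) * ρ x) := fun n =>
    ((hFs n).sub contDiff_const).mul (hs n)
  have hDp : Function.Periodic (fun x => Vth a b c x * ρ x / 2) π := by
    intro x
    change Vth a b c (x + π) * ρ (x + π) / 2 = Vth a b c x * ρ x / 2
    rw [TRSGN.V_per a b c x, hp x]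
  have hGp : Function.Periodic (fun x => (F x - lam) * ρ x) π := by
    intro x
    change (F (x + π) - lam) * ρ (x + π) = (F x - lam) * ρ x
    rw [hFp x, hp x]
  have hDpos : ∀ x, 0 < Vth a b c x * ρ x / 2 := fun x => by
    have i1 := Vth_pos ha hb hc x
    have i2 := hpos x
    positivity
  have hint : ∫ x in (0 : ℝ)..π, (F x - lam) * ρ x = 0 := by
    have e : ∀ x, (F x - lam) * ρ x = F x * ρ x - lam * ρ x := fun x => by ring
    simp only [e]
    rw [TRSGN.int_sub (f := fun x => F x * ρ x) (g := fun x => lam * ρ x) (hFc.mul hρc)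
      (continuous_const.mul hρc), intervalIntegral.integral_const_mul, hlam, sub_self]
  obtain ⟨ψ, hψs, hψp, hψ⟩ := pois_gen hDs hGs hDp hGp hDpos hint (-κ)
  refine ⟨ψ, hψs, hψp, fun x => ?_⟩
  have e := hψ x
  have hD' : deriv (fun x => Vth a b c x * ρ x / 2) x =
      (((a - b) * Real.sin (2 * x) - 2 * c * Real.cos (2 * x)) * ρ x +
        Vth a b c x * deriv ρ x) / 2 :=
    (((TRSGN.V_deriv a b c x).mul (TRSGN.hd hs x)).div_const 2).deriv
  rw [hD'] at e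
  have hk := hκ x
  have hρx := hpos x
  have hB : Bth a b c x = -2 * Real.sin (2 * x) +
      ((a - b) * Real.sin (2 * x) - 2 * c * Real.cos (2 * x)) / 2 := rfl
  have key : ρ x * (Vth a b c x * deriv (deriv ψ) x / 2 + Bth a b c x * deriv ψ x) =
      ρ x * (F x - lam) := by
    rw [hB]
    linear_combination e - deriv ψ x * hk
  exact mul_left_cancel₀ hρx.ne' key

/-- The quadratic form is positive definite. -/
private theorem quad {a b c : ℝ} (ha : 0 < a) (hb : 0 < b) (hc : c ^ 2 < a * b) (p θ : ℝ) :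
    (a * b - c ^ 2) / (a + b) ≤ Vr a b c θ - 2 * p * Cv a b c θ + p ^ 2 * Vth a b c θ := by
  obtain ⟨l, hl⟩ : ∃ l : ℝ, l = (a * b - c ^ 2) / (a + b) := ⟨_, rfl⟩
  rw [← hl]
  have hab : 0 < a + b := by positivity
  have hl1 : l * (a + b) = a * b - c ^ 2 := by
    rw [hl]
    exact div_mul_cancel₀ _ hab.ne'
  have hl0 : 0 < l := by
    rw [hl]
    exact div_pos (by linarith) hab
  have hal : 0 < a - l := by
    have h1 : (a - l) * (a + b) = a ^ 2 + c ^ 2 := by linear_combination -hl1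
    have h2 : 0 < (a - l) * (a + b) := by
      rw [h1]
      positivity
    exact (mul_pos_iff_of_pos_right hab).1 h2
  obtain ⟨u, hu⟩ : ∃ u : ℝ, u = Real.cos θ + p * Real.sin θ := ⟨_, rfl⟩
  obtain ⟨v, hv⟩ : ∃ v : ℝ, v = Real.sin θ - p * Real.cos θ := ⟨_, rfl⟩
  have hcs := Real.sin_sq_add_cos_sq θ
  have huv : u ^ 2 + v ^ 2 = 1 + p ^ 2 := by
    rw [hu, hv]
    linear_combination (1 + p ^ 2) * hcs
  have hQ : Vr a b c θ - 2 * p * Cv a b c θ + p ^ 2 * Vth a b c θ =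
      a * u ^ 2 + 2 * c * (u * v) + b * v ^ 2 := by
    rw [hu, hv]
    unfold Vr Cv Vth
    rw [Real.sin_two_mul, Real.cos_two_mul']
    ring
  rw [hQ]
  have h3 : 0 ≤ (a - l) * ((a - l) * u ^ 2 + 2 * c * (u * v) + (b - l) * v ^ 2) := by
    have e : (a - l) * ((a - l) * u ^ 2 + 2 * c * (u * v) + (b - l) * v ^ 2) =
        ((a - l) * u + c * v) ^ 2 + l ^ 2 * v ^ 2 := by
      linear_combination (-v ^ 2) * hl1
    rw [e]
    positivity
  have h4 : 0 ≤ (a - l) * u ^ 2 + 2 * c * (u * v) + (b - l) * v ^ 2 :=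
    nonneg_of_mul_nonneg_right h3 hal
  nlinarith [sq_nonneg p]

variable (a b c : ℝ)

private theorem mul_d {ψ : ℝ → ℝ} (hψ : ∀ n : ℕ, ContDiff ℝ n ψ) (t : ℝ) :
    (∀ x, deriv (fun x => t * ψ x) x = t * deriv ψ x) ∧
      ∀ x, deriv (deriv (fun x => t * ψ x)) x = t * deriv (deriv ψ) x := by
  have d1 : ∀ x, deriv (fun x => t * ψ x) x = t * deriv ψ x := fun x =>
    ((TRSGN.hd hψ x).const_mul t).deriv
  have d1' : deriv (fun x => t * ψ x) = fun x => t * deriv ψ x := funext d1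
  refine ⟨d1, fun x => ?_⟩
  rw [d1']
  exact ((TRSGN.hd (TRSGN.sm_deriv hψ) x).const_mul t).deriv

private theorem bddR {φ : ℝ → ℝ} (hφs : ∀ n : ℕ, ContDiff ℝ n φ)
    (hφp : Function.Periodic φ π) (s : ℝ) :
    ∃ M, 0 ≤ M ∧ ∀ x, Vr a b c x + 2 * (s * deriv φ x) * Cv a b c x +
      deriv φ x ^ 2 * Vth a b c x ≤ M := by
  have hVc : Continuous (Vth a b c) := (TRSGN.V_smooth a b c 0).continuous
  have hCc : Continuous (Cv a b c) := (TRSGN.C_smooth a b c 0).continuous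
  have hRc := TRSGN.R_cont a b c
  have hφ'c : Continuous (deriv φ) := (TRSGN.sm_deriv hφs 0).continuous
  have hφ'p : Function.Periodic (deriv φ) π := EXaux.per_deriv hφp
  obtain ⟨M, hM⟩ := EXaux.bdd (f := fun θ => Vr a b c θ + 2 * (s * deriv φ θ) * Cv a b c θ +
    deriv φ θ ^ 2 * Vth a b c θ) (by fun_prop) (TRSGN.per2 (by
      intro x
      change Vr a b c (x + π) + 2 * (s * deriv φ (x + π)) * Cv a b c (x + π) +
        deriv φ (x + π) ^ 2 * Vth a b c (x + π) = Vr a b c x + 2 * (s * deriv φ x) * Cv a b c x +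
        deriv φ x ^ 2 * Vth a b c x
      rw [TRSGN.R_per a b c x, hφ'p x, TRSGN.C_per a b c x, TRSGN.V_per a b c x]))
  exact ⟨M, (abs_nonneg _).trans (hM 0), fun x => (abs_le.1 (hM x)).2⟩

variable {a b c}

/-- (S2) -/
private theorem S2 (ha : 0 < a) (hb : 0 < b) (hc : c ^ 2 < a * b)
    (h2 : Lam b a (-c) ≠ 0) :
    ∃ (q α δ : ℝ) (ψ : ℝ → ℝ), 2 < q ∧ 0 ≤ q + α ∧ 0 < δ ∧ ContDiff ℝ 3 ψ ∧
      Function.Periodic ψ (2 * π) ∧
      ∀ θ, Op a b c α ψ θ - 2 * q * Real.cos (2 * θ) + δ ≤ 0 := by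
  obtain ⟨l2, χ, φ, hl2, hχs, hχp, hφs, hφp, hχ, hφ⟩ := TRSGN.second ha hb hc h2
  obtain ⟨M2, hM2', hM2⟩ := bddR a b c hφs hφp 1
  obtain ⟨y, hy⟩ : ∃ y : ℝ, y = 1 / (1 + M2 + |l2|) := ⟨_, rfl⟩
  have hden : 0 < 1 + M2 + |l2| := by positivity
  have hy0 : 0 < y := by
    rw [hy]
    positivity
  have hyd : y * (1 + M2 + |l2|) = 1 := by
    rw [hy]
    exact one_div_mul_cancel hden.ne'
  have hyM2 : y * M2 ≤ 1 := by
    nlinarith [mul_nonneg hy0.le (abs_nonneg l2)]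
  have hyl2 : y * |l2| ≤ 1 := by
    nlinarith [mul_nonneg hy0.le hM2']
  have hl2s : 0 < l2 ^ 2 := by positivity
  obtain ⟨δ, hδ⟩ : ∃ δ : ℝ, δ = min 1 (l2 ^ 2 * y / 4) := ⟨_, rfl⟩
  have hδ0 : 0 < δ := by
    rw [hδ]
    exact lt_min one_pos (by positivity)
  have hδl2 : 4 * δ ≤ l2 ^ 2 * y := by
    have : δ ≤ l2 ^ 2 * y / 4 := by
      rw [hδ]
      exact min_le_right _ _
    linarith
  have e1 : ∀ x, deriv (fun x => χ x + -(l2 * y) * φ x) x =
      deriv χ x + -(l2 * y) * deriv φ x := fun x =>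
    ((TRSGN.hd hχs x).add ((TRSGN.hd hφs x).const_mul (-(l2 * y)))).deriv
  have e1' : deriv (fun x => χ x + -(l2 * y) * φ x) =
      fun x => deriv χ x + -(l2 * y) * deriv φ x := funext e1
  have e2 : ∀ x, deriv (deriv (fun x => χ x + -(l2 * y) * φ x)) x =
      deriv (deriv χ) x + -(l2 * y) * deriv (deriv φ) x := by
    intro x
    rw [e1']
    exact ((TRSGN.hd (TRSGN.sm_deriv hχs) x).add
      ((TRSGN.hd (TRSGN.sm_deriv hφs) x).const_mul (-(l2 * y)))).deriv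
  refine ⟨2 + δ / 2, -(l2 * y), δ, fun x => χ x + -(l2 * y) * φ x, by linarith, ?_, hδ0,
    (hχs 3).add (contDiff_const.mul (hφs 3)), TRSGN.per2 fun x => ?_, fun x => ?_⟩
  · have i2 : |l2 * y| ≤ 1 := by
      rw [abs_mul, abs_of_pos hy0, mul_comm]
      exact hyl2
    have i4 := (abs_le.1 i2).2
    linarith
  · change χ (x + π) + -(l2 * y) * φ (x + π) = χ x + -(l2 * y) * φ x
    rw [hφp x, hχp x]
  · unfold Op
    rw [e1, e2]
    have i1 := hχ x
    have i1' := hφ x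
    have i2 := hM2 x
    have i3 : Vth a b c x * (deriv (deriv χ) x + -(l2 * y) * deriv (deriv φ) x) / 2 +
        Bth a b c x * (deriv χ x + -(l2 * y) * deriv φ x) + -(l2 * y) * H1 a b c x +
        ((-(l2 * y)) ^ 2 * Vr a b c x +
          2 * -(l2 * y) * (deriv χ x + -(l2 * y) * deriv φ x) * Cv a b c x +
          (deriv χ x + -(l2 * y) * deriv φ x) ^ 2 * Vth a b c x) / 2 =
        4 * Real.cos (2 * x) - l2 ^ 2 * y + l2 ^ 2 * y * y * (Vr a b c x +
          2 * (1 * deriv φ x) * Cv a b c x + deriv φ x ^ 2 * Vth a b c x) / 2 := by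
      linear_combination i1 + (-(l2 * y)) * i1'
    rw [i3]
    have i4 : l2 ^ 2 * y * y * (Vr a b c x + 2 * (1 * deriv φ x) * Cv a b c x +
          deriv φ x ^ 2 * Vth a b c x) ≤ l2 ^ 2 * y * y * M2 :=
      mul_le_mul_of_nonneg_left i2 (by positivity)
    have i5 : l2 ^ 2 * y * (y * M2) ≤ l2 ^ 2 * y * 1 :=
      mul_le_mul_of_nonneg_left hyM2 (by positivity)
    have i6 : l2 ^ 2 * y * y * M2 = l2 ^ 2 * y * (y * M2) := by ring
    have i7 : -(δ * Real.cos (2 * x)) ≤ δ := by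
      have := Real.neg_one_le_cos (2 * x)
      nlinarith
    linarith

/-- (S3) -/
private theorem S3 (ha : 0 < a) (hb : 0 < b) (hc : c ^ 2 < a * b)
    (h1 : Lam a b c = 0) :
    ∃ (q δ : ℝ) (ψ : ℝ → ℝ), 0 < q ∧ q ≤ 1 ∧ 0 < δ ∧ ContDiff ℝ 3 ψ ∧
      Function.Periodic ψ (2 * π) ∧
      ∀ θ, Op a b c (-q) ψ θ - 2 * q * Real.cos (2 * θ) + δ ≤ 0 := by
  obtain ⟨hs, hp, hpos, κ, hκ⟩ := dens_props ha hb hc (-1)
  have hρc : Continuous (dens a b c (-1)) := (hs 0).continuous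
  have hHc : Continuous (H1 a b c) := (TRSGN.H_smooth a b c 0).continuous
  obtain ⟨J, hJ⟩ : ∃ J : ℝ, J = ∫ x in (0 : ℝ)..π, dens a b c (-1) x := ⟨_, rfl⟩
  have hJpos : 0 < J := by
    rw [hJ]
    exact intervalIntegral.intervalIntegral_pos_of_pos (hρc.intervalIntegrable _ _)
      hpos Real.pi_pos
  have hcos := cos_mean_pos ha hb hc
  obtain ⟨K, hK⟩ : ∃ K : ℝ, K = ∫ x in (0 : ℝ)..π, Real.cos (2 * x) * dens a b c (-1) x :=
    ⟨_, rfl⟩
  rw [← hK] at hcos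
  obtain ⟨m, hm⟩ : ∃ m : ℝ, m = 2 * K / J := ⟨_, rfl⟩
  have hm0 : 0 < m := by
    rw [hm]
    positivity
  have hmJ : m * J = 2 * K := by
    rw [hm]
    exact div_mul_cancel₀ _ hJpos.ne'
  have hL : ∫ x in (0 : ℝ)..π, H1 a b c x * dens a b c (-1) x = 0 := h1
  have hcs : ∀ n : ℕ, ContDiff ℝ n (fun x : ℝ => 2 * Real.cos (2 * x)) := fun n => by fun_prop
  obtain ⟨χ, hχs, hχp, hχ⟩ := pois ha hb hc (F := fun x => H1 a b c x + 2 * Real.cos (2 * x))
    (lam := m) (fun n => (TRSGN.H_smooth a b c n).add (hcs n)) (by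
      intro x
      change H1 a b c (x + π) + 2 * Real.cos (2 * (x + π)) = _
      rw [TRSGN.H_per a b c x, TRSGN.two_per, Real.cos_add_two_pi]) (by
      have e : ∀ x, (H1 a b c x + 2 * Real.cos (2 * x)) * dens a b c (-1) x =
          H1 a b c x * dens a b c (-1) x - (-2) * (Real.cos (2 * x) * dens a b c (-1) x) :=
        fun x => by ring
      simp only [e]
      rw [TRSGN.int_sub (f := fun x => H1 a b c x * dens a b c (-1) x)
        (g := fun x => (-2) * (Real.cos (2 * x) * dens a b c (-1) x)) (hHc.mul hρc)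
        (by fun_prop), intervalIntegral.integral_const_mul, hL, ← hK, ← hJ, hmJ]
      ring)
  obtain ⟨M, hM', hM⟩ := bddR a b c hχs hχp (-1)
  obtain ⟨q, hq⟩ : ∃ q : ℝ, q = min 1 (m / (1 + M)) := ⟨_, rfl⟩
  have hq0 : 0 < q := by
    rw [hq]
    exact lt_min one_pos (by positivity)
  have hq1 : q ≤ 1 := by
    rw [hq]
    exact min_le_left _ _
  have hqM : q * M ≤ m := by
    have i1 : q ≤ m / (1 + M) := by
      rw [hq]
      exact min_le_right _ _
    have i2 : q * (1 + M) ≤ m := (le_div_iff₀ (by positivity)).1 i1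
    nlinarith
  obtain ⟨d1, d2⟩ := mul_d hχs q
  refine ⟨q, q * m / 2, fun x => q * χ x, hq0, hq1, by positivity,
    contDiff_const.mul (hχs 3), TRSGN.per2 fun x => ?_, fun x => ?_⟩
  · change q * χ (x + π) = q * χ x
    rw [hχp x]
  · unfold Op
    rw [d1, d2]
    have i1 := hχ x
    have i2 := hM x
    have i3 : Vth a b c x * (q * deriv (deriv χ) x) / 2 + Bth a b c x * (q * deriv χ x) +
        -q * H1 a b c x + ((-q) ^ 2 * Vr a b c x + 2 * -q * (q * deriv χ x) * Cv a b c x +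
          (q * deriv χ x) ^ 2 * Vth a b c x) / 2 - 2 * q * Real.cos (2 * x) + q * m / 2 =
        -(q * m / 2) + q * q * (Vr a b c x + 2 * (-1 * deriv χ x) * Cv a b c x +
          deriv χ x ^ 2 * Vth a b c x) / 2 := by
      linear_combination q * i1
    rw [i3]
    have i4 : q * q * (Vr a b c x + 2 * (-1 * deriv χ x) * Cv a b c x +
          deriv χ x ^ 2 * Vth a b c x) ≤ q * q * M :=
      mul_le_mul_of_nonneg_left i2 (by positivity)
    have i5 : q * (q * M) ≤ q * m := mul_le_mul_of_nonneg_left hqM hq0.le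
    have i6 : q * q * M = q * (q * M) := by ring
    linarith

/-- (S5), (S6) -/
private theorem S5 (ha : 0 < a) (hb : 0 < b) (hc : c ^ 2 < a * b)
    (h1 : Lam a b c = 0) :
    (∃ B c₀ y₀ : ℝ, 0 ≤ B ∧ 0 < c₀ ∧ 0 < y₀ ∧ ∀ y, 0 < y → y ≤ y₀ → ∃ ψ : ℝ → ℝ,
      ContDiff ℝ 3 ψ ∧ Function.Periodic ψ (2 * π) ∧ (∀ θ, |ψ θ| ≤ B * y) ∧
      ∀ θ, c₀ * y ^ 2 ≤ Op a b c y ψ θ) ∧
    ∃ B : ℝ, ∀ e > 0, ∃ ψ : ℝ → ℝ, ContDiff ℝ 3 ψ ∧ Function.Periodic ψ (2 * π) ∧
      (∀ θ, |ψ θ| ≤ B) ∧ ∀ θ, Vth a b c θ * deriv (deriv ψ) θ / 2 + Bth a b c θ * deriv ψ θ ≤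
        H1 a b c θ + e := by
  have hL : ∫ x in (0 : ℝ)..π, H1 a b c x * dens a b c (-1) x = 0 := h1
  obtain ⟨ψ, hψs, hψp, hψ⟩ := pois ha hb hc (F := H1 a b c) (lam := 0)
    (fun n => TRSGN.H_smooth a b c n) (TRSGN.H_per a b c) (by rw [hL, zero_mul])
  obtain ⟨B, hB⟩ := EXaux.bdd (hψs 0).continuous (TRSGN.per2 hψp)
  have hB0 : 0 ≤ B := (abs_nonneg _).trans (hB 0)
  refine ⟨⟨B, (a * b - c ^ 2) / (a + b) / 2, 1, hB0, ?_, one_pos, ?_⟩, B, ?_⟩
  · exact half_pos (div_pos (by linarith) (by positivity))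
  · intro y hy hy1
    obtain ⟨d1, d2⟩ := mul_d hψs (-y)
    refine ⟨fun x => -y * ψ x, contDiff_const.mul (hψs 3), TRSGN.per2 fun x => ?_,
      fun x => ?_, fun x => ?_⟩
    · change -y * ψ (x + π) = -y * ψ x
      rw [hψp x]
    · rw [abs_mul, abs_neg, abs_of_pos hy, mul_comm]
      exact mul_le_mul_of_nonneg_right (hB x) hy.le
    · unfold Op
      rw [d1, d2]
      have i1 := hψ x
      have i2 := quad ha hb hc (deriv ψ x) x
      have i3 : Vth a b c x * (-y * deriv (deriv ψ) x) / 2 + Bth a b c x * (-y * deriv ψ x) +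
          y * H1 a b c x + (y ^ 2 * Vr a b c x + 2 * y * (-y * deriv ψ x) * Cv a b c x +
            (-y * deriv ψ x) ^ 2 * Vth a b c x) / 2 =
          y ^ 2 * (Vr a b c x - 2 * deriv ψ x * Cv a b c x +
            deriv ψ x ^ 2 * Vth a b c x) / 2 := by
        linear_combination (-y) * i1
      rw [i3]
      have i4 := mul_le_mul_of_nonneg_left i2 (pow_nonneg hy.le 2)
      linarith
  · intro e he
    refine ⟨ψ, hψs 3, TRSGN.per2 hψp, hB, fun x => ?_⟩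
    rw [hψ x]
    linarith

end TCHCG

/-- TC-HCG. The data of the critical case exist.

Proof. As `TRSGN.first`, `TRSGN.second` (SGN.lean), `G ψ := V ψ'' / 2 + B ψ'`.
(S2) is `TRSGN.second` (it needs only `Lam b a (-c) ≠ 0`); look at its proof for the additional
claim `0 ≤ q + α`: `|α| = y ≤ 1` and `q > 2`.
(S3) Let `m = (∫ (H1 + 2 cos 2θ) ρ) / ∫ ρ`, `ρ = dens (-1)`; by `h1` and `cos_mean_pos` `m > 0`. As
in `TRSGN.first` (`pois_gen`) there is a smooth periodic `χ` with `G χ = H1 + 2 cos 2θ - m`. For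
`ψ = q χ`: `Op a b c (-q) ψ - 2 q cos 2θ = q (G χ - H1 - 2 cos 2θ) + q^2 R = -q m + q^2 R`, `R`
bounded; `q` small.
(S5) `ψ₀` smooth periodic with `G ψ₀ = H1` (`∫ H1 ρ = 0`). `ψ = -y ψ₀`:
`Op a b c y ψ = -y G ψ₀ + y H1 + y^2 / 2 (Vr - 2 ψ₀' Cv + ψ₀'^2 V) = y^2 / 2 (...)`, and
`Vr - 2 p Cv + p^2 V` is the value of a positive definite quadratic form at `(1, -p)`: it is
`a (cos θ + p sin θ)^2 + 2c (cos θ + p sin θ)(sin θ - p cos θ) + b (sin θ - p cos θ)^2`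
`≥ lam (1 + p^2)` with `lam > 0` the smallest eigenvalue (or: continuous, positive, periodic).
(S6) `ψ₀` itself, for every `e`. (`π`-periodic functions are `2π`-periodic: `TRSGN.per2`;
`Op`: see `TR/Base.lean`.) -/
theorem hasC_gen {a b c : ℝ} (ha : 0 < a) (hb : 0 < b) (hc : c ^ 2 < a * b)
    (h1 : Lam a b c = 0) (h2 : Lam b a (-c) ≠ 0) : HasC a b c := by
  obtain ⟨h5, h6⟩ := TCHCG.S5 ha hb hc h1
  exact ⟨TCHCG.S2 ha hb hc h2, TCHCG.S3 ha hb hc h1, h5, h6⟩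

end

end Pool.Agent.SLE
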