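import Pool.Agent.Lib.MP_c17912_pr_TC.Base

set_option autoImplicit false

open MeasureTheory ProbabilityTheory Filter
open scoped NNReal ENNReal Topology Real

namespace Pool.Agent.SLE

noncomputable section

variable {Ω : Type*} [MeasurableSpace Ω] {μ : Measure Ω}

namespace TCINV

/-- The law of the increments. -/
private theorem incr_law [IsProbabilityMeasure μ] {a b c K K' : ℝ} {W W' : ℝ → Ω → ℂ}
    (hW : Gau a b c K W μ) (hW' : Gau a b c K' W' μ) {s t : ℝ} (hs : 0 ≤ s) (hst : s ≤ t) :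
    μ.map (fun ω => W t ω - W s ω) = μ.map (fun ω => W' t ω - W' s ω) := by
  have hm : Measurable (fun ω => W t ω - W s ω) := (hW.meas t).sub (hW.meas s)
  have hm' : Measurable (fun ω => W' t ω - W' s ω) := (hW'.meas t).sub (hW'.meas s)
  have : IsProbabilityMeasure (μ.map (fun ω => W t ω - W s ω)) :=
    Measure.isProbabilityMeasure_map hm.aemeasurable
  have : IsProbabilityMeasure (μ.map (fun ω => W' t ω - W' s ω)) :=
    Measure.isProbabilityMeasure_map hm'.aemeasurable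
  have key : ∀ {X : Ω → ℂ} (hX : Measurable X) (z : ℂ), charFun (μ.map X) z =
      charFun (μ.map (fun ω => z.re * (X ω).re + z.im * (X ω).im)) 1 := by
    intro X hX z
    rw [charFun_apply, charFun_apply_real, integral_map hX.aemeasurable (by fun_prop),
      integral_map (by fun_prop) (by fun_prop)]
    refine integral_congr_ae (Eventually.of_forall fun ω => ?_)
    simp only [Complex.inner]
    congr 2
    simp only [Complex.mul_re, Complex.conj_re, Complex.conj_im]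
    push_cast
    ring
  refine Measure.ext_of_charFun (funext fun z => ?_)
  rw [key hm z, key hm' z, (hW.gauss s t hs hst z.re z.im).map_eq,
    (hW'.gauss s t hs hst z.re z.im).map_eq]

/-- The law of the sequence of the increments. -/
private theorem seq_law [IsProbabilityMeasure μ] {a b c K K' : ℝ} {W W' : ℝ → Ω → ℂ}
    (hW : Gau a b c K W μ) (hW' : Gau a b c K' W' μ) {h : ℝ} (hh : 0 < h) :
    μ.map (fun ω (j : ℕ) => W ((j + 1 : ℕ) * h) ω - W ((j : ℕ) * h) ω) =
      μ.map (fun ω (j : ℕ) => W' ((j + 1 : ℕ) * h) ω - W' ((j : ℕ) * h) ω) := by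
  have ht : Monotone (fun j : ℕ => (j : ℝ) * h) := fun i j hij => by
    have : (i : ℝ) ≤ j := by exact_mod_cast hij
    exact mul_le_mul_of_nonneg_right this hh.le
  have i1 := (hW.indep.nat ht).map_fun_eq_infinitePi_map
    (fun i => (hW.meas _).sub (hW.meas _))
  have i2 := (hW'.indep.nat ht).map_fun_eq_infinitePi_map
    (fun i => (hW'.meas _).sub (hW'.meas _))
  refine i1.trans (Eq.trans ?_ i2.symm)
  refine congrArg Measure.infinitePi (funext fun j => ?_)
  exact incr_law hW hW' (by positivity) (ht (Nat.le_succ j))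

/-- The Euler scheme as a function of the increments. -/
private def E (z₀ : ℂ) (h : ℝ) (x : ℕ → ℂ) : ℕ → ℂ
  | 0 => z₀
  | j + 1 => E z₀ h x j + 2 * h / E z₀ h x j - x j

private theorem E_meas (z₀ : ℂ) (h : ℝ) (j : ℕ) : Measurable fun x => E z₀ h x j := by
  induction j with
  | zero => exact measurable_const
  | succ j ih =>
    change Measurable fun x : ℕ → ℂ => E z₀ h x j + 2 * h / E z₀ h x j - x j
    exact (ih.add (measurable_const.div ih)).sub (measurable_pi_apply j)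

omit [MeasurableSpace Ω] in
private theorem Z_eq (W : ℝ → Ω → ℂ) (z₀ : ℂ) (h : ℝ) (j : ℕ) (ω : Ω) :
    DiscAux.Z W z₀ h j ω =
      E z₀ h (fun j : ℕ => W ((j + 1 : ℕ) * h) ω - W ((j : ℕ) * h) ω) j := by
  induction j with
  | zero => rfl
  | succ j ih =>
    change DiscAux.Z W z₀ h j ω + 2 * h / DiscAux.Z W z₀ h j ω -
      (W ((j + 1 : ℕ) * h) ω - W ((j : ℕ) * h) ω) = _
    rw [ih]
    rfl

private theorem kk_meas (lam c₀ : ℝ) : Measurable (kk lam c₀) := by
  have : kk lam c₀ = fun z : ℂ => -2 * lam * (1 / z ^ 2).re + c₀ / ‖z‖ ^ 2 := rfl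
  rw [this]
  fun_prop

private theorem Bs_meas (h : ℝ) {k : ℂ → ℝ} (hk : Measurable k) (j : ℕ) :
    Measurable (Bs h k j) := by
  unfold Bs
  exact Finset.measurable_sum _ fun i _ => (hk.comp (measurable_pi_apply i)).const_mul h

/-- Two sequences which coincide up to `N`. -/
private theorem Bs_congr (h : ℝ) (k : ℂ → ℝ) {x y : ℕ → ℂ} {N j : ℕ} (hxy : ∀ i ≤ N, x i = y i)
    (hj : j ≤ N) : Bs h k j x = Bs h k j y := by
  unfold Bs
  refine Finset.sum_congr rfl fun i hi => ?_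
  rw [hxy i ((Finset.mem_range.1 hi).le.trans hj)]

private theorem phs_congr (h ε : ℝ) {x y : ℕ → ℂ} {N j : ℕ} (hxy : ∀ i ≤ N, x i = y i)
    (hj : j ≤ N) : phs h ε j x = phs h ε j y := by
  unfold phs
  rw [Bs_congr h (kk 1 ε) hxy hj, hxy j hj]

private theorem An_congr (δ R : ℝ) {x y : ℕ → ℂ} {N j : ℕ} (hxy : ∀ i ≤ N, x i = y i)
    (hj : j ≤ N) : x ∈ An δ R j ↔ y ∈ An δ R j := by
  refine forall_congr' fun i => forall_congr' fun hi => ?_
  rw [hxy i (hi.trans hj)]

private theorem Fl_congr (h ε θ : ℝ) {x y : ℕ → ℂ} {N j : ℕ} (hxy : ∀ i ≤ N, x i = y i)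
    (hj : j ≤ N) : x ∈ Fl h ε θ j ↔ y ∈ Fl h ε θ j := by
  refine exists_congr fun i => and_congr_right fun hi => ?_
  rw [hxy i (hi.trans hj), phs_congr h ε hxy (hi.trans hj)]

private theorem Rf_congr (h ε δ R θ : ℝ) {x y : ℕ → ℂ} {N j J : ℕ}
    (hxy : ∀ i ≤ N, x i = y i) (hJ : J ≤ N) : x ∈ Rf h ε δ R θ j J ↔ y ∈ Rf h ε δ R θ j J := by
  refine exists_congr fun i => and_congr_right fun _ => and_congr_right fun hi => ?_
  rw [An_congr δ R hxy (hi.trans hJ), phs_congr h ε hxy (hi.trans hJ)]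

private theorem G_congr (h ε δ R θ e c₁ κ : ℝ) {n t N : ℕ} (hN : (t + 1) * n ≤ N)
    {x y : ℕ → ℂ} (hxy : ∀ i ≤ N, x i = y i) :
    G1 h ε δ R θ e c₁ κ n t x = G1 h ε δ R θ e c₁ κ n t y ∧
      G2 h ε δ R θ e c₁ κ n t x = G2 h ε δ R θ e c₁ κ n t y := by
  have hj : ∀ j ∈ Finset.Ico ((t - 1) * n) (t * n), j ≤ N := fun j hj => by
    have h1 := (Finset.mem_Ico.1 hj).2
    have h2 : t * n ≤ (t + 1) * n := Nat.mul_le_mul_right n (Nat.le_succ t)
    omega
  refine ⟨Finset.sum_congr rfl fun j hjm => ?_, Finset.sum_congr rfl fun j hjm => ?_⟩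
  · have h1 := hj j hjm
    rw [hxy j h1, Bs_congr h (kk 0 c₁) hxy h1, phs_congr h ε hxy h1]
    have heq : (x ∈ An δ R j ∧ x ∈ Fl h ε θ j ∧ ‖y j‖ ≤ e ∧ x ∈ Rf h ε δ R θ j ((t + 1) * n)) =
        (y ∈ An δ R j ∧ y ∈ Fl h ε θ j ∧ ‖y j‖ ≤ e ∧ y ∈ Rf h ε δ R θ j ((t + 1) * n)) := by
      rw [An_congr δ R hxy h1, Fl_congr h ε θ hxy h1, Rf_congr h ε δ R θ hxy hN]
    split_ifs with h3 h4 h4
    · rfl
    · exact absurd (heq.mp h3) h4
    · exact absurd (heq.mpr h4) h3
    · rfl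
  · have h1 := hj j hjm
    rw [hxy j h1, Bs_congr h (kk 0 c₁) hxy h1, phs_congr h ε hxy h1]
    have heq : (x ∈ An δ R j ∧ x ∈ Fl h ε θ j ∧ ‖y j‖ ≤ e) =
        (y ∈ An δ R j ∧ y ∈ Fl h ε θ j ∧ ‖y j‖ ≤ e) := by
      rw [An_congr δ R hxy h1, Fl_congr h ε θ hxy h1]
    split_ifs with h3 h4 h4
    · rfl
    · exact absurd (heq.mp h3) h4
    · exact absurd (heq.mpr h4) h3
    · rfl

end TCINV

/-- TC-INV. The law of the Euler scheme depends only on the covariance matrix.

Proof. Let `X i = W ((i+1) h) - W (i h)`, `i : Fin N`. They are independent (`hW.indep`, the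
definition of `HasIndepIncrements` for `t i = i h`), and the law of `X i` on `ℂ` is determined by
`hW.gauss` (all linear functionals are Gaussian with given variance; `Measure.ext_of_charFun` on the
real inner product space `ℂ`, or on `ℝ × ℝ`), so it is the same for `W'`. Hence the vectors
`(X i)` and `(X' i)` have the same law (`iIndepFun_iff_map_fun_eq_pi_map`). Finally
`Ev W z₀ h N ω j` is a measurable function of the vector (recursion `eul`), so both sides are the
integral of the same measurable function of the vector. -/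
theorem inv_Z [IsProbabilityMeasure μ] {a b c K K' : ℝ} {W W' : ℝ → Ω → ℂ}
    (hW : Gau a b c K W μ) (hW' : Gau a b c K' W' μ) {h : ℝ} (hh : 0 < h) (z₀ : ℂ) (N : ℕ)
    {Φ : (ℕ → ℂ) → ℝ≥0∞} (hΦ : Measurable Φ) :
    ∫⁻ ω, Φ (Ev W z₀ h N ω) ∂μ = ∫⁻ ω, Φ (Ev W' z₀ h N ω) ∂μ := by
  obtain ⟨Ψ, hΨ⟩ : ∃ Ψ : (ℕ → ℂ) → ℝ≥0∞, Ψ = fun x => Φ (fun j => TCINV.E z₀ h x (min j N)) :=
    ⟨_, rfl⟩
  have hΨm : Measurable Ψ := by
    rw [hΨ]
    exact hΦ.comp (measurable_pi_lambda _ fun j => TCINV.E_meas z₀ h (min j N))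
  have key : ∀ {V : ℝ → Ω → ℂ} (_ : ∀ t, Measurable (V t)),
      ∫⁻ ω, Φ (Ev V z₀ h N ω) ∂μ =
        ∫⁻ x, Ψ x ∂(μ.map (fun ω (j : ℕ) => V ((j + 1 : ℕ) * h) ω - V ((j : ℕ) * h) ω)) := by
    intro V hV
    have hm : Measurable (fun ω (j : ℕ) => V ((j + 1 : ℕ) * h) ω - V ((j : ℕ) * h) ω) :=
      measurable_pi_lambda _ fun j => (hV _).sub (hV _)
    rw [lintegral_map hΨm hm]
    refine lintegral_congr fun ω => ?_
    rw [hΨ]
    refine congrArg Φ (funext fun j => ?_)
    exact TCINV.Z_eq V z₀ h (min j N) ω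
  rw [key hW.meas, key hW'.meas, TCINV.seq_law hW hW' hh]

/-- TC-INV2. Measurability of the sets and functionals of sequences. -/
theorem meas_phs (h ε : ℝ) (j : ℕ) : Measurable (phs h ε j) := by
  unfold phs
  exact (TCINV.Bs_meas h (TCINV.kk_meas 1 ε) j).sub
    (Real.measurable_log.comp (measurable_norm.comp (measurable_pi_apply j)))

theorem meas_Bs (h lam c₀ : ℝ) (j : ℕ) : Measurable (Bs h (kk lam c₀) j) := by
  exact TCINV.Bs_meas h (TCINV.kk_meas lam c₀) j

theorem meas_An (δ R : ℝ) (j : ℕ) : MeasurableSet (An δ R j) := by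
  have e : An δ R j = ⋂ i ∈ Finset.range (j + 1), {x : ℕ → ℂ | ‖x i‖ ∈ Set.Icc δ R} := by
    ext x
    simp [An]
  rw [e]
  refine MeasurableSet.biInter (Finset.range (j + 1)).countable_toSet fun i _ => ?_
  exact (measurable_norm.comp (measurable_pi_apply i)) measurableSet_Icc

theorem meas_Fl (h ε θ : ℝ) (j : ℕ) : MeasurableSet (Fl h ε θ j) := by
  have e : Fl h ε θ j = ⋃ i ∈ Finset.range (j + 1),
      ({x : ℕ → ℂ | ‖x i‖ ∈ Set.Ici (1 / 2)} ∩ phs h ε i ⁻¹' Set.Ici θ) := by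
    ext x
    simp only [Fl, Set.mem_ofPred_eq, Set.mem_iUnion, Finset.mem_range, Set.mem_inter_iff,
      Set.mem_preimage, Set.mem_Ici, exists_prop, Nat.lt_succ_iff]
  rw [e]
  refine MeasurableSet.biUnion (Finset.range (j + 1)).countable_toSet fun i _ => ?_
  exact ((measurable_norm.comp (measurable_pi_apply i)) measurableSet_Ici).inter
    (meas_phs h ε i measurableSet_Ici)

theorem meas_Rf (h ε δ R θ : ℝ) (j J : ℕ) : MeasurableSet (Rf h ε δ R θ j J) := by
  have e : Rf h ε δ R θ j J = ⋃ i ∈ Finset.Icc j J,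
      (An δ R i ∩ phs h ε i ⁻¹' Set.Ici θ) := by
    ext x
    simp only [Rf, Set.mem_ofPred_eq, Set.mem_iUnion, Finset.mem_Icc, Set.mem_inter_iff,
      Set.mem_preimage, Set.mem_Ici, exists_prop, and_assoc]
  rw [e]
  refine MeasurableSet.biUnion (Finset.Icc j J).countable_toSet fun i _ => ?_
  exact (meas_An δ R i).inter (meas_phs h ε i measurableSet_Ici)

theorem meas_G1 (h ε δ R θ e c₁ κ : ℝ) (n t : ℕ) : Measurable (G1 h ε δ R θ e c₁ κ n t) := by
  unfold G1
  refine Finset.measurable_sum _ fun j _ => Measurable.const_mul ?_ _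
  refine Measurable.ite ?_ ?_ measurable_const
  · exact (meas_An δ R j).inter ((meas_Fl h ε θ j).inter
      (MeasurableSet.inter ((measurable_norm.comp (measurable_pi_apply j)) measurableSet_Iic)
        (meas_Rf h ε δ R θ j ((t + 1) * n))))
  · exact ENNReal.measurable_ofReal.comp (Real.measurable_exp.comp
      ((meas_Bs h 0 c₁ j).add ((measurable_const.sub (meas_phs h ε j)).const_mul κ)))

theorem meas_G2 (h ε δ R θ e c₁ κ : ℝ) (n t : ℕ) : Measurable (G2 h ε δ R θ e c₁ κ n t) := by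
  unfold G2
  refine Finset.measurable_sum _ fun j _ => Measurable.const_mul ?_ _
  refine Measurable.ite ?_ ?_ measurable_const
  · exact (meas_An δ R j).inter ((meas_Fl h ε θ j).inter
      ((measurable_norm.comp (measurable_pi_apply j)) measurableSet_Iic))
  · exact ENNReal.measurable_ofReal.comp (Real.measurable_exp.comp
      ((meas_Bs h 0 c₁ j).add (((meas_phs h ε j).sub measurable_const).const_mul κ)))

/-- TC-INV3. The functionals depend on finitely many coordinates, so the Euler scheme may be stopped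
(`G1` uses the coordinates up to `(t+1) n`). -/
theorem G_stop {W : ℝ → Ω → ℂ} (z₀ : ℂ) (h ε δ R θ e c₁ κ : ℝ) (n t N : ℕ)
    (hN : (t + 1) * n ≤ N) (ω : Ω) :
    G1 h ε δ R θ e c₁ κ n t (Zq W z₀ h ω) = G1 h ε δ R θ e c₁ κ n t (Ev W z₀ h N ω) ∧
      G2 h ε δ R θ e c₁ κ n t (Zq W z₀ h ω) = G2 h ε δ R θ e c₁ κ n t (Ev W z₀ h N ω) := by
  refine TCINV.G_congr h ε δ R θ e c₁ κ hN fun i hi => ?_
  change DiscAux.Z W z₀ h i ω = DiscAux.Z W z₀ h (min i N) ω
  rw [min_eq_left hi]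

/-- TC-INV4. Measurability with respect to the past. -/
theorem Zq_meas {a b c K : ℝ} {W : ℝ → Ω → ℂ} (hW : Drv a b c K W μ) {h : ℝ} (hh : 0 < h)
    (z₀ : ℂ) (N : ℕ) : Measurable[Blk W 0 (N * h)] (Ev W z₀ h N) := by
  refine @measurable_pi_lambda _ _ _ (Blk W 0 (N * h)) _ _ fun j => ?_
  refine DiscAux.Z_meas hh z₀ (min j N) _ ?_
  have : ((min j N : ℕ) : ℝ) ≤ N := by exact_mod_cast min_le_right j N
  exact mul_le_mul_of_nonneg_right this hh.le

end

end Pool.Agent.SLE
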