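import Mathlib

set_option autoImplicit false

open MeasureTheory
open scoped Topology Real

namespace Pool.Agent.SLE

noncomputable section

theorem TCLSA_G {V S D : ℝ → ℝ} {κ : ℝ}
    (hS : ∀ x, HasDerivAt S (-(4 * Real.sin (2 * x) * D x / V x)) x) (x : ℝ) :
    HasDerivAt (fun x => Real.sin (2 * x) * S x - κ)
      (2 * Real.cos (2 * x) * S x - 4 * Real.sin (2 * x) ^ 2 * D x / V x) x := by
  have h1 : HasDerivAt (fun x : ℝ => Real.sin (2 * x)) (Real.cos (2 * x) * (2 * 1)) x :=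
    ((hasDerivAt_id x).const_mul 2).sin
  have h2 := (h1.mul (hS x)).sub_const κ
  exact h2.congr_deriv (by ring)

theorem TCLSA_up {V S D : ℝ → ℝ} {κ : ℝ} (hV : ∀ x, 0 < V x)
    (hD : ∀ x, HasDerivAt D (4 * (κ - Real.sin (2 * x) * S x) / V x) x) {a b : ℝ} (hab : a < b)
    (h : D a < D b) : ∃ ξ ∈ Set.Ioo a b, Real.sin (2 * ξ) * S ξ - κ < 0 := by
  obtain ⟨ξ, hξ, h1⟩ := exists_hasDerivAt_eq_slope D _ hab
    (fun x _ => (hD x).continuousAt.continuousWithinAt) (fun x _ => hD x)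
  refine ⟨ξ, hξ, ?_⟩
  have h2 : 0 < 4 * (κ - Real.sin (2 * ξ) * S ξ) / V ξ := by
    rw [h1]
    exact div_pos (by linarith) (by linarith)
  rcases div_pos_iff.1 h2 with h3 | h3
  · linarith [h3.1]
  · linarith [h3.2, hV ξ]

theorem TCLSA_down {V S D : ℝ → ℝ} {κ : ℝ} (hV : ∀ x, 0 < V x)
    (hD : ∀ x, HasDerivAt D (4 * (κ - Real.sin (2 * x) * S x) / V x) x) {a b : ℝ} (hab : a < b)
    (h : D b < D a) : ∃ ξ ∈ Set.Ioo a b, 0 < Real.sin (2 * ξ) * S ξ - κ := by
  obtain ⟨ξ, hξ, h1⟩ := exists_hasDerivAt_eq_slope D _ hab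
    (fun x _ => (hD x).continuousAt.continuousWithinAt) (fun x _ => hD x)
  refine ⟨ξ, hξ, ?_⟩
  have h2 : 4 * (κ - Real.sin (2 * ξ) * S ξ) / V ξ < 0 := by
    rw [h1]
    exact div_neg_of_neg_of_pos (by linarith) (by linarith)
  rcases div_neg_iff.1 h2 with h3 | h3
  · linarith [h3.2, hV ξ]
  · linarith [h3.1]

theorem TCLSA_mono {V S D : ℝ → ℝ} {κ : ℝ} (hκ : 0 < κ) (hV : ∀ x, 0 < V x)
    (hS0 : ∀ x, 0 < S x)
    (hD : ∀ x, HasDerivAt D (4 * (κ - Real.sin (2 * x) * S x) / V x) x) :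
    StrictMonoOn D (Set.Icc (-(π / 2)) 0) := by
  refine strictMonoOn_of_deriv_pos (convex_Icc _ _)
    (fun x _ => (hD x).continuousAt.continuousWithinAt) ?_
  intro x hx
  rw [interior_Icc] at hx
  rw [(hD x).deriv]
  have hs : Real.sin (2 * x) ≤ 0 :=
    Real.sin_nonpos_of_nonpos_of_neg_pi_le (by linarith [hx.2]) (by linarith [hx.1])
  have := mul_nonneg (neg_nonneg.2 hs) (hS0 x).le
  exact div_pos (by nlinarith) (hV x)

theorem TCLSA_first {D : ℝ → ℝ} (hDc : Continuous D) {c b : ℝ} (hcb : c ≤ b) (hb : D b ≤ 0)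
    (hc : 0 < D c) : ∃ q, c < q ∧ q ≤ b ∧ D q ≤ 0 ∧ ∀ x, c ≤ x → x < q → 0 < D x := by
  obtain ⟨q, ⟨hq1, hq2⟩, hq3⟩ := IsCompact.exists_isLeast
    (s := Set.Icc c b ∩ D ⁻¹' Set.Iic 0)
    (isCompact_Icc.inter_right (isClosed_Iic.preimage hDc)) ⟨b, ⟨hcb, le_refl _⟩, hb⟩
  have hq4 : D q ≤ 0 := hq2
  refine ⟨q, lt_of_le_of_ne hq1.1 ?_, hq1.2, hq4, ?_⟩
  · rintro rfl
    linarith
  · intro x hx hxq
    by_contra hn
    have := hq3 ⟨⟨hx, hxq.le.trans hq1.2⟩, not_lt.1 hn⟩
    linarith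

theorem TCLSA_last {D : ℝ → ℝ} (hDc : Continuous D) {a c : ℝ} (hac : a ≤ c) (ha : D a ≤ 0)
    (hc : 0 < D c) : ∃ p, a ≤ p ∧ p < c ∧ D p ≤ 0 ∧ ∀ x, p < x → x ≤ c → 0 < D x := by
  obtain ⟨p, ⟨hp1, hp2⟩, hp3⟩ := IsCompact.exists_isGreatest
    (s := Set.Icc a c ∩ D ⁻¹' Set.Iic 0)
    (isCompact_Icc.inter_right (isClosed_Iic.preimage hDc)) ⟨a, ⟨le_refl _, hac⟩, ha⟩
  have hp4 : D p ≤ 0 := hp2
  refine ⟨p, hp1.1, lt_of_le_of_ne hp1.2 ?_, hp4, ?_⟩
  · rintro rfl
    linarith
  · intro x hx hxc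
    by_contra hn
    have := hp3 ⟨⟨hp1.1.trans hx.le, hxc⟩, not_lt.1 hn⟩
    linarith

theorem TCLSA_quarter {V S D : ℝ → ℝ} {κ : ℝ} (hV : ∀ x, 0 < V x)
    (hS0 : ∀ x, 0 < S x)
    (hS : ∀ x, HasDerivAt S (-(4 * Real.sin (2 * x) * D x / V x)) x)
    (hD : ∀ x, HasDerivAt D (4 * (κ - Real.sin (2 * x) * S x) / V x) x)
    (h0 : D (π / 2) ≤ 0) {c p : ℝ} (hpc : p < c) (hc : c ≤ π / 2)
    (hDp : D p ≤ 0) (hpos : ∀ x, p < x → x ≤ c → 0 < D x) : p < π / 4 := by
  by_contra hn
  push Not at hn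
  have hDc : Continuous D := continuous_iff_continuousAt.2 fun x => (hD x).continuousAt
  obtain ⟨q, hq1, hq2, hq3, hq4⟩ := TCLSA_first hDc hc h0 (hpos c hpc le_rfl)
  have hDpos : ∀ x, p < x → x < q → 0 < D x := fun x h1 h2 => by
    rcases le_total x c with h | h
    · exact hpos x h1 h
    · exact hq4 x h h2
  have hanti : AntitoneOn (fun x => Real.sin (2 * x) * S x - κ) (Set.Ioo p q) := by
    refine antitoneOn_of_deriv_nonpos (convex_Ioo _ _)
      (fun x _ => (TCLSA_G hS x).continuousAt.continuousWithinAt)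
      (fun x _ => (TCLSA_G hS x).differentiableAt.differentiableWithinAt) ?_
    intro x hx
    rw [interior_Ioo] at hx
    rw [(TCLSA_G hS x).deriv]
    have h1 : Real.cos (2 * x) ≤ 0 :=
      Real.cos_nonpos_of_pi_div_two_le_of_le (by linarith [hx.1])
        (by linarith [hx.2, Real.pi_pos])
    have h2 : Real.cos (2 * x) * S x ≤ 0 := mul_nonpos_of_nonpos_of_nonneg h1 (hS0 x).le
    have h3 : 0 ≤ 4 * Real.sin (2 * x) ^ 2 * D x / V x :=
      div_nonneg (mul_nonneg (by positivity) (hDpos x hx.1 hx.2).le) (hV x).le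
    linarith
  obtain ⟨ξ, hξ, h1⟩ := TCLSA_up hV hD hpc (hDp.trans_lt (hpos c hpc le_rfl))
  obtain ⟨η, hη, h2⟩ := TCLSA_down hV hD hq1 (hq3.trans_lt (hpos c hpc le_rfl))
  have h3 := hanti ⟨hξ.1, hξ.2.trans hq1⟩ ⟨hpc.trans hη.1, hη.2⟩ (hξ.2.trans hη.1).le
  have h4 : Real.sin (2 * η) * S η - κ ≤ Real.sin (2 * ξ) * S ξ - κ := h3
  linarith

theorem TCLSA_nonpos {V S D : ℝ → ℝ} {κ : ℝ} (hVc : Continuous V) (hV : ∀ x, 0 < V x)
    (hS0 : ∀ x, 0 < S x)
    (hS : ∀ x, HasDerivAt S (-(4 * Real.sin (2 * x) * D x / V x)) x)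
    (hD : ∀ x, HasDerivAt D (4 * (κ - Real.sin (2 * x) * S x) / V x) x)
    {a c p : ℝ} (ha0 : 0 ≤ a) (hap : a < p) (hp : p < π / 4) (hpc : p < c)
    (hDp : D p ≤ 0) (hpos : ∀ x, p < x → x ≤ c → 0 < D x) : D a ≤ 0 := by
  by_contra hn
  push Not at hn
  obtain ⟨G, hGd⟩ : ∃ G : ℝ → ℝ, G = fun x => Real.sin (2 * x) * S x - κ := ⟨_, rfl⟩
  have hG : ∀ x, HasDerivAt G
      (2 * Real.cos (2 * x) * S x - 4 * Real.sin (2 * x) ^ 2 * D x / V x) x := fun x => by
    rw [hGd]
    exact TCLSA_G hS x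
  have hGx : ∀ x, G x = Real.sin (2 * x) * S x - κ := fun x => by rw [hGd]
  have hGc : Continuous G := continuous_iff_continuousAt.2 fun x => (hG x).continuousAt
  have hDc : Continuous D := continuous_iff_continuousAt.2 fun x => (hD x).continuousAt
  have hSc : Continuous S := continuous_iff_continuousAt.2 fun x => (hS x).continuousAt
  have hG1 : ∀ x, 0 ≤ x → x < π / 4 → D x ≤ 0 →
      0 < 2 * Real.cos (2 * x) * S x - 4 * Real.sin (2 * x) ^ 2 * D x / V x := by
    intro x h1 h2 h3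
    have h4 : 0 < Real.cos (2 * x) :=
      Real.cos_pos_of_mem_Ioo ⟨by linarith [Real.pi_pos], by linarith⟩
    have h5 : 0 < Real.cos (2 * x) * S x := mul_pos h4 (hS0 x)
    have h6 : 4 * Real.sin (2 * x) ^ 2 * D x / V x ≤ 0 :=
      div_nonpos_of_nonpos_of_nonneg (mul_nonpos_of_nonneg_of_nonpos (by positivity) h3)
        (hV x).le
    linarith
  obtain ⟨ξ, hξ, h1⟩ := TCLSA_down hV hD hap (hDp.trans_lt hn)
  obtain ⟨m, ⟨hm1, hm2⟩, hm3⟩ := IsCompact.exists_isGreatest
    (s := Set.Icc a p ∩ G ⁻¹' Set.Ici 0)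
    (isCompact_Icc.inter_right (isClosed_Ici.preimage hGc))
    ⟨ξ, ⟨hξ.1.le, hξ.2.le⟩, by rw [Set.mem_preimage, hGx]; exact h1.le⟩
  have hm4 : 0 ≤ G m := hm2
  rcases hm1.2.lt_or_eq with h2 | h2
  · have hGneg : ∀ x, m < x → x ≤ p → G x < 0 := fun x h3 h4 => by
      by_contra h5
      have := hm3 ⟨⟨hm1.1.trans h3.le, h4⟩, not_lt.1 h5⟩
      linarith
    have hmono : StrictMonoOn D (Set.Icc m p) := by
      refine strictMonoOn_of_deriv_pos (convex_Icc _ _) hDc.continuousOn ?_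
      intro x hx
      rw [interior_Icc] at hx
      rw [(hD x).deriv]
      have := hGneg x hx.1 hx.2.le
      rw [hGx] at this
      exact div_pos (by linarith) (hV x)
    have hGmono : StrictMonoOn G (Set.Icc m p) := by
      refine strictMonoOn_of_deriv_pos (convex_Icc _ _) hGc.continuousOn ?_
      intro x hx
      rw [interior_Icc] at hx
      rw [(hG x).deriv]
      refine hG1 x (ha0.trans (hm1.1.trans hx.1.le)) (hx.2.trans hp) ?_
      exact (hmono ⟨hx.1.le, hx.2.le⟩ ⟨h2.le, le_rfl⟩ hx.2).le.trans hDp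
    have h3 := hGmono ⟨le_rfl, h2.le⟩ ⟨h2.le, le_rfl⟩ h2
    have h4 := hGneg p h2 le_rfl
    linarith
  · rw [h2] at hm4
    have hc1 : Continuous fun x => 2 * Real.cos (2 * x) * S x -
        4 * Real.sin (2 * x) ^ 2 * D x / V x := by
      refine Continuous.sub (by fun_prop) ?_
      exact Continuous.div (by fun_prop) hVc fun x => (hV x).ne'
    have h3 : ∀ᶠ x in 𝓝 p, 0 < 2 * Real.cos (2 * x) * S x -
        4 * Real.sin (2 * x) ^ 2 * D x / V x :=
      hc1.continuousAt.eventually_const_lt (hG1 p (ha0.trans hap.le) hp hDp)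
    obtain ⟨ε, hε, h4⟩ := Metric.eventually_nhds_iff.1 h3
    have hGmono : StrictMonoOn G (Set.Icc p (p + ε / 2)) := by
      refine strictMonoOn_of_deriv_pos (convex_Icc _ _) hGc.continuousOn ?_
      intro x hx
      rw [interior_Icc] at hx
      rw [(hG x).deriv]
      refine h4 ?_
      rw [Real.dist_eq, abs_lt]
      constructor <;> linarith [hx.1, hx.2]
    have h5 : p < min c (p + ε / 2) := lt_min hpc (by linarith)
    obtain ⟨η, hη, h6⟩ := TCLSA_up hV hD h5
      (hDp.trans_lt (hpos _ h5 (min_le_left _ _)))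
    have h7 : η < p + ε / 2 := hη.2.trans_le (min_le_right _ _)
    have h8 := hGmono ⟨le_rfl, by linarith⟩ ⟨hη.1.le, h7.le⟩ hη.1
    rw [← hGx] at h6
    linarith

theorem TCLSA_L {V S D : ℝ → ℝ} {κ : ℝ} (hκ : 0 < κ) (hVc : Continuous V) (hV : ∀ x, 0 < V x)
    (hS0 : ∀ x, 0 < S x)
    (hS : ∀ x, HasDerivAt S (-(4 * Real.sin (2 * x) * D x / V x)) x)
    (hD : ∀ x, HasDerivAt D (4 * (κ - Real.sin (2 * x) * S x) / V x) x)
    (h0 : D (π / 2) ≤ 0) {c p : ℝ} (hpc : p < c) (hc : c ≤ π / 2)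
    (hDp : D p ≤ 0) (hpos : ∀ x, p < x → x ≤ c → 0 < D x) :
    ∀ x, -(π / 2) ≤ x → x ≤ p → D x ≤ 0 := by
  intro x hx hxp
  have hmono := TCLSA_mono hκ hV hS0 hD
  have hpi := Real.pi_pos
  by_cases hp0 : p ≤ 0
  · exact (hmono.monotoneOn ⟨hx, hxp.trans hp0⟩ ⟨hx.trans hxp, hp0⟩ hxp).trans hDp
  · push Not at hp0
    have hp4 := TCLSA_quarter hV hS0 hS hD h0 hpc hc hDp hpos
    rcases hxp.lt_or_eq with h1 | h1
    · by_cases hx0 : 0 ≤ x
      · exact TCLSA_nonpos hVc hV hS0 hS hD hx0 h1 hp4 hpc hDp hpos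
      · push Not at hx0
        have h2 := TCLSA_nonpos hVc hV hS0 hS hD le_rfl hp0 hp4 hpc hDp hpos
        exact (hmono ⟨hx, hx0.le⟩ ⟨by linarith, le_rfl⟩ hx0).le.trans h2
    · rw [h1]
      exact hDp

/-- TC-LSA1. The case `D (-π/2) ≤ 0` of `lsa`.

Proof. Notation: `s = sin 2x`, `G x = s S - κ`, so `V D' = -4 G`, and
`G' = 2 cos 2x S + s S' = 2 cos 2x S - 4 s^2 D / V`. `D` is strictly increasing on `[-π/2,0]` (there
`s ≤ 0`, `G < 0`), and near `0` and near `π/2` (`G = -κ < 0` there).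
(0) `∫ D / V = 0` and `D` is not identically zero (`D' 0 > 0`), so `D` takes both signs.
(1) Structure on `[0,π/2]`: let `(p,q)`, `0 ≤ p < q ≤ π/2`, be a maximal interval on which `D > 0`
with `0 < p` (so `D p = 0`) and `D q = 0`. Then `G p ≤ 0 ≤ G q` (`D` increases at `p`, decreases at
`q`). If `π/4 ≤ p`, then `G' < 0` on `(p,q)`, a contradiction. So `p < π/4`.
Claim: there is no such interval with `D ≤ 0` on `[p₀,p]`, `p₀ < p`, `G p₀ ≥ 0` (as `p < π/4`,
`G' > 0` on `(p₀,p)`, so `G p > 0`, contradiction). And at a point `p₀ < π/4`, `D p₀ = 0`, `G p₀ = 0`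
one has `G' p₀ > 0`, so `D < 0` right after `p₀`.
Consequence: the set `{D > 0} ∩ [0,π/2]` is an interval: there are `z₂ ∈ (0,π/2]` and
`z₁' ∈ [0,z₂)` with `D ≤ 0` on `[0,z₁']` (`z₁' = 0` if `D 0 ≥ 0`), `D ≥ 0` on `[z₁',z₂]`, `D ≤ 0` on
`[z₂,π/2]` (`D (π/2) = D (-π/2) ≤ 0`).
(2) Case A, `D 0 ≥ 0`. As `D` increases on `[-π/2,0]` from `≤ 0` to `≥ 0` there is `z₁ ∈ [-π/2,0]`
with `D ≤ 0` on `[-π/2,z₁]`, `D ≥ 0` on `[z₁,z₂]` and `D ≤ 0` on `[z₂,π/2]`. Put
`T x = cos (2x - (z₁+z₂)) - cos (z₂-z₁)`; `T ≥ 0` on `[z₁,z₂]`, `T ≤ 0` on the rest of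
`[-π/2,π/2]`. So `T D ≥ 0`, and not identically zero, hence
`0 < ∫ T D / V = cos (z₁+z₂) ∫ cos 2x D / V` (by the two constraints). `z₁ + z₂ ∈ [-π/2,π/2]`, so
`cos (z₁+z₂) ≥ 0`, and the product is positive.
(3) Case B, `D 0 < 0`. Then `D < 0` on `[-π/2,0]`; `z₁ := z₁' > 0` and `D ≥ 0` on `[z₁,z₂]`, `D ≤ 0`
elsewhere on `[-π/2,π/2]`. `G z₁ ≤ 0 ≤ G z₂`: `sin 2z₁ S z₁ ≤ κ ≤ sin 2z₂ S z₂`, and
`S' = -4 s D / V ≤ 0` on `[z₁,z₂]`, so `S z₂ ≤ S z₁` (strictly, as `D` is not identically zero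
there), so `sin 2z₁ < sin 2z₂`; with `z₁ < π/4` this gives `z₁ + z₂ < π/2`. So again
`cos (z₁+z₂) > 0` (`0 < z₁ + z₂`), and `T` as before. -/
theorem lsa_half {V S D : ℝ → ℝ} {κ : ℝ} (hκ : 0 < κ) (hVc : Continuous V) (hV : ∀ x, 0 < V x)
    (hS0 : ∀ x, 0 < S x)
    (hS : ∀ x, HasDerivAt S (-(4 * Real.sin (2 * x) * D x / V x)) x)
    (hD : ∀ x, HasDerivAt D (4 * (κ - Real.sin (2 * x) * S x) / V x) x)
    (hVp : Function.Periodic V π) (hSp : Function.Periodic S π) (hDp : Function.Periodic D π)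
    (h1 : ∫ x in (-(π / 2))..(π / 2), D x / V x = 0)
    (h2 : ∫ x in (-(π / 2))..(π / 2), Real.sin (2 * x) * D x / V x = 0)
    (h0 : D (-(π / 2)) ≤ 0) :
    0 < ∫ x in (-(π / 2))..(π / 2), Real.cos (2 * x) * D x / V x := by
  have hpi := Real.pi_pos
  have hDc : Continuous D := continuous_iff_continuousAt.2 fun x => (hD x).continuousAt
  have hSc : Continuous S := continuous_iff_continuousAt.2 fun x => (hS x).continuousAt
  have hmono := TCLSA_mono hκ hV hS0 hD
  have h0' : D (π / 2) ≤ 0 := by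
    have := hDp (-(π / 2))
    rw [show -(π / 2) + π = π / 2 by ring] at this
    rw [this]
    exact h0
  have hlt : D (-(π / 2)) < D 0 :=
    hmono ⟨le_rfl, by linarith⟩ ⟨by linarith, le_rfl⟩ (by linarith)
  obtain ⟨c, hc0, hc1, hc2⟩ : ∃ c, 0 ≤ c ∧ c ≤ π / 2 ∧ 0 < D c := by
    by_contra hn
    push Not at hn
    have hall : ∀ x ∈ Set.Icc (-(π / 2)) (π / 2), D x ≤ 0 := fun x hx => by
      rcases le_total 0 x with h | h
      · exact hn x h hx.2
      · exact (hmono.monotoneOn ⟨hx.1, h⟩ ⟨by linarith, le_rfl⟩ h).trans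
          (hn 0 le_rfl (by linarith))
    have h3 : 0 < ∫ x in (-(π / 2))..(π / 2), -(D x / V x) := by
      refine intervalIntegral.integral_pos (by linarith)
        (Continuous.continuousOn (hDc.div hVc fun x => (hV x).ne').neg) ?_ ?_
      · intro x hx
        have := div_nonpos_of_nonpos_of_nonneg (hall x ⟨hx.1.le, hx.2⟩) (hV x).le
        linarith
      · refine ⟨-(π / 2), ⟨le_rfl, by linarith⟩, ?_⟩
        have h4 : D (-(π / 2)) < 0 := hlt.trans_le (hn 0 le_rfl (by linarith))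
        have := div_neg_of_neg_of_pos h4 (hV (-(π / 2)))
        linarith
    rw [intervalIntegral.integral_neg, h1] at h3
    linarith
  obtain ⟨p, hp1, hp2, hp3, hp4⟩ := TCLSA_last hDc (by linarith : -(π / 2) ≤ c) h0 hc2
  obtain ⟨q, hq1, hq2, hq3, hq4⟩ := TCLSA_first hDc hc1 h0' hc2
  have hL := TCLSA_L hκ hVc hV hS0 hS hD h0' hp2 hc1 hp3 hp4
  have hR : ∀ x, q ≤ x → x ≤ π / 2 → D x ≤ 0 := by
    intro x h3 h4
    by_contra hn
    push Not at hn
    obtain ⟨p', h5, h6, h7, h8⟩ := TCLSA_last hDc h3 hq3 hn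
    have := TCLSA_L hκ hVc hV hS0 hS hD h0' h6 h4 h7 h8 c (by linarith) (by linarith)
    linarith
  have hM : ∀ x, p < x → x < q → 0 < D x := fun x h3 h4 => by
    rcases le_total x c with h | h
    · exact hp4 x h3 h
    · exact hq4 x h h4
  -- the position of `p + q`
  have hsum : p + q ≤ π / 2 := by
    by_contra hn
    push Not at hn
    have hp0 : 0 < p := by linarith
    have hpq : p < π / 4 := TCLSA_quarter hV hS0 hS hD h0' hp2 hc1 hp3 hp4
    have h3 : p < min c (π / 4) := lt_min hp2 hpq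
    obtain ⟨ξ, hξ, h4⟩ := TCLSA_up hV hD h3 (hp3.trans_lt (hp4 _ h3 (min_le_left _ _)))
    have h5 : max c (π / 2 - p) < q := max_lt hq1 (by linarith)
    obtain ⟨η, hη, h6⟩ := TCLSA_down hV hD h5
      (hq3.trans_lt (hq4 _ (le_max_left _ _) h5))
    have h7 : ξ < c := hξ.2.trans_le (min_le_left _ _)
    have h8 : ξ < π / 4 := hξ.2.trans_le (min_le_right _ _)
    have h9 : c < η := (le_max_left _ _).trans_lt hη.1
    have h10 : π / 2 - p < η := (le_max_right _ _).trans_lt hη.1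
    have hξp := hξ.1
    have hηq := hη.2
    have hSa : AntitoneOn S (Set.Icc ξ η) := by
      refine antitoneOn_of_deriv_nonpos (convex_Icc _ _) hSc.continuousOn
        (fun x _ => (hS x).differentiableAt.differentiableWithinAt) ?_
      intro x hx
      rw [interior_Icc] at hx
      rw [(hS x).deriv]
      have h11 : 0 ≤ Real.sin (2 * x) :=
        Real.sin_nonneg_of_nonneg_of_le_pi (by linarith [hx.1]) (by linarith [hx.2])
      have h12 : 0 < D x := hM x (by linarith [hx.1]) (by linarith [hx.2])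
      have h13 : 0 ≤ 4 * Real.sin (2 * x) * D x / V x :=
        div_nonneg (mul_nonneg (by linarith) h12.le) (hV x).le
      linarith
    have h11 : S η ≤ S ξ := hSa ⟨le_rfl, by linarith⟩ ⟨by linarith, le_rfl⟩ (by linarith)
    have h12 : Real.sin (2 * η) < Real.sin (2 * ξ) := by
      rw [← Real.sin_pi_sub]
      exact Real.strictMonoOn_sin ⟨by linarith, by linarith⟩ ⟨by linarith, by linarith⟩
        (by linarith)
    have h13 : 0 ≤ Real.sin (2 * η) :=
      Real.sin_nonneg_of_nonneg_of_le_pi (by linarith) (by linarith)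
    have h14 : Real.sin (2 * η) * S η ≤ Real.sin (2 * η) * S ξ :=
      mul_le_mul_of_nonneg_left h11 h13
    have h15 : Real.sin (2 * η) * S ξ < Real.sin (2 * ξ) * S ξ :=
      mul_lt_mul_of_pos_right h12 (hS0 ξ)
    linarith
  have hcos : 0 ≤ Real.cos (p + q) :=
    Real.cos_nonneg_of_mem_Icc ⟨by linarith, hsum⟩
  have hcv : Continuous fun x => D x / V x := hDc.div hVc fun x => (hV x).ne'
  have hTid : ∀ x, 2 * Real.sin (x - p) * Real.sin (q - x) =
      Real.cos (p + q) * Real.cos (2 * x) + Real.sin (p + q) * Real.sin (2 * x) -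
        Real.cos (q - p) := by
    intro x
    have h3 : Real.cos (q - p) = Real.cos ((x - p) + (q - x)) := by
      congr 1
      ring
    have h4 : Real.cos (2 * x - (p + q)) = Real.cos ((x - p) - (q - x)) := by
      congr 1
      ring
    rw [Real.cos_add] at h3
    rw [Real.cos_sub, Real.cos_sub] at h4
    linarith
  have hint : 0 < ∫ x in (-(π / 2))..(π / 2),
      2 * Real.sin (x - p) * Real.sin (q - x) * (D x / V x) := by
    refine intervalIntegral.integral_pos (by linarith) ?_ ?_ ?_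
    · refine Continuous.continuousOn (Continuous.mul ?_ hcv)
      fun_prop
    · intro x hx
      rcases le_or_gt x p with h3 | h3
      · have h4 : Real.sin (x - p) ≤ 0 :=
          Real.sin_nonpos_of_nonpos_of_neg_pi_le (by linarith) (by linarith [hx.1])
        have h5 : 0 ≤ Real.sin (q - x) :=
          Real.sin_nonneg_of_nonneg_of_le_pi (by linarith) (by linarith [hx.1])
        have h6 : D x / V x ≤ 0 :=
          div_nonpos_of_nonpos_of_nonneg (hL x hx.1.le h3) (hV x).le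
        exact mul_nonneg_of_nonpos_of_nonpos
          (mul_nonpos_of_nonpos_of_nonneg (by linarith) h5) h6
      · have h4 : 0 ≤ Real.sin (x - p) :=
          Real.sin_nonneg_of_nonneg_of_le_pi (by linarith) (by linarith [hx.2])
        rcases lt_or_ge x q with h5 | h5
        · have h6 : 0 ≤ Real.sin (q - x) :=
            Real.sin_nonneg_of_nonneg_of_le_pi (by linarith) (by linarith [hx.1])
          exact mul_nonneg (mul_nonneg (by linarith) h6)
            (div_nonneg (hM x h3 h5).le (hV x).le)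
        · have h6 : Real.sin (q - x) ≤ 0 :=
            Real.sin_nonpos_of_nonpos_of_neg_pi_le (by linarith) (by linarith [hx.2])
          have h7 : D x / V x ≤ 0 :=
            div_nonpos_of_nonpos_of_nonneg (hR x h5 hx.2) (hV x).le
          exact mul_nonneg_of_nonpos_of_nonpos
            (mul_nonpos_of_nonneg_of_nonpos (by linarith) h6) h7
    · -- a point between `p` and `q`
      refine ⟨(p + q) / 2, ⟨by linarith, by linarith⟩, ?_⟩
      have h3 : 0 < Real.sin ((p + q) / 2 - p) :=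
        Real.sin_pos_of_pos_of_lt_pi (by linarith) (by linarith)
      have h4 : 0 < Real.sin (q - (p + q) / 2) :=
        Real.sin_pos_of_pos_of_lt_pi (by linarith) (by linarith)
      have h5 : 0 < D ((p + q) / 2) := hM _ (by linarith) (by linarith)
      exact mul_pos (mul_pos (by linarith) h4) (div_pos h5 (hV _))
  have hI : ∫ x in (-(π / 2))..(π / 2), 2 * Real.sin (x - p) * Real.sin (q - x) * (D x / V x) =
      Real.cos (p + q) * ∫ x in (-(π / 2))..(π / 2), Real.cos (2 * x) * D x / V x := by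
    have hc1 : Continuous fun x => Real.cos (2 * x) * D x / V x :=
      Continuous.div (by fun_prop) hVc fun x => (hV x).ne'
    have hc2 : Continuous fun x => Real.sin (2 * x) * D x / V x :=
      Continuous.div (by fun_prop) hVc fun x => (hV x).ne'
    have h3 : (fun x => 2 * Real.sin (x - p) * Real.sin (q - x) * (D x / V x)) =
        fun x => (Real.cos (p + q) * (Real.cos (2 * x) * D x / V x) +
          Real.sin (p + q) * (Real.sin (2 * x) * D x / V x)) -
          Real.cos (q - p) * (D x / V x) := by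
      funext x
      rw [hTid]
      ring
    rw [h3, intervalIntegral.integral_sub, intervalIntegral.integral_add,
      intervalIntegral.integral_const_mul, intervalIntegral.integral_const_mul,
      intervalIntegral.integral_const_mul, h1, h2]
    · ring
    · exact (hc1.const_smul (Real.cos (p + q))).intervalIntegrable _ _
    · exact (hc2.const_smul (Real.sin (p + q))).intervalIntegrable _ _
    · exact ((hc1.const_smul (Real.cos (p + q))).add
        (hc2.const_smul (Real.sin (p + q)))).intervalIntegrable _ _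
    · exact (hcv.const_smul (Real.cos (q - p))).intervalIntegrable _ _
  rw [hI] at hint
  by_contra hn
  push Not at hn
  have := mul_nonpos_of_nonneg_of_nonpos hcos hn
  linarith

/-- TC-LSA2. The sign of the cosine moment of the difference of the two densities.

Proof. `∫ D / V = 0` and `∫ sin 2x D / V = 0` over a period: with `f = (S + D) / 2`,
`g = (S - D) / 2` one has `V f' = 2 κ - 4 sin 2x f`, `V g' = -2 κ + 4 sin 2x g`, so
`(f g)' = -2 κ D / V`, and `S' = -4 sin 2x D / V`; integrate over a period (`fg`, `S` periodic). If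
`D (-π/2) ≤ 0` use `lsa_half`. If `D (-π/2) > 0`, use `lsa_half` for `V (π/2 - x)`,
`S (π/2 - x)`, `-D (π/2 - x)` (then `-D (π/2 + π/2) = -D (-π/2 + π·..) = -D (-π/2) < 0` by
periodicity, and `cos (2 (π/2 - x)) = -cos 2x`, `sin (2 (π/2 - x)) = sin 2x`); the integral over
`[0,π]` of a `π`-periodic function equals that over `[-π/2,π/2]`. -/
theorem lsa {V S D : ℝ → ℝ} {κ : ℝ} (hκ : 0 < κ) (hVc : Continuous V) (hV : ∀ x, 0 < V x)
    (hS0 : ∀ x, 0 < S x)
    (hS : ∀ x, HasDerivAt S (-(4 * Real.sin (2 * x) * D x / V x)) x)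
    (hD : ∀ x, HasDerivAt D (4 * (κ - Real.sin (2 * x) * S x) / V x) x)
    (hVp : Function.Periodic V π) (hSp : Function.Periodic S π) (hDp : Function.Periodic D π) :
    (∫ x in (0 : ℝ)..π, D x / V x = 0) ∧
      0 < ∫ x in (0 : ℝ)..π, Real.cos (2 * x) * D x / V x := by
  have hpi := Real.pi_pos
  have hDc : Continuous D := continuous_iff_continuousAt.2 fun x => (hD x).continuousAt
  have hSc : Continuous S := continuous_iff_continuousAt.2 fun x => (hS x).continuousAt
  have hcv : Continuous fun x => D x / V x := hDc.div hVc fun x => (hV x).ne'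
  have hc2 : Continuous fun x => Real.sin (2 * x) * D x / V x :=
    Continuous.div (by fun_prop) hVc fun x => (hV x).ne'
  have h1 : ∀ t, ∫ x in t..(t + π), D x / V x = 0 := by
    intro t
    have h3 : ∀ x, HasDerivAt (fun x => S x ^ 2 - D x ^ 2) (-(8 * κ) * (D x / V x)) x := by
      intro x
      have h4 := ((hS x).pow 2).sub ((hD x).pow 2)
      have h5 := (hV x).ne'
      refine h4.congr_deriv ?_
      field_simp
      ring
    have h5 := intervalIntegral.integral_eq_sub_of_hasDerivAt (a := t) (b := t + π)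
      (fun x _ => h3 x) ((hcv.const_smul (-(8 * κ))).intervalIntegrable _ _)
    rw [intervalIntegral.integral_const_mul, hSp t, hDp t, sub_self] at h5
    rcases mul_eq_zero.1 h5 with h6 | h6
    · linarith
    · exact h6
  have h2 : ∀ t, ∫ x in t..(t + π), Real.sin (2 * x) * D x / V x = 0 := by
    intro t
    have h3 : ∀ x, HasDerivAt S (-4 * (Real.sin (2 * x) * D x / V x)) x := by
      intro x
      convert hS x using 1
      ring
    have h5 := intervalIntegral.integral_eq_sub_of_hasDerivAt (a := t) (b := t + π)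
      (fun x _ => h3 x) ((hc2.const_smul (-4 : ℝ)).intervalIntegrable _ _)
    rw [intervalIntegral.integral_const_mul, hSp t, sub_self] at h5
    rcases mul_eq_zero.1 h5 with h6 | h6
    · linarith
    · exact h6
  refine ⟨by simpa using h1 0, ?_⟩
  have hper : Function.Periodic (fun x => Real.cos (2 * x) * D x / V x) π := by
    intro x
    show Real.cos (2 * (x + π)) * D (x + π) / V (x + π) = Real.cos (2 * x) * D x / V x
    rw [hDp x, hVp x, show 2 * (x + π) = 2 * x + 2 * π by ring, Real.cos_add_two_pi]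
  rcases le_or_gt (D (-(π / 2))) 0 with h0 | h0
  · have h3 := lsa_half hκ hVc hV hS0 hS hD hVp hSp hDp
      (by simpa [show -(π / 2) + π = π / 2 by ring] using h1 (-(π / 2)))
      (by simpa [show -(π / 2) + π = π / 2 by ring] using h2 (-(π / 2))) h0
    have h4 := hper.intervalIntegral_add_eq 0 (-(π / 2))
    rw [zero_add, show -(π / 2) + π = π / 2 by ring] at h4
    rw [h4]
    exact h3
  · have hmono := TCLSA_mono hκ hV hS0 hD
    have hlt : D (-(π / 2)) < D 0 :=
      hmono ⟨le_rfl, by linarith⟩ ⟨by linarith, le_rfl⟩ (by linarith)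
    have hsin : ∀ x, Real.sin (2 * (π / 2 - x)) = Real.sin (2 * x) := fun x => by
      rw [show 2 * (π / 2 - x) = π - 2 * x by ring, Real.sin_pi_sub]
    have hcosx : ∀ x, Real.cos (2 * (π / 2 - x)) = -Real.cos (2 * x) := fun x => by
      rw [show 2 * (π / 2 - x) = π - 2 * x by ring, Real.cos_pi_sub]
    have hS' : ∀ x, HasDerivAt (fun x => S (π / 2 - x))
        (-(4 * Real.sin (2 * x) * (-D (π / 2 - x)) / V (π / 2 - x))) x := by
      intro x
      have h3 := (hS (π / 2 - x)).comp_const_sub (π / 2) x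
      rw [hsin] at h3
      exact h3.congr_deriv (by ring)
    have hD' : ∀ x, HasDerivAt (fun x => -D (π / 2 - x))
        (4 * (κ - Real.sin (2 * x) * S (π / 2 - x)) / V (π / 2 - x)) x := by
      intro x
      have h3 := ((hD (π / 2 - x)).comp_const_sub (π / 2) x).neg
      rw [hsin, neg_neg] at h3
      exact h3
    have hp : ∀ F : ℝ → ℝ, Function.Periodic F π →
        Function.Periodic (fun x => F (π / 2 - x)) π := by
      intro F hF x
      show F (π / 2 - (x + π)) = F (π / 2 - x)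
      have := hF (π / 2 - (x + π))
      rw [← this]
      congr 1
      ring
    have hi : ∀ F : ℝ → ℝ, ∫ x in (-(π / 2))..(π / 2), F (π / 2 - x) = ∫ x in (0 : ℝ)..π, F x := by
      intro F
      rw [intervalIntegral.integral_comp_sub_left]
      congr 1 <;> ring
    have h3 := lsa_half (V := fun x => V (π / 2 - x)) (S := fun x => S (π / 2 - x))
      (D := fun x => -D (π / 2 - x)) hκ (hVc.comp (by fun_prop)) (fun x => hV _)
      (fun x => hS0 _) hS' hD' (hp V hVp) (hp S hSp) (fun x => by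
        have h5 : D (π / 2 - (x + π)) = D (π / 2 - x) := hp D hDp x
        show -D (π / 2 - (x + π)) = -D (π / 2 - x)
        rw [h5]) ?_ ?_ ?_
    · have h4 : ∀ x, Real.cos (2 * x) * (-D (π / 2 - x)) / V (π / 2 - x) =
          (fun y => Real.cos (2 * y) * D y / V y) (π / 2 - x) := by
        intro x
        show _ = Real.cos (2 * (π / 2 - x)) * D (π / 2 - x) / V (π / 2 - x)
        rw [hcosx]
        ring
      rw [← hi]
      calc (0 : ℝ) < _ := h3
        _ = _ := intervalIntegral.integral_congr fun x _ => h4 x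
    · have h4 : ∀ x, -D (π / 2 - x) / V (π / 2 - x) = (fun y => -(D y / V y)) (π / 2 - x) :=
        fun x => neg_div _ _
      rw [intervalIntegral.integral_congr fun x _ => h4 x, hi (fun y => -(D y / V y)),
        intervalIntegral.integral_neg]
      have := h1 0
      rw [zero_add] at this
      rw [this, neg_zero]
    · have h4 : ∀ x, Real.sin (2 * x) * (-D (π / 2 - x)) / V (π / 2 - x) =
          (fun y => -(Real.sin (2 * y) * D y / V y)) (π / 2 - x) := by
        intro x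
        show _ = -(Real.sin (2 * (π / 2 - x)) * D (π / 2 - x) / V (π / 2 - x))
        rw [hsin]
        ring
      rw [intervalIntegral.integral_congr fun x _ => h4 x,
        hi (fun y => -(Real.sin (2 * y) * D y / V y)), intervalIntegral.integral_neg]
      have := h2 0
      rw [zero_add] at this
      rw [this, neg_zero]
    · show -D (π / 2 - -(π / 2)) ≤ 0
      have h4 := hDp 0
      rw [zero_add] at h4
      rw [show π / 2 - -(π / 2) = π by ring, h4]
      linarith

end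

end Pool.Agent.SLE
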