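import Pool.Agent.Lib.MP_c17912_pr_TR.SGN
import Pool.Agent.Lib.MP_c17912_pr_TR.LDG
import Pool.Agent.Lib.MP_c17912_pr_TC.LSA

set_option autoImplicit false

open MeasureTheory ProbabilityTheory Filter
open scoped NNReal ENNReal Topology Real

namespace Pool.Agent.SLE

noncomputable section

namespace TCLSG

theorem V_eq (a b c x : ℝ) : Vth a b c x =
    (a + b) / 2 - ((a - b) * Real.cos (2 * x) + 2 * c * Real.sin (2 * x)) / 2 := by
  unfold Vth
  rw [Real.sin_two_mul, Real.cos_two_mul']
  have h := Real.sin_sq_add_cos_sq x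
  linear_combination ((a + b) / 2) * h

theorem V_cont (a b c : ℝ) : Continuous (Vth a b c) := (TRSGN.V_smooth a b c 0).continuous

theorem two_hd (x : ℝ) : HasDerivAt (fun x : ℝ => 2 * x) 2 x := by
  simpa using (hasDerivAt_id x).const_mul (2 : ℝ)

/-- The derivative of `V'`. -/
theorem V_deriv2 (a b c x : ℝ) :
    HasDerivAt (fun x => (a - b) * Real.sin (2 * x) - 2 * c * Real.cos (2 * x))
      (2 * ((a - b) * Real.cos (2 * x) + 2 * c * Real.sin (2 * x))) x := by
  refine (((two_hd x).sin.const_mul (a - b)).sub ((two_hd x).cos.const_mul (2 * c))).congr_deriv ?_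
  ring

/-- The integral of a derivative of a function with equal values at the ends. -/
theorem int_zero {F F' : ℝ → ℝ} (h : ∀ x, HasDerivAt F (F' x) x) (hc : Continuous F')
    (h0 : F π = F 0) : ∫ x in (0 : ℝ)..π, F' x = 0 := by
  rw [intervalIntegral.integral_eq_sub_of_hasDerivAt (fun x _ => h x)
    (hc.intervalIntegrable _ _), h0, sub_self]

theorem log_deriv {a b c : ℝ} (ha : 0 < a) (hb : 0 < b) (hc : c ^ 2 < a * b) (x : ℝ) :
    HasDerivAt (fun x => Real.log (Vth a b c x))
      (((a - b) * Real.sin (2 * x) - 2 * c * Real.cos (2 * x)) / Vth a b c x) x :=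
  (TRSGN.V_deriv a b c x).log (Vth_pos ha hb hc x).ne'

theorem V_end (a b c : ℝ) : Vth a b c π = Vth a b c 0 := by
  have := TRSGN.V_per a b c 0
  rwa [zero_add] at this

theorem form {a b c : ℝ} (ha : 0 < a) (hb : 0 < b) (hc : c ^ 2 < a * b) (σ : ℝ)
    (hσ : σ ^ 2 = 1) :
    ∫ x in (0 : ℝ)..π, (2 * Real.cos (2 * x) - σ * (Vth a b c x - (a + b) / 2)) *
        dens a b c σ x =
      ∫ x in (0 : ℝ)..π, ((a + b) * Real.cos (2 * x) - (a - b)) * dens a b c σ x /
        Vth a b c x := by
  obtain ⟨hs, hp, hpos, κ, hκ⟩ := dens_props ha hb hc σ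
  obtain ⟨f, hf⟩ : ∃ f : ℝ → ℝ, f = dens a b c σ := ⟨_, rfl⟩
  rw [← hf] at hs hp hpos hκ ⊢
  have hfc : Continuous f := (hs 0).continuous
  have hVc := V_cont a b c
  have hV := Vth_pos ha hb hc
  have hVn : ∀ x, Vth a b c x ≠ 0 := fun x => (hV x).ne'
  have hder : ∀ x, HasDerivAt (fun x => σ / 4 *
      (((a - b) * Real.sin (2 * x) - 2 * c * Real.cos (2 * x)) * f x) -
        σ * κ / 2 * Real.log (Vth a b c x))
      ((2 * Real.cos (2 * x) - σ * (Vth a b c x - (a + b) / 2)) * f x -
        ((a + b) * Real.cos (2 * x) - (a - b)) * f x / Vth a b c x) x := by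
    intro x
    refine ((((V_deriv2 a b c x).mul (TRSGN.hd hs x)).const_mul (σ / 4)).sub
      ((log_deriv ha hb hc x).const_mul (σ * κ / 2))).congr_deriv ?_
    have hk := hκ x
    have hVx := V_eq a b c x
    have h0 := hVn x
    have h1 := Real.sin_sq_add_cos_sq (2 * x)
    obtain ⟨V, hVV⟩ : ∃ V : ℝ, V = Vth a b c x := ⟨_, rfl⟩
    rw [← hVV] at hk hVx h0 ⊢
    obtain ⟨s, hs⟩ : ∃ s : ℝ, s = Real.sin (2 * x) := ⟨_, rfl⟩
    obtain ⟨e, he⟩ : ∃ e : ℝ, e = Real.cos (2 * x) := ⟨_, rfl⟩
    rw [← hs, ← he] at h1 hVx ⊢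
    rw [← hs] at hk
    refine mul_right_cancel₀ h0 ?_
    have e1 : ((a - b) * s - 2 * c * e) / V * V = (a - b) * s - 2 * c * e :=
      div_mul_cancel₀ _ h0
    have e2 : ((a + b) * e - (a - b)) * f x / V * V = ((a + b) * e - (a - b)) * f x :=
      div_mul_cancel₀ _ h0
    linear_combination (σ * f x * V - 2 * e * f x) * hVx +
      (s * ((a - b) * s - 2 * c * e) * f x) * hσ + (a - b) * f x * h1 +
      (σ / 2 * ((a - b) * s - 2 * c * e)) * hk + (-(σ * κ / 2)) * e1 + e2
  have hc0 : Continuous (fun x => (2 * Real.cos (2 * x) - σ * (Vth a b c x - (a + b) / 2)) *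
      f x) := by fun_prop
  have hc1 : Continuous (fun x => ((a + b) * Real.cos (2 * x) - (a - b)) * f x /
      Vth a b c x) :=
    ((by fun_prop : Continuous fun x => ((a + b) * Real.cos (2 * x) - (a - b)) * f x)).div
      hVc hVn
  have h := int_zero hder (hc0.sub hc1) (by
    have e1 : f π = f 0 := by
      have := hp 0
      rwa [zero_add] at this
    have e2 := V_end a b c
    simp only [e1, e2, Real.sin_two_pi, Real.cos_two_pi, mul_zero, Real.sin_zero,
      Real.cos_zero])
  rw [TRSGN.int_sub hc0 hc1] at h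
  linarith

theorem V_neg (a b c t : ℝ) : Vth a b (-c) (-t) = Vth a b c t := by
  unfold Vth
  rw [Real.sin_neg, Real.cos_neg]
  ring

theorem H_neg (a b c t : ℝ) : H1 a b (-c) (-t) = H1 a b c t := by
  unfold H1
  rw [mul_neg, Real.sin_neg, Real.cos_neg]
  ring

theorem ff_neg (a b c t : ℝ) : TRDNS.ff a b (-c) (-t) = -TRDNS.ff a b c t := by
  unfold TRDNS.ff
  rw [V_neg, mul_neg, Real.sin_neg]
  ring

theorem LL_neg (a b c x : ℝ) : TRDNS.LL a b (-c) (-x) = TRDNS.LL a b c x := by
  unfold TRDNS.LL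
  have h := intervalIntegral.integral_comp_neg (a := 0) (b := x) (TRDNS.ff a b (-c))
  rw [neg_zero] at h
  rw [intervalIntegral.integral_symm, ← h, ← intervalIntegral.integral_neg]
  refine intervalIntegral.integral_congr fun t _ => ?_
  change -TRDNS.ff a b (-c) (-t) = TRDNS.ff a b c t
  rw [ff_neg, neg_neg]

theorem ee_neg (a b c σ s : ℝ) : TRDNS.ee a b (-c) σ (-s) = TRDNS.ee a b c σ s := by
  unfold TRDNS.ee
  rw [LL_neg, V_neg]

theorem hc_neg {a b c : ℝ} (hc : c ^ 2 < a * b) : (-c) ^ 2 < a * b := by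
  rwa [neg_sq]

theorem dens_neg {a b c : ℝ} (ha : 0 < a) (hb : 0 < b) (hc : c ^ 2 < a * b) (σ x : ℝ) :
    dens a b (-c) σ (-x) = Real.exp (σ * TRDNS.LL a b c π) * dens a b c σ x := by
  rw [TRDNS.dens_eq ha hb (hc_neg hc), TRDNS.dens_eq ha hb hc, LL_neg]
  have h1 := intervalIntegral.integral_comp_neg (a := x - π) (b := x) (TRDNS.ee a b (-c) σ)
  have h2 := TRDNS.ee_int_add ha hb hc σ (x - π)
  rw [sub_add_cancel] at h2
  have h3 : (∫ s in (-x)..(-x + π), TRDNS.ee a b (-c) σ s) =
      ∫ s in (x - π)..x, TRDNS.ee a b c σ s := by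
    rw [show -x + π = -(x - π) by ring, ← h1]
    refine intervalIntegral.integral_congr fun t _ => ?_
    exact ee_neg a b c σ t
  rw [h3, h2]
  have h4 : Real.exp (σ * TRDNS.LL a b c π) * Real.exp (-(σ * TRDNS.LL a b c π)) = 1 := by
    rw [← Real.exp_add, add_neg_cancel, Real.exp_zero]
  linear_combination (-(Real.exp (σ * TRDNS.LL a b c x) *
    ∫ s in (x - π)..x, TRDNS.ee a b c σ s)) * h4

/-- The derivative of the density. -/
theorem dens_hd {a b c : ℝ} (ha : 0 < a) (hb : 0 < b) (hc : c ^ 2 < a * b) (σ κ : ℝ)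
    (hκ : ∀ x, Vth a b c x / 2 * deriv (dens a b c σ) x -
        σ * 2 * Real.sin (2 * x) * dens a b c σ x = κ) (x : ℝ) :
    HasDerivAt (dens a b c σ)
      ((2 * κ + σ * 4 * Real.sin (2 * x) * dens a b c σ x) / Vth a b c x) x := by
  have h := TRSGN.hd (dens_props ha hb hc σ).1 x
  refine h.congr_deriv ?_
  rw [eq_div_iff (Vth_pos ha hb hc x).ne', ← hκ x]
  ring

/-- The sign of the constant. -/
theorem kappa {a b c : ℝ} (ha : 0 < a) (hb : 0 < b) (hc : c ^ 2 < a * b) (σ κ : ℝ)
    (hκ : ∀ x, Vth a b c x / 2 * deriv (dens a b c σ) x -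
        σ * 2 * Real.sin (2 * x) * dens a b c σ x = κ) :
    ∃ P > 0, κ * P = -(σ * 4 * ∫ x in (0 : ℝ)..π, Real.sin (2 * x) / Vth a b c x) := by
  obtain ⟨hs, hp, hpos, -⟩ := dens_props ha hb hc σ
  have hfc : Continuous (dens a b c σ) := (hs 0).continuous
  have hVc := V_cont a b c
  have hV := Vth_pos ha hb hc
  have c1 : Continuous (fun x => 2 / (Vth a b c x * dens a b c σ x)) :=
    continuous_const.div (hVc.mul hfc) fun x => (mul_pos (hV x) (hpos x)).ne'
  have c2 : Continuous (fun x => Real.sin (2 * x) / Vth a b c x) :=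
    (by fun_prop : Continuous fun x : ℝ => Real.sin (2 * x)).div hVc fun x => (hV x).ne'
  refine ⟨∫ x in (0 : ℝ)..π, 2 / (Vth a b c x * dens a b c σ x), ?_, ?_⟩
  · refine intervalIntegral.intervalIntegral_pos_of_pos (c1.intervalIntegrable _ _) ?_ Real.pi_pos
    intro x
    exact div_pos two_pos (mul_pos (hV x) (hpos x))
  · have h := int_zero (F := fun x => Real.log (dens a b c σ x))
      (F' := fun x => κ * (2 / (Vth a b c x * dens a b c σ x)) -
        (-(σ * 4)) * (Real.sin (2 * x) / Vth a b c x)) (fun x => by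
        refine ((dens_hd ha hb hc σ κ hκ x).log (hpos x).ne').congr_deriv ?_
        have i1 := (hV x).ne'
        have i2 := (hpos x).ne'
        field_simp
        ring) ((c1.const_mul κ).sub (c2.const_mul _)) (by
        have := hp 0
        rw [zero_add] at this
        simp only [this])
    rw [TRSGN.int_sub (f := fun x => κ * (2 / (Vth a b c x * dens a b c σ x)))
      (g := fun x => (-(σ * 4)) * (Real.sin (2 * x) / Vth a b c x))
      (c1.const_mul κ) (c2.const_mul _), intervalIntegral.integral_const_mul,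
      intervalIntegral.integral_const_mul] at h
    linarith

end TCLSG

/-- TC-LSG1. The forward and the backward drift in terms of the densities. Here
`V u' = (s cos 2x - ν) / V` with `u = sin 2x / V`, `s = a + b`, `ν = a - b`.

Proof. `V = s/2 - (ν cos 2x + 2c sin 2x) / 2`, `V' = ν sin 2x - 2c cos 2x`, `V'' = -4 (V - s/2)`,
`2 cos 2x V - V' sin 2x = s cos 2x - ν`. `H1 = 2 cos 2x + V - s/2`. For `f = dens (-1)`:
`V f' / 2 = κ - 2 sin 2x f` (`dens_props`), so
`∫ (V - s/2) f = -1/4 ∫ V'' f = 1/4 ∫ V' f' = κ/2 ∫ V'/V - ∫ V' sin 2x f / V`, and `∫ V'/V = 0`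
(periodicity of `log V`). The same for `g = dens 1`: `V g' / 2 = κ' + 2 sin 2x g`, and `Lam_back`. -/
theorem Lam_form {a b c : ℝ} (ha : 0 < a) (hb : 0 < b) (hc : c ^ 2 < a * b) :
    Lam a b c = ∫ x in (0 : ℝ)..π,
        ((a + b) * Real.cos (2 * x) - (a - b)) * dens a b c (-1) x / Vth a b c x ∧
      -Lam b a (-c) = ∫ x in (0 : ℝ)..π,
        ((a + b) * Real.cos (2 * x) - (a - b)) * dens a b c 1 x / Vth a b c x := by
  have h1 := TCLSG.form ha hb hc (-1) (by norm_num)
  have h2 := TCLSG.form ha hb hc 1 (by norm_num)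
  constructor
  · rw [← h1]
    unfold Lam
    refine intervalIntegral.integral_congr fun x _ => ?_
    rw [TCLSG.V_eq]
    unfold H1
    ring
  · rw [← h2, ← Lam_back ha hb hc]
    refine intervalIntegral.integral_congr fun x _ => ?_
    rw [TCLSG.V_eq]
    ring

/-- TC-LSG2. The sign of `∫ sin 2x / V` is that of `c`.

Proof. `V' = ν sin 2x - 2c cos 2x` and `∫ V' / V = 0`; also
`∫ (V - s/2) / V · ...`: let `I = ∫ sin 2x / V`, `J = ∫ cos 2x / V`; `ν I = 2 c J`, and
`ν J + 2 c I = ∫ (s - 2V) / V = ∫ (s / V) - 2π ≥ 0`, with strict inequality if `V` is not constant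
(Cauchy-Schwarz: `∫ V = s π / 2`, `∫ 1/V ≥ π^2 / ∫ V = 2π/s`; strict as `c ≠ 0` makes `V` not
constant). Multiply by `2c`: `2c (ν J + 2c I) = ν^2 I + 4c^2 I = (ν^2 + 4c^2) I`. So for `c > 0`:
`I > 0`. -/
theorem int_sin_pos {a b c : ℝ} (ha : 0 < a) (hb : 0 < b) (hc : c ^ 2 < a * b) (h0 : 0 < c) :
    0 < ∫ x in (0 : ℝ)..π, Real.sin (2 * x) / Vth a b c x := by
  have hVc := TCLSG.V_cont a b c
  have hV := Vth_pos ha hb hc
  have hVn : ∀ x, Vth a b c x ≠ 0 := fun x => (hV x).ne'
  have hs : 0 < a + b := by linarith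
  obtain ⟨I, hI⟩ : ∃ I : ℝ, I = ∫ x in (0 : ℝ)..π, Real.sin (2 * x) / Vth a b c x := ⟨_, rfl⟩
  obtain ⟨J, hJ⟩ : ∃ J : ℝ, J = ∫ x in (0 : ℝ)..π, Real.cos (2 * x) / Vth a b c x := ⟨_, rfl⟩
  have cs : Continuous (fun x => Real.sin (2 * x) / Vth a b c x) :=
    (by fun_prop : Continuous fun x : ℝ => Real.sin (2 * x)).div hVc hVn
  have cc : Continuous (fun x => Real.cos (2 * x) / Vth a b c x) :=
    (by fun_prop : Continuous fun x : ℝ => Real.cos (2 * x)).div hVc hVn
  have h1 : (a - b) * I = 2 * c * J := by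
    have h := TCLSG.int_zero (fun x => TCLSG.log_deriv ha hb hc x)
      ((by fun_prop : Continuous fun x : ℝ => (a - b) * Real.sin (2 * x) -
        2 * c * Real.cos (2 * x)).div hVc hVn) (by rw [TCLSG.V_end])
    have e : ∀ x, ((a - b) * Real.sin (2 * x) - 2 * c * Real.cos (2 * x)) / Vth a b c x =
        (a - b) * (Real.sin (2 * x) / Vth a b c x) -
          2 * c * (Real.cos (2 * x) / Vth a b c x) := fun x => by ring
    simp only [e] at h
    rw [TRSGN.int_sub (f := fun x => (a - b) * (Real.sin (2 * x) / Vth a b c x))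
      (g := fun x => 2 * c * (Real.cos (2 * x) / Vth a b c x)) (cs.const_mul _)
      (cc.const_mul _), intervalIntegral.integral_const_mul,
      intervalIntegral.integral_const_mul, ← hI, ← hJ] at h
    linarith
  obtain ⟨w, hw⟩ : ∃ w : ℝ → ℝ,
      w = fun x => (a - b) * Real.cos (2 * x) + 2 * c * Real.sin (2 * x) := ⟨_, rfl⟩
  have cw : Continuous w := by
    rw [hw]
    fun_prop
  have cq : Continuous (fun x => w x ^ 2 / ((a + b) * Vth a b c x)) :=
    (cw.pow 2).div (hVc.const_mul _) fun x => (mul_pos hs (hV x)).ne'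
  have h2 : (a - b) * J + 2 * c * I = ∫ x in (0 : ℝ)..π, w x ^ 2 / ((a + b) * Vth a b c x) := by
    have h := TCLSG.int_zero (fun x => TCLSG.V_deriv2 a b c x) (by fun_prop) (by
      simp only [Real.sin_two_pi, Real.cos_two_pi, mul_zero, Real.sin_zero, Real.cos_zero])
    rw [intervalIntegral.integral_const_mul] at h
    have h' : ∫ x in (0 : ℝ)..π, w x = 0 := by
      rw [hw]
      linarith
    have e : ∀ x, w x ^ 2 / ((a + b) * Vth a b c x) = ((a - b) * (Real.cos (2 * x) /
        Vth a b c x) - (-(2 * c)) * (Real.sin (2 * x) / Vth a b c x)) - 2 / (a + b) * w x := by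
      intro x
      have i1 := hVn x
      have i2 := TCLSG.V_eq a b c x
      have i3 : w x = (a - b) * Real.cos (2 * x) + 2 * c * Real.sin (2 * x) := by rw [hw]
      rw [← i3] at i2
      have i4 : (a - b) * (Real.cos (2 * x) / Vth a b c x) - (-(2 * c)) * (Real.sin (2 * x) /
        Vth a b c x) = w x / Vth a b c x := by
        rw [i3]
        ring
      rw [i4]
      have i5 := hs.ne'
      field_simp
      linear_combination (2 * w x) * i2
    simp only [e]
    rw [TRSGN.int_sub (f := fun x => (a - b) * (Real.cos (2 * x) / Vth a b c x) -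
        (-(2 * c)) * (Real.sin (2 * x) / Vth a b c x)) (g := fun x => 2 / (a + b) * w x)
      ((cc.const_mul _).sub (cs.const_mul _)) (cw.const_mul _),
      TRSGN.int_sub (f := fun x => (a - b) * (Real.cos (2 * x) / Vth a b c x))
      (g := fun x => (-(2 * c)) * (Real.sin (2 * x) / Vth a b c x)) (cc.const_mul _)
      (cs.const_mul _), intervalIntegral.integral_const_mul,
      intervalIntegral.integral_const_mul, intervalIntegral.integral_const_mul, ← hI, ← hJ, h']
    ring
  have h3 : 0 < ∫ x in (0 : ℝ)..π, w x ^ 2 / ((a + b) * Vth a b c x) := by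
    refine intervalIntegral.integral_pos Real.pi_pos cq.continuousOn (fun x _ => ?_)
      ⟨π / 4, ⟨by linarith [Real.pi_pos], by linarith [Real.pi_pos]⟩, ?_⟩
    · exact div_nonneg (sq_nonneg _) (mul_pos hs (hV x)).le
    · have : w (π / 4) = 2 * c := by
        rw [hw]
        simp only []
        rw [show 2 * (π / 4) = π / 2 by ring, Real.cos_pi_div_two, Real.sin_pi_div_two]
        ring
      rw [this]
      exact div_pos (by positivity) (mul_pos hs (hV _))
  rw [← h2] at h3
  rw [← hI]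
  have h4 : 0 < ((a - b) ^ 2 + 4 * c ^ 2) * I := by
    have : ((a - b) ^ 2 + 4 * c ^ 2) * I = 2 * c * ((a - b) * J + 2 * c * I) := by
      linear_combination (a - b) * h1
    rw [this]
    positivity
  exact (mul_pos_iff_of_pos_left (by positivity)).1 h4

/-- TC-LSG3. `Lam a b (-c) = Lam a b c` (reflection `θ ↦ -θ`, i.e. `θ ↦ π - θ`).

Proof. `Vth a b (-c) (-x) = Vth a b c x`, `H1 a b (-c) (-x) = H1 a b c x`;
`dens a b (-c) σ (-x)` and `dens a b c σ x` are both positive periodic solutions of the same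
equation up to the sign of the constant, hence proportional; more directly, substitution gives
`dens a b (-c) σ (-θ) = ∫ s in (θ-π)..θ, exp (σ ∫ t in s..θ, 4 sin 2t / V t) / V s
= exp (σ L) * dens a b c σ θ` with `L = ∫ t in 0..π, 4 sin 2t / V t` (shift `s` by `π`). So
`Lam a b (-c) = exp (-L) * Lam a b c`: a positive multiple. -/
theorem Lam_neg {a b c : ℝ} (ha : 0 < a) (hb : 0 < b) (hc : c ^ 2 < a * b) :
    ∃ k > 0, Lam a b (-c) = k * Lam a b c := by
  refine ⟨Real.exp (-1 * TRDNS.LL a b c π), Real.exp_pos _, ?_⟩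
  have h1 := intervalIntegral.integral_comp_neg (a := -π) (b := 0)
    (fun θ => H1 a b (-c) θ * dens a b (-c) (-1) θ)
  rw [neg_zero, neg_neg] at h1
  have hper : Function.Periodic (fun θ => H1 a b c θ * dens a b c (-1) θ) π := by
    intro x
    change H1 a b c (x + π) * dens a b c (-1) (x + π) = H1 a b c x * dens a b c (-1) x
    rw [TRSGN.H_per a b c x, (dens_props ha hb hc (-1)).2.1 x]
  have h2 := hper.intervalIntegral_add_eq (-π) 0
  rw [neg_add_cancel, zero_add] at h2
  unfold Lam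
  rw [← h1, ← h2, ← intervalIntegral.integral_const_mul]
  refine intervalIntegral.integral_congr fun x _ => ?_
  change H1 a b (-c) (-x) * dens a b (-c) (-1) (-x) = Real.exp (-1 * TRDNS.LL a b c π) *
    (H1 a b c x * dens a b c (-1) x)
  rw [TCLSG.H_neg, TCLSG.dens_neg ha hb hc]
  ring

/-- TC-LSG. The forward drift or the backward drift is positive.

Proof. By `Lam_neg` (for `(a,b,c)` and for `(b,a,-c)`) we may assume `c ≥ 0`. If `c = 0`:
`Lam_diag`'s proof gives `Lam a b 0 = (4 - (a - b)) / 2 * P`, `P > 0` (or: `Lam_form` and the formula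
`∫ cos 2θ dens (-1) > 0` of `COS.lean`, as `H1 a b 0 θ = (4 - (a - b)) / 2 * cos 2θ`), and
`Lam b a 0 = (4 + (a - b)) / 2 * P'`; one of the two factors is positive.
Let `c > 0`. `f = dens (-1)`: `V f' / 2 = κ - 2 sin 2x f`; dividing by `V f / 2` and integrating,
`κ ∫ 2 / (V f) = 4 ∫ sin 2x / V > 0`, so `κ > 0`. `g = dens 1`: `V g' / 2 = κ' + 2 sin 2x g`, and
`κ' < 0` in the same way. Let `t = κ / (-κ') > 0`, `S = f + t g`, `D = f - t g`:
`V S' = -4 sin 2x D`, `V D' = 4 (κ - sin 2x S)`. `lsa` gives `∫ D / V = 0`, `∫ cos 2x D / V > 0`. If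
both `Lam a b c ≤ 0` and `Lam b a (-c) ≤ 0` then by `Lam_form`
`(a+b) ∫ cos 2x D / V - (a-b) ∫ D / V = Lam a b c + t Lam b a (-c) ≤ 0`, a contradiction. -/
theorem Lam_or {a b c : ℝ} (ha : 0 < a) (hb : 0 < b) (hc : c ^ 2 < a * b) :
    0 < Lam a b c ∨ 0 < Lam b a (-c) := by
  -- the case of a positive covariance
  have main : ∀ {a b c : ℝ}, 0 < a → 0 < b → c ^ 2 < a * b → 0 < c →
      0 < Lam a b c ∨ 0 < Lam b a (-c) := by
    intro a b c ha hb hc h0
    have hI := int_sin_pos ha hb hc h0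
    obtain ⟨hfs, hfp, hfpos, κ, hκ⟩ := dens_props ha hb hc (-1)
    obtain ⟨hgs, hgp, hgpos, κ', hκ'⟩ := dens_props ha hb hc 1
    obtain ⟨P, hP, hP1⟩ := TCLSG.kappa ha hb hc (-1) κ hκ
    obtain ⟨Q, hQ, hQ1⟩ := TCLSG.kappa ha hb hc 1 κ' hκ'
    have k1 : 0 < κ := by
      have : 0 < κ * P := by
        rw [hP1]
        linarith
      exact (mul_pos_iff_of_pos_right hP).1 this
    have k2 : κ' < 0 := by
      have : 0 < (-κ') * Q := by linarith
      have := (mul_pos_iff_of_pos_right hQ).1 this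
      linarith
    have hf' := TCLSG.dens_hd ha hb hc (-1) κ hκ
    have hg' := TCLSG.dens_hd ha hb hc 1 κ' hκ'
    have hVc := TCLSG.V_cont a b c
    have hV := Vth_pos ha hb hc
    have hVn : ∀ x, Vth a b c x ≠ 0 := fun x => (hV x).ne'
    obtain ⟨F1, F2⟩ := Lam_form ha hb hc
    obtain ⟨f, hf⟩ : ∃ f : ℝ → ℝ, f = dens a b c (-1) := ⟨_, rfl⟩
    obtain ⟨g, hg⟩ : ∃ g : ℝ → ℝ, g = dens a b c 1 := ⟨_, rfl⟩
    rw [← hf] at hfs hfp hfpos hf' F1
    rw [← hg] at hgs hgp hgpos hg' F2
    obtain ⟨t, ht⟩ : ∃ t : ℝ, t = κ / (-κ') := ⟨_, rfl⟩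
    have ht0 : 0 < t := by
      rw [ht]
      exact div_pos k1 (by linarith)
    have htk : t * κ' = -κ := by
      have : κ' ≠ 0 := k2.ne
      rw [ht]
      field_simp
    have hfc : Continuous f := (hfs 0).continuous
    have hgc : Continuous g := (hgs 0).continuous
    obtain ⟨l1, l2⟩ := lsa (V := Vth a b c) (S := fun x => f x + t * g x)
      (D := fun x => f x - t * g x) k1 hVc hV
      (fun x => add_pos (hfpos x) (mul_pos ht0 (hgpos x)))
      (fun x => by
        refine ((hf' x).add ((hg' x).const_mul t)).congr_deriv ?_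
        have := hVn x
        field_simp
        linear_combination 2 * htk)
      (fun x => by
        refine ((hf' x).sub ((hg' x).const_mul t)).congr_deriv ?_
        have := hVn x
        field_simp
        linear_combination (-2) * htk)
      (TRSGN.V_per a b c) (fun x => by
        change f (x + π) + t * g (x + π) = f x + t * g x
        rw [hfp x, hgp x]) (fun x => by
        change f (x + π) - t * g (x + π) = f x - t * g x
        rw [hfp x, hgp x])
    by_contra hcon
    rw [not_or, not_lt, not_lt] at hcon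
    obtain ⟨n1, n2⟩ := hcon
    have cD : Continuous (fun x => (f x - t * g x) / Vth a b c x) :=
      (hfc.sub (hgc.const_mul t)).div hVc hVn
    have cE : Continuous (fun x => Real.cos (2 * x) * (f x - t * g x) / Vth a b c x) :=
      ((by fun_prop : Continuous fun x : ℝ => Real.cos (2 * x)).mul
        (hfc.sub (hgc.const_mul t))).div hVc hVn
    have c1 : Continuous (fun x => ((a + b) * Real.cos (2 * x) - (a - b)) * f x /
        Vth a b c x) :=
      ((by fun_prop : Continuous fun x : ℝ => (a + b) * Real.cos (2 * x) - (a - b)).mul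
        hfc).div hVc hVn
    have c2 : Continuous (fun x => ((a + b) * Real.cos (2 * x) - (a - b)) * g x /
        Vth a b c x) :=
      ((by fun_prop : Continuous fun x : ℝ => (a + b) * Real.cos (2 * x) - (a - b)).mul
        hgc).div hVc hVn
    have key : (∫ x in (0 : ℝ)..π, ((a + b) * Real.cos (2 * x) - (a - b)) * f x /
        Vth a b c x) - t * (∫ x in (0 : ℝ)..π, ((a + b) * Real.cos (2 * x) - (a - b)) * g x /
        Vth a b c x) = (a + b) * (∫ x in (0 : ℝ)..π, Real.cos (2 * x) * (f x - t * g x) /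
        Vth a b c x) - (a - b) * ∫ x in (0 : ℝ)..π, (f x - t * g x) / Vth a b c x := by
      rw [← intervalIntegral.integral_const_mul t, ← intervalIntegral.integral_const_mul (a + b),
        ← intervalIntegral.integral_const_mul (a - b),
        ← TRSGN.int_sub c1 (c2.const_mul t), ← TRSGN.int_sub (cE.const_mul _) (cD.const_mul _)]
      refine intervalIntegral.integral_congr fun x _ => ?_
      ring
    rw [← F1, ← F2, l1] at key
    have hs : 0 < a + b := by linarith
    have p1 := mul_pos hs l2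
    have p2 : t * Lam b a (-c) ≤ 0 := by
      have := mul_nonneg ht0.le (neg_nonneg.2 n2)
      linarith
    linarith
  rcases lt_trichotomy c 0 with h | h | h
  · have hc' : (-c) ^ 2 < a * b := TCLSG.hc_neg hc
    have hc'' : (-c) ^ 2 < b * a := by rwa [mul_comm b a]
    obtain ⟨k, hk, hk1⟩ := Lam_neg ha hb hc
    obtain ⟨k', hk', hk1'⟩ := Lam_neg hb ha hc''
    rcases main ha hb hc' (neg_pos.2 h) with h1 | h1
    · left
      rw [hk1] at h1
      exact (mul_pos_iff_of_pos_left hk).1 h1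
    · right
      rw [hk1'] at h1
      exact (mul_pos_iff_of_pos_left hk').1 h1
  · subst h
    rw [neg_zero, TRLDG.Lam_eq ha hb, TRLDG.Lam_eq hb ha]
    have i1 := mul_pos (TRLDG.C_pos ha hb) (LAAux.num_pos ha hb)
    have i2 := mul_pos (TRLDG.C_pos hb ha) (LAAux.num_pos hb ha)
    rcases lt_or_ge (a - b) 4 with h4 | h4
    · left
      exact mul_pos (by linarith) i1
    · right
      exact mul_pos (by linarith) i2
  · exact main ha hb hc h

end

end Pool.Agent.SLE
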