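import Pool.Agent.Lib.MP_c17912_pr_TC.INV
import Pool.Agent.Lib.MP_c17912_pr_TR.CST

set_option autoImplicit false

open MeasureTheory ProbabilityTheory Filter
open scoped NNReal ENNReal Topology Real

namespace Pool.Agent.SLE

noncomputable section

variable {Ω : Type*} [MeasurableSpace Ω] {μ : Measure Ω} {a b c K : ℝ} {W : ℝ → Ω → ℂ}

/-- The functional along the path. -/
private def mx3P (W : ℝ → Ω → ℂ) (z₀ : ℂ) (h ε : ℝ) (i : ℕ) (ω : Ω) : ℝ :=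
  DiscAux.A W z₀ h (kk 1 ε) i ω - Real.log ‖DiscAux.Z W z₀ h i ω‖

/-- In the annulus, `θ` not reached in `[j,i]`. -/
private def mx3E (W : ℝ → Ω → ℂ) (z₀ : ℂ) (h ε δ R θ : ℝ) (j i : ℕ) : Set Ω :=
  {ω | (∀ l ≤ i, ω ∈ DiscAux.Ann W z₀ h δ R l) ∧ ∀ l, j ≤ l → l ≤ i → mx3P W z₀ h ε l ω < θ}

/-- In the annulus, `θ` reached at time `i` for the first time in `[j,i]`. -/
private def mx3H (W : ℝ → Ω → ℂ) (z₀ : ℂ) (h ε δ R θ : ℝ) (j i : ℕ) : Set Ω :=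
  {ω | (∀ l ≤ i, ω ∈ DiscAux.Ann W z₀ h δ R l) ∧
    (∀ l, j ≤ l → l < i → mx3P W z₀ h ε l ω < θ) ∧ θ ≤ mx3P W z₀ h ε i ω}

/-- The weighted process. -/
private def mx3N (W : ℝ → Ω → ℂ) (z₀ : ℂ) (h ε q : ℝ) (F : ℂ → ℝ) (i : ℕ) (ω : Ω) : ℝ :=
  Real.exp (q * DiscAux.A W z₀ h (kk 1 ε) i ω) * F (DiscAux.Z W z₀ h i ω)

omit [MeasurableSpace Ω] in
private lemma mx3_cast {h : ℝ} (hh : 0 < h) {i l : ℕ} (hil : l ≤ i) :
    (l : ℝ) * h ≤ (i : ℝ) * h := by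
  have : (l : ℝ) ≤ i := by exact_mod_cast hil
  exact mul_le_mul_of_nonneg_right this hh.le

omit [MeasurableSpace Ω] in
private lemma mx3P_meas {h : ℝ} (hh : 0 < h) (z₀ : ℂ) (ε : ℝ) (i : ℕ) {u : ℝ}
    (hu : i * h ≤ u) : Measurable[Blk W 0 u] (mx3P W z₀ h ε i) := by
  have h1 : Measurable[Blk W 0 u] (DiscAux.A W z₀ h (kk 1 ε) i) := by
    unfold DiscAux.A
    refine Finset.measurable_sum _ fun l hl => ?_
    exact ((SmgAux.measurable_kk 1 ε).comp (DiscAux.Z_meas hh z₀ l u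
      ((mx3_cast hh (Finset.mem_range.1 hl).le).trans hu))).const_mul h
  have h2 : Measurable[Blk W 0 u] (fun ω => Real.log ‖DiscAux.Z W z₀ h i ω‖) :=
    Real.measurable_log.comp (measurable_norm.comp (DiscAux.Z_meas hh z₀ i u hu))
  exact h1.sub h2

omit [MeasurableSpace Ω] in
private lemma mx3Ann_meas {h δ R : ℝ} (hh : 0 < h) (z₀ : ℂ) (i : ℕ) {u : ℝ}
    (hu : i * h ≤ u) : MeasurableSet[Blk W 0 u] (DiscAux.Ann W z₀ h δ R i) := by
  have h1 : Measurable[Blk W 0 u] (fun ω => ‖DiscAux.Z W z₀ h i ω‖) :=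
    measurable_norm.comp (DiscAux.Z_meas hh z₀ i u hu)
  have h2 : DiscAux.Ann W z₀ h δ R i = (fun ω => ‖DiscAux.Z W z₀ h i ω‖) ⁻¹' Set.Icc δ R := by
    ext ω; rfl
  rw [h2]
  exact h1 measurableSet_Icc

omit [MeasurableSpace Ω] in
private lemma mx3E_meas {h ε δ R θ : ℝ} (hh : 0 < h) (z₀ : ℂ) (j i : ℕ) {u : ℝ}
    (hu : i * h ≤ u) : MeasurableSet[Blk W 0 u] (mx3E W z₀ h ε δ R θ j i) := by
  have h1 : mx3E W z₀ h ε δ R θ j i =
      (⋂ l ∈ Finset.range (i + 1), DiscAux.Ann W z₀ h δ R l) ∩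
      ⋂ l ∈ Finset.Icc j i, mx3P W z₀ h ε l ⁻¹' Set.Iio θ := by
    ext ω
    simp only [mx3E, Set.mem_ofPred_eq, Set.mem_inter_iff, Set.mem_iInter, Finset.mem_range,
      Finset.mem_Icc, Set.mem_preimage, Set.mem_Iio]
    constructor
    · rintro ⟨a1, a2⟩
      exact ⟨fun l hl => a1 l (by omega), fun l hl => a2 l hl.1 hl.2⟩
    · rintro ⟨a1, a2⟩
      exact ⟨fun l hl => a1 l (by omega), fun l hl hl2 => a2 l ⟨hl, hl2⟩⟩
  rw [h1]
  refine MeasurableSet.inter ?_ ?_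
  · refine MeasurableSet.biInter (Finset.range (i + 1)).countable_toSet fun l hl => ?_
    have hl' : l < i + 1 := by simpa using hl
    exact mx3Ann_meas hh z₀ l ((mx3_cast hh (by omega)).trans hu)
  · refine MeasurableSet.biInter (Finset.Icc j i).countable_toSet fun l hl => ?_
    have hl' : j ≤ l ∧ l ≤ i := by simpa using hl
    exact mx3P_meas hh z₀ ε l ((mx3_cast hh hl'.2).trans hu) measurableSet_Iio

omit [MeasurableSpace Ω] in
private lemma mx3H_meas {h ε δ R θ : ℝ} (hh : 0 < h) (z₀ : ℂ) (j i : ℕ) {u : ℝ}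
    (hu : i * h ≤ u) : MeasurableSet[Blk W 0 u] (mx3H W z₀ h ε δ R θ j i) := by
  have h1 : mx3H W z₀ h ε δ R θ j i =
      ((⋂ l ∈ Finset.range (i + 1), DiscAux.Ann W z₀ h δ R l) ∩
      ⋂ l ∈ Finset.Ico j i, mx3P W z₀ h ε l ⁻¹' Set.Iio θ) ∩
      mx3P W z₀ h ε i ⁻¹' Set.Ici θ := by
    ext ω
    simp only [mx3H, Set.mem_ofPred_eq, Set.mem_inter_iff, Set.mem_iInter, Finset.mem_range,
      Finset.mem_Ico, Set.mem_preimage, Set.mem_Iio, Set.mem_Ici]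
    constructor
    · rintro ⟨a1, a2, a3⟩
      exact ⟨⟨fun l hl => a1 l (by omega), fun l hl => a2 l hl.1 hl.2⟩, a3⟩
    · rintro ⟨⟨a1, a2⟩, a3⟩
      exact ⟨fun l hl => a1 l (by omega), fun l hl hl2 => a2 l ⟨hl, hl2⟩, a3⟩
  rw [h1]
  refine MeasurableSet.inter (MeasurableSet.inter ?_ ?_) ?_
  · refine MeasurableSet.biInter (Finset.range (i + 1)).countable_toSet fun l hl => ?_
    have hl' : l < i + 1 := by simpa using hl
    exact mx3Ann_meas hh z₀ l ((mx3_cast hh (by omega)).trans hu)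
  · refine MeasurableSet.biInter (Finset.Ico j i).countable_toSet fun l hl => ?_
    have hl' : j ≤ l ∧ l < i := by simpa using hl
    exact mx3P_meas hh z₀ ε l ((mx3_cast hh hl'.2.le).trans hu) measurableSet_Iio
  · exact mx3P_meas hh z₀ ε i hu measurableSet_Ici

private lemma mx3_kk (q ε : ℝ) (z : ℂ) : kk q (q * ε) z = q * kk 1 ε z := by
  simp only [kk]; ring

omit [MeasurableSpace Ω] in
private lemma mx3Blk_mono {u v : ℝ} (huv : u ≤ v) : Blk W 0 u ≤ Blk W 0 v := by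
  refine iSup_le fun r => ?_
  exact le_iSup (fun r : Set.Icc (0 : ℝ) v =>
    MeasurableSpace.comap (fun ω => W r ω - W 0 ω) inferInstance)
    ⟨r.1, r.2.1, r.2.2.trans huv⟩

/-- The one step inequality. -/
private lemma mx3_step [IsProbabilityMeasure μ] (hW : Drv a b c K W μ)
    {h Q δ R ε q θ : ℝ} (hh : 0 < h) (hQ : 1 ≤ Q) {F : ℂ → ℝ} (hFm : Measurable F)
    (h1 : ∀ (z : ℂ) (s : ℝ), δ ≤ ‖z‖ → ‖z‖ ≤ R → 0 ≤ s →
      ∫⁻ ω, ENNReal.ofReal (F (z + 2 * h / z - (W (s + h) ω - W s ω))) ∂μ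
        ≤ ENNReal.ofReal (Q * Real.exp (-(h * kk q (q * ε) z)) * F z))
    (z₀ : ℂ) {j i : ℕ} (hji : j ≤ i) (w : Ω → ℝ≥0∞) (hw : Measurable[Blk W 0 (j * h)] w) :
    ∫⁻ ω in mx3E W z₀ h ε δ R θ j (i + 1), w ω * ENNReal.ofReal (mx3N W z₀ h ε q F (i + 1) ω) ∂μ
      + ∫⁻ ω in mx3H W z₀ h ε δ R θ j (i + 1),
        w ω * ENNReal.ofReal (mx3N W z₀ h ε q F (i + 1) ω) ∂μ ≤
      ENNReal.ofReal Q * ∫⁻ ω in mx3E W z₀ h ε δ R θ j i,
        w ω * ENNReal.ofReal (mx3N W z₀ h ε q F i ω) ∂μ := by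
  have hle : ∀ u, Blk W 0 u ≤ (inferInstance : MeasurableSpace Ω) := fun u => Blk_le hW _ _
  have hEm : MeasurableSet[Blk W 0 (i * h)] (mx3E W z₀ h ε δ R θ j i) :=
    mx3E_meas hh z₀ j i le_rfl
  have hEm' : MeasurableSet (mx3E W z₀ h ε δ R θ j i) := hle _ _ hEm
  have hHm : MeasurableSet (mx3H W z₀ h ε δ R θ j (i + 1)) :=
    hle _ _ (mx3H_meas hh z₀ j (i + 1) le_rfl)
  have hdisj : Disjoint (mx3E W z₀ h ε δ R θ j (i + 1)) (mx3H W z₀ h ε δ R θ j (i + 1)) := by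
    rw [Set.disjoint_left]
    intro ω a1 a2
    exact absurd a2.2.2 (not_le.2 (a1.2 (i + 1) (by omega) le_rfl))
  rw [← lintegral_union hHm hdisj]
  have hsub : mx3E W z₀ h ε δ R θ j (i + 1) ∪ mx3H W z₀ h ε δ R θ j (i + 1) ⊆
      mx3E W z₀ h ε δ R θ j i := by
    rintro ω (a1 | a1)
    · exact ⟨fun l hl => a1.1 l (by omega), fun l hl hl2 => a1.2 l hl (by omega)⟩
    · exact ⟨fun l hl => a1.1 l (by omega), fun l hl hl2 => a1.2.1 l hl (by omega)⟩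
  refine (lintegral_mono_set hsub).trans ?_
  -- the weight
  obtain ⟨w', hw'⟩ : ∃ w' : Ω → ℝ≥0∞, w' = (mx3E W z₀ h ε δ R θ j i).indicator
      (fun ω => w ω * ENNReal.ofReal (Real.exp (q * DiscAux.A W z₀ h (kk 1 ε) (i + 1) ω))) :=
    ⟨_, rfl⟩
  have hA1 : Measurable[Blk W 0 (i * h)] (DiscAux.A W z₀ h (kk 1 ε) (i + 1)) := by
    unfold DiscAux.A
    refine Finset.measurable_sum _ fun l hl => ?_
    have hl' : l < i + 1 := Finset.mem_range.1 hl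
    exact ((SmgAux.measurable_kk 1 ε).comp (DiscAux.Z_meas hh z₀ l _
      (mx3_cast hh (by omega)))).const_mul h
  have hwi : Measurable[Blk W 0 (i * h)] w := hw.mono (mx3Blk_mono (mx3_cast hh hji)) le_rfl
  have hw'm : Measurable[Blk W 0 (i * h)] w' := by
    rw [hw']
    exact (hwi.mul (ENNReal.measurable_ofReal.comp
      (Real.measurable_exp.comp (hA1.const_mul q)))).indicator hEm
  have hstep := cond_step hW hh hFm (ρ := fun z => Q * Real.exp (-(h * kk q (q * ε) z)) * F z)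
    ((measurable_const.mul (Real.measurable_exp.comp
      ((measurable_const.mul (SmgAux.measurable_kk _ _)).neg))).mul hFm) h1 z₀ i w' hw'm (by
      intro ω hω
      have : ω ∈ mx3E W z₀ h ε δ R θ j i := by
        by_contra hcon
        exact hω (by rw [hw', Set.indicator_of_notMem hcon])
      exact this.1 i le_rfl)
  have e1 : ∫⁻ ω in mx3E W z₀ h ε δ R θ j i,
      w ω * ENNReal.ofReal (mx3N W z₀ h ε q F (i + 1) ω) ∂μ =
      ∫⁻ ω, w' ω * ENNReal.ofReal (F (DiscAux.Z W z₀ h (i + 1) ω)) ∂μ := by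
    rw [← lintegral_indicator hEm']
    apply lintegral_congr
    intro ω
    rw [hw']
    by_cases hω : ω ∈ mx3E W z₀ h ε δ R θ j i
    · simp only [Set.indicator_of_mem hω]
      rw [mx3N, ENNReal.ofReal_mul (Real.exp_pos _).le, mul_assoc]
    · simp only [Set.indicator_of_notMem hω, zero_mul]
  have e2 : ∫⁻ ω, w' ω * ENNReal.ofReal (Q * Real.exp
      (-(h * kk q (q * ε) (DiscAux.Z W z₀ h i ω))) * F (DiscAux.Z W z₀ h i ω)) ∂μ =
      ENNReal.ofReal Q * ∫⁻ ω in mx3E W z₀ h ε δ R θ j i,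
        w ω * ENNReal.ofReal (mx3N W z₀ h ε q F i ω) ∂μ := by
    rw [← lintegral_indicator hEm', ← lintegral_const_mul' _ _ ENNReal.ofReal_ne_top]
    apply lintegral_congr
    intro ω
    rw [hw']
    by_cases hω : ω ∈ mx3E W z₀ h ε δ R θ j i
    · simp only [Set.indicator_of_mem hω]
      have h4 : DiscAux.A W z₀ h (kk 1 ε) (i + 1) ω =
          DiscAux.A W z₀ h (kk 1 ε) i ω + h * kk 1 ε (DiscAux.Z W z₀ h i ω) := by
        simp only [DiscAux.A, Finset.sum_range_succ]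
      have h5 : Real.exp (q * DiscAux.A W z₀ h (kk 1 ε) (i + 1) ω) *
          (Q * Real.exp (-(h * kk q (q * ε) (DiscAux.Z W z₀ h i ω))) *
            F (DiscAux.Z W z₀ h i ω)) = Q * mx3N W z₀ h ε q F i ω := by
        rw [h4, mx3_kk, mx3N]
        have h6 : Real.exp (q * (DiscAux.A W z₀ h (kk 1 ε) i ω +
            h * kk 1 ε (DiscAux.Z W z₀ h i ω))) *
            Real.exp (-(h * (q * kk 1 ε (DiscAux.Z W z₀ h i ω)))) =
            Real.exp (q * DiscAux.A W z₀ h (kk 1 ε) i ω) := by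
          rw [← Real.exp_add]; congr 1; ring
        rw [← h6]; ring
      rw [mul_assoc, ← ENNReal.ofReal_mul (Real.exp_pos _).le, h5,
        ENNReal.ofReal_mul (by linarith)]
      ring
    · simp only [Set.indicator_of_notMem hω, zero_mul, mul_zero]
  rw [e1]
  exact hstep.trans (le_of_eq e2)

/-- All steps. -/
private lemma mx3_total [IsProbabilityMeasure μ] (hW : Drv a b c K W μ)
    {h Q δ R ε q θ : ℝ} (hh : 0 < h) (hQ : 1 ≤ Q) {F : ℂ → ℝ} (hFm : Measurable F)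
    (h1 : ∀ (z : ℂ) (s : ℝ), δ ≤ ‖z‖ → ‖z‖ ≤ R → 0 ≤ s →
      ∫⁻ ω, ENNReal.ofReal (F (z + 2 * h / z - (W (s + h) ω - W s ω))) ∂μ
        ≤ ENNReal.ofReal (Q * Real.exp (-(h * kk q (q * ε) z)) * F z))
    (z₀ : ℂ) (j : ℕ) (w : Ω → ℝ≥0∞) (hw : Measurable[Blk W 0 (j * h)] w) (n : ℕ) :
    ∫⁻ ω in mx3E W z₀ h ε δ R θ j (j + n), w ω * ENNReal.ofReal (mx3N W z₀ h ε q F (j + n) ω) ∂μ
      + ∑ m ∈ Finset.range (n + 1), ∫⁻ ω in mx3H W z₀ h ε δ R θ j (j + m),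
        w ω * ENNReal.ofReal (mx3N W z₀ h ε q F (j + m) ω) ∂μ ≤
      ENNReal.ofReal Q ^ n * ∫⁻ ω, w ω * ENNReal.ofReal (mx3N W z₀ h ε q F j ω) ∂μ := by
  have hQ1 : (1 : ℝ≥0∞) ≤ ENNReal.ofReal Q := by
    rw [← ENNReal.ofReal_one]; exact ENNReal.ofReal_le_ofReal hQ
  induction n with
  | zero =>
    have hHm : MeasurableSet (mx3H W z₀ h ε δ R θ j j) :=
      Blk_le hW _ _ _ (mx3H_meas hh z₀ j j le_rfl)
    have hdisj : Disjoint (mx3E W z₀ h ε δ R θ j j) (mx3H W z₀ h ε δ R θ j j) := by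
      rw [Set.disjoint_left]
      intro ω a1 a2
      exact absurd a2.2.2 (not_le.2 (a1.2 j le_rfl le_rfl))
    simp only [Nat.add_zero, Finset.sum_range_succ, Finset.range_zero, Finset.sum_empty,
      zero_add, pow_zero, one_mul]
    rw [← lintegral_union hHm hdisj]
    exact setLIntegral_le_lintegral _ _
  | succ n ih =>
    have h2 := mx3_step (θ := θ) hW hh hQ hFm h1 z₀ (Nat.le_add_right j n) w hw
    obtain ⟨b1, hb1⟩ : ∃ b1, b1 = ∫⁻ ω in mx3E W z₀ h ε δ R θ j (j + n + 1),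
      w ω * ENNReal.ofReal (mx3N W z₀ h ε q F (j + n + 1) ω) ∂μ := ⟨_, rfl⟩
    obtain ⟨b0, hb0⟩ : ∃ b0, b0 = ∫⁻ ω in mx3E W z₀ h ε δ R θ j (j + n),
      w ω * ENNReal.ofReal (mx3N W z₀ h ε q F (j + n) ω) ∂μ := ⟨_, rfl⟩
    obtain ⟨x, hx⟩ : ∃ x, x = ∫⁻ ω in mx3H W z₀ h ε δ R θ j (j + n + 1),
      w ω * ENNReal.ofReal (mx3N W z₀ h ε q F (j + n + 1) ω) ∂μ := ⟨_, rfl⟩
    obtain ⟨S, hS⟩ : ∃ S, S = ∑ m ∈ Finset.range (n + 1),
      ∫⁻ ω in mx3H W z₀ h ε δ R θ j (j + m),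
        w ω * ENNReal.ofReal (mx3N W z₀ h ε q F (j + m) ω) ∂μ := ⟨_, rfl⟩
    obtain ⟨T, hT⟩ : ∃ T, T = ∫⁻ ω, w ω * ENNReal.ofReal (mx3N W z₀ h ε q F j ω) ∂μ :=
      ⟨_, rfl⟩
    rw [← hb1, ← hb0, ← hx] at h2
    rw [← hb0, ← hS, ← hT] at ih
    rw [Finset.sum_range_succ, ← hS, ← hT]
    have e1 : j + (n + 1) = j + n + 1 := by omega
    rw [e1, ← hb1, ← hx]
    have hSq : S ≤ ENNReal.ofReal Q * S := by
      calc S = 1 * S := (one_mul S).symm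
        _ ≤ ENNReal.ofReal Q * S := by gcongr
    calc b1 + (S + x) = (b1 + x) + S := by ring
      _ ≤ ENNReal.ofReal Q * b0 + ENNReal.ofReal Q * S := by gcongr
      _ = ENNReal.ofReal Q * (b0 + S) := by ring
      _ ≤ ENNReal.ofReal Q * (ENNReal.ofReal Q ^ n * T) := by gcongr
      _ = ENNReal.ofReal Q ^ (n + 1) * T := by ring

/-- TC-MX3. The maximal inequality for `exp (q * phs)`, conditionally on the past.

Proof. `N_i = exp (q * Bs h (kk 1 ε) i) * F (Z_i)`, so `f₀ exp (q phs_i) ≤ N_i ≤ f₁ exp (q phs_i)`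
in the annulus. For `i ≥ j` let `E_i` = (in the annulus up to `i`, and `phs_{i'} < θ` for
`j ≤ i' ≤ i`), `H_i` = (in the annulus up to `i`, `phs_{i'} < θ` for `j ≤ i' < i`, `θ ≤ phs_i`);
these sets are in `Blk W 0 (i h)` (see `Zq_meas`). `Rf = ⋃ H_i`, `j ≤ i ≤ J`. `cond_step` (CST,
with the weight `w * indicator E_i * exp (q Bs_{i+1})`, `Bs_{i+1} = Bs_i + h kk 1 ε (Z_i)`,
`q * kk 1 ε = kk q (q ε)`, `ρ z = Q exp (-(h kk q (q ε) z)) F z`) gives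
`∫ w 1_{E_{i+1}} N_{i+1} + ∫ w 1_{H_{i+1}} N_{i+1} ≤ Q ∫ w 1_{E_i} N_i`, so
`∑ i ∈ [j,J], ∫ w 1_{H_i} N_i ≤ Q^(J-j) ∫ w N_j`, and `N_i ≥ f₀ exp (q θ)` on `H_i`,
`N_j ≤ f₁ exp (q phs_j)`. (Compare `DiscAux.recur`, `DiscAux.total` in Disc.lean.) -/
theorem max3 [IsProbabilityMeasure μ] (hW : Drv a b c K W μ) {h Q δ R ε q θ f₀ f₁ : ℝ}
    (hh : 0 < h) (hQ : 1 ≤ Q) (hδ : 0 < δ) (hq : 0 < q) (hf₀ : 0 < f₀) {F : ℂ → ℝ}
    (hFm : Measurable F) (hF0 : ∀ z, 0 ≤ F z)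
    (hlo : ∀ z : ℂ, δ ≤ ‖z‖ → ‖z‖ ≤ R → f₀ * ‖z‖ ^ (-q) ≤ F z)
    (hup : ∀ z : ℂ, δ ≤ ‖z‖ → ‖z‖ ≤ R → F z ≤ f₁ * ‖z‖ ^ (-q))
    (h1 : ∀ (z : ℂ) (s : ℝ), δ ≤ ‖z‖ → ‖z‖ ≤ R → 0 ≤ s →
      ∫⁻ ω, ENNReal.ofReal (F (z + 2 * h / z - (W (s + h) ω - W s ω))) ∂μ
        ≤ ENNReal.ofReal (Q * Real.exp (-(h * kk q (q * ε) z)) * F z))
    (z₀ : ℂ) {j J : ℕ} (hjJ : j ≤ J) (w : Ω → ℝ≥0∞) (hw : Measurable[Blk W 0 (j * h)] w)
    (hw0 : ∀ ω, w ω ≠ 0 → Zq W z₀ h ω ∈ An δ R j) :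
    ∫⁻ ω in {ω | Zq W z₀ h ω ∈ Rf h ε δ R θ j J}, w ω ∂μ ≤
      ENNReal.ofReal (f₁ / f₀ * Q ^ (J - j)) *
        ∫⁻ ω, w ω * ENNReal.ofReal (Real.exp (q * (phs h ε j (Zq W z₀ h ω) - θ))) ∂μ := by
  classical
  have hle : ∀ u, Blk W 0 u ≤ (inferInstance : MeasurableSpace Ω) := fun u => Blk_le hW _ _
  have hwm : Measurable w := hw.mono (hle _) le_rfl
  have htot := mx3_total (θ := θ) (ε := ε) hW hh hQ hFm h1 z₀ j w hw (J - j)
  -- the constant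
  obtain ⟨k0, hk0⟩ : ∃ k0 : ℝ, k0 = Real.exp (-(q * θ)) / f₀ := ⟨_, rfl⟩
  have hk0p : 0 < k0 := by rw [hk0]; positivity
  -- values in the annulus
  have hexp : ∀ (i : ℕ) (ω : Ω), δ ≤ ‖DiscAux.Z W z₀ h i ω‖ →
      Real.exp (q * DiscAux.A W z₀ h (kk 1 ε) i ω) * ‖DiscAux.Z W z₀ h i ω‖ ^ (-q) =
        Real.exp (q * mx3P W z₀ h ε i ω) := by
    intro i ω hi
    have hpos : 0 < ‖DiscAux.Z W z₀ h i ω‖ := lt_of_lt_of_le hδ hi
    rw [Real.rpow_def_of_pos hpos, ← Real.exp_add, mx3P]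
    congr 1
    ring
  -- the set
  have hsub : {ω | Zq W z₀ h ω ∈ Rf h ε δ R θ j J} ⊆
      ⋃ m ∈ Finset.range (J - j + 1), mx3H W z₀ h ε δ R θ j (j + m) := by
    intro ω hω
    obtain ⟨i, hji, hiJ, hAn, hph⟩ := hω
    have hex : ∃ l, j ≤ l ∧ l ≤ i ∧ θ ≤ mx3P W z₀ h ε l ω := ⟨i, hji, le_rfl, hph⟩
    have hs := Nat.find_spec hex
    have hmin : ∀ l < Nat.find hex, ¬ (j ≤ l ∧ l ≤ i ∧ θ ≤ mx3P W z₀ h ε l ω) :=
      fun l hl => Nat.find_min hex hl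
    obtain ⟨l₀, hl₀⟩ : ∃ l₀, l₀ = Nat.find hex := ⟨_, rfl⟩
    rw [← hl₀] at hs hmin
    simp only [Set.mem_iUnion]
    refine ⟨l₀ - j, Finset.mem_range.2 (by omega), ?_⟩
    have e1 : j + (l₀ - j) = l₀ := by omega
    rw [e1]
    refine ⟨fun l hl => hAn l (by omega), ?_, hs.2.2⟩
    intro l hl hl2
    by_contra hcon
    push Not at hcon
    exact hmin l hl2 ⟨hl, by omega, hcon⟩
  have hHm : ∀ i, MeasurableSet (mx3H W z₀ h ε δ R θ j i) := fun i =>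
    hle _ _ (mx3H_meas hh z₀ j i le_rfl)
  have s1 : ∫⁻ ω in {ω | Zq W z₀ h ω ∈ Rf h ε δ R θ j J}, w ω ∂μ ≤
      ∑ m ∈ Finset.range (J - j + 1), ∫⁻ ω in mx3H W z₀ h ε δ R θ j (j + m), w ω ∂μ := by
    refine (lintegral_mono_set hsub).trans ?_
    have h3 := lintegral_iUnion_le (μ := μ)
      (fun m : Finset.range (J - j + 1) => mx3H W z₀ h ε δ R θ j (j + m)) w
    have h4 : (⋃ m ∈ Finset.range (J - j + 1), mx3H W z₀ h ε δ R θ j (j + m)) =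
        ⋃ m : Finset.range (J - j + 1), mx3H W z₀ h ε δ R θ j (j + m) := by
      ext ω; simp
    rw [h4]
    refine h3.trans (le_of_eq ?_)
    rw [tsum_fintype]
    exact Finset.sum_coe_sort (Finset.range (J - j + 1))
      (fun m => ∫⁻ ω in mx3H W z₀ h ε δ R θ j (j + m), w ω ∂μ)
  have s2 : ∀ i, ∫⁻ ω in mx3H W z₀ h ε δ R θ j i, w ω ∂μ ≤ ENNReal.ofReal k0 *
      ∫⁻ ω in mx3H W z₀ h ε δ R θ j i, w ω * ENNReal.ofReal (mx3N W z₀ h ε q F i ω) ∂μ := by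
    intro i
    rw [← lintegral_const_mul' _ _ ENNReal.ofReal_ne_top]
    refine setLIntegral_mono' (hHm i) fun ω hω => ?_
    have hz := hω.1 i le_rfl
    have hN : 1 ≤ k0 * mx3N W z₀ h ε q F i ω := by
      have h5 := hlo _ hz.1 hz.2
      have h6 : f₀ * Real.exp (q * θ) ≤ mx3N W z₀ h ε q F i ω := by
        calc f₀ * Real.exp (q * θ) ≤ f₀ * Real.exp (q * mx3P W z₀ h ε i ω) := by
              have h8 := hω.2.2
              gcongr
          _ = Real.exp (q * DiscAux.A W z₀ h (kk 1 ε) i ω) *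
              (f₀ * ‖DiscAux.Z W z₀ h i ω‖ ^ (-q)) := by
              rw [← hexp i ω hz.1]; ring
          _ ≤ mx3N W z₀ h ε q F i ω := by
              rw [mx3N]; gcongr
      calc (1 : ℝ) = k0 * (f₀ * Real.exp (q * θ)) := by
            rw [hk0, Real.exp_neg]
            have := Real.exp_ne_zero (q * θ)
            field_simp
        _ ≤ k0 * mx3N W z₀ h ε q F i ω := by gcongr
    calc w ω = w ω * 1 := (mul_one _).symm
      _ ≤ w ω * ENNReal.ofReal (k0 * mx3N W z₀ h ε q F i ω) := by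
          gcongr
          rw [← ENNReal.ofReal_one]
          exact ENNReal.ofReal_le_ofReal hN
      _ = ENNReal.ofReal k0 * (w ω * ENNReal.ofReal (mx3N W z₀ h ε q F i ω)) := by
          rw [ENNReal.ofReal_mul hk0p.le]; ring
  have s3 : ∫⁻ ω, w ω * ENNReal.ofReal (mx3N W z₀ h ε q F j ω) ∂μ ≤
      ∫⁻ ω, ENNReal.ofReal f₁ *
        (w ω * ENNReal.ofReal (Real.exp (q * mx3P W z₀ h ε j ω))) ∂μ := by
    refine lintegral_mono fun ω => ?_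
    by_cases hω : w ω = 0
    · simp only [hω, zero_mul, mul_zero, le_refl]
    · have hz : δ ≤ ‖DiscAux.Z W z₀ h j ω‖ ∧ ‖DiscAux.Z W z₀ h j ω‖ ≤ R :=
        hw0 ω hω j le_rfl
      have h5 := hup _ hz.1 hz.2
      have h6 : mx3N W z₀ h ε q F j ω ≤ f₁ * Real.exp (q * mx3P W z₀ h ε j ω) := by
        calc mx3N W z₀ h ε q F j ω ≤ Real.exp (q * DiscAux.A W z₀ h (kk 1 ε) j ω) *
              (f₁ * ‖DiscAux.Z W z₀ h j ω‖ ^ (-q)) := by
              rw [mx3N]; gcongr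
          _ = f₁ * Real.exp (q * mx3P W z₀ h ε j ω) := by
              rw [← hexp j ω hz.1]; ring
      calc w ω * ENNReal.ofReal (mx3N W z₀ h ε q F j ω) ≤
            w ω * ENNReal.ofReal (f₁ * Real.exp (q * mx3P W z₀ h ε j ω)) := by
            gcongr
        _ = ENNReal.ofReal f₁ *
            (w ω * ENNReal.ofReal (Real.exp (q * mx3P W z₀ h ε j ω))) := by
            rw [ENNReal.ofReal_mul' (Real.exp_pos _).le]; ring
  have s4 : ∑ m ∈ Finset.range (J - j + 1), ∫⁻ ω in mx3H W z₀ h ε δ R θ j (j + m), w ω ∂μ ≤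
      ENNReal.ofReal k0 * (ENNReal.ofReal Q ^ (J - j) *
        ∫⁻ ω, w ω * ENNReal.ofReal (mx3N W z₀ h ε q F j ω) ∂μ) := by
    calc ∑ m ∈ Finset.range (J - j + 1), ∫⁻ ω in mx3H W z₀ h ε δ R θ j (j + m), w ω ∂μ
        ≤ ∑ m ∈ Finset.range (J - j + 1), ENNReal.ofReal k0 *
          ∫⁻ ω in mx3H W z₀ h ε δ R θ j (j + m),
            w ω * ENNReal.ofReal (mx3N W z₀ h ε q F (j + m) ω) ∂μ :=
          Finset.sum_le_sum fun m _ => s2 (j + m)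
      _ = ENNReal.ofReal k0 * ∑ m ∈ Finset.range (J - j + 1),
          ∫⁻ ω in mx3H W z₀ h ε δ R θ j (j + m),
            w ω * ENNReal.ofReal (mx3N W z₀ h ε q F (j + m) ω) ∂μ := by
          rw [Finset.mul_sum]
      _ ≤ _ := by
          gcongr
          exact (le_add_left le_rfl).trans htot
  refine s1.trans (s4.trans ?_)
  have s5 : ENNReal.ofReal k0 * (ENNReal.ofReal Q ^ (J - j) *
        ∫⁻ ω, w ω * ENNReal.ofReal (mx3N W z₀ h ε q F j ω) ∂μ) ≤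
      ENNReal.ofReal k0 * (ENNReal.ofReal Q ^ (J - j) * ∫⁻ ω, ENNReal.ofReal f₁ *
        (w ω * ENNReal.ofReal (Real.exp (q * mx3P W z₀ h ε j ω))) ∂μ) := by
    gcongr
  refine s5.trans (le_of_eq ?_)
  rw [← lintegral_const_mul' _ _ (ENNReal.pow_ne_top ENNReal.ofReal_ne_top),
    ← lintegral_const_mul' _ _ ENNReal.ofReal_ne_top,
    ← lintegral_const_mul' _ _ ENNReal.ofReal_ne_top]
  apply lintegral_congr
  intro ω
  have h7 : phs h ε j (Zq W z₀ h ω) = mx3P W z₀ h ε j ω := rfl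
  rw [h7, ← ENNReal.ofReal_pow (by linarith)]
  have h8 : ENNReal.ofReal k0 * (ENNReal.ofReal (Q ^ (J - j)) * (ENNReal.ofReal f₁ *
      (w ω * ENNReal.ofReal (Real.exp (q * mx3P W z₀ h ε j ω))))) =
      w ω * (ENNReal.ofReal f₁ * ENNReal.ofReal
        (k0 * Q ^ (J - j) * Real.exp (q * mx3P W z₀ h ε j ω))) := by
    rw [ENNReal.ofReal_mul (by positivity), ENNReal.ofReal_mul hk0p.le]
    ring
  rw [h8, ← ENNReal.ofReal_mul' (by positivity)]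
  have h9 : ENNReal.ofReal (f₁ / f₀ * Q ^ (J - j)) * (w ω * ENNReal.ofReal
      (Real.exp (q * (mx3P W z₀ h ε j ω - θ)))) = w ω * ENNReal.ofReal
      (f₁ / f₀ * Q ^ (J - j) * Real.exp (q * (mx3P W z₀ h ε j ω - θ))) := by
    rw [ENNReal.ofReal_mul' (Real.exp_pos _).le (p := f₁ / f₀ * Q ^ (J - j))]
    ring
  rw [h9]
  congr 2
  have h10 : Real.exp (q * (mx3P W z₀ h ε j ω - θ)) =
      Real.exp (q * mx3P W z₀ h ε j ω) * Real.exp (-(q * θ)) := by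
    rw [← Real.exp_add]; congr 1; ring
  rw [h10, hk0]
  ring

end

end Pool.Agent.SLE
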