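import Mathlib

/-!
# MP_c17912_pr, project TC: the area inequality

For a function `h` holomorphic in a disc of radius larger than one about zero
`∫ Re (v h' (v) conj (h (v))) dy = 2 π ∑ n |a_n|^2 ≥ 2 π |h' 0|^2`, `v = exp (i y)`,
the integral over one period, `a_n` the Taylor coefficients.
-/

set_option autoImplicit false

open MeasureTheory Filter Complex Metric
open scoped Topology Real ComplexConjugate

namespace Pool.Agent.SLE

noncomputable section

namespace TCNB

/-- the point of the unit circle with the argument `y` -/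
def ex (y : ℝ) : ℂ := Complex.exp (y * I)

theorem ex_norm (y : ℝ) : ‖ex y‖ = 1 := Complex.norm_exp_ofReal_mul_I y

theorem ex_add (x y : ℝ) : ex (x + y) = ex x * ex y := by
  unfold ex
  rw [← Complex.exp_add]
  push_cast
  ring_nf

theorem ex_per (y : ℝ) : ex (y + 2 * π) = ex y := by
  unfold ex
  push_cast
  rw [add_mul, Complex.exp_add, Complex.exp_two_pi_mul_I, mul_one]

theorem ex_hd (y : ℝ) : HasDerivAt ex (I * ex y) y := by
  have h : HasDerivAt (fun y : ℝ => (y : ℂ) * I) (1 * I) y :=
    (Complex.ofRealCLM.hasDerivAt (x := y)).mul_const I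
  have h2 := h.cexp
  refine h2.congr_deriv ?_
  unfold ex
  ring

theorem ex_cont : Continuous ex :=
  continuous_iff_continuousAt.2 fun y => (ex_hd y).continuousAt

theorem ex_conj (y : ℝ) : conj (ex y) = ex (-y) := by
  unfold ex
  rw [← Complex.exp_conj]
  simp

theorem ex_pow (y : ℝ) (n : ℕ) : ex y ^ n = ex (n * y) := by
  unfold ex
  rw [← Complex.exp_nat_mul]
  push_cast
  ring_nf

theorem ex_mul_conj (y : ℝ) : ex y * conj (ex y) = 1 := by
  rw [Complex.mul_conj, Complex.normSq_eq_norm_sq, ex_norm]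
  norm_num

/-- orthogonality -/
theorem orth (m n : ℕ) : ∫ y in (0 : ℝ)..(2 * π), ex y ^ m * conj (ex y ^ n) =
    if m = n then 2 * π else 0 := by
  split_ifs with h
  · subst h
    have h1 : ∀ y : ℝ, ex y ^ m * conj (ex y ^ m) = 1 := by
      intro y
      rw [map_pow, ← mul_pow, ex_mul_conj, one_pow]
    simp_rw [h1]
    simp
  · have hc : (((m : ℝ) - n : ℝ) : ℂ) * I ≠ 0 := by
      refine mul_ne_zero ?_ I_ne_zero
      rw [Complex.ofReal_ne_zero, sub_ne_zero]
      exact_mod_cast h
    have h1 : ∀ y : ℝ, ex y ^ m * conj (ex y ^ n) =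
        Complex.exp ((((m : ℝ) - n : ℝ) : ℂ) * I * y) := by
      intro y
      rw [ex_pow, ex_pow, ex_conj, ← ex_add]
      unfold ex
      push_cast
      ring_nf
    simp_rw [h1]
    rw [integral_exp_mul_complex hc]
    have h2 : Complex.exp ((((m : ℝ) - n : ℝ) : ℂ) * I * ((2 * π : ℝ) : ℂ)) = 1 := by
      rw [Complex.exp_eq_one_iff]
      refine ⟨(m : ℤ) - n, ?_⟩
      push_cast
      ring
    rw [h2]
    simp

/-- termwise integration -/
theorem term {c : ℕ → ℂ} (hc : Summable fun n => ‖c n‖) {g k : ℝ → ℂ}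
    (hg : ∀ y, HasSum (fun n => c n * ex y ^ n) (g y)) (hk : Continuous k) {B : ℝ}
    (hk1 : ∀ y, ‖k y‖ ≤ B) :
    HasSum (fun n => c n * ∫ y in (0 : ℝ)..(2 * π), ex y ^ n * k y)
      (∫ y in (0 : ℝ)..(2 * π), g y * k y) := by
  have h := intervalIntegral.hasSum_integral_of_dominated_convergence (μ := volume)
    (a := (0 : ℝ)) (b := 2 * π) (F := fun n y => c n * ex y ^ n * k y)
    (f := fun y => g y * k y) (fun n _ => ‖c n‖ * B)
    (fun n => ((continuous_const.mul (ex_cont.pow n)).mul hk).aestronglyMeasurable)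
    (fun n => Eventually.of_forall fun y _ => by
      rw [norm_mul, norm_mul, norm_pow, ex_norm, one_pow, mul_one]
      exact mul_le_mul_of_nonneg_left (hk1 y) (norm_nonneg _))
    (Eventually.of_forall fun y _ => hc.mul_right B)
    intervalIntegrable_const
    (Eventually.of_forall fun y _ => (hg y).mul_right (k y))
  simp_rw [mul_assoc, intervalIntegral.integral_const_mul] at h
  exact h

/-- the coefficient of a trigonometric series -/
theorem coef {c : ℕ → ℂ} (hc : Summable fun n => ‖c n‖) {g : ℝ → ℂ}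
    (hg : ∀ y, HasSum (fun n => c n * ex y ^ n) (g y)) (k : ℕ) :
    ∫ y in (0 : ℝ)..(2 * π), g y * conj (ex y ^ k) = 2 * π * c k := by
  have h := term hc hg (k := fun y => conj (ex y ^ k))
    (Complex.continuous_conj.comp (ex_cont.pow k)) (B := 1) (fun y => by
      rw [Complex.norm_conj, norm_pow, ex_norm, one_pow])
  simp_rw [orth] at h
  have h2 := h.unique (hasSum_single (f := fun n => c n * ((if n = k then 2 * π else 0 : ℝ) : ℂ)) k
    fun n hn => by rw [if_neg hn, Complex.ofReal_zero, mul_zero])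
  rw [h2, if_pos rfl]
  push_cast
  ring

/-- **The area inequality.** -/
theorem area {h : ℂ → ℂ} {R : ℝ} (hR : 1 < R) (hh : DifferentiableOn ℂ h (ball 0 R)) :
    2 * π * ‖deriv h 0‖ ^ 2 ≤
      ∫ y in (0 : ℝ)..(2 * π), (ex y * deriv h (ex y) * conj (h (ex y))).re := by
  have hmem : ∀ y, ex y ∈ ball (0 : ℂ) R := fun y => by
    rw [mem_ball_zero_iff, ex_norm]
    exact hR
  have h1m : (1 : ℂ) ∈ ball (0 : ℂ) R := by
    rw [mem_ball_zero_iff, norm_one]
    exact hR
  have h0m : (0 : ℂ) ∈ ball (0 : ℂ) R := mem_ball_self (by linarith)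
  have hd : DifferentiableOn ℂ (deriv h) (ball 0 R) := hh.deriv isOpen_ball
  obtain ⟨a, ha⟩ : ∃ a : ℕ → ℂ, a = fun n => ((n.factorial : ℂ))⁻¹ * iteratedDeriv n h 0 :=
    ⟨_, rfl⟩
  have S1 : ∀ v ∈ ball (0 : ℂ) R, HasSum (fun n : ℕ => a n * v ^ n) (h v) := by
    intro v hv
    have h1 := Complex.hasSum_taylorSeries_on_ball hh hv
    have h2 : (fun n : ℕ => ((n.factorial : ℂ))⁻¹ • (v - 0) ^ n • iteratedDeriv n h 0) =
        fun n : ℕ => a n * v ^ n := by
      funext n
      rw [ha, sub_zero, smul_eq_mul, smul_eq_mul]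
      ring
    rwa [h2] at h1
  have S2 : ∀ v ∈ ball (0 : ℂ) R,
      HasSum (fun n : ℕ => (n : ℂ) * a n * v ^ n) (v * deriv h v) := by
    intro v hv
    have h1 := (Complex.hasSum_taylorSeries_on_ball hd hv).mul_left v
    have h2 : (fun n : ℕ => v * (((n.factorial : ℂ))⁻¹ • (v - 0) ^ n •
        iteratedDeriv n (deriv h) 0)) = fun n : ℕ => ((n + 1 : ℕ) : ℂ) * a (n + 1) *
          v ^ (n + 1) := by
      funext n
      have hf : (n.factorial : ℂ) ≠ 0 := Nat.cast_ne_zero.2 n.factorial_ne_zero
      have hn : ((n : ℂ) + 1) ≠ 0 := Nat.cast_add_one_ne_zero n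
      rw [ha, sub_zero, smul_eq_mul, smul_eq_mul]
      simp only
      rw [← iteratedDeriv_succ', Nat.factorial_succ]
      push_cast
      field_simp
      ring
    rw [h2] at h1
    have h3 := (hasSum_nat_add_iff' (f := fun n : ℕ => (n : ℂ) * a n * v ^ n)
      (g := v * deriv h v) 1).1
    refine h3 ?_
    simpa using h1
  have N1 : Summable fun n : ℕ => ‖a n‖ := by
    have := (S1 1 h1m).summable.norm
    simpa using this
  have N2 : Summable fun n : ℕ => ‖(n : ℂ) * a n‖ := by
    have := (S2 1 h1m).summable.norm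
    simpa using this
  have cG : Continuous fun y => h (ex y) :=
    continuous_iff_continuousAt.2 fun y =>
      ContinuousAt.comp (hh.continuousOn.continuousAt (isOpen_ball.mem_nhds (hmem y)))
        ex_cont.continuousAt
  -- the coefficients of `conj h`
  have C1 : ∀ n : ℕ, ∫ y in (0 : ℝ)..(2 * π), ex y ^ n * conj (h (ex y)) =
      2 * π * conj (a n) := by
    intro n
    have h1 := coef N1 (fun y => S1 _ (hmem y)) n
    have h2 := congrArg conj h1
    rw [← intervalIntegral.intervalIntegral_conj] at h2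
    simp only [map_mul, Complex.conj_conj, Complex.conj_ofReal, Complex.conj_ofNat] at h2
    rw [← h2]
    refine intervalIntegral.integral_congr fun y _ => ?_
    ring
  -- `∫ v h' conj h`
  have T := term (c := fun n : ℕ => (n : ℂ) * a n) N2 (g := fun y => ex y * deriv h (ex y))
    (fun y => S2 _ (hmem y)) (k := fun y => conj (h (ex y)))
    (Complex.continuous_conj.comp cG) (B := ∑' n, ‖a n‖) (fun y => by
      rw [Complex.norm_conj, ← (S1 _ (hmem y)).tsum_eq]
      have h1 : (fun n : ℕ => ‖a n * ex y ^ n‖) = fun n => ‖a n‖ := by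
        funext n
        rw [norm_mul, norm_pow, ex_norm, one_pow, mul_one]
      have h2 := norm_tsum_le_tsum_norm (f := fun n : ℕ => a n * ex y ^ n) (by rw [h1]; exact N1)
      rwa [h1] at h2)
  simp_rw [C1] at T
  have T2 := Complex.hasSum_re T
  have e1 : (∫ y in (0 : ℝ)..(2 * π), ex y * deriv h (ex y) * conj (h (ex y))).re =
      ∫ y in (0 : ℝ)..(2 * π), (ex y * deriv h (ex y) * conj (h (ex y))).re := by
    have hI : IntervalIntegrable (fun y => ex y * deriv h (ex y) * conj (h (ex y))) volume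
        0 (2 * π) := by
      refine Continuous.intervalIntegrable ?_ _ _
      refine (ex_cont.mul ?_).mul (Complex.continuous_conj.comp cG)
      exact continuous_iff_continuousAt.2 fun y =>
        ContinuousAt.comp (hd.continuousOn.continuousAt (isOpen_ball.mem_nhds (hmem y)))
          ex_cont.continuousAt
    exact (Complex.reCLM.intervalIntegral_comp_comm hI).symm
  rw [e1] at T2
  have e2 : ∀ n : ℕ, ((n : ℂ) * a n * (2 * π * conj (a n))).re = 2 * π * (n * ‖a n‖ ^ 2) := by
    intro n
    have h1 : (n : ℂ) * a n * (2 * π * conj (a n)) = ((2 * π * (n * ‖a n‖ ^ 2) : ℝ) : ℂ) := by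
      have h2 := Complex.mul_conj (a n)
      rw [Complex.normSq_eq_norm_sq] at h2
      push_cast
      push_cast at h2
      linear_combination (2 * π * n) * h2
    rw [h1, Complex.ofReal_re]
  simp_rw [e2] at T2
  have h3 := le_hasSum T2 1 (fun n _ => by positivity)
  have h4 : a 1 = deriv h 0 := by
    rw [ha]
    simp [iteratedDeriv_one]
  rw [h4] at h3
  simpa using h3

end TCNB

end

end Pool.Agent.SLE
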