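import Pool.Agent.Lib.MP_c17912_pr_TC.NBA

/-!
# MP_c17912_pr, project TC: the isotropic coordinate

`e^(i X (y)) = (v + q) / (1 + conj q v)`, `v = e^(i y)`, `X' = (1 - |q|^2) / |1 + conj q v|^2`.
If `P' = 2 nu sin X` then, by the area inequality for
`E = exp (nu (L (v e^(i r)) - L v))`, `v L' (v) = (v + q) / (1 + conj q v) - q`,
`∫ (cos X (y + r) - cos X (y)) exp (-(P (y + r) - P y)) dy > 0` for `0 < r < 2 π`.
-/

set_option autoImplicit false

open MeasureTheory Filter Complex Metric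
open scoped Topology Real ComplexConjugate

namespace Pool.Agent.SLE

noncomputable section

namespace TCNB

/-- the denominator -/
def dn (q v : ℂ) : ℂ := 1 + conj q * v

/-- the Moebius map -/
def mb (q v : ℂ) : ℂ := (v + q) / dn q v

/-- the angle -/
def XX (q : ℂ) (y : ℝ) : ℝ := y - 2 * (Complex.log (dn q (ex y))).im

variable {q : ℂ}

theorem dn_re {v : ℂ} (hv : ‖q‖ * ‖v‖ < 1) : 0 < (dn q v).re := by
  unfold dn
  rw [Complex.add_re, Complex.one_re]
  have h1 := Complex.abs_re_le_norm (conj q * v)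
  rw [norm_mul, Complex.norm_conj] at h1
  have h2 := abs_le.1 h1
  linarith

theorem dn_slit (hq : ‖q‖ < 1) (y : ℝ) : dn q (ex y) ∈ Complex.slitPlane :=
  Or.inl (dn_re (by rw [ex_norm, mul_one]; exact hq))

theorem dn_ne {v : ℂ} (hv : ‖q‖ * ‖v‖ < 1) : dn q v ≠ 0 := by
  intro h
  have := dn_re hv
  rw [h, Complex.zero_re] at this
  exact lt_irrefl _ this

theorem dn_ne' (hq : ‖q‖ < 1) (y : ℝ) : dn q (ex y) ≠ 0 :=
  dn_ne (by rw [ex_norm, mul_one]; exact hq)

theorem XX_add (q : ℂ) (y : ℝ) : XX q (y + 2 * π) = XX q y + 2 * π := by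
  unfold XX
  rw [ex_per]
  ring

theorem XX_hd (hq : ‖q‖ < 1) (y : ℝ) :
    HasDerivAt (XX q) ((1 - ‖q‖ ^ 2) / ‖dn q (ex y)‖ ^ 2) y := by
  have h1 : HasDerivAt (fun y => dn q (ex y)) (conj q * (I * ex y)) y :=
    ((ex_hd y).const_mul (conj q)).const_add 1
  have h2 := h1.clog_real (dn_slit hq y)
  have h3 := (Complex.imCLM.hasFDerivAt.comp_hasDerivAt y h2)
  have h4 := (hasDerivAt_id y).sub (h3.const_mul 2)
  refine h4.congr_deriv ?_
  obtain ⟨u, hu⟩ : ∃ u, u = conj q * ex y := ⟨_, rfl⟩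
  have hun : u.re ^ 2 + u.im ^ 2 = ‖q‖ ^ 2 := by
    have h5 : ‖u‖ = ‖q‖ := by rw [hu, norm_mul, Complex.norm_conj, ex_norm, mul_one]
    rw [← h5, ← Complex.normSq_eq_norm_sq, Complex.normSq_apply]
    ring
  have hd : dn q (ex y) = 1 + u := by rw [hu]; rfl
  have hI : conj q * (I * ex y) = I * u := by rw [hu]; ring
  have hN : 0 < Complex.normSq (1 + u) := by
    rw [← hd]
    exact Complex.normSq_pos.2 (dn_ne' hq y)
  have hN2 : Complex.normSq (1 + u) = (1 + u.re) ^ 2 + u.im ^ 2 := by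
    rw [Complex.normSq_apply]
    simp
    ring
  rw [hI, hd, ← hun, ← Complex.normSq_eq_norm_sq]
  have e : Complex.imCLM (I * u / (1 + u)) =
      (u.re * (1 + u.re) + u.im ^ 2) / Complex.normSq (1 + u) := by
    rw [Complex.imCLM_apply, Complex.div_im]
    simp
    ring
  rw [e]
  field_simp
  rw [hN2]
  ring

theorem XX_exp (hq : ‖q‖ < 1) (y : ℝ) : ex (XX q y) = mb q (ex y) := by
  have hn := dn_ne' hq y
  obtain ⟨L, hL⟩ : ∃ L, L = Complex.log (dn q (ex y)) := ⟨_, rfl⟩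
  have h1 : Complex.exp L = dn q (ex y) := by rw [hL, Complex.exp_log hn]
  have h2 : ((XX q y : ℝ) : ℂ) * I = (y : ℂ) * I + (conj L - L) := by
    unfold XX
    rw [← hL]
    apply Complex.ext <;> simp
    ring
  unfold ex at *
  rw [h2, Complex.exp_add, Complex.exp_sub, Complex.exp_conj, h1]
  have h3 := ex_mul_conj y
  unfold ex at h3
  unfold mb
  rw [mul_div_assoc', div_left_inj' hn]
  unfold dn
  simp only [map_add, map_one, map_mul, Complex.conj_conj]
  linear_combination q * h3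

theorem ex_re (x : ℝ) : (ex x).re = Real.cos x := by
  unfold ex
  exact Complex.exp_ofReal_mul_I_re x

theorem ex_im (x : ℝ) : (ex x).im = Real.sin x := by
  unfold ex
  exact Complex.exp_ofReal_mul_I_im x

theorem ex_zero : ex 0 = 1 := by
  unfold ex
  simp

theorem ex_ne_one {r : ℝ} (h0 : 0 < r) (h1 : r < 2 * π) : ex r ≠ 1 := by
  intro h
  have h2 : Real.cos r = 1 := by
    rw [← ex_re, h, Complex.one_re]
  have h3 := (Real.cos_eq_one_iff_of_lt_of_lt (by linarith) h1).1 h2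
  exact h0.ne' h3

/-- **The inequality for each shift.** -/
theorem K_pos (hq : ‖q‖ < 1) {ν : ℝ} (hν : 0 < ν) {P : ℝ → ℝ}
    (hP : ∀ y, HasDerivAt P (2 * ν * Real.sin (XX q y)) y) {r : ℝ} (h0 : 0 < r)
    (h1 : r < 2 * π) :
    0 < ∫ y in (0 : ℝ)..(2 * π), (Real.cos (XX q (y + r)) - Real.cos (XX q y)) *
      Real.exp (-(P (y + r) - P y)) := by
  have hq0 := norm_nonneg q
  obtain ⟨R, hR1, hR2⟩ : ∃ R : ℝ, 1 < R ∧ ‖q‖ * R < 1 := by
    refine ⟨2 / (1 + ‖q‖), ?_, ?_⟩
    · rw [lt_div_iff₀ (by linarith)]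
      linarith
    · rw [mul_div_assoc', div_lt_iff₀ (by linarith)]
      linarith
  have hdn : ∀ v ∈ ball (0 : ℂ) R, dn q v ≠ 0 := fun v hv => by
    rw [mem_ball_zero_iff] at hv
    exact dn_ne ((mul_le_mul_of_nonneg_left hv.le hq0).trans_lt hR2)
  obtain ⟨D, hD⟩ : ∃ D : ℂ → ℂ, D = fun v => (1 - (‖q‖ : ℂ) ^ 2) / dn q v := ⟨_, rfl⟩
  have hDd : DifferentiableOn ℂ D (ball 0 R) := by
    rw [hD]
    refine (differentiableOn_const _).div ?_ hdn
    unfold dn
    fun_prop
  obtain ⟨L, hL⟩ := hDd.isExactOn_ball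
  have hqq : q * conj q = (‖q‖ : ℂ) ^ 2 := by
    rw [Complex.mul_conj, Complex.normSq_eq_norm_sq]
    push_cast
    ring
  have hmb : ∀ v ∈ ball (0 : ℂ) R, mb q v = q + v * D v := by
    intro v hv
    have hn := hdn v hv
    unfold mb
    rw [hD]
    simp only
    rw [mul_div_assoc', eq_comm, ← eq_sub_iff_add_eq', div_eq_iff hn, sub_mul,
      div_mul_cancel₀ _ hn]
    unfold dn
    linear_combination v * hqq
  have hmem : ∀ y, ex y ∈ ball (0 : ℂ) R := fun y => by
    rw [mem_ball_zero_iff, ex_norm]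
    exact hR1
  have hrot : ∀ v ∈ ball (0 : ℂ) R, ex r * v ∈ ball (0 : ℂ) R := fun v hv => by
    rw [mem_ball_zero_iff] at hv ⊢
    rw [norm_mul, ex_norm, one_mul]
    exact hv
  obtain ⟨E, hE⟩ : ∃ E : ℂ → ℂ, E = fun v => Complex.exp (ν * (L (ex r * v) - L v)) := ⟨_, rfl⟩
  have hEd : ∀ v ∈ ball (0 : ℂ) R, HasDerivAt E (ν * (ex r * D (ex r * v) - D v) * E v) v := by
    intro v hv
    have h2 : HasDerivAt (fun v => L (ex r * v)) (D (ex r * v) * (ex r * 1)) v :=
      (hL _ (hrot v hv)).comp v ((hasDerivAt_id v).const_mul (ex r))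
    have h3 := ((h2.sub (hL v hv)).const_mul (ν : ℂ)).cexp
    rw [hE]
    refine h3.congr_deriv ?_
    change Complex.exp (ν * (L (ex r * v) - L v)) * (ν * (D (ex r * v) * (ex r * 1) - D v)) =
      ν * (ex r * D (ex r * v) - D v) * Complex.exp (ν * (L (ex r * v) - L v))
    ring
  have hEdiff : DifferentiableOn ℂ E (ball 0 R) := fun v hv =>
    (hEd v hv).differentiableAt.differentiableWithinAt
  have hA := area hR1 hEdiff
  have hE0 : 0 < ‖deriv E 0‖ ^ 2 := by
    rw [(hEd 0 (mem_ball_self (by linarith))).deriv]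
    have h2 : E 0 = 1 := by
      rw [hE]
      simp
    have h3 : (ν : ℂ) * (ex r * D (ex r * 0) - D 0) * E 0 =
        ν * (ex r - 1) * (1 - (‖q‖ : ℂ) ^ 2) := by
      rw [h2, mul_zero, hD]
      simp only [dn, mul_zero, add_zero, div_one]
      ring
    rw [h3]
    have h4 : (1 : ℂ) - (‖q‖ : ℂ) ^ 2 ≠ 0 := by
      have h5 : (1 : ℝ) - ‖q‖ ^ 2 ≠ 0 := by nlinarith
      exact_mod_cast h5
    have h6 := ex_ne_one h0 h1
    have h7 : (ν : ℂ) * (ex r - 1) * (1 - (‖q‖ : ℂ) ^ 2) ≠ 0 :=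
      mul_ne_zero (mul_ne_zero (by exact_mod_cast hν.ne') (sub_ne_zero.2 h6)) h4
    positivity
  -- the exponent
  have hQ : ∀ y, HasDerivAt (fun y => P y - 2 * ν * q.im * y + 2 * ν * (L (ex y)).re) 0 y := by
    intro y
    have h2 : HasDerivAt (fun y => L (ex y)) (D (ex y) * (I * ex y)) y :=
      (hL _ (hmem y)).scomp_of_eq y (ex_hd y) rfl |>.congr_deriv (by rw [smul_eq_mul]; ring)
    have h3 := (Complex.reCLM.hasFDerivAt.comp_hasDerivAt y h2)
    have h4 := (((hP y).sub ((hasDerivAt_id y).const_mul (2 * ν * q.im))).add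
      (h3.const_mul (2 * ν)))
    refine h4.congr_deriv ?_
    have h5 : mb q (ex y) = q + ex y * D (ex y) := hmb _ (hmem y)
    have h6 : Real.sin (XX q y) = q.im + (ex y * D (ex y)).im := by
      rw [← ex_im, XX_exp hq, h5, Complex.add_im]
    have h7 : Complex.reCLM (D (ex y) * (I * ex y)) = -(ex y * D (ex y)).im := by
      rw [Complex.reCLM_apply, show D (ex y) * (I * ex y) = I * (ex y * D (ex y)) by ring,
        Complex.I_mul_re]
    rw [h6, h7]
    ring
  have hPd : ∀ y, P (y + r) - P y = 2 * ν * q.im * r -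
      2 * ν * ((L (ex (y + r))).re - (L (ex y)).re) := by
    intro y
    have h2 := is_const_of_deriv_eq_zero (fun y => (hQ y).differentiableAt)
      (fun y => (hQ y).deriv) (y + r) y
    linarith
  have hint : ∀ y, (Real.cos (XX q (y + r)) - Real.cos (XX q y)) *
      Real.exp (-(P (y + r) - P y)) = Real.exp (-(2 * ν * q.im * r)) / ν *
        (ex y * deriv E (ex y) * conj (E (ex y))).re := by
    intro y
    have e1 : ex (y + r) = ex r * ex y := by rw [ex_add, mul_comm]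
    have h2 : Real.cos (XX q (y + r)) - Real.cos (XX q y) =
        (mb q (ex r * ex y) - mb q (ex y)).re := by
      rw [← ex_re, ← ex_re, XX_exp hq, XX_exp hq, e1, Complex.sub_re]
    have h3 : Real.exp (-(P (y + r) - P y)) = Real.exp (-(2 * ν * q.im * r)) *
        ‖E (ex y)‖ ^ 2 := by
      rw [hE]
      simp only
      rw [Complex.norm_exp, ← Real.exp_nat_mul, ← Real.exp_add, hPd, e1]
      congr 1
      simp
      ring
    have h4 : ex y * deriv E (ex y) = ν * (mb q (ex r * ex y) - mb q (ex y)) * E (ex y) := by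
      rw [(hEd _ (hmem y)).deriv, hmb _ (hmem y), hmb _ (hrot _ (hmem y))]
      ring
    have h5 : ex y * deriv E (ex y) * conj (E (ex y)) =
        ((ν * ‖E (ex y)‖ ^ 2 : ℝ) : ℂ) * (mb q (ex r * ex y) - mb q (ex y)) := by
      rw [h4]
      have h6 := Complex.mul_conj (E (ex y))
      rw [Complex.normSq_eq_norm_sq] at h6
      push_cast at h6 ⊢
      linear_combination (ν * (mb q (ex r * ex y) - mb q (ex y))) * h6
    rw [h5, Complex.re_ofReal_mul, h2, h3]
    field_simp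
  simp_rw [hint]
  rw [intervalIntegral.integral_const_mul]
  have h8 : 0 < 2 * π * ‖deriv E 0‖ ^ 2 := mul_pos (by positivity) hE0
  exact mul_pos (by positivity) (h8.trans_le hA)

end TCNB

end

end Pool.Agent.SLE
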