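import Pool.Agent.Lib.MP_c17912_pr_TC.STD
import Pool.Agent.Lib.MP_c17912_pr.Euler
import Pool.Agent.Lib.MP_c17912_pr_TC.INV
import Pool.Agent.Lib.MP_c17912_pr_TR.OCC

set_option autoImplicit false

open MeasureTheory ProbabilityTheory Filter
open scoped NNReal ENNReal Topology Real

namespace Pool.Agent.SLE

noncomputable section

variable {Ω : Type*} [MeasurableSpace Ω] {μ : Measure Ω}

namespace TCOC3

/-- Limits of the scheme at time `u`. -/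
private theorem lim_phs {U : ℝ → ℂ} (hU : Continuous U) (h0 : U 0 = 0) {z : ℂ} {g : ℝ → ℂ}
    {u d C : ℝ} (hu : 0 ≤ u) (hd : 0 < d) (hs : Sol U z u g)
    (hc : ∀ s ∈ Set.Icc (0 : ℝ) u, d ≤ ‖g s - U s‖)
    (hC : ∀ s ∈ Set.Icc (0 : ℝ) u, ‖g s - U s‖ ≤ C)
    {ε θ η : ℝ} (hθ : θ < ph U g ε u) (hη : 0 < η) :
    ∀ᶠ n : ℕ in atTop,
      ‖eul U z ((1 / 2) ^ n) (EulerAux.jn u n) - (g u - U u)‖ < η ∧
      θ < phs ((1 / 2) ^ n) ε (EulerAux.jn u n) (fun j => eul U z ((1 / 2) ^ n) j) := by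
  have hZc := EulerAux.contZ hU hs
  have ht : Tendsto (fun n : ℕ => (EulerAux.jn u n : ℝ) * (1 / 2) ^ n) atTop (𝓝 u) := by
    have h1 : Tendsto (fun n : ℕ => u - (1 / 2 : ℝ) ^ n) atTop (𝓝 (u - 0)) :=
      tendsto_const_nhds.sub EulerAux.tendsto_h
    rw [sub_zero] at h1
    refine tendsto_of_tendsto_of_tendsto_of_le_of_le h1 tendsto_const_nhds (fun n => ?_)
      (fun n => EulerAux.jn_le hu n)
    have h2 := EulerAux.lt_jn (t := u) n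
    show u - (1 / 2 : ℝ) ^ n ≤ _
    linarith
  have hmem : ∀ n : ℕ, (EulerAux.jn u n : ℝ) * (1 / 2) ^ n ∈ Set.Icc (0 : ℝ) u := fun n =>
    ⟨by positivity, EulerAux.jn_le hu n⟩
  have hZt : Tendsto (fun n : ℕ => g ((EulerAux.jn u n : ℝ) * (1 / 2) ^ n) -
      U ((EulerAux.jn u n : ℝ) * (1 / 2) ^ n)) atTop (𝓝 (g u - U u)) := by
    have h2 := hZc u (Set.right_mem_Icc.2 hu)
    exact h2.tendsto.comp (tendsto_nhdsWithin_iff.2 ⟨ht, Eventually.of_forall hmem⟩)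
  have hx : Tendsto (fun n : ℕ => eul U z ((1 / 2) ^ n) (EulerAux.jn u n)) atTop
      (𝓝 (g u - U u)) := by
    rw [Metric.tendsto_nhds] at hZt ⊢
    intro r hr
    filter_upwards [hZt (r / 2) (by positivity), EulerAux.eul_close hU h0 hu (half_pos hd) hs hc
      (half_lt_self hd) (η := r / 3) (by positivity)] with n h1 h2
    have h3 := h2 _ le_rfl
    rw [dist_eq_norm] at h1 ⊢
    have h4 := norm_add_le (eul U z ((1 / 2) ^ n) (EulerAux.jn u n) -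
      (g ((EulerAux.jn u n : ℝ) * (1 / 2) ^ n) - U ((EulerAux.jn u n : ℝ) * (1 / 2) ^ n)))
      ((g ((EulerAux.jn u n : ℝ) * (1 / 2) ^ n) - U ((EulerAux.jn u n : ℝ) * (1 / 2) ^ n)) -
        (g u - U u))
    rw [sub_add_sub_cancel] at h4
    linarith
  have hS : Tendsto (fun n : ℕ => Bs ((1 / 2) ^ n) (kk 1 ε) (EulerAux.jn u n)
      (fun j => eul U z ((1 / 2) ^ n) j)) atTop
      (𝓝 (∫ v in (0 : ℝ)..u, kk 1 ε (g v - U v))) := by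
    rw [Metric.tendsto_nhds]
    intro r hr
    filter_upwards [EulerAux.sum_close hU h0 (TROCC.kk_cont 1 ε) (δ := d / 2) (R := C + 1)
      (c := d) (C := C) hu (half_pos hd) hs hc (half_lt_self hd) hC (by linarith)
      (half_pos hr)] with n h1
    rw [Real.dist_eq]
    exact lt_of_le_of_lt h1 (half_lt_self hr)
  have hne : ‖g u - U u‖ ≠ 0 := (lt_of_lt_of_le hd (hc u (Set.right_mem_Icc.2 hu))).ne'
  have hp : Tendsto (fun n : ℕ => phs ((1 / 2) ^ n) ε (EulerAux.jn u n)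
      (fun j => eul U z ((1 / 2) ^ n) j)) atTop (𝓝 (ph U g ε u)) :=
    hS.sub (hx.norm.log hne)
  filter_upwards [Metric.tendsto_nhds.1 hx η hη, (tendsto_order.1 hp).1 θ hθ] with n h1 h2
  rw [dist_eq_norm] at h1
  exact ⟨h1, h2⟩

omit [MeasurableSpace Ω] in
/-- The lower bound of the discrete functional. -/
private theorem low {W : ℝ → Ω → ℂ} {z₀ : ℂ} {c₁ ε θ e : ℝ} (he : 1 ≤ e)
    (hc₁ : 0 < c₁) {ω : Ω} {t : ℕ} {g : ℝ → ℂ} {u₁ u₂ : ℝ} (hU : Continuous fun t => W t ω)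
    (h0 : W 0 ω = 0) (ht : 1 ≤ t)
    (hu₁ : u₁ ∈ Set.Icc (0 : ℝ) ((t : ℝ) - 1)) (hu₂ : u₂ ∈ Set.Icc (t : ℝ) ((t : ℝ) + 1))
    (hs : Sol (fun t => W t ω) z₀ u₂ g) (h34 : 3 / 4 ≤ ‖g u₁ - W u₁ ω‖)
    (hle : ∀ u ∈ Set.Icc ((t : ℝ) - 1) t, ‖g u - W u ω‖ ≤ e)
    (hp1 : θ < ph (fun t => W t ω) g ε u₁) (hp2 : θ < ph (fun t => W t ω) g ε u₂) :
    ∃ δ₀ > 0, ∃ R₀ : ℝ, ∀ᶠ n : ℕ in atTop, ∀ δ R, δ ≤ δ₀ → R₀ ≤ R →
      ENNReal.ofReal (Real.exp (c₁ * lk (fun t => W t ω) g 0 ((t : ℝ) - 1) - 1)) ≤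
        G1 ((1 / 2) ^ n) ε δ R θ (2 * e) c₁ 0 (2 ^ n) t (Zq W z₀ ((1 / 2) ^ n) ω) := by
  classical
  set U : ℝ → ℂ := fun t => W t ω with hUdef
  have htR : (1 : ℝ) ≤ t := by exact_mod_cast ht
  have hu20 : 0 ≤ u₂ := by linarith [hu₂.1]
  have hu1t : u₁ ≤ u₂ := by linarith [hu₁.2, hu₂.1]
  have hZc := EulerAux.contZ hU hs
  obtain ⟨s₀, hs₀, hmin⟩ := isCompact_Icc.exists_isMinOn (⟨0, le_rfl, hu20⟩ :
    (Set.Icc (0 : ℝ) u₂).Nonempty) hZc.norm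
  obtain ⟨s₁, hs₁, hmax⟩ := isCompact_Icc.exists_isMaxOn (⟨0, le_rfl, hu20⟩ :
    (Set.Icc (0 : ℝ) u₂).Nonempty) hZc.norm
  obtain ⟨d, hd⟩ : ∃ d, d = ‖g s₀ - U s₀‖ := ⟨_, rfl⟩
  obtain ⟨C, hCdef⟩ : ∃ C, C = ‖g s₁ - U s₁‖ := ⟨_, rfl⟩
  have hd0 : 0 < d := by
    rw [hd]
    exact norm_pos_iff.2 (sub_ne_zero.2 (hs.2.1 s₀ hs₀))
  have hdle : ∀ s ∈ Set.Icc (0 : ℝ) u₂, d ≤ ‖g s - U s‖ := fun s hs' => by
    rw [hd]; exact hmin hs'
  have hC : ∀ s ∈ Set.Icc (0 : ℝ) u₂, ‖g s - U s‖ ≤ C := fun s hs' => by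
    rw [hCdef]; exact hmax hs'
  have hcm : ∀ {x : ℝ}, x ≤ u₂ → ∀ s ∈ Set.Icc (0 : ℝ) x, s ∈ Set.Icc (0 : ℝ) u₂ :=
    fun hx s hs' => ⟨hs'.1, hs'.2.trans hx⟩
  have ht1u : (t : ℝ) - 1 ≤ u₂ := by linarith [hu₂.1]
  have hev1 := lim_phs hU h0 hu₁.1 hd0 (hs.restrict hu1t) (fun s h => hdle s (hcm hu1t s h))
    (fun s h => hC s (hcm hu1t s h)) hp1 (η := 1 / 8) (by norm_num)
  have hev2 := lim_phs hU h0 hu20 hd0 hs hdle hC hp2 (η := 1) one_pos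
  have hev3 := EulerAux.sum_close hU h0 (TROCC.kk_cont 0 c₁) (t := (t : ℝ) - 1) (δ := d / 2)
    (R := C + 1) (c := d) (C := C) (by linarith) (half_pos hd0) (hs.restrict ht1u)
    (fun s h => hdle s (hcm ht1u s h)) (half_lt_self hd0)
    (fun s h => hC s (hcm ht1u s h)) (by linarith) one_pos
  have hev4 := EulerAux.eul_close hU h0 hu20 (half_pos hd0) hs hdle (half_lt_self hd0)
    (η := min (1 / 8) (d / 2)) (lt_min (by norm_num) (half_pos hd0))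
  have hkk : ∫ s in (0 : ℝ)..((t : ℝ) - 1), kk 0 c₁ (g s - U s) =
      c₁ * lk U g 0 ((t : ℝ) - 1) := by
    rw [lk, ← intervalIntegral.integral_const_mul]
    congr 1
    funext s
    simp only [kk]
    ring
  refine ⟨d / 2, half_pos hd0, C + 1, ?_⟩
  filter_upwards [hev1, hev2, hev3, hev4] with n h1 h2 h3 h4 δ R hδ hR
  have hh : (0 : ℝ) < (1 / 2) ^ n := by positivity
  have h22 : (2 : ℝ) ^ n * (1 / 2) ^ n = 1 := by rw [← mul_pow]; norm_num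
  have hjt1 : EulerAux.jn ((t : ℝ) - 1) n = (t - 1) * 2 ^ n := by
    rw [EulerAux.jn]
    have h4 : ((t : ℝ) - 1) * 2 ^ n = (((t - 1) * 2 ^ n : ℕ) : ℝ) := by
      rw [Nat.cast_mul, Nat.cast_sub ht]; push_cast; ring
    rw [h4, Nat.floor_natCast]
  rw [hjt1, hkk] at h3
  have hj1 : EulerAux.jn u₁ n ≤ (t - 1) * 2 ^ n := by
    rw [EulerAux.jn]
    refine Nat.floor_le_of_le ?_
    rw [Nat.cast_mul, Nat.cast_sub ht]
    push_cast
    exact mul_le_mul_of_nonneg_right hu₁.2 (by positivity)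
  have hj2 : t * 2 ^ n ≤ EulerAux.jn u₂ n := by
    rw [EulerAux.jn]
    refine Nat.le_floor ?_
    push_cast
    exact mul_le_mul_of_nonneg_right hu₂.1 (by positivity)
  have hj3 : EulerAux.jn u₂ n ≤ (t + 1) * 2 ^ n := by
    rw [EulerAux.jn]
    refine Nat.floor_le_of_le ?_
    push_cast
    exact mul_le_mul_of_nonneg_right hu₂.2 (by positivity)
  have hmul : (t - 1) * 2 ^ n ≤ t * 2 ^ n := Nat.mul_le_mul_right _ (Nat.sub_le t 1)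
  have hann : ∀ i ≤ EulerAux.jn u₂ n, (i : ℝ) * (1 / 2) ^ n ∈ Set.Icc (0 : ℝ) u₂ := by
    intro i hi
    refine ⟨by positivity, le_trans ?_ (EulerAux.jn_le hu20 n)⟩
    exact mul_le_mul_of_nonneg_right (by exact_mod_cast hi) hh.le
  have hlo : ∀ i ≤ EulerAux.jn u₂ n, d / 2 ≤ ‖eul U z₀ ((1 / 2) ^ n) i‖ := by
    intro i hi
    have h5 := (h4 i hi).trans (min_le_right _ _)
    have h6 := hdle _ (hann i hi)
    have h7 := norm_sub_norm_le (g ((i : ℝ) * (1 / 2) ^ n) - U ((i : ℝ) * (1 / 2) ^ n))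
      (eul U z₀ ((1 / 2) ^ n) i)
    rw [norm_sub_rev (g ((i : ℝ) * (1 / 2) ^ n) - U ((i : ℝ) * (1 / 2) ^ n))] at h7
    linarith
  have hup : ∀ i ≤ EulerAux.jn u₂ n, ‖eul U z₀ ((1 / 2) ^ n) i‖ ≤
      ‖g ((i : ℝ) * (1 / 2) ^ n) - U ((i : ℝ) * (1 / 2) ^ n)‖ + 1 / 8 := by
    intro i hi
    have h5 := (h4 i hi).trans (min_le_left _ _)
    have h6 := norm_sub_norm_le (eul U z₀ ((1 / 2) ^ n) i)
      (g ((i : ℝ) * (1 / 2) ^ n) - U ((i : ℝ) * (1 / 2) ^ n))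
    linarith
  have hAn : ∀ i ≤ EulerAux.jn u₂ n, Zq W z₀ ((1 / 2) ^ n) ω ∈ An δ R i := by
    intro i hi k hk
    have hk' := hk.trans hi
    refine ⟨hδ.trans (hlo k hk'), ?_⟩
    have h5 := hup k hk'
    have h6 := hC _ (hann k hk')
    change ‖eul U z₀ ((1 / 2) ^ n) k‖ ≤ R
    linarith
  have hterm : ∀ j ∈ Finset.Ico ((t - 1) * 2 ^ n) (t * 2 ^ n),
      ENNReal.ofReal ((1 / 2) ^ n) *
        ENNReal.ofReal (Real.exp (c₁ * lk U g 0 ((t : ℝ) - 1) - 1)) ≤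
      ENNReal.ofReal ((1 / 2) ^ n) *
        if Zq W z₀ ((1 / 2) ^ n) ω ∈ An δ R j ∧
            Zq W z₀ ((1 / 2) ^ n) ω ∈ Fl ((1 / 2) ^ n) ε θ j ∧
            ‖Zq W z₀ ((1 / 2) ^ n) ω j‖ ≤ 2 * e ∧
            Zq W z₀ ((1 / 2) ^ n) ω ∈ Rf ((1 / 2) ^ n) ε δ R θ j ((t + 1) * 2 ^ n) then
          ENNReal.ofReal (Real.exp (Bs ((1 / 2) ^ n) (kk 0 c₁) j (Zq W z₀ ((1 / 2) ^ n) ω) +
            0 * (θ - phs ((1 / 2) ^ n) ε j (Zq W z₀ ((1 / 2) ^ n) ω)))) else 0 := by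
    intro j hj
    rw [Finset.mem_Ico] at hj
    have hjle : j ≤ EulerAux.jn u₂ n := hj.2.le.trans hj2
    have hcond : Zq W z₀ ((1 / 2) ^ n) ω ∈ An δ R j ∧
            Zq W z₀ ((1 / 2) ^ n) ω ∈ Fl ((1 / 2) ^ n) ε θ j ∧
            ‖Zq W z₀ ((1 / 2) ^ n) ω j‖ ≤ 2 * e ∧
            Zq W z₀ ((1 / 2) ^ n) ω ∈ Rf ((1 / 2) ^ n) ε δ R θ j ((t + 1) * 2 ^ n) := by
      refine ⟨hAn j hjle, ⟨EulerAux.jn u₁ n, hj1.trans hj.1, ?_, h1.2.le⟩, ?_,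
        ⟨EulerAux.jn u₂ n, hjle, hj3, hAn _ le_rfl, h2.2.le⟩⟩
      · change 1 / 2 ≤ ‖eul U z₀ ((1 / 2) ^ n) (EulerAux.jn u₁ n)‖
        have h5 := norm_sub_norm_le (g u₁ - U u₁) (eul U z₀ ((1 / 2) ^ n) (EulerAux.jn u₁ n))
        rw [norm_sub_rev (g u₁ - U u₁)] at h5
        have h6 := h1.1
        have h7 : 3 / 4 ≤ ‖g u₁ - U u₁‖ := h34
        linarith
      · change ‖eul U z₀ ((1 / 2) ^ n) j‖ ≤ 2 * e
        have h5 := hup j hjle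
        have h6 : (t : ℝ) - 1 ≤ (j : ℝ) * (1 / 2) ^ n := by
          have h7 : ((t : ℝ) - 1) * 2 ^ n ≤ j := by
            have h8 : (((t - 1) * 2 ^ n : ℕ) : ℝ) ≤ j := by exact_mod_cast hj.1
            rw [Nat.cast_mul, Nat.cast_sub ht] at h8
            push_cast at h8
            exact h8
          calc (t : ℝ) - 1 = ((t : ℝ) - 1) * 2 ^ n * (1 / 2) ^ n := by
                rw [mul_assoc, h22, mul_one]
            _ ≤ _ := mul_le_mul_of_nonneg_right h7 hh.le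
        have h6' : (j : ℝ) * (1 / 2) ^ n ≤ t := by
          have h7 : (j : ℝ) ≤ (t : ℝ) * 2 ^ n := by exact_mod_cast hj.2.le
          calc (j : ℝ) * (1 / 2) ^ n ≤ (t : ℝ) * 2 ^ n * (1 / 2) ^ n :=
                mul_le_mul_of_nonneg_right h7 hh.le
            _ = t := by rw [mul_assoc, h22, mul_one]
        have h7 : ‖g ((j : ℝ) * (1 / 2) ^ n) - U ((j : ℝ) * (1 / 2) ^ n)‖ ≤ e :=
          hle _ ⟨h6, h6'⟩
        linarith
    rw [if_pos hcond, zero_mul, add_zero]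
    refine mul_le_mul_right (ENNReal.ofReal_le_ofReal (Real.exp_le_exp.2 ?_)) _
    have h5 : ∑ i ∈ Finset.range ((t - 1) * 2 ^ n),
        (1 / 2) ^ n * kk 0 c₁ (eul U z₀ ((1 / 2) ^ n) i) ≤
        Bs ((1 / 2) ^ n) (kk 0 c₁) j (Zq W z₀ ((1 / 2) ^ n) ω) := by
      unfold Bs
      refine Finset.sum_le_sum_of_subset_of_nonneg ?_ ?_
      · intro i hi
        rw [Finset.mem_range] at hi ⊢
        omega
      · intro i _ _
        have h5 : 0 ≤ kk 0 c₁ (Zq W z₀ ((1 / 2) ^ n) ω i) := by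
          simp only [kk, mul_zero, zero_mul, zero_add]
          positivity
        positivity
    have h6 := (abs_le.1 h3).1
    linarith
  unfold G1
  refine le_trans ?_ (Finset.sum_le_sum hterm)
  rw [Finset.sum_const, Nat.card_Ico, nsmul_eq_mul, ← mul_assoc]
  have h5 : ((t * 2 ^ n - (t - 1) * 2 ^ n : ℕ) : ℝ≥0∞) * ENNReal.ofReal ((1 / 2) ^ n) = 1 := by
    have h5 : t * 2 ^ n - (t - 1) * 2 ^ n = 2 ^ n := by
      obtain ⟨k, rfl⟩ : ∃ k, t = k + 1 := ⟨t - 1, by omega⟩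
      rw [Nat.add_sub_cancel, add_mul, one_mul, Nat.add_sub_cancel_left]
    rw [h5, ← ENNReal.ofReal_natCast, ← ENNReal.ofReal_mul (by positivity)]
    push_cast
    rw [h22, ENNReal.ofReal_one]
  rw [h5, one_mul]

private theorem wle (w : ℝ≥0∞) {l : ℝ} (hl : 0 < l) :
    w ≤ ENNReal.ofReal l + ENNReal.ofReal l⁻¹ * w ^ 2 := by
  rcases le_total w (ENNReal.ofReal l) with h | h
  · exact h.trans le_self_add
  · have h1 : w = ENNReal.ofReal l⁻¹ * (ENNReal.ofReal l * w) := by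
      rw [← mul_assoc, ← ENNReal.ofReal_mul (inv_pos.2 hl).le, inv_mul_cancel₀ hl.ne',
        ENNReal.ofReal_one, one_mul]
    have h2 : ENNReal.ofReal l⁻¹ * (ENNReal.ofReal l * w) ≤ ENNReal.ofReal l⁻¹ * w ^ 2 := by
      rw [_root_.sq]
      gcongr
    exact (h1.le.trans h2).trans le_add_self

/-- Arithmetic and geometric mean. -/
private theorem amgm (h ε δ R θ e c₁ κ : ℝ) (n t : ℕ) (x : ℕ → ℂ) (w : ℝ≥0∞) :
    G1 h ε δ R θ e c₁ 0 n t x * w ≤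
      G1 h ε δ R θ e c₁ κ n t x + G2 h ε δ R θ e c₁ κ n t x * w ^ 2 := by
  classical
  unfold G1 G2
  rw [Finset.sum_mul, Finset.sum_mul, ← Finset.sum_add_distrib]
  refine Finset.sum_le_sum fun j _ => ?_
  by_cases h4 : x ∈ An δ R j ∧ x ∈ Fl h ε θ j ∧ ‖x j‖ ≤ e ∧
      x ∈ Rf h ε δ R θ j ((t + 1) * n)
  · have h3 : x ∈ An δ R j ∧ x ∈ Fl h ε θ j ∧ ‖x j‖ ≤ e := ⟨h4.1, h4.2.1, h4.2.2.1⟩
    rw [if_pos h4, if_pos h4, if_pos h3]
    obtain ⟨B, hB⟩ : ∃ B, B = Bs h (kk 0 c₁) j x := ⟨_, rfl⟩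
    obtain ⟨p, hp⟩ : ∃ p, p = phs h ε j x := ⟨_, rfl⟩
    rw [← hB, ← hp]
    have e1 : Real.exp (B + κ * (θ - p)) = Real.exp B * Real.exp (κ * (θ - p)) := Real.exp_add _ _
    have e2 : Real.exp (B + κ * (p - θ)) = Real.exp B * (Real.exp (κ * (θ - p)))⁻¹ := by
      rw [← Real.exp_neg, ← Real.exp_add]
      congr 1
      ring
    rw [zero_mul, add_zero, e1, e2, ENNReal.ofReal_mul (Real.exp_pos B).le,
      ENNReal.ofReal_mul (Real.exp_pos B).le]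
    calc ENNReal.ofReal h * ENNReal.ofReal (Real.exp B) * w
        ≤ ENNReal.ofReal h * ENNReal.ofReal (Real.exp B) *
          (ENNReal.ofReal (Real.exp (κ * (θ - p))) +
            ENNReal.ofReal (Real.exp (κ * (θ - p)))⁻¹ * w ^ 2) := by
          have := wle w (Real.exp_pos (κ * (θ - p)))
          gcongr
      _ = _ := by ring
  · rw [if_neg h4, mul_zero, zero_mul]
    exact zero_le

private theorem G2_congr (h ε δ R θ e c₁ κ : ℝ) {n t N : ℕ} (hN : t * n ≤ N)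
    {x y : ℕ → ℂ} (hxy : ∀ i ≤ N, x i = y i) :
    G2 h ε δ R θ e c₁ κ n t x = G2 h ε δ R θ e c₁ κ n t y := by
  classical
  have hBs : ∀ (k : ℂ → ℝ) (j : ℕ), j ≤ N → Bs h k j x = Bs h k j y := by
    intro k j hj
    unfold Bs
    refine Finset.sum_congr rfl fun i hi => ?_
    rw [hxy i ((Finset.mem_range.1 hi).le.trans hj)]
  have hphs : ∀ j : ℕ, j ≤ N → phs h ε j x = phs h ε j y := by
    intro j hj
    unfold phs
    rw [hBs _ j hj, hxy j hj]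
  refine Finset.sum_congr rfl fun j hjm => ?_
  have h1 : j ≤ N := (Finset.mem_Ico.1 hjm).2.le.trans hN
  have hA : x ∈ An δ R j ↔ y ∈ An δ R j := by
    refine forall_congr' fun i => forall_congr' fun hi => ?_
    rw [hxy i (hi.trans h1)]
  have hF : x ∈ Fl h ε θ j ↔ y ∈ Fl h ε θ j := by
    refine exists_congr fun i => and_congr_right fun hi => ?_
    rw [hxy i (hi.trans h1), hphs i (hi.trans h1)]
  rw [hxy j h1, hBs _ j h1, hphs j h1]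
  have heq : (x ∈ An δ R j ∧ x ∈ Fl h ε θ j ∧ ‖y j‖ ≤ e) =
      (y ∈ An δ R j ∧ y ∈ Fl h ε θ j ∧ ‖y j‖ ≤ e) := by
    rw [hA, hF]
  split_ifs with h3 h4 h4
  · rfl
  · exact absurd (heq.mp h3) h4
  · exact absurd (heq.mpr h4) h3
  · rfl

variable {a b c K : ℝ} {W : ℝ → Ω → ℂ}

private theorem G2_meas (hW : Drv a b c K W μ) {h : ℝ} (hh : 0 < h) (z₀ : ℂ)
    (ε δ R θ e c₁ κ : ℝ) {n t : ℕ} {u : ℝ} (hu : ((t * n : ℕ) : ℝ) * h ≤ u) :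
    Measurable[Blk W 0 u] (fun ω => G2 h ε δ R θ e c₁ κ n t (Zq W z₀ h ω)) := by
  have h1 : (fun ω => G2 h ε δ R θ e c₁ κ n t (Zq W z₀ h ω)) =
      fun ω => G2 h ε δ R θ e c₁ κ n t (Ev W z₀ h (t * n) ω) := by
    funext ω
    refine G2_congr h ε δ R θ e c₁ κ le_rfl fun i hi => ?_
    change DiscAux.Z W z₀ h i ω = DiscAux.Z W z₀ h (min i (t * n)) ω
    rw [min_eq_left hi]
  rw [h1]
  exact ((meas_G2 h ε δ R θ e c₁ κ n t).comp (Zq_meas hW hh z₀ (t * n))).mono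
    (Blk_le_Blk le_rfl hu) le_rfl

private theorem G1_meas (hW : Drv a b c K W μ) {h : ℝ} (hh : 0 < h) (z₀ : ℂ)
    (ε δ R θ e c₁ κ : ℝ) {n t : ℕ} {u : ℝ} (hu : (((t + 1) * n : ℕ) : ℝ) * h ≤ u) :
    Measurable[Blk W 0 u] (fun ω => G1 h ε δ R θ e c₁ κ n t (Zq W z₀ h ω)) := by
  have h1 : (fun ω => G1 h ε δ R θ e c₁ κ n t (Zq W z₀ h ω)) =
      fun ω => G1 h ε δ R θ e c₁ κ n t (Ev W z₀ h ((t + 1) * n) ω) := by
    funext ω
    exact (G_stop z₀ h ε δ R θ e c₁ κ n t ((t + 1) * n) le_rfl ω).1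
  rw [h1]
  exact ((meas_G1 h ε δ R θ e c₁ κ n t).comp (Zq_meas hW hh z₀ ((t + 1) * n))).mono
    (Blk_le_Blk le_rfl hu) le_rfl

private theorem inv [IsProbabilityMeasure μ] {W' : ℝ → Ω → ℂ} (hW : Gau a b c K W μ)
    (hW' : Gau a b c K W' μ) {h : ℝ} (hh : 0 < h) (z₀ : ℂ)
    (ε δ R θ e c₁ κ : ℝ) (n t : ℕ) :
    ∫⁻ ω, (G1 h ε δ R θ e c₁ κ n t (Zq W z₀ h ω) +
      G2 h ε δ R θ e c₁ κ n t (Zq W z₀ h ω)) ∂μ =
    ∫⁻ ω, (G1 h ε δ R θ e c₁ κ n t (Zq W' z₀ h ω) +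
      G2 h ε δ R θ e c₁ κ n t (Zq W' z₀ h ω)) ∂μ := by
  have key : ∀ V : ℝ → Ω → ℂ, ∫⁻ ω, (G1 h ε δ R θ e c₁ κ n t (Zq V z₀ h ω) +
      G2 h ε δ R θ e c₁ κ n t (Zq V z₀ h ω)) ∂μ =
      ∫⁻ ω, (fun x => G1 h ε δ R θ e c₁ κ n t x + G2 h ε δ R θ e c₁ κ n t x)
        (Ev V z₀ h ((t + 1) * n) ω) ∂μ := by
    intro V
    refine lintegral_congr fun ω => ?_
    have h1 := G_stop (W := V) z₀ h ε δ R θ e c₁ κ n t ((t + 1) * n) le_rfl ω
    rw [h1.1, h1.2]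
  rw [key W, key W']
  exact inv_Z hW hW' hh z₀ _ ((meas_G1 h ε δ R θ e c₁ κ n t).add
    (meas_G2 h ε δ R θ e c₁ κ n t))

/-- The expectation of the weighted functional. -/
private theorem expect [IsProbabilityMeasure μ] (hW : Drv a b c K W μ) {h : ℝ} (hh : 0 < h)
    (z₀ : ℂ) (ε δ R θ e c₁ κ : ℝ) {n t : ℕ} (hn : (n : ℝ) * h = 1) {w : Ω → ℝ≥0∞}
    (hw : Measurable[Blk W t ((t : ℝ) + 1)] w) (hw2 : ∫⁻ ω, w ω ^ 2 ∂μ ≤ 1) :
    ∫⁻ ω, G1 h ε δ R θ e c₁ 0 n t (Zq W z₀ h ω) * w ω ∂μ ≤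
      ∫⁻ ω, (G1 h ε δ R θ e c₁ κ n t (Zq W z₀ h ω) +
        G2 h ε δ R θ e c₁ κ n t (Zq W z₀ h ω)) ∂μ := by
  have hu2 : ((t * n : ℕ) : ℝ) * h ≤ (t : ℝ) := by
    push_cast
    rw [mul_assoc, hn, mul_one]
  have hu1 : (((t + 1) * n : ℕ) : ℝ) * h ≤ (t : ℝ) + 1 := by
    push_cast
    rw [mul_assoc, hn, mul_one]
  have hG2 := G2_meas hW hh z₀ ε δ R θ e c₁ κ hu2
  have hG1 : Measurable (fun ω => G1 h ε δ R θ e c₁ κ n t (Zq W z₀ h ω)) :=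
    (G1_meas hW hh z₀ ε δ R θ e c₁ κ hu1).mono (Blk_le hW _ _) le_rfl
  have hwF : Measurable[Fut W t] (fun ω => w ω ^ 2) :=
    (hw.mono (Blk_le_Fut _ _) le_rfl).pow_const 2
  have hind := lintegral_mul_eq_lintegral_mul_lintegral_of_independent_measurableSpace
    (Blk_le hW _ _) (Fut_le hW _) (indep_Blk_Fut hW (Nat.cast_nonneg t)) hG2 hwF
  calc ∫⁻ ω, G1 h ε δ R θ e c₁ 0 n t (Zq W z₀ h ω) * w ω ∂μ
      ≤ ∫⁻ ω, (G1 h ε δ R θ e c₁ κ n t (Zq W z₀ h ω) +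
        G2 h ε δ R θ e c₁ κ n t (Zq W z₀ h ω) * w ω ^ 2) ∂μ :=
        lintegral_mono fun ω => amgm h ε δ R θ e c₁ κ n t _ _
    _ = ∫⁻ ω, G1 h ε δ R θ e c₁ κ n t (Zq W z₀ h ω) ∂μ +
        ∫⁻ ω, G2 h ε δ R θ e c₁ κ n t (Zq W z₀ h ω) * w ω ^ 2 ∂μ :=
        lintegral_add_left hG1 _
    _ ≤ ∫⁻ ω, G1 h ε δ R θ e c₁ κ n t (Zq W z₀ h ω) ∂μ +
        ∫⁻ ω, G2 h ε δ R θ e c₁ κ n t (Zq W z₀ h ω) ∂μ := by
        rw [hind]
        gcongr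
        calc _ ≤ (∫⁻ ω, G2 h ε δ R θ e c₁ κ n t (Zq W z₀ h ω) ∂μ) * 1 := by gcongr
          _ = _ := mul_one _
    _ = _ := (lintegral_add_left hG1 _).symm

end TCOC3

/-- TC-OC3. The functional of a single particle which is flagged before time `t - 1` and reaches the
level `θ` again in the cell `[t,t+1]`, with a weight `w t` which depends on this cell. The bounds `y t`
for the expectations do not depend on the process `W`.

Proof (compare `occ`, TR/OCC). Constants `ε₀` and `C c₁ q κ p` from `str_const`. For `l : ℕ`, `l ≥ 1`,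
let `δ_l = (1/2)^l`, `R_l = 2^l`, and `C'_l, h₀_l` the constants of `str_const`; choose `N_l ≥ l` with
`h_l = (1/2)^N_l ≤ h₀_l` and `C'_l √h_l ≤ 1 / (l + 1)`; `n_l = 2^N_l`, `1 / n_l = h_l`. Let
`G1_l t`, `G2_l t` be the functionals with the parameters `h_l, ε, δ_l, R_l, θ, 2e, c₁, κ, n_l`.
* `y t` for `t ≥ 1`... put `y 0 = y 1 = 0` and for `t ≥ 1`
  `y (t+1) = ⨆ (W with Gau a b c K W μ), liminf_l 1/2 ∫ (G1_l t + G2_l t) (Zq W z₀ h_l)`; by `inv_Z` and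
  `G_stop`, `meas_G1`, `meas_G2` the integrals do not depend on `W`, so `y (t+1)` is the liminf for any
  such `W`. Sum: `∑ t < N, y (t+1) ≤ liminf_l ∑ ...` (superadditivity of the liminf, or Fatou as in
  `occ`) `≤ C (2e)^p (1+|z₀|)^p exp (-(q θ))`. (If there is no `W` at all then `y = 0`.)
* Let `H_l t x = ∑ j ∈ Ico ((t-1) n) (t n), ofReal h * (if the four conditions of G1 then
  ofReal (exp (Bs h (kk 0 c₁) j x)) else 0)`. AM-GM, for every `j`: `1 * w ≤ 1/2 (λ + w^2 / λ)` with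
  `λ = exp (κ (θ - phs_j))` (finite, positive), so
  `H_l t * w t ≤ 1/2 (G1_l t + G2_l t * (w t)^2)`. `G2_l t` is measurable for `Blk W 0 t` (`Zq_meas`,
  indices `< t n_l`) and `w t` for `Blk W t (t+1) ≤ Fut W t`, so they are independent
  (`indep_Blk_Fut`) and `∫ H_l t * w t ≤ 1/2 ∫ (G1_l t + G2_l t)` by `hw2`.
* `Y (t+1) = liminf_l H_l t (Zq W z₀ h_l) * w t` for `t ≥ 1`, `Y 0 = Y 1 = 0`. Measurable for
  `Blk W 0 (t+1)`; Fatou: `∫ Y (t+1) ≤ y (t+1)`.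
* Lower bound. Fix `ω, t, g, u₁, u₂`, `U = W · ω`. `|Z|` has a positive minimum `d` and a maximum on
  `[0,u₂]`. For `l` large (`eul_close` with error `η` small, `δ = d/2`, `t := u₂`; `sum_close`): the
  scheme is in the annulus `δ_l, R_l` up to the index `jn u₂ N_l` (`≥ t n_l`, `≤ (t+1) n_l`),
  `|Z_i| ≤ 2 e` for `i ∈ [(t-1) n_l, t n_l]`, `1/2 ≤ |Z_i|` and `θ ≤ phs_i` for `i = jn u₁ N_l`
  `(≤ (t-1) n_l)`, and `θ ≤ phs_i` for `i = jn u₂ N_l` (`sum_close` with `k = kk 1 ε`; continuity of `log |Z|`;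
  strict inequalities `θ < ph`). So the four conditions hold for every `j ∈ Ico ((t-1) n) (t n)`, and
  `Bs h (kk 0 c₁) j ≥ Bs h (kk 0 c₁) ((t-1) n) ≥ c₁ lk 0 (t-1) - 1` for `l` large. So
  `H_l t ≥ exp (c₁ lk 0 (t-1) - 1)` (`n_l` terms with weight `h_l`), and `C := max C .. exp 1`. -/
theorem occ3 [IsProbabilityMeasure μ] {a b c K : ℝ} (ha : 0 ≤ a) (hb : 0 ≤ b)
    (hc : c ^ 2 ≤ a * b) (hK : 0 ≤ K) (hC : HasC a b c) :
    ∃ ε₀ : ℝ, 0 < ε₀ ∧ ε₀ ≤ 1 ∧ ∀ ε : ℝ, 0 < ε → ε ≤ ε₀ →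
      ∃ (C c₁ q : ℝ) (p : ℕ), 0 < C ∧ 0 < c₁ ∧ 2 < q ∧ ∀ (z₀ : ℂ) (θ e : ℝ),
        1 / 2 ≤ ‖z₀‖ → 1 ≤ e →
        ∃ y : ℕ → ℝ≥0∞, (∀ N : ℕ, ∑ t ∈ Finset.range N, y (t + 1) ≤
            ENNReal.ofReal (C * e ^ p * (1 + ‖z₀‖) ^ p * Real.exp (-(q * θ)))) ∧
          ∀ W : ℝ → Ω → ℂ, Gau a b c K W μ → ∀ w : ℕ → Ω → ℝ≥0∞,
            (∀ t : ℕ, Measurable[Blk W t ((t : ℝ) + 1)] (w t)) →
            (∀ t, ∫⁻ ω, w t ω ^ 2 ∂μ ≤ 1) →
            ∃ Y : ℕ → Ω → ℝ≥0∞, (∀ t : ℕ, Measurable[Blk W 0 t] (Y t)) ∧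
              (∀ t : ℕ, ∫⁻ ω, Y t ω ∂μ ≤ y t) ∧
              ∀ (ω : Ω) (t : ℕ) (g : ℝ → ℂ) (u₁ u₂ : ℝ), 1 ≤ t →
                u₁ ∈ Set.Icc (0 : ℝ) ((t : ℝ) - 1) → u₂ ∈ Set.Icc (t : ℝ) ((t : ℝ) + 1) →
                Sol (fun t => W t ω) z₀ u₂ g → 3 / 4 ≤ ‖g u₁ - W u₁ ω‖ →
                (∀ u ∈ Set.Icc ((t : ℝ) - 1) t, ‖g u - W u ω‖ ≤ e) →
                θ < ph (fun t => W t ω) g ε u₁ → θ < ph (fun t => W t ω) g ε u₂ →
                ENNReal.ofReal (Real.exp (c₁ * lk (fun t => W t ω) g 0 ((t : ℝ) - 1))) * w t ω ≤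
                  ENNReal.ofReal C * Y (t + 1) ω := by
  classical
  obtain ⟨ε₀, hε₀, hε₀1, hocc⟩ := str_const (μ := μ) ha hb hc hK hC
  refine ⟨ε₀, hε₀, hε₀1, fun ε hε hεε => ?_⟩
  obtain ⟨C, c₁, q, κ, p, hC0, hc₁, hq, hκ, hst⟩ := hocc ε hε hεε
  have hδ : ∀ l : ℕ, (0 : ℝ) < (1 / 2) ^ (l + 1) := fun l => by positivity
  have hδ' : ∀ l : ℕ, ((1 : ℝ) / 2) ^ (l + 1) ≤ 1 / 2 := fun l => by
    rw [pow_succ]
    have h1 : ((1 : ℝ) / 2) ^ l ≤ 1 := pow_le_one₀ (by norm_num) (by norm_num)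
    linarith
  have hR : ∀ l : ℕ, (1 : ℝ) ≤ 2 ^ l := fun l => one_le_pow₀ (by norm_num)
  choose C' hC' h₀ hh₀ hst' using fun l : ℕ => hst ((1 / 2) ^ (l + 1)) (2 ^ l) (hδ l) (hδ' l)
    (hR l)
  have hN : ∀ l : ℕ, ∃ n : ℕ, l ≤ n ∧ ((1 : ℝ) / 2) ^ n ≤ h₀ l ∧
      C' l * √((1 / 2) ^ n) ≤ 1 / ((l : ℝ) + 1) := by
    intro l
    have h1 : Tendsto (fun n : ℕ => C' l * √(((1 : ℝ) / 2) ^ n)) atTop (𝓝 (C' l * √0)) :=
      ((Real.continuous_sqrt.tendsto 0).comp EulerAux.tendsto_h).const_mul _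
    rw [Real.sqrt_zero, mul_zero] at h1
    have h2 : (0 : ℝ) < 1 / ((l : ℝ) + 1) := by positivity
    obtain ⟨n, hn1, hn2, hn3⟩ := ((eventually_ge_atTop l).and
      (((tendsto_order.1 EulerAux.tendsto_h).2 _ (hh₀ l)).and
        ((tendsto_order.1 h1).2 _ h2))).exists
    exact ⟨n, hn1, hn2.le, hn3.le⟩
  choose n hnl hn₀ hn' using hN
  have hn : Tendsto n atTop atTop := tendsto_atTop_mono hnl tendsto_id
  have hcast : ∀ l, (1 : ℝ) / ((2 ^ n l : ℕ) : ℝ) = (1 / 2) ^ n l := fun l => by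
    push_cast
    rw [one_div_pow]
  have hh : ∀ l, (0 : ℝ) < (1 / 2) ^ n l := fun l => by positivity
  have hnh : ∀ l, ((2 ^ n l : ℕ) : ℝ) * (1 / 2) ^ n l = 1 := fun l => by
    push_cast
    rw [← mul_pow]
    norm_num
  refine ⟨2 ^ p * C + Real.exp 1, c₁, q, p, by positivity, hc₁, hq, fun z₀ θ e hz he => ?_⟩
  by_cases hex : ∃ W₀ : ℝ → Ω → ℂ, Gau a b c K W₀ μ
  swap
  · refine ⟨fun _ => 0, fun N => by simp, fun W hW => absurd ⟨W, hW⟩ hex⟩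
  obtain ⟨W₀, hW₀⟩ := hex
  obtain ⟨I, hI⟩ : ∃ I : ℕ → ℕ → ℝ≥0∞, ∀ t l, I t l = ∫⁻ ω,
      (G1 ((1 / 2) ^ n l) ε ((1 / 2) ^ (l + 1)) (2 ^ l) θ (2 * e) c₁ κ (2 ^ n l) t
        (Zq W₀ z₀ ((1 / 2) ^ n l) ω) +
      G2 ((1 / 2) ^ n l) ε ((1 / 2) ^ (l + 1)) (2 ^ l) θ (2 * e) c₁ κ (2 ^ n l) t
        (Zq W₀ z₀ ((1 / 2) ^ n l) ω)) ∂μ := ⟨_, fun _ _ => rfl⟩
  have hIsum : ∀ N l : ℕ, ∑ t ∈ Finset.range N, I (t + 1) l ≤
      ENNReal.ofReal (C * (2 * e) ^ p * (1 + ‖z₀‖) ^ p *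
        Real.exp (((N : ℝ) + 2) * (1 / ((l : ℝ) + 1))) * Real.exp (-(q * θ))) := by
    intro N l
    have h1 := hst' l W₀ hW₀.toDrv (2 ^ n l) Nat.one_le_two_pow
      (by rw [hcast]; exact hn₀ l) z₀ θ (2 * e) hz (by linarith) N
    rw [hcast] at h1
    simp only [hI]
    refine h1.trans (ENNReal.ofReal_le_ofReal ?_)
    have h2 : C' l * √((1 / 2) ^ n l) * ((N : ℝ) + 2) ≤
        ((N : ℝ) + 2) * (1 / ((l : ℝ) + 1)) := by
      rw [mul_comm]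
      exact mul_le_mul_of_nonneg_left (hn' l) (by positivity)
    have h3 := Real.exp_le_exp.2 h2
    have he0 : 0 ≤ e := by linarith
    gcongr
  refine ⟨fun t => if t ≤ 1 then 0 else liminf (I (t - 1)) atTop, ?_, ?_⟩
  · intro N
    have h1 : ∑ t ∈ Finset.range N, (if t + 1 ≤ 1 then 0 else liminf (I (t + 1 - 1)) atTop) ≤
        ∑ t ∈ Finset.range N, liminf (I (t + 1)) atTop := by
      rcases N with _ | M
      · simp
      · rw [Finset.sum_range_succ', Finset.sum_range_succ]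
        refine add_le_add (Finset.sum_le_sum fun t _ => ?_) ?_
        · rw [if_neg (by omega)]
          exact le_rfl
        · rw [if_pos (by omega)]
          exact zero_le
    refine h1.trans ((TROCC.sum_liminf N fun t l => I (t + 1) l).trans ?_)
    refine (liminf_le_liminf (Eventually.of_forall fun l => hIsum N l)).trans ?_
    have hlim : Tendsto (fun l : ℕ => ENNReal.ofReal (C * (2 * e) ^ p * (1 + ‖z₀‖) ^ p *
        Real.exp (((N : ℝ) + 2) * (1 / ((l : ℝ) + 1))) * Real.exp (-(q * θ)))) atTop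
        (𝓝 (ENNReal.ofReal (C * (2 * e) ^ p * (1 + ‖z₀‖) ^ p *
          Real.exp (((N : ℝ) + 2) * 0) * Real.exp (-(q * θ))))) := by
      refine ENNReal.tendsto_ofReal (Tendsto.mul_const _ (Tendsto.const_mul _ ?_))
      exact (Real.continuous_exp.tendsto _).comp
        (tendsto_one_div_add_atTop_nhds_zero_nat.const_mul _)
    rw [hlim.liminf_eq]
    refine ENNReal.ofReal_le_ofReal ?_
    rw [mul_zero, Real.exp_zero, mul_one, mul_pow]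
    have he0 : 0 ≤ e := by linarith
    have h5 : C * (2 ^ p * e ^ p) ≤ (2 ^ p * C + Real.exp 1) * e ^ p := by
      have : 0 ≤ Real.exp 1 * e ^ p := by positivity
      nlinarith
    gcongr
  · intro W hW w hw hw2
    have hD := hW.toDrv
    refine ⟨fun t ω => if t ≤ 1 then 0 else liminf (fun l =>
      G1 ((1 / 2) ^ n l) ε ((1 / 2) ^ (l + 1)) (2 ^ l) θ (2 * e) c₁ 0 (2 ^ n l) (t - 1)
        (Zq W z₀ ((1 / 2) ^ n l) ω) * w (t - 1) ω) atTop, ?_, ?_, ?_⟩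
    · intro t
      by_cases ht : t ≤ 1
      · simp only [if_pos ht]
        exact @measurable_const _ _ _ (Blk W 0 t) _
      · simp only [if_neg ht]
        obtain ⟨s, rfl⟩ : ∃ s, t = s + 1 := ⟨t - 1, by omega⟩
        rw [Nat.add_sub_cancel]
        have hs1 : ((s + 1 : ℕ) : ℝ) = (s : ℝ) + 1 := by push_cast; ring
        refine Measurable.liminf fun l => Measurable.mul ?_ ?_
        · refine TCOC3.G1_meas hD (hh l) z₀ _ _ _ _ _ _ _ ?_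
          rw [Nat.cast_mul, mul_assoc, hnh l, mul_one]
        · refine (hw s).mono (Blk_le_Blk (Nat.cast_nonneg s) ?_) le_rfl
          rw [hs1]
    · intro t
      by_cases ht : t ≤ 1
      · simp only [if_pos ht]
        simp
      · simp only [if_neg ht]
        obtain ⟨s, rfl⟩ : ∃ s, t = s + 1 := ⟨t - 1, by omega⟩
        rw [Nat.add_sub_cancel]
        refine (lintegral_liminf_le fun l => ?_).trans
          (liminf_le_liminf (Eventually.of_forall fun l => ?_))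
        · refine Measurable.mul ?_ ((hw s).mono (Blk_le hD _ _) le_rfl)
          exact (TCOC3.G1_meas hD (hh l) z₀ _ _ _ _ _ _ _ le_rfl).mono (Blk_le hD _ _) le_rfl
        · rw [hI, ← TCOC3.inv hW hW₀ (hh l)]
          exact TCOC3.expect hD (hh l) z₀ _ _ _ _ _ _ _ (hnh l) (hw s) (hw2 s)
    · intro ω t g u₁ u₂ ht hu₁ hu₂ hs h34 hle hp1 hp2
      obtain ⟨δ₀, hδ₀, R₀, hlow⟩ := TCOC3.low he hc₁ (hD.cont ω) (hD.zero 0 le_rfl ω) ht hu₁ hu₂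
        hs h34 hle hp1 hp2
      beta_reduce
      rw [if_neg (show ¬ (t + 1 ≤ 1) by omega), Nat.add_sub_cancel]
      have h1 : ENNReal.ofReal (Real.exp (c₁ * lk (fun t => W t ω) g 0 ((t : ℝ) - 1) - 1)) *
          w t ω ≤ liminf (fun l =>
          G1 ((1 / 2) ^ n l) ε ((1 / 2) ^ (l + 1)) (2 ^ l) θ (2 * e) c₁ 0 (2 ^ n l) t
            (Zq W z₀ ((1 / 2) ^ n l) ω) * w t ω) atTop := by
        refine le_liminf_of_le (by isBoundedDefault) ?_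
        have h2 : ∀ᶠ l : ℕ in atTop, R₀ ≤ (2 : ℝ) ^ l :=
          (tendsto_pow_atTop_atTop_of_one_lt (by norm_num : (1 : ℝ) < 2)).eventually_ge_atTop R₀
        have h3 : ∀ᶠ l : ℕ in atTop, ((1 : ℝ) / 2) ^ (l + 1) < δ₀ :=
          ((tendsto_add_atTop_iff_nat 1).2 EulerAux.tendsto_h).eventually_lt_const hδ₀
        filter_upwards [hn.eventually hlow, h2, h3] with l h4 h5 h6
        exact mul_le_mul_left (h4 _ _ h6.le h5) _
      refine le_trans ?_ (mul_le_mul_right h1 _)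
      rw [← mul_assoc, ← ENNReal.ofReal_mul (by positivity)]
      refine mul_le_mul_left (ENNReal.ofReal_le_ofReal ?_) _
      have h2 : Real.exp (c₁ * lk (fun t => W t ω) g 0 ((t : ℝ) - 1)) = Real.exp 1 *
          Real.exp (c₁ * lk (fun t => W t ω) g 0 ((t : ℝ) - 1) - 1) := by
        rw [← Real.exp_add]
        congr 1
        ring
      rw [h2]
      refine mul_le_mul_of_nonneg_right ?_ (Real.exp_pos _).le
      have : 0 ≤ 2 ^ p * C := by positivity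
      linarith

end

end Pool.Agent.SLE
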