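import Mathlib

set_option autoImplicit false

open Filter
open scoped NNReal ENNReal Topology

namespace Pool.Agent.SLE

noncomputable section

/-- The induction behind `pat_greedy`. -/
theorem TCPTG_ind {T D : ℕ} (P : ℕ → Prop) (q pm : ℕ → ℝ) (Bd : ℕ → Prop) (bd : ℕ → ℝ≥0∞)
    (n : ℕ → ℕ) {c₁ β G G₀ : ℝ} (hβ : 0 ≤ β) (hG : 1 ≤ G) (hG₀ : 1 ≤ G₀) (Y R : ℕ → ℕ → ℝ≥0∞)
    (hq : ∀ j, P j → q j = 0) (hbd : ∀ j, Bd j → bd j = ENNReal.ofReal (Real.exp β))
    (hn : ∀ s t, s ≤ t → n s ≤ n t)
    (hn' : ∀ s α c, s ≤ α → 0 < α → α < c → P (α - 1) → ¬ P α → ¬ Bd (α - 1) →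
      n s + 1 ≤ n (c + 1))
    (hR : ∀ i s α t, s ≤ α → α ≤ s + D → α < t →
      R i s * (if s < α then 1 + bd (α - 1) else 1) * Y α (t - α) ≤ R (i + 1) t)
    (hcut : ∀ α c, α < c → c < T → ¬ P α → (α = 0 ∨ P (α - 1)) → P c →
      (∀ j, α ≤ j → j < c → pm j ≤ pm c) →
      (∀ c', α < c' → c' < c → P c' → ∃ j, α ≤ j ∧ j < c' ∧ pm c' < pm j) →
      ENNReal.ofReal (Real.exp (c₁ * ∑ j ∈ Finset.Ico α c, q j)) * (1 + bd c) ≤
        ENNReal.ofReal (if α = 0 then G₀ * G else G) * Y α (c + 1 - α))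
    (hD : ∀ s, s + D ≤ T → ∃ i < D, ¬ P (s + i)) :
    ∀ k s, s ≤ T → T - s = k → (s = 0 ∨ P (s - 1)) → ∀ i b : ℕ, (s = 0 → i = 0) →
      i ≤ 1 + n s + b →
      ENNReal.ofReal (Real.exp (c₁ * ∑ j ∈ Finset.range s, q j + β * b)) *
          (if s = 0 then 1 else 1 + bd (s - 1)) ≤
        ENNReal.ofReal ((if s = 0 then 1 else G₀) * G ^ i) * R i s →
      ∃ i s α : ℕ, s ≤ α ∧ α ≤ T ∧ α ≤ s + D ∧ (∀ j, s ≤ j → j < α → P j) ∧
        (α = T ∨ (¬ P α ∧ (α = 0 ∨ P (α - 1)) ∧
          ∀ c, α < c → c < T → P c → ∃ j, α ≤ j ∧ j < c ∧ pm c < pm j)) ∧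
        ENNReal.ofReal (Real.exp (c₁ * (∑ j ∈ Finset.range α, q j) +
            β * ((i : ℝ) - 1 - n T))) ≤ ENNReal.ofReal (G₀ * G ^ i) * R i s := by
  classical
  intro k
  induction k using Nat.strong_induction_on with
  | _ k ih =>
  intro s hsT hk hsP i b hi0 hib hmain
  have hG0 : (0 : ℝ) ≤ G ^ i := pow_nonneg (zero_le_one.trans hG) i
  have hG0' : (if s = 0 then (1 : ℝ) else G₀) ≤ G₀ := by
    split_ifs
    · exact hG₀
    · exact le_rfl
  have hW1 : (1 : ℝ≥0∞) ≤ (if s = 0 then 1 else 1 + bd (s - 1)) := by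
    split_ifs
    · exact le_rfl
    · exact le_self_add
  -- the stop
  have hstop : ∀ α, s ≤ α → (∀ j, s ≤ j → j < α → P j) →
      ENNReal.ofReal (Real.exp (c₁ * (∑ j ∈ Finset.range α, q j) +
            β * ((i : ℝ) - 1 - n T))) ≤ ENNReal.ofReal (G₀ * G ^ i) * R i s := by
    intro α hsα hP
    have h1 : ∑ j ∈ Finset.range α, q j = ∑ j ∈ Finset.range s, q j := by
      rw [← Finset.sum_range_add_sum_Ico _ hsα, Finset.sum_eq_zero (s := Finset.Ico s α), add_zero]
      intro j hj
      rw [Finset.mem_Ico] at hj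
      exact hq j (hP j hj.1 hj.2)
    have h2 : (i : ℝ) - 1 - n T ≤ b := by
      have h3 : (i : ℝ) ≤ 1 + n s + b := by exact_mod_cast hib
      have h4 : (n s : ℝ) ≤ n T := by exact_mod_cast hn s T hsT
      linarith
    rw [h1]
    calc ENNReal.ofReal (Real.exp (c₁ * (∑ j ∈ Finset.range s, q j) +
            β * ((i : ℝ) - 1 - n T)))
        ≤ ENNReal.ofReal (Real.exp (c₁ * ∑ j ∈ Finset.range s, q j + β * b)) := by
          refine ENNReal.ofReal_le_ofReal (Real.exp_le_exp.2 ?_)
          have := mul_le_mul_of_nonneg_left h2 hβ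
          linarith
      _ ≤ ENNReal.ofReal (Real.exp (c₁ * ∑ j ∈ Finset.range s, q j + β * b)) *
          (if s = 0 then 1 else 1 + bd (s - 1)) := le_mul_of_one_le_right' hW1
      _ ≤ ENNReal.ofReal ((if s = 0 then 1 else G₀) * G ^ i) * R i s := hmain
      _ ≤ ENNReal.ofReal (G₀ * G ^ i) * R i s :=
          mul_le_mul_left (ENNReal.ofReal_le_ofReal (mul_le_mul_of_nonneg_right hG0' hG0)) _
  by_cases hex : ∃ α, s ≤ α ∧ α < T ∧ ¬ P α
  · -- the first cell which is not low
    obtain ⟨α, ⟨hsα, hαT, hPα⟩, hmin⟩ : ∃ α, (s ≤ α ∧ α < T ∧ ¬ P α) ∧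
        ∀ j, j < α → ¬ (s ≤ j ∧ j < T ∧ ¬ P j) :=
      ⟨Nat.find hex, Nat.find_spec hex, fun j hj => Nat.find_min hex hj⟩
    have hlow : ∀ j, s ≤ j → j < α → P j := by
      intro j h1 h2
      by_contra h3
      exact hmin j h2 ⟨h1, h2.trans hαT, h3⟩
    have hαD : α ≤ s + D := by
      by_contra h1
      push Not at h1
      obtain ⟨i', hi', h2⟩ := hD s (h1.le.trans hαT.le)
      exact h2 (hlow _ (Nat.le_add_right _ _) (by omega))
    have hαP : α = 0 ∨ P (α - 1) := by
      rcases hsα.eq_or_lt with h1 | h1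
      · rw [← h1]
        exact hsP
      · exact Or.inr (hlow _ (by omega) (by omega))
    by_cases hc : ∃ c, α < c ∧ c < T ∧ P c ∧ ∀ j, α ≤ j → j < c → pm j ≤ pm c
    · obtain ⟨c, ⟨hαc, hcT, hPc, hrec⟩, hcmin⟩ : ∃ c, (α < c ∧ c < T ∧ P c ∧
          ∀ j, α ≤ j → j < c → pm j ≤ pm c) ∧
          ∀ c', c' < c → ¬ (α < c' ∧ c' < T ∧ P c' ∧ ∀ j, α ≤ j → j < c' → pm j ≤ pm c') :=
        ⟨Nat.find hc, Nat.find_spec hc, fun j hj => Nat.find_min hc hj⟩
      have hfirst : ∀ c', α < c' → c' < c → P c' → ∃ j, α ≤ j ∧ j < c' ∧ pm c' < pm j := by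
        intro c' h1 h2 h3
        by_contra h4
        push Not at h4
        exact hcmin c' h2 ⟨h1, h2.trans hcT, h3, h4⟩
      have h1 := hcut α c hαc hcT hPα hαP hPc hrec hfirst
      have h2 := hR i s α (c + 1) hsα hαD (by omega)
      -- the new number of bad cells
      obtain ⟨b', e', hb', he', hbn⟩ : ∃ (b' : ℕ) (e' : ℝ≥0∞),
          ENNReal.ofReal (Real.exp (β * b')) = ENNReal.ofReal (Real.exp (β * b)) * e' ∧
          ENNReal.ofReal (Real.exp (c₁ * ∑ j ∈ Finset.range s, q j + β * b)) * e' ≤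
            ENNReal.ofReal ((if s = 0 then 1 else G₀) * G ^ i) * R i s *
              (if s < α then 1 + bd (α - 1) else 1) ∧
          i + 1 ≤ 1 + n (c + 1) + b' := by
        by_cases hb : 0 < α ∧ Bd (α - 1)
        · refine ⟨b + 1, ENNReal.ofReal (Real.exp β), ?_, ?_, ?_⟩
          · rw [← ENNReal.ofReal_mul (Real.exp_pos _).le, ← Real.exp_add]
            push_cast
            ring_nf
          · rcases hsα.eq_or_lt with h3 | h3
            · have h4 : s ≠ 0 := by omega
              rw [if_neg (by omega : ¬ s < α), mul_one, if_neg h4]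
              rw [if_neg h4, if_neg h4] at hmain
              have h5 : bd (s - 1) = ENNReal.ofReal (Real.exp β) := by
                rw [h3]
                exact hbd _ hb.2
              rw [h5] at hmain
              exact (mul_le_mul_right le_add_self _).trans hmain
            · rw [if_pos h3, hbd _ hb.2]
              refine mul_le_mul' ((le_mul_of_one_le_right' hW1).trans hmain) le_add_self
          · have := hn s (c + 1) (by omega)
            omega
        · refine ⟨b, 1, ?_, ?_, ?_⟩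
          · rw [mul_one]
          · refine mul_le_mul' ((le_mul_of_one_le_right' hW1).trans hmain) ?_
            split_ifs
            · exact le_self_add
            · exact le_rfl
          · rcases Nat.eq_zero_or_pos α with h3 | h3
            · have h4 : i = 0 := hi0 (by omega)
              omega
            · have h4 : ¬ Bd (α - 1) := fun h => hb ⟨h3, h⟩
              have h5 : P (α - 1) := by
                rcases hαP with h6 | h6
                · omega
                · exact h6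
              have h6 := hn' s α c hsα h3 hαc h5 hPα h4
              omega
      have hX : ∑ j ∈ Finset.range (c + 1), q j =
          ∑ j ∈ Finset.range s, q j + ∑ j ∈ Finset.Ico α c, q j := by
        rw [Finset.sum_range_succ, hq c hPc, add_zero,
          ← Finset.sum_range_add_sum_Ico _ hαc.le, ← Finset.sum_range_add_sum_Ico _ hsα,
          Finset.sum_eq_zero (s := Finset.Ico s α), add_zero]
        intro j hj
        rw [Finset.mem_Ico] at hj
        exact hq j (hlow j hj.1 hj.2)
      have hg : (if s = 0 then (1 : ℝ) else G₀) * G ^ i * (if α = 0 then G₀ * G else G) ≤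
          G₀ * G ^ (i + 1) := by
        have h0 : (0 : ℝ) ≤ G ^ (i + 1) := pow_nonneg (zero_le_one.trans hG) _
        rcases Nat.eq_zero_or_pos α with h3 | h3
        · have h4 : s = 0 := by omega
          rw [if_pos h3, if_pos h4, pow_succ]
          exact le_of_eq (by ring)
        · rw [if_neg (by omega : α ≠ 0)]
          calc (if s = 0 then (1 : ℝ) else G₀) * G ^ i * G
              = (if s = 0 then (1 : ℝ) else G₀) * G ^ (i + 1) := by rw [pow_succ]; ring
            _ ≤ G₀ * G ^ (i + 1) := mul_le_mul_of_nonneg_right hG0' h0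
      refine ih (T - (c + 1)) (by omega) (c + 1) (by omega) rfl
        (Or.inr (by rw [Nat.add_sub_cancel]; exact hPc)) (i + 1) b' (fun h => absurd h (by omega))
        hbn ?_
      rw [if_neg (Nat.succ_ne_zero c), if_neg (Nat.succ_ne_zero c), Nat.add_sub_cancel, hX]
      have h0 : (0 : ℝ) ≤ (if s = 0 then (1 : ℝ) else G₀) * G ^ i := by
        refine mul_nonneg ?_ hG0
        split_ifs
        · exact zero_le_one
        · exact zero_le_one.trans hG₀
      have hexp : ENNReal.ofReal (Real.exp (c₁ * (∑ j ∈ Finset.range s, q j +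
            ∑ j ∈ Finset.Ico α c, q j) + β * b')) =
          ENNReal.ofReal (Real.exp (c₁ * ∑ j ∈ Finset.range s, q j + β * b)) * e' *
            ENNReal.ofReal (Real.exp (c₁ * ∑ j ∈ Finset.Ico α c, q j)) := by
        rw [show c₁ * (∑ j ∈ Finset.range s, q j + ∑ j ∈ Finset.Ico α c, q j) + β * b' =
          c₁ * ∑ j ∈ Finset.range s, q j + β * b' + c₁ * ∑ j ∈ Finset.Ico α c, q j by ring,
          Real.exp_add, ENNReal.ofReal_mul (Real.exp_pos _).le, Real.exp_add,
          ENNReal.ofReal_mul (Real.exp_pos _).le, hb', Real.exp_add,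
          ENNReal.ofReal_mul (Real.exp_pos _).le]
        ring
      calc ENNReal.ofReal (Real.exp (c₁ * (∑ j ∈ Finset.range s, q j +
            ∑ j ∈ Finset.Ico α c, q j) + β * b')) * (1 + bd c)
          = ENNReal.ofReal (Real.exp (c₁ * ∑ j ∈ Finset.range s, q j + β * b)) * e' *
            (ENNReal.ofReal (Real.exp (c₁ * ∑ j ∈ Finset.Ico α c, q j)) * (1 + bd c)) := by
            rw [hexp, mul_assoc]
        _ ≤ (ENNReal.ofReal ((if s = 0 then 1 else G₀) * G ^ i) * R i s *
              (if s < α then 1 + bd (α - 1) else 1)) *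
            (ENNReal.ofReal (if α = 0 then G₀ * G else G) * Y α (c + 1 - α)) :=
            mul_le_mul' he' h1
        _ = ENNReal.ofReal ((if s = 0 then 1 else G₀) * G ^ i) *
              ENNReal.ofReal (if α = 0 then G₀ * G else G) *
            (R i s * (if s < α then 1 + bd (α - 1) else 1) * Y α (c + 1 - α)) := by ring
        _ ≤ ENNReal.ofReal (G₀ * G ^ (i + 1)) * R (i + 1) (c + 1) := by
            refine mul_le_mul' ?_ h2
            rw [← ENNReal.ofReal_mul h0]
            exact ENNReal.ofReal_le_ofReal hg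
    · refine ⟨i, s, α, hsα, hαT.le, hαD, hlow, Or.inr ⟨hPα, hαP, ?_⟩, hstop α hsα hlow⟩
      intro c h1 h2 h3
      by_contra h4
      push Not at h4
      exact hc ⟨c, h1, h2, h3, h4⟩
  · push Not at hex
    refine ⟨i, s, T, hsT, le_rfl, ?_, hex, Or.inl rfl, hstop T hsT hex⟩
    by_contra h1
    push Not at h1
    obtain ⟨i', hi', h2⟩ := hD s h1.le
    exact h2 (hex _ (Nat.le_add_right _ _) (by omega))

/-- TC-PTG. The greedy chain (purely about sequences).

`P j`: the cell `j` is low; `x j`: the clock of the cell; `pm j`: the maximum of the record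
functional over the cell; `Bd j`: bad cell. A stretch starts at a cell `α` which is not low
(`α = 0` or `P (α-1)`) and ends with the first low cell `c > α` which is a record (`pm j ≤ pm c`
for all `j ∈ [α,c)`); then the run of low cells is skipped.

Proof. Call `s ≤ T` a restart if `s = 0` or `s = c + 1` where `c` is the end of a stretch of the
greedy chain. Let `x(s) = ∑ j < s, (if P j then 0 else x j)`, `W(0) = 1` and
`W(s) = 1 + (if Bd (s-1) then ofReal (exp β) else 0)` for `s > 0`. Claim, by strong induction along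
the chain: for every restart `s` which is reached there are `i, b` with
`ofReal (exp (c₁ x(s) + β b)) * W(s) ≤ ofReal (G₀ G^i) * R i s` (for `s = 0`: `i = b = 0`,
factor `1`) and
`i ≤ 1 + n(s) + b`, `n(s) = #{j | j + 1 < s, P j, ¬ P (j+1), ¬ Bd j}` (`i = 0` iff `s = 0`).
Step. Let `α ≥ s` be the first cell which is not low. If `α ≥ T` (or there is none before `T`): stop
with `α := T` (`T < s + D` by `hD`). Otherwise `α = 0` or `P (α-1)` (if `s < α` clear; if
`s = α > 0` then `α - 1 = s - 1` is the low end cell), and `α < s + D` by `hD`. If there is no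
record low cell in `(α,T)`: stop with this `α` (second alternative). Otherwise let `c` be the first
one; the new restart
is `c + 1 ≤ T`. `hR` (with `t = c + 1`) gives `R (i+1) (c+1) ≥ R i s * w * Y α (c+1-α)`; the bad
transition cell `α - 1` (if `α > 0` and `Bd (α-1)`) gives a factor `exp β`: from `w` if `s < α`,
from `W(s)` if `s = α`; so `b' = b + 1` if it is bad, and otherwise it is counted by `n`
(`j = α - 1`, `j + 1 = α < c + 1`; it is new because `j + 1 = α > s - 1`). `hcut` gives the clock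
of `[α,c)` and the new `W(c+1)`; the cells of
`[s,α)` and `c` are low and do not contribute to `x`. The factor `G₀` is needed only if `α = 0`.
At the stop: `x(α) = x(s)` (the cells in `[s,α)` are low) and `b ≥ i - 1 - n(s) ≥ i - 1 - Ng`,
`W(s) ≥ 1`. -/
theorem pat_greedy {T D : ℕ} (P : ℕ → Prop) (x pm : ℕ → ℝ) (Bd : ℕ → Prop) {c₁ β G G₀ : ℝ}
    (hβ : 0 ≤ β) (hG : 1 ≤ G) (hG₀ : 1 ≤ G₀) (Y R : ℕ → ℕ → ℝ≥0∞) (hR0 : 1 ≤ R 0 0)
    (hR : open Classical in ∀ i s α t, s ≤ α → α ≤ s + D → α < t →
      R i s * (if s < α then 1 + (if Bd (α - 1) then ENNReal.ofReal (Real.exp β) else 0) else 1) *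
        Y α (t - α) ≤ R (i + 1) t)
    (hcut : open Classical in ∀ α c, α < c → c < T → ¬ P α → (α = 0 ∨ P (α - 1)) → P c →
      (∀ j, α ≤ j → j < c → pm j ≤ pm c) →
      (∀ c', α < c' → c' < c → P c' → ∃ j, α ≤ j ∧ j < c' ∧ pm c' < pm j) →
      ENNReal.ofReal (Real.exp (c₁ * ∑ j ∈ Finset.Ico α c, if P j then 0 else x j)) *
          (1 + (if Bd c then ENNReal.ofReal (Real.exp β) else 0)) ≤
        ENNReal.ofReal (if α = 0 then G₀ * G else G) * Y α (c + 1 - α))
    (hD : ∀ s, s + D ≤ T → ∃ i < D, ¬ P (s + i)) :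
    ∃ i s α : ℕ, s ≤ α ∧ α ≤ T ∧ α ≤ s + D ∧ (∀ j, s ≤ j → j < α → P j) ∧
      (α = T ∨ (¬ P α ∧ (α = 0 ∨ P (α - 1)) ∧
        ∀ c, α < c → c < T → P c → ∃ j, α ≤ j ∧ j < c ∧ pm c < pm j)) ∧
      (open Classical in ENNReal.ofReal (Real.exp (c₁ * (∑ j ∈ Finset.range α,
          if P j then 0 else x j) + β * ((i : ℝ) - 1 -
            ((Finset.range (T - 1)).filter fun j => (P j ∧ ¬ P (j + 1)) ∧ ¬ Bd j).card))) ≤
        ENNReal.ofReal (G₀ * G ^ i) * R i s) := by
  classical
  have key := TCPTG_ind (T := T) (D := D) P (fun j => if P j then 0 else x j) pm Bd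
    (fun j => if Bd j then ENNReal.ofReal (Real.exp β) else 0)
    (fun s => ((Finset.range (s - 1)).filter fun j => (P j ∧ ¬ P (j + 1)) ∧ ¬ Bd j).card)
    (c₁ := c₁) hβ hG hG₀ Y R (fun j hj => if_pos hj) (fun j hj => if_pos hj) ?_ ?_ hR hcut hD T 0
    (Nat.zero_le _) rfl (Or.inl rfl) 0 0 (fun _ => rfl) (Nat.zero_le _) ?_
  · exact key
  · intro s t hst
    refine Finset.card_le_card (Finset.filter_subset_filter _ ?_)
    intro j hj
    rw [Finset.mem_range] at hj ⊢
    omega
  · intro s α c hsα hα hαc h1 h2 h3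
    rw [Nat.add_sub_cancel, ← Finset.card_insert_of_notMem (a := α - 1)]
    · refine Finset.card_le_card ?_
      intro j hj
      rw [Finset.mem_insert] at hj
      rw [Finset.mem_filter, Finset.mem_range]
      rcases hj with rfl | hj
      · refine ⟨by omega, ⟨h1, ?_⟩, h3⟩
        rw [Nat.sub_add_cancel hα]
        exact h2
      · rw [Finset.mem_filter, Finset.mem_range] at hj
        exact ⟨by omega, hj.2⟩
    · rw [Finset.mem_filter, Finset.mem_range]
      rintro ⟨h4, -⟩
      omega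
  · simp only [Finset.range_zero, Finset.sum_empty, mul_zero, Nat.cast_zero, add_zero,
      Real.exp_zero, ENNReal.ofReal_one, if_true, one_mul, pow_zero]
    exact hR0

end

end Pool.Agent.SLE
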