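import Pool.Agent.Lib.MP_c17912_pr_TC.CPR
import Pool.Agent.Lib.MP_c17912_pr_TC.PTG
import Pool.Agent.Lib.MP_c17912_pr_TC.CUT

set_option autoImplicit false

open MeasureTheory ProbabilityTheory Filter
open scoped NNReal ENNReal Topology Real

namespace Pool.Agent.SLE

noncomputable section

variable {Ω : Type*} [MeasurableSpace Ω] {μ : Measure Ω}

/-- The number of good transitions before time `T`. -/
def Ng {Ω : Type*} (U g : ℝ → ℂ) (Bd : ℕ → Set Ω) (ω : Ω) (T : ℕ) : ℕ :=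
  open Classical in ((Finset.range (T - 1)).filter fun j => tr U g 1 j ∧ ω ∉ Bd j).card

namespace TCPTC

/-- the property of the chains of stretches, for one path -/
def ChP (C c₁ : ℝ) (p : ℕ) (U : ℝ → ℂ) (ε β : ℝ) (B : ℕ → Prop) (Y : ℕ → ℕ → ℝ≥0∞) : Prop :=
  open Classical in ∀ (α t : ℕ) (z : ℂ) (g : ℝ → ℂ) (u₁ u₂ s e κ : ℝ), α < t →
    u₁ ∈ Set.Icc (α : ℝ) ((t : ℝ) - 1) → u₂ ∈ Set.Icc (t : ℝ) ((t : ℝ) + 1) →
    1 ≤ s → 1 ≤ e → 0 ≤ κ → Sol U z u₂ g → 1 ≤ ‖g α - U α‖ →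
    ‖g α - U α‖ ≤ s → 1 ≤ ‖g u₁ - U u₁‖ →
    (∀ u ∈ Set.Icc ((t : ℝ) - 1) t, ‖g u - U u‖ ≤ e) →
    (∀ u ∈ Set.Icc (α : ℝ) u₂, ph U g ε u ≤ ph U g ε u₁ + κ) →
    ph U g ε u₁ ≤ ph U g ε u₂ →
    ENNReal.ofReal (Real.exp (c₁ * lk U g α ((t : ℝ) - 1))) *
        (1 + (if B t then ENNReal.ofReal (Real.exp β) else 0)) ≤
      ENNReal.ofReal (C * (s * e * Real.exp κ) ^ p) * Y α (t + 1 - α)

/-- a cell which is not low -/
theorem ge_one {U g : ℝ → ℂ} {j : ℕ} (h : ¬ low U g 1 j) : 1 ≤ ‖g j - U j‖ := by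
  by_contra h5
  refine h ⟨j, ⟨?_, ?_⟩, (not_le.1 h5).le⟩
  · rw [one_pow, mul_one]
  · rw [one_pow, mul_one]
    linarith

/-- one stretch -/
theorem cut {C₀ c₁ : ℝ} {p : ℕ} {U : ℝ → ℂ} {ε β : ℝ} {B : ℕ → Prop} {Y : ℕ → ℕ → ℝ≥0∞}
    (hU : Continuous U) (hε : 0 < ε) (hε2 : ε ≤ 2) (hc₁ : 0 < c₁)
    (hY : ChP C₀ c₁ p U ε β B Y) {z : ℂ} {g : ℝ → ℂ} {us : ℝ} {α t : ℕ} {s e : ℝ} (hs : 1 ≤ s)
    (he : 1 ≤ e) (hαt : α < t) (ht : (t : ℝ) ≤ us) (ht1 : us ≤ (t : ℝ) + 1) (hg : Sol U z us g)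
    (hα : ¬ low U g 1 α) (hun : uncut U g ε α t) (hZ : ‖g α - U α‖ ≤ s)
    (he2 : ∀ u ∈ Set.Icc ((t : ℝ) - 1) t, ‖g u - U u‖ ≤ e)
    (hrec : ∀ u ∈ Set.Icc (α : ℝ) t, ph U g ε u ≤ ph U g ε us) :
    open Classical in ENNReal.ofReal (Real.exp (c₁ * ∑ j ∈ Finset.Ico α t,
        if low U g 1 j then 0 else lk U g (j : ℝ) ((j : ℝ) + 1))) *
        (1 + (if B t then ENNReal.ofReal (Real.exp β) else 0)) ≤
      ENNReal.ofReal (Real.exp c₁ * (C₀ * (s * e * Real.exp (4 + Real.log e)) ^ p)) *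
        Y α (t + 1 - α) := by
  classical
  obtain ⟨u₁, hu₁, u₂, hu₂, h1, h2, h3⟩ := cut_flag hU hε hε2 he hαt ht hg hα hun he2 hrec
  have le : 0 ≤ Real.log e := Real.log_nonneg he
  have h4 := hY α t z g u₁ u₂ s e (4 + Real.log e) hαt hu₁ ⟨hu₂.1, hu₂.2.trans ht1⟩ hs he
    (by linarith) (hg.restrict hu₂.2) (ge_one hα) hZ h1 he2 h2 h3
  have h5 := sum_le_lk hU hαt ht hg
  have h6 : Real.exp (c₁ * ∑ j ∈ Finset.Ico α t,
      (if low U g 1 j then 0 else lk U g (j : ℝ) ((j : ℝ) + 1))) ≤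
      Real.exp c₁ * Real.exp (c₁ * lk U g (α : ℝ) ((t : ℝ) - 1)) := by
    rw [← Real.exp_add]
    refine Real.exp_le_exp.2 ?_
    have h7 := mul_le_mul_of_nonneg_left h5 hc₁.le
    linarith
  refine (mul_le_mul_left (ENNReal.ofReal_le_ofReal h6) _).trans ?_
  rw [ENNReal.ofReal_mul (Real.exp_pos _).le, ENNReal.ofReal_mul (Real.exp_pos _).le, mul_assoc,
    mul_assoc]
  exact mul_le_mul_right h4 _

/-- a point of `[α,t]` is in a cell -/
theorem cell {α t : ℕ} (hαt : α < t) {u : ℝ} (hu : u ∈ Set.Icc (α : ℝ) t) :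
    ∃ j, α ≤ j ∧ j < t ∧ u ∈ Set.Icc (j : ℝ) ((j : ℝ) + 1) := by
  have hu0 : 0 ≤ u := (Nat.cast_nonneg α).trans hu.1
  rcases lt_or_ge ⌊u⌋₊ t with h | h
  · exact ⟨⌊u⌋₊, Nat.le_floor hu.1, h, Nat.floor_le hu0, (Nat.lt_floor_add_one u).le⟩
  · have h1 : (t : ℝ) ≤ u := (Nat.cast_le.2 h).trans (Nat.floor_le hu0)
    have h2 : ((t - 1 : ℕ) : ℝ) = (t : ℝ) - 1 := by
      rw [Nat.cast_sub (by omega), Nat.cast_one]
    refine ⟨t - 1, by omega, by omega, ?_, ?_⟩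
    · rw [h2]
      linarith
    · rw [h2]
      linarith [hu.2]

theorem XX_eq (U g : ℝ → ℂ) (M : ℕ) :
    XX U g 1 M = open Classical in ∑ j ∈ Finset.range M,
      if low U g 1 j then 0 else lk U g (j : ℝ) ((j : ℝ) + 1) := by
  unfold XX
  refine Finset.sum_congr rfl fun j _ => ?_
  rw [one_pow, mul_one, mul_one]

/-- the greedy chain of a solution -/
theorem greedy {C₀ c₁ : ℝ} {p : ℕ} {U : ℝ → ℂ} {ε β : ℝ} {Bd : ℕ → Set Ω} {ω : Ω}
    {R Y : ℕ → ℕ → ℝ≥0∞} (hU : Continuous U) (hU0 : U 0 = 0) (hε : 0 < ε) (hε2 : ε ≤ 2)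
    (hc₁ : 0 < c₁) (hC₀ : 1 ≤ C₀) (hβ : 0 ≤ β)
    (hY : ChP C₀ c₁ p U ε β (fun j => ω ∈ Bd j) Y) (hR0 : 1 ≤ R 0 0) {D : ℕ}
    (hR : open Classical in ∀ i s α t, s ≤ α → α ≤ s + D → α < t →
      R i s * (if s < α then
          1 + (if ω ∈ Bd (α - 1) then ENNReal.ofReal (Real.exp β) else 0) else 1) *
        Y α (t - α) ≤ R (i + 1) t)
    {m m₀ : ℝ} (hm : 1 ≤ m) (hm₀ : m ≤ m₀) {T : ℕ} {z : ℂ} {g : ℝ → ℂ} (hz : ‖z‖ ≤ m₀)
    (hg : Sol U z T g) (hosc : Osc U 1 m T)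
    (hrid : ∀ s, s + D ≤ T → ¬ rider U g 1 s D) :
    ∃ i s α : ℕ, s ≤ α ∧ α ≤ T ∧ α ≤ s + D ∧
      (α = T ∨ (¬ low U g 1 α ∧ (α = 0 ∨ low U g 1 (α - 1)) ∧ uncut U g ε α T)) ∧
      ENNReal.ofReal (Real.exp (c₁ * XX U g 1 α + β * ((i : ℝ) - 1 - Ng U g Bd ω T))) ≤
        ENNReal.ofReal (m₀ ^ p * (Real.exp c₁ *
          (C₀ * ((m + 3) * (2 * m + 5) * Real.exp (4 + Real.log (2 * m + 5))) ^ p)) ^ i) *
          R i s := by
  classical
  have hm₀1 : 1 ≤ m₀ := hm.trans hm₀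
  obtain ⟨Ek, hEk⟩ : ∃ Ek, Ek = Real.exp (4 + Real.log (2 * m + 5)) := ⟨_, rfl⟩
  have hEk1 : 1 ≤ Ek := by
    rw [hEk]
    refine Real.one_le_exp ?_
    have := Real.log_nonneg (by linarith : (1 : ℝ) ≤ 2 * m + 5)
    linarith
  rw [← hEk]
  obtain ⟨G, hG⟩ : ∃ G, G = Real.exp c₁ * (C₀ * ((m + 3) * (2 * m + 5) * Ek) ^ p) := ⟨_, rfl⟩
  rw [← hG]
  have hbase : 1 ≤ (m + 3) * (2 * m + 5) * Ek :=
    one_le_mul_of_one_le_of_one_le (one_le_mul_of_one_le_of_one_le (by linarith)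
      (by linarith)) hEk1
  have hexp1 : 1 ≤ Real.exp c₁ := Real.one_le_exp hc₁.le
  have hG1 : 1 ≤ G := by
    rw [hG]
    exact one_le_mul_of_one_le_of_one_le hexp1
      (one_le_mul_of_one_le_of_one_le hC₀ (one_le_pow₀ hbase))
  have hG₀1 : 1 ≤ m₀ ^ p := one_le_pow₀ hm₀1
  obtain ⟨hb1, hb2, -⟩ := cut_bounds hU hg hosc
  have hZ0 : ‖g ((0 : ℕ) : ℝ) - U ((0 : ℕ) : ℝ)‖ ≤ m₀ := by
    rw [Nat.cast_zero, hU0, sub_zero, hg.1]
    exact hz
  have hcut : ∀ α c, α < c → c < T → ¬ low U g 1 α → (α = 0 ∨ low U g 1 (α - 1)) →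
      low U g 1 c → (∀ j, α ≤ j → j < c → pm U g ε j ≤ pm U g ε c) →
      (∀ c', α < c' → c' < c → low U g 1 c' → ∃ j, α ≤ j ∧ j < c' ∧
        pm U g ε c' < pm U g ε j) →
      ENNReal.ofReal (Real.exp (c₁ * ∑ j ∈ Finset.Ico α c,
        if low U g 1 j then 0 else lk U g (j : ℝ) ((j : ℝ) + 1))) *
          (1 + (if ω ∈ Bd c then ENNReal.ofReal (Real.exp β) else 0)) ≤
        ENNReal.ofReal (if α = 0 then m₀ ^ p * G else G) * Y α (c + 1 - α) := by
    intro α c hαc hcT hα hα0 hc hpm hun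
    have hcT1 : (c : ℝ) + 1 ≤ T := by exact_mod_cast hcT
    obtain ⟨⟨us, hus, huse⟩, hmax⟩ := pm_spec (ε := ε) hU hg hcT1
    have hgus : Sol U z us g := hg.restrict (hus.2.trans hcT1)
    have hrec : ∀ u ∈ Set.Icc (α : ℝ) c, ph U g ε u ≤ ph U g ε us := by
      intro u hu
      obtain ⟨j, hj1, hj2, hj3⟩ := cell hαc hu
      have hjT : (j : ℝ) + 1 ≤ T := by
        have h7 : j + 1 ≤ T := by omega
        exact_mod_cast h7
      rw [huse]
      exact ((pm_spec (ε := ε) hU hg hjT).2 u hj3).trans (hpm j hj1 hj2)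
    have he2 := hb2 c (by omega) hcT hcT1 hc
    by_cases h0 : α = 0
    · have hZ : ‖g α - U α‖ ≤ m₀ := by
        rw [h0]
        exact hZ0
      have h8 := cut hU hε hε2 hc₁ hY hm₀1 (by linarith : (1 : ℝ) ≤ 2 * m + 5) hαc hus.1 hus.2
        hgus hα hun hZ he2 hrec
      refine h8.trans (mul_le_mul_left (ENNReal.ofReal_le_ofReal ?_) _)
      rw [if_pos h0, hG, ← hEk]
      have h9 : (m₀ * (2 * m + 5) * Ek) ^ p ≤ m₀ ^ p * ((m + 3) * (2 * m + 5) * Ek) ^ p := by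
        rw [← mul_pow]
        refine pow_le_pow_left₀ (by positivity) ?_ p
        have h10 : 0 ≤ m₀ * (2 * m + 5) * Ek := by positivity
        nlinarith
      calc Real.exp c₁ * (C₀ * (m₀ * (2 * m + 5) * Ek) ^ p)
          ≤ Real.exp c₁ * (C₀ * (m₀ ^ p * ((m + 3) * (2 * m + 5) * Ek) ^ p)) := by gcongr
        _ = _ := by ring
    · have h0' : 0 < α := Nat.pos_of_ne_zero h0
      have hl : low U g 1 (α - 1) := hα0.resolve_left h0
      have hZ : ‖g α - U α‖ ≤ m + 3 := by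
        refine hb1 α h0' (by omega) ?_ hl
        have h7 : α ≤ T := by omega
        exact_mod_cast h7
      have h8 := cut hU hε hε2 hc₁ hY (by linarith : (1 : ℝ) ≤ m + 3)
        (by linarith : (1 : ℝ) ≤ 2 * m + 5) hαc hus.1 hus.2 hgus hα hun hZ he2 hrec
      rw [if_neg h0, hG, hEk]
      exact h8
  have hDD : ∀ s, s + D ≤ T → ∃ i < D, ¬ low U g 1 (s + i) := by
    intro s hs
    have h1 := hrid s hs
    unfold rider at h1
    push Not at h1
    exact h1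
  obtain ⟨i, s, α, h1, h2, h3, -, h5, h6⟩ := pat_greedy (T := T) (D := D)
    (fun j => low U g 1 j) (fun j => lk U g (j : ℝ) ((j : ℝ) + 1)) (fun j => pm U g ε j)
    (fun j => ω ∈ Bd j) (c₁ := c₁) hβ hG1 hG₀1 Y R hR0 hR hcut hDD
  refine ⟨i, s, α, h1, h2, h3, h5, ?_⟩
  have h7 : Ng U g Bd ω T = ((Finset.range (T - 1)).filter fun j =>
      (low U g 1 j ∧ ¬ low U g 1 (j + 1)) ∧ ω ∉ Bd j).card := by
    unfold Ng
    exact congrArg Finset.card (Finset.filter_congr fun j _ => Iff.rfl)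
  rw [XX_eq, h7]
  exact h6

/-- the logarithm of the constant of a stretch -/
theorem logG {C₀ c₁ : ℝ} (p : ℕ) (hC₀ : 1 ≤ C₀) {s e S E : ℝ} (hs : 0 < s) (hsS : s ≤ S)
    (he : 0 < e) (heE : e ≤ E) :
    Real.log (Real.exp c₁ * (C₀ * (s * e * Real.exp (4 + Real.log e)) ^ p)) ≤
      c₁ + Real.log C₀ + p * (Real.log S + 2 * Real.log E + 4) := by
  have h1 : 0 < s * e * Real.exp (4 + Real.log e) := by positivity
  have h2 : 0 < C₀ := by linarith
  rw [Real.log_mul (Real.exp_ne_zero _) (by positivity), Real.log_exp,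
    Real.log_mul h2.ne' (by positivity), Real.log_pow,
    Real.log_mul (by positivity) (Real.exp_ne_zero _), Real.log_exp,
    Real.log_mul hs.ne' he.ne']
  have h3 := Real.log_le_log hs hsS
  have h4 := Real.log_le_log he heE
  have h5 : (p : ℝ) * (Real.log s + Real.log e + (4 + Real.log e)) ≤
      p * (Real.log S + 2 * Real.log E + 4) :=
    mul_le_mul_of_nonneg_left (by linarith) (Nat.cast_nonneg p)
  linarith

/-- the end of the computation -/
theorem fin {β v m₀ G H X n : ℝ} {p D : ℕ} (i k : ℕ) (hm₀ : 1 ≤ m₀) (hG : 1 ≤ G) (hH : 1 ≤ H)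
    (hb : ENNReal.ofReal (Real.exp (X + β * ((i : ℝ) - 1 - n))) ≤
      ENNReal.ofReal (m₀ ^ p * G ^ i * H) *
        ENNReal.ofReal (2 * Real.exp v * (4 * ((D : ℝ) + 1)) ^ (i + k)))
    (hβ : Real.log G + Real.log (4 * ((D : ℝ) + 1)) ≤ β) :
    X ≤ (n + 1) * β + k * Real.log (4 * ((D : ℝ) + 1)) + p * Real.log m₀ + Real.log H +
      Real.log 2 + v := by
  have hP1 : 0 < m₀ ^ p * G ^ i * H := by positivity
  have hP2 : 0 < 2 * Real.exp v * (4 * ((D : ℝ) + 1)) ^ (i + k) := by positivity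
  have hm₀0 : 0 < m₀ := by linarith
  have hG0 : 0 < G := by linarith
  have hH0 : 0 < H := by linarith
  rw [← ENNReal.ofReal_mul hP1.le, ENNReal.ofReal_le_ofReal_iff (mul_pos hP1 hP2).le] at hb
  have hlog := Real.log_le_log (Real.exp_pos _) hb
  rw [Real.log_exp, Real.log_mul hP1.ne' hP2.ne', Real.log_mul (by positivity) (by positivity),
    Real.log_mul (by positivity) (by positivity),
    Real.log_mul (by positivity) (by positivity), Real.log_mul (by norm_num) (Real.exp_ne_zero _),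
    Real.log_exp, Real.log_pow, Real.log_pow, Real.log_pow] at hlog
  push_cast at hlog
  have h1 : (i : ℝ) * (Real.log G + Real.log (4 * ((D : ℝ) + 1))) ≤ i * β :=
    mul_le_mul_of_nonneg_left hβ (Nat.cast_nonneg i)
  nlinarith

end TCPTC

/-- TC-PTC. The pattern bound of the critical case (scale `1`). (1) The clock (of the cells which are
not low) is at most `(good transitions + 1) β + ..`, up to the start `α` of the last stretch, which is
uncut (or `α = T`). (2) If `ph` has a record at the time `us ∈ [T,T+1]` (over all of `[0,us]`), the last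
stretch is not needed.

Proof. Let `C₀ c₁ p`, `R`, `Y`, `A` be as in `chain_prob`. Apply `pat_greedy` with `P j = low U g 1 j`,
`x j = lk U g j (j+1)`, `pm j = pm U g ε j`, `Bd j = (ω ∈ Bd j)`,
`G = C₀ ((m+3) (2m+5) exp (4 + log (2m+5)))^p exp c₁`, `G₀ = m₀ ^ p` (times a constant).
`hcut`: let `us ∈ [c,c+1]` with `ph us = pm c` (`pm_spec`); `cut_flag` with `t = c`, `e = 2m+5`
(`cut_bounds`); `hrec` holds since `pm j ≤ pm c`. Then the last property of `chain_prob` with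
`t = c`, `s = m + 3` (`α > 0`) or `s = max 1 m₀`-ish (`α = 0`, `|Z_0| ≤ m₀`), `κ = 4 + log e`, and
`sum_le_lk`. (`Sol` is restricted to `[0,u₂]`.)
(1) `R i s ≤ 2 exp v (4 (D+1))^i`; take logarithms: `c₁ XX α + β (i - 1 - Ng) ≤ log G₀ + i log G + log 2 + v +
i log (4 (D+1))`; since `log G + log (4 (D+1)) ≤ C (log m + log D + 1) ≤ β` this is
`c₁ XX α ≤ (Ng + 1) β + log G₀ + log 2 + v`. Start bound of the last stretch: `cut_bounds`.
(2) If `α = T`: done as in (1) (`XX T = XX α`). Otherwise `cut_flag` with `t = T`, `us`, `e = 2 m₀ + m + 3 ≤ 6 m₀`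
(third part of `cut_bounds`), and `hR` with `t = T + 1`: `R i s * w * Y α (T+1-α) ≤ R (i+1) (T+1)`, `w ≥ 1`; so
the clock of `[α,T)` is controlled too, with a factor `C₀ (m₀ ..)^p` more, and `i + 1` stretches. -/
theorem patC [IsProbabilityMeasure μ] {a b c K : ℝ} (ha : 0 ≤ a) (hb : 0 ≤ b)
    (hc : c ^ 2 ≤ a * b) (hK : 0 ≤ K) (hC : HasC a b c) :
    ∃ ε₀ : ℝ, 0 < ε₀ ∧ ε₀ ≤ 1 ∧ ∀ ε : ℝ, 0 < ε → ε ≤ ε₀ →
      ∃ C c₁ : ℝ, 1 ≤ C ∧ 0 < c₁ ∧ ∀ W : ℝ → Ω → ℂ, Gau a b c K W μ →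
        ∀ (m m₀ β v : ℝ) (D : ℕ) (Bd : ℕ → Set Ω), 1 ≤ m → m ≤ m₀ → 1 ≤ D → 0 ≤ v →
          C * (Real.log m + Real.log D + 1) ≤ β →
          (∀ j : ℕ, MeasurableSet[Blk W j ((j : ℝ) + 1)] (Bd j)) →
          (∀ j, μ (Bd j) ≤ ENNReal.ofReal (Real.exp (-(2 * β)))) →
          ∃ A, MeasurableSet A ∧ μ A ≤ ENNReal.ofReal (Real.exp (-v)) ∧ ∀ ω ∉ A,
            (∀ (T : ℕ) (z : ℂ) (g : ℝ → ℂ), ‖z‖ ≤ m₀ → Sol (fun t => W t ω) z T g →
              Osc (fun t => W t ω) 1 m T →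
              (∀ s, s + D ≤ T → ¬ rider (fun t => W t ω) g 1 s D) →
              ∃ α : ℕ, α ≤ T ∧
                c₁ * XX (fun t => W t ω) g 1 α ≤
                  (Ng (fun t => W t ω) g Bd ω T + 1) * β + C * (Real.log m₀ + 1) + v ∧
                (α = T ∨ (¬ low (fun t => W t ω) g 1 α ∧ ‖g α - W α ω‖ ≤ m₀ + 3 ∧
                  uncut (fun t => W t ω) g ε α T))) ∧
            ∀ (T : ℕ) (us : ℝ) (z : ℂ) (g : ℝ → ℂ), us ∈ Set.Icc (T : ℝ) ((T : ℝ) + 1) →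
              ‖z‖ ≤ m₀ → Sol (fun t => W t ω) z us g → ‖g T - W T ω‖ ≤ m₀ →
              Osc (fun t => W t ω) 1 m T →
              (∀ s, s + D ≤ T → ¬ rider (fun t => W t ω) g 1 s D) →
              (∀ u ∈ Set.Icc (0 : ℝ) us,
                ph (fun t => W t ω) g ε u ≤ ph (fun t => W t ω) g ε us) →
              c₁ * XX (fun t => W t ω) g 1 T ≤
                (Ng (fun t => W t ω) g Bd ω T + 2) * β + C * (Real.log m₀ + 1) + v := by
  classical
  obtain ⟨ε₀, hε₀, hε₀1, H⟩ := chain_prob (μ := μ) ha hb hc hK hC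
  refine ⟨ε₀, hε₀, hε₀1, fun ε hε hεε => ?_⟩
  obtain ⟨C₀, c₁, p, hC₀, hc₁, H2⟩ := H ε hε hεε
  have hε2 : ε ≤ 2 := by linarith
  have l1 : 0 ≤ Real.log C₀ := Real.log_nonneg hC₀
  have l2 : 0 ≤ Real.log 4 := Real.log_nonneg (by norm_num)
  have l3 : 0 ≤ Real.log 5 := Real.log_nonneg (by norm_num)
  have l4 : 0 ≤ Real.log 7 := Real.log_nonneg (by norm_num)
  have l5 : 0 ≤ Real.log 8 := Real.log_nonneg (by norm_num)
  have l6 : 0 ≤ Real.log 2 := Real.log_nonneg (by norm_num)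
  have hp0 : (0 : ℝ) ≤ p := Nat.cast_nonneg p
  have l7 : 0 ≤ p * Real.log 4 := mul_nonneg hp0 l2
  have l8 : 0 ≤ p * Real.log 5 := mul_nonneg hp0 l3
  have l9 : 0 ≤ p * Real.log 7 := mul_nonneg hp0 l4
  obtain ⟨C, hCd⟩ : ∃ C, C = 1 + c₁ + Real.log C₀ + p * Real.log 4 + 2 * (p * Real.log 7) +
    2 * (p * Real.log 5) + 8 * p + Real.log 8 + Real.log 2 := ⟨_, rfl⟩
  have hC1 : 1 ≤ C := by
    rw [hCd]
    linarith
  refine ⟨C, c₁, hC1, hc₁, fun W hW m m₀ β v D Bd hm hm₀ hD hv hβ hBm hBp => ?_⟩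
  have hm₀1 : 1 ≤ m₀ := hm.trans hm₀
  have hD1 : (1 : ℝ) ≤ D := by exact_mod_cast hD
  have lm : 0 ≤ Real.log m := Real.log_nonneg hm
  have lm₀ : 0 ≤ Real.log m₀ := Real.log_nonneg hm₀1
  have lD : 0 ≤ Real.log D := Real.log_nonneg hD1
  have lDD : 0 ≤ Real.log (4 * ((D : ℝ) + 1)) := Real.log_nonneg (by linarith)
  have hβ0 : 0 ≤ β := le_trans (by positivity) hβ
  obtain ⟨A, hAm, hAp, hA⟩ := H2 W hW β v D Bd hβ0 hBm hBp
  refine ⟨A, hAm, hAp, fun ω hω => ?_⟩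
  obtain ⟨R, Y, hR0, hR, hRb, hY⟩ := hA ω hω
  have hU : Continuous fun t => W t ω := hW.cont ω
  have hU0 : (fun t => W t ω) 0 = 0 := hW.zero 0 le_rfl ω
  have hY' : TCPTC.ChP C₀ c₁ p (fun t => W t ω) ε β (fun j => ω ∈ Bd j) Y := hY
  obtain ⟨G, hG⟩ : ∃ G, G = Real.exp c₁ *
    (C₀ * ((m + 3) * (2 * m + 5) * Real.exp (4 + Real.log (2 * m + 5))) ^ p) := ⟨_, rfl⟩
  have hcst : ∀ s e : ℝ, 1 ≤ s → 1 ≤ e →
      1 ≤ Real.exp c₁ * (C₀ * (s * e * Real.exp (4 + Real.log e)) ^ p) := by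
    intro s e hs he
    have h1 : 1 ≤ Real.exp (4 + Real.log e) := by
      refine Real.one_le_exp ?_
      have := Real.log_nonneg he
      linarith
    exact one_le_mul_of_one_le_of_one_le (Real.one_le_exp hc₁.le)
      (one_le_mul_of_one_le_of_one_le hC₀ (one_le_pow₀ (one_le_mul_of_one_le_of_one_le
        (one_le_mul_of_one_le_of_one_le hs he) h1)))
  have hG1 : 1 ≤ G := by
    rw [hG]
    exact hcst _ _ (by linarith) (by linarith)
  have e3 : Real.log (4 * ((D : ℝ) + 1)) ≤ Real.log 8 + Real.log D := by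
    rw [← Real.log_mul (by norm_num) (by positivity)]
    exact Real.log_le_log (by positivity) (by linarith)
  have hGβ : Real.log G + Real.log (4 * ((D : ℝ) + 1)) ≤ β := by
    have h1 := TCPTC.logG (c₁ := c₁) p hC₀ (by linarith : 0 < m + 3)
      (by linarith : m + 3 ≤ 4 * m) (by linarith : 0 < 2 * m + 5)
      (by linarith : 2 * m + 5 ≤ 7 * m)
    rw [← hG, Real.log_mul (by norm_num) (by positivity),
      Real.log_mul (by norm_num) (by positivity)] at h1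
    have h2 : 3 * p * Real.log m ≤ C * Real.log m :=
      mul_le_mul_of_nonneg_right (by rw [hCd]; linarith) lm
    have h3 : 1 * Real.log D ≤ C * Real.log D := mul_le_mul_of_nonneg_right hC1 lD
    have h4 : c₁ + Real.log C₀ + p * Real.log 4 + 2 * (p * Real.log 7) + 4 * p +
        Real.log 8 ≤ C := by
      rw [hCd]
      linarith
    linarith
  have hDβ : Real.log (4 * ((D : ℝ) + 1)) ≤ β := by
    have := Real.log_nonneg hG1
    linarith
  constructor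
  · intro T z g hz hg hosc hrid
    obtain ⟨i, s, α, h1, h2, h3, h4, h5⟩ := TCPTC.greedy hU hU0 hε hε2 hc₁ hC₀ hβ0 hY' hR0 hR
      hm hm₀ hz hg hosc hrid
    rw [← hG] at h5
    refine ⟨α, h2, ?_, ?_⟩
    · have h6 := h5.trans (mul_le_mul_right (hRb i s) _)
      have h7 := TCPTC.fin (β := β) (v := v) (H := 1) (D := D) i 0 hm₀1 hG1 le_rfl
        (by rw [mul_one, add_zero]; exact h6) hGβ
      have h8 : (p : ℝ) * Real.log m₀ + Real.log 2 ≤ C * (Real.log m₀ + 1) := by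
        have h9 : (p : ℝ) * Real.log m₀ ≤ C * Real.log m₀ :=
          mul_le_mul_of_nonneg_right (by rw [hCd]; linarith) lm₀
        have h10 : Real.log 2 ≤ C := by
          rw [hCd]
          linarith
        linarith
      rw [Real.log_one] at h7
      push_cast at h7
      linarith
    · rcases h4 with h4 | ⟨h6, h7, h8⟩
      · exact Or.inl h4
      · refine Or.inr ⟨h6, ?_, h8⟩
        rcases Nat.eq_zero_or_pos α with h0 | h0
        · rw [h0, Nat.cast_zero, hW.zero 0 le_rfl ω, sub_zero, hg.1]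
          linarith
        · have h9 : (α : ℝ) ≤ T := by exact_mod_cast h2
          have h10 := (cut_bounds hU hg hosc).1 α h0 h2 h9 (h7.resolve_left (by omega))
          linarith
  · intro T us z g hus hz hg hgT hosc hrid hrec
    have hgT' : Sol (fun t => W t ω) z T g := hg.restrict hus.1
    obtain ⟨i, s, α, h1, h2, h3, h4, h5⟩ := TCPTC.greedy hU hU0 hε hε2 hc₁ hC₀ hβ0 hY' hR0 hR
      hm hm₀ hz hgT' hosc hrid
    rw [← hG] at h5
    by_cases hαT : α = T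
    · have h6 := h5.trans (mul_le_mul_right (hRb i s) _)
      have h7 := TCPTC.fin (β := β) (v := v) (H := 1) (D := D) i 0 hm₀1 hG1 le_rfl
        (by rw [mul_one, add_zero]; exact h6) hGβ
      have h8 : (p : ℝ) * Real.log m₀ + Real.log 2 ≤ C * (Real.log m₀ + 1) := by
        have h9 : (p : ℝ) * Real.log m₀ ≤ C * Real.log m₀ :=
          mul_le_mul_of_nonneg_right (by rw [hCd]; linarith) lm₀
        have h10 : Real.log 2 ≤ C := by
          rw [hCd]
          linarith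
        linarith
      rw [Real.log_one, hαT] at h7
      push_cast at h7
      linarith
    · obtain ⟨h6, h7, h8⟩ := h4.resolve_left hαT
      have hαT' : α < T := lt_of_le_of_ne h2 hαT
      have hαTr : (α : ℝ) ≤ T := by exact_mod_cast h2
      have hZ : ‖g α - W α ω‖ ≤ m₀ + 3 := by
        rcases Nat.eq_zero_or_pos α with h0 | h0
        · rw [h0, Nat.cast_zero, hW.zero 0 le_rfl ω, sub_zero, hg.1]
          linarith
        · have h10 := (cut_bounds hU hgT' hosc).1 α h0 h2 hαTr (h7.resolve_left (by omega))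
          linarith
      have he2 : ∀ u ∈ Set.Icc ((T : ℝ) - 1) T, ‖g u - W u ω‖ ≤ m₀ + m + 3 := by
        intro u hu
        have h10 := (cut_bounds hU hgT' hosc).2.2 T (by omega) le_rfl le_rfl u hu
        linarith
      obtain ⟨Hc, hHc⟩ : ∃ Hc, Hc = Real.exp c₁ * (C₀ * ((m₀ + 3) * (m₀ + m + 3) *
        Real.exp (4 + Real.log (m₀ + m + 3))) ^ p) := ⟨_, rfl⟩
      have hHc1 : 1 ≤ Hc := by
        rw [hHc]
        exact hcst _ _ (by linarith) (by linarith)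
      have h9 := TCPTC.cut hU hε hε2 hc₁ hY' (by linarith : (1 : ℝ) ≤ m₀ + 3)
        (by linarith : (1 : ℝ) ≤ m₀ + m + 3) hαT' hus.1 hus.2 hg h6 h8 hZ he2
        (fun u hu => hrec u ⟨(Nat.cast_nonneg α).trans hu.1, hu.2.trans hus.1⟩)
      rw [← hHc] at h9
      have h10 := hR i s α (T + 1) h1 h3 (by omega)
      have hXX : XX (fun t => W t ω) g 1 T = XX (fun t => W t ω) g 1 α +
          ∑ j ∈ Finset.Ico α T, (if low (fun t => W t ω) g 1 j then 0 else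
            lk (fun t => W t ω) g (j : ℝ) ((j : ℝ) + 1)) := by
        rw [TCPTC.XX_eq, TCPTC.XX_eq, ← Finset.sum_range_add_sum_Ico _ h2]
      have h11 : ENNReal.ofReal (Real.exp (c₁ * XX (fun t => W t ω) g 1 T +
          β * ((i : ℝ) - 1 - Ng (fun t => W t ω) g Bd ω T))) ≤
          ENNReal.ofReal (m₀ ^ p * G ^ i * Hc) *
            ENNReal.ofReal (2 * Real.exp v * (4 * ((D : ℝ) + 1)) ^ (i + 1)) := by
        have e1 : c₁ * XX (fun t => W t ω) g 1 T +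
            β * ((i : ℝ) - 1 - Ng (fun t => W t ω) g Bd ω T) =
            (c₁ * XX (fun t => W t ω) g 1 α +
              β * ((i : ℝ) - 1 - Ng (fun t => W t ω) g Bd ω T)) +
            c₁ * ∑ j ∈ Finset.Ico α T, (if low (fun t => W t ω) g 1 j then 0 else
              lk (fun t => W t ω) g (j : ℝ) ((j : ℝ) + 1)) := by
          rw [hXX]
          ring
        rw [e1, Real.exp_add, ENNReal.ofReal_mul (Real.exp_pos _).le]
        have h12 : ENNReal.ofReal (Real.exp (c₁ * ∑ j ∈ Finset.Ico α T,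
            (if low (fun t => W t ω) g 1 j then 0 else
              lk (fun t => W t ω) g (j : ℝ) ((j : ℝ) + 1)))) ≤
            ENNReal.ofReal Hc * Y α (T + 1 - α) := by
          refine le_trans ?_ h9
          exact le_mul_of_one_le_right zero_le le_self_add
        have h13 : R i s * Y α (T + 1 - α) ≤ R (i + 1) (T + 1) := by
          refine le_trans ?_ h10
          refine mul_le_mul_left ?_ _
          refine le_mul_of_one_le_right zero_le ?_
          split_ifs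
          · exact le_self_add
          · exact le_self_add
          · exact le_rfl
        calc _ ≤ (ENNReal.ofReal (m₀ ^ p * G ^ i) * R i s) *
              (ENNReal.ofReal Hc * Y α (T + 1 - α)) := mul_le_mul' h5 h12
          _ = (ENNReal.ofReal (m₀ ^ p * G ^ i) * ENNReal.ofReal Hc) *
              (R i s * Y α (T + 1 - α)) := by ring
          _ ≤ (ENNReal.ofReal (m₀ ^ p * G ^ i) * ENNReal.ofReal Hc) *
              ENNReal.ofReal (2 * Real.exp v * (4 * ((D : ℝ) + 1)) ^ (i + 1)) :=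
            mul_le_mul_right (h13.trans (hRb _ _)) _
          _ = _ := by
            rw [ENNReal.ofReal_mul (by positivity : 0 ≤ m₀ ^ p * G ^ i)]
      have h12 := TCPTC.fin (β := β) (v := v) (D := D) i 1 hm₀1 hG1 hHc1 h11 hGβ
      have h13 := TCPTC.logG (c₁ := c₁) p hC₀ (by linarith : 0 < m₀ + 3)
        (by linarith : m₀ + 3 ≤ 4 * m₀) (by linarith : 0 < m₀ + m + 3)
        (by linarith : m₀ + m + 3 ≤ 5 * m₀)
      rw [← hHc, Real.log_mul (by norm_num) (by positivity),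
        Real.log_mul (by norm_num) (by positivity)] at h13
      have h14 : 4 * p * Real.log m₀ ≤ C * Real.log m₀ :=
        mul_le_mul_of_nonneg_right (by rw [hCd]; linarith) lm₀
      have h15 : c₁ + Real.log C₀ + p * Real.log 4 + 2 * (p * Real.log 5) + 4 * p +
          Real.log 2 ≤ C := by
        rw [hCd]
        linarith
      push_cast at h12
      linarith

end

end Pool.Agent.SLE
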