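import Pool.Agent.Lib.MP_c17912_pr_TC.Base

set_option autoImplicit false

open MeasureTheory ProbabilityTheory Filter
open scoped NNReal ENNReal Topology Real

namespace Pool.Agent.SLE

noncomputable section

/-- The function of the angle used for a real driving process: `(P / m) (sin² θ + η)^m`. -/
def rps (P m η θ : ℝ) : ℝ := P / m * (Real.sin θ ^ 2 + η) ^ m

private theorem TCREA_X_pos {η : ℝ} (hη : 0 < η) (θ : ℝ) : 0 < Real.sin θ ^ 2 + η := by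
  positivity

private theorem TCREA_d0 {η : ℝ} (θ : ℝ) : HasDerivAt (fun θ : ℝ => Real.sin θ ^ 2 + η)
    (2 * Real.sin θ * Real.cos θ) θ := by
  have h := ((Real.hasDerivAt_sin θ).pow 2).add_const η
  refine h.congr_deriv ?_
  simp only [Nat.cast_ofNat, Nat.add_one_sub_one, pow_one]

private theorem TCREA_d1 (P : ℝ) {m η : ℝ} (hη : 0 < η) (hm : m ≠ 0) (θ : ℝ) :
    HasDerivAt (rps P m η)
      (2 * P * (Real.sin θ * Real.cos θ) * (Real.sin θ ^ 2 + η) ^ (m - 1)) θ := by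
  have h := ((TCREA_d0 (η := η) θ).rpow_const (p := m)
    (Or.inl (TCREA_X_pos hη θ).ne')).const_mul (P / m)
  refine h.congr_deriv ?_
  field_simp

private theorem TCREA_d2 (P : ℝ) {m η : ℝ} (hη : 0 < η) (hm : m ≠ 0) (θ : ℝ) :
    deriv (deriv (rps P m η)) θ = 2 * P * (Real.cos θ ^ 2 - Real.sin θ ^ 2) *
        (Real.sin θ ^ 2 + η) ^ (m - 1) +
      4 * P * (m - 1) * (Real.sin θ ^ 2 * Real.cos θ ^ 2) *
        (Real.sin θ ^ 2 + η) ^ (m - 1 - 1) := by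
  have e : deriv (rps P m η) = fun θ =>
      2 * P * (Real.sin θ * Real.cos θ) * (Real.sin θ ^ 2 + η) ^ (m - 1) :=
    funext fun θ => (TCREA_d1 P hη hm θ).deriv
  rw [e]
  have h1 := (((Real.hasDerivAt_sin θ).mul (Real.hasDerivAt_cos θ)).const_mul (2 * P)).mul
    ((TCREA_d0 (η := η) θ).rpow_const (p := m - 1) (Or.inl (TCREA_X_pos hη θ).ne'))
  refine h1.deriv.trans ?_
  simp only [Pi.mul_apply]
  ring

/-- TC-REA1. Smoothness and periodicity. -/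
theorem rps_smooth (P m : ℝ) {η : ℝ} (hη : 0 < η) : ContDiff ℝ 3 (rps P m η) := by
  unfold rps
  refine contDiff_const.mul (ContDiff.rpow_const_of_ne ?_ fun θ => (TCREA_X_pos hη θ).ne')
  exact (Real.contDiff_sin.pow 2).add contDiff_const

theorem rps_per (P m η : ℝ) : Function.Periodic (rps P m η) (2 * π) := by
  intro θ
  unfold rps
  rw [Real.sin_add_two_pi]

/-- TC-REA2. The generator for a real driving process (`b = c = 0`), with `x = sin² θ`,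
`r = x / (x + η)`, `E = (x + η)^m`.

Proof. For `ψ = g (sin² θ)`: `ψ' = g' sin 2θ`, `ψ'' = g'' sin² 2θ + 2 g' cos 2θ`,
`sin² 2θ = 4 x (1 - x)`, `cos 2θ = 1 - 2x`; `Vth = a x`, `Bth = (a - 4) / 2 sin 2θ`,
`H1 = (4 - a) / 2 (1 - 2x)`, `Vr = a (1 - x)`, `Cv = -(a / 2) sin 2θ`. So
`Op = 2 a x² (1-x) (g'' + g'²) + x g' (3a - 8 - (4a - 8) x - 2 α a (1-x)) + α (4-a)/2 (1-2x)
+ a α² (1-x) / 2`; for `g = (P/m) (x+η)^m`: `x g' = P r E`, `x² g'' = -(1-m) P r² E`,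
`x² g'² = P² r² E²`. -/
theorem Op_rps (a α P m : ℝ) {η : ℝ} (hη : 0 < η) (hm : m ≠ 0) (θ : ℝ) :
    Op a 0 0 α (rps P m η) θ =
      2 * a * (1 - Real.sin θ ^ 2) *
          (-(1 - m) * P * (Real.sin θ ^ 2 / (Real.sin θ ^ 2 + η)) ^ 2 *
              (Real.sin θ ^ 2 + η) ^ m +
            P ^ 2 * (Real.sin θ ^ 2 / (Real.sin θ ^ 2 + η)) ^ 2 *
              ((Real.sin θ ^ 2 + η) ^ m) ^ 2) +
        P * (Real.sin θ ^ 2 / (Real.sin θ ^ 2 + η)) * (Real.sin θ ^ 2 + η) ^ m *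
          (3 * a - 8 - (4 * a - 8) * Real.sin θ ^ 2 -
            2 * α * a * (1 - Real.sin θ ^ 2)) +
        α * (4 - a) / 2 * (1 - 2 * Real.sin θ ^ 2) +
        a * α ^ 2 * (1 - Real.sin θ ^ 2) / 2 := by
  have hX := TCREA_X_pos hη θ
  have hc : Real.cos θ ^ 2 = 1 - Real.sin θ ^ 2 := by
    have := Real.sin_sq_add_cos_sq θ
    linarith
  unfold Op Vth Bth H1 Vr Cv
  rw [TCREA_d2 P hη hm θ, (TCREA_d1 P hη hm θ).deriv, Real.rpow_sub_one hX.ne' (m - 1),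
    Real.rpow_sub_one hX.ne' m, Real.sin_two_mul, Real.cos_two_mul']
  obtain ⟨s, hs⟩ : ∃ s, s = Real.sin θ := ⟨_, rfl⟩
  obtain ⟨c, hcc⟩ : ∃ c, c = Real.cos θ := ⟨_, rfl⟩
  obtain ⟨E, hE⟩ : ∃ E, E = (Real.sin θ ^ 2 + η) ^ m := ⟨_, rfl⟩
  obtain ⟨X, hXX⟩ : ∃ X, X = Real.sin θ ^ 2 + η := ⟨_, rfl⟩
  rw [← hE, ← hXX, ← hs, ← hcc]
  rw [← hs, ← hcc] at hc
  linear_combination (a * s ^ 2 * P * E / X + 2 * a * P * (m - 1) * s ^ 4 * E / X ^ 2 +
    2 * P * (a - 4) * s ^ 2 * E / X - 2 * α * a * P * s ^ 2 * E / X +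
    2 * a * P ^ 2 * s ^ 4 * E ^ 2 / X ^ 2 + α ^ 2 * a / 2 + α * (4 - a) / 2) * hc

/-- TC-REA3. The cutoff: for all small `m` and then small `η`, with `r = x / (x + η)`,
`E = (x + η)^m`, `ζ = r E`: `0 ≤ ζ ≤ 1 + t`, `r E (1 - r + m r) ≤ t` on `[0,1]`, and `|ζ - 1| ≤ t`
for `x ≥ 1/4`.

Proof. `r (1-r) E = x η (x+η)^(m-2) ≤ η (x+η)^(m-1) ≤ η^m`, `E ≤ 2`, so `r E (1 - r + m r) ≤ η^m + 2m`;
`ζ ≤ (1+η)^m ≤ 1 + η`; for `x ≥ 1/4`: `r ≥ 1 - 4η`, `E ≥ (1/4)^m ≥ 1 - 2m` (`log 4 ≤ 2`). Take `m = t/8`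
(at most `1/2`) and `η` with `η^m ≤ t/2`, `4η ≤ t/4`. -/
theorem cutoff {t : ℝ} (ht : 0 < t) : ∃ m η : ℝ, 0 < m ∧ m < 1 ∧ 0 < η ∧ η ≤ 1 ∧
    ∀ x : ℝ, 0 ≤ x → x ≤ 1 → 0 ≤ x / (x + η) * (x + η) ^ m ∧
      x / (x + η) * (x + η) ^ m ≤ 1 + t ∧
      x / (x + η) * (x + η) ^ m * (1 - x / (x + η) + m * (x / (x + η))) ≤ t ∧
      (1 / 4 ≤ x → |x / (x + η) * (x + η) ^ m - 1| ≤ t) := by
  obtain ⟨m, hm⟩ : ∃ m : ℝ, m = min (t / 8) (1 / 2) := ⟨_, rfl⟩
  have hm0 : 0 < m := by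
    rw [hm]
    exact lt_min (by positivity) (by norm_num)
  have hm8 : m ≤ t / 8 := hm ▸ min_le_left _ _
  have hm2 : m ≤ 1 / 2 := hm ▸ min_le_right _ _
  obtain ⟨η, hη⟩ : ∃ η : ℝ, η = min 1 (min (t / 16) ((t / 2) ^ (1 / m))) := ⟨_, rfl⟩
  have ht2 : 0 < (t / 2) ^ (1 / m) := Real.rpow_pos_of_pos (by positivity) _
  have hη0 : 0 < η := by
    rw [hη]
    exact lt_min one_pos (lt_min (by positivity) ht2)
  have hη1 : η ≤ 1 := hη ▸ min_le_left _ _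
  have hη16 : η ≤ t / 16 := hη ▸ (min_le_right _ _).trans (min_le_left _ _)
  have hηt : η ≤ (t / 2) ^ (1 / m) := hη ▸ (min_le_right _ _).trans (min_le_right _ _)
  have hηm : η ^ m ≤ t / 2 := by
    refine (Real.rpow_le_rpow hη0.le hηt hm0.le).trans (le_of_eq ?_)
    rw [← Real.rpow_mul (by positivity), one_div_mul_cancel hm0.ne', Real.rpow_one]
  refine ⟨m, η, hm0, by linarith, hη0, hη1, fun x hx0 hx1 => ?_⟩
  obtain ⟨X, hX⟩ : ∃ X, X = x + η := ⟨_, rfl⟩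
  have hXη : η ≤ X := by linarith
  have hX0 : 0 < X := by linarith
  obtain ⟨E, hE⟩ : ∃ E, E = X ^ m := ⟨_, rfl⟩
  have hE0 : 0 ≤ E := hE ▸ Real.rpow_nonneg hX0.le _
  obtain ⟨r, hr⟩ : ∃ r, r = x / X := ⟨_, rfl⟩
  have hr0 : 0 ≤ r := hr ▸ div_nonneg hx0 hX0.le
  have hr1 : r ≤ 1 := by
    rw [hr, div_le_one hX0]
    linarith
  rw [← hX, ← hE, ← hr]
  have hE1 : E ≤ 1 + η := by
    rw [hE]
    calc X ^ m ≤ (1 + η) ^ m := Real.rpow_le_rpow hX0.le (by linarith) hm0.le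
      _ ≤ (1 + η) ^ (1 : ℝ) := Real.rpow_le_rpow_of_exponent_le (by linarith) (by linarith)
      _ = 1 + η := Real.rpow_one _
  have hrE : r * E ≤ E := by nlinarith
  have hr' : 1 - r = η / X := by
    rw [hr, hX]
    field_simp
    ring
  have h1 : (1 - r) * E ≤ η ^ m := by
    rw [hr', div_mul_eq_mul_div, div_le_iff₀ hX0, hE]
    have e1 : η = η ^ m * η ^ (1 - m) := by
      rw [← Real.rpow_add hη0]
      simp
    have e2 : X = X ^ m * X ^ (1 - m) := by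
      rw [← Real.rpow_add hX0]
      simp
    have e3 : η ^ (1 - m) ≤ X ^ (1 - m) := Real.rpow_le_rpow hη0.le hXη (by linarith)
    have e4 : 0 ≤ η ^ m * X ^ m :=
      mul_nonneg (Real.rpow_nonneg hη0.le _) (Real.rpow_nonneg hX0.le _)
    calc η * X ^ m = η ^ m * η ^ (1 - m) * X ^ m := by rw [← e1]
      _ = η ^ m * X ^ m * η ^ (1 - m) := by ring
      _ ≤ η ^ m * X ^ m * X ^ (1 - m) := mul_le_mul_of_nonneg_left e3 e4
      _ = η ^ m * (X ^ m * X ^ (1 - m)) := by ring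
      _ = η ^ m * X := by rw [← e2]
  have hup : r * E ≤ 1 + t := by linarith
  refine ⟨mul_nonneg hr0 hE0, hup, ?_, fun hx4 => ?_⟩
  · have e1 : r * E * (1 - r + m * r) = r * ((1 - r) * E) + m * (r * (r * E)) := by ring
    rw [e1]
    have e2 : r * ((1 - r) * E) ≤ 1 * ((1 - r) * E) :=
      mul_le_mul_of_nonneg_right hr1 (mul_nonneg (by linarith) hE0)
    have e3 : r * (r * E) ≤ 2 := by
      have e4 : r * (r * E) ≤ 1 * (r * E) :=
        mul_le_mul_of_nonneg_right hr1 (mul_nonneg hr0 hE0)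
      linarith
    have e5 : m * (r * (r * E)) ≤ m * 2 := mul_le_mul_of_nonneg_left e3 hm0.le
    linarith
  · rw [abs_le]
    refine ⟨?_, by linarith⟩
    rcases le_or_gt 1 t with ht1 | ht1
    · have := mul_nonneg hr0 hE0
      linarith
    · have hX4 : 1 / 4 ≤ X := by linarith
      have e1 : 1 - t / 4 ≤ r := by
        have e2 : 1 - r ≤ 4 * η := by
          rw [hr', div_le_iff₀ hX0]
          nlinarith
        linarith
      have e2 : 1 - 3 * t / 8 ≤ E := by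
        have e3 : -3 ≤ Real.log X := by
          have e4 := Real.one_sub_inv_le_log_of_pos hX0
          have e5 : X⁻¹ ≤ 4 := by
            rw [inv_le_comm₀ hX0 (by norm_num)]
            linarith
          linarith
        have e4 : E = Real.exp (Real.log X * m) := by
          rw [hE, Real.rpow_def_of_pos hX0]
        have e5 := Real.add_one_le_exp (Real.log X * m)
        rw [← e4] at e5
        nlinarith
      have e3 : (1 - t / 4) * (1 - 3 * t / 8) ≤ r * E :=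
        mul_le_mul e1 e2 (by linarith) hr0
      nlinarith

end

end Pool.Agent.SLE
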