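import Pool.Agent.Lib.MP_c17912_pr_TC.REA

set_option autoImplicit false

open MeasureTheory ProbabilityTheory Filter
open scoped NNReal ENNReal Topology Real

namespace Pool.Agent.SLE

noncomputable section

private theorem TCREB_quad {A B F d M₁ M₂ t x ζ : ℝ} (hB0 : 0 ≤ B) (hB : B ≤ M₂)
    (hA : |A| ≤ M₁) (h1 : A + B + F ≤ -d) (h0 : x ≤ 1 / 4 → F ≤ -d) (ht1 : t ≤ 1)
    (hζ0 : 0 ≤ ζ) (hζ1 : ζ ≤ 1 + t) (ht : 0 ≤ t) (hζ : 1 / 4 ≤ x → |ζ - 1| ≤ t) :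
    A * ζ + B * ζ ^ 2 + F ≤ -d + (M₁ + 3 * M₂) * t := by
  have hM1 : 0 ≤ M₁ := (abs_nonneg A).trans hA
  have hM2 : 0 ≤ M₂ := hB0.trans hB
  have hfar : |ζ - 1| ≤ t → A * ζ + B * ζ ^ 2 + F ≤ -d + (M₁ + 3 * M₂) * t := by
    intro h
    have e1 : A * ζ + B * ζ ^ 2 + F = (A + B + F) + (ζ - 1) * (A + B * (ζ + 1)) := by ring
    have e2 : |A + B * (ζ + 1)| ≤ M₁ + 3 * M₂ := by
      refine (abs_add_le _ _).trans (add_le_add hA ?_)
      rw [abs_of_nonneg (by positivity)]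
      nlinarith
    have e3 : (ζ - 1) * (A + B * (ζ + 1)) ≤ t * (M₁ + 3 * M₂) := by
      refine (le_abs_self _).trans ?_
      rw [abs_mul]
      exact mul_le_mul h e2 (abs_nonneg _) ht
    rw [e1]
    linarith
  rcases le_or_gt x (1 / 4) with hx | hx
  · rcases le_or_gt ζ 1 with h | h
    · have e1 : B * ζ ^ 2 ≤ B * ζ := by
        refine mul_le_mul_of_nonneg_left ?_ hB0
        nlinarith
      have e2 : A * ζ + B * ζ + F = ζ * (A + B + F) + (1 - ζ) * F := by ring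
      have e3 : ζ * (A + B + F) ≤ ζ * (-d) := mul_le_mul_of_nonneg_left h1 hζ0
      have e4 : (1 - ζ) * F ≤ (1 - ζ) * (-d) := mul_le_mul_of_nonneg_left (h0 hx) (by linarith)
      have e5 : 0 ≤ (M₁ + 3 * M₂) * t := by positivity
      linarith
    · refine hfar ?_
      rw [abs_of_pos (by linarith)]
      linarith
  · exact hfar (hζ hx.le)

private theorem TCREB_op {t : ℝ} (ht : 0 < t) : ∃ m η : ℝ, 0 < η ∧ ∀ (a α P θ : ℝ),
    ∃ x ζ s : ℝ, 0 ≤ x ∧ x ≤ 1 ∧ 0 ≤ ζ ∧ ζ ≤ 1 + t ∧ s ≤ t ∧ (1 / 4 ≤ x → |ζ - 1| ≤ t) ∧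
      Real.cos (2 * θ) = 1 - 2 * x ∧
      Op a 0 0 α (rps P m η) θ = P * ζ * ((a - 8) - (2 * a - 8) * x) +
        2 * a * P * (1 - x) * s + 2 * a * (1 - x) * P ^ 2 * ζ ^ 2 -
        2 * α * a * (1 - x) * P * ζ + α * (4 - a) / 2 * (1 - 2 * x) +
        a * α ^ 2 * (1 - x) / 2 := by
  obtain ⟨m, η, hm, -, hη, -, h⟩ := cutoff ht
  refine ⟨m, η, hη, fun a α P θ => ?_⟩
  have hx1 : Real.sin θ ^ 2 ≤ 1 := Real.sin_sq_le_one θ
  obtain ⟨h1, h2, h3, h4⟩ := h (Real.sin θ ^ 2) (sq_nonneg _) hx1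
  refine ⟨Real.sin θ ^ 2, _, _, sq_nonneg _, hx1, h1, h2, h3, h4, ?_, ?_⟩
  · have := Real.sin_sq_add_cos_sq θ
    rw [Real.cos_two_mul']
    linarith
  · rw [Op_rps a α P m hη hm.ne' θ]
    ring

/-- TC-REB1. The first strict supermartingale for a real driving process with `a ≠ 4`.

Proof. `ς = sign (4 - a)`, `k = |4 - a| / 2 > 0`. Choose `P₀ > 0` with `P₀ a > k` and `P₀ (a - 8) < k`
(possible: if `a ≤ 8` any large `P₀`; if `a > 8`, `k / a < k / (a - 8)`). `α = -ς y`, `P = y P₀`,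
`x = sin² θ`, `ζ = r E`. By `Op_rps`
`Op = y L + y² R`, `|R| ≤ C` (for `y ≤ 1`, `0 ≤ ζ ≤ 2`),
`L = P₀ ζ ((a - 8) - (2a - 8) x) + 2 a P₀ (1-x) (r E (1 - r + m r)) - k (1 - 2x)` (because
`3a - 8 - (4a-8) x - 2a (1-x)(1-m) r = (a-8) - (2a-8) x + 2a (1-x) (1 - (1-m) r)`).
At `ζ = 1` without the second term: `L = -(1-x) (k - P₀ (a-8)) - x (P₀ a - k) ≤ -D₀`,
`D₀ = min (k - P₀ (a-8)) (P₀ a - k) > 0`. For `x ≤ 1/4`: `L` is affine in `ζ`, at `ζ = 0` it is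
`≤ -k/2`, at `ζ = 1` `≤ -D₀`, so for `0 ≤ ζ ≤ 1 + t`: `L ≤ -min (k/2) D₀ + C' t`. For `x ≥ 1/4`:
`|ζ - 1| ≤ t`, `L ≤ -D₀ + C' t`. Take `t` small (`cutoff`), then `y` small. -/
theorem real_first {a : ℝ} (ha : 0 < a) (h4 : a ≠ 4) :
    ∃ (α δ : ℝ) (ψ : ℝ → ℝ), |α| ≤ 1 ∧ 0 < δ ∧ ContDiff ℝ 3 ψ ∧
      Function.Periodic ψ (2 * π) ∧ ∀ θ, Op a 0 0 α ψ θ + δ ≤ 0 := by
  obtain ⟨k, hk⟩ : ∃ k, k = |4 - a| / 2 := ⟨_, rfl⟩
  have hk0 : 0 < k := by
    rw [hk]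
    have : 4 - a ≠ 0 := fun h => h4 (by linarith)
    positivity
  obtain ⟨σ, hσ, hσk⟩ : ∃ σ : ℝ, |σ| = 1 ∧ σ * (4 - a) = 2 * k := by
    rcases le_total 0 (4 - a) with h | h
    · exact ⟨1, by simp, by rw [hk, abs_of_nonneg h]; ring⟩
    · exact ⟨-1, by simp, by rw [hk, abs_of_nonpos h]; ring⟩
  obtain ⟨P₀, hP0, hPa, hP8⟩ : ∃ P₀ : ℝ, 0 < P₀ ∧ k < P₀ * a ∧ P₀ * (a - 8) < k := by
    rcases le_or_gt a 8 with h | h
    · refine ⟨2 * k / a, by positivity, ?_, ?_⟩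
      · rw [div_mul_cancel₀ _ ha.ne']
        linarith
      · have : 2 * k / a * (a - 8) ≤ 0 :=
          mul_nonpos_of_nonneg_of_nonpos (by positivity) (by linarith)
        linarith
    · have h8 : 0 < a - 8 := by linarith
      obtain ⟨P, h1, h2⟩ := exists_between (div_lt_div_of_pos_left hk0 h8 (by linarith : a - 8 < a))
      refine ⟨P, lt_trans (by positivity) h1, (div_lt_iff₀ ha).1 h1, (lt_div_iff₀ h8).1 h2⟩
  obtain ⟨D, hD⟩ : ∃ D, D = min (k / 2) (min (k - P₀ * (a - 8)) (P₀ * a - k)) := ⟨_, rfl⟩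
  have hD0 : 0 < D := by
    rw [hD]
    exact lt_min (by positivity) (lt_min (by linarith) (by linarith))
  have hD1 : D ≤ k / 2 := hD ▸ min_le_left _ _
  have hD2 : D ≤ k - P₀ * (a - 8) := hD ▸ (min_le_right _ _).trans (min_le_left _ _)
  have hD3 : D ≤ P₀ * a - k := hD ▸ (min_le_right _ _).trans (min_le_right _ _)
  obtain ⟨M, hM⟩ : ∃ M, M = P₀ * (3 * a + 16) := ⟨_, rfl⟩
  have hM0 : 0 < M := by
    rw [hM]
    positivity
  obtain ⟨C, hC⟩ : ∃ C, C = a * (8 * P₀ ^ 2 + 4 * P₀ + 1 / 2) := ⟨_, rfl⟩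
  have hC0 : 0 < C := by
    rw [hC]
    positivity
  obtain ⟨t, ht0, ht1, ht⟩ : ∃ t : ℝ, 0 < t ∧ t ≤ 1 ∧ (M + 2 * a * P₀) * t ≤ D / 2 := by
    refine ⟨min 1 (D / 2 / (M + 2 * a * P₀)), lt_min one_pos (by positivity), min_le_left _ _, ?_⟩
    have h : (M + 2 * a * P₀) * min 1 (D / 2 / (M + 2 * a * P₀)) ≤
        (M + 2 * a * P₀) * (D / 2 / (M + 2 * a * P₀)) :=
      mul_le_mul_of_nonneg_left (min_le_right _ _) (by positivity)
    rwa [mul_div_cancel₀ _ (by positivity)] at h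
  obtain ⟨y, hy0, hy1, hy⟩ : ∃ y : ℝ, 0 < y ∧ y ≤ 1 ∧ C * y ≤ D / 4 := by
    refine ⟨min 1 (D / 4 / C), lt_min one_pos (by positivity), min_le_left _ _, ?_⟩
    have h : C * min 1 (D / 4 / C) ≤ C * (D / 4 / C) :=
      mul_le_mul_of_nonneg_left (min_le_right _ _) (by positivity)
    rwa [mul_div_cancel₀ _ (by positivity)] at h
  obtain ⟨m, η, hη, h⟩ := TCREB_op ht0
  refine ⟨-σ * y, y * (D / 4), rps (y * P₀) m η, ?_, by positivity, rps_smooth _ _ hη,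
    rps_per _ _ _, fun θ => ?_⟩
  · rw [abs_mul, abs_neg, hσ, one_mul, abs_of_pos hy0]
    exact hy1
  obtain ⟨x, ζ, s, hx0, hx1, hζ0, hζ1, hs, hζ, -, e⟩ := h a (-σ * y) (y * P₀) θ
  have hA : |P₀ * ((a - 8) - (2 * a - 8) * x)| ≤ M := by
    rw [abs_le, hM]
    constructor
    · have : P₀ * (-(3 * a + 16)) ≤ P₀ * ((a - 8) - (2 * a - 8) * x) :=
        mul_le_mul_of_nonneg_left (by nlinarith) hP0.le
      linarith
    · exact mul_le_mul_of_nonneg_left (by nlinarith) hP0.le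
  have h1 : P₀ * ((a - 8) - (2 * a - 8) * x) + 0 + -(k * (1 - 2 * x)) ≤ -D := by
    have e1 := mul_le_mul_of_nonneg_left hD2 (by linarith : 0 ≤ 1 - x)
    have e2 := mul_le_mul_of_nonneg_left hD3 hx0
    linarith
  have h0 : x ≤ 1 / 4 → -(k * (1 - 2 * x)) ≤ -D := by
    intro hx
    have : k * (1 / 2) ≤ k * (1 - 2 * x) := mul_le_mul_of_nonneg_left (by linarith) hk0.le
    linarith
  have hL := TCREB_quad le_rfl le_rfl hA h1 h0 ht1 hζ0 hζ1 ht0.le hζ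
  have hs' : 2 * a * P₀ * (1 - x) * s ≤ 2 * a * P₀ * t := by
    have e1 : (1 - x) * s ≤ t := by
      rcases le_total 0 s with h' | h'
      · nlinarith
      · have : (1 - x) * s ≤ 0 := mul_nonpos_of_nonneg_of_nonpos (by linarith) h'
        linarith
    have e2 := mul_le_mul_of_nonneg_left e1 (by positivity : 0 ≤ 2 * a * P₀)
    linarith
  have hσ2 : σ ^ 2 = 1 := by rw [← sq_abs, hσ, one_pow]
  have hR : a * (1 - x) * (2 * P₀ ^ 2 * ζ ^ 2 + 2 * σ * P₀ * ζ + 1 / 2) ≤ C := by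
    have hσle : σ ≤ 1 := (le_abs_self σ).trans hσ.le
    have hζ2 : ζ ≤ 2 := by linarith
    have e1 : 2 * σ * P₀ * ζ ≤ 4 * P₀ := by
      have e2 : P₀ * ζ ≤ P₀ * 2 := mul_le_mul_of_nonneg_left hζ2 hP0.le
      have e3 : σ * (P₀ * ζ) ≤ 1 * (P₀ * ζ) :=
        mul_le_mul_of_nonneg_right hσle (by positivity)
      linarith
    have e4 : 2 * P₀ ^ 2 * ζ ^ 2 ≤ 8 * P₀ ^ 2 := by
      have e5 : ζ ^ 2 ≤ 4 := by nlinarith
      have e6 := mul_le_mul_of_nonneg_left e5 (by positivity : 0 ≤ 2 * P₀ ^ 2)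
      linarith
    have e7 : a * (1 - x) ≤ a := by nlinarith
    have e8 : 0 ≤ 8 * P₀ ^ 2 + 4 * P₀ + 1 / 2 := by positivity
    have e9 : 0 ≤ a * (1 - x) := mul_nonneg ha.le (by linarith)
    rw [hC]
    calc a * (1 - x) * (2 * P₀ ^ 2 * ζ ^ 2 + 2 * σ * P₀ * ζ + 1 / 2)
        ≤ a * (1 - x) * (8 * P₀ ^ 2 + 4 * P₀ + 1 / 2) :=
          mul_le_mul_of_nonneg_left (by linarith) e9
      _ ≤ a * (8 * P₀ ^ 2 + 4 * P₀ + 1 / 2) := mul_le_mul_of_nonneg_right e7 e8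
  have e' : Op a 0 0 (-σ * y) (rps (y * P₀) m η) θ =
      y * ((P₀ * ((a - 8) - (2 * a - 8) * x) * ζ + 0 * ζ ^ 2 + -(k * (1 - 2 * x))) +
        2 * a * P₀ * (1 - x) * s) +
      y ^ 2 * (a * (1 - x) * (2 * P₀ ^ 2 * ζ ^ 2 + 2 * σ * P₀ * ζ + 1 / 2)) := by
    rw [e]
    linear_combination (-(y * (1 - 2 * x) / 2)) * hσk + (a * y ^ 2 * (1 - x) / 2) * hσ2
  rw [e']
  have f1 := mul_le_mul_of_nonneg_left (add_le_add hL hs') hy0.le
  have f2 := mul_le_mul_of_nonneg_left hR (sq_nonneg y)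
  have f3 : y * (-D + (M + 3 * 0) * t + 2 * a * P₀ * t) ≤ y * (-(D / 2)) :=
    mul_le_mul_of_nonneg_left (by linarith) hy0.le
  have f4 : y ^ 2 * C ≤ y * (D / 4) := by
    have := mul_le_mul_of_nonneg_left hy hy0.le
    linarith
  linarith

/-- TC-REB2. The second strict supermartingale for a real driving process (every `a > 0`).

Proof. Let `ρ₀` be strictly between `(a-4) / (2a)` and `(a+12) / (2 (a+8))` (the first is smaller:
`(a-4)(a+8) < a (a+12)`). `α = y`, `P = 4/a + y ρ₀` with `y > 0` small (so `P > 0`), `x = sin² θ`,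
`ζ = r E`. By `Op_rps`, with `s = r E (1 - r + m r)`,
`T := Op - 4 (1 - 2x) = P ζ ((a-8) - (2a-8) x) + 2aP (1-x) s + 2a (1-x) P² ζ² - 2 y a (1-x) P ζ
 + y (4-a)/2 (1-2x) + a y² (1-x)/2 - 4 (1-2x)`.
At `ζ = 1`, `s = 0`: the terms of order `0` in `y` cancel, and
`T = y ((1-x) (ρ₀ (a+8) - (a+12)/2) - x (ρ₀ a - (a-4)/2)) + O(y²) ≤ -2 c y` with `c > 0`. For
`x ≤ 1/4`: `T - 2aP(1-x)s` is a convex function of `ζ`; at `ζ = 0` it is `≤ -4 (1-2x) + C y ≤ -2 + C y`,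
at `ζ = 1` `≤ -2 c y`, so on `[0,1]` it is `≤ -2 c y`, and `≤ -2 c y + C t` on `[0,1+t]`. For `x ≥ 1/4`:
`|ζ - 1| ≤ t`. So with `t` much smaller than `c y` (`cutoff`): `T ≤ -c y` for all `θ`. Then
`q = 2 + δ'` with `2 δ' ≤ c y / 2` and `δ = c y / 2` (`|2 (q-2) cos 2θ| ≤ 2 δ'`). -/
theorem real_second {a : ℝ} (ha : 0 < a) :
    ∃ (q α δ : ℝ) (ψ : ℝ → ℝ), 2 < q ∧ |α| ≤ 1 ∧ 0 < δ ∧ ContDiff ℝ 3 ψ ∧
      Function.Periodic ψ (2 * π) ∧
      ∀ θ, Op a 0 0 α ψ θ - 2 * q * Real.cos (2 * θ) + δ ≤ 0 := by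
  have hlt : (a - 4) / (2 * a) < (a + 12) / (2 * (a + 8)) := by
    rw [div_lt_div_iff₀ (by positivity) (by positivity)]
    nlinarith
  obtain ⟨ρ, hρ1, hρ2⟩ := exists_between hlt
  rw [div_lt_iff₀ (by positivity)] at hρ1
  rw [lt_div_iff₀ (by positivity)] at hρ2
  obtain ⟨D, hD⟩ : ∃ D, D = min 1 (min ((a + 12) / 2 - ρ * (a + 8)) (ρ * a - (a - 4) / 2)) :=
    ⟨_, rfl⟩
  have hD0 : 0 < D := by
    rw [hD]
    exact lt_min one_pos (lt_min (by linarith) (by linarith))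
  have hD1 : D ≤ 1 := hD ▸ min_le_left _ _
  have hD2 : D ≤ (a + 12) / 2 - ρ * (a + 8) := hD ▸ (min_le_right _ _).trans (min_le_left _ _)
  have hD3 : D ≤ ρ * a - (a - 4) / 2 := hD ▸ (min_le_right _ _).trans (min_le_right _ _)
  obtain ⟨Q, hQ⟩ : ∃ Q, Q = 2 * a * (ρ - 1 / 2) ^ 2 := ⟨_, rfl⟩
  have hQ0 : 0 ≤ Q := by
    rw [hQ]
    positivity
  obtain ⟨N, hN⟩ : ∃ N, N = (a + 2) + a * |ρ| + 4 * Q / D := ⟨_, rfl⟩
  have hN0 : 0 < N := by
    rw [hN]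
    positivity
  obtain ⟨y, hy0, hyN⟩ : ∃ y : ℝ, 0 < y ∧ N * y = 1 :=
    ⟨1 / N, by positivity, mul_one_div_cancel hN0.ne'⟩
  have hy2 : (a + 2) * y ≤ 1 := by
    have : 0 ≤ (a * |ρ| + 4 * Q / D) * y := by positivity
    rw [hN] at hyN
    linarith
  have hyρ : a * |ρ| * y ≤ 1 := by
    have : 0 ≤ ((a + 2) + 4 * Q / D) * y := by positivity
    rw [hN] at hyN
    linarith
  have hyQ : 4 * Q * y ≤ D := by
    have h1 : 0 ≤ ((a + 2) + a * |ρ|) * y := by positivity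
    have h2 : 4 * Q / D * y ≤ 1 := by
      rw [hN] at hyN
      linarith
    have h3 : 4 * Q / D * y = 4 * Q * y / D := by ring
    rw [h3, div_le_one hD0] at h2
    exact h2
  have hy1 : y ≤ 1 := by nlinarith
  obtain ⟨P, hP⟩ : ∃ P, P = 4 / a + y * ρ := ⟨_, rfl⟩
  have haP : a * P = 4 + y * ρ * a := by
    rw [hP]
    field_simp
  have hP0 : 0 < P := by
    have h1 : -|ρ| ≤ ρ := neg_abs_le ρ
    have h2 : a * y * (-|ρ|) ≤ a * y * ρ := mul_le_mul_of_nonneg_left h1 (by positivity)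
    have h3 : 0 < a * P := by
      rw [haP]
      linarith
    exact (mul_pos_iff_of_pos_left ha).1 h3
  obtain ⟨M₁, hM1⟩ : ∃ M₁, M₁ = P * (3 * a + 16) + 2 * y * a * P := ⟨_, rfl⟩
  obtain ⟨M₂, hM2⟩ : ∃ M₂, M₂ = 2 * a * P ^ 2 := ⟨_, rfl⟩
  have hM10 : 0 < M₁ := by
    rw [hM1]
    positivity
  have hM20 : 0 < M₂ := by
    rw [hM2]
    positivity
  obtain ⟨S, hS⟩ : ∃ S, S = M₁ + 3 * M₂ + 2 * a * P := ⟨_, rfl⟩
  have hS0 : 0 < S := by
    rw [hS]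
    positivity
  obtain ⟨t, ht0, ht1, ht⟩ : ∃ t : ℝ, 0 < t ∧ t ≤ 1 ∧ S * t ≤ D * y / 4 := by
    refine ⟨min 1 (D * y / 4 / S), lt_min one_pos (by positivity), min_le_left _ _, ?_⟩
    have h : S * min 1 (D * y / 4 / S) ≤ S * (D * y / 4 / S) :=
      mul_le_mul_of_nonneg_left (min_le_right _ _) hS0.le
    rwa [mul_div_cancel₀ _ hS0.ne'] at h
  obtain ⟨m, η, hη, h⟩ := TCREB_op ht0
  refine ⟨2 + D * y / 8, y, D * y / 4, rps P m η, ?_, ?_, by positivity, rps_smooth _ _ hη,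
    rps_per _ _ _, fun θ => ?_⟩
  · have : 0 < D * y / 8 := by positivity
    linarith
  · rw [abs_of_pos hy0]
    exact hy1
  obtain ⟨x, ζ, s, hx0, hx1, hζ0, hζ1, hs, hζ, hcos, e⟩ := h a y P θ
  obtain ⟨F, hF⟩ : ∃ F, F = y * (4 - a) / 2 * (1 - 2 * x) + a * y ^ 2 * (1 - x) / 2 -
    4 * (1 - 2 * x) := ⟨_, rfl⟩
  have hB0 : 0 ≤ 2 * a * (1 - x) * P ^ 2 := by
    have : 0 ≤ 1 - x := by linarith
    positivity
  have hB : 2 * a * (1 - x) * P ^ 2 ≤ M₂ := by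
    have : 0 ≤ 2 * a * P ^ 2 * x := by positivity
    rw [hM2]
    linarith
  have hA : |P * ((a - 8) - (2 * a - 8) * x) - 2 * y * a * (1 - x) * P| ≤ M₁ := by
    have g1 : 0 ≤ 2 * y * a * P * (1 - x) := by
      have : 0 ≤ 1 - x := by linarith
      positivity
    have g2 : 0 ≤ 2 * y * a * P * x := by positivity
    rw [abs_le, hM1]
    constructor
    · have : P * (-(3 * a + 16)) ≤ P * ((a - 8) - (2 * a - 8) * x) :=
        mul_le_mul_of_nonneg_left (by nlinarith) hP0.le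
      linarith
    · have : P * ((a - 8) - (2 * a - 8) * x) ≤ P * (3 * a + 16) :=
        mul_le_mul_of_nonneg_left (by nlinarith) hP0.le
      linarith
  have h1 : P * ((a - 8) - (2 * a - 8) * x) - 2 * y * a * (1 - x) * P +
      2 * a * (1 - x) * P ^ 2 + F ≤ -(3 / 4 * (D * y)) := by
    have e0 : P * ((a - 8) - (2 * a - 8) * x) - 2 * y * a * (1 - x) * P +
        2 * a * (1 - x) * P ^ 2 + F =
        y * ((1 - x) * (ρ * (a + 8) - (a + 12) / 2) + x * ((a - 4) / 2 - ρ * a)) +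
        y ^ 2 * Q * (1 - x) := by
      rw [hF, hQ]
      linear_combination ((1 - x) * (1 + 2 * P + 2 * y * ρ - 2 * y) - x) * haP
    have e1 := mul_le_mul_of_nonneg_left hD2 (by linarith : 0 ≤ 1 - x)
    have e2 := mul_le_mul_of_nonneg_left hD3 hx0
    have e3 : (1 - x) * (ρ * (a + 8) - (a + 12) / 2) + x * ((a - 4) / 2 - ρ * a) ≤ -D := by
      linarith
    have e4 := mul_le_mul_of_nonneg_left e3 hy0.le
    have e5 : y ^ 2 * Q * (1 - x) ≤ y ^ 2 * Q := by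
      have : 0 ≤ y ^ 2 * Q * x := by positivity
      linarith
    have e6 : y ^ 2 * Q ≤ y * D / 4 := by
      have := mul_le_mul_of_nonneg_left hyQ hy0.le
      linarith
    rw [e0]
    linarith
  have h0 : x ≤ 1 / 4 → F ≤ -(3 / 4 * (D * y)) := by
    intro hx
    have g1 : y * (4 - a) / 2 * (1 - 2 * x) ≤ 2 * y := by
      have g2 : 0 ≤ y * a * (1 - 2 * x) := by
        have : 0 ≤ 1 - 2 * x := by linarith
        positivity
      have g3 : 0 ≤ y * x := by positivity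
      linarith
    have g4 : a * y ^ 2 * (1 - x) / 2 ≤ a * y / 2 := by
      have g5 : a * y * (y * (1 - x)) ≤ a * y * 1 :=
        mul_le_mul_of_nonneg_left (by nlinarith) (by positivity)
      linarith
    have g6 : D * y ≤ 1 * 1 := mul_le_mul hD1 hy1 hy0.le one_pos.le
    have g7 : 0 ≤ a * y := by positivity
    rw [hF]
    nlinarith
  have hL := TCREB_quad hB0 hB hA h1 h0 ht1 hζ0 hζ1 ht0.le hζ
  have hs' : 2 * a * P * (1 - x) * s ≤ 2 * a * P * t := by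
    have e1 : (1 - x) * s ≤ t := by
      rcases le_total 0 s with h' | h'
      · nlinarith
      · have : (1 - x) * s ≤ 0 := mul_nonpos_of_nonneg_of_nonpos (by linarith) h'
        linarith
    have e2 := mul_le_mul_of_nonneg_left e1 (by positivity : 0 ≤ 2 * a * P)
    linarith
  have e' : Op a 0 0 y (rps P m η) θ - 4 * (1 - 2 * x) =
      ((P * ((a - 8) - (2 * a - 8) * x) - 2 * y * a * (1 - x) * P) * ζ +
        2 * a * (1 - x) * P ^ 2 * ζ ^ 2 + F) + 2 * a * P * (1 - x) * s := by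
    rw [e, hF]
    ring
  have hcos1 : -(D * y / 4) * Real.cos (2 * θ) ≤ D * y / 4 := by
    have g1 := Real.neg_one_le_cos (2 * θ)
    have g2 : 0 ≤ D * y / 4 := by positivity
    nlinarith
  have e'' : Op a 0 0 y (rps P m η) θ - 2 * (2 + D * y / 8) * Real.cos (2 * θ) =
      (Op a 0 0 y (rps P m η) θ - 4 * (1 - 2 * x)) + -(D * y / 4) * Real.cos (2 * θ) := by
    rw [← hcos]
    ring
  rw [e'', e']
  have hSt : S * t = (M₁ + 3 * M₂) * t + 2 * a * P * t := by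
    rw [hS]
    ring
  linarith

/-- TC-REB3. (Lawler–Werness case.) -/
theorem hasS_real {a : ℝ} (ha : 0 < a) (h4 : a ≠ 4) : HasS a 0 0 := by
  obtain ⟨α₁, δ₁, ψ₁, h1, h2, h3, h4', h5⟩ := real_first ha h4
  obtain ⟨q, α₂, δ₂, ψ₂, g0, g1, g2, g3, g4, g5⟩ := real_second ha
  rw [abs_le] at h1 g1
  refine ⟨α₁, α₂, q, min 1 (min δ₁ δ₂), ψ₁, ψ₂, lt_min one_pos (lt_min h2 g2), min_le_left _ _,
    g0, by linarith [h1.2, g1.1], h3, h4', g3, g4, fun θ => ?_, fun θ => ?_⟩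
  · have := (min_le_right 1 (min δ₁ δ₂)).trans (min_le_left _ _)
    linarith [h5 θ]
  · have := (min_le_right 1 (min δ₁ δ₂)).trans (min_le_right _ _)
    linarith [g5 θ]

/-- TC-REB4. The critical real case `a = 4`.

Proof. (S2) `real_second`. (S3) `φ = sin² θ - sin⁴ θ / 8`, `x = sin² θ`, `g = x - x²/8`,
`g' = 1 - x/4`, `g'' = -1/4`: `Op 4 0 0 (-q) (q φ) - 2 q cos 2θ = q f(x) + q² R` with
`f = 8 x² (1-x) g'' + 4x (1-2x) g' - 2 (1-2x) = -2 + 8x - 11x² + 4x³ ≤ -1/4` on `[0,1]` (`R` bounded); `q`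
small. (S5) `ψ = -y² sin² θ / 4`: `Op 4 0 0 y ψ = y² (2 - 3x + 2x²) + O(y³) ≥ 7/8 y² - C y³`.
(S6) `ψ = 0` (`H1 4 0 0 = 0`). -/
theorem hasC_real : HasC 4 0 0 := by
  refine ⟨?_, ?_, ?_, ?_⟩
  · obtain ⟨q, α, δ, ψ, h0, h1, h2, h3, h4, h5⟩ := real_second (a := 4) (by norm_num)
    rw [abs_le] at h1
    exact ⟨q, α, δ, ψ, h0, by linarith [h1.1], h2, h3, h4, h5⟩
  · refine ⟨1 / 144, 1 / 1152, fun θ => 1 / 144 * (Real.sin θ ^ 2 - Real.sin θ ^ 4 / 8),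
      by norm_num, by norm_num, by norm_num, ?_, ?_, fun θ => ?_⟩
    · exact contDiff_const.mul ((Real.contDiff_sin.pow 2).sub
        ((Real.contDiff_sin.pow 4).div_const 8))
    · intro θ
      simp only [Real.sin_add_two_pi]
    · have d1 : ∀ θ : ℝ, HasDerivAt
          (fun θ => 1 / 144 * (Real.sin θ ^ 2 - Real.sin θ ^ 4 / 8))
          (1 / 144 * (2 * Real.sin θ * Real.cos θ - Real.sin θ ^ 3 * Real.cos θ / 2)) θ := by
        intro θ
        have h := (((Real.hasDerivAt_sin θ).pow 2).sub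
          (((Real.hasDerivAt_sin θ).pow 4).div_const 8)).const_mul (1 / 144)
        refine h.congr_deriv ?_
        push_cast
        ring
      have e1 : deriv (fun θ => 1 / 144 * (Real.sin θ ^ 2 - Real.sin θ ^ 4 / 8)) = fun θ =>
          1 / 144 * (2 * Real.sin θ * Real.cos θ - Real.sin θ ^ 3 * Real.cos θ / 2) :=
        funext fun θ => (d1 θ).deriv
      have d2 : HasDerivAt (fun θ => 1 / 144 * (2 * Real.sin θ * Real.cos θ -
          Real.sin θ ^ 3 * Real.cos θ / 2)) (1 / 144 * (2 * (Real.cos θ ^ 2 - Real.sin θ ^ 2) -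
          (3 * Real.sin θ ^ 2 * Real.cos θ ^ 2 - Real.sin θ ^ 4) / 2)) θ := by
        have h := (((((Real.hasDerivAt_sin θ).const_mul 2).mul (Real.hasDerivAt_cos θ)).sub
          ((((Real.hasDerivAt_sin θ).pow 3).mul (Real.hasDerivAt_cos θ)).div_const 2))).const_mul
          (1 / 144)
        refine h.congr_deriv ?_
        simp only [Pi.pow_apply]
        push_cast
        ring
      unfold Op Vth Bth H1 Vr Cv
      rw [e1, d2.deriv, Real.sin_two_mul, Real.cos_two_mul']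
      have hc : Real.cos θ ^ 2 = 1 - Real.sin θ ^ 2 := by
        have := Real.sin_sq_add_cos_sq θ
        linarith
      obtain ⟨s, hs⟩ : ∃ s, s = Real.sin θ := ⟨_, rfl⟩
      obtain ⟨c, hcc⟩ : ∃ c, c = Real.cos θ := ⟨_, rfl⟩
      simp only [← hs, ← hcc]
      rw [← hs, ← hcc] at hc
      obtain ⟨x, hx⟩ : ∃ x, x = s ^ 2 := ⟨_, rfl⟩
      have hx0 : 0 ≤ x := hx ▸ sq_nonneg s
      have hx1 : x ≤ 1 := by
        rw [hx, hs]
        exact Real.sin_sq_le_one θ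
      have k1 : -2 + 8 * x - 11 * x ^ 2 + 4 * x ^ 3 ≤ -(1 / 4) := by
        have := mul_nonneg (sq_nonneg (x - 1 / 2)) (by linarith : 0 ≤ 7 - 4 * x)
        linarith
      have k2 : (1 - x) * (1 + 2 * x - x ^ 2 / 2) ^ 2 ≤ 9 := by
        have k3 : 0 ≤ 1 + 2 * x - x ^ 2 / 2 := by nlinarith
        have k4 : 1 + 2 * x - x ^ 2 / 2 ≤ 3 := by nlinarith
        have k5 : (1 + 2 * x - x ^ 2 / 2) ^ 2 ≤ 9 := by nlinarith
        have k6 := mul_nonneg hx0 (sq_nonneg (1 + 2 * x - x ^ 2 / 2))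
        linarith
      refine le_of_eq_of_le (b := 1 / 144 * (-2 + 8 * x - 11 * x ^ 2 + 4 * x ^ 3) +
        2 * (1 / 144) ^ 2 * ((1 - x) * (1 + 2 * x - x ^ 2 / 2) ^ 2) + 1 / 1152) ?_ (by linarith)
      rw [hx]
      linear_combination (2 * s ^ 2 * (1 / 144) * (2 - 3 * s ^ 2 / 2) +
        2 * (1 / 144) ^ 2 * (1 + 2 * s ^ 2 - s ^ 4 / 2) ^ 2 - 2 * (1 / 144)) * hc
  · refine ⟨1, 7 / 8, 1, zero_le_one, by norm_num, one_pos, fun y hy0 hy1 =>
      ⟨fun θ => -(y ^ 2 / 4) * Real.sin θ ^ 2, contDiff_const.mul (Real.contDiff_sin.pow 2),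
      fun θ => ?_, fun θ => ?_, fun θ => ?_⟩⟩
    · simp only [Real.sin_add_two_pi]
    · have h := Real.sin_sq_le_one θ
      have h' := sq_nonneg (Real.sin θ)
      rw [abs_mul, abs_neg, abs_of_nonneg (by positivity), abs_of_nonneg h']
      nlinarith
    · have d1 : ∀ θ : ℝ, HasDerivAt (fun θ => -(y ^ 2 / 4) * Real.sin θ ^ 2)
          (-(y ^ 2 / 2) * (Real.sin θ * Real.cos θ)) θ := by
        intro θ
        have h := ((Real.hasDerivAt_sin θ).pow 2).const_mul (-(y ^ 2 / 4))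
        refine h.congr_deriv ?_
        push_cast
        ring
      have e1 : deriv (fun θ => -(y ^ 2 / 4) * Real.sin θ ^ 2) = fun θ =>
          -(y ^ 2 / 2) * (Real.sin θ * Real.cos θ) := funext fun θ => (d1 θ).deriv
      have d2 : HasDerivAt (fun θ => -(y ^ 2 / 2) * (Real.sin θ * Real.cos θ))
          (-(y ^ 2 / 2) * (Real.cos θ ^ 2 - Real.sin θ ^ 2)) θ := by
        have h := ((Real.hasDerivAt_sin θ).mul (Real.hasDerivAt_cos θ)).const_mul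
          (-(y ^ 2 / 2))
        refine h.congr_deriv ?_
        ring
      unfold Op Vth Bth H1 Vr Cv
      rw [e1, d2.deriv, Real.sin_two_mul, Real.cos_two_mul']
      have hc : Real.cos θ ^ 2 = 1 - Real.sin θ ^ 2 := by
        have := Real.sin_sq_add_cos_sq θ
        linarith
      obtain ⟨s, hs⟩ : ∃ s, s = Real.sin θ := ⟨_, rfl⟩
      obtain ⟨c, hcc⟩ : ∃ c, c = Real.cos θ := ⟨_, rfl⟩
      simp only [← hs, ← hcc]
      rw [← hs, ← hcc] at hc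
      obtain ⟨x, hx⟩ : ∃ x, x = s ^ 2 := ⟨_, rfl⟩
      have hx0 : 0 ≤ x := hx ▸ sq_nonneg s
      have hx1 : x ≤ 1 := by
        rw [hx, hs]
        exact Real.sin_sq_le_one θ
      have k1 : 1 ≤ (1 + y * x / 2) ^ 2 := by
        have : 0 ≤ y * x := by positivity
        nlinarith
      have k2 : 7 / 8 ≤ -x + 2 * x ^ 2 + 2 * ((1 - x) * (1 + y * x / 2) ^ 2) := by
        have k3 := mul_le_mul_of_nonneg_left k1 (by linarith : 0 ≤ 1 - x)
        have k4 := sq_nonneg (4 * x - 3)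
        linarith
      have k5 := mul_le_mul_of_nonneg_left k2 (sq_nonneg y)
      refine le_of_le_of_eq (b := y ^ 2 * (-x + 2 * x ^ 2 +
        2 * ((1 - x) * (1 + y * x / 2) ^ 2))) (by linarith) ?_
      rw [hx]
      linear_combination -(-(s ^ 2 * y ^ 2) + 2 * y ^ 2 * (1 + y * s ^ 2 / 2) ^ 2) * hc
  · refine ⟨0, fun e he => ⟨fun _ => 0, contDiff_const, fun _ => rfl, fun θ => by simp,
      fun θ => ?_⟩⟩
    unfold H1
    simp
    linarith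

end

end Pool.Agent.SLE
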