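import Pool.Agent.Lib.MP_c17912_pr_NB.Cir

/-!
# MP_c17912_pr, project TC, rank one: the kernel on the line `Im w = η`
-/

set_option autoImplicit false

open MeasureTheory Filter Complex
open scoped Topology Real ComplexConjugate

namespace Pool.Agent.SLE

noncomputable section

namespace TCRN

/-- The point of the line at height `η`. -/
def ww (η y : ℝ) : ℂ := (y : ℂ) + η * I

/-- `Im (L / w)`. -/
def pp (L : ℂ) (η y : ℝ) : ℝ := (L / ww η y).im

/-- `Re (L / w)`. -/
def rr (L : ℂ) (η y : ℝ) : ℝ := (L / ww η y).re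

/-- `1 + t / w`. -/
def mm (η t y : ℝ) : ℂ := 1 + t / ww η y

/-- `|(1 + t / w) ^ L| ^ 2`. -/
def EE (L : ℂ) (η t y : ℝ) : ℝ := Real.exp (2 * (L * Complex.log (mm η t y)).re)

theorem ww_re (η y : ℝ) : (ww η y).re = y := by simp [ww]

theorem ww_im (η y : ℝ) : (ww η y).im = η := by simp [ww]

theorem ww_ne {η : ℝ} (hη : 0 < η) (y : ℝ) : ww η y ≠ 0 := by
  intro h
  have := ww_im η y
  rw [h] at this
  simp at this
  linarith

theorem ww_add (η y t : ℝ) : ww η (y + t) = ww η y + t := by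
  unfold ww
  push_cast
  ring

theorem ww_ge {η : ℝ} (hη : 0 < η) (y : ℝ) : η ≤ ‖ww η y‖ := by
  have h := Complex.abs_im_le_norm (ww η y)
  rw [ww_im, abs_of_pos hη] at h
  exact h

theorem ww_ge' (η y : ℝ) : |y| ≤ ‖ww η y‖ := by
  have h := Complex.abs_re_le_norm (ww η y)
  rw [ww_re] at h
  exact h

theorem ww_deriv (η y : ℝ) : HasDerivAt (ww η) 1 y := by
  unfold ww
  exact (Complex.ofRealCLM.hasDerivAt (x := y)).add_const _

theorem ww_cont (η : ℝ) : Continuous (ww η) :=
  continuous_iff_continuousAt.2 fun y => (ww_deriv η y).continuousAt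

theorem mm_eq {η : ℝ} (hη : 0 < η) (t y : ℝ) : mm η t y = ww η (y + t) / ww η y := by
  unfold mm
  rw [ww_add]
  have := ww_ne hη y
  field_simp

theorem mm_slit {η : ℝ} (hη : 0 < η) (t y : ℝ) : mm η t y ∈ Complex.slitPlane := by
  rcases eq_or_ne t 0 with h | h
  · left
    unfold mm
    rw [h]
    simp
  · right
    unfold mm
    have hw := ww_ne hη y
    have h1 : ((t : ℂ) / ww η y).im = -(t * η) / Complex.normSq (ww η y) := by
      rw [Complex.div_im, ww_re, ww_im]
      simp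
      ring
    rw [Complex.add_im, Complex.one_im, zero_add, h1]
    have h2 : Complex.normSq (ww η y) ≠ 0 := by
      rw [Ne, Complex.normSq_eq_zero]
      exact hw
    exact div_ne_zero (neg_ne_zero.2 (mul_ne_zero h hη.ne')) h2

theorem mm_norm_le {η : ℝ} (hη : 0 < η) {t : ℝ} (ht : 0 ≤ t) (y : ℝ) :
    ‖mm η t y‖ ≤ 1 + t / η := by
  unfold mm
  refine (norm_add_le _ _).trans ?_
  rw [norm_one, norm_div, Complex.norm_real, Real.norm_of_nonneg ht]
  have := ww_ge hη y
  gcongr

theorem mm_norm_ge {η : ℝ} (hη : 0 < η) {t : ℝ} (ht : 0 ≤ t) (y : ℝ) :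
    1 ≤ ‖mm η t y‖ * (1 + t / η) := by
  rw [mm_eq hη, norm_div]
  have h1 := ww_ge hη y
  have h2 := ww_ge hη (y + t)
  have h3 : ‖ww η y‖ ≤ ‖ww η (y + t)‖ + t := by
    have h4 : ww η y = ww η (y + t) - t := by
      rw [ww_add]
      ring
    have h5 := norm_sub_le (ww η (y + t)) t
    rw [← h4, Complex.norm_real, Real.norm_of_nonneg ht] at h5
    exact h5
  have h4 : 0 < ‖ww η y‖ := hη.trans_le h1
  rw [div_mul_eq_mul_div, le_div_iff₀ h4, one_mul]
  have h5 : t ≤ ‖ww η (y + t)‖ * (t / η) := by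
    have : t = η * (t / η) := by field_simp
    calc t = η * (t / η) := this
      _ ≤ ‖ww η (y + t)‖ * (t / η) := by gcongr
  linarith

/-- The bound of the kernel. -/
theorem exp_bound {L m : ℂ} {x : ℝ} (hx : 1 ≤ x) (hm1 : ‖m‖ ≤ x) (hm2 : 1 ≤ ‖m‖ * x) {k : ℕ}
    (hk : 2 * ‖L‖ ≤ k) :
    Real.exp (2 * (L * Complex.log m).re) ≤ Real.exp (2 * ‖L‖ * π) * x ^ k := by
  have hx0 : 0 < x := by linarith
  have hm0 : 0 < ‖m‖ := by
    by_contra hcon
    have : ‖m‖ = 0 := le_antisymm (not_lt.1 hcon) (norm_nonneg _)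
    rw [this] at hm2
    linarith
  have hl1 : Real.log ‖m‖ ≤ Real.log x := Real.log_le_log hm0 hm1
  have hl2 : -Real.log x ≤ Real.log ‖m‖ := by
    have h := Real.log_le_log one_pos hm2
    rw [Real.log_one, Real.log_mul hm0.ne' hx0.ne'] at h
    linarith
  have hl3 : |Real.log ‖m‖| ≤ Real.log x := abs_le.2 ⟨hl2, hl1⟩
  have hre : |L.re| ≤ ‖L‖ := Complex.abs_re_le_norm L
  have him : |L.im| ≤ ‖L‖ := Complex.abs_im_le_norm L
  have harg : |Complex.arg m| ≤ π := Complex.abs_arg_le_pi m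
  have h1 : (L * Complex.log m).re = L.re * Real.log ‖m‖ - L.im * Complex.arg m := by
    rw [Complex.mul_re, Complex.log_re, Complex.log_im]
  have h2 : L.re * Real.log ‖m‖ ≤ ‖L‖ * Real.log x := by
    calc L.re * Real.log ‖m‖ ≤ |L.re * Real.log ‖m‖| := le_abs_self _
      _ = |L.re| * |Real.log ‖m‖| := abs_mul _ _
      _ ≤ ‖L‖ * Real.log x := by gcongr
  have h3 : -(L.im * Complex.arg m) ≤ ‖L‖ * π := by
    calc -(L.im * Complex.arg m) ≤ |L.im * Complex.arg m| := neg_le_abs _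
      _ = |L.im| * |Complex.arg m| := abs_mul _ _
      _ ≤ ‖L‖ * π := by gcongr
  have hlx : 0 ≤ Real.log x := Real.log_nonneg hx
  have h4 : 2 * (L * Complex.log m).re ≤ 2 * ‖L‖ * π + k * Real.log x := by
    rw [h1]
    nlinarith
  calc Real.exp (2 * (L * Complex.log m).re) ≤ Real.exp (2 * ‖L‖ * π + k * Real.log x) :=
        Real.exp_le_exp.2 h4
    _ = Real.exp (2 * ‖L‖ * π) * x ^ k := by
        rw [Real.exp_add, Real.exp_nat_mul, Real.exp_log hx0]

theorem EE_pos (L : ℂ) (η t y : ℝ) : 0 < EE L η t y := Real.exp_pos _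

theorem EE_le {η : ℝ} (hη : 0 < η) {L : ℂ} {k : ℕ} (hk : 2 * ‖L‖ ≤ k) {t : ℝ} (ht : 0 ≤ t)
    (y : ℝ) : EE L η t y ≤ Real.exp (2 * ‖L‖ * π) * (1 + t / η) ^ k := by
  refine exp_bound ?_ (mm_norm_le hη ht y) (mm_norm_ge hη ht y) hk
  have : 0 ≤ t / η := by positivity
  linarith

theorem EE_cont {η : ℝ} (hη : 0 < η) (L : ℂ) :
    Continuous fun p : ℝ × ℝ => EE L η p.1 p.2 := by
  have h1 : Continuous fun p : ℝ × ℝ => mm η p.1 p.2 := by
    unfold mm
    refine continuous_const.add (Continuous.div ?_ ?_ fun p => ww_ne hη _)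
    · exact Complex.continuous_ofReal.comp continuous_fst
    · exact (ww_cont η).comp continuous_snd
  have h2 : Continuous fun p : ℝ × ℝ => Complex.log (mm η p.1 p.2) :=
    h1.clog fun p => mm_slit hη _ _
  unfold EE
  exact Real.continuous_exp.comp (continuous_const.mul
    (Complex.continuous_re.comp (continuous_const.mul h2)))

theorem pp_cont {η : ℝ} (hη : 0 < η) (L : ℂ) : Continuous (pp L η) :=
  Complex.continuous_im.comp (continuous_const.div (ww_cont η) fun y => ww_ne hη y)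

theorem rr_cont {η : ℝ} (hη : 0 < η) (L : ℂ) : Continuous (rr L η) :=
  Complex.continuous_re.comp (continuous_const.div (ww_cont η) fun y => ww_ne hη y)

theorem pp_le {η : ℝ} (hη : 0 < η) (L : ℂ) (y : ℝ) : |pp L η y| ≤ ‖L‖ / η := by
  refine (Complex.abs_im_le_norm _).trans ?_
  rw [norm_div]
  have := ww_ge hη y
  gcongr

theorem pp_le' (η : ℝ) (L : ℂ) {y x : ℝ} (hx : 0 < x) (h : x ≤ ‖ww η y‖) :
    |pp L η y| ≤ ‖L‖ / x := by
  refine (Complex.abs_im_le_norm _).trans ?_
  rw [norm_div]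
  gcongr

/-- Derivative in time. -/
theorem EE_dt {η : ℝ} (hη : 0 < η) (L : ℂ) (t y : ℝ) :
    HasDerivAt (fun t => EE L η t y) (2 * rr L η (y + t) * EE L η t y) t := by
  have hw := ww_ne hη y
  have hw' := ww_ne hη (y + t)
  have h1 : HasDerivAt (fun t : ℝ => mm η t y) (1 / ww η y) t := by
    unfold mm
    exact ((Complex.ofRealCLM.hasDerivAt (x := t)).div_const _).const_add 1
  have h2 := (h1.clog_real (mm_slit hη t y)).const_mul L
  have h3 : HasDerivAt (fun t : ℝ => (L * Complex.log (mm η t y)).re)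
      (L * (1 / ww η y / mm η t y)).re t := Complex.reCLM.hasFDerivAt.comp_hasDerivAt t h2
  have h4 := (h3.const_mul 2).exp
  refine h4.congr_deriv ?_
  have h5 : L * (1 / ww η y / mm η t y) = L / ww η (y + t) := by
    rw [mm_eq hη]
    field_simp
  rw [h5]
  unfold EE rr
  ring

/-- Derivative in space. -/
theorem EE_dy {η : ℝ} (hη : 0 < η) (L : ℂ) (t y : ℝ) :
    HasDerivAt (fun y => EE L η t y) (2 * (rr L η (y + t) - rr L η y) * EE L η t y) y := by
  have hw := ww_ne hη y
  have hw' := ww_ne hη (y + t)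
  have h1 : HasDerivAt (fun y : ℝ => mm η t y) (-(t : ℂ) / ww η y ^ 2) y := by
    unfold mm
    have h := ((ww_deriv η y).inv hw).const_mul (t : ℂ)
    have h' := h.const_add (1 : ℂ)
    refine (h'.congr_deriv ?_)
    ring
  have h2 := (h1.clog_real (mm_slit hη t y)).const_mul L
  have h3 : HasDerivAt (fun y : ℝ => (L * Complex.log (mm η t y)).re)
      (L * (-(t : ℂ) / ww η y ^ 2 / mm η t y)).re y :=
    Complex.reCLM.hasFDerivAt.comp_hasDerivAt y h2
  have h4 := (h3.const_mul 2).exp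
  refine h4.congr_deriv ?_
  have h5 : L * (-(t : ℂ) / ww η y ^ 2 / mm η t y) = L / ww η (y + t) - L / ww η y := by
    rw [mm_eq hη]
    field_simp
    rw [ww_add]
    ring
  rw [h5, Complex.sub_re]
  unfold EE rr
  ring

/-- Derivative along the characteristic. -/
theorem EE_dc {η : ℝ} (hη : 0 < η) (L : ℂ) (t y : ℝ) :
    HasDerivAt (fun t => EE L η t (y - t)) (2 * rr L η (y - t) * EE L η t (y - t)) t := by
  have hw := ww_ne hη y
  have hw' := ww_ne hη (y - t)
  have h0 : HasDerivAt (fun t : ℝ => ww η (y - t)) (-1) t := by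
    have he : (fun t : ℝ => ww η (y - t)) = fun t : ℝ => ww η y - (t : ℂ) := by
      funext s
      unfold ww
      push_cast
      ring
    rw [he]
    exact (Complex.ofRealCLM.hasDerivAt (x := t)).const_sub _
  have h1 : HasDerivAt (fun t : ℝ => mm η t (y - t)) (ww η y / ww η (y - t) ^ 2) t := by
    have h : HasDerivAt (fun t : ℝ => ww η y / ww η (y - t))
        ((0 * ww η (y - t) - ww η y * (-1)) / ww η (y - t) ^ 2) t :=
      (hasDerivAt_const t (ww η y)).div h0 hw'
    have he : (fun t : ℝ => mm η t (y - t)) = fun t : ℝ => ww η y / ww η (y - t) := by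
      funext s
      rw [mm_eq hη, sub_add_cancel]
    rw [he]
    refine h.congr_deriv ?_
    ring
  have h2 := (h1.clog_real (mm_slit hη t (y - t))).const_mul L
  have h3 : HasDerivAt (fun t : ℝ => (L * Complex.log (mm η t (y - t))).re)
      (L * (ww η y / ww η (y - t) ^ 2 / mm η t (y - t))).re t :=
    Complex.reCLM.hasFDerivAt.comp_hasDerivAt t h2
  have h4 := (h3.const_mul 2).exp
  refine h4.congr_deriv ?_
  have h5 : L * (ww η y / ww η (y - t) ^ 2 / mm η t (y - t)) = L / ww η (y - t) := by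
    rw [mm_eq hη, sub_add_cancel]
    field_simp
  rw [h5]
  unfold EE rr
  ring

end TCRN

end

end Pool.Agent.SLE
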