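import Pool.Agent.Lib.MP_c17912_pr_TC.RNA

/-!
# MP_c17912_pr, project TC, rank one: the kernel on the circle
-/

set_option autoImplicit false

open MeasureTheory Filter Complex
open scoped Topology Real ComplexConjugate

namespace Pool.Agent.SLE

noncomputable section

namespace TCRN

open NBCir

/-- `1 + t / w` as a function of the Cayley transform of `w`. -/
def cm (τ : ℝ) (z : ℂ) : ℂ := 1 - τ * I + τ * I * z

/-- The integrand of the Dirichlet form. -/
def cR (L : ℂ) (τ v : ℝ) : ℝ :=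
  (ec v * (L * (τ * I) / cm τ (ec v))).re * Real.exp (2 * (L * Complex.log (cm τ (ec v))).re)

theorem norm_one_sub (τ : ℝ) : ‖(1 : ℂ) - τ * I‖ ^ 2 = 1 + τ ^ 2 := by
  rw [← Complex.normSq_eq_norm_sq, Complex.normSq_apply]
  simp
  ring

theorem slit_of {τ : ℝ} {z : ℂ} (h : ‖z - (1 - τ * I)‖ ^ 2 < 1 + τ ^ 2) :
    z ∈ Complex.slitPlane := by
  by_contra hcon
  rw [Complex.mem_slitPlane_iff] at hcon
  push Not at hcon
  rw [← Complex.normSq_eq_norm_sq, Complex.normSq_apply] at h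
  simp [hcon.2] at h
  nlinarith [hcon.1]

theorem cm_slit (τ v : ℝ) : cm τ (ec v) ∈ Complex.slitPlane := by
  refine slit_of (τ := τ) ?_
  have h : cm τ (ec v) - (1 - τ * I) = τ * I * ec v := by
    unfold cm
    ring
  rw [h, norm_mul, ec_norm, norm_mul, Complex.norm_I, Complex.norm_real, mul_one, mul_one,
    Real.norm_eq_abs, sq_abs]
  linarith

theorem cm_slit' {τ : ℝ} (hτ : 0 < τ) {z : ℂ} (hz : ‖z‖ < Real.sqrt (1 + τ ^ 2) / τ) :
    cm τ z ∈ Complex.slitPlane := by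
  refine slit_of (τ := τ) ?_
  have h : cm τ z - (1 - τ * I) = τ * I * z := by
    unfold cm
    ring
  rw [h, norm_mul, norm_mul, Complex.norm_I, Complex.norm_real, mul_one,
    Real.norm_of_nonneg hτ.le]
  rw [lt_div_iff₀ hτ] at hz
  have h1 : 0 ≤ τ * ‖z‖ := by positivity
  have h2 : τ * ‖z‖ < Real.sqrt (1 + τ ^ 2) := by linarith
  have h3 : Real.sqrt (1 + τ ^ 2) ^ 2 = 1 + τ ^ 2 := Real.sq_sqrt (by positivity)
  rw [← h3]
  gcongr

theorem cm_deriv (τ : ℝ) (z : ℂ) : HasDerivAt (cm τ) (τ * I) z := by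
  unfold cm
  have h := ((hasDerivAt_id z).const_mul ((τ : ℂ) * I)).const_add (1 - (τ : ℂ) * I)
  rw [mul_one] at h
  exact h

/-- The holomorphic function. -/
def cG (L : ℂ) (τ : ℝ) (z : ℂ) : ℂ := Complex.exp (L * Complex.log (cm τ z))

theorem cG_deriv (L : ℂ) {τ : ℝ} {z : ℂ} (h : cm τ z ∈ Complex.slitPlane) :
    HasDerivAt (cG L τ) (L * (τ * I) / cm τ z * cG L τ z) z := by
  have h1 := (((cm_deriv τ z).clog h).const_mul L).cexp
  refine h1.congr_deriv ?_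
  unfold cG
  ring

theorem norm_exp_sq (u : ℂ) : Complex.exp u * conj (Complex.exp u) = (Real.exp (2 * u.re) : ℂ) := by
  rw [Complex.mul_conj, Complex.normSq_eq_norm_sq, Complex.norm_exp, ← Real.exp_nat_mul]
  push_cast
  rfl

/-- The Dirichlet form is positive. -/
theorem circ_int_pos {L : ℂ} (hL : L ≠ 0) {τ : ℝ} (hτ : 0 < τ) :
    0 < ∫ v in (0 : ℝ)..(2 * π), cR L τ v := by
  have hR : 1 < Real.sqrt (1 + τ ^ 2) / τ := by
    rw [lt_div_iff₀ hτ, one_mul]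
    exact Real.lt_sqrt_of_sq_lt (by linarith)
  have hd : ∀ z ∈ Metric.ball (0 : ℂ) (Real.sqrt (1 + τ ^ 2) / τ),
      HasDerivAt (cG L τ) (L * (τ * I) / cm τ z * cG L τ z) z := by
    intro z hz
    rw [mem_ball_zero_iff] at hz
    exact cG_deriv L (cm_slit' hτ hz)
  have hG : DifferentiableOn ℂ (cG L τ) (Metric.ball 0 (Real.sqrt (1 + τ ^ 2) / τ)) :=
    fun z hz => (hd z hz).differentiableAt.differentiableWithinAt
  have h0 : deriv (cG L τ) 0 ≠ 0 := by
    have hm : (0 : ℂ) ∈ Metric.ball (0 : ℂ) (Real.sqrt (1 + τ ^ 2) / τ) :=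
      Metric.mem_ball_self (by linarith)
    rw [(hd 0 hm).deriv]
    have h1 : cm τ 0 ≠ 0 := by
      refine Complex.slitPlane_ne_zero (cm_slit' hτ ?_)
      rw [norm_zero]
      linarith
    refine mul_ne_zero (div_ne_zero (mul_ne_zero hL (mul_ne_zero ?_ I_ne_zero)) h1)
      (Complex.exp_ne_zero _)
    exact Complex.ofReal_ne_zero.2 hτ.ne'
  have h := (circ_pos hR hG).2 h0
  have he : ∀ v : ℝ, (ec v * deriv (cG L τ) (ec v) * conj (cG L τ (ec v))).re = cR L τ v := by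
    intro v
    rw [(cG_deriv L (cm_slit τ v)).deriv]
    have h2 : ec v * (L * (τ * I) / cm τ (ec v) * cG L τ (ec v)) * conj (cG L τ (ec v)) =
        ec v * (L * (τ * I) / cm τ (ec v)) * (cG L τ (ec v) * conj (cG L τ (ec v))) := by ring
    rw [h2]
    unfold cG
    rw [norm_exp_sq, Complex.re_mul_ofReal]
    rfl
  simp only [he] at h
  exact h

theorem cR_cont (L : ℂ) : Continuous fun p : ℝ × ℝ => cR L p.1 p.2 := by
  have h1 : Continuous fun p : ℝ × ℝ => ec p.2 := ec_cont.comp continuous_snd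
  have h0 : Continuous fun p : ℝ × ℝ => (p.1 : ℂ) := Complex.continuous_ofReal.comp continuous_fst
  have h2 : Continuous fun p : ℝ × ℝ => cm p.1 (ec p.2) := by
    unfold cm
    exact ((continuous_const.sub (h0.mul continuous_const)).add
      ((h0.mul continuous_const).mul h1))
  have h3 : Continuous fun p : ℝ × ℝ => Complex.log (cm p.1 (ec p.2)) :=
    h2.clog fun p => cm_slit _ _
  unfold cR
  refine Continuous.mul ?_ ?_
  · refine Complex.continuous_re.comp (h1.mul (Continuous.div ?_ h2 fun p => ?_))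
    · exact continuous_const.mul (h0.mul continuous_const)
    · exact Complex.slitPlane_ne_zero (cm_slit _ _)
  · exact Real.continuous_exp.comp (continuous_const.mul
      (Complex.continuous_re.comp (continuous_const.mul h3)))

theorem cm_norm_le {τ : ℝ} (hτ : 0 ≤ τ) (v : ℝ) : ‖cm τ (ec v)‖ ≤ 1 + 2 * τ := by
  unfold cm
  refine (norm_add_le _ _).trans ?_
  have h1 : ‖(1 : ℂ) - τ * I‖ ≤ 1 + τ := by
    refine (norm_sub_le _ _).trans ?_
    rw [norm_one, norm_mul, Complex.norm_I, Complex.norm_real, mul_one, Real.norm_of_nonneg hτ]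
  have h2 : ‖(τ : ℂ) * I * ec v‖ = τ := by
    rw [norm_mul, norm_mul, Complex.norm_I, Complex.norm_real, mul_one, ec_norm, mul_one,
      Real.norm_of_nonneg hτ]
  linarith

theorem cm_norm_ge {τ : ℝ} (hτ : 0 ≤ τ) (v : ℝ) : 1 ≤ ‖cm τ (ec v)‖ * (1 + 2 * τ) := by
  have h2 : ‖(τ : ℂ) * I * ec v‖ = τ := by
    rw [norm_mul, norm_mul, Complex.norm_I, Complex.norm_real, mul_one, ec_norm, mul_one,
      Real.norm_of_nonneg hτ]
  have h3 : ‖(1 : ℂ) - τ * I‖ ≤ ‖cm τ (ec v)‖ + τ := by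
    have h4 : (1 : ℂ) - τ * I = cm τ (ec v) - τ * I * ec v := by
      unfold cm
      ring
    have h5 := norm_sub_le (cm τ (ec v)) ((τ : ℂ) * I * ec v)
    rw [← h4, h2] at h5
    exact h5
  have h6 := norm_one_sub τ
  obtain ⟨x, hx⟩ : ∃ x, x = ‖(1 : ℂ) - τ * I‖ := ⟨_, rfl⟩
  obtain ⟨y, hy⟩ : ∃ y, y = ‖cm τ (ec v)‖ := ⟨_, rfl⟩
  rw [← hx] at h3 h6
  rw [← hy] at h3 ⊢
  have hx0 : 0 ≤ x := hx ▸ norm_nonneg _
  have hy0 : 0 ≤ y := hy ▸ norm_nonneg _
  have hx1 : x ≤ 1 + τ := by nlinarith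
  have hx2 : τ ≤ x := by nlinarith
  nlinarith

theorem cR_le {L : ℂ} {k : ℕ} (hk : 2 * ‖L‖ ≤ k) {τ : ℝ} (hτ : 0 ≤ τ) (v : ℝ) :
    |cR L τ v| ≤ ‖L‖ * τ * (1 + 2 * τ) * (Real.exp (2 * ‖L‖ * π) * (1 + 2 * τ) ^ k) := by
  have h1 := exp_bound (L := L) (m := cm τ (ec v)) (x := 1 + 2 * τ) (by linarith)
    (cm_norm_le hτ v) (cm_norm_ge hτ v) hk
  unfold cR
  rw [abs_mul, abs_of_pos (Real.exp_pos _)]
  have h2 : |(ec v * (L * (τ * I) / cm τ (ec v))).re| ≤ ‖L‖ * τ * (1 + 2 * τ) := by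
    refine (Complex.abs_re_le_norm _).trans ?_
    rw [norm_mul, ec_norm, one_mul, norm_div, norm_mul, norm_mul, Complex.norm_I,
      Complex.norm_real, mul_one, Real.norm_of_nonneg hτ]
    have h3 : 0 < ‖cm τ (ec v)‖ := norm_pos_iff.2 (Complex.slitPlane_ne_zero (cm_slit τ v))
    rw [div_le_iff₀ h3]
    have h4 := cm_norm_ge hτ v
    have h5 : 0 ≤ ‖L‖ * τ := by positivity
    nlinarith
  have h3 : 0 ≤ Real.exp (2 * ‖L‖ * π) * (1 + 2 * τ) ^ k := by positivity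
  have h4 : (0 : ℝ) ≤ |(ec v * (L * (τ * I) / cm τ (ec v))).re| := abs_nonneg _
  calc _ ≤ |(ec v * (L * (τ * I) / cm τ (ec v))).re| *
        (Real.exp (2 * ‖L‖ * π) * (1 + 2 * τ) ^ k) := by gcongr
    _ ≤ _ := by gcongr

/-- The real coordinate as a function of the angle. -/
def yv (η v : ℝ) : ℝ := -(η * (Real.cos (v / 2) / Real.sin (v / 2)))

theorem ec_half (v : ℝ) : ec v = ((Real.cos (v / 2) : ℂ) + Real.sin (v / 2) * I) ^ 2 := by
  have h1 : (Real.cos (v / 2) : ℂ) + Real.sin (v / 2) * I = Complex.exp ((v / 2 : ℝ) * I) := by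
    rw [Complex.exp_mul_I, Complex.ofReal_cos, Complex.ofReal_sin]
  rw [h1, ← Complex.exp_nat_mul]
  unfold ec
  congr 1
  push_cast
  ring

theorem ww_mul (η : ℝ) {v : ℝ} (hs : Real.sin (v / 2) ≠ 0) :
    ww η (yv η v) * (1 - ec v) = 2 * η * I := by
  have hs' : (Real.sin (v / 2) : ℂ) ≠ 0 := Complex.ofReal_ne_zero.2 hs
  rw [ec_half]
  have h2 : (Real.cos (v / 2) : ℂ) ^ 2 + (Real.sin (v / 2) : ℂ) ^ 2 = 1 := by
    have := Real.cos_sq_add_sin_sq (v / 2)
    exact_mod_cast this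
  unfold ww yv
  obtain ⟨c, hc⟩ : ∃ c : ℝ, c = Real.cos (v / 2) := ⟨_, rfl⟩
  obtain ⟨s, hs⟩ : ∃ s : ℝ, s = Real.sin (v / 2) := ⟨_, rfl⟩
  rw [← hc, ← hs] at h2 ⊢
  rw [← hs] at hs'
  push_cast
  field_simp
  linear_combination ((η : ℂ) * c + η * s * I) * h2 - ((η : ℂ) * c * s ^ 2 + η * s ^ 3 * I) * I_sq

theorem inv_ww {η : ℝ} (hη : 0 < η) {v : ℝ} (hs : Real.sin (v / 2) ≠ 0) :
    (ww η (yv η v))⁻¹ = (1 - ec v) / (2 * η * I) := by
  have hη' : (η : ℂ) ≠ 0 := Complex.ofReal_ne_zero.2 hη.ne'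
  have h1 : (2 : ℂ) * η * I ≠ 0 := mul_ne_zero (mul_ne_zero two_ne_zero hη') I_ne_zero
  rw [eq_div_iff h1, ← ww_mul η hs, ← mul_assoc, inv_mul_cancel₀ (ww_ne hη _), one_mul]

theorem mm_cm {η : ℝ} (hη : 0 < η) {v : ℝ} (hs : Real.sin (v / 2) ≠ 0) (t : ℝ) :
    mm η t (yv η v) = cm (t / (2 * η)) (ec v) := by
  have hη' : (η : ℂ) ≠ 0 := Complex.ofReal_ne_zero.2 hη.ne'
  unfold mm cm
  rw [div_eq_mul_inv, inv_ww hη hs]
  push_cast
  have h1 : (2 * (η : ℂ) * I)⁻¹ = -(I / (2 * η)) := by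
    field_simp
    rw [I_sq]
    ring
  rw [div_eq_mul_inv, h1]
  ring

theorem yv_deriv (η : ℝ) {v : ℝ} (hs : Real.sin (v / 2) ≠ 0) :
    HasDerivAt (yv η) (η / (2 * Real.sin (v / 2) ^ 2)) v := by
  have h0 : HasDerivAt (fun v : ℝ => v / 2) (1 / 2) v := (hasDerivAt_id v).div_const 2
  have h1 := ((h0.cos.div h0.sin hs).const_mul η).neg
  refine h1.congr_deriv ?_
  have h2 := Real.cos_sq_add_sin_sq (v / 2)
  field_simp
  linear_combination η * h2

/-- The change of variables. -/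
theorem cR_eq {η : ℝ} (hη : 0 < η) (L : ℂ) {v : ℝ} (hs : Real.sin (v / 2) ≠ 0) (t : ℝ) :
    (pp L η (yv η v + t) - pp L η (yv η v)) * EE L η t (yv η v) *
      (η / (2 * Real.sin (v / 2) ^ 2)) = cR L (t / (2 * η)) v := by
  have hη' : (η : ℂ) ≠ 0 := Complex.ofReal_ne_zero.2 hη.ne'
  have hm := Complex.slitPlane_ne_zero (mm_slit hη t (yv η v))
  have hw := ww_ne hη (yv η v)
  have hw' := ww_ne hη (yv η v + t)
  have hs' : (Real.sin (v / 2) : ℂ) ≠ 0 := Complex.ofReal_ne_zero.2 hs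
  have h1 : (1 - ec v) ^ 2 = -4 * (Real.sin (v / 2) : ℂ) ^ 2 * ec v := by
    have h2 : (Real.cos (v / 2) : ℂ) ^ 2 + (Real.sin (v / 2) : ℂ) ^ 2 = 1 := by
      have := Real.cos_sq_add_sin_sq (v / 2)
      exact_mod_cast this
    rw [ec_half]
    obtain ⟨c, hc⟩ : ∃ c : ℝ, c = Real.cos (v / 2) := ⟨_, rfl⟩
    obtain ⟨s, hs⟩ : ∃ s : ℝ, s = Real.sin (v / 2) := ⟨_, rfl⟩
    rw [← hc, ← hs] at h2 ⊢
    have hA : (1 : ℂ) - (c + s * I) ^ 2 = -(2 * s * I) * (c + s * I) := by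
      linear_combination (-1 : ℂ) * h2 + (s : ℂ) ^ 2 * I_sq
    rw [hA]
    linear_combination 4 * (s : ℂ) ^ 2 * (c + s * I) ^ 2 * I_sq
  have h3 : pp L η (yv η v + t) - pp L η (yv η v) =
      (-(L * t * ((ww η (yv η v))⁻¹) ^ 2 / mm η t (yv η v))).im := by
    unfold pp
    rw [← Complex.sub_im]
    congr 1
    rw [mm_eq hη, ww_add]
    rw [ww_add] at hw'
    field_simp
    ring
  rw [h3, inv_ww hη hs, mm_cm hη hs, div_pow, h1]
  unfold cR EE
  rw [mm_cm hη hs, mul_right_comm]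
  congr 1
  have hx : ∀ (z : ℂ) (x : ℝ), z.im * x = (z * x).im := fun z x => by
    rw [Complex.im_mul_ofReal]
  rw [hx]
  have h4 : ∀ z : ℂ, z.im = (-(z * I)).re := fun z => by simp
  rw [h4]
  congr 1
  have hm' : cm (t / (2 * η)) (ec v) ≠ 0 := Complex.slitPlane_ne_zero (cm_slit _ _)
  obtain ⟨s, hs2⟩ : ∃ s : ℝ, s = Real.sin (v / 2) := ⟨_, rfl⟩
  rw [← hs2] at hs' ⊢
  push_cast
  field_simp
  linear_combination (-4 * L * t * ec v) * I_sq

/-- The window in the angle. -/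
def dN (η N : ℝ) : ℝ := 2 * Real.arctan (η / N)

theorem dN_pos {η N : ℝ} (hη : 0 < η) (hN : 0 < N) : 0 < dN η N := by
  unfold dN
  have := Real.arctan_pos.2 (div_pos hη hN)
  linarith

theorem dN_lt (η N : ℝ) : dN η N < π := by
  unfold dN
  have := Real.arctan_lt_pi_div_two (η / N)
  linarith

theorem dN_le {η N : ℝ} (hη : 0 < η) (hN : 0 < N) : dN η N ≤ 2 * (η / N) := by
  unfold dN
  have h := Real.lt_tan (Real.arctan_pos.2 (div_pos hη hN)) (Real.arctan_lt_pi_div_two (η / N))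
  rw [Real.tan_arctan] at h
  linarith

theorem yv_dN {η N : ℝ} (hη : 0 < η) (hN : 0 < N) : yv η (dN η N) = -N := by
  unfold yv dN
  have h1 : 2 * Real.arctan (η / N) / 2 = Real.arctan (η / N) := by ring
  rw [h1]
  have h2 : Real.cos (Real.arctan (η / N)) / Real.sin (Real.arctan (η / N)) = N / η := by
    have h3 := Real.tan_arctan (η / N)
    rw [Real.tan_eq_sin_div_cos] at h3
    rw [← inv_div, h3, inv_div]
  rw [h2]
  field_simp

theorem yv_refl (η v : ℝ) : yv η (2 * π - v) = -yv η v := by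
  unfold yv
  have h1 : (2 * π - v) / 2 = π - v / 2 := by ring
  rw [h1, Real.cos_pi_sub, Real.sin_pi_sub]
  ring

theorem sin_pos_of_mem {η N : ℝ} (hη : 0 < η) (hN : 0 < N) {v : ℝ}
    (hv : v ∈ Set.uIcc (dN η N) (2 * π - dN η N)) : 0 < Real.sin (v / 2) := by
  have h1 := dN_pos hη hN
  have h2 := dN_lt η N
  rw [Set.uIcc_of_le (by linarith)] at hv
  exact Real.sin_pos_of_pos_of_lt_pi (by linarith [hv.1]) (by linarith [hv.2])

/-- The integral over a window. -/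
theorem win {η : ℝ} (hη : 0 < η) (L : ℂ) (t : ℝ) {N : ℝ} (hN : 0 < N) :
    ∫ y in (-N)..N, (pp L η (y + t) - pp L η y) * EE L η t y =
      ∫ v in (dN η N)..(2 * π - dN η N), cR L (t / (2 * η)) v := by
  have hg : Continuous fun y => (pp L η (y + t) - pp L η y) * EE L η t y := by
    have h1 := pp_cont hη L
    have h2 : Continuous fun y => EE L η t y :=
      continuous_iff_continuousAt.2 fun y => (EE_dy hη L t y).continuousAt
    have h3 : Continuous fun y : ℝ => pp L η (y + t) := h1.comp (continuous_add_const t)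
    exact (h3.sub h1).mul h2
  have h := intervalIntegral.integral_comp_mul_deriv (a := dN η N) (b := 2 * π - dN η N)
    (f := yv η) (f' := fun v => η / (2 * Real.sin (v / 2) ^ 2))
    (g := fun y => (pp L η (y + t) - pp L η y) * EE L η t y) ?_ ?_ hg
  · rw [yv_refl, yv_dN hη hN, neg_neg] at h
    rw [← h]
    apply intervalIntegral.integral_congr
    intro v hv
    change (pp L η (yv η v + t) - pp L η (yv η v)) * EE L η t (yv η v) *
      (η / (2 * Real.sin (v / 2) ^ 2)) = _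
    exact cR_eq hη L (sin_pos_of_mem hη hN hv).ne' t
  · intro v hv
    exact yv_deriv η (sin_pos_of_mem hη hN hv).ne'
  · have h3 : Continuous fun v : ℝ => 2 * Real.sin (v / 2) ^ 2 := by fun_prop
    refine ContinuousOn.div continuousOn_const h3.continuousOn fun v hv => ?_
    have := sin_pos_of_mem hη hN hv
    positivity

/-- The lower bound of the integral over a window. -/
theorem win_ge {η : ℝ} (hη : 0 < η) {L : ℂ} {k : ℕ} (hk : 2 * ‖L‖ ≤ k) {t : ℝ} (ht : 0 ≤ t)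
    {N : ℝ} (hN : 0 < N) :
    (∫ v in (0 : ℝ)..(2 * π), cR L (t / (2 * η)) v) -
      ‖L‖ * 2 * Real.exp (2 * ‖L‖ * π) * (1 + t / η) ^ (k + 2) * η / N ≤
    ∫ y in (-N)..N, (pp L η (y + t) - pp L η y) * EE L η t y := by
  rw [win hη L t hN]
  have hd0 := dN_pos hη hN
  have hd1 := dN_le hη hN
  obtain ⟨τ, hτ⟩ : ∃ τ, τ = t / (2 * η) := ⟨_, rfl⟩
  rw [← hτ]
  have hτ0 : 0 ≤ τ := by
    rw [hτ]
    positivity
  have ht2 : 1 + t / η = 1 + 2 * τ := by
    rw [hτ]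
    field_simp
  rw [ht2]
  have hc : Continuous fun v => cR L τ v :=
    (cR_cont L).comp (continuous_const.prodMk continuous_id)
  have hi : ∀ x y : ℝ, IntervalIntegrable (fun v => cR L τ v) volume x y :=
    fun x y => hc.intervalIntegrable x y
  have h1 : (∫ v in (0 : ℝ)..(2 * π), cR L τ v) =
      (∫ v in (0 : ℝ)..(dN η N), cR L τ v) +
        (∫ v in (dN η N)..(2 * π - dN η N), cR L τ v) +
        ∫ v in (2 * π - dN η N)..(2 * π), cR L τ v := by
    rw [intervalIntegral.integral_add_adjacent_intervals (hi _ _) (hi _ _),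
      intervalIntegral.integral_add_adjacent_intervals (hi _ _) (hi _ _)]
  obtain ⟨M, hM⟩ : ∃ M, M = ‖L‖ * τ * (1 + 2 * τ) *
    (Real.exp (2 * ‖L‖ * π) * (1 + 2 * τ) ^ k) := ⟨_, rfl⟩
  have hb : ∀ x y : ℝ, x ≤ y → ∫ v in x..y, cR L τ v ≤ M * (y - x) := by
    intro x y hxy
    have h2 := intervalIntegral.norm_integral_le_of_norm_le_const (a := x) (b := y)
      (f := fun v => cR L τ v) (C := M) (fun v _ => by
        rw [hM, Real.norm_eq_abs]
        exact cR_le hk hτ0 v)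
    rw [abs_of_nonneg (by linarith : (0 : ℝ) ≤ y - x)] at h2
    exact (le_abs_self _).trans h2
  have h2 := hb 0 (dN η N) hd0.le
  have h3 := hb (2 * π - dN η N) (2 * π) (by linarith)
  have hM0 : 0 ≤ M := by
    rw [hM]
    positivity
  have h4 : M * (2 * dN η N) ≤ ‖L‖ * 2 * Real.exp (2 * ‖L‖ * π) * (1 + 2 * τ) ^ (k + 2) *
      η / N := by
    have h5 : M * (2 * dN η N) ≤ M * (4 * (η / N)) := by
      have : 2 * dN η N ≤ 4 * (η / N) := by linarith
      gcongr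
    refine h5.trans ?_
    have h6 : 2 * τ ≤ 1 + 2 * τ := by linarith
    have h7 : M * (4 * (η / N)) = ‖L‖ * 2 * Real.exp (2 * ‖L‖ * π) *
      ((2 * τ) * (1 + 2 * τ) ^ (k + 1)) * η / N := by
      rw [hM]
      ring
    rw [h7]
    have h8 : (2 * τ) * (1 + 2 * τ) ^ (k + 1) ≤ (1 + 2 * τ) ^ (k + 2) := by
      rw [pow_succ (1 + 2 * τ) (k + 1), mul_comm]
      gcongr
    gcongr
  linarith

end TCRN

end

end Pool.Agent.SLE
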