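import Pool.Agent.Lib.MP_c17912_pr_TC.RNB

/-!
# MP_c17912_pr, project TC, rank one: the core inequality
-/

set_option autoImplicit false

open MeasureTheory Filter Complex
open scoped Topology Real ComplexConjugate

namespace Pool.Agent.SLE

noncomputable section

namespace TCRN

open NBCir

/-- The kernel with its exponential weight. -/
def ek (L : ℂ) (η γ t y : ℝ) : ℝ := Real.exp (-γ * t) * EE L η t y

theorem EE_zero (L : ℂ) (η y : ℝ) : EE L η 0 y = 1 := by
  unfold EE mm
  simp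

theorem ek_zero (L : ℂ) (η γ y : ℝ) : ek L η γ 0 y = 1 := by
  unfold ek
  rw [EE_zero]
  simp

theorem ek_cont {η : ℝ} (hη : 0 < η) (L : ℂ) (γ : ℝ) :
    Continuous fun p : ℝ × ℝ => ek L η γ p.1 p.2 := by
  unfold ek
  exact (Real.continuous_exp.comp (continuous_const.mul continuous_fst)).mul (EE_cont hη L)

theorem exp_dt (γ t : ℝ) : HasDerivAt (fun t : ℝ => Real.exp (-γ * t))
    (-γ * Real.exp (-γ * t)) t := by
  have h := ((hasDerivAt_id t).const_mul (-γ)).exp
  refine h.congr_deriv ?_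
  simp
  ring

theorem ek_dt {η : ℝ} (hη : 0 < η) (L : ℂ) (γ t y : ℝ) :
    HasDerivAt (fun t => ek L η γ t y) ((-γ + 2 * rr L η (y + t)) * ek L η γ t y) t := by
  have h := (exp_dt γ t).mul (EE_dt hη L t y)
  refine h.congr_deriv ?_
  unfold ek
  ring

theorem ek_dc {η : ℝ} (hη : 0 < η) (L : ℂ) (γ t y : ℝ) :
    HasDerivAt (fun t => ek L η γ t (y - t))
      ((-γ + 2 * rr L η (y - t)) * ek L η γ t (y - t)) t := by
  have h := (exp_dt γ t).mul (EE_dc hη L t y)
  refine h.congr_deriv ?_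
  unfold ek
  ring

theorem ek_t_cont {η : ℝ} (hη : 0 < η) (L : ℂ) (γ y : ℝ) : Continuous fun t => ek L η γ t y :=
  continuous_iff_continuousAt.2 fun t => (ek_dt hη L γ t y).continuousAt

theorem ek_c_cont {η : ℝ} (hη : 0 < η) (L : ℂ) (γ y : ℝ) :
    Continuous fun t => ek L η γ t (y - t) :=
  continuous_iff_continuousAt.2 fun t => (ek_dc hη L γ t y).continuousAt

theorem ek_y_cont {η : ℝ} (hη : 0 < η) (L : ℂ) (γ t : ℝ) : Continuous fun y => ek L η γ t y := by
  have h2 : Continuous fun y => EE L η t y :=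
    continuous_iff_continuousAt.2 fun y => (EE_dy hη L t y).continuousAt
  exact continuous_const.mul h2

theorem D_rep {η : ℝ} (hη : 0 < η) (L : ℂ) (γ : ℝ) {D : ℝ → ℝ}
    (hD : ∀ y, HasDerivAt D (-1 + (γ - 2 * rr L η y) * D y) y) (y T : ℝ) :
    D y = (∫ t in (0 : ℝ)..T, ek L η γ t y) + D (y + T) * ek L η γ T y := by
  have hd : ∀ t, HasDerivAt (fun t => D (y + t) * ek L η γ t y) (-ek L η γ t y) t := by
    intro t
    have h1 : HasDerivAt (fun t => D (y + t)) (-1 + (γ - 2 * rr L η (y + t)) * D (y + t)) t :=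
      (hD (y + t)).comp_const_add y t
    refine (h1.mul (ek_dt hη L γ t y)).congr_deriv ?_
    ring
  have h := intervalIntegral.integral_eq_sub_of_hasDerivAt (a := 0) (b := T) (fun t _ => hd t)
    ((ek_t_cont hη L γ y).neg.intervalIntegrable _ _)
  rw [intervalIntegral.integral_neg, add_zero, ek_zero] at h
  linarith

theorem P_rep {η : ℝ} (hη : 0 < η) (L : ℂ) (γ : ℝ) {P : ℝ → ℝ}
    (hP : ∀ y, HasDerivAt P (1 - (γ - 2 * rr L η y) * P y) y) (y T : ℝ) :
    P y = (∫ t in (0 : ℝ)..T, ek L η γ t (y - t)) + P (y - T) * ek L η γ T (y - T) := by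
  have hd : ∀ t, HasDerivAt (fun t => P (y - t) * ek L η γ t (y - t))
      (-ek L η γ t (y - t)) t := by
    intro t
    have h1 : HasDerivAt (fun t => P (y - t)) (-(1 - (γ - 2 * rr L η (y - t)) * P (y - t))) t :=
      (hP (y - t)).comp_const_sub y t
    refine (h1.mul (ek_dc hη L γ t y)).congr_deriv ?_
    ring
  have h := intervalIntegral.integral_eq_sub_of_hasDerivAt (a := 0) (b := T) (fun t _ => hd t)
    ((ek_c_cont hη L γ y).neg.intervalIntegrable _ _)
  rw [intervalIntegral.integral_neg, sub_zero, ek_zero] at h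
  linarith

/-- Exponentials beat powers. -/
theorem pow_le_exp {η γ : ℝ} (hη : 0 < η) (hγ : 0 < γ) (m : ℕ) :
    ∃ K, 0 < K ∧ ∀ t, 0 ≤ t →
      Real.exp (-γ * t) * (1 + t / η) ^ m ≤ K * Real.exp (-(γ / 2) * t) := by
  obtain ⟨q, hq⟩ : ∃ q : ℝ, q = 2 * ((m : ℝ) + 1) := ⟨_, rfl⟩
  have hq0 : 0 < q := by
    rw [hq]
    positivity
  refine ⟨(1 + q / (γ * η)) ^ m, by positivity, fun t ht => ?_⟩
  have h1 : 1 + t / η ≤ (1 + q / (γ * η)) * Real.exp (γ * t / q) := by
    have h2 : γ * t / q ≤ Real.exp (γ * t / q) := by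
      have := Real.add_one_le_exp (γ * t / q)
      linarith
    have h3 : 1 ≤ Real.exp (γ * t / q) := Real.one_le_exp (by positivity)
    have h4 : t / η = q / (γ * η) * (γ * t / q) := by field_simp
    have h5 : q / (γ * η) * (γ * t / q) ≤ q / (γ * η) * Real.exp (γ * t / q) := by gcongr
    rw [h4]
    linarith
  have h2 : (1 + t / η) ^ m ≤ (1 + q / (γ * η)) ^ m * Real.exp (γ * t / q) ^ m := by
    rw [← mul_pow]
    have : 0 ≤ t / η := by positivity
    gcongr
  have h3 : Real.exp (γ * t / q) ^ m ≤ Real.exp (γ / 2 * t) := by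
    rw [← Real.exp_nat_mul]
    apply Real.exp_le_exp.2
    rw [hq]
    rw [mul_div_assoc', div_le_iff₀ (by positivity)]
    nlinarith [mul_nonneg hγ.le ht]
  calc Real.exp (-γ * t) * (1 + t / η) ^ m
      ≤ Real.exp (-γ * t) * ((1 + q / (γ * η)) ^ m * Real.exp (γ / 2 * t)) := by
        gcongr
        exact h2.trans (by gcongr)
    _ = (1 + q / (γ * η)) ^ m * Real.exp (-(γ / 2) * t) := by
        rw [mul_left_comm, ← Real.exp_add]
        congr 2
        ring

theorem p_bd {η : ℝ} (hη : 0 < η) (L : ℂ) {N t u : ℝ} (hN : 0 < N) (ht : 0 ≤ t)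
    (hu : N ≤ |u| + t) : |pp L η u| ≤ ‖L‖ * (1 + t / η) / N := by
  have h1 := ww_ge hη u
  have h2 := ww_ge' η u
  have h3 : N ≤ ‖ww η u‖ * (1 + t / η) := by
    have h4 : t ≤ ‖ww η u‖ * (t / η) := by
      have : t = η * (t / η) := by field_simp
      calc t = η * (t / η) := this
        _ ≤ _ := by gcongr
    linarith
  have h5 : 0 < 1 + t / η := by positivity
  have h6 : N / (1 + t / η) ≤ ‖ww η u‖ := by
    rw [div_le_iff₀ h5]
    exact h3
  refine (pp_le' η L (div_pos hN h5) h6).trans (le_of_eq ?_)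
  field_simp

/-- The lower bound for one separation. -/
theorem jN_ge {η γ : ℝ} (hη : 0 < η) {L : ℂ} {k : ℕ} (hk : 2 * ‖L‖ ≤ k) {t : ℝ} (ht : 0 ≤ t)
    {N : ℝ} (hN : 0 < N) :
    Real.exp (-γ * t) * (∫ v in (0 : ℝ)..(2 * π), cR L (t / (2 * η)) v) -
      4 * ‖L‖ * Real.exp (2 * ‖L‖ * π) * η / N * (Real.exp (-γ * t) * (1 + t / η) ^ (k + 2)) ≤
    ∫ y in (-N)..N, pp L η y * (ek L η γ t (y - t) - ek L η γ t y) := by
  have hpc := pp_cont hη L
  have hec := ek_y_cont hη L γ t
  have h0 : ∀ x z : ℝ, IntervalIntegrable (fun y => pp L η (y + t) * ek L η γ t y) volume x z :=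
    fun x z => ((hpc.comp (continuous_add_const t)).mul hec).intervalIntegrable x z
  have h0' : IntervalIntegrable (fun y => pp L η y * ek L η γ t y) volume (-N) N :=
    (hpc.mul hec).intervalIntegrable _ _
  have h1 : ∫ y in (-N)..N, pp L η y * (ek L η γ t (y - t) - ek L η γ t y) =
      (∫ y in (-N)..N, pp L η y * ek L η γ t (y - t)) -
        ∫ y in (-N)..N, pp L η y * ek L η γ t y := by
    rw [← intervalIntegral.integral_sub]
    · apply intervalIntegral.integral_congr
      intro y _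
      change pp L η y * (ek L η γ t (y - t) - ek L η γ t y) = _
      ring
    · exact (hpc.mul (hec.comp (continuous_sub_right t))).intervalIntegrable _ _
    · exact h0'
  have h2 : ∫ y in (-N)..N, pp L η y * ek L η γ t (y - t) =
      ∫ y in (-N - t)..(N - t), pp L η (y + t) * ek L η γ t y := by
    rw [← intervalIntegral.integral_comp_sub_right
      (fun y => pp L η (y + t) * ek L η γ t y) t]
    apply intervalIntegral.integral_congr
    intro y _
    change pp L η y * ek L η γ t (y - t) = pp L η (y - t + t) * ek L η γ t (y - t)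
    rw [sub_add_cancel]
  have h3 : ∫ y in (-N - t)..(N - t), pp L η (y + t) * ek L η γ t y =
      (∫ y in (-N - t)..(-N), pp L η (y + t) * ek L η γ t y) +
      (∫ y in (-N)..N, pp L η (y + t) * ek L η γ t y) -
        ∫ y in (N - t)..N, pp L η (y + t) * ek L η γ t y := by
    rw [intervalIntegral.integral_add_adjacent_intervals (h0 _ _) (h0 _ _), eq_sub_iff_add_eq,
      intervalIntegral.integral_add_adjacent_intervals (h0 _ _) (h0 _ _)]
  have h4 : (∫ y in (-N)..N, pp L η (y + t) * ek L η γ t y) -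
      ∫ y in (-N)..N, pp L η y * ek L η γ t y =
      Real.exp (-γ * t) * ∫ y in (-N)..N, (pp L η (y + t) - pp L η y) * EE L η t y := by
    rw [← intervalIntegral.integral_sub (h0 _ _) h0', ← intervalIntegral.integral_const_mul]
    apply intervalIntegral.integral_congr
    intro y _
    change pp L η (y + t) * ek L η γ t y - pp L η y * ek L η γ t y = _
    unfold ek
    ring
  have h5 := win_ge hη hk ht hN
  obtain ⟨X, hX⟩ : ∃ X, X = ∫ y in (-N)..N, (pp L η (y + t) - pp L η y) * EE L η t y :=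
    ⟨_, rfl⟩
  obtain ⟨A, hA⟩ : ∃ A, A = ∫ v in (0 : ℝ)..(2 * π), cR L (t / (2 * η)) v := ⟨_, rfl⟩
  rw [← hX] at h4 h5
  rw [← hA] at h5 ⊢
  obtain ⟨E, hE⟩ : ∃ E, E = Real.exp (2 * ‖L‖ * π) := ⟨_, rfl⟩
  obtain ⟨x, hx⟩ : ∃ x, x = 1 + t / η := ⟨_, rfl⟩
  obtain ⟨g, hg⟩ : ∃ g, g = Real.exp (-γ * t) := ⟨_, rfl⟩
  have hE0 : 0 < E := hE ▸ Real.exp_pos _
  have hg0 : 0 < g := hg ▸ Real.exp_pos _
  have hx0 : 0 < x := by
    rw [hx]
    positivity
  have htx : t ≤ η * x := by
    rw [hx, mul_add, mul_div_cancel₀ _ hη.ne']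
    linarith
  have hek : ∀ y, ek L η γ t y ≤ g * (E * x ^ k) := by
    intro y
    unfold ek
    rw [← hg, hE, hx]
    have := EE_le hη hk ht y
    gcongr
  have hek0 : ∀ y, 0 ≤ ek L η γ t y := fun y =>
    (mul_pos (Real.exp_pos _) (EE_pos _ _ _ _)).le
  have hbd : ∀ a b : ℝ, a ≤ b → b - a = t → (∀ y ∈ Set.Icc a b, N ≤ |y + t| + t) →
      |∫ y in a..b, pp L η (y + t) * ek L η γ t y| ≤ ‖L‖ * E * η / N * (g * x ^ (k + 2)) := by
    intro a b hab hba hy
    have h6 := intervalIntegral.norm_integral_le_of_norm_le_const (a := a) (b := b)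
      (f := fun y => pp L η (y + t) * ek L η γ t y)
      (C := ‖L‖ * x / N * (g * (E * x ^ k))) ?_
    · rw [Real.norm_eq_abs, hba, abs_of_nonneg ht] at h6
      refine h6.trans ?_
      have h7 : ‖L‖ * x / N * (g * (E * x ^ k)) * t ≤
          ‖L‖ * x / N * (g * (E * x ^ k)) * (η * x) := by gcongr
      refine h7.trans (le_of_eq ?_)
      ring
    · intro y hyy
      rw [Set.uIoc_of_le hab] at hyy
      have h7 := p_bd hη L hN ht (hy y ⟨hyy.1.le, hyy.2⟩)
      rw [← hx] at h7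
      rw [norm_mul, Real.norm_eq_abs, Real.norm_of_nonneg (hek0 y)]
      have := hek y
      have := hek0 y
      gcongr
  have h6 := hbd (-N - t) (-N) (by linarith) (by ring) (fun y hy => by
    have h7 : y + t ≤ -N + t := by linarith [hy.2]
    have h8 := neg_le_abs (y + t)
    linarith)
  have h7 := hbd (N - t) N (by linarith) (by ring) (fun y hy => by
    have h7 : N ≤ y + t := by linarith [hy.1]
    have h8 := le_abs_self (y + t)
    linarith)
  rw [h1, h2, h3]
  rw [← hx, ← hE] at h5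
  rw [← hx, ← hE, ← hg]
  rw [← hg] at h4
  have h8 : g * (A - ‖L‖ * 2 * E * x ^ (k + 2) * η / N) ≤ g * X := by gcongr
  have h9 := (abs_le.1 h6).1
  have h10 := (abs_le.1 h7).2
  have h11 : g * (A - ‖L‖ * 2 * E * x ^ (k + 2) * η / N) =
      g * A - 2 * (‖L‖ * E * η / N * (g * x ^ (k + 2))) := by ring
  rw [h11] at h8
  have h12 : 4 * ‖L‖ * E * η / N * (g * x ^ (k + 2)) =
      4 * (‖L‖ * E * η / N * (g * x ^ (k + 2))) := by ring
  rw [h12]
  linarith

end TCRN

end

end Pool.Agent.SLE
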