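import Pool.Agent.Lib.MP_c17912_pr_TC.RNC

/-!
# MP_c17912_pr, project TC, rank one: the core inequality, conclusion
-/

set_option autoImplicit false

open MeasureTheory Filter Complex
open scoped Topology Real ComplexConjugate

namespace Pool.Agent.SLE

noncomputable section

namespace TCRN

open NBCir

/-- The integral over the window and over the separation. -/
theorem swap {η γ : ℝ} (hη : 0 < η) (L : ℂ) (N : ℝ) :
    (∫ y in (-N)..N, ∫ t in (0 : ℝ)..N, pp L η y * (ek L η γ t (y - t) - ek L η γ t y)) =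
      ∫ t in (0 : ℝ)..N, ∫ y in (-N)..N,
        pp L η y * (ek L η γ t (y - t) - ek L η γ t y) := by
  rw [intervalIntegral_intervalIntegral_swap]
  have hc := ek_cont hη L γ
  have hp := pp_cont hη L
  have h1 : Continuous fun p : ℝ × ℝ => pp L η p.1 := hp.comp continuous_fst
  have h2 : Continuous fun p : ℝ × ℝ => ek L η γ p.2 p.1 :=
    hc.comp (continuous_snd.prodMk continuous_fst)
  have h3 : Continuous fun p : ℝ × ℝ => ek L η γ p.2 (p.1 - p.2) :=
    hc.comp (continuous_snd.prodMk (continuous_fst.sub continuous_snd))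
  have h4 : Continuous (Function.uncurry fun y t : ℝ =>
      pp L η y * (ek L η γ t (y - t) - ek L η γ t y)) := h1.mul (h3.sub h2)
  have hK : IsCompact (Set.uIcc (-N) N ×ˢ Set.uIcc (0 : ℝ) N) :=
    isCompact_uIcc.prod isCompact_uIcc
  exact (h4.continuousOn.integrableOn_compact hK).mono_set
    (Set.prod_mono Set.uIoc_subset_uIcc Set.uIoc_subset_uIcc)

/-- The core inequality. -/
theorem core {L : ℂ} {η γ B : ℝ} (hL : L ≠ 0) (hη : 0 < η) (hγ : 0 < γ) {P D : ℝ → ℝ}
    (hP : ∀ y, HasDerivAt P (1 - (γ - 2 * rr L η y) * P y) y)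
    (hD : ∀ y, HasDerivAt D (-1 + (γ - 2 * rr L η y) * D y) y)
    (hPB : ∀ y, |P y| ≤ B) (hDB : ∀ y, |D y| ≤ B) :
    ∃ δ > 0, ∃ N0 > 0, ∀ N ≥ N0, δ ≤ ∫ y in (-N)..N, pp L η y * (P y - D y) := by
  obtain ⟨k, hk⟩ := exists_nat_ge (2 * ‖L‖)
  obtain ⟨K, hK0, hK⟩ := pow_le_exp hη hγ (k + 2)
  have hB : 0 ≤ B := (abs_nonneg _).trans (hPB 0)
  obtain ⟨A, hA⟩ : ∃ A : ℝ → ℝ, A = fun t => ∫ v in (0 : ℝ)..(2 * π), cR L (t / (2 * η)) v :=
    ⟨_, rfl⟩
  have hAc : Continuous A := by
    rw [hA]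
    have h1 : Continuous fun τ => ∫ v in (0 : ℝ)..(2 * π), cR L τ v :=
      intervalIntegral.continuous_parametric_intervalIntegral_of_continuous' (cR_cont L) 0 (2 * π)
    exact h1.comp (continuous_id.div_const (2 * η))
  have hApos : ∀ t, 0 < t → 0 < A t := fun t ht => by
    rw [hA]
    exact circ_int_pos hL (by positivity)
  have hA0 : ∀ t, 0 ≤ t → 0 ≤ A t := fun t ht => by
    rcases ht.eq_or_lt with h | h
    · rw [← h, hA]
      simp [cR]
    · exact (hApos t h).le
  have hgc : Continuous fun t => Real.exp (-γ * t) :=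
    continuous_iff_continuousAt.2 fun t => (exp_dt γ t).continuousAt
  obtain ⟨δ, hδ⟩ : ∃ δ, δ = ∫ t in (1 : ℝ)..2, Real.exp (-γ * t) * A t := ⟨_, rfl⟩
  have hδ0 : 0 < δ := by
    rw [hδ]
    refine intervalIntegral.intervalIntegral_pos_of_pos_on
      ((hgc.mul hAc).intervalIntegrable _ _) ?_ (by norm_num)
    intro t ht
    exact mul_pos (Real.exp_pos _) (hApos t (by linarith [ht.1]))
  obtain ⟨C1, hC1⟩ : ∃ C1, C1 = 4 * ‖L‖ * Real.exp (2 * ‖L‖ * π) * η := ⟨_, rfl⟩
  have hC10 : 0 ≤ C1 := by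
    rw [hC1]
    positivity
  obtain ⟨C2, hC2⟩ : ∃ C2, C2 = ‖L‖ / η * (2 * B) * (Real.exp (2 * ‖L‖ * π) * K) := ⟨_, rfl⟩
  have hC20 : 0 ≤ C2 := by
    rw [hC2]
    positivity
  obtain ⟨C3, hC3⟩ : ∃ C3, C3 = C1 * K * (2 / γ) + 2 * C2 * (8 / γ ^ 2) := ⟨_, rfl⟩
  have hC30 : 0 ≤ C3 := by
    rw [hC3]
    positivity
  refine ⟨δ / 2, by positivity, max 2 (2 * C3 / δ), by positivity, fun N hN => ?_⟩
  have hN2 : 2 ≤ N := (le_max_left _ _).trans hN
  have hN0 : 0 < N := by linarith
  have hN3 : C3 / N ≤ δ / 2 := by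
    have h := (le_max_right _ _).trans hN
    rw [div_le_iff₀ hδ0] at h
    rw [div_le_iff₀ hN0]
    nlinarith
  have hpc := pp_cont hη L
  have hPc : Continuous P := continuous_iff_continuousAt.2 fun y => (hP y).continuousAt
  have hDc : Continuous D := continuous_iff_continuousAt.2 fun y => (hD y).continuousAt
  have hec := ek_y_cont hη L γ N
  -- the remainder
  obtain ⟨Rm, hRm⟩ : ∃ Rm : ℝ → ℝ, Rm = fun y => pp L η y *
    (P (y - N) * ek L η γ N (y - N) - D (y + N) * ek L η γ N y) := ⟨_, rfl⟩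
  have hRc : Continuous Rm := by
    rw [hRm]
    exact hpc.mul (((hPc.comp (continuous_sub_right N)).mul
      (hec.comp (continuous_sub_right N))).sub ((hDc.comp (continuous_add_const N)).mul hec))
  have hsplit : ∀ y, pp L η y * (P y - D y) =
      (∫ t in (0 : ℝ)..N, pp L η y * (ek L η γ t (y - t) - ek L η γ t y)) + Rm y := by
    intro y
    rw [hRm, intervalIntegral.integral_const_mul,
      intervalIntegral.integral_sub ((ek_c_cont hη L γ y).intervalIntegrable _ _)
        ((ek_t_cont hη L γ y).intervalIntegrable _ _)]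
    have h1 := P_rep hη L γ hP y N
    have h2 := D_rep hη L γ hD y N
    change _ = _ + pp L η y * (P (y - N) * ek L η γ N (y - N) - D (y + N) * ek L η γ N y)
    linear_combination pp L η y * h1 - pp L η y * h2
  have hIc : Continuous fun y => ∫ t in (0 : ℝ)..N,
      pp L η y * (ek L η γ t (y - t) - ek L η γ t y) := by
    have he : (fun y => ∫ t in (0 : ℝ)..N,
      pp L η y * (ek L η γ t (y - t) - ek L η γ t y)) =
      fun y => pp L η y * (P y - D y) - Rm y := by
      funext y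
      rw [hsplit y]
      ring
    rw [he]
    exact (hpc.mul (hPc.sub hDc)).sub hRc
  have hmain : ∫ y in (-N)..N, pp L η y * (P y - D y) =
      (∫ t in (0 : ℝ)..N, ∫ y in (-N)..N,
        pp L η y * (ek L η γ t (y - t) - ek L η γ t y)) + ∫ y in (-N)..N, Rm y := by
    rw [← swap hη L N, ← intervalIntegral.integral_add (hIc.intervalIntegrable _ _)
      (hRc.intervalIntegrable _ _)]
    apply intervalIntegral.integral_congr
    intro y _
    exact hsplit y
  -- the bound of the remainder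
  have hxN : 0 < 1 + N / η := by positivity
  have hkN : Real.exp (-γ * N) * (1 + N / η) ^ k ≤ K * Real.exp (-(γ / 2) * N) := by
    refine le_trans ?_ (hK N hN0.le)
    have h1 : (1 : ℝ) ≤ 1 + N / η := by
      have : 0 ≤ N / η := by positivity
      linarith
    have h2 : (1 + N / η) ^ k ≤ (1 + N / η) ^ (k + 2) := pow_le_pow_right₀ h1 (by omega)
    gcongr
  have hekN : ∀ y, |ek L η γ N y| ≤ Real.exp (2 * ‖L‖ * π) * K * Real.exp (-(γ / 2) * N) := by
    intro y
    unfold ek
    rw [abs_of_pos (mul_pos (Real.exp_pos _) (EE_pos _ _ _ _))]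
    have h1 := EE_le hη hk hN0.le y
    calc Real.exp (-γ * N) * EE L η N y ≤ Real.exp (-γ * N) *
          (Real.exp (2 * ‖L‖ * π) * (1 + N / η) ^ k) := by gcongr
      _ = Real.exp (2 * ‖L‖ * π) * (Real.exp (-γ * N) * (1 + N / η) ^ k) := by ring
      _ ≤ Real.exp (2 * ‖L‖ * π) * (K * Real.exp (-(γ / 2) * N)) := by gcongr
      _ = _ := by ring
  obtain ⟨e, he⟩ : ∃ e, e = Real.exp (-(γ / 2) * N) := ⟨_, rfl⟩
  have he0 : 0 < e := he ▸ Real.exp_pos _
  have hRb : ∀ y, |Rm y| ≤ C2 * e := by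
    intro y
    rw [hRm]
    change |pp L η y * (P (y - N) * ek L η γ N (y - N) - D (y + N) * ek L η γ N y)| ≤ _
    rw [abs_mul]
    have h1 := pp_le hη L y
    have h2 : |P (y - N) * ek L η γ N (y - N) - D (y + N) * ek L η γ N y| ≤
        2 * B * (Real.exp (2 * ‖L‖ * π) * K * e) := by
      refine (abs_sub _ _).trans ?_
      rw [abs_mul, abs_mul]
      have h3 := hekN (y - N)
      have h4 := hekN y
      rw [← he] at h3 h4
      have h5 : |P (y - N)| * |ek L η γ N (y - N)| ≤ B * (Real.exp (2 * ‖L‖ * π) * K * e) :=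
        mul_le_mul (hPB _) h3 (abs_nonneg _) hB
      have h6 : |D (y + N)| * |ek L η γ N y| ≤ B * (Real.exp (2 * ‖L‖ * π) * K * e) :=
        mul_le_mul (hDB _) h4 (abs_nonneg _) hB
      linarith
    calc _ ≤ ‖L‖ / η * (2 * B * (Real.exp (2 * ‖L‖ * π) * K * e)) :=
          mul_le_mul h1 h2 (abs_nonneg _) (by positivity)
      _ = C2 * e := by
          rw [hC2]
          ring
  have heN : N ^ 2 * e ≤ 8 / γ ^ 2 := by
    have h1 : (γ / 2 * N) ^ 2 / 2 ≤ Real.exp (γ / 2 * N) := by
      have := Real.quadratic_le_exp_of_nonneg (x := γ / 2 * N) (by positivity)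
      nlinarith [mul_pos (half_pos hγ) hN0]
    have h2 : Real.exp (γ / 2 * N) * e = 1 := by
      rw [he, ← Real.exp_add]
      simp
    rw [le_div_iff₀ (by positivity)]
    have h3 : (γ / 2 * N) ^ 2 / 2 * e ≤ 1 := by
      rw [← h2]
      gcongr
    nlinarith
  have hRi : -(2 * C2 * (8 / γ ^ 2)) / N ≤ ∫ y in (-N)..N, Rm y := by
    have h1 := intervalIntegral.norm_integral_le_of_norm_le_const (a := -N) (b := N)
      (f := Rm) (C := C2 * e) (fun y _ => by
        rw [Real.norm_eq_abs]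
        exact hRb y)
    rw [Real.norm_eq_abs, show N - -N = 2 * N by ring, abs_of_nonneg (by linarith : 0 ≤ 2 * N)]
      at h1
    have h2 := (abs_le.1 h1).1
    refine le_trans ?_ h2
    rw [div_le_iff₀ hN0]
    have h3 : C2 * (N ^ 2 * e) ≤ C2 * (8 / γ ^ 2) := by gcongr
    nlinarith
  -- the main term
  have hJc : Continuous fun t => ∫ y in (-N)..N,
      pp L η y * (ek L η γ t (y - t) - ek L η γ t y) := by
    refine intervalIntegral.continuous_parametric_intervalIntegral_of_continuous' ?_ (-N) N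
    have hc := ek_cont hη L γ
    have h1 : Continuous fun p : ℝ × ℝ => pp L η p.2 := hpc.comp continuous_snd
    have h3 : Continuous fun p : ℝ × ℝ => ek L η γ p.1 (p.2 - p.1) :=
      hc.comp (continuous_fst.prodMk (continuous_snd.sub continuous_fst))
    exact h1.mul (h3.sub hc)
  have hec2 : Continuous fun t : ℝ => Real.exp (-(γ / 2) * t) := by
    have h : ∀ t, HasDerivAt (fun t : ℝ => Real.exp (-(γ / 2) * t))
      (-(γ / 2) * Real.exp (-(γ / 2) * t)) t := exp_dt (γ / 2)
    exact continuous_iff_continuousAt.2 fun t => (h t).continuousAt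
  have hlow : (∫ t in (0 : ℝ)..N, (Real.exp (-γ * t) * A t -
      C1 * K / N * Real.exp (-(γ / 2) * t))) ≤
      ∫ t in (0 : ℝ)..N, ∫ y in (-N)..N,
        pp L η y * (ek L η γ t (y - t) - ek L η γ t y) := by
    refine intervalIntegral.integral_mono_on hN0.le ?_ (hJc.intervalIntegrable _ _) ?_
    · exact ((hgc.mul hAc).sub (continuous_const.mul hec2)).intervalIntegrable _ _
    · intro t ht
      have h1 := jN_ge (γ := γ) hη hk ht.1 hN0
      have h2 := hK t ht.1
      refine le_trans ?_ h1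
      rw [← hC1, hA]
      change Real.exp (-γ * t) * (∫ v in (0 : ℝ)..(2 * π), cR L (t / (2 * η)) v) - _ ≤ _
      have h3 : C1 / N * (Real.exp (-γ * t) * (1 + t / η) ^ (k + 2)) ≤
          C1 * K / N * Real.exp (-(γ / 2) * t) := by
        calc _ ≤ C1 / N * (K * Real.exp (-(γ / 2) * t)) := by gcongr
          _ = _ := by ring
      linarith
  have hA1 : δ ≤ ∫ t in (0 : ℝ)..N, Real.exp (-γ * t) * A t := by
    have hi : ∀ x y : ℝ, IntervalIntegrable (fun t => Real.exp (-γ * t) * A t) volume x y :=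
      fun x y => (hgc.mul hAc).intervalIntegrable x y
    have h1 : (∫ t in (0 : ℝ)..N, Real.exp (-γ * t) * A t) =
        (∫ t in (0 : ℝ)..1, Real.exp (-γ * t) * A t) +
        (∫ t in (1 : ℝ)..2, Real.exp (-γ * t) * A t) +
        ∫ t in (2 : ℝ)..N, Real.exp (-γ * t) * A t := by
      rw [intervalIntegral.integral_add_adjacent_intervals (hi _ _) (hi _ _),
        intervalIntegral.integral_add_adjacent_intervals (hi _ _) (hi _ _)]
    have h2 : 0 ≤ ∫ t in (0 : ℝ)..1, Real.exp (-γ * t) * A t :=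
      intervalIntegral.integral_nonneg (by norm_num) fun t ht =>
        mul_nonneg (Real.exp_pos _).le (hA0 t ht.1)
    have h3 : 0 ≤ ∫ t in (2 : ℝ)..N, Real.exp (-γ * t) * A t :=
      intervalIntegral.integral_nonneg hN2 fun t ht =>
        mul_nonneg (Real.exp_pos _).le (hA0 t (by linarith [ht.1]))
    rw [h1, ← hδ]
    linarith
  have hE1 : ∫ t in (0 : ℝ)..N, C1 * K / N * Real.exp (-(γ / 2) * t) ≤ C1 * K / N * (2 / γ) := by
    rw [intervalIntegral.integral_const_mul]
    have h1 : ∫ t in (0 : ℝ)..N, Real.exp (-(γ / 2) * t) ≤ 2 / γ := by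
      have h2 : ∀ t, HasDerivAt (fun t : ℝ => -(2 / γ) * Real.exp (-(γ / 2) * t))
          (Real.exp (-(γ / 2) * t)) t := by
        intro t
        refine ((exp_dt (γ / 2) t).const_mul (-(2 / γ))).congr_deriv ?_
        field_simp
      rw [intervalIntegral.integral_eq_sub_of_hasDerivAt (fun t _ => h2 t)
        (hec2.intervalIntegrable _ _)]
      have h3 := Real.exp_pos (-(γ / 2) * N)
      have h4 : 0 < 2 / γ := by positivity
      simp only [mul_zero, Real.exp_zero]
      nlinarith [mul_pos h4 h3]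
    gcongr
  have hi1 : IntervalIntegrable (fun t => Real.exp (-γ * t) * A t) volume 0 N :=
    (hgc.mul hAc).intervalIntegrable _ _
  have hi2 : IntervalIntegrable (fun t => C1 * K / N * Real.exp (-(γ / 2) * t)) volume 0 N :=
    (continuous_const.mul hec2).intervalIntegrable _ _
  rw [intervalIntegral.integral_sub hi1 hi2] at hlow
  rw [hmain]
  have h1 : C3 / N = C1 * K / N * (2 / γ) + 2 * C2 * (8 / γ ^ 2) / N := by
    rw [hC3]
    ring
  have h2 : -(2 * C2 * (8 / γ ^ 2)) / N = -(2 * C2 * (8 / γ ^ 2) / N) := by ring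
  rw [h2] at hRi
  linarith

end TCRN

end

end Pool.Agent.SLE
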