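import Pool.Agent.Lib.MP_c17912_pr_TR.SGN

/-!
# MP_c17912_pr, project TC: a linear equation on the line with limits at both ends
-/

set_option autoImplicit false

open MeasureTheory ProbabilityTheory Filter Set
open scoped NNReal ENNReal Topology Real

namespace Pool.Agent.SLE

noncomputable section

namespace TCRO

/-- comparison on an interval where the coefficient is at least `c` -/
theorem cmp {b ε D M : ℝ → ℝ} {c η : ℝ} (hc : 0 < c) (hη : 0 ≤ η) {s : Set ℝ}
    (hs : Convex ℝ s)
    (hD : ∀ y, HasDerivAt D (2 * (ε y - b y * D y)) y)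
    (hM : ∀ y, HasDerivAt M (2 * b y * M y) y) (hM0 : ∀ y, 0 < M y)
    (hb : ∀ y ∈ s, c ≤ b y) (he : ∀ y ∈ s, |ε y| ≤ η) {x y : ℝ} (hx : x ∈ s) (hy : y ∈ s)
    (hxy : x ≤ y) : |D y * M y - D x * M x| ≤ η / c * (M y - M x) := by
  have hDM : ∀ y, HasDerivAt (fun z => D z * M z) (2 * ε y * M y) y := fun y => by
    refine ((hD y).mul (hM y)).congr_deriv ?_
    ring
  have hηc : 0 ≤ η / c := by positivity
  have key : ∀ y ∈ s, |2 * ε y * M y| ≤ η / c * (2 * b y * M y) := by
    intro y hy
    have h1 := hb y hy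
    have h2 := he y hy
    have h3 := hM0 y
    rw [abs_mul, abs_mul, abs_of_pos h3, abs_of_pos (by norm_num : (0 : ℝ) < 2)]
    have h4 : η ≤ η / c * b y := by
      rw [div_mul_eq_mul_div, le_div_iff₀ hc]
      exact mul_le_mul_of_nonneg_left h1 hη
    have h5 : |ε y| * M y ≤ η / c * b y * M y :=
      mul_le_mul_of_nonneg_right (h2.trans h4) h3.le
    linarith
  have m1 : MonotoneOn (fun z => η / c * M z - D z * M z) s := by
    refine monotoneOn_of_hasDerivWithinAt_nonneg hs (f' := fun y => η / c * (2 * b y * M y) -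
      2 * ε y * M y) ?_ ?_ ?_
    · exact fun y _ => (((hM y).const_mul (η / c)).sub (hDM y)).continuousAt.continuousWithinAt
    · exact fun y _ => (((hM y).const_mul (η / c)).sub (hDM y)).hasDerivWithinAt
    · intro y hy
      have := (abs_le.1 (key y (interior_subset hy))).2
      linarith
  have m2 : MonotoneOn (fun z => η / c * M z + D z * M z) s := by
    refine monotoneOn_of_hasDerivWithinAt_nonneg hs (f' := fun y => η / c * (2 * b y * M y) +
      2 * ε y * M y) ?_ ?_ ?_
    · exact fun y _ => (((hM y).const_mul (η / c)).add (hDM y)).continuousAt.continuousWithinAt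
    · exact fun y _ => (((hM y).const_mul (η / c)).add (hDM y)).hasDerivWithinAt
    · intro y hy
      have := (abs_le.1 (key y (interior_subset hy))).1
      linarith
  have i1 := m1 hx hy hxy
  have i2 := m2 hx hy hxy
  simp only at i1 i2
  rw [abs_le]
  constructor <;> linarith

/-- exponential decay of the integrating factor -/
theorem decay {b M : ℝ → ℝ} {c A : ℝ} (hM : ∀ y, HasDerivAt M (2 * b y * M y) y)
    (hM0 : ∀ y, 0 < M y) (hb : ∀ y ≤ A, c ≤ b y) {y : ℝ} (hy : y ≤ A) :
    M y ≤ M A * Real.exp (2 * c * (y - A)) := by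
  have hd : ∀ y, HasDerivAt (fun z => M z * Real.exp (-(2 * c * (z - A))))
      ((2 * b y - 2 * c) * M y * Real.exp (-(2 * c * (y - A)))) y := fun y => by
    have h1 : HasDerivAt (fun z : ℝ => -(2 * c * (z - A))) (-(2 * c * 1)) y :=
      (((hasDerivAt_id y).sub_const A).const_mul (2 * c)).neg
    refine ((hM y).mul h1.exp).congr_deriv ?_
    ring
  have m : MonotoneOn (fun z => M z * Real.exp (-(2 * c * (z - A)))) (Iic A) := by
    refine monotoneOn_of_hasDerivWithinAt_nonneg (convex_Iic A) (f' := fun y =>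
      (2 * b y - 2 * c) * M y * Real.exp (-(2 * c * (y - A)))) ?_ ?_ ?_
    · exact fun y _ => (hd y).continuousAt.continuousWithinAt
    · exact fun y _ => (hd y).hasDerivWithinAt
    · intro y hy
      have h0 : y ∈ Iic A := interior_subset hy
      have h1 := hb y h0
      have h2 := hM0 y
      have h3 : 0 ≤ 2 * b y - 2 * c := by linarith
      positivity
  have h := m (show y ∈ Iic A from hy) (show A ∈ Iic A from le_refl A) hy
  simp only [sub_self, mul_zero, neg_zero, Real.exp_zero, mul_one] at h
  have h4 : 0 < Real.exp (2 * c * (y - A)) := Real.exp_pos _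
  have h5 : M y = M y * Real.exp (-(2 * c * (y - A))) * Real.exp (2 * c * (y - A)) := by
    rw [mul_assoc, ← Real.exp_add]
    simp
  rw [h5]
  exact mul_le_mul_of_nonneg_right h h4.le

/-- exponential growth of the integrating factor -/
theorem growth {b M : ℝ → ℝ} {c A : ℝ} (hM : ∀ y, HasDerivAt M (2 * b y * M y) y)
    (hM0 : ∀ y, 0 < M y) (hb : ∀ y, A ≤ y → c ≤ b y) {y : ℝ} (hy : A ≤ y) :
    M A * Real.exp (2 * c * (y - A)) ≤ M y := by
  have hd : ∀ y, HasDerivAt (fun z => M z * Real.exp (-(2 * c * (z - A))))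
      ((2 * b y - 2 * c) * M y * Real.exp (-(2 * c * (y - A)))) y := fun y => by
    have h1 : HasDerivAt (fun z : ℝ => -(2 * c * (z - A))) (-(2 * c * 1)) y :=
      (((hasDerivAt_id y).sub_const A).const_mul (2 * c)).neg
    refine ((hM y).mul h1.exp).congr_deriv ?_
    ring
  have m : MonotoneOn (fun z => M z * Real.exp (-(2 * c * (z - A)))) (Ici A) := by
    refine monotoneOn_of_hasDerivWithinAt_nonneg (convex_Ici A) (f' := fun y =>
      (2 * b y - 2 * c) * M y * Real.exp (-(2 * c * (y - A)))) ?_ ?_ ?_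
    · exact fun y _ => (hd y).continuousAt.continuousWithinAt
    · exact fun y _ => (hd y).hasDerivWithinAt
    · intro y hy
      have h0 : y ∈ Ici A := interior_subset hy
      have h1 := hb y h0
      have h2 := hM0 y
      have h3 : 0 ≤ 2 * b y - 2 * c := by linarith
      positivity
  have h := m (show A ∈ Ici A from le_refl A) (show y ∈ Ici A from hy) hy
  simp only [sub_self, mul_zero, neg_zero, Real.exp_zero, mul_one] at h
  have h4 : 0 < Real.exp (2 * c * (y - A)) := Real.exp_pos _
  have h5 : M y = M y * Real.exp (-(2 * c * (y - A))) * Real.exp (2 * c * (y - A)) := by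
    rw [mul_assoc, ← Real.exp_add]
    simp
  rw [h5]
  exact mul_le_mul_of_nonneg_right h h4.le

/-- The integrating factor. -/
theorem factor {b : ℝ → ℝ} (hb : Continuous b) :
    ∃ M : ℝ → ℝ, (∀ y, HasDerivAt M (2 * b y * M y) y) ∧ ∀ y, 0 < M y := by
  refine ⟨fun y => Real.exp (2 * ∫ t in (0 : ℝ)..y, b t), fun y => ?_, fun y => Real.exp_pos _⟩
  have h := ((PEAux.prim_deriv hb y).const_mul 2).exp
  refine h.congr_deriv ?_
  ring

/-- The bounded solution of `U' = 2 (g - b U)` on the line. -/
theorem line_sol {b g : ℝ → ℝ} (hb : Continuous b) (hg : Continuous g) {b0 g0 : ℝ} (h0 : 0 < b0)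
    (hbl : Tendsto b (cocompact ℝ) (𝓝 b0)) (hgl : Tendsto g (cocompact ℝ) (𝓝 g0)) :
    ∃ U : ℝ → ℝ, (∀ y, HasDerivAt U (2 * (g y - b y * U y)) y) ∧
      Tendsto U (cocompact ℝ) (𝓝 (g0 / b0)) ∧ ((∀ y, 0 < g y) → ∀ y, 0 < U y) := by
  rw [cocompact_eq_atBot_atTop, tendsto_sup] at hbl hgl
  obtain ⟨c, hc⟩ : ∃ c : ℝ, c = b0 / 2 := ⟨_, rfl⟩
  have hc0 : 0 < c := by rw [hc]; positivity
  have hcb : c < b0 := by rw [hc]; linarith
  obtain ⟨A, hA⟩ := eventually_atBot.1 (hbl.1.eventually (lt_mem_nhds hcb))
  obtain ⟨B, hB⟩ := eventually_atTop.1 (hbl.2.eventually (lt_mem_nhds hcb))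
  obtain ⟨M, hM, hM0⟩ := factor hb
  have hMc : Continuous M := continuous_iff_continuousAt.2 fun y => (hM y).continuousAt
  -- integrability
  have hMi : ∀ h : ℝ → ℝ, Continuous h → (∃ h0, Tendsto h atBot (𝓝 h0)) → ∀ y,
      IntegrableOn (fun s => M s * h s) (Iic y) := by
    intro h hh ⟨h0, hl⟩ y
    obtain ⟨A1, hA1⟩ := eventually_atBot.1 (hl.eventually (Metric.ball_mem_nhds h0 one_pos))
    obtain ⟨Z, hZ⟩ : ∃ Z, Z = min A A1 := ⟨_, rfl⟩
    have e1 : IntegrableOn (fun s => M s * h s) (Iic Z) := by
      have hdom : IntegrableOn (fun s => M A * (|h0| + 1) * Real.exp (-(2 * c * A)) *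
          Real.exp (2 * c * s)) (Iic Z) :=
        (integrableOn_exp_mul_Iic (by positivity) Z).const_mul _
      refine hdom.mono' (hMc.mul hh).aestronglyMeasurable ?_
      refine (ae_restrict_mem measurableSet_Iic).mono fun s hs => ?_
      have hs1 : s ≤ A := (show s ≤ Z from hs).trans (by rw [hZ]; exact min_le_left _ _)
      have hs2 : s ≤ A1 := (show s ≤ Z from hs).trans (by rw [hZ]; exact min_le_right _ _)
      have i1 := decay hM hM0 (fun y hy => (hA y hy).le) hs1
      have i2 := hA1 s hs2
      have i3 : |h s| ≤ |h0| + 1 := by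
        have := Metric.mem_ball.1 i2
        rw [Real.dist_eq] at this
        have h5 := abs_sub_abs_le_abs_sub (h s) h0
        linarith
      have i4 := hM0 s
      rw [Real.norm_eq_abs, abs_mul, abs_of_pos i4]
      have i5 : Real.exp (2 * c * (s - A)) = Real.exp (-(2 * c * A)) * Real.exp (2 * c * s) := by
        rw [← Real.exp_add]
        congr 1
        ring
      calc M s * |h s| ≤ (M A * Real.exp (2 * c * (s - A))) * (|h0| + 1) :=
            mul_le_mul i1 i3 (abs_nonneg _) (i4.le.trans i1)
        _ = _ := by rw [i5]; ring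
    rcases le_total y Z with hyZ | hyZ
    · exact e1.mono_set (Iic_subset_Iic.2 hyZ)
    · rw [← Iic_union_Icc_eq_Iic hyZ]
      exact e1.union ((hMc.mul hh).continuousOn.integrableOn_Icc)
  have hMbot : Tendsto M atBot (𝓝 0) := by
    have h1 : Tendsto (fun y => M A * Real.exp (2 * c * (y - A))) atBot (𝓝 (M A * 0)) := by
      refine Tendsto.const_mul _ (Real.tendsto_exp_atBot.comp ?_)
      exact (tendsto_atBot_add_const_right _ (-A) tendsto_id).const_mul_atBot (by positivity)
    rw [mul_zero] at h1
    refine tendsto_of_tendsto_of_tendsto_of_le_of_le' tendsto_const_nhds h1 ?_ ?_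
    · exact Eventually.of_forall fun y => (hM0 y).le
    · filter_upwards [eventually_le_atBot A] with y hy
      exact decay hM hM0 (fun y hy => (hA y hy).le) hy
  have hMtop : Tendsto M atTop atTop := by
    have h1 : Tendsto (fun y => M B * Real.exp (2 * c * (y - B))) atTop atTop := by
      refine Tendsto.const_mul_atTop (hM0 B) (Real.tendsto_exp_atTop.comp ?_)
      exact (tendsto_atTop_add_const_right _ (-B) tendsto_id).const_mul_atTop (by positivity)
    refine tendsto_atTop_mono' _ ?_ h1
    filter_upwards [eventually_ge_atTop B] with y hy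
    exact growth hM hM0 (fun y hy => (hB y hy).le) hy
  obtain ⟨N, hN⟩ : ∃ N : ℝ → ℝ, N = fun y => ∫ s in Iic y, M s * g s := ⟨_, rfl⟩
  have hNi := hMi g hg ⟨g0, hgl.1⟩
  have hNd : ∀ y, HasDerivAt N (M y * g y) y := by
    intro y
    have e : N = fun y => N 0 + ∫ s in (0 : ℝ)..y, M s * g s := by
      funext z
      rw [hN]
      have := intervalIntegral.integral_Iic_sub_Iic (hNi 0) (hNi z)
      simp only
      linarith
    rw [e]
    exact (PEAux.prim_deriv (hMc.mul hg) y).const_add _
  obtain ⟨U, hU⟩ : ∃ U : ℝ → ℝ, U = fun y => 2 * N y / M y := ⟨_, rfl⟩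
  have hUd : ∀ y, HasDerivAt U (2 * (g y - b y * U y)) y := by
    intro y
    have h1 := (((hNd y).const_mul 2).div (hM y) (hM0 y).ne')
    rw [hU]
    refine h1.congr_deriv ?_
    have := (hM0 y).ne'
    field_simp
  obtain ⟨D, hD⟩ : ∃ D : ℝ → ℝ, D = fun y => U y - g0 / b0 := ⟨_, rfl⟩
  obtain ⟨ε, hε⟩ : ∃ ε : ℝ → ℝ, ε = fun y => g y - b y * (g0 / b0) := ⟨_, rfl⟩
  have hDd : ∀ y, HasDerivAt D (2 * (ε y - b y * D y)) y := by
    intro y
    rw [hD, hε]
    refine ((hUd y).sub_const _).congr_deriv ?_
    ring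
  have e0 : g0 - b0 * (g0 / b0) = 0 := by
    field_simp
    ring
  have hεb : Tendsto ε atBot (𝓝 0) := by
    rw [hε, ← e0]
    exact hgl.1.sub (hbl.1.mul_const _)
  have hεt : Tendsto ε atTop (𝓝 0) := by
    rw [hε, ← e0]
    exact hgl.2.sub (hbl.2.mul_const _)
  -- `N` tends to zero
  have hNbot : Tendsto N atBot (𝓝 0) := by
    have h1 := hNi 0
    have h2 : Tendsto (fun y => ∫ s in y..(0 : ℝ), M s * g s) atBot
        (𝓝 (∫ s in Iic (0 : ℝ), M s * g s)) :=
      intervalIntegral_tendsto_integral_Iic 0 h1 tendsto_id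
    have e : ∀ y, N y = N 0 - ∫ s in y..(0 : ℝ), M s * g s := by
      intro y
      rw [hN]
      have := intervalIntegral.integral_Iic_sub_Iic (hNi y) (hNi 0)
      simp only
      linarith
    have h3 : Tendsto (fun y => N 0 - ∫ s in y..(0 : ℝ), M s * g s) atBot (𝓝 (N 0 - N 0)) := by
      refine tendsto_const_nhds.sub ?_
      have e4 : N 0 = ∫ s in Iic (0 : ℝ), M s * g s := by rw [hN]
      rw [e4]
      exact h2
    rw [sub_self] at h3
    exact h3.congr fun y => (e y).symm
  have hDMbot : Tendsto (fun y => D y * M y) atBot (𝓝 0) := by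
    have e : ∀ y, D y * M y = 2 * N y - g0 / b0 * M y := by
      intro y
      rw [hD, hU]
      have := (hM0 y).ne'
      field_simp
    have h1 : Tendsto (fun y => 2 * N y - g0 / b0 * M y) atBot (𝓝 (2 * 0 - g0 / b0 * 0)) :=
      (hNbot.const_mul 2).sub (hMbot.const_mul _)
    simp only [mul_zero, sub_zero] at h1
    exact h1.congr fun y => (e y).symm
  refine ⟨U, hUd, ?_, ?_⟩
  · rw [cocompact_eq_atBot_atTop, tendsto_sup]
    constructor
    · -- at minus infinity
      rw [Metric.tendsto_nhds]
      intro r hr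
      obtain ⟨η, hη⟩ : ∃ η : ℝ, η = r * c / 2 := ⟨_, rfl⟩
      have hη0 : 0 < η := by rw [hη]; positivity
      obtain ⟨A2, hA2⟩ := eventually_atBot.1 (hεb.eventually (Metric.ball_mem_nhds 0 hη0))
      filter_upwards [eventually_le_atBot (min A A2)] with y hy
      have k1 : ∀ x ≤ y, |D y * M y - D x * M x| ≤ η / c * (M y - M x) := by
        intro x hx
        refine cmp hc0 hη0.le (convex_Iic (min A A2)) hDd hM hM0 ?_ ?_
          (show x ∈ Iic (min A A2) from hx.trans hy) hy hx
        · exact fun z hz => (hA z ((show z ≤ min A A2 from hz).trans (min_le_left _ _))).le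
        · intro z hz
          have := hA2 z ((show z ≤ min A A2 from hz).trans (min_le_right _ _))
          rw [dist_zero_right, Real.norm_eq_abs] at this
          exact this.le
      have k2 : |D y * M y - 0| ≤ η / c * (M y - 0) := by
        refine le_of_tendsto_of_tendsto (b := atBot)
          (f := fun x => |D y * M y - D x * M x|) (g := fun x => η / c * (M y - M x)) ?_ ?_ ?_
        · exact (tendsto_const_nhds.sub hDMbot).abs
        · exact (tendsto_const_nhds.sub hMbot).const_mul _
        · filter_upwards [eventually_le_atBot y] with x hx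
          exact k1 x hx
      rw [sub_zero, sub_zero, abs_mul, abs_of_pos (hM0 y)] at k2
      have k3 := le_of_mul_le_mul_right k2 (hM0 y)
      rw [Real.dist_eq]
      have k4 : η / c = r / 2 := by
        rw [hη]
        field_simp
      rw [k4, hD] at k3
      have : |U y - g0 / b0| ≤ r / 2 := k3
      linarith
    · -- at plus infinity
      rw [Metric.tendsto_nhds]
      intro r hr
      obtain ⟨η, hη⟩ : ∃ η : ℝ, η = r * c / 4 := ⟨_, rfl⟩
      have hη0 : 0 < η := by rw [hη]; positivity
      obtain ⟨B2, hB2⟩ := eventually_atTop.1 (hεt.eventually (Metric.ball_mem_nhds 0 hη0))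
      obtain ⟨Y, hY⟩ : ∃ Y, Y = max B B2 := ⟨_, rfl⟩
      have hlim : Tendsto (fun y => |D Y * M Y| / M y) atTop (𝓝 0) :=
        tendsto_const_nhds.div_atTop hMtop
      filter_upwards [eventually_ge_atTop Y,
        hlim.eventually (gt_mem_nhds (show (0 : ℝ) < r / 2 by positivity))] with y hy hy2
      have k1 : |D y * M y - D Y * M Y| ≤ η / c * (M y - M Y) := by
        refine cmp hc0 hη0.le (convex_Ici Y) hDd hM hM0 ?_ ?_
          (show Y ∈ Ici Y from le_refl Y) hy hy
        · intro z hz
          have h1 : Y ≤ z := hz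
          rw [hY] at h1
          exact (hB z ((le_max_left _ _).trans h1)).le
        · intro z hz
          have h1 : Y ≤ z := hz
          rw [hY] at h1
          have := hB2 z ((le_max_right _ _).trans h1)
          rw [dist_zero_right, Real.norm_eq_abs] at this
          exact this.le
      have hMy := hM0 y
      have hMY := hM0 Y
      have k2 : |D y| * M y ≤ |D Y * M Y| + η / c * M y := by
        have h1 : |D y * M y| ≤ |D Y * M Y| + |D y * M y - D Y * M Y| := by
          have := abs_sub_abs_le_abs_sub (D y * M y) (D Y * M Y)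
          linarith
        rw [abs_mul, abs_of_pos hMy] at h1
        have h2 : η / c * (M y - M Y) ≤ η / c * M y :=
          mul_le_mul_of_nonneg_left (by linarith) (by positivity)
        linarith
      have k3 : |D y| ≤ |D Y * M Y| / M y + η / c := by
        have h1 : |D y| = |D y| * M y / M y := by field_simp
        rw [h1, div_add' _ _ _ hMy.ne']
        exact div_le_div_of_nonneg_right k2 hMy.le
      have k4 : η / c = r / 4 := by
        rw [hη]
        field_simp
      rw [k4] at k3
      rw [Real.dist_eq]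
      have : |U y - g0 / b0| = |D y| := by rw [hD]
      rw [this]
      linarith
  · intro hpos y
    rw [hU]
    have h1 : 0 < N y := by
      rw [hN]
      rw [setIntegral_pos_iff_support_of_nonneg_ae]
      · have : Function.support (fun s => M s * g s) = univ := by
          ext s
          simp only [Function.mem_support, mem_univ, iff_true]
          exact (mul_pos (hM0 s) (hpos s)).ne'
        rw [this, univ_inter, Real.volume_Iic]
        exact ENNReal.coe_lt_top
      · exact Eventually.of_forall fun s => (mul_pos (hM0 s) (hpos s)).le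
      · exact hNi y
    have h2 := hM0 y
    positivity

/-- Uniqueness. -/
theorem line_uniq {b e : ℝ → ℝ} (hb : Continuous b) {b0 : ℝ} (h0 : 0 < b0)
    (hbl : Tendsto b (cocompact ℝ) (𝓝 b0)) (he : ∀ y, HasDerivAt e (-(2 * b y * e y)) y)
    {K : ℝ} (hK : ∀ y, |e y| ≤ K) : ∀ y, e y = 0 := by
  rw [cocompact_eq_atBot_atTop, tendsto_sup] at hbl
  obtain ⟨c, hc⟩ : ∃ c : ℝ, c = b0 / 2 := ⟨_, rfl⟩
  have hc0 : 0 < c := by rw [hc]; positivity
  have hcb : c < b0 := by rw [hc]; linarith
  obtain ⟨A, hA⟩ := eventually_atBot.1 (hbl.1.eventually (lt_mem_nhds hcb))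
  obtain ⟨M, hM, hM0⟩ := factor hb
  have hMbot : Tendsto M atBot (𝓝 0) := by
    have h1 : Tendsto (fun y => M A * Real.exp (2 * c * (y - A))) atBot (𝓝 (M A * 0)) := by
      refine Tendsto.const_mul _ (Real.tendsto_exp_atBot.comp ?_)
      exact (tendsto_atBot_add_const_right _ (-A) tendsto_id).const_mul_atBot (by positivity)
    rw [mul_zero] at h1
    refine tendsto_of_tendsto_of_tendsto_of_le_of_le' tendsto_const_nhds h1 ?_ ?_
    · exact Eventually.of_forall fun y => (hM0 y).le
    · filter_upwards [eventually_le_atBot A] with y hy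
      exact decay hM hM0 (fun y hy => (hA y hy).le) hy
  have hconst : ∀ x y, e x * M x = e y * M y := by
    intro x y
    refine is_const_of_deriv_eq_zero (f := fun z => e z * M z) ?_ ?_ x y
    · exact fun z => ((he z).mul (hM z)).differentiableAt
    · intro z
      refine ((he z).mul (hM z)).deriv.trans ?_
      ring
  intro y
  have h1 : Tendsto (fun x => e x * M x) atBot (𝓝 0) := by
    have h2 : Tendsto (fun x => K * M x) atBot (𝓝 (K * 0)) := hMbot.const_mul K
    rw [mul_zero] at h2
    refine squeeze_zero_norm (fun x => ?_) h2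
    rw [Real.norm_eq_abs, abs_mul, abs_of_pos (hM0 x)]
    exact mul_le_mul_of_nonneg_right (hK x) (hM0 x).le
  have h2 : Tendsto (fun x => e x * M x) atBot (𝓝 (e y * M y)) :=
    (tendsto_const_nhds (x := e y * M y)).congr fun x => hconst y x
  have h3 := tendsto_nhds_unique h1 h2
  have h4 : e y * M y = 0 := h3.symm
  exact (mul_eq_zero.1 h4).resolve_right (hM0 y).ne'

end TCRO

end

end Pool.Agent.SLE
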