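import Pool.Agent.Lib.MP_c17912_pr_TC.ROB

/-!
# MP_c17912_pr, project TC: smooth solutions of a singular linear equation on the circle
-/

set_option autoImplicit false

open MeasureTheory ProbabilityTheory Filter Set
open scoped NNReal ENNReal Topology Real

namespace Pool.Agent.SLE

noncomputable section

namespace TCRO

theorem countable_sin : {x : ℝ | Real.sin x = 0}.Countable := by
  have h : {x : ℝ | Real.sin x = 0} ⊆ range fun k : ℤ => (k : ℝ) * π := by
    intro x hx
    obtain ⟨n, hn⟩ := Real.sin_eq_zero_iff.1 hx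
    exact ⟨n, hn⟩
  exact (countable_range _).mono h

/-- A continuous function with a continuous derivative off the zeros of `sin`. -/
theorem deriv_all {u v : ℝ → ℝ} (hu : Continuous u) (hv : Continuous v)
    (hd : ∀ x, Real.sin x ≠ 0 → HasDerivAt u (v x) x) : ∀ x, HasDerivAt u (v x) x := by
  have h1 : ∀ x, ∫ t in (0 : ℝ)..x, v t = u x - u 0 := by
    intro x
    refine integral_eq_of_hasDerivAt_off_countable u v countable_sin hu.continuousOn
      ?_ (hv.intervalIntegrable _ _)
    intro z hz
    exact hd z hz.2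
  have h2 : u = fun x => u 0 + ∫ t in (0 : ℝ)..x, v t := by
    funext x
    rw [h1 x]
    ring
  intro x
  rw [h2]
  exact (PEAux.prim_deriv hv x).const_add _

theorem sc_deriv (κ x : ℝ) : HasDerivAt (fun x : ℝ => κ * Real.sin x ^ 2 / 2)
    (κ * (Real.sin x * Real.cos x)) x := by
  have h := (((Real.hasDerivAt_sin x).pow 2).const_mul κ).div_const 2
  have h1 : HasDerivAt (fun x : ℝ => κ * Real.sin x ^ 2 / 2) _ x := h
  refine h1.congr_deriv ?_
  simp only [Nat.cast_ofNat, Nat.add_one_sub_one, pow_one]
  ring

/-- Smoothness. -/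
theorem circ_smooth {κ : ℝ} (hκ : 0 < κ) : ∀ (n : ℕ) (β G u : ℝ → ℝ), ContDiff ℝ n β →
    ContDiff ℝ n G → Function.Periodic β π → Function.Periodic G π → 0 < β 0 → Continuous u →
    Function.Periodic u π →
    (∀ x, Real.sin x ≠ 0 → HasDerivAt u (2 * (G x - β x * u x) / (κ * Real.sin x ^ 2)) x) →
    ContDiff ℝ n u := by
  intro n
  induction n with
  | zero =>
    intro β G u _ _ _ _ _ hu _ _
    exact contDiff_zero.2 hu
  | succ n ih =>
    intro β G u hβ hG hβp hGp h0 hu hup hd
    have hβ' : ContDiff ℝ (n + 1) β := by exact_mod_cast hβ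
    have hG' : ContDiff ℝ (n + 1) G := by exact_mod_cast hG
    have hle : (n : WithTop ℕ∞) ≤ (n : WithTop ℕ∞) + 1 := le_self_add
    have hun := ih β G u (hβ'.of_le hle) (hG'.of_le hle) hβp hGp h0 hu hup hd
    obtain ⟨dβ, -, hβ1⟩ := contDiff_succ_iff_deriv.1 hβ'
    obtain ⟨dG, -, hG1⟩ := contDiff_succ_iff_deriv.1 hG'
    have hV1 : ContDiff ℝ n fun x : ℝ => κ * (Real.sin x * Real.cos x) := by fun_prop
    have b1 : ContDiff ℝ n fun x => β x + κ * (Real.sin x * Real.cos x) :=
      (hβ'.of_le hle).add hV1
    have g1 : ContDiff ℝ n fun x => deriv G x - deriv β x * u x := hG1.sub (hβ1.mul hun)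
    have pβ : Function.Periodic (deriv β) π := EXaux.per_deriv hβp
    have pG : Function.Periodic (deriv G) π := EXaux.per_deriv hGp
    have b1p : Function.Periodic (fun x => β x + κ * (Real.sin x * Real.cos x)) π := by
      intro x
      simp only
      rw [hβp x, Real.sin_add_pi, Real.cos_add_pi]
      ring
    have g1p : Function.Periodic (fun x => deriv G x - deriv β x * u x) π := by
      intro x
      simp only
      rw [pG x, pβ x, hup x]
    have b10 : 0 < (fun x => β x + κ * (Real.sin x * Real.cos x)) 0 := by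
      simp only [Real.sin_zero, zero_mul, mul_zero, add_zero]
      exact h0
    obtain ⟨v, hv, hvp, hvd, -⟩ := circ_sol hκ b1.continuous g1.continuous b1p g1p b10
    have hvn := ih _ _ v b1 g1 b1p g1p b10 hv hvp hvd
    obtain ⟨e, he⟩ : ∃ e : ℝ → ℝ, e = fun x => κ * Real.sin x ^ 2 / 2 * v x + β x * u x - G x :=
      ⟨_, rfl⟩
    have hec : Continuous e := by
      rw [he]
      have := hβ.continuous
      have := hG.continuous
      fun_prop
    have hep : Function.Periodic e π := by
      intro x
      rw [he]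
      simp only
      rw [hvp x, hβp x, hup x, hGp x, Real.sin_add_pi, neg_sq]
    have hed : ∀ x, Real.sin x ≠ 0 →
        HasDerivAt e (-(2 * β x * e x) / (κ * Real.sin x ^ 2)) x := by
      intro x hx
      have h1 := (((sc_deriv κ x).mul (hvd x hx)).add ((dβ x).hasDerivAt.mul (hd x hx))).sub
        (dG x).hasDerivAt
      have hfe : ((fun x => κ * Real.sin x ^ 2 / 2) * v + β * u - G) = e := by
        rw [he]
        rfl
      rw [hfe] at h1
      refine h1.congr_deriv ?_
      rw [he]
      simp only
      field_simp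
      ring
    have he0 := circ_uniq hκ hβ.continuous hec hβp hep h0 hed
    have hud : ∀ x, Real.sin x ≠ 0 → HasDerivAt u (v x) x := by
      intro x hx
      refine (hd x hx).congr_deriv ?_
      have h1 := he0 x hx
      rw [he] at h1
      simp only at h1
      rw [div_eq_iff (by positivity)]
      linarith
    have hall := deriv_all hu hv hud
    have hdu : deriv u = v := funext fun x => (hall x).deriv
    have : ContDiff ℝ (n + 1) u := by
      rw [contDiff_succ_iff_deriv]
      refine ⟨fun x => (hall x).differentiableAt, ?_, ?_⟩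
      · intro h
        exact absurd h (by simp)
      · rw [hdu]
        exact hvn
    exact_mod_cast this

/-- The positive case at `φ = 0`. -/
theorem solve0 {κ : ℝ} (hκ : 0 < κ) {β G : ℝ → ℝ} (hβ : ∀ n : ℕ, ContDiff ℝ n β)
    (hG : ∀ n : ℕ, ContDiff ℝ n G) (hβp : Function.Periodic β π) (hGp : Function.Periodic G π)
    (h0 : 0 < β 0) : ∃ u : ℝ → ℝ, (∀ n : ℕ, ContDiff ℝ n u) ∧ Function.Periodic u π ∧
      (∀ x, κ * Real.sin x ^ 2 / 2 * deriv u x + β x * u x = G x) ∧
      ((∀ x, 0 < G x) → ∀ x, 0 < u x) := by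
  have hβc := (hβ 0).continuous
  have hGc := (hG 0).continuous
  obtain ⟨u, hu, hup, hd, hpos⟩ := circ_sol hκ hβc hGc hβp hGp h0
  have hs : ∀ n : ℕ, ContDiff ℝ n u := fun n =>
    circ_smooth hκ n β G u (hβ n) (hG n) hβp hGp h0 hu hup hd
  refine ⟨u, hs, hup, ?_, hpos⟩
  have hdc : Continuous (deriv u) := (TRSGN.sm_deriv hs 0).continuous
  have h1 : ∀ x, Real.sin x ≠ 0 → κ * Real.sin x ^ 2 / 2 * deriv u x + β x * u x = G x := by
    intro x hx
    rw [(hd x hx).deriv]
    field_simp
    ring
  intro x
  rcases eq_or_ne (Real.sin x) 0 with hx | hx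
  · have c1 : Continuous fun x => κ * Real.sin x ^ 2 / 2 * deriv u x + β x * u x := by fun_prop
    have t1 := (c1.tendsto x).mono_left (nhdsWithin_le_nhds (s := {x}ᶜ))
    have t2 := (hGc.tendsto x).mono_left (nhdsWithin_le_nhds (s := {x}ᶜ))
    refine tendsto_nhds_unique t1 (t2.congr' ?_)
    filter_upwards [ev_sin hx] with z hz
    exact (h1 z hz).symm
  · exact h1 x hx

/-- TC-ROC. Smooth periodic solutions of `κ sin^2 (x - φ) / 2 * u' + β u = G` for `β φ ≠ 0`. -/
theorem solve {κ φ : ℝ} (hκ : 0 < κ) {β G : ℝ → ℝ} (hβ : ∀ n : ℕ, ContDiff ℝ n β)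
    (hG : ∀ n : ℕ, ContDiff ℝ n G) (hβp : Function.Periodic β π) (hGp : Function.Periodic G π)
    (h0 : β φ ≠ 0) : ∃ u : ℝ → ℝ, (∀ n : ℕ, ContDiff ℝ n u) ∧ Function.Periodic u π ∧
      (∀ x, κ * Real.sin (x - φ) ^ 2 / 2 * deriv u x + β x * u x = G x) ∧
      (0 < β φ → (∀ x, 0 < G x) → ∀ x, 0 < u x) ∧
      (β φ < 0 → (∀ x, G x < 0) → ∀ x, 0 < u x) := by
  rcases lt_or_gt_of_ne h0 with h | h
  · obtain ⟨w, hw, hwp, hwe, hwpos⟩ := solve0 hκ (β := fun x => -β (φ - x))
      (G := fun x => -G (φ - x)) (fun n => ((hβ n).comp (contDiff_const.sub contDiff_id)).neg)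
      (fun n => ((hG n).comp (contDiff_const.sub contDiff_id)).neg) (by
        intro x
        simp only
        rw [← hβp (φ - (x + π))]
        congr 2
        ring) (by
        intro x
        simp only
        rw [← hGp (φ - (x + π))]
        congr 2
        ring) (by
        simp only [sub_zero]
        linarith)
    have hwd : ∀ x, HasDerivAt (fun x => w (φ - x)) (-deriv w (φ - x)) x := by
      intro x
      have h1 : HasDerivAt (fun x : ℝ => φ - x) (-1) x := by
        simpa using (hasDerivAt_id x).const_sub φ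
      have h2 := (TRSGN.hd hw (φ - x)).comp x h1
      refine (show HasDerivAt (fun x => w (φ - x)) _ x from h2).congr_deriv ?_
      ring
    refine ⟨fun x => w (φ - x), fun n => (hw n).comp (contDiff_const.sub contDiff_id), ?_, ?_,
      fun h' => absurd h' (by linarith), ?_⟩
    · intro x
      simp only
      rw [← hwp (φ - (x + π))]
      congr 1
      ring
    · intro x
      rw [(hwd x).deriv]
      have h1 := hwe (φ - x)
      have e1 : φ - (φ - x) = x := by ring
      have e2 : Real.sin (φ - x) ^ 2 = Real.sin (x - φ) ^ 2 := by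
        rw [← neg_sub x φ, Real.sin_neg, neg_sq]
      simp only [e1, e2] at h1
      linarith
    · intro _ hneg x
      refine hwpos (fun y => ?_) _
      have := hneg (φ - y)
      linarith
  · obtain ⟨w, hw, hwp, hwe, hwpos⟩ := solve0 hκ (β := fun x => β (x + φ))
      (G := fun x => G (x + φ)) (fun n => ((hβ n).comp (contDiff_id.add contDiff_const)))
      (fun n => ((hG n).comp (contDiff_id.add contDiff_const))) (by
        intro x
        simp only
        rw [← hβp (x + φ)]
        congr 1
        ring) (by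
        intro x
        simp only
        rw [← hGp (x + φ)]
        congr 1
        ring) (by
        simp only [zero_add]
        exact h)
    have hwd : ∀ x, HasDerivAt (fun x => w (x - φ)) (deriv w (x - φ)) x := by
      intro x
      have h1 : HasDerivAt (fun x : ℝ => x - φ) 1 x := by
        simpa using (hasDerivAt_id x).sub_const φ
      have h2 := (TRSGN.hd hw (x - φ)).comp x h1
      refine (show HasDerivAt (fun x => w (x - φ)) _ x from h2).congr_deriv ?_
      ring
    refine ⟨fun x => w (x - φ), fun n => (hw n).comp (contDiff_id.sub contDiff_const), ?_, ?_,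
      ?_, fun h' => absurd h' (by linarith)⟩
    · intro x
      simp only
      rw [← hwp (x - φ)]
      congr 1
      ring
    · intro x
      rw [(hwd x).deriv]
      have h1 := hwe (x - φ)
      simp only [sub_add_cancel] at h1
      exact h1
    · intro _ hneg x
      exact hwpos (fun y => hneg _) _

end TCRO

end

end Pool.Agent.SLE
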