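import Pool.Agent.Lib.MP_c17912_pr_TR.DOC

/-!
# MP_c17912_pr, project TC: adapted sequences with the supermartingale property, gluing

`SMP μ W h Q M`: `M j` is measurable for `Blk W 0 (j h)` and
`∫ f M (j+1) ≤ Q ∫ f M j` for all nonnegative `f` which are measurable for `Blk W 0 (j h)`.
* `smp_one`: the sequences `indicator (AnS j) (exp (A k j) * F (Z j))` if `F` satisfies the one
  step inequality with the kernel `k`.
* `SMP.glue`: gluing of two sequences at a stopping time.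
* `SMP.total`: `∫ M J ≤ Q ^ J ∫ M 0`.
-/

set_option autoImplicit false

open MeasureTheory ProbabilityTheory Filter
open scoped NNReal ENNReal Topology Real

namespace Pool.Agent.SLE

noncomputable section

variable {Ω : Type*} [MeasurableSpace Ω] {μ : Measure Ω} {a b c K : ℝ} {W : ℝ → Ω → ℂ}

/-- The supermartingale property with a factor `Q` for each step. -/
def SMP (μ : Measure Ω) (W : ℝ → Ω → ℂ) (h : ℝ) (Q : ℝ≥0∞) (M : ℕ → Ω → ℝ≥0∞) : Prop :=
  (∀ j : ℕ, Measurable[Blk W 0 (j * h)] (M j)) ∧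
    ∀ (j : ℕ) (f : Ω → ℝ≥0∞), Measurable[Blk W 0 (j * h)] f →
      ∫⁻ ω, f ω * M (j + 1) ω ∂μ ≤ Q * ∫⁻ ω, f ω * M j ω ∂μ

/-- The total estimate. -/
theorem SMP.total {h : ℝ} {Q : ℝ≥0∞} {M : ℕ → Ω → ℝ≥0∞} (hM : SMP μ W h Q M) (J : ℕ) :
    ∫⁻ ω, M J ω ∂μ ≤ Q ^ J * ∫⁻ ω, M 0 ω ∂μ := by
  induction J with
  | zero => simp
  | succ J ih =>
    have h1 := hM.2 J (fun _ => 1) (@measurable_const _ _ _ (Blk W 0 (J * h)) _)
    simp only [one_mul] at h1
    refine h1.trans ?_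
    rw [pow_succ', mul_assoc]
    exact mul_le_mul_right ih _

/-- Multiplication by a constant. -/
theorem SMP.const {h : ℝ} {Q : ℝ≥0∞} {M : ℕ → Ω → ℝ≥0∞} (hM : SMP μ W h Q M) {κ : ℝ≥0∞}
    (hκ : κ ≠ ⊤) : SMP μ W h Q (fun j ω => κ * M j ω) := by
  refine ⟨fun j => (hM.1 j).const_mul κ, fun j f hf => ?_⟩
  have e : ∀ (i : ℕ) (ω : Ω), f ω * (κ * M i ω) = κ * (f ω * M i ω) := fun i ω => by ring
  simp only [e]
  rw [lintegral_const_mul' _ _ hκ, lintegral_const_mul' _ _ hκ]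
  calc κ * ∫⁻ ω, f ω * M (j + 1) ω ∂μ ≤ κ * (Q * ∫⁻ ω, f ω * M j ω ∂μ) :=
        mul_le_mul_right (hM.2 j f hf) _
    _ = Q * (κ * ∫⁻ ω, f ω * M j ω ∂μ) := by ring

/-- Gluing of two sequences at a stopping time: `S j` is the event that the time has come. -/
theorem SMP.glue {h : ℝ} {Q : ℝ≥0∞} {M₁ M₂ : ℕ → Ω → ℝ≥0∞}
    (hle : ∀ j : ℕ, Blk W 0 (j * h) ≤ (inferInstance : MeasurableSpace Ω))
    (h₁ : SMP μ W h Q M₁) (h₂ : SMP μ W h Q M₂) {S : ℕ → Set Ω}
    (hS : ∀ j : ℕ, MeasurableSet[Blk W 0 (j * h)] (S j)) (hmono : ∀ j, S j ⊆ S (j + 1))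
    (hsw : ∀ j ω, ω ∉ S j → ω ∈ S (j + 1) → M₂ (j + 1) ω ≤ M₁ (j + 1) ω) :
    SMP μ W h Q (fun j ω => (S j).indicator (M₂ j) ω + (S j)ᶜ.indicator (M₁ j) ω) := by
  classical
  refine ⟨fun j => ((h₂.1 j).indicator (hS j)).add ((h₁.1 j).indicator (hS j).compl),
    fun j f hf => ?_⟩
  have hjm : Measurable f := hf.mono (hle j) le_rfl
  have hSm : MeasurableSet (S j) := hle j _ (hS j)
  have hM2 : ∀ i, Measurable (M₂ i) := fun i => (h₂.1 i).mono (hle i) le_rfl
  have hM1 : ∀ i, Measurable (M₁ i) := fun i => (h₁.1 i).mono (hle i) le_rfl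
  have hf2 : Measurable[Blk W 0 (j * h)] ((S j).indicator f) := hf.indicator (hS j)
  have hf1 : Measurable[Blk W 0 (j * h)] ((S j)ᶜ.indicator f) := hf.indicator (hS j).compl
  have key : ∀ ω, f ω * ((S (j + 1)).indicator (M₂ (j + 1)) ω +
      (S (j + 1))ᶜ.indicator (M₁ (j + 1)) ω) ≤
      (S j).indicator f ω * M₂ (j + 1) ω + (S j)ᶜ.indicator f ω * M₁ (j + 1) ω := by
    intro ω
    by_cases h1 : ω ∈ S j
    · have h2 : ω ∈ S (j + 1) := hmono j h1
      have h3 : ω ∉ (S j)ᶜ := fun hc => hc h1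
      have h4 : ω ∉ (S (j + 1))ᶜ := fun hc => hc h2
      rw [Set.indicator_of_mem h1, Set.indicator_of_notMem h3,
        Set.indicator_of_mem h2, Set.indicator_of_notMem h4]
      simp
    · rw [Set.indicator_of_notMem h1, Set.indicator_of_mem (show ω ∈ (S j)ᶜ from h1)]
      by_cases h2 : ω ∈ S (j + 1)
      · have h4 : ω ∉ (S (j + 1))ᶜ := fun hc => hc h2
        rw [Set.indicator_of_mem h2, Set.indicator_of_notMem h4, zero_mul,
          zero_add, add_zero]
        exact mul_le_mul_right (hsw j ω h1 h2) _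
      · rw [Set.indicator_of_notMem h2, Set.indicator_of_mem (show ω ∈ (S (j + 1))ᶜ from h2),
          zero_mul, zero_add, zero_add]
  calc ∫⁻ ω, f ω * ((S (j + 1)).indicator (M₂ (j + 1)) ω +
        (S (j + 1))ᶜ.indicator (M₁ (j + 1)) ω) ∂μ
      ≤ ∫⁻ ω, ((S j).indicator f ω * M₂ (j + 1) ω + (S j)ᶜ.indicator f ω * M₁ (j + 1) ω) ∂μ :=
        lintegral_mono key
    _ = ∫⁻ ω, (S j).indicator f ω * M₂ (j + 1) ω ∂μ +
        ∫⁻ ω, (S j)ᶜ.indicator f ω * M₁ (j + 1) ω ∂μ :=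
        lintegral_add_left ((hf2.mono (hle j) le_rfl).mul (hM2 _)) _
    _ ≤ Q * ∫⁻ ω, (S j).indicator f ω * M₂ j ω ∂μ +
        Q * ∫⁻ ω, (S j)ᶜ.indicator f ω * M₁ j ω ∂μ :=
        add_le_add (h₂.2 j _ hf2) (h₁.2 j _ hf1)
    _ = Q * ∫⁻ ω, ((S j).indicator f ω * M₂ j ω + (S j)ᶜ.indicator f ω * M₁ j ω) ∂μ := by
        have hmm : Measurable fun ω => (S j).indicator f ω * M₂ j ω :=
          (hf2.mono (hle j) le_rfl).mul (hM2 _)
        rw [lintegral_add_left hmm, mul_add]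
    _ = Q * ∫⁻ ω, f ω * ((S j).indicator (M₂ j) ω + (S j)ᶜ.indicator (M₁ j) ω) ∂μ := by
        congr 1
        apply lintegral_congr
        intro ω
        by_cases h1 : ω ∈ S j
        · have h3 : ω ∉ (S j)ᶜ := fun hc => hc h1
          rw [Set.indicator_of_mem h1, Set.indicator_of_notMem h3,
            Set.indicator_of_mem h1, Set.indicator_of_notMem h3]
          simp
        · rw [Set.indicator_of_notMem h1, Set.indicator_of_mem (show ω ∈ (S j)ᶜ from h1),
            Set.indicator_of_notMem h1, Set.indicator_of_mem (show ω ∈ (S j)ᶜ from h1)]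
          simp

/-- The basic sequence of a function with the one step inequality. -/
theorem smp_one [IsProbabilityMeasure μ] (hW : Drv a b c K W μ) {h δ R Q : ℝ} (hh : 0 < h)
    (hQ : 0 ≤ Q) {F k : ℂ → ℝ} (hF : Measurable F) (hk : Measurable k)
    (hone : ∀ (z : ℂ) (s : ℝ), δ ≤ ‖z‖ → ‖z‖ ≤ R → 0 ≤ s →
      ∫⁻ ω, ENNReal.ofReal (F (z + 2 * h / z - (W (s + h) ω - W s ω))) ∂μ
        ≤ ENNReal.ofReal (Q * Real.exp (-(h * k z)) * F z)) (z₀ : ℂ) :
    SMP μ W h (ENNReal.ofReal Q) (fun j ω => (AnS W z₀ h δ R j).indicator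
      (fun ω => ENNReal.ofReal (Real.exp (DiscAux.A W z₀ h k j ω) *
        F (DiscAux.Z W z₀ h j ω))) ω) := by
  classical
  have hle : ∀ j : ℕ, Blk W 0 (j * h) ≤ (inferInstance : MeasurableSpace Ω) :=
    fun j => Blk_le hW _ _
  refine ⟨fun j => ?_, fun j f hf => ?_⟩
  · refine Measurable.indicator ?_ (TRDOC.AnS_meas hh z₀ j le_rfl)
    exact ENNReal.measurable_ofReal.comp ((Real.measurable_exp.comp
      (DiscAux.A_meas hh hk z₀ j le_rfl)).mul (hF.comp (DiscAux.Z_meas hh z₀ j _ le_rfl)))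
  · have hA := TRDOC.AnS_meas (W := W) (δ := δ) (R := R) hh z₀ j le_rfl
    have hA1 := TRDOC.A1_meas (W := W) hh hk z₀ j
    have hwm : Measurable[Blk W 0 (j * h)] (fun ω => f ω * (AnS W z₀ h δ R j).indicator
        (fun ω => ENNReal.ofReal (Real.exp (DiscAux.A W z₀ h k (j + 1) ω))) ω) :=
      hf.mul ((ENNReal.measurable_ofReal.comp (Real.measurable_exp.comp hA1)).indicator hA)
    have hρm : Measurable (fun z => Q * Real.exp (-(h * k z)) * F z) :=
      ((Real.measurable_exp.comp (hk.const_mul h).neg).const_mul Q).mul hF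
    have c1 := cond_step hW hh hF hρm hone z₀ j _ hwm (by
      intro ω hω
      have h1 : (AnS W z₀ h δ R j).indicator
        (fun ω => ENNReal.ofReal (Real.exp (DiscAux.A W z₀ h k (j + 1) ω))) ω ≠ 0 :=
        right_ne_zero_of_mul hω
      exact (Set.mem_of_indicator_ne_zero h1) j le_rfl)
    calc ∫⁻ ω, f ω * (AnS W z₀ h δ R (j + 1)).indicator (fun ω => ENNReal.ofReal
          (Real.exp (DiscAux.A W z₀ h k (j + 1) ω) * F (DiscAux.Z W z₀ h (j + 1) ω))) ω ∂μ
        ≤ ∫⁻ ω, f ω * (AnS W z₀ h δ R j).indicator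
            (fun ω => ENNReal.ofReal (Real.exp (DiscAux.A W z₀ h k (j + 1) ω))) ω *
            ENNReal.ofReal (F (DiscAux.Z W z₀ h (j + 1) ω)) ∂μ := by
          refine lintegral_mono fun ω => ?_
          by_cases h1 : ω ∈ AnS W z₀ h δ R (j + 1)
          · have h2 : ω ∈ AnS W z₀ h δ R j := fun i hi => h1 i (by omega)
            rw [Set.indicator_of_mem h1, Set.indicator_of_mem h2,
              ENNReal.ofReal_mul (Real.exp_pos _).le, mul_assoc]
          · rw [Set.indicator_of_notMem h1, mul_zero]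
            exact zero_le
      _ ≤ _ := c1
      _ = ∫⁻ ω, ENNReal.ofReal Q * (f ω * (AnS W z₀ h δ R j).indicator (fun ω => ENNReal.ofReal
          (Real.exp (DiscAux.A W z₀ h k j ω) * F (DiscAux.Z W z₀ h j ω))) ω) ∂μ := by
          refine lintegral_congr fun ω => ?_
          by_cases h1 : ω ∈ AnS W z₀ h δ R j
          · rw [Set.indicator_of_mem h1, Set.indicator_of_mem h1, mul_assoc,
              ← ENNReal.ofReal_mul (Real.exp_pos _).le, TRDOC.A_succ]
            have e : Real.exp (DiscAux.A W z₀ h k j ω + h * k (DiscAux.Z W z₀ h j ω)) *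
                (Q * Real.exp (-(h * k (DiscAux.Z W z₀ h j ω))) * F (DiscAux.Z W z₀ h j ω)) =
                Q * (Real.exp (DiscAux.A W z₀ h k j ω) * F (DiscAux.Z W z₀ h j ω)) := by
              have e1 : Real.exp (DiscAux.A W z₀ h k j ω + h * k (DiscAux.Z W z₀ h j ω)) *
                  Real.exp (-(h * k (DiscAux.Z W z₀ h j ω))) =
                  Real.exp (DiscAux.A W z₀ h k j ω) := by
                rw [← Real.exp_add]
                congr 1
                ring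
              linear_combination (Q * F (DiscAux.Z W z₀ h j ω)) * e1
            rw [e, ENNReal.ofReal_mul hQ]
            ring
          · rw [Set.indicator_of_notMem h1, Set.indicator_of_notMem h1]
            simp
      _ = _ := lintegral_const_mul' _ _ ENNReal.ofReal_ne_top

end

end Pool.Agent.SLE
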