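import Pool.Agent.Lib.MP_c17912_pr_TC.MX3
import Pool.Agent.Lib.MP_c17912_pr_TC.DO3
import Pool.Agent.Lib.MP_c17912_pr_TR.GOS
import Pool.Agent.Lib.MP_c17912_pr_TR.DOC

set_option autoImplicit false

open MeasureTheory ProbabilityTheory Filter
open scoped NNReal ENNReal Topology Real

namespace Pool.Agent.SLE

noncomputable section

variable {Ω : Type*} [MeasurableSpace Ω] {μ : Measure Ω}

/-- TC-STD0. Scaling of a supersolution: `Op` is a linear form plus half a nonnegative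
quadratic form
in `(α, ψ')`, so `Op (t α) (t ψ) ≤ t Op α ψ` for `0 ≤ t ≤ 1`.

Proof. `α^2 Vr + 2 α p Cv + p^2 Vth` is the value of the form `a u^2 + 2 c u v + b v^2 ≥ 0` at
`u = α cos θ - p sin θ`, `v = α sin θ + p cos θ`. -/
theorem Op_scale {a b c : ℝ} (ha : 0 ≤ a) (hb : 0 ≤ b) (hc : c ^ 2 ≤ a * b) {α t : ℝ}
    (ht : 0 ≤ t) (ht1 : t ≤ 1) {ψ : ℝ → ℝ} (hψ : ContDiff ℝ 3 ψ) (θ : ℝ) :
    Op a b c (t * α) (fun x => t * ψ x) θ ≤ t * Op a b c α ψ θ := by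
  have hd : Differentiable ℝ ψ := hψ.differentiable (by norm_num)
  have hd2 : Differentiable ℝ (deriv ψ) := by
    have h1 : ContDiff ℝ 2 (deriv ψ) := by
      have h2 : ContDiff ℝ (2 + 1) ψ := by
        have : (2 + 1 : WithTop ℕ∞) = 3 := by norm_num
        rw [this]
        exact hψ
      exact (contDiff_succ_iff_deriv.1 h2).2.2
    exact h1.differentiable (by norm_num)
  have e1 : deriv (fun x => t * ψ x) = fun x => t * deriv ψ x := by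
    funext x
    exact deriv_const_mul t (hd x)
  have e2 : deriv (deriv (fun x => t * ψ x)) = fun x => t * deriv (deriv ψ) x := by
    rw [e1]
    funext x
    exact deriv_const_mul t (hd2 x)
  unfold Op
  rw [e2, e1]
  simp only
  set p : ℝ := deriv ψ θ with hp
  have hQ : 0 ≤ α ^ 2 * Vr a b c θ + 2 * α * p * Cv a b c θ + p ^ 2 * Vth a b c θ := by
    obtain ⟨u, hu⟩ : ∃ u, u = α * Real.cos θ - p * Real.sin θ := ⟨_, rfl⟩
    obtain ⟨v, hv⟩ : ∃ v, v = α * Real.sin θ + p * Real.cos θ := ⟨_, rfl⟩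
    have h1 : α ^ 2 * Vr a b c θ + 2 * α * p * Cv a b c θ + p ^ 2 * Vth a b c θ =
        a * u ^ 2 + 2 * c * u * v + b * v ^ 2 := by
      unfold Vr Cv Vth
      rw [hu, hv, Real.sin_two_mul, Real.cos_two_mul]
      have hs : Real.sin θ ^ 2 = 1 - Real.cos θ ^ 2 := by
        have := Real.sin_sq_add_cos_sq θ
        linarith
      ring_nf
      rw [hs]
      ring
    rw [h1]
    rcases eq_or_lt_of_le ha with h0 | h0
    · have hc0 : c = 0 := by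
        rw [← h0, zero_mul] at hc
        have : c ^ 2 = 0 := le_antisymm hc (sq_nonneg c)
        exact pow_eq_zero_iff (two_ne_zero) |>.1 this
      rw [← h0, hc0]
      have := mul_nonneg hb (sq_nonneg v)
      linarith
    · have h2 : 0 ≤ a * (a * u ^ 2 + 2 * c * u * v + b * v ^ 2) := by
        have h3 : a * (a * u ^ 2 + 2 * c * u * v + b * v ^ 2) =
            (a * u + c * v) ^ 2 + (a * b - c ^ 2) * v ^ 2 := by ring
        rw [h3]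
        have := mul_nonneg (sub_nonneg.2 hc) (sq_nonneg v)
        have := sq_nonneg (a * u + c * v)
        linarith
      exact nonneg_of_mul_nonneg_right h2 h0
  have h3 : t ^ 2 ≤ t := by nlinarith
  have h4 : t ^ 2 * (α ^ 2 * Vr a b c θ + 2 * α * p * Cv a b c θ + p ^ 2 * Vth a b c θ) ≤
      t * (α ^ 2 * Vr a b c θ + 2 * α * p * Cv a b c θ + p ^ 2 * Vth a b c θ) :=
    mul_le_mul_of_nonneg_right h3 hQ
  nlinarith [h4]

namespace TCSTD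

section meas

variable {W : ℝ → Ω → ℂ} {h δ R ε θ e c₁ κ : ℝ}

/-- The occupation set. -/
def S (W : ℝ → Ω → ℂ) (z₀ : ℂ) (h δ R ε θ e : ℝ) (j : ℕ) : Set Ω :=
  {ω | Zq W z₀ h ω ∈ An δ R j ∧ Zq W z₀ h ω ∈ Fl h ε θ j ∧ ‖Zq W z₀ h ω j‖ ≤ e}

lemma phs_meas (hh : 0 < h) (z₀ : ℂ) (j : ℕ) {u : ℝ} (hu : j * h ≤ u) :
    Measurable[Blk W 0 u] (fun ω => phs h ε j (Zq W z₀ h ω)) := by
  have h3 : Measurable[Blk W 0 u]
      (fun ω => DiscAux.A W z₀ h (kk 1 ε) j ω - Real.log ‖DiscAux.Z W z₀ h j ω‖) :=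
    (DiscAux.A_meas hh (SmgAux.measurable_kk 1 ε) z₀ j hu).sub
      (Real.measurable_log.comp (measurable_norm.comp (DiscAux.Z_meas hh z₀ j u hu)))
  exact h3

lemma Fl_meas (hh : 0 < h) (z₀ : ℂ) (j : ℕ) {u : ℝ} (hu : j * h ≤ u) :
    MeasurableSet[Blk W 0 u] {ω | Zq W z₀ h ω ∈ Fl h ε θ j} := by
  have h1 : {ω | Zq W z₀ h ω ∈ Fl h ε θ j} = ⋃ i ∈ Finset.range (j + 1),
      ((fun ω => ‖DiscAux.Z W z₀ h i ω‖) ⁻¹' Set.Ici (1 / 2) ∩
        (fun ω => phs h ε i (Zq W z₀ h ω)) ⁻¹' Set.Ici θ) := by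
    ext ω
    simp only [Fl, Set.mem_iUnion, Finset.mem_range, Nat.lt_succ_iff, exists_prop]
    exact Iff.rfl
  rw [h1]
  refine MeasurableSet.biUnion (Finset.range (j + 1)).countable_toSet fun i hi => ?_
  have hi' : i < j + 1 := by simpa using hi
  have h2 : (i : ℝ) * h ≤ u := by
    have : (i : ℝ) ≤ j := by exact_mod_cast (Nat.lt_succ_iff.1 hi')
    nlinarith
  have h3 : Measurable[Blk W 0 u] (fun ω => ‖DiscAux.Z W z₀ h i ω‖) :=
    measurable_norm.comp (DiscAux.Z_meas hh z₀ i u h2)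
  exact (h3 measurableSet_Ici).inter (phs_meas hh z₀ i h2 measurableSet_Ici)

lemma S_meas (hh : 0 < h) (z₀ : ℂ) (j : ℕ) {u : ℝ} (hu : j * h ≤ u) :
    MeasurableSet[Blk W 0 u] (S W z₀ h δ R ε θ e j) := by
  have h1 : Measurable[Blk W 0 u] (fun ω => ‖DiscAux.Z W z₀ h j ω‖) :=
    measurable_norm.comp (DiscAux.Z_meas hh z₀ j u hu)
  have h2 : S W z₀ h δ R ε θ e j = AnS W z₀ h δ R j ∩ ({ω | Zq W z₀ h ω ∈ Fl h ε θ j} ∩
      (fun ω => ‖DiscAux.Z W z₀ h j ω‖) ⁻¹' Set.Iic e) := rfl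
  rw [h2]
  exact (TRDOC.AnS_meas hh z₀ j hu).inter ((Fl_meas hh z₀ j hu).inter (h1 measurableSet_Iic))

lemma Bs_meas (hh : 0 < h) (z₀ : ℂ) (j : ℕ) {u : ℝ} (hu : j * h ≤ u) :
    Measurable[Blk W 0 u] (fun ω => Bs h (kk 0 c₁) j (Zq W z₀ h ω)) :=
  DiscAux.A_meas hh (SmgAux.measurable_kk 0 c₁) z₀ j hu

lemma R_meas (hh : 0 < h) (z₀ : ℂ) (j J : ℕ) :
    MeasurableSet[Blk W 0 (J * h)] {ω | Zq W z₀ h ω ∈ Rf h ε δ R θ j J} := by
  have h1 : {ω | Zq W z₀ h ω ∈ Rf h ε δ R θ j J} = ⋃ i ∈ Finset.Icc j J,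
      (AnS W z₀ h δ R i ∩ (fun ω => phs h ε i (Zq W z₀ h ω)) ⁻¹' Set.Ici θ) := by
    ext ω
    simp only [Rf, Set.mem_ofPred_eq, Set.mem_iUnion, Finset.mem_Icc, exists_prop, and_assoc]
    exact Iff.rfl
  rw [h1]
  refine MeasurableSet.biUnion (Finset.Icc j J).countable_toSet fun i hi => ?_
  have hi' : i ≤ J := by
    have := Finset.mem_Icc.1 (Finset.mem_coe.1 hi)
    exact this.2
  have h2 : (i : ℝ) * h ≤ J * h := by
    have : (i : ℝ) ≤ J := by exact_mod_cast hi'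
    nlinarith
  exact (TRDOC.AnS_meas hh z₀ i h2).inter (phs_meas hh z₀ i h2 measurableSet_Ici)

open Classical in
/-- The weight of the first functional. -/
def w (W : ℝ → Ω → ℂ) (z₀ : ℂ) (h δ R ε θ e c₁ κ : ℝ) (j : ℕ) (ω : Ω) : ℝ≥0∞ :=
  if ω ∈ S W z₀ h δ R ε θ e j then
    ENNReal.ofReal (Real.exp (Bs h (kk 0 c₁) j (Zq W z₀ h ω) +
      κ * (θ - phs h ε j (Zq W z₀ h ω)))) else 0

open Classical in
/-- The weight of the second functional. -/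
def v (W : ℝ → Ω → ℂ) (z₀ : ℂ) (h δ R ε θ e c₁ κ : ℝ) (j : ℕ) (ω : Ω) : ℝ≥0∞ :=
  if ω ∈ S W z₀ h δ R ε θ e j then
    ENNReal.ofReal (Real.exp (Bs h (kk 0 c₁) j (Zq W z₀ h ω) +
      κ * (phs h ε j (Zq W z₀ h ω) - θ))) else 0

lemma w_meas (hh : 0 < h) (z₀ : ℂ) (j : ℕ) {u : ℝ} (hu : j * h ≤ u) :
    Measurable[Blk W 0 u] (w W z₀ h δ R ε θ e c₁ κ j) := by
  classical
  unfold w
  refine Measurable.ite (S_meas hh z₀ j hu) ?_ measurable_const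
  refine ENNReal.measurable_ofReal.comp (Real.measurable_exp.comp ?_)
  exact (Bs_meas hh z₀ j hu).add (((phs_meas hh z₀ j hu).const_sub θ).const_mul κ)

lemma v_meas (hh : 0 < h) (z₀ : ℂ) (j : ℕ) {u : ℝ} (hu : j * h ≤ u) :
    Measurable[Blk W 0 u] (v W z₀ h δ R ε θ e c₁ κ j) := by
  classical
  unfold v
  refine Measurable.ite (S_meas hh z₀ j hu) ?_ measurable_const
  refine ENNReal.measurable_ofReal.comp (Real.measurable_exp.comp ?_)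
  exact (Bs_meas hh z₀ j hu).add (((phs_meas hh z₀ j hu).sub_const θ).const_mul κ)

omit [MeasurableSpace Ω] in
lemma wv {q₃ : ℝ} (hq : q₃ = 2 * κ) (z₀ : ℂ) (j : ℕ) (ω : Ω) :
    w W z₀ h δ R ε θ e c₁ κ j ω *
      ENNReal.ofReal (Real.exp (q₃ * (phs h ε j (Zq W z₀ h ω) - θ))) =
      v W z₀ h δ R ε θ e c₁ κ j ω := by
  unfold w v
  split_ifs
  · rw [← ENNReal.ofReal_mul (Real.exp_pos _).le, ← Real.exp_add]
    congr 2
    rw [hq]
    ring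
  · rw [zero_mul]

omit [MeasurableSpace Ω] in
lemma G1_eq (n t : ℕ) (z₀ : ℂ) (ω : Ω) :
    G1 h ε δ R θ e c₁ κ n t (Zq W z₀ h ω) =
      ∑ j ∈ Finset.Ico ((t - 1) * n) (t * n), ENNReal.ofReal h *
        Set.indicator {ω | Zq W z₀ h ω ∈ Rf h ε δ R θ j ((t + 1) * n)}
          (w W z₀ h δ R ε θ e c₁ κ j) ω := by
  classical
  unfold G1
  refine Finset.sum_congr rfl fun j _ => ?_
  congr 1
  by_cases h1 : Zq W z₀ h ω ∈ Rf h ε δ R θ j ((t + 1) * n)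
  · rw [Set.indicator_of_mem (show ω ∈ {ω | Zq W z₀ h ω ∈ Rf h ε δ R θ j ((t + 1) * n)} from h1)]
    unfold w
    by_cases h2 : ω ∈ S W z₀ h δ R ε θ e j
    · rw [if_pos h2, if_pos ⟨h2.1, h2.2.1, h2.2.2, h1⟩]
    · rw [if_neg h2, if_neg fun h3 => h2 ⟨h3.1, h3.2.1, h3.2.2.1⟩]
  · rw [Set.indicator_of_notMem
      (show ω ∉ {ω | Zq W z₀ h ω ∈ Rf h ε δ R θ j ((t + 1) * n)} from h1)]
    exact if_neg fun h3 => h1 h3.2.2.2

omit [MeasurableSpace Ω] in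
lemma G2_eq (n t : ℕ) (z₀ : ℂ) (ω : Ω) :
    G2 h ε δ R θ e c₁ κ n t (Zq W z₀ h ω) =
      ∑ j ∈ Finset.Ico ((t - 1) * n) (t * n), ENNReal.ofReal h *
          v W z₀ h δ R ε θ e c₁ κ j ω := by
  classical
  unfold G2
  refine Finset.sum_congr rfl fun j _ => ?_
  congr 1
  unfold v
  by_cases h2 : ω ∈ S W z₀ h δ R ε θ e j
  · rw [if_pos h2]
    exact if_pos h2
  · rw [if_neg h2]
    exact if_neg h2

lemma int_v (hle : ∀ u, Blk W 0 u ≤ (inferInstance : MeasurableSpace Ω)) (hh : 0 < h)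
    (z₀ : ℂ) (j : ℕ) : ∫⁻ ω, v W z₀ h δ R ε θ e c₁ κ j ω ∂μ =
      ∫⁻ ω in {ω | Zq W z₀ h ω ∈ An δ R j ∧ Zq W z₀ h ω ∈ Fl h ε θ j ∧ ‖Zq W z₀ h ω j‖ ≤ e},
        ENNReal.ofReal (Real.exp (Bs h (kk 0 c₁) j (Zq W z₀ h ω) +
          κ * (phs h ε j (Zq W z₀ h ω) - θ))) ∂μ := by
  classical
  have h1 : MeasurableSet (S W z₀ h δ R ε θ e j) := hle _ _ (S_meas hh z₀ j le_rfl)
  have h2 : v W z₀ h δ R ε θ e c₁ κ j = Set.indicator (S W z₀ h δ R ε θ e j)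
      (fun ω => ENNReal.ofReal (Real.exp (Bs h (kk 0 c₁) j (Zq W z₀ h ω) +
          κ * (phs h ε j (Zq W z₀ h ω) - θ)))) := by
    funext ω
    unfold v
    rw [Set.indicator_apply]
  rw [h2, lintegral_indicator h1]
  rfl

/-- One cell. -/
lemma cell (hle : ∀ u, Blk W 0 u ≤ (inferInstance : MeasurableSpace Ω)) (hh : 0 < h)
    (z₀ : ℂ) (n t : ℕ) {M : ℝ≥0∞}
    (hM : ∀ j ∈ Finset.Ico ((t - 1) * n) (t * n),
      ∫⁻ ω in {ω | Zq W z₀ h ω ∈ Rf h ε δ R θ j ((t + 1) * n)},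
        w W z₀ h δ R ε θ e c₁ κ j ω ∂μ ≤ M * ∫⁻ ω, v W z₀ h δ R ε θ e c₁ κ j ω ∂μ) :
    ∫⁻ ω, (G1 h ε δ R θ e c₁ κ n t (Zq W z₀ h ω) + G2 h ε δ R θ e c₁ κ n t (Zq W z₀ h ω)) ∂μ ≤
      (M + 1) * ∑ j ∈ Finset.Ico ((t - 1) * n) (t * n), ENNReal.ofReal h *
        ∫⁻ ω, v W z₀ h δ R ε θ e c₁ κ j ω ∂μ := by
  have hv : ∀ j, Measurable (v W z₀ h δ R ε θ e c₁ κ j) := fun j =>
    (v_meas hh z₀ j le_rfl).mono (hle _) le_rfl
  have hw : ∀ j, Measurable (w W z₀ h δ R ε θ e c₁ κ j) := fun j =>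
    (w_meas hh z₀ j le_rfl).mono (hle _) le_rfl
  have hR : ∀ j J, MeasurableSet {ω | Zq W z₀ h ω ∈ Rf h ε δ R θ j J} := fun j J =>
    hle _ _ (R_meas hh z₀ j J)
  simp only [G1_eq, G2_eq]
  rw [lintegral_add_left (Finset.measurable_fun_sum _ fun j _ =>
      ((hw j).indicator (hR j _)).const_mul _),
    lintegral_finsetSum _ fun j _ => ((hw j).indicator (hR j _)).const_mul _,
    lintegral_finsetSum _ fun j _ => (hv j).const_mul _, add_mul M 1, one_mul, Finset.mul_sum]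
  refine add_le_add ?_ ?_
  · refine Finset.sum_le_sum fun j hj => ?_
    rw [lintegral_const_mul _ ((hw j).indicator (hR j _)), lintegral_indicator (hR j _),
      mul_left_comm]
    exact mul_le_mul' le_rfl (hM j hj)
  · refine Finset.sum_le_sum fun j hj => ?_
    rw [lintegral_const_mul _ (hv j)]

/-- The cells are consecutive. -/
lemma cells (f : ℕ → ℝ≥0∞) (n N : ℕ) :
    ∑ t ∈ Finset.range N, ∑ j ∈ Finset.Ico ((t + 1 - 1) * n) ((t + 1) * n), f j =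
      ∑ j ∈ Finset.range (N * n), f j := by
  induction N with
  | zero => simp
  | succ N ih =>
    rw [Finset.sum_range_succ, ih, Nat.add_sub_cancel, Finset.range_eq_Ico,
      Finset.sum_Ico_consecutive f (Nat.zero_le _) (Nat.mul_le_mul_right n (Nat.le_succ N)),
      ← Finset.range_eq_Ico]

end meas

/-- The weights of the comparison. -/
lemma rp {x s : ℝ} (hx : 0 < x) : x ^ s = Real.exp (s * Real.log x) := by
  rw [Real.rpow_def_of_pos hx, mul_comm]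

/-- A multiple of a function with the one step inequality. -/
lemma mulF [IsProbabilityMeasure μ] {F : ℂ → ℝ} {C₀ Q C' h x : ℝ} (hC₀ : 0 ≤ C₀)
    (hQ : 1 + C' * (h * √h) ≤ Q) {W : ℝ → Ω → ℂ} {z : ℂ} {s : ℝ} (hF0 : ∀ z, 0 ≤ F z)
    (h1 : ∫⁻ ω, ENNReal.ofReal (F (z + 2 * h / z - (W (s + h) ω - W s ω))) ∂μ
            ≤ ENNReal.ofReal ((1 + C' * (h * √h)) * Real.exp x * F z)) :
    ∫⁻ ω, ENNReal.ofReal (C₀ * F (z + 2 * h / z - (W (s + h) ω - W s ω))) ∂μ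
            ≤ ENNReal.ofReal (Q * Real.exp x * (C₀ * F z)) := by
  have e1 : ∀ ω, ENNReal.ofReal (C₀ * F (z + 2 * h / z - (W (s + h) ω - W s ω))) =
      ENNReal.ofReal C₀ * ENNReal.ofReal (F (z + 2 * h / z - (W (s + h) ω - W s ω))) :=
    fun ω => ENNReal.ofReal_mul hC₀
  simp only [e1]
  rw [lintegral_const_mul' _ _ ENNReal.ofReal_ne_top]
  refine (mul_le_mul_right h1 _).trans ?_
  rw [← ENNReal.ofReal_mul hC₀]
  refine ENNReal.ofReal_le_ofReal ?_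
  have e3 : 0 ≤ Real.exp x * (C₀ * F z) :=
    mul_nonneg (Real.exp_pos _).le (mul_nonneg hC₀ (hF0 z))
  have := mul_le_mul_of_nonneg_right hQ e3
  nlinarith

end TCSTD

/-- TC-STD. The expectations of the one cell functionals are summable; the constants do not depend
on the annulus (except for the limit `n → ∞`).

Proof. (S2) and (S3) of `HasC` give `(q, α, δ₂, ψ₂)` and `(q₃, δ₃, ψ₃)`. `κ = q₃ / 2`,
`c₁ = c₂ = min (min δ₂ δ₃) 1 / 8`, `ε₀ = min (min δ₂ δ₃) 1 / (8 (q + 1))`. Let `ε ≤ ε₀`. Three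
functions
on the annulus `δ ≤ |z| ≤ R` by `ge_one_step` (TR/GOS), all with the same `Q = 1 + C' h √h`
(maximum of the constants):
* `F₂` for `(α, ψ₂)`, `lam = q`, `c₀ = c₁ + q ε ≤ δ₂`;
* `F₃` for `(-q₃, ψ₃)`, `lam = q₃`, `c₀ = q₃ ε ≤ δ₃` (used in `max3`);
* `F₃'` for `(-κ, ψ₃ / 2)`, `lam = κ`, `c₀ = c₁ + c₂ + κ ε ≤ δ₃ / 2` (`Op_scale` with `t = 1/2`).
With `B` a bound for `|ψ₂|, |ψ₃|`: `exp (-B) |z|^(-q₃) ≤ F₃ ≤ exp B |z|^(-q₃)`, `f = exp (-B)`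
for `F₃'`,
and `hsw` of `disc_occ3` holds for a multiple `C₀ F₂` (`|z| ≥ 1/2`, `q + α ≥ 0`).
For `t ≥ 1`, `j ∈ [(t-1) n, t n)`, `J = (t+1) n`: `max3` with the weight
`w = indicator (An j, Fl j, |Z_j| ≤ e) exp (Bs (kk 0 c₁) j + κ (θ - phs_j))` and `q₃ = 2 κ`
bounds the
`j`-th term of `∫ G1` by `exp (2B) Q^(2n)` times the `j`-th term of `∫ G2`; and the sum over
all `j` of
the terms of `∫ G2` is bounded by `disc_occ3` with `q₃ := κ`, `J = N n`.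
`Q^(2n)`, `Q^(N n) ≤ exp (C' √h ..)` (`SmgAux.pow_le_exp`, `h = 1/n`),
`F₂ z₀ ≤ |z₀|^α exp B ≤ C (1 + |z₀|)^p` for `|z₀| ≥ 1/2`. -/
theorem str_const [IsProbabilityMeasure μ] {a b c K : ℝ} (ha : 0 ≤ a) (hb : 0 ≤ b)
    (hc : c ^ 2 ≤ a * b) (hK : 0 ≤ K) (hC : HasC a b c) :
    ∃ ε₀ : ℝ, 0 < ε₀ ∧ ε₀ ≤ 1 ∧ ∀ ε : ℝ, 0 < ε → ε ≤ ε₀ →
      ∃ (C c₁ q κ : ℝ) (p : ℕ), 0 < C ∧ 0 < c₁ ∧ 2 < q ∧ 0 < κ ∧
      ∀ δ R : ℝ, 0 < δ → δ ≤ 1 / 2 → 1 ≤ R → ∃ C' > 0, ∃ h₀ > 0, ∀ W : ℝ → Ω → ℂ,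
        Drv a b c K W μ → ∀ n : ℕ, 1 ≤ n → 1 / (n : ℝ) ≤ h₀ → ∀ (z₀ : ℂ) (θ e : ℝ),
          1 / 2 ≤ ‖z₀‖ → 1 ≤ e → ∀ N : ℕ,
          ∑ t ∈ Finset.range N, ∫⁻ ω, (G1 (1 / n) ε δ R θ e c₁ κ n (t + 1) (Zq W z₀ (1 / n) ω) +
            G2 (1 / n) ε δ R θ e c₁ κ n (t + 1) (Zq W z₀ (1 / n) ω)) ∂μ ≤
          ENNReal.ofReal (C * e ^ p * (1 + ‖z₀‖) ^ p *
            Real.exp (C' * √(1 / n) * (N + 2)) * Real.exp (-(q * θ))) := by
  obtain ⟨⟨q, α, δ₂, ψ₂, hq, hqa, hδ₂, s2, p2, g2⟩, ⟨q₃, δ₃, ψ₃, hq₃, hq₃1, hδ₃, s3, p3, g3⟩,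
    -, -⟩ := hC
  obtain ⟨B₂, hB₂⟩ := EXaux.bdd s2.continuous p2
  obtain ⟨B₃, hB₃⟩ := EXaux.bdd s3.continuous p3
  set B : ℝ := max B₂ B₃ with hBd
  have b2 : ∀ θ, |ψ₂ θ| ≤ B := fun θ => (hB₂ θ).trans (le_max_left _ _)
  have b3 : ∀ θ, |ψ₃ θ| ≤ B := fun θ => (hB₃ θ).trans (le_max_right _ _)
  have hB0 : 0 ≤ B := (abs_nonneg _).trans (b2 0)
  set m : ℝ := min (min δ₂ δ₃) 1 with hm
  have hm0 : 0 < m := by positivity
  have hm2 : m ≤ δ₂ := (min_le_left _ _).trans (min_le_left _ _)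
  have hm3 : m ≤ δ₃ := (min_le_left _ _).trans (min_le_right _ _)
  have hm1 : m ≤ 1 := min_le_right _ _
  have hq0 : 0 < q := by linarith
  refine ⟨m / (8 * (q + 1)), by positivity, ?_, ?_⟩
  · rw [div_le_one (by positivity)]
    linarith
  intro ε hε hε₀
  have hε1 : ε * (8 * (q + 1)) ≤ m := by rwa [le_div_iff₀ (by positivity)] at hε₀
  have hqε : q * ε ≤ m / 8 := by nlinarith
  have hεm : ε ≤ m / 8 := by nlinarith
  obtain ⟨κ, hκ⟩ : ∃ κ, κ = q₃ / 2 := ⟨_, rfl⟩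
  have hκ0 : 0 < κ := by rw [hκ]; positivity
  have hκ1 : κ ≤ 1 / 2 := by rw [hκ]; linarith
  have hκ2 : q₃ = 2 * κ := by rw [hκ]; ring
  obtain ⟨c₁, hc₁⟩ : ∃ c₁, c₁ = m / 8 := ⟨_, rfl⟩
  have hc₁0 : 0 < c₁ := by rw [hc₁]; positivity
  obtain ⟨C₀, hC₀⟩ : ∃ C₀, C₀ = Real.exp ((q + α) * Real.log 2 + 2 * B) := ⟨_, rfl⟩
  have hC₀0 : 0 < C₀ := by rw [hC₀]; exact Real.exp_pos _
  set p : ℕ := ⌈|α|⌉₊ + 2 with hp
  have hp1 : |α| ≤ p := by
    have := Nat.le_ceil |α|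
    push_cast [hp]
    linarith
  refine ⟨2 * Real.exp (2 * B) * (2 / (c₁ * Real.exp (-B))) * C₀ *
    Real.exp (|α| * Real.log 2 + B), c₁, q, κ, p, by positivity, hc₁0, hq, hκ0, ?_⟩
  intro δ R hδ hδ2 hR
  have hδR : δ ≤ R := by linarith
  obtain ⟨F₂, m2, n2, u2, v2, C₂, hC₂, h₂, hh₂, w2⟩ := ge_one_step (μ := μ) (c := c) ha hb hK
    (α := α) (lam := q) (c₀ := c₁ + q * ε) s2 p2 (fun θ => by linarith [g2 θ]) hδ hδR
  obtain ⟨F₃, m3, n3, u3, v3, C₃, hC₃, h₃, hh₃, w3⟩ := ge_one_step (μ := μ) (c := c) ha hb hK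
    (α := -q₃) (lam := q₃) (c₀ := q₃ * ε) s3 p3 (fun θ => by nlinarith [g3 θ]) hδ hδR
  have s4 : ContDiff ℝ 3 (fun x => (1 / 2 : ℝ) * ψ₃ x) := contDiff_const.mul s3
  have p4 : Function.Periodic (fun x => (1 / 2 : ℝ) * ψ₃ x) (2 * π) := fun x => by
    simp only [p3 x]
  have g4 : ∀ θ, Op a b c (-κ) (fun x => (1 / 2 : ℝ) * ψ₃ x) θ - 2 * κ * Real.cos (2 * θ) +
      (c₁ + c₁ + κ * ε) ≤ 0 := by
    intro θ
    have e1 := Op_scale ha hb hc (α := -q₃) (t := 1 / 2) (by norm_num) (by norm_num) s3 θ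
    have e2 : (1 / 2 : ℝ) * -q₃ = -κ := by rw [hκ]; ring
    rw [e2] at e1
    have e3 := g3 θ
    have e4 : κ * ε ≤ m / 16 := by nlinarith
    have e5 : 2 * q₃ * Real.cos (2 * θ) = 4 * κ * Real.cos (2 * θ) := by
      rw [hκ2]
      ring
    rw [e5] at e3
    rw [hc₁]
    linarith
  obtain ⟨F₄, m4, n4, u4, v4, C₄, hC₄, h₄, hh₄, w4⟩ := ge_one_step (μ := μ) (c := c) ha hb hK
    (α := -κ) (lam := κ) (c₀ := c₁ + c₁ + κ * ε) s4 p4 g4 hδ hδR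
  obtain ⟨C', hC'⟩ : ∃ C', C' = max C₂ (max C₃ C₄) := ⟨_, rfl⟩
  have hC'2 : C₂ ≤ C' := by rw [hC']; exact le_max_left _ _
  have hC'3 : C₃ ≤ C' := by rw [hC']; exact (le_max_left _ _).trans (le_max_right _ _)
  have hC'4 : C₄ ≤ C' := by rw [hC']; exact (le_max_right _ _).trans (le_max_right _ _)
  have hC'0 : 0 < C' := by linarith
  refine ⟨C', hC'0, min (min h₂ h₃) (min h₄ (δ ^ 2)), by positivity, ?_⟩
  intro W hW n hn hnh z₀ θ e hz₀ he N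
  obtain ⟨h, hhd⟩ : ∃ h, h = 1 / (n : ℝ) := ⟨_, rfl⟩
  rw [← hhd] at hnh ⊢
  have hn0 : (0 : ℝ) < n := by exact_mod_cast hn
  have hh : 0 < h := by rw [hhd]; positivity
  have k2 : h ≤ h₂ := hnh.trans ((min_le_left _ _).trans (min_le_left _ _))
  have k3 : h ≤ h₃ := hnh.trans ((min_le_left _ _).trans (min_le_right _ _))
  have k4 : h ≤ h₄ := hnh.trans ((min_le_right _ _).trans (min_le_left _ _))
  have k5 : h ≤ δ ^ 2 := hnh.trans ((min_le_right _ _).trans (min_le_right _ _))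
  have hs : 0 ≤ h * √h := by positivity
  obtain ⟨Q, hQd⟩ : ∃ Q, Q = 1 + C' * (h * √h) := ⟨_, rfl⟩
  have hQ1 : 1 ≤ Q := by
    rw [hQd]
    have := mul_nonneg hC'0.le hs
    linarith
  have hQ2 : 1 + C₂ * (h * √h) ≤ Q := by
    rw [hQd]
    have := mul_le_mul_of_nonneg_right hC'2 hs
    linarith
  have hQ3 : 1 + C₃ * (h * √h) ≤ Q := by
    rw [hQd]
    have := mul_le_mul_of_nonneg_right hC'3 hs
    linarith
  have hQ4 : 1 + C₄ * (h * √h) ≤ Q := by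
    rw [hQd]
    have := mul_le_mul_of_nonneg_right hC'4 hs
    linarith
  have hle : ∀ u, Blk W 0 u ≤ (inferInstance : MeasurableSpace Ω) := fun u => Blk_le hW 0 u
  have he0 : 0 < e := by linarith
  have hnn : ∀ z : ℂ, δ ≤ ‖z‖ → 0 < ‖z‖ := fun z hz => hδ.trans_le hz
  -- one cell
  have hcell : ∀ t : ℕ, ∫⁻ ω, (G1 h ε δ R θ e c₁ κ n (t + 1) (Zq W z₀ h ω) +
      G2 h ε δ R θ e c₁ κ n (t + 1) (Zq W z₀ h ω)) ∂μ ≤
      (ENNReal.ofReal (Real.exp (2 * B) * Q ^ (2 * n)) + 1) *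
        ∑ j ∈ Finset.Ico ((t + 1 - 1) * n) ((t + 1) * n), ENNReal.ofReal h *
        ∫⁻ ω, TCSTD.v W z₀ h δ R ε θ e c₁ κ j ω ∂μ := by
    intro t
    refine TCSTD.cell hle hh z₀ n (t + 1) fun j hj => ?_
    obtain ⟨hj1, hj2⟩ := Finset.mem_Ico.1 hj
    rw [Nat.add_sub_cancel] at hj1
    have hjJ : j ≤ (t + 1 + 1) * n :=
      hj2.le.trans (Nat.mul_le_mul_right n (Nat.le_succ _))
    have key := max3 (μ := μ) hW hh hQ1 hδ hq₃ (Real.exp_pos (-B)) (ε := ε) (θ := θ)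
      (R := R) (f₁ := Real.exp B) m3 n3
      (fun z hz1 hz2 => by
        rw [v3 z hz1 hz2, TCSTD.rp (hnn z hz1), ← Real.exp_add]
        refine Real.exp_le_exp.2 ?_
        have := (abs_le.1 (b3 z.arg)).1
        linarith)
      (fun z hz1 hz2 => by
        rw [v3 z hz1 hz2, TCSTD.rp (hnn z hz1), ← Real.exp_add]
        refine Real.exp_le_exp.2 ?_
        have := (abs_le.1 (b3 z.arg)).2
        linarith)
      (fun z s hz1 hz2 hs0 => by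
        have := TCSTD.mulF (C₀ := 1) zero_le_one hQ3 n3 (w3 W hW h hh k3 z s hz1 hz2 hs0)
        simpa only [one_mul] using this)
      z₀ hjJ (TCSTD.w W z₀ h δ R ε θ e c₁ κ j) (TCSTD.w_meas hh z₀ j le_rfl)
      (fun ω hω => by
        classical
        by_contra h0
        apply hω
        unfold TCSTD.w
        exact if_neg fun h1 => h0 h1.1)
    refine key.trans ?_
    simp only [TCSTD.wv hκ2]
    refine mul_le_mul_left (ENNReal.ofReal_le_ofReal ?_) _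
    have e1 : Real.exp B / Real.exp (-B) = Real.exp (2 * B) := by
      rw [← Real.exp_sub]
      congr 1
      ring
    rw [e1]
    refine mul_le_mul_of_nonneg_left (pow_le_pow_right₀ hQ1 ?_) (Real.exp_pos _).le
    have e2 : (t + 1 + 1) * n = t * n + 2 * n := by ring
    omega
  -- all cells
  have hall : ∑ t ∈ Finset.range N, ∫⁻ ω, (G1 h ε δ R θ e c₁ κ n (t + 1) (Zq W z₀ h ω) +
      G2 h ε δ R θ e c₁ κ n (t + 1) (Zq W z₀ h ω)) ∂μ ≤
      (ENNReal.ofReal (Real.exp (2 * B) * Q ^ (2 * n)) + 1) *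
        ∑ j ∈ Finset.range (N * n), ENNReal.ofReal h *
        ∫⁻ ω, TCSTD.v W z₀ h δ R ε θ e c₁ κ j ω ∂μ := by
    rw [← TCSTD.cells, Finset.mul_sum]
    exact Finset.sum_le_sum fun t _ => hcell t
  refine hall.trans ?_
  simp only [TCSTD.int_v hle hh]
  have key := disc_occ3 (μ := μ) (R := R) (ε := ε) (c₁ := c₁) (c₂ := c₁) (q := q) (q₃ := κ)
    (θ := θ) (f := Real.exp (-B)) (e := e) hW hh hQ1 hδ hc₁0.le hc₁0 (by nlinarith) hκ0
    (by linarith) (Real.exp_pos _) he0 (F₂ := fun z => C₀ * F₂ z) (F₃ := F₄)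
    (m2.const_mul C₀) m4 (fun z => mul_nonneg hC₀0.le (n2 z)) n4
    (fun z hz1 hz2 hz3 => by
      simp only [v4 z hz1 hz2, v2 z hz1 hz2]
      rw [TCSTD.rp (hnn z hz1), TCSTD.rp (hnn z hz1), hC₀]
      unfold GE
      rw [← Real.exp_add, ← Real.exp_add, ← Real.exp_add]
      refine Real.exp_le_exp.2 ?_
      have hl : -Real.log 2 ≤ Real.log ‖z‖ := by
        have := Real.log_le_log (by norm_num) hz3
        rwa [one_div, Real.log_inv] at this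
      have e1 := (abs_le.1 (b3 z.arg)).2
      have e2 := (abs_le.1 (b2 z.arg)).1
      have e3 : (q + α) * (-Real.log 2) ≤ (q + α) * Real.log ‖z‖ :=
        mul_le_mul_of_nonneg_left hl hqa
      nlinarith)
    (fun z hz1 hz2 => by
      simp only [v4 z hz1 hz2]
      rw [TCSTD.rp (hnn z hz1)]
      unfold GE
      rw [← Real.exp_add]
      refine Real.exp_le_exp.2 ?_
      have e1 := (abs_le.1 (b3 z.arg)).1
      linarith)
    (fun z s hz1 hz2 hs0 => TCSTD.mulF hC₀0.le hQ2 n2 (w2 W hW h hh k2 z s hz1 hz2 hs0))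
    (fun z s hz1 hz2 hs0 => by
      have := TCSTD.mulF (C₀ := 1) zero_le_one hQ4 n4 (w4 W hW h hh k4 z s hz1 hz2 hs0)
      simpa only [one_mul] using this)
    z₀ (N * n)
  refine (mul_le_mul_right key _).trans ?_
  have hQn : 1 ≤ Q ^ (2 * n) := one_le_pow₀ hQ1
  have hE : 1 ≤ Real.exp (2 * B) := Real.one_le_exp (by linarith)
  have e0 : ENNReal.ofReal (Real.exp (2 * B) * Q ^ (2 * n)) + 1 ≤
      ENNReal.ofReal (2 * Real.exp (2 * B) * Q ^ (2 * n)) := by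
    rw [← ENNReal.ofReal_one, ← ENNReal.ofReal_add (by positivity) zero_le_one]
    refine ENNReal.ofReal_le_ofReal ?_
    have : 1 ≤ Real.exp (2 * B) * Q ^ (2 * n) := one_le_mul_of_one_le_of_one_le hE hQn
    linarith
  refine (mul_le_mul_left e0 _).trans ?_
  rw [← ENNReal.ofReal_mul (by positivity)]
  refine ENNReal.ofReal_le_ofReal ?_
  -- the final estimate
  have hx : (1 : ℝ) ≤ 1 + ‖z₀‖ := by linarith [norm_nonneg z₀]
  have hF : F₂ z₀ ≤ Real.exp (|α| * Real.log 2 + B) * (1 + ‖z₀‖) ^ p := by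
    refine (u2 z₀).trans ?_
    have h1 : GE α ψ₂ z₀ ≤ Real.exp (|α| * Real.log 2 + B) *
        Real.exp (|α| * Real.log (1 + ‖z₀‖)) := by
      unfold GE
      rw [← Real.exp_add]
      refine Real.exp_le_exp.2 ?_
      have e1 := (abs_le.1 (b2 z₀.arg)).2
      have hl : -Real.log 2 ≤ Real.log ‖z₀‖ := by
        have := Real.log_le_log (by norm_num) hz₀
        rwa [one_div, Real.log_inv] at this
      have hu : Real.log ‖z₀‖ ≤ Real.log (1 + ‖z₀‖) :=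
        Real.log_le_log (by linarith) (by linarith)
      have h2 : 0 ≤ Real.log 2 := Real.log_nonneg (by norm_num)
      have h3 : 0 ≤ Real.log (1 + ‖z₀‖) := Real.log_nonneg hx
      have h4 : |Real.log ‖z₀‖| ≤ Real.log 2 + Real.log (1 + ‖z₀‖) :=
        abs_le.2 ⟨by linarith, by linarith⟩
      have h5 : α * Real.log ‖z₀‖ ≤ |α| * |Real.log ‖z₀‖| := by
        rw [← abs_mul]
        exact le_abs_self _
      have h6 := mul_le_mul_of_nonneg_left h4 (abs_nonneg α)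
      linarith
    refine h1.trans (mul_le_mul_of_nonneg_left ?_ (Real.exp_pos _).le)
    have h : (1 + ‖z₀‖) ^ p = Real.exp (p * Real.log (1 + ‖z₀‖)) := by
      rw [mul_comm, Real.exp_mul, Real.exp_log (by linarith), Real.rpow_natCast]
    rw [h]
    exact Real.exp_le_exp.2 (mul_le_mul_of_nonneg_right hp1 (Real.log_nonneg hx))
  have hQQ : Q ^ (2 * n) * Q ^ (N * n) ≤ Real.exp (C' * √h * (N + 2)) := by
    rw [← pow_add, hQd]
    refine (SmgAux.pow_le_exp hC'0.le hh.le _).trans (le_of_eq ?_)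
    congr 1
    have : ((2 * n + N * n : ℕ) : ℝ) * h = N + 2 := by
      rw [hhd]
      push_cast
      field_simp
      ring
    rw [this]
    ring
  have hep : e ^ 2 ≤ e ^ p := pow_le_pow_right₀ he (by omega)
  have hf0 : 0 < c₁ * Real.exp (-B) := by positivity
  calc 2 * Real.exp (2 * B) * Q ^ (2 * n) * (2 * e ^ 2 / (c₁ * Real.exp (-B)) * Q ^ (N * n) *
        Real.exp (-(q * θ)) * (C₀ * F₂ z₀))
      = 2 * Real.exp (2 * B) * (2 / (c₁ * Real.exp (-B))) * C₀ * e ^ 2 * F₂ z₀ *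
        (Q ^ (2 * n) * Q ^ (N * n)) * Real.exp (-(q * θ)) := by ring
    _ ≤ 2 * Real.exp (2 * B) * (2 / (c₁ * Real.exp (-B))) * C₀ * e ^ p *
        (Real.exp (|α| * Real.log 2 + B) * (1 + ‖z₀‖) ^ p) *
        Real.exp (C' * √h * (N + 2)) * Real.exp (-(q * θ)) := by
        have := n2 z₀
        gcongr
    _ = _ := by ring

end

end Pool.Agent.SLE
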