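import Pool.Agent.Lib.MP_c17912_pr_TC.SMP
import Pool.Agent.Lib.MP_c17912_pr_TC.CRC

/-!
# MP_c17912_pr, project TC: the tail, discrete inequality

`FlT W z₀ h ε θ j`: there is a time `i ≤ j` at which `ph` is at least `θ` and `|Z_i| ≥ 1/2`.
-/

set_option autoImplicit false

open MeasureTheory ProbabilityTheory Filter
open scoped NNReal ENNReal Topology Real

namespace Pool.Agent.SLE

noncomputable section

variable {Ω : Type*} [MeasurableSpace Ω] {μ : Measure Ω} {a b c K : ℝ} {W : ℝ → Ω → ℂ}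

/-- The flag: `ph` is at least `θ` at a time `i ≤ j` with `|Z_i| ≥ 1/2`. -/
def FlT {Ω : Type*} (W : ℝ → Ω → ℂ) (z₀ : ℂ) (h ε θ : ℝ) (j : ℕ) : Set Ω :=
  {ω | ∃ i ≤ j, θ ≤ DiscAux.A W z₀ h (kk 1 ε) i ω - Real.log ‖DiscAux.Z W z₀ h i ω‖ ∧
    1 / 2 ≤ ‖DiscAux.Z W z₀ h i ω‖}

namespace TCTL

variable {h δ R ε θ q c₁ : ℝ}

lemma FlT_meas (hh : 0 < h) (z₀ : ℂ) (j : ℕ) {u : ℝ} (hu : j * h ≤ u) :
    MeasurableSet[Blk W 0 u] (FlT W z₀ h ε θ j) := by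
  have h1 : FlT W z₀ h ε θ j = ⋃ i ∈ Finset.range (j + 1),
      ((fun ω => DiscAux.A W z₀ h (kk 1 ε) i ω - Real.log ‖DiscAux.Z W z₀ h i ω‖) ⁻¹'
        Set.Ici θ ∩ (fun ω => ‖DiscAux.Z W z₀ h i ω‖) ⁻¹' Set.Ici (1 / 2)) := by
    ext ω
    simp only [FlT, Set.mem_iUnion, Finset.mem_range, Nat.lt_succ_iff, exists_prop,
      Set.mem_inter_iff]
    exact Iff.rfl
  rw [h1]
  refine MeasurableSet.biUnion (Finset.range (j + 1)).countable_toSet fun i hi => ?_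
  have hi' : i < j + 1 := by simpa using hi
  have h2 : (i : ℝ) * h ≤ u := by
    have : (i : ℝ) ≤ j := by exact_mod_cast (Nat.lt_succ_iff.1 hi')
    nlinarith
  have h4 : Measurable[Blk W 0 u] (fun ω => ‖DiscAux.Z W z₀ h i ω‖) :=
    measurable_norm.comp (DiscAux.Z_meas hh z₀ i u h2)
  have h3 : Measurable[Blk W 0 u]
      (fun ω => DiscAux.A W z₀ h (kk 1 ε) i ω - Real.log ‖DiscAux.Z W z₀ h i ω‖) :=
    (DiscAux.A_meas hh (SmgAux.measurable_kk 1 ε) z₀ i h2).sub (Real.measurable_log.comp h4)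
  exact (h3 measurableSet_Ici).inter (h4 measurableSet_Ici)

theorem kT_meas (κ : ℝ) : Measurable (kT κ) := by
  unfold kT
  exact ((measurable_const.min measurable_norm).const_mul κ).div (measurable_norm.pow_const 2)

theorem kT_le {κ : ℝ} (hκ : 0 ≤ κ) (hκc : κ ≤ c₁) (z : ℂ) : kT κ z ≤ kk 0 c₁ z := by
  unfold kT kk
  rw [mul_zero, zero_mul, zero_add]
  refine div_le_div_of_nonneg_right ?_ (by positivity)
  exact (mul_le_of_le_one_right hκ (min_le_left _ _)).trans hκc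

omit [MeasurableSpace Ω] in
theorem A_split (z₀ : ℂ) (j : ℕ) (ω : Ω) :
    DiscAux.A W z₀ h (kk q (c₁ + q * ε)) j ω =
      DiscAux.A W z₀ h (kk 0 c₁) j ω + q * DiscAux.A W z₀ h (kk 1 ε) j ω := by
  unfold DiscAux.A
  rw [Finset.mul_sum, ← Finset.sum_add_distrib]
  refine Finset.sum_congr rfl fun i _ => ?_
  rw [TRDOC.kk_split]
  ring

omit [MeasurableSpace Ω] in
theorem A_mono {k₁ k₂ : ℂ → ℝ} (hk : ∀ z, k₁ z ≤ k₂ z) (hh : 0 ≤ h) (z₀ : ℂ) (j : ℕ) (ω : Ω) :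
    DiscAux.A W z₀ h k₁ j ω ≤ DiscAux.A W z₀ h k₂ j ω :=
  Finset.sum_le_sum fun _ _ => mul_le_mul_of_nonneg_left (hk _) hh

/-- The comparison at the flag. -/
theorem sw_flag {Λ A₀ A₁ B F₁z F₂z κA : ℝ} {z : ℂ} (hz : 0 < ‖z‖) (hq : 0 ≤ q) (hΛ : 0 ≤ Λ)
    (hF₂ : 0 ≤ F₂z) (hsw : F₁z ≤ Λ * (‖z‖ ^ q * F₂z)) (hθ : θ ≤ B - Real.log ‖z‖)
    (hA : κA ≤ A₀) (hA₁ : A₁ = A₀ + q * B) :
    Real.exp κA * F₁z ≤ Λ * Real.exp (-(q * θ)) * (Real.exp A₁ * F₂z) := by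
  have h1 : ‖z‖ ^ q ≤ Real.exp (-(q * θ) + q * B) := by
    rw [Real.rpow_def_of_pos hz]
    apply Real.exp_le_exp.2
    nlinarith
  calc Real.exp κA * F₁z ≤ Real.exp κA * (Λ * (‖z‖ ^ q * F₂z)) :=
        mul_le_mul_of_nonneg_left hsw (Real.exp_pos _).le
    _ ≤ Real.exp A₀ * (Λ * (Real.exp (-(q * θ) + q * B) * F₂z)) := by
        have e1 : ‖z‖ ^ q * F₂z ≤ Real.exp (-(q * θ) + q * B) * F₂z :=
          mul_le_mul_of_nonneg_right h1 hF₂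
        have e2 : 0 ≤ ‖z‖ ^ q * F₂z := by positivity
        exact mul_le_mul (Real.exp_le_exp.2 hA) (mul_le_mul_of_nonneg_left e1 hΛ)
          (mul_nonneg hΛ e2) (Real.exp_pos _).le
    _ = Λ * Real.exp (-(q * θ)) * (Real.exp A₁ * F₂z) := by
        rw [hA₁, Real.exp_add, Real.exp_add]
        ring

end TCTL

open TCTL in
/-- TC-TLA. The discrete inequality of the tail. -/
theorem disc_tail [IsProbabilityMeasure μ] (hW : Drv a b c K W μ)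
    {h Q δ R ε κ c₁ q θ Λ : ℝ} (hh : 0 < h) (hQ : 0 ≤ Q) (hδ : 0 < δ) (hκ : 0 ≤ κ) (hκc : κ ≤ c₁)
    (hq : 0 ≤ q) (hΛ : 0 ≤ Λ) {F₁ F₂ : ℂ → ℝ} (hF₁m : Measurable F₁) (hF₂m : Measurable F₂)
    (hF₂ : ∀ z, 0 ≤ F₂ z)
    (hsw : ∀ z : ℂ, δ ≤ ‖z‖ → 1 / 2 ≤ ‖z‖ → ‖z‖ ≤ R → F₁ z ≤ Λ * (‖z‖ ^ q * F₂ z))
    (hf : ∀ z : ℂ, δ ≤ ‖z‖ → ‖z‖ ≤ R → 1 ≤ F₁ z)
    (h1 : ∀ (z : ℂ) (s : ℝ), δ ≤ ‖z‖ → ‖z‖ ≤ R → 0 ≤ s →
      ∫⁻ ω, ENNReal.ofReal (F₁ (z + 2 * h / z - (W (s + h) ω - W s ω))) ∂μ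
        ≤ ENNReal.ofReal (Q * Real.exp (-(h * kT κ z)) * F₁ z))
    (h2 : ∀ (z : ℂ) (s : ℝ), δ ≤ ‖z‖ → ‖z‖ ≤ R → 0 ≤ s →
      ∫⁻ ω, ENNReal.ofReal (F₂ (z + 2 * h / z - (W (s + h) ω - W s ω))) ∂μ
        ≤ ENNReal.ofReal (Q * Real.exp (-(h * kk q (c₁ + q * ε) z)) * F₂ z))
    (z₀ : ℂ) (J : ℕ) :
    ∫⁻ ω, (AnS W z₀ h δ R J ∩ FlT W z₀ h ε θ J).indicator
        (fun ω => ENNReal.ofReal (Real.exp (DiscAux.A W z₀ h (kT κ) J ω))) ω ∂μ ≤
      ENNReal.ofReal (Λ * Q ^ J * Real.exp (-(q * θ)) * F₂ z₀) := by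
  classical
  have hle : ∀ j : ℕ, Blk W 0 (j * h) ≤ (inferInstance : MeasurableSpace Ω) :=
    fun j => Blk_le hW _ _
  have s2 := smp_one hW hh hQ hF₁m (kT_meas κ) h1 z₀
  have s1 := (smp_one hW hh hQ hF₂m (SmgAux.measurable_kk q (c₁ + q * ε)) h2 z₀).const
    (κ := ENNReal.ofReal (Λ * Real.exp (-(q * θ)))) ENNReal.ofReal_ne_top
  have hE : 0 ≤ Λ * Real.exp (-(q * θ)) := mul_nonneg hΛ (Real.exp_pos _).le
  have hg := SMP.glue hle s1 s2 (S := fun j => FlT W z₀ h ε θ j)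
    (fun j => FlT_meas hh z₀ j le_rfl)
    (fun j ω hω => by
      obtain ⟨i, hi, h3⟩ := hω
      exact ⟨i, by omega, h3⟩)
    (fun j ω hω1 hω2 => by
      obtain ⟨i, hi, h3, h4⟩ := hω2
      have hi' : i = j + 1 := by
        by_contra hne
        exact hω1 ⟨i, by omega, h3, h4⟩
      subst hi'
      by_cases hA : ω ∈ AnS W z₀ h δ R (j + 1)
      · rw [Set.indicator_of_mem hA, Set.indicator_of_mem hA, ← ENNReal.ofReal_mul hE]
        refine ENNReal.ofReal_le_ofReal ?_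
        have hZ := hA (j + 1) le_rfl
        exact sw_flag (lt_of_lt_of_le hδ hZ.1) hq hΛ (hF₂ _) (hsw _ hZ.1 h4 hZ.2) h3
          (A_mono (fun z => kT_le hκ hκc z) hh.le z₀ (j + 1) ω) (A_split z₀ (j + 1) ω)
      · rw [Set.indicator_of_notMem hA]
        exact zero_le)
  have ht := hg.total J
  refine le_trans (lintegral_mono fun ω => ?_) (ht.trans ?_)
  · by_cases h3 : ω ∈ AnS W z₀ h δ R J ∩ FlT W z₀ h ε θ J
    · rw [Set.indicator_of_mem h3, Set.indicator_of_mem h3.2, Set.indicator_of_mem h3.1]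
      refine le_trans (ENNReal.ofReal_le_ofReal ?_) le_self_add
      have hZ := h3.1 J le_rfl
      exact le_mul_of_one_le_right (Real.exp_pos _).le (hf _ hZ.1 hZ.2)
    · rw [Set.indicator_of_notMem h3]
      exact zero_le
  · have hb : ∀ ω, (FlT W z₀ h ε θ 0).indicator (fun ω => (AnS W z₀ h δ R 0).indicator
          (fun ω => ENNReal.ofReal (Real.exp (DiscAux.A W z₀ h (kT κ) 0 ω) *
            F₁ (DiscAux.Z W z₀ h 0 ω))) ω) ω +
        (FlT W z₀ h ε θ 0)ᶜ.indicator (fun ω => ENNReal.ofReal (Λ * Real.exp (-(q * θ))) *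
          (AnS W z₀ h δ R 0).indicator (fun ω => ENNReal.ofReal
            (Real.exp (DiscAux.A W z₀ h (kk q (c₁ + q * ε)) 0 ω) *
              F₂ (DiscAux.Z W z₀ h 0 ω))) ω) ω ≤
        ENNReal.ofReal (Λ * Real.exp (-(q * θ)) * F₂ z₀) := by
      intro ω
      have hA0 : ∀ k : ℂ → ℝ, DiscAux.A W z₀ h k 0 ω = 0 := by
        intro k
        simp [DiscAux.A]
      have hZ0 : DiscAux.Z W z₀ h 0 ω = z₀ := by simp [DiscAux.Z, eul]
      by_cases h3 : ω ∈ FlT W z₀ h ε θ 0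
      · have h3' : ω ∉ (FlT W z₀ h ε θ 0)ᶜ := fun hc => hc h3
        rw [Set.indicator_of_mem h3, Set.indicator_of_notMem h3', add_zero]
        by_cases hA : ω ∈ AnS W z₀ h δ R 0
        · rw [Set.indicator_of_mem hA]
          refine ENNReal.ofReal_le_ofReal ?_
          obtain ⟨i, hi, h4, h5⟩ := h3
          have hi' : i = 0 := by omega
          subst hi'
          have hZ := hA 0 le_rfl
          have h6 := sw_flag (A₀ := 0) (A₁ := 0 + q * DiscAux.A W z₀ h (kk 1 ε) 0 ω)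
            (κA := 0) (lt_of_lt_of_le hδ hZ.1) hq hΛ (hF₂ _)
            (hsw _ hZ.1 h5 hZ.2) h4 le_rfl rfl
          rw [hA0, hZ0] at h6 ⊢
          simpa using h6
        · rw [Set.indicator_of_notMem hA]
          exact zero_le
      · rw [Set.indicator_of_notMem h3,
          Set.indicator_of_mem (show ω ∈ (FlT W z₀ h ε θ 0)ᶜ from h3), zero_add]
        by_cases hA : ω ∈ AnS W z₀ h δ R 0
        · rw [Set.indicator_of_mem hA, ← ENNReal.ofReal_mul hE, hA0, hZ0, Real.exp_zero, one_mul]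
        · rw [Set.indicator_of_notMem hA, mul_zero]
          exact zero_le
    calc _ ≤ ENNReal.ofReal Q ^ J * ∫⁻ _, ENNReal.ofReal (Λ * Real.exp (-(q * θ)) * F₂ z₀) ∂μ :=
          mul_le_mul_right (lintegral_mono hb) _
      _ = ENNReal.ofReal (Λ * Q ^ J * Real.exp (-(q * θ)) * F₂ z₀) := by
          rw [lintegral_const, measure_univ, mul_one, ← ENNReal.ofReal_pow hQ,
            ← ENNReal.ofReal_mul (pow_nonneg hQ J)]
          congr 1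
          ring

end

end Pool.Agent.SLE
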