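import Pool.Agent.Lib.MP_c17912_pr_TC.TLA

/-!
# MP_c17912_pr, project TC: the tail, discrete inequality with the functions

`S2D a b c α q δ ψ`: the strict supermartingale `exp (δ clock) |g'| ^ q |Z| ^ α exp ψ`, `q > 2`.
-/

set_option autoImplicit false

open MeasureTheory ProbabilityTheory Filter
open scoped NNReal ENNReal Topology Real

namespace Pool.Agent.SLE

noncomputable section

variable {Ω : Type*} [MeasurableSpace Ω] {μ : Measure Ω}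

/-- The strict supermartingale which is used before the flag. -/
structure S2D (a b c α q δ : ℝ) (ψ : ℝ → ℝ) : Prop where
  q2 : 2 < q
  d0 : 0 < δ
  smooth : ContDiff ℝ 3 ψ
  per : Function.Periodic ψ (2 * π)
  op : ∀ θ, Op a b c α ψ θ - 2 * q * Real.cos (2 * θ) + δ ≤ 0

namespace TCTL

/-- Bounds of `x * log r` for `1/2 ≤ r ≤ 2 ^ (H + 1)`. -/
theorem log_bd {x r : ℝ} {H : ℕ} (h1 : 1 / 2 ≤ r) (h2 : r ≤ 2 ^ (H + 1)) :
    |x * Real.log r| ≤ |x| * ((H + 1 : ℕ) * Real.log 2) := by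
  rw [abs_mul]
  refine mul_le_mul_of_nonneg_left ?_ (abs_nonneg _)
  have hl2 : 0 < Real.log 2 := Real.log_pos (by norm_num)
  have hr : 0 < r := by linarith
  have e1 : Real.log r ≤ (H + 1 : ℕ) * Real.log 2 := by
    rw [← Real.log_pow]
    exact Real.log_le_log hr h2
  have e2 : -Real.log 2 ≤ Real.log r := by
    have := Real.log_le_log (by norm_num) h1
    rwa [one_div, Real.log_inv] at this
  have e3 : Real.log 2 ≤ (H + 1 : ℕ) * Real.log 2 := by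
    refine le_mul_of_one_le_left hl2.le ?_
    exact_mod_cast Nat.succ_le_succ (Nat.zero_le H)
  exact abs_le.2 ⟨by linarith, e1⟩

/-- Powers of two. -/
theorem pow_two_bd {x : ℝ} {p H : ℕ} (hH : 1 ≤ H) (hx : 2 * |x| ≤ p) :
    Real.exp (|x| * ((H + 1 : ℕ) * Real.log 2)) ≤ 2 ^ (p * H) := by
  have hl2 : 0 < Real.log 2 := Real.log_pos (by norm_num)
  have e1 : (2 : ℝ) ^ (p * H) = Real.exp ((p * H : ℕ) * Real.log 2) := by
    rw [Real.exp_nat_mul, Real.exp_log (by norm_num)]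
  rw [e1]
  refine Real.exp_le_exp.2 ?_
  rw [← mul_assoc]
  refine mul_le_mul_of_nonneg_right ?_ hl2.le
  have hH' : (1 : ℝ) ≤ H := by exact_mod_cast hH
  have e2 : ((H + 1 : ℕ) : ℝ) ≤ 2 * H := by
    push_cast
    linarith
  push_cast
  push_cast at e2
  calc |x| * ((H : ℝ) + 1) ≤ |x| * (2 * H) := mul_le_mul_of_nonneg_left e2 (abs_nonneg _)
    _ = 2 * |x| * H := by ring
    _ ≤ p * H := mul_le_mul_of_nonneg_right hx (by linarith)

theorem kT_mono {κ κ' : ℝ} (h : κ ≤ κ') (z : ℂ) : kT κ z ≤ kT κ' z := by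
  unfold kT
  refine div_le_div_of_nonneg_right ?_ (by positivity)
  exact mul_le_mul_of_nonneg_right h (le_min zero_le_one (norm_nonneg _))

end TCTL

open TCTL in
/-- TC-TLB. The discrete inequality of the tail with constants. -/
theorem tail_disc [IsProbabilityMeasure μ] {a b c K : ℝ} (ha : 0 ≤ a) (hb : 0 ≤ b)
    (hK : 0 ≤ K) (h5 : S5P a b c) {α q δ₀ : ℝ} {ψ : ℝ → ℝ}
    (hS : S2D a b c α q δ₀ ψ) {ε : ℝ} (hqε : q * ε < δ₀) :
    ∃ (C c₁ : ℝ) (p : ℕ), 0 < C ∧ 0 < c₁ ∧ ∀ H : ℕ, 1 ≤ H → ∀ δ : ℝ, 0 < δ → δ ≤ 1 / 2 →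
      ∃ C' > 0, ∃ h₀ > 0, ∀ W : ℝ → Ω → ℂ, Drv a b c K W μ → ∀ h : ℝ, 0 < h → h ≤ h₀ →
        ∀ (z₀ : ℂ) (θ : ℝ) (J : ℕ), 1 / 2 ≤ ‖z₀‖ →
          ∫⁻ ω, (AnS W z₀ h δ (2 ^ (H + 1)) J ∩ FlT W z₀ h ε θ J).indicator
            (fun ω => ENNReal.ofReal (Real.exp
              (DiscAux.A W z₀ h (kT (c₁ / (H : ℝ) ^ 2)) J ω))) ω ∂μ ≤
          ENNReal.ofReal (C * 2 ^ (p * H) * Real.exp (C' * √h * (J * h)) *
            Real.exp (-(q * θ))) := by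
  obtain ⟨ct, hct, y₀, hy₀, hy₀1, B₁, hB₁, htail⟩ := cr_tail (μ := μ) ha hb hK h5
  obtain ⟨B, hB⟩ := EXaux.bdd hS.smooth.continuous hS.per
  have hq0 : 0 < q := by linarith [hS.q2]
  obtain ⟨c₂, hc₂⟩ : ∃ c₂ : ℝ, c₂ = δ₀ - q * ε := ⟨_, rfl⟩
  have hc₂0 : 0 < c₂ := by linarith
  obtain ⟨c₁, hc₁⟩ : ∃ c₁ : ℝ, c₁ = min (ct * y₀ ^ 2 / 4) c₂ := ⟨_, rfl⟩
  have hc₁0 : 0 < c₁ := by
    rw [hc₁]
    exact lt_min (by positivity) hc₂0
  obtain ⟨p, hp⟩ : ∃ p : ℕ, p = ⌈2 * |q + α|⌉₊ + ⌈2 * |α|⌉₊ := ⟨_, rfl⟩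
  refine ⟨B₁ * Real.exp (2 * B), c₁, p, by positivity, hc₁0, ?_⟩
  intro H hH δ hδ hδ2
  have hH' : (1 : ℝ) ≤ H := by exact_mod_cast hH
  have hR1 : (1 : ℝ) ≤ 2 ^ (H + 1) := one_le_pow₀ (by norm_num)
  have hl2 : 0 < Real.log 2 := Real.log_pos (by norm_num)
  have hl21 : Real.log 2 ≤ 1 := by
    have := Real.log_two_lt_d9
    linarith
  obtain ⟨y, hy⟩ : ∃ y : ℝ, y = y₀ / (2 * H) := ⟨_, rfl⟩
  have hy0 : 0 < y := by
    rw [hy]
    positivity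
  have hyy : y ≤ y₀ := by
    rw [hy]
    exact div_le_self hy₀.le (by linarith)
  have hRy : (2 : ℝ) ^ (H + 1) ≤ Real.exp (1 / y) := by
    have e1 : (2 : ℝ) ^ (H + 1) = Real.exp ((H + 1 : ℕ) * Real.log 2) := by
      rw [Real.exp_nat_mul, Real.exp_log (by norm_num)]
    rw [e1]
    refine Real.exp_le_exp.2 ?_
    have e2 : 1 / y = 2 * H / y₀ := by
      rw [hy, one_div_div]
    rw [e2, le_div_iff₀ hy₀]
    push_cast
    have e3 : ((H : ℝ) + 1) * Real.log 2 ≤ (H + 1) * 1 :=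
      mul_le_mul_of_nonneg_left hl21 (by linarith)
    have e4 : ((H : ℝ) + 1) * Real.log 2 * y₀ ≤ ((H : ℝ) + 1) * Real.log 2 * 1 :=
      mul_le_mul_of_nonneg_left hy₀1 (by positivity)
    linarith
  obtain ⟨F₁, m1, n1, u1, l1, C₁, hC₁, h₁, hh₁, w1⟩ := htail y hy0 hyy δ (2 ^ (H + 1)) hδ
    (by linarith) hRy
  obtain ⟨F₂, m2, n2, u2, v2, C₂, hC₂, h₂, hh₂, w2⟩ := ge_one_step (μ := μ) (c := c) ha hb hK
    (α := α) (lam := q) (c₀ := δ₀) hS.smooth hS.per (fun θ => by linarith [hS.op θ]) (δ := δ)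
    (R := 2 ^ (H + 1)) hδ (by linarith)
  refine ⟨max C₁ C₂, lt_max_of_lt_left hC₁, min h₁ h₂, lt_min hh₁ hh₂, ?_⟩
  intro W hW h hh hh0 z₀ θ J hz
  have k1 : h ≤ h₁ := hh0.trans (min_le_left _ _)
  have k2 : h ≤ h₂ := hh0.trans (min_le_right _ _)
  have hs : 0 ≤ h * √h := by positivity
  by_cases hzR : ‖z₀‖ ≤ 2 ^ (H + 1)
  swap
  · have he : AnS W z₀ h δ (2 ^ (H + 1)) J = ∅ := by
      refine Set.eq_empty_iff_forall_notMem.2 fun ω hω => ?_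
      have h1 := (hω 0 (Nat.zero_le _)).2
      have h2 : DiscAux.Z W z₀ h 0 ω = z₀ := rfl
      rw [h2] at h1
      exact hzR h1
    rw [he, Set.empty_inter]
    simp
  obtain ⟨Q, hQd⟩ : ∃ Q : ℝ, Q = 1 + max C₁ C₂ * (h * √h) := ⟨_, rfl⟩
  have hm : 0 ≤ max C₁ C₂ := hC₁.le.trans (le_max_left _ _)
  have hQ1 : 1 ≤ Q := by
    have := mul_nonneg hm hs
    linarith
  have hQ0 : 0 ≤ Q := by linarith
  obtain ⟨Λ, hΛ⟩ : ∃ Λ : ℝ, Λ = B₁ * Real.exp (B + |q + α| * ((H + 1 : ℕ) * Real.log 2)) :=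
    ⟨_, rfl⟩
  have hΛ0 : 0 ≤ Λ := by
    rw [hΛ]
    positivity
  have hκ1 : c₁ / (H : ℝ) ^ 2 ≤ ct * y ^ 2 := by
    have e1 : c₁ ≤ ct * y₀ ^ 2 / 4 := by
      rw [hc₁]
      exact min_le_left _ _
    have e2 : ct * y ^ 2 = ct * y₀ ^ 2 / 4 / (H : ℝ) ^ 2 := by
      rw [hy]
      field_simp
      norm_num
    rw [e2]
    exact div_le_div_of_nonneg_right e1 (by positivity)
  have hκ2 : c₁ / (H : ℝ) ^ 2 ≤ c₂ := by
    have e1 : c₁ ≤ c₂ := by
      rw [hc₁]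
      exact min_le_right _ _
    have e2 : c₁ / (H : ℝ) ^ 2 ≤ c₁ := div_le_self hc₁0.le (one_le_pow₀ hH')
    linarith
  have key := disc_tail hW (h := h) (Q := Q) (δ := δ) (R := 2 ^ (H + 1)) (ε := ε)
    (κ := c₁ / (H : ℝ) ^ 2) (c₁ := c₂) (q := q) (θ := θ) (Λ := Λ) hh hQ0 hδ (by positivity) hκ2
    hq0.le hΛ0 m1 m2 n2
    (fun z hz0 hz1 hz2 => by
      rw [v2 z hz0 hz2]
      have hzp : 0 < ‖z‖ := by linarith
      have e1 := (abs_le.1 (log_bd (x := q + α) hz1 hz2)).1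
      have e2 := (abs_le.1 (hB z.arg)).1
      have e3 : ‖z‖ ^ q * GE α ψ z = Real.exp ((q + α) * Real.log ‖z‖ + ψ z.arg) := by
        unfold GE
        rw [Real.rpow_def_of_pos hzp, ← Real.exp_add]
        congr 1
        ring
      have e4 : 1 ≤ Real.exp (B + |q + α| * ((H + 1 : ℕ) * Real.log 2)) *
          Real.exp ((q + α) * Real.log ‖z‖ + ψ z.arg) := by
        rw [← Real.exp_add]
        refine Real.one_le_exp ?_
        linarith
      rw [e3, hΛ, mul_assoc]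
      exact (u1 z).trans (le_mul_of_one_le_right hB₁.le e4))
    l1
    (fun z s hz1 hz2 hs0 => by
      refine (w1 W hW h hh k1 z s hz1 hz2 hs0).trans (ENNReal.ofReal_le_ofReal ?_)
      have e1 : 1 + C₁ * (h * √h) ≤ Q := by
        have := mul_le_mul_of_nonneg_right (le_max_left C₁ C₂) hs
        linarith
      have e2 : Real.exp (-(h * kT (ct * y ^ 2) z)) ≤
          Real.exp (-(h * kT (c₁ / (H : ℝ) ^ 2) z)) := by
        refine Real.exp_le_exp.2 (neg_le_neg ?_)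
        exact mul_le_mul_of_nonneg_left (kT_mono hκ1 z) hh.le
      have e3 : 0 ≤ 1 + C₁ * (h * √h) := by positivity
      exact mul_le_mul_of_nonneg_right (mul_le_mul e1 e2 (Real.exp_pos _).le hQ0) (n1 z))
    (fun z s hz1 hz2 hs0 => by
      have e0 : c₂ + q * ε = δ₀ := by
        rw [hc₂]
        ring
      rw [e0]
      refine (w2 W hW h hh k2 z s hz1 hz2 hs0).trans (ENNReal.ofReal_le_ofReal ?_)
      have e2 : 1 + C₂ * (h * √h) ≤ Q := by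
        have := mul_le_mul_of_nonneg_right (le_max_right C₁ C₂) hs
        linarith
      exact mul_le_mul_of_nonneg_right
        (mul_le_mul_of_nonneg_right e2 (Real.exp_pos _).le) (n2 z))
    z₀ J
  refine key.trans (ENNReal.ofReal_le_ofReal ?_)
  have hQJ : Q ^ J ≤ Real.exp (max C₁ C₂ * √h * (J * h)) := by
    rw [hQd]
    refine (SmgAux.pow_le_exp hm hh.le J).trans (le_of_eq ?_)
    congr 1
    ring
  have hF₂ : F₂ z₀ ≤ Real.exp (B + |α| * ((H + 1 : ℕ) * Real.log 2)) := by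
    refine (u2 z₀).trans ?_
    unfold GE
    refine Real.exp_le_exp.2 ?_
    have e1 := (abs_le.1 (log_bd (x := α) hz hzR)).2
    have e2 := (abs_le.1 (hB z₀.arg)).2
    linarith
  have hp1 : Real.exp (|q + α| * ((H + 1 : ℕ) * Real.log 2)) ≤ 2 ^ (⌈2 * |q + α|⌉₊ * H) :=
    pow_two_bd hH (Nat.le_ceil _)
  have hp2 : Real.exp (|α| * ((H + 1 : ℕ) * Real.log 2)) ≤ 2 ^ (⌈2 * |α|⌉₊ * H) :=
    pow_two_bd hH (Nat.le_ceil _)
  have hfin : Λ * F₂ z₀ ≤ B₁ * Real.exp (2 * B) * 2 ^ (p * H) := by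
    calc Λ * F₂ z₀ ≤ Λ * Real.exp (B + |α| * ((H + 1 : ℕ) * Real.log 2)) :=
          mul_le_mul_of_nonneg_left hF₂ hΛ0
      _ = B₁ * Real.exp (2 * B) * (Real.exp (|q + α| * ((H + 1 : ℕ) * Real.log 2)) *
            Real.exp (|α| * ((H + 1 : ℕ) * Real.log 2))) := by
          rw [hΛ, Real.exp_add, Real.exp_add, show 2 * B = B + B by ring, Real.exp_add]
          ring
      _ ≤ B₁ * Real.exp (2 * B) * (2 ^ (⌈2 * |q + α|⌉₊ * H) * 2 ^ (⌈2 * |α|⌉₊ * H)) := by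
          refine mul_le_mul_of_nonneg_left ?_ (by positivity)
          exact mul_le_mul hp1 hp2 (Real.exp_pos _).le (by positivity)
      _ = B₁ * Real.exp (2 * B) * 2 ^ (p * H) := by
          rw [← pow_add, ← add_mul, hp]
  calc Λ * Q ^ J * Real.exp (-(q * θ)) * F₂ z₀
      = (Λ * F₂ z₀) * Q ^ J * Real.exp (-(q * θ)) := by ring
    _ ≤ (B₁ * Real.exp (2 * B) * 2 ^ (p * H)) * Real.exp (max C₁ C₂ * √h * (J * h)) *
          Real.exp (-(q * θ)) := by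
        refine mul_le_mul_of_nonneg_right ?_ (Real.exp_pos _).le
        exact mul_le_mul hfin hQJ (pow_nonneg hQ0 J) (by positivity)

end

end Pool.Agent.SLE
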