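import Pool.Agent.Lib.MP_c17912_pr_TC.TLB
import Pool.Agent.Lib.MP_c17912_pr_TR.OCC

/-!
# MP_c17912_pr, project TC: the tail, functional of one starting point
-/

set_option autoImplicit false

open MeasureTheory ProbabilityTheory Filter
open scoped NNReal ENNReal Topology Real

namespace Pool.Agent.SLE

noncomputable section

variable {Ω : Type*} [MeasurableSpace Ω] {μ : Measure Ω}

namespace TCTL

theorem kT_cont (κ : ℝ) : ContinuousOn (kT κ) {0}ᶜ := by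
  unfold kT
  refine ContinuousOn.div (continuousOn_const.mul
    (continuousOn_const.inf continuous_norm.continuousOn)) (continuous_norm.continuousOn.pow 2) ?_
  intro z hz
  exact pow_ne_zero 2 (norm_ne_zero_iff.2 hz)

/-- The discrete functional. -/
def Tl (W : ℝ → Ω → ℂ) (z₀ : ℂ) (κ ε θ δ R : ℝ) (n T : ℕ) (ω : Ω) : ℝ≥0∞ :=
  (AnS W z₀ ((1 / 2) ^ n) δ R (T * 2 ^ n) ∩ FlT W z₀ ((1 / 2) ^ n) ε θ (T * 2 ^ n)).indicator
    (fun ω => ENNReal.ofReal (Real.exp (DiscAux.A W z₀ ((1 / 2) ^ n) (kT κ) (T * 2 ^ n) ω))) ω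

theorem two_half (n : ℕ) : (2 : ℝ) ^ n * (1 / 2) ^ n = 1 := by
  rw [← mul_pow]
  norm_num

theorem Tl_meas {W : ℝ → Ω → ℂ} (z₀ : ℂ) (κ ε θ δ R : ℝ) (n T : ℕ) :
    Measurable[Blk W 0 T] (Tl W z₀ κ ε θ δ R n T) := by
  have hh : (0 : ℝ) < (1 / 2) ^ n := by positivity
  have hu : ((T * 2 ^ n : ℕ) : ℝ) * (1 / 2) ^ n ≤ (T : ℝ) := by
    push_cast
    rw [mul_assoc, two_half, mul_one]
  unfold Tl
  exact (ENNReal.measurable_ofReal.comp (Real.measurable_exp.comp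
    (DiscAux.A_meas hh (kT_meas κ) z₀ _ hu))).indicator
    ((TRDOC.AnS_meas hh z₀ _ hu).inter (FlT_meas hh z₀ _ hu))

omit [MeasurableSpace Ω] in
/-- The lower bound of the discrete functional. -/
theorem Tl_low {W : ℝ → Ω → ℂ} {z₀ : ℂ} {κ ε θ R : ℝ} {ω : Ω} {T : ℕ} {g : ℝ → ℂ}
    (hU : Continuous fun t => W t ω) (h0 : W 0 ω = 0)
    (hs : Sol (fun t => W t ω) z₀ T g) (hle : ∀ u ∈ Set.Icc (0 : ℝ) T, ‖g u - W u ω‖ < R)
    {v : ℝ} (hv : v ∈ Set.Icc (0 : ℝ) T) (hv1 : θ < ph (fun t => W t ω) g ε v)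
    (hv2 : 1 / 2 < ‖g v - W v ω‖) :
    ∃ δ₀ > 0, ∀ᶠ n : ℕ in atTop, ∀ δ, δ ≤ δ₀ →
      ENNReal.ofReal (Real.exp ((∫ u in (0 : ℝ)..T, kT κ (g u - W u ω)) - 1)) ≤
        Tl W z₀ κ ε θ δ R n T ω := by
  have hT0 : (0 : ℝ) ≤ T := Nat.cast_nonneg T
  have hZc := EulerAux.contZ hU hs
  have hne : (Set.Icc (0 : ℝ) T).Nonempty := ⟨0, le_rfl, hT0⟩
  obtain ⟨s₁, hs₁, hmax⟩ := isCompact_Icc.exists_isMaxOn hne hZc.norm
  obtain ⟨s₂, hs₂, hmin⟩ := isCompact_Icc.exists_isMinOn hne hZc.norm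
  obtain ⟨C, hCdef⟩ : ∃ C, C = ‖g s₁ - W s₁ ω‖ := ⟨_, rfl⟩
  obtain ⟨c, hcdef⟩ : ∃ c, c = ‖g s₂ - W s₂ ω‖ := ⟨_, rfl⟩
  have hC : ∀ s ∈ Set.Icc (0 : ℝ) T, ‖g s - W s ω‖ ≤ C := fun s hs' => by
    rw [hCdef]; exact hmax hs'
  have hc : ∀ s ∈ Set.Icc (0 : ℝ) T, c ≤ ‖g s - W s ω‖ := fun s hs' => by
    rw [hcdef]; exact hmin hs'
  have hCR : C < R := by
    rw [hCdef]
    exact hle s₁ hs₁
  have hc0 : 0 < c := by
    rw [hcdef]
    exact norm_pos_iff.2 (sub_ne_zero.2 (hs.2.1 s₂ hs₂))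
  have hsv : Sol (fun t => W t ω) z₀ v g := hs.restrict hv.2
  -- closeness
  obtain ⟨η, hη⟩ : ∃ η : ℝ, η = min (min (c / 2) (R - C)) ((‖g v - W v ω‖ - 1 / 2) / 2) := ⟨_, rfl⟩
  have hη0 : 0 < η := by
    rw [hη]
    exact lt_min (lt_min (by linarith) (by linarith)) (by linarith)
  have hη1 : η ≤ c / 2 := by
    rw [hη]
    exact (min_le_left _ _).trans (min_le_left _ _)
  have hη2 : η ≤ R - C := by
    rw [hη]
    exact (min_le_left _ _).trans (min_le_right _ _)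
  have hη3 : η ≤ (‖g v - W v ω‖ - 1 / 2) / 2 := by
    rw [hη]
    exact min_le_right _ _
  have hev1 := EulerAux.eul_close hU h0 (δ := c / 2) (c := c) hT0 (by linarith) hs hc
    (by linarith) hη0
  have hev2 := EulerAux.sum_close hU h0 (kT_cont κ) (δ := c / 2) (R := R) (c := c)
    (C := C) hT0 (by linarith) hs hc (by linarith) hC hCR one_pos
  -- the flag
  obtain ⟨γ, hγ⟩ : ∃ γ : ℝ, γ = (ph (fun t => W t ω) g ε v - θ) / 2 := ⟨_, rfl⟩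
  have hγ0 : 0 < γ := by
    rw [hγ]
    linarith
  have hcm : ∀ s ∈ Set.Icc (0 : ℝ) v, s ∈ Set.Icc (0 : ℝ) T := fun s hs' =>
    ⟨hs'.1, hs'.2.trans hv.2⟩
  have hev3 := EulerAux.sum_close hU h0 (TROCC.kk_cont 1 ε) (δ := c / 2) (R := R) (c := c)
    (C := C) hv.1 (by linarith) hsv (fun s hs' => hc s (hcm s hs')) (by linarith)
    (fun s hs' => hC s (hcm s hs')) hCR hγ0
  -- the value of the scheme at `v`
  have hlim : Tendsto (fun n : ℕ => eul (fun t => W t ω) z₀ ((1 / 2) ^ n) (EulerAux.jn v n)) atTop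
      (𝓝 (g v - W v ω)) := by
    rw [Metric.tendsto_atTop]
    intro r hr
    have h1 := EulerAux.eul_close hU h0 (δ := c / 2) (c := c) hT0 (by linarith) hs hc
      (by linarith) (show 0 < r / 4 by linarith)
    have h2 : ∀ᶠ n : ℕ in atTop, ‖(g ((EulerAux.jn v n : ℝ) * (1 / 2) ^ n) -
        W ((EulerAux.jn v n : ℝ) * (1 / 2) ^ n) ω) - (g v - W v ω)‖ < r / 4 := by
      have h3 : Tendsto (fun n : ℕ => (EulerAux.jn v n : ℝ) * (1 / 2) ^ n) atTop (𝓝 v) := by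
        rw [Metric.tendsto_atTop]
        intro r' hr'
        obtain ⟨N, hN⟩ := eventually_atTop.1 ((tendsto_order.1 EulerAux.tendsto_h).2 r' hr')
        refine ⟨N, fun n hn => ?_⟩
        have a1 := EulerAux.jn_le hv.1 n
        have a2 := EulerAux.lt_jn (t := v) n
        have a3 := hN n hn
        rw [Real.dist_eq, abs_sub_comm, abs_of_nonneg (by linarith)]
        linarith
      have h4 : Tendsto (fun n : ℕ => (EulerAux.jn v n : ℝ) * (1 / 2) ^ n) atTop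
          (𝓝[Set.Icc 0 (T : ℝ)] v) := by
        rw [tendsto_nhdsWithin_iff]
        refine ⟨h3, Eventually.of_forall fun n => ⟨by positivity, ?_⟩⟩
        exact (EulerAux.jn_le hv.1 n).trans hv.2
      have h5 := (hZc v hv).tendsto.comp h4
      have h6 := Metric.tendsto_atTop.1 h5 (r / 4) (by linarith)
      obtain ⟨N, hN⟩ := h6
      refine eventually_atTop.2 ⟨N, fun n hn => ?_⟩
      have := hN n hn
      rw [dist_eq_norm] at this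
      exact this
    obtain ⟨N, hN⟩ := eventually_atTop.1 (h1.and h2)
    refine ⟨N, fun n hn => ?_⟩
    obtain ⟨a1, a2⟩ := hN n hn
    have hjv : EulerAux.jn v n ≤ EulerAux.jn T n := by
      unfold EulerAux.jn
      exact Nat.floor_mono (mul_le_mul_of_nonneg_right hv.2 (by positivity))
    have a3 := a1 _ hjv
    rw [dist_eq_norm]
    have e : eul (fun t => W t ω) z₀ ((1 / 2) ^ n) (EulerAux.jn v n) - (g v - W v ω) =
        (eul (fun t => W t ω) z₀ ((1 / 2) ^ n) (EulerAux.jn v n) -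
          (g ((EulerAux.jn v n : ℝ) * (1 / 2) ^ n) -
            W ((EulerAux.jn v n : ℝ) * (1 / 2) ^ n) ω)) +
        ((g ((EulerAux.jn v n : ℝ) * (1 / 2) ^ n) -
        W ((EulerAux.jn v n : ℝ) * (1 / 2) ^ n) ω) - (g v - W v ω)) := by ring
    rw [e]
    refine lt_of_le_of_lt (norm_add_le _ _) ?_
    linarith
  have hvpos : 0 < ‖g v - W v ω‖ := by linarith
  have hlimn : Tendsto (fun n : ℕ => ‖eul (fun t => W t ω) z₀ ((1 / 2) ^ n) (EulerAux.jn v n)‖)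
      atTop (𝓝 ‖g v - W v ω‖) := hlim.norm
  have hliml := hlimn.log hvpos.ne'
  have hev4 : ∀ᶠ n : ℕ in atTop,
      1 / 2 < ‖eul (fun t => W t ω) z₀ ((1 / 2) ^ n) (EulerAux.jn v n)‖ :=
    (tendsto_order.1 hlimn).1 _ hv2
  have hev5 : ∀ᶠ n : ℕ in atTop,
      Real.log ‖eul (fun t => W t ω) z₀ ((1 / 2) ^ n) (EulerAux.jn v n)‖ <
        Real.log ‖g v - W v ω‖ + γ :=
    (tendsto_order.1 hliml).2 _ (by linarith)
  refine ⟨c / 2, by linarith, ?_⟩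
  filter_upwards [hev1, hev2, hev3, hev4, hev5] with n h1 h2 h3 h4 h5 δ hδ
  have hh : (0 : ℝ) < (1 / 2) ^ n := by positivity
  have hjT : EulerAux.jn T n = T * 2 ^ n := by
    rw [EulerAux.jn]
    have h6 : (T : ℝ) * 2 ^ n = ((T * 2 ^ n : ℕ) : ℝ) := by push_cast; ring
    rw [h6, Nat.floor_natCast]
  rw [hjT] at h1 h2
  have hin : ∀ i ≤ T * 2 ^ n, (i : ℝ) * (1 / 2) ^ n ∈ Set.Icc (0 : ℝ) T := by
    intro i hi
    refine ⟨by positivity, ?_⟩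
    have h6 : (i : ℝ) ≤ T * 2 ^ n := by exact_mod_cast hi
    calc (i : ℝ) * (1 / 2) ^ n ≤ T * 2 ^ n * (1 / 2) ^ n := mul_le_mul_of_nonneg_right h6 hh.le
      _ = T := by rw [mul_assoc, two_half, mul_one]
  have hmemA : ω ∈ AnS W z₀ ((1 / 2) ^ n) δ R (T * 2 ^ n) := by
    intro i hi
    have a1 := h1 i hi
    have a2 := hc _ (hin i hi)
    have a3 := hC _ (hin i hi)
    have a4 := norm_sub_norm_le (g ((i : ℝ) * (1 / 2) ^ n) - W ((i : ℝ) * (1 / 2) ^ n) ω)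
      (eul (fun t => W t ω) z₀ ((1 / 2) ^ n) i)
    rw [norm_sub_rev (g ((i : ℝ) * (1 / 2) ^ n) - W ((i : ℝ) * (1 / 2) ^ n) ω)
      (eul (fun t => W t ω) z₀ ((1 / 2) ^ n) i)] at a4
    have a5 := norm_sub_norm_le (eul (fun t => W t ω) z₀ ((1 / 2) ^ n) i)
      (g ((i : ℝ) * (1 / 2) ^ n) - W ((i : ℝ) * (1 / 2) ^ n) ω)
    change δ ≤ ‖eul (fun t => W t ω) z₀ ((1 / 2) ^ n) i‖ ∧
      ‖eul (fun t => W t ω) z₀ ((1 / 2) ^ n) i‖ ≤ R
    constructor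
    · linarith
    · linarith
  have hjv : EulerAux.jn v n ≤ T * 2 ^ n := by
    rw [← hjT]
    unfold EulerAux.jn
    exact Nat.floor_mono (mul_le_mul_of_nonneg_right hv.2 (by positivity))
  have hmemF : ω ∈ FlT W z₀ ((1 / 2) ^ n) ε θ (T * 2 ^ n) := by
    refine ⟨EulerAux.jn v n, hjv, ?_, h4.le⟩
    have a1 := (abs_le.1 h3).1
    have a2 : ph (fun t => W t ω) g ε v =
        (∫ s in (0 : ℝ)..v, kk 1 ε (g s - W s ω)) - Real.log ‖g v - W v ω‖ := rfl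
    change θ ≤ (∑ i ∈ Finset.range (EulerAux.jn v n), (1 / 2) ^ n *
      kk 1 ε (eul (fun t => W t ω) z₀ ((1 / 2) ^ n) i)) -
      Real.log ‖eul (fun t => W t ω) z₀ ((1 / 2) ^ n) (EulerAux.jn v n)‖
    have a3 : 2 * γ = ph (fun t => W t ω) g ε v - θ := by
      rw [hγ]
      ring
    linarith
  unfold Tl
  rw [Set.indicator_of_mem (show ω ∈ AnS W z₀ ((1 / 2) ^ n) δ R (T * 2 ^ n) ∩
    FlT W z₀ ((1 / 2) ^ n) ε θ (T * 2 ^ n) from ⟨hmemA, hmemF⟩)]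
  refine ENNReal.ofReal_le_ofReal (Real.exp_le_exp.2 ?_)
  have a1 := (abs_le.1 h2).1
  change _ ≤ ∑ i ∈ Finset.range (T * 2 ^ n), (1 / 2) ^ n *
      kT κ (eul (fun t => W t ω) z₀ ((1 / 2) ^ n) i)
  linarith

end TCTL

open TCTL in
/-- TC-TLC. The functional of the tail for one starting point. -/
theorem tail_pt [IsProbabilityMeasure μ] {a b c K : ℝ} (ha : 0 ≤ a) (hb : 0 ≤ b)
    (hK : 0 ≤ K) (h5 : S5P a b c) {α q δ₀ : ℝ} {ψ : ℝ → ℝ}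
    (hS : S2D a b c α q δ₀ ψ) {ε : ℝ} (hqε : q * ε < δ₀) :
    ∃ (C c₁ : ℝ) (p : ℕ), 0 < C ∧ 0 < c₁ ∧ ∀ W : ℝ → Ω → ℂ, Drv a b c K W μ →
      ∀ (z₀ : ℂ) (θ : ℝ) (H T : ℕ), 1 ≤ H → ∃ Y : Ω → ℝ≥0∞, Measurable[Blk W 0 T] Y ∧
        ∫⁻ ω, Y ω ∂μ ≤ ENNReal.ofReal (C * 2 ^ (p * H) * Real.exp (-(q * θ))) ∧
        ∀ (ω : Ω) (g : ℝ → ℂ), 1 / 2 ≤ ‖z₀‖ → Sol (fun t => W t ω) z₀ T g →
          (∀ u ∈ Set.Icc (0 : ℝ) T, ‖g u - W u ω‖ < 2 ^ (H + 1)) →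
          (∃ v ∈ Set.Icc (0 : ℝ) T, θ < ph (fun t => W t ω) g ε v ∧ 1 / 2 < ‖g v - W v ω‖) →
          ENNReal.ofReal (Real.exp ((∫ u in (0 : ℝ)..T,
            kT (c₁ / (H : ℝ) ^ 2) (g u - W u ω)) - 1)) ≤ Y ω := by
  classical
  obtain ⟨C, c₁, p, hC, hc₁, hdisc⟩ := tail_disc (μ := μ) ha hb hK h5 hS hqε
  refine ⟨C, c₁, p, hC, hc₁, fun W hW z₀ θ H T hH => ?_⟩
  by_cases hz : 1 / 2 ≤ ‖z₀‖
  swap
  · refine ⟨fun _ => 0, @measurable_const _ _ _ (Blk W 0 T) _, by simp, fun ω g hz' => ?_⟩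
    exact absurd hz' hz
  have hdl : ∀ l : ℕ, (0 : ℝ) < (1 / 2) ^ (l + 1) := fun l => by positivity
  have hdl2 : ∀ l : ℕ, ((1 : ℝ) / 2) ^ (l + 1) ≤ 1 / 2 := fun l => by
    rw [pow_succ]
    have : ((1 : ℝ) / 2) ^ l ≤ 1 := pow_le_one₀ (by norm_num) (by norm_num)
    linarith
  choose C' hC' h₀ hh₀ hocc' using fun l : ℕ => hdisc H hH ((1 / 2) ^ (l + 1)) (hdl l) (hdl2 l)
  have hN : ∀ l : ℕ, ∃ n : ℕ, l ≤ n ∧ ((1 : ℝ) / 2) ^ n ≤ h₀ l ∧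
      C' l * √((1 / 2) ^ n) ≤ 1 / ((l : ℝ) + 1) := by
    intro l
    have h1 : Tendsto (fun n : ℕ => C' l * √(((1 : ℝ) / 2) ^ n)) atTop (𝓝 (C' l * √0)) :=
      ((Real.continuous_sqrt.tendsto 0).comp EulerAux.tendsto_h).const_mul _
    rw [Real.sqrt_zero, mul_zero] at h1
    have h2 : (0 : ℝ) < 1 / ((l : ℝ) + 1) := by positivity
    obtain ⟨n, hn1, hn2, hn3⟩ := ((eventually_ge_atTop l).and
      (((tendsto_order.1 EulerAux.tendsto_h).2 _ (hh₀ l)).and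
        ((tendsto_order.1 h1).2 _ h2))).exists
    exact ⟨n, hn1, hn2.le, hn3.le⟩
  choose n hnl hn₀ hn' using hN
  have hn : Tendsto n atTop atTop := tendsto_atTop_mono hnl tendsto_id
  refine ⟨fun ω => liminf (fun l => Tl W z₀ (c₁ / (H : ℝ) ^ 2) ε θ ((1 / 2) ^ (l + 1))
    (2 ^ (H + 1)) (n l) T ω) atTop, ?_, ?_, ?_⟩
  · exact Measurable.liminf fun l => Tl_meas z₀ _ ε θ _ _ (n l) T
  · have hYm : ∀ l : ℕ, Measurable (Tl W z₀ (c₁ / (H : ℝ) ^ 2) ε θ ((1 / 2) ^ (l + 1))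
        (2 ^ (H + 1)) (n l) T) :=
      fun l => (Tl_meas z₀ _ ε θ _ _ (n l) T).mono (Blk_le hW _ _) le_rfl
    have hexp : ∀ l : ℕ, ∫⁻ ω, Tl W z₀ (c₁ / (H : ℝ) ^ 2) ε θ ((1 / 2) ^ (l + 1))
        (2 ^ (H + 1)) (n l) T ω ∂μ ≤
        ENNReal.ofReal (C * 2 ^ (p * H) * Real.exp ((T : ℝ) * (1 / ((l : ℝ) + 1))) *
          Real.exp (-(q * θ))) := by
      intro l
      have hh : (0 : ℝ) < (1 / 2) ^ n l := by positivity
      refine (hocc' l W hW _ hh (hn₀ l) z₀ θ (T * 2 ^ n l) hz).trans ?_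
      refine ENNReal.ofReal_le_ofReal ?_
      have h1 : (((T * 2 ^ n l : ℕ) : ℝ)) * (1 / 2) ^ n l = T := by
        push_cast
        rw [mul_assoc, two_half, mul_one]
      rw [h1]
      have h2 : C' l * √((1 / 2) ^ n l) * (T : ℝ) ≤ (T : ℝ) * (1 / ((l : ℝ) + 1)) := by
        rw [mul_comm]
        exact mul_le_mul_of_nonneg_left (hn' l) (Nat.cast_nonneg T)
      have h3 := Real.exp_le_exp.2 h2
      gcongr
    refine (lintegral_liminf_le fun l => hYm l).trans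
      ((liminf_le_liminf (Eventually.of_forall hexp)).trans ?_)
    have hlim : Tendsto (fun l : ℕ => ENNReal.ofReal (C * 2 ^ (p * H) *
        Real.exp ((T : ℝ) * (1 / ((l : ℝ) + 1))) * Real.exp (-(q * θ)))) atTop
        (𝓝 (ENNReal.ofReal (C * 2 ^ (p * H) * Real.exp ((T : ℝ) * 0) * Real.exp (-(q * θ))))) := by
      refine ENNReal.tendsto_ofReal (Tendsto.mul_const _ (Tendsto.const_mul _ ?_))
      exact (Real.continuous_exp.tendsto _).comp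
        (tendsto_one_div_add_atTop_nhds_zero_nat.const_mul _)
    rw [hlim.liminf_eq, mul_zero, Real.exp_zero, mul_one]
  · intro ω g _ hsol hle hfl
    obtain ⟨v, hv, hv1, hv2⟩ := hfl
    obtain ⟨d, hd, hev⟩ := Tl_low (κ := c₁ / (H : ℝ) ^ 2) (R := 2 ^ (H + 1)) (hW.cont ω)
      (hW.zero 0 le_rfl ω) hsol hle hv hv1 hv2
    have hev2 : ∀ᶠ l : ℕ in atTop, ((1 : ℝ) / 2) ^ (l + 1) ≤ d := by
      have h1 : Tendsto (fun l : ℕ => ((1 : ℝ) / 2) ^ (l + 1)) atTop (𝓝 0) :=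
        (tendsto_add_atTop_iff_nat 1).2 EulerAux.tendsto_h
      exact h1.eventually (ge_mem_nhds hd)
    refine le_liminf_of_le (by isBoundedDefault) ?_
    filter_upwards [hn.eventually hev, hev2] with l h1 h2
    exact h1 _ h2

end

end Pool.Agent.SLE
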