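import Pool.Agent.Lib.MP_c17912_pr_TC.TLC
import Pool.Agent.Lib.MP_c17912_pr_TR.STR

/-!
# MP_c17912_pr, project TC: the tail theorem
-/

set_option autoImplicit false

open MeasureTheory ProbabilityTheory Filter
open scoped NNReal ENNReal Topology Real

namespace Pool.Agent.SLE

noncomputable section

variable {Ω : Type*} [MeasurableSpace Ω] {μ : Measure Ω}

namespace TCTL

/-- Comparison of the kernel along a shadow. -/
theorem kT_shadow {κ : ℝ} (hκ : 0 ≤ κ) {z z' : ℂ} (hz : z ≠ 0) (h : ‖z' - z‖ ≤ ‖z‖ / 4) :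
    kT (κ / 2) z ≤ kT κ z' := by
  have hr : 0 < ‖z‖ := norm_pos_iff.2 hz
  have h1 : ‖z'‖ ≤ 5 / 4 * ‖z‖ := by
    have := norm_add_le (z' - z) z
    rw [sub_add_cancel] at this
    linarith
  have h2 : 3 / 4 * ‖z‖ ≤ ‖z'‖ := by
    have := norm_sub_norm_le z (z - z')
    rw [sub_sub_cancel, norm_sub_rev z z'] at this
    linarith
  have hr' : 0 < ‖z'‖ := by linarith
  have key : min 1 ‖z‖ / (2 * ‖z‖ ^ 2) ≤ min 1 ‖z'‖ / ‖z'‖ ^ 2 := by
    rcases le_total 1 ‖z'‖ with h3 | h3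
    · rw [min_eq_left h3]
      rw [div_le_div_iff₀ (by positivity) (by positivity)]
      have e1 : min 1 ‖z‖ ≤ 1 := min_le_left _ _
      have e2 : ‖z'‖ ^ 2 ≤ (5 / 4 * ‖z‖) ^ 2 := pow_le_pow_left₀ hr'.le h1 2
      have e3 : min 1 ‖z‖ * ‖z'‖ ^ 2 ≤ 1 * ‖z'‖ ^ 2 :=
        mul_le_mul_of_nonneg_right e1 (by positivity)
      nlinarith [sq_nonneg ‖z‖]
    · rw [min_eq_right h3]
      rw [div_le_div_iff₀ (by positivity) (by positivity)]
      have e1 : min 1 ‖z‖ ≤ ‖z‖ := min_le_right _ _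
      have e3 : min 1 ‖z‖ * ‖z'‖ ^ 2 ≤ ‖z‖ * ‖z'‖ ^ 2 :=
        mul_le_mul_of_nonneg_right e1 (by positivity)
      have e4 : ‖z‖ * ‖z'‖ ^ 2 ≤ ‖z'‖ * (2 * ‖z‖ ^ 2) := by
        have e5 : ‖z‖ * ‖z'‖ * ‖z'‖ ≤ ‖z‖ * ‖z'‖ * (2 * ‖z‖) :=
          mul_le_mul_of_nonneg_left (by linarith) (by positivity)
        nlinarith
      exact e3.trans e4
  unfold kT
  calc κ / 2 * min 1 ‖z‖ / ‖z‖ ^ 2 = κ * (min 1 ‖z‖ / (2 * ‖z‖ ^ 2)) := by
        field_simp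
    _ ≤ κ * (min 1 ‖z'‖ / ‖z'‖ ^ 2) := mul_le_mul_of_nonneg_left key hκ
    _ = κ * min 1 ‖z'‖ / ‖z'‖ ^ 2 := by ring

/-- Continuity of the kernel along a solution. -/
theorem kT_sol {U : ℝ → ℂ} (hU : Continuous U) {z : ℂ} {t : ℝ} {g : ℝ → ℂ}
    (hg : Sol U z t g) (κ : ℝ) : ContinuousOn (fun u => kT κ (g u - U u)) (Set.Icc 0 t) :=
  (kT_cont κ).comp (EulerAux.contZ hU hg) fun u hu => sub_ne_zero.2 (hg.2.1 u hu)

theorem kT_int {U : ℝ → ℂ} (hU : Continuous U) {z z' : ℂ} {t : ℝ} (ht : 0 ≤ t) {g g' : ℝ → ℂ}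
    (hg : Sol U z t g) (hg' : Sol U z' t g')
    (h : ∀ u ∈ Set.Icc 0 t, ‖g' u - g u‖ ≤ ‖g u - U u‖ / 4) {κ : ℝ} (hκ : 0 ≤ κ) :
    ∫ u in (0 : ℝ)..t, kT (κ / 2) (g u - U u) ≤ ∫ u in (0 : ℝ)..t, kT κ (g' u - U u) := by
  refine intervalIntegral.integral_mono_on ht ?_ ?_ ?_
  · apply ContinuousOn.intervalIntegrable
    rw [Set.uIcc_of_le ht]
    exact kT_sol hU hg _
  · apply ContinuousOn.intervalIntegrable
    rw [Set.uIcc_of_le ht]
    exact kT_sol hU hg' _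
  · intro u hu
    refine kT_shadow hκ (sub_ne_zero.2 (hg.2.1 u hu)) ?_
    have e : g' u - U u - (g u - U u) = g' u - g u := by ring
    rw [e]
    exact h u hu

/-- The threshold. -/
def tt (ε d : ℝ) (H n : ℕ) : ℝ :=
  n * Real.log 2 - (Real.log (32 / ε) + 3 + d + ((H + 1 : ℕ) : ℝ) * Real.log 2)

/-- The path argument. -/
theorem tl_path {U : ℝ → ℂ} (hU : Continuous U) (h0 : U 0 = 0) {z : ℂ} {t ε d : ℝ} (ht : 0 ≤ t)
    (hε : 0 < ε) (hε2 : ε ≤ 2) (hd : 0 ≤ d) {g : ℝ → ℂ} (hg : Sol U z t g) {H : ℕ}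
    (hz : 1 ≤ ‖z‖) (hH : ∀ u ∈ Set.Icc 0 t, ‖g u - U u‖ ≤ 2 ^ H) {v : ℝ} (hv : v ∈ Set.Icc 0 t)
    (hv1 : 1 ≤ ‖g v - U v‖) (hv2 : ∀ u ∈ Set.Icc 0 t, ph U g ε u ≤ ph U g ε v + d) :
    ∃ (n : ℕ) (k : ℤ × ℤ) (g' : ℝ → ℂ), k ∈ TRSTR.G (2 ^ H) n ∧ Sol U (TRSTR.pt n k) t g' ∧
      1 / 2 ≤ ‖TRSTR.pt n k‖ ∧ (∀ u ∈ Set.Icc 0 t, ‖g' u - U u‖ < 2 ^ (H + 1)) ∧
      (∃ v ∈ Set.Icc 0 t, tt ε d H n < ph U g' ε v ∧ 1 / 2 < ‖g' v - U v‖) ∧
      ∀ κ : ℝ, 0 ≤ κ →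
        ∫ u in (0 : ℝ)..t, kT (κ / 2) (g u - U u) ≤ ∫ u in (0 : ℝ)..t, kT κ (g' u - U u) := by
  obtain ⟨Φ, hΦ⟩ : ∃ Φ : ℝ, Φ = ph U g ε v + d := ⟨_, rfl⟩
  rw [← hΦ] at hv2
  have hl2 : 0 < Real.log 2 := Real.log_pos (by norm_num)
  have hex : ∃ n : ℕ, (1 / 2 : ℝ) ^ n ≤ ε / 16 * Real.exp (-Φ) := by
    obtain ⟨n, hn⟩ := exists_pow_lt_of_lt_one
      (show 0 < ε / 16 * Real.exp (-Φ) by positivity) (show (1 / 2 : ℝ) < 1 by norm_num)
    exact ⟨n, hn.le⟩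
  classical
  obtain ⟨n, hn, hn1⟩ : ∃ n : ℕ, n = Nat.find hex ∧
      (1 / 2 : ℝ) ^ n ≤ ε / 16 * Real.exp (-Φ) := ⟨_, rfl, Nat.find_spec hex⟩
  have hz0 : ‖z‖ ≤ 2 ^ H := by
    have := hH 0 ⟨le_rfl, ht⟩
    rwa [hg.1, h0, sub_zero] at this
  obtain ⟨k, hk, hkz⟩ := TRSTR.near (s := 2 ^ H) (n := n) (z := z) (by
    push_cast
    linarith)
  obtain ⟨g', hg', h3, h4⟩ := shadow hU h0 ht hε hε2 hg hv2 (hkz.trans hn1)
  have hlo : ∀ u ∈ Set.Icc 0 t, 3 / 4 * ‖g u - U u‖ ≤ ‖g' u - U u‖ := by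
    intro u hu
    have a3 := h3 u hu
    have h := norm_sub_norm_le (g u - U u) (g u - g' u)
    have e4 : (g u - U u) - (g u - g' u) = g' u - U u := by ring
    rw [e4, norm_sub_rev (g u) (g' u)] at h
    linarith
  have hup : ∀ u ∈ Set.Icc 0 t, ‖g' u - U u‖ ≤ 5 / 4 * ‖g u - U u‖ := by
    intro u hu
    have a3 := h3 u hu
    have e1 : g' u - U u = (g' u - g u) + (g u - U u) := by ring
    have := norm_add_le (g' u - g u) (g u - U u)
    rw [e1]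
    linarith
  have hpt : 3 / 4 ≤ ‖TRSTR.pt n k‖ := by
    have := hlo 0 ⟨le_rfl, ht⟩
    rw [hg.1, hg'.1, h0, sub_zero, sub_zero] at this
    linarith
  refine ⟨n, k, g', hk, hg', by linarith, ?_, ?_, fun κ hκ => kT_int hU ht hg hg' h3 hκ⟩
  · intro u hu
    have a1 := hup u hu
    have a2 := hH u hu
    have a3 : (0 : ℝ) < 2 ^ H := by positivity
    have a4 : (2 : ℝ) ^ (H + 1) = 2 * 2 ^ H := by rw [pow_succ]; ring
    linarith
  · have hT0 : Real.log 2 ≤ Real.log (32 / ε) := by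
      apply Real.log_le_log (by norm_num)
      rw [le_div_iff₀ hε]
      linarith
    have hHl : 0 ≤ ((H + 1 : ℕ) : ℝ) * Real.log 2 := by positivity
    rcases Nat.eq_zero_or_pos n with h | h
    · refine ⟨0, ⟨le_refl _, ht⟩, ?_, ?_⟩
      · have a4 : ph U g' ε 0 = -Real.log ‖TRSTR.pt n k‖ := by
          simp only [ph, intervalIntegral.integral_same, h0, sub_zero, hg'.1, zero_sub]
        have a5 : (n : ℝ) = 0 := by rw [h, Nat.cast_zero]
        have a6 : Real.log ‖TRSTR.pt n k‖ ≤ ((H + 1 : ℕ) : ℝ) * Real.log 2 := by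
          rw [← Real.log_pow]
          refine Real.log_le_log (by linarith) ?_
          have a1 := hup 0 ⟨le_rfl, ht⟩
          rw [hg.1, hg'.1, h0, sub_zero, sub_zero] at a1
          have a3 : (0 : ℝ) < 2 ^ H := by positivity
          have a4 : (2 : ℝ) ^ (H + 1) = 2 * 2 ^ H := by rw [pow_succ]; ring
          linarith
        rw [a4, tt, a5]
        linarith
      · rw [hg'.1, h0, sub_zero]
        linarith
    · have a1 : ¬ (1 / 2 : ℝ) ^ (n - 1) ≤ ε / 16 * Real.exp (-Φ) := by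
        have := Nat.find_min hex (m := n - 1) (by omega)
        exact this
      rw [not_le] at a1
      have a2 : (1 / 2 : ℝ) ^ n * 2 = (1 / 2 : ℝ) ^ (n - 1) := by
        obtain ⟨j, hj⟩ : ∃ j, n = j + 1 := ⟨n - 1, by omega⟩
        rw [hj, Nat.add_sub_cancel, pow_succ]
        ring
      refine ⟨v, hv, ?_, by linarith [hlo v hv]⟩
      have a3 := Real.log_lt_log (by positivity) a1
      rw [Real.log_mul (by positivity) (Real.exp_pos _).ne', Real.log_exp, ← a2,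
        Real.log_mul (by positivity) (by norm_num), Real.log_pow, one_div, Real.log_inv] at a3
      have a4 : Real.log (ε / 16) = Real.log 2 - Real.log (32 / ε) := by
        rw [← Real.log_div (by norm_num) (by positivity)]
        congr 1
        field_simp
        norm_num
      rw [a4] at a3
      -- comparison of `ph`
      have a5 := (abs_le.1 (h4 v hv).1).1
      have hvp : 0 < ‖g v - U v‖ := by linarith
      have a6 : Real.log ‖g' v - U v‖ ≤ Real.log ‖g v - U v‖ + 1 := by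
        have b1 := hup v hv
        have b2 := hlo v hv
        have b3 : Real.log ‖g' v - U v‖ ≤ Real.log (5 / 4 * ‖g v - U v‖) :=
          Real.log_le_log (by linarith) b1
        rw [Real.log_mul (by norm_num) hvp.ne'] at b3
        have b4 : Real.log (5 / 4) ≤ 5 / 4 - 1 := Real.log_le_sub_one_of_pos (by norm_num)
        linarith
      have a7 : ph U g ε v - 3 ≤ ph U g' ε v := by
        unfold ph
        linarith
      rw [tt]
      linarith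

end TCTL

open TCTL in
/-- TC-TLD. The tail theorem: in the critical case, for all solutions on `[0,T]`
which start at distance at least `1`, stay at distance at most `2 ^ H`, and for which `ph` is
maximal, up to the error `d`, at a time with `|Z| ≥ 1`. -/
theorem tail_thm [IsProbabilityMeasure μ] {a b c K : ℝ} (ha : 0 ≤ a) (hb : 0 ≤ b)
    (hK : 0 ≤ K) (h5 : S5P a b c) {α q δ₀ : ℝ} {ψ : ℝ → ℝ}
    (hS : S2D a b c α q δ₀ ψ) {ε : ℝ} (hε : 0 < ε) (hε2 : ε ≤ 2) (hqε : q * ε < δ₀) {d : ℝ}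
    (hd : 0 ≤ d) :
    ∃ (C c₁ : ℝ) (p : ℕ), 1 ≤ C ∧ 0 < c₁ ∧ ∀ W : ℝ → Ω → ℂ, Drv a b c K W μ →
      ∀ H T : ℕ, 1 ≤ H → ∃ Y : Ω → ℝ≥0∞, Measurable[Blk W 0 T] Y ∧ ∫⁻ ω, Y ω ∂μ ≤ 1 ∧
        ∀ (ω : Ω) (z : ℂ) (g : ℝ → ℂ), 1 ≤ ‖z‖ → Sol (fun t => W t ω) z T g →
          (∀ u ∈ Set.Icc (0 : ℝ) T, ‖g u - W u ω‖ ≤ 2 ^ H) →
          (∃ v ∈ Set.Icc (0 : ℝ) T, 1 ≤ ‖g v - W v ω‖ ∧ ∀ u ∈ Set.Icc (0 : ℝ) T,
            ph (fun t => W t ω) g ε u ≤ ph (fun t => W t ω) g ε v + d) →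
          ENNReal.ofReal (Real.exp (∫ u in (0 : ℝ)..T, kT (c₁ / (H : ℝ) ^ 2) (g u - W u ω))) ≤
            ENNReal.ofReal (C * 2 ^ (p * H)) * Y ω := by
  classical
  obtain ⟨C, c₁, p, hC, hc₁, hpt⟩ := tail_pt (μ := μ) ha hb hK h5 hS hqε
  have hq0 : 0 < q := by linarith [hS.q2]
  obtain ⟨Q, hqQ⟩ := exists_nat_ge q
  obtain ⟨T₀, hT₀⟩ : ∃ T₀ : ℝ, T₀ = Real.log (32 / ε) + 3 + d := ⟨_, rfl⟩
  have hT₀0 : 0 ≤ T₀ := by
    have : 0 ≤ Real.log (32 / ε) := by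
      apply Real.log_nonneg
      rw [le_div_iff₀ hε]
      linarith
    linarith
  obtain ⟨r, hr⟩ : ∃ r : ℝ, r = 4 * Real.exp (-(q * Real.log 2)) := ⟨_, rfl⟩
  have hr0 : 0 ≤ r := by
    rw [hr]
    positivity
  have hl2 : 0 < Real.log 2 := Real.log_pos (by norm_num)
  have hr1 : r < 1 := by
    have h1 : Real.exp (-(q * Real.log 2)) < Real.exp (-(2 * Real.log 2)) := by
      apply Real.exp_lt_exp.2
      nlinarith [hS.q2]
    have h2 : Real.exp (-(2 * Real.log 2)) = 1 / 4 := by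
      rw [Real.exp_neg, mul_comm, Real.exp_mul, Real.exp_log (by norm_num)]
      norm_num
    rw [h2] at h1
    rw [hr]
    linarith
  obtain ⟨S, hS'⟩ : ∃ S : ℝ, S = (1 - r)⁻¹ := ⟨_, rfl⟩
  have hS0 : 0 < S := by
    rw [hS']
    exact inv_pos.2 (by linarith)
  obtain ⟨P, hP⟩ : ∃ P : ℕ, P = p + 4 + 2 * Q := ⟨_, rfl⟩
  obtain ⟨C₂, hC₂⟩ : ∃ C₂ : ℝ, C₂ = 36 * C * Real.exp (Q * T₀) * S := ⟨_, rfl⟩
  have hC₂0 : 0 < C₂ := by
    rw [hC₂]
    positivity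
  refine ⟨max 1 (Real.exp 1 * C₂), c₁ / 2, P, le_max_left _ _, by linarith, fun W hW H T hH => ?_⟩
  have hH' : (1 : ℝ) ≤ H := by exact_mod_cast hH
  choose F hF1 hF2 hF3 using fun (n : ℕ) (k : ℤ × ℤ) =>
    hpt W hW (TRSTR.pt n k) (tt ε d H n) H T hH
  obtain ⟨κ, hκ⟩ : ∃ κ : ℝ, κ = 1 / (C₂ * 2 ^ (P * H)) := ⟨_, rfl⟩
  have hκ0 : 0 < κ := by
    rw [hκ]
    positivity
  -- the expectation of one level
  have hlev : ∀ n : ℕ, ∫⁻ ω, ∑ k ∈ TRSTR.G (2 ^ H) n, F n k ω ∂μ ≤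
      ENNReal.ofReal (36 * C * Real.exp (Q * T₀) * 2 ^ (P * H) * r ^ n) := by
    intro n
    rw [lintegral_finsetSum _ fun k _ => (hF1 n k).mono (Blk_le hW 0 T) le_rfl]
    refine (Finset.sum_le_sum fun k _ => hF2 n k).trans ?_
    rw [Finset.sum_const, nsmul_eq_mul, ← ENNReal.ofReal_natCast,
      ← ENNReal.ofReal_mul (Nat.cast_nonneg _)]
    refine ENNReal.ofReal_le_ofReal ?_
    have e1 := TRSTR.card_G (2 ^ H) n
    push_cast at e1
    have e2 : Real.exp (-(q * tt ε d H n)) ≤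
        Real.exp (Q * T₀) * 2 ^ (2 * Q * H) * Real.exp (-(q * Real.log 2)) ^ n := by
      have e3 : (2 : ℝ) ^ (2 * Q * H) = Real.exp ((2 * Q * H : ℕ) * Real.log 2) := by
        rw [Real.exp_nat_mul, Real.exp_log (by norm_num)]
      rw [e3, ← Real.exp_nat_mul, ← Real.exp_add, ← Real.exp_add]
      refine Real.exp_le_exp.2 ?_
      unfold tt
      rw [← hT₀]
      push_cast
      have e4 : q * T₀ ≤ Q * T₀ := mul_le_mul_of_nonneg_right hqQ hT₀0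
      have e5 : q * (((H : ℝ) + 1) * Real.log 2) ≤ Q * ((2 * H) * Real.log 2) := by
        refine mul_le_mul hqQ ?_ (by positivity) (Nat.cast_nonneg Q)
        exact mul_le_mul_of_nonneg_right (by linarith) hl2.le
      nlinarith
    have e6 : ((2 : ℝ) ^ H + 1) ^ 2 ≤ 2 ^ (4 * H) := by
      have e7 : (2 : ℝ) ^ H + 1 ≤ 2 ^ (2 * H) := by
        have e8 : (2 : ℝ) ≤ 2 ^ H := by
          calc (2 : ℝ) = 2 ^ 1 := by norm_num
            _ ≤ 2 ^ H := pow_le_pow_right₀ (by norm_num) hH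
        have e9 : (2 : ℝ) ^ (2 * H) = 2 ^ H * 2 ^ H := by
          rw [← pow_add]
          congr 1
          ring
        rw [e9]
        nlinarith
      calc ((2 : ℝ) ^ H + 1) ^ 2 ≤ (2 ^ (2 * H)) ^ 2 :=
            pow_le_pow_left₀ (by positivity) e7 2
        _ = 2 ^ (4 * H) := by
            rw [← pow_mul]
            congr 1
            ring
    calc ((TRSTR.G (2 ^ H) n).card : ℝ) * (C * 2 ^ (p * H) * Real.exp (-(q * tt ε d H n)))
        ≤ (36 * ((2 : ℝ) ^ H + 1) ^ 2 * 4 ^ n) * (C * 2 ^ (p * H) *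
            (Real.exp (Q * T₀) * 2 ^ (2 * Q * H) * Real.exp (-(q * Real.log 2)) ^ n)) := by
          refine mul_le_mul e1 ?_ (by positivity) (by positivity)
          exact mul_le_mul_of_nonneg_left e2 (by positivity)
      _ ≤ (36 * 2 ^ (4 * H) * 4 ^ n) * (C * 2 ^ (p * H) *
            (Real.exp (Q * T₀) * 2 ^ (2 * Q * H) * Real.exp (-(q * Real.log 2)) ^ n)) := by
          refine mul_le_mul_of_nonneg_right ?_ (by positivity)
          refine mul_le_mul_of_nonneg_right ?_ (by positivity)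
          exact mul_le_mul_of_nonneg_left e6 (by norm_num)
      _ = 36 * C * Real.exp (Q * T₀) * 2 ^ (P * H) * r ^ n := by
          have e9 : (2 : ℝ) ^ (P * H) = 2 ^ (4 * H) * 2 ^ (p * H) * 2 ^ (2 * Q * H) := by
            rw [← pow_add, ← pow_add, hP]
            congr 1
            ring
          rw [e9, hr, mul_pow]
          ring
  refine ⟨fun ω => ENNReal.ofReal κ * ∑' n : ℕ, ∑ k ∈ TRSTR.G (2 ^ H) n, F n k ω, ?_, ?_, ?_⟩
  · refine Measurable.const_mul ?_ _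
    refine Measurable.ennreal_tsum fun n => ?_
    exact Finset.measurable_fun_sum _ fun k _ => hF1 n k
  · have hm : ∀ n : ℕ, Measurable fun ω => ∑ k ∈ TRSTR.G (2 ^ H) n, F n k ω := fun n =>
      Finset.measurable_fun_sum _ fun k _ => (hF1 n k).mono (Blk_le hW 0 T) le_rfl
    rw [lintegral_const_mul _ (Measurable.ennreal_tsum hm),
      lintegral_tsum fun n => (hm n).aemeasurable]
    have hsum : Summable fun n : ℕ => 36 * C * Real.exp (Q * T₀) * 2 ^ (P * H) * r ^ n :=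
      (summable_geometric_of_lt_one hr0 hr1).mul_left _
    calc ENNReal.ofReal κ * ∑' n : ℕ, ∫⁻ ω, ∑ k ∈ TRSTR.G (2 ^ H) n, F n k ω ∂μ
        ≤ ENNReal.ofReal κ * ∑' n : ℕ,
            ENNReal.ofReal (36 * C * Real.exp (Q * T₀) * 2 ^ (P * H) * r ^ n) :=
          mul_le_mul_right (ENNReal.tsum_le_tsum hlev) _
      _ = ENNReal.ofReal (κ * ∑' n : ℕ, 36 * C * Real.exp (Q * T₀) * 2 ^ (P * H) * r ^ n) := by
          rw [← ENNReal.ofReal_tsum_of_nonneg (fun n => by positivity) hsum,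
            ← ENNReal.ofReal_mul hκ0.le]
      _ ≤ 1 := by
          apply ENNReal.ofReal_le_one.2
          rw [tsum_mul_left, tsum_geometric_of_lt_one hr0 hr1, ← hS', hκ, hC₂, one_div,
            inv_mul_le_iff₀ (by positivity)]
          exact le_of_eq (by ring)
  · intro ω z g hz hsol hR hex
    obtain ⟨v, hv, hv1, hv2⟩ := hex
    obtain ⟨n, k, g', hk, hg', hpt1, hup, hfl, hint⟩ := tl_path (U := fun t => W t ω) (hW.cont ω)
      (hW.zero 0 le_rfl ω) (Nat.cast_nonneg T) hε hε2 hd hsol hz hR hv hv1 hv2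
    have key := hF3 n k ω g' hpt1 hg' hup hfl
    have hi := hint (c₁ / (H : ℝ) ^ 2) (by positivity)
    have e1 : c₁ / 2 / (H : ℝ) ^ 2 = c₁ / (H : ℝ) ^ 2 / 2 := by ring
    rw [e1]
    have e2 : Real.exp (∫ u in (0 : ℝ)..T, kT (c₁ / (H : ℝ) ^ 2 / 2) (g u - W u ω)) ≤
        Real.exp 1 * Real.exp ((∫ u in (0 : ℝ)..T,
          kT (c₁ / (H : ℝ) ^ 2) (g' u - W u ω)) - 1) := by
      rw [← Real.exp_add]
      refine Real.exp_le_exp.2 ?_
      linarith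
    have e3 : F n k ω ≤ ∑' n : ℕ, ∑ k ∈ TRSTR.G (2 ^ H) n, F n k ω := by
      refine le_trans ?_ (ENNReal.le_tsum n)
      exact Finset.single_le_sum (f := fun k => F n k ω) (fun _ _ => zero_le) hk
    have e4 : ENNReal.ofReal (max 1 (Real.exp 1 * C₂) * 2 ^ (P * H)) * ENNReal.ofReal κ ≥
        ENNReal.ofReal (Real.exp 1) := by
      rw [← ENNReal.ofReal_mul (by positivity)]
      refine ENNReal.ofReal_le_ofReal ?_
      have e5 : Real.exp 1 = Real.exp 1 * C₂ * 2 ^ (P * H) * κ := by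
        rw [hκ]
        field_simp
      calc Real.exp 1 = Real.exp 1 * C₂ * 2 ^ (P * H) * κ := e5
        _ ≤ max 1 (Real.exp 1 * C₂) * 2 ^ (P * H) * κ := by
            refine mul_le_mul_of_nonneg_right ?_ hκ0.le
            exact mul_le_mul_of_nonneg_right (le_max_right _ _) (by positivity)
    calc ENNReal.ofReal (Real.exp (∫ u in (0 : ℝ)..T,
          kT (c₁ / (H : ℝ) ^ 2 / 2) (g u - W u ω)))
        ≤ ENNReal.ofReal (Real.exp 1) * ENNReal.ofReal (Real.exp ((∫ u in (0 : ℝ)..T,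
          kT (c₁ / (H : ℝ) ^ 2) (g' u - W u ω)) - 1)) := by
          rw [← ENNReal.ofReal_mul (Real.exp_pos _).le]
          exact ENNReal.ofReal_le_ofReal e2
      _ ≤ ENNReal.ofReal (Real.exp 1) * ∑' n : ℕ, ∑ k ∈ TRSTR.G (2 ^ H) n, F n k ω :=
          mul_le_mul_right (key.trans e3) _
      _ ≤ (ENNReal.ofReal (max 1 (Real.exp 1 * C₂) * 2 ^ (P * H)) * ENNReal.ofReal κ) *
            ∑' n : ℕ, ∑ k ∈ TRSTR.G (2 ^ H) n, F n k ω := mul_le_mul_left e4 _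
      _ = _ := by ring

end

end Pool.Agent.SLE
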