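import Pool.Agent.Lib.MP_c17912_pr_TC.Base
import Pool.Agent.Lib.MP_c17912_pr_TR.GEX
import Pool.Agent.Lib.MP_c17912_pr_TR.GGE
import Pool.Agent.Lib.MP_c17912_pr_LN.OS

set_option autoImplicit false

open MeasureTheory ProbabilityTheory Filter
open scoped NNReal ENNReal Topology Real

namespace Pool.Agent.SLE

noncomputable section

variable {Ω : Type*} [MeasurableSpace Ω] {μ : Measure Ω}

/-- half is at most the logarithm of two -/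
private theorem TCWK1_log : (1 / 2 : ℝ) ≤ Real.log 2 := by
  have := Real.log_two_gt_d9
  linarith

private theorem TCWK1_exp : Real.exp (1 / 2) ≤ 2 := by
  have h := Real.exp_le_exp.2 TCWK1_log
  rwa [Real.exp_log (by norm_num : (0 : ℝ) < 2)] at h

private theorem TCWK1_exp' : 1 / 2 ≤ Real.exp (-(1 / 2)) := by
  rw [Real.exp_neg, ← one_div]
  exact one_div_le_one_div_of_le (Real.exp_pos _) TCWK1_exp

/-- the normalised function -/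
private theorem TCWK1_s {y R : ℝ} {ψ : ℝ → ℝ} (hR : 0 < R) {z : ℂ} (hz : 0 < ‖z‖) :
    Real.exp (-(y * Real.log R)) * GE y ψ z = (‖z‖ / R) ^ y * Real.exp (ψ (Complex.arg z)) := by
  unfold GE
  rw [Real.rpow_def_of_pos (div_pos hz hR), Real.log_div hz.ne' hR.ne', ← Real.exp_add,
    ← Real.exp_add]
  congr 1
  ring

/-- TC-WK1. The weak supermartingale: one step inequality for `4 - (|z| / R)^y exp (ψ (arg z))`.

Proof. `F z = 4 - R^(-y) GE y ψ z` for `δ/2 ≤ |z| ≤ 2R`, `F z = 0` otherwise. `|ψ| ≤ 1/2` and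
`2^y exp (1/2) ≤ 4` (`y ≤ 1`), so `0 ≤ F ≤ 4`; for `|z| ≤ R`: `F ≥ 4 - exp (1/2) ≥ 2`. The expansion
`Exp2` of `F` is that of `GE y ψ` (`ge_exp`, TR/GEX) multiplied by `-R^(-y)` (plus a constant). Generator
(`gen_ge`, TR/GGE): `-R^(-y) GE y ψ z Op / |z|^2 ≤ -(|z|/R)^y exp (-1/2) c₀ y^2 / |z|^2`, and
`k F ≤ 4 k = c₀/2 y^2 (|z|/R)^y / |z|^2 ≤ exp (-1/2) c₀ y^2 (|z|/R)^y / |z|^2` for
`k z = c₀/8 y^2 (|z|/R)^y / |z|^2`. Apply `one_step_gen` (LN/OS) as in the proof of `ge_one_step`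
(TR/GOS.lean). -/
theorem weak_one [IsProbabilityMeasure μ] {a b c K : ℝ} (ha : 0 ≤ a) (hb : 0 ≤ b) (hK : 0 ≤ K)
    {ψ : ℝ → ℝ} (hψ : ContDiff ℝ 3 ψ) (hper : Function.Periodic ψ (2 * π))
    {y c₀ R δ : ℝ} (hy : 0 < y) (hy1 : y ≤ 1) (hc₀ : 0 < c₀) (hψB : ∀ θ, |ψ θ| ≤ 1 / 2)
    (hop : ∀ θ, c₀ * y ^ 2 ≤ Op a b c y ψ θ) (hδ : 0 < δ) (hδR : δ ≤ R) :
    ∃ F : ℂ → ℝ, Measurable F ∧ (∀ z, 0 ≤ F z) ∧ (∀ z, F z ≤ 4) ∧
      (∀ z : ℂ, δ ≤ ‖z‖ → ‖z‖ ≤ R → 2 ≤ F z) ∧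
      ∃ C' > 0, ∃ h₀ > 0, ∀ W : ℝ → Ω → ℂ, Drv a b c K W μ → ∀ h : ℝ, 0 < h → h ≤ h₀ →
        ∀ (z : ℂ) (s : ℝ), δ ≤ ‖z‖ → ‖z‖ ≤ R → 0 ≤ s →
          ∫⁻ ω, ENNReal.ofReal (F (z + 2 * h / z - (W (s + h) ω - W s ω))) ∂μ
            ≤ ENNReal.ofReal ((1 + C' * (h * √h)) *
              Real.exp (-(h * (c₀ / 8 * y ^ 2 * ((‖z‖ / R) ^ y / ‖z‖ ^ 2)))) * F z) := by
  classical
  have hR : 0 < R := hδ.trans_le hδR
  have hψc : Continuous ψ := hψ.continuous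
  obtain ⟨C, hC, hexp, hcoef⟩ := ge_exp hψ hper y hδ hδR
  obtain ⟨s, hs⟩ : ∃ s, s = Real.exp (-(y * Real.log R)) := ⟨_, rfl⟩
  have hs0 : 0 < s := by rw [hs]; exact Real.exp_pos _
  have hsG : ∀ z : ℂ, 0 < ‖z‖ → s * GE y ψ z = (‖z‖ / R) ^ y * Real.exp (ψ (Complex.arg z)) := by
    intro z hz
    rw [hs]
    exact TCWK1_s hR hz
  have hGE0 : ∀ z, 0 < GE y ψ z := fun z => Real.exp_pos _
  have hG2 : ∀ z : ℂ, δ / 2 ≤ ‖z‖ → ‖z‖ ≤ 2 * R → s * GE y ψ z ≤ 4 := by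
    intro z h1 h2
    have hz : 0 < ‖z‖ := lt_of_lt_of_le (by positivity) h1
    rw [hsG z hz]
    have e1 : (‖z‖ / R) ^ y ≤ 2 := by
      have e2 : ‖z‖ / R ≤ 2 := by
        rw [div_le_iff₀ hR]
        exact h2
      have e3 : (‖z‖ / R) ^ y ≤ (2 : ℝ) ^ y :=
        Real.rpow_le_rpow (div_pos hz hR).le e2 hy.le
      have e4 : (2 : ℝ) ^ y ≤ (2 : ℝ) ^ (1 : ℝ) :=
        Real.rpow_le_rpow_of_exponent_le (by norm_num) hy1
      rw [Real.rpow_one] at e4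
      exact e3.trans e4
    have e5 : Real.exp (ψ (Complex.arg z)) ≤ 2 :=
      (Real.exp_le_exp.2 ((le_abs_self _).trans (hψB _))).trans TCWK1_exp
    have e6 : (‖z‖ / R) ^ y * Real.exp (ψ (Complex.arg z)) ≤ 2 * 2 :=
      mul_le_mul e1 e5 (Real.exp_pos _).le (by norm_num)
    linarith
  have hG1 : ∀ z : ℂ, δ ≤ ‖z‖ → ‖z‖ ≤ R → s * GE y ψ z ≤ 2 ∧ (‖z‖ / R) ^ y ≤ 1 := by
    intro z h1 h2
    have hz : 0 < ‖z‖ := lt_of_lt_of_le hδ h1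
    have e1 : (‖z‖ / R) ^ y ≤ 1 := by
      refine Real.rpow_le_one (div_pos hz hR).le ?_ hy.le
      rw [div_le_one hR]
      exact h2
    refine ⟨?_, e1⟩
    rw [hsG z hz]
    have e5 : Real.exp (ψ (Complex.arg z)) ≤ 2 :=
      (Real.exp_le_exp.2 ((le_abs_self _).trans (hψB _))).trans TCWK1_exp
    have e6 : (‖z‖ / R) ^ y * Real.exp (ψ (Complex.arg z)) ≤ 1 * 2 :=
      mul_le_mul e1 e5 (Real.exp_pos _).le (by norm_num)
    linarith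
  have hmGE : Measurable (GE y ψ) := by
    unfold GE
    refine Real.measurable_exp.comp ?_
    exact ((Real.measurable_log.comp measurable_norm).const_mul y).add
      (hψc.measurable.comp Complex.measurable_arg)
  obtain ⟨F, hF⟩ : ∃ F : ℂ → ℝ, F = fun z =>
      if δ / 2 ≤ ‖z‖ ∧ ‖z‖ ≤ 2 * R then 4 - s * GE y ψ z else 0 := ⟨_, rfl⟩
  have hFin : ∀ z : ℂ, δ / 2 ≤ ‖z‖ → ‖z‖ ≤ 2 * R → F z = 4 - s * GE y ψ z := by
    intro z h1 h2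
    rw [hF]
    exact if_pos ⟨h1, h2⟩
  have hFan : ∀ z : ℂ, δ ≤ ‖z‖ → ‖z‖ ≤ R → F z = 4 - s * GE y ψ z := by
    intro z h1 h2
    exact hFin z (by linarith) (by linarith)
  have hFm : Measurable F := by
    rw [hF]
    refine Measurable.ite ?_ ((hmGE.const_mul s).const_sub 4) measurable_const
    exact (measurableSet_le measurable_const measurable_norm).inter
      (measurableSet_le measurable_norm measurable_const)
  have hF0 : ∀ z, 0 ≤ F z := by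
    intro z
    by_cases h : δ / 2 ≤ ‖z‖ ∧ ‖z‖ ≤ 2 * R
    · rw [hFin z h.1 h.2]
      linarith [hG2 z h.1 h.2]
    · rw [hF]
      simp only
      rw [if_neg h]
  have hF4 : ∀ z, F z ≤ 4 := by
    intro z
    by_cases h : δ / 2 ≤ ‖z‖ ∧ ‖z‖ ≤ 2 * R
    · rw [hFin z h.1 h.2]
      linarith [mul_pos hs0 (hGE0 z)]
    · rw [hF]
      simp only
      rw [if_neg h]
      norm_num
  have hF2 : ∀ z : ℂ, δ ≤ ‖z‖ → ‖z‖ ≤ R → 2 ≤ F z := by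
    intro z h1 h2
    rw [hFan z h1 h2]
    linarith [(hG1 z h1 h2).1]
  have hexpF : Exp2 F (fun z => ((-s : ℝ) : ℂ) * T1 y ψ z) (fun z => ((-s : ℝ) : ℂ) * T2 y ψ z)
      (fun z => -s * T3 y ψ z) δ R (s * C) := by
    intro z h1 h2 ζ hζ
    have h3 : δ / 2 ≤ ‖z + ζ‖ := by
      have := norm_sub_le (z + ζ) ζ
      rw [add_sub_cancel_right] at this
      linarith
    have h4 : ‖z + ζ‖ ≤ 2 * R := by
      have := norm_add_le z ζ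
      linarith
    have h5 := hexp z h1 h2 ζ hζ
    have e1 : (((-s : ℝ) : ℂ) * T1 y ψ z * ζ).re = -s * (T1 y ψ z * ζ).re := by
      rw [mul_assoc, Complex.re_ofReal_mul]
    have e2 : (((-s : ℝ) : ℂ) * T2 y ψ z * ζ ^ 2).re = -s * (T2 y ψ z * ζ ^ 2).re := by
      rw [mul_assoc, Complex.re_ofReal_mul]
    rw [hFin _ h3 h4, hFan z h1 h2, e1, e2]
    have e3 : 4 - s * GE y ψ (z + ζ) - (4 - s * GE y ψ z) - -s * (T1 y ψ z * ζ).re
        - -s * (T2 y ψ z * ζ ^ 2).re - -s * T3 y ψ z * ‖ζ‖ ^ 2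
        = -s * (GE y ψ (z + ζ) - GE y ψ z - (T1 y ψ z * ζ).re - (T2 y ψ z * ζ ^ 2).re
          - T3 y ψ z * ‖ζ‖ ^ 2) := by ring
    rw [e3, abs_mul, abs_neg, abs_of_pos hs0, mul_assoc]
    exact mul_le_mul_of_nonneg_left h5 hs0.le
  obtain ⟨M, hM⟩ : ∃ M, M = s * C + c₀ / 8 * y ^ 2 * (1 / δ ^ 2) := ⟨_, rfl⟩
  have hM1 : 0 ≤ s * C := by positivity
  have hM2 : 0 ≤ c₀ / 8 * y ^ 2 * (1 / δ ^ 2) := by positivity
  have hann : ∀ z : ℂ, δ ≤ ‖z‖ → ‖z‖ ≤ R → 2 ≤ F z ∧ ‖((-s : ℝ) : ℂ) * T1 y ψ z‖ ≤ M ∧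
      ‖((-s : ℝ) : ℂ) * T2 y ψ z‖ ≤ M ∧ |-s * T3 y ψ z| ≤ M ∧
      |c₀ / 8 * y ^ 2 * ((‖z‖ / R) ^ y / ‖z‖ ^ 2)| ≤ M ∧
      (2 * (((-s : ℝ) : ℂ) * T1 y ψ z) / z).re + (((-s : ℝ) : ℂ) * T2 y ψ z * sg a b c).re
        + -s * T3 y ψ z * (a + b) + c₀ / 8 * y ^ 2 * ((‖z‖ / R) ^ y / ‖z‖ ^ 2) * F z ≤ 0 := by
    intro z h1 h2
    obtain ⟨b1, b2, b3⟩ := hcoef z h1 h2
    have hzn : 0 < ‖z‖ := lt_of_lt_of_le hδ h1
    have hz : z ≠ 0 := norm_pos_iff.1 hzn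
    obtain ⟨u, hu⟩ : ∃ u, u = (‖z‖ / R) ^ y := ⟨_, rfl⟩
    have hu0 : 0 < u := by rw [hu]; exact Real.rpow_pos_of_pos (div_pos hzn hR) _
    have hu1 : u ≤ 1 := by rw [hu]; exact (hG1 z h1 h2).2
    rw [← hu]
    refine ⟨hF2 z h1 h2, ?_, ?_, ?_, ?_, ?_⟩
    · rw [norm_mul, Complex.norm_real, Real.norm_eq_abs, abs_neg, abs_of_pos hs0]
      have := mul_le_mul_of_nonneg_left b1 hs0.le
      linarith
    · rw [norm_mul, Complex.norm_real, Real.norm_eq_abs, abs_neg, abs_of_pos hs0]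
      have := mul_le_mul_of_nonneg_left b2 hs0.le
      linarith
    · rw [abs_mul, abs_neg, abs_of_pos hs0]
      have := mul_le_mul_of_nonneg_left b3 hs0.le
      linarith
    · rw [abs_of_nonneg (by positivity)]
      have e1 : u / ‖z‖ ^ 2 ≤ 1 / δ ^ 2 :=
        div_le_div₀ zero_le_one hu1 (by positivity) (pow_le_pow_left₀ hδ.le h1 2)
      have e2 := mul_le_mul_of_nonneg_left e1 (by positivity : 0 ≤ c₀ / 8 * y ^ 2)
      linarith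
    · have e1 : (2 * (((-s : ℝ) : ℂ) * T1 y ψ z) / z).re = -s * (2 * T1 y ψ z / z).re := by
        have : 2 * (((-s : ℝ) : ℂ) * T1 y ψ z) / z = ((-s : ℝ) : ℂ) * (2 * T1 y ψ z / z) := by
          ring
        rw [this, Complex.re_ofReal_mul]
      have e2 : (((-s : ℝ) : ℂ) * T2 y ψ z * sg a b c).re = -s * (T2 y ψ z * sg a b c).re := by
        rw [mul_assoc, Complex.re_ofReal_mul]
      have e3 := gen_ge a b c y ψ hz
      have e4 : -s * (2 * T1 y ψ z / z).re + -s * (T2 y ψ z * sg a b c).re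
          + -s * T3 y ψ z * (a + b) = -(s * GE y ψ z) * (Op a b c y ψ z.arg / ‖z‖ ^ 2) := by
        have : -s * (2 * T1 y ψ z / z).re + -s * (T2 y ψ z * sg a b c).re
            + -s * T3 y ψ z * (a + b) = -s * ((2 * T1 y ψ z / z).re + (T2 y ψ z * sg a b c).re
            + T3 y ψ z * (a + b)) := by ring
        rw [this, e3]
        ring
      rw [e1, e2, e4, hsG z hzn, ← hu]
      have e5 : 1 / 2 ≤ Real.exp (ψ z.arg) := by
        refine TCWK1_exp'.trans (Real.exp_le_exp.2 ?_)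
        exact (abs_le.1 (hψB _)).1
      have hn2 : 0 < ‖z‖ ^ 2 := by positivity
      have e6 : c₀ * y ^ 2 / ‖z‖ ^ 2 ≤ Op a b c y ψ z.arg / ‖z‖ ^ 2 :=
        div_le_div_of_nonneg_right (hop _) hn2.le
      have e7 : u * (1 / 2) * (c₀ * y ^ 2 / ‖z‖ ^ 2) ≤
          u * Real.exp (ψ z.arg) * (Op a b c y ψ z.arg / ‖z‖ ^ 2) :=
        mul_le_mul (mul_le_mul_of_nonneg_left e5 hu0.le) e6 (by positivity) (by positivity)
      have e8 : c₀ / 8 * y ^ 2 * (u / ‖z‖ ^ 2) * F z ≤ c₀ / 8 * y ^ 2 * (u / ‖z‖ ^ 2) * 4 :=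
        mul_le_mul_of_nonneg_left (hF4 z) (by positivity)
      have e9 : c₀ / 8 * y ^ 2 * (u / ‖z‖ ^ 2) * 4 = u * (1 / 2) * (c₀ * y ^ 2 / ‖z‖ ^ 2) := by
        ring
      linarith
  refine ⟨F, hFm, hF0, hF4, hF2, ?_⟩
  obtain ⟨C', hC', h₀, hh₀, hone⟩ := one_step_gen (μ := μ) (a := a) (b := b) (c := c) (K := K)
    (k := fun z => c₀ / 8 * y ^ 2 * ((‖z‖ / R) ^ y / ‖z‖ ^ 2))
    ha hb hK hδ hδR hFm hF0 hF4 (by norm_num : (0 : ℝ) < 2) hexpF hann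
  refine ⟨C', hC', h₀, hh₀, ?_⟩
  intro W hW h hh hhn z s' hz1 hz2 hs'
  have hle : s' ≤ s' + h := by linarith
  have e : s' + h - s' = h := by ring
  refine hone h hh hhn z hz1 hz2 (fun ω => W (s' + h) ω - W s' ω)
    ((hW.meas _).sub (hW.meas _)) (hW.int4 s' (s' + h) hs' hle)
    (hW.m1x s' (s' + h) hs' hle) (hW.m1y s' (s' + h) hs' hle) ?_ ?_ ?_ ?_
  · have := hW.m2x s' (s' + h) hs' hle
    rwa [e] at this
  · have := hW.m2y s' (s' + h) hs' hle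
    rwa [e] at this
  · have := hW.m2c s' (s' + h) hs' hle
    rwa [e] at this
  · have := hW.m4 s' (s' + h) hs' hle
    rwa [e] at this

end

end Pool.Agent.SLE
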