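import Pool.Agent.Lib.MP_c17912_pr_TC.INV
import Pool.Agent.Lib.MP_c17912_pr_TR.CST
import Pool.Agent.Lib.MP_c17912_pr_TR.DOC
import Pool.Agent.Lib.MP_c17912_pr_TC.DO3

set_option autoImplicit false

open MeasureTheory ProbabilityTheory Filter
open scoped NNReal ENNReal Topology Real

namespace Pool.Agent.SLE

noncomputable section

variable {Ω : Type*} [MeasurableSpace Ω] {μ : Measure Ω} {a b c K : ℝ} {W : ℝ → Ω → ℂ}

namespace TCWK2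

variable {h δ R ε θ q : ℝ} {k : ℂ → ℝ}

/-- The process of the proof. -/
def M (W : ℝ → Ω → ℂ) (z₀ : ℂ) (h ε θ q : ℝ) (k F F₂ : ℂ → ℝ) (j : ℕ) (ω : Ω) : ℝ :=
  open Classical in
  if ω ∈ TCDO3.FlT W z₀ h ε θ j then
    Real.exp (DiscAux.A W z₀ h k j ω) * F (DiscAux.Z W z₀ h j ω)
  else Real.exp (DiscAux.A W z₀ h k j ω + q * (DiscAux.A W z₀ h (kk 1 ε) j ω - θ)) *
    F₂ (DiscAux.Z W z₀ h j ω)

/-- The first weight. -/
def w1 (W : ℝ → Ω → ℂ) (z₀ : ℂ) (h δ R ε θ : ℝ) (k : ℂ → ℝ) (j : ℕ) : Ω → ℝ≥0∞ :=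
  (AnS W z₀ h δ R j ∩ TCDO3.FlT W z₀ h ε θ j).indicator
    (fun ω => ENNReal.ofReal (Real.exp (DiscAux.A W z₀ h k (j + 1) ω)))

/-- The second weight. -/
def w2 (W : ℝ → Ω → ℂ) (z₀ : ℂ) (h δ R ε θ q : ℝ) (k : ℂ → ℝ) (j : ℕ) : Ω → ℝ≥0∞ :=
  (AnS W z₀ h δ R j \ TCDO3.FlT W z₀ h ε θ j).indicator
    (fun ω => ENNReal.ofReal (Real.exp (DiscAux.A W z₀ h k (j + 1) ω +
      q * (DiscAux.A W z₀ h (kk 1 ε) (j + 1) ω - θ))))

private lemma w1_meas (hh : 0 < h) (hk : Measurable k) (z₀ : ℂ) (j : ℕ) :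
    Measurable[Blk W 0 (j * h)] (w1 W z₀ h δ R ε θ k j) := by
  unfold w1
  exact (ENNReal.measurable_ofReal.comp (Real.measurable_exp.comp
    (TRDOC.A1_meas hh hk z₀ j))).indicator
    ((TRDOC.AnS_meas hh z₀ j le_rfl).inter (TCDO3.FlT_meas hh z₀ j le_rfl))

private lemma w2_meas (hh : 0 < h) (hk : Measurable k) (z₀ : ℂ) (j : ℕ) :
    Measurable[Blk W 0 (j * h)] (w2 W z₀ h δ R ε θ q k j) := by
  unfold w2
  exact (ENNReal.measurable_ofReal.comp (Real.measurable_exp.comp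
    ((TRDOC.A1_meas hh hk z₀ j).add
      (((TRDOC.A1_meas hh (SmgAux.measurable_kk 1 ε) z₀ j).sub_const θ).const_mul q)))).indicator
    ((TRDOC.AnS_meas hh z₀ j le_rfl).diff (TCDO3.FlT_meas hh z₀ j le_rfl))

/-- The comparison at the flag. -/
private lemma sw {z : ℂ} {B Fz F₂z : ℝ} (hz : 0 < ‖z‖) (hq : 0 < q) (hF₂ : 0 ≤ F₂z)
    (hsw : Fz ≤ ‖z‖ ^ q * F₂z) (hθ : θ ≤ B - Real.log ‖z‖) :
    Fz ≤ Real.exp (q * (B - θ)) * F₂z := by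
  have h1 : Real.exp (q * (B - θ)) =
      Real.exp (q * (B - Real.log ‖z‖ - θ)) * ‖z‖ ^ q := by
    rw [Real.rpow_def_of_pos hz, ← Real.exp_add]
    congr 1
    ring
  rw [h1, mul_assoc]
  have h2 : 1 ≤ Real.exp (q * (B - Real.log ‖z‖ - θ)) :=
    Real.one_le_exp (mul_nonneg hq.le (by linarith))
  have h3 : 0 ≤ ‖z‖ ^ q * F₂z := mul_nonneg (Real.rpow_nonneg hz.le _) hF₂
  exact hsw.trans (le_mul_of_one_le_left h3 h2)

omit [MeasurableSpace Ω] in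
private lemma M_le (hδ : 0 < δ) (hq : 0 < q) {F F₂ : ℂ → ℝ} (hF₂ : ∀ z, 0 ≤ F₂ z)
    (hsw : ∀ z : ℂ, δ ≤ ‖z‖ → ‖z‖ ≤ R → 1 / 2 ≤ ‖z‖ → F z ≤ ‖z‖ ^ q * F₂ z)
    (z₀ : ℂ) (j : ℕ) {ω : Ω} (hω : ω ∈ AnS W z₀ h δ R (j + 1)) :
    ENNReal.ofReal (M W z₀ h ε θ q k F F₂ (j + 1) ω) ≤
      w1 W z₀ h δ R ε θ k j ω * ENNReal.ofReal (F (DiscAux.Z W z₀ h (j + 1) ω)) +
      w2 W z₀ h δ R ε θ q k j ω * ENNReal.ofReal (F₂ (DiscAux.Z W z₀ h (j + 1) ω)) := by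
  have hAj : ω ∈ AnS W z₀ h δ R j := fun i hi => hω i (by omega)
  have hZ := hω (j + 1) le_rfl
  by_cases hF : ω ∈ TCDO3.FlT W z₀ h ε θ j
  · have hF' : ω ∈ TCDO3.FlT W z₀ h ε θ (j + 1) := by
      obtain ⟨i, hi, h1⟩ := hF
      exact ⟨i, by omega, h1⟩
    refine le_trans ?_ le_self_add
    rw [w1, Set.indicator_of_mem
      (show ω ∈ AnS W z₀ h δ R j ∩ TCDO3.FlT W z₀ h ε θ j from ⟨hAj, hF⟩), M, if_pos hF',
      ENNReal.ofReal_mul (Real.exp_pos _).le]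
  · refine le_trans ?_ le_add_self
    rw [w2, Set.indicator_of_mem
      (show ω ∈ AnS W z₀ h δ R j \ TCDO3.FlT W z₀ h ε θ j from ⟨hAj, hF⟩),
      ← ENNReal.ofReal_mul (Real.exp_pos _).le, M]
    apply ENNReal.ofReal_le_ofReal
    split_ifs with hF'
    · obtain ⟨i, hi, h0, h1⟩ := hF'
      have hi' : i = j + 1 := by
        by_contra hne
        exact hF ⟨i, by omega, h0, h1⟩
      subst hi'
      have h2 := sw (θ := θ) (lt_of_lt_of_le hδ hZ.1) hq (hF₂ _) (hsw _ hZ.1 hZ.2 h0) h1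
      rw [Real.exp_add, mul_assoc]
      exact mul_le_mul_of_nonneg_left h2 (Real.exp_pos _).le
    · exact le_rfl

omit [MeasurableSpace Ω] in
private lemma w_eq {Q : ℝ} (hQ : 0 ≤ Q) {F F₂ : ℂ → ℝ} (z₀ : ℂ) (j : ℕ) (ω : Ω) :
    w1 W z₀ h δ R ε θ k j ω * ENNReal.ofReal
        (Q * Real.exp (-(h * k (DiscAux.Z W z₀ h j ω))) * F (DiscAux.Z W z₀ h j ω)) +
      w2 W z₀ h δ R ε θ q k j ω * ENNReal.ofReal
        (Q * Real.exp (-(h * (kk q (q * ε) (DiscAux.Z W z₀ h j ω) +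
          k (DiscAux.Z W z₀ h j ω)))) * F₂ (DiscAux.Z W z₀ h j ω)) =
      ENNReal.ofReal Q * (AnS W z₀ h δ R j).indicator
        (fun ω => ENNReal.ofReal (M W z₀ h ε θ q k F F₂ j ω)) ω := by
  by_cases hA : ω ∈ AnS W z₀ h δ R j
  · rw [Set.indicator_of_mem hA, ← ENNReal.ofReal_mul hQ]
    by_cases hF : ω ∈ TCDO3.FlT W z₀ h ε θ j
    · rw [w1, Set.indicator_of_mem
        (show ω ∈ AnS W z₀ h δ R j ∩ TCDO3.FlT W z₀ h ε θ j from ⟨hA, hF⟩), w2,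
        Set.indicator_of_notMem (fun hc => hc.2 hF), zero_mul, add_zero,
        ← ENNReal.ofReal_mul (Real.exp_pos _).le, M, if_pos hF, TRDOC.A_succ]
      congr 1
      have h3 : Real.exp (DiscAux.A W z₀ h k j ω + h * k (DiscAux.Z W z₀ h j ω)) *
          Real.exp (-(h * k (DiscAux.Z W z₀ h j ω))) = Real.exp (DiscAux.A W z₀ h k j ω) := by
        rw [← Real.exp_add]; ring_nf
      linear_combination (Q * F (DiscAux.Z W z₀ h j ω)) * h3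
    · rw [w1, Set.indicator_of_notMem (fun hc => hF hc.2), w2,
        Set.indicator_of_mem
          (show ω ∈ AnS W z₀ h δ R j \ TCDO3.FlT W z₀ h ε θ j from ⟨hA, hF⟩),
        zero_mul, zero_add,
        ← ENNReal.ofReal_mul (Real.exp_pos _).le, M, if_neg hF, TRDOC.A_succ, TRDOC.A_succ]
      congr 1
      have h3 : Real.exp (DiscAux.A W z₀ h k j ω + h * k (DiscAux.Z W z₀ h j ω) +
          q * (DiscAux.A W z₀ h (kk 1 ε) j ω + h * kk 1 ε (DiscAux.Z W z₀ h j ω) - θ)) *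
          Real.exp (-(h * (kk q (q * ε) (DiscAux.Z W z₀ h j ω) + k (DiscAux.Z W z₀ h j ω)))) =
          Real.exp (DiscAux.A W z₀ h k j ω + q * (DiscAux.A W z₀ h (kk 1 ε) j ω - θ)) := by
        rw [← Real.exp_add]
        congr 1
        unfold kk
        ring
      linear_combination (Q * F₂ (DiscAux.Z W z₀ h j ω)) * h3
  · rw [Set.indicator_of_notMem hA, w1, w2, Set.indicator_of_notMem (fun hc => hA hc.1),
      Set.indicator_of_notMem (fun hc => hA hc.1)]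
    simp

private lemma step [IsProbabilityMeasure μ] (hW : Drv a b c K W μ) {Q : ℝ} (hh : 0 < h)
    (hQ : 1 ≤ Q) (hδ : 0 < δ) (hq : 0 < q) {F F₂ : ℂ → ℝ} (hFm : Measurable F)
    (hF₂m : Measurable F₂) (hkm : Measurable k) (hF₂ : ∀ z, 0 ≤ F₂ z)
    (hsw : ∀ z : ℂ, δ ≤ ‖z‖ → ‖z‖ ≤ R → 1 / 2 ≤ ‖z‖ → F z ≤ ‖z‖ ^ q * F₂ z)
    (h2 : ∀ (z : ℂ) (s : ℝ), δ ≤ ‖z‖ → ‖z‖ ≤ R → 0 ≤ s →
      ∫⁻ ω, ENNReal.ofReal (F₂ (z + 2 * h / z - (W (s + h) ω - W s ω))) ∂μ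
        ≤ ENNReal.ofReal (Q * Real.exp (-(h * (kk q (q * ε) z + k z))) * F₂ z))
    (h4 : ∀ (z : ℂ) (s : ℝ), δ ≤ ‖z‖ → ‖z‖ ≤ R → 0 ≤ s →
      ∫⁻ ω, ENNReal.ofReal (F (z + 2 * h / z - (W (s + h) ω - W s ω))) ∂μ
        ≤ ENNReal.ofReal (Q * Real.exp (-(h * k z)) * F z))
    (z₀ : ℂ) (j : ℕ) :
    ∫⁻ ω in AnS W z₀ h δ R (j + 1), ENNReal.ofReal (M W z₀ h ε θ q k F F₂ (j + 1) ω) ∂μ ≤
      ENNReal.ofReal Q * ∫⁻ ω in AnS W z₀ h δ R j,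
        ENNReal.ofReal (M W z₀ h ε θ q k F F₂ j ω) ∂μ := by
  have hle : Blk W 0 (j * h) ≤ (inferInstance : MeasurableSpace Ω) := Blk_le hW _ _
  have hle1 : Blk W 0 ((j + 1 : ℕ) * h) ≤ (inferInstance : MeasurableSpace Ω) := Blk_le hW _ _
  have hAm : MeasurableSet (AnS W z₀ h δ R j) := hle _ (TRDOC.AnS_meas hh z₀ j le_rfl)
  have hAm1 : MeasurableSet (AnS W z₀ h δ R (j + 1)) :=
    hle1 _ (TRDOC.AnS_meas hh z₀ (j + 1) le_rfl)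
  have hw1 := w1_meas (W := W) (δ := δ) (R := R) (ε := ε) (θ := θ) hh hkm z₀ j
  have hw2 := w2_meas (W := W) (δ := δ) (R := R) (ε := ε) (θ := θ) (q := q) hh hkm z₀ j
  have hZ1 : Measurable (DiscAux.Z W z₀ h (j + 1)) :=
    (DiscAux.Z_meas hh z₀ (j + 1) _ le_rfl).mono hle1 le_rfl
  have hZ0 : Measurable (DiscAux.Z W z₀ h j) :=
    (DiscAux.Z_meas hh z₀ j _ le_rfl).mono hle le_rfl
  have hk : ∀ lam c₀ : ℝ, Measurable (kk lam c₀) := SmgAux.measurable_kk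
  have hρ1 : Measurable (fun z => Q * Real.exp (-(h * k z)) * F z) :=
    ((Real.measurable_exp.comp (hkm.const_mul h).neg).const_mul Q).mul hFm
  have hρ2 : Measurable (fun z => Q * Real.exp (-(h * (kk q (q * ε) z + k z))) * F₂ z) :=
    ((Real.measurable_exp.comp (((hk _ _).add hkm).const_mul h).neg).const_mul Q).mul hF₂m
  have c1 := cond_step hW hh hFm hρ1 h4 z₀ j (w1 W z₀ h δ R ε θ k j) hw1 (by
    intro ω hω
    have := Set.mem_of_indicator_ne_zero hω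
    exact this.1 j le_rfl)
  have c2 := cond_step hW hh hF₂m hρ2 h2 z₀ j (w2 W z₀ h δ R ε θ q k j) hw2 (by
    intro ω hω
    have := Set.mem_of_indicator_ne_zero hω
    exact this.1 j le_rfl)
  calc ∫⁻ ω in AnS W z₀ h δ R (j + 1), ENNReal.ofReal (M W z₀ h ε θ q k F F₂ (j + 1) ω) ∂μ
      ≤ ∫⁻ ω in AnS W z₀ h δ R (j + 1), (w1 W z₀ h δ R ε θ k j ω *
            ENNReal.ofReal (F (DiscAux.Z W z₀ h (j + 1) ω)) +
          w2 W z₀ h δ R ε θ q k j ω *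
            ENNReal.ofReal (F₂ (DiscAux.Z W z₀ h (j + 1) ω))) ∂μ :=
        setLIntegral_mono' hAm1 fun ω hω => M_le hδ hq hF₂ hsw z₀ j hω
    _ ≤ ∫⁻ ω, (w1 W z₀ h δ R ε θ k j ω *
            ENNReal.ofReal (F (DiscAux.Z W z₀ h (j + 1) ω)) +
          w2 W z₀ h δ R ε θ q k j ω *
            ENNReal.ofReal (F₂ (DiscAux.Z W z₀ h (j + 1) ω))) ∂μ :=
        setLIntegral_le_lintegral _ _
    _ = ∫⁻ ω, w1 W z₀ h δ R ε θ k j ω *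
            ENNReal.ofReal (F (DiscAux.Z W z₀ h (j + 1) ω)) ∂μ +
        ∫⁻ ω, w2 W z₀ h δ R ε θ q k j ω *
            ENNReal.ofReal (F₂ (DiscAux.Z W z₀ h (j + 1) ω)) ∂μ := by
        apply lintegral_add_left
        exact (hw1.mono hle le_rfl).mul (ENNReal.measurable_ofReal.comp (hFm.comp hZ1))
    _ ≤ _ := add_le_add c1 c2
    _ = ∫⁻ ω, (w1 W z₀ h δ R ε θ k j ω * ENNReal.ofReal
        (Q * Real.exp (-(h * k (DiscAux.Z W z₀ h j ω))) * F (DiscAux.Z W z₀ h j ω)) +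
      w2 W z₀ h δ R ε θ q k j ω * ENNReal.ofReal
        (Q * Real.exp (-(h * (kk q (q * ε) (DiscAux.Z W z₀ h j ω) +
          k (DiscAux.Z W z₀ h j ω)))) * F₂ (DiscAux.Z W z₀ h j ω))) ∂μ := by
        symm
        apply lintegral_add_left
        exact (hw1.mono hle le_rfl).mul (ENNReal.measurable_ofReal.comp (hρ1.comp hZ0))
    _ = ∫⁻ ω, ENNReal.ofReal Q * (AnS W z₀ h δ R j).indicator
        (fun ω => ENNReal.ofReal (M W z₀ h ε θ q k F F₂ j ω)) ω ∂μ :=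
        lintegral_congr fun ω => w_eq (by linarith) z₀ j ω
    _ = _ := by
        rw [lintegral_const_mul' _ _ ENNReal.ofReal_ne_top, lintegral_indicator hAm]

private lemma base [IsProbabilityMeasure μ] (hδ : 0 < δ) (hq : 0 < q) {F F₂ : ℂ → ℝ}
    (hF₂ : ∀ z, 0 ≤ F₂ z)
    (hsw : ∀ z : ℂ, δ ≤ ‖z‖ → ‖z‖ ≤ R → 1 / 2 ≤ ‖z‖ → F z ≤ ‖z‖ ^ q * F₂ z) (z₀ : ℂ) :
    ∫⁻ ω in AnS W z₀ h δ R 0, ENNReal.ofReal (M W z₀ h ε θ q k F F₂ 0 ω) ∂μ ≤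
      ENNReal.ofReal (Real.exp (-(q * θ)) * F₂ z₀) := by
  by_cases hz : δ ≤ ‖z₀‖ ∧ ‖z₀‖ ≤ R
  · have h1 : ∀ ω, ENNReal.ofReal (M W z₀ h ε θ q k F F₂ 0 ω) ≤
        ENNReal.ofReal (Real.exp (-(q * θ)) * F₂ z₀) := by
      intro ω
      apply ENNReal.ofReal_le_ofReal
      have hA : ∀ k : ℂ → ℝ, DiscAux.A W z₀ h k 0 ω = 0 := by
        intro k; simp [DiscAux.A]
      have hZ : DiscAux.Z W z₀ h 0 ω = z₀ := by simp [DiscAux.Z, eul]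
      have e1 : q * (0 - θ) = -(q * θ) := by ring
      rw [M]
      split_ifs with hF
      · obtain ⟨i, hi, h0, h1⟩ := hF
        have hi' : i = 0 := by omega
        subst hi'
        rw [hZ] at h0
        rw [hA, hZ] at h1
        have h2 := sw (θ := θ) (lt_of_lt_of_le hδ hz.1) hq (hF₂ _) (hsw _ hz.1 hz.2 h0) h1
        rw [hA, hZ, Real.exp_zero, one_mul, ← e1]
        exact h2
      · rw [hA, hA, hZ, zero_add, e1]
    calc ∫⁻ ω in AnS W z₀ h δ R 0, ENNReal.ofReal (M W z₀ h ε θ q k F F₂ 0 ω) ∂μ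
        ≤ ∫⁻ ω, ENNReal.ofReal (M W z₀ h ε θ q k F F₂ 0 ω) ∂μ :=
          setLIntegral_le_lintegral _ _
      _ ≤ ∫⁻ _, ENNReal.ofReal (Real.exp (-(q * θ)) * F₂ z₀) ∂μ := lintegral_mono h1
      _ = _ := by simp
  · have h1 : AnS W z₀ h δ R 0 = ∅ := by
      ext ω
      simp only [Set.mem_empty_iff_false, iff_false]
      intro hω
      exact hz (hω 0 le_rfl)
    rw [h1]
    simp

end TCWK2

/-- TC-WK2. The exponential moment of the weak functional on the flag.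

Proof. `M_j = exp (Bs h k j) F (Z_j)` on `Fl j`, `M_j = exp (Bs h k j + q (Bs h (kk 1 ε) j - θ)) F₂
(Z_j)` off
`Fl j`; `b_j = ∫ in An j, M_j`. When the flag goes up at `i` (`1/2 ≤ |Z_i|`, `θ ≤ phs_i`), by `hsw`:
`F Z_i ≤ |Z_i|^q F₂ Z_i ≤ exp (q (phs_i - θ)) |Z_i|^q F₂ Z_i = exp (q (B_i - θ)) F₂ Z_i`.
`cond_step`
(TR/CST) twice gives `b_{j+1} ≤ Q b_j` (as in `disc_occ3`, without the gain), so
`b_J ≤ Q^J b_0 ≤ Q^J exp (-(q θ)) F₂ z₀`; on `Fl J` (in the annulus) `M_J ≥ exp (Bs h k J)`. -/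
theorem weak_disc [IsProbabilityMeasure μ] (hW : Drv a b c K W μ)
    {h Q δ R ε q θ : ℝ} (hh : 0 < h) (hQ : 1 ≤ Q) (hδ : 0 < δ) (hq : 0 < q)
    {F₂ F k : ℂ → ℝ} (hF₂m : Measurable F₂) (hFm : Measurable F) (hkm : Measurable k)
    (hF₂ : ∀ z, 0 ≤ F₂ z) (hF : ∀ z, 0 ≤ F z) (hk : ∀ z, 0 ≤ k z)
    (hF1 : ∀ z : ℂ, δ ≤ ‖z‖ → ‖z‖ ≤ R → 1 ≤ F z)
    (hsw : ∀ z : ℂ, δ ≤ ‖z‖ → ‖z‖ ≤ R → 1 / 2 ≤ ‖z‖ → F z ≤ ‖z‖ ^ q * F₂ z)
    (h2 : ∀ (z : ℂ) (s : ℝ), δ ≤ ‖z‖ → ‖z‖ ≤ R → 0 ≤ s →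
      ∫⁻ ω, ENNReal.ofReal (F₂ (z + 2 * h / z - (W (s + h) ω - W s ω))) ∂μ
        ≤ ENNReal.ofReal (Q * Real.exp (-(h * (kk q (q * ε) z + k z))) * F₂ z))
    (h4 : ∀ (z : ℂ) (s : ℝ), δ ≤ ‖z‖ → ‖z‖ ≤ R → 0 ≤ s →
      ∫⁻ ω, ENNReal.ofReal (F (z + 2 * h / z - (W (s + h) ω - W s ω))) ∂μ
        ≤ ENNReal.ofReal (Q * Real.exp (-(h * k z)) * F z))
    (z₀ : ℂ) (J : ℕ) :
    ∫⁻ ω in {ω | Zq W z₀ h ω ∈ An δ R J ∧ Zq W z₀ h ω ∈ Fl h ε θ J},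
        ENNReal.ofReal (Real.exp (Bs h k J (Zq W z₀ h ω))) ∂μ ≤
      ENNReal.ofReal (Q ^ J * Real.exp (-(q * θ)) * F₂ z₀) := by
  have hset : {ω | Zq W z₀ h ω ∈ An δ R J ∧ Zq W z₀ h ω ∈ Fl h ε θ J} =
      AnS W z₀ h δ R J ∩ TCDO3.FlT W z₀ h ε θ J := rfl
  have key : ∀ J : ℕ, ∫⁻ ω in AnS W z₀ h δ R J,
        ENNReal.ofReal (TCWK2.M W z₀ h ε θ q k F F₂ J ω) ∂μ ≤
      ENNReal.ofReal Q ^ J * ENNReal.ofReal (Real.exp (-(q * θ)) * F₂ z₀) := by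
    intro J
    induction J with
    | zero =>
      simpa using TCWK2.base (W := W) (μ := μ) (h := h) (ε := ε) (θ := θ) (k := k)
        (F := F) hδ hq hF₂ hsw z₀
    | succ j ih =>
      have s1 := TCWK2.step (θ := θ) hW hh hQ hδ hq hFm hF₂m hkm hF₂ hsw h2 h4 z₀ j
      calc _ ≤ _ := s1
        _ ≤ ENNReal.ofReal Q *
            (ENNReal.ofReal Q ^ j * ENNReal.ofReal (Real.exp (-(q * θ)) * F₂ z₀)) := by gcongr
        _ = _ := by ring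
  have hle : Blk W 0 (J * h) ≤ (inferInstance : MeasurableSpace Ω) := Blk_le hW _ _
  have hSm : MeasurableSet (AnS W z₀ h δ R J ∩ TCDO3.FlT W z₀ h ε θ J) :=
    hle _ ((TRDOC.AnS_meas hh z₀ J le_rfl).inter (TCDO3.FlT_meas hh z₀ J le_rfl))
  rw [hset]
  calc ∫⁻ ω in AnS W z₀ h δ R J ∩ TCDO3.FlT W z₀ h ε θ J,
        ENNReal.ofReal (Real.exp (Bs h k J (Zq W z₀ h ω))) ∂μ
      ≤ ∫⁻ ω in AnS W z₀ h δ R J ∩ TCDO3.FlT W z₀ h ε θ J,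
        ENNReal.ofReal (TCWK2.M W z₀ h ε θ q k F F₂ J ω) ∂μ := by
        refine setLIntegral_mono' hSm fun ω hω => ENNReal.ofReal_le_ofReal ?_
        rw [TCWK2.M, if_pos hω.2]
        have hZ := hω.1 J le_rfl
        exact le_mul_of_one_le_right (Real.exp_pos _).le (hF1 _ hZ.1 hZ.2)
    _ ≤ ∫⁻ ω in AnS W z₀ h δ R J, ENNReal.ofReal (TCWK2.M W z₀ h ε θ q k F F₂ J ω) ∂μ :=
        lintegral_mono_set Set.inter_subset_left
    _ ≤ _ := key J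
    _ = _ := by
        rw [← ENNReal.ofReal_pow (by linarith), ← ENNReal.ofReal_mul (by positivity)]
        congr 1
        ring

end

end Pool.Agent.SLE
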