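import Pool.Agent.Lib.MP_c17912_pr_TC.WK1
import Pool.Agent.Lib.MP_c17912_pr_TC.WK2
import Pool.Agent.Lib.MP_c17912_pr_TR.GOS
import Pool.Agent.Lib.MP_c17912_pr.Euler
import Pool.Agent.Lib.MP_c17912_pr_TR.OCC

set_option autoImplicit false

open MeasureTheory ProbabilityTheory Filter
open scoped NNReal ENNReal Topology Real

namespace Pool.Agent.SLE

noncomputable section

variable {Ω : Type*} [MeasurableSpace Ω] {μ : Measure Ω}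

namespace TCWK3

/-- The potential. -/
def kw (c₁ y R : ℝ) (z : ℂ) : ℝ := c₁ * y ^ 2 * ((‖z‖ / R) ^ y / ‖z‖ ^ 2)

theorem kw_nonneg {c₁ y R : ℝ} (hc : 0 ≤ c₁) (hR : 0 ≤ R) (z : ℂ) : 0 ≤ kw c₁ y R z := by
  unfold kw
  have : 0 ≤ (‖z‖ / R) ^ y := Real.rpow_nonneg (by positivity) _
  positivity

theorem kw_meas (c₁ y R : ℝ) : Measurable (kw c₁ y R) := by
  unfold kw
  exact (((measurable_norm.div_const R).pow_const y).div (measurable_norm.pow_const 2)).const_mul _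

theorem kw_cont {c₁ y R : ℝ} (hy : 0 < y) : ContinuousOn (kw c₁ y R) {0}ᶜ := by
  unfold kw
  have h1 : Continuous fun z : ℂ => (‖z‖ / R) ^ y :=
    (continuous_norm.div_const R).rpow_const fun z => Or.inr hy.le
  refine continuousOn_const.mul (h1.continuousOn.div (continuous_norm.pow 2).continuousOn ?_)
  exact fun z hz => pow_ne_zero 2 (norm_ne_zero_iff.2 hz)

theorem kw_le {c₁ y R : ℝ} (hc : 0 ≤ c₁) (hy : 0 ≤ y) (hy1 : y ≤ 1) (hR : 0 < R) {z : ℂ}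
    (hz : ‖z‖ ≤ R) : kw c₁ y R z ≤ c₁ / ‖z‖ ^ 2 := by
  unfold kw
  have h1 : (‖z‖ / R) ^ y ≤ 1 :=
    Real.rpow_le_one (by positivity) ((div_le_one hR).2 hz) hy
  have h0 : 0 ≤ (‖z‖ / R) ^ y := Real.rpow_nonneg (by positivity) _
  have h2 : y ^ 2 ≤ 1 := pow_le_one₀ hy hy1
  have h3 : y ^ 2 * (‖z‖ / R) ^ y ≤ 1 := mul_le_one₀ h2 h0 h1
  have h4 : c₁ * y ^ 2 * ((‖z‖ / R) ^ y / ‖z‖ ^ 2) =
      c₁ * (y ^ 2 * (‖z‖ / R) ^ y) / ‖z‖ ^ 2 := by ring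
  rw [h4]
  refine div_le_div_of_nonneg_right ?_ (by positivity)
  calc c₁ * (y ^ 2 * (‖z‖ / R) ^ y) ≤ c₁ * 1 := mul_le_mul_of_nonneg_left h3 hc
    _ = c₁ := mul_one c₁

theorem kk_split {q e d : ℝ} {z : ℂ} {x : ℝ} (hx : x ≤ d / ‖z‖ ^ 2) :
    kk q e z + x ≤ kk q (e + d) z := by
  unfold kk
  rw [add_div]
  linarith

/-- The discrete bound. -/
theorem disc [IsProbabilityMeasure μ] {a b c K : ℝ} (ha : 0 ≤ a) (hb : 0 ≤ b) (hK : 0 ≤ K)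
    {q α δ₂ : ℝ} {ψ₂ : ℝ → ℝ} (hq : 2 < q) (hqa : 0 ≤ q + α) (hδ₂ : 0 < δ₂)
    (s2 : ContDiff ℝ 3 ψ₂) (p2 : Function.Periodic ψ₂ (2 * π))
    (g2 : ∀ θ, Op a b c α ψ₂ θ - 2 * q * Real.cos (2 * θ) + δ₂ ≤ 0)
    {B₂ : ℝ} (hB₂ : ∀ θ, |ψ₂ θ| ≤ B₂) {ψ : ℝ → ℝ} (s5 : ContDiff ℝ 3 ψ)
    (p5 : Function.Periodic ψ (2 * π)) {y c₀ c₁ ε R : ℝ} (hy : 0 < y) (hy1 : y ≤ 1)
    (hc₀ : 0 < c₀) (hψ : ∀ θ, |ψ θ| ≤ 1 / 2) (hop : ∀ θ, c₀ * y ^ 2 ≤ Op a b c y ψ θ)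
    (hc₁ : 0 < c₁) (hc₁0 : c₁ ≤ c₀ / 8) (hc₁2 : c₁ ≤ δ₂ / 4) (hqε : q * ε ≤ δ₂ / 4)
    {p : ℕ} (hp : |α| ≤ p) {δ : ℝ} (hδ : 0 < δ) (hδR : δ ≤ R) :
    ∃ C' > 0, ∃ h₀ > 0, ∀ W : ℝ → Ω → ℂ, Drv a b c K W μ → ∀ h : ℝ, 0 < h → h ≤ h₀ →
      ∀ (z₀ : ℂ) (θ : ℝ), 1 / 2 ≤ ‖z₀‖ → ∀ J : ℕ,
        ∫⁻ ω in {ω | Zq W z₀ h ω ∈ An δ R J ∧ Zq W z₀ h ω ∈ Fl h ε θ J},
          ENNReal.ofReal (Real.exp (Bs h (kw c₁ y R) J (Zq W z₀ h ω))) ∂μ ≤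
        ENNReal.ofReal (4 * Real.exp ((q + α) * Real.log 2 + B₂) *
          Real.exp (|α| * Real.log 2 + B₂) * (1 + ‖z₀‖) ^ p *
          Real.exp (C' * (J * h) * √h) * Real.exp (-(q * θ))) := by
  have hR : 0 < R := hδ.trans_le hδR
  have hq0 : 0 < q := by linarith
  obtain ⟨F, m1, n1, u1, v1, C₁, hC₁, h₁, hh₁, w1⟩ := weak_one (μ := μ) (c := c) ha hb hK
    s5 p5 hy hy1 hc₀ hψ hop hδ hδR
  obtain ⟨G₂, m2, n2, u2, v2, C₂, hC₂, h₂, hh₂, w2⟩ := ge_one_step (μ := μ) (c := c) ha hb hK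
    (α := α) (lam := q) (c₀ := q * ε + δ₂ / 4) s2 p2 (fun θ => by linarith [g2 θ]) hδ hδR
  refine ⟨max C₁ C₂, lt_max_of_lt_left hC₁, min h₁ h₂, lt_min hh₁ hh₂, ?_⟩
  intro W hW h hh hh0 z₀ θ hz J
  have k1 : h ≤ h₁ := hh0.trans (min_le_left _ _)
  have k2 : h ≤ h₂ := hh0.trans (min_le_right _ _)
  have hs : 0 ≤ h * √h := by positivity
  obtain ⟨Q, hQd⟩ : ∃ Q : ℝ, Q = 1 + max C₁ C₂ * (h * √h) := ⟨_, rfl⟩
  have hm : 0 ≤ max C₁ C₂ := hC₁.le.trans (le_max_left _ _)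
  have hQ1 : 1 ≤ Q := by
    have := mul_nonneg hm hs
    rw [hQd]
    linarith
  obtain ⟨C₀, hC₀⟩ : ∃ C₀ : ℝ, C₀ = 4 * Real.exp ((q + α) * Real.log 2 + B₂) := ⟨_, rfl⟩
  have hC₀p : 0 < C₀ := by
    rw [hC₀]
    positivity
  have hsw : ∀ z : ℂ, δ ≤ ‖z‖ → ‖z‖ ≤ R → 1 / 2 ≤ ‖z‖ → F z ≤ ‖z‖ ^ q * (C₀ * G₂ z) := by
    intro z hz1 hz2 hz3
    rw [v2 z hz1 hz2]
    refine (u1 z).trans ?_
    have hz0 : 0 < ‖z‖ := by linarith
    have hl : -Real.log 2 ≤ Real.log ‖z‖ := by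
      have := Real.log_le_log (by norm_num) hz3
      rwa [one_div, Real.log_inv] at this
    have e1 := (abs_le.1 (hB₂ (Complex.arg z))).1
    have e3 : (q + α) * (-Real.log 2) ≤ (q + α) * Real.log ‖z‖ :=
      mul_le_mul_of_nonneg_left hl hqa
    have e2 : ‖z‖ ^ q * (C₀ * GE α ψ₂ z) = 4 * Real.exp (Real.log ‖z‖ * q +
        ((q + α) * Real.log 2 + B₂) + (α * Real.log ‖z‖ + ψ₂ (Complex.arg z))) := by
      rw [hC₀, GE, Real.rpow_def_of_pos hz0,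
        Real.exp_add (Real.log ‖z‖ * q + ((q + α) * Real.log 2 + B₂)),
        Real.exp_add (Real.log ‖z‖ * q)]
      ring
    rw [e2]
    have e4 : 0 ≤ Real.log ‖z‖ * q +
        ((q + α) * Real.log 2 + B₂) + (α * Real.log ‖z‖ + ψ₂ (Complex.arg z)) := by
      nlinarith
    have e5 := Real.one_le_exp e4
    linarith
  have key := weak_disc (R := R) (δ := δ) (ε := ε) (q := q) (θ := θ) hW hh hQ1 hδ hq0
    (F₂ := fun z => C₀ * G₂ z) (F := F) (k := kw c₁ y R) (m2.const_mul C₀) m1 (kw_meas c₁ y R)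
    (fun z => mul_nonneg hC₀p.le (n2 z)) n1 (kw_nonneg hc₁.le hR.le)
    (fun z hz1 hz2 => by linarith [v1 z hz1 hz2]) hsw
    (fun z s hz1 hz2 hs0 => by
      have := w2 W hW h hh k2 z s hz1 hz2 hs0
      have e1 : ∀ ω, ENNReal.ofReal (C₀ * G₂ (z + 2 * h / z - (W (s + h) ω - W s ω))) =
          ENNReal.ofReal C₀ * ENNReal.ofReal (G₂ (z + 2 * h / z - (W (s + h) ω - W s ω))) :=
        fun ω => ENNReal.ofReal_mul hC₀p.le
      simp only [e1]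
      rw [lintegral_const_mul' _ _ ENNReal.ofReal_ne_top]
      refine (mul_le_mul_right this _).trans ?_
      rw [← ENNReal.ofReal_mul hC₀p.le]
      refine ENNReal.ofReal_le_ofReal ?_
      have e2 : 1 + C₂ * (h * √h) ≤ Q := by
        have := mul_le_mul_of_nonneg_right (le_max_right C₁ C₂) hs
        rw [hQd]
        linarith
      have e4 : kw c₁ y R z ≤ δ₂ / 4 / ‖z‖ ^ 2 :=
        (kw_le hc₁.le hy.le hy1 hR hz2).trans (div_le_div_of_nonneg_right hc₁2 (by positivity))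
      have e5 : Real.exp (-(h * kk q (q * ε + δ₂ / 4) z)) ≤
          Real.exp (-(h * (kk q (q * ε) z + kw c₁ y R z))) := by
        refine Real.exp_le_exp.2 (neg_le_neg (mul_le_mul_of_nonneg_left (kk_split e4) hh.le))
      have e6 : (1 + C₂ * (h * √h)) * Real.exp (-(h * kk q (q * ε + δ₂ / 4) z)) ≤
          Q * Real.exp (-(h * (kk q (q * ε) z + kw c₁ y R z))) :=
        mul_le_mul e2 e5 (Real.exp_pos _).le (by linarith)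
      calc C₀ * ((1 + C₂ * (h * √h)) * Real.exp (-(h * kk q (q * ε + δ₂ / 4) z)) * G₂ z)
          = ((1 + C₂ * (h * √h)) * Real.exp (-(h * kk q (q * ε + δ₂ / 4) z))) *
            (C₀ * G₂ z) := by ring
        _ ≤ _ := mul_le_mul_of_nonneg_right e6 (mul_nonneg hC₀p.le (n2 z)))
    (fun z s hz1 hz2 hs0 => by
      have := w1 W hW h hh k1 z s hz1 hz2 hs0
      refine this.trans (ENNReal.ofReal_le_ofReal ?_)
      have e2 : 1 + C₁ * (h * √h) ≤ Q := by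
        have := mul_le_mul_of_nonneg_right (le_max_left C₁ C₂) hs
        rw [hQd]
        linarith
      have e4 : kw c₁ y R z ≤ c₀ / 8 * y ^ 2 * ((‖z‖ / R) ^ y / ‖z‖ ^ 2) := by
        unfold kw
        have i1 : 0 ≤ (‖z‖ / R) ^ y := Real.rpow_nonneg (by positivity) _
        have i2 : 0 ≤ y ^ 2 * ((‖z‖ / R) ^ y / ‖z‖ ^ 2) := by positivity
        have i3 := mul_le_mul_of_nonneg_right hc₁0 i2
        linarith
      have e5 : Real.exp (-(h * (c₀ / 8 * y ^ 2 * ((‖z‖ / R) ^ y / ‖z‖ ^ 2)))) ≤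
          Real.exp (-(h * kw c₁ y R z)) :=
        Real.exp_le_exp.2 (neg_le_neg (mul_le_mul_of_nonneg_left e4 hh.le))
      exact mul_le_mul_of_nonneg_right (mul_le_mul e2 e5 (Real.exp_pos _).le (by linarith))
        (n1 z))
    z₀ J
  refine key.trans (ENNReal.ofReal_le_ofReal ?_)
  have hx : 1 ≤ 1 + ‖z₀‖ := by linarith [norm_nonneg z₀]
  have f1 : Q ^ J ≤ Real.exp (max C₁ C₂ * (J * h) * √h) := by
    rw [hQd]
    exact SmgAux.pow_le_exp hm hh.le J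
  have f2 : G₂ z₀ ≤ Real.exp (|α| * Real.log 2 + B₂) * (1 + ‖z₀‖) ^ p := by
    refine (u2 z₀).trans ((TROCD.up hB₂ hz (by linarith) hx).trans ?_)
    have e1 : Real.exp (|α| * (Real.log 2 + Real.log (1 + ‖z₀‖)) + B₂) =
        Real.exp (|α| * Real.log 2 + B₂) * Real.exp (|α| * Real.log (1 + ‖z₀‖)) := by
      rw [← Real.exp_add]
      congr 1
      ring
    rw [e1]
    exact mul_le_mul_of_nonneg_left (TROCD.pw hx hp) (Real.exp_pos _).le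
  have f3 : C₀ * G₂ z₀ ≤ C₀ * (Real.exp (|α| * Real.log 2 + B₂) * (1 + ‖z₀‖) ^ p) :=
    mul_le_mul_of_nonneg_left f2 hC₀p.le
  have f4 : 0 ≤ C₀ * G₂ z₀ := mul_nonneg hC₀p.le (n2 z₀)
  calc Q ^ J * Real.exp (-(q * θ)) * (C₀ * G₂ z₀)
      ≤ Real.exp (max C₁ C₂ * (J * h) * √h) * Real.exp (-(q * θ)) *
        (C₀ * (Real.exp (|α| * Real.log 2 + B₂) * (1 + ‖z₀‖) ^ p)) :=
        mul_le_mul (mul_le_mul_of_nonneg_right f1 (Real.exp_pos _).le) f3 f4 (by positivity)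
    _ = _ := by
      rw [hC₀]
      ring

/-- The discrete functional. -/
def Yl (W : ℝ → Ω → ℂ) (z₀ : ℂ) (c₁ y ε θ δ R : ℝ) (T n : ℕ) : Ω → ℝ≥0∞ :=
  {ω | Zq W z₀ ((1 / 2) ^ n) ω ∈ An δ R (T * 2 ^ n) ∧
      Zq W z₀ ((1 / 2) ^ n) ω ∈ Fl ((1 / 2) ^ n) ε θ (T * 2 ^ n)}.indicator
    fun ω => ENNReal.ofReal (Real.exp (Bs ((1 / 2) ^ n) (kw c₁ y R) (T * 2 ^ n)
      (Zq W z₀ ((1 / 2) ^ n) ω)))

theorem Zq_m {a b c K : ℝ} {W : ℝ → Ω → ℂ} (hW : Drv a b c K W μ) (z₀ : ℂ) {h : ℝ}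
    (hh : 0 < h) : Measurable (Zq W z₀ h) :=
  measurable_pi_lambda _ fun j => (DiscAux.Z_meas hh z₀ j _ le_rfl).mono (Blk_le hW _ _) le_rfl

theorem set_m {a b c K : ℝ} {W : ℝ → Ω → ℂ} (hW : Drv a b c K W μ) (z₀ : ℂ) {h : ℝ}
    (hh : 0 < h) (δ R ε θ : ℝ) (J : ℕ) :
    MeasurableSet {ω | Zq W z₀ h ω ∈ An δ R J ∧ Zq W z₀ h ω ∈ Fl h ε θ J} :=
  (Zq_m hW z₀ hh (meas_An δ R J)).inter (Zq_m hW z₀ hh (meas_Fl h ε θ J))

theorem Yl_meas {a b c K : ℝ} {W : ℝ → Ω → ℂ} (hW : Drv a b c K W μ) (z₀ : ℂ)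
    (c₁ y ε θ δ R : ℝ) (T n : ℕ) : Measurable (Yl W z₀ c₁ y ε θ δ R T n) := by
  have hh : (0 : ℝ) < (1 / 2) ^ n := by positivity
  refine Measurable.indicator ?_ (set_m hW z₀ hh δ R ε θ (T * 2 ^ n))
  refine ENNReal.measurable_ofReal.comp (Real.measurable_exp.comp ?_)
  have h1 : Measurable (Bs ((1 / 2) ^ n) (kw c₁ y R) (T * 2 ^ n)) := by
    unfold Bs
    exact Finset.measurable_sum _ fun i _ =>
      ((kw_meas c₁ y R).comp (measurable_pi_apply i)).const_mul _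
  exact h1.comp (Zq_m hW z₀ hh)

omit [MeasurableSpace Ω] in
/-- The lower bound of the discrete functional. -/
theorem low_bound {W : ℝ → Ω → ℂ} {z₀ : ℂ} {c₁ y ε θ R : ℝ} (hy : 0 < y)
    (hR : 1 ≤ R) {ω : Ω} {T : ℕ} {g : ℝ → ℂ} {u₁ : ℝ}
    (hU : Continuous fun t => W t ω) (h0 : W 0 ω = 0) (hu₁ : u₁ ∈ Set.Icc (0 : ℝ) T)
    (hs : Sol (fun t => W t ω) z₀ T g) (hc : ∀ u ∈ Set.Icc (0 : ℝ) T, ‖g u - W u ω‖ ≤ R / 2)
    (h34 : 3 / 4 ≤ ‖g u₁ - W u₁ ω‖) (hfl : θ < ph (fun t => W t ω) g ε u₁) :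
    ∃ δ₀ > 0, ∀ᶠ n : ℕ in atTop, ∀ δ, δ ≤ δ₀ →
      ENNReal.ofReal (Real.exp ((∫ u in (0 : ℝ)..T, kw c₁ y R (g u - W u ω)) - 1)) ≤
        Yl W z₀ c₁ y ε θ δ R T n ω := by
  obtain ⟨U, hUd⟩ : ∃ U : ℝ → ℂ, U = fun t => W t ω := ⟨_, rfl⟩
  have hUa : ∀ t, W t ω = U t := fun t => by rw [hUd]
  rw [← hUd] at hU hs hfl
  simp only [hUa] at hc h0 h34 ⊢
  have hT0 : (0 : ℝ) ≤ T := Nat.cast_nonneg T
  have hZc := EulerAux.contZ hU hs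
  obtain ⟨s₁, hs₁, hmin⟩ := isCompact_Icc.exists_isMinOn (⟨0, le_rfl, hT0⟩ :
    (Set.Icc (0 : ℝ) T).Nonempty) hZc.norm
  obtain ⟨d, hd⟩ : ∃ d, d = ‖g s₁ - U s₁‖ := ⟨_, rfl⟩
  have hdl : ∀ s ∈ Set.Icc (0 : ℝ) T, d ≤ ‖g s - U s‖ := fun s hs' => by
    rw [hd]; exact hmin hs'
  have hd0 : 0 < d := by
    rw [hd]
    exact norm_pos_iff.2 (sub_ne_zero.2 (hs.2.1 s₁ hs₁))
  have hdR : d ≤ R / 2 := (hdl 0 ⟨le_rfl, hT0⟩).trans (hc 0 ⟨le_rfl, hT0⟩)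
  -- the flag
  have hsu : Sol U z₀ u₁ g := hs.restrict hu₁.2
  have hu₁pos : 0 < ‖g u₁ - U u₁‖ := by linarith
  obtain ⟨F, hF⟩ : ∃ F : ℂ → ℝ, F = fun z => ‖z‖⁻¹ * min 1 (4 * ‖z‖ - 2) := ⟨_, rfl⟩
  have hFc : ContinuousOn F {0}ᶜ := by
    rw [hF]
    refine ContinuousOn.mul ?_ ?_
    · exact continuous_norm.continuousOn.inv₀ fun z hz => norm_ne_zero_iff.2 hz
    · exact (continuous_const.min ((continuous_const.mul continuous_norm).sub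
        continuous_const)).continuousOn
  have hexp : ∀ (x : ℝ) {y : ℝ}, 0 < y → Real.exp x * y⁻¹ = Real.exp (x - Real.log y) := by
    intro x y hy
    rw [Real.exp_sub, Real.exp_log hy, div_eq_mul_inv]
  have hFu : F (g u₁ - U u₁) = ‖g u₁ - U u₁‖⁻¹ := by
    rw [hF]
    simp only
    rw [min_eq_left (by linarith), mul_one]
  have hcm : ∀ s ∈ Set.Icc (0 : ℝ) u₁, s ∈ Set.Icc (0 : ℝ) T :=
    fun s hs' => ⟨hs'.1, hs'.2.trans hu₁.2⟩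
  have hev1 := euler_event hU h0 (TROCC.kk_cont 1 ε) hFc (T := (T : ℝ)) (δ := d / 2)
    (R := R / 2 + 1) (m := Real.exp θ) hu₁.1 hu₁.2 (by positivity) hsu
    (fun s hs' => ⟨by linarith [hdl s (hcm s hs')], by linarith [hc s (hcm s hs')]⟩)
    (by
      rw [hFu, hexp _ hu₁pos]
      exact Real.exp_lt_exp.2 hfl)
  -- the sum
  have hev2 := EulerAux.sum_close hU h0 (kw_cont (c₁ := c₁) (R := R) hy) (δ := d / 2)
    (R := R / 2 + 1) (c := d) (C := R / 2) hT0 (by positivity) hs hdl (by linarith) hc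
    (by linarith) one_pos
  -- the scheme
  have hev3 := EulerAux.eul_close hU h0 (δ := d / 2) (c := d) hT0 (by positivity) hs hdl
    (by linarith) (η := min (d / 2) (1 / 2)) (lt_min (by positivity) (by norm_num))
  refine ⟨d / 2, by positivity, ?_⟩
  filter_upwards [hev1, hev2, hev3] with n h1 h2 h3 δ hδ
  obtain ⟨i₀, hi₀, -, hi₀'⟩ := h1
  have hh : (0 : ℝ) < (1 / 2) ^ n := by positivity
  have h22 : (2 : ℝ) ^ n * (1 / 2) ^ n = 1 := by rw [← mul_pow]; norm_num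
  have hjt : EulerAux.jn T n = T * 2 ^ n := by
    rw [EulerAux.jn]
    have h4 : (T : ℝ) * 2 ^ n = ((T * 2 ^ n : ℕ) : ℝ) := by push_cast; ring
    rw [h4, Nat.floor_natCast]
  rw [hjt] at h2 h3
  have hann : ∀ i ≤ T * 2 ^ n, (i : ℝ) * (1 / 2) ^ n ∈ Set.Icc (0 : ℝ) T := by
    intro i hi
    refine ⟨by positivity, ?_⟩
    have h4 : (i : ℝ) ≤ T * 2 ^ n := by exact_mod_cast hi
    calc (i : ℝ) * (1 / 2) ^ n ≤ T * 2 ^ n * (1 / 2) ^ n := mul_le_mul_of_nonneg_right h4 hh.le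
      _ = T := by rw [mul_assoc, h22, mul_one]
  have hlo : ∀ i ≤ T * 2 ^ n, d / 2 ≤ ‖eul U z₀ ((1 / 2) ^ n) i‖ := by
    intro i hi
    have h4 := (h3 i hi).trans (min_le_left _ _)
    have h5 := hdl _ (hann i hi)
    have h6 := norm_sub_norm_le (g ((i : ℝ) * (1 / 2) ^ n) - U ((i : ℝ) * (1 / 2) ^ n))
      (eul U z₀ ((1 / 2) ^ n) i)
    rw [norm_sub_rev (g ((i : ℝ) * (1 / 2) ^ n) - U ((i : ℝ) * (1 / 2) ^ n))] at h6
    linarith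
  have hup : ∀ i ≤ T * 2 ^ n, ‖eul U z₀ ((1 / 2) ^ n) i‖ ≤ R := by
    intro i hi
    have h4 := (h3 i hi).trans (min_le_right _ _)
    have h5 := hc _ (hann i hi)
    have h6 := norm_sub_norm_le (eul U z₀ ((1 / 2) ^ n) i)
      (g ((i : ℝ) * (1 / 2) ^ n) - U ((i : ℝ) * (1 / 2) ^ n))
    linarith
  have hi₀n : i₀ ≤ T * 2 ^ n := by
    have h4 : (i₀ : ℝ) * (1 / 2) ^ n * 2 ^ n ≤ (T : ℝ) * 2 ^ n :=
      mul_le_mul_of_nonneg_right hi₀ (by positivity)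
    have h5 : (i₀ : ℝ) * (1 / 2) ^ n * 2 ^ n = i₀ := by
      rw [mul_assoc, mul_comm ((1 / 2 : ℝ) ^ n), h22, mul_one]
    have h6 : (i₀ : ℝ) ≤ ((T * 2 ^ n : ℕ) : ℝ) := by
      push_cast
      linarith
    exact_mod_cast h6
  have hi₀pos : 0 < ‖eul U z₀ ((1 / 2) ^ n) i₀‖ := by
    have := hlo i₀ hi₀n
    linarith
  -- the index of the flag
  have hFi : 0 < F (eul U z₀ ((1 / 2) ^ n) i₀) := by
    by_contra hcon
    push Not at hcon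
    have h4 : Real.exp (∑ i ∈ Finset.range i₀, (1 / 2) ^ n *
        kk 1 ε (eul U z₀ ((1 / 2) ^ n) i)) * F (eul U z₀ ((1 / 2) ^ n) i₀) ≤ 0 :=
      mul_nonpos_of_nonneg_of_nonpos (Real.exp_pos _).le hcon
    have h5 := Real.exp_pos θ
    linarith
  have hhalf : 1 / 2 ≤ ‖eul U z₀ ((1 / 2) ^ n) i₀‖ := by
    by_contra hcon
    push Not at hcon
    rw [hF] at hFi
    simp only at hFi
    have h4 : min 1 (4 * ‖eul U z₀ ((1 / 2) ^ n) i₀‖ - 2) ≤ 0 :=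
      (min_le_right _ _).trans (by linarith)
    have h5 := mul_nonpos_of_nonneg_of_nonpos (inv_nonneg.2 hi₀pos.le) h4
    linarith
  have hFle : F (eul U z₀ ((1 / 2) ^ n) i₀) ≤ ‖eul U z₀ ((1 / 2) ^ n) i₀‖⁻¹ := by
    rw [hF]
    simp only
    calc _ ≤ ‖eul U z₀ ((1 / 2) ^ n) i₀‖⁻¹ * 1 :=
          mul_le_mul_of_nonneg_left (min_le_left _ _) (inv_nonneg.2 hi₀pos.le)
      _ = _ := mul_one _
  have hflag := hi₀'.trans (mul_le_mul_of_nonneg_left hFle (Real.exp_pos _).le)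
  rw [hexp _ hi₀pos] at hflag
  have hflag' := Real.exp_le_exp.1 hflag
  have hZ : ∀ i, Zq W z₀ ((1 / 2) ^ n) ω i = eul U z₀ ((1 / 2) ^ n) i := fun i => by
    rw [hUd]
    rfl
  have hmem : ω ∈ {ω | Zq W z₀ ((1 / 2) ^ n) ω ∈ An δ R (T * 2 ^ n) ∧
      Zq W z₀ ((1 / 2) ^ n) ω ∈ Fl ((1 / 2) ^ n) ε θ (T * 2 ^ n)} := by
    refine ⟨fun i hi => ?_, i₀, hi₀n, ?_, ?_⟩
    · rw [hZ]
      exact ⟨hδ.trans (hlo i hi), hup i hi⟩
    · rw [hZ]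
      exact hhalf
    · unfold phs Bs
      simp only [hZ]
      exact hflag'
  unfold Yl
  rw [Set.indicator_of_mem hmem]
  refine ENNReal.ofReal_le_ofReal (Real.exp_le_exp.2 ?_)
  unfold Bs
  simp only [hZ]
  have h5 := (abs_le.1 h2).1
  linarith

end TCWK3

/-- TC-WK3. The weak functional of a single particle on `[0,T]` (compare `occ3` and `occ`, TR/OCC).

Proof. (S2): `(q, α, δ₂, ψ₂)`; (S5): `B, c₀, y₀`. `ε₀ = min 1 (δ₂ / (4 q))`. `R₀ = exp (max (max (1/y₀) 1)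
(2B))`, so `y := 1 / log R` satisfies `0 < y ≤ y₀`, `y ≤ 1`, `B y ≤ 1/2`, for `R ≥ R₀`; take `ψ` from (S5).
`c₁ = min (c₀/8) (δ₂/4)`, `k z = c₁ y^2 (|z|/R)^y / |z|^2`, which is `≤ δ₂/4 / |z|^2` for `|z| ≤ R`. For
`l : ℕ` let `δ_l = (1/2)^l`. `weak_one` gives `F` on `δ_l ≤ |z| ≤ R` (with a smaller `k`), and
`ge_one_step` for `(α, ψ₂)`, `lam = q`, `c₀ = q ε + δ₂/4 ≤ δ₂` gives `G₂`; `F₂ = C₀ G₂` with `C₀` such
that `hsw` holds (`4 ≤ |z|^q C₀ |z|^α exp (-B₂)` for `|z| ≥ 1/2`, as `q + α ≥ 0`). `weak_disc` with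
`J = T n_l`, `n_l = 2^N_l`, `N_l` large, gives the bound
`C (1+|z₀|)^p exp (-(q θ)) Q^J`, `Q^J → 1`. `Y = liminf_l (indicator of An δ_l R J, Fl J) *
exp (Bs h k J)` (Fatou). Lower bound: as in `occ3`: for `l` large the scheme is in the annulus up to
`J` (`|Z| ≤ R/2`), the flag is up (`u₁`), and `Bs h k J ≥ ∫ k (Z) - 1` (`sum_close`, `k` is continuous off
`0`). For `T = 0` the statement is also true (`J = 0`). -/
theorem weak_occ [IsProbabilityMeasure μ] {a b c K : ℝ} (ha : 0 ≤ a) (hb : 0 ≤ b)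
    (hc : c ^ 2 ≤ a * b) (hK : 0 ≤ K) (hC : HasC a b c) :
    ∃ ε₀ : ℝ, 0 < ε₀ ∧ ε₀ ≤ 1 ∧ ∀ ε : ℝ, 0 < ε → ε ≤ ε₀ →
      ∃ (C c₁ R₀ q : ℝ) (p : ℕ), 0 < C ∧ 0 < c₁ ∧ 3 ≤ R₀ ∧ 2 < q ∧ ∀ R ≥ R₀, ∀ T : ℕ,
        ∀ W : ℝ → Ω → ℂ, Drv a b c K W μ → ∀ (z₀ : ℂ) (θ : ℝ), 1 / 2 ≤ ‖z₀‖ →
          ∃ Y : Ω → ℝ≥0∞, Measurable Y ∧
            ∫⁻ ω, Y ω ∂μ ≤ ENNReal.ofReal (C * (1 + ‖z₀‖) ^ p * Real.exp (-(q * θ))) ∧
            ∀ (ω : Ω) (g : ℝ → ℂ) (u₁ : ℝ), u₁ ∈ Set.Icc (0 : ℝ) T →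
              Sol (fun t => W t ω) z₀ T g → (∀ u ∈ Set.Icc (0 : ℝ) T, ‖g u - W u ω‖ ≤ R / 2) →
              3 / 4 ≤ ‖g u₁ - W u₁ ω‖ → θ < ph (fun t => W t ω) g ε u₁ →
              ENNReal.ofReal (Real.exp (c₁ / Real.log R ^ 2 * ∫ u in (0 : ℝ)..T,
                (‖g u - W u ω‖ / R) ^ (1 / Real.log R) / ‖g u - W u ω‖ ^ 2)) ≤
                ENNReal.ofReal C * Y ω := by
  obtain ⟨⟨q, α, δ₂, ψ₂, hq, hqa, hδ₂, s2, p2, g2⟩, -, ⟨B, c₀, y₀, hB, hc₀, hy₀, h5⟩, -⟩ := hC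
  obtain ⟨B₂, hB₂⟩ := EXaux.bdd s2.continuous p2
  have hq0 : 0 < q := by linarith
  obtain ⟨ε₀, hε₀⟩ : ∃ ε₀ : ℝ, ε₀ = min 1 (δ₂ / (4 * q)) := ⟨_, rfl⟩
  refine ⟨ε₀, ?_, ?_, ?_⟩
  · rw [hε₀]
    exact lt_min one_pos (by positivity)
  · rw [hε₀]
    exact min_le_left _ _
  intro ε hε hεε
  have hqε : q * ε ≤ δ₂ / 4 := by
    have h1 : ε ≤ δ₂ / (4 * q) := hεε.trans (hε₀ ▸ min_le_right _ _)
    rw [le_div_iff₀ (by positivity)] at h1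
    linarith
  obtain ⟨c₁, hc₁⟩ : ∃ c₁ : ℝ, c₁ = min (c₀ / 8) (δ₂ / 4) := ⟨_, rfl⟩
  have hc₁p : 0 < c₁ := by
    rw [hc₁]
    exact lt_min (by positivity) (by positivity)
  have hc₁0 : c₁ ≤ c₀ / 8 := hc₁ ▸ min_le_left _ _
  have hc₁2 : c₁ ≤ δ₂ / 4 := hc₁ ▸ min_le_right _ _
  obtain ⟨p, hp⟩ : ∃ p : ℕ, |α| ≤ p := ⟨⌈|α|⌉₊, Nat.le_ceil _⟩
  obtain ⟨L, hL⟩ : ∃ L : ℝ, L = max (max (1 / y₀) 1) (2 * B) := ⟨_, rfl⟩
  obtain ⟨C₂, hC₂⟩ : ∃ C₂ : ℝ, C₂ = 4 * Real.exp ((q + α) * Real.log 2 + B₂) *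
    Real.exp (|α| * Real.log 2 + B₂) := ⟨_, rfl⟩
  have hC₂p : 0 < C₂ := by
    rw [hC₂]
    positivity
  refine ⟨C₂ + Real.exp 1, c₁, max 3 (Real.exp L), q, p, by positivity, hc₁p, le_max_left _ _,
    hq, ?_⟩
  intro R hR T W hW z₀ θ hz
  have hR3 : 3 ≤ R := (le_max_left _ _).trans hR
  have hR0 : 0 < R := by linarith
  have hLR : L ≤ Real.log R := by
    rw [Real.le_log_iff_exp_le hR0]
    exact (le_max_right _ _).trans hR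
  have hL1 : 1 ≤ L := hL ▸ (le_max_right _ _).trans (le_max_left _ _)
  have hLy : 1 / y₀ ≤ L := hL ▸ (le_max_left _ _).trans (le_max_left _ _)
  have hLB : 2 * B ≤ L := hL ▸ le_max_right _ _
  have hlog : 0 < Real.log R := by linarith
  obtain ⟨y, hy⟩ : ∃ y : ℝ, y = 1 / Real.log R := ⟨_, rfl⟩
  have hyp : 0 < y := by
    rw [hy]
    positivity
  have hyl : y * Real.log R = 1 := by
    rw [hy]
    exact one_div_mul_cancel hlog.ne'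
  have hy1 : y ≤ 1 := by nlinarith
  have hyy : y ≤ y₀ := by
    have h1 : 1 / y₀ ≤ Real.log R := hLy.trans hLR
    rw [div_le_iff₀ hy₀] at h1
    rw [hy, div_le_iff₀ hlog]
    linarith
  have hyB : B * y ≤ 1 / 2 := by
    have h1 : 2 * B ≤ Real.log R := hLB.trans hLR
    have h2 := mul_le_mul_of_nonneg_right h1 hyp.le
    linarith
  obtain ⟨ψ, s5, p5, b5, g5⟩ := h5 y hyp hyy
  have hδR : ∀ l : ℕ, ((1 : ℝ) / 2) ^ l ≤ R := fun l =>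
    (pow_le_one₀ (by norm_num) (by norm_num)).trans (by linarith)
  choose C' hC' h₀ hh₀ hdisc using fun l : ℕ => TCWK3.disc (μ := μ) (c := c) ha hb hK hq hqa hδ₂
    s2 p2 g2 hB₂ s5 p5 hyp hy1 hc₀ (fun θ => (b5 θ).trans hyB) g5 hc₁p hc₁0 hc₁2 hqε hp
    (R := R) (δ := (1 / 2) ^ l) (by positivity) (hδR l)
  have hN : ∀ l : ℕ, ∃ n : ℕ, l ≤ n ∧ ((1 : ℝ) / 2) ^ n ≤ h₀ l ∧
      C' l * √((1 / 2) ^ n) ≤ 1 / ((l : ℝ) + 1) := by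
    intro l
    have h1 : Tendsto (fun n : ℕ => C' l * √(((1 : ℝ) / 2) ^ n)) atTop (𝓝 (C' l * √0)) :=
      ((Real.continuous_sqrt.tendsto 0).comp EulerAux.tendsto_h).const_mul _
    rw [Real.sqrt_zero, mul_zero] at h1
    have h2 : (0 : ℝ) < 1 / ((l : ℝ) + 1) := by positivity
    obtain ⟨n, hn1, hn2, hn3⟩ := ((eventually_ge_atTop l).and
      (((tendsto_order.1 EulerAux.tendsto_h).2 _ (hh₀ l)).and
        ((tendsto_order.1 h1).2 _ h2))).exists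
    exact ⟨n, hn1, hn2.le, hn3.le⟩
  choose n hnl hn₀ hn' using hN
  have hn : Tendsto n atTop atTop := tendsto_atTop_mono hnl tendsto_id
  have hYm : ∀ l : ℕ, Measurable (TCWK3.Yl W z₀ c₁ y ε θ ((1 / 2) ^ l) R T (n l)) := fun l =>
    TCWK3.Yl_meas hW z₀ c₁ y ε θ ((1 / 2) ^ l) R T (n l)
  refine ⟨fun ω => liminf (fun l => TCWK3.Yl W z₀ c₁ y ε θ ((1 / 2) ^ l) R T (n l) ω) atTop,
    Measurable.liminf hYm, ?_, ?_⟩
  · have hexp : ∀ l : ℕ, ∫⁻ ω, TCWK3.Yl W z₀ c₁ y ε θ ((1 / 2) ^ l) R T (n l) ω ∂μ ≤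
        ENNReal.ofReal (C₂ * (1 + ‖z₀‖) ^ p *
          Real.exp ((T : ℝ) * (1 / ((l : ℝ) + 1))) * Real.exp (-(q * θ))) := by
      intro l
      have hh : (0 : ℝ) < (1 / 2) ^ n l := by positivity
      unfold TCWK3.Yl
      rw [lintegral_indicator (TCWK3.set_m hW z₀ hh ((1 / 2) ^ l) R ε θ (T * 2 ^ n l))]
      refine (hdisc l W hW _ hh (hn₀ l) z₀ θ hz (T * 2 ^ n l)).trans ?_
      rw [← hC₂]
      refine ENNReal.ofReal_le_ofReal ?_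
      have h22 : (2 : ℝ) ^ n l * (1 / 2) ^ n l = 1 := by rw [← mul_pow]; norm_num
      have h1 : (((T * 2 ^ n l : ℕ) : ℝ)) * (1 / 2) ^ n l = T := by
        push_cast
        rw [mul_assoc, h22, mul_one]
      have h2 : C' l * ((((T * 2 ^ n l : ℕ) : ℝ)) * (1 / 2) ^ n l) * √((1 / 2) ^ n l) ≤
          (T : ℝ) * (1 / ((l : ℝ) + 1)) := by
        rw [h1]
        have h4 := mul_le_mul_of_nonneg_left (hn' l) (Nat.cast_nonneg (α := ℝ) T)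
        linarith
      have h3 := Real.exp_le_exp.2 h2
      gcongr
    refine (lintegral_liminf_le hYm).trans ((liminf_le_liminf
      (Eventually.of_forall hexp)).trans ?_)
    have hlim : Tendsto (fun l : ℕ => ENNReal.ofReal (C₂ * (1 + ‖z₀‖) ^ p *
        Real.exp ((T : ℝ) * (1 / ((l : ℝ) + 1))) * Real.exp (-(q * θ)))) atTop
        (𝓝 (ENNReal.ofReal (C₂ * (1 + ‖z₀‖) ^ p *
          Real.exp ((T : ℝ) * 0) * Real.exp (-(q * θ))))) := by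
      refine ENNReal.tendsto_ofReal (Tendsto.mul_const _ (Tendsto.const_mul _ ?_))
      exact (Real.continuous_exp.tendsto _).comp
        (tendsto_one_div_add_atTop_nhds_zero_nat.const_mul _)
    rw [hlim.liminf_eq]
    refine ENNReal.ofReal_le_ofReal ?_
    rw [mul_zero, Real.exp_zero, mul_one]
    have h6 : C₂ ≤ C₂ + Real.exp 1 := by linarith [Real.exp_pos 1]
    gcongr
  · intro ω g u₁ hu₁ hs hc2 h34 hfl
    obtain ⟨δ₀, hδ₀, hev⟩ := TCWK3.low_bound (c₁ := c₁) hyp (by linarith) (hW.cont ω)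
      (hW.zero 0 le_rfl ω) hu₁ hs hc2 h34 hfl
    have h1 : ENNReal.ofReal (Real.exp ((∫ u in (0 : ℝ)..T,
        TCWK3.kw c₁ y R (g u - W u ω)) - 1)) ≤
        liminf (fun l => TCWK3.Yl W z₀ c₁ y ε θ ((1 / 2) ^ l) R T (n l) ω) atTop := by
      refine le_liminf_of_le (by isBoundedDefault) ?_
      have h2 : ∀ᶠ l : ℕ in atTop, ((1 : ℝ) / 2) ^ l < δ₀ :=
        (tendsto_order.1 EulerAux.tendsto_h).2 _ hδ₀
      filter_upwards [hn.eventually hev, h2] with l h3 h4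
      exact h3 _ h4.le
    refine le_trans ?_ (mul_le_mul_right h1 _)
    rw [← ENNReal.ofReal_mul (by positivity)]
    refine ENNReal.ofReal_le_ofReal ?_
    have h3 : ∫ u in (0 : ℝ)..T, TCWK3.kw c₁ y R (g u - W u ω) =
        c₁ / Real.log R ^ 2 * ∫ u in (0 : ℝ)..T,
          (‖g u - W u ω‖ / R) ^ (1 / Real.log R) / ‖g u - W u ω‖ ^ 2 := by
      rw [← intervalIntegral.integral_const_mul]
      congr 1
      funext u
      unfold TCWK3.kw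
      rw [hy]
      ring
    rw [h3, Real.exp_sub]
    have h6 := Real.exp_pos 1
    rw [mul_div_assoc', le_div_iff₀ h6, mul_comm]
    exact mul_le_mul_of_nonneg_right (by linarith) (Real.exp_pos _).le

end

end Pool.Agent.SLE
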