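import Pool.Agent.Lib.MP_c17912_pr_TC.WK3
import Pool.Agent.Lib.MP_c17912_pr_TR.SHD
import Pool.Agent.Lib.MP_c17912_pr_TR.STR

set_option autoImplicit false

open MeasureTheory ProbabilityTheory Filter
open scoped NNReal ENNReal Topology Real

namespace Pool.Agent.SLE

noncomputable section

namespace TCWK4

/-- the pointwise estimate -/
theorem pw {R x x' : ℝ} (hR : 3 ≤ R) (hx : 1 ≤ x) (h1 : 3 / 4 * x ≤ x') (h2 : x' ≤ 5 / 4 * x) :
    1 / x ^ 2 ≤ 8 * ((x' / R) ^ (1 / Real.log R) / x' ^ 2) := by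
  have hR0 : 0 < R := by linarith
  have hL : 1 ≤ Real.log R := by
    rw [Real.le_log_iff_exp_le hR0]
    have := Real.exp_one_lt_d9
    linarith
  have hL0 : 0 < Real.log R := by linarith
  have hx'0 : 0 < x' := by linarith
  have e1 : (27 : ℝ) / 100 ≤ (x' / R) ^ (1 / Real.log R) := by
    have a1 : 3 / 4 / R ≤ x' / R := by
      gcongr
      linarith
    have a2 : (3 / 4 / R) ^ (1 / Real.log R) ≤ (x' / R) ^ (1 / Real.log R) :=
      Real.rpow_le_rpow (by positivity) a1 (by positivity)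
    refine le_trans ?_ a2
    rw [Real.rpow_def_of_pos (by positivity), Real.log_div (by norm_num) hR0.ne']
    have a3 : Real.log (3 / 4) ≤ 0 := Real.log_nonpos (by norm_num) (by norm_num)
    have a4 : Real.log (3 / 4) + (-1) ≤ (Real.log (3 / 4) - Real.log R) * (1 / Real.log R) := by
      have a5 : (Real.log (3 / 4) - Real.log R) * (1 / Real.log R) =
          Real.log (3 / 4) * (1 / Real.log R) - 1 := by
        field_simp
      rw [a5]
      have a6 : 1 / Real.log R ≤ 1 := by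
        rw [div_le_one hL0]
        exact hL
      nlinarith
    refine le_trans ?_ (Real.exp_le_exp.2 a4)
    rw [Real.exp_add, Real.exp_log (by norm_num)]
    have a7 := Real.exp_neg_one_gt_d9
    linarith
  have e2 : 16 / 25 * (1 / x ^ 2) ≤ 1 / x' ^ 2 := by
    have b1 : x' ^ 2 ≤ (5 / 4 * x) ^ 2 := pow_le_pow_left₀ hx'0.le h2 2
    have b2 : 1 / (5 / 4 * x) ^ 2 ≤ 1 / x' ^ 2 := by
      apply one_div_le_one_div_of_le (by positivity) b1
    refine le_trans (le_of_eq ?_) b2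
    have : x ≠ 0 := by linarith
    field_simp
    norm_num
  have e3 : 0 ≤ 1 / x ^ 2 := by positivity
  have e4 : 27 / 100 * (16 / 25 * (1 / x ^ 2)) ≤ (x' / R) ^ (1 / Real.log R) * (1 / x' ^ 2) :=
    mul_le_mul e1 e2 (by positivity) (le_trans (by norm_num) e1)
  have e5 : (x' / R) ^ (1 / Real.log R) / x' ^ 2 = (x' / R) ^ (1 / Real.log R) * (1 / x' ^ 2) := by
    rw [mul_one_div]
  rw [e5]
  linarith

/-- the clock of the cells which are not low -/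
theorem xx_le {U : ℝ → ℂ} (hU : Continuous U) {z z' : ℂ} {T : ℕ} {R : ℝ} {g g' : ℝ → ℂ}
    (hR : 3 ≤ R) (hg : Sol U z T g) (hg' : Sol U z' T g')
    (h : ∀ u ∈ Set.Icc (0 : ℝ) T, ‖g' u - g u‖ ≤ ‖g u - U u‖ / 4) :
    XX U g 1 T ≤ 8 * ∫ u in (0 : ℝ)..T,
      (‖g' u - U u‖ / R) ^ (1 / Real.log R) / ‖g' u - U u‖ ^ 2 := by
  have hR0 : 0 < R := by linarith
  have c1 : ContinuousOn (fun v => ‖g v - U v‖) (Set.Icc (0 : ℝ) T) :=
    (ContinuousOn.sub (fun v hv => (hg.2.2 v hv).continuousWithinAt) hU.continuousOn).norm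
  have c2 : ContinuousOn (fun v => ‖g' v - U v‖) (Set.Icc (0 : ℝ) T) :=
    (ContinuousOn.sub (fun v hv => (hg'.2.2 v hv).continuousWithinAt) hU.continuousOn).norm
  have n1 : ∀ v ∈ Set.Icc (0 : ℝ) T, ‖g v - U v‖ ≠ 0 := fun v hv =>
    norm_ne_zero_iff.2 (sub_ne_zero.2 (hg.2.1 v hv))
  have n2 : ∀ v ∈ Set.Icc (0 : ℝ) T, ‖g' v - U v‖ ≠ 0 := fun v hv =>
    norm_ne_zero_iff.2 (sub_ne_zero.2 (hg'.2.1 v hv))
  have c3 : ContinuousOn (fun v => 1 / ‖g v - U v‖ ^ 2) (Set.Icc (0 : ℝ) T) :=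
    continuousOn_const.div (c1.pow 2) fun v hv => pow_ne_zero 2 (n1 v hv)
  set f : ℝ → ℝ := fun u => (‖g' u - U u‖ / R) ^ (1 / Real.log R) / ‖g' u - U u‖ ^ 2 with hf
  have c4 : ContinuousOn f (Set.Icc (0 : ℝ) T) := by
    refine ContinuousOn.div ?_ (c2.pow 2) fun v hv => pow_ne_zero 2 (n2 v hv)
    exact (c2.div_const R).rpow_const fun v hv => Or.inl (div_ne_zero (n2 v hv) hR0.ne')
  have hsub : ∀ j : ℕ, j < T → Set.Icc (j : ℝ) ((j : ℝ) + 1) ⊆ Set.Icc (0 : ℝ) T := by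
    intro j hj u hu
    have h1 : (0 : ℝ) ≤ j := Nat.cast_nonneg j
    have h2 : ((j : ℝ) + 1) ≤ T := by exact_mod_cast hj
    exact ⟨h1.trans hu.1, hu.2.trans h2⟩
  have i1 : ∀ j : ℕ, j < T → IntervalIntegrable f volume (j : ℝ) (((j + 1 : ℕ)) : ℝ) := by
    intro j hj
    refine ContinuousOn.intervalIntegrable ?_
    rw [Set.uIcc_of_le (by push_cast; linarith)]
    push_cast
    exact c4.mono (hsub j hj)
  have e1 := intervalIntegral.sum_integral_adjacent_intervals (f := f) (μ := volume)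
    (a := fun j : ℕ => (j : ℝ)) (n := T) i1
  have e2 : ∫ u in (0 : ℝ)..T, f u =
      ∑ j ∈ Finset.range T, ∫ u in (j : ℝ)..((j + 1 : ℕ) : ℝ), f u := by
    rw [e1, Nat.cast_zero]
  have fnn : ∀ u, 0 ≤ f u := by
    intro u
    rw [hf]
    positivity
  rw [e2, Finset.mul_sum, XX]
  refine Finset.sum_le_sum fun j hj => ?_
  rw [Finset.mem_range] at hj
  have hjj : (j : ℝ) ≤ ((j + 1 : ℕ) : ℝ) := by push_cast; linarith
  split_ifs with hl
  · exact mul_nonneg (by norm_num) (intervalIntegral.integral_nonneg hjj fun u _ => fnn u)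
  · have e3 : lk U g ((j : ℝ) * 1 ^ 2) (((j : ℝ) + 1) * 1 ^ 2) =
        ∫ u in (j : ℝ)..((j + 1 : ℕ) : ℝ), 1 / ‖g u - U u‖ ^ 2 := by
      rw [lk]
      push_cast
      rw [one_pow, mul_one, mul_one]
    rw [e3, ← intervalIntegral.integral_const_mul]
    refine intervalIntegral.integral_mono_on hjj ?_ ((i1 j hj).const_mul 8) fun u hu => ?_
    · refine ContinuousOn.intervalIntegrable ?_
      rw [Set.uIcc_of_le hjj]
      push_cast
      exact c3.mono (hsub j hj)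
    · have hu' : u ∈ Set.Icc (j : ℝ) ((j : ℝ) + 1) := by
        push_cast at hu
        exact hu
      have hu2 := hsub j hj hu'
      have h1 : 1 < ‖g u - U u‖ := by
        by_contra hcon
        rw [not_lt] at hcon
        apply hl
        refine ⟨u, ?_, hcon⟩
        rw [one_pow, mul_one, mul_one]
        exact hu'
      have h2 := h u hu2
      have h3 := norm_sub_norm_le (g u - U u) (g u - g' u)
      have h4 : (g u - U u) - (g u - g' u) = g' u - U u := by ring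
      rw [h4, norm_sub_rev (g u) (g' u)] at h3
      have h5 : g' u - U u = (g' u - g u) + (g u - U u) := by ring
      have h6 := norm_add_le (g' u - g u) (g u - U u)
      rw [← h5] at h6
      exact pw hR h1.le (by linarith) (by linarith)

/-- the path argument -/
theorem flag {U : ℝ → ℂ} (hU : Continuous U) (h0 : U 0 = 0) {z : ℂ} {T : ℕ} {ε R : ℝ}
    (hε : 0 < ε) (hε2 : ε ≤ 2) (hR : 3 ≤ R) {g : ℝ → ℂ} (hg : Sol U z T g) (hz : 1 ≤ ‖z‖)
    {u₁ : ℝ} (hu₁ : u₁ ∈ Set.Icc (0 : ℝ) T)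
    (h1 : ∀ u ∈ Set.Icc (0 : ℝ) T, ‖g u - U u‖ ≤ R / 4) (h2 : 1 ≤ ‖g u₁ - U u₁‖)
    (hmax : ∀ u ∈ Set.Icc (0 : ℝ) T, ph U g ε u ≤ ph U g ε u₁)
    {s : ℕ} (hs : ‖z‖ ≤ (s : ℝ) + 1) :
    ∃ (n : ℕ) (k : ℤ × ℤ) (g' : ℝ → ℂ), k ∈ TRSTR.G s n ∧ 1 / 2 ≤ ‖TRSTR.pt n k‖ ∧
      Sol U (TRSTR.pt n k) T g' ∧ (∀ u ∈ Set.Icc (0 : ℝ) T, ‖g' u - U u‖ ≤ R / 2) ∧
      3 / 4 ≤ ‖g' u₁ - U u₁‖ ∧ TRSTR.th (Real.log (32 / ε) + 8) s 0 n < ph U g' ε u₁ ∧
      XX U g 1 T ≤ 8 * ∫ u in (0 : ℝ)..T,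
        (‖g' u - U u‖ / R) ^ (1 / Real.log R) / ‖g' u - U u‖ ^ 2 := by
  have ht0 : (0 : ℝ) ≤ T := Nat.cast_nonneg T
  set Φ : ℝ := ph U g ε u₁ with hΦ
  have hex : ∃ n : ℕ, (1 / 2 : ℝ) ^ n ≤ ε / 16 * Real.exp (-Φ) := by
    obtain ⟨n, hn⟩ := exists_pow_lt_of_lt_one
      (show 0 < ε / 16 * Real.exp (-Φ) by positivity) (show (1 / 2 : ℝ) < 1 by norm_num)
    exact ⟨n, hn.le⟩
  classical
  set n : ℕ := Nat.find hex with hn
  have hn1 : (1 / 2 : ℝ) ^ n ≤ ε / 16 * Real.exp (-Φ) := Nat.find_spec hex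
  obtain ⟨k, hk, hkz⟩ := TRSTR.near (n := n) hs
  obtain ⟨g', hg', h3, h4⟩ := shadow hU h0 ht0 hε hε2 hg hmax (hkz.trans hn1)
  have hlo : ∀ u ∈ Set.Icc (0 : ℝ) T, 3 / 4 * ‖g u - U u‖ ≤ ‖g' u - U u‖ := by
    intro u hu
    have a3 := h3 u hu
    have h := norm_sub_norm_le (g u - U u) (g u - g' u)
    have e4 : (g u - U u) - (g u - g' u) = g' u - U u := by ring
    rw [e4, norm_sub_rev (g u) (g' u)] at h
    linarith
  have hup : ∀ u ∈ Set.Icc (0 : ℝ) T, ‖g' u - U u‖ ≤ 5 / 4 * ‖g u - U u‖ := by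
    intro u hu
    have a3 := h3 u hu
    have e1 : g' u - U u = (g' u - g u) + (g u - U u) := by ring
    have := norm_add_le (g' u - g u) (g u - U u)
    rw [e1]
    linarith
  have hz0 : (0 : ℝ) ∈ Set.Icc (0 : ℝ) T := ⟨le_rfl, ht0⟩
  refine ⟨n, k, g', hk, ?_, hg', ?_, ?_, ?_, xx_le hU hR hg hg' h3⟩
  · have a1 := hlo 0 hz0
    rw [h0, sub_zero, sub_zero, hg.1, hg'.1] at a1
    linarith
  · intro u hu
    have a1 := hup u hu
    have a2 := h1 u hu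
    linarith
  · have a1 := hlo u₁ hu₁
    linarith
  · have hs0 : (0 : ℝ) ≤ s := Nat.cast_nonneg s
    have hls : 0 ≤ Real.log ((s : ℝ) + 1) := Real.log_nonneg (by linarith)
    have hl2 : 0 < Real.log 2 := Real.log_pos (by norm_num)
    have hT0 : 0 ≤ Real.log (32 / ε) := by
      apply Real.log_nonneg
      rw [le_div_iff₀ hε]
      linarith
    have b1 : Φ - 3 ≤ ph U g' ε u₁ := by
      have b2 := abs_le.1 (h4 u₁ hu₁).1
      have b3 : Real.log ‖g' u₁ - U u₁‖ ≤ Real.log (5 / 4) + Real.log ‖g u₁ - U u₁‖ := by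
        rw [← Real.log_mul (by norm_num) (by linarith)]
        apply Real.log_le_log _ (hup u₁ hu₁)
        have := hlo u₁ hu₁
        linarith
      have b4 : Real.log (5 / 4) ≤ 1 := by
        have := Real.log_le_sub_one_of_pos (show (0 : ℝ) < 5 / 4 by norm_num)
        linarith
      rw [hΦ, ph, ph]
      linarith [b2.1]
    refine lt_of_lt_of_le ?_ b1
    rw [TRSTR.th, Nat.cast_zero, zero_add, Real.log_one]
    rcases Nat.eq_zero_or_pos n with hn0 | hn0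
    · have a1 := hmax 0 hz0
      have a2 : ph U g ε 0 = -Real.log ‖z‖ := by
        simp only [ph, intervalIntegral.integral_same, h0, sub_zero, hg.1, zero_sub]
      have a3 : Real.log ‖z‖ ≤ Real.log ((s : ℝ) + 1) := Real.log_le_log (by linarith) hs
      rw [a2] at a1
      rw [hn0, Nat.cast_zero]
      linarith
    · have a1 : ¬ (1 / 2 : ℝ) ^ (n - 1) ≤ ε / 16 * Real.exp (-Φ) :=
        Nat.find_min hex (by omega)
      rw [not_le] at a1
      have a2 : (1 / 2 : ℝ) ^ n * 2 = (1 / 2 : ℝ) ^ (n - 1) := by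
        obtain ⟨j, hj⟩ : ∃ j, n = j + 1 := ⟨n - 1, by omega⟩
        rw [hj, Nat.add_sub_cancel, pow_succ]
        ring
      have a3 := Real.log_lt_log (by positivity) a1
      rw [Real.log_mul (by positivity) (Real.exp_pos _).ne', Real.log_exp, ← a2,
        Real.log_mul (by positivity) (by norm_num), Real.log_pow, one_div, Real.log_inv] at a3
      have a4 : Real.log (ε / 16) = Real.log 2 - Real.log (32 / ε) := by
        rw [← Real.log_div (by norm_num) (by positivity)]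
        congr 1
        field_simp
        norm_num
      rw [a4] at a3
      linarith

end TCWK4

variable {Ω : Type*} [MeasurableSpace Ω] {μ : Measure Ω}

/-- TC-WK4. The weak functional of all particles: the clock spent in the cells which are not low is
controlled by `(log R)^2`, for the solutions which stay in the disc of radius `R / 4` and whose
functional `ph` has its maximum over `[0,T]` at a time with `|Z| ≥ 1`.

Proof (compare `stretch3`). Grid: for naturals `s ≥ 1`, `n`: `z' = (i + j I) / 2^n`,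
`|i|, |j| ≤ (s+1) 2^n`, `1/2 ≤ |z'|`, `θ = n log 2 - Θ - log (s+1)`, `Θ = log (16/ε) + 8`;
`Y = κ₀ ∑_s s^(-P) ∑_n ∑_{z'} Y^{z',θ}` with `Y^{z',θ}` from `weak_occ`. Given the solution let
`Φ = ph u₁` be the maximum, `n` the least with `2^(-n) ≤ ε/16 exp (-Φ)`, `z'` the nearest grid point;
`shadow` gives `g'` on `[0,T]`, `|Z' - Z| ≤ |Z|/4` (so `|Z'| ≤ R/2`, `|Z'_{u₁}| ≥ 3/4`), `ph' u₁ ≥ Φ - 3 > θ`
(as in `stretch3`). On a cell `[j,j+1]` which is not low `|Z| ≥ 1`, so with `y = 1 / log R`: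
`(|Z'|/R)^y ≥ (3/4)^y R^(-y) ≥ 3/4 exp (-1)` and `1/|Z'|^2 ≥ (16/25) / |Z|^2`; so
`∫_0^T (|Z'|/R)^y / |Z'|^2 ≥ 1/8 XX U g 1 T` (the integrand is nonnegative on the low cells). -/
theorem weak_str [IsProbabilityMeasure μ] {a b c K : ℝ} (ha : 0 ≤ a) (hb : 0 ≤ b)
    (hc : c ^ 2 ≤ a * b) (hK : 0 ≤ K) (hC : HasC a b c) :
    ∃ ε₀ : ℝ, 0 < ε₀ ∧ ε₀ ≤ 1 ∧ ∀ ε : ℝ, 0 < ε → ε ≤ ε₀ →
      ∃ (C c₁ R₀ : ℝ) (p : ℕ), 1 ≤ C ∧ 0 < c₁ ∧ 3 ≤ R₀ ∧ ∀ R ≥ R₀, ∀ T : ℕ,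
        ∀ W : ℝ → Ω → ℂ, Drv a b c K W μ →
          ∃ Y : Ω → ℝ≥0∞, Measurable Y ∧ ∫⁻ ω, Y ω ∂μ ≤ 1 ∧
            ∀ (ω : Ω) (z : ℂ) (g : ℝ → ℂ) (u₁ s : ℝ), u₁ ∈ Set.Icc (0 : ℝ) T → 1 ≤ s →
              1 ≤ ‖z‖ → ‖z‖ ≤ s → Sol (fun t => W t ω) z T g →
              (∀ u ∈ Set.Icc (0 : ℝ) T, ‖g u - W u ω‖ ≤ R / 4) →
              1 ≤ ‖g u₁ - W u₁ ω‖ →
              (∀ u ∈ Set.Icc (0 : ℝ) T,
                ph (fun t => W t ω) g ε u ≤ ph (fun t => W t ω) g ε u₁) →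
              ENNReal.ofReal (Real.exp (c₁ / Real.log R ^ 2 * XX (fun t => W t ω) g 1 T)) ≤
                ENNReal.ofReal (C * s ^ p) * Y ω := by
  obtain ⟨ε₀, hε₀, hε₀1, hall⟩ := weak_occ (μ := μ) ha hb hc hK hC
  refine ⟨ε₀, hε₀, hε₀1, fun ε hε hεe => ?_⟩
  obtain ⟨C, c₁, R₀, q, p, hC0, hc₁, hR₀, hq, hocc⟩ := hall ε hε hεe
  have hε2 : ε ≤ 2 := by linarith
  obtain ⟨Q, hqQ⟩ := exists_nat_ge q
  set Θ : ℝ := Real.log (32 / ε) + 8 with hΘ
  have hΘ0 : 0 ≤ Θ := by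
    have : 0 ≤ Real.log (32 / ε) := by
      apply Real.log_nonneg
      rw [le_div_iff₀ hε]
      linarith
    linarith
  set B : ℝ := 36 * C * 10 ^ p * Real.exp (Q * Θ) with hB
  have hB0 : 0 ≤ B := by positivity
  set r : ℝ := 4 * Real.exp (-(q * Real.log 2)) with hr
  have hr0 : 0 ≤ r := by positivity
  have hr1 : r < 1 := by
    have hl2 : 0 < Real.log 2 := Real.log_pos (by norm_num)
    have h1 : Real.exp (-(q * Real.log 2)) < Real.exp (-(2 * Real.log 2)) := by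
      apply Real.exp_lt_exp.2
      nlinarith
    have h2 : Real.exp (-(2 * Real.log 2)) = 1 / 4 := by
      rw [Real.exp_neg, mul_comm, Real.exp_mul, Real.exp_log (by norm_num)]
      norm_num
    rw [h2] at h1
    linarith
  have hsum := TRSTR.bb_summable (B := B) hr0 hr1
  have hTT : 0 ≤ ∑' x, TRSTR.bb B r x := tsum_nonneg fun x => TRSTR.bb_nonneg hB0 hr0 x
  set TT : ℝ := ∑' x, TRSTR.bb B r x with hTTdef
  set κ : ℝ := 1 / (1 + TT) with hκ
  have hκ0 : 0 < κ := by positivity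
  set P : ℕ := p + Q + 4 with hP
  refine ⟨max 1 (C * 2 ^ P / κ), c₁ / 8, R₀, P, le_max_left _ _, by positivity, hR₀,
    fun R hR T W hW => ?_⟩
  have hR3 : 3 ≤ R := hR₀.trans hR
  have hF : ∀ (z₀ : ℂ) (θ : ℝ), ∃ Y : Ω → ℝ≥0∞, Measurable Y ∧
      ∫⁻ ω, Y ω ∂μ ≤ ENNReal.ofReal (C * (1 + ‖z₀‖) ^ p * Real.exp (-(q * θ))) ∧
      (1 / 2 ≤ ‖z₀‖ → ∀ (ω : Ω) (g : ℝ → ℂ) (u₁ : ℝ), u₁ ∈ Set.Icc (0 : ℝ) T →
        Sol (fun t => W t ω) z₀ T g → (∀ u ∈ Set.Icc (0 : ℝ) T, ‖g u - W u ω‖ ≤ R / 2) →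
        3 / 4 ≤ ‖g u₁ - W u₁ ω‖ → θ < ph (fun t => W t ω) g ε u₁ →
        ENNReal.ofReal (Real.exp (c₁ / Real.log R ^ 2 * ∫ u in (0 : ℝ)..T,
          (‖g u - W u ω‖ / R) ^ (1 / Real.log R) / ‖g u - W u ω‖ ^ 2)) ≤
          ENNReal.ofReal C * Y ω) := by
    intro z₀ θ
    by_cases hz : 1 / 2 ≤ ‖z₀‖
    · obtain ⟨Y, h1, h2, h3⟩ := hocc R hR T W hW z₀ θ hz
      exact ⟨Y, h1, h2, fun _ => h3⟩
    · exact ⟨fun _ => 0, measurable_const, by simp, fun h => absurd h hz⟩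
  choose F hF1 hF2 hF3 using hF
  have hwt : ∀ x : ℕ × ℕ × ℕ, 0 < TRSTR.wt P x.1 x.2.1 := fun x => by
    unfold TRSTR.wt
    positivity
  refine ⟨fun ω => ENNReal.ofReal κ * ∑' x : ℕ × ℕ × ℕ, ENNReal.ofReal (TRSTR.wt P x.1 x.2.1) *
    ∑ k ∈ TRSTR.G x.1 x.2.2, F (TRSTR.pt x.2.2 k) (TRSTR.th Θ x.1 x.2.1 x.2.2) ω, ?_, ?_, ?_⟩
  · exact TRSTR.meas_Y _ _ (fun x k => F (TRSTR.pt x.2.2 k) (TRSTR.th Θ x.1 x.2.1 x.2.2))
      fun x k => hF1 _ _
  · have hN := TRSTR.exp_Y (μ := μ) (κ := ENNReal.ofReal κ) (fun x => (hwt x).le)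
      (fun x k t => if t = 1 then F (TRSTR.pt x.2.2 k) (TRSTR.th Θ x.1 x.2.1 x.2.2) else 0)
      (fun x k t => by
        split_ifs
        · exact hF1 _ _
        · exact measurable_const)
      (fun x k => C * (2 * ((x.2.1 : ℝ) + 1)) ^ p * (1 + ‖TRSTR.pt x.2.2 k‖) ^ p *
        Real.exp (-(q * TRSTR.th Θ x.1 x.2.1 x.2.2))) ?_
      (b := TRSTR.bb B r) ?_ ?_ 1
    · rw [Finset.sum_range_one] at hN
      simpa using hN
    · intro x k N
      have hd : ∫⁻ ω, F (TRSTR.pt x.2.2 k) (TRSTR.th Θ x.1 x.2.1 x.2.2) ω ∂μ ≤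
          ENNReal.ofReal (C * (2 * ((x.2.1 : ℝ) + 1)) ^ p * (1 + ‖TRSTR.pt x.2.2 k‖) ^ p *
            Real.exp (-(q * TRSTR.th Θ x.1 x.2.1 x.2.2))) := by
        refine (hF2 _ _).trans (ENNReal.ofReal_le_ofReal ?_)
        have h1 : (1 : ℝ) ≤ (2 * ((x.2.1 : ℝ) + 1)) ^ p := by
          apply one_le_pow₀
          have : (0 : ℝ) ≤ x.2.1 := Nat.cast_nonneg _
          linarith
        have h2 : C * (1 + ‖TRSTR.pt x.2.2 k‖) ^ p ≤
            C * (2 * ((x.2.1 : ℝ) + 1)) ^ p * (1 + ‖TRSTR.pt x.2.2 k‖) ^ p := by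
          have h3 : 0 ≤ C * (1 + ‖TRSTR.pt x.2.2 k‖) ^ p := by positivity
          nlinarith
        exact mul_le_mul_of_nonneg_right h2 (Real.exp_pos _).le
      rcases N with _ | N
      · simp
      · rw [Finset.sum_range_succ']
        have h4 : ∑ t ∈ Finset.range N, ∫⁻ ω, (if t + 1 + 1 = 1 then
            F (TRSTR.pt x.2.2 k) (TRSTR.th Θ x.1 x.2.1 x.2.2) else 0) ω ∂μ = 0 := by
          refine Finset.sum_eq_zero fun t _ => ?_
          rw [if_neg (by omega)]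
          simp
        rw [h4, zero_add]
        simpa using hd
    · intro x k hk
      exact TRSTR.term_le hC0.le hΘ0 hqQ x.1 x.2.1 x.2.2 hk
    · rw [← ENNReal.ofReal_tsum_of_nonneg (fun x => TRSTR.bb_nonneg hB0 hr0 x) hsum,
        ← ENNReal.ofReal_mul hκ0.le, ← hTTdef, hκ]
      apply ENNReal.ofReal_le_one.2
      rw [one_div, inv_mul_le_iff₀ (by positivity)]
      linarith
  · intro ω z g u₁ s hu₁ hs hz hzs hg h1 h2 hmax
    have hcs : ⌈s⌉₊ ≠ 0 := by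
      have : 0 < ⌈s⌉₊ := Nat.ceil_pos.2 (by linarith)
      omega
    obtain ⟨s', hs'⟩ := Nat.exists_eq_succ_of_ne_zero hcs
    have a1 : s ≤ (s' : ℝ) + 1 := by
      have := Nat.le_ceil s
      rw [hs'] at this
      push_cast at this
      exact this
    have a2 : (s' : ℝ) + 1 ≤ 2 * s := by
      have := Nat.ceil_lt_add_one (show 0 ≤ s by linarith)
      rw [hs'] at this
      push_cast at this
      linarith
    obtain ⟨n, k, g', hk, hpt, hg', hup, hlo, hfl, hXX⟩ := TCWK4.flag (U := fun t => W t ω)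
      (hW.cont ω) (hW.zero 0 le_rfl ω) hε hε2 hR3 hg hz hu₁ h1 h2 hmax (hzs.trans a1)
    have key := hF3 (TRSTR.pt n k) (TRSTR.th Θ s' 0 n) hpt ω g' u₁ hu₁ hg' hup hlo hfl
    have b1 : Real.exp (c₁ / 8 / Real.log R ^ 2 * XX (fun t => W t ω) g 1 T) ≤
        Real.exp (c₁ / Real.log R ^ 2 * ∫ u in (0 : ℝ)..T,
          (‖g' u - W u ω‖ / R) ^ (1 / Real.log R) / ‖g' u - W u ω‖ ^ 2) := by
      apply Real.exp_le_exp.2
      have b2 : 0 ≤ c₁ / 8 / Real.log R ^ 2 := by positivity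
      refine (mul_le_mul_of_nonneg_left hXX b2).trans (le_of_eq ?_)
      ring
    have b2 : C / (κ * TRSTR.wt P s' 0) ≤ max 1 (C * 2 ^ P / κ) * s ^ P := by
      have c1 : (((s' : ℝ) + 1) * (((0 : ℕ) : ℝ) + 1)) ^ P ≤ (2 * s) ^ P := by
        have c2 : (0 : ℝ) ≤ s' := Nat.cast_nonneg s'
        refine pow_le_pow_left₀ (by positivity) ?_ P
        rw [Nat.cast_zero, zero_add, mul_one]
        exact a2
      calc C / (κ * TRSTR.wt P s' 0)
          = C / κ * (((s' : ℝ) + 1) * (((0 : ℕ) : ℝ) + 1)) ^ P := by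
            unfold TRSTR.wt
            field_simp
        _ ≤ C / κ * (2 * s) ^ P := by gcongr
        _ = C * 2 ^ P / κ * s ^ P := by
            rw [mul_pow]
            ring
        _ ≤ _ := by
            gcongr
            exact le_max_right _ _
    have b3 := TRSTR.low_Y (Ω := Ω) hκ0 (w := fun x => TRSTR.wt P x.1 x.2.1)
      (fun x k => F (TRSTR.pt x.2.2 k) (TRSTR.th Θ x.1 x.2.1 x.2.2)) (s', 0, n)
      (hwt (s', 0, n)) (k := k) hk hC0.le b2 ω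
    exact (ENNReal.ofReal_le_ofReal b1).trans (key.trans b3)

end

end Pool.Agent.SLE
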